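import Pool.Agent.Lib_KF.Defs

/-!
# The finite projection `Spec R → ℂ ^ (n + 1)`, analytic families of arcs

A point of the cone `Spec R` is a homomorphism `ν : R →ₐ[ℂ] ℂ`.
-/

open MeasureTheory
open scoped ENNReal NNReal

namespace Pool.Agent.Lib_KF

open Pool.Agent.Lib_GD

/-- The fibre of `Spec R → ℂ ^ (n + 1)` over `y`. -/
def fib {R : Type} [CommRing R] [Algebra ℂ R] {n : ℕ} (x : Fin (n + 1) → R)
    (y : Fin (n + 1) → ℂ) : Set (R →ₐ[ℂ] ℂ) :=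
  {ν | ∀ b, ν (x b) = y b}

/-- The integral over the unit polydisc of the sum over the fibres of
`∏ |e i| ^ (- 2 c) |G| ^ (- 2 / r)`. -/
noncomputable def intI {R : Type} [CommRing R] [Algebra ℂ R] {n M : ℕ} (x : Fin (n + 1) → R)
    (G : R) (r : ℕ) (e : Fin M → R) (c : ℝ) : ℝ≥0∞ :=
  ∫⁻ y in Metric.ball (0 : Fin (n + 1) → ℂ) 1, ∑' ν : fib x y,
    ENNReal.ofReal ((∏ i, ‖ν.1 (e i)‖ ^ (-2 * c)) * ‖ν.1 G‖ ^ (-2 / (r : ℝ)))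

/-- `e i` at time `s`: the family `∑ s ^ l e i l`. -/
noncomputable def famAt {R : Type} [CommRing R] [Algebra ℂ R] {B : ℕ} (e : Fin (B + 1) → R)
    (s : ℂ) : R :=
  ∑ l : Fin (B + 1), (s ^ (l : ℕ)) • e l

/-- An analytic family of arcs `x(s, u)` on `X` (points `pt s u` of the cone over `X`), with the
contact orders `lam i` with the family of sections `e i (s)`, the contact order `g` with `G` and
the order `κ` of its Jacobian. -/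
structure AnChart {R : Type} [CommRing R] [Algebra ℂ R] (𝒜 : ℕ → Submodule ℂ R) {n M B : ℕ}
    (x : Fin (n + 1) → R) (G : R) (e : Fin M → Fin (B + 1) → R) (lam : Fin M → ℕ) (g κ : ℕ) where
  ρ : ℝ
  ρ_pos : 0 < ρ
  pt : ℂ → (Fin n → ℂ) → (R →ₐ[ℂ] ℂ)
  an : ∀ f, AnalyticOnNhd ℂ (fun p : ℂ × (Fin n → ℂ) => pt p.1 p.2 f) (Metric.ball 0 ρ)
  /-- the chart of `X` -/
  a : Fin (n + 1)
  unit : ∀ s u, ‖s‖ < ρ → ‖u‖ < ρ → pt s u (x a) ≠ 0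
  C : ℝ
  e_le : ∀ i s u, ‖s‖ < ρ → ‖u‖ < ρ → ‖pt s u (famAt (e i) s)‖ ≤ C * ‖s‖ ^ lam i
  G_le : ∀ s u, ‖s‖ < ρ → ‖u‖ < ρ → ‖pt s u G‖ ≤ C * ‖s‖ ^ g
  /-- `G` has order exactly `g` -/
  G_ne : ∀ s u, s ≠ 0 → ‖s‖ < ρ → ‖u‖ < ρ → pt s u G ≠ 0
  /-- for `s ≠ 0` the affine coordinates `x b / x a` of the point determine `u` -/
  inj : ∀ s u u', s ≠ 0 → ‖s‖ < ρ → ‖u‖ < ρ → ‖u'‖ < ρ →
    (∀ b : Fin n, pt s u (x (a.succAbove b)) / pt s u (x a) =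
      pt s u' (x (a.succAbove b)) / pt s u' (x a)) → u = u'
  c : ℝ
  c_pos : 0 < c
  /-- the Jacobian of `u ↦ (x b / x a)_{b ≠ a}` -/
  jac : ∀ s u, ‖s‖ < ρ → ‖u‖ < ρ → c * ‖s‖ ^ κ ≤
    ‖Matrix.det (Matrix.of fun (b l : Fin n) =>
      fderiv ℂ (fun u : Fin n → ℂ => pt s u (x (a.succAbove b)) / pt s u (x a)) u (Pi.single l 1))‖

end Pool.Agent.Lib_KF
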