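import Pool.Agent.Lib_KF.ChDefs
import Pool.Agent.Lib_KF.GeoDefs

/-! CH10: normalisation of an arc on the cone. -/

open PowerSeries

namespace Pool.Agent.Lib_KF

open Pool.Agent.Lib_GD

variable {R : Type} [CommRing R] [Algebra ℂ R] {𝒜 : ℕ → Submodule ℂ R} [GradedAlgebra 𝒜]
  {n r d : ℕ} {x : Fin (n + 1) → R} {G : R}

/-- A homogeneous polynomial at a multiple of a point. -/
private theorem ChNorm_hom {S : Type} [CommRing S] [Algebra ℂ S] {σ : Type} [Fintype σ]
    {p : MvPolynomial σ ℂ} {k : ℕ} (hp : p.IsHomogeneous k) (η : S) (y : σ → S) :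
    MvPolynomial.aeval (fun b => η * y b) p = η ^ k * MvPolynomial.aeval y p := by
  rw [MvPolynomial.aeval_def, MvPolynomial.eval₂_eq', MvPolynomial.aeval_def,
    MvPolynomial.eval₂_eq', Finset.mul_sum]
  refine Finset.sum_congr rfl fun m hm => ?_
  have h1 : ∑ b, m b = k := by
    have h2 := hp (MvPolynomial.mem_support_iff.1 hm)
    rw [← h2, Finsupp.weight_apply, Finsupp.sum_fintype _ _ (by simp)]
    simp
  have h3 : ∏ b, (η * y b) ^ m b = η ^ k * ∏ b, y b ^ m b := by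
    rw [← h1, ← Finset.prod_pow_eq_pow_sum, ← Finset.prod_mul_distrib]
    exact Finset.prod_congr rfl fun b _ => mul_pow _ _ _
  rw [h3]
  ring

/-- Dehomogenisation is injective on homogeneous polynomials. -/
private theorem ChNorm_dehom {n : ℕ} (a : Fin (n + 1)) {p : MvPolynomial (Fin (n + 1)) ℂ} {k : ℕ}
    (hp : p.IsHomogeneous k)
    (h0 : MvPolynomial.aeval (a.insertNth (α := fun _ => MvPolynomial (Fin n) ℂ) 1
      MvPolynomial.X) p = 0) : p = 0 := by
  have key : MvPolynomial.X a * p = 0 := by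
    apply MvPolynomial.funext
    intro z
    rw [map_mul, map_zero, MvPolynomial.eval_X]
    by_cases hz : z a = 0
    · rw [hz, zero_mul]
    · have h1 : (fun b => z a * (z b / z a)) = z := by
        funext b
        field_simp
      have h2 := ChNorm_hom hp (z a) (fun b => z b / z a)
      rw [h1] at h2
      have h3 : MvPolynomial.aeval (fun b => z b / z a) p = 0 := by
        have h4 : (MvPolynomial.aeval (R := ℂ) (fun l : Fin n => z (a.succAbove l) / z a)).comp
            (MvPolynomial.aeval (a.insertNth (α := fun _ => MvPolynomial (Fin n) ℂ) 1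
              MvPolynomial.X)) = MvPolynomial.aeval (fun b => z b / z a) := by
          apply MvPolynomial.algHom_ext
          intro b
          refine a.succAboveCases ?_ (fun l => ?_) b
          · simp [hz]
          · simp
        rw [← h4, AlgHom.comp_apply, h0, map_zero]
      rw [h3, mul_zero] at h2
      have h5 : MvPolynomial.eval z p = 0 := by
        rw [← MvPolynomial.aeval_eq_eval]
        exact h2
      rw [h5, mul_zero]
  rcases mul_eq_zero.1 key with h | h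
  · exact absurd h (MvPolynomial.X_ne_zero a)
  · exact h

/-- A non-zero homogeneous polynomial does not vanish at `ỹ`. -/
private theorem ChNorm_ne {n : ℕ} (a : Fin (n + 1)) {S : Type} [CommRing S] [Algebra ℂ S]
    {y : Fin n → S} (hy : AlgebraicIndependent ℂ y) {p : MvPolynomial (Fin (n + 1)) ℂ} {k : ℕ}
    (hp : p.IsHomogeneous k) (h0 : p ≠ 0) :
    MvPolynomial.aeval (a.insertNth (α := fun _ => S) 1 y) p ≠ 0 := by
  intro h
  apply h0
  apply ChNorm_dehom a hp
  have h4 : (MvPolynomial.aeval (R := ℂ) y).comp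
      (MvPolynomial.aeval (a.insertNth (α := fun _ => MvPolynomial (Fin n) ℂ) 1
        MvPolynomial.X)) = MvPolynomial.aeval (a.insertNth (α := fun _ => S) 1 y) := by
    apply MvPolynomial.algHom_ext
    intro b
    refine a.succAboveCases ?_ (fun l => ?_) b
    · simp
    · simp
  rw [← h4, AlgHom.comp_apply] at h
  exact (injective_iff_map_eq_zero _).1 hy _ h

/-- A non-zero element of `R` divides a non-zero polynomial in the `x_b`. -/
private theorem ChNorm_mult (h : IsFano 𝒜 n r d x G) {g : R} (hg : g ≠ 0) :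
    ∃ p : MvPolynomial (Fin (n + 1)) ℂ, p ≠ 0 ∧ g ∣ MvPolynomial.aeval x p := by
  haveI := h.domain
  haveI := h.x_finite
  have h1 := Ideal.comap_ne_bot_of_integral_mem (R := Algebra.adjoin ℂ (Set.range x)) hg
    (Ideal.mem_span_singleton_self g)
    (Algebra.IsIntegral.isIntegral (R := Algebra.adjoin ℂ (Set.range x)) g)
  obtain ⟨c, hc, hc0⟩ := Submodule.exists_mem_ne_zero_of_ne_bot h1
  obtain ⟨c, hcm⟩ := c
  rw [Ideal.mem_comap, Ideal.mem_span_singleton] at hc
  have hcm' := hcm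
  rw [Algebra.adjoin_range_eq_range_aeval] at hcm'
  obtain ⟨p, hp⟩ := hcm'
  refine ⟨p, ?_, ?_⟩
  · rintro rfl
    apply hc0
    rw [map_zero] at hp
    exact Subtype.ext hp.symm
  · have h2 : MvPolynomial.aeval x p = c := hp
    rw [h2]
    exact hc

/-- A polynomial at a multiple of a point. -/
private theorem ChNorm_sum {S : Type} [CommRing S] [Algebra ℂ S] {σ : Type} [Fintype σ]
    (p : MvPolynomial σ ℂ) (η : S) (y : σ → S) :
    MvPolynomial.aeval (fun b => η * y b) p = ∑ k ∈ Finset.range (p.totalDegree + 1),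
      η ^ k * MvPolynomial.aeval y (MvPolynomial.homogeneousComponent k p) := by
  conv_lhs => rw [← MvPolynomial.sum_homogeneousComponent p]
  rw [map_sum]
  exact Finset.sum_congr rfl fun k _ =>
    ChNorm_hom (MvPolynomial.homogeneousComponent_isHomogeneous k p) η y

/-- A non-zero polynomial has a non-zero homogeneous component. -/
private theorem ChNorm_comp {σ : Type} {p : MvPolynomial σ ℂ} (hp : p ≠ 0) :
    ∃ k ∈ Finset.range (p.totalDegree + 1), MvPolynomial.homogeneousComponent k p ≠ 0 := by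
  by_contra hcon
  push Not at hcon
  apply hp
  rw [← MvPolynomial.sum_homogeneousComponent p]
  exact Finset.sum_eq_zero hcon

/-- The values at `x_b` in terms of the affine coordinates. -/
private theorem ChNorm_x {S : Type} [CommRing S] (v : Fin (n + 1) → S) (a : Fin (n + 1)) (η' : S)
    (ha : v a * η' = 1) (b : Fin (n + 1)) :
    v b = v a * a.insertNth (α := fun _ => S) 1 (fun l => v (a.succAbove l) * η') b := by
  refine a.succAboveCases ?_ (fun l => ?_) b
  · simp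
  · rw [Fin.insertNth_apply_succAbove]
    calc v (a.succAbove l) = v (a.succAbove l) * (v a * η') := by rw [ha, mul_one]
      _ = _ := by ring

/-- CH10a. Scaling: for `t` in a commutative `ℂ`-algebra `S` and `φ : R → S` there is
`f ↦ ∑ t ^ j φ(f_j)`, `f_j` the components of `f`. -/
theorem exists_scale {S : Type} [CommRing S] [Algebra ℂ S] (φ : R →ₐ[ℂ] S) (t : S) :
    ∃ ψ : R →ₐ[ℂ] S, ∀ j, ∀ f ∈ 𝒜 j, ψ f = t ^ j * φ f := by
  let F : ∀ i, 𝒜 i →ₗ[ℂ] S := fun i =>
    (LinearMap.mulLeft ℂ (t ^ i)).comp (φ.toLinearMap.comp (𝒜 i).subtype)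
  have hF : ∀ i (f : 𝒜 i), F i f = t ^ i * φ f := fun i f => rfl
  refine ⟨(DirectSum.toAlgebra ℂ (fun i => 𝒜 i) F ?_ ?_).comp
    (DirectSum.decomposeAlgEquiv 𝒜).toAlgHom, fun j f hf => ?_⟩
  · rw [hF]
    simp
  · intro i j ai aj
    rw [hF, hF, hF]
    simp [pow_add]
    ring
  · rw [AlgHom.comp_apply]
    have h1 : (DirectSum.decomposeAlgEquiv 𝒜).toAlgHom f = DirectSum.of (fun i => 𝒜 i) j ⟨f, hf⟩ :=
      DirectSum.decompose_of_mem 𝒜 hf
    rw [h1, DirectSum.toAlgebra_apply, DirectSum.toSemiring_of]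
    exact hF j ⟨f, hf⟩

/-- CH10b. Normalisation of an arc: apply `h.line` to the kernel of the constant coefficient of
`φ` (`x a` is not in it) to get `f₀ ∈ 𝒜 k₀`, `f₁ ∈ 𝒜 (k₀ + 1)` with `φ f₀`, `φ f₁` units, and scale
by `ω = φ f₀ / φ f₁`. -/
theorem exists_normalised (h : IsFano 𝒜 n r d x G) {L : Type} [Field L] [Algebra ℂ L]
    (φ : R →ₐ[ℂ] L⟦X⟧) (a : Fin (n + 1)) (ha : IsUnit (φ (x a))) :
    ∃ (k₀ : ℕ) (f₀ f₁ : R) (ω : L⟦X⟧) (φ₀ : R →ₐ[ℂ] L⟦X⟧), IsUnit ω ∧ f₀ ∈ 𝒜 k₀ ∧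
      f₁ ∈ 𝒜 (k₀ + 1) ∧ (∀ j, ∀ f ∈ 𝒜 j, φ₀ f = ω ^ j * φ f) ∧ φ₀ f₀ = φ₀ f₁ ∧
      IsUnit (φ₀ f₀) := by
  let q : R →+* L := (PowerSeries.constantCoeff (R := L)).comp φ.toRingHom
  have hq : ∀ f, f ∉ RingHom.ker q → IsUnit (φ f) := by
    intro f hf
    rw [PowerSeries.isUnit_iff_constantCoeff, isUnit_iff_ne_zero]
    exact fun h0 => hf ((RingHom.mem_ker).2 h0)
  obtain ⟨k₀, f₀, hf₀, f₁, hf₁, h0, h1⟩ := h.line (RingHom.ker q) (RingHom.ker_isPrime q)
    ⟨d, h.d_pos, x a, h.x_mem a, fun hk => by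
      have h2 := PowerSeries.isUnit_iff_constantCoeff.1 ha
      exact h2.ne_zero ((RingHom.mem_ker).1 hk)⟩
  have hu0 := hq f₀ h0
  have hu1 := hq f₁ h1
  obtain ⟨u0, hu0⟩ := hu0
  obtain ⟨u1, hu1⟩ := hu1
  obtain ⟨φ₀, hφ₀⟩ := exists_scale (𝒜 := 𝒜) φ ((u0 * u1⁻¹ : (L⟦X⟧)ˣ) : L⟦X⟧)
  refine ⟨k₀, f₀, f₁, _, φ₀, (u0 * u1⁻¹).isUnit, hf₀, hf₁, hφ₀, ?_, ?_⟩
  · rw [hφ₀ _ _ hf₀, hφ₀ _ _ hf₁, pow_succ, ← hu0, ← hu1, mul_assoc]
    congr 1
    rw [← Units.val_mul]
    congr 1
    rw [inv_mul_cancel_right]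
  · rw [hφ₀ _ _ hf₀, ← hu0]
    exact ((u0 * u1⁻¹).isUnit.pow k₀).mul u0.isUnit

/-- CH10c. If `φ₀ f₀ = φ₀ f₁` with `f₀`, `f₁` of degrees `k₀`, `k₀ + 1`, not zero, and the
`y_l = φ₀ (x_{a.succAbove l}) / φ₀ (x_a)` are algebraically independent over `ℂ`, then all elements
of `φ₀ R` are algebraic over `ℂ[y]`. The non-zero element `f₁ - f₀` of `R` is integral over
`ℂ[x_0, …, x_n]`, so (constant coefficient of a minimal integral equation, `R` a domain) it divides
some `P(x_0, …, x_n) ≠ 0`, and `P(φ₀ x) = 0`. With `η = φ₀ (x_a)`, `0 = ∑_j η ^ j P_j(ỹ)`, `P_j`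
the homogeneous components, `ỹ_a = 1`, `ỹ_{a.succAbove l} = y_l`; some `P_j(ỹ) ≠ 0`. So `η` is
algebraic over `ℂ[y]`, hence all `φ₀ (x_b)`, and `R` is integral over `ℂ[x]`. -/
theorem isAlgebraic_of_normalised (h : IsFano 𝒜 n r d x G) {L : Type} [Field L] [Algebra ℂ L]
    (φ₀ : R →ₐ[ℂ] L⟦X⟧) (a : Fin (n + 1)) (η' : L⟦X⟧) (ha : φ₀ (x a) * η' = 1) (k₀ : ℕ)
    (f₀ f₁ : R) (hf₀ : f₀ ∈ 𝒜 k₀) (hf₁ : f₁ ∈ 𝒜 (k₀ + 1)) (hf : φ₀ f₀ = φ₀ f₁)
    (hne : φ₀ f₀ ≠ 0)
    (hind : AlgebraicIndependent ℂ (fun l : Fin n => φ₀ (x (a.succAbove l)) * η')) (f : R) :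
    IsAlgebraic (Algebra.adjoin ℂ (Set.range fun l : Fin n => φ₀ (x (a.succAbove l)) * η'))
      (φ₀ f) := by
  classical
  haveI := h.domain
  haveI := h.x_finite
  set η := φ₀ (x a) with hη
  set y : Fin n → L⟦X⟧ := fun l => φ₀ (x (a.succAbove l)) * η' with hy
  set yt : Fin (n + 1) → L⟦X⟧ := a.insertNth (α := fun _ => L⟦X⟧) 1 y with hyt
  set B := Algebra.adjoin ℂ (Set.range y) with hB
  have hx : ∀ b, φ₀ (x b) = η * yt b := ChNorm_x (fun b => φ₀ (x b)) a η' ha
  have hytB : ∀ b, yt b ∈ B := by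
    intro b
    refine a.succAboveCases ?_ (fun l => ?_) b
    · rw [hyt, Fin.insertNth_apply_same]
      exact B.one_mem
    · rw [hyt, Fin.insertNth_apply_succAbove]
      exact Algebra.subset_adjoin ⟨l, rfl⟩
  have hrange : ∀ p : MvPolynomial (Fin (n + 1)) ℂ, MvPolynomial.aeval yt p ∈ B := by
    intro p
    have h1 : (MvPolynomial.aeval (R := ℂ) yt).range ≤ B := by
      rw [← Algebra.adjoin_range_eq_range_aeval]
      exact Algebra.adjoin_le (Set.range_subset_iff.2 hytB)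
    exact h1 ⟨p, rfl⟩
  -- an algebraic equation of `η`
  have hf₀0 : f₀ ≠ 0 := by
    rintro rfl
    exact hne (map_zero _)
  have hg : f₁ - f₀ ≠ 0 := by
    intro h0
    rw [sub_eq_zero] at h0
    rw [h0] at hf₁
    have := DirectSum.degree_eq_of_mem_mem 𝒜 hf₀ hf₁ hf₀0
    omega
  obtain ⟨p, hp, hdvd⟩ := ChNorm_mult h hg
  have hzero : MvPolynomial.aeval (fun b => η * yt b) p = 0 := by
    have h1 : φ₀ (MvPolynomial.aeval x p) = 0 := by
      obtain ⟨c, hc⟩ := hdvd
      rw [hc, map_mul, map_sub, hf, sub_self, zero_mul]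
    rw [MvPolynomial.comp_aeval_apply] at h1
    have h2 : (fun b => φ₀ (x b)) = fun b => η * yt b := funext hx
    rw [← h2, ← h1]
  rw [ChNorm_sum] at hzero
  have hηalg : IsAlgebraic B η := by
    refine ⟨∑ k ∈ Finset.range (p.totalDegree + 1), Polynomial.C
      (⟨MvPolynomial.aeval yt (MvPolynomial.homogeneousComponent k p), hrange _⟩ : B) *
      Polynomial.X ^ k, ?_, ?_⟩
    · obtain ⟨k, hk, hk0⟩ := ChNorm_comp hp
      intro h0
      have h1 := congrArg (fun q => Polynomial.coeff q k) h0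
      simp only [Polynomial.finsetSum_coeff, Polynomial.coeff_C_mul_X_pow,
        Polynomial.coeff_zero] at h1
      rw [Finset.sum_ite_eq, if_pos hk] at h1
      exact ChNorm_ne a hind (MvPolynomial.homogeneousComponent_isHomogeneous k p) hk0
        (congrArg Subtype.val h1)
    · rw [map_sum, ← hzero]
      refine Finset.sum_congr rfl fun k _ => ?_
      rw [map_mul, Polynomial.aeval_C, map_pow, Polynomial.aeval_X, mul_comm]
      rfl
  -- transitivity
  have hxK : ∀ b, φ₀ (x b) ∈ Subalgebra.algebraicClosure B L⟦X⟧ := by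
    intro b
    rw [hx]
    exact (hηalg : _).mul (isAlgebraic_algebraMap (⟨yt b, hytB b⟩ : B))
  have hCK : ∀ c : Algebra.adjoin ℂ (Set.range x), φ₀ c ∈ Subalgebra.algebraicClosure B L⟦X⟧ := by
    intro c
    have h1 : Algebra.adjoin ℂ (Set.range x) ≤
        ((Subalgebra.algebraicClosure B L⟦X⟧).restrictScalars ℂ).comap φ₀ :=
      Algebra.adjoin_le (Set.range_subset_iff.2 hxK)
    exact h1 c.2
  have hint : IsIntegral (Subalgebra.algebraicClosure B L⟦X⟧) (φ₀ f) := by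
    refine IsIntegral.map_of_comp_eq (R := Algebra.adjoin ℂ (Set.range x))
      (RingHom.codRestrict (φ₀.toRingHom.comp (algebraMap (Algebra.adjoin ℂ (Set.range x)) R))
        (Subalgebra.algebraicClosure B L⟦X⟧) hCK) φ₀.toRingHom ?_
      (Algebra.IsIntegral.isIntegral (R := Algebra.adjoin ℂ (Set.range x)) f)
    ext c
    rfl
  exact hint.isAlgebraic.restrictScalars B

/-- CH10d. In the situation of CH10c (only `φ₀ (x_a)` invertible and the independence of `y` are
needed) a non-zero homogeneous element of `R` is not killed by `φ₀`: it divides some non-zero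
homogeneous `P(x_0, …, x_n)`, and `P(φ₀ x) = η ^ j P(ỹ) ≠ 0`. -/
theorem map_ne_zero_of_homogeneous (h : IsFano 𝒜 n r d x G) {L : Type} [Field L] [Algebra ℂ L]
    (φ₀ : R →ₐ[ℂ] L⟦X⟧) (a : Fin (n + 1)) (η' : L⟦X⟧) (ha : φ₀ (x a) * η' = 1)
    (hind : AlgebraicIndependent ℂ (fun l : Fin n => φ₀ (x (a.succAbove l)) * η')) (j : ℕ) (f : R)
    (hf : f ∈ 𝒜 j) (hf0 : f ≠ 0) : φ₀ f ≠ 0 := by
  intro hφf
  set η := φ₀ (x a) with hη
  set y : Fin n → L⟦X⟧ := fun l => φ₀ (x (a.succAbove l)) * η' with hy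
  set yt : Fin (n + 1) → L⟦X⟧ := a.insertNth (α := fun _ => L⟦X⟧) 1 y with hyt
  have hx : ∀ b, φ₀ (x b) = η * yt b := ChNorm_x (fun b => φ₀ (x b)) a η' ha
  obtain ⟨ψ, hψ⟩ := exists_scale (𝒜 := 𝒜)
    ((Algebra.ofId L⟦X⟧ (Polynomial L⟦X⟧)).restrictScalars ℂ |>.comp φ₀)
    (Polynomial.X : Polynomial L⟦X⟧)
  have hψ' : ∀ j, ∀ f ∈ 𝒜 j, ψ f = Polynomial.X ^ j * Polynomial.C (φ₀ f) := hψ
  obtain ⟨p, hp, hdvd⟩ := ChNorm_mult h hf0
  have h1 : ψ (MvPolynomial.aeval x p) = 0 := by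
    obtain ⟨c, hc⟩ := hdvd
    rw [hc, map_mul, hψ' j f hf, hφf, map_zero, mul_zero, zero_mul]
  have h2 : MvPolynomial.aeval (fun b => (Polynomial.X ^ d * Polynomial.C η) *
      Polynomial.C (yt b)) p = 0 := by
    have h3 : (fun b => (Polynomial.X ^ d * Polynomial.C η) * Polynomial.C (yt b)) =
        fun b => ψ (x b) := by
      funext b
      rw [hψ' d _ (h.x_mem b), hx, map_mul, mul_assoc]
    rw [h3, ← h1, MvPolynomial.comp_aeval_apply]
  rw [ChNorm_sum] at h2
  obtain ⟨k, hk, hk0⟩ := ChNorm_comp hp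
  have h4 : ∀ k, MvPolynomial.aeval (fun b => Polynomial.C (yt b))
      (MvPolynomial.homogeneousComponent k p) =
      Polynomial.C (MvPolynomial.aeval yt (MvPolynomial.homogeneousComponent k p)) := by
    intro k
    have h6 := MvPolynomial.comp_aeval_apply (f := yt)
      ((Algebra.ofId L⟦X⟧ (Polynomial L⟦X⟧)).restrictScalars ℂ)
      (MvPolynomial.homogeneousComponent k p)
    exact h6.symm
  have h5 := congrArg (fun q => Polynomial.coeff q (d * k)) h2
  simp only [Polynomial.finsetSum_coeff, Polynomial.coeff_zero] at h5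
  rw [Finset.sum_eq_single k] at h5
  · rw [h4, mul_pow, ← pow_mul, mul_assoc, ← Polynomial.C_pow, ← Polynomial.C_mul,
      Polynomial.X_pow_mul, Polynomial.coeff_C_mul_X_pow, if_pos rfl] at h5
    have hηu : η ≠ 0 := left_ne_zero_of_mul_eq_one ha
    rcases mul_eq_zero.1 h5 with h6 | h6
    · exact pow_ne_zero k hηu h6
    · exact ChNorm_ne a hind (MvPolynomial.homogeneousComponent_isHomogeneous k p) hk0 h6
  · intro i _ hik
    rw [h4, mul_pow, ← pow_mul, mul_assoc, ← Polynomial.C_pow, ← Polynomial.C_mul,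
      Polynomial.X_pow_mul, Polynomial.coeff_C_mul_X_pow, if_neg]
    intro h6
    exact hik (Nat.eq_of_mul_eq_mul_left h.d_pos h6).symm
  · intro h6
    exact absurd hk h6

/-- `R` is a finitely generated `ℂ`-algebra. -/
theorem IsFano.finiteType (h : IsFano 𝒜 n r d x G) : Algebra.FiniteType ℂ R := by
  haveI := h.x_finite
  haveI : Algebra.FiniteType ℂ (Algebra.adjoin ℂ (Set.range x)) :=
    (Subalgebra.fg_iff_finiteType _).1 (Subalgebra.fg_def.2 ⟨_, Set.finite_range x, rfl⟩)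
  exact Algebra.FiniteType.trans (S := Algebra.adjoin ℂ (Set.range x)) inferInstance inferInstance

end Pool.Agent.Lib_KF
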