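import Pool.Agent.Lib_KF.JDet
import Pool.Agent.Lib_KF.ChNorm

/-! J02: lower bound of fibre integrals by an analytic family of arcs. -/

open MeasureTheory
open scoped ENNReal NNReal

namespace Pool.Agent.Lib_KF

open Pool.Agent.Lib_GD

/-- J02. Put `Θ(p)_b = (t₀ + p_0) ^ d pt s (p_1, …, p_n) (x_b)`. On closed balls of radius
`ρ₁ = ρ / 2` the analytic functions `pt s u (x_b)` are bounded and `pt s u (x_a)` is bounded below
(compactness). Choose `t₀` so small that `|Θ| < 1` for `|p_0| < δ ≤ t₀`, `δ` from J01c. For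
`s ≠ 0` the map `Θ` is injective on the polydisc: the ratios determine `u` (`Ch.inj`), then
`t ^ d` is determined. Change of variables
(`MeasureTheory.lintegral_image_eq_lintegral_abs_det_fderiv_mul`, real Jacobian
`|det| ^ 2 ≥ c₁' |s| ^ (2 κ)` by J01): the integral over the image of the polydisc of the function
`y ↦ ∑' ν : fib x y, w ν` is at least `c₁' |s| ^ (2 κ)` times the volume of the polydisc times
`b`, since the homomorphism `ν = t · pt s u` (CH10a, `exists_scale`) is a point of the fibre over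
`Θ(p)` (`x_b` has degree `d`) and one term of the sum. -/
theorem AnChart.lower_bound {R : Type} [CommRing R] [Algebra ℂ R] {𝒜 : ℕ → Submodule ℂ R}
    [GradedAlgebra 𝒜] {n r d : ℕ} {x : Fin (n + 1) → R} {G : R} (h : IsFano 𝒜 n r d x G)
    {M B : ℕ} {e : Fin M → Fin (B + 1) → R} {lam : Fin M → ℕ} {g κ : ℕ}
    (Ch : AnChart 𝒜 x G e lam g κ) :
    ∃ c₁ ρ₁ δ t₀ : ℝ, 0 < c₁ ∧ 0 < ρ₁ ∧ ρ₁ ≤ Ch.ρ ∧ ρ₁ ≤ 1 ∧ 0 < δ ∧ δ < t₀ ∧ t₀ ≤ 1 ∧
      ∀ s : ℂ, s ≠ 0 → ‖s‖ < ρ₁ → ∀ (w : (R →ₐ[ℂ] ℂ) → ℝ≥0∞) (b : ℝ≥0∞),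
        (∀ t : ℂ, ‖t - t₀‖ < δ → ∀ u, ‖u‖ < ρ₁ → ∀ ν : R →ₐ[ℂ] ℂ,
          (∀ j, ∀ f ∈ 𝒜 j, ν f = t ^ j * Ch.pt s u f) → b ≤ w ν) →
        ENNReal.ofReal (c₁ * ‖s‖ ^ (2 * κ)) * b ≤
          ∫⁻ y in Metric.ball (0 : Fin (n + 1) → ℂ) 1, ∑' ν : fib x y, w ν.1 := by
  have hρ := Ch.ρ_pos
  obtain ⟨ρ₁, hρ₁, hρ₁lt, hρ₁1⟩ : ∃ ρ₁ : ℝ, 0 < ρ₁ ∧ ρ₁ < Ch.ρ ∧ ρ₁ ≤ 1 :=
    ⟨min (Ch.ρ / 2) 1, lt_min (by linarith) one_pos,
      lt_of_le_of_lt (min_le_left _ _) (by linarith), min_le_right _ _⟩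
  -- bounds on a compact ball
  have hcomp : IsCompact (Metric.closedBall (0 : ℂ × (Fin n → ℂ)) ρ₁) :=
    isCompact_closedBall _ _
  have hcont : ∀ f, ContinuousOn (fun p : ℂ × (Fin n → ℂ) => Ch.pt p.1 p.2 f)
      (Metric.closedBall 0 ρ₁) := fun f =>
    (Ch.an f).continuousOn.mono (Metric.closedBall_subset_ball hρ₁lt)
  have hmem : ∀ (s : ℂ) (u : Fin n → ℂ), ‖s‖ < ρ₁ → ‖u‖ < ρ₁ →
      ((s, u) : ℂ × (Fin n → ℂ)) ∈ Metric.closedBall (0 : ℂ × (Fin n → ℂ)) ρ₁ := by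
    intro s u hs hu
    rw [mem_closedBall_zero_iff, Prod.norm_def]
    exact max_le hs.le hu.le
  choose Kb hKb using fun b : Fin (n + 1) =>
    hcomp.exists_bound_of_continuousOn (hcont (x b))
  obtain ⟨K, hK0, hK⟩ : ∃ K : ℝ, 0 ≤ K ∧ ∀ b, Kb b ≤ K :=
    ⟨∑ b, |Kb b|, Finset.sum_nonneg fun b _ => abs_nonneg _, fun b =>
      (le_abs_self _).trans (Finset.single_le_sum (f := fun b => |Kb b|)
        (fun b _ => abs_nonneg _) (Finset.mem_univ b))⟩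
  obtain ⟨η, hη, hηle⟩ : ∃ η : ℝ, 0 < η ∧
      ∀ p ∈ Metric.closedBall (0 : ℂ × (Fin n → ℂ)) ρ₁, η ≤ ‖Ch.pt p.1 p.2 (x Ch.a)‖ := by
    obtain ⟨p₀, hp₀, hmin⟩ := hcomp.exists_isMinOn
      ⟨0, Metric.mem_closedBall_self hρ₁.le⟩ (hcont (x Ch.a)).norm
    refine ⟨‖Ch.pt p₀.1 p₀.2 (x Ch.a)‖, ?_, fun p hp => hmin hp⟩
    rw [mem_closedBall_zero_iff, Prod.norm_def] at hp₀
    exact norm_pos_iff.2 (Ch.unit _ _ (lt_of_le_of_lt ((le_max_left _ _).trans hp₀) hρ₁lt)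
      (lt_of_le_of_lt ((le_max_right _ _).trans hp₀) hρ₁lt))
  -- the scaling
  obtain ⟨t₀, ht₀, ht₀1, ht₀K⟩ : ∃ t₀ : ℝ, 0 < t₀ ∧ 2 * t₀ ≤ 1 ∧ 2 * t₀ * K < 1 := by
    have h1 : 0 < K + 1 := by linarith
    refine ⟨1 / (2 * (K + 1)), by positivity, ?_, ?_⟩
    · have : 2 * (1 / (2 * (K + 1))) = 1 / (K + 1) := by field_simp
      rw [this, div_le_one h1]
      linarith
    · have : 2 * (1 / (2 * (K + 1))) * K = K / (K + 1) := by field_simp
      rw [this, div_lt_one h1]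
      linarith
  obtain ⟨δ, hδ, hδt, hδinj⟩ := pow_inj_on_disc d h.d_pos t₀ ht₀
  let U : Set (Fin (n + 1) → ℂ) := {p | ‖p 0‖ < δ ∧ ‖(fun l : Fin n => p l.succ)‖ < ρ₁}
  have hUo : IsOpen U := by
    have h1 : IsOpen {p : Fin (n + 1) → ℂ | ‖p 0‖ < δ} :=
      isOpen_lt (continuous_norm.comp (continuous_apply 0)) continuous_const
    have h2 : IsOpen {p : Fin (n + 1) → ℂ | ‖(fun l : Fin n => p l.succ)‖ < ρ₁} :=
      isOpen_lt (continuous_norm.comp (continuous_pi fun l => continuous_apply _))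
        continuous_const
    exact h1.inter h2
  have hU0 : (0 : Fin (n + 1) → ℂ) ∈ U := by
    refine ⟨?_, ?_⟩
    · simpa using hδ
    · have : (fun l : Fin n => (0 : Fin (n + 1) → ℂ) l.succ) = 0 := rfl
      rw [this, norm_zero]
      exact hρ₁
  have hUpos : 0 < volume U := hUo.measure_pos volume ⟨0, hU0⟩
  have hUfin : volume U < ⊤ := by
    have hsub : U ⊆ Metric.closedBall (0 : Fin (n + 1) → ℂ) (max δ ρ₁) := by
      rintro p ⟨hp1, hp2⟩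
      rw [mem_closedBall_zero_iff, pi_norm_le_iff_of_nonneg (hδ.le.trans (le_max_left _ _))]
      intro i
      refine Fin.cases ?_ (fun l => ?_) i
      · exact hp1.le.trans (le_max_left _ _)
      · exact ((norm_le_pi_norm (fun l : Fin n => p l.succ) l).trans hp2.le).trans
          (le_max_right _ _)
    exact (measure_mono hsub).trans_lt measure_closedBall_lt_top
  -- the constants
  let c₀ : ℝ := ((t₀ - δ) ^ (d * (n + 1) - 1) * η ^ (n + 1) * Ch.c) ^ 2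
  have hc₀ : 0 < c₀ := by
    have h1 : 0 < t₀ - δ := by linarith
    have h2 := Ch.c_pos
    positivity
  refine ⟨c₀ * (volume U).toReal, ρ₁, δ, t₀,
    mul_pos hc₀ (ENNReal.toReal_pos hUpos.ne' hUfin.ne), hρ₁, hρ₁lt.le, hρ₁1, hδ, hδt,
    by linarith, ?_⟩
  intro s hs0 hs w b hw
  have hsρ : ‖s‖ < Ch.ρ := hs.trans hρ₁lt
  let Θ : (Fin (n + 1) → ℂ) → (Fin (n + 1) → ℂ) := fun q => fun b : Fin (n + 1) =>
    ((t₀ : ℂ) + q 0) ^ d * Ch.pt s (fun l => q l.succ) (x b)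
  -- differentiability in `u`
  have hdiff : ∀ (u : Fin n → ℂ), ‖u‖ < Ch.ρ → ∀ f,
      DifferentiableAt ℂ (fun u : Fin n → ℂ => Ch.pt s u f) u := by
    intro u hu f
    have hm : ((s, u) : ℂ × (Fin n → ℂ)) ∈ Metric.ball (0 : ℂ × (Fin n → ℂ)) Ch.ρ := by
      rw [mem_ball_zero_iff, Prod.norm_def]
      exact max_lt hsρ hu
    have h1 : DifferentiableAt ℂ (fun p : ℂ × (Fin n → ℂ) => Ch.pt p.1 p.2 f) (s, u) :=
      (Ch.an f (s, u) hm).differentiableAt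
    have h2 : DifferentiableAt ℂ (fun u : Fin n → ℂ => ((s, u) : ℂ × (Fin n → ℂ))) u :=
      (differentiableAt_const s).prodMk differentiableAt_id
    exact h1.comp u h2
  have hUρ : ∀ p ∈ U, ‖(fun l : Fin n => p l.succ)‖ < Ch.ρ := fun p hp => hp.2.trans hρ₁lt
  have hne : ∀ p ∈ U, Ch.pt s (fun l => p l.succ) (x Ch.a) ≠ 0 := fun p hp =>
    Ch.unit _ _ hsρ (hUρ p hp)
  choose! f hf hfdet using fun (p : Fin (n + 1) → ℂ) (hp : p ∈ U) =>
    exists_jac h.d_pos (fun b u => Ch.pt s u (x b)) Ch.a (t₀ : ℂ) p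
      (fun b => hdiff _ (hUρ p hp) (x b)) (hne p hp)
  have hder : ∀ p ∈ U, HasFDerivWithinAt Θ ((f p).restrictScalars ℝ) U p := fun p hp =>
    ((hf p hp).restrictScalars ℝ).hasFDerivWithinAt
  -- lower bound of the Jacobian
  have hjac : ∀ p ∈ U, c₀ * ‖s‖ ^ (2 * κ) ≤ |((f p).restrictScalars ℝ).det| := by
    intro p hp
    rw [abs_det_restrictScalars, hfdet p hp]
    have h1 : (1 : ℝ) ≤ d := by exact_mod_cast h.d_pos
    have h2 : t₀ - δ ≤ ‖(t₀ : ℂ) + p 0‖ := by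
      have h3 : ‖(t₀ : ℂ)‖ ≤ ‖(t₀ : ℂ) + p 0‖ + ‖p 0‖ := by
        calc ‖(t₀ : ℂ)‖ = ‖((t₀ : ℂ) + p 0) - p 0‖ := by rw [add_sub_cancel_right]
          _ ≤ _ := norm_sub_le _ _
      have h4 : ‖(t₀ : ℂ)‖ = t₀ := by
        rw [Complex.norm_real, Real.norm_of_nonneg ht₀.le]
      have h5 := hp.1
      linarith
    have h3 : η ≤ ‖Ch.pt s (fun l => p l.succ) (x Ch.a)‖ :=
      hηle (s, fun l => p l.succ) (hmem s _ hs hp.2)
    have h4 := Ch.jac s (fun l => p l.succ) hsρ (hUρ p hp)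
    have h5 : 0 < t₀ - δ := by linarith
    have h6 : (t₀ - δ) ^ (d * (n + 1) - 1) * η ^ (n + 1) * (Ch.c * ‖s‖ ^ κ) ≤
        d * ‖(t₀ : ℂ) + p 0‖ ^ (d * (n + 1) - 1) *
          ‖Ch.pt s (fun l => p l.succ) (x Ch.a)‖ ^ (n + 1) *
          ‖Matrix.det (Matrix.of fun (b l : Fin n) =>
            fderiv ℂ (fun u : Fin n → ℂ => Ch.pt s u (x (Ch.a.succAbove b)) /
              Ch.pt s u (x Ch.a)) (fun l => p l.succ) (Pi.single l 1))‖ := by
      refine mul_le_mul ?_ h4 (mul_nonneg Ch.c_pos.le (by positivity)) (by positivity)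
      refine mul_le_mul ?_ (pow_le_pow_left₀ hη.le h3 _) (by positivity) (by positivity)
      calc (t₀ - δ) ^ (d * (n + 1) - 1) ≤ ‖(t₀ : ℂ) + p 0‖ ^ (d * (n + 1) - 1) :=
            pow_le_pow_left₀ h5.le h2 _
        _ ≤ d * ‖(t₀ : ℂ) + p 0‖ ^ (d * (n + 1) - 1) :=
            le_mul_of_one_le_left (by positivity) h1
    have h7 : c₀ * ‖s‖ ^ (2 * κ) =
        ((t₀ - δ) ^ (d * (n + 1) - 1) * η ^ (n + 1) * (Ch.c * ‖s‖ ^ κ)) ^ 2 := by
      simp only [c₀]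
      rw [pow_mul']
      ring
    rw [h7]
    refine pow_le_pow_left₀ ?_ h6 2
    exact mul_nonneg (by positivity) (mul_nonneg Ch.c_pos.le (by positivity))
  -- injectivity
  have hinj : Set.InjOn Θ U := by
    intro p hp p' hp' heq
    have heqb : ∀ b, ((t₀ : ℂ) + p 0) ^ d * Ch.pt s (fun l => p l.succ) (x b) =
        ((t₀ : ℂ) + p' 0) ^ d * Ch.pt s (fun l => p' l.succ) (x b) := fun b => congrFun heq b
    have hnz : ∀ p ∈ U, ((t₀ : ℂ) + p 0) ^ d ≠ 0 := by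
      intro p hp
      refine pow_ne_zero _ fun h0 => ?_
      have h1 : p 0 = -(t₀ : ℂ) := by linear_combination h0
      have h2 := hp.1
      rw [h1, norm_neg, Complex.norm_real, Real.norm_of_nonneg ht₀.le] at h2
      linarith
    have ha := heqb Ch.a
    have hu : (fun l : Fin n => p l.succ) = fun l : Fin n => p' l.succ := by
      refine Ch.inj s _ _ hs0 hsρ (hUρ p hp) (hUρ p' hp') fun b => ?_
      rw [div_eq_div_iff (hne p hp) (hne p' hp')]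
      have hb := heqb (Ch.a.succAbove b)
      have h1 := hnz p hp
      have h2 := hnz p' hp'
      apply mul_left_cancel₀ (mul_ne_zero h1 h2)
      calc ((t₀ : ℂ) + p 0) ^ d * ((t₀ : ℂ) + p' 0) ^ d *
            (Ch.pt s (fun l => p l.succ) (x (Ch.a.succAbove b)) *
              Ch.pt s (fun l => p' l.succ) (x Ch.a))
          = (((t₀ : ℂ) + p 0) ^ d * Ch.pt s (fun l => p l.succ) (x (Ch.a.succAbove b))) *
            (((t₀ : ℂ) + p' 0) ^ d * Ch.pt s (fun l => p' l.succ) (x Ch.a)) := by ring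
        _ = (((t₀ : ℂ) + p' 0) ^ d * Ch.pt s (fun l => p' l.succ) (x (Ch.a.succAbove b))) *
            (((t₀ : ℂ) + p 0) ^ d * Ch.pt s (fun l => p l.succ) (x Ch.a)) := by rw [hb, ha]
        _ = _ := by ring
    have ht : (t₀ : ℂ) + p 0 = (t₀ : ℂ) + p' 0 := by
      refine hδinj _ _ ?_ ?_ ?_
      · rw [add_sub_cancel_left]; exact hp.1
      · rw [add_sub_cancel_left]; exact hp'.1
      · rw [← hu] at ha
        exact mul_right_cancel₀ (hne p hp) ha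
    funext i
    refine Fin.cases ?_ (fun l => ?_) i
    · exact add_left_cancel ht
    · exact congrFun hu l
  -- the image is in the unit polydisc
  have himg : Θ '' U ⊆ Metric.ball (0 : Fin (n + 1) → ℂ) 1 := by
    rintro _ ⟨p, hp, rfl⟩
    rw [mem_ball_zero_iff, pi_norm_lt_iff one_pos]
    intro b
    change ‖((t₀ : ℂ) + p 0) ^ d * Ch.pt s (fun l => p l.succ) (x b)‖ < 1
    rw [norm_mul, norm_pow]
    have h1 : ‖(t₀ : ℂ) + p 0‖ ≤ 2 * t₀ := by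
      refine (norm_add_le _ _).trans ?_
      rw [Complex.norm_real, Real.norm_of_nonneg ht₀.le]
      have := hp.1
      linarith
    have h2 : ‖(t₀ : ℂ) + p 0‖ ^ d ≤ 2 * t₀ :=
      (pow_le_of_le_one (norm_nonneg _) (h1.trans ht₀1) (by have := h.d_pos; omega)).trans h1
    have h3 : ‖Ch.pt s (fun l => p l.succ) (x b)‖ ≤ K :=
      (hKb b (s, fun l => p l.succ) (hmem s _ hs hp.2)).trans (hK b)
    calc ‖(t₀ : ℂ) + p 0‖ ^ d * ‖Ch.pt s (fun l => p l.succ) (x b)‖ ≤ 2 * t₀ * K :=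
          mul_le_mul h2 h3 (norm_nonneg _) (by positivity)
      _ < 1 := ht₀K
  -- the integrand
  have hF : ∀ p ∈ U, b ≤ ∑' ν : fib x (Θ p), w ν.1 := by
    intro p hp
    obtain ⟨ν, hν⟩ := exists_scale (𝒜 := 𝒜) (Ch.pt s (fun l => p l.succ)) ((t₀ : ℂ) + p 0)
    have hνf : ν ∈ fib x (Θ p) := fun b => hν d (x b) (h.x_mem b)
    have h1 : b ≤ w ν := by
      refine hw ((t₀ : ℂ) + p 0) ?_ (fun l => p l.succ) hp.2 ν hν
      rw [add_sub_cancel_left]; exact hp.1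
    exact h1.trans (ENNReal.le_tsum (f := fun ν : fib x (Θ p) => w ν.1) ⟨ν, hνf⟩)
  have hS : 0 ≤ c₀ * ‖s‖ ^ (2 * κ) := by positivity
  calc ENNReal.ofReal (c₀ * (volume U).toReal * ‖s‖ ^ (2 * κ)) * b
      = (ENNReal.ofReal (c₀ * ‖s‖ ^ (2 * κ)) * b) * volume U := by
        rw [mul_right_comm c₀, ENNReal.ofReal_mul hS, ENNReal.ofReal_toReal hUfin.ne]
        ring
    _ = ∫⁻ _ in U, (ENNReal.ofReal (c₀ * ‖s‖ ^ (2 * κ)) * b) := by
        rw [setLIntegral_const]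
    _ ≤ ∫⁻ p in U, ENNReal.ofReal |((f p).restrictScalars ℝ).det| *
          (fun y => ∑' ν : fib x y, w ν.1) (Θ p) := by
        refine setLIntegral_mono' hUo.measurableSet fun p hp => ?_
        exact mul_le_mul' (ENNReal.ofReal_le_ofReal (hjac p hp)) (hF p hp)
    _ = ∫⁻ y in Θ '' U, ∑' ν : fib x y, w ν.1 := by
        rw [lintegral_image_eq_lintegral_abs_det_fderiv_mul volume hUo.measurableSet hder hinj]
    _ ≤ ∫⁻ y in Metric.ball (0 : Fin (n + 1) → ℂ) 1, ∑' ν : fib x y, w ν.1 :=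
        lintegral_mono_set himg

end Pool.Agent.Lib_KF
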