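import Pool.Agent.Lib_KF.RLoc
import Pool.Agent.Lib_KF.JLow

/-! J: the lower bound of `J(s)` from an analytic family of arcs. -/

open MeasureTheory Complex
open scoped ENNReal NNReal ContDiff ComplexConjugate

namespace Pool.Agent.Lib_KF

open Pool.Agent.Lib_GD GPn

/-- Restriction of an analytic family of arcs to a smaller polydisc. -/
private noncomputable def JLower_half {R : Type} [CommRing R] [Algebra ℂ R]
    {𝒜 : ℕ → Submodule ℂ R} {n M B : ℕ} {x : Fin (n + 1) → R} {G : R}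
    {e : Fin M → Fin (B + 1) → R} {lam : Fin M → ℕ} {g κ : ℕ} (Ch : AnChart 𝒜 x G e lam g κ) :
    AnChart 𝒜 x G e lam g κ where
  ρ := Ch.ρ / 2
  ρ_pos := half_pos Ch.ρ_pos
  pt := Ch.pt
  an f := (Ch.an f).mono (Metric.ball_subset_ball (half_le_self Ch.ρ_pos.le))
  a := Ch.a
  unit s u hs hu := Ch.unit s u (hs.trans (half_lt_self Ch.ρ_pos)) (hu.trans (half_lt_self Ch.ρ_pos))
  C := Ch.C
  e_le i s u hs hu :=
    Ch.e_le i s u (hs.trans (half_lt_self Ch.ρ_pos)) (hu.trans (half_lt_self Ch.ρ_pos))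
  G_le s u hs hu :=
    Ch.G_le s u (hs.trans (half_lt_self Ch.ρ_pos)) (hu.trans (half_lt_self Ch.ρ_pos))
  G_ne s u hs0 hs hu :=
    Ch.G_ne s u hs0 (hs.trans (half_lt_self Ch.ρ_pos)) (hu.trans (half_lt_self Ch.ρ_pos))
  inj s u u' hs0 hs hu hu' :=
    Ch.inj s u u' hs0 (hs.trans (half_lt_self Ch.ρ_pos)) (hu.trans (half_lt_self Ch.ρ_pos))
      (hu'.trans (half_lt_self Ch.ρ_pos))
  c := Ch.c
  c_pos := Ch.c_pos
  jac s u hs hu :=
    Ch.jac s u (hs.trans (half_lt_self Ch.ρ_pos)) (hu.trans (half_lt_self Ch.ρ_pos))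

/-- powers with negative exponents -/
private theorem JLower_rpow {A K σ c : ℝ} {l : ℕ} (hA : 0 < A) (hσ : 0 < σ) (hK : 0 < K)
    (hc : 0 ≤ c) (h : A ≤ K * σ ^ l) : K ^ (-c) * σ ^ (-c * l) ≤ A ^ (-c) := by
  have h1 : K ^ (-c) * σ ^ (-c * l) = (K * σ ^ l) ^ (-c) := by
    rw [Real.mul_rpow hK.le (by positivity), ← Real.rpow_natCast, ← Real.rpow_mul hσ.le]
    congr 2
    ring
  rw [h1]
  exact Real.rpow_le_rpow_of_nonpos hA h (by linarith)

theorem J_lower {R : Type} [CommRing R] [Algebra ℂ R] {𝒜 : ℕ → Submodule ℂ R} [GradedAlgebra 𝒜]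
    {n r d k M B m : ℕ} {x : Fin (n + 1) → R} {G : R} (h : IsFano 𝒜 n r d x G)
    (S : Sheets 𝒜 x k) (e : Fin M → Fin (B + 1) → R) (he : ∀ i l, e i l ∈ 𝒜 m)
    (hg : GoodSheets S G e) (lam : Fin M → ℕ) (g κ : ℕ) (Ch : AnChart 𝒜 x G e lam g κ) (c : ℝ)
    (hc : 0 ≤ c) :
    ∃ (Λ : ℕ) (c₁ σ₀ : ℝ), 1 ≤ Λ ∧ 0 < c₁ ∧ 0 < σ₀ ∧
      ∀ (ε : ℝ) (s : ℂ), 0 < ε → 0 < ‖s‖ → ‖s‖ < σ₀ → ε ≤ ‖s‖ ^ Λ →
        ENNReal.ofReal (c₁ * ‖s‖ ^ (-2 * (c * (∑ i, lam i : ℕ) + (g : ℝ) / r - κ))) ≤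
          JJ S G r e c ε s := by
  obtain ⟨c', ρ₁, δ, t₀, hc', hρ₁, hρρ, hρ1, hδ, hδt, ht₀, key⟩ := (JLower_half Ch).lower_bound h
  have hρρ' : ρ₁ ≤ Ch.ρ / 2 := hρρ
  have hr0 : (0 : ℝ) < r := by exact_mod_cast h.r_pos
  -- the bound of the sections
  obtain ⟨K, hK⟩ := (isCompact_closedBall (0 : ℂ × (Fin n → ℂ)) (Ch.ρ / 2)).exists_bound_of_continuousOn
    (f := fun p : ℂ × (Fin n → ℂ) => ∑ i, ∑ l, ‖Ch.pt p.1 p.2 (e i l)‖ ^ 2) (by
      refine continuousOn_finsetSum _ fun i _ => continuousOn_finsetSum _ fun l _ => ?_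
      refine ContinuousOn.pow ?_ 2
      refine ContinuousOn.norm ?_
      refine ((Ch.an (e i l)).continuousOn).mono ?_
      exact Metric.closedBall_subset_ball (half_lt_self Ch.ρ_pos))
  set Cp : ℝ := |Ch.C| + 1 with hCp
  have hCp0 : 0 < Cp := by positivity
  have hCle : Ch.C ≤ Cp := (le_abs_self _).trans (by linarith)
  set K' : ℝ := |K| + 1 with hK'
  have hK'0 : 0 < K' := by positivity
  set K₁ : ℝ := (2 ^ m) ^ 2 * (Cp ^ 2 + K') with hK₁
  have hK₁0 : 0 < K₁ := by positivity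
  set D := r * d * (n + 1) - 1 with hD
  set K₂ : ℝ := 2 ^ D * Cp with hK₂
  have hK₂0 : 0 < K₂ := by positivity
  set Λ := (∑ i, lam i) + 1 with hΛ
  have hlam : ∀ i, lam i ≤ Λ := fun i =>
    (Finset.single_le_sum (f := lam) (fun _ _ => Nat.zero_le _) (Finset.mem_univ i)).trans
      (Nat.le_succ _)
  refine ⟨Λ, c' * ((K₁ ^ (-c)) ^ M * K₂ ^ (-(2 / (r : ℝ)))), ρ₁, Nat.succ_le_succ (Nat.zero_le _),
    by positivity, hρ₁, ?_⟩
  intro ε s hε hs hsρ hεs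
  have hs0 : s ≠ 0 := norm_pos_iff.1 hs
  have hs1 : ‖s‖ ≤ 1 := hsρ.le.trans hρ1
  set σ := ‖s‖ with hσ
  classical
  set w : (R →ₐ[ℂ] ℂ) → ℝ≥0∞ := fun ν =>
    if MvPolynomial.eval (fun b => ν (x b)) S.h ≠ 0 then ENNReal.ofReal (wph G r e c ε ν s) else ⊤
    with hw
  set bb : ℝ := ((K₁ ^ (-c)) ^ M * K₂ ^ (-(2 / (r : ℝ)))) *
    σ ^ (-2 * (c * (∑ i, lam i : ℕ) + (g : ℝ) / r)) with hbb
  have hmain := key s hs0 hsρ w (ENNReal.ofReal bb) (by
    intro t ht u hu ν hν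
    simp only [hw]
    split_ifs with hh
    swap
    · exact le_top
    refine ENNReal.ofReal_le_ofReal ?_
    obtain ⟨hνG, hνe⟩ := hg _ hh ν (fun b => rfl)
    have ht2 : ‖t‖ ≤ 2 := by
      have h1 : ‖t‖ ≤ ‖t - t₀‖ + ‖(t₀ : ℂ)‖ := by
        calc ‖t‖ = ‖(t - t₀) + t₀‖ := by ring_nf
          _ ≤ _ := norm_add_le _ _
      have h2 : ‖(t₀ : ℂ)‖ = t₀ := by
        rw [Complex.norm_real, Real.norm_eq_abs, abs_of_pos (hδ.trans hδt)]
      rw [h2] at h1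
      linarith
    have hsρ' : ‖s‖ < Ch.ρ := by
      have := Ch.ρ_pos
      have h3 : ‖s‖ < ρ₁ := hsρ
      linarith
    have huρ' : ‖u‖ < Ch.ρ := by
      have := Ch.ρ_pos
      linarith
    -- the sum of squares
    have hSs : Ssum e ν ≤ (2 ^ m) ^ 2 * K' := by
      have h1 : ‖∑ i, ∑ l, ‖Ch.pt s u (e i l)‖ ^ 2‖ ≤ K := by
        refine hK (s, u) ?_
        rw [mem_closedBall_zero_iff, Prod.norm_def, max_le_iff]
        exact ⟨(hsρ.le).trans hρρ', hu.le.trans hρρ'⟩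
      have h2 : ∑ i, ∑ l, ‖Ch.pt s u (e i l)‖ ^ 2 ≤ K' :=
        (le_abs_self _).trans (h1.trans ((le_abs_self K).trans (by linarith)))
      have h3 : Ssum e ν = ∑ i, ∑ l, (‖t‖ ^ m) ^ 2 * ‖Ch.pt s u (e i l)‖ ^ 2 := by
        unfold Ssum
        refine Finset.sum_congr rfl fun i _ => Finset.sum_congr rfl fun l _ => ?_
        rw [hν m (e i l) (he i l), norm_mul, norm_pow, mul_pow]
        rfl
      rw [h3]
      simp only [← Finset.mul_sum]
      have h4 : (‖t‖ ^ m) ^ 2 ≤ (2 ^ m) ^ 2 := by gcongr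
      exact mul_le_mul h4 h2 (Finset.sum_nonneg fun i _ => Finset.sum_nonneg fun l _ =>
        sq_nonneg _) (by positivity)
    -- the factors
    have hfac : ∀ i, K₁ ^ (-c) * σ ^ (-c * (2 * lam i : ℕ)) ≤
        (‖ν (famAt (e i) s)‖ ^ 2 + ε ^ 2 * Ssum e ν) ^ (-c) := by
      intro i
      refine JLower_rpow ?_ hs hK₁0 hc ?_
      · have h1 : 0 < Ssum e ν := by
          unfold Ssum
          have h2 : 0 < ‖ν (e i 0)‖ ^ 2 := by
            have := norm_pos_iff.2 (hνe i)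
            positivity
          refine h2.trans_le ?_
          refine le_trans ?_ (Finset.single_le_sum (f := fun i => ∑ l, ‖ν (e i l)‖ ^ 2)
            (fun _ _ => Finset.sum_nonneg fun _ _ => sq_nonneg _) (Finset.mem_univ i))
          exact Finset.single_le_sum (f := fun l => ‖ν (e i l)‖ ^ 2)
            (fun _ _ => sq_nonneg _) (Finset.mem_univ (0 : Fin (B + 1)))
        positivity
      · have hmem : famAt (e i) s ∈ 𝒜 m := by
          unfold famAt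
          exact Submodule.sum_mem _ fun l _ => Submodule.smul_mem _ _ (he i l)
        have h1 : ‖ν (famAt (e i) s)‖ ≤ 2 ^ m * (Cp * σ ^ lam i) := by
          rw [hν m _ hmem, norm_mul, norm_pow]
          have h2 : ‖(JLower_half Ch).pt s u (famAt (e i) s)‖ ≤ Cp * σ ^ lam i :=
            (Ch.e_le i s u hsρ' huρ').trans (mul_le_mul_of_nonneg_right hCle (by positivity))
          have h3 : ‖t‖ ^ m ≤ 2 ^ m := by gcongr
          exact mul_le_mul h3 h2 (norm_nonneg _) (by positivity)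
        have h2 : ‖ν (famAt (e i) s)‖ ^ 2 ≤ (2 ^ m) ^ 2 * Cp ^ 2 * σ ^ (2 * lam i) := by
          calc ‖ν (famAt (e i) s)‖ ^ 2 ≤ (2 ^ m * (Cp * σ ^ lam i)) ^ 2 := by gcongr
            _ = _ := by ring
        have h3 : ε ^ 2 ≤ σ ^ (2 * lam i) := by
          calc ε ^ 2 ≤ (σ ^ Λ) ^ 2 := by gcongr
            _ = σ ^ (2 * Λ) := by rw [← pow_mul, mul_comm]
            _ ≤ σ ^ (2 * lam i) := pow_le_pow_of_le_one hs.le hs1
                (Nat.mul_le_mul_left 2 (hlam i))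
        have h4 : ε ^ 2 * Ssum e ν ≤ σ ^ (2 * lam i) * ((2 ^ m) ^ 2 * K') :=
          mul_le_mul h3 hSs (Finset.sum_nonneg fun _ _ => Finset.sum_nonneg fun _ _ =>
            sq_nonneg _) (by positivity)
        calc ‖ν (famAt (e i) s)‖ ^ 2 + ε ^ 2 * Ssum e ν
            ≤ (2 ^ m) ^ 2 * Cp ^ 2 * σ ^ (2 * lam i) + σ ^ (2 * lam i) * ((2 ^ m) ^ 2 * K') :=
              add_le_add h2 h4
          _ = K₁ * σ ^ (2 * lam i) := by rw [hK₁]; ring
    have hGf : K₂ ^ (-(2 / (r : ℝ))) * σ ^ (-(2 / (r : ℝ)) * g) ≤ ‖ν G‖ ^ (-2 / (r : ℝ)) := by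
      have h1 : (-2 / (r : ℝ)) = -(2 / (r : ℝ)) := by ring
      rw [h1]
      refine JLower_rpow (norm_pos_iff.2 hνG) hs hK₂0 (by positivity) ?_
      rw [hν D G h.G_mem, norm_mul, norm_pow]
      have h2 : ‖(JLower_half Ch).pt s u G‖ ≤ Cp * σ ^ g :=
        (Ch.G_le s u hsρ' huρ').trans (mul_le_mul_of_nonneg_right hCle (by positivity))
      have h3 : ‖t‖ ^ D ≤ 2 ^ D := by gcongr
      calc ‖t‖ ^ D * ‖(JLower_half Ch).pt s u G‖ ≤ 2 ^ D * (Cp * σ ^ g) :=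
            mul_le_mul h3 h2 (norm_nonneg _) (by positivity)
        _ = K₂ * σ ^ g := by rw [hK₂]; ring
    have hprod : (K₁ ^ (-c)) ^ M * σ ^ (-2 * (c * (∑ i, lam i : ℕ))) ≤
        ∏ i, (‖ν (famAt (e i) s)‖ ^ 2 + ε ^ 2 * Ssum e ν) ^ (-c) := by
      refine le_trans (le_of_eq ?_) (Finset.prod_le_prod (fun i _ => ?_) (fun i _ => hfac i))
      · rw [Finset.prod_mul_distrib, Finset.prod_const, Finset.card_univ, Fintype.card_fin,
          ← Real.rpow_sum_of_pos hs]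
        congr 2
        push_cast
        rw [← Finset.mul_sum, ← Finset.mul_sum]
        ring
      · positivity
    unfold wph
    calc bb = ((K₁ ^ (-c)) ^ M * σ ^ (-2 * (c * (∑ i, lam i : ℕ)))) *
          (K₂ ^ (-(2 / (r : ℝ))) * σ ^ (-(2 / (r : ℝ)) * g)) := by
            have h1 : -2 * (c * (∑ i, lam i : ℕ) + (g : ℝ) / r) =
                -2 * (c * (∑ i, lam i : ℕ)) + -(2 / (r : ℝ)) * g := by ring
            rw [hbb, h1, Real.rpow_add hs]
            ring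
      _ ≤ _ := mul_le_mul hprod hGf (by positivity) (by
            refine Finset.prod_nonneg fun i _ => Real.rpow_nonneg ?_ _
            have h1 : 0 ≤ Ssum e ν := Finset.sum_nonneg fun _ _ =>
              Finset.sum_nonneg fun _ _ => sq_nonneg _
            positivity))
  -- the integral
  have hint : ∫⁻ y in Metric.ball (0 : Fin (n + 1) → ℂ) 1, ∑' ν : fib x y, w ν.1 =
      JJ S G r e c ε s := by
    unfold JJ
    have h1 : W0 S.h =ᵐ[volume] Metric.ball (0 : Fin (n + 1) → ℂ) 1 := by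
      have h2 : ∀ᵐ y : Fin (n + 1) → ℂ, MvPolynomial.eval y S.h ≠ 0 :=
        measure_eq_zero_iff_ae_notMem.1 (GPn.mv_null S.h S.h_ne)
      filter_upwards [h2] with y hy
      refine propext ?_
      change (‖y‖ < 1 ∧ MvPolynomial.eval y S.h ≠ 0) ↔ y ∈ Metric.ball (0 : Fin (n + 1) → ℂ) 1
      rw [mem_ball_zero_iff]
      exact ⟨fun h3 => h3.1, fun h3 => ⟨h3, hy⟩⟩
    rw [← setLIntegral_congr h1]
    refine setLIntegral_congr_fun (isOpen_W0 S.h).measurableSet fun y hy => ?_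
    refine tsum_congr fun ν => ?_
    simp only [hw]
    rw [if_pos]
    have h3 : (fun b => ν.1 (x b)) = y := funext ν.2
    rw [h3]
    exact hy.2
  rw [← hint]
  refine le_trans (le_of_eq ?_) hmain
  rw [← ENNReal.ofReal_mul (by positivity)]
  congr 1
  have h1 : -2 * (c * (∑ i, lam i : ℕ) + (g : ℝ) / r - κ) =
      -2 * (c * (∑ i, lam i : ℕ) + (g : ℝ) / r) + (2 * κ : ℕ) := by push_cast; ring
  rw [h1, Real.rpow_add hs, Real.rpow_natCast, hbb]
  ring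

end Pool.Agent.Lib_KF
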