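import Pool.Agent.Lib_KF.RDefs

/-! RS13: the one variable argument. -/

open MeasureTheory Complex Set Metric
open scoped ENNReal NNReal ContDiff ComplexConjugate

namespace Pool.Agent.Lib_KF

private theorem rCirc_rot (c : ℂ) (θ : ℝ) :
    MeasurePreserving (fun w : ℂ => c + (w - c) * circleMap 0 1 θ) := by
  have h1 : MeasurePreserving (fun w : ℂ => w - c) := measurePreserving_sub_right volume c
  have h2 : MeasurePreserving (fun w : ℂ => w * circleMap 0 1 θ) := by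
    have h := (rotation (Circle.exp θ)).measurePreserving
    convert h using 1
    funext w
    rw [rotation_apply, Circle.coe_exp, circleMap]
    simp [mul_comm]
  have h3 : MeasurePreserving (fun w : ℂ => c + w) := measurePreserving_add_left volume c
  exact h3.comp (h2.comp h1)

/-- Mean value inequality for `|F|²` on rotation invariant sets. -/
private theorem rCirc_mean {F : ℂ → ℂ} {c : ℂ} {ρ : ℝ}
    (hF : ∀ z, ‖z - c‖ ≤ ρ → DifferentiableAt ℂ F z) (hFm : Measurable F) {T : Set ℝ}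
    (hT : MeasurableSet T) (hTρ : ∀ t ∈ T, t ≤ ρ) :
    ENNReal.ofReal (‖F c‖ ^ 2) * volume {w : ℂ | ‖w - c‖ ∈ T} ≤
      ∫⁻ w in {w : ℂ | ‖w - c‖ ∈ T}, ENNReal.ofReal (‖F w‖ ^ 2) := by
  set D : Set ℂ := {w : ℂ | ‖w - c‖ ∈ T} with hD
  have hDm : MeasurableSet D := by
    have : Measurable (fun w : ℂ => ‖w - c‖) := by fun_prop
    exact this hT
  have hgm : Measurable (fun w : ℂ => ENNReal.ofReal (‖F w‖ ^ 2)) := by fun_prop
  set A := ∫⁻ w in D, ENNReal.ofReal (‖F w‖ ^ 2) with hA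
  have hrot : ∀ θ : ℝ, ∫⁻ w in D, ENNReal.ofReal (‖F (c + (w - c) * circleMap 0 1 θ)‖ ^ 2) = A := by
    intro θ
    have h := (rCirc_rot c θ).setLIntegral_comp_preimage hDm hgm
    rw [hA, ← h]
    congr 2
    ext w
    simp [hD]
  have hswap : ∫⁻ θ in Ioc (0 : ℝ) (2 * Real.pi), ∫⁻ w in D,
      ENNReal.ofReal (‖F (c + (w - c) * circleMap 0 1 θ)‖ ^ 2) =
      ∫⁻ w in D, ∫⁻ θ in Ioc (0 : ℝ) (2 * Real.pi),
        ENNReal.ofReal (‖F (c + (w - c) * circleMap 0 1 θ)‖ ^ 2) := by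
    refine lintegral_lintegral_swap ?_
    refine Measurable.aemeasurable ?_
    have h1 : Measurable (fun p : ℝ × ℂ => c + (p.2 - c) * circleMap 0 1 p.1) := by
      have : Continuous (fun p : ℝ × ℂ => c + (p.2 - c) * circleMap 0 1 p.1) := by
        unfold circleMap
        fun_prop
      exact this.measurable
    exact hgm.comp h1
  have hvol : volume (Ioc (0 : ℝ) (2 * Real.pi)) = ENNReal.ofReal (2 * Real.pi) := by
    rw [Real.volume_Ioc, sub_zero]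
  have hpt : ∀ w ∈ D, ENNReal.ofReal (2 * Real.pi) * ENNReal.ofReal (‖F c‖ ^ 2) ≤
      ∫⁻ θ in Ioc (0 : ℝ) (2 * Real.pi),
        ENNReal.ofReal (‖F (c + (w - c) * circleMap 0 1 θ)‖ ^ 2) := by
    intro w hw
    have hwρ : ‖w - c‖ ≤ ρ := hTρ _ hw
    set G : ℂ → ℂ := fun z => (F (c + (w - c) * z)) ^ 2 with hG
    have hGd : ∀ z : ℂ, ‖z‖ ≤ 1 → DifferentiableAt ℂ G z := by
      intro z hz
      have h1 : DifferentiableAt ℂ F (c + (w - c) * z) := by
        apply hF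
        rw [add_sub_cancel_left, norm_mul]
        calc ‖w - c‖ * ‖z‖ ≤ ‖w - c‖ * 1 := by gcongr
          _ ≤ ρ := by rw [mul_one]; exact hwρ
      have h2 : DifferentiableAt ℂ (fun z => c + (w - c) * z) z := by fun_prop
      exact (DifferentiableAt.comp z h1 h2).pow 2
    have hav : Real.circleAverage G 0 1 = G 0 := by
      apply circleAverage_of_differentiable_on_off_countable (s := ∅) countable_empty
      · intro z hz
        refine (hGd z ?_).continuousAt.continuousWithinAt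
        simpa using hz
      · intro z hz
        refine hGd z ?_
        have := hz.1
        rw [mem_ball_zero_iff, abs_one] at this
        exact this.le
    have h0 : G 0 = F c ^ 2 := by simp [hG]
    rw [h0, Real.circleAverage_def] at hav
    have h3 : ∫ θ in (0 : ℝ)..2 * Real.pi, G (circleMap 0 1 θ) = ((2 * Real.pi : ℝ) : ℂ) * F c ^ 2 := by
      rw [← hav, real_smul, ← mul_assoc, ← ofReal_mul, mul_inv_cancel₀ Real.two_pi_pos.ne']
      simp
    rw [intervalIntegral.integral_of_le Real.two_pi_pos.le] at h3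
    have h4 := enorm_integral_le_lintegral_enorm (μ := volume.restrict (Ioc (0 : ℝ) (2 * Real.pi)))
      (fun θ => G (circleMap 0 1 θ))
    rw [h3] at h4
    refine le_trans (le_of_eq ?_) (h4.trans (le_of_eq ?_))
    · rw [← ENNReal.ofReal_mul Real.two_pi_pos.le, ← ofReal_norm, norm_mul, norm_pow,
        Complex.norm_real, Real.norm_of_nonneg Real.two_pi_pos.le]
    · refine lintegral_congr fun θ => ?_
      rw [← ofReal_norm, hG, norm_pow]
  have h5 : ENNReal.ofReal (2 * Real.pi) * ENNReal.ofReal (‖F c‖ ^ 2) * volume D ≤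
      A * ENNReal.ofReal (2 * Real.pi) := by
    calc ENNReal.ofReal (2 * Real.pi) * ENNReal.ofReal (‖F c‖ ^ 2) * volume D
        = ∫⁻ _ in D, ENNReal.ofReal (2 * Real.pi) * ENNReal.ofReal (‖F c‖ ^ 2) := by
          rw [setLIntegral_const]
      _ ≤ ∫⁻ w in D, ∫⁻ θ in Ioc (0 : ℝ) (2 * Real.pi),
        ENNReal.ofReal (‖F (c + (w - c) * circleMap 0 1 θ)‖ ^ 2) := setLIntegral_mono' hDm hpt
      _ = A * ENNReal.ofReal (2 * Real.pi) := by
          rw [← hswap, lintegral_congr hrot, setLIntegral_const, hvol]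
  have h6 : ENNReal.ofReal (2 * Real.pi) ≠ 0 := by
    simpa using Real.two_pi_pos
  rw [mul_comm A, mul_assoc] at h5
  exact (ENNReal.mul_le_mul_iff_right h6 ENNReal.ofReal_ne_top).1 h5


/-- If `|f - 1|² / |s|²` is integrable near `0` then `f → 1`. -/
private theorem rCirc_tendsto {f : ℂ → ℂ} (hf : DifferentiableOn ℂ f {0}ᶜ) {ρ : ℝ} (hρ : 0 < ρ)
    (hfin : ∫⁻ s in ball (0 : ℂ) ρ, ENNReal.ofReal (‖f s - 1‖ ^ 2 * (‖s‖ ^ 2)⁻¹) ≠ (⊤ : ℝ≥0∞)) :
    Filter.Tendsto f (nhdsWithin 0 {0}ᶜ) (nhds 1) := by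
  have hfm : Measurable f := measurable_of_continuousOn_compl_singleton 0 hf.continuousOn
  have hfd : ∀ z : ℂ, z ≠ 0 → DifferentiableAt ℂ f z := fun z hz =>
    hf.differentiableAt (isOpen_compl_singleton.mem_nhds hz)
  set g : ℂ → ℝ≥0∞ := (ball (0 : ℂ) ρ).indicator
    (fun s => ENNReal.ofReal (‖f s - 1‖ ^ 2 * (‖s‖ ^ 2)⁻¹)) with hg
  have hgi : ∫⁻ s, g s ≠ (⊤ : ℝ≥0∞) := by
    rw [hg, lintegral_indicator measurableSet_ball]
    exact hfin
  have hgm : Measurable g := by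
    rw [hg]
    refine Measurable.indicator ?_ measurableSet_ball
    fun_prop
  have key : ∀ s : ℂ, s ≠ 0 → ‖s‖ < ρ / 2 → ENNReal.ofReal (‖f s - 1‖ ^ 2) ≤
      9 * ∫⁻ w in ball (0 : ℂ) (2 * ‖s‖), g w := by
    intro s hs hsρ
    have hs0 : 0 < ‖s‖ := norm_pos_iff.2 hs
    set r : ℝ := ‖s‖ / 2 with hr
    have hr0 : 0 < r := by positivity
    have hlow : ∀ w : ℂ, ‖w - s‖ ≤ r → r ≤ ‖w‖ ∧ ‖w‖ ≤ 3 * r := by
      intro w hw
      have h1 : ‖s‖ ≤ ‖w‖ + ‖w - s‖ := by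
        calc ‖s‖ = ‖w - (w - s)‖ := by congr 1; ring
          _ ≤ _ := norm_sub_le _ _
      have h2 : ‖w‖ ≤ ‖s‖ + ‖w - s‖ := by
        calc ‖w‖ = ‖s + (w - s)‖ := by congr 1; ring
          _ ≤ _ := norm_add_le _ _
      have h3 : ‖s‖ = 2 * r := by rw [hr]; ring
      constructor <;> linarith
    have hm := rCirc_mean (F := fun w => f w - 1) (c := s) (ρ := r) (T := Iic r)
      (fun z hz => (hfd z (fun h => by
        have := (hlow z hz).1
        rw [h, norm_zero] at this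
        linarith)).sub_const 1) (hfm.sub_const 1) measurableSet_Iic (fun t ht => ht)
    have hset : {w : ℂ | ‖w - s‖ ∈ Iic r} = closedBall s r := by
      ext w
      simp [mem_closedBall, dist_eq_norm]
    rw [hset, Complex.volume_closedBall] at hm
    have h1 : ∫⁻ w in closedBall s r, ENNReal.ofReal (‖f w - 1‖ ^ 2) ≤
        ∫⁻ w in closedBall s r, ENNReal.ofReal (9 * r ^ 2) * g w := by
      refine setLIntegral_mono' measurableSet_closedBall fun w hw => ?_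
      rw [mem_closedBall, dist_eq_norm] at hw
      obtain ⟨h2, h3⟩ := hlow w hw
      have hw0 : 0 < ‖w‖ := hr0.trans_le h2
      have hwb : w ∈ ball (0 : ℂ) ρ := by
        rw [mem_ball_zero_iff]
        have : r < ρ / 4 := by rw [hr]; linarith
        linarith
      rw [hg, indicator_of_mem hwb, ← ENNReal.ofReal_mul (by positivity)]
      refine ENNReal.ofReal_le_ofReal ?_
      have h4 : 1 ≤ 9 * r ^ 2 * (‖w‖ ^ 2)⁻¹ := by
        rw [← div_eq_mul_inv, one_le_div (by positivity)]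
        nlinarith
      calc ‖f w - 1‖ ^ 2 = ‖f w - 1‖ ^ 2 * 1 := by ring
        _ ≤ ‖f w - 1‖ ^ 2 * (9 * r ^ 2 * (‖w‖ ^ 2)⁻¹) := by gcongr
        _ = 9 * r ^ 2 * (‖f w - 1‖ ^ 2 * (‖w‖ ^ 2)⁻¹) := by ring
    have h5 : ∫⁻ w in closedBall s r, ENNReal.ofReal (9 * r ^ 2) * g w ≤
        ENNReal.ofReal (9 * r ^ 2) * ∫⁻ w in ball (0 : ℂ) (2 * ‖s‖), g w := by
      rw [lintegral_const_mul _ hgm]
      gcongr
      intro w hw
      rw [mem_closedBall, dist_eq_norm] at hw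
      rw [mem_ball_zero_iff]
      have := (hlow w hw).2
      have h3 : ‖s‖ = 2 * r := by rw [hr]; ring
      linarith
    have h6 := hm.trans (h1.trans h5)
    have h7 : ENNReal.ofReal (r ^ 2) * ENNReal.ofReal (‖f s - 1‖ ^ 2) ≤
        ENNReal.ofReal (r ^ 2) * (9 * ∫⁻ w in ball (0 : ℂ) (2 * ‖s‖), g w) := by
      refine le_trans ?_ (h6.trans (le_of_eq ?_))
      · rw [← ENNReal.ofReal_pow hr0.le, mul_comm]
        gcongr
        calc ENNReal.ofReal (r ^ 2) = ENNReal.ofReal (r ^ 2) * 1 := (mul_one _).symm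
          _ ≤ _ := by
            gcongr
            have hpi : (1 : ℝ≥0) ≤ NNReal.pi := by
              rw [← NNReal.coe_le_coe, NNReal.coe_real_pi, NNReal.coe_one]
              linarith [Real.pi_gt_three]
            exact_mod_cast hpi
      · rw [ENNReal.ofReal_mul (by norm_num : (0:ℝ) ≤ 9), show ENNReal.ofReal 9 = 9 by
          rw [show (9 : ℝ) = ((9 : ℕ) : ℝ) by norm_num, ENNReal.ofReal_natCast]; rfl]
        ring
    have h8 : ENNReal.ofReal (r ^ 2) ≠ 0 := by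
      rw [ne_eq, ENNReal.ofReal_eq_zero, not_le]
      positivity
    exact (ENNReal.mul_le_mul_iff_right h8 ENNReal.ofReal_ne_top).1 h7
  have hT : Filter.Tendsto (fun s : ℂ => 9 * ∫⁻ w in ball (0 : ℂ) (2 * ‖s‖), g w)
      (nhdsWithin 0 {0}ᶜ) (nhds 0) := by
    have h1 : Filter.Tendsto (fun s : ℂ => ∫⁻ w in ball (0 : ℂ) (2 * ‖s‖), g w)
        (nhdsWithin 0 {0}ᶜ) (nhds 0) := by
      refine tendsto_setLIntegral_zero hgi ?_
      have h2 : (volume ∘ fun s : ℂ => ball (0 : ℂ) (2 * ‖s‖)) =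
          fun s : ℂ => ENNReal.ofReal (2 * ‖s‖) ^ 2 * NNReal.pi := by
        funext s
        simp only [Function.comp, Complex.volume_ball]
      rw [h2]
      have h3 : Filter.Tendsto (fun s : ℂ => ENNReal.ofReal (2 * ‖s‖)) (nhdsWithin 0 {0}ᶜ)
          (nhds 0) := by
        have : Filter.Tendsto (fun s : ℂ => ENNReal.ofReal (2 * ‖s‖)) (nhds 0)
            (nhds (ENNReal.ofReal (2 * ‖(0 : ℂ)‖))) :=
          (ENNReal.continuous_ofReal.comp (by fun_prop)).tendsto 0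
        rw [norm_zero, mul_zero, ENNReal.ofReal_zero] at this
        exact this.mono_left nhdsWithin_le_nhds
      have h4 := ENNReal.Tendsto.mul_const (ENNReal.Tendsto.pow h3 (n := 2))
        (b := (NNReal.pi : ℝ≥0∞)) (Or.inr ENNReal.coe_ne_top)
      simpa using h4
    have h5 := ENNReal.Tendsto.const_mul h1 (a := 9) (Or.inr (by norm_num))
    simpa using h5
  have hT2 : Filter.Tendsto (fun s : ℂ => ENNReal.ofReal (‖f s - 1‖ ^ 2))
      (nhdsWithin 0 {0}ᶜ) (nhds 0) := by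
    refine tendsto_of_tendsto_of_tendsto_of_le_of_le' tendsto_const_nhds hT
      (Filter.Eventually.of_forall fun _ => zero_le) ?_
    have h1 : ∀ᶠ s : ℂ in nhdsWithin 0 {0}ᶜ, s ∈ ball (0 : ℂ) (ρ / 2) :=
      nhdsWithin_le_nhds (ball_mem_nhds 0 (by positivity))
    filter_upwards [h1, self_mem_nhdsWithin] with s hs1 hs2
    exact key s hs2 (by simpa using hs1)
  have hT3 : Filter.Tendsto (fun s : ℂ => ‖f s - 1‖ ^ 2) (nhdsWithin 0 {0}ᶜ) (nhds 0) := by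
    have h1 := (ENNReal.tendsto_toReal ENNReal.zero_ne_top).comp hT2
    refine (h1.congr fun s => ?_)
    simp only [Function.comp]
    rw [ENNReal.toReal_ofReal (by positivity)]
  have hT4 : Filter.Tendsto (fun s : ℂ => ‖f s - 1‖) (nhdsWithin 0 {0}ᶜ) (nhds 0) := by
    have h1 := hT3.sqrt
    rw [Real.sqrt_zero] at h1
    refine h1.congr fun s => ?_
    rw [Real.sqrt_sq (norm_nonneg _)]
  have h5 := tendsto_zero_iff_norm_tendsto_zero.2 hT4
  have h6 := h5.add_const 1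
  simpa using h6


private theorem rCirc_cut_one {t : ℝ} (ht : t ≤ 1 / 4) : cut t = 1 := by
  unfold cut
  exact Real.smoothTransition.one_of_one_le (by linarith)

private theorem rCirc_cut_zero {t : ℝ} (ht : 1 ≤ t) : cut t = 0 := by
  unfold cut
  exact Real.smoothTransition.zero_of_nonpos (by linarith)

private theorem rCirc_entire {f : ℂ → ℂ} (hf : DifferentiableOn ℂ f {0}ᶜ)
    (h : Filter.Tendsto f (nhdsWithin 0 {0}ᶜ) (nhds 1)) :
    Differentiable ℂ (Function.update f 0 1) := by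
  rw [← differentiableOn_univ, ← differentiableOn_compl_singleton_and_continuousAt_iff
    (c := (0 : ℂ)) Filter.univ_mem]
  refine ⟨?_, continuousAt_update_same.2 h⟩
  rw [← compl_eq_univ_sdiff]
  refine hf.congr fun z hz => ?_
  exact Function.update_of_ne hz _ _

/-- The inequality for one `σ`. -/
private theorem rCirc_step (a : ℝ) (ha : 0 < a) (Λ : ℕ) (hΛ : 1 ≤ Λ) (c₁ σ₀ c₂ K : ℝ)
    (hc₁ : 0 < c₁) (hc₂ : 0 < c₂) (J : ℝ → ℂ → ℝ≥0∞)
    (hJ : ∀ ε s, 0 < ε → 0 < ‖s‖ → ‖s‖ < σ₀ → ε ≤ ‖s‖ ^ Λ →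
      ENNReal.ofReal (c₁ * ‖s‖ ^ (-2 * a)) ≤ J ε s)
    (hJ0 : ∀ ε s, 0 < ε → ε ≤ 1 → ‖s‖ ≤ 1 → ENNReal.ofReal c₂ ≤ J ε s) {τ σ : ℝ} (hτ : 0 < τ)
    (hτ1 : τ ≤ 1) (hσ : 0 < σ) (hσ1 : σ < 1) (hσ0 : σ < σ₀)
    (hf : ∃ f : ℂ → ℂ, DifferentiableOn ℂ f {0}ᶜ ∧
        ∫⁻ s, ENNReal.ofReal (‖(cut (‖s‖ ^ 2 / ((σ / 2) ^ Λ) ^ 2) : ℂ) - f s‖ ^ 2 *
          ws ((σ / 2) ^ Λ) τ s) * J ((σ / 2) ^ Λ) s ≤ ENNReal.ofReal (K / τ)) :
    c₁ * σ ^ (-2 * a) * ((σ ^ 2)⁻¹ * (2 * σ ^ 2 / ((σ / 2) ^ Λ) ^ 2) ^ (-τ)) *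
      (σ ^ 2 / 16) ≤ K / τ := by
  obtain ⟨f, hfd, hfi⟩ := hf
  have hfm : Measurable f := measurable_of_continuousOn_compl_singleton 0 hfd.continuousOn
  set ε : ℝ := (σ / 2) ^ Λ with hε
  have hε0 : 0 < ε := by positivity
  have hε2 : ε ≤ σ / 2 := by
    calc ε ≤ (σ / 2) ^ 1 := pow_le_pow_of_le_one (by positivity) (by linarith) hΛ
      _ = σ / 2 := pow_one _
  have hε1 : ε ≤ 1 := by linarith
  -- the weight is positive
  have hlim : Filter.Tendsto f (nhdsWithin 0 {0}ᶜ) (nhds 1) := by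
    refine rCirc_tendsto hfd (ρ := ε / 2) (by positivity) ?_
    set q : ℝ := (5 / 4 : ℝ) ^ (-τ) * c₂ with hq
    have hq0 : 0 < q := by positivity
    have h1 : ∫⁻ s in ball (0 : ℂ) (ε / 2), ENNReal.ofReal q *
        ENNReal.ofReal (‖f s - 1‖ ^ 2 * (‖s‖ ^ 2)⁻¹) ≤ ENNReal.ofReal (K / τ) := by
      refine le_trans ?_ (le_trans (setLIntegral_le_lintegral (ball (0 : ℂ) (ε / 2)) _) hfi)
      refine setLIntegral_mono' measurableSet_ball fun s hs => ?_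
      rw [mem_ball_zero_iff] at hs
      have ht : ‖s‖ ^ 2 / ε ^ 2 ≤ 1 / 4 := by
        rw [div_le_iff₀ (by positivity)]
        nlinarith [norm_nonneg s]
      rw [rCirc_cut_one ht]
      have hJs := hJ0 ε s hε0 hε1 (by linarith)
      refine le_trans ?_ (mul_le_mul_right hJs _)
      rw [← ENNReal.ofReal_mul hq0.le, ← ENNReal.ofReal_mul (by unfold ws; positivity)]
      refine ENNReal.ofReal_le_ofReal ?_
      have h2 : (5 / 4 : ℝ) ^ (-τ) ≤ (1 + ‖s‖ ^ 2 / ε ^ 2) ^ (-τ) :=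
        Real.rpow_le_rpow_of_nonpos (by positivity) (by linarith) (by linarith)
      rw [ofReal_one, norm_sub_rev (1 : ℂ) (f s)]
      unfold ws
      calc q * (‖f s - 1‖ ^ 2 * (‖s‖ ^ 2)⁻¹)
          = ‖f s - 1‖ ^ 2 * ((‖s‖ ^ 2)⁻¹ * (5 / 4 : ℝ) ^ (-τ)) * c₂ := by rw [hq]; ring
        _ ≤ _ := by gcongr
    rw [lintegral_const_mul _ (by fun_prop)] at h1
    intro htop
    rw [htop, ENNReal.mul_top (by rw [ne_eq, ENNReal.ofReal_eq_zero, not_le]; exact hq0)] at h1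
    exact (lt_of_le_of_lt h1 ENNReal.ofReal_lt_top).ne rfl
  have hent := rCirc_entire hfd hlim
  set F := Function.update f 0 1 with hF
  have hF0 : F 0 = 1 := Function.update_self _ _ _
  have hFf : ∀ s : ℂ, s ≠ 0 → F s = f s := fun s hs => Function.update_of_ne hs _ _
  have hm := rCirc_mean (F := F) (c := 0) (ρ := σ) (T := Ioo (σ / 2) σ)
    (fun z _ => hent z) hent.continuous.measurable measurableSet_Ioo (fun t ht => ht.2.le)
  rw [hF0] at hm
  set D : Set ℂ := {w : ℂ | ‖w - 0‖ ∈ Ioo (σ / 2) σ} with hD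
  have hDm : MeasurableSet D := by
    have : Measurable (fun w : ℂ => ‖w - 0‖) := by fun_prop
    exact this measurableSet_Ioo
  have hDv : ENNReal.ofReal (σ ^ 2 / 16) ≤ volume D := by
    have h1 : ball ((3 * σ / 4 : ℝ) : ℂ) (σ / 4) ⊆ D := by
      intro w hw
      rw [mem_ball, dist_eq_norm] at hw
      have hn : ‖((3 * σ / 4 : ℝ) : ℂ)‖ = 3 * σ / 4 := by
        rw [Complex.norm_real, Real.norm_of_nonneg (by positivity)]
      have h2 : ‖((3 * σ / 4 : ℝ) : ℂ)‖ ≤ ‖w‖ + ‖w - ((3 * σ / 4 : ℝ) : ℂ)‖ := by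
        calc ‖((3 * σ / 4 : ℝ) : ℂ)‖ = ‖w - (w - ((3 * σ / 4 : ℝ) : ℂ))‖ := by congr 1; ring
          _ ≤ _ := norm_sub_le _ _
      have h3 : ‖w‖ ≤ ‖((3 * σ / 4 : ℝ) : ℂ)‖ + ‖w - ((3 * σ / 4 : ℝ) : ℂ)‖ := by
        calc ‖w‖ = ‖((3 * σ / 4 : ℝ) : ℂ) + (w - ((3 * σ / 4 : ℝ) : ℂ))‖ := by congr 1; ring
          _ ≤ _ := norm_add_le _ _
      rw [hn] at h2 h3
      simp only [hD, mem_ofPred_eq, sub_zero, mem_Ioo]
      constructor <;> linarith
    refine le_trans ?_ (measure_mono h1)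
    rw [Complex.volume_ball, ← ENNReal.ofReal_pow (by positivity),
      show σ ^ 2 / 16 = (σ / 4) ^ 2 by ring]
    calc ENNReal.ofReal ((σ / 4) ^ 2) = ENNReal.ofReal ((σ / 4) ^ 2) * 1 := (mul_one _).symm
      _ ≤ _ := by
        gcongr
        have hpi : (1 : ℝ≥0) ≤ NNReal.pi := by
          rw [← NNReal.coe_le_coe, NNReal.coe_real_pi, NNReal.coe_one]
          linarith [Real.pi_gt_three]
        exact_mod_cast hpi
  set C : ℝ := c₁ * σ ^ (-2 * a) * ((σ ^ 2)⁻¹ * (2 * σ ^ 2 / ε ^ 2) ^ (-τ)) with hC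
  have hC0 : 0 < C := by positivity
  have h2 : ENNReal.ofReal C * ∫⁻ w in D, ENNReal.ofReal (‖F w‖ ^ 2) ≤ ENNReal.ofReal (K / τ) := by
    rw [← lintegral_const_mul _ (by have := hent.continuous.measurable; fun_prop)]
    refine le_trans ?_ (le_trans (setLIntegral_le_lintegral D _) hfi)
    refine setLIntegral_mono' hDm fun s hs => ?_
    simp only [hD, mem_ofPred_eq, sub_zero, mem_Ioo] at hs
    have hs0 : 0 < ‖s‖ := by linarith [hs.1]
    have hεs : ε ≤ ‖s‖ ^ Λ := by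
      rw [hε]
      exact pow_le_pow_left₀ (by positivity) hs.1.le _
    have ht : 1 ≤ ‖s‖ ^ 2 / ε ^ 2 := by
      rw [one_le_div (by positivity)]
      exact pow_le_pow_left₀ hε0.le (by linarith [hs.1]) _
    rw [rCirc_cut_zero ht, hFf s (norm_pos_iff.1 hs0)]
    have hJs := hJ ε s hε0 hs0 (by linarith [hs.2]) hεs
    refine le_trans ?_ (mul_le_mul_right hJs _)
    rw [← ENNReal.ofReal_mul hC0.le, ← ENNReal.ofReal_mul (by unfold ws; positivity)]
    refine ENNReal.ofReal_le_ofReal ?_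
    rw [ofReal_zero, zero_sub, norm_neg]
    have e1 : σ ^ (-2 * a) ≤ ‖s‖ ^ (-2 * a) :=
      Real.rpow_le_rpow_of_nonpos hs0 hs.2.le (by linarith)
    have e2 : (σ ^ 2)⁻¹ ≤ (‖s‖ ^ 2)⁻¹ := by
      gcongr
      exact hs.2.le
    have e3 : (2 * σ ^ 2 / ε ^ 2) ^ (-τ) ≤ (1 + ‖s‖ ^ 2 / ε ^ 2) ^ (-τ) := by
      refine Real.rpow_le_rpow_of_nonpos (by positivity) ?_ (by linarith)
      have e4 : ‖s‖ ^ 2 ≤ σ ^ 2 := pow_le_pow_left₀ hs0.le hs.2.le _
      have e5 : 1 ≤ σ ^ 2 / ε ^ 2 := ht.trans (by gcongr)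
      have e6 : ‖s‖ ^ 2 / ε ^ 2 ≤ σ ^ 2 / ε ^ 2 := by gcongr
      rw [mul_div_assoc]
      linarith
    unfold ws
    calc C * ‖f s‖ ^ 2 = ‖f s‖ ^ 2 * ((σ ^ 2)⁻¹ * (2 * σ ^ 2 / ε ^ 2) ^ (-τ)) *
          (c₁ * σ ^ (-2 * a)) := by rw [hC]; ring
      _ ≤ _ := by gcongr
  have h3 : ENNReal.ofReal (C * (σ ^ 2 / 16)) ≤ ENNReal.ofReal (K / τ) := by
    refine le_trans ?_ h2
    rw [ENNReal.ofReal_mul hC0.le]
    gcongr
    refine hDv.trans ?_
    refine le_trans (le_of_eq ?_) hm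
    simp
  rcases ENNReal.ofReal_le_ofReal_iff'.1 h3 with h4 | h4
  · exact h4
  · exact absurd h4 (not_le.2 (by positivity))


theorem circle_argument (a : ℝ) (Λ : ℕ) (hΛ : 1 ≤ Λ) (c₁ σ₀ c₂ K : ℝ) (hc₁ : 0 < c₁)
    (hσ₀ : 0 < σ₀) (hc₂ : 0 < c₂) (J : ℝ → ℂ → ℝ≥0∞)
    (hJ : ∀ ε s, 0 < ε → 0 < ‖s‖ → ‖s‖ < σ₀ → ε ≤ ‖s‖ ^ Λ →
      ENNReal.ofReal (c₁ * ‖s‖ ^ (-2 * a)) ≤ J ε s)
    (hJ0 : ∀ ε s, 0 < ε → ε ≤ 1 → ‖s‖ ≤ 1 → ENNReal.ofReal c₂ ≤ J ε s)
    (hf : ∀ ε τ : ℝ, 0 < ε → ε ≤ 1 → 0 < τ → τ ≤ 1 →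
      ∃ f : ℂ → ℂ, DifferentiableOn ℂ f {0}ᶜ ∧
        ∫⁻ s, ENNReal.ofReal (‖(cut (‖s‖ ^ 2 / ε ^ 2) : ℂ) - f s‖ ^ 2 * ws ε τ s) * J ε s ≤
          ENNReal.ofReal (K / τ)) : a ≤ 0 := by
  by_contra hcon
  have ha : 0 < a := not_le.1 hcon
  have hΛ0 : (0 : ℝ) < Λ := by exact_mod_cast hΛ
  set τ : ℝ := min 1 (a / (2 * Λ)) with hτd
  have hτ : 0 < τ := lt_min one_pos (by positivity)
  have hτ1 : τ ≤ 1 := min_le_left _ _
  have hτa : 2 * Λ * τ ≤ a := by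
    have h1 : τ ≤ a / (2 * Λ) := min_le_right _ _
    rw [le_div_iff₀ (by positivity)] at h1
    linarith
  set q : ℝ := c₁ * ((2 : ℝ) ^ (-(2 * (Λ : ℝ) + 1) * τ)) / 16 with hq
  have hq0 : 0 < q := by positivity
  -- the inequality `q * σ ^ (-a) ≤ K / τ` for all small `σ`
  have key : ∀ σ : ℝ, 0 < σ → σ < 1 → σ < σ₀ → q * σ ^ (-a) ≤ K / τ := by
    intro σ hσ hσ1 hσ0
    have hε0 : 0 < (σ / 2) ^ Λ := by positivity
    have hε1 : (σ / 2) ^ Λ ≤ 1 := pow_le_one₀ (by positivity) (by linarith)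
    have h1 := rCirc_step a ha Λ hΛ c₁ σ₀ c₂ K hc₁ hc₂ J hJ hJ0 hτ hτ1 hσ hσ1 hσ0
      (hf _ τ hε0 hε1 hτ hτ1)
    refine le_trans ?_ h1
    have h2 : (2 * σ ^ 2 / ((σ / 2) ^ Λ) ^ 2) ^ (-τ) =
        (2 : ℝ) ^ (-(2 * (Λ : ℝ) + 1) * τ) * σ ^ ((2 * (Λ : ℝ) - 2) * τ) := by
      have e1 : (2 * σ ^ 2 / ((σ / 2) ^ Λ) ^ 2) =
          (2 : ℝ) ^ (2 * (Λ : ℝ) + 1) * σ ^ (-(2 * (Λ : ℝ) - 2)) := by
        have e2 : ((σ / 2) ^ Λ) ^ 2 = (σ / 2) ^ (2 * (Λ : ℝ)) := by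
          rw [← pow_mul, ← Real.rpow_natCast]
          congr 1
          push_cast
          ring
        rw [e2, Real.div_rpow hσ.le (by norm_num), Real.rpow_add (by norm_num : (0:ℝ) < 2),
          Real.rpow_one, neg_sub, Real.rpow_sub hσ, show (2 : ℝ) = ((2 : ℕ) : ℝ) by norm_num]
        rw [Real.rpow_natCast σ 2]
        field_simp
      rw [e1, Real.mul_rpow (by positivity) (by positivity), ← Real.rpow_mul (by norm_num),
        ← Real.rpow_mul hσ.le]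
      congr 2 <;> ring
    rw [h2]
    have h3 : σ ^ (-a) ≤ σ ^ (-2 * a) * σ ^ ((2 * (Λ : ℝ) - 2) * τ) := by
      rw [← Real.rpow_add hσ]
      refine Real.rpow_le_rpow_of_exponent_ge hσ hσ1.le ?_
      nlinarith
    calc q * σ ^ (-a) ≤ q * (σ ^ (-2 * a) * σ ^ ((2 * (Λ : ℝ) - 2) * τ)) := by gcongr
      _ = _ := by
        rw [hq]
        field_simp
  have hlim : Filter.Tendsto (fun X : ℝ => X ^ (-(1 / a))) Filter.atTop (nhds 0) :=
    tendsto_rpow_neg_atTop (by positivity)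
  have hm : 0 < min 1 σ₀ := lt_min one_pos hσ₀
  obtain ⟨X, hX1, hX2, hX3⟩ := ((hlim.eventually (gt_mem_nhds hm)).and
    ((Filter.eventually_gt_atTop (K / τ / q)).and (Filter.eventually_gt_atTop 0))).exists
  have h1 := key (X ^ (-(1 / a))) (by positivity) (hX1.trans_le (min_le_left _ _))
    (hX1.trans_le (min_le_right _ _))
  rw [← Real.rpow_mul hX3.le, show -(1 / a) * -a = 1 by field_simp, Real.rpow_one] at h1
  rw [div_lt_iff₀ hq0] at hX2
  linarith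

end Pool.Agent.Lib_KF
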