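import Pool.Agent.Lib_KF.RScal
import Pool.Agent.Lib_KF.RCirc
import Pool.Agent.Lib_KF.JLower

/-! The analytic inequality (module C of note 1223). -/

open MeasureTheory
open scoped ENNReal NNReal

namespace Pool.Agent.Lib_KF

open Pool.Agent.Lib_GD

theorem ana {R : Type} [CommRing R] [Algebra ℂ R] {𝒜 : ℕ → Submodule ℂ R} [GradedAlgebra 𝒜]
    {n r d : ℕ} {x : Fin (n + 1) → R} {G : R} (h : IsFano 𝒜 n r d x G) (hn : 1 ≤ n)
    {M B m : ℕ} (e : Fin M → Fin (B + 1) → R) (he : ∀ i l, e i l ∈ 𝒜 m) (he0 : ∀ i, e i 0 ≠ 0)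
    (lam : Fin M → ℕ) (g κ : ℕ) (Ch : AnChart 𝒜 x G e lam g κ) (c : ℝ) (hc : 0 < c)
    (hI : intI x G r (fun i => e i 0) c ≠ ⊤) :
    c * (∑ i, lam i : ℕ) + (g : ℝ) / r ≤ κ := by
  classical
  obtain ⟨j, hj⟩ : ∃ j, G * ∏ i, e i 0 ∈ 𝒜 j :=
    ⟨_, SetLike.mul_mem_graded h.G_mem (SetLike.prod_mem_graded (A := 𝒜) (i := fun _ : Fin M => m)
      (g := fun i => e i 0) (F := Finset.univ) fun i _ => he i 0)⟩
  have hdom := h.domain
  have hQ : G * ∏ i, e i 0 ≠ 0 := mul_ne_zero h.G_ne (Finset.prod_ne_zero_iff.2 fun i _ => he0 i)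
  obtain ⟨k, S, hS⟩ := exists_sheets h (G * ∏ i, e i 0) hQ j hj
  have hg : GoodSheets S G e := by
    intro y hy ν hν
    have h1 := hS y hy ν hν
    rw [map_mul, map_prod] at h1
    refine ⟨left_ne_zero_of_mul h1, fun i => ?_⟩
    exact (Finset.prod_ne_zero_iff.1 (right_ne_zero_of_mul h1)) i (Finset.mem_univ i)
  obtain ⟨Λ, c₁, σ₀, hΛ, hc₁, hσ₀, hJ⟩ := J_lower h S e he hg lam g κ Ch c hc.le
  obtain ⟨c₂, hc₂, hJ0⟩ := JJ_ge h S e hg c hc.le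
  obtain ⟨K, hK⟩ := exists_scalar h S e he hg c hc.le hI
  have := circle_argument _ Λ hΛ c₁ σ₀ c₂ K hc₁ hσ₀ hc₂ (fun ε s => JJ S G r e c ε s) hJ hJ0 hK
  linarith

end Pool.Agent.Lib_KF
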