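import Pool.Agent.Lib_KF.CDisc
import Pool.Agent.Lib_GD.Window

/-! C09: an almost stable lattice, with poles. -/

open PowerSeries

namespace Pool.Agent.Lib_KF.ArcSys

open Pool.Agent.Lib_GD (hat colen FinColen ArcSystem)

/-- the lattices between the two disc lattices -/
private noncomputable def CAlmost_B {L : Type} [Field L] [Algebra ℂ L] {n N : ℕ}
    (Γ : ArcSys L n N) (B a : ℕ) (S : Finset (Fin N)) (j : Fin N) (i : ℕ) :
    Submodule L⟦X⟧ (Fin N → L⟦X⟧) where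
  carrier := {f | f ∈ Γ.Lam B a S ∧ ∀ α : Fin n →₀ ℕ, α.degree < i →
    (X : L⟦X⟧) ^ B ∣ X ^ (α.degree * (a - Γ.e j)) * Γ.ev j α f}
  add_mem' {f g} hf hg := by
    refine ⟨add_mem hf.1 hg.1, fun α hα => ?_⟩
    rw [map_add, mul_add]; exact dvd_add (hf.2 α hα) (hg.2 α hα)
  zero_mem' := ⟨zero_mem _, fun α _ => by simp⟩
  smul_mem' c f hf := by
    refine ⟨Submodule.smul_mem _ c hf.1, fun α hα => ?_⟩
    rw [map_smul, smul_eq_mul, mul_left_comm]; exact Dvd.dvd.mul_left (hf.2 α hα) c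

private theorem CAlmost_mem {L : Type} [Field L] [Algebra ℂ L] {n N : ℕ}
    {Γ : ArcSys L n N} {B a : ℕ} {S : Finset (Fin N)} {j : Fin N} {i : ℕ}
    {f : Fin N → L⟦X⟧} : f ∈ CAlmost_B Γ B a S j i ↔ f ∈ Γ.Lam B a S ∧
      ∀ α : Fin n →₀ ℕ, α.degree < i →
        (X : L⟦X⟧) ^ B ∣ X ^ (α.degree * (a - Γ.e j)) * Γ.ev j α f :=
  Iff.rfl

/-- K10a with poles; copy of `Lib_GD.ArcSystem.exists_almost_stable` with the lattices
`M i = {f ∈ Λ_S | ∀ |α| < i, X ^ B ∣ X ^ (|α| (a - e_j)) ev j α f}`. The key step: for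
`δ ∈ Dker S` and `f ∈ M (i+1)`, `X ^ a • hat δ f ∈ M i`, since `X ^ a = X ^ (a - e_j) X ^ e_j` and
`X ^ e_j ev j α (hat δ f) = X ^ e_j hat δ (ev j α f) - ∑ ξ_l ev j (α + l) f - X ^ e_j w ev j α f`
(`hat_ev`). -/
theorem exists_almost_stable {L : Type} [Field L] [Algebra ℂ L] {n N : ℕ}
    (Γ : ArcSys L n N) (B a : ℕ) (S : Finset (Fin N)) (j : Fin N) (hj : j ∉ S)
    (he : Γ.e j ≤ a) (c I : ℕ)
    (hI : 1 ≤ I) (hc : colen (Γ.Lam B a (insert j S)) ≤ colen (Γ.Lam B a S) + c) :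
    ∃ Q : Submodule L⟦X⟧ (Fin N → L⟦X⟧), Γ.Lam B a (insert j S) ≤ Q ∧ Q ≤ Γ.Lam B a S ∧
      (∀ f ∈ Q, (X : L⟦X⟧) ^ B ∣ Γ.ev j 0 f) ∧
      ∀ δ ∈ Γ.Dker S, ∀ f ∈ Q, (X : L⟦X⟧) ^ (a + c / I) • (fun i => hat δ (f i)) ∈ Q := by
  classical
  obtain ⟨M, hM⟩ : ∃ M : ℕ → Submodule L⟦X⟧ (Fin N → L⟦X⟧),
      ∀ i, M i = CAlmost_B Γ B a S j i := ⟨_, fun _ => rfl⟩
  have hmem : ∀ i f, f ∈ M i ↔ f ∈ Γ.Lam B a S ∧
      ∀ α : Fin n →₀ ℕ, α.degree < i →
        (X : L⟦X⟧) ^ B ∣ X ^ (α.degree * (a - Γ.e j)) * Γ.ev j α f := by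
    intro i f
    rw [hM]
    exact CAlmost_mem
  have hLam : ∀ i, Γ.Lam B a (insert j S) ≤ M i := by
    intro i f hf
    rw [hmem]
    refine ⟨Γ.Lam_anti B a (Finset.subset_insert j S) hf, fun α _ => ?_⟩
    exact hf j (Finset.mem_insert_self j S) he α
  have hM0 : M 0 = Γ.Lam B a S := by
    ext f
    rw [hmem]
    exact ⟨fun h => h.1, fun h => ⟨h, fun α hα => absurd hα (Nat.not_lt_zero _)⟩⟩
  have hanti : ∀ i, M (i + 1) ≤ M i := by
    intro i f hf
    rw [hmem] at hf ⊢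
    exact ⟨hf.1, fun α hα => hf.2 α (Nat.lt_succ_of_lt hα)⟩
  have hfinL : FinColen (Γ.Lam B a (insert j S)) :=
    (Pool.Agent.Lib_GD.finColen_of_X_pow (B := B)
      fun f => Γ.X_pow_smul_mem_Lam B a (insert j S) f).1
  have hfin : ∀ i, FinColen (M i) := fun i => Pool.Agent.Lib_GD.finColen_mono (hLam i) hfinL
  -- a small step
  obtain ⟨i, hi, hstep⟩ : ∃ i, i < I ∧ colen (M (i + 1)) ≤ colen (M i) + c / I := by
    by_contra hcon
    push Not at hcon
    have key : ∀ i, i ≤ I → colen (M 0) + i * (c / I + 1) ≤ colen (M i) := by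
      intro i
      induction i with
      | zero => intro _; simp
      | succ i ih =>
        intro hi
        have h1 := hcon i (by omega)
        have h2 := ih (by omega)
        rw [add_mul, one_mul]
        omega
    have h1 := key I le_rfl
    have h2 : colen (M I) ≤ colen (Γ.Lam B a (insert j S)) :=
      Pool.Agent.Lib_GD.colen_anti (hLam I) hfinL
    rw [hM0] at h1
    have h3 : c < I * (c / I + 1) := by
      have := Nat.lt_mul_div_succ c (show 0 < I by omega)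
      simpa using this
    omega
  refine ⟨M (i + 1), hLam _, ?_, ?_, ?_⟩
  · intro f hf
    exact ((hmem _ _).1 hf).1
  · intro f hf
    have h1 := ((hmem _ _).1 hf).2 0 (by simp)
    simpa using h1
  · intro δ hδ f hf
    obtain ⟨hf1, hf2⟩ := (hmem _ _).1 hf
    have hmain : (X : L⟦X⟧) ^ a • (fun i => hat δ (f i)) ∈ M i := by
      rw [hmem]
      refine ⟨Submodule.smul_mem _ _ (Γ.stable_Lam B a S δ hδ f hf1), fun α hα => ?_⟩
      have h1 := Γ.hat_ev δ hδ.1 j α f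
      have h2 : X ^ Γ.e j * Γ.ev j α (fun i => hat δ (f i)) =
          X ^ Γ.e j * hat δ (Γ.ev j α f) -
          (∑ l, Γ.ξ δ j l * Γ.ev j (α + Finsupp.single l 1) f) -
          X ^ Γ.e j * (Γ.w δ j α * Γ.ev j α f) := by
        rw [h1]; ring
      have ha : (X : L⟦X⟧) ^ a = X ^ (a - Γ.e j) * X ^ Γ.e j := by
        rw [← pow_add, Nat.sub_add_cancel he]
      rw [map_smul, smul_eq_mul, ha, mul_assoc, h2, mul_sub, mul_sub, mul_sub, mul_sub]
      refine dvd_sub (dvd_sub ?_ ?_) ?_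
      · have h3 : (X : L⟦X⟧) ^ (α.degree * (a - Γ.e j)) *
            (X ^ (a - Γ.e j) * (X ^ Γ.e j * hat δ (Γ.ev j α f))) =
            X ^ (a - Γ.e j) * X ^ Γ.e j *
              hat δ (X ^ (α.degree * (a - Γ.e j)) * Γ.ev j α f) := by
          rw [Pool.Agent.Lib_GD.hat_X_pow_mul]; ring
        rw [h3]
        exact Dvd.dvd.mul_left
          (Pool.Agent.Lib_GD.X_pow_dvd_hat δ (hf2 α (Nat.lt_succ_of_lt hα))) _
      · rw [Finset.mul_sum, Finset.mul_sum]
        refine Finset.dvd_sum fun l _ => ?_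
        have h3 : (α + Finsupp.single l 1).degree = α.degree + 1 := by
          rw [map_add, Finsupp.degree_single]
        have h4 := hf2 (α + Finsupp.single l 1) (by rw [h3]; omega)
        rw [h3] at h4
        have h5 : (X : L⟦X⟧) ^ (α.degree * (a - Γ.e j)) * (X ^ (a - Γ.e j) *
            (Γ.ξ δ j l * Γ.ev j (α + Finsupp.single l 1) f)) =
            Γ.ξ δ j l * (X ^ ((α.degree + 1) * (a - Γ.e j)) *
              Γ.ev j (α + Finsupp.single l 1) f) := by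
          rw [add_mul, one_mul, pow_add]; ring
        rw [h5]
        exact Dvd.dvd.mul_left h4 _
      · have h3 : (X : L⟦X⟧) ^ (α.degree * (a - Γ.e j)) *
            (X ^ (a - Γ.e j) * (X ^ Γ.e j * (Γ.w δ j α * Γ.ev j α f))) =
            X ^ (a - Γ.e j) * X ^ Γ.e j * Γ.w δ j α *
              (X ^ (α.degree * (a - Γ.e j)) * Γ.ev j α f) := by
          ring
        rw [h3]
        exact Dvd.dvd.mul_left (hf2 α (Nat.lt_succ_of_lt hα)) _
    have h6 := Pool.Agent.Lib_GD.X_pow_smul_mem_of_colen (hanti i) (hfin (i + 1)) hstep hmain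
    rw [smul_smul, ← pow_add, add_comm (c / I) a] at h6
    exact h6

end Pool.Agent.Lib_KF.ArcSys
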