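import Pool.Agent.Lib_KF.CAlmost

/-! C10: the closeness lemma (CL), with poles. -/

open PowerSeries

namespace Pool.Agent.Lib_KF.ArcSys

open Pool.Agent.Lib_GD (hat colen FinColen ArcSystem finColen_of_X_pow colen_anti window
  X_pow_smul_mem colen_smul_sup)

/-- The arithmetic of the window: the step `h = a + c / I` is smaller than `g = B / W`. -/
private theorem cclose_h_lt (C₂ W D a : ℕ) (hC : 1 ≤ C₂) (hW : 1 ≤ W) (hD : 8 * W ≤ D)
    (ha : 1 ≤ a) : a + C₂ * (D * a) / (4 * C₂ * W) < D * a / W := by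
  set B := D * a with hB
  have h1 : C₂ * B / (4 * C₂ * W) = B / (4 * W) := by
    have : 4 * C₂ * W = C₂ * (4 * W) := by ring
    rw [this]; exact Nat.mul_div_mul_left _ _ (by omega)
  rw [h1]
  have h2 : a * (8 * W) ≤ B := by rw [hB, mul_comm D a]; exact Nat.mul_le_mul_left _ hD
  have h3 : 8 * W ≤ B := le_trans (by nlinarith) h2
  have h4 : B / (4 * W) * (4 * W) ≤ B := Nat.div_mul_le_self _ _
  have h5 : B < W * (B / W + 1) := Nat.lt_mul_div_succ _ (by omega)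
  have h6 : 8 ≤ B / W := by
    rw [Nat.le_div_iff_mul_le (by omega)]; exact h3
  set g := B / W
  set q := B / (4 * W)
  have h7 : (a + q) * (8 * W) < 3 * (g + 1) * W := by nlinarith
  have h8 : (a + q) * 8 < 3 * (g + 1) := by
    by_contra hcon
    push Not at hcon
    have := Nat.mul_le_mul_right W hcon
    nlinarith
  omega

/-- K10b (CL) with poles; copy of `Lib_GD.ArcSystem.closeness` (file `Lib_GD.CLemma`), with
`Γ.cc` in place of `Γ.cost` and the hypothesis `Γ.e j ≤ a` for `exists_almost_stable`. The lemmas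
`Lib_GD.ArcSystem.stable_sup`, `stable_map`, `stable_top` can be used for `Γ.base`
(`Γ.Stable` and `Γ.base.Stable` agree definitionally). -/
theorem closeness (ξ : ℝ) (hξ : 0 < ξ) (C₂ : ℕ) (hC : 1 ≤ C₂) : ∃ D₀ N₀ : ℕ,
    ∀ (L : Type) [Field L] [Algebra ℂ L] (n N : ℕ) (Γ : ArcSys L n N) (σ : ℝ) (D a : ℕ),
      D₀ ≤ D → N₀ ≤ N → 1 ≤ a → 0 ≤ σ → Γ.HI2 σ → ∀ (S : Finset (Fin N)) (j : Fin N),
      S.Nonempty → j ∉ S → Γ.e j ≤ a →
      colen (Γ.Lam (D * a) a (insert j S)) ≤ colen (Γ.Lam (D * a) a S) + C₂ * (D * a) →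
      (D * a * N : ℝ) - colen (Γ.Lam (D * a) a S) ≤ σ * Γ.cc j S + ξ * D * a * N := by
  classical
  obtain ⟨K', hK'⟩ := exists_nat_ge (6 / ξ)
  obtain ⟨K, hK1, hK⟩ : ∃ K : ℕ, 1 ≤ K ∧ 6 / ξ ≤ K :=
    ⟨K' + 1, by omega, by push_cast; linarith⟩
  obtain ⟨P, hPdef⟩ : ∃ P : ℕ, P = C₂ * K := ⟨_, rfl⟩
  obtain ⟨W, hWdef⟩ : ∃ W : ℕ, W = K * (P + 1) := ⟨_, rfl⟩
  obtain ⟨N₀, hN₀⟩ := exists_nat_ge (4 * (P : ℝ) / ξ)
  have hW1 : 1 ≤ W := by
    rw [hWdef]; exact Nat.one_le_iff_ne_zero.mpr (Nat.mul_ne_zero (by omega) (by omega))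
  have hKW : K ≤ W := by
    rw [hWdef]; exact Nat.le_mul_of_pos_right _ (by omega)
  refine ⟨8 * W, N₀, ?_⟩
  intro L _ _ n N Γ σ D a hD hN ha hσ hI2 S j hS hj he hc
  have hh := cclose_h_lt C₂ W D a hC hW1 hD ha
  have hI : 1 ≤ 4 * C₂ * W := by
    exact Nat.one_le_iff_ne_zero.mpr (Nat.mul_ne_zero (by omega) (by omega))
  obtain ⟨Q, hQ1, hQ2, hQ3, hQ4⟩ :=
    exists_almost_stable Γ (D * a) a S j hj he (C₂ * (D * a)) (4 * C₂ * W) hI hc
  have hBD : D ≤ D * a := Nat.le_mul_of_pos_right _ (by omega)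
  have hcast : ((D * a : ℕ) : ℝ) = (D : ℝ) * a := by push_cast; ring
  obtain ⟨B, hB⟩ : ∃ B : ℕ, B = D * a := ⟨_, rfl⟩
  rw [← hB] at hh hQ1 hQ2 hQ3 hQ4 hc hBD hcast ⊢
  have hBX : ∀ f : Fin N → L⟦X⟧, (X : L⟦X⟧) ^ B • f ∈ Q := fun f =>
    hQ1 (Γ.X_pow_smul_mem_Lam B a _ f)
  have hQfin : FinColen Q := (finColen_of_X_pow hBX).1
  have hΛ2fin : FinColen (Γ.Lam B a (insert j S)) :=
    (finColen_of_X_pow (fun f => Γ.X_pow_smul_mem_Lam B a _ f)).1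
  have hQc : colen Q ≤ colen (Γ.Lam B a S) + C₂ * B :=
    le_trans (colen_anti hQ1 hΛ2fin) hc
  have hu : 1 ≤ B / K + 1 := Nat.le_add_left 1 _
  have hP : C₂ * B ≤ P * (B / K + 1) := by
    have h1 : B < K * (B / K + 1) := Nat.lt_mul_div_succ _ (by omega)
    calc C₂ * B ≤ C₂ * (K * (B / K + 1)) := Nat.mul_le_mul_left _ h1.le
      _ = P * (B / K + 1) := by rw [hPdef]; ring
  obtain ⟨Λ', hΛ'1, hΛ'2, hΛ'3, hΛ'4, hΛ'5⟩ :=
    window (Γ.Dker S) (Γ.Lam B a S) Q hQ2 hQfin (Γ.stable_Lam B a S) _ (B / W) B (C₂ * B)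
      (B / K + 1) P hQ4 (fun f _ => hBX f) hQc hu hP hh
  obtain ⟨U, hU⟩ : ∃ U : ℕ, U = B / K + 1 + (P + 1) * (B / W) := ⟨_, rfl⟩
  rw [← hU] at hΛ'4
  -- the stable lattice
  set M : Submodule L⟦X⟧ (Fin N → L⟦X⟧) :=
    Λ'.map (LinearMap.lsmul L⟦X⟧ (Fin N → L⟦X⟧) (X ^ U)) ⊔
      LinearMap.range (LinearMap.lsmul L⟦X⟧ (Fin N → L⟦X⟧) (X ^ B)) with hM
  have hMX : ∀ f : Fin N → L⟦X⟧, (X : L⟦X⟧) ^ B • f ∈ M := fun f =>
    Submodule.mem_sup_right ⟨f, rfl⟩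
  have hMst : Γ.Stable S M := by
    refine ArcSystem.stable_sup Γ.base (S := S) (ArcSystem.stable_map Γ.base (S := S) hΛ'2 U) ?_
    have h1 := ArcSystem.stable_map Γ.base (ArcSystem.stable_top Γ.base S) B
    rwa [Submodule.map_top] at h1
  have hMev : ∀ f ∈ M, (X : L⟦X⟧) ^ B ∣ Γ.ev j 0 f := by
    intro f hf
    obtain ⟨f1, hf1, f2, hf2, rfl⟩ := Submodule.mem_sup.mp hf
    obtain ⟨p, hp, rfl⟩ := hf1
    obtain ⟨q, rfl⟩ := hf2
    rw [map_add]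
    refine dvd_add (hQ3 _ (hΛ'4 p hp)) ?_
    have : Γ.ev j 0 ((LinearMap.lsmul L⟦X⟧ (Fin N → L⟦X⟧) (X ^ B)) q)
        = X ^ B * Γ.ev j 0 q := by
      rw [LinearMap.lsmul_apply, map_smul, smul_eq_mul]
    rw [this]; exact Dvd.intro _ rfl
  have hmain := hI2 S j hj B M hMX hMst hMev
  -- the colength of `M`
  have hMc : colen M ≤ colen Λ' + U * N := by
    obtain ⟨B', hB'⟩ : ∃ B' : ℕ, B' = max B (colen Λ') := ⟨_, rfl⟩
    have hΛ'X : ∀ f : Fin N → L⟦X⟧, (X : L⟦X⟧) ^ B' • f ∈ Λ' := fun f =>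
      X_pow_smul_mem hΛ'3 (hB' ▸ le_max_right _ _) f
    have h1 := colen_smul_sup (u := U) hΛ'X
    refine le_trans (colen_anti ?_ ?_) h1
    · refine sup_le_sup_left ?_ _
      rintro _ ⟨f, rfl⟩
      refine ⟨(X : L⟦X⟧) ^ (B' - B) • f, ?_⟩
      simp only [LinearMap.lsmul_apply]
      rw [smul_smul, ← pow_add]
      congr 2
      have : B ≤ B' := hB' ▸ le_max_left _ _
      omega
    · refine (finColen_of_X_pow (B := B') fun f => ?_).1
      exact Submodule.mem_sup_right (LinearMap.mem_range.mpr ⟨f, rfl⟩)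
  -- the error terms
  have hKB : K ≤ B := le_trans hKW (by omega)
  have e1 : K * U ≤ 3 * B := by
    have h1 : K * (B / K) ≤ B := Nat.mul_div_le _ _
    have h2 : W * (B / W) ≤ B := Nat.mul_div_le _ _
    have h3 : K * U = K * (B / K) + K + W * (B / W) := by rw [hU, hWdef]; ring
    omega
  have e2 : B / W ≤ B := Nat.div_le_self _ _
  have e1' : (K : ℝ) * U ≤ 3 * B := by exact_mod_cast e1
  have hKpos : (0 : ℝ) < K := by exact_mod_cast hK1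
  have hKξ : 6 ≤ ξ * K := by
    have := (div_le_iff₀ hξ).mp hK; linarith
  have hBpos : (0 : ℝ) ≤ B := Nat.cast_nonneg _
  have hNpos : (0 : ℝ) ≤ N := Nat.cast_nonneg _
  have hUpos : (0 : ℝ) ≤ U := Nat.cast_nonneg _
  have hPpos : (0 : ℝ) ≤ P := Nat.cast_nonneg _
  have e3 : (U : ℝ) ≤ ξ / 2 * B := by
    have h1 : 6 * (U : ℝ) ≤ ξ * K * U := mul_le_mul_of_nonneg_right hKξ hUpos
    have h2 : ξ * (K * U) ≤ ξ * (3 * B) := mul_le_mul_of_nonneg_left e1' hξ.le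
    nlinarith
  have e4 : 4 * (P : ℝ) ≤ ξ * N := by
    have h1 : 4 * (P : ℝ) / ξ ≤ N := le_trans hN₀ (by exact_mod_cast hN)
    have := (div_le_iff₀ hξ).mp h1; linarith
  have e5 : ((colen M : ℕ) : ℝ) ≤ colen (Γ.Lam B a S) + P * (B + (B / W : ℕ)) + U * N := by
    have h1 : colen M ≤ colen (Γ.Lam B a S) + P * (B + B / W) + U * N := by
      refine le_trans hMc ?_
      have := hΛ'5
      omega
    exact_mod_cast h1
  have e6 : ((B / W : ℕ) : ℝ) ≤ B := by exact_mod_cast e2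
  have e7 : (P : ℝ) * (B + (B / W : ℕ)) ≤ ξ / 2 * (B * N) := by
    have h1 : (P : ℝ) * (B + (B / W : ℕ)) ≤ P * (2 * B) :=
      mul_le_mul_of_nonneg_left (by linarith) hPpos
    have h2 : 4 * (P : ℝ) * B ≤ ξ * N * B := mul_le_mul_of_nonneg_right e4 hBpos
    nlinarith
  have e8 : (U : ℝ) * N ≤ ξ / 2 * (B * N) := by
    have h1 := mul_le_mul_of_nonneg_right e3 hNpos
    nlinarith
  have e9 : ξ * D * a * N = ξ * (B * N) := by rw [hcast]; ring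
  rw [e9, ← hcast]
  linarith

end Pool.Agent.Lib_KF.ArcSys
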