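import Pool.Agent.Lib_GD.CombCost

/-! C13: the cost lower bound with a set of bad points. -/

namespace Pool.Agent.Lib_KF

open Pool.Agent.Lib_GD (cls Profile Ranks)

/-- Hypothesis (CL) away from the bad points. -/
def HCLbad {N : ℕ} (P : Profile N) (R : Ranks N) (Bad : Finset (Fin N)) (D a C₂ : ℕ)
    (σ ξ : ℝ) : Prop :=
  ∀ (S : Finset (Fin N)) (j : Fin N), S.Nonempty → (∀ i ∈ S, i ∉ Bad) → j ∉ Bad → j ∉ S →
    R.G (D * a) S ≤ R.G (D * a) (insert j S) + C₂ * (D * a) →
    (R.G (D * a) S : ℝ) ≤ σ * P.cost j S + ξ * D * a * N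

private theorem CCost_G_anti {N : ℕ} (R : Ranks N) (B : ℕ) {S T : Finset (Fin N)} (h : S ⊆ T) :
    R.G B T ≤ R.G B S :=
  Finset.sum_le_sum fun b _ => R.anti S T b h

private theorem CCost_G_le {N : ℕ} (R : Ranks N) (B : ℕ) (S : Finset (Fin N)) :
    R.G B S ≤ B * N := by
  have h1 : R.G B S ≤ ∑ _b ∈ Finset.Icc 1 B, N := Finset.sum_le_sum fun b _ => R.r_le S b
  refine h1.trans (le_of_eq ?_)
  rw [Finset.sum_const, Nat.card_Icc, smul_eq_mul]
  congr 1

/-- the points of class `τ` with index below `t` -/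
private def CCost_T {N r : ℕ} (c : Fin N → Fin (r + 1)) (τ : Fin (r + 1)) (t : ℕ) :
    Finset (Fin N) :=
  (cls c τ).filter fun i => i.val < t

private theorem CCost_mem {N r : ℕ} (c : Fin N → Fin (r + 1)) (τ : Fin (r + 1)) (t : ℕ)
    (i : Fin N) : i ∈ CCost_T c τ t ↔ c i = τ ∧ i.val < t := by
  unfold CCost_T cls
  rw [Finset.mem_filter, Finset.mem_filter]
  simp

private theorem CCost_class {N r : ℕ} (hN : 0 < N) (P : Profile N) (R : Ranks N) (D a C₂ : ℕ)
    (hD : 1 ≤ D) (ha : 1 ≤ a) (hC : 1 ≤ C₂) (σ ξ : ℝ) (hσ : 0 ≤ σ) (hξ : 0 ≤ ξ)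
    (Bad : Finset (Fin N)) (hCL : HCLbad P R Bad D a C₂ σ ξ) (c : Fin N → Fin (r + 1))
    (hcB : ∀ i ∈ Bad, c i = 0) (τ : Fin (r + 1)) (hτ : τ ≠ 0) :
    ((cls c τ).card : ℝ) * R.G (D * a) (cls c τ) ≤
      σ * (∑ k ∈ cls c τ, (P.cost k (Finset.Iio k) : ℝ)) + ξ * D * a * N * (cls c τ).card +
        (1 + N / C₂) * (D * a * N) := by
  classical
  set g : ℕ → ℕ := fun t => R.G (D * a) (CCost_T c τ t) with hg
  have hTmono : ∀ t, CCost_T c τ t ⊆ CCost_T c τ (t + 1) := by
    intro t i hi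
    rw [CCost_mem] at hi ⊢
    exact ⟨hi.1, by omega⟩
  have hTsub : ∀ t, CCost_T c τ t ⊆ cls c τ := fun t => Finset.filter_subset _ _
  have hganti : ∀ t, g (t + 1) ≤ g t := fun t => CCost_G_anti R _ (hTmono t)
  -- the two exceptional sets
  set E1 : Finset (Fin N) := (cls c τ).filter fun k => CCost_T c τ k.val = ∅ with hE1
  set E2 : Finset (Fin N) :=
    (cls c τ).filter fun k => g (k.val + 1) + C₂ * (D * a) < g k.val with hE2
  have hE1c : E1.card ≤ 1 := by
    rw [Finset.card_le_one]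
    intro x hx y hy
    rw [hE1, Finset.mem_filter] at hx hy
    have hxc : c x = τ := by
      have := hx.1
      unfold cls at this
      simpa using this
    have hyc : c y = τ := by
      have := hy.1
      unfold cls at this
      simpa using this
    by_contra hne
    rcases lt_or_gt_of_ne hne with h | h
    · have h1 : x ∈ CCost_T c τ y.val := (CCost_mem _ _ _ _).2 ⟨hxc, h⟩
      rw [hy.2] at h1
      exact absurd h1 (Finset.notMem_empty _)
    · have h1 : y ∈ CCost_T c τ x.val := (CCost_mem _ _ _ _).2 ⟨hyc, h⟩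
      rw [hx.2] at h1
      exact absurd h1 (Finset.notMem_empty _)
  have htel : ∀ M, ∑ t ∈ Finset.range M, ((g t : ℝ) - g (t + 1)) = (g 0 : ℝ) - g M := by
    intro M
    exact Finset.sum_range_sub' (fun t => (g t : ℝ)) M
  have hg0 : (g 0 : ℝ) ≤ D * a * N := by
    have h1 : g 0 ≤ D * a * N := CCost_G_le R _ _
    exact_mod_cast h1
  have hDa : (0 : ℝ) < D * a := by
    have h1 : 0 < D * a := Nat.mul_pos hD ha
    exact_mod_cast h1
  have hNpos : (0 : ℝ) < N := by exact_mod_cast hN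
  have hCpos : (0 : ℝ) < C₂ := by exact_mod_cast hC
  have hE2c : (E2.card : ℝ) ≤ N / C₂ := by
    have h1 : (E2.card : ℝ) * (C₂ * (D * a)) ≤ ∑ k ∈ E2, ((g k.val : ℝ) - g (k.val + 1)) := by
      rw [← nsmul_eq_mul]
      refine Finset.card_nsmul_le_sum _ _ _ fun k hk => ?_
      have h2 := (Finset.mem_filter.1 hk).2
      have h3 : ((g (k.val + 1) + C₂ * (D * a) : ℕ) : ℝ) < (g k.val : ℝ) := by exact_mod_cast h2
      push_cast at h3
      linarith
    have h2 : ∑ k ∈ E2, ((g k.val : ℝ) - g (k.val + 1)) ≤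
        ∑ k : Fin N, ((g k.val : ℝ) - g (k.val + 1)) := by
      refine Finset.sum_le_sum_of_subset_of_nonneg (Finset.subset_univ _) fun k _ _ => ?_
      have h3 : (g (k.val + 1) : ℝ) ≤ g k.val := by exact_mod_cast hganti k.val
      linarith
    have h3 : ∑ k : Fin N, ((g k.val : ℝ) - g (k.val + 1)) = (g 0 : ℝ) - g N := by
      rw [Fin.sum_univ_eq_sum_range (fun t => (g t : ℝ) - g (t + 1)) N]
      exact htel N
    have h4 : (0 : ℝ) ≤ g N := Nat.cast_nonneg _
    have h5 : (E2.card : ℝ) * (C₂ * (D * a)) ≤ D * a * N := by linarith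
    rw [le_div_iff₀ hCpos]
    have h6 : (E2.card : ℝ) * C₂ * (D * a) ≤ N * (D * a) := by nlinarith
    exact le_of_mul_le_mul_right h6 hDa
  -- pointwise bound
  have hpt : ∀ k ∈ cls c τ, (R.G (D * a) (cls c τ) : ℝ) ≤
      σ * (P.cost k (Finset.Iio k) : ℝ) + ξ * D * a * N +
        ((if k ∈ E1 then (D * a * N : ℝ) else 0) + (if k ∈ E2 then (D * a * N : ℝ) else 0)) := by
    intro k hk
    have hkc : c k = τ := by
      unfold cls at hk
      simpa using hk
    have hcost0 : (0 : ℝ) ≤ (P.cost k (Finset.Iio k) : ℝ) := Nat.cast_nonneg _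
    have h0 : (0 : ℝ) ≤ D * a * N := by positivity
    have h00 : (0 : ℝ) ≤ ξ * D * a * N := by positivity
    have hGle : (R.G (D * a) (cls c τ) : ℝ) ≤ D * a * N := by
      have h1 : R.G (D * a) (cls c τ) ≤ D * a * N := CCost_G_le R _ _
      exact_mod_cast h1
    have hi1 : (0 : ℝ) ≤ (if k ∈ E1 then (D * a * N : ℝ) else 0) := by split_ifs <;> positivity
    have hi2 : (0 : ℝ) ≤ (if k ∈ E2 then (D * a * N : ℝ) else 0) := by split_ifs <;> positivity
    by_cases h1 : k ∈ E1
    · rw [if_pos h1]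
      have := mul_nonneg hσ hcost0
      linarith
    by_cases h2 : k ∈ E2
    · rw [if_pos h2]
      have := mul_nonneg hσ hcost0
      linarith
    · -- apply HCL
      have hne : (CCost_T c τ k.val).Nonempty := by
        rw [Finset.nonempty_iff_ne_empty]
        intro h3
        exact h1 (Finset.mem_filter.2 ⟨hk, h3⟩)
      have hknot : k ∉ CCost_T c τ k.val := by
        intro h3
        have := ((CCost_mem _ _ _ _).1 h3).2
        omega
      have hins : insert k (CCost_T c τ k.val) = CCost_T c τ (k.val + 1) := by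
        ext i
        rw [Finset.mem_insert, CCost_mem, CCost_mem]
        constructor
        · rintro (h3 | h3)
          · rw [h3]
            exact ⟨hkc, by omega⟩
          · exact ⟨h3.1, by omega⟩
        · rintro ⟨h3, h4⟩
          rcases Nat.lt_or_ge i.val k.val with h5 | h5
          · exact Or.inr ⟨h3, h5⟩
          · left
            apply Fin.ext
            omega
      have h3 : ¬ (g (k.val + 1) + C₂ * (D * a) < g k.val) := fun h =>
        h2 (Finset.mem_filter.2 ⟨hk, h⟩)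
      have h4 : R.G (D * a) (CCost_T c τ k.val) ≤
          R.G (D * a) (insert k (CCost_T c τ k.val)) + C₂ * (D * a) := by
        rw [hins]
        exact not_lt.1 h3
      have hTB : ∀ i ∈ CCost_T c τ k.val, i ∉ Bad := by
        intro i hi hB
        exact hτ (((CCost_mem _ _ _ _).1 hi).1.symm.trans (hcB i hB))
      have hkB : k ∉ Bad := fun hB => hτ (hkc.symm.trans (hcB k hB))
      have h5 := hCL _ k hne hTB hkB hknot h4
      have h6 : P.cost k (CCost_T c τ k.val) ≤ P.cost k (Finset.Iio k) := by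
        apply P.cost_mono
        · intro i hi
          rw [Finset.mem_Iio]
          exact ((CCost_mem _ _ _ _).1 hi).2
        · rw [Finset.mem_Iio]
          exact lt_irrefl _
      have h7 : (P.cost k (CCost_T c τ k.val) : ℝ) ≤ P.cost k (Finset.Iio k) := by
        exact_mod_cast h6
      have h8 : (R.G (D * a) (cls c τ) : ℝ) ≤ R.G (D * a) (CCost_T c τ k.val) := by
        exact_mod_cast CCost_G_anti R (D * a) (hTsub k.val)
      have h9 := mul_le_mul_of_nonneg_left h7 hσ
      linarith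
  have hsum := Finset.sum_le_sum hpt
  rw [Finset.sum_const, nsmul_eq_mul] at hsum
  refine hsum.trans ?_
  rw [Finset.sum_add_distrib, Finset.sum_add_distrib, Finset.sum_add_distrib, Finset.sum_const,
    nsmul_eq_mul, ← Finset.mul_sum]
  have hs1 : ∑ k ∈ cls c τ, (if k ∈ E1 then (D * a * N : ℝ) else 0) ≤ D * a * N := by
    rw [← Finset.sum_filter, Finset.sum_const, nsmul_eq_mul]
    have h1 : ((cls c τ).filter fun k => k ∈ E1).card ≤ 1 := by
      refine le_trans (Finset.card_le_card ?_) hE1c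
      intro k hk
      exact (Finset.mem_filter.1 hk).2
    have h2 : ((((cls c τ).filter fun k => k ∈ E1).card : ℕ) : ℝ) ≤ 1 := by exact_mod_cast h1
    have h0 : (0 : ℝ) ≤ D * a * N := by positivity
    nlinarith
  have hs2 : ∑ k ∈ cls c τ, (if k ∈ E2 then (D * a * N : ℝ) else 0) ≤ (N / C₂) * (D * a * N) := by
    rw [← Finset.sum_filter, Finset.sum_const, nsmul_eq_mul]
    have h1 : ((cls c τ).filter fun k => k ∈ E2).card ≤ E2.card := by
      refine Finset.card_le_card ?_
      intro k hk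
      exact (Finset.mem_filter.1 hk).2
    have h2 : ((((cls c τ).filter fun k => k ∈ E2).card : ℕ) : ℝ) ≤ E2.card := by exact_mod_cast h1
    have h0 : (0 : ℝ) ≤ D * a * N := by positivity
    exact mul_le_mul_of_nonneg_right (h2.trans hE2c) h0
  nlinarith

/-- M05 with bad points: copy of `Lib_GD.le_cost`; (CL) is only applied inside the classes
`τ ≠ 0`, which contain no bad points. -/
theorem le_cost_bad {N r : ℕ} (hN : 0 < N) (P : Profile N) (R : Ranks N)
    (Bad : Finset (Fin N)) (D a C₂ : ℕ) (hD : 1 ≤ D)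
    (ha : 1 ≤ a) (hC : 1 ≤ C₂) (σ ξ : ℝ) (hσ : 0 ≤ σ) (hξ : 0 ≤ ξ)
    (hCL : HCLbad P R Bad D a C₂ σ ξ) (c : Fin N → Fin (r + 1)) (hcB : ∀ i ∈ Bad, c i = 0) :
    (∑ τ ∈ Finset.univ.erase 0, ((cls c τ).card : ℝ) * R.G (D * a) (cls c τ)) ≤
      σ * P.A + r * (1 + N / C₂) * (D * a * N) + ξ * D * a * N * N := by
  classical
  have h1 : (∑ τ ∈ Finset.univ.erase 0, ((cls c τ).card : ℝ) * R.G (D * a) (cls c τ)) ≤
      ∑ τ ∈ (Finset.univ : Finset (Fin (r + 1))).erase 0,
        (σ * (∑ k ∈ cls c τ, (P.cost k (Finset.Iio k) : ℝ)) + ξ * D * a * N * (cls c τ).card +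
          (1 + N / C₂) * (D * a * N)) :=
    Finset.sum_le_sum fun τ hτ =>
      CCost_class hN P R D a C₂ hD ha hC σ ξ hσ hξ Bad hCL c hcB τ (Finset.ne_of_mem_erase hτ)
  refine h1.trans ?_
  rw [Finset.sum_add_distrib, Finset.sum_add_distrib, Finset.sum_const, nsmul_eq_mul,
    ← Finset.mul_sum, ← Finset.mul_sum]
  have hcard : ((Finset.univ : Finset (Fin (r + 1))).erase 0).card = r := by
    rw [Finset.card_erase_of_mem (Finset.mem_univ _), Finset.card_univ, Fintype.card_fin]
    rfl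
  have hA : ∑ k : Fin N, (P.cost k (Finset.Iio k) : ℝ) = P.A := by
    have h2 := P.cost_sum (Equiv.refl _)
    have h3 : ∑ k : Fin N, P.cost k (Finset.Iio k) = P.A := by
      rw [← h2]
      refine Finset.sum_congr rfl fun k _ => ?_
      congr 1
      ext i
      simp
    rw [← h3]
    push_cast
    rfl
  have h2 : ∑ τ ∈ (Finset.univ : Finset (Fin (r + 1))).erase 0,
      ∑ k ∈ cls c τ, (P.cost k (Finset.Iio k) : ℝ) ≤ P.A := by
    rw [← hA]
    have h3 : ∑ τ ∈ (Finset.univ : Finset (Fin (r + 1))).erase 0,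
        ∑ k ∈ cls c τ, (P.cost k (Finset.Iio k) : ℝ) ≤
        ∑ τ : Fin (r + 1), ∑ k ∈ cls c τ, (P.cost k (Finset.Iio k) : ℝ) := by
      refine Finset.sum_le_sum_of_subset_of_nonneg (Finset.erase_subset _ _) fun τ _ _ => ?_
      exact Finset.sum_nonneg fun k _ => Nat.cast_nonneg _
    refine h3.trans (le_of_eq ?_)
    exact Finset.sum_fiberwise (Finset.univ : Finset (Fin N)) c
      (fun k => (P.cost k (Finset.Iio k) : ℝ))
  have h3 : ∑ τ ∈ (Finset.univ : Finset (Fin (r + 1))).erase 0, ((cls c τ).card : ℝ) ≤ N := by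
    have h4 : ∑ τ ∈ (Finset.univ : Finset (Fin (r + 1))).erase 0, ((cls c τ).card : ℝ) ≤
        ∑ τ : Fin (r + 1), ((cls c τ).card : ℝ) :=
      Finset.sum_le_sum_of_subset_of_nonneg (Finset.erase_subset _ _)
        fun τ _ _ => Nat.cast_nonneg _
    refine h4.trans (le_of_eq ?_)
    have h5 := Finset.card_eq_sum_card_fiberwise (s := (Finset.univ : Finset (Fin N)))
      (t := (Finset.univ : Finset (Fin (r + 1)))) (f := c) (fun x _ => by simp)
    rw [Finset.card_univ, Fintype.card_fin] at h5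
    have h6 : ∑ τ : Fin (r + 1), (cls c τ).card = N := h5.symm
    exact_mod_cast h6
  rw [hcard]
  have h4 : σ * ∑ τ ∈ (Finset.univ : Finset (Fin (r + 1))).erase 0,
      ∑ k ∈ cls c τ, (P.cost k (Finset.Iio k) : ℝ) ≤ σ * P.A :=
    mul_le_mul_of_nonneg_left h2 hσ
  have h5 : ξ * D * a * N * ∑ τ ∈ (Finset.univ : Finset (Fin (r + 1))).erase 0,
      ((cls c τ).card : ℝ) ≤ ξ * D * a * N * N :=
    mul_le_mul_of_nonneg_left h3 (by positivity)
  have h6 : (r : ℝ) * ((1 + (N : ℝ) / C₂) * (D * a * N)) = r * (1 + N / C₂) * (D * a * N) := by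
    ring
  linarith

end Pool.Agent.Lib_KF
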