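import Pool.Agent.Lib_KF.CElim

/-! C07: the estimate (E') with poles. -/

open PowerSeries

namespace Pool.Agent.Lib_KF.ArcSys

open Pool.Agent.Lib_GD (hat colen FinColen ArcSystem)

variable {L : Type} [Field L] [Algebra ℂ L] {n N : ℕ} (Γ : ArcSys L n N)

/-- Sections with vanishing jets of order `< q` at `x_j` which vanish at the points of `J`. -/
private def CEPrime_W (q : ℕ) (j : Fin N) (J : Finset (Fin N)) :
    Submodule L⟦X⟧ (Fin N → L⟦X⟧) where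
  carrier := {f | (∀ α : Fin n →₀ ℕ, α.degree < q → Γ.ev j α f = 0) ∧ ∀ i ∈ J, Γ.ev i 0 f = 0}
  add_mem' {f g} hf hg := ⟨fun α hα => by rw [map_add, hf.1 α hα, hg.1 α hα, add_zero],
    fun i hi => by rw [map_add, hf.2 i hi, hg.2 i hi, add_zero]⟩
  zero_mem' := ⟨fun α _ => map_zero _, fun i _ => map_zero _⟩
  smul_mem' c f hf := ⟨fun α hα => by rw [map_smul, hf.1 α hα, smul_zero],
    fun i hi => by rw [map_smul, hf.2 i hi, smul_zero]⟩

/-- A derivation killing `x_j` preserves the vanishing of a jet at `x_j`. -/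
private theorem CEPrime_zero (S : Finset (Fin N)) (δ : Derivation ℂ L L) (hδ : δ ∈ Γ.Dker S)
    {j : Fin N} (hj : j ∈ S) (α : Fin n →₀ ℕ) (f : Fin N → L⟦X⟧) (hf : Γ.ev j α f = 0) :
    Γ.ev j α (fun i => hat δ (f i)) = 0 := by
  have h := Γ.hat_ev_of_mem S δ hδ hj α f
  rw [hf, Pool.Agent.Lib_GD.hat_zero, mul_zero, add_zero] at h
  exact h.symm

private theorem CEPrime_stable (q : ℕ) (j : Fin N) (J : Finset (Fin N)) :
    Γ.Stable (insert j J) (Γ.CEPrime_W q j J) := by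
  intro δ hδ f hf
  exact ⟨fun α hα => Γ.CEPrime_zero (insert j J) δ hδ (Finset.mem_insert_self j J) α f
      (hf.1 α hα),
    fun i hi => Γ.CEPrime_zero (insert j J) δ hδ (Finset.mem_insert_of_mem hi) 0 f (hf.2 i hi)⟩

/-- K07b (E') with poles; as `Lib_GD.ArcSystem.phi_le_max`. Suppose `φ > 4 q C₁ c(j|S)`, so
`φ > 4 q (a + e)` by `HUP`, and put `β = (φ + 1) / 2`. By `jet_dvd`, for `f ∈ W_S`, `|α| < q`,
`ord ev j α f ≥ φ - (q - 1) a ≥ β + 2 q e_j`, so `exists_elim` applies. For `i ∈ S \ J`,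
`β ≤ D max(a(i | J ∪ j), e_i) ≤ D C₁ c(i | J ∪ j)` by `le_of_primitive` (sections with vanishing
jets of order `< q` at `x_j` which vanish at `J` form a submodule stable under `Dker (J ∪ j)`,
by `hat_ev_of_mem`). Sum over `i ∈ S \ J` with `cc_sum_le`. -/
theorem phi_le_max (hdet : Γ.det ≠ 0) {D q C₁ : ℕ} (hD : Γ.HT D) (hq : Γ.HSep q) (hq1 : 1 ≤ q)
    (hUP : Γ.HUP C₁) (S : Finset (Fin N)) (j : Fin N) (hj : j ∉ S) :
    Γ.phi j S ≤ 4 * q * C₁ * Γ.cc j S ∨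
      Nat.card {α : Fin n →₀ ℕ // α.degree < q} * Γ.phi j S ≤ 2 * D * C₁ * Γ.AA := by
  classical
  rcases le_or_gt (Γ.phi j S) (4 * q * C₁ * Γ.cc j S) with hle | hgt
  · exact Or.inl hle
  refine Or.inr ?_
  have hup := (hUP j S hj).2
  have hbig : 4 * (q * Γ.cost j S) + 4 * (q * Γ.e j) < Γ.phi j S := by
    calc 4 * (q * Γ.cost j S) + 4 * (q * Γ.e j) = 4 * q * (Γ.cost j S + Γ.e j) := by ring
      _ ≤ 4 * q * (C₁ * Γ.cc j S) := Nat.mul_le_mul_left _ hup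
      _ = 4 * q * C₁ * Γ.cc j S := by ring
      _ < Γ.phi j S := hgt
  have hjets : ∀ f ∈ Γ.W S, ∀ α : Fin n →₀ ℕ, α.degree < q →
      (X : L⟦X⟧) ^ ((Γ.phi j S + 1) / 2 + 2 * q * Γ.e j) ∣ Γ.ev j α f := by
    intro f hf α hα
    have h1 := Γ.jet_dvd S j hj (Γ.W S) (Γ.stable_W S) (Γ.phi j S)
      (Γ.X_pow_phi_dvd hdet S j hj) α f hf
    have h2 : α.degree * Γ.cost j S ≤ q * Γ.cost j S := Nat.mul_le_mul_right _ hα.le
    have h3 : 2 * q * Γ.e j = 2 * (q * Γ.e j) := by ring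
    rw [h3]
    obtain ⟨d, hd⟩ : ∃ d, Γ.phi j S + α.degree * Γ.e j = α.degree * Γ.cost j S + d := by
      exact Nat.exists_eq_add_of_le (by omega)
    have h4 : (Γ.phi j S + 1) / 2 + 2 * (q * Γ.e j) ≤ d := by omega
    rw [hd, pow_add] at h1
    have h5 : (X : L⟦X⟧) ^ (α.degree * Γ.cost j S) ≠ 0 := pow_ne_zero _ X_ne_zero
    have h6 := (mul_dvd_mul_iff_left h5).1 h1
    exact (pow_dvd_pow _ h4).trans h6
  obtain ⟨J, hJS, hJc, hJ, f0, hf0, hf0', i0, hi0⟩ := Γ.exists_elim hq S j hj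
    ((Γ.phi j S + 1) / 2) (by omega) hjets
  have hnot : ∀ i ∈ S \ J, i ∉ insert j J := by
    intro i hi
    rw [Finset.mem_sdiff] at hi
    rw [Finset.mem_insert, not_or]
    exact ⟨fun h => hj (h ▸ hi.1), hi.2⟩
  have hcost : ∀ i ∈ S \ J, (Γ.phi j S + 1) / 2 ≤ D * C₁ * Γ.cc i (insert j J) := by
    intro i hi
    have hi' := hnot i hi
    have h1 := Γ.le_of_primitive hD (insert j J) i hi' (Γ.CEPrime_W q j J)
      (Γ.CEPrime_stable q j J) ((Γ.phi j S + 1) / 2)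
      (fun f hf => hJ f hf.1 hf.2 i (Finset.mem_sdiff.1 hi).1) ⟨f0, ⟨hf0, hf0'⟩, i0, hi0⟩
    have h2 := (hUP i (insert j J) hi').2
    have h3 : max (Γ.cost i (insert j J)) (Γ.e i) ≤ C₁ * Γ.cc i (insert j J) :=
      (max_le (Nat.le_add_right _ _) (Nat.le_add_left _ _)).trans h2
    calc (Γ.phi j S + 1) / 2 ≤ D * max (Γ.cost i (insert j J)) (Γ.e i) := h1
      _ ≤ D * (C₁ * Γ.cc i (insert j J)) := Nat.mul_le_mul_left _ h3
      _ = D * C₁ * Γ.cc i (insert j J) := by ring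
  have hsum := Γ.cc_sum_le hUP (insert j J) (S \ J) hnot
  have h1 : (S \ J).card * ((Γ.phi j S + 1) / 2) ≤ D * C₁ * Γ.AA := by
    calc (S \ J).card * ((Γ.phi j S + 1) / 2) = ∑ i ∈ S \ J, (Γ.phi j S + 1) / 2 := by
          rw [Finset.sum_const, smul_eq_mul]
      _ ≤ ∑ i ∈ S \ J, D * C₁ * Γ.cc i (insert j J) := Finset.sum_le_sum hcost
      _ = D * C₁ * ∑ i ∈ S \ J, Γ.cc i (insert j J) := by rw [Finset.mul_sum]
      _ ≤ D * C₁ * Γ.AA := Nat.mul_le_mul_left _ hsum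
  have h2 : Nat.card {α : Fin n →₀ ℕ // α.degree < q} ≤ (S \ J).card := by
    rw [Finset.card_sdiff_of_subset hJS]
    omega
  calc Nat.card {α : Fin n →₀ ℕ // α.degree < q} * Γ.phi j S
      ≤ (S \ J).card * (2 * ((Γ.phi j S + 1) / 2)) := Nat.mul_le_mul h2 (by omega)
    _ = 2 * ((S \ J).card * ((Γ.phi j S + 1) / 2)) := by ring
    _ ≤ 2 * (D * C₁ * Γ.AA) := Nat.mul_le_mul_left 2 h1
    _ = 2 * D * C₁ * Γ.AA := by ring

end Pool.Agent.Lib_KF.ArcSys
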