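import Pool.Agent.Lib_GD.Comb
import Pool.Agent.Lib_KF.CEPrime
import Pool.Agent.Lib_KF.CClose
import Pool.Agent.Lib_GD.MultiCount

/-! C15: the core theorem on arc systems with poles. -/

open PowerSeries

namespace Pool.Agent.Lib_KF

open Pool.Agent.Lib_GD (hat colen FinColen ArcSystem)

/-- The profile of an arc system with poles. -/
private noncomputable def CCore_profile {L : Type} [Field L] [Algebra ℂ L] {n N C₁ : ℕ}
    (Γ : ArcSys L n N) (hdet : Γ.det ≠ 0) (hUP : Γ.HUP C₁) : Pool.Agent.Lib_GD.Profile N where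
  cost := Γ.cc
  phi := Γ.phi
  A := Γ.AA
  v := Γ.det.order.toNat
  cost_sum := Γ.cc_sum hUP
  phi_sum σ := by
    rw [← Γ.phi_sum hdet σ]; rfl
  cost_mono := Γ.cc_mono

open Classical in
/-- The ranks of an arc system with poles: `0` if there is a bad point. -/
private noncomputable def CCore_ranks {L : Type} [Field L] [Algebra ℂ L] {n N : ℕ}
    (Γ : ArcSys L n N) (B a : ℕ) : Pool.Agent.Lib_GD.Ranks N where
  r S b := if ∃ i ∈ S, a < Γ.e i then 0 else Γ.rk B a S b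
  r_le S b := by
    split_ifs
    · exact Nat.zero_le _
    · exact Γ.rk_le B a S b
  anti S T b h := by
    by_cases hT : ∃ i ∈ T, a < Γ.e i
    · rw [if_pos hT]; exact Nat.zero_le _
    · have hS : ¬ ∃ i ∈ S, a < Γ.e i := by
        rintro ⟨i, hi, hia⟩
        exact hT ⟨i, h hi, hia⟩
      rw [if_neg hT, if_neg hS]
      exact Γ.rk_anti B a S T b h

private theorem CCore_G_bad {L : Type} [Field L] [Algebra ℂ L] {n N : ℕ}
    (Γ : ArcSys L n N) (B a : ℕ) (B' : ℕ) (S : Finset (Fin N)) (h : ∃ i ∈ S, a < Γ.e i) :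
    (CCore_ranks Γ B a).G B' S = 0 := by
  unfold Pool.Agent.Lib_GD.Ranks.G CCore_ranks
  refine Finset.sum_eq_zero fun b _ => ?_
  simp only [if_pos h]

private theorem CCore_G_good {L : Type} [Field L] [Algebra ℂ L] {n N : ℕ}
    (Γ : ArcSys L n N) (B a : ℕ) (S : Finset (Fin N)) (h : ¬ ∃ i ∈ S, a < Γ.e i) :
    (CCore_ranks Γ B a).G B S + colen (Γ.Lam B a S) = B * N := by
  rw [← Γ.sum_rk B a S]
  unfold Pool.Agent.Lib_GD.Ranks.G CCore_ranks
  simp only [if_neg h]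

/-- Separation of jets bounds the number of jets by the number of sections. -/
private theorem CCore_card_le {L : Type} [Field L] [Algebra ℂ L] {n N : ℕ}
    (Γ : ArcSys L n N) (q : ℕ) (hq : Γ.HSep q) (j : Fin N) :
    Nat.card {α : Fin n →₀ ℕ // α.degree < q} ≤ N := by
  classical
  have hli : LinearIndependent L⟦X⟧
      (fun α : {α : Fin n →₀ ℕ // α.degree < q} => (Γ.u j α : Fin N → L⟦X⟧)) := by
    rw [linearIndependent_iff']
    intro s g hg α hα
    let s' : Finset (Fin n →₀ ℕ) := s.map (Function.Embedding.subtype _)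
    let c : (Fin n →₀ ℕ) → L⟦X⟧ := fun β => if h : β.degree < q then g ⟨β, h⟩ else 0
    have hsum : ∀ f : Fin N → L⟦X⟧, ∑ β ∈ s', c β * Γ.ev j β f = 0 := by
      intro f
      have h1 : ∑ β ∈ s', c β * Γ.ev j β f = ∑ β ∈ s, g β * Γ.ev j β f := by
        rw [Finset.sum_map]
        refine Finset.sum_congr rfl fun β _ => ?_
        simp only [Function.Embedding.subtype_apply, c, dif_pos β.2]
      rw [h1]
      have h2 : ∀ i, ∑ β ∈ s, g β * Γ.u j β i = 0 := fun i => by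
        have := congrFun hg i
        simpa [Finset.sum_apply] using this
      calc ∑ β ∈ s, g β * Γ.ev j β f = ∑ β ∈ s, ∑ i, (g β * Γ.u j β i) * f i := by
            refine Finset.sum_congr rfl fun β _ => ?_
            change g β * (∑ i, Γ.u j β i * f i) = _
            rw [Finset.mul_sum]
            exact Finset.sum_congr rfl fun i _ => by ring
        _ = ∑ i, (∑ β ∈ s, g β * Γ.u j β i) * f i := by
            rw [Finset.sum_comm]
            exact Finset.sum_congr rfl fun i _ => by rw [Finset.sum_mul]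
        _ = 0 := Finset.sum_eq_zero fun i _ => by rw [h2, zero_mul]
    have hdvd : ∀ k, (X : L⟦X⟧) ^ k ∣ X ^ (2 * q * Γ.e j) * g α := by
      intro k
      have h3 := hq j k s' c (by
        intro β hβ
        obtain ⟨γ, _, rfl⟩ := Finset.mem_map.1 hβ
        exact γ.2) (fun f => by rw [hsum f]; exact dvd_zero _) α
        (Finset.mem_map.2 ⟨α, hα, rfl⟩)
      simpa only [c, dif_pos α.2] using h3
    have h4 : (X : L⟦X⟧) ^ (2 * q * Γ.e j) * g α = 0 := by
      ext k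
      rw [map_zero]
      exact (X_pow_dvd_iff.1 (hdvd (k + 1))) k (Nat.lt_succ_self k)
    rcases mul_eq_zero.1 h4 with h5 | h5
    · exact absurd h5 (pow_ne_zero _ X_ne_zero)
    · exact h5
  have h := hli.cardinal_le_rank
  rw [rank_fin_fun] at h
  have hlt : Cardinal.mk {α : Fin n →₀ ℕ // α.degree < q} < Cardinal.aleph0 :=
    lt_of_le_of_lt h Cardinal.natCast_lt_aleph0
  rw [← Cardinal.cast_toNat_of_lt_aleph0 hlt] at h
  exact_mod_cast h

/-- The case of small total cost. -/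
private theorem CCore_small {N : ℕ} (P : Pool.Agent.Lib_GD.Profile N) (t : ℝ)
    (h : ∀ j S, j ∉ S → (P.phi j S : ℝ) ≤ t * P.cost j S) : (P.v : ℝ) ≤ t * P.A := by
  have h1 := P.phi_sum 1
  have h2 := P.cost_sum 1
  have h3 : ((∑ k, P.phi ((1 : Equiv.Perm (Fin N)) k)
      ((Finset.Iio k).map (1 : Equiv.Perm (Fin N)).toEmbedding) : ℕ) : ℝ) ≤
      t * ((∑ k, P.cost ((1 : Equiv.Perm (Fin N)) k)
      ((Finset.Iio k).map (1 : Equiv.Perm (Fin N)).toEmbedding) : ℕ) : ℝ) := by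
    push_cast
    rw [Finset.mul_sum]
    refine Finset.sum_le_sum fun k _ => h _ _ fun hk => ?_
    obtain ⟨l, hl, hlk⟩ := Finset.mem_map.1 hk
    exact (Finset.mem_Iio.1 hl).ne hlk
  rw [h1, h2] at h3
  exact h3

/-- Arithmetic of the radius. -/
private theorem CCore_radius {A Cq N e C : ℝ} {D n : ℕ} (he : 0 < e) (hA : e * Cq < A)
    (hD : 0 < (D : ℝ)) (hCq : (e * D) ^ n / n.factorial ≤ Cq)
    (hN : N ≤ C * D ^ n) (hN0 : 0 ≤ N) :
    (⌈A / (e * Cq)⌉₊ : ℝ) * N ≤ 2 * C * n.factorial / e ^ (n + 1) * A := by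
  have hf : (0 : ℝ) < n.factorial := by positivity
  have hCq0 : 0 < Cq := lt_of_lt_of_le (by positivity) hCq
  have hA0 : 0 < A := lt_trans (by positivity) hA
  have h1 : (⌈A / (e * Cq)⌉₊ : ℝ) ≤ 2 * (A / (e * Cq)) := by
    have h2 := (Nat.ceil_lt_add_one (by positivity : 0 ≤ A / (e * Cq))).le
    have h3 : 1 ≤ A / (e * Cq) := by
      rw [one_le_div (by positivity)]; exact hA.le
    linarith
  have h4 : A / (e * Cq) ≤ A * n.factorial / (e * (e * D) ^ n) := by
    rw [div_le_div_iff₀ (by positivity) (by positivity)]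
    have h5 : (e * D) ^ n ≤ Cq * n.factorial := by
      rwa [div_le_iff₀ hf] at hCq
    calc A * (e * (e * D) ^ n) ≤ A * (e * (Cq * n.factorial)) := by gcongr
      _ = A * n.factorial * (e * Cq) := by ring
  calc (⌈A / (e * Cq)⌉₊ : ℝ) * N ≤ (2 * (A * n.factorial / (e * (e * D) ^ n))) * (C * D ^ n) := by
        refine mul_le_mul (h1.trans (by linarith)) hN hN0 (by positivity)
    _ = 2 * C * n.factorial / e ^ (n + 1) * A := by
        rw [mul_pow, pow_succ]
        field_simp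

/-- K12 (core theorem) with poles. Port of `Lib_GD.core` (file `Lib_GD.Core`). Profile:
`cost := Γ.cc`, `phi := Γ.phi`, `A := Γ.AA` (`cc_sum`, `cc_mono`, `phi_sum`). Constants:
`e ≤ min (ε / (32 C₁)) (c / 2)` also `e ≤ 1`, `q = ⌈e D⌉`, `Cq = #{|α| < q}`,
`C' = 2 C n! / e ^ (n+1)`, `Lib_GD.comb` with `κ = ε / (4 C₁ C')`; `θ = 8 C₁ e D ≤ ε D / 4`.
From `phi_le_max` and `HUP`: `φ(j|S) ≤ θ c(j|S)` or `Cq φ ≤ 2 D C₁ AA`; if `c(j|S) = 0` then
`a = e = 0`, so `φ = 0` by `phi_le`.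
Small total cost `AA ≤ e Cq`: `φ ≤ θ c` always. Otherwise put `a₀ = ⌈AA / (e Cq)⌉`, radius
`a = C₁ a₀`, `B = D a = (C₁ D) a₀`; use `comb` with `D := C₁ D`, `a := a₀` and the ranks
`r S b = if ∃ i ∈ S, a < e_i then 0 else Γ.rk B a S b` (monotone, at most `N`).
`HT (C₁ D)` by `phi_le` and `HUP`; `HExp`: `Cq φ ≤ 2 D C₁ AA ≤ 2 D C₁ e Cq a₀`; `HEL` by `le_rk`
(`c(i|S) ≤ a₀` gives `a(i|S), e_i ≤ a`, so `E` contains no bad point). `HCL`: if `S` contains a
bad point, `G S = 0`; if `j` is bad, `G (insert j S) = 0` and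
`G S ≤ C₂ B ≤ ξ B N` as soon as `N ≥ C₂ / ξ` (add this to the lower bound of `D`); otherwise
`closeness` and `sum_rk`. Finally `a₀ N ≤ C' AA`, so the error is
`κ C₁ D a₀ N ≤ (ε / 4) D AA`. -/
theorem core (n : ℕ) (hn : 1 ≤ n) (c C ε : ℝ) (C₁ : ℕ) (hc : 0 < c) (hC : 0 < C) (hε : 0 < ε)
    (hC₁ : 1 ≤ C₁) :
    ∃ D₀ : ℕ, ∀ (D N : ℕ), D₀ ≤ D → (N : ℝ) ≤ C * D ^ n →
      ∀ (L : Type) [Field L] [Algebra ℂ L] (Γ : ArcSys L n N) (σ : ℝ), 0 ≤ σ → Γ.det ≠ 0 →
        Γ.HT D → (∀ q : ℕ, (q : ℝ) ≤ c * D → Γ.HSep q) → Γ.HUP C₁ → Γ.HI2 σ →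
        (Γ.det.order.toNat : ℝ) ≤ (σ / N + ε * D) * Γ.AA := by
  obtain ⟨e, he0, he1, he2⟩ : ∃ e : ℝ, 0 < e ∧ e ≤ ε / (32 * C₁) ∧ e ≤ c / 2 := by
    have hC₁' : (0 : ℝ) < C₁ := by exact_mod_cast hC₁
    exact ⟨min (ε / (32 * C₁)) (c / 2), by positivity, min_le_left _ _, min_le_right _ _⟩
  have hC₁0 : (0 : ℝ) < C₁ := by exact_mod_cast hC₁
  have hC₁1 : (1 : ℝ) ≤ C₁ := by exact_mod_cast hC₁
  obtain ⟨C', hC'⟩ : ∃ C' : ℝ, C' = 2 * C * n.factorial / e ^ (n + 1) := ⟨_, rfl⟩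
  have hC'0 : 0 < C' := by rw [hC']; positivity
  obtain ⟨ξ, C₂, N₀, hξ, hC₂, hcomb⟩ :=
    Pool.Agent.Lib_GD.comb (ε / (4 * C₁ * C')) (by positivity)
  obtain ⟨D₁, N₁, hclose⟩ := ArcSys.closeness ξ hξ C₂ hC₂
  obtain ⟨N₂, hN₂⟩ := exists_nat_ge ((C₂ : ℝ) / ξ)
  obtain ⟨D₂, hD₂⟩ := exists_nat_ge (2 / c)
  obtain ⟨D₃, hD₃⟩ := exists_nat_ge (1 / e)
  obtain ⟨D₄, hD₄⟩ := exists_nat_ge ((max (max N₀ N₁) N₂ : ℕ) * n.factorial / e : ℝ)
  refine ⟨1 + D₁ + D₂ + D₃ + D₄, ?_⟩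
  intro D N hD hN L _ _ Γ σ hσ hdet hT hSep hUP hI2
  have hDD1 : D₁ ≤ D := by omega
  have hDD2 : (2 / c : ℝ) ≤ D := hD₂.trans (by exact_mod_cast (by omega : D₂ ≤ D))
  have hDD3 : (1 / e : ℝ) ≤ D := hD₃.trans (by exact_mod_cast (by omega : D₃ ≤ D))
  have hDD4 : ((max (max N₀ N₁) N₂ : ℕ) * n.factorial / e : ℝ) ≤ D :=
    hD₄.trans (by exact_mod_cast (by omega : D₄ ≤ D))
  have hDpos : (0 : ℝ) < D := by exact_mod_cast (by omega : 0 < D)
  -- the trivial case
  rcases Nat.eq_zero_or_pos N with hN0 | hN0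
  · subst hN0
    have h1 : Γ.det.order.toNat = 0 := by
      have : Γ.det = 1 := by
        rw [ArcSys.det]; exact Matrix.det_isEmpty
      rw [this]; simp
    rw [h1]
    simp only [Nat.cast_zero]
    positivity
  -- the main case
  obtain ⟨q, hq⟩ : ∃ q : ℕ, q = ⌈e * D⌉₊ := ⟨_, rfl⟩
  have hqlow : e * D ≤ q := by rw [hq]; exact Nat.le_ceil _
  have hqup : (q : ℝ) ≤ e * D + 1 := by
    rw [hq]; exact (Nat.ceil_lt_add_one (by positivity)).le
  have heD : 1 ≤ e * D := by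
    rw [div_le_iff₀ he0] at hDD3
    linarith
  have hq1 : 1 ≤ q := by
    have : (1 : ℝ) ≤ q := heD.trans hqlow
    exact_mod_cast this
  have hqc : (q : ℝ) ≤ c * D := by
    rw [div_le_iff₀ hc] at hDD2
    have : e * D ≤ c / 2 * D := by gcongr
    linarith
  have hS := hSep q hqc
  obtain ⟨Cq, hCq⟩ : ∃ Cq : ℕ, Cq = Nat.card {α : Fin n →₀ ℕ // α.degree < q} := ⟨_, rfl⟩
  have hCqN : Cq ≤ N := by
    rw [hCq]; exact CCore_card_le Γ q hS ⟨0, hN0⟩
  have hCqlow : (e * D) ^ n / n.factorial ≤ (Cq : ℝ) := by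
    rw [hCq]
    refine le_trans ?_ (Pool.Agent.Lib_GD.pow_le_card_multi n q hn)
    gcongr
  have hf : (0 : ℝ) < n.factorial := by positivity
  have hCq0 : (0 : ℝ) < Cq := lt_of_lt_of_le (by positivity) hCqlow
  have hNbig : max (max N₀ N₁) N₂ ≤ N := by
    have h1 : ((max (max N₀ N₁) N₂ : ℕ) : ℝ) ≤ N := by
      have h2 : e * D ≤ (e * D) ^ n := le_self_pow₀ heD (by omega)
      have h3 : ((max (max N₀ N₁) N₂ : ℕ) : ℝ) ≤ e * D / n.factorial := by
        rw [div_le_iff₀ he0] at hDD4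
        rw [le_div_iff₀ hf]
        linarith
      calc ((max (max N₀ N₁) N₂ : ℕ) : ℝ) ≤ e * D / n.factorial := h3
        _ ≤ (e * D) ^ n / n.factorial := by gcongr
        _ ≤ Cq := hCqlow
        _ ≤ N := by exact_mod_cast hCqN
    exact_mod_cast h1
  have hNN0 : N₀ ≤ N := (le_max_left _ _).trans ((le_max_left _ _).trans hNbig)
  have hNN1 : N₁ ≤ N := (le_max_right _ _).trans ((le_max_left _ _).trans hNbig)
  have hNN2 : (C₂ : ℝ) ≤ ξ * N := by
    have h1 : (N₂ : ℝ) ≤ N := by exact_mod_cast (le_max_right _ _).trans hNbig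
    rw [div_le_iff₀ hξ] at hN₂
    nlinarith
  obtain ⟨θ, hθ⟩ : ∃ θ : ℝ, θ = 8 * C₁ * e * D := ⟨_, rfl⟩
  have hθ0 : 0 ≤ θ := by rw [hθ]; positivity
  have hθε : θ ≤ ε / 4 * D := by
    rw [hθ]
    have h1 : 8 * C₁ * e ≤ ε / 4 := by
      rw [le_div_iff₀ (by positivity)] at he1
      linarith
    gcongr
  have hT' : ∀ (j : Fin N) (S : Finset (Fin N)), j ∉ S → Γ.phi j S ≤ C₁ * D * Γ.cc j S := by
    intro j S hj
    refine (Γ.phi_le hdet hT S j hj).trans ?_
    have h1 := (hUP j S hj).2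
    have h2 : max (Γ.cost j S) (Γ.e j) ≤ C₁ * Γ.cc j S := by
      refine max_le ?_ ?_ <;> omega
    calc D * max (Γ.cost j S) (Γ.e j) ≤ D * (C₁ * Γ.cc j S) := Nat.mul_le_mul_left _ h2
      _ = C₁ * D * Γ.cc j S := by ring
  have hE : ∀ (j : Fin N) (S : Finset (Fin N)), j ∉ S →
      (Γ.phi j S : ℝ) ≤ θ * Γ.cc j S ∨ (Cq : ℝ) * Γ.phi j S ≤ 2 * D * C₁ * Γ.AA := by
    intro j S hj
    rcases Γ.phi_le_max hdet hT hS hq1 hUP S j hj with h | h
    · left
      have h1 : (Γ.phi j S : ℝ) ≤ 4 * q * C₁ * Γ.cc j S := by exact_mod_cast h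
      refine h1.trans ?_
      have h3 : 4 * (q : ℝ) * C₁ ≤ θ := by
        rw [hθ]
        nlinarith
      gcongr
    · right
      rw [← hCq] at h
      exact_mod_cast h
  have hAnn : (0 : ℝ) ≤ Γ.AA := Nat.cast_nonneg _
  have hσN : 0 ≤ σ / N := by positivity
  rcases le_or_gt (Γ.AA : ℝ) (e * Cq) with hA | hA
  · -- small total cost
    have h1 : ((CCore_profile Γ hdet hUP).v : ℝ) ≤ θ * (CCore_profile Γ hdet hUP).A := by
      refine CCore_small _ _ ?_
      intro j S hj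
      change (Γ.phi j S : ℝ) ≤ θ * Γ.cc j S
      rcases hE j S hj with h | h
      · exact h
      · rcases Nat.eq_zero_or_pos (Γ.cc j S) with h0 | h0
        · have h2 := hT' j S hj
          rw [h0, mul_zero] at h2
          have h3 : Γ.phi j S = 0 := by omega
          rw [h3, h0]; simp
        · have h2 : (Cq : ℝ) * Γ.phi j S ≤ Cq * θ := by
            calc (Cq : ℝ) * Γ.phi j S ≤ 2 * D * C₁ * Γ.AA := h
              _ ≤ 2 * D * C₁ * (e * Cq) := by gcongr
              _ ≤ 8 * D * C₁ * (e * Cq) := by gcongr; norm_num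
              _ = Cq * θ := by rw [hθ]; ring
          have h3 : (Γ.phi j S : ℝ) ≤ θ := le_of_mul_le_mul_left h2 hCq0
          have h4 : (1 : ℝ) ≤ Γ.cc j S := by exact_mod_cast h0
          nlinarith
    change (Γ.det.order.toNat : ℝ) ≤ θ * Γ.AA at h1
    refine h1.trans ?_
    gcongr
    have : ε / 4 * D ≤ ε * D := by
      gcongr; linarith
    linarith
  · -- large total cost
    obtain ⟨a, ha⟩ : ∃ a : ℕ, a = ⌈(Γ.AA : ℝ) / (e * Cq)⌉₊ := ⟨_, rfl⟩
    have haN : (a : ℝ) * N ≤ C' * Γ.AA := by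
      rw [ha, hC']
      exact CCore_radius he0 hA hDpos hCqlow hN (Nat.cast_nonneg _)
    have hale : (Γ.AA : ℝ) ≤ e * Cq * a := by
      have h1 : (Γ.AA : ℝ) / (e * Cq) ≤ a := by rw [ha]; exact Nat.le_ceil _
      rw [div_le_iff₀ (by positivity)] at h1
      linarith
    have ha1 : 1 ≤ a := by
      have h1 : (0 : ℝ) < a := by
        by_contra hcon
        have h2 : (a : ℝ) = 0 := le_antisymm (not_lt.1 hcon) (Nat.cast_nonneg _)
        rw [h2, mul_zero] at hale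
        have h3 : (0 : ℝ) < e * Cq := by positivity
        linarith
      exact_mod_cast h1
    have hB : C₁ * D * a = D * (C₁ * a) := by ring
    have ha1' : 1 ≤ C₁ * a := Nat.mul_pos hC₁ ha1
    have hBr : ((C₁ : ℝ) * D * a) = D * ((C₁ * a : ℕ) : ℝ) := by push_cast; ring
    have key := hcomb N hNN0 (CCore_profile Γ hdet hUP)
      (CCore_ranks Γ (C₁ * D * a) (C₁ * a)) (C₁ * D) a
      θ σ (Nat.mul_pos hC₁ (by omega)) ha1 hθ0 hσ
      hT'
      (by
        intro j S hj hcost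
        change (Γ.phi j S : ℝ) ≤ θ * Γ.cc j S
        rcases hE j S hj with h | h
        · exact h
        · have h2 : (Cq : ℝ) * Γ.phi j S ≤ Cq * (θ * a) := by
            calc (Cq : ℝ) * Γ.phi j S ≤ 2 * D * C₁ * Γ.AA := h
              _ ≤ 2 * D * C₁ * (e * Cq * a) := by gcongr
              _ ≤ 8 * D * C₁ * (e * Cq * a) := by gcongr; norm_num
              _ = Cq * (θ * a) := by rw [hθ]; ring
          have h3 : (Γ.phi j S : ℝ) ≤ θ * a := le_of_mul_le_mul_left h2 hCq0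
          refine h3.trans ?_
          have h4 : (a : ℝ) ≤ Γ.cc j S := by
            change a < Γ.cc j S at hcost
            exact_mod_cast hcost.le
          gcongr)
      (by
        intro S E b _ hES hb hb' h
        have h' : ∀ i ∈ E, Γ.cost i S ≤ C₁ * a ∧ Γ.e i ≤ C₁ * a ∧ b ≤ Γ.phi i S := by
          intro i hi
          have h1 := h i hi
          change Γ.cc i S ≤ a ∧ b ≤ Γ.phi i S at h1
          have h2 := (hUP i S (Finset.disjoint_left.1 hES hi)).2
          have h3 : C₁ * Γ.cc i S ≤ C₁ * a := Nat.mul_le_mul_left _ h1.1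
          exact ⟨by omega, by omega, h1.2⟩
        have hbad : ¬ ∃ i ∈ E, C₁ * a < Γ.e i := by
          rintro ⟨i, hi, hia⟩
          have := (h' i hi).2.1
          omega
        have h4 := Γ.le_rk hdet (C₁ * D * a) (C₁ * a) S E b hES hb hb' h'
        unfold CCore_ranks
        simp only [if_neg hbad]
        exact h4)
      (by
        intro S j hSne hj h
        by_cases hSbad : ∃ i ∈ S, C₁ * a < Γ.e i
        · rw [CCore_G_bad Γ _ _ _ S hSbad]
          change ((0 : ℕ) : ℝ) ≤ σ * Γ.cc j S + ξ * (C₁ * D : ℕ) * a * N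
          push_cast
          positivity
        · by_cases hjbad : C₁ * a < Γ.e j
          · have h1 : ∃ i ∈ insert j S, C₁ * a < Γ.e i := ⟨j, Finset.mem_insert_self _ _, hjbad⟩
            rw [CCore_G_bad Γ _ _ _ _ h1, zero_add] at h
            have h2 : (((CCore_ranks Γ (C₁ * D * a) (C₁ * a)).G (C₁ * D * a) S : ℕ) : ℝ) ≤
                C₂ * (C₁ * D * a) := by exact_mod_cast h
            refine h2.trans ?_
            change (C₂ : ℝ) * (C₁ * D * a) ≤ σ * Γ.cc j S + ξ * (C₁ * D : ℕ) * a * N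
            push_cast
            have h3 : (C₂ : ℝ) * (C₁ * D * a) ≤ ξ * N * (C₁ * D * a) := by gcongr
            have h4 : (0 : ℝ) ≤ σ * Γ.cc j S := by positivity
            calc (C₂ : ℝ) * (C₁ * D * a) ≤ ξ * N * (C₁ * D * a) := h3
              _ = ξ * (C₁ * D) * a * N := by ring
              _ ≤ σ * Γ.cc j S + ξ * (C₁ * D) * a * N := by linarith
          · have hIbad : ¬ ∃ i ∈ insert j S, C₁ * a < Γ.e i := by
              rintro ⟨i, hi, hia⟩
              rcases Finset.mem_insert.1 hi with rfl | hi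
              · exact hjbad hia
              · exact hSbad ⟨i, hi, hia⟩
            have s1 := CCore_G_good Γ (C₁ * D * a) (C₁ * a) S hSbad
            have s2 := CCore_G_good Γ (C₁ * D * a) (C₁ * a) (insert j S) hIbad
            have h3 := hclose L n N Γ σ D (C₁ * a) hDD1 hNN1 ha1' hσ hI2 S j
              hSne hj (not_lt.1 hjbad) (by rw [← hB]; omega)
            rw [← hB] at h3
            have g3 : (((CCore_ranks Γ (C₁ * D * a) (C₁ * a)).G (C₁ * D * a) S : ℕ) : ℝ) +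
                (colen (Γ.Lam (C₁ * D * a) (C₁ * a) S) : ℝ) = C₁ * D * a * N := by
              exact_mod_cast s1
            change (((CCore_ranks Γ (C₁ * D * a) (C₁ * a)).G (C₁ * D * a) S : ℕ) : ℝ) ≤
              σ * Γ.cc j S + ξ * (C₁ * D : ℕ) * a * N
            push_cast at h3 ⊢
            have g4 : (D : ℝ) * (C₁ * a) * N = C₁ * D * a * N := by ring
            have g5 : ξ * D * (C₁ * a) * N = ξ * (C₁ * D) * a * N := by ring
            linarith)
    change (Γ.det.order.toNat : ℝ) ≤ θ * Γ.AA + σ / N * Γ.AA +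
      ε / (4 * C₁ * C') * (C₁ * D : ℕ) * a * N at key
    refine key.trans ?_
    have h1 : ε / (4 * C₁ * C') * (C₁ * D : ℕ) * a * N ≤ ε / 4 * D * Γ.AA := by
      push_cast
      calc ε / (4 * C₁ * C') * (C₁ * D) * a * N = ε / (4 * C') * D * (a * N) := by
            field_simp
        _ ≤ ε / (4 * C') * D * (C' * Γ.AA) := by gcongr
        _ = ε / 4 * D * Γ.AA := by field_simp
    have h2 : θ * Γ.AA ≤ ε / 4 * D * Γ.AA := by gcongr
    have h3 : 0 ≤ ε / 2 * D * Γ.AA := by positivity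
    calc θ * Γ.AA + σ / N * Γ.AA + ε / (4 * C₁ * C') * (C₁ * D : ℕ) * a * N
        ≤ ε / 4 * D * Γ.AA + σ / N * Γ.AA + ε / 4 * D * Γ.AA := by linarith
      _ ≤ (σ / N + ε * D) * Γ.AA := by nlinarith

end Pool.Agent.Lib_KF
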