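import Pool.Agent.Lib_GD.HatLem
import Pool.Agent.Lib_GD.PhiDet
import Pool.Agent.Lib_GD.Cost

/-!
# Arc systems with poles: definitions

`O = L⟦X⟧`. An arc system with poles is the linear algebra shadow of `N` arcs `x_j : R → O` on
the cone over a normal variety. `e j` is the order at `x_j` of the denominator `h` of the
derivations `D_l = x_a ∂/∂x_l`; `u j α i = X ^ (|α| e_j) (D^α s_i)(x_j)`, `ξ δ j l = δ (y_l (x_j))`,
`y_l = x_l / x_a`, and `g j` is the order of `G` at `x_j`.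
-/

open PowerSeries

namespace Pool.Agent.Lib_KF

open Pool.Agent.Lib_GD (hat colen FinColen ArcSystem)

variable {L : Type} [Field L] [Algebra ℂ L]

/-- An arc system with poles. -/
structure ArcSys (L : Type) [Field L] [Algebra ℂ L] (n N : ℕ) where
  /-- the derivations -/
  𝒟 : Submodule L (Derivation ℂ L L)
  /-- the order of the denominator at `x_j` -/
  e : Fin N → ℕ
  /-- `u j α i = X ^ (|α| e_j) (D^α s_i)(x_j)` -/
  u : Fin N → (Fin n →₀ ℕ) → Fin N → L⟦X⟧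
  /-- `ξ δ j l = δ (y_l (x_j))` -/
  ξ : Derivation ℂ L L → Fin N → Fin n → L⟦X⟧
  /-- the connection form of the chosen frames -/
  w : Derivation ℂ L L → Fin N → (Fin n →₀ ℕ) → L⟦X⟧
  transport : ∀ δ ∈ 𝒟, ∀ j α i,
    X ^ e j * hat δ (u j α i) =
      (∑ l, ξ δ j l * u j (α + Finsupp.single l 1) i) + X ^ e j * (w δ j α * u j α i)
  /-- the possible values of `ξ` -/
  Ξ : Submodule L⟦X⟧ (Fin N → Fin n → L⟦X⟧)
  mem_Ξ : ∀ v, v ∈ Ξ ↔ ∃ δ ∈ 𝒟, ξ δ = v
  fin_Ξ : FinColen Ξ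
  /-- the order of `G` at `x_j` -/
  g : Fin N → ℕ
  /-- the index -/
  r : ℕ

namespace ArcSys

variable {n N : ℕ} (Γ : ArcSys L n N)

/-- The arc system without sections; it carries the costs `a(j|S)`. -/
noncomputable def base : ArcSystem L n N where
  𝒟 := Γ.𝒟
  u := fun _ _ _ => 0
  ξ := Γ.ξ
  transport := by
    intro δ _ j α i
    rw [Pool.Agent.Lib_GD.hat_zero]
    simp
  Ξ := Γ.Ξ
  mem_Ξ := Γ.mem_Ξ
  fin_Ξ := Γ.fin_Ξ

/-- The arc system of dimension `0` with the same evaluation matrix; it carries the energies. -/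
noncomputable def lin : ArcSystem L 0 N where
  𝒟 := ⊥
  u := fun j _ i => Γ.u j 0 i
  ξ := fun _ => 0
  transport := by
    intro δ hδ j α i
    rw [Submodule.mem_bot] at hδ
    subst hδ
    ext k
    simp [hat]
  Ξ := ⊥
  mem_Ξ := by
    intro v
    constructor
    · intro _
      exact ⟨0, Submodule.zero_mem _, Subsingleton.elim _ _⟩
    · intro _
      rw [Submodule.mem_bot]
      exact Subsingleton.elim _ _
  fin_Ξ := by
    unfold FinColen
    have : Subsingleton ((Fin N → Fin 0 → L⟦X⟧) ⧸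
        (⊥ : Submodule L⟦X⟧ (Fin N → Fin 0 → L⟦X⟧))) :=
      ⟨fun a b => by
        obtain ⟨a, rfl⟩ := Submodule.Quotient.mk_surjective _ a
        obtain ⟨b, rfl⟩ := Submodule.Quotient.mk_surjective _ b
        rw [Subsingleton.elim a b]⟩
    rw [Module.length_eq_zero]
    exact ENat.zero_ne_top

/-- The cost `a(j|S)`: the colength of the possible values of `ξ` at `x_j` for derivations killing
the arcs `x_i`, `i ∈ S`. -/
noncomputable def cost (j : Fin N) (S : Finset (Fin N)) : ℕ := Γ.base.cost j S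

/-- The cost `c(j|S) = r a(j|S) - ord G(x_j)` of the pair. -/
noncomputable def cc (j : Fin N) (S : Finset (Fin N)) : ℕ := Γ.r * Γ.cost j S - Γ.g j

/-- The total cost of the pair. -/
noncomputable def AA : ℕ := Γ.r * colen Γ.Ξ - ∑ j, Γ.g j

/-- The derivations killing the arcs `x_i`, `i ∈ S`. -/
def Dker (S : Finset (Fin N)) : Set (Derivation ℂ L L) :=
  {δ | δ ∈ Γ.𝒟 ∧ ∀ i ∈ S, Γ.ξ δ i = 0}

/-- Submodules of `H(O) = O^N` stable under the derivations killing the arcs in `S`. -/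
def Stable (S : Finset (Fin N)) (M : Submodule L⟦X⟧ (Fin N → L⟦X⟧)) : Prop :=
  ∀ δ ∈ Γ.Dker S, ∀ f ∈ M, (fun i => hat δ (f i)) ∈ M

/-- The functionals `f ↦ X ^ (|α| e_j) (D^α f)(x_j)` on `H(O) = O^N`. -/
noncomputable def ev (j : Fin N) (α : Fin n →₀ ℕ) : (Fin N → L⟦X⟧) →ₗ[L⟦X⟧] L⟦X⟧ where
  toFun f := ∑ i, Γ.u j α i * f i
  map_add' f g := by simp [mul_add, Finset.sum_add_distrib]
  map_smul' c f := by
    simp only [Pi.smul_apply, smul_eq_mul, RingHom.id_apply, Finset.mul_sum]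
    exact Finset.sum_congr rfl fun i _ => by ring

/-- `W_S`: the elements of `H(O)` vanishing at the arcs `x_i`, `i ∈ S`. -/
def W (S : Finset (Fin N)) : Submodule L⟦X⟧ (Fin N → L⟦X⟧) where
  carrier := {f | ∀ i ∈ S, Γ.ev i 0 f = 0}
  add_mem' {a b} ha hb i hi := by simp [ha i hi, hb i hi]
  zero_mem' i _ := by simp
  smul_mem' c a ha i hi := by simp [ha i hi]

/-- The energy `φ(j|S)`: the smallest order at `x_j` of an element of `W_S`. -/
noncomputable def phi (j : Fin N) (S : Finset (Fin N)) : ℕ :=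
  sInf {k | ∃ f ∈ Γ.W S, ¬ (X : L⟦X⟧) ^ (k + 1) ∣ Γ.ev j 0 f}

/-- The evaluation determinant. -/
noncomputable def det : L⟦X⟧ := Matrix.det (Matrix.of fun j i : Fin N => Γ.u j 0 i)

/-- Hypothesis (T'): a section which is non-zero modulo `X` has a jet of order at most `D` at `x_j`
whose value has order at most `D e_j`. -/
def HT (D : ℕ) : Prop :=
  ∀ (j : Fin N) (f : Fin N → L⟦X⟧), (∃ i, constantCoeff (f i) ≠ 0) →
    ∃ α : Fin n →₀ ℕ, α.degree ≤ D ∧ ¬ (X : L⟦X⟧) ^ (D * Γ.e j + 1) ∣ Γ.ev j α f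

/-- Hypothesis (Sep'): the jets of order `< q` are independent up to a bounded denominator. -/
def HSep (q : ℕ) : Prop :=
  ∀ (j : Fin N) (k : ℕ) (s : Finset (Fin n →₀ ℕ)) (c : (Fin n →₀ ℕ) → L⟦X⟧),
    (∀ α ∈ s, α.degree < q) → (∀ f, (X : L⟦X⟧) ^ k ∣ ∑ α ∈ s, c α * Γ.ev j α f) →
      ∀ α ∈ s, (X : L⟦X⟧) ^ k ∣ X ^ (2 * q * Γ.e j) * c α

/-- The lower bound for the costs (from `δ > 0`): `a(j|S) + e_j ≤ C₁ c(j|S)`. -/
def HUP (C₁ : ℕ) : Prop :=
  ∀ (j : Fin N) (S : Finset (Fin N)), j ∉ S →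
    Γ.g j ≤ Γ.r * Γ.cost j S ∧ Γ.cost j S + Γ.e j ≤ C₁ * Γ.cc j S

/-- Hypothesis (I2): a stable lattice `X ^ (-B) M`, `X ^ B O^N ⊆ M ⊆ O^N`, with integral values
at `x_j` has length at most `σ c(j|S)` over `O^N`. -/
def HI2 (σ : ℝ) : Prop :=
  ∀ (S : Finset (Fin N)) (j : Fin N), j ∉ S →
    ∀ (B : ℕ) (M : Submodule L⟦X⟧ (Fin N → L⟦X⟧)), (∀ f, (X : L⟦X⟧) ^ B • f ∈ M) →
      Γ.Stable S M → (∀ f ∈ M, (X : L⟦X⟧) ^ B ∣ Γ.ev j 0 f) →
      (B : ℝ) * N - colen M ≤ σ * Γ.cc j S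

/-- The disc lattice `X ^ B Λ_S` of radius `a`; only the points with `e_i ≤ a` count. -/
def Lam (B a : ℕ) (S : Finset (Fin N)) : Submodule L⟦X⟧ (Fin N → L⟦X⟧) where
  carrier := {f | ∀ i ∈ S, Γ.e i ≤ a → ∀ α : Fin n →₀ ℕ,
    (X : L⟦X⟧) ^ B ∣ X ^ (α.degree * (a - Γ.e i)) * Γ.ev i α f}
  add_mem' {f g} hf hg i hi ha α := by
    rw [map_add, mul_add]; exact dvd_add (hf i hi ha α) (hg i hi ha α)
  zero_mem' i _ _ α := by simp
  smul_mem' c f hf i hi ha α := by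
    rw [map_smul, smul_eq_mul, mul_left_comm]; exact Dvd.dvd.mul_left (hf i hi ha α) c

/-- `r_S(b)` as a subspace of `L^N`: the reductions of the `f ∈ O^N` with
`X ^ (B - b) f ∈ X ^ B Λ_S`. -/
def rsub (B a : ℕ) (S : Finset (Fin N)) (b : ℕ) : Submodule L (Fin N → L) where
  carrier := {v | ∃ f : Fin N → L⟦X⟧, (∀ i, constantCoeff (f i) = v i) ∧
    (X : L⟦X⟧) ^ (B - b) • f ∈ Γ.Lam B a S}
  add_mem' {v w} := by
    rintro ⟨f, hf, hf'⟩ ⟨g, hg, hg'⟩
    exact ⟨f + g, fun i => by simp [hf i, hg i], by rw [smul_add]; exact add_mem hf' hg'⟩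
  zero_mem' := ⟨0, fun i => by simp, by simp⟩
  smul_mem' c v := by
    rintro ⟨f, hf, hf'⟩
    refine ⟨(C c : L⟦X⟧) • f, fun i => by simp [hf i], ?_⟩
    rw [smul_comm]; exact Submodule.smul_mem _ _ hf'

/-- `r_S(b)`. -/
noncomputable def rk (B a : ℕ) (S : Finset (Fin N)) (b : ℕ) : ℕ :=
  Module.finrank L (Γ.rsub B a S b)

end ArcSys

end Pool.Agent.Lib_KF
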