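import Pool.Agent.Lib_KF.CPhi

/-! C08: disc lattices with poles and their ranks. -/

open PowerSeries

namespace Pool.Agent.Lib_KF.ArcSys

open Pool.Agent.Lib_GD (hat colen FinColen ArcSystem)

variable {L : Type} [Field L] [Algebra ℂ L] {n N : ℕ} (Γ : ArcSys L n N)

theorem X_pow_smul_mem_Lam (B a : ℕ) (S : Finset (Fin N)) (f : Fin N → L⟦X⟧) :
    (X : L⟦X⟧) ^ B • f ∈ Γ.Lam B a S := by
  intro i _ _ α
  rw [map_smul, smul_eq_mul]
  exact Dvd.dvd.mul_left (dvd_mul_right _ _) _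

theorem Lam_anti (B a : ℕ) {S T : Finset (Fin N)} (h : S ⊆ T) :
    Γ.Lam B a T ≤ Γ.Lam B a S := fun _ hf i hi ha α => hf i (h hi) ha α

theorem rk_le (B a : ℕ) (S : Finset (Fin N)) (b : ℕ) : Γ.rk B a S b ≤ N := by
  unfold rk
  refine (Submodule.finrank_le _).trans (le_of_eq ?_)
  rw [Module.finrank_fin_fun]

theorem rk_anti (B a : ℕ) (S T : Finset (Fin N)) (b : ℕ) (h : S ⊆ T) :
    Γ.rk B a T b ≤ Γ.rk B a S b := by
  unfold rk
  refine Submodule.finrank_mono ?_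
  rintro v ⟨f, hf, hf'⟩
  exact ⟨f, hf, Γ.Lam_anti B a h hf'⟩

/-- multiples of a power of `X` -/
private noncomputable def CDisc_XP (L : Type) [Field L] (N i : ℕ) :
    Submodule L⟦X⟧ (Fin N → L⟦X⟧) :=
  LinearMap.range (LinearMap.lsmul L⟦X⟧ (Fin N → L⟦X⟧) (X ^ i))

omit [Algebra ℂ L] in
private theorem CDisc_mem_XP {i : ℕ} {v : Fin N → L⟦X⟧} :
    v ∈ CDisc_XP L N i ↔ ∃ h : Fin N → L⟦X⟧, (X : L⟦X⟧) ^ i • h = v := by
  unfold CDisc_XP
  rw [LinearMap.mem_range]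
  rfl

omit [Algebra ℂ L] in
private theorem CDisc_step (M : Submodule L⟦X⟧ (Fin N → L⟦X⟧)) (i : ℕ)
    (R : Submodule L (Fin N → L))
    (hR : ∀ v, v ∈ R ↔ ∃ f : Fin N → L⟦X⟧, (∀ j, constantCoeff (f j) = v j) ∧
      (X : L⟦X⟧) ^ i • f ∈ M) :
    Module.length L⟦X⟧ ((Fin N → L⟦X⟧) ⧸ (M ⊔ CDisc_XP L N (i + 1))) =
      ((N - Module.finrank L R : ℕ) : ℕ∞) +
        Module.length L⟦X⟧ ((Fin N → L⟦X⟧) ⧸ (M ⊔ CDisc_XP L N i)) := by
  let alg : Algebra L⟦X⟧ L := (constantCoeff : L⟦X⟧ →+* L).toAlgebra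
  have hsmul : ∀ (a : L⟦X⟧) (l : L), a • l = constantCoeff a * l := fun _ _ => rfl
  -- the reduction
  let red : (Fin N → L⟦X⟧) →ₗ[L⟦X⟧] (Fin N → L) :=
    { toFun := fun f j => constantCoeff (f j)
      map_add' := fun f g => by funext j; simp
      map_smul' := fun a f => by
        funext j
        simp only [Pi.smul_apply, smul_eq_mul, map_mul, RingHom.id_apply, hsmul] }
  have hred : ∀ f j, red f j = constantCoeff (f j) := fun _ _ => rfl
  let mk' : (Fin N → L) →ₗ[L⟦X⟧] ((Fin N → L) ⧸ R) :=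
    { toFun := fun v => R.mkQ v
      map_add' := fun v w => map_add _ _ _
      map_smul' := fun a v => rfl }
  let ph : (Fin N → L⟦X⟧) →ₗ[L⟦X⟧] ((Fin N → L) ⧸ R) := mk' ∘ₗ red
  have hph : ∀ f, ph f = 0 ↔ red f ∈ R := by
    intro f
    change R.mkQ (red f) = 0 ↔ _
    rw [Submodule.mkQ_apply, Submodule.Quotient.mk_eq_zero]
  have hphs : Function.Surjective ph := by
    intro x
    obtain ⟨v, rfl⟩ := R.mkQ_surjective x
    refine ⟨fun j => C (v j), ?_⟩
    change R.mkQ (red fun j => C (v j)) = R.mkQ v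
    have h1 : red (fun j => C (v j)) = v := by
      funext j
      rw [hred, constantCoeff_C]
    rw [h1]
  -- multiplication by the power of the variable
  let ps : (Fin N → L⟦X⟧) →ₗ[L⟦X⟧] ((Fin N → L⟦X⟧) ⧸ (M ⊔ CDisc_XP L N (i + 1))) :=
    (M ⊔ CDisc_XP L N (i + 1)).mkQ ∘ₗ LinearMap.lsmul L⟦X⟧ (Fin N → L⟦X⟧) (X ^ i)
  have hps : ∀ f, ps f = Submodule.Quotient.mk ((X : L⟦X⟧) ^ i • f) := fun _ => rfl
  have hker : LinearMap.ker ps = LinearMap.ker ph := by
    ext f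
    rw [LinearMap.mem_ker, LinearMap.mem_ker, hph, hps, Submodule.Quotient.mk_eq_zero, hR]
    constructor
    · intro h
      obtain ⟨m, hm, x, hx, hmx⟩ := Submodule.mem_sup.1 h
      obtain ⟨g, rfl⟩ := CDisc_mem_XP.1 hx
      refine ⟨f - (X : L⟦X⟧) • g, fun j => ?_, ?_⟩
      · rw [hred, Pi.sub_apply, Pi.smul_apply, smul_eq_mul, map_sub, map_mul,
          constantCoeff_X, zero_mul, sub_zero]
      · have h1 : (X : L⟦X⟧) ^ i • (f - (X : L⟦X⟧) • g) = m := by
          rw [smul_sub, ← hmx, smul_smul, ← pow_succ, add_sub_cancel_right]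
        rw [h1]
        exact hm
    · rintro ⟨g, hg, hgM⟩
      have h1 : ∀ j, ∃ h : L⟦X⟧, X * h = f j - g j := by
        intro j
        have h2 : (X : L⟦X⟧) ∣ f j - g j := by
          rw [PowerSeries.X_dvd_iff, map_sub, hg j, hred, sub_self]
        obtain ⟨h, hh⟩ := h2
        exact ⟨h, hh.symm⟩
      choose w hw using h1
      have h2 : (X : L⟦X⟧) ^ i • f = (X : L⟦X⟧) ^ i • g + (X : L⟦X⟧) ^ (i + 1) • w := by
        rw [pow_succ, mul_smul, ← smul_add]
        congr 1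
        funext j
        rw [Pi.add_apply, Pi.smul_apply, smul_eq_mul, hw j]
        ring
      rw [h2]
      exact Submodule.add_mem_sup hgM (CDisc_mem_XP.2 ⟨w, rfl⟩)
  have hle : M ⊔ CDisc_XP L N (i + 1) ≤ M ⊔ CDisc_XP L N i := by
    refine sup_le_sup_left ?_ _
    intro v hv
    obtain ⟨h, rfl⟩ := CDisc_mem_XP.1 hv
    exact CDisc_mem_XP.2 ⟨(X : L⟦X⟧) • h, by rw [smul_smul, ← pow_succ]⟩
  let g : ((Fin N → L⟦X⟧) ⧸ (M ⊔ CDisc_XP L N (i + 1))) →ₗ[L⟦X⟧]
      ((Fin N → L⟦X⟧) ⧸ (M ⊔ CDisc_XP L N i)) :=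
    Submodule.mapQ _ _ LinearMap.id (fun v hv => hle hv)
  have hg : Function.Surjective g := by
    intro x
    obtain ⟨v, rfl⟩ := Submodule.Quotient.mk_surjective _ x
    exact ⟨Submodule.Quotient.mk v, rfl⟩
  have hexact : Function.Exact (LinearMap.range ps).subtype g := by
    intro x
    obtain ⟨v, rfl⟩ := Submodule.Quotient.mk_surjective _ x
    have h0 : g (Submodule.Quotient.mk v) = 0 ↔ v ∈ M ⊔ CDisc_XP L N i := by
      change (Submodule.Quotient.mk v : (Fin N → L⟦X⟧) ⧸ (M ⊔ CDisc_XP L N i)) = 0 ↔ _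
      rw [Submodule.Quotient.mk_eq_zero]
    rw [h0]
    constructor
    · intro h
      obtain ⟨m, hm, y, hy, rfl⟩ := Submodule.mem_sup.1 h
      obtain ⟨w, rfl⟩ := CDisc_mem_XP.1 hy
      refine ⟨⟨ps w, LinearMap.mem_range_self _ _⟩, ?_⟩
      change ps w = _
      rw [hps, Submodule.Quotient.eq]
      have h1 : (X : L⟦X⟧) ^ i • w - (m + (X : L⟦X⟧) ^ i • w) = -m := by abel
      rw [h1]
      exact Submodule.mem_sup_left (neg_mem hm)
    · rintro ⟨⟨y, hy⟩, hy'⟩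
      obtain ⟨w, rfl⟩ := LinearMap.mem_range.1 hy
      have h1 : ps w = Submodule.Quotient.mk v := hy'
      rw [hps, Submodule.Quotient.eq] at h1
      have h2 : v = (X : L⟦X⟧) ^ i • w - ((X : L⟦X⟧) ^ i • w - v) := by abel
      rw [h2]
      refine Submodule.sub_mem _ ?_ (hle h1)
      exact Submodule.mem_sup_right (CDisc_mem_XP.2 ⟨w, rfl⟩)
  have h1 := Module.length_eq_add_of_exact (LinearMap.range ps).subtype g
    (Submodule.subtype_injective _) hg hexact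
  rw [h1]
  congr 1
  have h2 : Module.length L⟦X⟧ (LinearMap.range ps) =
      Module.length L⟦X⟧ ((Fin N → L⟦X⟧) ⧸ LinearMap.ker ph) := by
    rw [← ps.quotKerEquivRange.length_eq]
    exact (Submodule.quotEquivOfEq _ _ hker).length_eq
  rw [h2, (ph.quotKerEquivOfSurjective hphs).length_eq]
  have hsurj : Function.Surjective (algebraMap L⟦X⟧ L) := by
    intro l
    exact ⟨C l, constantCoeff_C _⟩
  rw [Module.length_eq_of_surjective (R := L) (S := L⟦X⟧) (M := (Fin N → L) ⧸ R) hsurj,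
    Module.length_eq_finrank]
  congr 1
  have h3 := Submodule.finrank_quotient_add_finrank R
  rw [Module.finrank_fin_fun] at h3
  omega

/-- The ranks add up to the length of `Λ_S` over `O^N`: `∑_{b=1}^B r_S(b) = B N - colen`.
Copy of `Lib_GD.ArcSystem.sum_rk` (file `Lib_GD.Disc`, private lemmas `Disc_XP`, `Disc_mem_XP`,
`Disc_step`); only `X_pow_smul_mem_Lam` is used about `Lam`. -/
theorem sum_rk (B a : ℕ) (S : Finset (Fin N)) :
    (∑ b ∈ Finset.Icc 1 B, Γ.rk B a S b) + colen (Γ.Lam B a S) = B * N := by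
  have main : ∀ i, i ≤ B → Module.length L⟦X⟧ ((Fin N → L⟦X⟧) ⧸ (Γ.Lam B a S ⊔ CDisc_XP L N i)) =
      ((∑ j ∈ Finset.range i, (N - Γ.rk B a S (B - j)) : ℕ) : ℕ∞) := by
    intro i
    induction i with
    | zero =>
      intro _
      have h1 : Γ.Lam B a S ⊔ CDisc_XP L N 0 = ⊤ := by
        rw [eq_top_iff]
        intro w _
        exact Submodule.mem_sup_right (CDisc_mem_XP.2 ⟨w, by rw [pow_zero, one_smul]⟩)
      rw [h1, Finset.range_zero, Finset.sum_empty]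
      have : Subsingleton ((Fin N → L⟦X⟧) ⧸ (⊤ : Submodule L⟦X⟧ (Fin N → L⟦X⟧))) :=
        Submodule.Quotient.subsingleton_iff.2 rfl
      rw [Module.length_eq_zero]
      rfl
    | succ i ih =>
      intro hi
      have hstep := CDisc_step (Γ.Lam B a S) i (Γ.rsub B a S (B - i)) (fun v => by
        have h1 : B - (B - i) = i := by omega
        change (∃ f : Fin N → L⟦X⟧, (∀ i, constantCoeff (f i) = v i) ∧
          (X : L⟦X⟧) ^ (B - (B - i)) • f ∈ Γ.Lam B a S) ↔ _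
        rw [h1])
      rw [hstep, ih (by omega), Finset.sum_range_succ, Nat.cast_add, add_comm]
      rfl
  have hB := main B le_rfl
  have h1 : Γ.Lam B a S ⊔ CDisc_XP L N B = Γ.Lam B a S := by
    refine sup_eq_left.2 ?_
    intro v hv
    obtain ⟨w, rfl⟩ := CDisc_mem_XP.1 hv
    exact Γ.X_pow_smul_mem_Lam B a S w
  rw [h1] at hB
  have h2 : colen (Γ.Lam B a S) = ∑ j ∈ Finset.range B, (N - Γ.rk B a S (B - j)) := by
    unfold colen
    rw [hB, ENat.toNat_natCast]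
  have h3 : ∑ j ∈ Finset.range B, (N - Γ.rk B a S (B - j)) =
      ∑ b ∈ Finset.Icc 1 B, (N - Γ.rk B a S b) := by
    refine Finset.sum_bij' (fun j _ => B - j) (fun b _ => B - b) ?_ ?_ ?_ ?_ ?_
    · intro j hj
      have := Finset.mem_range.1 hj
      exact Finset.mem_Icc.2 ⟨by omega, by omega⟩
    · intro b hb
      have := Finset.mem_Icc.1 hb
      exact Finset.mem_range.2 (by omega)
    · intro j hj
      have := Finset.mem_range.1 hj
      change B - (B - j) = j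
      omega
    · intro b hb
      have := Finset.mem_Icc.1 hb
      change B - (B - b) = b
      omega
    · intro j _
      rfl
  rw [h2, h3, ← Finset.sum_add_distrib]
  have h4 : ∀ b ∈ Finset.Icc 1 B, Γ.rk B a S b + (N - Γ.rk B a S b) = N := fun b _ => by
    have := Γ.rk_le B a S b
    omega
  rw [Finset.sum_congr rfl h4, Finset.sum_const, Nat.card_Icc, smul_eq_mul, Nat.add_sub_cancel]

/-- (EL) with poles: if all `i ∈ E` satisfy `a(i|S) ≤ a`, `e_i ≤ a` and have energy at least `b`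
over `S`, then `r_E(b) ≥ N - #S`. As `Lib_GD.ArcSystem.le_rk` with the new `jet_dvd`:
`X ^ (b + |α| e_i) ∣ X ^ (|α| a) ev i α f`, so `X ^ b ∣ X ^ (|α| (a - e_i)) ev i α f`. -/
theorem le_rk (hdet : Γ.det ≠ 0) (B a : ℕ) (S E : Finset (Fin N)) (b : ℕ)
    (hES : Disjoint E S) (hb : 1 ≤ b) (hb' : b ≤ B)
    (h : ∀ i ∈ E, Γ.cost i S ≤ a ∧ Γ.e i ≤ a ∧ b ≤ Γ.phi i S) :
    N ≤ Γ.rk B a E b + S.card := by
  have h1 := Γ.le_finrank_W S
  refine h1.trans (Nat.add_le_add_right ?_ _)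
  unfold rk
  refine Submodule.finrank_mono ?_
  rw [Submodule.span_le]
  rintro v ⟨f, hf, hfv⟩
  refine ⟨f, hfv, ?_⟩
  intro i hi hia α
  have hiS : i ∉ S := Finset.disjoint_left.1 hES hi
  have h2 := Γ.jet_dvd S i hiS (Γ.W S) (Γ.stable_W S) b (fun g hg =>
    dvd_trans (pow_dvd_pow _ (h i hi).2.2) (Γ.X_pow_phi_dvd hdet S i hiS g hg)) α f hf
  have h3 : (X : L⟦X⟧) ^ (b + α.degree * Γ.e i) ∣ X ^ (α.degree * a) * Γ.ev i α f := by
    have h4 : α.degree * a = α.degree * (a - Γ.cost i S) + α.degree * Γ.cost i S := by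
      rw [← Nat.mul_add, Nat.sub_add_cancel (h i hi).1]
    rw [h4, pow_add X (α.degree * (a - Γ.cost i S)), mul_assoc]
    exact Dvd.dvd.mul_left h2 _
  have h3' : (X : L⟦X⟧) ^ b ∣ X ^ (α.degree * (a - Γ.e i)) * Γ.ev i α f := by
    have h4 : α.degree * a = α.degree * Γ.e i + α.degree * (a - Γ.e i) := by
      rw [← Nat.mul_add, Nat.add_sub_cancel' hia]
    rw [h4, pow_add X (α.degree * Γ.e i), mul_assoc, Nat.add_comm, pow_add] at h3
    exact (mul_dvd_mul_iff_left (pow_ne_zero _ PowerSeries.X_ne_zero)).1 h3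
  have h5 : (X : L⟦X⟧) ^ B = X ^ (B - b) * X ^ b := by
    rw [← pow_add, Nat.sub_add_cancel hb']
  rw [map_smul, smul_eq_mul, mul_left_comm, h5]
  exact mul_dvd_mul_left _ h3'

end Pool.Agent.Lib_KF.ArcSys
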