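import Mathlib

/-! C05: saturation of a family of functionals over `L⟦X⟧`. -/

open PowerSeries

namespace Pool.Agent.Lib_KF

/-- Let `ev α` (`α ∈ T`) be linearly independent functionals on `O^N`. There are `#T` functionals
`g k` which are independent modulo `X`, have the same common kernel, and are combinations
`X ^ m g_k = ∑ c_α ev α`.
Proof: `E = (ev α)_α : O^N → O^T`, `K = ker E`. `O^N / K` embeds in `O^T`, so it is torsion free
and finite over the PID `O`, hence free; its rank is `#T` (the `ev α` are independent: a
non-zero linear form on `O^T` over the fraction field vanishing on the image gives a relation;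
or: `rank range E = #T` via `Matrix.rank`/`finrank` of the dual). Let `b_l` be a basis of `O^N/K`,
`g_k` = coordinate functionals composed with the projection. Evaluating at lifts of the `b_l` shows
independence modulo `X`. The square matrix `P_{α l} = ev α (b_l)` has `det P ≠ 0` and
`det P • g_k = ∑ (adj P)_{k α} ev α`; `det P = X ^ m · unit`. -/
theorem exists_saturation {L : Type} [Field L] {N : ℕ} {T : Type} [Fintype T]
    (ev : T → (Fin N → L⟦X⟧) →ₗ[L⟦X⟧] L⟦X⟧) (hev : LinearIndependent L⟦X⟧ ev) :
    ∃ g : Fin (Fintype.card T) → (Fin N → L⟦X⟧) →ₗ[L⟦X⟧] L⟦X⟧,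
      LinearIndependent L
        (fun k : Fin (Fintype.card T) => fun i : Fin N => constantCoeff (g k (Pi.single i 1))) ∧
      (∀ f, (∀ α, ev α f = 0) ↔ ∀ k, g k f = 0) ∧
      ∀ k, ∃ (m : ℕ) (c : T → L⟦X⟧), ∀ f, (X : L⟦X⟧) ^ m * g k f = ∑ α, c α * ev α f := by
  classical
  set E : (Fin N → L⟦X⟧) →ₗ[L⟦X⟧] (T → L⟦X⟧) := LinearMap.pi ev with hE
  set E' : (Fin N → L⟦X⟧) →ₗ[L⟦X⟧] LinearMap.range E := E.rangeRestrict with hE'
  have hsurj : Function.Surjective E' := LinearMap.surjective_rangeRestrict E
  obtain ⟨n, b₀⟩ := Submodule.basisOfPid (Pi.basisFun L⟦X⟧ T) (LinearMap.range E)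
  have hexp₀ : ∀ α f, ev α f = ∑ l, ((b₀ l : LinearMap.range E) : T → L⟦X⟧) α *
      b₀.repr (E' f) l := by
    intro α f
    have h1 : ((E' f : LinearMap.range E) : T → L⟦X⟧) α = ev α f := rfl
    rw [← h1]
    conv_lhs => rw [← b₀.sum_repr (E' f)]
    rw [Submodule.coe_sum, Finset.sum_apply]
    refine Finset.sum_congr rfl fun l _ => ?_
    rw [Submodule.coe_smul, Pi.smul_apply, smul_eq_mul, mul_comm]
  -- the rank
  have hle : Fintype.card T ≤ n := by
    have h2 : LinearIndependent L⟦X⟧
        (fun α : T => fun l : Fin n => ((b₀ l : LinearMap.range E) : T → L⟦X⟧) α) := by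
      rw [Fintype.linearIndependent_iff] at hev ⊢
      intro c hc
      refine hev c ?_
      refine LinearMap.ext fun f => ?_
      rw [LinearMap.sum_apply, LinearMap.zero_apply]
      have h3 : ∀ l, ∑ α, c α * ((b₀ l : LinearMap.range E) : T → L⟦X⟧) α = 0 := by
        intro l
        have h4 := congrFun hc l
        simpa [Finset.sum_apply] using h4
      calc ∑ α, (c α • ev α) f
          = ∑ α, ∑ l, c α * ((b₀ l : LinearMap.range E) : T → L⟦X⟧) α *
              b₀.repr (E' f) l := by
            refine Finset.sum_congr rfl fun α _ => ?_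
            rw [LinearMap.smul_apply, smul_eq_mul, hexp₀ α f, Finset.mul_sum]
            exact Finset.sum_congr rfl fun l _ => (mul_assoc _ _ _).symm
        _ = ∑ l, (∑ α, c α * ((b₀ l : LinearMap.range E) : T → L⟦X⟧) α) *
              b₀.repr (E' f) l := by
            rw [Finset.sum_comm]
            exact Finset.sum_congr rfl fun l _ => (Finset.sum_mul _ _ _).symm
        _ = 0 := Finset.sum_eq_zero fun l _ => by rw [h3 l, zero_mul]
    have h5 := h2.fintype_card_le_finrank
    rwa [Module.finrank_fin_fun] at h5
  have hge : n ≤ Fintype.card T := by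
    have h6 := Submodule.finrank_le (LinearMap.range E)
    rw [Module.finrank_eq_card_basis b₀, Fintype.card_fin, Module.finrank_fintype_fun_eq_card] at h6
    exact h6
  have hn : n = Fintype.card T := le_antisymm hge hle
  subst hn
  -- reindex by `T`
  set e : T ≃ Fin (Fintype.card T) := Fintype.equivFin T with he
  set P : Matrix T T L⟦X⟧ := Matrix.of fun α β =>
    ((b₀ (e β) : LinearMap.range E) : T → L⟦X⟧) α with hP
  set g : Fin (Fintype.card T) → (Fin N → L⟦X⟧) →ₗ[L⟦X⟧] L⟦X⟧ :=
    fun k => (b₀.coord k).comp E' with hg
  have hgf : ∀ k f, g k f = b₀.repr (E' f) k := fun k f => rfl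
  have hexp : ∀ α f, ev α f = ∑ β, P α β * g (e β) f := by
    intro α f
    rw [hexp₀ α f]
    exact (Equiv.sum_comp e fun l => ((b₀ l : LinearMap.range E) : T → L⟦X⟧) α *
      b₀.repr (E' f) l).symm
  have hdet : P.det ≠ 0 := by
    intro h0
    obtain ⟨v, hv, hv0⟩ := Matrix.exists_vecMul_eq_zero_iff.2 h0
    refine hv (funext fun α => ?_)
    rw [Fintype.linearIndependent_iff] at hev
    refine hev v (LinearMap.ext fun f => ?_) α
    rw [LinearMap.sum_apply, LinearMap.zero_apply]
    calc ∑ α, (v α • ev α) f
        = ∑ α, ∑ β, v α * P α β * g (e β) f := by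
          refine Finset.sum_congr rfl fun α _ => ?_
          rw [LinearMap.smul_apply, smul_eq_mul, hexp α f, Finset.mul_sum]
          exact Finset.sum_congr rfl fun l _ => (mul_assoc _ _ _).symm
      _ = ∑ β, (∑ α, v α * P α β) * g (e β) f := by
          rw [Finset.sum_comm]
          exact Finset.sum_congr rfl fun l _ => (Finset.sum_mul _ _ _).symm
      _ = 0 := Finset.sum_eq_zero fun β _ => by
          have h7 := congrFun hv0 β
          rw [Matrix.vecMul, dotProduct, Pi.zero_apply] at h7
          rw [h7, zero_mul]
  refine ⟨g, ?_, ?_, ?_⟩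
  · rw [Fintype.linearIndependent_iff]
    intro a ha l
    obtain ⟨f, hf⟩ := hsurj (b₀ l)
    have h8 : ∀ k, constantCoeff (g k f) =
        ∑ i, constantCoeff (f i) * constantCoeff (g k (Pi.single i 1)) := by
      intro k
      have h9 : f = ∑ i, f i • (Pi.single i 1 : Fin N → L⟦X⟧) := by
        conv_lhs => rw [← LinearMap.sum_single_apply (fun _ => L⟦X⟧) f]
        refine Finset.sum_congr rfl fun i _ => ?_
        rw [← Pi.single_smul, smul_eq_mul, mul_one]
      conv_lhs => rw [h9]
      rw [map_sum, map_sum]
      refine Finset.sum_congr rfl fun i _ => ?_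
      rw [map_smul, smul_eq_mul, map_mul]
    have h10 : ∑ k, a k * constantCoeff (g k f) = 0 := by
      calc ∑ k, a k * constantCoeff (g k f)
          = ∑ i, constantCoeff (f i) *
              ∑ k, a k * constantCoeff (g k (Pi.single i 1)) := by
            simp_rw [h8, Finset.mul_sum]
            rw [Finset.sum_comm]
            refine Finset.sum_congr rfl fun i _ => Finset.sum_congr rfl fun k _ => ?_
            ring
        _ = 0 := Finset.sum_eq_zero fun i _ => by
            have h11 := congrFun ha i
            simp only [Finset.sum_apply, Pi.smul_apply, smul_eq_mul, Pi.zero_apply] at h11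
            rw [h11, mul_zero]
    rw [Finset.sum_eq_single l] at h10
    · rwa [hgf, hf, b₀.repr_self, Finsupp.single_eq_same, map_one, mul_one] at h10
    · intro k _ hk
      rw [hgf, hf, b₀.repr_self, Finsupp.single_eq_of_ne hk, map_zero, mul_zero]
    · intro h
      exact absurd (Finset.mem_univ l) h
  · intro f
    constructor
    · intro h k
      have h12 : E' f = 0 := by
        refine Subtype.ext (funext fun α => ?_)
        exact h α
      rw [hgf, h12, map_zero, Finsupp.zero_apply]
    · intro h α
      rw [hexp α f]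
      exact Finset.sum_eq_zero fun β _ => by rw [h, mul_zero]
  · intro k
    obtain ⟨m, u, hu⟩ := IsDiscreteValuationRing.associated_pow_irreducible hdet
      (PowerSeries.X_prime (R := L)).irreducible
    refine ⟨m, fun α => u * P.adjugate (e.symm k) α, fun f => ?_⟩
    have h13 : P.det * g k f = ∑ α, P.adjugate (e.symm k) α * ev α f := by
      calc P.det * g k f
          = ∑ β, (P.adjugate * P) (e.symm k) β * g (e β) f := by
            rw [Matrix.adjugate_mul, Finset.sum_eq_single (e.symm k)]
            · rw [Matrix.smul_apply, Matrix.one_apply_eq, smul_eq_mul, mul_one,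
                Equiv.apply_symm_apply]
            · intro β _ hβ
              rw [Matrix.smul_apply, Matrix.one_apply_ne (Ne.symm hβ), smul_zero, zero_mul]
            · intro h
              exact absurd (Finset.mem_univ _) h
        _ = ∑ β, ∑ α, P.adjugate (e.symm k) α * P α β * g (e β) f := by
            refine Finset.sum_congr rfl fun β _ => ?_
            rw [Matrix.mul_apply, Finset.sum_mul]
        _ = ∑ α, P.adjugate (e.symm k) α * ev α f := by
            rw [Finset.sum_comm]
            refine Finset.sum_congr rfl fun α _ => ?_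
            rw [hexp α f, Finset.mul_sum]
            exact Finset.sum_congr rfl fun β _ => mul_assoc _ _ _
    calc (X : L⟦X⟧) ^ m * g k f = (u : L⟦X⟧) * (P.det * g k f) := by
          rw [← hu]
          ring
      _ = ∑ α, u * P.adjugate (e.symm k) α * ev α f := by
          rw [h13, Finset.mul_sum]
          exact Finset.sum_congr rfl fun α _ => (mul_assoc _ _ _).symm

end Pool.Agent.Lib_KF
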