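import Pool.Agent.Lib_KF.CPhi
import Pool.Agent.Lib_KF.CElimG
import Pool.Agent.Lib_KF.CSat

/-! C06: elimination for jets with poles. -/

open PowerSeries

namespace Pool.Agent.Lib_KF.ArcSys

open Pool.Agent.Lib_GD (hat colen FinColen ArcSystem)

variable {L : Type} [Field L] [Algebra ℂ L] {n N : ℕ} (Γ : ArcSys L n N)

private theorem CElim_finite (n q : ℕ) : Finite {α : Fin n →₀ ℕ // α.degree < q} := by
  refine Set.Finite.subset
    (Set.finite_Iic (Finsupp.equivFunOnFinite.symm (fun _ : Fin n => q))) ?_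
  intro α hα i
  have h1 : α i ≤ α.degree := Finsupp.le_degree i α
  have h2 : α.degree < q := hα
  rw [Finsupp.equivFunOnFinite_symm_apply_apply]
  omega

/-- (Sep') for coefficients indexed by the finite type of the multi-indices of degree `< q` -/
private theorem CElim_sep {q : ℕ} (hq : Γ.HSep q) (j : Fin N)
    [Fintype {α : Fin n →₀ ℕ // α.degree < q}] (k : ℕ)
    (c : {α : Fin n →₀ ℕ // α.degree < q} → L⟦X⟧)
    (h : ∀ f, (X : L⟦X⟧) ^ k ∣ ∑ α, c α * Γ.ev j α.1 f)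
    (α : {α : Fin n →₀ ℕ // α.degree < q}) : (X : L⟦X⟧) ^ k ∣ X ^ (2 * q * Γ.e j) * c α := by
  classical
  set c' : (Fin n →₀ ℕ) → L⟦X⟧ := fun α => if h : α.degree < q then c ⟨α, h⟩ else 0 with hc'
  have hc : ∀ α : {α : Fin n →₀ ℕ // α.degree < q}, c' α.1 = c α := fun α => by
    rw [hc']
    simp only
    rw [dif_pos α.2]
  have h1 := hq j k ((Finset.univ : Finset {α : Fin n →₀ ℕ // α.degree < q}).map
    (Function.Embedding.subtype _)) c' (by
      intro β hβ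
      obtain ⟨γ, -, rfl⟩ := Finset.mem_map.1 hβ
      exact γ.2) (by
      intro f
      rw [Finset.sum_map]
      have h2 := h f
      simp only [Function.Embedding.subtype_apply, hc]
      exact h2) α.1 (Finset.mem_map.2 ⟨α, Finset.mem_univ _, rfl⟩)
  rwa [hc] at h1

private theorem CElim_li {q : ℕ} (hq : Γ.HSep q) (j : Fin N)
    [Fintype {α : Fin n →₀ ℕ // α.degree < q}] :
    LinearIndependent L⟦X⟧ (fun α : {α : Fin n →₀ ℕ // α.degree < q} => Γ.ev j α.1) := by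
  rw [Fintype.linearIndependent_iff]
  intro c hc α
  have h1 : ∀ k, (X : L⟦X⟧) ^ k ∣ X ^ (2 * q * Γ.e j) * c α := by
    intro k
    refine CElim_sep Γ hq j k c (fun f => ?_) α
    have h2 := LinearMap.congr_fun hc f
    simp only [LinearMap.sum_apply, LinearMap.smul_apply, smul_eq_mul, LinearMap.zero_apply] at h2
    rw [h2]
    exact dvd_zero _
  have h2 : (X : L⟦X⟧) ^ (2 * q * Γ.e j) * c α = 0 := by
    ext m
    have h3 := h1 (m + 1)
    rw [PowerSeries.X_pow_dvd_iff] at h3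
    rw [h3 m (Nat.lt_succ_self m), map_zero]
  exact (mul_eq_zero.1 h2).resolve_left (pow_ne_zero _ PowerSeries.X_ne_zero)

/-- K07a with poles. Let `T = {α // |α| < q}` (a finite type). By (Sep') the `ev j α`, `α ∈ T`,
are linearly independent over `O` (a relation is `0` modulo every `X ^ k`). Take the saturation
`g_k` (`exists_saturation`), `X ^ m g_k = ∑ c_α ev j α`; (Sep') for `c` gives
`X ^ m ∣ X ^ (2 q e_j) c_α`, so `X ^ (2 q e_j) X ^ m g_k f = ∑ X ^ (2 q e_j) c_α ev j α f` is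
divisible by `X ^ m X ^ (β + 2 q e_j)` for `f ∈ W_S`, i.e. `X ^ β ∣ g_k f`. Apply `elim_general`
to `ev i = Γ.ev i 0`. -/
theorem exists_elim {q : ℕ} (hq : Γ.HSep q) (S : Finset (Fin N)) (j : Fin N)
    (hj : j ∉ S) (β : ℕ) (hβ : 1 ≤ β)
    (h : ∀ f ∈ Γ.W S, ∀ α : Fin n →₀ ℕ, α.degree < q →
      (X : L⟦X⟧) ^ (β + 2 * q * Γ.e j) ∣ Γ.ev j α f) :
    ∃ J, J ⊆ S ∧ J.card + Nat.card {α : Fin n →₀ ℕ // α.degree < q} ≤ S.card ∧
      (∀ f : Fin N → L⟦X⟧, (∀ α : Fin n →₀ ℕ, α.degree < q → Γ.ev j α f = 0) →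
        (∀ i ∈ J, Γ.ev i 0 f = 0) → ∀ i ∈ S, (X : L⟦X⟧) ^ β ∣ Γ.ev i 0 f) ∧
      ∃ f : Fin N → L⟦X⟧, (∀ α : Fin n →₀ ℕ, α.degree < q → Γ.ev j α f = 0) ∧
        (∀ i ∈ J, Γ.ev i 0 f = 0) ∧ ∃ i, constantCoeff (f i) ≠ 0 := by
  classical
  have hfinT := CElim_finite n q
  let : Fintype {α : Fin n →₀ ℕ // α.degree < q} := Fintype.ofFinite _
  obtain ⟨g, hg, hker, hcomb⟩ := exists_saturation
    (fun α : {α : Fin n →₀ ℕ // α.degree < q} => Γ.ev j α.1) (CElim_li Γ hq j)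
  have hX : ∀ m : ℕ, (X : L⟦X⟧) ^ m ≠ 0 := fun m => pow_ne_zero _ PowerSeries.X_ne_zero
  have hSN : S.card < N := by
    have h10 : S.card < (Finset.univ : Finset (Fin N)).card :=
      Finset.card_lt_card ⟨Finset.subset_univ _, fun hsub => hj (hsub (Finset.mem_univ j))⟩
    rwa [Finset.card_univ, Fintype.card_fin] at h10
  obtain ⟨J, hJS, hJc, hJ1, f₀, hf₀, hf₀J, hf₀c⟩ := elim_general (fun i => Γ.ev i 0) S hSN g hg β hβ
    (by
      intro f hf k
      obtain ⟨m, c, hmc⟩ := hcomb k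
      have h1 := CElim_sep Γ hq j m c (fun f => ⟨g k f, (hmc f).symm⟩)
      have h2 : (X : L⟦X⟧) ^ (m + (β + 2 * q * Γ.e j)) ∣
          X ^ (2 * q * Γ.e j) * (X ^ m * g k f) := by
        rw [hmc f, Finset.mul_sum]
        refine Finset.dvd_sum fun α _ => ?_
        rw [← mul_assoc, pow_add]
        exact mul_dvd_mul (h1 α) (h f hf α.1 α.2)
      have h3 : (X : L⟦X⟧) ^ (m + (β + 2 * q * Γ.e j)) = X ^ (2 * q * Γ.e j + m) * X ^ β := by
        rw [← pow_add]
        congr 1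
        omega
      have h4 : (X : L⟦X⟧) ^ (2 * q * Γ.e j) * (X ^ m * g k f) =
          X ^ (2 * q * Γ.e j + m) * g k f := by
        rw [← mul_assoc, ← pow_add]
      rw [h3, h4] at h2
      exact (mul_dvd_mul_iff_left (hX _)).1 h2)
  refine ⟨J, hJS, ?_, ?_, f₀, ?_, hf₀J, hf₀c⟩
  · rw [Nat.card_eq_fintype_card]
    exact hJc
  · intro f hf hfJ i hi
    exact hJ1 f ((hker f).1 fun α => hf α.1 α.2) hfJ i hi
  · intro α hα
    exact (hker f₀).2 hf₀ ⟨α, hα⟩

/-- The number of jets is at most the number of sections. -/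
theorem card_le {q : ℕ} (hq : Γ.HSep q) (j : Fin N) :
    Nat.card {α : Fin n →₀ ℕ // α.degree < q} ≤ N := by
  classical
  have hfinT := CElim_finite n q
  let : Fintype {α : Fin n →₀ ℕ // α.degree < q} := Fintype.ofFinite _
  obtain ⟨g, hg, -, -⟩ := exists_saturation
    (fun α : {α : Fin n →₀ ℕ // α.degree < q} => Γ.ev j α.1) (CElim_li Γ hq j)
  have h1 := hg.fintype_card_le_finrank
  rwa [Module.finrank_fin_fun, Fintype.card_fin, ← Nat.card_eq_fintype_card] at h1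

end Pool.Agent.Lib_KF.ArcSys
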