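import Pool.Agent.Lib_KF.CCore

/-! C16: the main bound for arc systems with poles, abstract form. -/

open PowerSeries

namespace Pool.Agent.Lib_KF

open Pool.Agent.Lib_GD (hat colen FinColen ArcSystem)

namespace ArcSys

variable {L : Type} [Field L] [Algebra ℂ L] {n N : ℕ} (Γ : ArcSys L n N)

/-- The total cost is positive. -/
theorem one_le_AA {C₁ : ℕ} (hUP : Γ.HUP C₁) (h1 : 1 ≤ colen Γ.Ξ) : 1 ≤ Γ.AA := by
  classical
  have hs := Γ.cc_sum hUP (Equiv.refl _)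
  have hc := Γ.base.cost_sum (Equiv.refl _)
  have hA : Γ.base.A = colen Γ.Ξ := rfl
  rw [hA] at hc
  by_contra hcon
  have h0 : Γ.AA = 0 := by omega
  rw [h0] at hs
  have h2 : ∀ k : Fin N, Γ.base.cost ((Equiv.refl (Fin N)) k)
      ((Finset.Iio k).map (Equiv.refl (Fin N)).toEmbedding) = 0 := by
    intro k
    have h3 := Finset.sum_eq_zero_iff.1 hs k (Finset.mem_univ k)
    have h4 : (Equiv.refl (Fin N)) k ∉ (Finset.Iio k).map (Equiv.refl (Fin N)).toEmbedding := by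
      intro h
      obtain ⟨i, hi, hik⟩ := Finset.mem_map.1 h
      have hik' : i = k := hik
      rw [hik', Finset.mem_Iio] at hi
      exact lt_irrefl _ hi
    have h5 := (hUP _ _ h4).2
    rw [h3, mul_zero] at h5
    have h6 : Γ.cost ((Equiv.refl (Fin N)) k)
      ((Finset.Iio k).map (Equiv.refl (Fin N)).toEmbedding) = 0 := by omega
    exact h6
  rw [Finset.sum_eq_zero fun k _ => h2 k] at hc
  omega

/-- The total cost as a real number. -/
theorem AA_cast {C₁ : ℕ} (hUP : Γ.HUP C₁) :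
    (Γ.AA : ℝ) = Γ.r * colen Γ.Ξ - ∑ j, (Γ.g j : ℝ) := by
  classical
  have hc := Γ.base.cost_sum (Equiv.refl _)
  have hA : Γ.base.A = colen Γ.Ξ := rfl
  rw [hA] at hc
  have hle : ∑ j, Γ.g j ≤ Γ.r * colen Γ.Ξ := by
    rw [← hc, Finset.mul_sum]
    refine Finset.sum_le_sum fun k _ => ?_
    have h4 : (Equiv.refl (Fin N)) k ∉ (Finset.Iio k).map (Equiv.refl (Fin N)).toEmbedding := by
      intro h
      obtain ⟨i, hi, hik⟩ := Finset.mem_map.1 h
      have hik' : i = k := hik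
      rw [hik', Finset.mem_Iio] at hi
      exact lt_irrefl _ hi
    exact (hUP _ _ h4).1
  unfold AA
  rw [Nat.cast_sub hle]
  push_cast
  ring

end ArcSys

/-- C16: the main bound in terms of arc systems. -/
theorem main_bound_abs (n : ℕ) (hn : 1 ≤ n) (r : ℕ) (hr : 1 ≤ r) (c c' : ℝ) (hc : 0 < c)
    (hcc' : c < c') (Cg CT C₁ : ℕ) (hCT : 1 ≤ CT) (hC₁ : 1 ≤ C₁) (cl : ℝ) (hcl : 0 < cl) :
    ∃ m₂ : ℕ, ∀ (m N : ℕ), m₂ ≤ m → 1 ≤ m → 1 ≤ N → N ≤ Cg * m ^ n →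
      ∀ (L : Type) [Field L] [Algebra ℂ L] (Γ : ArcSys L n N), Γ.r = r → Γ.HT (CT * m) →
        (∀ q : ℕ, (q : ℝ) ≤ cl * m → Γ.HSep q) → Γ.HUP C₁ → Γ.HI2 (m * N / c') →
        1 ≤ colen Γ.Ξ → ∀ A : ℝ, (r : ℝ) * colen Γ.Ξ - ∑ j, (Γ.g j : ℝ) = r * A →
          Γ.det.order ≠ ⊤ ∧ c / (m * r) * (Γ.det.order.toNat : ℝ) < A := by
  have hc'0 : 0 < c' := hc.trans hcc'
  have hCT' : (0 : ℝ) < CT := by exact_mod_cast hCT
  have hr' : (0 : ℝ) < r := by exact_mod_cast hr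
  set ε₂ : ℝ := (1 / c - 1 / c') / (2 * CT) with hε₂
  have hg0 : 0 < 1 / c - 1 / c' := by
    rw [sub_pos]
    exact one_div_lt_one_div_of_lt hc hcc'
  have hε₂0 : 0 < ε₂ := by positivity
  obtain ⟨D₀, hD₀⟩ := core n hn (cl / CT) (Cg + 1) ε₂ C₁ (by positivity) (by positivity) hε₂0 hC₁
  refine ⟨D₀, fun m N hm hm1 hN hNC L _ _ Γ hΓr hT hS hUP hI hX A hA => ?_⟩
  have hm1' : (1 : ℝ) ≤ m := by exact_mod_cast hm1
  have hm0 : (0 : ℝ) < m := by linarith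
  have hN' : (0 : ℝ) < N := by exact_mod_cast hN
  have hdet : Γ.det ≠ 0 := Γ.det_ne_zero hT
  have hτ0 : (0 : ℝ) ≤ m * N / c' := by positivity
  have hND : (N : ℝ) ≤ (Cg + 1) * ((CT * m : ℕ) : ℝ) ^ n := by
    have h7 : m ^ n ≤ (CT * m) ^ n := Nat.pow_le_pow_left (Nat.le_mul_of_pos_left m hCT) n
    have h8 : N ≤ (Cg + 1) * (CT * m) ^ n := hNC.trans (Nat.mul_le_mul (Nat.le_succ _) h7)
    exact_mod_cast h8
  have hS' : ∀ q : ℕ, (q : ℝ) ≤ cl / CT * (CT * m : ℕ) → Γ.HSep q := by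
    intro q hq
    refine hS q (hq.trans (le_of_eq ?_))
    push_cast
    field_simp
  have hmain := hD₀ (CT * m) N (hm.trans (Nat.le_mul_of_pos_left m hCT)) hND L Γ (m * N / c') hτ0
    hdet hT hS' hUP hI
  refine ⟨PowerSeries.order_eq_top.not.2 hdet, ?_⟩
  have hAA1 : (1 : ℝ) ≤ Γ.AA := by exact_mod_cast Γ.one_le_AA hUP hX
  have hAA : (Γ.AA : ℝ) = r * A := by
    rw [Γ.AA_cast hUP, hΓr, hA]
  have hApos : 0 < A := by
    rw [hAA] at hAA1
    by_contra hcon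
    rw [not_lt] at hcon
    have : (r : ℝ) * A ≤ 0 := mul_nonpos_of_nonneg_of_nonpos hr'.le hcon
    linarith
  rw [hAA] at hmain
  have h6 : (m * N / c' / N + ε₂ * ((CT * m : ℕ) : ℝ)) = m * ((1 / c + 1 / c') / 2) := by
    rw [hε₂]
    push_cast
    field_simp
    ring
  rw [h6] at hmain
  have h7 : c / (m * r) * (Γ.det.order.toNat : ℝ) ≤
      c / (m * r) * (m * ((1 / c + 1 / c') / 2) * (r * A)) :=
    mul_le_mul_of_nonneg_left hmain (by positivity)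
  have h8 : c / (m * r) * (m * ((1 / c + 1 / c') / 2) * (r * A)) = (1 + c / c') / 2 * A := by
    field_simp
  rw [h8] at h7
  have h9 : c / c' < 1 := by rwa [div_lt_one hc'0]
  nlinarith

end Pool.Agent.Lib_KF
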