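import Pool.Agent.Lib_KF.CDefs

/-! C02: transport, the jet bound (I3) and the T-bound for arc systems with poles. -/

open PowerSeries

namespace Pool.Agent.Lib_KF.ArcSys

open Pool.Agent.Lib_GD (hat colen FinColen ArcSystem)

variable {L : Type} [Field L] [Algebra ℂ L] {n N : ℕ} (Γ : ArcSys L n N)

theorem ev_apply (j : Fin N) (α : Fin n →₀ ℕ) (f : Fin N → L⟦X⟧) :
    Γ.ev j α f = ∑ i, Γ.u j α i * f i := rfl

/-- The costs come from `Γ.base` (all cost lemmas: `Γ.base.cost_mono`, `Γ.base.mem_Xirel`,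
`Γ.base.X_pow_cost_smul_mem`, `Γ.base.cost_sum`, ... of `Lib_GD.Cost`). -/
theorem cost_eq (j : Fin N) (S : Finset (Fin N)) : Γ.cost j S = Γ.base.cost j S := rfl

/-- The transport for functionals (`Lib_GD.HatLem.hat_ev`). -/
theorem hat_ev (δ : Derivation ℂ L L) (hδ : δ ∈ Γ.𝒟) (j : Fin N) (α : Fin n →₀ ℕ)
    (f : Fin N → L⟦X⟧) :
    X ^ Γ.e j * hat δ (Γ.ev j α f) = X ^ Γ.e j * Γ.ev j α (fun i => hat δ (f i)) +
      (∑ l, Γ.ξ δ j l * Γ.ev j (α + Finsupp.single l 1) f) +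
        X ^ Γ.e j * (Γ.w δ j α * Γ.ev j α f) := by
  have h0 : X ^ Γ.e j * hat δ (Γ.ev j α f) = X ^ Γ.e j * Γ.ev j α (fun i => hat δ (f i)) +
      ∑ i, (X ^ Γ.e j * hat δ (Γ.u j α i)) * f i := by
    simp only [ev_apply, Pool.Agent.Lib_GD.hat_sum, Pool.Agent.Lib_GD.hat_mul,
      Finset.sum_add_distrib, mul_add, Finset.mul_sum, mul_assoc]
  have h1 : ∑ i, (X ^ Γ.e j * hat δ (Γ.u j α i)) * f i =
      (∑ l, Γ.ξ δ j l * Γ.ev j (α + Finsupp.single l 1) f) +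
        X ^ Γ.e j * (Γ.w δ j α * Γ.ev j α f) := by
    simp only [Γ.transport δ hδ j α, add_mul, Finset.sum_add_distrib, ev_apply]
    congr 1
    · simp only [Finset.sum_mul, Finset.mul_sum]
      rw [Finset.sum_comm]
      exact Finset.sum_congr rfl fun l _ => Finset.sum_congr rfl fun i _ => mul_assoc _ _ _
    · simp only [Finset.mul_sum, mul_assoc]
  rw [h0, h1, add_assoc]

theorem hat_ev_of_mem (S : Finset (Fin N)) (δ : Derivation ℂ L L) (hδ : δ ∈ Γ.Dker S)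
    {j : Fin N} (hj : j ∈ S) (α : Fin n →₀ ℕ) (f : Fin N → L⟦X⟧) :
    hat δ (Γ.ev j α f) = Γ.ev j α (fun i => hat δ (f i)) + Γ.w δ j α * Γ.ev j α f := by
  have h0 := Γ.hat_ev δ hδ.1 j α f
  have h1 : ∑ l, Γ.ξ δ j l * Γ.ev j (α + Finsupp.single l 1) f = 0 := by
    refine Finset.sum_eq_zero fun l _ => ?_
    rw [hδ.2 j hj, Pi.zero_apply, zero_mul]
  rw [h1, add_zero, ← mul_add] at h0
  exact mul_left_cancel₀ (pow_ne_zero _ PowerSeries.X_ne_zero) h0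

theorem stable_W (S : Finset (Fin N)) : Γ.Stable S (Γ.W S) := by
  intro δ hδ f hf i hi
  have h0 := Γ.hat_ev_of_mem S δ hδ hi 0 f
  rw [hf i hi, Pool.Agent.Lib_GD.hat_zero, mul_zero, add_zero] at h0
  exact h0.symm

theorem stable_Lam (B a : ℕ) (S : Finset (Fin N)) : Γ.Stable S (Γ.Lam B a S) := by
  intro δ hδ f hf i hi ha α
  have h0 := Γ.hat_ev_of_mem S δ hδ hi α f
  have h1 := Pool.Agent.Lib_GD.X_pow_dvd_hat δ (hf i hi ha α)
  rw [Pool.Agent.Lib_GD.hat_X_pow_mul, h0, mul_add] at h1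
  refine (dvd_add_left ?_).1 h1
  rw [mul_left_comm]
  exact Dvd.dvd.mul_left (hf i hi ha α) _

private theorem CJet_step (S : Finset (Fin N)) (j : Fin N) (hj : j ∉ S)
    (W : Submodule L⟦X⟧ (Fin N → L⟦X⟧)) (hW : Γ.Stable S W) (b : ℕ) (β : Fin n →₀ ℕ)
    (ih : ∀ f ∈ W, (X : L⟦X⟧) ^ (b + β.degree * Γ.e j) ∣
      X ^ (β.degree * Γ.cost j S) * Γ.ev j β f) (l : Fin n) :
    ∀ f ∈ W, (X : L⟦X⟧) ^ (b + (β + Finsupp.single l 1).degree * Γ.e j) ∣
      X ^ ((β + Finsupp.single l 1).degree * Γ.cost j S) *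
        Γ.ev j (β + Finsupp.single l 1) f := by
  intro f hf
  have h1 := Γ.base.X_pow_cost_smul_mem j S hj (Pi.single l 1)
  obtain ⟨δ, hδ', hξ'⟩ := (Γ.base.mem_Xirel j S _).1 h1
  have hδ : δ ∈ Γ.Dker S := hδ'
  have hξ : Γ.ξ δ j = (X : L⟦X⟧) ^ Γ.cost j S • (Pi.single l 1 : Fin n → L⟦X⟧) := hξ'
  have h2 := mul_dvd_mul_left ((X : L⟦X⟧) ^ Γ.e j)
    (Pool.Agent.Lib_GD.X_pow_dvd_hat δ (ih f hf))
  rw [Pool.Agent.Lib_GD.hat_X_pow_mul, mul_left_comm ((X : L⟦X⟧) ^ Γ.e j)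
    ((X : L⟦X⟧) ^ (β.degree * Γ.cost j S)), Γ.hat_ev δ hδ.1, mul_add, mul_add] at h2
  have h3 := mul_dvd_mul_left ((X : L⟦X⟧) ^ Γ.e j) (ih _ (hW δ hδ f hf))
  have h4 : (X : L⟦X⟧) ^ Γ.e j * X ^ (b + β.degree * Γ.e j) ∣
      X ^ (β.degree * Γ.cost j S) * (X ^ Γ.e j * (Γ.w δ j β * Γ.ev j β f)) := by
    have h := mul_dvd_mul_left ((X : L⟦X⟧) ^ Γ.e j) (Dvd.dvd.mul_left (ih f hf) (Γ.w δ j β))
    refine dvd_trans h (dvd_of_eq ?_)
    ring
  rw [mul_left_comm] at h3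
  have h5 := (dvd_add_left h4).1 h2
  have h6 := (dvd_add_right h3).1 h5
  have h7 : ∑ l', Γ.ξ δ j l' * Γ.ev j (β + Finsupp.single l' 1) f =
      X ^ Γ.cost j S * Γ.ev j (β + Finsupp.single l 1) f := by
    rw [hξ, Finset.sum_eq_single l]
    · rw [Pi.smul_apply, Pi.single_eq_same, smul_eq_mul, mul_one]
    · intro l' _ hl'
      rw [Pi.smul_apply, Pi.single_eq_of_ne hl', smul_zero, zero_mul]
    · intro h
      exact absurd (Finset.mem_univ l) h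
  rw [h7] at h6
  have h8 : (β + Finsupp.single l 1).degree = β.degree + 1 := by
    rw [map_add, Finsupp.degree_single]
  have h9 : (X : L⟦X⟧) ^ (b + (β.degree + 1) * Γ.e j) =
      X ^ Γ.e j * X ^ (b + β.degree * Γ.e j) := by
    rw [← pow_add]
    congr 1
    ring
  have h10 : (X : L⟦X⟧) ^ ((β.degree + 1) * Γ.cost j S) * Γ.ev j (β + Finsupp.single l 1) f =
      X ^ (β.degree * Γ.cost j S) *
        (X ^ Γ.cost j S * Γ.ev j (β + Finsupp.single l 1) f) := by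
    rw [← mul_assoc, ← pow_add, add_mul, one_mul]
  rw [h8, h9, h10]
  exact h6

/-- (I3): if `W` is stable and all values at `x_j` are divisible by `X ^ b`, then the jets
`ev j α = X ^ (|α| e_j) (D^α ·)(x_j)` satisfy
`ord ≥ b + |α| (e_j - a(j|S))`. Induction on `|α|` as in `Lib_GD.JetBound.jet_dvd`: for the
derivation `δ ∈ Dker S` with `ξ δ j = X ^ a (Pi.single l 1)`, `hat_ev` gives
`X ^ a ev (α + l) f = X ^ e (hat δ (ev α f) - ev α (hat δ f) - w ev α f)`. -/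
theorem jet_dvd (S : Finset (Fin N)) (j : Fin N) (hj : j ∉ S)
    (W : Submodule L⟦X⟧ (Fin N → L⟦X⟧)) (hW : Γ.Stable S W) (b : ℕ)
    (hb : ∀ f ∈ W, (X : L⟦X⟧) ^ b ∣ Γ.ev j 0 f) (α : Fin n →₀ ℕ) :
    ∀ f ∈ W, (X : L⟦X⟧) ^ (b + α.degree * Γ.e j) ∣
      X ^ (α.degree * Γ.cost j S) * Γ.ev j α f := by
  obtain ⟨m, hm⟩ : ∃ m, α.degree = m := ⟨_, rfl⟩
  induction m generalizing α with
  | zero =>
    intro f hf
    have h0 : α = 0 := (Finsupp.degree_eq_zero_iff α).1 hm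
    subst h0
    rw [hm, zero_mul, add_zero]
    exact Dvd.dvd.mul_left (hb f hf) _
  | succ m ih =>
    have hne : α ≠ 0 := by
      rintro rfl
      rw [map_zero] at hm
      exact absurd hm (by omega)
    obtain ⟨l, hl⟩ := Finsupp.ne_iff.1 hne
    have hl' : 1 ≤ α l := Nat.one_le_iff_ne_zero.2 hl
    have h1 : α - Finsupp.single l 1 + Finsupp.single l 1 = α := by
      ext i
      rw [Finsupp.add_apply, Finsupp.tsub_apply]
      by_cases h : i = l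
      · subst h
        rw [Finsupp.single_eq_same]
        omega
      · rw [Finsupp.single_eq_of_ne h]
        omega
    have h2 : (α - Finsupp.single l 1).degree = m := by
      have h3 : (α - Finsupp.single l 1 + Finsupp.single l 1).degree = m + 1 := by rw [h1, hm]
      rw [map_add, Finsupp.degree_single] at h3
      omega
    have h3 := Γ.CJet_step S j hj W hW b (α - Finsupp.single l 1) (ih _ h2) l
    rw [h1] at h3
    exact h3

/-- (T-bound): if moreover `W` contains an element which is non-zero modulo `X`, then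
`b ≤ D max(a(j|S), e_j)`: with `α`, `|α| ≤ D`, from (T'), `b + |α| e ≤ |α| a + D e`. -/
theorem le_of_primitive {D : ℕ} (hD : Γ.HT D) (S : Finset (Fin N)) (j : Fin N) (hj : j ∉ S)
    (W : Submodule L⟦X⟧ (Fin N → L⟦X⟧)) (hW : Γ.Stable S W) (b : ℕ)
    (hb : ∀ f ∈ W, (X : L⟦X⟧) ^ b ∣ Γ.ev j 0 f)
    (hp : ∃ f ∈ W, ∃ i, constantCoeff (f i) ≠ 0) : b ≤ D * max (Γ.cost j S) (Γ.e j) := by
  obtain ⟨f, hf, hi⟩ := hp
  obtain ⟨α, hα, h1⟩ := hD j f hi
  have h2 := Γ.jet_dvd S j hj W hW b hb α f hf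
  have h4 : b + α.degree * Γ.e j ≤ α.degree * Γ.cost j S + D * Γ.e j := by
    by_contra h
    have h5 : (X : L⟦X⟧) ^ (α.degree * Γ.cost j S + (D * Γ.e j + 1)) ∣
        X ^ (α.degree * Γ.cost j S) * Γ.ev j α f :=
      dvd_trans (pow_dvd_pow _ (by omega)) h2
    rw [pow_add] at h5
    exact h1 ((mul_dvd_mul_iff_left (pow_ne_zero _ PowerSeries.X_ne_zero)).1 h5)
  rcases le_total (Γ.cost j S) (Γ.e j) with h5 | h5
  · rw [max_eq_right h5]
    have h6 : α.degree * Γ.cost j S ≤ α.degree * Γ.e j := Nat.mul_le_mul_left _ h5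
    omega
  · rw [max_eq_left h5]
    obtain ⟨k, hk⟩ := Nat.exists_eq_add_of_le h5
    have h6 : α.degree * k ≤ D * k := Nat.mul_le_mul_right _ hα
    rw [hk] at h4 ⊢
    rw [mul_add] at h4 ⊢
    omega

end Pool.Agent.Lib_KF.ArcSys
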