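import Pool.Agent.Lib_KF.CJet

/-! C03: energies. Everything which only concerns the evaluation matrix is transferred from
`Γ.lin : ArcSystem L 0 N` (`Lib_GD.PhiBasic`, `Lib_GD.PhiDet`); there the only multi-index is `0`. -/

open PowerSeries

namespace Pool.Agent.Lib_KF.ArcSys

open Pool.Agent.Lib_GD (hat colen FinColen ArcSystem)

variable {L : Type} [Field L] [Algebra ℂ L] {n N : ℕ} (Γ : ArcSys L n N)

theorem lin_W (S : Finset (Fin N)) : Γ.lin.W S = Γ.W S := by
  ext f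
  exact Iff.rfl

theorem lin_phi (j : Fin N) (S : Finset (Fin N)) : Γ.lin.phi j S = Γ.phi j S := by
  rfl

theorem lin_det : Γ.lin.det = Γ.det := by
  rfl

theorem X_pow_phi_dvd (hdet : Γ.det ≠ 0) (S : Finset (Fin N)) (j : Fin N) (hj : j ∉ S) :
    ∀ f ∈ Γ.W S, (X : L⟦X⟧) ^ (Γ.phi j S) ∣ Γ.ev j 0 f := by
  intro f hf
  exact Γ.lin.X_pow_phi_dvd hdet S j hj f hf

theorem exists_primitive (S : Finset (Fin N)) (hS : S.card < N) :
    ∃ f ∈ Γ.W S, ∃ i, constantCoeff (f i) ≠ 0 := by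
  exact Γ.lin.exists_primitive S hS

theorem le_finrank_W (S : Finset (Fin N)) :
    N ≤ Module.finrank L (Submodule.span L {v : Fin N → L | ∃ f ∈ Γ.W S,
      ∀ i, constantCoeff (f i) = v i}) + S.card := by
  exact Γ.lin.le_finrank_W S

theorem phi_sum (hdet : Γ.det ≠ 0) (σ : Equiv.Perm (Fin N)) :
    ((∑ k, Γ.phi (σ k) ((Finset.Iio k).map σ.toEmbedding) : ℕ) : ℕ∞) = Γ.det.order := by
  exact Γ.lin.phi_sum hdet σ

/-- The evaluation matrix times a triangular family. -/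
private theorem CPhi_tri (f : Fin N → Fin N → L⟦X⟧)
    (hf : ∀ k, f k ∈ Γ.W (Finset.Iio k)) :
    Γ.det * (Matrix.of fun i k => f k i).det = ∏ k, Γ.ev k 0 (f k) := by
  have h1 : Γ.det = (Matrix.of fun j i : Fin N => Γ.u j 0 i).det := rfl
  rw [h1, ← Matrix.det_mul, Matrix.det_of_isLowerTriangular]
  · refine Finset.prod_congr rfl fun k _ => ?_
    rw [Matrix.mul_apply, ev_apply]
    rfl
  · intro i j hij
    have hij' : i < j := hij
    have h2 := hf j i (Finset.mem_Iio.2 hij')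
    rw [ev_apply] at h2
    rw [Matrix.mul_apply]
    exact h2

/-- As `Lib_GD.ArcSystem.det_ne_zero`, with `le_of_primitive` of `CJet`. -/
theorem det_ne_zero {D : ℕ} (hD : Γ.HT D) : Γ.det ≠ 0 := by
  have key : ∀ k : Fin N, ∃ f ∈ Γ.W (Finset.Iio k), Γ.ev k 0 f ≠ 0 := by
    intro k
    by_contra hcon
    push Not at hcon
    have hk : k ∉ Finset.Iio k := fun h => lt_irrefl _ (Finset.mem_Iio.1 h)
    have hcard : (Finset.Iio k).card < N := by
      have := Finset.card_lt_univ_of_notMem hk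
      rwa [Fintype.card_fin] at this
    have h1 := Γ.le_of_primitive hD _ k hk _ (Γ.stable_W _)
      (D * max (Γ.cost k (Finset.Iio k)) (Γ.e k) + 1)
      (fun f hf => by rw [hcon f hf]; exact dvd_zero _) (Γ.exists_primitive _ hcard)
    omega
  choose f hf hne using key
  have h := Γ.CPhi_tri f hf
  intro h0
  rw [h0, zero_mul] at h
  obtain ⟨k, _, hk⟩ := Finset.prod_eq_zero_iff.1 h.symm
  exact hne k hk

theorem phi_le (hdet : Γ.det ≠ 0) {D : ℕ} (hD : Γ.HT D) (S : Finset (Fin N)) (j : Fin N)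
    (hj : j ∉ S) : Γ.phi j S ≤ D * max (Γ.cost j S) (Γ.e j) := by
  have hcard : S.card < N := by
    have := Finset.card_lt_univ_of_notMem hj
    rwa [Fintype.card_fin] at this
  exact Γ.le_of_primitive hD S j hj _ (Γ.stable_W S) _ (Γ.X_pow_phi_dvd hdet S j hj)
    (Γ.exists_primitive S hcard)

/-- The costs of the pair are monotone. -/
theorem cc_mono (S T : Finset (Fin N)) (j : Fin N) (h : S ⊆ T) (hj : j ∉ T) :
    Γ.cc j S ≤ Γ.cc j T := by
  exact Nat.sub_le_sub_right (Nat.mul_le_mul_left _ (Γ.base.cost_mono S T j h hj)) _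

/-- The costs of the pair along any order add up to the total cost. -/
theorem cc_sum {C₁ : ℕ} (hUP : Γ.HUP C₁) (σ : Equiv.Perm (Fin N)) :
    ∑ k, Γ.cc (σ k) ((Finset.Iio k).map σ.toEmbedding) = Γ.AA := by
  have hk : ∀ k : Fin N, σ k ∉ (Finset.Iio k).map σ.toEmbedding := by
    intro k h
    obtain ⟨i, hi, hik⟩ := Finset.mem_map.1 h
    have hik' : i = k := σ.injective hik
    rw [hik', Finset.mem_Iio] at hi
    exact lt_irrefl _ hi
  have h1 : ∑ k, Γ.cc (σ k) ((Finset.Iio k).map σ.toEmbedding) =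
      ∑ k, Γ.r * Γ.cost (σ k) ((Finset.Iio k).map σ.toEmbedding) - ∑ k, Γ.g (σ k) := by
    rw [← Finset.sum_tsub_distrib]
    · rfl
    · intro k _
      exact (hUP _ _ (hk k)).1
  rw [h1, ← Finset.mul_sum, Equiv.sum_comp σ Γ.g]
  have h2 : ∑ k, Γ.cost (σ k) ((Finset.Iio k).map σ.toEmbedding) = colen Γ.Ξ :=
    Γ.base.cost_sum σ
  rw [h2]
  rfl

/-- The costs relative to a fixed set of points add up to at most the total cost
(`EPrime_sum` of `Lib_GD.EPrime`). -/
theorem cc_sum_le {C₁ : ℕ} (hUP : Γ.HUP C₁) (K P : Finset (Fin N)) (hP : ∀ i ∈ P, i ∉ K) :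
    ∑ i ∈ P, Γ.cc i K ≤ Γ.AA := by
  classical
  let f : Fin N → ℕ := fun i => if i ∈ K then 0 else 1
  let σ : Equiv.Perm (Fin N) := Tuple.sort f
  have hmono : Monotone (f ∘ σ) := Tuple.monotone_sort f
  have hlt : ∀ x ∈ K, ∀ i, i ∉ K → σ.symm x < σ.symm i := by
    intro x hx i hi
    by_contra hcon
    have h := hmono (not_lt.1 hcon)
    simp only [Function.comp_apply, Equiv.apply_symm_apply, f, hi, hx, if_true, if_false] at h
    omega
  have hsum := Γ.cc_sum hUP σ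
  have h2 : ∑ k, Γ.cc (σ k) ((Finset.Iio k).map σ.toEmbedding) =
      ∑ i, Γ.cc i ((Finset.Iio (σ.symm i)).map σ.toEmbedding) := by
    rw [← Equiv.sum_comp σ (fun i => Γ.cc i ((Finset.Iio (σ.symm i)).map σ.toEmbedding))]
    exact Finset.sum_congr rfl fun k _ => by rw [Equiv.symm_apply_apply]
  rw [← hsum, h2]
  refine (Finset.sum_le_sum fun i hi => ?_).trans
    (Finset.sum_le_sum_of_subset_of_nonneg (Finset.subset_univ P) fun _ _ _ => Nat.zero_le _)
  refine Γ.cc_mono K _ i ?_ ?_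
  · intro x hx
    rw [Finset.mem_map]
    exact ⟨σ.symm x, Finset.mem_Iio.2 (hlt x hx i (hP i hi)), σ.apply_symm_apply x⟩
  · rw [Finset.mem_map]
    rintro ⟨k, hk, hki⟩
    have h3 : k = σ.symm i := by
      rw [← hki]
      exact (σ.symm_apply_apply k).symm
    rw [h3] at hk
    exact lt_irrefl _ (Finset.mem_Iio.1 hk)

end Pool.Agent.Lib_KF.ArcSys
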