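import Pool.Agent.Lib_KF.ChEval
import Pool.Agent.Lib_KF.GeoDefs

/-! CH12a: from an analytic family of homomorphisms to an analytic chart. -/

namespace Pool.Agent.Lib_KF

open Pool.Agent.Lib_GD

section Bounds

variable {k V : Type} [Field k] [CommRing V] [Algebra k V] [Algebra ℂ V] {n : ℕ} {s : V}
  {u : Fin n → V} {D : Fin n → Derivation k V V} {Z : Set V} {Zc : Set k}

private theorem ChBuild_bdd (E : EvFam k V s u D Z Zc) (v : E.𝒲) :
    ∃ C : ℝ, 0 < C ∧ ∀ z p, ‖z‖ < E.ρ / 2 → ‖p‖ < E.ρ / 2 → ‖E.ev z p v‖ ≤ C := by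
  have h1 : IsCompact (Metric.closedBall (0 : ℂ × (Fin n → ℂ)) (E.ρ / 2)) :=
    isCompact_closedBall _ _
  have h2 : ContinuousOn (fun p : ℂ × (Fin n → ℂ) => E.ev p.1 p.2 v)
      (Metric.closedBall 0 (E.ρ / 2)) :=
    (E.an v).continuousOn.mono (Metric.closedBall_subset_ball (by linarith [E.ρ_pos]))
  obtain ⟨C, hC⟩ := h1.exists_bound_of_continuousOn h2
  refine ⟨max C 1, lt_of_lt_of_le one_pos (le_max_right _ _), fun z p hz hp => ?_⟩
  refine (hC (z, p) ?_).trans (le_max_left _ _)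
  rw [mem_closedBall_zero_iff, Prod.norm_def]
  exact max_le hz.le hp.le

private theorem ChBuild_low (E : EvFam k V s u D Z Zc) (v v' : E.𝒲) (h : v * v' = 1) :
    ∃ c : ℝ, 0 < c ∧ ∀ z p, ‖z‖ < E.ρ / 2 → ‖p‖ < E.ρ / 2 → c ≤ ‖E.ev z p v‖ := by
  obtain ⟨C, hC, hC'⟩ := ChBuild_bdd E v'
  refine ⟨C⁻¹, inv_pos.2 hC, fun z p hz hp => ?_⟩
  have h1 : E.ev z p v * E.ev z p v' = 1 := by rw [← map_mul, h, map_one]
  have h2 : ‖E.ev z p v‖ * ‖E.ev z p v'‖ = 1 := by rw [← norm_mul, h1, norm_one]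
  have h3 := hC' z p hz hp
  have h4 : 0 ≤ ‖E.ev z p v‖ := norm_nonneg _
  rw [inv_le_iff_one_le_mul₀ hC]
  calc (1 : ℝ) = ‖E.ev z p v‖ * ‖E.ev z p v'‖ := h2.symm
    _ ≤ ‖E.ev z p v‖ * C := mul_le_mul_of_nonneg_left h3 h4

private theorem ChBuild_ne (E : EvFam k V s u D Z Zc) (v v' : E.𝒲) (h : v * v' = 1) (z p) :
    E.ev z p v ≠ 0 := by
  intro h0
  have h1 : E.ev z p v * E.ev z p v' = 1 := by rw [← map_mul, h, map_one]
  rw [h0, zero_mul] at h1
  exact zero_ne_one h1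

end Bounds

/-- An invertible matrix applied to a linearly independent family. -/
private theorem ChBuild_linInd {N : ℕ} {V : Type} [AddCommGroup V] [Module ℂ V] (v : Fin N → V)
    (hv : LinearIndependent ℂ v) (A : Matrix (Fin N) (Fin N) ℂ) (hA : A.det ≠ 0) :
    LinearIndependent ℂ (fun i => ∑ l, A i l • v l) := by
  classical
  rw [Fintype.linearIndependent_iff] at hv ⊢
  intro g hg
  have h1 : ∑ l, (∑ i, g i * A i l) • v l = 0 := by
    rw [← hg]
    simp only [Finset.smul_sum, Finset.sum_smul, smul_smul]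
    exact Finset.sum_comm
  have h2 := hv _ h1
  have h3 : Matrix.vecMul g A = 0 := by
    funext l
    exact h2 l
  have h4 := Matrix.eq_zero_of_vecMul_eq_zero hA h3
  exact fun i => congrFun h4 i

/-- CH12a. -/
theorem anChart_of_evFam {R : Type} [CommRing R] [Algebra ℂ R] {𝒜 : ℕ → Submodule ℂ R} {n : ℕ}
    {x : Fin (n + 1) → R} {G : R} {k V : Type} [Field k] [CommRing V] [Algebra k V] [Algebra ℂ V]
    {s : V} {u : Fin n → V} {D : Fin n → Derivation k V V} {Z : Set V} {Zc : Set k}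
    (E : EvFam k V s u D Z Zc) (φ : R →ₐ[ℂ] V) (hφ : ∀ f, φ f ∈ E.𝒲) (a : Fin (n + 1)) (η : V)
    (hη : η ∈ E.𝒲) (ha : φ (x a) * η = 1) (g : ℕ) (vG vG' : V) (hvG : vG ∈ E.𝒲)
    (hvG' : vG' ∈ E.𝒲) (hvGG : vG * vG' = 1) (hG : φ G = s ^ g * vG)
    (κ : ℕ) (vJ vJ' : V) (hvJ : vJ ∈ E.𝒲) (hvJ' : vJ' ∈ E.𝒲) (hvJJ : vJ * vJ' = 1)
    (hJ : Matrix.det (Matrix.of fun b l => D l (φ (x (a.succAbove b)) * η)) = s ^ κ * vJ)
    {M B m : ℕ} (σ : Fin M → R) (hσ : ∀ i, σ i ∈ 𝒜 m) (hσi : LinearIndependent ℂ σ)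
    (c : Fin M → Fin M → Fin (B + 1) → k) (hc : ∀ i l j, c i l j ∈ Zc) (c' : k) (hc' : c' ∈ Zc)
    (hcc : Matrix.det (Matrix.of fun i l => c i l 0) * c' = 1) (lam : Fin M → ℕ)
    (v : Fin M → V) (hv : ∀ i, v i ∈ E.𝒲)
    (hlam : ∀ i, ∑ l, (∑ j, algebraMap k V (c i l j) * s ^ (j : ℕ)) * φ (σ l) =
      s ^ lam i * v i)
    (hinj : ∀ z p p', z ≠ 0 → ‖z‖ < E.ρ → ‖p‖ < E.ρ → ‖p'‖ < E.ρ →
      (∀ b : Fin n, E.ev z p (⟨φ (x (a.succAbove b)), hφ _⟩ * ⟨η, hη⟩) =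
        E.ev z p' (⟨φ (x (a.succAbove b)), hφ _⟩ * ⟨η, hη⟩)) → p = p') :
    ∃ ε : Fin M → Fin (B + 1) → R, (∀ i l, ε i l ∈ 𝒜 m) ∧
      LinearIndependent ℂ (fun i => ε i 0) ∧ Nonempty (AnChart 𝒜 x G ε lam g κ) := by
  classical
  -- elements of `𝒲`
  let φW : R →ₐ[ℂ] E.𝒲 := φ.codRestrict E.𝒲 hφ
  have hφW : ∀ f, (φW f).1 = φ f := fun f => rfl
  let ηW : E.𝒲 := ⟨η, hη⟩
  let sW : E.𝒲 := ⟨s, E.hs⟩
  let vGW : E.𝒲 := ⟨vG, hvG⟩
  let vGW' : E.𝒲 := ⟨vG', hvG'⟩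
  let vJW : E.𝒲 := ⟨vJ, hvJ⟩
  let vJW' : E.𝒲 := ⟨vJ', hvJ'⟩
  let cW : Fin M → Fin M → Fin (B + 1) → E.𝒲 := fun i l j =>
    ⟨algebraMap k V (c i l j), E.hc _ (hc i l j)⟩
  have haW : φW (x a) * ηW = 1 := Subtype.ext ha
  have hvGGW : vGW * vGW' = 1 := Subtype.ext hvGG
  have hvJJW : vJW * vJW' = 1 := Subtype.ext hvJJ
  have hGW : φW G = sW ^ g * vGW := Subtype.ext hG
  have hlamW : ∀ i, ∑ l, (∑ j, cW i l j * sW ^ (j : ℕ)) * φW (σ l) =
      sW ^ lam i * ⟨v i, hv i⟩ := by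
    intro i
    apply Subtype.ext
    have h1 := hlam i
    push_cast
    exact h1
  -- values of the constants
  let χ : Fin M → Fin M → Fin (B + 1) → ℂ := fun i l j => E.ev 0 0 (cW i l j)
  have hχ : ∀ i l j z p, ‖z‖ < E.ρ → ‖p‖ < E.ρ → E.ev z p (cW i l j) = χ i l j :=
    fun i l j z p hz hp => E.ev_c _ (hc i l j) z p hz hp
  have hdetχ : Matrix.det (Matrix.of fun i l => χ i l 0) ≠ 0 := by
    have h1 : Matrix.det (Matrix.of fun i l => cW i l 0) *
        (⟨algebraMap k V c', E.hc _ hc'⟩ : E.𝒲) = 1 := by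
      apply Subtype.ext
      have h2 : ((Matrix.det (Matrix.of fun i l => cW i l 0) : E.𝒲) : V) =
          algebraMap k V (Matrix.det (Matrix.of fun i l => c i l 0)) := by
        rw [← Subalgebra.coe_val, AlgHom.map_det, RingHom.map_det]
        rfl
      change ((Matrix.det (Matrix.of fun i l => cW i l 0) : E.𝒲) : V) * algebraMap k V c' = 1
      rw [h2, ← map_mul, hcc, map_one]
    have h3 : E.ev 0 0 (Matrix.det (Matrix.of fun i l => cW i l 0)) =
        Matrix.det (Matrix.of fun i l => χ i l 0) := by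
      rw [AlgHom.map_det]
      rfl
    rw [← h3]
    exact ChBuild_ne E _ _ h1 0 0
  let ε : Fin M → Fin (B + 1) → R := fun i j => ∑ l, χ i l j • σ l
  have hε : ∀ i l, ε i l ∈ 𝒜 m := fun i l =>
    Submodule.sum_mem _ fun j _ => Submodule.smul_mem _ _ (hσ j)
  have hεi : LinearIndependent ℂ (fun i => ε i 0) :=
    ChBuild_linInd σ hσi (Matrix.of fun i l => χ i l 0) hdetχ
  refine ⟨ε, hε, hεi, ?_⟩
  -- bounds
  choose Cv hCv hCv' using fun i => ChBuild_bdd E ⟨v i, hv i⟩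
  obtain ⟨CG, hCG, hCG'⟩ := ChBuild_bdd E vGW
  obtain ⟨cJ, hcJ, hcJ'⟩ := ChBuild_low E vJW vJW' hvJJW
  have hρ2 : E.ρ / 2 < E.ρ := by linarith [E.ρ_pos]
  -- the value of `e`
  have hval : ∀ i z p, ‖z‖ < E.ρ → ‖p‖ < E.ρ → E.ev z p (φW (famAt (ε i) z)) =
      z ^ lam i * E.ev z p ⟨v i, hv i⟩ := by
    intro i z p hz hp
    have h1 := congrArg (E.ev z p) (hlamW i)
    rw [map_mul, map_pow, E.ev_s z p hz hp, map_sum] at h1
    rw [← h1, famAt, map_sum, map_sum]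
    have h2 : ∀ l, E.ev z p ((∑ j, cW i l j * sW ^ (j : ℕ)) * φW (σ l)) =
        ∑ j : Fin (B + 1), z ^ (j : ℕ) * (χ i l j * E.ev z p (φW (σ l))) := by
      intro l
      rw [map_mul, map_sum, Finset.sum_mul]
      refine Finset.sum_congr rfl fun j _ => ?_
      rw [map_mul, map_pow, E.ev_s z p hz hp, hχ i l j z p hz hp]
      ring
    rw [Finset.sum_congr rfl fun l _ => h2 l, Finset.sum_comm]
    refine Finset.sum_congr rfl fun j _ => ?_
    rw [map_smul, map_smul, smul_eq_mul, map_sum, map_sum, Finset.mul_sum]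
    refine Finset.sum_congr rfl fun l _ => ?_
    rw [map_smul, map_smul, smul_eq_mul]
  -- the coordinates
  have hyq : ∀ b z p, E.ev z p (φW (x (a.succAbove b))) / E.ev z p (φW (x a)) =
      E.ev z p (φW (x (a.succAbove b)) * ηW) := by
    intro b z p
    have h1 : E.ev z p (φW (x a)) * E.ev z p ηW = 1 := by rw [← map_mul, haW, map_one]
    have h2 : E.ev z p (φW (x a)) ≠ 0 := ChBuild_ne E _ _ haW z p
    rw [map_mul, div_eq_iff h2, mul_assoc, mul_comm (E.ev z p ηW), h1, mul_one]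
  refine ⟨{ ρ := E.ρ / 2
            ρ_pos := by linarith [E.ρ_pos]
            pt := fun z p => (E.ev z p).comp φW
            an := fun f => (E.an (φW f)).mono (Metric.ball_subset_ball hρ2.le)
            a := a
            unit := fun z p _ _ => ChBuild_ne E _ _ haW z p
            C := CG + ∑ i, Cv i
            e_le := ?_
            G_le := ?_
            G_ne := ?_
            inj := ?_
            c := cJ
            c_pos := hcJ
            jac := ?_ }⟩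
  · intro i z p hz hp
    change ‖E.ev z p (φW (famAt (ε i) z))‖ ≤ _
    rw [hval i z p (hz.trans hρ2) (hp.trans hρ2), norm_mul, norm_pow, mul_comm]
    refine mul_le_mul_of_nonneg_right ((hCv' i z p hz hp).trans ?_) (by positivity)
    have h1 : Cv i ≤ ∑ i, Cv i :=
      Finset.single_le_sum (f := Cv) (fun j _ => (hCv j).le) (Finset.mem_univ i)
    linarith
  · intro z p hz hp
    change ‖E.ev z p (φW G)‖ ≤ _
    rw [hGW, map_mul, map_pow, E.ev_s z p (hz.trans hρ2) (hp.trans hρ2), norm_mul, norm_pow,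
      mul_comm]
    refine mul_le_mul_of_nonneg_right ((hCG' z p hz hp).trans ?_) (by positivity)
    have h1 : 0 ≤ ∑ i, Cv i := Finset.sum_nonneg fun j _ => (hCv j).le
    linarith
  · intro z p hz0 hz hp
    change E.ev z p (φW G) ≠ 0
    rw [hGW, map_mul, map_pow, E.ev_s z p (hz.trans hρ2) (hp.trans hρ2)]
    exact mul_ne_zero (pow_ne_zero _ hz0) (ChBuild_ne E _ _ hvGGW z p)
  · intro z p p' hz0 hz hp hp' heq
    refine hinj z p p' hz0 (hz.trans hρ2) (hp.trans hρ2) (hp'.trans hρ2) fun b => ?_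
    have h1 := heq b
    change E.ev z p (φW (x (a.succAbove b))) / E.ev z p (φW (x a)) =
      E.ev z p' (φW (x (a.succAbove b))) / E.ev z p' (φW (x a)) at h1
    rw [hyq, hyq] at h1
    exact h1
  · intro z p hz hp
    have hz' := hz.trans hρ2
    have hp' := hp.trans hρ2
    have h1 : (Matrix.of fun (b l : Fin n) =>
        fderiv ℂ (fun p : Fin n → ℂ => ((E.ev z p).comp φW) (x (a.succAbove b)) /
          ((E.ev z p).comp φW) (x a)) p (Pi.single l 1)) =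
        Matrix.of fun (b l : Fin n) => E.ev z p
          ⟨D l (φ (x (a.succAbove b)) * η), E.hD l _ (E.𝒲.mul_mem (hφ _) hη)⟩ := by
      ext b l
      rw [Matrix.of_apply, Matrix.of_apply, ← E.ev_D l _ (E.𝒲.mul_mem (hφ _) hη) z p hz' hp']
      congr 2
      funext p'
      exact hyq b z p'
    rw [h1]
    have h2 : Matrix.det (Matrix.of fun (b l : Fin n) => E.ev z p
          ⟨D l (φ (x (a.succAbove b)) * η), E.hD l _ (E.𝒲.mul_mem (hφ _) hη)⟩) =
        E.ev z p (sW ^ κ * vJW) := by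
      have h3 : sW ^ κ * vJW = Matrix.det (Matrix.of fun (b l : Fin n) =>
          (⟨D l (φ (x (a.succAbove b)) * η), E.hD l _ (E.𝒲.mul_mem (hφ _) hη)⟩ : E.𝒲)) := by
        apply Subtype.ext
        rw [← Subalgebra.coe_val, AlgHom.map_det]
        exact hJ.symm
      rw [h3, AlgHom.map_det]
      rfl
    rw [h2, map_mul, map_pow, E.ev_s z p hz' hp', norm_mul, norm_pow, mul_comm]
    exact mul_le_mul_of_nonneg_left (hcJ' z p hz hp) (by positivity)

end Pool.Agent.Lib_KF
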