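import Pool.Agent.Lib_KF.ChDefs

/-! CH02: coordinates on a divisorial valuation ring over a field. -/

namespace Pool.Agent.Lib_KF

open scoped TensorProduct

/-- differentials of a field extension of `k`: the differentials of a transcendence basis -/
private noncomputable def ChCoord_basis (k K : Type) [Field k] [CharZero k] [Field K] [Algebra k K] {ι : Type} (u : ι → K)
    (hu : IsTranscendenceBasis k u) :
    { b : Module.Basis ι K (KaehlerDifferential k K) // ∀ i, b i = KaehlerDifferential.D k K (u i) } := by
  classical
  letI : Algebra (MvPolynomial ι k) K := (MvPolynomial.aeval u).toRingHom.toAlgebra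
  have hmap : ∀ p : MvPolynomial ι k, algebraMap (MvPolynomial ι k) K p = MvPolynomial.aeval u p :=
    fun p => rfl
  haveI : IsScalarTower k (MvPolynomial ι k) K := by
    refine IsScalarTower.of_algebraMap_eq fun x => ?_
    rw [hmap, MvPolynomial.algebraMap_eq, MvPolynomial.aeval_C]
  have hinj : Function.Injective (algebraMap (MvPolynomial ι k) K) := hu.1
  haveI : FaithfulSMul (MvPolynomial ι k) K := (faithfulSMul_iff_algebraMap_injective _ _).2 hinj
  haveI halg : Algebra.IsAlgebraic (MvPolynomial ι k) K := by
    have := hu.isAlgebraic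
    refine Algebra.IsAlgebraic.of_ringHom_of_comp_eq (S := Algebra.adjoin k (Set.range u)) (B := K)
      (f := hu.1.aevalEquiv.toRingEquiv.toRingHom) (g := RingHom.id K)
      hu.1.aevalEquiv.surjective Function.injective_id ?_
    ext x
    · simp [hmap]
    · simp [hmap]
  letI : Algebra (FractionRing (MvPolynomial ι k)) K := FractionRing.liftAlgebra _ K
  haveI : IsScalarTower (MvPolynomial ι k) (FractionRing (MvPolynomial ι k)) K :=
    FractionRing.isScalarTower_liftAlgebra _ K
  haveI : Algebra.IsAlgebraic (FractionRing (MvPolynomial ι k)) K :=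
    (IsFractionRing.comap_isAlgebraic_iff (A := MvPolynomial ι k)).1 halg
  haveI : CharZero (FractionRing (MvPolynomial ι k)) := inferInstance
  haveI : Algebra.FormallyEtale (FractionRing (MvPolynomial ι k)) K :=
    Algebra.FormallyEtale.of_isSeparable _ _
  haveI : Algebra.FormallyEtale (MvPolynomial ι k) (FractionRing (MvPolynomial ι k)) :=
    Algebra.FormallyEtale.of_isLocalization (nonZeroDivisors (MvPolynomial ι k))
  haveI : Algebra.FormallyEtale (MvPolynomial ι k) K :=
    Algebra.FormallyEtale.comp _ (FractionRing (MvPolynomial ι k)) _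
  refine ⟨((KaehlerDifferential.mvPolynomialBasis k ι).baseChange K).map
    (KaehlerDifferential.tensorKaehlerEquivOfFormallyEtale k (MvPolynomial ι k) K), fun i => ?_⟩
  rw [Module.Basis.map_apply, Module.Basis.baseChange_apply,
    KaehlerDifferential.mvPolynomialBasis_apply,
    KaehlerDifferential.tensorKaehlerEquivOfFormallyEtale_apply,
    KaehlerDifferential.mapBaseChange_tmul, KaehlerDifferential.map_D, one_smul, hmap,
    MvPolynomial.aeval_X]

/-- the residues: if the differentials of the `ū i` span `Ω_κ`, then `dt` and the `du i` span `Ω_V` -/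
private theorem ChCoord_span (k V : Type) [Field k] [CommRing V] [IsDomain V] [IsDiscreteValuationRing V]
    [Algebra k V] [Algebra.EssFiniteType k V] {ι : Type} (t : V) (ht : Irreducible t) (u : ι → V)
    (hu : Submodule.span (IsLocalRing.ResidueField V)
      (Set.range fun i => KaehlerDifferential.D k (IsLocalRing.ResidueField V)
        (IsLocalRing.residue V (u i))) = ⊤) :
    Submodule.span V (Set.range fun o : Option ι =>
      o.elim (KaehlerDifferential.D k V t) (fun i => KaehlerDifferential.D k V (u i))) = ⊤ := by
  have hsurj : Function.Surjective (algebraMap V (IsLocalRing.ResidueField V)) :=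
    IsLocalRing.residue_surjective
  rw [← IsLocalRing.map_tensorProduct_mk_eq_top, Submodule.map_span, ← Set.range_comp,
    ← Submodule.restrictScalars_span V (IsLocalRing.ResidueField V) hsurj,
    Submodule.restrictScalars_eq_top_iff, eq_top_iff]
  set S := Submodule.span (IsLocalRing.ResidueField V) (Set.range
    ((TensorProduct.mk V (IsLocalRing.ResidueField V) (KaehlerDifferential k V) 1) ∘
      fun o : Option ι => o.elim (KaehlerDifferential.D k V t)
        (fun i => KaehlerDifferential.D k V (u i)))) with hS
  have h1 : (1 : IsLocalRing.ResidueField V) ⊗ₜ[V] KaehlerDifferential.D k V t ∈ S :=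
    Submodule.subset_span ⟨none, rfl⟩
  have h2 : ∀ i, (1 : IsLocalRing.ResidueField V) ⊗ₜ[V] KaehlerDifferential.D k V (u i) ∈ S :=
    fun i => Submodule.subset_span ⟨some i, rfl⟩
  -- the kernel
  have hker : ∀ x, KaehlerDifferential.mapBaseChange k V (IsLocalRing.ResidueField V) x = 0 →
      x ∈ S := by
    intro x hx
    obtain ⟨y, rfl⟩ := (KaehlerDifferential.exact_kerCotangentToTensor_mapBaseChange k V
      (IsLocalRing.ResidueField V) hsurj x).1 hx
    obtain ⟨⟨a, ha⟩, rfl⟩ := Ideal.toCotangent_surjective _ y
    rw [KaehlerDifferential.kerCotangentToTensor_toCotangent]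
    have ha' : a ∈ IsLocalRing.maximalIdeal V := by
      rw [RingHom.mem_ker] at ha
      exact (IsLocalRing.residue_eq_zero_iff a).1 ha
    rw [ht.maximalIdeal_eq, Ideal.mem_span_singleton] at ha'
    obtain ⟨b, rfl⟩ := ha'
    have ht0 : (algebraMap V (IsLocalRing.ResidueField V)) t = 0 := by
      have : t ∈ IsLocalRing.maximalIdeal V := by
        rw [ht.maximalIdeal_eq]; exact Ideal.mem_span_singleton_self t
      exact (IsLocalRing.residue_eq_zero_iff t).2 this
    have e : (1 : IsLocalRing.ResidueField V) ⊗ₜ[V] KaehlerDifferential.D k V (t * b) =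
        algebraMap V (IsLocalRing.ResidueField V) b •
          ((1 : IsLocalRing.ResidueField V) ⊗ₜ[V] KaehlerDifferential.D k V t) := by
      rw [Derivation.leibniz, TensorProduct.tmul_add, ← TensorProduct.smul_tmul,
        ← TensorProduct.smul_tmul, ← Algebra.algebraMap_eq_smul_one,
        ← Algebra.algebraMap_eq_smul_one, ht0, TensorProduct.zero_tmul, zero_add,
        TensorProduct.smul_tmul', smul_eq_mul, mul_one]
    rw [e]
    exact S.smul_mem _ h1
  intro x _
  have hx : KaehlerDifferential.mapBaseChange k V (IsLocalRing.ResidueField V) x ∈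
      Submodule.map (KaehlerDifferential.mapBaseChange k V (IsLocalRing.ResidueField V)) S := by
    have h3 : Submodule.map (KaehlerDifferential.mapBaseChange k V (IsLocalRing.ResidueField V)) S
        = ⊤ := by
      rw [eq_top_iff, ← hu, Submodule.span_le]
      rintro _ ⟨i, rfl⟩
      refine ⟨_, h2 i, ?_⟩
      rw [KaehlerDifferential.mapBaseChange_tmul, KaehlerDifferential.map_D, one_smul]
      rfl
    rw [h3]
    exact Submodule.mem_top
  obtain ⟨y, hy, hxy⟩ := hx
  have h4 : x - y ∈ S := hker _ (by rw [map_sub, hxy, sub_self])
  have := S.add_mem h4 hy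
  rwa [sub_add_cancel] at this

/-- lifts of algebraically independent residues and `t` are algebraically independent -/
private theorem ChCoord_indep (k V : Type) [Field k] [CommRing V] [IsDomain V] [IsDiscreteValuationRing V]
    [Algebra k V] {ι : Type} (t : V) (ht : Irreducible t) (u : ι → V)
    (hu : AlgebraicIndependent k fun i => IsLocalRing.residue V (u i)) :
    AlgebraicIndependent k fun o : Option ι => o.elim t u := by
  let f : V →ₐ[k] IsLocalRing.ResidueField V := IsScalarTower.toAlgHom k V _
  have hf : ∀ x, f x = IsLocalRing.residue V x := fun x => rfl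
  have hu1 : AlgebraicIndependent k (f ∘ u) := hu
  have hu2 : AlgebraicIndependent k u := hu1.of_comp f
  rw [hu2.option_iff_transcendental]
  -- elements of `adjoin` with residue zero vanish
  have hA : ∀ x ∈ Algebra.adjoin k (Set.range u), f x = 0 → x = 0 := by
    intro x hx h0
    rw [Algebra.adjoin_range_eq_range_aeval] at hx
    obtain ⟨p, rfl⟩ := hx
    have h1 : MvPolynomial.aeval (f ∘ u) p = 0 := by
      rw [← h0]
      change _ = f (MvPolynomial.aeval u p)
      rw [MvPolynomial.comp_aeval_apply]
      rfl
    have h2 : p = 0 := hu1 (by rw [h1, map_zero])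
    rw [h2]
    exact map_zero _
  have ht0 : f t = 0 := by
    rw [hf]
    refine (IsLocalRing.residue_eq_zero_iff t).2 ?_
    rw [ht.maximalIdeal_eq]
    exact Ideal.mem_span_singleton_self t
  rw [transcendental_iff]
  intro p
  induction hn : p.natDegree using Nat.strong_induction_on generalizing p with
  | _ n ih =>
    intro hp
    have hdiv := Polynomial.divX_mul_X_add p
    have h0 : p.coeff 0 = 0 := by
      have h1 : f (Polynomial.aeval t p) = 0 := by rw [hp, map_zero]
      rw [← hdiv, map_add, map_mul, Polynomial.aeval_X, Polynomial.aeval_C, map_add, map_mul, ht0,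
        mul_zero, zero_add] at h1
      exact Subtype.ext (hA _ (p.coeff 0).2 h1)
    rw [h0, Polynomial.C_0, add_zero] at hdiv
    by_cases hd : p.natDegree = 0
    · rw [Polynomial.eq_C_of_natDegree_eq_zero hd, h0, Polynomial.C_0]
    · have h2 : Polynomial.aeval t p.divX = 0 := by
        rw [← hdiv, map_mul, Polynomial.aeval_X] at hp
        exact (mul_eq_zero.1 hp).resolve_right ht.ne_zero
      have h3 : p.divX = 0 := by
        refine ih p.divX.natDegree ?_ p.divX rfl h2
        rw [Polynomial.natDegree_divX_eq_natDegree_tsub_one]
        omega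
      rw [← hdiv, h3, zero_mul]

/-- CH02a. PORT of `Pool.Agent.Lib_GD.exists_dvr_coords` (file `Lib_GD/DvrCoords.lean`, 253
lines) from `ℂ` to a field `k` of characteristic zero, with given `s` and `u`: the `n` residues
`ū_l` are a transcendence basis of the residue field because `trdeg V = n + 1`
(`DvrCoords_indep`). -/
theorem exists_basis_kaehler (k V : Type) [Field k] [CharZero k] [CommRing V] [IsDomain V]
    [IsDiscreteValuationRing V] [Algebra k V] [Algebra.EssFiniteType k V] (n : ℕ)
    (hV : Algebra.trdeg k V = (n + 1 : ℕ)) (s : V) (hs : Irreducible s) (u : Fin n → V)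
    (hu : AlgebraicIndependent k (fun i => IsLocalRing.residue V (u i))) :
    ∃ b : Module.Basis (Option (Fin n)) V (KaehlerDifferential k V),
      b none = KaehlerDifferential.D k V s ∧ ∀ l, b (some l) = KaehlerDifferential.D k V (u l) := by
  classical
  -- the residues are a transcendence basis
  have hub : IsTranscendenceBasis k fun i => IsLocalRing.residue V (u i) := by
    refine hu.isTranscendenceBasis_of_trdeg_le_of_finite ?_
    obtain ⟨ι, ub, hb⟩ := exists_isTranscendenceBasis' k (IsLocalRing.ResidueField V)
    have hlift : ∀ i, ∃ v : V, IsLocalRing.residue V v = ub i :=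
      fun i => IsLocalRing.residue_surjective (ub i)
    choose v hv using hlift
    have hind : AlgebraicIndependent k fun o : Option ι => o.elim s v := by
      refine ChCoord_indep k V s hs v ?_
      simp only [hv]
      exact hb.1
    have hcard : Cardinal.mk (Option ι) ≤ (n + 1 : ℕ) := by
      rw [← hV]
      exact hind.cardinalMk_le_trdeg
    have hfin : Finite (Option ι) := by
      rw [← Cardinal.lt_aleph0_iff_finite]
      exact hcard.trans_lt (Cardinal.natCast_lt_aleph0)
    have : Finite ι := Finite.of_injective (some : ι → Option ι) (Option.some_injective ι)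
    let _ : Fintype ι := Fintype.ofFinite ι
    have hcard' : Fintype.card ι ≤ n := by
      rw [Cardinal.mk_fintype, Fintype.card_option] at hcard
      have : Fintype.card ι + 1 ≤ n + 1 := by exact_mod_cast hcard
      omega
    rw [← hb.cardinalMk_eq_trdeg, Cardinal.mk_fintype, Cardinal.mk_fintype, Fintype.card_fin]
    exact_mod_cast hcard'
  let ω : Option (Fin n) → KaehlerDifferential k V := fun o =>
    o.elim (KaehlerDifferential.D k V s) (fun l => KaehlerDifferential.D k V (u l))
  have hspan : Submodule.span V (Set.range ω) = ⊤ := by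
    refine ChCoord_span k V s hs u ?_
    obtain ⟨b, hb⟩ := ChCoord_basis k (IsLocalRing.ResidueField V) _ hub
    simp only [← hb]
    exact b.span_eq
  -- the rank
  let K := FractionRing V
  have hK : Algebra.trdeg k K = (n + 1 : ℕ) := by
    have : Algebra.IsAlgebraic V K := IsLocalization.isAlgebraic K (nonZeroDivisors V)
    have h := trdeg_add_eq k V (A := K)
    rw [trdeg_eq_zero (R := V) (A := K), add_zero] at h
    rw [← h, hV]
  obtain ⟨ι', x, hx⟩ := exists_isTranscendenceBasis' k K
  obtain ⟨bK, -⟩ := ChCoord_basis k K x hx
  have hrank : Module.finrank K (KaehlerDifferential k K) = n + 1 := by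
    rw [Module.finrank, ← bK.mk_eq_rank'', hx.cardinalMk_eq_trdeg, hK]
    exact Cardinal.toNat_natCast _
  have hspanK : Submodule.span K (Set.range fun o => KaehlerDifferential.map k k V K (ω o)) = ⊤ := by
    have h1 := span_eq_top_of_isLocalizedModule K (nonZeroDivisors V)
      (KaehlerDifferential.map k k V K) hspan
    rw [← Set.range_comp] at h1
    exact h1
  have hliK : LinearIndependent K fun o => KaehlerDifferential.map k k V K (ω o) := by
    refine linearIndependent_of_top_le_span_of_card_eq_finrank hspanK.ge ?_
    rw [hrank, Fintype.card_option, Fintype.card_fin]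
  have hli : LinearIndependent V ω := by
    have h1 : LinearIndependent V fun o => KaehlerDifferential.map k k V K (ω o) :=
      hliK.restrict_scalars' V
    exact LinearIndependent.of_comp (KaehlerDifferential.map k k V K) h1
  refine ⟨Module.Basis.mk hli hspan.ge, ?_, fun l => ?_⟩
  · rw [Module.Basis.mk_apply]
    rfl
  · rw [Module.Basis.mk_apply]
    rfl

/-- CH02b. `s, u_l` are algebraically independent (`DvrCoords_indep` in `Lib_GD/DvrCoords.lean`
with `k` for `ℂ`). -/
theorem algebraicIndependent_option (k V : Type) [Field k] [CommRing V] [IsDomain V]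
    [IsDiscreteValuationRing V] [Algebra k V] (n : ℕ) (s : V) (hs : Irreducible s) (u : Fin n → V)
    (hu : AlgebraicIndependent k (fun i => IsLocalRing.residue V (u i))) :
    AlgebraicIndependent k (fun o : Option (Fin n) => o.elim s u) :=
  ChCoord_indep k V s hs u hu

/-- CH02c. The dual derivations. `D l` is the coordinate of `D f` along `D (u l)` (compare
`Lib_GD/DvrDer.lean`); for `chain`, a derivation `d` is `d.liftKaehlerDifferential` composed with
`D k V`, expand `D k V v` in the basis. -/
theorem exists_dualDer (k V : Type) [Field k] [CommRing V] [Algebra k V] (n : ℕ) (s : V)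
    (u : Fin n → V) (b : Module.Basis (Option (Fin n)) V (KaehlerDifferential k V))
    (hb : b none = KaehlerDifferential.D k V s)
    (hb' : ∀ l, b (some l) = KaehlerDifferential.D k V (u l)) :
    ∃ D : Fin n → Derivation k V V, DualDer k V s u D := by
  classical
  set c : Option (Fin n) → Derivation k V V := fun i =>
    (b.coord i).compDer (KaehlerDifferential.D k V) with hc
  have hca : ∀ i f, c i f = b.repr (KaehlerDifferential.D k V f) i := fun i f => rfl
  have h1 : ∀ i, c i s = if i = none then 1 else 0 := by
    intro i
    rw [hca, ← hb, Module.Basis.repr_self, Finsupp.single_apply]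
    by_cases h : i = none
    · rw [if_pos h, if_pos h.symm]
    · rw [if_neg h, if_neg (Ne.symm h)]
  have h2 : ∀ i l, c i (u l) = if i = some l then 1 else 0 := by
    intro i l
    rw [hca, ← hb', Module.Basis.repr_self, Finsupp.single_apply]
    by_cases h : i = some l
    · rw [if_pos h, if_pos h.symm]
    · rw [if_neg h, if_neg (Ne.symm h)]
  refine ⟨fun l => c (some l), ⟨?_, ?_, ?_⟩⟩
  · intro l
    rw [h1, if_neg (by simp)]
  · intro l j
    rw [h2]
    simp
  · intro M _ _ _ _ d hd v
    have h3 := b.sum_repr (KaehlerDifferential.D k V v)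
    rw [Fintype.sum_option] at h3
    simp only [hb, hb'] at h3
    have h4 : d v = d.liftKaehlerDifferential (KaehlerDifferential.D k V v) :=
      (d.liftKaehlerDifferential_comp_D v).symm
    rw [h4, ← h3, map_add, map_sum]
    simp only [map_smul, Derivation.liftKaehlerDifferential_comp_D, hd, smul_zero, zero_add]
    rfl

end Pool.Agent.Lib_KF
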