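import Pool.Agent.Lib_KF.ChFam

/-! CH12b: the value of a function of the coordinates. -/

open PowerSeries

namespace Pool.Agent.Lib_KF

open Pool.Agent.Lib_GD

/-- CH12b. Values at points with the same coordinates: if `f ∈ polyRing k y` there is a finite set
of constants such that for every analytic family containing them and the `y_l`, the value
`ev z p f` depends only on `z` and the `ev z p (y_l)`. `Algebra.adjoin_induction`. -/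
theorem ev_eq_of_coords {k L : Type} [Field k] [Field L] [Algebra k L] [Algebra ℂ L]
    [Algebra ℂ k] [IsScalarTower ℂ k L]
    {n : ℕ} (y : Fin n → L⟦X⟧) (f : L⟦X⟧) (hf : f ∈ polyRing k y) :
    ∃ Zf : Finset k, ∀ (A : Subalgebra k L⟦X⟧) (hX : (X : L⟦X⟧) ∈ A)
      (hy : ∀ l, y l ∈ fracRing A) (hfA : f ∈ fracRing A) (u : Fin n → fracRing A)
      (D : Fin n → Derivation k (fracRing A) (fracRing A)) (Z : Set (fracRing A)) (Zc : Set k)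
      (E : EvFam k (fracRing A) (⟨X, le_fracRing A hX⟩ : fracRing A) u D Z Zc)
      (hy𝒲 : ∀ l, (⟨y l, hy l⟩ : fracRing A) ∈ E.𝒲), (Zf : Set k) ⊆ Zc →
      ∃ hf𝒲 : (⟨f, hfA⟩ : fracRing A) ∈ E.𝒲, ∀ z p p', ‖z‖ < E.ρ → ‖p‖ < E.ρ → ‖p'‖ < E.ρ →
        (∀ l, E.ev z p ⟨_, hy𝒲 l⟩ = E.ev z p' ⟨_, hy𝒲 l⟩) →
        E.ev z p ⟨_, hf𝒲⟩ = E.ev z p' ⟨_, hf𝒲⟩ := by
  classical
  suffices H : ∃ Zf : Finset k, ∀ (A : Subalgebra k L⟦X⟧) (hX : (X : L⟦X⟧) ∈ A)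
      (hy : ∀ l, y l ∈ fracRing A) (u : Fin n → fracRing A)
      (D : Fin n → Derivation k (fracRing A) (fracRing A)) (Z : Set (fracRing A)) (Zc : Set k)
      (E : EvFam k (fracRing A) (⟨X, le_fracRing A hX⟩ : fracRing A) u D Z Zc)
      (hy𝒲 : ∀ l, (⟨y l, hy l⟩ : fracRing A) ∈ E.𝒲), (Zf : Set k) ⊆ Zc →
      ∃ hfA : f ∈ fracRing A,
      ∃ hf𝒲 : (⟨f, hfA⟩ : fracRing A) ∈ E.𝒲, ∀ z p p', ‖z‖ < E.ρ → ‖p‖ < E.ρ → ‖p'‖ < E.ρ →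
        (∀ l, E.ev z p ⟨_, hy𝒲 l⟩ = E.ev z p' ⟨_, hy𝒲 l⟩) →
        E.ev z p ⟨_, hf𝒲⟩ = E.ev z p' ⟨_, hf𝒲⟩ by
    obtain ⟨Zf, h⟩ := H
    refine ⟨Zf, fun A hX hy hfA u D Z Zc E hy𝒲 hZf => ?_⟩
    obtain ⟨hfA', h1⟩ := h A hX hy u D Z Zc E hy𝒲 hZf
    exact h1
  unfold polyRing at hf
  induction hf using Algebra.adjoin_induction with
  | mem x hx =>
    rcases hx with rfl | ⟨l, rfl⟩
    · refine ⟨∅, fun A hX hy u D Z Zc E hy𝒲 _ => ⟨le_fracRing A hX, E.hs, ?_⟩⟩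
      intro z p p' hz hp hp' _
      rw [E.ev_s z p hz hp, E.ev_s z p' hz hp']
    · exact ⟨∅, fun A hX hy u D Z Zc E hy𝒲 _ => ⟨hy l, hy𝒲 l, fun z p p' _ _ _ h => h l⟩⟩
  | algebraMap c =>
    refine ⟨{c}, fun A hX hy u D Z Zc E hy𝒲 hZf => ?_⟩
    have hc : c ∈ Zc := hZf (by simp)
    refine ⟨(fracRing A).algebraMap_mem c, E.hc c hc, ?_⟩
    intro z p p' hz hp hp' _
    exact (E.ev_c c hc z p hz hp).trans (E.ev_c c hc z p' hz hp').symm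
  | add f₁ f₂ _ _ ih₁ ih₂ =>
    obtain ⟨Z₁, h₁⟩ := ih₁
    obtain ⟨Z₂, h₂⟩ := ih₂
    refine ⟨Z₁ ∪ Z₂, fun A hX hy u D Z Zc E hy𝒲 hZf => ?_⟩
    rw [Finset.coe_union] at hZf
    obtain ⟨a₁, w₁, e₁⟩ := h₁ A hX hy u D Z Zc E hy𝒲 (Set.subset_union_left.trans hZf)
    obtain ⟨a₂, w₂, e₂⟩ := h₂ A hX hy u D Z Zc E hy𝒲 (Set.subset_union_right.trans hZf)
    refine ⟨(fracRing A).add_mem a₁ a₂, E.𝒲.add_mem w₁ w₂, ?_⟩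
    intro z p p' hz hp hp' hl
    have key : ∀ q, E.ev z q ⟨⟨f₁ + f₂, (fracRing A).add_mem a₁ a₂⟩, E.𝒲.add_mem w₁ w₂⟩ =
        E.ev z q ⟨_, w₁⟩ + E.ev z q ⟨_, w₂⟩ := by
      intro q
      rw [← map_add]
      rfl
    rw [key, key, e₁ z p p' hz hp hp' hl, e₂ z p p' hz hp hp' hl]
  | mul f₁ f₂ _ _ ih₁ ih₂ =>
    obtain ⟨Z₁, h₁⟩ := ih₁
    obtain ⟨Z₂, h₂⟩ := ih₂
    refine ⟨Z₁ ∪ Z₂, fun A hX hy u D Z Zc E hy𝒲 hZf => ?_⟩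
    rw [Finset.coe_union] at hZf
    obtain ⟨a₁, w₁, e₁⟩ := h₁ A hX hy u D Z Zc E hy𝒲 (Set.subset_union_left.trans hZf)
    obtain ⟨a₂, w₂, e₂⟩ := h₂ A hX hy u D Z Zc E hy𝒲 (Set.subset_union_right.trans hZf)
    refine ⟨(fracRing A).mul_mem a₁ a₂, E.𝒲.mul_mem w₁ w₂, ?_⟩
    intro z p p' hz hp hp' hl
    have key : ∀ q, E.ev z q ⟨⟨f₁ * f₂, (fracRing A).mul_mem a₁ a₂⟩, E.𝒲.mul_mem w₁ w₂⟩ =
        E.ev z q ⟨_, w₁⟩ * E.ev z q ⟨_, w₂⟩ := by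
      intro q
      rw [← map_mul]
      rfl
    rw [key, key, e₁ z p p' hz hp hp' hl, e₂ z p p' hz hp hp' hl]

end Pool.Agent.Lib_KF
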