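import Pool.Agent.Lib_GD.ArcDefs
import Pool.Agent.Lib_GD.Rational

/-!
# The chart of an arc: definitions

`k` is a field, `V` a `k`-algebra (a discrete valuation ring later), `s, u_l, w ∈ V`.
`ev0 s u` and `ev1 s u w` evaluate polynomials in `s, u` and in `s, u, w`; the variable `none` of
`MvPolynomial (Option (Fin n)) k` is `s`, the variable `some l` is `u_l`.
-/

open PowerSeries

namespace Pool.Agent.Lib_KF

open Pool.Agent.Lib_GD

section

variable {k V : Type} [CommRing k] [CommRing V] [Algebra k V] {n : ℕ}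

/-- evaluation of polynomials in `s, u` -/
noncomputable def ev0 (s : V) (u : Fin n → V) : MvPolynomial (Option (Fin n)) k →ₐ[k] V :=
  MvPolynomial.aeval (fun o => o.elim s u)

/-- evaluation of polynomials in `s, u, w` -/
noncomputable def ev1 (s : V) (u : Fin n → V) (w : V) :
    Polynomial (MvPolynomial (Option (Fin n)) k) →+* V :=
  Polynomial.eval₂RingHom (ev0 (k := k) s u).toRingHom w

/-- `V` is a localisation of `k[s, u][w]/(F)`, `F` monic in `w`, with `F'(w)` invertible. -/
structure EtaleCoord (k V : Type) [CommRing k] [CommRing V] [Algebra k V] {n : ℕ} (s : V)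
    (u : Fin n → V) (w : V) (F : Polynomial (MvPolynomial (Option (Fin n)) k)) : Prop where
  monic : F.Monic
  root : ev1 s u w F = 0
  unit : IsUnit (ev1 s u w (Polynomial.derivative F))
  dvd : ∀ H : Polynomial (MvPolynomial (Option (Fin n)) k), ev1 s u w H = 0 → F ∣ H
  frac : ∀ v : V, ∃ q₁ q₂ : Polynomial (MvPolynomial (Option (Fin n)) k),
    IsUnit (ev1 s u w q₂) ∧ v * ev1 s u w q₂ = ev1 s u w q₁

/-- Dual derivations: `D l` is `∂/∂u_l` at fixed `s`; every derivation killing `s` is a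
combination. -/
structure DualDer (k V : Type) [CommRing k] [CommRing V] [Algebra k V] {n : ℕ} (s : V)
    (u : Fin n → V) (D : Fin n → Derivation k V V) : Prop where
  der_s : ∀ l, D l s = 0
  der_u : ∀ l j, D l (u j) = if l = j then 1 else 0
  chain : ∀ (M : Type) [AddCommGroup M] [Module k M] [Module V M] [IsScalarTower k V M]
    (d : Derivation k V M), d s = 0 → ∀ v, d v = ∑ l, D l v • d (u l)

end

section

variable {k L : Type} [Field k] [Field L] [Algebra k L]

/-- The fractions `a / b`, `a, b ∈ A`, which are power series. -/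
def fracRing (A : Subalgebra k L⟦X⟧) : Subalgebra k L⟦X⟧ where
  carrier := {f | ∃ a ∈ A, ∃ b ∈ A, b ≠ 0 ∧ f * b = a}
  mul_mem' := by
    rintro f g ⟨a, ha, b, hb, hb0, h⟩ ⟨a', ha', b', hb', hb0', h'⟩
    exact ⟨a * a', A.mul_mem ha ha', b * b', A.mul_mem hb hb', mul_ne_zero hb0 hb0', by
      rw [← h, ← h']; ring⟩
  add_mem' := by
    rintro f g ⟨a, ha, b, hb, hb0, h⟩ ⟨a', ha', b', hb', hb0', h'⟩
    exact ⟨a * b' + a' * b, A.add_mem (A.mul_mem ha hb') (A.mul_mem ha' hb), b * b',
      A.mul_mem hb hb', mul_ne_zero hb0 hb0', by rw [← h, ← h']; ring⟩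
  algebraMap_mem' c := ⟨algebraMap k L⟦X⟧ c, A.algebraMap_mem c, 1, A.one_mem, one_ne_zero,
    mul_one _⟩

theorem le_fracRing (A : Subalgebra k L⟦X⟧) : A ≤ fracRing A := fun a ha =>
  ⟨a, ha, 1, A.one_mem, one_ne_zero, mul_one _⟩

/-- `X` and the `y_l` generate a subring of `L⟦X⟧`. -/
noncomputable def polyRing (k : Type) [Field k] [Algebra k L] {n : ℕ} (y : Fin n → L⟦X⟧) :
    Subalgebra k L⟦X⟧ :=
  Algebra.adjoin k (insert (X : L⟦X⟧) (Set.range y))

end

end Pool.Agent.Lib_KF
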