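import Pool.Agent.Lib_KF.ChCoord

/-! CH03: a divisorial valuation ring is étale over the polynomial ring in `s, u`. -/

namespace Pool.Agent.Lib_KF

private theorem ChEtale_unram {k R V ι : Type} [CommRing k] [CommRing R] [CommRing V]
    [Algebra k R] [Algebra k V] [Algebra R V] [IsScalarTower k R V]
    (b : Module.Basis ι V (KaehlerDifferential k V))
    (h : ∀ i, ∃ r : R, b i = KaehlerDifferential.D k V (algebraMap R V r)) :
    Algebra.FormallyUnramified R V := by
  have hsur := KaehlerDifferential.map_surjective k R V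
  have hzero : KaehlerDifferential.map k R V V = 0 := by
    apply b.ext
    intro i
    obtain ⟨r, hr⟩ := h i
    rw [hr, KaehlerDifferential.map_D, LinearMap.zero_apply]
    exact Derivation.map_algebraMap _ r
  refine ⟨⟨fun x y => ?_⟩⟩
  obtain ⟨x', rfl⟩ := hsur x
  obtain ⟨y', rfl⟩ := hsur y
  rw [hzero, LinearMap.zero_apply, LinearMap.zero_apply]

private theorem ChEtale_main {R V : Type} [CommRing R] [IsDomain R] [IsIntegrallyClosed R]
    [CommRing V] [IsDomain V] [IsLocalRing V] [Algebra R V] [Module.IsTorsionFree R V]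
    [Algebra.EssFiniteType R V] [Algebra.FormallyUnramified R V] :
    ∃ (w : V) (F : Polynomial R), F.Monic ∧ Polynomial.aeval w F = 0 ∧
      IsUnit (Polynomial.aeval w (Polynomial.derivative F)) ∧
      (∀ H : Polynomial R, Polynomial.aeval w H = 0 → F ∣ H) ∧
      ∀ v : V, ∃ q₁ q₂ : Polynomial R, IsUnit (Polynomial.aeval w q₂) ∧
        v * Polynomial.aeval w q₂ = Polynomial.aeval w q₁ := by
  let S := Algebra.EssFiniteType.subalgebra R V
  let Q : Ideal S := (IsLocalRing.maximalIdeal V).comap (algebraMap S V)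
  have hQ : Q.IsPrime := Ideal.IsPrime.comap _
  have hM : Algebra.EssFiniteType.submonoid R V = Q.primeCompl := by
    ext x
    show IsUnit (algebraMap S V x) ↔ ¬ (algebraMap S V x ∈ IsLocalRing.maximalIdeal V)
    rw [IsLocalRing.mem_maximalIdeal, mem_nonunits_iff, not_not]
  have hloc : IsLocalization Q.primeCompl V := by
    rw [← hM]
    exact Algebra.EssFiniteType.isLocalization R V
  have hun : Algebra.IsUnramifiedAt R Q :=
    Algebra.FormallyUnramified.of_equiv
      ((IsLocalization.algEquiv Q.primeCompl V (Localization.AtPrime Q)).restrictScalars R)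
  obtain ⟨f, hf, P, φ, hφ⟩ := Algebra.IsUnramifiedAt.exists_hasStandardEtaleSurjectionOn (R := R) Q
  have hunit : ∀ x : S, x ∉ Q → IsUnit (algebraMap S V x) := fun x hx =>
    IsLocalization.map_units V (⟨x, hx⟩ : Q.primeCompl)
  let ψ : Localization.Away f →ₐ[R] V :=
    IsLocalization.Away.liftAlgHom f (f := IsScalarTower.toAlgHom R S V) (hunit f hf)
  have hψ : ∀ x : S, ψ (algebraMap S (Localization.Away f) x) = algebraMap S V x := by
    intro x
    exact IsLocalization.lift_eq _ x
  let w : V := ψ (φ P.X)
  have hw : P.HasMap w := (StandardEtalePair.hasMap_X.map φ).map ψ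
  have hint : IsIntegral R w := ⟨P.f, P.monic_f, hw.1⟩
  have hex : ∀ x : S, ∃ (p : Polynomial R) (m : ℕ),
      algebraMap S V x * Polynomial.aeval w P.g ^ m = Polynomial.aeval w p := by
    intro x
    obtain ⟨y, hy⟩ := hφ (algebraMap S (Localization.Away f) x)
    obtain ⟨p, m, hp⟩ := StandardEtalePresentation.exists_mul_aeval_x_g_pow_eq_aeval_x
      (⟨P, P.X, P.hasMap_X, by
        simpa [StandardEtalePair.lift_X_left] using Function.bijective_id⟩ :
        StandardEtalePresentation R P.Ring) y
    refine ⟨p, m, ?_⟩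
    have h1 := congrArg (fun z => ψ (φ z)) hp
    simp only [map_mul, map_pow, hy, hψ] at h1
    have e : ∀ r : Polynomial R, ψ (φ (Polynomial.aeval P.X r)) = Polynomial.aeval w r := by
      intro r
      rw [← Polynomial.aeval_algHom_apply, ← Polynomial.aeval_algHom_apply]
    rw [e, e] at h1
    exact h1
  refine ⟨w, minpoly R w, minpoly.monic hint, minpoly.aeval R w, ?_, ?_, ?_⟩
  · obtain ⟨q, hq⟩ := minpoly.isIntegrallyClosed_dvd hint hw.1
    have h1 := hw.isUnit_derivative_f
    rw [hq, Polynomial.derivative_mul, map_add, map_mul, map_mul, minpoly.aeval, zero_mul,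
      add_zero] at h1
    exact isUnit_of_mul_isUnit_left h1
  · exact fun H hH => minpoly.isIntegrallyClosed_dvd hint hH
  · intro v
    obtain ⟨⟨a, b⟩, hab⟩ := IsLocalization.surj Q.primeCompl v
    obtain ⟨p, m, hp⟩ := hex a
    obtain ⟨p', m', hp'⟩ := hex b.1
    refine ⟨p * P.g ^ m', p' * P.g ^ m, ?_, ?_⟩
    · rw [map_mul, map_pow, ← hp']
      exact ((hunit b.1 b.2).mul (hw.2.pow _)).mul (hw.2.pow _)
    · rw [map_mul, map_mul, map_pow, map_pow, ← hp, ← hp', ← hab]
      ring

/-- CH03. With `P₀ = k[s, u] = MvPolynomial (Option (Fin n)) k` and the algebra structure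
`ev0 s u` on `V` (injective by `hind`):
(1) `Ω_{V/P₀} = 0`, since it is a quotient of `Ω_{V/k}` (`KaehlerDifferential.map k P₀ V V` is
surjective) which is generated by `ds, du_l` (`b`), whose images vanish. So `V` is formally
unramified over `P₀`.
(2) `V` is essentially of finite type over `P₀` (`Algebra.EssFiniteType.of_comp k P₀ V`); let `S`
be a finitely generated `P₀`-subalgebra of which `V` is a localisation
(`Algebra.EssFiniteType.subalgebra`), `Q` the preimage of the maximal ideal of `V`; `V` is the
localisation of `S` at `Q` as `V` is local, so `Algebra.IsUnramifiedAt P₀ Q`.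
(3) `Algebra.IsUnramifiedAt.exists_hasStandardEtaleSurjectionOn` (Mathlib): `f ∉ Q`, a
`StandardEtalePair P` over `P₀` and a surjection `φ : P.Ring → S[1/f]`; `S[1/f] → V` exists as `f`
is a unit of `V`. Let `w` be the image of `P.X` in `V`: `P.f(w) = 0`, `P.g(w)` and `P.f'(w)` are
units (`StandardEtalePair.HasMap.isUnit_derivative_f`).
(4) `F := minpoly P₀ w`: monic, `P₀` is integrally closed, so `F` divides every polynomial which
vanishes at `w` (`minpoly.isIntegrallyClosed_dvd`), in particular `P.f = F q` and
`P.f'(w) = F'(w) q(w)`, so `F'(w)` is a unit.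
(5) `v ∈ V` is `a / b`, `a, b ∈ S`, `b ∉ Q`; `a g(w) ^ m = p(w)` and the same for `b`
(`StandardEtalePresentation.exists_mul_aeval_x_g_pow_eq_aeval_x`, or surjectivity of `φ`). -/
theorem exists_etaleCoord (k V : Type) [Field k] [CharZero k] [CommRing V] [IsDomain V]
    [IsDiscreteValuationRing V] [Algebra k V] [Algebra.EssFiniteType k V] (n : ℕ) (s : V)
    (u : Fin n → V) (b : Module.Basis (Option (Fin n)) V (KaehlerDifferential k V))
    (hb : b none = KaehlerDifferential.D k V s)
    (hb' : ∀ l, b (some l) = KaehlerDifferential.D k V (u l))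
    (hind : AlgebraicIndependent k (fun o : Option (Fin n) => o.elim s u)) :
    ∃ (w : V) (F : Polynomial (MvPolynomial (Option (Fin n)) k)), EtaleCoord k V s u w F := by
  letI : Algebra (MvPolynomial (Option (Fin n)) k) V := (ev0 (k := k) s u).toRingHom.toAlgebra
  haveI : IsScalarTower k (MvPolynomial (Option (Fin n)) k) V :=
    IsScalarTower.of_algebraMap_eq fun c => ((ev0 (k := k) s u).commutes c).symm
  have hinj : Function.Injective (algebraMap (MvPolynomial (Option (Fin n)) k) V) := hind
  haveI : Module.IsTorsionFree (MvPolynomial (Option (Fin n)) k) V :=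
    Module.isTorsionFree_iff_algebraMap_injective.2 hinj
  haveI : Algebra.EssFiniteType (MvPolynomial (Option (Fin n)) k) V :=
    Algebra.EssFiniteType.of_comp k (MvPolynomial (Option (Fin n)) k) V
  haveI : Algebra.FormallyUnramified (MvPolynomial (Option (Fin n)) k) V := by
    refine ChEtale_unram b fun o => ⟨MvPolynomial.X o, ?_⟩
    have h1 : algebraMap (MvPolynomial (Option (Fin n)) k) V (MvPolynomial.X o) = o.elim s u :=
      MvPolynomial.aeval_X _ o
    rw [h1]
    cases o with
    | none => exact hb
    | some l => exact hb' l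
  obtain ⟨w, F, h1, h2, h3, h4, h5⟩ :=
    ChEtale_main (R := MvPolynomial (Option (Fin n)) k) (V := V)
  exact ⟨w, F, ⟨h1, h2, h3, h4, h5⟩⟩

end Pool.Agent.Lib_KF
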