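import Pool.Agent.Lib_KF.ChImpl

/-! CH05c: derivations and the analytic family. -/

namespace Pool.Agent.Lib_KF

/-- the directional derivative of `f` at `y` in the direction `l` exists and equals `d` -/
private def cheval2_LD {n : ℕ} (y : Fin n → ℂ) (l : Fin n) (f : (Fin n → ℂ) → ℂ) (d : ℂ) : Prop :=
  DifferentiableAt ℂ f y ∧ fderiv ℂ f y (Pi.single l 1) = d

section LD
variable {n : ℕ} {y : Fin n → ℂ} {l : Fin n}

private theorem cheval2_LD_const (c : ℂ) : cheval2_LD y l (fun _ => c) 0 :=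
  ⟨differentiableAt_const c, by simp⟩

private theorem cheval2_LD_add {f g : (Fin n → ℂ) → ℂ} {a b : ℂ} (hf : cheval2_LD y l f a)
    (hg : cheval2_LD y l g b) : cheval2_LD y l (fun y' => f y' + g y') (a + b) := by
  refine ⟨hf.1.add hg.1, ?_⟩
  have h := fderiv_fun_add hf.1 hg.1
  rw [h, add_apply, hf.2, hg.2]

private theorem cheval2_LD_mul {f g : (Fin n → ℂ) → ℂ} {a b : ℂ} (hf : cheval2_LD y l f a)
    (hg : cheval2_LD y l g b) :
    cheval2_LD y l (fun y' => f y' * g y') (a * g y + f y * b) := by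
  refine ⟨hf.1.mul hg.1, ?_⟩
  have h : fderiv ℂ (fun y' => f y' * g y') y = f y • fderiv ℂ g y + g y • fderiv ℂ f y :=
    fderiv_fun_mul hf.1 hg.1
  rw [h, add_apply, smul_apply, smul_apply, hf.2, hg.2, smul_eq_mul, smul_eq_mul]
  ring

private theorem cheval2_LD_congr {f g : (Fin n → ℂ) → ℂ} {a : ℂ} (hf : cheval2_LD y l f a)
    (h : g =ᶠ[nhds y] f) : cheval2_LD y l g a :=
  ⟨hf.1.congr_of_eventuallyEq h, by rw [h.fderiv_eq, hf.2]⟩

private theorem cheval2_LD_unique {f : (Fin n → ℂ) → ℂ} {a b : ℂ} (hf : cheval2_LD y l f a)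
    (hg : cheval2_LD y l f b) : a = b := hf.2.symm.trans hg.2

private theorem cheval2_LD_proj (c : ℂ) (j : Fin n) :
    cheval2_LD y l (fun y' => c + y' j) (if l = j then 1 else 0) := by
  have h1 : HasFDerivAt (fun y' : Fin n → ℂ => c + y' j)
      (ContinuousLinearMap.proj (R := ℂ) (φ := fun _ : Fin n => ℂ) j) y :=
    (ContinuousLinearMap.proj (R := ℂ) (φ := fun _ : Fin n => ℂ) j).hasFDerivAt.const_add c
  refine ⟨h1.differentiableAt, ?_⟩
  rw [h1.fderiv, ContinuousLinearMap.proj_apply, Pi.single_apply]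
  by_cases h : j = l
  · subst h; simp
  · rw [if_neg h, if_neg (Ne.symm h)]

end LD

section
variable {Q : Type} [CommRing Q] [Algebra ℂ Q] {n : ℕ}

private theorem cheval2_ev0_add {k V : Type} [CommRing k] [CommRing V] [Algebra k V] (s : V)
    (u : Fin n → V) (w : V) (g : MvPolynomial (Option (Fin n)) k) :
    ev1 s u w (Polynomial.C g) = ev0 s u g := by
  simp [ev1]

private theorem cheval2_ev1_X {k V : Type} [CommRing k] [CommRing V] [Algebra k V] (s : V)
    (u : Fin n → V) (w : V) : ev1 (k := k) s u w Polynomial.X = w := by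
  simp [ev1]

/-- coefficients -/
private theorem cheval2_coef_V {V : Type} [CommRing V] [Algebra ℂ V] [Algebra Q V]
    [IsScalarTower ℂ Q V] (s : V) (u : Fin n → V) (D : Fin n → Derivation ℂ V V)
    (hDQ : ∀ l (c : Q), D l (algebraMap Q V c) = 0) (hDs : ∀ l, D l s = 0)
    (hDu : ∀ l j, D l (u j) = if l = j then 1 else 0) (l : Fin n)
    (g : MvPolynomial (Option (Fin n)) Q) :
    D l (ev0 s u g) = ev0 s u (MvPolynomial.pderiv (some l) g) := by
  induction g using MvPolynomial.induction_on with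
  | C a => simp [ev0, hDQ]
  | add p q hp hq => simp only [map_add, hp, hq]
  | mul_X p i hp =>
    rw [map_mul, Derivation.leibniz, hp, Derivation.leibniz, MvPolynomial.pderiv_X]
    cases i with
    | none =>
      have h1 : ev0 (k := Q) s u (MvPolynomial.X none) = s := by simp [ev0]
      rw [h1, hDs]
      simp only [smul_eq_mul, mul_zero, zero_add, map_add, map_mul, h1]
      rw [Pi.single_eq_of_ne (by simp)]
      simp
    | some j =>
      have h1 : ev0 (k := Q) s u (MvPolynomial.X (some j)) = u j := by simp [ev0]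
      rw [h1, hDu]
      simp only [smul_eq_mul, map_add, map_mul, h1]
      by_cases h : l = j
      · subst h; simp
      · rw [if_neg h, Pi.single_eq_of_ne (by simpa using Ne.symm h)]
        simp

private theorem cheval2_coef_C (χ : Q →ₐ[ℂ] ℂ) (u₀ : Fin n → ℂ) (z : ℂ) (y : Fin n → ℂ)
    (l : Fin n) (g : MvPolynomial (Option (Fin n)) Q) :
    cheval2_LD y l (fun y' => ev0 (k := ℂ) z (u₀ + y') (MvPolynomial.map χ.toRingHom g))
      (ev0 (k := ℂ) z (u₀ + y) (MvPolynomial.map χ.toRingHom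
        (MvPolynomial.pderiv (some l) g))) := by
  induction g using MvPolynomial.induction_on with
  | C a => simpa [ev0] using cheval2_LD_const (y := y) (l := l) (χ a)
  | add p q hp hq =>
    simp only [map_add]
    exact cheval2_LD_add hp hq
  | mul_X p i hp =>
    have h2 : cheval2_LD y l
        (fun y' => ev0 (k := ℂ) z (u₀ + y') (MvPolynomial.map χ.toRingHom (MvPolynomial.X i)))
        (ev0 (k := ℂ) z (u₀ + y) (MvPolynomial.map χ.toRingHom
          (MvPolynomial.pderiv (some l) (MvPolynomial.X i)))) := by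
      rw [MvPolynomial.pderiv_X]
      cases i with
      | none =>
        rw [Pi.single_eq_of_ne (by simp)]
        simpa [ev0] using cheval2_LD_const (y := y) (l := l) z
      | some j =>
        have h3 := cheval2_LD_proj (y := y) (l := l) (u₀ j) j
        by_cases h : l = j
        · subst h
          simpa [ev0] using h3
        · rw [if_neg h] at h3
          rw [Pi.single_eq_of_ne (by simpa using Ne.symm h)]
          simpa [ev0] using h3
    have h4 := cheval2_LD_mul hp h2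
    simp only [map_mul, Derivation.leibniz, map_add, smul_eq_mul]
    convert h4 using 1
    ring

/-- chain rule for `F(s, u, w)` -/
private theorem cheval2_chain (χ : Q →ₐ[ℂ] ℂ) (u₀ : Fin n → ℂ)
    {V : Type} [CommRing V] [Algebra ℂ V] [Algebra Q V]
    [IsScalarTower ℂ Q V] (s : V) (u : Fin n → V) (w : V) (D : Fin n → Derivation ℂ V V)
    (hDQ : ∀ l (c : Q), D l (algebraMap Q V c) = 0) (hDs : ∀ l, D l s = 0)
    (hDu : ∀ l j, D l (u j) = if l = j then 1 else 0) (l : Fin n) (ρ : ℝ)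
    (W : ℂ × (Fin n → ℂ) → ℂ)
    (hW : ∀ z y, ‖z‖ < ρ → ‖y‖ < ρ → DifferentiableAt ℂ (fun y' => W (z, y')) y)
    (H : Polynomial (MvPolynomial (Option (Fin n)) Q)) :
    ∃ H₁ : Polynomial (MvPolynomial (Option (Fin n)) Q),
      D l (ev1 s u w H) = ev1 s u w H₁ + ev1 s u w (Polynomial.derivative H) * D l w ∧
      ∀ z y, ‖z‖ < ρ → ‖y‖ < ρ → cheval2_LD y l
        (fun y' => ev1 (k := ℂ) z (u₀ + y') (W (z, y')) (H.map (MvPolynomial.map χ.toRingHom)))
        (ev1 (k := ℂ) z (u₀ + y) (W (z, y)) (H₁.map (MvPolynomial.map χ.toRingHom)) +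
          ev1 (k := ℂ) z (u₀ + y) (W (z, y))
            ((Polynomial.derivative H).map (MvPolynomial.map χ.toRingHom)) *
            fderiv ℂ (fun y' => W (z, y')) y (Pi.single l 1)) := by
  induction H using Polynomial.induction_on with
  | C a =>
    refine ⟨Polynomial.C (MvPolynomial.pderiv (some l) a), ?_, fun z y _ _ => ?_⟩
    · rw [cheval2_ev0_add, cheval2_ev0_add, cheval2_coef_V s u D hDQ hDs hDu]
      simp
    · simp only [Polynomial.map_C, cheval2_ev0_add, Polynomial.derivative_C, Polynomial.map_zero,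
        map_zero, zero_mul, add_zero]
      exact cheval2_coef_C χ u₀ z y l a
  | add p q hp hq =>
    obtain ⟨P, hP1, hP2⟩ := hp
    obtain ⟨R, hR1, hR2⟩ := hq
    refine ⟨P + R, ?_, fun z y hz hy => ?_⟩
    · rw [map_add, map_add, hP1, hR1, map_add, Polynomial.derivative_add, map_add]
      ring
    · have h := cheval2_LD_add (hP2 z y hz hy) (hR2 z y hz hy)
      simp only [Polynomial.map_add, map_add]
      convert h using 1
      ring
  | monomial m a hm =>
    obtain ⟨P, hP1, hP2⟩ := hm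
    have e : Polynomial.C a * Polynomial.X ^ (m + 1) =
        (Polynomial.C a * Polynomial.X ^ m) * Polynomial.X := by rw [pow_succ, mul_assoc]
    rw [e]
    generalize Polynomial.C a * Polynomial.X ^ m = H₀ at hP1 hP2 ⊢
    refine ⟨P * Polynomial.X, ?_, fun z y hz hy => ?_⟩
    · rw [map_mul, Derivation.leibniz, hP1, Polynomial.derivative_mul, Polynomial.derivative_X,
        map_add, map_mul, map_mul, map_mul, cheval2_ev1_X, map_one]
      simp only [smul_eq_mul]
      ring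
    · have h := cheval2_LD_mul (hP2 z y hz hy) (⟨hW z y hz hy, rfl⟩ :
        cheval2_LD y l (fun y' => W (z, y')) (fderiv ℂ (fun y' => W (z, y')) y (Pi.single l 1)))
      simp only [Polynomial.map_mul, Polynomial.map_X, map_mul, cheval2_ev1_X,
        Polynomial.derivative_mul, Polynomial.derivative_X, Polynomial.map_add,
        map_add, mul_one]
      convert h using 1
      ring

end

/-- CH05c: the family of CH05b and derivations. -/
theorem ev_der (Q V : Type) [CommRing Q] [Algebra ℂ Q] [CommRing V] [IsDomain V] [Algebra ℂ V]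
    [Algebra Q V] [IsScalarTower ℂ Q V] (χ : Q →ₐ[ℂ] ℂ) {n : ℕ} (s : V) (u : Fin n → V) (w : V)
    (F q : Polynomial (MvPolynomial (Option (Fin n)) Q)) (hroot : ev1 s u w F = 0)
    (q' : V) (hq' : ev1 s u w q * q' = 1) (F' : V)
    (hF' : ev1 s u w (Polynomial.derivative F) * F' = 1) (ρ : ℝ) (u₀ : Fin n → ℂ)
    (W : ℂ × (Fin n → ℂ) → ℂ) (hW : AnalyticOnNhd ℂ W (Metric.ball 0 ρ))
    (hWF : ∀ p ∈ Metric.ball (0 : ℂ × (Fin n → ℂ)) ρ, ev1 (k := ℂ) p.1 (u₀ + p.2) (W p)
      (F.map (MvPolynomial.map χ.toRingHom)) = 0)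
    (𝒲 : Subalgebra ℂ V) (h𝒲 : 𝒲 = Algebra.adjoin ℂ (Set.range (algebraMap Q V) ∪
      insert s (insert w (insert q' (Set.range u))))) (hF'𝒲 : F' ∈ 𝒲)
    (ev : ℂ → (Fin n → ℂ) → (𝒲 →ₐ[ℂ] ℂ))
    (han : ∀ v, AnalyticOnNhd ℂ (fun p : ℂ × (Fin n → ℂ) => ev p.1 p.2 v) (Metric.ball 0 ρ))
    (hev : ∀ z y, ‖z‖ < ρ → ‖y‖ < ρ → (∀ h : s ∈ 𝒲, ev z y ⟨s, h⟩ = z) ∧
        (∀ l, ∀ h : u l ∈ 𝒲, ev z y ⟨u l, h⟩ = u₀ l + y l) ∧
        (∀ h : w ∈ 𝒲, ev z y ⟨w, h⟩ = W (z, y)) ∧
        (∀ c : Q, ∀ h : algebraMap Q V c ∈ 𝒲, ev z y ⟨algebraMap Q V c, h⟩ = χ c))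
    (D : Fin n → Derivation ℂ V V) (hDQ : ∀ l (c : Q), D l (algebraMap Q V c) = 0)
    (hDs : ∀ l, D l s = 0) (hDu : ∀ l j, D l (u j) = if l = j then 1 else 0) :
    ∃ hD : ∀ l, ∀ v ∈ 𝒲, D l v ∈ 𝒲, ∀ l v, ∀ h : v ∈ 𝒲, ∀ z y, ‖z‖ < ρ → ‖y‖ < ρ →
      fderiv ℂ (fun y' : Fin n → ℂ => ev z y' ⟨v, h⟩) y (Pi.single l 1) =
        ev z y ⟨D l v, hD l v h⟩ := by
  have hsub : ∀ g ∈ (Set.range (algebraMap Q V) ∪ insert s (insert w (insert q' (Set.range u)))),
      g ∈ 𝒲 := by
    intro g hg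
    rw [h𝒲]
    exact Algebra.subset_adjoin hg
  have hQ : ∀ c : Q, algebraMap Q V c ∈ 𝒲 := fun c => hsub _ (Or.inl ⟨c, rfl⟩)
  have hs : s ∈ 𝒲 := hsub _ (Or.inr (Or.inl rfl))
  have hw : w ∈ 𝒲 := hsub _ (Or.inr (Or.inr (Or.inl rfl)))
  have hq : q' ∈ 𝒲 := hsub _ (Or.inr (Or.inr (Or.inr (Or.inl rfl))))
  have hu : ∀ l, u l ∈ 𝒲 := fun l => hsub _ (Or.inr (Or.inr (Or.inr (Or.inr ⟨l, rfl⟩))))
  have hball : ∀ z (y : Fin n → ℂ), ‖z‖ < ρ → ‖y‖ < ρ → (z, y) ∈ Metric.ball (0 : ℂ × (Fin n → ℂ)) ρ := by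
    intro z y hz hy
    rw [mem_ball_zero_iff, Prod.norm_def]
    exact max_lt hz hy
  have hnear : ∀ y : Fin n → ℂ, ‖y‖ < ρ → ∀ᶠ y' in nhds y, ‖y'‖ < ρ := fun y hy =>
    (continuous_norm.tendsto y).eventually (eventually_lt_nhds hy)
  have hslice : ∀ (f : ℂ × (Fin n → ℂ) → ℂ), AnalyticOnNhd ℂ f (Metric.ball 0 ρ) →
      ∀ z y, ‖z‖ < ρ → ‖y‖ < ρ → DifferentiableAt ℂ (fun y' => f (z, y')) y := by
    intro f hf z y hz hy
    have h1 : DifferentiableAt ℂ f (z, y) := (hf _ (hball z y hz hy)).differentiableAt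
    exact h1.comp y ((differentiableAt_const z).prodMk differentiableAt_id)
  have hdW : ∀ z y, ‖z‖ < ρ → ‖y‖ < ρ → DifferentiableAt ℂ (fun y' => W (z, y')) y :=
    hslice W hW
  have hdev : ∀ v : 𝒲, ∀ z y, ‖z‖ < ρ → ‖y‖ < ρ → DifferentiableAt ℂ (fun y' => ev z y' v) y :=
    fun v => hslice _ (han v)
  -- the image of the polynomials
  have hαmem : ∀ H : Polynomial (MvPolynomial (Option (Fin n)) Q), ev1 s u w H ∈ 𝒲 := by
    have h0 : ∀ g : MvPolynomial (Option (Fin n)) Q, ev0 s u g ∈ 𝒲 := by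
      intro g
      induction g using MvPolynomial.induction_on with
      | C a => simpa [ev0] using hQ a
      | add p q hp hq => rw [map_add]; exact 𝒲.add_mem hp hq
      | mul_X p i hp =>
        rw [map_mul]
        refine 𝒲.mul_mem hp ?_
        cases i with
        | none => simpa [ev0] using hs
        | some j => simpa [ev0] using hu j
    intro H
    induction H using Polynomial.induction_on with
    | C a => rw [cheval2_ev0_add]; exact h0 a
    | add p q hp hq => rw [map_add]; exact 𝒲.add_mem hp hq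
    | monomial m a hm =>
      rw [pow_succ, ← mul_assoc, map_mul, cheval2_ev1_X]
      exact 𝒲.mul_mem hm hw
  -- the values of the family
  have hval : ∀ z y, ‖z‖ < ρ → ‖y‖ < ρ → ∀ H : Polynomial (MvPolynomial (Option (Fin n)) Q),
      ev z y ⟨ev1 s u w H, hαmem H⟩ =
        ev1 (k := ℂ) z (u₀ + y) (W (z, y)) (H.map (MvPolynomial.map χ.toRingHom)) := by
    intro z y hz hy H
    obtain ⟨e1, e2, e3, e4⟩ := hev z y hz hy
    have hadd : ∀ a b : V, ∀ (ha : a ∈ 𝒲) (hb : b ∈ 𝒲) (hab : a + b ∈ 𝒲),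
        ev z y ⟨a + b, hab⟩ = ev z y ⟨a, ha⟩ + ev z y ⟨b, hb⟩ := by
      intro a b ha hb hab
      rw [← map_add]
      rfl
    have hmul : ∀ a b : V, ∀ (ha : a ∈ 𝒲) (hb : b ∈ 𝒲) (hab : a * b ∈ 𝒲),
        ev z y ⟨a * b, hab⟩ = ev z y ⟨a, ha⟩ * ev z y ⟨b, hb⟩ := by
      intro a b ha hb hab
      rw [← map_mul]
      rfl
    have h0 : ∀ g : MvPolynomial (Option (Fin n)) Q, ∀ hg : ev0 s u g ∈ 𝒲,
        ev z y ⟨ev0 s u g, hg⟩ =
          ev0 (k := ℂ) z (u₀ + y) (MvPolynomial.map χ.toRingHom g) := by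
      intro g
      induction g using MvPolynomial.induction_on with
      | C a =>
        intro hg
        have e : ev0 s u (MvPolynomial.C a) = algebraMap Q V a := by simp [ev0]
        simp only [e]
        rw [e4 a]
        simp [ev0]
      | add p q hp hq =>
        intro hg
        have ha : ev0 s u p ∈ 𝒲 := by
          rw [← cheval2_ev0_add s u w]; exact hαmem _
        have hb : ev0 s u q ∈ 𝒲 := by
          rw [← cheval2_ev0_add s u w]; exact hαmem _
        simp only [map_add]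
        rw [hadd _ _ ha hb, hp, hq]
      | mul_X p i hp =>
        intro hg
        have ha : ev0 s u p ∈ 𝒲 := by
          rw [← cheval2_ev0_add s u w]; exact hαmem _
        have hb : ev0 (k := Q) s u (MvPolynomial.X i) ∈ 𝒲 := by
          rw [← cheval2_ev0_add s u w]; exact hαmem _
        simp only [map_mul]
        rw [hmul _ _ ha hb, hp]
        congr 1
        cases i with
        | none =>
          have e : ev0 (k := Q) s u (MvPolynomial.X none) = s := by simp [ev0]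
          simp only [e]
          rw [e1]
          simp [ev0]
        | some j =>
          have e : ev0 (k := Q) s u (MvPolynomial.X (some j)) = u j := by simp [ev0]
          simp only [e]
          rw [e2]
          simp [ev0]
    induction H using Polynomial.induction_on with
    | C a =>
      simp only [Polynomial.map_C, cheval2_ev0_add]
      exact h0 a _
    | add p q hp hq =>
      simp only [map_add, Polynomial.map_add]
      rw [hadd _ _ (hαmem p) (hαmem q), hp, hq]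
    | monomial m a hm =>
      have e : Polynomial.C a * Polynomial.X ^ (m + 1) =
          (Polynomial.C a * Polynomial.X ^ m) * Polynomial.X := by rw [pow_succ, mul_assoc]
      have hstep : ∀ H₀ : Polynomial (MvPolynomial (Option (Fin n)) Q),
          ev z y ⟨ev1 s u w H₀, hαmem H₀⟩ = ev1 (k := ℂ) z (u₀ + y) (W (z, y))
            (H₀.map (MvPolynomial.map χ.toRingHom)) →
          ev z y ⟨ev1 s u w (H₀ * Polynomial.X), hαmem _⟩ = ev1 (k := ℂ) z (u₀ + y) (W (z, y))
            ((H₀ * Polynomial.X).map (MvPolynomial.map χ.toRingHom)) := by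
        intro H₀ hH
        simp only [map_mul, Polynomial.map_mul, Polynomial.map_X, cheval2_ev1_X]
        rw [hmul _ _ (hαmem H₀) hw, hH, e3]
      simp only [e]
      exact hstep _ hm
  have hadd' : ∀ z y, ∀ a b : V, ∀ (ha : a ∈ 𝒲) (hb : b ∈ 𝒲) (hab : a + b ∈ 𝒲),
      ev z y ⟨a + b, hab⟩ = ev z y ⟨a, ha⟩ + ev z y ⟨b, hb⟩ := by
    intro z y a b ha hb hab
    rw [← map_add]
    rfl
  have hmul' : ∀ z y, ∀ a b : V, ∀ (ha : a ∈ 𝒲) (hb : b ∈ 𝒲) (hab : a * b ∈ 𝒲),
      ev z y ⟨a * b, hab⟩ = ev z y ⟨a, ha⟩ * ev z y ⟨b, hb⟩ := by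
    intro z y a b ha hb hab
    rw [← map_mul]
    rfl
  have hneg' : ∀ z y, ∀ a : V, ∀ (ha : a ∈ 𝒲) (hab : -a ∈ 𝒲),
      ev z y ⟨-a, hab⟩ = - ev z y ⟨a, ha⟩ := by
    intro z y a ha hab
    rw [← map_neg]
    rfl
  have hone' : ∀ z y, ∀ (hab : (1 : V) ∈ 𝒲), ev z y ⟨1, hab⟩ = 1 := by
    intro z y hab
    exact map_one (ev z y)
  -- `w`
  have hLDev : ∀ (l : Fin n) (v : 𝒲) z y, ‖z‖ < ρ → ‖y‖ < ρ →
      cheval2_LD y l (fun y' => ev z y' v) (fderiv ℂ (fun y' => ev z y' v) y (Pi.single l 1)) :=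
    fun l v z y hz hy => ⟨hdev v z y hz hy, rfl⟩
  have hch := fun l => cheval2_chain χ u₀ s u w D hDQ hDs hDu l ρ W hdW
  have hDw : ∀ l, ∃ h : D l w ∈ 𝒲, ∀ z y, ‖z‖ < ρ → ‖y‖ < ρ →
      cheval2_LD y l (fun y' => W (z, y')) (ev z y ⟨D l w, h⟩) := by
    intro l
    obtain ⟨F₁, h1, h2⟩ := hch l F
    rw [hroot, map_zero] at h1
    have h3 : D l w = - (F' * ev1 s u w F₁) := by
      have h4 : F' * (ev1 s u w F₁ + ev1 s u w (Polynomial.derivative F) * D l w) = 0 := by
        rw [← h1, mul_zero]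
      have h5 : F' * ev1 s u w (Polynomial.derivative F) = 1 := by rw [mul_comm]; exact hF'
      rw [mul_add, ← mul_assoc, h5, one_mul] at h4
      exact eq_neg_of_add_eq_zero_right h4
    have hmem : F' * ev1 s u w F₁ ∈ 𝒲 := 𝒲.mul_mem hF'𝒲 (hαmem F₁)
    have hmem' : - (F' * ev1 s u w F₁) ∈ 𝒲 := 𝒲.neg_mem hmem
    refine ⟨by rw [h3]; exact hmem', fun z y hz hy => ⟨hdW z y hz hy, ?_⟩⟩
    simp only [h3]
    rw [hneg' z y _ hmem, hmul' z y _ _ hF'𝒲 (hαmem F₁), hval z y hz hy]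
    have h6 : cheval2_LD y l (fun y' => ev1 (k := ℂ) z (u₀ + y') (W (z, y'))
        (F.map (MvPolynomial.map χ.toRingHom))) 0 := by
      refine cheval2_LD_congr (cheval2_LD_const 0) ?_
      filter_upwards [hnear y hy] with y' hy'
      exact hWF (z, y') (hball z y' hz hy')
    have h7 := cheval2_LD_unique (h2 z y hz hy) h6
    have h8 : ev z y ⟨F', hF'𝒲⟩ * ev1 (k := ℂ) z (u₀ + y) (W (z, y))
        ((Polynomial.derivative F).map (MvPolynomial.map χ.toRingHom)) = 1 := by
      rw [← hval z y hz hy, ← hmul' z y _ _ hF'𝒲 (hαmem _) (𝒲.mul_mem hF'𝒲 (hαmem _))]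
      have h9 : F' * ev1 s u w (Polynomial.derivative F) = 1 := by rw [mul_comm]; exact hF'
      simp only [h9]
      exact hone' z y _
    linear_combination (ev z y ⟨F', hF'𝒲⟩) * h7 -
      (fderiv ℂ (fun y' => W (z, y')) y (Pi.single l 1)) * h8
  -- the image of the polynomials
  have hDα : ∀ l (H : Polynomial (MvPolynomial (Option (Fin n)) Q)),
      ∃ h : D l (ev1 s u w H) ∈ 𝒲, ∀ z y, ‖z‖ < ρ → ‖y‖ < ρ →
      cheval2_LD y l (fun y' => ev z y' ⟨ev1 s u w H, hαmem H⟩)
        (ev z y ⟨D l (ev1 s u w H), h⟩) := by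
    intro l H
    obtain ⟨H₁, h1, h2⟩ := hch l H
    obtain ⟨hw1, hw2⟩ := hDw l
    have hm1 : ev1 s u w (Polynomial.derivative H) * D l w ∈ 𝒲 := 𝒲.mul_mem (hαmem _) hw1
    have hm2 : ev1 s u w H₁ + ev1 s u w (Polynomial.derivative H) * D l w ∈ 𝒲 :=
      𝒲.add_mem (hαmem _) hm1
    refine ⟨by rw [h1]; exact hm2, fun z y hz hy => ?_⟩
    simp only [h1]
    rw [hadd' z y _ _ (hαmem H₁) hm1, hmul' z y _ _ (hαmem _) hw1, hval z y hz hy,
      hval z y hz hy]
    have h3 := h2 z y hz hy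
    rw [(hw2 z y hz hy).2] at h3
    refine cheval2_LD_congr h3 ?_
    filter_upwards [hnear y hy] with y' hy'
    exact hval z y' hz hy' H
  -- `q'`
  have hDq : ∀ l, ∃ h : D l q' ∈ 𝒲, ∀ z y, ‖z‖ < ρ → ‖y‖ < ρ →
      cheval2_LD y l (fun y' => ev z y' ⟨q', hq⟩) (ev z y ⟨D l q', h⟩) := by
    intro l
    obtain ⟨hm, h2⟩ := hDα l q
    have h1 : ev1 s u w q • D l q' + q' • D l (ev1 s u w q) = 0 := by
      rw [← Derivation.leibniz, hq', Derivation.map_one_eq_zero]
    simp only [smul_eq_mul] at h1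
    have h3 : D l q' = - (q' * (q' * D l (ev1 s u w q))) := by
      have h4 : q' * ev1 s u w q = 1 := by rw [mul_comm]; exact hq'
      linear_combination q' * h1 - D l q' * h4
    have hm1 : q' * D l (ev1 s u w q) ∈ 𝒲 := 𝒲.mul_mem hq hm
    have hm2 : q' * (q' * D l (ev1 s u w q)) ∈ 𝒲 := 𝒲.mul_mem hq hm1
    refine ⟨by rw [h3]; exact 𝒲.neg_mem hm2, fun z y hz hy => ?_⟩
    simp only [h3]
    rw [hneg' z y _ hm2, hmul' z y _ _ hq hm1, hmul' z y _ _ hq hm]
    have h4 := hLDev l ⟨q', hq⟩ z y hz hy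
    refine ⟨h4.1, ?_⟩
    have h5 := cheval2_LD_mul h4 (h2 z y hz hy)
    have h7 : ∀ y', ev z y' ⟨q', hq⟩ * ev z y' ⟨ev1 s u w q, hαmem q⟩ = 1 := by
      intro y'
      rw [← hmul' z y' _ _ hq (hαmem _) (𝒲.mul_mem hq (hαmem _))]
      have h9 : q' * ev1 s u w q = 1 := by rw [mul_comm]; exact hq'
      simp only [h9]
      exact hone' z y' _
    have h6 : cheval2_LD y l (fun y' => ev z y' ⟨q', hq⟩ * ev z y' ⟨ev1 s u w q, hαmem q⟩) 0 := by
      simp only [h7]
      exact cheval2_LD_const 1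
    have h8 := cheval2_LD_unique h5 h6
    linear_combination (ev z y ⟨q', hq⟩) * h8 -
      (fderiv ℂ (fun y' => ev z y' ⟨q', hq⟩) y (Pi.single l 1)) * h7 y
  -- all elements
  have hall : ∀ l, ∀ v ∈ 𝒲, ∀ h : v ∈ 𝒲, ∃ h' : D l v ∈ 𝒲, ∀ z y, ‖z‖ < ρ → ‖y‖ < ρ →
      cheval2_LD y l (fun y' => ev z y' ⟨v, h⟩) (ev z y ⟨D l v, h'⟩) := by
    intro l v hv
    have hv' := hv
    rw [h𝒲] at hv'
    induction hv' using Algebra.adjoin_induction with
    | mem x hx =>
      intro h
      rcases hx with ⟨c, rfl⟩ | rfl | rfl | rfl | ⟨j, rfl⟩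
      · refine ⟨by rw [hDQ]; exact 𝒲.zero_mem, fun z y hz hy => ?_⟩
        simp only [hDQ]
        have h1 : ev z y ⟨0, 𝒲.zero_mem⟩ = 0 := map_zero (ev z y)
        rw [h1]
        refine cheval2_LD_congr (cheval2_LD_const (χ c)) ?_
        filter_upwards [hnear y hy] with y' hy'
        exact (hev z y' hz hy').2.2.2 c h
      · refine ⟨by rw [hDs]; exact 𝒲.zero_mem, fun z y hz hy => ?_⟩
        simp only [hDs]
        have h1 : ev z y ⟨0, 𝒲.zero_mem⟩ = 0 := map_zero (ev z y)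
        rw [h1]
        refine cheval2_LD_congr (cheval2_LD_const z) ?_
        filter_upwards [hnear y hy] with y' hy'
        exact (hev z y' hz hy').1 h
      · obtain ⟨h1, h2⟩ := hDw l
        refine ⟨h1, fun z y hz hy => cheval2_LD_congr (h2 z y hz hy) ?_⟩
        filter_upwards [hnear y hy] with y' hy'
        exact (hev z y' hz hy').2.2.1 h
      · exact hDq l
      · refine ⟨by rw [hDu]; split_ifs; exacts [𝒲.one_mem, 𝒲.zero_mem], fun z y hz hy => ?_⟩
        simp only [hDu]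
        have h2 := cheval2_LD_proj (y := y) (l := l) (u₀ j) j
        have h3 : ∀ hm : (if l = j then (1 : V) else 0) ∈ 𝒲,
            ev z y ⟨if l = j then 1 else 0, hm⟩ = if l = j then 1 else 0 := by
          intro hm
          by_cases hl : l = j
          · simp only [if_pos hl]
            exact map_one (ev z y)
          · simp only [if_neg hl]
            exact map_zero (ev z y)
        rw [h3]
        refine cheval2_LD_congr h2 ?_
        filter_upwards [hnear y hy] with y' hy'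
        exact (hev z y' hz hy').2.1 j h
    | algebraMap r =>
      intro h
      have h0 : D l (algebraMap ℂ V r) = 0 := (D l).map_algebraMap r
      refine ⟨by rw [h0]; exact 𝒲.zero_mem, fun z y hz hy => ?_⟩
      simp only [h0]
      have h1 : ev z y ⟨0, 𝒲.zero_mem⟩ = 0 := map_zero (ev z y)
      rw [h1]
      refine cheval2_LD_congr (cheval2_LD_const r) ?_
      filter_upwards with y'
      exact (ev z y').commutes r
    | add a b ha hb iha ihb =>
      intro h
      have ha' : a ∈ 𝒲 := by rw [h𝒲]; exact ha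
      have hb' : b ∈ 𝒲 := by rw [h𝒲]; exact hb
      obtain ⟨h1, h2⟩ := iha ha' ha'
      obtain ⟨h3, h4⟩ := ihb hb' hb'
      refine ⟨by rw [map_add]; exact 𝒲.add_mem h1 h3, fun z y hz hy => ?_⟩
      simp only [map_add]
      rw [hadd' z y _ _ h1 h3]
      refine cheval2_LD_congr (cheval2_LD_add (h2 z y hz hy) (h4 z y hz hy)) ?_
      filter_upwards with y'
      exact hadd' z y' _ _ ha' hb' _
    | mul a b ha hb iha ihb =>
      intro h
      have ha' : a ∈ 𝒲 := by rw [h𝒲]; exact ha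
      have hb' : b ∈ 𝒲 := by rw [h𝒲]; exact hb
      obtain ⟨h1, h2⟩ := iha ha' ha'
      obtain ⟨h3, h4⟩ := ihb hb' hb'
      have h5 : D l (a * b) = D l a * b + a * D l b := by
        rw [Derivation.leibniz, smul_eq_mul, smul_eq_mul]
        ring
      have hm1 : D l a * b ∈ 𝒲 := 𝒲.mul_mem h1 hb'
      have hm2 : a * D l b ∈ 𝒲 := 𝒲.mul_mem ha' h3
      refine ⟨by rw [h5]; exact 𝒲.add_mem hm1 hm2, fun z y hz hy => ?_⟩
      simp only [h5]
      rw [hadd' z y _ _ hm1 hm2, hmul' z y _ _ h1 hb', hmul' z y _ _ ha' h3]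
      refine cheval2_LD_congr (cheval2_LD_mul (h2 z y hz hy) (h4 z y hz hy)) ?_
      filter_upwards with y'
      exact hmul' z y' _ _ ha' hb' _
  refine ⟨fun l v hv => (hall l v hv hv).1, fun l v h z y hz hy => ?_⟩
  obtain ⟨h1, h2⟩ := hall l v h h
  exact (h2 z y hz hy).2

end Pool.Agent.Lib_KF
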