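import Pool.Agent.Lib_KF.ChImpl

/-! CH05: analytic families of points. -/

namespace Pool.Agent.Lib_KF

open IsLocalRing

/-- An analytic family of homomorphisms from a subalgebra `𝒲` of `V` to `ℂ`, with coordinates
`s, u`. -/
structure EvFam (k V : Type) [Field k] [CommRing V] [Algebra k V] [Algebra ℂ V] {n : ℕ} (s : V)
    (u : Fin n → V) (D : Fin n → Derivation k V V) (Z : Set V) (Zc : Set k) where
  𝒲 : Subalgebra ℂ V
  hs : s ∈ 𝒲
  hu : ∀ l, u l ∈ 𝒲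
  hZ : ∀ z ∈ Z, z ∈ 𝒲
  hc : ∀ c ∈ Zc, algebraMap k V c ∈ 𝒲
  hD : ∀ l, ∀ v ∈ 𝒲, D l v ∈ 𝒲
  ρ : ℝ
  ρ_pos : 0 < ρ
  u₀ : Fin n → ℂ
  ev : ℂ → (Fin n → ℂ) → (𝒲 →ₐ[ℂ] ℂ)
  an : ∀ v, AnalyticOnNhd ℂ (fun p : ℂ × (Fin n → ℂ) => ev p.1 p.2 v) (Metric.ball 0 ρ)
  ev_s : ∀ z y, ‖z‖ < ρ → ‖y‖ < ρ → ev z y ⟨s, hs⟩ = z
  ev_u : ∀ z y, ‖z‖ < ρ → ‖y‖ < ρ → ∀ l, ev z y ⟨u l, hu l⟩ = u₀ l + y l
  ev_c : ∀ c, ∀ h : c ∈ Zc, ∀ z y, ‖z‖ < ρ → ‖y‖ < ρ →
    ev z y ⟨algebraMap k V c, hc c h⟩ = ev 0 0 ⟨algebraMap k V c, hc c h⟩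
  ev_D : ∀ l v, ∀ h : v ∈ 𝒲, ∀ z y, ‖z‖ < ρ → ‖y‖ < ρ →
    fderiv ℂ (fun y' : Fin n → ℂ => ev z y' ⟨v, h⟩) y (Pi.single l 1) =
      ev z y ⟨D l v, hD l v h⟩

/-- CH05a. A `ℂ`-point of a finitely generated domain where a given element does not vanish: this
is the private `Spec0_point` of `Lib_GD/Spec0.lean` (copy the proof). -/
theorem exists_point (P : Type) [CommRing P] [IsDomain P] [Algebra ℂ P]
    [Algebra.FiniteType ℂ P] (f : P) (hf : f ≠ 0) : ∃ x : P →ₐ[ℂ] ℂ, x f ≠ 0 := by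
  have : IsJacobsonRing P := isJacobsonRing_of_finiteType (A := ℂ)
  have h1 : (⊥ : Ideal P).jacobson = ⊥ := by
    apply IsJacobsonRing.out'
    exact Ideal.IsPrime.isRadical (Ideal.isPrime_bot)
  have h2 : f ∉ (⊥ : Ideal P).jacobson := by
    rw [h1]
    exact fun h => hf ((Submodule.mem_bot P).1 h)
  rw [Ideal.jacobson, Submodule.mem_sInf] at h2
  push Not at h2
  obtain ⟨m, ⟨-, hm⟩, hfm⟩ := h2
  have := hm
  let : Field (P ⧸ m) := Ideal.Quotient.field m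
  have : Module.Finite ℂ (P ⧸ m) := finite_of_finite_type_of_isJacobsonRing ℂ (P ⧸ m)
  have : Algebra.IsIntegral ℂ (P ⧸ m) := inferInstance
  have hb := IsAlgClosed.algebraMap_bijective_of_isIntegral (k := ℂ) (K := P ⧸ m)
  let e : ℂ ≃ₐ[ℂ] (P ⧸ m) := AlgEquiv.ofBijective (Algebra.ofId ℂ (P ⧸ m)) hb
  refine ⟨e.symm.toAlgHom.comp (Ideal.Quotient.mkₐ ℂ m), ?_⟩
  intro h
  apply hfm
  have h3 : e.symm (Ideal.Quotient.mk m f) = 0 := h
  have h4 : Ideal.Quotient.mk m f = 0 := by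
    rw [← map_zero e.symm] at h3
    exact e.symm.injective h3
  exact Ideal.Quotient.eq_zero_iff_mem.1 h4

private abbrev ChEval_A (n : ℕ) (Q : Type) [CommRing Q] : Type :=
  Polynomial (MvPolynomial (Option (Fin n)) Q)

private theorem ChEval_eq {R V : Type} [CommRing R] [CommRing V] (Φ : R →+* V) (Ψ : R →+* ℂ)
    (h : ∀ G, Φ G = 0 → Ψ G = 0) {G G' : R} (he : Φ G = Φ G') : Ψ G = Ψ G' := by
  have h1 := h (G - G') (by rw [map_sub, he, sub_self])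
  rw [map_sub] at h1
  exact sub_eq_zero.1 h1

/-- clearing of the denominators: `q^N G(1/q)` -/
private noncomputable def ChEval_H {A : Type} [CommRing A] (q : A) (G : Polynomial A) : A :=
  ∑ i ∈ Finset.range (G.natDegree + 1), G.coeff i * q ^ (G.natDegree - i)

private theorem ChEval_clear {A B : Type} [CommRing A] [CommRing B] (φ : A →+* B) (q : A) (q' : B)
    (h : φ q * q' = 1) (G : Polynomial A) :
    φ (ChEval_H q G) = φ q ^ G.natDegree * G.eval₂ φ q' := by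
  rw [ChEval_H, map_sum, Polynomial.eval₂_eq_sum_range, Finset.mul_sum]
  refine Finset.sum_congr rfl fun i hi => ?_
  have hi' : i ≤ G.natDegree := Nat.lt_succ_iff.1 (Finset.mem_range.1 hi)
  rw [map_mul, map_pow]
  have h1 : φ q ^ G.natDegree = φ q ^ (G.natDegree - i) * φ q ^ i := by
    rw [← pow_add, Nat.sub_add_cancel hi']
  have h2 : φ q ^ i * q' ^ i = 1 := by
    rw [← mul_pow, h, one_pow]
  rw [h1]
  calc φ (G.coeff i) * φ q ^ (G.natDegree - i)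
      = φ (G.coeff i) * φ q ^ (G.natDegree - i) * 1 := by rw [mul_one]
    _ = φ (G.coeff i) * φ q ^ (G.natDegree - i) * (φ q ^ i * q' ^ i) := by rw [h2]
    _ = φ q ^ (G.natDegree - i) * φ q ^ i * (φ (G.coeff i) * q' ^ i) := by ring

/-- the specialised evaluation -/
private noncomputable def ChEval_psi {Q : Type} [CommRing Q] [Algebra ℂ Q] (χ : Q →ₐ[ℂ] ℂ)
    {n : ℕ} (u₀ : Fin n → ℂ) (W : ℂ × (Fin n → ℂ) → ℂ) (p : ℂ × (Fin n → ℂ)) :
    Polynomial (MvPolynomial (Option (Fin n)) Q) →+* ℂ :=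
  (ev1 (k := ℂ) p.1 (u₀ + p.2) (W p)).comp
    (Polynomial.mapRingHom (MvPolynomial.map χ.toRingHom))

private theorem ChEval_psi_apply {Q : Type} [CommRing Q] [Algebra ℂ Q] (χ : Q →ₐ[ℂ] ℂ)
    {n : ℕ} (u₀ : Fin n → ℂ) (W : ℂ × (Fin n → ℂ) → ℂ) (p : ℂ × (Fin n → ℂ))
    (H : Polynomial (MvPolynomial (Option (Fin n)) Q)) :
    ChEval_psi χ u₀ W p H = ev1 (k := ℂ) p.1 (u₀ + p.2) (W p)
      (H.map (MvPolynomial.map χ.toRingHom)) := rfl

private theorem ChEval_ev1_C {k V : Type} [CommRing k] [CommRing V] [Algebra k V] {n : ℕ} (s : V)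
    (u : Fin n → V) (w : V) (a : MvPolynomial (Option (Fin n)) k) :
    ev1 s u w (Polynomial.C a) = MvPolynomial.aeval (fun o : Option (Fin n) => o.elim s u) a := by
  show Polynomial.eval₂ _ _ _ = _
  rw [Polynomial.eval₂_C]
  rfl

private theorem ChEval_ev1_X {k V : Type} [CommRing k] [CommRing V] [Algebra k V] {n : ℕ} (s : V)
    (u : Fin n → V) (w : V) :
    ev1 (k := k) s u w Polynomial.X = w := by
  show Polynomial.eval₂ _ _ _ = _
  rw [Polynomial.eval₂_X]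

/-- CH05b. Evaluation of `Q[s, u][w]/(F)[1/q]` along the implicit function, as a homomorphism on
its image `𝒲` in `V`.
`Q → V` and `χ : Q → ℂ` are homomorphisms; `ι` extends `Q → V` by `s, u, w`. `ker` says that
a polynomial over `Q` which vanishes at `(s, u, w)` is a multiple of `F`. The family is
`H(s,u,w) / q(s,u,w)^m ↦ H^χ(z, u₀ + y, W(z, y)) / q^χ(…)^m`; well defined since
`H(s,u,w) q^a = H'(s,u,w) q^b` gives `F ∣ H q^a - H' q^b` in `Q[s,u][w]`, and `F^χ` vanishes at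
`(z, u₀ + y, W)`. Outside the ball put `ev z y := ev 0 0`. -/
theorem exists_ev (Q V : Type) [CommRing Q] [Algebra ℂ Q] [CommRing V] [IsDomain V] [Algebra ℂ V]
    [Algebra Q V] [IsScalarTower ℂ Q V] (χ : Q →ₐ[ℂ] ℂ) {n : ℕ} (s : V) (u : Fin n → V) (w : V)
    (F q : Polynomial (MvPolynomial (Option (Fin n)) Q))
    (hker : ∀ H : Polynomial (MvPolynomial (Option (Fin n)) Q), ev1 s u w H = 0 → F ∣ H)
    (q' : V) (hq' : ev1 s u w q * q' = 1) (ρ : ℝ) (hρ : 0 < ρ) (u₀ : Fin n → ℂ)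
    (W : ℂ × (Fin n → ℂ) → ℂ) (hW : AnalyticOnNhd ℂ W (Metric.ball 0 ρ))
    (hWF : ∀ p ∈ Metric.ball (0 : ℂ × (Fin n → ℂ)) ρ, ev1 (k := ℂ) p.1 (u₀ + p.2) (W p)
      (F.map (MvPolynomial.map χ.toRingHom)) = 0)
    (hWq : ∀ p ∈ Metric.ball (0 : ℂ × (Fin n → ℂ)) ρ, ev1 (k := ℂ) p.1 (u₀ + p.2) (W p)
      (q.map (MvPolynomial.map χ.toRingHom)) ≠ 0) :
    ∃ (𝒲 : Subalgebra ℂ V) (ev : ℂ → (Fin n → ℂ) → (𝒲 →ₐ[ℂ] ℂ)),
      𝒲 = Algebra.adjoin ℂ (Set.range (algebraMap Q V) ∪ insert s (insert w (insert q'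
        (Set.range u)))) ∧
      (∀ v, AnalyticOnNhd ℂ (fun p : ℂ × (Fin n → ℂ) => ev p.1 p.2 v) (Metric.ball 0 ρ)) ∧
      ∀ z y, ‖z‖ < ρ → ‖y‖ < ρ → (∀ h : s ∈ 𝒲, ev z y ⟨s, h⟩ = z) ∧
        (∀ l, ∀ h : u l ∈ 𝒲, ev z y ⟨u l, h⟩ = u₀ l + y l) ∧
        (∀ h : w ∈ 𝒲, ev z y ⟨w, h⟩ = W (z, y)) ∧
        (∀ c : Q, ∀ h : algebraMap Q V c ∈ 𝒲, ev z y ⟨algebraMap Q V c, h⟩ = χ c) := by
  classical
  set φ : ChEval_A n Q →+* V := ev1 s u w with hφ
  set ψ : ℂ × (Fin n → ℂ) → (ChEval_A n Q →+* ℂ) := ChEval_psi χ u₀ W with hψ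
  have hψF : ∀ p ∈ Metric.ball (0 : ℂ × (Fin n → ℂ)) ρ, ψ p F = 0 := hWF
  have hψq : ∀ p ∈ Metric.ball (0 : ℂ × (Fin n → ℂ)) ρ, ψ p q ≠ 0 := hWq
  set Φ : Polynomial (ChEval_A n Q) →+* V := Polynomial.eval₂RingHom φ q' with hΦ
  set Ψ : ℂ × (Fin n → ℂ) → (Polynomial (ChEval_A n Q) →+* ℂ) :=
    fun p => Polynomial.eval₂RingHom (ψ p) (ψ p q)⁻¹ with hΨ
  have hΨ0 : ∀ G, Φ G = 0 → ∀ p ∈ Metric.ball (0 : ℂ × (Fin n → ℂ)) ρ, Ψ p G = 0 := by
    intro G hG p hp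
    have h1 : φ (ChEval_H q G) = 0 := by
      rw [ChEval_clear φ q q' hq' G]
      have h2 : G.eval₂ φ q' = 0 := hG
      rw [h2, mul_zero]
    obtain ⟨H, hH⟩ := hker _ h1
    have h3 : ψ p (ChEval_H q G) = 0 := by
      rw [hH, map_mul, hψF p hp, zero_mul]
    rw [ChEval_clear (ψ p) q (ψ p q)⁻¹ (mul_inv_cancel₀ (hψq p hp)) G] at h3
    exact (mul_eq_zero.1 h3).resolve_left (pow_ne_zero _ (hψq p hp))
  have hΨe : ∀ G G', Φ G = Φ G' → ∀ p ∈ Metric.ball (0 : ℂ × (Fin n → ℂ)) ρ,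
      Ψ p G = Ψ p G' := by
    intro G G' h p hp
    exact ChEval_eq Φ (Ψ p) (fun G hG => hΨ0 G hG p hp) h
  -- generators
  have gΦ : ∀ H : ChEval_A n Q, Φ (Polynomial.C H) = φ H := fun H => Polynomial.eval₂_C _ _
  have gΨ : ∀ p, ∀ H : ChEval_A n Q, Ψ p (Polynomial.C H) = ψ p H := fun p H => Polynomial.eval₂_C _ _
  have gψC : ∀ p (a : MvPolynomial (Option (Fin n)) Q), ψ p (Polynomial.C a) =
      MvPolynomial.aeval (fun o : Option (Fin n) => o.elim p.1 (u₀ + p.2))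
        (MvPolynomial.map χ.toRingHom a) := by
    intro p a
    rw [hψ, ChEval_psi_apply, Polynomial.map_C]
    exact ChEval_ev1_C _ _ _ _
  have es : φ (Polynomial.C (MvPolynomial.X none)) = s := by
    rw [hφ, ChEval_ev1_C, MvPolynomial.aeval_X]
    rfl
  have eu : ∀ l, φ (Polynomial.C (MvPolynomial.X (some l))) = u l := by
    intro l
    rw [hφ, ChEval_ev1_C, MvPolynomial.aeval_X]
    rfl
  have ew : φ Polynomial.X = w := ChEval_ev1_X _ _ _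
  have ec : ∀ c, φ (Polynomial.C (MvPolynomial.C c)) = algebraMap Q V c := by
    intro c
    rw [hφ, ChEval_ev1_C, MvPolynomial.aeval_C]
  have fs : ∀ p, ψ p (Polynomial.C (MvPolynomial.X none)) = p.1 := by
    intro p
    rw [gψC, MvPolynomial.map_X, MvPolynomial.aeval_X]
    rfl
  have fu : ∀ p l, ψ p (Polynomial.C (MvPolynomial.X (some l))) = u₀ l + p.2 l := by
    intro p l
    rw [gψC, MvPolynomial.map_X, MvPolynomial.aeval_X]
    rfl
  have fw : ∀ p, ψ p Polynomial.X = W p := by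
    intro p
    rw [hψ, ChEval_psi_apply, Polynomial.map_X]
    exact ChEval_ev1_X _ _ _
  have fc : ∀ p c, ψ p (Polynomial.C (MvPolynomial.C c)) = χ c := by
    intro p c
    rw [gψC, MvPolynomial.map_C, MvPolynomial.aeval_C]
    rfl
  -- surjectivity
  set 𝒲 : Subalgebra ℂ V := Algebra.adjoin ℂ (Set.range (algebraMap Q V) ∪ insert s (insert w
    (insert q' (Set.range u)))) with h𝒲
  have hsurj : ∀ v : 𝒲, ∃ G, Φ G = v := by
    rintro ⟨v, hv⟩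
    show ∃ G, Φ G = v
    induction hv using Algebra.adjoin_induction with
    | mem x hx =>
      rcases hx with ⟨c, rfl⟩ | hx
      · exact ⟨Polynomial.C (Polynomial.C (MvPolynomial.C c)), by rw [gΦ, ec]⟩
      · rcases hx with rfl | rfl | rfl | ⟨l, rfl⟩
        · exact ⟨Polynomial.C (Polynomial.C (MvPolynomial.X none)), by rw [gΦ, es]⟩
        · exact ⟨Polynomial.C Polynomial.X, by rw [gΦ, ew]⟩
        · exact ⟨Polynomial.X, Polynomial.eval₂_X _ _⟩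
        · exact ⟨Polynomial.C (Polynomial.C (MvPolynomial.X (some l))), by rw [gΦ, eu]⟩
    | algebraMap c =>
      exact ⟨Polynomial.C (Polynomial.C (MvPolynomial.C (algebraMap ℂ Q c))), by
        rw [gΦ, ec, ← IsScalarTower.algebraMap_apply]⟩
    | add x y _ _ hx hy =>
      obtain ⟨G, hG⟩ := hx
      obtain ⟨G', hG'⟩ := hy
      exact ⟨G + G', by rw [map_add, hG, hG']⟩
    | mul x y _ _ hx hy =>
      obtain ⟨G, hG⟩ := hx
      obtain ⟨G', hG'⟩ := hy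
      exact ⟨G * G', by rw [map_mul, hG, hG']⟩
  choose g hg using hsurj
  -- the point
  set pt : ℂ × (Fin n → ℂ) → ℂ × (Fin n → ℂ) :=
    fun p => if p ∈ Metric.ball (0 : ℂ × (Fin n → ℂ)) ρ then p else 0 with hpt
  have hpt1 : ∀ p ∈ Metric.ball (0 : ℂ × (Fin n → ℂ)) ρ, pt p = p := fun p hp => if_pos hp
  have hpt2 : ∀ p, pt p ∈ Metric.ball (0 : ℂ × (Fin n → ℂ)) ρ := by
    intro p
    by_cases hp : p ∈ Metric.ball (0 : ℂ × (Fin n → ℂ)) ρ
    · rw [hpt1 p hp]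
      exact hp
    · rw [hpt]
      simp only
      rw [if_neg hp]
      exact Metric.mem_ball_self hρ
  have key : ∀ (p : ℂ × (Fin n → ℂ)) (v : 𝒲) (G : Polynomial (ChEval_A n Q)), Φ G = v →
      Ψ (pt p) (g v) = Ψ (pt p) G := fun p v G h => hΨe _ _ ((hg v).trans h.symm) _ (hpt2 p)
  let ev : ℂ → (Fin n → ℂ) → (𝒲 →ₐ[ℂ] ℂ) := fun z y =>
    { toFun := fun v => Ψ (pt (z, y)) (g v)
      map_one' := by
        rw [key (z, y) 1 1 (by rw [map_one]; rfl), map_one]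
      map_mul' := fun a b => by
        rw [key (z, y) (a * b) (g a * g b) (by rw [map_mul, hg, hg]; rfl), map_mul]
      map_zero' := by
        rw [key (z, y) 0 0 (by rw [map_zero]; rfl), map_zero]
      map_add' := fun a b => by
        rw [key (z, y) (a + b) (g a + g b) (by rw [map_add, hg, hg]; rfl), map_add]
      commutes' := fun c => by
        rw [key (z, y) (algebraMap ℂ 𝒲 c)
          (Polynomial.C (Polynomial.C (MvPolynomial.C (algebraMap ℂ Q c)))) (by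
            rw [gΦ, ec, ← IsScalarTower.algebraMap_apply]
            rfl), gΨ, fc, AlgHom.commutes] }
  have hev : ∀ z y v, ev z y v = Ψ (pt (z, y)) (g v) := fun z y v => rfl
  refine ⟨𝒲, ev, rfl, ?_, ?_⟩
  · intro v
    have h1 : AnalyticOnNhd ℂ (fun p : ℂ × (Fin n → ℂ) =>
        ∑ i ∈ Finset.range ((g v).natDegree + 1), ψ p ((g v).coeff i) * ((ψ p q)⁻¹) ^ i)
        (Metric.ball 0 ρ) := by
      refine Finset.analyticOnNhd_fun_sum _ fun i _ => ?_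
      refine AnalyticOnNhd.mul ?_ (AnalyticOnNhd.pow (AnalyticOnNhd.inv ?_ hψq) i)
      · exact analyticOnNhd_ev1 u₀ W _ hW _
      · exact analyticOnNhd_ev1 u₀ W _ hW _
    refine h1.congr Metric.isOpen_ball ?_
    intro p hp
    show _ = ev p.1 p.2 v
    rw [hev, Prod.mk.eta, hpt1 p hp]
    show _ = Polynomial.eval₂ (ψ p) (ψ p q)⁻¹ (g v)
    rw [Polynomial.eval₂_eq_sum_range]
  · intro z y hz hy
    have hp : (z, y) ∈ Metric.ball (0 : ℂ × (Fin n → ℂ)) ρ := by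
      rw [Metric.mem_ball, dist_zero_right, Prod.norm_mk]
      exact max_lt hz hy
    refine ⟨fun h => ?_, fun l h => ?_, fun h => ?_, fun c h => ?_⟩
    · rw [hev, key (z, y) ⟨s, h⟩ (Polynomial.C (Polynomial.C (MvPolynomial.X none)))
        (by rw [gΦ, es]), hpt1 _ hp, gΨ, fs]
    · rw [hev, key (z, y) ⟨u l, h⟩ (Polynomial.C (Polynomial.C (MvPolynomial.X (some l))))
        (by rw [gΦ, eu]), hpt1 _ hp, gΨ, fu]
    · rw [hev, key (z, y) ⟨w, h⟩ (Polynomial.C Polynomial.X)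
        (by rw [gΦ, ew]), hpt1 _ hp, gΨ, fw]
    · rw [hev, key (z, y) ⟨algebraMap Q V c, h⟩ (Polynomial.C (Polynomial.C (MvPolynomial.C c)))
        (by rw [gΦ, ec]), hpt1 _ hp, gΨ, fc]

end Pool.Agent.Lib_KF
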