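import Pool.Agent.Lib_KF.ChEval
import Pool.Agent.Lib_KF.ChEvDer

/-! CH06: existence of analytic families. -/

namespace Pool.Agent.Lib_KF

open IsLocalRing

private abbrev ChFam_A (n : ℕ) (Q : Type) [CommRing Q] : Type :=
  Polynomial (MvPolynomial (Option (Fin n)) Q)

private theorem ChFam_ev1_C {k V : Type} [CommRing k] [CommRing V] [Algebra k V] {n : ℕ} (s : V)
    (u : Fin n → V) (w : V) (a : MvPolynomial (Option (Fin n)) k) :
    ev1 s u w (Polynomial.C a) = MvPolynomial.aeval (fun o : Option (Fin n) => o.elim s u) a := by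
  show Polynomial.eval₂ _ _ _ = _
  rw [Polynomial.eval₂_C]
  rfl

private theorem ChFam_ev1_X {k V : Type} [CommRing k] [CommRing V] [Algebra k V] {n : ℕ} (s : V)
    (u : Fin n → V) (w : V) :
    ev1 (k := k) s u w Polynomial.X = w := by
  show Polynomial.eval₂ _ _ _ = _
  rw [Polynomial.eval₂_X]

/-- the set of all coefficients -/
private def ChFam_co {n : ℕ} {k : Type} [CommRing k] (H : ChFam_A n k) : Set k :=
  ⋃ i ∈ H.support, ((H.coeff i).coeffs : Set k)

private theorem ChFam_co_finite {n : ℕ} {k : Type} [CommRing k] (H : ChFam_A n k) :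
    (ChFam_co H).Finite :=
  Set.Finite.biUnion (Finset.finite_toSet _) fun _ _ => Finset.finite_toSet _

private theorem ChFam_lifts {n : ℕ} {k : Type} [CommRing k] [Algebra ℂ k] (Q : Subalgebra ℂ k)
    (H : ChFam_A n k) (h : ChFam_co H ⊆ Q) :
    H ∈ Polynomial.lifts (MvPolynomial.map (σ := Option (Fin n)) (algebraMap Q k)) := by
  rw [Polynomial.lifts_iff_coeff_lifts]
  intro i
  rw [MvPolynomial.mem_range_map_iff_coeffs_subset]
  intro c hc
  by_cases hi : i ∈ H.support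
  · have h1 : c ∈ ChFam_co H := Set.mem_biUnion (show i ∈ (H.support : Set ℕ) from hi) hc
    exact ⟨⟨c, h h1⟩, rfl⟩
  · rw [Polynomial.notMem_support_iff.1 hi] at hc
    simp at hc

private theorem ChFam_ev1_map {n : ℕ} {k V : Type} [CommRing k] [Algebra ℂ k] [CommRing V]
    [Algebra k V] (Q : Subalgebra ℂ k) (s : V) (u : Fin n → V) (w : V) (H : ChFam_A n Q) :
    ev1 s u w (H.map (MvPolynomial.map (algebraMap Q k))) = ev1 s u w H := by
  show Polynomial.eval₂ _ _ _ = Polynomial.eval₂ _ _ _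
  rw [Polynomial.eval₂_map]
  congr 1
  refine MvPolynomial.ringHom_ext (fun c => ?_) fun o => ?_
  · show ev0 s u (MvPolynomial.map (algebraMap Q k) (MvPolynomial.C c)) =
      ev0 s u (MvPolynomial.C c)
    rw [MvPolynomial.map_C]
    show MvPolynomial.aeval _ _ = MvPolynomial.aeval _ _
    rw [MvPolynomial.aeval_C, MvPolynomial.aeval_C]
    rfl
  · show ev0 s u (MvPolynomial.map (algebraMap Q k) (MvPolynomial.X o)) =
      ev0 s u (MvPolynomial.X o)
    rw [MvPolynomial.map_X]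
    show MvPolynomial.aeval _ _ = MvPolynomial.aeval _ _
    rw [MvPolynomial.aeval_X, MvPolynomial.aeval_X]

private theorem ChFam_mem {n : ℕ} {Q V : Type} [CommRing Q] [CommRing V]
    [Algebra ℂ V] [Algebra Q V] (𝒲 : Subalgebra ℂ V) (s : V) (u : Fin n → V) (w : V)
    (hQ : ∀ c, algebraMap Q V c ∈ 𝒲) (hs : s ∈ 𝒲) (hu : ∀ l, u l ∈ 𝒲) (hw : w ∈ 𝒲)
    (H : ChFam_A n Q) : ev1 s u w H ∈ 𝒲 := by
  have h0 : ∀ a : MvPolynomial (Option (Fin n)) Q, ev1 s u w (Polynomial.C a) ∈ 𝒲 := by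
    intro a
    rw [ChFam_ev1_C]
    induction a using MvPolynomial.induction_on with
    | C c =>
      rw [MvPolynomial.aeval_C]
      exact hQ c
    | add p q hp hq =>
      rw [map_add]
      exact 𝒲.add_mem hp hq
    | mul_X p o hp =>
      rw [map_mul, MvPolynomial.aeval_X]
      refine 𝒲.mul_mem hp ?_
      cases o with
      | none => exact hs
      | some l => exact hu l
  induction H using Polynomial.induction_on' with
  | add p q hp hq =>
    rw [map_add]
    exact 𝒲.add_mem hp hq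
  | monomial m a =>
    rw [← Polynomial.C_mul_X_pow_eq_monomial, map_mul, map_pow, ChFam_ev1_X]
    exact 𝒲.mul_mem (h0 a) (𝒲.pow_mem hw m)

/-- a ring homomorphism to `ℂ` is an evaluation -/
private theorem ChFam_spec {n : ℕ} {Q : Type} [CommRing Q] [Algebra ℂ Q]
    (Θ : ChFam_A n Q →+* ℂ) (χ : Q →ₐ[ℂ] ℂ)
    (hχ : ∀ c, Θ (Polynomial.C (MvPolynomial.C c)) = χ c) (s₀ : ℂ) (u₀ : Fin n → ℂ)
    (w₀ : ℂ) (hs : Θ (Polynomial.C (MvPolynomial.X none)) = s₀)
    (hu : ∀ l, Θ (Polynomial.C (MvPolynomial.X (some l))) = u₀ l)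
    (hw : Θ Polynomial.X = w₀) (H : ChFam_A n Q) :
    Θ H = ev1 (k := ℂ) s₀ u₀ w₀ (H.map (MvPolynomial.map χ.toRingHom)) := by
  have h1 : Θ = (ev1 (k := ℂ) s₀ u₀ w₀).comp
      (Polynomial.mapRingHom (MvPolynomial.map χ.toRingHom)) := by
    refine Polynomial.ringHom_ext' (MvPolynomial.ringHom_ext (fun c => ?_) fun o => ?_) ?_
    · show Θ (Polynomial.C (MvPolynomial.C c)) = ev1 (k := ℂ) s₀ u₀ w₀
        ((Polynomial.C (MvPolynomial.C c)).map (MvPolynomial.map χ.toRingHom))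
      rw [hχ, Polynomial.map_C, MvPolynomial.map_C, ChFam_ev1_C, MvPolynomial.aeval_C]
      rfl
    · show Θ (Polynomial.C (MvPolynomial.X o)) = ev1 (k := ℂ) s₀ u₀ w₀
        ((Polynomial.C (MvPolynomial.X o)).map (MvPolynomial.map χ.toRingHom))
      rw [Polynomial.map_C, MvPolynomial.map_X, ChFam_ev1_C, MvPolynomial.aeval_X]
      cases o with
      | none => exact hs
      | some l => exact hu l
    · show Θ Polynomial.X = ev1 (k := ℂ) s₀ u₀ w₀
        (Polynomial.X.map (MvPolynomial.map χ.toRingHom))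
      rw [Polynomial.map_X, ChFam_ev1_X, hw]
  exact congrArg (fun f : ChFam_A n Q →+* ℂ => f H) h1

/-- a complex point of the spread out scheme, on the divisor `s = 0` -/
private theorem ChFam_point {n : ℕ} {Q V : Type} [CommRing Q] [Algebra ℂ Q]
    [Algebra.FiniteType ℂ Q] [CommRing V] [IsLocalRing V] [Algebra ℂ V] [Algebra Q V]
    [IsScalarTower ℂ Q V] (s : V) (u : Fin n → V) (w : V) (hs : s ∈ maximalIdeal V)
    (F₀ q : ChFam_A n Q) (hroot : ev1 s u w F₀ = 0) (hqu : IsUnit (ev1 s u w q)) :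
    ∃ (χ : Q →ₐ[ℂ] ℂ) (u₀ : Fin n → ℂ) (w₀ : ℂ),
      ev1 (k := ℂ) 0 u₀ w₀ (F₀.map (MvPolynomial.map χ.toRingHom)) = 0 ∧
      ev1 (k := ℂ) 0 u₀ w₀ (q.map (MvPolynomial.map χ.toRingHom)) ≠ 0 := by
  let Θ₀ : ChFam_A n Q →ₐ[ℂ] ResidueField V :=
    { toRingHom := (residue V).comp (ev1 s u w)
      commutes' := fun c => by
        show residue V (ev1 s u w (algebraMap ℂ (ChFam_A n Q) c)) =
          algebraMap ℂ (ResidueField V) c
        have h1 : algebraMap ℂ (ChFam_A n Q) c =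
            Polynomial.C (MvPolynomial.C (algebraMap ℂ Q c)) := rfl
        rw [h1, ChFam_ev1_C, MvPolynomial.aeval_C, ← IsScalarTower.algebraMap_apply ℂ Q V]
        rfl }
  have h1 : Algebra.FiniteType ℂ (MvPolynomial (Option (Fin n)) Q) :=
    Algebra.FiniteType.trans (inferInstance : Algebra.FiniteType ℂ Q) inferInstance
  have h2 : Algebra.FiniteType ℂ (ChFam_A n Q) :=
    Algebra.FiniteType.trans h1 inferInstance
  have hEft : Algebra.FiniteType ℂ Θ₀.range :=
    Algebra.FiniteType.of_surjective Θ₀.rangeRestrict Θ₀.rangeRestrict_surjective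
  have hqE : Θ₀.rangeRestrict q ≠ 0 := by
    intro h
    have h1 : Θ₀ q = 0 := congrArg Subtype.val h
    exact (hqu.map (residue V)).ne_zero h1
  obtain ⟨χE, hχE⟩ := exists_point Θ₀.range (Θ₀.rangeRestrict q) hqE
  let Θ : ChFam_A n Q →+* ℂ := χE.toRingHom.comp Θ₀.rangeRestrict.toRingHom
  have hΘa : ∀ H, Θ H = χE (Θ₀.rangeRestrict H) := fun H => rfl
  have hz : ∀ H, ev1 s u w H ∈ maximalIdeal V → Θ H = 0 := by
    intro H hH
    have h1 : Θ₀.rangeRestrict H = 0 := by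
      apply Subtype.ext
      show residue V (ev1 s u w H) = 0
      exact (residue_eq_zero_iff _).2 hH
    rw [hΘa]
    exact (congrArg χE h1).trans (map_zero χE)
  let χ : Q →ₐ[ℂ] ℂ :=
    { toRingHom := Θ.comp (Polynomial.C.comp MvPolynomial.C)
      commutes' := fun c => by
        show Θ (Polynomial.C (MvPolynomial.C (algebraMap ℂ Q c))) = c
        have h1 : algebraMap ℂ (ChFam_A n Q) c =
            Polynomial.C (MvPolynomial.C (algebraMap ℂ Q c)) := rfl
        rw [← h1, hΘa, AlgHom.commutes, AlgHom.commutes]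
        rfl }
  have hΘ := ChFam_spec Θ χ (fun c => rfl) 0
    (fun l => Θ (Polynomial.C (MvPolynomial.X (some l)))) (Θ Polynomial.X)
    (hz _ (by
      rw [ChFam_ev1_C, MvPolynomial.aeval_X]
      exact hs)) (fun l => rfl) rfl
  refine ⟨χ, fun l => Θ (Polynomial.C (MvPolynomial.X (some l))), Θ Polynomial.X, ?_, ?_⟩
  · rw [← hΘ]
    exact hz _ (by rw [hroot]; exact Ideal.zero_mem _)
  · rw [← hΘ]
    exact hχE

private theorem ChFam_z {A V : Type} [CommRing A] [CommRing V] (φ : A →+* V) (Z : Finset V)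
    [DecidableEq V] (p₂ : V → A) (a : A) (q' : V) (hq' : φ (a * ∏ z ∈ Z, p₂ z) * q' = 1) (z : V)
    (hz : z ∈ Z) (b : V) (h : z * φ (p₂ z) = b) :
    z = b * (φ (a * ∏ y ∈ Z.erase z, p₂ y) * q') := by
  have h1 : φ (p₂ z) * (φ (a * ∏ y ∈ Z.erase z, p₂ y) * q') = 1 := by
    rw [← hq', ← Finset.mul_prod_erase Z p₂ hz, map_mul φ a, map_mul φ a, map_mul φ (p₂ z)]
    ring
  rw [← h, mul_assoc, h1, mul_one]

/-- CH06. Every `z ∈ Z` is `p_z(w) / q_z(w)`, `q_z(w)` a unit of `V` (`hE.frac`); put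
`q = F' ∏ q_z`, `q' = q(w)⁻¹`. Let `Q ⊆ k` be the `ℂ`-subalgebra generated by `Zc` and the
(finitely many) coefficients of `F`, `p_z`, `q_z`; these polynomials come from polynomials over
`Q`, with `F₀` monic. `ker` of CH05b: if `H(s,u,w) = 0`, `H` over `Q`, then `F` divides `H` over
`k`, and the remainder of the division of `H` by the monic `F₀` over `Q` maps to the remainder over
`k`, which is zero; so it is zero (`Polynomial.map_modByMonic`, injectivity of `map`).
Point: let `E` be the `ℂ`-subalgebra of the residue field `κ` of `V` generated by the images of the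
generators of `Q` and by `ū_l`, `w̄`; `q(w)` has a non-zero residue in `E`; `exists_point` gives
`χ_E : E → ℂ` which is not zero there; `u₀ = χ_E(ū)`, `w₀ = χ_E(w̄)`, `χ = χ_E ∘ (Q → E)`.
As `s` has residue `0`, `F^χ(0, u₀, w₀) = χ_E(residue of F(s,u,w)) = 0`, and `q^χ`, `F'^χ` do not
vanish. Then CH04b, CH05b, CH05c (with `(D l).restrictScalars ℂ`); `F'(w)⁻¹` and `q_z(w)⁻¹` are
`q'` times elements of `𝒲`. -/
theorem exists_evFam {k V : Type} [Field k] [CommRing V] [IsDomain V] [IsLocalRing V]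
    [Algebra k V] [Algebra ℂ k] [Algebra ℂ V] [IsScalarTower ℂ k V] {n : ℕ} {s : V}
    {u : Fin n → V} {w : V} {F : Polynomial (MvPolynomial (Option (Fin n)) k)}
    (hE : EtaleCoord k V s u w F) (hs : s ∈ maximalIdeal V) (D : Fin n → Derivation k V V)
    (hD : DualDer k V s u D) (Z : Finset V) (Zc : Finset k) :
    Nonempty (EvFam k V s u D (Z : Set V) (Zc : Set k)) := by
  classical
  -- denominators
  choose P₁ P₂ hP₂ hP using hE.frac
  -- the coefficient ring
  set T : Set k := (Zc : Set k) ∪ (ChFam_co F ∪ ⋃ z ∈ Z, (ChFam_co (P₁ z) ∪ ChFam_co (P₂ z)))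
    with hT
  have hTf : T.Finite := by
    refine (Finset.finite_toSet Zc).union ((ChFam_co_finite F).union ?_)
    exact Set.Finite.biUnion (Finset.finite_toSet Z) fun z _ =>
      (ChFam_co_finite _).union (ChFam_co_finite _)
  set Q : Subalgebra ℂ k := Algebra.adjoin ℂ T with hQ
  have hTQ : T ⊆ Q := Algebra.subset_adjoin
  have hQfg : Algebra.FiniteType ℂ Q := by
    rw [← Subalgebra.fg_iff_finiteType]
    exact Subalgebra.fg_def.2 ⟨T, hTf, rfl⟩
  have hinj : Function.Injective (algebraMap Q k) := Subtype.val_injective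
  have : IsScalarTower ℂ Q V := by
    refine IsScalarTower.of_algebraMap_eq fun c => ?_
    rw [IsScalarTower.algebraMap_apply ℂ k V]
    rfl
  -- lifts
  obtain ⟨F₀, hF₀, -, hF₀m⟩ := Polynomial.lifts_and_natDegree_eq_and_monic
    (ChFam_lifts Q F fun c hc => hTQ (Or.inr (Or.inl hc))) hE.monic
  have hl1 : ∀ z : V, ∃ H : ChFam_A n Q, z ∈ Z →
      H.map (MvPolynomial.map (algebraMap Q k)) = P₁ z := by
    intro z
    by_cases hz : z ∈ Z
    · obtain ⟨H, hH⟩ := (Polynomial.mem_lifts _).1 (ChFam_lifts Q (P₁ z) fun c hc =>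
        hTQ (Or.inr (Or.inr (Set.mem_biUnion (show z ∈ (Z : Set V) from hz) (Or.inl hc)))))
      exact ⟨H, fun _ => hH⟩
    · exact ⟨0, fun h => absurd h hz⟩
  have hl2 : ∀ z : V, ∃ H : ChFam_A n Q, z ∈ Z →
      H.map (MvPolynomial.map (algebraMap Q k)) = P₂ z := by
    intro z
    by_cases hz : z ∈ Z
    · obtain ⟨H, hH⟩ := (Polynomial.mem_lifts _).1 (ChFam_lifts Q (P₂ z) fun c hc =>
        hTQ (Or.inr (Or.inr (Set.mem_biUnion (show z ∈ (Z : Set V) from hz) (Or.inr hc)))))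
      exact ⟨H, fun _ => hH⟩
    · exact ⟨0, fun h => absurd h hz⟩
  choose p₁ hp₁ using hl1
  choose p₂ hp₂ using hl2
  have hev : ∀ H : ChFam_A n Q, ev1 s u w (H.map (MvPolynomial.map (algebraMap Q k))) =
      ev1 s u w H := ChFam_ev1_map Q s u w
  have hroot : ev1 s u w F₀ = 0 := by rw [← hev, hF₀, hE.root]
  have hunit : IsUnit (ev1 s u w (Polynomial.derivative F₀)) := by
    rw [← hev, ← Polynomial.derivative_map, hF₀]
    exact hE.unit
  have hunit2 : ∀ z ∈ Z, IsUnit (ev1 s u w (p₂ z)) := by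
    intro z hz
    rw [← hev, hp₂ z hz]
    exact hP₂ z
  have hfrac : ∀ z ∈ Z, z * ev1 s u w (p₂ z) = ev1 s u w (p₁ z) := by
    intro z hz
    rw [← hev, ← hev, hp₂ z hz, hp₁ z hz]
    exact hP z
  have hker : ∀ H : ChFam_A n Q, ev1 s u w H = 0 → F₀ ∣ H := by
    intro H hH
    rw [← hev] at hH
    have h1 := hE.dvd _ hH
    rw [← Polynomial.modByMonic_eq_zero_iff_dvd hF₀m]
    have h2 : Function.Injective (MvPolynomial.map (σ := Option (Fin n)) (algebraMap Q k)) :=
      MvPolynomial.map_injective _ hinj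
    apply Polynomial.map_injective _ h2
    rw [Polynomial.map_modByMonic _ hF₀m, Polynomial.map_zero, hF₀,
      Polynomial.modByMonic_eq_zero_iff_dvd hE.monic]
    exact h1
  -- the denominator
  set q : ChFam_A n Q := Polynomial.derivative F₀ * ∏ z ∈ Z, p₂ z with hq
  have hqu : IsUnit (ev1 s u w q) := by
    rw [hq, map_mul, map_prod]
    refine hunit.mul ?_
    exact (Finset.prod_induction _ IsUnit (fun a b ha hb => ha.mul hb) isUnit_one
      fun z hz => hunit2 z hz)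
  obtain ⟨q', hq'⟩ := hqu.exists_right_inv
  -- the point
  obtain ⟨χ, u₀, w₀, hχF, hχq⟩ := ChFam_point s u w hs F₀ q hroot hqu
  have hχF' : ev1 (k := ℂ) 0 u₀ w₀
      ((Polynomial.derivative F₀).map (MvPolynomial.map χ.toRingHom)) ≠ 0 := by
    intro h
    apply hχq
    rw [hq, Polynomial.map_mul, map_mul, h, zero_mul]
  obtain ⟨ρ, W, hρ, -, hWan, hW⟩ := exists_implicit (F₀.map (MvPolynomial.map χ.toRingHom))
    (q.map (MvPolynomial.map χ.toRingHom)) u₀ w₀ hχF
    (by rw [Polynomial.derivative_map]; exact hχF') hχq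
  obtain ⟨𝒲, ev, h𝒲, han, hev'⟩ := exists_ev Q V χ s u w F₀ q hker q' hq' ρ hρ u₀ W hWan
    (fun p hp => (hW p hp).1) (fun p hp => (hW p hp).2.2)
  have hsub : Set.range (algebraMap Q V) ∪ insert s (insert w (insert q' (Set.range u))) ⊆
      (𝒲 : Set V) := by
    rw [h𝒲]
    exact Algebra.subset_adjoin
  have mQ : ∀ c : Q, algebraMap Q V c ∈ 𝒲 := fun c => hsub (Or.inl ⟨c, rfl⟩)
  have ms : s ∈ 𝒲 := hsub (Or.inr (Or.inl rfl))
  have mw : w ∈ 𝒲 := hsub (Or.inr (Or.inr (Or.inl rfl)))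
  have mq' : q' ∈ 𝒲 := hsub (Or.inr (Or.inr (Or.inr (Or.inl rfl))))
  have mu : ∀ l, u l ∈ 𝒲 := fun l => hsub (Or.inr (Or.inr (Or.inr (Or.inr ⟨l, rfl⟩))))
  have mev : ∀ H : ChFam_A n Q, ev1 s u w H ∈ 𝒲 := ChFam_mem 𝒲 s u w mQ ms mu mw
  have hF'1 : ev1 s u w (Polynomial.derivative F₀) *
      (ev1 s u w (∏ z ∈ Z, p₂ z) * q') = 1 := by
    rw [← mul_assoc, ← map_mul]
    exact hq'
  obtain ⟨hD', hder⟩ := ev_der Q V χ s u w F₀ q hroot q' hq' _ hF'1 ρ u₀ W hWan
    (fun p hp => (hW p hp).1) 𝒲 h𝒲 (𝒲.mul_mem (mev _) mq') ev han hev'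
    (fun l => (D l).restrictScalars ℂ)
    (fun l c => (D l).map_algebraMap (algebraMap Q k c)) (fun l => hD.der_s l)
    (fun l j => hD.der_u l j)
  have hZ𝒲 : ∀ z ∈ (Z : Set V), z ∈ 𝒲 := by
    intro z hz
    have hz' : z ∈ Z := hz
    rw [ChFam_z (ev1 s u w) Z p₂ (Polynomial.derivative F₀) q' hq' z hz' _ (hfrac z hz')]
    exact 𝒲.mul_mem (mev _) (𝒲.mul_mem (mev _) mq')
  have hc𝒲 : ∀ c ∈ (Zc : Set k), algebraMap k V c ∈ 𝒲 := fun c hc =>
    mQ ⟨c, hTQ (Or.inl hc)⟩
  exact ⟨{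
    𝒲 := 𝒲
    hs := ms
    hu := mu
    hZ := hZ𝒲
    hc := hc𝒲
    hD := hD'
    ρ := ρ
    ρ_pos := hρ
    u₀ := u₀
    ev := ev
    an := han
    ev_s := fun z y hz hy => (hev' z y hz hy).1 ms
    ev_u := fun z y hz hy l => (hev' z y hz hy).2.1 l (mu l)
    ev_c := fun c hc z y hz hy => by
      have h1 := (hev' z y hz hy).2.2.2 ⟨c, hTQ (Or.inl hc)⟩ (hc𝒲 c hc)
      have h2 := (hev' 0 0 (by simpa using hρ) (by simpa using hρ)).2.2.2
        ⟨c, hTQ (Or.inl hc)⟩ (hc𝒲 c hc)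
      exact h1.trans h2.symm
    ev_D := hder }⟩

end Pool.Agent.Lib_KF
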