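import Pool.Agent.Lib_KF.ChCoord

/-! CH07: the valuation ring of an arc. -/

open PowerSeries

namespace Pool.Agent.Lib_KF

open Pool.Agent.Lib_GD

variable {k L : Type} [Field k] [Field L] [Algebra k L]

private theorem ChFrac_mem_iff (A : Subalgebra k L⟦X⟧) (f : L⟦X⟧) :
    f ∈ fracRing A ↔ ∃ a ∈ A, ∃ b ∈ A, b ≠ 0 ∧ f * b = a := Iff.rfl

/-- CH07a. `fracRing A` is a discrete valuation ring with uniformiser `X`: a non-zero `f` of it is
`X ^ m * v`, `v = f / X ^ m` again a fraction of elements of `A`, with non-zero constant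
coefficient, and the inverse (in `L⟦X⟧`) of such a `v` is in `fracRing A`. -/
theorem isUnit_fracRing (A : Subalgebra k L⟦X⟧) (f : fracRing A) :
    IsUnit f ↔ constantCoeff f.1 ≠ 0 := by
  constructor
  · intro h
    have h1 : IsUnit f.1 := h.map (fracRing A).val
    exact (h1.map (constantCoeff (R := L))).ne_zero
  · intro h
    have h1 : f.1 * (f.1)⁻¹ = 1 := PowerSeries.mul_inv_cancel _ h
    obtain ⟨a, ha, b, hb, hb0, hab⟩ := (ChFrac_mem_iff A f.1).1 f.2
    have hf0 : f.1 ≠ 0 := by
      intro h0
      rw [h0, map_zero] at h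
      exact h rfl
    have hmem : (f.1)⁻¹ ∈ fracRing A := by
      rw [ChFrac_mem_iff]
      refine ⟨b, hb, a, ha, ?_, ?_⟩
      · rw [← hab]
        exact mul_ne_zero hf0 hb0
      · rw [← hab, ← mul_assoc, mul_comm _ f.1, h1, one_mul]
    exact IsUnit.of_mul_eq_one ⟨(f.1)⁻¹, hmem⟩ (Subtype.ext h1)

theorem exists_eq_X_pow_mul (A : Subalgebra k L⟦X⟧) (hX : (X : L⟦X⟧) ∈ A) (f : fracRing A)
    (hf : f ≠ 0) : ∃ (m : ℕ) (v : fracRing A), IsUnit v ∧ f.1.order = m ∧
      f = (⟨X, le_fracRing A hX⟩ : fracRing A) ^ m * v := by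
  have hf0 : f.1 ≠ 0 := fun h => hf (Subtype.ext h)
  obtain ⟨a, ha, b, hb, hb0, hab⟩ := (ChFrac_mem_iff A f.1).1 f.2
  have h1 : (X : L⟦X⟧) ^ f.1.order.toNat * divXPowOrder f.1 = f.1 := X_pow_order_mul_divXPowOrder
  have hmem : divXPowOrder f.1 ∈ fracRing A := by
    rw [ChFrac_mem_iff]
    refine ⟨a, ha, X ^ f.1.order.toNat * b, A.mul_mem (A.pow_mem hX _) hb,
      mul_ne_zero (pow_ne_zero _ X_ne_zero) hb0, ?_⟩
    rw [← hab]
    nth_rewrite 3 [← h1]
    ring
  refine ⟨f.1.order.toNat, ⟨divXPowOrder f.1, hmem⟩, ?_, (coe_toNat_order hf0).symm, ?_⟩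
  · rw [isUnit_fracRing]
    exact fun h => hf0 (constantCoeff_divXPowOrder_eq_zero_iff.1 h)
  · exact Subtype.ext h1.symm

theorem fracRing_isDVR (A : Subalgebra k L⟦X⟧) (hX : (X : L⟦X⟧) ∈ A) :
    IsDiscreteValuationRing (fracRing A) ∧ Irreducible (⟨X, le_fracRing A hX⟩ : fracRing A) := by
  have hirr : Irreducible (⟨X, le_fracRing A hX⟩ : fracRing A) := by
    constructor
    · rw [isUnit_fracRing]
      simp
    · intro a b hab
      by_contra hcon
      push Not at hcon
      have ha := hcon.1
      have hb := hcon.2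
      rw [isUnit_fracRing, not_not] at ha hb
      have h1 : (X : L⟦X⟧) = a.1 * b.1 := congrArg Subtype.val hab
      have h2 := congrArg (coeff 1) h1
      rw [coeff_one_X, coeff_mul] at h2
      rw [Finset.Nat.antidiagonal_succ] at h2
      simp [ha, hb] at h2
  refine ⟨?_, hirr⟩
  apply IsDiscreteValuationRing.ofHasUnitMulPowIrreducibleFactorization
  refine ⟨_, hirr, ?_⟩
  intro f hf
  obtain ⟨m, v, hv, -, hfv⟩ := exists_eq_X_pow_mul A hX f hf
  exact ⟨m, hv.unit, hfv.symm⟩

/-- CH07b. Residues are constant coefficients. -/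
theorem residue_indep (A : Subalgebra k L⟦X⟧) [IsLocalRing (fracRing A)] {n : ℕ}
    (u : Fin n → fracRing A)
    (hu : AlgebraicIndependent k (fun l => constantCoeff (u l).1)) :
    AlgebraicIndependent k (fun l => IsLocalRing.residue (fracRing A) (u l)) := by
  let c : fracRing A →+* L := (constantCoeff (R := L)).comp (fracRing A).val.toRingHom
  have hc : IsLocalHom c := ⟨fun f hf => (isUnit_fracRing A f).2 hf.ne_zero⟩
  let φ : IsLocalRing.ResidueField (fracRing A) →ₐ[k] L :=
    { IsLocalRing.ResidueField.lift c with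
      commutes' := fun r => by
        change IsLocalRing.ResidueField.lift c
          (IsLocalRing.residue (fracRing A) (algebraMap k (fracRing A) r)) = _
        rw [IsLocalRing.ResidueField.lift_residue_apply]
        change constantCoeff (algebraMap k L⟦X⟧ r) = _
        rw [PowerSeries.algebraMap_apply, PowerSeries.constantCoeff_C] }
  refine AlgebraicIndependent.of_comp φ ?_
  exact hu

private theorem ChFrac_mono {A B : Subalgebra k L⟦X⟧} (h : A ≤ B) : fracRing A ≤ fracRing B := by
  rintro f ⟨a, ha, b, hb, hb0, e⟩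
  exact ⟨a, h ha, b, h hb, hb0, e⟩

/-- Elements of `fracRing A` are algebraic over a subring over which `A` is algebraic. -/
private theorem ChFrac_alg (P A : Subalgebra k L⟦X⟧)
    (halg : ∀ a ∈ A, IsAlgebraic P a) (f : L⟦X⟧) (hf : f ∈ fracRing A) : IsAlgebraic P f := by
  obtain ⟨a, ha, b, hb, hb0, hab⟩ := hf
  have hinj : Function.Injective (algebraMap L⟦X⟧ (FractionRing L⟦X⟧)) :=
    IsFractionRing.injective _ _
  rw [← isAlgebraic_algebraMap_iff (A := FractionRing L⟦X⟧) hinj]
  have h1 : IsAlgebraic P (algebraMap L⟦X⟧ (FractionRing L⟦X⟧) a) :=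
    (isAlgebraic_algebraMap_iff hinj).2 (halg a ha)
  have h2 : IsAlgebraic P (algebraMap L⟦X⟧ (FractionRing L⟦X⟧) b) :=
    (isAlgebraic_algebraMap_iff hinj).2 (halg b hb)
  have h3 : algebraMap L⟦X⟧ (FractionRing L⟦X⟧) f =
      algebraMap L⟦X⟧ (FractionRing L⟦X⟧) a * (algebraMap L⟦X⟧ (FractionRing L⟦X⟧) b)⁻¹ := by
    rw [← hab, map_mul, mul_inv_cancel_right₀]
    exact fun h => hb0 (hinj (by rw [h, map_zero]))
  rw [h3]
  exact h1.mul h2.inv

/-- If every element of `V` is a fraction of elements of `A`, then the fraction field of `V` is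
essentially of finite type. -/
private theorem ChFrac_ess {k A V : Type} [Field k] [CommRing A] [IsDomain A] [CommRing V]
    [IsDomain V] [Algebra k A] [Algebra k V] [Algebra.FiniteType k A] (ι : A →ₐ[k] V)
    (hι : Function.Injective ι) (key : ∀ f : V, ∃ a b : A, b ≠ 0 ∧ f * ι b = ι a)
    (K : Type) [Field K] [Algebra V K] [IsFractionRing V K] [Algebra k K] [IsScalarTower k V K] :
    Algebra.EssFiniteType k K := by
  let : Algebra A K := ((algebraMap V K).comp ι.toRingHom).toAlgebra
  have hAK : ∀ a : A, algebraMap A K a = algebraMap V K (ι a) := fun _ => rfl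
  have : IsScalarTower k A K := by
    refine IsScalarTower.of_algebraMap_eq fun x => ?_
    rw [hAK, ι.commutes]
    exact IsScalarTower.algebraMap_apply k V K x
  have hinjV : Function.Injective (algebraMap V K) := IsFractionRing.injective _ _
  have hinj : Function.Injective (algebraMap A K) := by
    intro a b h
    rw [hAK, hAK] at h
    exact hι (hinjV h)
  have : FaithfulSMul A K := (faithfulSMul_iff_algebraMap_injective _ _).2 hinj
  have : IsFractionRing A K := by
    refine IsFractionRing.of_field A K ?_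
    intro z
    obtain ⟨f, g, hg, rfl⟩ := IsFractionRing.div_surjective (A := V) z
    have hg0 : g ≠ 0 := nonZeroDivisors.ne_zero hg
    obtain ⟨a, b, hb, h1⟩ := key f
    obtain ⟨a', b', hb', h2⟩ := key g
    have hbK : algebraMap V K (ι b) ≠ 0 := fun h => hb (hι (hinjV (by rw [h, map_zero, map_zero])))
    have hbK' : algebraMap V K (ι b') ≠ 0 :=
      fun h => hb' (hι (hinjV (by rw [h, map_zero, map_zero])))
    have hgK : algebraMap V K g ≠ 0 := fun h => hg0 (hinjV (by rw [h, map_zero]))
    refine ⟨a * b', b * a', ?_⟩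
    rw [hAK, hAK, map_mul ι, map_mul ι, ← h1, ← h2]
    simp only [map_mul]
    field_simp
  have : Algebra.EssFiniteType A K :=
    Algebra.EssFiniteType.of_isLocalization K (nonZeroDivisors A)
  exact Algebra.EssFiniteType.comp k A K

/-- CH07c. Transcendence degree and finite generation. `≤`: `fracRing A` is algebraic over `A`, `A`
over `polyRing k y`, which has `n + 1` generators. `≥`: `X, u_l` are algebraically independent
(CH02b, CH07b). The fraction field of `fracRing A` is the fraction field of `A`, so it is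
essentially of finite type (`Algebra.EssFiniteType.comp k A _`, localisation). -/
theorem trdeg_fracRing [CharZero k] {n : ℕ} (y : Fin n → L⟦X⟧) (A : Subalgebra k L⟦X⟧)
    (hA : polyRing k y ≤ A) (hfg : A.FG) (halg : ∀ a ∈ A, IsAlgebraic (polyRing k y) a)
    (u : Fin n → L⟦X⟧) (hu : ∀ l, u l ∈ fracRing (polyRing k y))
    (hind : AlgebraicIndependent k (fun l => constantCoeff (u l))) :
    Algebra.trdeg k (fracRing A) = (n + 1 : ℕ) ∧
      Algebra.EssFiniteType k (FractionRing (fracRing A)) := by
  classical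
  have hXP : (X : L⟦X⟧) ∈ polyRing k y := Algebra.subset_adjoin (Set.mem_insert _ _)
  have hyP : ∀ l, y l ∈ polyRing k y := fun l =>
    Algebra.subset_adjoin (Set.mem_insert_of_mem _ ⟨l, rfl⟩)
  have hX : (X : L⟦X⟧) ∈ A := hA hXP
  obtain ⟨hdvr, hirr⟩ := fracRing_isDVR A hX
  constructor
  · apply le_antisymm
    · -- the generators
      let g : Option (Fin n) → fracRing A := fun o =>
        o.elim ⟨X, le_fracRing A hX⟩ (fun l => ⟨y l, le_fracRing A (hA (hyP l))⟩)
      have hmap : (Algebra.adjoin k (Set.range g)).map (fracRing A).val = polyRing k y := by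
        rw [AlgHom.map_adjoin, polyRing, ← Set.range_comp]
        congr 1
        ext z
        constructor
        · rintro ⟨o, rfl⟩
          rcases o with _ | l
          · exact Set.mem_insert _ _
          · exact Set.mem_insert_of_mem _ ⟨l, rfl⟩
        · rintro (rfl | ⟨l, rfl⟩)
          · exact ⟨none, rfl⟩
          · exact ⟨some l, rfl⟩
      have hP : ∀ z : Algebra.adjoin k (Set.range g), (z : fracRing A).1 ∈ polyRing k y := by
        intro z
        rw [← hmap]
        exact ⟨_, z.2, rfl⟩
      let φ : Algebra.adjoin k (Set.range g) →+* polyRing k y :=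
        { toFun := fun z => ⟨(z : fracRing A).1, hP z⟩
          map_one' := rfl
          map_mul' := fun _ _ => rfl
          map_zero' := rfl
          map_add' := fun _ _ => rfl }
      have hφ : Function.Surjective φ := by
        rintro ⟨z, hz⟩
        rw [← hmap] at hz
        obtain ⟨w, hw, hwz⟩ := hz
        exact ⟨⟨w, hw⟩, Subtype.ext hwz⟩
      have hA' : Algebra.IsAlgebraic (Algebra.adjoin k (Set.range g)) (fracRing A) := by
        refine ⟨fun f => ?_⟩
        refine IsAlgebraic.of_ringHom_of_comp_eq φ (fracRing A).val.toRingHom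
          (ChFrac_alg (polyRing k y) A halg f.1 f.2) hφ Subtype.val_injective ?_
        ext z
        rfl
      obtain ⟨t, ht, htb⟩ := exists_isTranscendenceBasis_subset (R := k) (Set.range g)
      rw [← htb.cardinalMk_eq_trdeg]
      refine (Cardinal.mk_le_mk_of_subset ht).trans ?_
      refine Cardinal.mk_range_le.trans ?_
      simp
    · have hres := residue_indep A (fun l => (⟨u l, ChFrac_mono hA (hu l)⟩ : fracRing A)) hind
      have h1 := algebraicIndependent_option k (fracRing A) n _ hirr _ hres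
      have h2 := h1.cardinalMk_le_trdeg
      refine le_trans (le_of_eq ?_) h2
      simp
  · have hft : Algebra.FiniteType k A := ⟨(Subalgebra.fg_top A).2 hfg⟩
    refine ChFrac_ess (Subalgebra.inclusion (le_fracRing A)) (Subalgebra.inclusion_injective _)
      ?_ (FractionRing (fracRing A))
    intro f
    obtain ⟨a, ha, b, hb, hb0, hab⟩ := (ChFrac_mem_iff A f.1).1 f.2
    exact ⟨⟨a, ha⟩, ⟨b, hb⟩, fun h => hb0 (congrArg Subtype.val h), Subtype.ext hab⟩

theorem fracRing_mono {A B : Subalgebra k L⟦X⟧} (h : A ≤ B) : fracRing A ≤ fracRing B := by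
  rintro f ⟨a, ha, b, hb, hb0, e⟩
  exact ⟨a, h ha, b, h hb, hb0, e⟩

end Pool.Agent.Lib_KF
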