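import Pool.Agent.Lib_KF.ChDefs

/-! CH04: the implicit function theorem for polynomials. -/

namespace Pool.Agent.Lib_KF

open scoped Topology ContDiff

section ChImpl

variable {E : Type*} [NormedAddCommGroup E] [NormedSpace ℂ E]

private theorem ChImpl_ev1_eq {n : ℕ} (s : ℂ) (u : Fin n → ℂ) (w : ℂ)
    (H : Polynomial (MvPolynomial (Option (Fin n)) ℂ)) :
    ev1 (k := ℂ) s u w H = (H.map (ev0 (k := ℂ) s u).toRingHom).eval w := by
  rw [Polynomial.eval_map]
  rfl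

private theorem ChImpl_ev0_analytic {n : ℕ} {s : E → ℂ} {u : E → Fin n → ℂ} {x : E}
    (hs : AnalyticAt ℂ s x) (hu : AnalyticAt ℂ u x) (H : MvPolynomial (Option (Fin n)) ℂ) :
    AnalyticAt ℂ (fun y => ev0 (k := ℂ) (s y) (u y) H) x := by
  induction H using MvPolynomial.induction_on with
  | C a =>
    have : (fun y => ev0 (k := ℂ) (s y) (u y) (MvPolynomial.C a)) = fun _ => a := by
      funext y
      simp [ev0]
    rw [this]
    exact analyticAt_const
  | add p q hp hq =>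
    simp only [map_add]
    exact hp.add hq
  | mul_X p o hp =>
    simp only [map_mul]
    refine hp.mul ?_
    rcases o with _ | l
    · have : (fun y => ev0 (k := ℂ) (s y) (u y) (MvPolynomial.X none)) = s := by
        funext y
        simp [ev0]
      rw [this]
      exact hs
    · have : (fun y => ev0 (k := ℂ) (s y) (u y) (MvPolynomial.X (some l))) = fun y => u y l := by
        funext y
        simp [ev0]
      rw [this]
      exact (ContinuousLinearMap.proj (R := ℂ) (φ := fun _ : Fin n => ℂ) l).analyticAt _ |>.comp hu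

private theorem ChImpl_ev1_analytic {n : ℕ} {s : E → ℂ} {u : E → Fin n → ℂ} {w : E → ℂ} {x : E}
    (hs : AnalyticAt ℂ s x) (hu : AnalyticAt ℂ u x) (hw : AnalyticAt ℂ w x)
    (H : Polynomial (MvPolynomial (Option (Fin n)) ℂ)) :
    AnalyticAt ℂ (fun y => ev1 (k := ℂ) (s y) (u y) (w y) H) x := by
  induction H using Polynomial.induction_on' with
  | add p q hp hq =>
    simp only [map_add]
    exact hp.add hq
  | monomial m a =>
    have : (fun y => ev1 (k := ℂ) (s y) (u y) (w y) (Polynomial.monomial m a)) =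
        fun y => ev0 (k := ℂ) (s y) (u y) a * w y ^ m := by
      funext y
      simp [ev1]
    rw [this]
    exact (ChImpl_ev0_analytic hs hu a).mul (hw.pow m)

end ChImpl

/-- CH04a. Substituting analytic functions in a polynomial gives an analytic function. (Both `s`
and `u` are coordinates, `W` is analytic; induction on the polynomial.) -/
theorem analyticOnNhd_ev1 {n : ℕ} (u₀ : Fin n → ℂ) (W : ℂ × (Fin n → ℂ) → ℂ) (S : Set (ℂ × (Fin n → ℂ)))
    (hW : AnalyticOnNhd ℂ W S) (H : Polynomial (MvPolynomial (Option (Fin n)) ℂ)) :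
    AnalyticOnNhd ℂ (fun p : ℂ × (Fin n → ℂ) => ev1 (k := ℂ) p.1 (u₀ + p.2) (W p) H) S := by
  intro x hx
  exact ChImpl_ev1_analytic analyticAt_fst (analyticAt_const.add analyticAt_snd) (hW x hx) H

/-- CH04b. Implicit function theorem: `F(0, u₀, w₀) = 0`, `∂F/∂w (0, u₀, w₀) ≠ 0`; there is an
analytic function `W` near `0` with `F(s, u₀ + u, W(s, u)) = 0`, `W(0) = w₀`. Apply the inverse
function theorem to `(s, u, w) ↦ (s, u, F(s, u₀ + u, w₀ + w))` (analytic; e.g.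
`ContDiffAt.toOpenPartialHomeomorph` and `ContDiffAt.to_localInverse` with `n = ω`, or
`n = ∞` and `DifferentiableOn.analyticOnNhd`), then shrink the ball so that `F'` and `q` do not
vanish. -/
theorem exists_implicit {n : ℕ} (F q : Polynomial (MvPolynomial (Option (Fin n)) ℂ))
    (u₀ : Fin n → ℂ) (w₀ : ℂ) (hF : ev1 (k := ℂ) (0 : ℂ) u₀ w₀ F = 0)
    (hF' : ev1 (k := ℂ) (0 : ℂ) u₀ w₀ (Polynomial.derivative F) ≠ 0)
    (hq : ev1 (k := ℂ) (0 : ℂ) u₀ w₀ q ≠ 0) :
    ∃ (ρ : ℝ) (W : ℂ × (Fin n → ℂ) → ℂ), 0 < ρ ∧ W 0 = w₀ ∧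
      AnalyticOnNhd ℂ W (Metric.ball 0 ρ) ∧
      ∀ p ∈ Metric.ball (0 : ℂ × (Fin n → ℂ)) ρ,
        ev1 (k := ℂ) p.1 (u₀ + p.2) (W p) F = 0 ∧
        ev1 (k := ℂ) p.1 (u₀ + p.2) (W p) (Polynomial.derivative F) ≠ 0 ∧
        ev1 (k := ℂ) p.1 (u₀ + p.2) (W p) q ≠ 0 := by
  classical
  let f : (ℂ × (Fin n → ℂ)) × ℂ → ℂ := fun x => ev1 (k := ℂ) x.1.1 (u₀ + x.1.2) x.2 F
  let x₀ : (ℂ × (Fin n → ℂ)) × ℂ := (0, w₀)
  have hfa : AnalyticAt ℂ f x₀ :=
    ChImpl_ev1_analytic (s := fun x : (ℂ × (Fin n → ℂ)) × ℂ => x.1.1)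
      (u := fun x : (ℂ × (Fin n → ℂ)) × ℂ => u₀ + x.1.2)
      (w := fun x : (ℂ × (Fin n → ℂ)) × ℂ => x.2)
      (analyticAt_fst.comp analyticAt_fst)
      (analyticAt_const.add (analyticAt_snd.comp analyticAt_fst)) analyticAt_snd F
  have hfx : f x₀ = 0 := by simpa [f, x₀] using hF
  have cdf : ContDiffAt ℂ ω f x₀ := hfa.contDiffAt
  have hd : HasDerivAt (fun w : ℂ => f (0, w))
      (ev1 (k := ℂ) (0 : ℂ) u₀ w₀ (Polynomial.derivative F)) w₀ := by
    have h1 : (fun w : ℂ => f (0, w)) =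
        fun w => (F.map (ev0 (k := ℂ) (0 : ℂ) u₀).toRingHom).eval w := by
      funext w
      simp only [f, Prod.fst_zero, Prod.snd_zero, add_zero]
      exact ChImpl_ev1_eq _ _ _ _
    rw [h1, ChImpl_ev1_eq, ← Polynomial.derivative_map]
    exact Polynomial.hasDerivAt _ _
  have if₂ : (fderiv ℂ f x₀ ∘L .inr ℂ (ℂ × (Fin n → ℂ)) ℂ).IsInvertible := by
    have hc : HasFDerivAt (fun w : ℂ => f (0, w))
        (fderiv ℂ f x₀ ∘L .inr ℂ (ℂ × (Fin n → ℂ)) ℂ) w₀ := by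
      have h1 : HasFDerivAt f (fderiv ℂ f x₀) (0, w₀) := hfa.differentiableAt.hasFDerivAt
      have h2 : HasFDerivAt (fun w : ℂ => ((0 : ℂ × (Fin n → ℂ)), w))
          (.inr ℂ (ℂ × (Fin n → ℂ)) ℂ) w₀ := hasFDerivAt_prodMk_right _ _
      exact h1.comp w₀ h2
    have he := hc.hasDerivAt.unique hd
    refine ⟨ContinuousLinearEquiv.unitsEquivAut ℂ (Units.mk0 _ hF'), ?_⟩
    ext
    simp only [ContinuousLinearMap.coe_comp, Function.comp_apply] at he ⊢
    simpa using he.symm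
  set W := cdf.implicitFunction (by simp) if₂ with hWdef
  have hW0 : W 0 = w₀ := cdf.implicitFunction_apply_self (by simp) if₂
  have hWev : ∀ᶠ p in 𝓝 (0 : ℂ × (Fin n → ℂ)), f (p, W p) = f x₀ :=
    cdf.eventually_apply_implicitFunction (by simp) if₂
  have hWa : AnalyticAt ℂ W 0 := by
    exact (cdf.contDiffAt_implicitFunction (by simp) if₂).analyticAt
  have hne : ∀ H : Polynomial (MvPolynomial (Option (Fin n)) ℂ),
      ev1 (k := ℂ) (0 : ℂ) u₀ w₀ H ≠ 0 →
      ∀ᶠ p in 𝓝 (0 : ℂ × (Fin n → ℂ)), ev1 (k := ℂ) p.1 (u₀ + p.2) (W p) H ≠ 0 := by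
    intro H hH
    have h1 : AnalyticAt ℂ (fun p : ℂ × (Fin n → ℂ) => ev1 (k := ℂ) p.1 (u₀ + p.2) (W p) H) 0 :=
      ChImpl_ev1_analytic analyticAt_fst (analyticAt_const.add analyticAt_snd) hWa H
    have h2 : (fun p : ℂ × (Fin n → ℂ) => ev1 (k := ℂ) p.1 (u₀ + p.2) (W p) H) 0 ≠ 0 := by
      simpa [hW0] using hH
    exact h1.continuousAt.eventually_ne h2
  obtain ⟨ρ, hρ, hball⟩ := Metric.eventually_nhds_iff_ball.1
    ((hWev.and (hWa.eventually_analyticAt)).and ((hne _ hF').and (hne _ hq)))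
  refine ⟨ρ, W, hρ, hW0, fun x hx => (hball x hx).1.2, fun p hp => ?_⟩
  obtain ⟨⟨h1, -⟩, h2, h3⟩ := hball p hp
  refine ⟨?_, h2, h3⟩
  rw [hfx] at h1
  exact h1

end Pool.Agent.Lib_KF
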