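import Pool.Agent.Lib_KF.ChSetup
import Pool.Agent.Lib_KF.ChNorm
import Pool.Agent.Lib_KF.ChCoordEq
import Pool.Agent.Lib_KF.ChBuild

/-! CH12: from an arc over a field with derivations to an analytic family. -/

open PowerSeries

namespace Pool.Agent.Lib_KF

open Pool.Agent.Lib_GD

/-- A power series which is a polynomial with coefficients in `k`. -/
private theorem ChMain_poly {k L : Type} [Field k] [Field L] [Algebra k L] {B : ℕ}
    (f : L⟦X⟧) (c : Fin (B + 1) → k) (hc : ∀ j : Fin (B + 1), algebraMap k L (c j) = coeff (j : ℕ) f)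
    (hf : ∀ j, B < j → coeff j f = 0) :
    f = ∑ j : Fin (B + 1), algebraMap k L⟦X⟧ (c j) * (X : L⟦X⟧) ^ (j : ℕ) := by
  ext m
  rw [map_sum]
  have h1 : ∀ j : Fin (B + 1), coeff m (algebraMap k L⟦X⟧ (c j) * (X : L⟦X⟧) ^ (j : ℕ)) =
      if m = j then coeff (j : ℕ) f else 0 := by
    intro j
    have h2 : algebraMap k L⟦X⟧ (c j) = C (algebraMap k L (c j)) :=
      PowerSeries.algebraMap_apply
    rw [h2, coeff_C_mul, coeff_X_pow, hc]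
    split_ifs <;> simp
  rw [Finset.sum_congr rfl fun j _ => h1 j]
  by_cases hm : m < B + 1
  · rw [Finset.sum_eq_single (⟨m, hm⟩ : Fin (B + 1))]
    · simp
    · intro j _ hj
      rw [if_neg]
      intro h
      exact hj (Fin.ext h.symm)
    · intro h; exact absurd (Finset.mem_univ _) h
  · rw [hf m (by omega), Finset.sum_eq_zero]
    intro j _
    rw [if_neg]
    intro h
    have := j.2
    omega

private theorem ChMain_alg {k L : Type} [Field k] [Algebra ℂ k] [Field L] [Algebra ℂ L]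
    [Algebra k L] [IsScalarTower ℂ k L] {n : ℕ} (y y' : Fin n → L⟦X⟧) (hy : y' = y) (f : L⟦X⟧)
    (h : IsAlgebraic (Algebra.adjoin ℂ (Set.range y')) f) : IsAlgebraic (polyRing k y) f := by
  subst hy
  have hincl : ∀ z ∈ Algebra.adjoin ℂ (Set.range y'), z ∈ polyRing k y' := by
    intro z hz
    induction hz using Algebra.adjoin_induction with
    | mem z hz => exact Algebra.subset_adjoin (Set.mem_insert_of_mem _ hz)
    | algebraMap c =>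
      rw [IsScalarTower.algebraMap_apply ℂ k L⟦X⟧]
      exact Subalgebra.algebraMap_mem _ _
    | add z z' _ _ h1 h2 => exact Subalgebra.add_mem _ h1 h2
    | mul z z' _ _ h1 h2 => exact Subalgebra.mul_mem _ h1 h2
  let ι : Algebra.adjoin ℂ (Set.range y') →+* polyRing k y' :=
    ((Algebra.adjoin ℂ (Set.range y')).val.toRingHom).codRestrict (polyRing k y').toSubring
      (fun z => hincl z.1 z.2)
  have hcomp : (algebraMap (polyRing k y') L⟦X⟧).comp ι =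
      algebraMap (Algebra.adjoin ℂ (Set.range y')) L⟦X⟧ := RingHom.ext fun z => rfl
  have hι : Function.Injective ι := by
    intro z z' hz
    have h1 := congrArg (algebraMap (polyRing k y') L⟦X⟧) hz
    rw [← RingHom.comp_apply, ← RingHom.comp_apply, hcomp] at h1
    exact Subtype.ext h1
  obtain ⟨p, hp0, hp⟩ := h
  refine ⟨p.map ι, (Polynomial.map_ne_zero_iff hι).2 hp0, ?_⟩
  rw [Polynomial.aeval_def, Polynomial.eval₂_map, hcomp, ← Polynomial.aeval_def]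
  exact hp

/-- CH12c, part 1. The data on the valuation ring. -/
private theorem ChMain_setup {R : Type} [CommRing R] [Algebra ℂ R] {𝒜 : ℕ → Submodule ℂ R}
    [GradedAlgebra 𝒜] {n r d : ℕ} {x : Fin (n + 1) → R} {G : R} (h : IsFano 𝒜 n r d x G)
    {k L : Type} [Field k] [CharZero k] [Algebra ℂ k] [Field L] [Algebra ℂ L] [Algebra k L]
    [IsScalarTower ℂ k L] (Δ : Set (Derivation ℂ L L))
    (hΔk : ∀ δ ∈ Δ, ∀ t : k, δ (algebraMap k L t) = 0) (φ : R →ₐ[ℂ] L⟦X⟧)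
    (a : Fin (n + 1)) (η' : L⟦X⟧) (ha : φ (x a) * η' = 1)
    (Ξ : Submodule L⟦X⟧ (Fin n → L⟦X⟧)) (hΞ : FinColen Ξ)
    (hΞΔ : ∀ v ∈ Ξ, ∃ δ ∈ Δ, ∀ l, hat δ (φ (x (a.succAbove l)) * η') = v l) (hG : G ≠ 0) :
    ∃ (ω η₀ : L⟦X⟧) (φ₀ : R →ₐ[ℂ] L⟦X⟧) (S : Finset R) (A : Subalgebra k L⟦X⟧)
      (hX : (X : L⟦X⟧) ∈ A), IsUnit ω ∧ (∀ j, ∀ f ∈ 𝒜 j, φ₀ f = ω ^ j * φ f) ∧
      φ₀ (x a) * η₀ = 1 ∧ (∀ l, φ₀ (x (a.succAbove l)) * η₀ = φ (x (a.succAbove l)) * η') ∧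
      Algebra.adjoin ℂ (S : Set R) = ⊤ ∧ (∀ f, φ₀ f ∈ A) ∧
      polyRing k (fun l => φ (x (a.succAbove l)) * η') ≤ A ∧ φ₀ G ≠ 0 ∧
      IsDiscreteValuationRing (fracRing A) ∧
      Irreducible (⟨X, le_fracRing A hX⟩ : fracRing A) ∧
      ∃ (u : Fin n → fracRing A) (D : Fin n → Derivation k (fracRing A) (fracRing A))
        (w : fracRing A) (F : Polynomial (MvPolynomial (Option (Fin n)) k)),
        (∀ l, (u l).1 ∈ fracRing (polyRing k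
          (fun l => φ (x (a.succAbove l)) * η'))) ∧
        DualDer k (fracRing A) ⟨X, le_fracRing A hX⟩ u D ∧
        EtaleCoord k (fracRing A) ⟨X, le_fracRing A hX⟩ u w F := by
  classical
  obtain ⟨k₀, f₀, f₁, ω, φ₀, hω, hf₀, hf₁, hφ₀, hf01, hf0u⟩ :=
    exists_normalised h φ a (IsUnit.of_mul_eq_one _ ha)
  obtain ⟨ω', hω'⟩ := hω.exists_right_inv
  set y : Fin n → L⟦X⟧ := fun l => φ (x (a.succAbove l)) * η' with hy
  have hx₀ : ∀ b, φ₀ (x b) = ω ^ d * φ (x b) := fun b => hφ₀ d _ (h.x_mem b)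
  have hωd : ω ^ d * ω' ^ d = 1 := by rw [← mul_pow, hω', one_pow]
  have ha₀ : φ₀ (x a) * (ω' ^ d * η') = 1 := by
    rw [hx₀]
    calc ω ^ d * φ (x a) * (ω' ^ d * η') = (ω ^ d * ω' ^ d) * (φ (x a) * η') := by ring
      _ = 1 := by rw [hωd, ha, one_mul]
  have hy₀ : ∀ l, φ₀ (x (a.succAbove l)) * (ω' ^ d * η') = y l := by
    intro l
    rw [hx₀, hy]
    calc ω ^ d * φ (x (a.succAbove l)) * (ω' ^ d * η') =
        (ω ^ d * ω' ^ d) * (φ (x (a.succAbove l)) * η') := by ring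
      _ = _ := by rw [hωd, one_mul]
  have hΔc : ∀ δ ∈ Δ, ∀ t : ℂ, δ (algebraMap ℂ L t) = 0 := fun δ _ t => δ.map_algebraMap t
  have hind : AlgebraicIndependent ℂ y :=
    algebraicIndependent_arc (k := ℂ) y Δ hΔc Ξ hΞ hΞΔ
  have hind₀ : AlgebraicIndependent ℂ
      (fun l : Fin n => φ₀ (x (a.succAbove l)) * (ω' ^ d * η')) := by
    rw [show (fun l : Fin n => φ₀ (x (a.succAbove l)) * (ω' ^ d * η')) = y from funext hy₀]
    exact hind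
  have halg₀ := fun f => isAlgebraic_of_normalised h φ₀ a (ω' ^ d * η') ha₀ k₀ f₀ f₁ hf₀ hf₁ hf01
    hf0u.ne_zero hind₀ f
  have hG₀ : φ₀ G ≠ 0 := map_ne_zero_of_homogeneous h φ₀ a (ω' ^ d * η') ha₀ hind₀ _ G h.G_mem hG
  obtain ⟨S, hS⟩ := h.finiteType.out
  set T : Set L⟦X⟧ := insert (X : L⟦X⟧) (Set.range y) ∪ φ₀ '' (S : Set R) with hT
  set A : Subalgebra k L⟦X⟧ := Algebra.adjoin k T with hA
  have hpA : polyRing k y ≤ A := Algebra.adjoin_mono Set.subset_union_left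
  have hX : (X : L⟦X⟧) ∈ A := hpA (Algebra.subset_adjoin (Set.mem_insert _ _))
  have hφA : ∀ f, φ₀ f ∈ A := by
    intro f
    have h1 : (Algebra.adjoin ℂ (S : Set R)).map φ₀ ≤ A.restrictScalars ℂ := by
      rw [AlgHom.map_adjoin, Algebra.adjoin_le_iff]
      intro z hz
      have hz' : z ∈ A := Algebra.subset_adjoin (Or.inr hz)
      exact hz'
    exact h1 ⟨f, by rw [hS]; exact Algebra.mem_top, rfl⟩
  have hfg : A.FG := by
    rw [Subalgebra.fg_def]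
    exact ⟨T, ((Set.finite_range y).insert _).union (S.finite_toSet.image _), rfl⟩
  have halgφ : ∀ f, IsAlgebraic (polyRing k y) (φ₀ f) := fun f =>
    ChMain_alg y _ (funext hy₀) (φ₀ f) (halg₀ f)
  have halg : ∀ z ∈ A, IsAlgebraic (polyRing k y) z := by
    intro z hz
    induction hz using Algebra.adjoin_induction with
    | mem z hz =>
      rcases hz with hz | ⟨f, -, rfl⟩
      · exact isAlgebraic_algebraMap (⟨z, Algebra.subset_adjoin hz⟩ : polyRing k y)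
      · exact halgφ f
    | algebraMap c =>
      exact isAlgebraic_algebraMap
        (⟨algebraMap _ _ c, Subalgebra.algebraMap_mem _ c⟩ : polyRing k y)
    | add z z' _ _ h1 h2 => exact h1.add h2
    | mul z z' _ _ h1 h2 => exact h1.mul h2
  obtain ⟨hdvr, hirr, u, D, w, F, hu, hD, hE⟩ :=
    exists_arcV (k := k) y Δ hΔk Ξ hΞ hΞΔ A hX hpA hfg halg
  exact ⟨ω, ω' ^ d * η', φ₀, S, A, hX, hω, hφ₀, ha₀, hy₀, hS, hφA, hpA, hG₀, hdvr, hirr,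
    u, D, w, F, hu, hD, hE⟩

/-- CH12c, part 2. The analytic family, with the coefficients `c` in a field `k` killed by `Δ`. -/
private theorem ChMain_aux {R : Type} [CommRing R] [Algebra ℂ R] {𝒜 : ℕ → Submodule ℂ R}
    [GradedAlgebra 𝒜] {n r d : ℕ} {x : Fin (n + 1) → R} {G : R} (h : IsFano 𝒜 n r d x G)
    {k L : Type} [Field k] [CharZero k] [Algebra ℂ k] [Field L] [Algebra ℂ L] [Algebra k L]
    [IsScalarTower ℂ k L] (Δ : Set (Derivation ℂ L L))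
    (hΔk : ∀ δ ∈ Δ, ∀ t : k, δ (algebraMap k L t) = 0) (φ : R →ₐ[ℂ] L⟦X⟧)
    (a : Fin (n + 1)) (η' : L⟦X⟧) (ha : φ (x a) * η' = 1)
    (Ξ : Submodule L⟦X⟧ (Fin n → L⟦X⟧)) (hΞ : FinColen Ξ)
    (hΞΔ : ∀ v ∈ Ξ, ∃ δ ∈ Δ, ∀ l, hat δ (φ (x (a.succAbove l)) * η') = v l) (hG : G ≠ 0)
    {M B m : ℕ} (σ : Fin M → R) (hσ : ∀ i, σ i ∈ 𝒜 m) (hσi : LinearIndependent ℂ σ)
    (c : Fin M → Fin M → Fin (B + 1) → k)
    (hdet : Matrix.det (Matrix.of fun i l => c i l 0) ≠ 0) (lam : Fin M → ℕ)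
    (hlam : ∀ i, (X : L⟦X⟧) ^ lam i ∣
      ∑ l, (∑ j, algebraMap k L⟦X⟧ (c i l j) * (X : L⟦X⟧) ^ (j : ℕ)) * φ (σ l)) :
    φ G ≠ 0 ∧ ∃ (ε : Fin M → Fin (B + 1) → R) (κ : ℕ), κ ≤ colen Ξ ∧ (∀ i l, ε i l ∈ 𝒜 m) ∧
      LinearIndependent ℂ (fun i => ε i 0) ∧
      Nonempty (AnChart 𝒜 x G ε lam (φ G).order.toNat κ) := by
  classical
  obtain ⟨ω, η₀, φ₀, S, A, hX, hω, hφ₀, ha₀, hy₀, hS, hφA, hpA, hG₀, hdvr, hirr, u, D, w, F,
    hu, hD, hE⟩ := ChMain_setup h (k := k) Δ hΔk φ a η' ha Ξ hΞ hΞΔ hG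
  have hAV : A ≤ fracRing A := le_fracRing A
  have hyA : ∀ l, φ (x (a.succAbove l)) * η' ∈ A := fun l =>
    hpA (Algebra.subset_adjoin (Set.mem_insert_of_mem _ ⟨l, rfl⟩))
  have hyV : ∀ l, φ (x (a.succAbove l)) * η' ∈ fracRing A := fun l => hAV (hyA l)
  obtain ⟨sV, hsV⟩ : ∃ sV : fracRing A, sV = ⟨X, le_fracRing A hX⟩ := ⟨_, rfl⟩
  have hsV1 : sV.1 = X := by rw [hsV]
  obtain ⟨φV, hφV⟩ : ∃ φV : R →ₐ[ℂ] fracRing A, ∀ f, (φV f).1 = φ₀ f :=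
    ⟨φ₀.codRestrict ((fracRing A).restrictScalars ℂ) (fun f => hAV (hφA f)), fun f => rfl⟩
  -- `η₀`
  have hη₀V : η₀ ∈ fracRing A := by
    refine ⟨1, A.one_mem, φ₀ (x a), hφA _, ?_, ?_⟩
    · intro h0
      rw [h0, zero_mul] at ha₀
      exact zero_ne_one ha₀
    · rw [mul_comm]; exact ha₀
  -- `G`
  have hφVG : φV G ≠ 0 := fun h0 => hG₀ (by rw [← hφV, h0]; rfl)
  obtain ⟨g₀, vG, hvG, hg₀, hGeq⟩ := exists_eq_X_pow_mul A hX (φV G) hφVG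
  obtain ⟨vG', hvG'⟩ := hvG.exists_right_inv
  -- the Jacobian
  obtain ⟨hJ0, hJκ⟩ := order_jac_le (fun l => φ (x (a.succAbove l)) * η') Δ hΔk Ξ hΞ hΞΔ A hX
    hyV u D hD
  have hJ0' : Matrix.det (Matrix.of fun b l => D l ⟨φ (x (a.succAbove b)) * η', hyV b⟩) ≠ 0 :=
    fun h0 => hJ0 (by rw [h0]; rfl)
  obtain ⟨κ, vJ, hvJ, hκ, hJeq⟩ := exists_eq_X_pow_mul A hX _ hJ0'
  obtain ⟨vJ', hvJ'⟩ := hvJ.exists_right_inv
  rw [hκ] at hJκ
  have hκle : κ ≤ colen Ξ := by exact_mod_cast hJκ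
  -- the sections
  have hsum : ∀ i, ∃ v : fracRing A,
      ∑ l, (∑ j, algebraMap k (fracRing A) (c i l j) * sV ^ (j : ℕ)) * φV (σ l) =
      sV ^ lam i * v := by
    intro i
    obtain ⟨q, hq⟩ := hlam i
    obtain ⟨f, hf⟩ : ∃ f : fracRing A,
      f = ∑ l, (∑ j, algebraMap k (fracRing A) (c i l j) * sV ^ (j : ℕ)) * φV (σ l) := ⟨_, rfl⟩
    have hf1 : f.1 = ∑ l, (∑ j, algebraMap k L⟦X⟧ (c i l j) * (X : L⟦X⟧) ^ (j : ℕ)) *
          φ₀ (σ l) := by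
      rw [hf]
      push_cast
      rw [hsV1]
      refine Finset.sum_congr rfl fun l _ => ?_
      rw [hφV]
    have hfA : f.1 ∈ A := by
      rw [hf1]
      exact Subalgebra.sum_mem _ fun l _ => Subalgebra.mul_mem _
        (Subalgebra.sum_mem _ fun j _ => Subalgebra.mul_mem _ (Subalgebra.algebraMap_mem _ _)
          (Subalgebra.pow_mem _ hX _)) (hφA _)
    have hfq : f.1 = (X : L⟦X⟧) ^ lam i * (ω ^ m * q) := by
      have h1 : f.1 = ω ^ m * ∑ l, (∑ j, algebraMap k L⟦X⟧ (c i l j) *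
          (X : L⟦X⟧) ^ (j : ℕ)) * φ (σ l) := by
        rw [hf1, Finset.mul_sum]
        refine Finset.sum_congr rfl fun l _ => ?_
        rw [hφ₀ m _ (hσ l)]
        ring
      rw [h1, hq]
      ring
    have hqV : ω ^ m * q ∈ fracRing A := by
      refine ⟨f.1, hfA, (X : L⟦X⟧) ^ lam i, Subalgebra.pow_mem _ hX _,
        pow_ne_zero _ PowerSeries.X_ne_zero, ?_⟩
      rw [hfq, mul_comm]
    refine ⟨⟨ω ^ m * q, hqV⟩, ?_⟩
    rw [← hf]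
    apply Subtype.ext
    rw [hfq]
    push_cast
    rw [hsV1]
  choose v hv using hsum
  -- the denominators of `u`
  choose α hα β hβ hβ0 hαβ using hu
  choose Zα hZα using fun l => ev_eq_of_coords (k := k)
    (fun l => φ (x (a.succAbove l)) * η') (α l) (hα l)
  choose Zβ hZβ using fun l => ev_eq_of_coords (k := k)
    (fun l => φ (x (a.succAbove l)) * η') (β l) (hβ l)
  have hαV : ∀ l, α l ∈ fracRing A := fun l => hAV (hpA (hα l))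
  have hβV : ∀ l, β l ∈ fracRing A := fun l => hAV (hpA (hβ l))
  have hβ0' : ∀ l, (⟨β l, hβV l⟩ : fracRing A) ≠ 0 :=
    fun l h0 => hβ0 l (congrArg Subtype.val h0)
  choose mb vb hvb _ hβeq using fun l => exists_eq_X_pow_mul A hX _ (hβ0' l)
  choose vb' hvb' using fun l => (hvb l).exists_right_inv
  -- the finite sets
  obtain ⟨Z, hZ⟩ : ∃ Z : Finset (fracRing A), Z = (S.image φV ∪ {⟨η₀, hη₀V⟩, vG, vG', vJ, vJ'}) ∪
      (Finset.univ.image v ∪ (Finset.univ.image vb ∪ Finset.univ.image vb')) := ⟨_, rfl⟩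
  obtain ⟨Zc, hZc⟩ : ∃ Zc : Finset k, Zc =
      (Finset.univ.image (fun q : Fin M × Fin M × Fin (B + 1) => c q.1 q.2.1 q.2.2) ∪
        {(Matrix.det (Matrix.of fun i l => c i l 0))⁻¹}) ∪
      (Finset.univ.biUnion Zα ∪ Finset.univ.biUnion Zβ) := ⟨_, rfl⟩
  have hsm : (⟨X, le_fracRing A hX⟩ : fracRing A) ∈ IsLocalRing.maximalIdeal (fracRing A) :=
    (IsLocalRing.mem_maximalIdeal _).2 hirr.not_isUnit
  obtain ⟨E⟩ := exists_evFam hE hsm D hD Z Zc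
  have hZ𝒲 : ∀ z ∈ Z, z ∈ E.𝒲 := fun z hz => E.hZ z hz
  have hφ𝒲 : ∀ f, φV f ∈ E.𝒲 := by
    intro f
    have h1 : (Algebra.adjoin ℂ (S : Set R)).map φV ≤ E.𝒲 := by
      rw [AlgHom.map_adjoin, Algebra.adjoin_le_iff]
      rintro _ ⟨g, hg, rfl⟩
      refine hZ𝒲 _ ?_
      rw [hZ]
      exact Finset.mem_union_left _ (Finset.mem_union_left _ (Finset.mem_image_of_mem _ hg))
    exact h1 ⟨f, by rw [hS]; exact Algebra.mem_top, rfl⟩
  have hη𝒲 : (⟨η₀, hη₀V⟩ : fracRing A) ∈ E.𝒲 := hZ𝒲 _ (by rw [hZ]; simp)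
  have hvG𝒲 : vG ∈ E.𝒲 := hZ𝒲 _ (by rw [hZ]; simp)
  have hvG'𝒲 : vG' ∈ E.𝒲 := hZ𝒲 _ (by rw [hZ]; simp)
  have hvJ𝒲 : vJ ∈ E.𝒲 := hZ𝒲 _ (by rw [hZ]; simp)
  have hvJ'𝒲 : vJ' ∈ E.𝒲 := hZ𝒲 _ (by rw [hZ]; simp)
  have hv𝒲 : ∀ i, v i ∈ E.𝒲 := fun i => hZ𝒲 _ (by rw [hZ]; simp)
  have hvb𝒲 : ∀ l, vb l ∈ E.𝒲 := fun l => hZ𝒲 _ (by rw [hZ]; simp)
  have hvb'𝒲 : ∀ l, vb' l ∈ E.𝒲 := fun l => hZ𝒲 _ (by rw [hZ]; simp)
  have hcZ : ∀ i l j, c i l j ∈ (Zc : Set k) := by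
    intro i l j
    rw [hZc, Finset.mem_coe]
    refine Finset.mem_union_left _ (Finset.mem_union_left _ ?_)
    exact Finset.mem_image.2 ⟨(i, l, j), Finset.mem_univ _, rfl⟩
  have hc'Z : (Matrix.det (Matrix.of fun i l => c i l 0))⁻¹ ∈ (Zc : Set k) := by
    rw [hZc, Finset.mem_coe]
    exact Finset.mem_union_left _ (Finset.mem_union_right _ (Finset.mem_singleton_self _))
  have hZαc : ∀ l, ((Zα l : Finset k) : Set k) ⊆ (Zc : Set k) := by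
    intro l t ht
    rw [hZc, Finset.mem_coe]
    exact Finset.mem_union_right _ (Finset.mem_union_left _
      (Finset.mem_biUnion.2 ⟨l, Finset.mem_univ _, ht⟩))
  have hZβc : ∀ l, ((Zβ l : Finset k) : Set k) ⊆ (Zc : Set k) := by
    intro l t ht
    rw [hZc, Finset.mem_coe]
    exact Finset.mem_union_right _ (Finset.mem_union_right _
      (Finset.mem_biUnion.2 ⟨l, Finset.mem_univ _, ht⟩))
  -- the coordinates as elements of `V`
  have hycoord : ∀ b, (⟨φ (x (a.succAbove b)) * η', hyV b⟩ : fracRing A) =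
      φV (x (a.succAbove b)) * ⟨η₀, hη₀V⟩ := by
    intro b
    apply Subtype.ext
    change φ (x (a.succAbove b)) * η' = (φV (x (a.succAbove b))).1 * η₀
    rw [hφV, hy₀]
  have hy𝒲 : ∀ b, (⟨φ (x (a.succAbove b)) * η', hyV b⟩ : fracRing A) ∈ E.𝒲 := by
    intro b
    rw [hycoord]
    exact E.𝒲.mul_mem (hφ𝒲 _) hη𝒲
  have hinj : ∀ z p p', z ≠ 0 → ‖z‖ < E.ρ → ‖p‖ < E.ρ → ‖p'‖ < E.ρ →
      (∀ b : Fin n, E.ev z p (⟨φV (x (a.succAbove b)), hφ𝒲 _⟩ * ⟨⟨η₀, hη₀V⟩, hη𝒲⟩) =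
        E.ev z p' (⟨φV (x (a.succAbove b)), hφ𝒲 _⟩ * ⟨⟨η₀, hη₀V⟩, hη𝒲⟩)) → p = p' := by
    intro z p p' hz0 hz hp hp' heq
    have heq' : ∀ b, E.ev z p ⟨_, hy𝒲 b⟩ = E.ev z p' ⟨_, hy𝒲 b⟩ := by
      intro b
      have h1 : (⟨⟨φ (x (a.succAbove b)) * η', hyV b⟩, hy𝒲 b⟩ : E.𝒲) =
          ⟨φV (x (a.succAbove b)), hφ𝒲 _⟩ * ⟨⟨η₀, hη₀V⟩, hη𝒲⟩ := Subtype.ext (hycoord b)
      rw [h1]
      exact heq b
    funext l
    obtain ⟨hα𝒲, h1⟩ := hZα l A hX hyV (hαV l) u D _ _ E hy𝒲 (hZαc l)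
    obtain ⟨hβ𝒲, h2⟩ := hZβ l A hX hyV (hβV l) u D _ _ E hy𝒲 (hZβc l)
    have h3 := h1 z p p' hz hp hp' heq'
    have h4 := h2 z p p' hz hp hp' heq'
    have h5 : (⟨u l, E.hu l⟩ : E.𝒲) * ⟨⟨β l, hβV l⟩, hβ𝒲⟩ = ⟨⟨α l, hαV l⟩, hα𝒲⟩ :=
      Subtype.ext (Subtype.ext (hαβ l))
    have h6 : (⟨⟨β l, hβV l⟩, hβ𝒲⟩ : E.𝒲) =
        ⟨⟨X, le_fracRing A hX⟩, E.hs⟩ ^ mb l * ⟨vb l, hvb𝒲 l⟩ := Subtype.ext (hβeq l)
    have h7 : (⟨vb l, hvb𝒲 l⟩ : E.𝒲) * ⟨vb' l, hvb'𝒲 l⟩ = 1 := Subtype.ext (hvb' l)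
    have h8 : ∀ q, ‖q‖ < E.ρ → E.ev z q ⟨⟨β l, hβV l⟩, hβ𝒲⟩ ≠ 0 := by
      intro q hq h0
      rw [h6, map_mul, map_pow, E.ev_s z q hz hq] at h0
      rcases mul_eq_zero.1 h0 with h0 | h0
      · exact pow_ne_zero _ hz0 h0
      · have h9 : E.ev z q ⟨vb l, hvb𝒲 l⟩ * E.ev z q ⟨vb' l, hvb'𝒲 l⟩ = 1 := by
          rw [← map_mul, h7, map_one]
        rw [h0, zero_mul] at h9
        exact zero_ne_one h9
    have h10 : ∀ q, ‖q‖ < E.ρ → (E.u₀ l + q l) * E.ev z q ⟨⟨β l, hβV l⟩, hβ𝒲⟩ =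
        E.ev z q ⟨⟨α l, hαV l⟩, hα𝒲⟩ := by
      intro q hq
      rw [← E.ev_u z q hz hq l, ← map_mul, h5]
    have h11 := h10 p hp
    have h12 := h10 p' hp'
    rw [h3, ← h12, h4] at h11
    have h13 := mul_right_cancel₀ (h8 p' hp') h11
    exact add_left_cancel h13
  have ha₀V : φV (x a) * ⟨η₀, hη₀V⟩ = 1 := by
    apply Subtype.ext
    change (φV (x a)).1 * η₀ = 1
    rw [hφV, ha₀]
  have hJV : Matrix.det (Matrix.of fun b l => D l (φV (x (a.succAbove b)) * ⟨η₀, hη₀V⟩)) =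
      (⟨X, le_fracRing A hX⟩ : fracRing A) ^ κ * vJ := by
    rw [← hJeq]
    congr 1
    ext b l
    rw [Matrix.of_apply, Matrix.of_apply, hycoord]
  obtain ⟨ε, hε, hεi, hCh⟩ := anChart_of_evFam (𝒜 := 𝒜) (x := x) (G := G) E φV hφ𝒲 a ⟨η₀, hη₀V⟩
    hη𝒲 ha₀V g₀ vG vG' hvG𝒲 hvG'𝒲 hvG' hGeq κ vJ vJ' hvJ𝒲 hvJ'𝒲 hvJ' hJV σ hσ hσi c hcZ
    (Matrix.det (Matrix.of fun i l => c i l 0))⁻¹ hc'Z (mul_inv_cancel₀ hdet) lam v hv𝒲
    (by intro i; rw [← hsV]; exact hv i) hinj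
  have hGφ : φ₀ G = ω ^ (r * d * (n + 1) - 1) * φ G := hφ₀ _ _ h.G_mem
  have hφG : φ G ≠ 0 := by
    intro h0
    rw [h0, mul_zero] at hGφ
    exact hG₀ hGφ
  have hgo : (φ G).order.toNat = g₀ := by
    have h1 : (φ₀ G).order = g₀ := by rw [← hφV]; exact hg₀
    have h2 : (φ G).order = g₀ := by
      rw [← h1, hGφ, PowerSeries.order_mul]
      have h3 : (ω ^ (r * d * (n + 1) - 1)).order = 0 := by
        have h4 := hω.pow (r * d * (n + 1) - 1)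
        rw [PowerSeries.isUnit_iff_constantCoeff, isUnit_iff_ne_zero] at h4
        exact PowerSeries.order_zero_of_unit ((PowerSeries.isUnit_iff_constantCoeff).2
          (isUnit_iff_ne_zero.2 h4))
      rw [h3, zero_add]
    rw [h2, ENat.toNat_natCast]
  refine ⟨hφG, ε, κ, hκle, hε, hεi, ?_⟩
  rw [hgo]
  exact hCh

/-- CH12c. Main theorem of the module: an arc `φ` of the cone over `L`, with a module `Ξ` of
derivatives of finite colength, and a family `e` of bases of the sections with coefficients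
constants of `Δ`, gives an analytic family with Jacobian of order `κ ≤ colen Ξ`. -/
theorem exists_anChart {R : Type} [CommRing R] [Algebra ℂ R] {𝒜 : ℕ → Submodule ℂ R}
    [GradedAlgebra 𝒜] {n r d : ℕ} {x : Fin (n + 1) → R} {G : R} (h : IsFano 𝒜 n r d x G)
    {L : Type} [Field L] [Algebra ℂ L] (Δ : Set (Derivation ℂ L L)) (φ : R →ₐ[ℂ] L⟦X⟧)
    (a : Fin (n + 1)) (η' : L⟦X⟧) (ha : φ (x a) * η' = 1)
    (Ξ : Submodule L⟦X⟧ (Fin n → L⟦X⟧)) (hΞ : FinColen Ξ)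
    (hΞΔ : ∀ v ∈ Ξ, ∃ δ ∈ Δ, ∀ l, hat δ (φ (x (a.succAbove l)) * η') = v l)
    {M B m : ℕ} (σ : Fin M → R) (hσ : ∀ i, σ i ∈ 𝒜 m) (hσi : LinearIndependent ℂ σ)
    (e : Fin M → Fin M → L⟦X⟧) (he : ∀ i l j, coeff j (e i l) ∈ consts Δ)
    (he' : ∀ i l j, B < j → coeff j (e i l) = 0)
    (hdet : Matrix.det (Matrix.of fun i l => constantCoeff (e i l)) ≠ 0) (lam : Fin M → ℕ)
    (hlam : ∀ i, (X : L⟦X⟧) ^ lam i ∣ ∑ l, e i l * φ (σ l)) (hG : G ≠ 0) :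
    φ G ≠ 0 ∧ ∃ (ε : Fin M → Fin (B + 1) → R) (κ : ℕ), κ ≤ colen Ξ ∧ (∀ i l, ε i l ∈ 𝒜 m) ∧
      LinearIndependent ℂ (fun i => ε i 0) ∧
      Nonempty (AnChart 𝒜 x G ε lam (φ G).order.toNat κ) := by
  refine ChMain_aux h (k := consts Δ) Δ (fun δ hδ t => t.2 δ hδ) φ a η' ha Ξ hΞ hΞΔ hG σ hσ hσi
    (fun i l j => ⟨coeff (j : ℕ) (e i l), he i l j⟩) ?_ lam ?_
  · intro h0
    apply hdet
    have h1 : Matrix.det (Matrix.of fun i l => constantCoeff (e i l)) =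
        algebraMap (consts Δ) L (Matrix.det (Matrix.of fun i l =>
          (⟨coeff ((0 : Fin (B + 1)) : ℕ) (e i l), he i l _⟩ : consts Δ))) := by
      rw [RingHom.map_det]
      congr 1
      ext i l
      rw [RingHom.mapMatrix_apply, Matrix.map_apply, Matrix.of_apply, Matrix.of_apply,
        ← coeff_zero_eq_constantCoeff_apply]
      rfl
    rw [h1, h0, map_zero]
  · intro i
    have h1 := hlam i
    rw [show (∑ l, e i l * φ (σ l)) = _ from Finset.sum_congr rfl fun l _ => by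
      rw [ChMain_poly (k := consts Δ) (e i l) (fun j => ⟨coeff (j : ℕ) (e i l), he i l j⟩)
        (fun j => rfl) (he' i l)]] at h1
    exact h1

end Pool.Agent.Lib_KF
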