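import Pool.Agent.Lib_KF.ChFrac
import Pool.Agent.Lib_GD.HatLem
import Pool.Agent.Lib_GD.Colen

/-! CH08: the residue field of the valuation of an arc is large. -/

open PowerSeries

namespace Pool.Agent.Lib_KF

open Pool.Agent.Lib_GD

variable {k L : Type} [Field k] [Field L] [Algebra k L] [Algebra ℂ L]

private theorem ChNewton_hat_algebraMap (δ : Derivation ℂ L L)
    (hk : ∀ t : k, δ (algebraMap k L t) = 0) (t : k) : hat δ (algebraMap k L⟦X⟧ t) = 0 := by
  ext m
  rw [coeff_hat, PowerSeries.algebraMap_apply, PowerSeries.coeff_C]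
  split_ifs
  · rw [hk, map_zero]
  · rw [map_zero, map_zero]

omit [Algebra k L] [Field k] in
private theorem ChNewton_hat_one (δ : Derivation ℂ L L) : hat δ (1 : L⟦X⟧) = 0 := by
  have h1 := hat_mul δ (1 : L⟦X⟧) 1
  rw [mul_one, one_mul, mul_one] at h1
  exact left_eq_add.1 h1

omit [Algebra k L] [Field k] in
private theorem ChNewton_hat_X (δ : Derivation ℂ L L) : hat δ (X : L⟦X⟧) = 0 := by
  have h1 := hat_X_pow_mul δ 1 (1 : L⟦X⟧)
  rwa [pow_one, mul_one, ChNewton_hat_one, mul_zero] at h1

omit [Algebra k L] [Field k] in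
private theorem ChNewton_hat_pow (δ : Derivation ℂ L L) (f : L⟦X⟧) (m : ℕ) :
    hat δ (f ^ m) = m * f ^ (m - 1) * hat δ f := by
  induction m with
  | zero =>
    rw [pow_zero, ChNewton_hat_one]
    simp
  | succ m ih =>
    rw [pow_succ, hat_mul, ih]
    rcases m with _ | m
    · simp
    · simp only [Nat.add_sub_cancel, Nat.cast_add, Nat.cast_one]
      ring

/-- CH08a. The chain rule: for `a ∈ polyRing k y` there are `c_l` (independent of `δ`) with
`δ a = ∑ c_l δ y_l` for all `δ` killing `k`. `Algebra.adjoin_induction`. -/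
theorem exists_chain {n : ℕ} (y : Fin n → L⟦X⟧) (a : L⟦X⟧) (ha : a ∈ polyRing k y) :
    ∃ c : Fin n → L⟦X⟧, ∀ δ : Derivation ℂ L L, (∀ t : k, δ (algebraMap k L t) = 0) →
      hat δ a = ∑ l, c l * hat δ (y l) := by
  classical
  unfold polyRing at ha
  induction ha using Algebra.adjoin_induction with
  | mem x hx =>
    rcases hx with rfl | ⟨l, rfl⟩
    · refine ⟨0, fun δ _ => ?_⟩
      rw [ChNewton_hat_X]
      simp
    · refine ⟨Pi.single l 1, fun δ _ => ?_⟩
      rw [Finset.sum_eq_single l]
      · rw [Pi.single_eq_same, one_mul]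
      · intro j _ hj
        rw [Pi.single_eq_of_ne hj, zero_mul]
      · intro h; exact absurd (Finset.mem_univ l) h
  | algebraMap r =>
    refine ⟨0, fun δ hδ => ?_⟩
    rw [ChNewton_hat_algebraMap δ hδ]
    simp
  | add x x' _ _ hx hx' =>
    obtain ⟨c, hc⟩ := hx
    obtain ⟨c', hc'⟩ := hx'
    refine ⟨c + c', fun δ hδ => ?_⟩
    rw [hat_add, hc δ hδ, hc' δ hδ, ← Finset.sum_add_distrib]
    exact Finset.sum_congr rfl fun l _ => by rw [Pi.add_apply, add_mul]
  | mul x x' _ _ hx hx' =>
    obtain ⟨c, hc⟩ := hx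
    obtain ⟨c', hc'⟩ := hx'
    refine ⟨fun l => x * c' l + x' * c l, fun δ hδ => ?_⟩
    rw [hat_mul, hc δ hδ, hc' δ hδ, Finset.mul_sum, Finset.sum_mul, ← Finset.sum_add_distrib]
    exact Finset.sum_congr rfl fun l _ => by ring

private theorem ChNewton_hat_aeval (δ : Derivation ℂ L L)
    (hk : ∀ t : k, δ (algebraMap k L t) = 0) {ι : Type} (u : ι → L⟦X⟧)
    (hu : ∀ i, hat δ (u i) = 0) (p : MvPolynomial ι k) :
    hat δ (MvPolynomial.aeval u p) = 0 := by
  induction p using MvPolynomial.induction_on with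
  | C a => rw [MvPolynomial.aeval_C, ChNewton_hat_algebraMap δ hk]
  | add p q hp hq => rw [map_add, hat_add, hp, hq, add_zero]
  | mul_X p i hp => rw [map_mul, hat_mul, hp, MvPolynomial.aeval_X, hu, mul_zero, zero_mul,
      add_zero]

private theorem ChNewton_hat_eval₂ (δ : Derivation ℂ L L)
    (hk : ∀ t : k, δ (algebraMap k L t) = 0) {ι : Type} (u : ι → L⟦X⟧)
    (hu : ∀ i, hat δ (u i) = 0) (f : L⟦X⟧) (P : Polynomial (MvPolynomial ι k)) :
    hat δ (P.eval₂ (MvPolynomial.aeval u : MvPolynomial ι k →ₐ[k] L⟦X⟧).toRingHom f) =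
      P.derivative.eval₂ (MvPolynomial.aeval u : MvPolynomial ι k →ₐ[k] L⟦X⟧).toRingHom f *
        hat δ f := by
  induction P using Polynomial.induction_on' with
  | add p q hp hq =>
    rw [Polynomial.eval₂_add, hat_add, hp, hq, Polynomial.derivative_add,
      Polynomial.eval₂_add, add_mul]
  | monomial m a =>
    rw [Polynomial.eval₂_monomial, Polynomial.derivative_monomial, Polynomial.eval₂_monomial,
      hat_mul]
    have h0 : hat δ ((MvPolynomial.aeval u : MvPolynomial ι k →ₐ[k] L⟦X⟧).toRingHom a) = 0 :=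
      ChNewton_hat_aeval δ hk u hu a
    rw [h0, zero_mul, add_zero, ChNewton_hat_pow]
    simp only [map_mul, map_natCast]
    ring

/-- Polynomials in elements of `fracRing A` with values in it. -/
private theorem ChNewton_aeval_mem (A : Subalgebra k L⟦X⟧) {ι : Type} (u : ι → L⟦X⟧)
    (hu : ∀ i, u i ∈ fracRing A) (p : MvPolynomial ι k) :
    MvPolynomial.aeval u p ∈ fracRing A := by
  induction p using MvPolynomial.induction_on with
  | C a => rw [MvPolynomial.aeval_C]; exact (fracRing A).algebraMap_mem a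
  | add p q hp hq => rw [map_add]; exact (fracRing A).add_mem hp hq
  | mul_X p i hp =>
    rw [map_mul, MvPolynomial.aeval_X]; exact (fracRing A).mul_mem hp (hu i)

private theorem ChNewton_eval₂_mem (A : Subalgebra k L⟦X⟧) {ι : Type} (u : ι → L⟦X⟧)
    (hu : ∀ i, u i ∈ fracRing A) (f : L⟦X⟧) (hf : f ∈ fracRing A)
    (P : Polynomial (MvPolynomial ι k)) :
    P.eval₂ (MvPolynomial.aeval u : MvPolynomial ι k →ₐ[k] L⟦X⟧).toRingHom f ∈ fracRing A := by
  induction P using Polynomial.induction_on' with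
  | add p q hp hq => rw [Polynomial.eval₂_add]; exact (fracRing A).add_mem hp hq
  | monomial m a =>
    rw [Polynomial.eval₂_monomial]
    exact (fracRing A).mul_mem (ChNewton_aeval_mem A u hu a) ((fracRing A).pow_mem hf m)

/-- Division by `X` in `fracRing A`. -/
private theorem ChNewton_div_X (A : Subalgebra k L⟦X⟧) (hX : (X : L⟦X⟧) ∈ A) (f : L⟦X⟧)
    (hf : f ∈ fracRing A) (h0 : constantCoeff f = 0) : ∃ g ∈ fracRing A, f = X * g := by
  obtain ⟨g, hg⟩ := PowerSeries.X_dvd_iff.2 h0
  obtain ⟨a, ha, b, hb, hb0, h⟩ := hf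
  refine ⟨g, ⟨a, ha, X * b, A.mul_mem hX hb, mul_ne_zero X_ne_zero hb0, ?_⟩, hg⟩
  rw [← h, hg]; ring

/-- CH08b. Newton's argument: if the residues `ū_i` (`i < r`) of `u_i ∈ V = fracRing (polyRing k y)`
are such that the residue of every element of `V` is algebraic over `k[ū]`, and `δ` kills `k` and
the `u_i`, then `hat δ` kills `V`. Otherwise let `m` be the minimal order of `hat δ f`, `f ∈ V`,
attained at `f`. The constant coefficient of `f` is a root of a polynomial over `k[ū]`, separable
of minimal degree; lift it to a polynomial `P` over `k[u]`: `P(f) = X h` with `h ∈ V` and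
`P'(f)` has non-zero constant coefficient; `hat δ (P(f)) = P'(f) hat δ f` has order `m`, but it is
`X hat δ h`, of order `≥ m + 1`. (Compare `ArcDivisor_newton` in `Lib_GD/ArcDivisor.lean`.) -/
theorem hat_eq_zero_of_residues [CharZero k] {n r : ℕ} (y : Fin n → L⟦X⟧) (u : Fin r → L⟦X⟧)
    (hu : ∀ i, u i ∈ fracRing (polyRing k y))
    (halg : ∀ f ∈ fracRing (polyRing k y), IsAlgebraic
      (Algebra.adjoin k (Set.range fun i => constantCoeff (u i))) (constantCoeff f))
    (δ : Derivation ℂ L L) (hk : ∀ t : k, δ (algebraMap k L t) = 0)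
    (hδ : ∀ i, hat δ (u i) = 0) (f : L⟦X⟧) (hf : f ∈ fracRing (polyRing k y)) :
    hat δ f = 0 := by
  classical
  have hX : (X : L⟦X⟧) ∈ polyRing k y :=
    Algebra.subset_adjoin (Set.mem_insert _ _)
  generalize hAdef : polyRing k y = A at hu halg hf hX
  by_contra hne
  have hex : ∃ m : ℕ, ∃ f ∈ fracRing A, (hat δ f).order = m :=
    ⟨_, f, hf, (coe_toNat_order hne).symm⟩
  obtain ⟨g, hgA, hg⟩ := Nat.find_spec hex
  have hmin : ∀ g' ∈ fracRing A, ∀ m : ℕ, (hat δ g').order = m → Nat.find hex ≤ m :=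
    fun g' hg' m hm => Nat.find_min' hex ⟨g', hg', hm⟩
  generalize Nat.find hex = m at hg hmin
  clear hne hf f hex
  have hgne : hat δ g ≠ 0 := by
    intro h
    rw [h, order_zero] at hg
    exact ENat.top_ne_natCast m hg
  set ub : Fin r → L := fun i => constantCoeff (u i) with hub
  set ψ₁ : MvPolynomial (Fin r) k →+* L⟦X⟧ :=
    (MvPolynomial.aeval u : MvPolynomial (Fin r) k →ₐ[k] L⟦X⟧).toRingHom with hψ₁
  set ψ₀ : MvPolynomial (Fin r) k →+* L :=
    (MvPolynomial.aeval ub : MvPolynomial (Fin r) k →ₐ[k] L).toRingHom with hψ₀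
  have hcomp : (constantCoeff (R := L)).comp ψ₁ = ψ₀ := by
    refine MvPolynomial.ringHom_ext (fun a => ?_) (fun i => ?_)
    · have h1 : ψ₁ (MvPolynomial.C a) = algebraMap k L⟦X⟧ a := MvPolynomial.aeval_C u a
      have h2 : ψ₀ (MvPolynomial.C a) = algebraMap k L a := MvPolynomial.aeval_C ub a
      rw [RingHom.comp_apply, h1, h2, PowerSeries.algebraMap_apply, constantCoeff_C]
    · have h1 : ψ₁ (MvPolynomial.X i) = u i := MvPolynomial.aeval_X u i
      have h2 : ψ₀ (MvPolynomial.X i) = ub i := MvPolynomial.aeval_X ub i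
      rw [RingHom.comp_apply, h1, h2]
  have hev : ∀ P : Polynomial (MvPolynomial (Fin r) k),
      constantCoeff (P.eval₂ ψ₁ g) = P.eval₂ ψ₀ (constantCoeff g) := by
    intro P
    rw [← hcomp]
    exact Polynomial.hom_eval₂ P _ (constantCoeff (R := L)) g
  have hexP : ∃ d : ℕ, ∃ P : Polynomial (MvPolynomial (Fin r) k), P.map ψ₀ ≠ 0 ∧
      (P.map ψ₀).natDegree = d ∧ P.eval₂ ψ₀ (constantCoeff g) = 0 := by
    have h1 := halg g hgA
    rw [Algebra.adjoin_range_eq_range_aeval] at h1
    obtain ⟨Q, hQ0, hQ⟩ := h1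
    obtain ⟨P, hP⟩ := Polynomial.map_surjective
      (MvPolynomial.aeval ub : MvPolynomial (Fin r) k →ₐ[k] L).rangeRestrict.toRingHom
      (AlgHom.rangeRestrict_surjective _) Q
    have hc : (algebraMap (MvPolynomial.aeval ub : MvPolynomial (Fin r) k →ₐ[k] L).range L).comp
        (MvPolynomial.aeval ub : MvPolynomial (Fin r) k →ₐ[k] L).rangeRestrict.toRingHom = ψ₀ := rfl
    have hmap : P.map ψ₀ =
        Q.map (algebraMap (MvPolynomial.aeval ub : MvPolynomial (Fin r) k →ₐ[k] L).range L) := by
      rw [← hP, Polynomial.map_map, hc]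
    refine ⟨_, P, ?_, rfl, ?_⟩
    · rw [hmap, Ne, Polynomial.map_eq_zero_iff Subtype.val_injective]
      exact hQ0
    · rw [Polynomial.aeval_def] at hQ
      rw [← Polynomial.eval_map, hmap, Polynomial.eval_map]
      exact hQ
  obtain ⟨P, hP0, hPd, hPev⟩ := Nat.find_spec hexP
  have hPmin : ∀ P' : Polynomial (MvPolynomial (Fin r) k), P'.map ψ₀ ≠ 0 →
      (P'.map ψ₀).natDegree < (P.map ψ₀).natDegree → P'.eval₂ ψ₀ (constantCoeff g) ≠ 0 := by
    intro P' h0 hlt h1
    rw [hPd] at hlt
    exact Nat.find_min hexP hlt ⟨P', h0, rfl, h1⟩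
  clear hPd hexP
  haveI : CharZero L := charZero_of_injective_algebraMap (algebraMap k L).injective
  have hPdeg : (P.map ψ₀).natDegree ≠ 0 := by
    intro h0
    obtain ⟨a, ha⟩ := Polynomial.natDegree_eq_zero.1 h0
    rw [← Polynomial.eval_map, ← ha, Polynomial.eval_C] at hPev
    exact hP0 (by rw [← ha, hPev, map_zero])
  have hP'0 : P.derivative.map ψ₀ ≠ 0 := by
    rw [← Polynomial.derivative_map]
    exact fun h => hPdeg (Polynomial.derivative_eq_zero.1 h)
  have hP'ev := hPmin P.derivative hP'0 (by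
    rw [← Polynomial.derivative_map]
    exact Polynomial.natDegree_derivative_lt hPdeg)
  rw [← hev] at hP'ev hPev
  have hder : hat δ (P.eval₂ ψ₁ g) = P.derivative.eval₂ ψ₁ g * hat δ g :=
    ChNewton_hat_eval₂ δ hk u hδ g P
  obtain ⟨h, hhA, hh⟩ := ChNewton_div_X A hX _ (ChNewton_eval₂_mem A u hu g hgA P) hPev
  rw [hh, hat_mul, ChNewton_hat_X, zero_mul, add_zero] at hder
  have hord := congrArg PowerSeries.order hder
  have hu' : IsUnit (P.derivative.eval₂ ψ₁ g) :=
    PowerSeries.isUnit_iff_constantCoeff.2 (isUnit_iff_ne_zero.2 hP'ev)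
  rw [order_mul, order_mul, order_X, order_zero_of_unit hu', zero_add, hg] at hord
  have hhne : hat δ h ≠ 0 := by
    intro h0
    rw [h0, order_zero, add_top] at hord
    exact ENat.top_ne_natCast m hord
  have hhm := (coe_toNat_order hhne).symm
  have h5 := hmin h hhA _ hhm
  rw [hhm] at hord
  have h6 : 1 + (hat δ h).order.toNat = m := by exact_mod_cast hord
  omega

/-- CH08c. There are `u_l ∈ fracRing (polyRing k y)` with algebraically independent residues.
Otherwise there are `r < n` elements `u_i` whose residues are a transcendence basis of the field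
of residues over `k`. By CH08a (multiply with the denominators) `b_i hat δ u_i = ∑ c_{il} hat δ y_l`
with `b_i ≠ 0`; as `r < n` there is `v ≠ 0` in `O^n` with `∑ c_{il} v_l = 0` for all `i`; a
multiple `X ^ N v` is in `Ξ` (`X_pow_smul_mem`), so it is `(hat δ y_l)` for some `δ ∈ Δ`, which
kills all `u_i`; CH08b gives `hat δ y_l = 0`, a contradiction. -/
theorem exists_residue_indep [CharZero k] {n : ℕ} (y : Fin n → L⟦X⟧)
    (Δ : Set (Derivation ℂ L L)) (hΔ : ∀ δ ∈ Δ, ∀ t : k, δ (algebraMap k L t) = 0)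
    (Ξ : Submodule L⟦X⟧ (Fin n → L⟦X⟧)) (hΞ : FinColen Ξ)
    (hΞΔ : ∀ v ∈ Ξ, ∃ δ ∈ Δ, ∀ l, hat δ (y l) = v l) :
    ∃ u : Fin n → L⟦X⟧, (∀ l, u l ∈ fracRing (polyRing k y)) ∧
      AlgebraicIndependent k (fun l => constantCoeff (u l)) := by
  classical
  -- induction: `r ≤ n` independent residues
  suffices h : ∀ r ≤ n, ∃ u : Fin r → L⟦X⟧, (∀ l, u l ∈ fracRing (polyRing k y)) ∧
      AlgebraicIndependent k (fun l => constantCoeff (u l)) from h n le_rfl
  intro r
  induction r with
  | zero =>
    intro _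
    exact ⟨fun i => i.elim0, fun i => i.elim0, algebraicIndependent_empty_type⟩
  | succ r ih =>
    intro hr
    obtain ⟨u, hu, hind⟩ := ih (by omega)
    by_contra hcon
    push Not at hcon
    have halg : ∀ f ∈ fracRing (polyRing k y), IsAlgebraic
        (Algebra.adjoin k (Set.range fun i => constantCoeff (u i))) (constantCoeff f) := by
      intro f hf
      by_contra htr
      have h1 := (hind.option_iff_transcendental (constantCoeff f)).2 htr
      let e : Fin (r + 1) ≃ Option (Fin r) := finSuccEquiv r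
      refine hcon (fun j => (e j).elim f u) (fun j => ?_) ?_
      · show (e j).elim f u ∈ _
        cases e j with
        | none => exact hf
        | some i => exact hu i
      · have h2 := h1.comp e e.injective
        have h3 : (fun j => constantCoeff ((e j).elim f u)) =
            (fun o : Option (Fin r) => o.elim (constantCoeff f)
              fun i => constantCoeff (u i)) ∘ e := by
          funext j
          show constantCoeff ((e j).elim f u) =
            (e j).elim (constantCoeff f) (fun i => constantCoeff (u i))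
          cases e j with
          | none => rfl
          | some i => rfl
        rw [h3]
        exact h2
    -- the equations
    have hfr : ∀ i, ∃ (b : L⟦X⟧) (c : Fin n → L⟦X⟧), b ≠ 0 ∧ ∀ δ : Derivation ℂ L L,
        (∀ t : k, δ (algebraMap k L t) = 0) → b * hat δ (u i) = ∑ l, c l * hat δ (y l) := by
      intro i
      obtain ⟨a, ha, b, hb, hb0, h⟩ := hu i
      obtain ⟨ca, hca⟩ := exists_chain y a ha
      obtain ⟨cb, hcb⟩ := exists_chain y b hb
      refine ⟨b, fun l => ca l - u i * cb l, hb0, fun δ hδ => ?_⟩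
      have h1 := congrArg (hat δ) h
      rw [hat_mul, hca δ hδ, hcb δ hδ] at h1
      have h2 : ∑ l, (ca l - u i * cb l) * hat δ (y l) =
          ∑ l, ca l * hat δ (y l) - u i * ∑ l, cb l * hat δ (y l) := by
        rw [Finset.mul_sum, ← Finset.sum_sub_distrib]
        exact Finset.sum_congr rfl fun l _ => by ring
      rw [h2, ← h1]; ring
    choose b c hb0 hbc using hfr
    let F : (Fin n → L⟦X⟧) →ₗ[L⟦X⟧] (Fin r → L⟦X⟧) := Matrix.mulVecLin (Matrix.of c)
    have hF : ∀ v i, F v i = ∑ l, c i l * v l := fun v i => rfl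
    have hninj : ¬ Function.Injective F := by
      intro hinj
      have := le_of_fin_injective L⟦X⟧ F hinj
      omega
    obtain ⟨v, hv0, hv⟩ : ∃ v, v ≠ 0 ∧ F v = 0 := by
      by_contra h
      push Not at h
      apply hninj
      rw [injective_iff_map_eq_zero]
      intro a ha
      by_contra ha0
      exact h a ha0 ha
    obtain ⟨δ, hδ, hδy⟩ := hΞΔ _ (X_pow_smul_mem hΞ le_rfl v)
    have hδu : ∀ i, hat δ (u i) = 0 := by
      intro i
      have h1 := hbc i δ (hΔ δ hδ)
      have h2 : ∑ l, c i l * hat δ (y l) = 0 := by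
        have h3 := congrFun hv i
        rw [hF, Pi.zero_apply] at h3
        calc ∑ l, c i l * hat δ (y l) = ∑ l, X ^ colen Ξ * (c i l * v l) :=
              Finset.sum_congr rfl fun l _ => by
                rw [hδy l, Pi.smul_apply, smul_eq_mul]; ring
          _ = 0 := by rw [← Finset.mul_sum, h3, mul_zero]
      rw [h2] at h1
      exact (mul_eq_zero.1 h1).resolve_left (hb0 i)
    apply hv0
    funext l
    have h1 := hat_eq_zero_of_residues y u hu halg δ (hΔ δ hδ) hδu (y l)
      (le_fracRing _ (Algebra.subset_adjoin (Set.mem_insert_of_mem _ ⟨l, rfl⟩)))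
    rw [hδy l, Pi.smul_apply, smul_eq_mul] at h1
    exact (mul_eq_zero.1 h1).resolve_left (pow_ne_zero _ X_ne_zero)

private theorem ChNewton_hat_mvaeval (δ : Derivation ℂ L L)
    (hk : ∀ t : k, δ (algebraMap k L t) = 0) {n : ℕ} (y : Fin n → L⟦X⟧)
    (p : MvPolynomial (Fin n) k) :
    hat δ (MvPolynomial.aeval y p) =
      ∑ l, MvPolynomial.aeval y (MvPolynomial.pderiv l p) * hat δ (y l) := by
  classical
  induction p using MvPolynomial.induction_on with
  | C a =>
    rw [MvPolynomial.aeval_C, ChNewton_hat_algebraMap δ hk]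
    symm
    apply Finset.sum_eq_zero
    intro l _
    rw [MvPolynomial.pderiv_C, map_zero, zero_mul]
  | add p q hp hq =>
    rw [map_add, hat_add, hp, hq, ← Finset.sum_add_distrib]
    exact Finset.sum_congr rfl fun l _ => by rw [map_add, map_add, add_mul]
  | mul_X p i hp =>
    rw [map_mul, hat_mul, hp, MvPolynomial.aeval_X]
    have h1 : ∀ l, MvPolynomial.aeval y (MvPolynomial.pderiv l (p * MvPolynomial.X i)) *
        hat δ (y l) = (MvPolynomial.aeval y (MvPolynomial.pderiv l p) * hat δ (y l)) * y i +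
          MvPolynomial.aeval y p * (if l = i then hat δ (y l) else 0) := by
      intro l
      rw [MvPolynomial.pderiv_mul, map_add, map_mul, map_mul, MvPolynomial.aeval_X,
        MvPolynomial.pderiv_X]
      by_cases hl : l = i
      · subst hl
        simp
        ring
      · rw [Pi.single_eq_of_ne (fun h => hl h.symm)]
        simp [hl]
        ring
    rw [Finset.sum_congr rfl fun l _ => h1 l, Finset.sum_add_distrib, ← Finset.sum_mul,
      ← Finset.mul_sum, Finset.sum_ite_eq' Finset.univ i, if_pos (Finset.mem_univ i)]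
    ring

/-- CH08d. The `y_l` are algebraically independent over `k`: in a relation `P(y) = 0` of minimal
degree, `0 = hat δ (P(y)) = ∑ (∂_l P)(y) v_l` for all `v ∈ Ξ`, so `(∂_l P)(y) = 0`, and `P` is
constant. -/
theorem algebraicIndependent_arc [CharZero k] {n : ℕ} (y : Fin n → L⟦X⟧)
    (Δ : Set (Derivation ℂ L L)) (hΔ : ∀ δ ∈ Δ, ∀ t : k, δ (algebraMap k L t) = 0)
    (Ξ : Submodule L⟦X⟧ (Fin n → L⟦X⟧)) (hΞ : FinColen Ξ)
    (hΞΔ : ∀ v ∈ Ξ, ∃ δ ∈ Δ, ∀ l, hat δ (y l) = v l) :
    AlgebraicIndependent k y := by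
  classical
  have key : ∀ P : MvPolynomial (Fin n) k, MvPolynomial.aeval y P = 0 →
      ∀ l, MvPolynomial.aeval y (MvPolynomial.pderiv l P) = 0 := by
    intro P hP l
    obtain ⟨δ, hδ, hδy⟩ := hΞΔ _ (X_pow_smul_mem hΞ le_rfl (Pi.single l 1))
    have h1 := ChNewton_hat_mvaeval δ (hΔ δ hδ) y P
    rw [hP, hat_zero, Finset.sum_eq_single l] at h1
    · rw [hδy l, Pi.smul_apply, Pi.single_eq_same, smul_eq_mul, mul_one] at h1
      exact (mul_eq_zero.1 h1.symm).resolve_right (pow_ne_zero _ X_ne_zero)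
    · intro j _ hj
      rw [hδy j, Pi.smul_apply, Pi.single_eq_of_ne hj, smul_zero, mul_zero]
    · intro h; exact absurd (Finset.mem_univ l) h
  have main : ∀ (d : ℕ) (P : MvPolynomial (Fin n) k),
      (∀ m : Fin n →₀ ℕ, d ≤ m.degree → MvPolynomial.coeff m P = 0) →
      MvPolynomial.aeval y P = 0 → P = 0 := by
    intro d
    induction d with
    | zero =>
      intro P hP _
      ext m
      rw [hP m (Nat.zero_le _), MvPolynomial.coeff_zero]
    | succ d ih =>
      intro P hP hP0
      have h1 : ∀ l, MvPolynomial.pderiv l P = 0 := by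
        intro l
        apply ih _ _ (key P hP0 l)
        intro m hm
        rw [MvPolynomial.coeff_pderiv, hP _ _, zero_mul]
        rw [map_add, Finsupp.degree_single]
        omega
      have h2 : ∀ m : Fin n →₀ ℕ, m ≠ 0 → MvPolynomial.coeff m P = 0 := by
        intro m hm
        obtain ⟨l, hl⟩ := Finsupp.ne_iff.1 hm
        rw [Finsupp.zero_apply] at hl
        have h3 := congrArg (MvPolynomial.coeff (m - Finsupp.single l 1)) (h1 l)
        rw [MvPolynomial.coeff_pderiv, MvPolynomial.coeff_zero] at h3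
        have h4 : m - Finsupp.single l 1 + Finsupp.single l 1 = m := by
          apply tsub_add_cancel_of_le
          rw [Finsupp.single_le_iff]
          omega
        rw [h4] at h3
        refine (mul_eq_zero.1 h3).resolve_right ?_
        exact Nat.cast_add_one_ne_zero _
      have h3 : P = MvPolynomial.C (MvPolynomial.coeff 0 P) := by
        ext m
        rw [MvPolynomial.coeff_C]
        split_ifs with hm
        · rw [hm]
        · exact h2 m (fun h => hm h.symm)
      rw [h3, MvPolynomial.aeval_C] at hP0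
      have h4 : MvPolynomial.coeff 0 P = 0 := by
        rw [PowerSeries.algebraMap_apply] at hP0
        have h6 := congrArg constantCoeff hP0
        rw [constantCoeff_C, map_zero] at h6
        exact (_root_.map_eq_zero _).1 h6
      rw [h3, h4, map_zero]
  rw [algebraicIndependent_iff]
  intro P hP
  refine main (P.totalDegree + 1) P ?_ hP
  intro m hm
  apply MvPolynomial.coeff_eq_zero_of_totalDegree_lt
  have h1 : ∑ i ∈ m.support, m i = m.degree := rfl
  rw [h1]
  omega

end Pool.Agent.Lib_KF
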