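import Pool.Agent.Lib_KF.ChEss
import Pool.Agent.Lib_KF.ChEtale
import Pool.Agent.Lib_KF.ChNewton
import Pool.Agent.Lib_KF.ChColen

/-! CH11: the valuation ring of an arc with its coordinates. -/

open PowerSeries

namespace Pool.Agent.Lib_KF

open Pool.Agent.Lib_GD

variable {k L : Type} [Field k] [CharZero k] [Field L] [Algebra k L] [Algebra ℂ L]

/-- CH11a. Let `A ⊇ polyRing k y` be a finitely generated subalgebra of `L⟦X⟧`, algebraic over
`polyRing k y`. The discrete valuation ring `V = fracRing A` has coordinates `X, u_l`, with `u_l`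
fractions of polynomials in `X, y`. Combine CH08c, CH07, CH01, CH02, CH03. -/
theorem exists_arcV {n : ℕ} (y : Fin n → L⟦X⟧)
    (Δ : Set (Derivation ℂ L L)) (hΔ : ∀ δ ∈ Δ, ∀ t : k, δ (algebraMap k L t) = 0)
    (Ξ : Submodule L⟦X⟧ (Fin n → L⟦X⟧)) (hΞ : FinColen Ξ)
    (hΞΔ : ∀ v ∈ Ξ, ∃ δ ∈ Δ, ∀ l, hat δ (y l) = v l) (A : Subalgebra k L⟦X⟧)
    (hX : (X : L⟦X⟧) ∈ A)
    (hA : polyRing k y ≤ A) (hfg : A.FG) (halg : ∀ a ∈ A, IsAlgebraic (polyRing k y) a) :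
    IsDiscreteValuationRing (fracRing A) ∧
      Irreducible (⟨X, le_fracRing A hX⟩ : fracRing A) ∧
      ∃ (u : Fin n → fracRing A) (D : Fin n → Derivation k (fracRing A) (fracRing A))
        (w : fracRing A) (F : Polynomial (MvPolynomial (Option (Fin n)) k)),
        (∀ l, (u l).1 ∈ fracRing (polyRing k y)) ∧
        DualDer k (fracRing A) ⟨X, le_fracRing A hX⟩ u D ∧
        EtaleCoord k (fracRing A) ⟨X, le_fracRing A hX⟩ u w F := by
  obtain ⟨u₀, hu₀, hind₀⟩ := exists_residue_indep y Δ hΔ Ξ hΞ hΞΔ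
  obtain ⟨hdvr, hirr⟩ := fracRing_isDVR A hX
  obtain ⟨htr, hess⟩ := trdeg_fracRing y A hA hfg halg u₀ hu₀ hind₀
  let u : Fin n → fracRing A := fun l => ⟨u₀ l, fracRing_mono hA (hu₀ l)⟩
  have hres := residue_indep A u hind₀
  have hessV : Algebra.EssFiniteType k (fracRing A) :=
    essFiniteType_of_residue_field k (fracRing A) n htr hess u hres
  obtain ⟨b, hb, hb'⟩ := exists_basis_kaehler k (fracRing A) n htr
    ⟨X, le_fracRing A hX⟩ hirr u hres
  obtain ⟨D, hD⟩ := exists_dualDer k (fracRing A) n ⟨X, le_fracRing A hX⟩ u b hb hb'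
  have hind := algebraicIndependent_option k (fracRing A) n ⟨X, le_fracRing A hX⟩ hirr u hres
  obtain ⟨w, F, hF⟩ := exists_etaleCoord k (fracRing A) n ⟨X, le_fracRing A hX⟩ u b hb hb' hind
  exact ⟨hdvr, hirr, u, D, w, F, hu₀, hD, hF⟩

private theorem ChSetup_hat_smul {k L : Type} [Field k] [Field L] [Algebra k L] [Algebra ℂ L]
    (δ : Derivation ℂ L L) (hδ : ∀ t : k, δ (algebraMap k L t) = 0) (c : k) (f : L⟦X⟧) :
    hat δ (c • f) = c • hat δ f := by
  ext m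
  rw [coeff_hat, PowerSeries.coeff_smul, PowerSeries.coeff_smul, coeff_hat, Algebra.smul_def,
    Derivation.leibniz, hδ, smul_zero, add_zero, smul_eq_mul, Algebra.smul_def]

private theorem ChSetup_hat_X {L : Type} [Field L] [Algebra ℂ L] (δ : Derivation ℂ L L) :
    hat δ (X : L⟦X⟧) = 0 := by
  have h := hat_X_pow_mul δ 1 (1 : L⟦X⟧)
  have h1 : hat δ (1 : L⟦X⟧) = 0 := by
    have h2 := hat_mul δ (1 : L⟦X⟧) 1
    rw [mul_one, one_mul, mul_one, left_eq_add] at h2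
    exact h2
  rwa [h1, mul_zero, mul_one, pow_one] at h

/-- the derivation `f ↦ hat δ f` of a subalgebra of `L⟦X⟧` -/
private noncomputable def ChSetup_der {k L : Type} [Field k] [Field L] [Algebra k L]
    [Algebra ℂ L] (V : Subalgebra k L⟦X⟧) (δ : Derivation ℂ L L)
    (hδ : ∀ t : k, δ (algebraMap k L t) = 0) : Derivation k V L⟦X⟧ :=
  Derivation.mk'
    { toFun := fun f => hat δ f.1
      map_add' := fun f g => hat_add δ f.1 g.1
      map_smul' := fun c f => ChSetup_hat_smul δ hδ c f.1 }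
    (fun f g => by
      change hat δ (f.1 * g.1) = f.1 * hat δ g.1 + g.1 * hat δ f.1
      rw [hat_mul, mul_comm (hat δ f.1)])

/-- CH11b. The Jacobian `det (D l (y b))` has order at most `colen Ξ`: for `δ ∈ Δ` the map
`f ↦ hat δ f` is a `k`-derivation `fracRing A → L⟦X⟧` which kills `X`, so by `DualDer.chain`
`hat δ (y b) = ∑ D l (y b) hat δ (u l)`, and CH09 applies. (`L⟦X⟧` is a module over the subalgebra
`fracRing A`.) -/
theorem order_jac_le {n : ℕ} (y : Fin n → L⟦X⟧)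
    (Δ : Set (Derivation ℂ L L)) (hΔ : ∀ δ ∈ Δ, ∀ t : k, δ (algebraMap k L t) = 0)
    (Ξ : Submodule L⟦X⟧ (Fin n → L⟦X⟧)) (hΞ : FinColen Ξ)
    (hΞΔ : ∀ v ∈ Ξ, ∃ δ ∈ Δ, ∀ l, hat δ (y l) = v l) (A : Subalgebra k L⟦X⟧)
    (hX : (X : L⟦X⟧) ∈ A) (hy : ∀ l, y l ∈ fracRing A) (u : Fin n → fracRing A)
    (D : Fin n → Derivation k (fracRing A) (fracRing A))
    (hD : DualDer k (fracRing A) ⟨X, le_fracRing A hX⟩ u D) :
    (Matrix.det (Matrix.of fun b l => D l ⟨y b, hy b⟩)).1 ≠ 0 ∧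
      (Matrix.det (Matrix.of fun b l => D l ⟨y b, hy b⟩)).1.order ≤ (colen Ξ : ℕ) := by
  let Z : Matrix (Fin n) (Fin n) L⟦X⟧ := Matrix.of fun b l => (D l ⟨y b, hy b⟩).1
  have hdet : (Matrix.det (Matrix.of fun b l => D l ⟨y b, hy b⟩)).1 = Z.det := by
    have h := (fracRing A).val.toRingHom.map_det (Matrix.of fun b l => D l ⟨y b, hy b⟩)
    refine h.trans ?_
    congr 1
  rw [hdet]
  refine order_det_le_colen Ξ hΞ Z fun v hv => ?_
  obtain ⟨δ, hδ, hv'⟩ := hΞΔ v hv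
  refine ⟨fun l => hat δ (u l).1, ?_⟩
  funext b
  have h := hD.chain L⟦X⟧ (ChSetup_der (fracRing A) δ (hΔ δ hδ)) (ChSetup_hat_X δ) ⟨y b, hy b⟩
  rw [← hv' b]
  refine Eq.trans ?_ (h.trans ?_)
  · rfl
  · rfl

end Pool.Agent.Lib_KF
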