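import Pool.Agent.Lib_KF.KCBase

/-!
# KC11: primes of height one of `R` lie over primes of height one of `ℂ[x]`, which are principal
-/

namespace Pool.Agent.Lib_KF

/-- Going down for the integral extension `ℂ[x] ⊆ R` (`Mathlib.RingTheory.IntegralClosure.GoingDown`,
`ℂ[x]` is integrally closed): the contraction of `p` has height one (it is not `0` by integrality), so
it is generated by an irreducible polynomial (`ℂ[x]` is factorial). -/
theorem kc_contract {R : Type} [CommRing R] [IsDomain R] [Algebra ℂ R] {n : ℕ}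
    {x : Fin (n + 1) → R} (hx : AlgebraicIndependent ℂ x)
    (hfin : Module.Finite (Algebra.adjoin ℂ (Set.range x)) R)
    (p : Ideal R) (hp : p.IsPrime) (hp1 : p.height = 1) :
    ∃ h₁ : MvPolynomial (Fin (n + 1)) ℂ, Irreducible h₁ ∧
      p.comap (MvPolynomial.aeval x : MvPolynomial (Fin (n + 1)) ℂ →ₐ[ℂ] R) =
        Ideal.span {h₁} := by
  classical
  let φ : MvPolynomial (Fin (n + 1)) ℂ →+* R :=
    (MvPolynomial.aeval x : MvPolynomial (Fin (n + 1)) ℂ →ₐ[ℂ] R).toRingHom
  let _ : Algebra (MvPolynomial (Fin (n + 1)) ℂ) R := φ.toAlgebra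
  have hmap : ∀ a, algebraMap (MvPolynomial (Fin (n + 1)) ℂ) R a = MvPolynomial.aeval x a :=
    fun a => rfl
  have hinj : Function.Injective (algebraMap (MvPolynomial (Fin (n + 1)) ℂ) R) := hx
  have : FaithfulSMul (MvPolynomial (Fin (n + 1)) ℂ) R :=
    (faithfulSMul_iff_algebraMap_injective _ _).2 hinj
  have : Algebra.IsIntegral (MvPolynomial (Fin (n + 1)) ℂ) R := by
    refine ⟨fun r => ?_⟩
    obtain ⟨P, hP, hr⟩ : IsIntegral (Algebra.adjoin ℂ (Set.range x)) r :=
      Algebra.IsIntegral.isIntegral r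
    let ψ : MvPolynomial (Fin (n + 1)) ℂ →+* Algebra.adjoin ℂ (Set.range x) :=
      ((MvPolynomial.aeval x : MvPolynomial (Fin (n + 1)) ℂ →ₐ[ℂ] R).codRestrict
        (Algebra.adjoin ℂ (Set.range x)) (fun a => by
          rw [Algebra.adjoin_range_eq_range_aeval]
          exact ⟨a, rfl⟩)).toRingHom
    have hψ : Function.Surjective ψ := by
      rintro ⟨y, hy⟩
      rw [Algebra.adjoin_range_eq_range_aeval] at hy
      obtain ⟨a, ha⟩ := hy
      exact ⟨a, Subtype.ext ha⟩
    obtain ⟨Q, hQ, -, hQm⟩ := Polynomial.lifts_and_natDegree_eq_and_monic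
      (f := ψ) ((Polynomial.mem_lifts _).2 (Polynomial.map_surjective ψ hψ P)) hP
    refine ⟨Q, hQm, ?_⟩
    rw [← hQ, Polynomial.eval₂_map] at hr
    exact hr
  set q : Ideal (MvPolynomial (Fin (n + 1)) ℂ) := p.under (MvPolynomial (Fin (n + 1)) ℂ) with hq
  have : q.IsPrime := Ideal.IsPrime.under _ p
  have : p.LiesOver q := ⟨rfl⟩
  have hp0 : p ≠ ⊥ := Ideal.ne_bot_of_height_eq_one hp1
  have hq0 : q ≠ ⊥ := Ideal.IsIntegral.comap_ne_bot _ hp0
  obtain ⟨h, hh, hprime⟩ := Ideal.IsPrime.exists_mem_prime_of_ne_bot ‹q.IsPrime› hq0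
  refine ⟨h, hprime.irreducible, ?_⟩
  have hle : Ideal.span {h} ≤ q := (Ideal.span_singleton_le_iff_mem _).2 hh
  have : (Ideal.span {h}).IsPrime := (Ideal.span_singleton_prime hprime.ne_zero).2 hprime
  by_contra hne
  have hlt : Ideal.span {h} < q := lt_of_le_of_ne hle fun he => hne he.symm
  obtain ⟨P, hP, hPp, hPo⟩ := Ideal.exists_ideal_lt_liesOver_of_lt (S := R) p hlt
  have h1 := Ideal.height_add_one_le_of_lt_of_isPrime hP
  rw [hp1] at h1
  have h2 : P.height = 0 := by
    have h3 : P.height + 1 ≤ 0 + 1 := by simpa using h1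
    exact nonpos_iff_eq_zero.1 ((ENat.add_le_add_iff_right ENat.one_ne_top).1 h3)
  have h3 : P = ⊥ := Ideal.height_eq_zero_iff_eq_bot.1 h2
  have h4 : algebraMap (MvPolynomial (Fin (n + 1)) ℂ) R h ∈ P := by
    have h5 : h ∈ P.under (MvPolynomial (Fin (n + 1)) ℂ) := by
      rw [← hPo.over]
      exact Ideal.mem_span_singleton_self h
    exact h5
  rw [h3, Ideal.mem_bot] at h4
  exact hprime.ne_zero (hinj (h4.trans (map_zero _).symm))

end Pool.Agent.Lib_KF
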