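import Pool.Agent.Lib_KF.KCRot

/-!
# KC17: a pole along `h₁ = 0` is not integrable
-/

open MeasureTheory
open scoped ENNReal NNReal

namespace Pool.Agent.Lib_KF

private theorem kcn_inv_sq_top (c r : ℝ) (hc : 0 < c) (hr : 0 < r) (t₀ : ℂ) :
    ∫⁻ t in Metric.ball t₀ r, ENNReal.ofReal (c * (‖t - t₀‖ ^ 2)⁻¹) = ⊤ := by
  -- disjoint balls in the dyadic annuli
  set A : ℕ → Set ℂ := fun n => Metric.ball (t₀ + ((3 / 4 * (r * (1 / 2) ^ n) : ℝ) : ℂ))
    (r * (1 / 2) ^ n / 4) with hA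
  have hpos : ∀ n : ℕ, 0 < r * (1 / 2) ^ n := fun n => by positivity
  have hbd : ∀ n, ∀ t ∈ A n, r * (1 / 2) ^ n / 2 < ‖t - t₀‖ ∧ ‖t - t₀‖ < r * (1 / 2) ^ n := by
    intro n t ht
    have hd : ‖t - (t₀ + ((3 / 4 * (r * (1 / 2) ^ n) : ℝ) : ℂ))‖ < r * (1 / 2) ^ n / 4 := by
      rw [← dist_eq_norm]
      exact ht
    have hn : ‖(((3 / 4 * (r * (1 / 2) ^ n) : ℝ)) : ℂ)‖ = 3 / 4 * (r * (1 / 2) ^ n) := by
      rw [Complex.norm_real, Real.norm_eq_abs, abs_of_pos]
      have := hpos n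
      positivity
    have h1 : t - t₀ = (t - (t₀ + ((3 / 4 * (r * (1 / 2) ^ n) : ℝ) : ℂ))) +
        ((3 / 4 * (r * (1 / 2) ^ n) : ℝ) : ℂ) := by ring
    constructor
    · have h2 : ‖(((3 / 4 * (r * (1 / 2) ^ n) : ℝ)) : ℂ)‖ ≤ ‖t - t₀‖ +
          ‖t - (t₀ + ((3 / 4 * (r * (1 / 2) ^ n) : ℝ) : ℂ))‖ := by
        have : (((3 / 4 * (r * (1 / 2) ^ n) : ℝ)) : ℂ) = (t - t₀) -
          (t - (t₀ + ((3 / 4 * (r * (1 / 2) ^ n) : ℝ) : ℂ))) := by ring
        calc ‖(((3 / 4 * (r * (1 / 2) ^ n) : ℝ)) : ℂ)‖ = ‖(t - t₀) -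
          (t - (t₀ + ((3 / 4 * (r * (1 / 2) ^ n) : ℝ) : ℂ)))‖ := by rw [← this]
          _ ≤ _ := norm_sub_le _ _
      rw [hn] at h2
      linarith
    · have h2 : ‖t - t₀‖ ≤ ‖t - (t₀ + ((3 / 4 * (r * (1 / 2) ^ n) : ℝ) : ℂ))‖ +
          ‖(((3 / 4 * (r * (1 / 2) ^ n) : ℝ)) : ℂ)‖ := by
        conv_lhs => rw [h1]
        exact norm_add_le _ _
      rw [hn] at h2
      linarith
  have hmono : ∀ m n : ℕ, m < n → r * (1 / 2) ^ n ≤ r * (1 / 2) ^ m / 2 := by
    intro m n hmn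
    have : ((1 : ℝ) / 2) ^ n ≤ (1 / 2) ^ (m + 1) :=
      pow_le_pow_of_le_one (by norm_num) (by norm_num) hmn
    calc r * (1 / 2) ^ n ≤ r * (1 / 2) ^ (m + 1) := by gcongr
      _ = r * (1 / 2) ^ m / 2 := by rw [pow_succ]; ring
  have hdisj : Pairwise (Function.onFun Disjoint A) := by
    intro m n hmn
    rw [Function.onFun, Set.disjoint_left]
    intro t htm htn
    rcases lt_or_gt_of_ne hmn with h | h
    · have := hmono m n h
      have h1 := (hbd m t htm).1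
      have h2 := (hbd n t htn).2
      linarith
    · have := hmono n m h
      have h1 := (hbd n t htn).1
      have h2 := (hbd m t htm).2
      linarith
  have hsub : (⋃ n, A n) ⊆ Metric.ball t₀ r := by
    intro t ht
    obtain ⟨n, hn⟩ := Set.mem_iUnion.1 ht
    rw [Metric.mem_ball, dist_eq_norm]
    refine lt_of_lt_of_le (hbd n t hn).2 ?_
    have : ((1 : ℝ) / 2) ^ n ≤ 1 := pow_le_one₀ (by norm_num) (by norm_num)
    nlinarith
  have hterm : ∀ n, ENNReal.ofReal (c * Real.pi / 16) ≤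
      ∫⁻ t in A n, ENNReal.ofReal (c * (‖t - t₀‖ ^ 2)⁻¹) := by
    intro n
    calc ENNReal.ofReal (c * Real.pi / 16)
        = ENNReal.ofReal (c * ((r * (1 / 2) ^ n) ^ 2)⁻¹) * volume (A n) := by
          rw [hA]
          simp only
          rw [Complex.volume_ball, ← ENNReal.ofReal_pow (by have := hpos n; positivity)]
          have hpi : ((NNReal.pi : ℝ≥0) : ℝ≥0∞) = ENNReal.ofReal Real.pi := by
            rw [← NNReal.coe_real_pi, ENNReal.ofReal_coe_nnreal]
          rw [hpi, ← ENNReal.ofReal_mul (by positivity), ← ENNReal.ofReal_mul (by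
            have := hpos n
            positivity)]
          congr 1
          have h0 : r * (1 / 2) ^ n ≠ 0 := (hpos n).ne'
          field_simp
          try ring
      _ = ∫⁻ t in A n, ENNReal.ofReal (c * ((r * (1 / 2) ^ n) ^ 2)⁻¹) := by
          rw [setLIntegral_const]
      _ ≤ _ := by
          refine setLIntegral_mono' measurableSet_ball ?_
          intro t ht
          refine ENNReal.ofReal_le_ofReal ?_
          have h1 := (hbd n t ht).1
          have h2 := (hbd n t ht).2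
          have h3 : 0 < ‖t - t₀‖ := by
            have := hpos n
            linarith
          have : ((r * (1 / 2) ^ n) ^ 2)⁻¹ ≤ (‖t - t₀‖ ^ 2)⁻¹ := by
            gcongr
          gcongr
  rw [eq_top_iff]
  calc (⊤ : ℝ≥0∞) = ∑' _ : ℕ, ENNReal.ofReal (c * Real.pi / 16) := by
        rw [ENNReal.tsum_const_eq_top_of_ne_zero]
        have : 0 < c * Real.pi / 16 := by positivity
        exact (ENNReal.ofReal_pos.2 this).ne'
    _ ≤ ∑' n, ∫⁻ t in A n, ENNReal.ofReal (c * (‖t - t₀‖ ^ 2)⁻¹) := ENNReal.tsum_le_tsum hterm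
    _ = ∫⁻ t in ⋃ n, A n, ENNReal.ofReal (c * (‖t - t₀‖ ^ 2)⁻¹) :=
        (lintegral_iUnion (fun n => measurableSet_ball) hdisj _).symm
    _ ≤ _ := lintegral_mono_set hsub

private theorem kcn_poly_top (P : Polynomial ℂ) (hP : P ≠ 0) {t₁ : ℂ} (ht₁ : P.eval t₁ = 0)
    (c r : ℝ) (hc : 0 < c) (hr : 0 < r) :
    ∫⁻ t in Metric.ball t₁ r, ENNReal.ofReal (c * (‖P.eval t‖ ^ 2)⁻¹) = ⊤ := by
  obtain ⟨Q, hQ⟩ := Polynomial.dvd_iff_isRoot.2 ht₁
  obtain ⟨L, hL⟩ := (isCompact_closedBall t₁ r).exists_bound_of_continuousOn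
    (f := fun t => Q.eval t) Q.continuous.continuousOn
  have hL' : ∀ t ∈ Metric.ball t₁ r, ‖Q.eval t‖ ≤ max L 1 := fun t ht =>
    (hL t (Metric.ball_subset_closedBall ht)).trans (le_max_left _ _)
  have hM : 0 < max L 1 := lt_of_lt_of_le one_pos (le_max_right _ _)
  rw [eq_top_iff, ← kcn_inv_sq_top (c * ((max L 1) ^ 2)⁻¹) r (by positivity) hr t₁]
  refine lintegral_mono_ae ?_
  have hfin : (P.roots.toFinset : Set ℂ).Finite := Finset.finite_toSet _
  have h0 : volume (P.roots.toFinset : Set ℂ) = 0 := hfin.measure_zero _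
  have hae : ∀ᵐ t ∂(volume.restrict (Metric.ball t₁ r)), t ∉ (P.roots.toFinset : Set ℂ) :=
    ae_restrict_of_ae (measure_eq_zero_iff_ae_notMem.1 h0)
  filter_upwards [hae, ae_restrict_mem measurableSet_ball] with t ht htb
  have hne : P.eval t ≠ 0 := by
    intro h
    apply ht
    simp [hP, h]
  refine ENNReal.ofReal_le_ofReal ?_
  rw [mul_assoc]
  refine mul_le_mul_of_nonneg_left ?_ hc.le
  rw [← mul_inv]
  have hev : P.eval t = (t - t₁) * Q.eval t := by
    conv_lhs => rw [hQ]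
    simp
  have h1 : ‖P.eval t‖ ≤ max L 1 * ‖t - t₁‖ := by
    rw [hev, norm_mul, mul_comm]
    exact mul_le_mul_of_nonneg_right (hL' t htb) (norm_nonneg _)
  have h2 : 0 < ‖P.eval t‖ := norm_pos_iff.2 hne
  rw [← mul_pow]
  gcongr

private theorem kcn_eval_smul {N : ℕ} (p : MvPolynomial (Fin N) ℂ) {w : ℕ}
    (hw : p.IsHomogeneous w) (t : ℂ) (y : Fin N → ℂ) :
    MvPolynomial.eval (t • y) p = t ^ w * MvPolynomial.eval y p := by
  rw [MvPolynomial.eval_eq', MvPolynomial.eval_eq', Finset.mul_sum]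
  refine Finset.sum_congr rfl fun d hd => ?_
  have h1 : ∑ i, d i = w := by
    have h3 := hw (MvPolynomial.mem_support_iff.1 hd)
    rw [Finsupp.weight_apply, Finsupp.sum_fintype _ _ (fun i => by simp)] at h3
    rw [← h3]
    refine Finset.sum_congr rfl fun i _ => ?_
    rw [Pi.one_apply, smul_eq_mul, mul_one]
  have h2 : ∏ i, (t • y) i ^ d i = t ^ w * ∏ i, y i ^ d i := by
    rw [← h1, ← Finset.prod_pow_eq_pow_sum, ← Finset.prod_mul_distrib]
    refine Finset.prod_congr rfl fun i _ => ?_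
    rw [Pi.smul_apply, smul_eq_mul, mul_pow]
  rw [h2]
  ring

private theorem kcn_line_eval {N : ℕ} (p : MvPolynomial (Fin N) ℂ) (y v : Fin N → ℂ) (t : ℂ) :
    (MvPolynomial.aeval (fun i => Polynomial.C (y i) + Polynomial.C (v i) * Polynomial.X) p).eval t
      = MvPolynomial.eval (y + t • v) p := by
  induction p using MvPolynomial.induction_on with
  | C c => simp
  | add p q hp hq => simp [hp, hq]
  | mul_X p i hp =>
    rw [map_mul, Polynomial.eval_mul, hp, map_mul, MvPolynomial.aeval_X, MvPolynomial.eval_X,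
      Polynomial.eval_add, Polynomial.eval_mul, Polynomial.eval_C, Polynomial.eval_C,
      Polynomial.eval_X, Pi.add_apply, Pi.smul_apply, smul_eq_mul, mul_comm (v i) t]

private theorem kcn_exists_point {N : ℕ} (h₁ a b : MvPolynomial (Fin N) ℂ) (hirr : Irreducible h₁)
    {w : ℕ} (hw : h₁.IsHomogeneous w) (ha : ¬ h₁ ∣ a) (hb : ¬ h₁ ∣ b) :
    ∃ y₀ ∈ Metric.ball (0 : Fin N → ℂ) 1, MvPolynomial.eval y₀ h₁ = 0 ∧
      MvPolynomial.eval y₀ a ≠ 0 ∧ MvPolynomial.eval y₀ b ≠ 0 := by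
  have hprime : Prime h₁ := hirr.prime
  have hI : (Ideal.span {h₁}).IsPrime := (Ideal.span_singleton_prime hprime.ne_zero).2 hprime
  have hab : ¬ h₁ ∣ a * b := fun h => (hprime.dvd_or_dvd h).elim ha hb
  have h1 : a * b ∉ MvPolynomial.vanishingIdeal ℂ
      (MvPolynomial.zeroLocus ℂ (Ideal.span {h₁})) := by
    rw [MvPolynomial.IsPrime.vanishingIdeal_zeroLocus]
    rw [Ideal.mem_span_singleton]
    exact hab
  rw [MvPolynomial.mem_vanishingIdeal_iff] at h1
  push Not at h1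
  obtain ⟨y₁, hy₁, hab₁⟩ := h1
  have hh : MvPolynomial.eval y₁ h₁ = 0 := by
    have := hy₁ h₁ (Ideal.mem_span_singleton_self h₁)
    simpa [MvPolynomial.aeval_eq_eval] using this
  have hab₂ : MvPolynomial.eval y₁ (a * b) ≠ 0 := by
    simpa [MvPolynomial.aeval_eq_eval] using hab₁
  set Q := MvPolynomial.aeval (fun i => Polynomial.C ((0 : Fin N → ℂ) i) +
    Polynomial.C (y₁ i) * Polynomial.X) (a * b) with hQ
  have hQev : ∀ t, Q.eval t = MvPolynomial.eval (t • y₁) (a * b) := by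
    intro t
    rw [hQ, kcn_line_eval, zero_add]
  have hQ0 : Q ≠ 0 := by
    intro h
    apply hab₂
    have := hQev 1
    rw [h] at this
    simpa using this.symm
  have hfin : (Q.roots.toFinset : Set ℂ).Finite := Finset.finite_toSet _
  have hnh : {t : ℂ | ‖t‖ * ‖y₁‖ < 1} ∈ nhds (0 : ℂ) := by
    have : IsOpen {t : ℂ | ‖t‖ * ‖y₁‖ < 1} :=
      isOpen_lt (continuous_norm.mul continuous_const) continuous_const
    exact this.mem_nhds (by simp)
  obtain ⟨t, ht, htQ⟩ := ((infinite_of_mem_nhds (0 : ℂ) hnh).sdiff hfin).nonempty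
  have hQt : Q.eval t ≠ 0 := by
    intro h
    apply htQ
    simp [hQ0, h]
  rw [hQev, map_mul] at hQt
  refine ⟨t • y₁, ?_, ?_, left_ne_zero_of_mul hQt, right_ne_zero_of_mul hQt⟩
  · rw [mem_ball_zero_iff, norm_smul]
    exact ht
  · rw [kcn_eval_smul h₁ hw, hh, mul_zero]

/-- A polynomial which does not vanish on a circle and is smaller at the centre has a zero inside. -/
private theorem kcn_exists_zero (P : Polynomial ℂ) {ρ m : ℝ} (hm : 0 < m)
    (hs : ∀ t ∈ Metric.sphere (0 : ℂ) ρ, m ≤ ‖P.eval t‖) (h0 : ‖P.eval 0‖ < m) (hρ : 0 < ρ) :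
    ∃ t ∈ Metric.closedBall (0 : ℂ) ρ, P.eval t = 0 := by
  by_contra hcon
  push Not at hcon
  have hd : DiffContOnCl ℂ (fun t => (P.eval t)⁻¹) (Metric.ball (0 : ℂ) ρ) := by
    apply DifferentiableOn.diffContOnCl
    rw [closure_ball _ hρ.ne']
    exact P.differentiable.differentiableOn.inv hcon
  have := Complex.norm_le_of_forall_mem_frontier_norm_le (f := fun t => (P.eval t)⁻¹)
    Metric.isBounded_ball hd (C := m⁻¹) (z := 0) (by
      intro z hz
      rw [frontier_ball _ hρ.ne'] at hz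
      rw [norm_inv]
      exact inv_anti₀ hm (hs z hz)) (subset_closure (Metric.mem_ball_self hρ))
  rw [norm_inv] at this
  have hne : 0 < ‖P.eval 0‖ := norm_pos_iff.2 (hcon 0 (Metric.mem_closedBall_self hρ.le))
  have := (inv_le_inv₀ hne hm).1 this
  linarith

/-- Proof. Some `y₁` has `h₁ (y₁) = 0`, `a b (y₁) ≠ 0` (Nullstellensatz, `(h₁)` is prime); by
homogeneity of `h₁` some `y₀ = t y₁` in the polydisc has the same property. Choose a direction `v` with
`τ ↦ h₁ (y₀ + τ v)` not identically zero and a small `ρ` with `h₁ (y₀ + τ v) ≠ 0` for `|τ| = ρ`. For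
small `z` in a complement of `ℂ v` the function `τ ↦ h₁ (y₀ + τ v + z)` has a zero `τ (z)` with
`|τ (z)| < ρ` (otherwise its inverse is holomorphic on the disc, and the maximum principle bounds `1 / |h₁ (y₀ + z)|`,
which tends to infinity). So `|h₁ (y₀ + τ v + z)| ≤ C |τ - τ (z)|`, the integrand is at least
`c |τ - τ (z)| ^ (- s j) ≥ c' |τ - τ (z)| ^ (- 2)` on a small disc, whose integral over `τ` is infinite for every `z`. Fubini. -/
theorem kc_nonint {N : ℕ} (h₁ a b : MvPolynomial (Fin N) ℂ) (hirr : Irreducible h₁)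
    {w : ℕ} (hw : h₁.IsHomogeneous w) (ha : ¬ h₁ ∣ a) (hb : ¬ h₁ ∣ b) (j : ℕ) (s : ℝ)
    (hs : 0 < s) (hsj : 2 ≤ s * j) :
    ∫⁻ y in Metric.ball (0 : Fin N → ℂ) 1, ENNReal.ofReal
      ((‖MvPolynomial.eval y a‖ / (‖MvPolynomial.eval y b‖ * ‖MvPolynomial.eval y h₁‖ ^ j)) ^ s)
      = ⊤ := by
  classical
  obtain ⟨y₀, hy₀, hy₀h, hy₀a, hy₀b⟩ := kcn_exists_point h₁ a b hirr hw ha hb
  set F : (Fin N → ℂ) → ℝ≥0∞ := fun y => ENNReal.ofReal
      ((‖MvPolynomial.eval y a‖ / (‖MvPolynomial.eval y b‖ * ‖MvPolynomial.eval y h₁‖ ^ j)) ^ s)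
    with hF
  have hca : Continuous fun y : Fin N → ℂ => MvPolynomial.eval y a := MvPolynomial.continuous_eval a
  have hcb : Continuous fun y : Fin N → ℂ => MvPolynomial.eval y b := MvPolynomial.continuous_eval b
  have hch : Continuous fun y : Fin N → ℂ => MvPolynomial.eval y h₁ :=
    MvPolynomial.continuous_eval h₁
  have hFm : Measurable F := by
    refine ENNReal.measurable_ofReal.comp ?_
    refine Measurable.pow_const ?_ s
    exact hca.norm.measurable.div (hcb.norm.measurable.mul (hch.norm.measurable.pow_const j))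
  -- the good neighbourhood of `y₀`
  set c₁ : ℝ := ‖MvPolynomial.eval y₀ a‖ / 2 with hc₁
  set C₂ : ℝ := ‖MvPolynomial.eval y₀ b‖ + 1 with hC₂
  have hc₁pos : 0 < c₁ := by
    have := norm_pos_iff.2 hy₀a
    positivity
  have hC₂pos : 0 < C₂ := by positivity
  have hev : ∀ᶠ x in nhds y₀, x ∈ Metric.ball (0 : Fin N → ℂ) 1 ∧
      c₁ ≤ ‖MvPolynomial.eval x a‖ ∧ MvPolynomial.eval x b ≠ 0 ∧ ‖MvPolynomial.eval x b‖ ≤ C₂ ∧
      ‖MvPolynomial.eval x h₁‖ ≤ 1 := by
    have e1 : ∀ᶠ x in nhds y₀, x ∈ Metric.ball (0 : Fin N → ℂ) 1 :=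
      Metric.isOpen_ball.mem_nhds hy₀
    have e2 : ∀ᶠ x in nhds y₀, c₁ < ‖MvPolynomial.eval x a‖ :=
      hca.norm.continuousAt.eventually (lt_mem_nhds (by
        have := norm_pos_iff.2 hy₀a
        rw [hc₁]
        linarith))
    have e3 : ∀ᶠ x in nhds y₀, MvPolynomial.eval x b ≠ 0 :=
      hcb.continuousAt.eventually_ne hy₀b
    have e4 : ∀ᶠ x in nhds y₀, ‖MvPolynomial.eval x b‖ < C₂ :=
      hcb.norm.continuousAt.eventually (gt_mem_nhds (by
        rw [hC₂]
        linarith))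
    have e5 : ∀ᶠ x in nhds y₀, ‖MvPolynomial.eval x h₁‖ < 1 :=
      hch.norm.continuousAt.eventually (gt_mem_nhds (by
        simp only
        rw [hy₀h]
        simp))
    filter_upwards [e1, e2, e3, e4, e5] with x x1 x2 x3 x4 x5
    exact ⟨x1, x2.le, x3, x4.le, x5.le⟩
  obtain ⟨r₀, hr₀, hball⟩ := Metric.eventually_nhds_iff_ball.1 hev
  set c₃ : ℝ := (c₁ / C₂) ^ s with hc₃
  have hc₃pos : 0 < c₃ := Real.rpow_pos_of_pos (div_pos hc₁pos hC₂pos) s
  have hFlow : ∀ x ∈ Metric.ball y₀ r₀,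
      ENNReal.ofReal (c₃ * (‖MvPolynomial.eval x h₁‖ ^ 2)⁻¹) ≤ F x := by
    intro x hx
    obtain ⟨-, x2, x3, x4, x5⟩ := hball x hx
    refine ENNReal.ofReal_le_ofReal ?_
    by_cases h0 : MvPolynomial.eval x h₁ = 0
    · rw [h0]
      simp only [norm_zero, ne_eq, OfNat.ofNat_ne_zero, not_false_eq_true, zero_pow, inv_zero,
        mul_zero]
      positivity
    · have hpos : 0 < ‖MvPolynomial.eval x h₁‖ := norm_pos_iff.2 h0
      have hbpos : 0 < ‖MvPolynomial.eval x b‖ := norm_pos_iff.2 x3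
      have h1 : c₁ / C₂ * (‖MvPolynomial.eval x h₁‖ ^ j)⁻¹ ≤ ‖MvPolynomial.eval x a‖ /
          (‖MvPolynomial.eval x b‖ * ‖MvPolynomial.eval x h₁‖ ^ j) := by
        rw [← div_div, ← div_eq_mul_inv]
        gcongr
      have h2 : (c₁ / C₂ * (‖MvPolynomial.eval x h₁‖ ^ j)⁻¹) ^ s ≤ (‖MvPolynomial.eval x a‖ /
          (‖MvPolynomial.eval x b‖ * ‖MvPolynomial.eval x h₁‖ ^ j)) ^ s :=
        Real.rpow_le_rpow (by positivity) h1 hs.le
      refine le_trans ?_ h2
      rw [Real.mul_rpow (by positivity) (by positivity)]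
      refine mul_le_mul_of_nonneg_left ?_ hc₃pos.le
      rw [Real.inv_rpow (by positivity)]
      refine inv_anti₀ (by positivity) ?_
      rw [← Real.rpow_natCast (‖MvPolynomial.eval x h₁‖) j, ← Real.rpow_mul hpos.le,
        ← Real.rpow_natCast (‖MvPolynomial.eval x h₁‖) 2]
      refine Real.rpow_le_rpow_of_exponent_ge hpos x5 ?_
      push_cast
      linarith [mul_comm s (j : ℝ)]
  -- the direction
  obtain ⟨v₁, hv₁⟩ : ∃ v₁, MvPolynomial.eval v₁ h₁ ≠ 0 := by
    by_contra hcon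
    push Not at hcon
    exact hirr.ne_zero (MvPolynomial.funext fun x => by rw [hcon x, map_zero])
  set v := v₁ - y₀ with hv
  set L : (Fin N → ℂ) → Polynomial ℂ := fun y =>
    MvPolynomial.aeval (fun i => Polynomial.C (y i) + Polynomial.C (v i) * Polynomial.X) h₁ with hL
  have hLev : ∀ y t, (L y).eval t = MvPolynomial.eval (y + t • v) h₁ := fun y t =>
    kcn_line_eval h₁ y v t
  have hL0 : L y₀ ≠ 0 := by
    intro h
    apply hv₁
    have := hLev y₀ 1
    rw [h] at this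
    simpa [hv] using this.symm
  -- the radius
  obtain ⟨ρ, ⟨hρ0, hρ1⟩, hρ2⟩ : ∃ ρ ∈ Set.Ioo (0 : ℝ) (r₀ / (4 * (‖v‖ + 1))),
      ρ ∉ ((fun t : ℂ => ‖t‖) '' ((L y₀).roots.toFinset : Set ℂ)) := by
    have hfin : ((fun t : ℂ => ‖t‖) '' ((L y₀).roots.toFinset : Set ℂ)).Finite :=
      (Finset.finite_toSet _).image _
    have hinf : (Set.Ioo (0 : ℝ) (r₀ / (4 * (‖v‖ + 1)))).Infinite :=
      Set.Ioo_infinite (by positivity)
    obtain ⟨ρ, h1, h2⟩ := (hinf.sdiff hfin).nonempty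
    exact ⟨ρ, h1, h2⟩
  have hρv : 2 * ρ * ‖v‖ ≤ r₀ / 2 := by
    have h1 : ρ * (4 * (‖v‖ + 1)) < r₀ := by
      rwa [lt_div_iff₀ (by positivity)] at hρ1
    nlinarith [norm_nonneg v]
  have hsph : ∀ t ∈ Metric.sphere (0 : ℂ) ρ, (L y₀).eval t ≠ 0 := by
    intro t ht h
    apply hρ2
    refine ⟨t, ?_, by simpa using ht⟩
    simp [hL0, h]
  obtain ⟨m, hm, hmin⟩ : ∃ m : ℝ, 0 < m ∧ ∀ t ∈ Metric.sphere (0 : ℂ) ρ,
      m < ‖MvPolynomial.eval (y₀ + t • v) h₁‖ := by
    have hne : (Metric.sphere (0 : ℂ) ρ).Nonempty := ⟨(ρ : ℂ), by simp [abs_of_pos hρ0]⟩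
    obtain ⟨t₀, ht₀, hmin⟩ := (isCompact_sphere (0 : ℂ) ρ).exists_isMinOn hne
      (f := fun t => ‖(L y₀).eval t‖) (L y₀).continuous.norm.continuousOn
    have hp : 0 < ‖(L y₀).eval t₀‖ := norm_pos_iff.2 (hsph t₀ ht₀)
    refine ⟨‖(L y₀).eval t₀‖ / 2, by positivity, fun t ht => ?_⟩
    have := hmin ht
    rw [← hLev]
    simp only [Set.mem_ofPred_eq] at this
    linarith
  have hcont2 : Continuous fun z : (Fin N → ℂ) × ℂ => ‖MvPolynomial.eval (z.1 + z.2 • v) h₁‖ :=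
    (hch.comp (continuous_fst.add (continuous_snd.smul continuous_const))).norm
  have hevs : ∀ᶠ y in nhds y₀, ∀ t ∈ Metric.sphere (0 : ℂ) ρ,
      m < ‖MvPolynomial.eval (y + t • v) h₁‖ := by
    refine IsCompact.eventually_forall_of_forall_eventually (isCompact_sphere (0 : ℂ) ρ) ?_
    intro t ht
    exact hcont2.continuousAt.eventually (lt_mem_nhds (hmin t ht))
  have hev0 : ∀ᶠ y in nhds y₀, ‖MvPolynomial.eval y h₁‖ < m :=
    hch.norm.continuousAt.eventually (gt_mem_nhds (by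
      simp only
      rw [hy₀h]
      simpa using hm))
  obtain ⟨δ₁, hδ₁, hδb⟩ := Metric.eventually_nhds_iff_ball.1 (hevs.and hev0)
  set δ := min δ₁ (r₀ / 2) with hδ
  have hδpos : 0 < δ := lt_min hδ₁ (by positivity)
  have hin : ∀ y ∈ Metric.ball y₀ δ, ∀ t ∈ Metric.ball (0 : ℂ) (2 * ρ),
      y + t • v ∈ Metric.ball y₀ r₀ := by
    intro y hy t ht
    rw [Metric.mem_ball, dist_eq_norm] at hy ⊢
    rw [mem_ball_zero_iff] at ht
    have h1 : ‖t • v‖ ≤ 2 * ρ * ‖v‖ := by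
      rw [norm_smul]
      gcongr
    have h2 : y + t • v - y₀ = (y - y₀) + t • v := by abel
    rw [h2]
    calc ‖(y - y₀) + t • v‖ ≤ ‖y - y₀‖ + ‖t • v‖ := norm_add_le _ _
      _ < δ + r₀ / 2 := by linarith
      _ ≤ r₀ := by
        have := min_le_right δ₁ (r₀ / 2)
        linarith
  -- the inner integral is infinite
  have hinner : ∀ y ∈ Metric.ball y₀ δ,
      ∫⁻ t in Metric.ball (0 : ℂ) (2 * ρ), F (y + t • v) = ⊤ := by
    intro y hy
    obtain ⟨h1, h2⟩ := hδb y (Metric.ball_subset_ball (min_le_left _ _) hy)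
    obtain ⟨t₁, ht₁, hz⟩ := kcn_exists_zero (L y) hm (fun t ht => by
      rw [hLev]
      exact (h1 t ht).le) (by
      rw [hLev]
      simpa using h2) hρ0
    have hLy : L y ≠ 0 := by
      intro h
      have h3 := h1 (ρ : ℂ) (by simp [abs_of_pos hρ0])
      rw [← hLev, h] at h3
      simp only [Polynomial.eval_zero, norm_zero] at h3
      linarith
    have hsub : Metric.ball t₁ ρ ⊆ Metric.ball (0 : ℂ) (2 * ρ) := by
      refine Metric.ball_subset_ball' ?_
      rw [Metric.mem_closedBall] at ht₁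
      linarith
    rw [eq_top_iff, ← kcn_poly_top (L y) hLy hz c₃ ρ hc₃pos hρ0]
    refine le_trans ?_ (lintegral_mono_set hsub)
    refine setLIntegral_mono' measurableSet_ball fun t ht => ?_
    rw [hLev]
    exact hFlow _ (hin y hy t (hsub ht))
  -- Fubini
  by_contra hcon
  have hlt : ∫⁻ y in Metric.ball (0 : Fin N → ℂ) 1, F y < ⊤ := lt_top_iff_ne_top.2 hcon
  have hshift : ∀ t ∈ Metric.ball (0 : ℂ) (2 * ρ),
      ∫⁻ y in Metric.ball y₀ δ, F (y + t • v) ≤ ∫⁻ y in Metric.ball (0 : Fin N → ℂ) 1, F y := by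
    intro t ht
    rw [← lintegral_indicator measurableSet_ball, ← lintegral_indicator measurableSet_ball,
      ← lintegral_add_right_eq_self (μ := volume)
        ((Metric.ball (0 : Fin N → ℂ) 1).indicator F) (t • v)]
    refine lintegral_mono fun y => ?_
    by_cases hy : y ∈ Metric.ball y₀ δ
    · rw [Set.indicator_of_mem hy]
      have hx := (hball _ (hin y hy t ht)).1
      rw [Set.indicator_of_mem hx]
    · rw [Set.indicator_of_notMem hy]
      exact zero_le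
  have hmeas : Measurable fun z : (Fin N → ℂ) × ℂ => F (z.1 + z.2 • v) :=
    hFm.comp (continuous_fst.add (continuous_snd.smul continuous_const)).measurable
  have hswap : ∫⁻ y in Metric.ball y₀ δ, ∫⁻ t in Metric.ball (0 : ℂ) (2 * ρ), F (y + t • v)
      = ∫⁻ t in Metric.ball (0 : ℂ) (2 * ρ), ∫⁻ y in Metric.ball y₀ δ, F (y + t • v) :=
    lintegral_lintegral_swap hmeas.aemeasurable
  have htop : ∫⁻ y in Metric.ball y₀ δ, ∫⁻ t in Metric.ball (0 : ℂ) (2 * ρ), F (y + t • v) = ⊤ := by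
    rw [setLIntegral_congr_fun measurableSet_ball (g := fun _ => (⊤ : ℝ≥0∞)) hinner,
      setLIntegral_const, ENNReal.top_mul]
    exact (Metric.measure_ball_pos volume y₀ hδpos).ne'
  have hle : ∫⁻ t in Metric.ball (0 : ℂ) (2 * ρ), ∫⁻ y in Metric.ball y₀ δ, F (y + t • v)
      ≤ (∫⁻ y in Metric.ball (0 : Fin N → ℂ) 1, F y) * volume (Metric.ball (0 : ℂ) (2 * ρ)) := by
    rw [← setLIntegral_const]
    exact setLIntegral_mono' measurableSet_ball hshift
  rw [← hswap, htop, top_le_iff] at hle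
  exact (ENNReal.mul_lt_top hlt measure_ball_lt_top).ne hle

end Pool.Agent.Lib_KF
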