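import Mathlib

/-!
# KC10: a normal noetherian domain is the intersection of its localizations at primes of height one
-/

namespace Pool.Agent.Lib_KF

private theorem kcNor_prime {R : Type} [CommRing R] [IsNoetherianRing R] {N D : R}
    (hND : ¬ D ∣ N) :
    ∃ (p : Ideal R) (f₀ : R), p.IsPrime ∧ ∀ f, f ∈ p ↔ D ∣ f * (f₀ * N) := by
  classical
  set x : R ⧸ Ideal.span {D} := Ideal.Quotient.mk (Ideal.span {D}) N with hx
  have hx0 : x ≠ 0 := by
    intro h
    rw [hx, Ideal.Quotient.eq_zero_iff_mem, Ideal.mem_span_singleton] at h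
    exact hND h
  let x' : Submodule.span R {x} := ⟨x, Submodule.mem_span_singleton_self x⟩
  have hx' : x' ≠ 0 := fun h => hx0 (congrArg Subtype.val h)
  obtain ⟨p, hp, -⟩ := exists_le_isAssociatedPrime_of_isNoetherianRing (R := R) x' hx'
  rw [isAssociatedPrime_iff] at hp
  obtain ⟨hprime, y, hy⟩ := hp
  obtain ⟨f₀, hf₀⟩ := Submodule.mem_span_singleton.mp y.2
  refine ⟨p, f₀, hprime, fun f => ?_⟩
  have hsm : ∀ r : R, r • x = Ideal.Quotient.mk (Ideal.span {D}) (r * N) := by
    intro r
    rw [hx, map_mul]
    rfl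
  have h1 : f ∈ p ↔ f • y = 0 := by
    rw [hy, Submodule.mem_colon_singleton, Submodule.mem_bot]
  have h2 : f • y = 0 ↔ f • (y : R ⧸ Ideal.span {D}) = 0 := by
    rw [← Submodule.coe_smul, Submodule.coe_eq_zero]
  rw [h1, h2, ← hf₀, smul_smul, hsm, Ideal.Quotient.eq_zero_iff_mem, Ideal.mem_span_singleton,
    mul_assoc]

private theorem kcNor_dvr {S : Type} [CommRing S] [IsDomain S] [IsLocalRing S]
    [IsNoetherianRing S] [IsIntegrallyClosed S] {a d : S} (hd : d ≠ 0) (had : ¬ d ∣ a)
    (hm : ∀ m ∈ IsLocalRing.maximalIdeal S, d ∣ a * m)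
    (hne : IsLocalRing.maximalIdeal S ≠ ⊥) : IsDiscreteValuationRing S := by
  classical
  have ha : a ≠ 0 := by
    rintro rfl
    exact had (dvd_zero d)
  have hprin : ∃ m₁ ∈ IsLocalRing.maximalIdeal S, ∀ n ∈ IsLocalRing.maximalIdeal S,
      a * m₁ ≠ d * n := by
    by_contra hcon
    push Not at hcon
    let K := FractionRing S
    have hd' : algebraMap S K d ≠ 0 := by
      intro h
      exact hd ((IsFractionRing.injective S K) (by rw [h, map_zero]))
    let t : K := algebraMap S K a / algebraMap S K d
    let Nn : Submodule S K := Submodule.map (Algebra.linearMap S K) (IsLocalRing.maximalIdeal S)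
    have hint : IsIntegral S t := by
      refine isIntegral_of_smul_mem_submodule Nn ?_ ?_ t ?_
      · intro hbot
        apply hne
        rw [eq_bot_iff]
        intro z hz
        have : Algebra.linearMap S K z ∈ Nn := Submodule.mem_map_of_mem hz
        rw [hbot, Submodule.mem_bot] at this
        rw [Submodule.mem_bot]
        exact (IsFractionRing.injective S K) (by rw [map_zero]; exact this)
      · exact Submodule.FG.map _ (IsNoetherian.noetherian _)
      · rintro _ ⟨m, hmm, rfl⟩
        obtain ⟨n, hn, hmn⟩ := hcon m hmm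
        refine ⟨n, hn, ?_⟩
        rw [Algebra.linearMap_apply, Algebra.linearMap_apply, smul_eq_mul]
        have h3 : algebraMap S K a * algebraMap S K m = algebraMap S K d * algebraMap S K n := by
          rw [← map_mul, ← map_mul, hmn]
        rw [div_mul_eq_mul_div, h3, mul_div_cancel_left₀ _ hd']
    obtain ⟨y, hy⟩ := IsIntegrallyClosed.algebraMap_eq_of_integral hint
    apply had
    refine ⟨y, ?_⟩
    apply IsFractionRing.injective S K
    rw [map_mul, hy]
    exact (mul_div_cancel₀ _ hd').symm
  obtain ⟨m₁, hm₁, hno⟩ := hprin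
  obtain ⟨u, hu⟩ := hm m₁ hm₁
  have hunit : IsUnit u := by
    by_contra hnu
    exact hno u ((IsLocalRing.mem_maximalIdeal u).mpr hnu) hu
  obtain ⟨v, hv⟩ := hunit.exists_right_inv
  have hmax : IsLocalRing.maximalIdeal S = Ideal.span {m₁} := by
    apply le_antisymm
    · intro m hmm
      obtain ⟨c, hc⟩ := hm m hmm
      rw [Ideal.mem_span_singleton]
      refine ⟨v * c, ?_⟩
      apply mul_left_cancel₀ ha
      calc a * m = d * c := hc
        _ = d * (u * v) * c := by rw [hv, mul_one]
        _ = (d * u) * (v * c) := by ring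
        _ = a * (m₁ * (v * c)) := by rw [← hu, mul_assoc]
    · rw [Ideal.span_singleton_le_iff_mem]
      exact hm₁
  have hnf : ¬ IsField S := fun h => hne (IsLocalRing.isField_iff_maximalIdeal_eq.mp h)
  have hT := (IsDiscreteValuationRing.TFAE S hnf).out 4 0
  exact hT.mp ⟨⟨m₁, hmax⟩⟩

/-- Proof: let `I = {f | D ∣ f N} ≠ ⊤` and let `p = (D : g)`, `g ∈ (N)` modulo `D`, be an associated
prime of the cyclic submodule of `R / D` generated by `N` (`R` noetherian), so `p = {f | D ∣ f g}`
is prime, `D ∤ g` and `g = f₀ N` modulo `D`. In `S = R_p` with maximal ideal `𝔪` we have `(g / D) 𝔪 ⊆ S`; if `(g / D) 𝔪 ⊆ 𝔪` then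
`g / D` is integral over `S` (Cayley-Hamilton, `𝔪` is finitely generated and faithful), so `D ∣ g`
in `S`, i.e. some `s ∉ p` has `D ∣ s g`: contradiction. So `(g / D) 𝔪 = S`, `𝔪 = (D / g)` is
principal, `𝔪 ≠ 0`, `S` is a discrete valuation ring and `p` has height one (Krull). And `D ∤ N` in `S`,
otherwise `D ∣ g` in `S`. -/
theorem kc_normal {R : Type} [CommRing R] [IsDomain R] [IsNoetherianRing R]
    [IsIntegrallyClosed R] {N D : R} (hD : D ≠ 0) (hND : ¬ D ∣ N) :
    ∃ (p : Ideal R) (_ : p.IsPrime), p.height = 1 ∧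
      ∃ _ : IsDomain (Localization.AtPrime p),
        IsDiscreteValuationRing (Localization.AtPrime p) ∧
        ¬ algebraMap R (Localization.AtPrime p) D ∣ algebraMap R (Localization.AtPrime p) N := by
  classical
  obtain ⟨p, f₀, hp, hmem⟩ := kcNor_prime hND
  have := hp
  let S := Localization.AtPrime p
  have hle : p.primeCompl ≤ nonZeroDivisors R := Ideal.primeCompl_le_nonZeroDivisors p
  have hdom : IsDomain S := IsLocalization.isDomain_localization hle
  have : IsNoetherianRing S := IsLocalization.isNoetherianRing p.primeCompl S inferInstance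
  have : IsIntegrallyClosed S := isIntegrallyClosed_of_isLocalization S p.primeCompl hle
  have hinj : Function.Injective (algebraMap R S) := IsLocalization.injective S hle
  have hd : algebraMap R S D ≠ 0 := fun h => hD (hinj (by rw [h, map_zero]))
  have key : ¬ algebraMap R S D ∣ algebraMap R S (f₀ * N) := by
    rintro ⟨c, hc⟩
    obtain ⟨⟨r, s⟩, hrs⟩ := IsLocalization.mk'_surjective p.primeCompl c
    have h1 : algebraMap R S (s : R) * c = algebraMap R S r := by
      rw [← hrs]
      exact IsLocalization.mk'_spec' S r s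
    have h2 : algebraMap R S ((s : R) * (f₀ * N)) = algebraMap R S (D * r) := by
      rw [map_mul _ (s : R), hc, map_mul, ← h1]
      ring
    have h3 := hinj h2
    exact s.2 ((hmem _).mpr ⟨r, h3⟩)
  have hall : ∀ m ∈ IsLocalRing.maximalIdeal S, algebraMap R S D ∣ algebraMap R S (f₀ * N) * m := by
    intro m hm
    obtain ⟨⟨r, s⟩, hrs⟩ := IsLocalization.mk'_surjective p.primeCompl m
    have hr : r ∈ p := by
      have h1 : algebraMap R S r = m * algebraMap R S (s : R) := by
        rw [← hrs]
        exact (IsLocalization.mk'_spec S r s).symm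
      have h2 : algebraMap R S r ∈ IsLocalRing.maximalIdeal S := by
        rw [h1]
        exact Ideal.mul_mem_right _ _ hm
      exact (IsLocalization.AtPrime.to_map_mem_maximal_iff S p r).mp h2
    obtain ⟨c, hc⟩ := (hmem r).mp hr
    have hrs' : IsLocalization.mk' S r s = m := hrs
    have h4 : m = IsLocalization.mk' S 1 s * algebraMap R S r := by
      rw [← hrs', IsLocalization.mk'_eq_mul_mk'_one (S := S) r s, mul_comm]
    refine ⟨IsLocalization.mk' S 1 s * algebraMap R S c, ?_⟩
    calc algebraMap R S (f₀ * N) * m = IsLocalization.mk' S 1 s * algebraMap R S (r * (f₀ * N)) := by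
          rw [h4, map_mul _ r]; ring
      _ = IsLocalization.mk' S 1 s * (algebraMap R S D * algebraMap R S c) := by
          rw [hc, map_mul]
      _ = _ := by ring
  have hne : IsLocalRing.maximalIdeal S ≠ ⊥ := by
    intro hbot
    have hDp : D ∈ p := (hmem D).mpr (Dvd.intro _ rfl)
    have := (IsLocalization.AtPrime.to_map_mem_maximal_iff S p D).mpr hDp
    rw [hbot, Ideal.mem_bot] at this
    exact hd this
  have hdvr : IsDiscreteValuationRing S := kcNor_dvr hd key hall hne
  refine ⟨p, hp, ?_, hdom, hdvr, ?_⟩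
  · have h1 := IsLocalization.AtPrime.ringKrullDim_eq_height p S
    rw [IsDiscreteValuationRing.ringKrullDim_eq_one S] at h1
    exact_mod_cast h1.symm
  · intro h
    apply key
    rw [map_mul]
    exact Dvd.dvd.mul_left h _

end Pool.Agent.Lib_KF
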