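import Pool.Agent.Lib_KF.KCBase
import Pool.Agent.Lib_KF.ChNorm
import Pool.Agent.Lib_GD.DvrCoords

/-!
# KC12: the order of `G` along a prime of height one is at least `r (e - 1)`
-/

open scoped ENNReal NNReal

namespace Pool.Agent.Lib_KF

open Pool.Agent.Lib_GD

private theorem KCOrdG_ord_prod {R : Type} [CommRing R] [IsDomain R] {m : Type} (s : Finset m)
    (c : m → R) (hc : ∀ i, c i ≠ 0) : Ring.ord R (∏ i ∈ s, c i) = ∑ i ∈ s, Ring.ord R (c i) := by
  classical
  induction s using Finset.induction_on with
  | empty => simp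
  | insert a s ha ih =>
    rw [Finset.prod_insert ha, Finset.sum_insert ha, Ring.ord_mul R, ih]
    exact mem_nonZeroDivisors_of_ne_zero (Finset.prod_ne_zero_iff.2 fun i _ => hc i)

/-- The length of the cokernel of a square matrix over a principal ideal domain. -/
private theorem KCOrdG_length {R : Type} [CommRing R] [IsDomain R] [IsPrincipalIdealRing R]
    {m : Type} [Fintype m] [DecidableEq m] (A : Matrix m m R) (hA : A.det ≠ 0) :
    Module.length R ((m → R) ⧸ Submodule.span R (Set.range A)) = Ring.ord R A.det := by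
  set N : Submodule R (m → R) := Submodule.span R (Set.range A) with hN
  have hr : LinearMap.range A.vecMulLinear = N := by
    rw [range_vecMulLinear]
    rfl
  have hinj : Function.Injective A.vecMulLinear := by
    rw [← LinearMap.ker_eq_bot, LinearMap.ker_eq_bot']
    intro x hx
    exact Matrix.eq_zero_of_vecMul_eq_zero hA hx
  let eN : (m → R) ≃ₗ[R] N :=
    (LinearEquiv.ofInjective A.vecMulLinear hinj).trans (LinearEquiv.ofEq _ _ hr)
  have heN : ∀ x, ((eN x : N) : m → R) = A.vecMulLinear x := fun x => rfl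
  have hrank : Module.finrank R N = Module.finrank R (m → R) := eN.finrank_eq.symm
  let b := Pi.basisFun R m
  let b' := Submodule.smithNormalFormTopBasis b hrank
  let ab := Submodule.smithNormalFormBotBasis b hrank
  let c := Submodule.smithNormalFormCoeffs b hrank
  have hab : ∀ i, (ab i : m → R) = c i • b' i := Submodule.smithNormalFormBotBasis_def b hrank
  have hc : ∀ i, c i ≠ 0 := fun i => Submodule.smithNormalFormCoeffs_ne_zero b hrank i
  rw [(N.quotientEquivPiSpan b hrank).length_eq, Module.length_pi_of_fintype]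
  have h1 : ∑ i, Module.length R (R ⧸ Ideal.span ({c i} : Set R)) = Ring.ord R (∏ i, c i) := by
    rw [KCOrdG_ord_prod _ _ hc]
    rfl
  refine h1.trans (Ring.ord_eq_of_associated ?_)
  -- the two determinants
  let ψ : (m → R) →ₗ[R] (m → R) := N.subtype ∘ₗ (b'.equiv ab (Equiv.refl m)).toLinearMap
  have hψ : LinearMap.det ψ = ∏ i, c i := by
    rw [← LinearMap.det_toMatrix b', ← Matrix.det_diagonal]
    congr 1
    ext i j
    rw [LinearMap.toMatrix_apply]
    have h2 : ψ (b' j) = c j • b' j := by
      rw [← hab j]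
      show ((b'.equiv ab (Equiv.refl m) (b' j) : N) : m → R) = ab j
      rw [Module.Basis.equiv_apply]
      rfl
    rw [h2, map_smul, Finsupp.smul_apply, Module.Basis.repr_self, Matrix.diagonal_apply,
      smul_eq_mul, Finsupp.single_apply]
    split_ifs with h3 h4 h4
    · rw [mul_one, h3]
    · exact absurd h3.symm h4
    · exact absurd h4.symm h3
    · rw [mul_zero]
  have hφ : LinearMap.det A.vecMulLinear = A.det := by
    rw [← Matrix.mulVecLin_transpose, ← Matrix.toLin'_apply', LinearMap.det_toLin',
      Matrix.det_transpose]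
  rw [← hψ, ← hφ]
  refine (LinearMap.associated_det_of_eq_comp (eN.trans (b'.equiv ab (Equiv.refl m)).symm)
    A.vecMulLinear ψ fun x => ?_).symm
  show A.vecMulLinear x = ((b'.equiv ab (Equiv.refl m)
    ((b'.equiv ab (Equiv.refl m)).symm (eN x)) : N) : m → R)
  rw [LinearEquiv.apply_symm_apply, heN]

/-- If the cokernel has finite length the determinant is not zero. -/
private theorem KCOrdG_det_ne {R : Type} [CommRing R] [IsDomain R] [IsDiscreteValuationRing R]
    {m : Type} [Fintype m] [DecidableEq m] (A : Matrix m m R)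
    (h : Module.length R ((m → R) ⧸ Submodule.span R (Set.range A)) ≠ ⊤) : A.det ≠ 0 := by
  intro h0
  obtain ⟨w, hw0, hw⟩ := Matrix.exists_mulVec_eq_zero_iff.2 h0
  obtain ⟨q, hq⟩ : ∃ q, w q ≠ 0 := by
    by_contra hne
    push Not at hne
    exact hw0 (funext hne)
  let ℓ : (m → R) →ₗ[R] R := ∑ i, w i • LinearMap.proj i
  have hℓ : ∀ x, ℓ x = ∑ i, w i * x i := by
    intro x
    simp [ℓ, LinearMap.sum_apply]
  have hker : Submodule.span R (Set.range A) ≤ LinearMap.ker ℓ := by
    rw [Submodule.span_le]
    rintro _ ⟨p, rfl⟩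
    show ℓ (A p) = 0
    rw [hℓ]
    have := congrFun hw p
    rw [Matrix.mulVec, dotProduct, Pi.zero_apply] at this
    rw [← this]
    exact Finset.sum_congr rfl fun i _ => mul_comm _ _
  let g : R →ₗ[R] ((m → R) ⧸ Submodule.span R (Set.range A)) :=
    (Submodule.mkQ _) ∘ₗ (LinearMap.single R (fun _ => R) q)
  have hg : Function.Injective g := by
    rw [← LinearMap.ker_eq_bot, LinearMap.ker_eq_bot']
    intro x hx
    have h1 : (Pi.single q x : m → R) ∈ Submodule.span R (Set.range A) :=
      (Submodule.Quotient.mk_eq_zero _).1 hx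
    have h2 : ℓ (Pi.single q x) = 0 := hker h1
    rw [hℓ, Finset.sum_eq_single q] at h2
    · rw [Pi.single_eq_same] at h2
      exact (mul_eq_zero.1 h2).resolve_left hq
    · intro i _ hi
      rw [Pi.single_eq_of_ne hi, mul_zero]
    · intro hh
      exact absurd (Finset.mem_univ q) hh
  have h3 : Module.length R R ≠ ⊤ := fun hh =>
    h (top_le_iff.1 (hh ▸ Module.length_le_of_injective g hg))
  have h4 : IsArtinian R R := (isFiniteLength_iff_isNoetherian_isArtinian.1
    (Module.length_ne_top_iff.1 h3)).2
  have h5 : IsArtinianRing R := h4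
  exact IsDiscreteValuationRing.not_isField R (IsArtinianRing.isField_of_isDomain R)

private theorem KCOrdG_ord_dvr {R : Type} [CommRing R] [IsDomain R] [IsDiscreteValuationRing R]
    (x : R) (hx : x ≠ 0) : Ring.ord R x = IsDiscreteValuationRing.addVal R x := by
  obtain ⟨ϖ, hϖ⟩ := IsDiscreteValuationRing.exists_irreducible R
  obtain ⟨n, u, rfl⟩ := IsDiscreteValuationRing.eq_unit_mul_pow_irreducible hx hϖ
  rw [IsDiscreteValuationRing.addVal_def' u hϖ n, Ring.ord_mul_of_isUnit_left u.isUnit,
    Ring.ord_pow (mem_nonZeroDivisors_of_ne_zero hϖ.ne_zero), Ring.ord_of_irreducible hϖ,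
    nsmul_eq_mul, mul_one]

/-- `h₁ ∤ ∂_b h₁` for some `b`. -/
private theorem KCOrdG_pderiv {σ : Type} (f : MvPolynomial σ ℂ) (hf : Irreducible f) :
    ∃ b, ¬ f ∣ MvPolynomial.pderiv b f := by
  classical
  by_contra hcon
  push Not at hcon
  have h0 : ∀ b, MvPolynomial.pderiv b f = 0 := by
    intro b
    by_contra hb
    obtain ⟨q, hq⟩ := hcon b
    have hq0 : q ≠ 0 := by
      rintro rfl
      exact hb (by rw [hq, mul_zero])
    have h1 : (MvPolynomial.pderiv b f).totalDegree = f.totalDegree + q.totalDegree := by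
      rw [hq, MvPolynomial.totalDegree_mul_of_isDomain hf.ne_zero hq0]
    obtain ⟨m, hm, hm2⟩ : ∃ m ∈ (MvPolynomial.pderiv b f).support,
        (MvPolynomial.pderiv b f).totalDegree = m.sum fun _ e => e := by
      have hne : (MvPolynomial.pderiv b f).support.Nonempty := by
        rw [Finset.nonempty_iff_ne_empty]
        intro h
        exact hb (MvPolynomial.support_eq_empty.1 h)
      obtain ⟨m, hm, hm2⟩ := Finset.exists_mem_eq_sup _ hne
        (fun m : σ →₀ ℕ => m.sum fun _ e => e)
      exact ⟨m, hm, hm2⟩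
    rw [MvPolynomial.mem_support_iff, MvPolynomial.coeff_pderiv] at hm
    have h2 : m + Finsupp.single b 1 ∈ f.support :=
      MvPolynomial.mem_support_iff.2 (left_ne_zero_of_mul hm)
    have h3 := MvPolynomial.le_totalDegree h2
    have h4 : ((m + Finsupp.single b 1 : σ →₀ ℕ).sum fun _ e => e) =
        (m.sum fun _ e => e) + 1 := by
      rw [Finsupp.sum_add_index' (by simp) (by simp)]
      simp
    omega
  have h1 : f = MvPolynomial.C (MvPolynomial.coeff 0 f) := by
    ext m
    rw [MvPolynomial.coeff_C]
    split_ifs with hm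
    · rw [hm]
    · obtain ⟨b, hb⟩ : ∃ b, m b ≠ 0 := by
        by_contra h
        push Not at h
        exact hm (by ext b; simp [h b])
      have h2 := MvPolynomial.coeff_pderiv (i := b) f (m - Finsupp.single b 1)
      rw [h0 b, MvPolynomial.coeff_zero] at h2
      have h3 : m - Finsupp.single b 1 + Finsupp.single b 1 = m := by
        apply tsub_add_cancel_of_le
        rw [Finsupp.single_le_iff]
        omega
      rw [h3] at h2
      rcases mul_eq_zero.1 h2.symm with h4 | h4
      · exact h4
      · exfalso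
        have h5 : ((((m - Finsupp.single b 1 : σ →₀ ℕ) b + 1 : ℕ)) : ℂ) = 0 := by
          push_cast
          exact h4
        rw [Nat.cast_eq_zero] at h5
        omega
  have h2 : MvPolynomial.coeff 0 f ≠ 0 := by
    intro h
    rw [h, map_zero] at h1
    exact hf.ne_zero h1
  apply hf.not_isUnit
  rw [h1]
  exact (isUnit_iff_ne_zero.2 h2).map MvPolynomial.C

/-- the differential of a polynomial -/
private theorem KCOrdG_D {V : Type} [CommRing V] [Algebra ℂ V] {σ : Type} [Fintype σ] (y : σ → V)
    (f : MvPolynomial σ ℂ) :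
    KaehlerDifferential.D ℂ V (MvPolynomial.aeval y f) =
      ∑ b, MvPolynomial.aeval y (MvPolynomial.pderiv b f) • KaehlerDifferential.D ℂ V (y b) := by
  classical
  induction f using MvPolynomial.induction_on with
  | C a =>
    rw [MvPolynomial.aeval_C, Derivation.map_algebraMap]
    simp
  | add p q hp hq =>
    rw [map_add, map_add, hp, hq, ← Finset.sum_add_distrib]
    refine Finset.sum_congr rfl fun b _ => ?_
    rw [map_add, map_add, add_smul]
  | mul_X p i hp =>
    rw [map_mul, Derivation.leibniz, hp, MvPolynomial.aeval_X]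
    have h1 : ∀ b, MvPolynomial.aeval y (MvPolynomial.pderiv b (p * MvPolynomial.X i)) •
        KaehlerDifferential.D ℂ V (y b) =
        (y i) • (MvPolynomial.aeval y (MvPolynomial.pderiv b p) •
          KaehlerDifferential.D ℂ V (y b)) +
        (if b = i then MvPolynomial.aeval y p • KaehlerDifferential.D ℂ V (y b) else 0) := by
      intro b
      rw [MvPolynomial.pderiv_mul, map_add, map_mul, map_mul, MvPolynomial.aeval_X, add_smul,
        mul_comm, mul_smul]
      congr 1
      split_ifs with h
      · rw [h, MvPolynomial.pderiv_X_self, map_one, mul_one]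
      · rw [MvPolynomial.pderiv_X_of_ne (Ne.symm h), map_zero, mul_zero, zero_smul]
    rw [Finset.sum_congr rfl fun b _ => h1 b, Finset.sum_add_distrib, Finset.sum_ite_eq' _ i,
      if_pos (Finset.mem_univ i), ← Finset.smul_sum, add_comm]

/-- Cramer: a vector with a unit entry whose product with `A` is divisible by `s`. -/
private theorem KCOrdG_dvd {V : Type} [CommRing V] {m : Type} [Fintype m] [DecidableEq m]
    (A : Matrix m m V) (w v : m → V) (s : V) (h : Matrix.vecMul w A = s • v) (i : m)
    (hi : IsUnit (w i)) : s ∣ A.det := by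
  have h1 : Matrix.vecMul (Matrix.vecMul w A) A.adjugate = A.det • w := by
    rw [Matrix.vecMul_vecMul, Matrix.mul_adjugate, Matrix.vecMul_smul, Matrix.vecMul_one]
  rw [h, Matrix.smul_vecMul] at h1
  have h2 := congrFun h1 i
  rw [Pi.smul_apply, Pi.smul_apply, smul_eq_mul, smul_eq_mul] at h2
  have h3 : s ∣ A.det * w i := ⟨_, h2.symm⟩
  exact (IsUnit.dvd_mul_right hi).1 h3

/-- the transcendence degree of a localisation of a finite extension of `ℂ[x]` -/
private theorem KCOrdG_trdeg {R : Type} [CommRing R] [IsDomain R] [Algebra ℂ R] {n : ℕ}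
    {x : Fin (n + 1) → R} (hx : AlgebraicIndependent ℂ x)
    (hfin : Module.Finite (Algebra.adjoin ℂ (Set.range x)) R) (p : Ideal R) [p.IsPrime]
    [IsDomain (Localization.AtPrime p)] :
    Algebra.trdeg ℂ (Localization.AtPrime p) = (n + 1 : ℕ) := by
  have := hfin
  have : Algebra.IsIntegral (Algebra.adjoin ℂ (Set.range x)) R := Algebra.IsIntegral.of_finite _ _
  have h1 : IsTranscendenceBasis ℂ x := by
    rw [hx.isTranscendenceBasis_iff_isAlgebraic]
    infer_instance
  have h2 := h1.cardinalMk_eq_trdeg
  have h3 : Algebra.IsAlgebraic R (Localization.AtPrime p) :=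
    IsLocalization.isAlgebraic _ p.primeCompl
  have : FaithfulSMul R (Localization.AtPrime p) :=
    (faithfulSMul_iff_algebraMap_injective _ _).2
      (IsLocalization.injective _ p.primeCompl_le_nonZeroDivisors)
  have h4 := trdeg_add_eq ℂ R (A := Localization.AtPrime p)
  rw [trdeg_eq_zero (R := R) (A := Localization.AtPrime p), add_zero] at h4
  rw [← h4, ← h2]
  simp

variable {R : Type} [CommRing R] [Algebra ℂ R] {𝒜 : ℕ → Submodule ℂ R}
    [GradedAlgebra 𝒜] {n r d : ℕ} {x : Fin (n + 1) → R} {G : R}

/-- `length (S / (g)) = ord g` in a discrete valuation ring. -/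
theorem kc_length_quot {S : Type} [CommRing S] [IsDomain S] [IsDiscreteValuationRing S] (g : S) :
    Module.length S (S ⧸ Ideal.span {g}) = IsDiscreteValuationRing.addVal S g := by
  by_cases hg : g = 0
  · subst hg
    rw [IsDiscreteValuationRing.addVal_zero]
    have h1 : Ring.ord S (0 : S) = Module.length S S := Ring.ord_zero S
    have h2 : Module.length S (S ⧸ Ideal.span {(0 : S)}) = Ring.ord S (0 : S) := rfl
    rw [h2, h1]
    by_contra h
    have h4 : IsArtinian S S := (isFiniteLength_iff_isNoetherian_isArtinian.1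
      (Module.length_ne_top_iff.1 h)).2
    have h5 : IsArtinianRing S := h4
    exact IsDiscreteValuationRing.not_isField S (IsArtinianRing.isField_of_isDomain S)
  · exact KCOrdG_ord_dvr g hg

/-- `length (Ω_{R_p} / ⟨dx_b⟩) ≥ e - 1`, `e = ord_p (h₁)`, `p ∩ ℂ[x] = (h₁)`. Write
`h₁ = u t ^ e`, so `d h₁ ∈ t ^ (e - 1) Ω`, `d h₁ = ∑ (∂_b h₁) dx_b`, and some `∂_b h₁` is a unit of
`R_p` (it is not divisible by `h₁` by degree). So `⟨dx⟩ + t ^ (e - 1) Ω` is generated by `n` of the
`dx_b` and `t ^ (e - 1) Ω`, and `Ω / t ^ (e - 1) Ω` has length at least `(n + 1) (e - 1)`, because `Ω` is finitely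
generated over `R_p` of rank `n + 1 = trdeg`. (The quotient by `n` elements killed by `t ^ (e - 1)` loses at
most `n (e - 1)`.) -/
theorem kc_length_kaehler (h : IsFano 𝒜 n r d x G) (p : Ideal R) (hp : p.IsPrime)
    (hdom : IsDomain (Localization.AtPrime p))
    (hdvr : IsDiscreteValuationRing (Localization.AtPrime p))
    (h₁ : MvPolynomial (Fin (n + 1)) ℂ) (hirr : Irreducible h₁)
    (hc : p.comap (MvPolynomial.aeval x : MvPolynomial (Fin (n + 1)) ℂ →ₐ[ℂ] R) =
        Ideal.span {h₁}) :
    IsDiscreteValuationRing.addVal (Localization.AtPrime p)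
        (algebraMap R (Localization.AtPrime p) (MvPolynomial.aeval x h₁)) - 1 ≤
      Module.length (Localization.AtPrime p)
      (KaehlerDifferential ℂ (Localization.AtPrime p) ⧸
        Submodule.span (Localization.AtPrime p) (Set.range fun b =>
          KaehlerDifferential.D ℂ (Localization.AtPrime p)
            (algebraMap R (Localization.AtPrime p) (x b)))) := by
  classical
  have := h.domain
  have := h.x_finite
  set V := Localization.AtPrime p with hV
  have hft := h.finiteType
  have hess : Algebra.EssFiniteType ℂ V := by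
    have h1 : Algebra.EssFiniteType R V := Algebra.EssFiniteType.of_isLocalization _ p.primeCompl
    exact Algebra.EssFiniteType.comp ℂ R V
  obtain ⟨t, w, b, ht, -, -⟩ := exists_dvr_coords V n (KCOrdG_trdeg h.x_indep h.x_finite p)
  let y : Fin (n + 1) → V := fun i => algebraMap R V (x i)
  have hy : ∀ f : MvPolynomial (Fin (n + 1)) ℂ,
      algebraMap R V (MvPolynomial.aeval x f) = MvPolynomial.aeval y f := by
    intro f
    have h1 : (IsScalarTower.toAlgHom ℂ R V).comp (MvPolynomial.aeval x) =
        MvPolynomial.aeval y := by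
      apply MvPolynomial.algHom_ext
      intro i
      simp [y]
    rw [← h1]
    rfl
  have hinj : Function.Injective (algebraMap R V) :=
    IsLocalization.injective _ p.primeCompl_le_nonZeroDivisors
  have hne : MvPolynomial.aeval y h₁ ≠ 0 := by
    rw [← hy]
    intro h0
    have h1 : MvPolynomial.aeval x h₁ = 0 := hinj (by rw [h0, map_zero])
    exact hirr.ne_zero (h.x_indep (by rw [h1, map_zero]))
  obtain ⟨e, u, hu⟩ := IsDiscreteValuationRing.eq_unit_mul_pow_irreducible hne ht
  rw [hy, hu, IsDiscreteValuationRing.addVal_def' u ht e]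
  -- some derivative is a unit
  obtain ⟨i₀, hi₀⟩ := KCOrdG_pderiv h₁ hirr
  have hunit : IsUnit (MvPolynomial.aeval y (MvPolynomial.pderiv i₀ h₁)) := by
    rw [← hy, IsLocalization.AtPrime.isUnit_to_map_iff V p]
    intro hmem
    have h1 : MvPolynomial.pderiv i₀ h₁ ∈ p.comap
        (MvPolynomial.aeval x : MvPolynomial (Fin (n + 1)) ℂ →ₐ[ℂ] R) := hmem
    rw [hc, Ideal.mem_span_singleton] at h1
    exact hi₀ h1
  -- the matrix
  let c : Module.Basis (Fin (n + 1)) V (KaehlerDifferential ℂ V) :=
    b.reindex (Fintype.equivOfCardEq (by simp))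
  let A : Matrix (Fin (n + 1)) (Fin (n + 1)) V := fun i j =>
    c.equivFun (KaehlerDifferential.D ℂ V (y i)) j
  have hlen : Module.length V (KaehlerDifferential ℂ V ⧸
      Submodule.span V (Set.range fun b => KaehlerDifferential.D ℂ V (y b))) =
      Module.length V ((Fin (n + 1) → V) ⧸ Submodule.span V (Set.range A)) := by
    refine (Submodule.Quotient.equiv _ _ c.equivFun ?_).length_eq
    rw [Submodule.map_span, ← Set.range_comp]
    rfl
  have hgoal : Module.length V (KaehlerDifferential ℂ V ⧸
      Submodule.span V (Set.range fun b => KaehlerDifferential.D ℂ V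
        (algebraMap R V (x b)))) =
      Module.length V ((Fin (n + 1) → V) ⧸ Submodule.span V (Set.range A)) := hlen
  rw [hgoal]
  by_cases hdet : A.det = 0
  · have h1 : Module.length V ((Fin (n + 1) → V) ⧸ Submodule.span V (Set.range A)) = ⊤ := by
      by_contra h2
      exact KCOrdG_det_ne A h2 hdet
    rw [h1]
    exact le_top
  rw [KCOrdG_length A hdet]
  rcases e with _ | e
  · simp
  have hdvd : t ^ e ∣ A.det := by
    refine KCOrdG_dvd A (fun i => MvPolynomial.aeval y (MvPolynomial.pderiv i h₁))
      (c.equivFun (t • KaehlerDifferential.D ℂ V (u : V) +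
        ((u : V) * (e + 1 : ℕ)) • KaehlerDifferential.D ℂ V t)) (t ^ e) ?_ i₀ hunit
    have h1 := KCOrdG_D y h₁
    rw [hu, Derivation.leibniz, Derivation.leibniz_pow] at h1
    have h2 : Matrix.vecMul (fun i => MvPolynomial.aeval y (MvPolynomial.pderiv i h₁)) A =
        c.equivFun (∑ b, MvPolynomial.aeval y (MvPolynomial.pderiv b h₁) •
          KaehlerDifferential.D ℂ V (y b)) := by
      rw [map_sum]
      ext j
      rw [Matrix.vecMul, dotProduct, Finset.sum_apply]
      refine Finset.sum_congr rfl fun i _ => ?_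
      rw [map_smul, Pi.smul_apply, smul_eq_mul]
    have h3 : (u : V) • (e + 1) • t ^ (e + 1 - 1) • KaehlerDifferential.D ℂ V t +
        t ^ (e + 1) • KaehlerDifferential.D ℂ V (u : V) =
        t ^ e • (t • KaehlerDifferential.D ℂ V (u : V) +
        ((u : V) * (e + 1 : ℕ)) • KaehlerDifferential.D ℂ V t) := by
      rw [smul_add, smul_smul, smul_smul, add_comm, Nat.add_sub_cancel]
      congr 1
      rw [← Nat.cast_smul_eq_nsmul V, smul_smul, smul_smul]
      congr 1
      push_cast
      ring
    rw [h2, ← h1, h3]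
    exact c.equivFun.map_smul _ _
  calc ((e + 1 : ℕ) : ℕ∞) - 1 = (e : ℕ∞) := by
        have h5 : (1 : ℕ∞) = ((1 : ℕ) : ℕ∞) := rfl
        rw [h5, ← ENat.natCast_sub, Nat.add_sub_cancel]
    _ = Ring.ord V (t ^ e) := by
        rw [Ring.ord_pow (mem_nonZeroDivisors_of_ne_zero ht.ne_zero),
          Ring.ord_of_irreducible ht, nsmul_eq_mul, mul_one]
    _ ≤ Ring.ord V A.det := Ring.ord_le_ord_of_dvd hdvd

/-- consequence of `G_ord` -/
theorem kc_ordG (h : IsFano 𝒜 n r d x G) (p : Ideal R) (hp : p.IsPrime) (hp1 : p.height = 1)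
    (hdom : IsDomain (Localization.AtPrime p))
    (hdvr : IsDiscreteValuationRing (Localization.AtPrime p))
    (h₁ : MvPolynomial (Fin (n + 1)) ℂ) (hirr : Irreducible h₁)
    (hc : p.comap (MvPolynomial.aeval x : MvPolynomial (Fin (n + 1)) ℂ →ₐ[ℂ] R) =
        Ideal.span {h₁}) :
    (r : ℕ∞) * (IsDiscreteValuationRing.addVal (Localization.AtPrime p)
        (algebraMap R (Localization.AtPrime p) (MvPolynomial.aeval x h₁)) - 1) ≤
      IsDiscreteValuationRing.addVal (Localization.AtPrime p)
        (algebraMap R (Localization.AtPrime p) G) := by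
  have h1 := h.G_ord p hp hp1
  have h2 := kc_length_quot (algebraMap R (Localization.AtPrime p) G)
  rw [← h2, h1]
  exact mul_le_mul_right (kc_length_kaehler h p hp hdom hdvr h₁ hirr hc) _

end Pool.Agent.Lib_KF
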