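import Pool.Agent.Lib_KF.KCBound
import Pool.Agent.Lib_KF.KCNonint
import Pool.Agent.Lib_KF.KCNor
import Pool.Agent.Lib_KF.KCHt
import Pool.Agent.Lib_KF.KCOrdG
import Pool.Agent.Lib_MP_e0d435_ag.Null

/-!
# KC18: a square integrable fraction is regular
-/

open MeasureTheory
open scoped ENNReal NNReal

namespace Pool.Agent.Lib_KF

open Pool.Agent.Lib_GD

/-- real arithmetic: the pointwise bound of the integrand -/
private theorem KCDvd_real {A B C Q s X g : ℝ} {k r : ℕ} (hk : 1 ≤ k) (hr : 1 ≤ r)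
    (hA : 0 ≤ A) (hB : 0 ≤ B) (hC : 0 < C) (hg : 0 < g) (hX : 0 ≤ X)
    (hQ : Q = X ^ r / g) (hs : s = 2 / (r * k : ℝ)) (hle : A ≤ C * B * Q ^ k) :
    (A / B) ^ s ≤ C ^ s * (X ^ 2 * g ^ (-2 / (r : ℝ))) := by
  have hk0 : (0 : ℝ) < k := by exact_mod_cast hk
  have hr0 : (0 : ℝ) < r := by exact_mod_cast hr
  have hs0 : 0 < s := by rw [hs]; positivity
  have hQ0 : 0 ≤ Q := by rw [hQ]; positivity
  have h1 : A / B ≤ C * Q ^ k := by
    rcases hB.eq_or_lt with hB0 | hB0
    · rw [← hB0, div_zero]; positivity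
    · rw [div_le_iff₀ hB0]
      calc A ≤ C * B * Q ^ k := hle
        _ = C * Q ^ k * B := by ring
  have h2 : (A / B) ^ s ≤ (C * Q ^ k) ^ s :=
    Real.rpow_le_rpow (div_nonneg hA hB) h1 hs0.le
  refine h2.trans (le_of_eq ?_)
  rw [Real.mul_rpow hC.le (by positivity)]
  congr 1
  rw [hQ, ← Real.rpow_natCast, ← Real.rpow_mul (by positivity)]
  have h3 : (k : ℝ) * s = 2 / r := by
    rw [hs]; field_simp
  rw [h3, Real.div_rpow (by positivity) hg.le, ← Real.rpow_natCast, ← Real.rpow_mul hX,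
    ← Real.rpow_natCast, div_eq_mul_inv, ← Real.rpow_neg hg.le]
  congr 1
  · congr 1
    field_simp
    norm_num
  · congr 1
    ring

/-- Suppose `D = h₀ ^ m` does not divide `N`. `kc_normal` gives `p`, `kc_contract` gives `h₁`; `D ∈ p`
so `h₁ ∣ h₀` and `h₁` is homogeneous (`kc_homog_of_dvd`). With `U = N ^ r`, `V = D ^ r G` the hypothesis of
`kc_bound` holds: `ord D ≥ ord N + 1`, `ord G ≥ r (e - 1)` (`kc_ordG`). So almost everywhere the integrand is at least
`c (|a| / (|b| |h₁| ^ j)) ^ (2 / (r k))`, which is not integrable (`kc_nonint`). -/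
theorem kc_dvd {R : Type} [CommRing R] [Algebra ℂ R] {𝒜 : ℕ → Submodule ℂ R}
    [GradedAlgebra 𝒜] {n r d : ℕ} {x : Fin (n + 1) → R} {G : R} (h : IsFano 𝒜 n r d x G)
    (h₀ : MvPolynomial (Fin (n + 1)) ℂ) (hh : h₀ ≠ 0) {w : ℕ} (hw : h₀.IsHomogeneous w)
    (m : ℕ) (N : R)
    (hint : ∫⁻ y in W0 h₀, ∑' ν : fib x y,
      ENNReal.ofReal ((‖ν.1 N‖ / ‖MvPolynomial.eval y h₀‖ ^ m) ^ 2 * ‖ν.1 G‖ ^ (-2 / (r : ℝ)))
        ≠ ⊤) :
    MvPolynomial.aeval x (h₀ ^ m) ∣ N := by
  classical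
  have := h.domain
  have := h.normal
  have := kc_noeth h.x_finite
  by_contra hND
  have hinj : Function.Injective
      (MvPolynomial.aeval x : MvPolynomial (Fin (n + 1)) ℂ →ₐ[ℂ] R) := h.x_indep
  have hD : MvPolynomial.aeval x (h₀ ^ m) ≠ 0 := by
    intro h0
    have h1 : h₀ ^ m = 0 := hinj (by rw [h0, map_zero])
    exact hh (eq_zero_of_pow_eq_zero h1)
  obtain ⟨p, hp, hp1, hdom, hdvr, hnd⟩ := kc_normal hD hND
  obtain ⟨h₁, hirr, hc⟩ := kc_contract h.x_indep h.x_finite p hp hp1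
  have hN0 : N ≠ 0 := by
    rintro rfl
    exact hND (dvd_zero _)
  have hDp : MvPolynomial.aeval x (h₀ ^ m) ∈ p := by
    by_contra hnp
    have h1 : IsUnit (algebraMap R (Localization.AtPrime p) (MvPolynomial.aeval x (h₀ ^ m))) :=
      IsLocalization.map_units (Localization.AtPrime p)
        (⟨MvPolynomial.aeval x (h₀ ^ m), hnp⟩ : p.primeCompl)
    exact hnd h1.dvd
  have hdvd : h₁ ∣ h₀ := by
    have h1 : h₀ ^ m ∈ p.comap
        (MvPolynomial.aeval x : MvPolynomial (Fin (n + 1)) ℂ →ₐ[ℂ] R) := hDp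
    rw [hc, Ideal.mem_span_singleton] at h1
    exact hirr.prime.dvd_of_dvd_pow h1
  obtain ⟨w', hw'⟩ := kc_homog_of_dvd hh hw hdvd
  have hGord := kc_ordG h p hp hp1 hdom hdvr h₁ hirr hc
  have hh1 : MvPolynomial.aeval x h₁ ≠ 0 := by
    intro h0
    exact hirr.ne_zero (hinj (by rw [h0, map_zero]))
  have hU : N ^ r ≠ 0 := pow_ne_zero _ hN0
  have hV : MvPolynomial.aeval x (h₀ ^ m) ^ r * G ≠ 0 := mul_ne_zero (pow_ne_zero _ hD) h.G_ne
  have hord : IsDiscreteValuationRing.addVal (Localization.AtPrime p)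
        (algebraMap R (Localization.AtPrime p) (N ^ r * MvPolynomial.aeval x h₁ ^ r)) ≤
      IsDiscreteValuationRing.addVal (Localization.AtPrime p)
        (algebraMap R (Localization.AtPrime p)
          (MvPolynomial.aeval x (h₀ ^ m) ^ r * G)) := by
    have h1 : IsDiscreteValuationRing.addVal (Localization.AtPrime p)
        (algebraMap R (Localization.AtPrime p) N) + 1 ≤
        IsDiscreteValuationRing.addVal (Localization.AtPrime p)
        (algebraMap R (Localization.AtPrime p) (MvPolynomial.aeval x (h₀ ^ m))) := by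
      apply Order.add_one_le_of_lt
      rw [← not_le]
      intro h2
      exact hnd (IsDiscreteValuationRing.addVal_le_iff_dvd.1 h2)
    simp only [map_mul, map_pow, IsDiscreteValuationRing.addVal_mul,
      IsDiscreteValuationRing.addVal_pow, nsmul_eq_mul] at hGord h1 ⊢
    set vN := IsDiscreteValuationRing.addVal (Localization.AtPrime p)
        (algebraMap R (Localization.AtPrime p) N)
    set vh := IsDiscreteValuationRing.addVal (Localization.AtPrime p)
        (algebraMap R (Localization.AtPrime p) (MvPolynomial.aeval x h₁))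
    set vG := IsDiscreteValuationRing.addVal (Localization.AtPrime p)
        (algebraMap R (Localization.AtPrime p) G)
    set vD := (m : ℕ∞) * IsDiscreteValuationRing.addVal (Localization.AtPrime p)
        (algebraMap R (Localization.AtPrime p) (MvPolynomial.aeval x h₀))
    calc (r : ℕ∞) * vN + r * vh ≤ r * vN + r * (1 + (vh - 1)) := by
          gcongr
          exact le_add_tsub
      _ = r * (vN + 1) + r * (vh - 1) := by ring
      _ ≤ r * vD + vG := by
          gcongr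
  obtain ⟨k, j, a, b, q, C, hk, hj, hC, ha, hb, hq, hbd⟩ :=
    kc_bound h.x_indep h.x_finite p hp hdom hdvr h₁ hirr hc (N ^ r)
      (MvPolynomial.aeval x (h₀ ^ m) ^ r * G) hU hV r hord
  have hr0 : (0 : ℝ) < r := by exact_mod_cast h.r_pos
  have hk0 : (0 : ℝ) < k := by exact_mod_cast hk
  set s : ℝ := 2 / (r * k : ℝ) with hs
  have hs0 : 0 < s := by positivity
  have hsj : 2 ≤ s * j := by
    have h1 : ((r * k : ℕ) : ℝ) ≤ j := by exact_mod_cast hj
    push_cast at h1
    rw [hs, div_mul_eq_mul_div, le_div_iff₀ (by positivity)]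
    linarith
  have htop := kc_nonint h₁ a b hirr hw' ha hb j s hs0 hsj
  apply hint
  have hCs : ENNReal.ofReal (C ^ s) ≠ ⊤ := ENNReal.ofReal_ne_top
  -- the exceptional set is null
  have hnull : ∀ᵐ y : Fin (n + 1) → ℂ, MvPolynomial.eval y (q * h₀) ≠ 0 := by
    have h1 := GPn.mv_null (q * h₀) (mul_ne_zero hq hh)
    exact measure_eq_zero_iff_ae_notMem.1 h1
  have hle : ∫⁻ y in Metric.ball (0 : Fin (n + 1) → ℂ) 1, ENNReal.ofReal
      ((‖MvPolynomial.eval y a‖ / (‖MvPolynomial.eval y b‖ * ‖MvPolynomial.eval y h₁‖ ^ j)) ^ s)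
      ≤ ENNReal.ofReal (C ^ s) * ∫⁻ y in W0 h₀, ∑' ν : fib x y,
      ENNReal.ofReal ((‖ν.1 N‖ / ‖MvPolynomial.eval y h₀‖ ^ m) ^ 2 *
        ‖ν.1 G‖ ^ (-2 / (r : ℝ))) := by
    rw [← lintegral_const_mul' _ _ hCs]
    have hWm : MeasurableSet (W0 h₀) := (isOpen_W0 h₀).measurableSet
    rw [← lintegral_indicator Metric.isOpen_ball.measurableSet, ← lintegral_indicator hWm]
    apply lintegral_mono_ae
    filter_upwards [hnull] with y hy
    by_cases hyb : y ∈ Metric.ball (0 : Fin (n + 1) → ℂ) 1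
    · have hqy : MvPolynomial.eval y q ≠ 0 := by
        intro h0; apply hy; rw [map_mul, h0, zero_mul]
      have hhy : MvPolynomial.eval y h₀ ≠ 0 := by
        intro h0; apply hy; rw [map_mul, h0, mul_zero]
      have hyW : y ∈ W0 h₀ := ⟨by simpa using hyb, hhy⟩
      rw [Set.indicator_of_mem hyb, Set.indicator_of_mem hyW]
      obtain ⟨ν, hν, hνV, hb1⟩ := hbd y hqy
      have h3 : ENNReal.ofReal ((‖ν N‖ / ‖MvPolynomial.eval y h₀‖ ^ m) ^ 2 *
          ‖ν G‖ ^ (-2 / (r : ℝ))) ≤ ∑' ν : fib x y,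
          ENNReal.ofReal ((‖ν.1 N‖ / ‖MvPolynomial.eval y h₀‖ ^ m) ^ 2 *
        ‖ν.1 G‖ ^ (-2 / (r : ℝ))) :=
        ENNReal.le_tsum (f := fun ν : fib x y =>
          ENNReal.ofReal ((‖ν.1 N‖ / ‖MvPolynomial.eval y h₀‖ ^ m) ^ 2 *
        ‖ν.1 G‖ ^ (-2 / (r : ℝ)))) ⟨ν, hν⟩
      refine le_trans ?_ (mul_le_mul_right h3 _)
      rw [← ENNReal.ofReal_mul (by positivity)]
      apply ENNReal.ofReal_le_ofReal
      have hνG : ν G ≠ 0 := by
        intro h0; apply hνV; rw [map_mul, h0, mul_zero]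
      refine KCDvd_real (Q := ‖ν (N ^ r)‖ / ‖ν (MvPolynomial.aeval x (h₀ ^ m) ^ r * G)‖)
        hk h.r_pos (norm_nonneg _) (by positivity) hC (norm_pos_iff.2 hνG)
        (by positivity) ?_ hs ?_
      · rw [map_mul, map_pow, map_pow, fib_aeval hν, norm_mul, norm_pow, norm_pow, map_pow,
          norm_pow, div_pow, div_div]
      · exact hb1
    · rw [Set.indicator_of_notMem hyb]
      exact bot_le
  rw [htop, top_le_iff] at hle
  by_contra hne
  exact absurd hle (ENNReal.mul_ne_top hCs hne)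

end Pool.Agent.Lib_KF
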