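import Pool.Agent.Lib_KF.GeoDefs
import Pool.Agent.Lib_MP_e0d435_ag.Null

/-!
# KC00: basic facts on `x : ℂ[x_0 .. x_n] → R` and its fibres

`R` is a finite module over `ℂ[x]`, the `x b` are algebraically independent, `R` is a normal domain.
-/

open MeasureTheory
open scoped ENNReal NNReal

namespace Pool.Agent.Lib_KF

open Pool.Agent.Lib_GD

/-- The unit polydisc without `h = 0`. -/
def W0 {n : ℕ} (h : MvPolynomial (Fin (n + 1)) ℂ) : Set (Fin (n + 1) → ℂ) :=
  {y | ‖y‖ < 1 ∧ MvPolynomial.eval y h ≠ 0}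

theorem isOpen_W0 {n : ℕ} (h : MvPolynomial (Fin (n + 1)) ℂ) : IsOpen (W0 h) :=
  (isOpen_lt continuous_norm continuous_const).inter
    (isOpen_ne_fun (MvPolynomial.continuous_eval h) continuous_const)

/-- a non-zero polynomial does not vanish identically on a non-empty open set -/
theorem kc_exists_ne {N : ℕ} (q : MvPolynomial (Fin N) ℂ) (hq : q ≠ 0) {U : Set (Fin N → ℂ)}
    (hU : IsOpen U) (hne : U.Nonempty) : ∃ y ∈ U, MvPolynomial.eval y q ≠ 0 := by
  by_contra hcon
  push Not at hcon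
  have h1 : volume U ≤ volume {y : Fin N → ℂ | MvPolynomial.eval y q = 0} :=
    measure_mono fun y hy => hcon y hy
  rw [GPn.mv_null q hq] at h1
  exact (hU.measure_pos volume hne).ne' (le_antisymm h1 bot_le)

section Fib

variable {R : Type} [CommRing R] [Algebra ℂ R] {n : ℕ} {x : Fin (n + 1) → R}

/-- `ν ∘ aeval x` is evaluation at `y` for `ν` in the fibre over `y`. -/
theorem fib_aeval {y : Fin (n + 1) → ℂ} {ν : R →ₐ[ℂ] ℂ} (hν : ν ∈ fib x y)
    (p : MvPolynomial (Fin (n + 1)) ℂ) : ν (MvPolynomial.aeval x p) = MvPolynomial.eval y p := by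
  have h : ν.comp (MvPolynomial.aeval x) = MvPolynomial.aeval y := by
    ext b
    simp [hν b]
  have h2 := DFunLike.congr_fun h p
  rw [AlgHom.comp_apply] at h2
  rw [h2, MvPolynomial.aeval_eq_eval]

private theorem kcbase_mem (a : Algebra.adjoin ℂ (Set.range x)) :
    ∃ p : MvPolynomial (Fin (n + 1)) ℂ, MvPolynomial.aeval x p = (a : R) := by
  have h : (a : R) ∈ (MvPolynomial.aeval x : MvPolynomial (Fin (n + 1)) ℂ →ₐ[ℂ] R).range :=
    (Algebra.adjoin_range_eq_range_aeval ℂ x) ▸ a.2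
  exact h

/-- Every `f : R` satisfies a monic equation over `ℂ[x]`. -/
theorem kc_integral (hfin : Module.Finite (Algebra.adjoin ℂ (Set.range x)) R) (f : R) :
    ∃ (D : ℕ) (c : Fin D → MvPolynomial (Fin (n + 1)) ℂ), 1 ≤ D ∧
      f ^ D = ∑ i : Fin D, MvPolynomial.aeval x (c i) * f ^ (i : ℕ) := by
  classical
  rcases subsingleton_or_nontrivial R with hs | hn
  · exact ⟨1, fun _ => 0, le_rfl, Subsingleton.elim _ _⟩
  have := hfin
  have : Algebra.IsIntegral (Algebra.adjoin ℂ (Set.range x)) R := Algebra.IsIntegral.of_finite _ _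
  obtain ⟨P, hP, hPf⟩ := Algebra.IsIntegral.isIntegral (R := Algebra.adjoin ℂ (Set.range x)) f
  choose p hp using fun i : ℕ => kcbase_mem (x := x) (P.coeff i)
  refine ⟨P.natDegree, fun i => -p i, ?_, ?_⟩
  · rw [Nat.one_le_iff_ne_zero]
    intro h0
    rw [hP.natDegree_eq_zero] at h0
    rw [h0, Polynomial.eval₂_one] at hPf
    exact one_ne_zero hPf
  · have h1 : Polynomial.aeval f P = 0 := hPf
    rw [Polynomial.aeval_eq_sum_range, Finset.sum_range_succ, hP.coeff_natDegree, one_smul] at h1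
    rw [← Finset.sum_range (fun i => MvPolynomial.aeval x (-p i) * f ^ i)]
    have h2 : ∀ i, P.coeff i • f ^ i = MvPolynomial.aeval x (p i) * f ^ i := by
      intro i
      rw [hp i, Algebra.smul_def]
      rfl
    rw [Finset.sum_congr rfl fun i _ => h2 i] at h1
    rw [add_eq_zero_iff_eq_neg'.1 h1]
    simp only [map_neg, neg_mul, Finset.sum_neg_distrib]

/-- Over the unit polydisc every `f : R` is bounded (use `kc_integral`). -/
theorem fib_bdd (hfin : Module.Finite (Algebra.adjoin ℂ (Set.range x)) R) (f : R) :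
    ∃ C : ℝ, ∀ y ∈ Metric.ball (0 : Fin (n + 1) → ℂ) 1, ∀ ν ∈ fib x y, ‖ν f‖ ≤ C := by
  classical
  obtain ⟨D, c, hD, hf⟩ := kc_integral hfin f
  have hB : ∀ i : Fin D, ∃ B : ℝ, ∀ y ∈ Metric.closedBall (0 : Fin (n + 1) → ℂ) 1,
      ‖MvPolynomial.eval y (c i)‖ ≤ B := fun i =>
    (isCompact_closedBall _ _).exists_bound_of_continuousOn
      (MvPolynomial.continuous_eval (c i)).continuousOn
  choose B hB using hB
  refine ⟨max 1 (∑ i, |B i|), fun y hy ν hν => ?_⟩
  have hy' : y ∈ Metric.closedBall (0 : Fin (n + 1) → ℂ) 1 := Metric.ball_subset_closedBall hy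
  rcases le_or_gt ‖ν f‖ 1 with h1 | h1
  · exact h1.trans (le_max_left _ _)
  refine le_trans ?_ (le_max_right _ _)
  have h2 : ν f ^ D = ∑ i : Fin D, MvPolynomial.eval y (c i) * ν f ^ (i : ℕ) := by
    rw [← map_pow, hf, map_sum]
    refine Finset.sum_congr rfl fun i _ => ?_
    rw [map_mul, map_pow, fib_aeval hν]
  obtain ⟨d, rfl⟩ : ∃ d, D = d + 1 := ⟨D - 1, by omega⟩
  have h3 : ‖ν f‖ ^ (d + 1) ≤ (∑ i, |B i|) * ‖ν f‖ ^ d := by
    rw [← norm_pow, h2, Finset.sum_mul]
    refine (norm_sum_le _ _).trans (Finset.sum_le_sum fun i _ => ?_)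
    rw [norm_mul, norm_pow]
    have h4 : ‖ν f‖ ^ (i : ℕ) ≤ ‖ν f‖ ^ d := pow_le_pow_right₀ h1.le (by omega)
    exact mul_le_mul ((hB i y hy').trans (le_abs_self _)) h4 (by positivity) (abs_nonneg _)
  rw [pow_succ'] at h3
  exact le_of_mul_le_mul_right h3 (by positivity)

/-- Every fibre is finite (`R` is generated by finitely many elements as a module, each of them has
finitely many possible values by `kc_integral`). -/
theorem fib_finite (hfin : Module.Finite (Algebra.adjoin ℂ (Set.range x)) R)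
    (y : Fin (n + 1) → ℂ) : (fib x y).Finite := by
  classical
  obtain ⟨S, hS⟩ := hfin.fg_top
  have hroots : ∀ s : S, ∃ T : Set ℂ, T.Finite ∧ ∀ ν ∈ fib x y, ν (s : R) ∈ T := by
    intro s
    obtain ⟨D, c, hD, hf⟩ := kc_integral hfin (s : R)
    set q : Polynomial ℂ := Polynomial.X ^ D -
      ∑ i : Fin D, Polynomial.C (MvPolynomial.eval y (c i)) * Polynomial.X ^ (i : ℕ) with hq
    have hqm : q.Monic := by
      refine Polynomial.monic_X_pow_sub ?_
      refine (Polynomial.degree_sum_le _ _).trans_lt ?_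
      rw [Finset.sup_lt_iff (by exact WithBot.bot_lt_coe D)]
      intro i _
      refine (Polynomial.degree_C_mul_X_pow_le _ _).trans_lt ?_
      exact_mod_cast i.2
    refine ⟨q.roots.toFinset, Finset.finite_toSet _, fun ν hν => ?_⟩
    rw [Finset.mem_coe, Multiset.mem_toFinset, Polynomial.mem_roots hqm.ne_zero,
      Polynomial.IsRoot.def, hq, Polynomial.eval_sub, Polynomial.eval_pow, Polynomial.eval_X,
      Polynomial.eval_finsetSum, ← map_pow, hf, map_sum, sub_eq_zero]
    refine Finset.sum_congr rfl fun i _ => ?_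
    rw [map_mul, map_pow, fib_aeval hν, Polynomial.eval_mul, Polynomial.eval_C,
      Polynomial.eval_pow, Polynomial.eval_X]
  choose T hT hTν using hroots
  refine Set.Finite.of_finite_image (f := fun ν : R →ₐ[ℂ] ℂ => fun s : S => ν (s : R)) ?_ ?_
  · refine (Set.Finite.pi (t := T) hT).subset ?_
    rintro _ ⟨ν, hν, rfl⟩ s _
    exact hTν s ν hν
  · intro ν hν μ hμ h
    refine AlgHom.ext fun r => ?_
    have hr : r ∈ Submodule.span (Algebra.adjoin ℂ (Set.range x)) (S : Set R) := by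
      rw [hS]
      trivial
    induction hr using Submodule.span_induction with
    | mem s hs => exact congrFun h ⟨s, hs⟩
    | zero => rw [map_zero, map_zero]
    | add a b _ _ ha hb => rw [map_add, map_add, ha, hb]
    | smul a b _ hb =>
      obtain ⟨p, hp⟩ := kcbase_mem a
      have h1 : a • b = MvPolynomial.aeval x p * b := by
        rw [hp, Algebra.smul_def]
        rfl
      rw [h1, map_mul, map_mul, fib_aeval hν, fib_aeval hμ, hb]

/-- Every fibre is non-empty: lying over for the finite extension `ℂ[x] ⊆ R` and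
`R / 𝔪 = ℂ`. -/
theorem fib_nonempty (hx : AlgebraicIndependent ℂ x)
    (hfin : Module.Finite (Algebra.adjoin ℂ (Set.range x)) R)
    (y : Fin (n + 1) → ℂ) : (fib x y).Nonempty := by
  classical
  have := hfin
  have : Algebra.IsIntegral (Algebra.adjoin ℂ (Set.range x)) R := Algebra.IsIntegral.of_finite _ _
  set φ : Algebra.adjoin ℂ (Set.range x) →ₐ[ℂ] ℂ :=
    (MvPolynomial.aeval y).comp (hx.aevalEquiv.symm : _ →ₐ[ℂ] _) with hφ
  have hφs : Function.Surjective φ := fun c => ⟨algebraMap ℂ _ c, by rw [AlgHom.commutes]; rfl⟩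
  have hmax : (RingHom.ker φ).IsMaximal := RingHom.ker_isMaximal_of_surjective φ hφs
  obtain ⟨Q, hQ, hQc⟩ := Ideal.exists_ideal_over_maximal_of_isIntegral (S := R) (RingHom.ker φ)
    (by
      intro a ha
      have h1 : (a : R) = 0 := ha
      have h2 : a = 0 := Subtype.ext h1
      rw [h2]
      exact zero_mem _)
  have hφp : ∀ p : MvPolynomial (Fin (n + 1)) ℂ, φ (hx.aevalEquiv p) = MvPolynomial.eval y p := by
    intro p
    rw [hφ]
    simp [MvPolynomial.aeval_eq_eval]
  have hmem : ∀ p : MvPolynomial (Fin (n + 1)) ℂ,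
      MvPolynomial.aeval x p - algebraMap ℂ R (MvPolynomial.eval y p) ∈ Q := by
    intro p
    have h1 : hx.aevalEquiv (p - MvPolynomial.C (MvPolynomial.eval y p)) ∈ RingHom.ker φ := by
      change φ (hx.aevalEquiv (p - MvPolynomial.C (MvPolynomial.eval y p))) = 0
      rw [hφp]
      simp
    rw [← hQc, Ideal.mem_comap] at h1
    have h2 : algebraMap (Algebra.adjoin ℂ (Set.range x)) R
        (hx.aevalEquiv (p - MvPolynomial.C (MvPolynomial.eval y p))) =
        MvPolynomial.aeval x p - algebraMap ℂ R (MvPolynomial.eval y p) := by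
      rw [hx.algebraMap_aevalEquiv]
      simp
    rwa [h2] at h1
  let : Field (R ⧸ Q) := Ideal.Quotient.field Q
  have : Algebra.IsIntegral ℂ (R ⧸ Q) := by
    refine ⟨fun k => ?_⟩
    obtain ⟨f, rfl⟩ := Ideal.Quotient.mk_surjective k
    obtain ⟨D, c, hD, hf⟩ := kc_integral hfin f
    refine ⟨Polynomial.X ^ D -
      ∑ i : Fin D, Polynomial.C (MvPolynomial.eval y (c i)) * Polynomial.X ^ (i : ℕ), ?_, ?_⟩
    · refine Polynomial.monic_X_pow_sub ?_
      refine (Polynomial.degree_sum_le _ _).trans_lt ?_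
      rw [Finset.sup_lt_iff (by exact WithBot.bot_lt_coe D)]
      intro i _
      refine (Polynomial.degree_C_mul_X_pow_le _ _).trans_lt ?_
      exact_mod_cast i.2
    · rw [Polynomial.eval₂_sub, Polynomial.eval₂_pow, Polynomial.eval₂_X,
        Polynomial.eval₂_finsetSum, ← map_pow, hf, map_sum, sub_eq_zero]
      refine Finset.sum_congr rfl fun i _ => ?_
      rw [map_mul, map_pow, Polynomial.eval₂_mul, Polynomial.eval₂_C, Polynomial.eval₂_pow,
        Polynomial.eval₂_X]
      congr 1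
      exact Ideal.Quotient.eq.2 (hmem (c i))
  have hbij := IsAlgClosed.algebraMap_bijective_of_isIntegral (k := ℂ) (K := R ⧸ Q)
  set E : ℂ ≃ₐ[ℂ] (R ⧸ Q) := AlgEquiv.ofBijective (Algebra.ofId ℂ (R ⧸ Q)) hbij with hE
  refine ⟨(E.symm : (R ⧸ Q) →ₐ[ℂ] ℂ).comp (Ideal.Quotient.mkₐ ℂ Q), fun b => ?_⟩
  have h1 : Ideal.Quotient.mkₐ ℂ Q (x b) = E (y b) := by
    have h2 := hmem (MvPolynomial.X b)
    rw [MvPolynomial.aeval_X, MvPolynomial.eval_X] at h2
    exact Ideal.Quotient.eq.2 h2
  rw [AlgHom.comp_apply, h1]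
  exact E.symm_apply_apply (y b)

/-- `f ≠ 0` divides a non-zero polynomial in the `x b` (the constant term of a monic equation of
minimal degree). -/
theorem kc_norm [IsDomain R] (hfin : Module.Finite (Algebra.adjoin ℂ (Set.range x)) R) (f : R)
    (hf : f ≠ 0) : ∃ q : MvPolynomial (Fin (n + 1)) ℂ, q ≠ 0 ∧ ∃ f' : R,
      f * f' = MvPolynomial.aeval x q := by
  have := hfin
  have : Algebra.IsIntegral (Algebra.adjoin ℂ (Set.range x)) R := Algebra.IsIntegral.of_finite _ _
  have halg : IsAlgebraic (Algebra.adjoin ℂ (Set.range x)) f :=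
    (Algebra.IsIntegral.isIntegral (R := Algebra.adjoin ℂ (Set.range x)) f).isAlgebraic
  obtain ⟨r, hr, f', hf'⟩ := halg.exists_nonzero_dvd (mem_nonZeroDivisors_of_ne_zero hf)
  obtain ⟨q, hq⟩ := kcbase_mem r
  refine ⟨q, ?_, f', ?_⟩
  · rintro rfl
    rw [map_zero] at hq
    exact hr (Subtype.ext hq.symm)
  · rw [hq, ← hf']
    rfl

/-- `f ≠ 0` does not vanish on the fibres over a dense open set. -/
theorem fib_ne [IsDomain R] (hfin : Module.Finite (Algebra.adjoin ℂ (Set.range x)) R) (f : R)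
    (hf : f ≠ 0) : ∃ q : MvPolynomial (Fin (n + 1)) ℂ, q ≠ 0 ∧
      ∀ y, MvPolynomial.eval y q ≠ 0 → ∀ ν ∈ fib x y, ν f ≠ 0 := by
  obtain ⟨q, hq, f', hf'⟩ := kc_norm hfin f hf
  refine ⟨q, hq, fun y hy ν hν h0 => hy ?_⟩
  rw [← fib_aeval hν, ← hf', map_mul, h0, zero_mul]

/-- A function which vanishes on the fibres over a non-empty open set is zero. -/
theorem fib_zero [IsDomain R] (hx : AlgebraicIndependent ℂ x)
    (hfin : Module.Finite (Algebra.adjoin ℂ (Set.range x)) R) (f : R)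
    {U : Set (Fin (n + 1) → ℂ)} (hU : IsOpen U) (hne : U.Nonempty)
    (h0 : ∀ y ∈ U, ∀ ν ∈ fib x y, ν f = 0) : f = 0 := by
  by_contra hf
  obtain ⟨q, hq, hqf⟩ := fib_ne hfin f hf
  obtain ⟨y, hyU, hy⟩ := kc_exists_ne q hq hU hne
  obtain ⟨ν, hν⟩ := fib_nonempty hx hfin y
  exact hqf y hy ν hν (h0 y hyU ν hν)

/-- `R` is noetherian. -/
theorem kc_noeth (hfin : Module.Finite (Algebra.adjoin ℂ (Set.range x)) R) :
    IsNoetherianRing R := by
  have := hfin
  have : Algebra.FiniteType ℂ (Algebra.adjoin ℂ (Set.range x)) := by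
    rw [← Subalgebra.fg_iff_finiteType, ← Set.Finite.coe_toFinset (Set.finite_range x)]
    exact Subalgebra.fg_adjoin_finset _
  have : IsNoetherianRing (Algebra.adjoin ℂ (Set.range x)) :=
    Algebra.FiniteType.isNoetherianRing ℂ _
  exact IsNoetherianRing.of_finite (Algebra.adjoin ℂ (Set.range x)) R

end Fib

end Pool.Agent.Lib_KF
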