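import Pool.Agent.Lib_KF.SheetDefs
import Pool.Agent.Lib_KF.KCBase

/-!
# KC09: a function with polynomial traces is a fraction `N / h ^ m`
-/

open MeasureTheory
open scoped ENNReal NNReal

namespace Pool.Agent.Lib_KF

open Pool.Agent.Lib_GD

private theorem kcsol_enum {R : Type} [CommRing R] [Algebra ℂ R] {𝒜 : ℕ → Submodule ℂ R}
    {n : ℕ} {x : Fin (n + 1) → R} {k : ℕ} (S : Sheets 𝒜 x k) (y : Fin (n + 1) → ℂ)
    (hy : MvPolynomial.eval y S.h ≠ 0) :
    ∃ e : Fin (k + 1) → (R →ₐ[ℂ] ℂ), Function.Injective e ∧ Set.range e = fib x y := by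
  have hfin := S.fin y hy
  have hcard := S.card y hy
  have : Finite (fib x y) := hfin
  have h1 : Nat.card (fib x y) = k + 1 := by
    rw [← hcard]
    rfl
  have e := (Finite.equivFinOfCardEq h1).symm
  refine ⟨fun i => (e i : R →ₐ[ℂ] ℂ), fun i j hij => e.injective (Subtype.ext hij), ?_⟩
  ext ν
  constructor
  · rintro ⟨i, rfl⟩
    exact (e i).2
  · intro hν
    exact ⟨e.symm ⟨ν, hν⟩, by simp⟩

private theorem kcsol_det_ne {R : Type} [CommRing R] [Algebra ℂ R] {𝒜 : ℕ → Submodule ℂ R}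
    {n : ℕ} {x : Fin (n + 1) → R} {k : ℕ} (S : Sheets 𝒜 x k) (y : Fin (n + 1) → ℂ)
    (hy : MvPolynomial.eval y S.h ≠ 0) :
    MvPolynomial.eval y (Matrix.of S.tr).det ≠ 0 := by
  obtain ⟨e, he, hr⟩ := kcsol_enum S y hy
  set B : Matrix (Fin (k + 1)) (Fin (k + 1)) ℂ := Matrix.of fun i a => e i (S.β a) with hB
  have hdB : B.det ≠ 0 := by
    intro h0
    obtain ⟨c, hc, hc0⟩ := Matrix.exists_mulVec_eq_zero_iff.2 h0
    refine hc (S.indep y hy c fun ν hν => ?_)
    rw [← hr] at hν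
    obtain ⟨i, rfl⟩ := hν
    have h1 := congrFun hc0 i
    simp only [hB, Matrix.mulVec, dotProduct, Matrix.of_apply, Pi.zero_apply] at h1
    rw [← h1]
    exact Finset.sum_congr rfl fun a _ => mul_comm _ _
  have hT : (MvPolynomial.eval y).mapMatrix (Matrix.of S.tr) = B.transpose * B := by
    ext a c
    rw [RingHom.mapMatrix_apply, Matrix.map_apply, Matrix.of_apply, ← S.tr_eq y hy a c, ← hr,
      finsum_mem_range he, finsum_eq_sum_of_fintype, Matrix.mul_apply]
    rfl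
  rw [RingHom.map_det, hT, Matrix.det_mul, Matrix.det_transpose]
  exact mul_ne_zero hdB hdB

/-- Let `δ = det (tr a c)`. If `h y ≠ 0` then `(tr a c) (y) = Bᵀ B`, `B = (ν (β a))` a square matrix
(`card`), invertible (`indep`), so `δ (y) ≠ 0`. By the Nullstellensatz `h ^ m = δ q`. Cramer:
`δ (y) F a = ∑ l, (adjugate) P l`, so `N = aeval x (q * ∑ ..) β a`, summed over `a`. -/
theorem kc_solve {R : Type} [CommRing R] [Algebra ℂ R] {𝒜 : ℕ → Submodule ℂ R}
    {n : ℕ} {x : Fin (n + 1) → R} {k : ℕ} (S : Sheets 𝒜 x k)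
    (P : Fin (k + 1) → MvPolynomial (Fin (n + 1)) ℂ) :
    ∃ (m : ℕ) (N : R), ∀ y, MvPolynomial.eval y S.h ≠ 0 → ∀ F : Fin (k + 1) → ℂ,
      (∀ l, ∑ a, F a * MvPolynomial.eval y (S.tr a l) = MvPolynomial.eval y (P l)) →
      ∀ ν ∈ fib x y, (∑ a, F a * ν (S.β a)) * MvPolynomial.eval y S.h ^ m = ν N := by
  set T : Matrix (Fin (k + 1)) (Fin (k + 1)) (MvPolynomial (Fin (n + 1)) ℂ) := Matrix.of S.tr
    with hT
  -- Nullstellensatz
  have hrad : S.h ∈ (Ideal.span {T.det}).radical := by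
    rw [← MvPolynomial.vanishingIdeal_zeroLocus_eq_radical (K := ℂ),
      MvPolynomial.mem_vanishingIdeal_iff]
    intro y hy
    rw [MvPolynomial.mem_zeroLocus_iff] at hy
    have h1 := hy T.det (Ideal.subset_span rfl)
    have h3 : ∀ p : MvPolynomial (Fin (n + 1)) ℂ, MvPolynomial.aeval y p =
        MvPolynomial.eval y p := fun p => by
      rw [MvPolynomial.aeval_eq_eval]
    rw [h3] at h1 ⊢
    by_contra h2
    exact kcsol_det_ne S y h2 h1
  obtain ⟨m, hm⟩ := hrad
  obtain ⟨q, hq⟩ := Ideal.mem_span_singleton.1 hm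
  refine ⟨m, ∑ a, MvPolynomial.aeval x (q * ∑ l, P l * T.adjugate l a) * S.β a, ?_⟩
  intro y hy F hF ν hν
  set Ty : Matrix (Fin (k + 1)) (Fin (k + 1)) ℂ := (MvPolynomial.eval y).mapMatrix T with hTy
  have h1 : Matrix.vecMul F Ty = fun l => MvPolynomial.eval y (P l) := by
    funext l
    rw [← hF l]
    rfl
  have h2 : ∀ a, ∑ l, MvPolynomial.eval y (P l) * MvPolynomial.eval y (T.adjugate l a) =
      MvPolynomial.eval y T.det * F a := by
    intro a
    have h3 : Matrix.vecMul (Matrix.vecMul F Ty) Ty.adjugate = Ty.det • F := by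
      rw [Matrix.vecMul_vecMul, Matrix.mul_adjugate, Matrix.vecMul_smul, Matrix.vecMul_one]
    rw [h1] at h3
    have h4 := congrFun h3 a
    rw [Pi.smul_apply, smul_eq_mul, hTy, ← RingHom.map_det] at h4
    rw [← h4]
    have h5 : ((MvPolynomial.eval y).mapMatrix T).adjugate =
        (MvPolynomial.eval y).mapMatrix T.adjugate := (RingHom.map_adjugate _ _).symm
    rw [h5]
    rfl
  have h6 : MvPolynomial.eval y S.h ^ m = MvPolynomial.eval y T.det * MvPolynomial.eval y q := by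
    rw [← map_pow, hq, map_mul]
  rw [map_sum, Finset.sum_mul]
  refine Finset.sum_congr rfl fun a _ => ?_
  rw [map_mul, fib_aeval hν, map_mul, map_sum]
  simp only [map_mul]
  rw [h2, h6]
  ring

end Pool.Agent.Lib_KF
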