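import Pool.Agent.Lib_KF.KCTr
import Pool.Agent.Lib_KF.KCSol
import Pool.Agent.Lib_KF.KCDvd

/-! The constancy theorem (KC19): a square integrable holomorphic function of degree zero on the cone
is constant. -/

open MeasureTheory
open scoped ENNReal NNReal

namespace Pool.Agent.Lib_KF

open Pool.Agent.Lib_GD

private theorem constDefs_hom {N w : ℕ} {p : MvPolynomial (Fin N) ℂ} (hp : p.IsHomogeneous w)
    (s : ℂ) (y : Fin N → ℂ) :
    MvPolynomial.eval (s • y) p = s ^ w * MvPolynomial.eval y p := by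
  rw [MvPolynomial.eval_eq', MvPolynomial.eval_eq', Finset.mul_sum]
  refine Finset.sum_congr rfl fun m hm => ?_
  have h1 : (∑ i, m i) = w := by
    have h2 := hp (MvPolynomial.mem_support_iff.1 hm)
    rw [← h2, Finsupp.weight_apply, Finsupp.sum_fintype _ _ (by simp)]
    simp
  have h3 : ∀ i, (s • y) i ^ m i = s ^ m i * y i ^ m i := by
    intro i
    rw [Pi.smul_apply, smul_eq_mul, mul_pow]
  simp only [h3, Finset.prod_mul_distrib, Finset.prod_pow_eq_pow_sum, h1]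
  ring

/-- The function on the cone with coefficients `F` in the basis `β` is holomorphic, invariant
under the circle action, and square integrable with weight `|G| ^ (-2/r)`; then it is constant.
Proof: `kc_trace_poly`, `kc_solve` give `Φ = N / h ^ m`, `kc_dvd` gives `N = h ^ m Ψ`, so
`Φ (ν) = ν Ψ` over `W0`, `kc_deg_zero` gives `Ψ = c`, and `Sheets.indep`, `β 0 = 1` finish. -/
theorem const_of_L2 {R : Type} [CommRing R] [Algebra ℂ R] {𝒜 : ℕ → Submodule ℂ R}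
    [GradedAlgebra 𝒜] {n r d : ℕ} {x : Fin (n + 1) → R} {G : R} (h : IsFano 𝒜 n r d x G)
    {k : ℕ} (S : Sheets 𝒜 x k) (F : Fin (k + 1) → (Fin (n + 1) → ℂ) → ℂ)
    (hF : ∀ a, DifferentiableOn ℂ (F a) (W0 S.h))
    (hinv : ∀ a, ∀ θ : ℝ, ∀ y ∈ W0 S.h,
      F a (Complex.exp (d * θ * Complex.I) • y) * Complex.exp (S.deg a * θ * Complex.I) = F a y)
    (hL2 : ∫⁻ y in W0 S.h, ∑' ν : fib x y,
      ENNReal.ofReal (‖∑ a, F a y * ν.1 (S.β a)‖ ^ 2 * ‖ν.1 G‖ ^ (-2 / (r : ℝ))) ≠ ⊤) :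
    ∃ c : ℂ, ∀ y ∈ W0 S.h, F 0 y = c ∧ ∀ a, a ≠ 0 → F a y = 0 := by
  have hdom : IsDomain R := h.domain
  obtain ⟨P, hP⟩ := kc_trace_poly h h.G_ne S F hF hinv hL2
  obtain ⟨m, N, hN⟩ := kc_solve S P
  have hNy : ∀ y ∈ W0 S.h, ∀ ν ∈ fib x y,
      (∑ a, F a y * ν (S.β a)) * MvPolynomial.eval y S.h ^ m = ν N := fun y hy ν hν =>
    hN y hy.2 (fun a => F a y) (fun l => hP l y hy) ν hν
  -- `N` is divisible by `h ^ m`
  have hint : ∫⁻ y in W0 S.h, ∑' ν : fib x y,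
      ENNReal.ofReal ((‖ν.1 N‖ / ‖MvPolynomial.eval y S.h‖ ^ m) ^ 2 *
        ‖ν.1 G‖ ^ (-2 / (r : ℝ))) ≠ ⊤ := by
    have he : ∫⁻ y in W0 S.h, ∑' ν : fib x y,
        ENNReal.ofReal ((‖ν.1 N‖ / ‖MvPolynomial.eval y S.h‖ ^ m) ^ 2 *
          ‖ν.1 G‖ ^ (-2 / (r : ℝ))) = ∫⁻ y in W0 S.h, ∑' ν : fib x y,
        ENNReal.ofReal (‖∑ a, F a y * ν.1 (S.β a)‖ ^ 2 * ‖ν.1 G‖ ^ (-2 / (r : ℝ))) := by
      refine setLIntegral_congr_fun (isOpen_W0 S.h).measurableSet fun y hy => ?_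
      refine tsum_congr fun ν => ?_
      have hh : ‖MvPolynomial.eval y S.h‖ ^ m ≠ 0 := pow_ne_zero m (norm_ne_zero_iff.2 hy.2)
      have h1 : ‖ν.1 N‖ / ‖MvPolynomial.eval y S.h‖ ^ m = ‖∑ a, F a y * ν.1 (S.β a)‖ := by
        rw [← hNy y hy ν.1 ν.2, norm_mul, norm_pow, mul_div_assoc, div_self hh, mul_one]
      rw [h1]
    rw [he]
    exact hL2
  obtain ⟨Ψ, hΨ⟩ := kc_dvd h S.h S.h_ne S.h_hom m N hint
  have hΨy : ∀ y ∈ W0 S.h, ∀ ν ∈ fib x y, ∑ a, F a y * ν (S.β a) = ν Ψ := by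
    intro y hy ν hν
    have h1 := hNy y hy ν hν
    rw [hΨ, map_mul, fib_aeval hν, map_pow] at h1
    have h2 : MvPolynomial.eval y S.h ^ m ≠ 0 := pow_ne_zero m hy.2
    apply mul_right_cancel₀ h2
    rw [h1]
    ring
  -- `Ψ` is constant
  have hne : (W0 S.h).Nonempty := by
    obtain ⟨y, hy, hy2⟩ := kc_exists_ne S.h S.h_ne (U := Metric.ball 0 1) Metric.isOpen_ball
      ⟨0, Metric.mem_ball_self one_pos⟩
    exact ⟨y, by simpa using hy, hy2⟩
  obtain ⟨c, hc⟩ := kc_deg_zero 𝒜 h.x_indep h.x_finite h.connected Ψ (isOpen_W0 S.h) hne (by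
    intro y hy ν hν θ
    set t : ℂ := Complex.exp (θ * Complex.I) with ht
    have htn : ‖t‖ = 1 := Complex.norm_exp_ofReal_mul_I θ
    have ht0 : t ≠ 0 := Complex.exp_ne_zero _
    have htd : t ^ d = Complex.exp (d * θ * Complex.I) := by
      rw [ht, ← Complex.exp_nat_mul, mul_assoc]
    have hν' : rot 𝒜 t ν ∈ fib x (t ^ d • y) := rot_mem_fib 𝒜 h.x_mem t hν
    have hy' : t ^ d • y ∈ W0 S.h := by
      refine ⟨?_, ?_⟩
      · rw [norm_smul, norm_pow, htn, one_pow, one_mul]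
        exact hy.1
      · rw [constDefs_hom S.h_hom]
        exact mul_ne_zero (pow_ne_zero _ (pow_ne_zero _ ht0)) hy.2
    rw [← hΨy _ hy' _ hν', ← hΨy y hy ν hν]
    refine Finset.sum_congr rfl fun a _ => ?_
    rw [rot_apply 𝒜 t ν (S.β_mem a), ← hinv a θ y hy, ← htd]
    have h3 : t ^ S.deg a = Complex.exp (S.deg a * θ * Complex.I) := by
      rw [ht, ← Complex.exp_nat_mul, mul_assoc]
    rw [h3]
    ring)
  refine ⟨c, fun y hy => ?_⟩
  have h4 := S.indep y hy.2 (fun a => F a y - if a = 0 then c else 0) (by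
    intro ν hν
    have h5 := hΨy y hy ν hν
    rw [hc, AlgHom.commutes, Algebra.algebraMap_self, RingHom.id_apply] at h5
    simp only [sub_mul, Finset.sum_sub_distrib, h5]
    rw [Finset.sum_eq_single (0 : Fin (k + 1))]
    · rw [if_pos rfl, S.β_zero, map_one, mul_one, sub_self]
    · intro b _ hb
      rw [if_neg hb, zero_mul]
    · intro hb
      exact absurd (Finset.mem_univ _) hb)
  refine ⟨?_, fun a ha => ?_⟩
  · have h5 := congrFun h4 0
    simp only [if_true, Pi.zero_apply] at h5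
    exact sub_eq_zero.1 h5
  · have h5 := congrFun h4 a
    simp only [if_neg ha, sub_zero, Pi.zero_apply] at h5
    exact h5

end Pool.Agent.Lib_KF
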