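import Pool.Agent.Lib_GD.Defs

/-!
# Klt Fano varieties, log discrepancies, stability threshold, Gibbs invariant

`X` is a Fano variety of dimension `n`, `r ≥ 1` an integer such that `- r K_X` is Cartier,
`L = - r K_X` and `R = ⨁ H⁰(X, m L)` with its grading `𝒜`. Divisors over `X ^ N` are described by
`Pool.Agent.Lib_GD.DivisorOver`.
-/

open scoped ENNReal NNReal

namespace Pool.Agent.Lib_KF

open Pool.Agent.Lib_GD

/-- `R = ⨁ 𝒜 m` is the section ring `⨁ H⁰(X, m L)`, `L = - r K_X`, of a normal projective variety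
`X = Proj R` of dimension `n` over `ℂ` with `L` an ample line bundle. -/
structure IsFano {R : Type} [CommRing R] [Algebra ℂ R] (𝒜 : ℕ → Submodule ℂ R)
    [GradedAlgebra 𝒜] (n r d : ℕ) (x : Fin (n + 1) → R) (G : R) : Prop where
  /-- `R` is a domain (`X` is integral). -/
  domain : IsDomain R
  /-- `R` is normal (`X` is normal and `R` is the full section ring). -/
  normal : IsIntegrallyClosed R
  /-- the degree zero part is `ℂ`. -/
  connected : 𝒜 0 = Subalgebra.toSubmodule (⊥ : Subalgebra ℂ R)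
  /-- `O(1)` is a line bundle: at every point of `X = Proj R` there are two sections of
  consecutive degrees which do not vanish. -/
  line : ∀ p : Ideal R, p.IsPrime → (∃ k > 0, ∃ f ∈ 𝒜 k, f ∉ p) →
    ∃ k, ∃ f ∈ 𝒜 k, ∃ g ∈ 𝒜 (k + 1), f ∉ p ∧ g ∉ p
  r_pos : 1 ≤ r
  d_pos : 1 ≤ d
  /-- `x 0, …, x n` are homogeneous of degree `d` … -/
  x_mem : ∀ b, x b ∈ 𝒜 d
  /-- … algebraically independent … -/
  x_indep : AlgebraicIndependent ℂ x
  /-- … and `R` is a finite module over `ℂ[x 0, …, x n]`. -/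
  x_finite : Module.Finite (Algebra.adjoin ℂ (Set.range x)) R
  /-- `- r K_X` is linearly equivalent to `L`: the `r`-fold form `(dx_0 ∧ … ∧ dx_n) ^ r / G`,
  of degree `1`, on `Spec R` has neither zeros nor poles … -/
  G_mem : G ∈ 𝒜 (r * d * (n + 1) - 1)
  G_ne : G ≠ 0
  /-- … i.e. the divisor of `G` is `r` times the divisor of `dx_0 ∧ … ∧ dx_n`. -/
  G_ord : ∀ p : Ideal R, ∀ _ : p.IsPrime, p.height = 1 →
    Module.length (Localization.AtPrime p)
      (Localization.AtPrime p ⧸ Ideal.span {algebraMap R (Localization.AtPrime p) G}) =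
    r * Module.length (Localization.AtPrime p)
      (KaehlerDifferential ℂ (Localization.AtPrime p) ⧸
        Submodule.span (Localization.AtPrime p) (Set.range fun b =>
          KaehlerDifferential.D ℂ (Localization.AtPrime p)
            (algebraMap R (Localization.AtPrime p) (x b))))

variable {R : Type} [CommRing R] [Algebra ℂ R] {𝒜 : ℕ → Submodule ℂ R} {n N : ℕ}

/-- The `V`-submodule of `Ω_{V/ℂ}` spanned by the differentials of the affine coordinates
`x b / x b'` of the `N` factors which are regular at the centre of `V`. -/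
noncomputable def coordSpan (E : DivisorOver 𝒜 n N) (x : Fin (n + 1) → R) :
    Submodule E.V (KaehlerDifferential ℂ E.V) :=
  Submodule.span E.V {ω | ∃ j b b', ∃ w : E.V, E.φ j (x b') * w = 1 ∧
    ω = KaehlerDifferential.D ℂ E.V (E.φ j (x b) * w)}

/-- The log discrepancy `A_{X ^ N}(E)`. With `y = x b / x b'` affine coordinates at the centre,
`(dy_1 ∧ … ∧ dy_n) ^ r / G` is a local generator of `O (r K_X)`, and the order of vanishing of
`⋀ dy` along `E` is the length of `Ω_V` modulo the span of the `dy`. -/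
noncomputable def logDisc (E : DivisorOver 𝒜 n N) (r : ℕ) (x : Fin (n + 1) → R) (G : R) : ℝ :=
  1 + (Module.length E.V (KaehlerDifferential ℂ E.V ⧸ coordSpan E x)).toNat -
    (1 / r : ℝ) * ∑ j, ((E.ord (E.φ j G)).toNat : ℝ)

section Section

variable (𝒜)

/-- `X` is klt. -/
def IsKltVar (n r : ℕ) (x : Fin (n + 1) → R) (G : R) : Prop :=
  ∀ E : DivisorOver 𝒜 n 1, 0 < logDisc E r x G

/-- The pair `(X ^ N, (c / (m r)) D_m)`, `N = N_m = dim H⁰(X, m L) = dim H⁰(X, - m r K_X)`, is
klt: all its log discrepancies are positive. -/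
def IsKltPair (n r : ℕ) (x : Fin (n + 1) → R) (G : R) (m : ℕ) (c : ℝ≥0) : Prop :=
  ∀ E : DivisorOver 𝒜 n (secDim 𝒜 m),
    (c : ℝ) / (m * r) * ((E.ordDet 𝒜).toNat : ℝ) < logDisc E r x G

/-- `lct (X ^ N, (1 / (m r)) D_m)`. -/
noncomputable def lctF (n r : ℕ) (x : Fin (n + 1) → R) (G : R) (m : ℕ) : ℝ≥0∞ :=
  ⨆ c : {c : ℝ≥0 // IsKltPair 𝒜 n r x G m c}, (c : ℝ≥0∞)

/-- The Gibbs invariant `γ(X)`. -/
noncomputable def gibbsF (n r : ℕ) (x : Fin (n + 1) → R) (G : R) : ℝ≥0∞ :=
  Filter.liminf (fun m => lctF 𝒜 n r x G m) Filter.atTop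

/-- The stability threshold `δ(X) = inf_E A_X(E) / S(E)`; `S(E) = S_L(E) / r` for
`- K_X = L / r`. -/
noncomputable def stabilityF (n r : ℕ) (x : Fin (n + 1) → R) (G : R) : ℝ≥0∞ :=
  ⨅ E : DivisorOver 𝒜 n 1, ENNReal.ofReal (logDisc E r x G) / (E.S 𝒜 / r)

end Section

end Pool.Agent.Lib_KF
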