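import Pool.Agent.Lib_KF.ChNorm
import Pool.Agent.Lib_GD.ArcPull

/-! F1, F2: affine coordinates at the centre of a divisor; log discrepancies are finite. -/

namespace Pool.Agent.Lib_KF

open Pool.Agent.Lib_GD

variable {R : Type} [CommRing R] [Algebra ℂ R] {𝒜 : ℕ → Submodule ℂ R} [GradedAlgebra 𝒜]
  {n r d N : ℕ} {x : Fin (n + 1) → R} {G : R}

/-- An element of positive degree `X ^ k * C a`, `a ≠ 0`, is not integral over `ℂ`. -/
private theorem FColen_not_integral {κ : Type} [Field κ] [Algebra ℂ κ] {k : ℕ} (hk : 0 < k)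
    {a : κ} (ha : a ≠ 0) : ¬ IsIntegral ℂ (Polynomial.X ^ k * Polynomial.C a : Polynomial κ) := by
  rintro ⟨p, hp, h0⟩
  have h1 : (p.map (algebraMap ℂ κ)).comp (Polynomial.X ^ k * Polynomial.C a) = 0 := by
    rw [Polynomial.comp, Polynomial.eval₂_map, ← h0]
    rfl
  have h2 : p.map (algebraMap ℂ κ) ≠ 0 := (hp.map _).ne_zero
  rw [Polynomial.comp_eq_zero_iff] at h1
  rcases h1 with h1 | ⟨_, h1⟩
  · exact h2 h1
  · have h3 := congrArg Polynomial.natDegree h1
    rw [Polynomial.natDegree_C, Polynomial.X_pow_mul_C, Polynomial.natDegree_C_mul_X_pow k a ha]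
      at h3
    omega

/-- Integrality of the values of a homomorphism with values on `x b` in a subalgebra. -/
private theorem FColen_integral (h : IsFano 𝒜 n r d x G) {S : Type} [CommRing S] [Algebra ℂ S]
    (ψ : R →ₐ[ℂ] S) (B : Subalgebra ℂ S) (hB : ∀ b, ψ (x b) ∈ B) (f : R) :
    IsIntegral B (ψ f) := by
  have _ := h.x_finite
  have hCK : ∀ c : Algebra.adjoin ℂ (Set.range x), ψ c ∈ B := by
    intro c
    have h1 : Algebra.adjoin ℂ (Set.range x) ≤ B.comap ψ :=
      Algebra.adjoin_le (Set.range_subset_iff.2 hB)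
    exact h1 c.2
  refine IsIntegral.map_of_comp_eq (R := Algebra.adjoin ℂ (Set.range x))
    (RingHom.codRestrict (ψ.toRingHom.comp (algebraMap (Algebra.adjoin ℂ (Set.range x)) R))
      B hCK) ψ.toRingHom ?_
    (Algebra.IsIntegral.isIntegral (R := Algebra.adjoin ℂ (Set.range x)) f)
  ext c
  rfl

/-- F1. Proof: `f`, of degree `k > 0`, is integral over `ℂ[x]`; the component of degree `k p` of an
integral equation of degree `p` is `f ^ p + ∑ a_i f ^ (p - i) = 0` with `a_i` in `ℂ[x]`
homogeneous of positive degree, so `a_i` is in the ideal generated by the `x b`. If no `φ (x b)` is a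
unit then `φ (f) ^ p` is in the maximal ideal. -/
theorem isUnit_coord (h : IsFano 𝒜 n r d x G) {V : Type} [CommRing V] [IsLocalRing V]
    [Algebra ℂ V] (φ : R →ₐ[ℂ] V) (hc : ∃ k > 0, ∃ f ∈ 𝒜 k, IsUnit (φ f)) :
    ∃ b, IsUnit (φ (x b)) := by
  classical
  obtain ⟨k, hk, f, hf, hu⟩ := hc
  by_contra hcon
  push Not at hcon
  let κ := IsLocalRing.ResidueField V
  let q : V →ₐ[ℂ] κ := Algebra.ofId V κ |>.restrictScalars ℂ
  let φ' : R →ₐ[ℂ] Polynomial κ :=
    ((Algebra.ofId κ (Polynomial κ)).restrictScalars ℂ).comp (q.comp φ)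
  obtain ⟨ψ, hψ⟩ := exists_scale (𝒜 := 𝒜) φ' (Polynomial.X : Polynomial κ)
  have hψ' : ∀ j, ∀ f ∈ 𝒜 j, ψ f = Polynomial.X ^ j * Polynomial.C (q (φ f)) := hψ
  have hx : ∀ b, ψ (x b) ∈ (⊥ : Subalgebra ℂ (Polynomial κ)) := by
    intro b
    have h1 : q (φ (x b)) = 0 := by
      change IsLocalRing.residue V (φ (x b)) = 0
      rw [IsLocalRing.residue_eq_zero_iff, IsLocalRing.mem_maximalIdeal]
      exact hcon b
    rw [hψ' d _ (h.x_mem b), h1, map_zero, mul_zero]
    exact Subalgebra.zero_mem _
  have h2 := FColen_integral h ψ ⊥ hx f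
  have h3 : IsIntegral ℂ (ψ f) := by
    have _ : Algebra.IsIntegral ℂ (⊥ : Subalgebra ℂ (Polynomial κ)) := by
      infer_instance
    exact isIntegral_trans (ψ f) h2
  rw [hψ' k f hf] at h3
  refine FColen_not_integral hk ?_ h3
  exact (hu.map q).ne_zero

/-- Finite length from torsion. -/
private theorem FColen_length {V : Type} [CommRing V] [IsDomain V] [IsDiscreteValuationRing V]
    {Ω : Type} [AddCommGroup Ω] [Module V Ω] [Module.Finite V Ω] (P : Submodule V Ω)
    (htor : ∀ ω : Ω, ∃ v : V, v ≠ 0 ∧ v • ω ∈ P) : Module.length V (Ω ⧸ P) ≠ ⊤ := by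
  classical
  obtain ⟨k, g, hg⟩ := Module.Finite.exists_fin' V (Ω ⧸ P)
  have htor' : ∀ i : Fin k, ∃ v : V, v ≠ 0 ∧ v • g (Pi.single i 1) = 0 := by
    intro i
    obtain ⟨ω, hω⟩ := Submodule.Quotient.mk_surjective P (g (Pi.single i 1))
    obtain ⟨v, hv, hv1⟩ := htor ω
    refine ⟨v, hv, ?_⟩
    rw [← hω, ← Submodule.Quotient.mk_smul, Submodule.Quotient.mk_eq_zero]
    exact hv1
  choose v hv hv1 using htor'
  have hfin : ∀ i, IsFiniteLength V (V ⧸ Ideal.span {v i}) := fun i =>
    isFiniteLength_quotient_span_singleton V (mem_nonZeroDivisors_of_ne_zero (hv i))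
  have _ : ∀ i, IsArtinian V (V ⧸ Ideal.span {v i}) := fun i =>
    (isFiniteLength_iff_isNoetherian_isArtinian.1 (hfin i)).2
  have hker : ∀ i, (Ideal.span {v i} : Submodule V V) ≤
      LinearMap.ker (LinearMap.toSpanSingleton V (Ω ⧸ P) (g (Pi.single i 1))) := by
    intro i x hx
    obtain ⟨y, rfl⟩ := Ideal.mem_span_singleton'.1 hx
    rw [LinearMap.mem_ker, LinearMap.toSpanSingleton_apply, mul_smul, hv1 i, smul_zero]
  let H : (∀ i : Fin k, V ⧸ Ideal.span {v i}) →ₗ[V] (Ω ⧸ P) :=
    ∑ i, (Submodule.liftQ _ (LinearMap.toSpanSingleton V (Ω ⧸ P) (g (Pi.single i 1)))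
      (hker i)).comp (LinearMap.proj i)
  have hH : Function.Surjective H := by
    intro q
    obtain ⟨x, rfl⟩ := hg q
    refine ⟨fun i => Ideal.Quotient.mk _ (x i), ?_⟩
    change (∑ i, (Submodule.liftQ _ (LinearMap.toSpanSingleton V (Ω ⧸ P) (g (Pi.single i 1)))
      (hker i)).comp (LinearMap.proj i)) (fun i => Ideal.Quotient.mk _ (x i)) = g x
    rw [LinearMap.sum_apply]
    have h1 : ∀ i, ((Submodule.liftQ _ (LinearMap.toSpanSingleton V (Ω ⧸ P) (g (Pi.single i 1)))
        (hker i)).comp (LinearMap.proj i)) (fun i => Ideal.Quotient.mk (Ideal.span {v i}) (x i)) =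
        x i • g (Pi.single i 1) := by
      intro i
      rfl
    rw [Finset.sum_congr rfl fun i _ => h1 i]
    have hx : x = ∑ i, x i • (Pi.single i 1 : Fin k → V) := by
      funext j
      rw [Finset.sum_apply]
      simp [Pi.single_apply]
    conv_rhs => rw [hx, map_sum]
    exact Finset.sum_congr rfl fun i _ => (map_smul g (x i) _).symm
  have _ : IsArtinian V (Ω ⧸ P) := isArtinian_of_surjective _ H hH
  exact Module.length_ne_top

/-- The field of constants of a derivation. -/
private def FColen_const {K : Type} [Field K] [Algebra ℂ K] {Q : Type} [AddCommGroup Q]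
    [Module K Q] [Module ℂ Q] [IsScalarTower ℂ K Q] (D : Derivation ℂ K Q) :
    IntermediateField ℂ K where
  carrier := {z | D z = 0}
  mul_mem' {a b} ha hb := by
    have ha' : D a = 0 := ha
    have hb' : D b = 0 := hb
    change D (a * b) = 0
    rw [Derivation.leibniz, ha', hb', smul_zero, smul_zero, add_zero]
  add_mem' {a b} ha hb := by
    have ha' : D a = 0 := ha
    have hb' : D b = 0 := hb
    change D (a + b) = 0
    rw [map_add, ha', hb', add_zero]
  algebraMap_mem' c := by
    change D (algebraMap ℂ K c) = 0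
    exact D.map_algebraMap c
  inv_mem' a ha := by
    have ha' : D a = 0 := ha
    change D a⁻¹ = 0
    rw [Derivation.leibniz_inv, ha', smul_zero]

/-- The constants are algebraically closed. -/
private theorem FColen_closed {K : Type} [Field K] [Algebra ℂ K] {Q : Type} [AddCommGroup Q]
    [Module K Q] [Module ℂ Q] [IsScalarTower ℂ K Q] (D : Derivation ℂ K Q) (z : K)
    (hz : IsIntegral (FColen_const D) z) : D z = 0 := by
  let F := FColen_const D
  have hF : ∀ a : F, D (a : K) = 0 := fun a => a.2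
  let D0 : K →ₗ[F] Q :=
    { toFun := D
      map_add' := fun a b => map_add D a b
      map_smul' := fun a b => by
        change D ((a : K) * b) = (a : K) • D b
        rw [Derivation.leibniz, hF a, smul_zero, add_zero] }
  let D' : Derivation F K Q := Derivation.mk' D0 fun a b => D.leibniz a b
  have _ : CharZero K := charZero_of_injective_algebraMap (algebraMap ℂ K).injective
  have _ : CharZero F := charZero_of_injective_algebraMap (algebraMap ℂ F).injective
  have hsep : (minpoly F z).Separable := (minpoly.irreducible hz).separable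
  have h1 : D' (Polynomial.aeval z (minpoly F z)) =
      Polynomial.aeval z (Polynomial.derivative (minpoly F z)) • D' z := D'.map_aeval _ _
  rw [minpoly.aeval, map_zero] at h1
  rcases smul_eq_zero.1 h1.symm with h2 | h2
  · exact absurd h2 (hsep.aeval_derivative_ne_zero (minpoly.aeval F z))
  · exact h2

/-- ratios of sections are integral over a field containing the affine coordinates -/
private theorem FColen_ratio (h : IsFano 𝒜 n r d x G) {K : Type} [Field K] [Algebra ℂ K]
    (φ : R →ₐ[ℂ] K) (a : Fin (n + 1)) (ha : φ (x a) ≠ 0) (F : IntermediateField ℂ K)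
    (hF : ∀ b, φ (x b) / φ (x a) ∈ F) {m : ℕ} {s s' : R} (hs : s ∈ 𝒜 m) (hs' : s' ∈ 𝒜 m) :
    IsIntegral F (φ s / φ s') := by
  let C := AlgebraicClosure K
  have hd : 0 < d := h.d_pos
  obtain ⟨t, ht⟩ := IsAlgClosed.exists_pow_nat_eq (algebraMap K C (φ (x a))⁻¹) hd
  obtain ⟨ψ, hψ⟩ := exists_scale (𝒜 := 𝒜) ((IsScalarTower.toAlgHom ℂ K C).comp φ) t
  have hψ' : ∀ j, ∀ f ∈ 𝒜 j, ψ f = t ^ j * algebraMap K C (φ f) := hψ
  have ht0 : t ≠ 0 := by
    rintro rfl
    rw [zero_pow hd.ne', eq_comm, map_eq_zero] at ht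
    exact inv_ne_zero ha ht
  -- the values of `ψ` are integral over `F`
  let B : Subalgebra ℂ C := (integralClosure F C).restrictScalars ℂ
  have hB : ∀ b, ψ (x b) ∈ B := by
    intro b
    have h1 : ψ (x b) = algebraMap F C ⟨φ (x b) / φ (x a), hF b⟩ := by
      rw [hψ' d _ (h.x_mem b), ht]
      change _ = algebraMap K C (φ (x b) / φ (x a))
      rw [← map_mul, div_eq_mul_inv, mul_comm]
    rw [h1]
    exact isIntegral_algebraMap
  have hint : ∀ f, IsIntegral F (ψ f) := by
    intro f
    have h1 : IsIntegral (integralClosure F C) (ψ f) := FColen_integral h ψ B hB f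
    exact isIntegral_trans (ψ f) h1
  have hdiv : IsIntegral F (ψ s / ψ s') := by
    have h1 := (hint s).isAlgebraic
    have h2 := (hint s').isAlgebraic
    exact (h1.mul h2.inv).isIntegral
  have heq : ψ s / ψ s' = algebraMap K C (φ s / φ s') := by
    rw [hψ' m s hs, hψ' m s' hs', map_div₀, mul_div_mul_left _ _ (pow_ne_zero m ht0)]
  rw [heq] at hdiv
  exact (isIntegral_algebraMap_iff (algebraMap K C).injective).1 hdiv

/-- F2. Proof: as `DivisorOver.logDisc_ne_top` (Lib_GD/ArcPull.lean, also its private lemmas) with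
`coordSpan E x` in place of `E.pulledBack`. The only new point is that for `K = FractionRing E.V`
and `L` the `K`-span of the image of `coordSpan E x` in `Ω[K⁄ℂ]` one has `D z ∈ L` for all
generators `z = φ_j s / φ_j s'`: the set of `z` with `D z ∈ L` is a subfield `F` of `K` which is
algebraically closed in `K` (characteristic zero: minimal polynomial over `F`, differentiate). It
contains the `φ_j (x b) / φ_j (x a)`, where `φ_j (x a)` is a unit (F1; if `φ_j (x b) = 0`
clear). In the algebraic closure of `K` take `t ^ d = φ_j (x a)⁻¹` and the twist `φ'` of `φ_j`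
(`exists_scale`, ChNorm.lean; `φ' f = t ^ k φ_j f` for `f ∈ 𝒜 k`): then `φ' (x b)` is
`φ_j (x b) / φ_j (x a)`, all elements of `φ' (R)` are integral over `ℂ[φ' (x b)]`, and
`φ_j s / φ_j s' = φ' s / φ' s'`. -/
theorem length_coordSpan_ne_top (h : IsFano 𝒜 n r d x G) (E : DivisorOver 𝒜 n N) :
    Module.length E.V (KaehlerDifferential ℂ E.V ⧸ coordSpan E x) ≠ ⊤ := by
  classical
  have _ : Module.Finite E.V (KaehlerDifferential ℂ E.V) := KaehlerDifferential.finite ℂ E.V
  apply FColen_length
  intro ω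
  let K := FractionRing E.V
  let f := KaehlerDifferential.map ℂ ℂ E.V K
  have _ : IsLocalizedModule (nonZeroDivisors E.V) f :=
    KaehlerDifferential.isLocalizedModule_map ℂ E.V K (nonZeroDivisors E.V)
  let L : Submodule K (KaehlerDifferential ℂ K) :=
    (coordSpan E x).localized' K (nonZeroDivisors E.V) f
  have hL : ∀ p ∈ coordSpan E x, f p ∈ L := by
    intro p hp
    change f p ∈ (coordSpan E x).localized' K (nonZeroDivisors E.V) f
    rw [Submodule.localized'_eq_span]
    exact Submodule.subset_span ⟨p, hp, rfl⟩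
  have hLD : ∀ a : E.V, KaehlerDifferential.D ℂ E.V a ∈ coordSpan E x →
      KaehlerDifferential.D ℂ K (algebraMap E.V K a) ∈ L := by
    intro a ha
    have := hL _ ha
    change KaehlerDifferential.map ℂ ℂ E.V K (KaehlerDifferential.D ℂ E.V a) ∈ L at this
    rwa [KaehlerDifferential.map_D] at this
  let D : Derivation ℂ K (KaehlerDifferential ℂ K ⧸ L) :=
    L.mkQ.compDer (KaehlerDifferential.D ℂ K)
  have hD : ∀ z, D z = 0 → KaehlerDifferential.D ℂ K z ∈ L := by
    intro z hz
    exact (Submodule.Quotient.mk_eq_zero L).1 hz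
  have hD' : ∀ z, KaehlerDifferential.D ℂ K z ∈ L → D z = 0 := by
    intro z hz
    exact (Submodule.Quotient.mk_eq_zero L).2 hz
  have htopF : (⊤ : IntermediateField ℂ K) ≤ FColen_const D := by
    rw [← E.generates, IntermediateField.adjoin_le_iff]
    rintro z ⟨j, m, s, hs, s', hs', h0, rfl⟩
    obtain ⟨a, ha⟩ := isUnit_coord h (E.φ j) (E.centre j)
    obtain ⟨w, hw⟩ := ha.exists_right_inv
    let φ : R →ₐ[ℂ] K := (IsScalarTower.toAlgHom ℂ E.V K).comp (E.φ j)
    have hφ : ∀ g, φ g = algebraMap E.V K (E.φ j g) := fun g => rfl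
    have hw' : φ (x a) * algebraMap E.V K w = 1 := by
      rw [hφ, ← map_mul, hw, map_one]
    have ha0 : φ (x a) ≠ 0 := left_ne_zero_of_mul_eq_one hw'
    have h1 : IsIntegral (FColen_const D) (φ s / φ s') := by
      refine FColen_ratio h φ a ha0 (FColen_const D) (fun b => ?_) hs hs'
      have h2 : φ (x b) / φ (x a) = algebraMap E.V K (E.φ j (x b) * w) := by
        rw [div_eq_iff ha0, map_mul, mul_assoc, mul_comm (algebraMap E.V K w), hw', mul_one, hφ]
      rw [h2]
      exact hD' _ (hLD _ (Submodule.subset_span ⟨j, b, a, w, hw, rfl⟩))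
    exact FColen_closed D _ h1
  have hall : ∀ z : K, KaehlerDifferential.D ℂ K z ∈ L := fun z =>
    hD z (htopF (IntermediateField.mem_top : z ∈ (⊤ : IntermediateField ℂ K)))
  have htop : L = ⊤ := by
    rw [← top_le_iff, ← KaehlerDifferential.span_range_derivation ℂ K, Submodule.span_le]
    rintro _ ⟨z, rfl⟩
    exact hall z
  have h1 : f ω ∈ L := by rw [htop]; exact Submodule.mem_top
  obtain ⟨p, hp, s, hs⟩ := (Submodule.mem_localized' _ _ _ _ _).1 h1
  rw [IsLocalizedModule.mk'_eq_iff] at hs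
  have hs2 : f p = f ((s : E.V) • ω) := by rw [hs, map_smul]; rfl
  obtain ⟨c, hc⟩ := IsLocalizedModule.exists_of_eq (S := nonZeroDivisors E.V) hs2
  refine ⟨(c : E.V) * s, ?_, ?_⟩
  · exact mul_ne_zero (nonZeroDivisors.ne_zero c.2) (nonZeroDivisors.ne_zero s.2)
  · have h2 : ((c : E.V) * (s : E.V)) • ω = (c : E.V) • p := by
      rw [mul_smul]
      exact hc.symm
    rw [h2]
    exact Submodule.smul_mem _ _ hp

end Pool.Agent.Lib_KF
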