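import Pool.Agent.Lib_KF.PDefs
import Pool.Agent.Lib_GD.Growth
import Pool.Agent.Lib_GD.GeomDefs

/-! G03: finiteness and growth of the graded pieces. -/

namespace Pool.Agent.Lib_KF

open Pool.Agent.Lib_GD

variable {R : Type} [CommRing R] [Algebra ℂ R] {𝒜 : ℕ → Submodule ℂ R} [GradedAlgebra 𝒜] {n : ℕ}


/-- homogeneous generators of the irrelevant ideal -/
private theorem Growth_gen (h : IsPol 𝒜 n) :
    ∃ (S : Finset R) (e : R → ℕ), (∀ a ∈ S, 1 ≤ e a) ∧
      ∀ m, 1 ≤ m → ∀ x ∈ 𝒜 m, ∃ y : R → R,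
        (∀ a ∈ S, y a = 0 ∨ (e a ≤ m ∧ y a ∈ 𝒜 (m - e a))) ∧ x = ∑ a ∈ S, y a * a := by
  classical
  have h1 := h.finiteType
  have hN : IsNoetherianRing R := Algebra.FiniteType.isNoetherianRing ℂ R
  obtain ⟨S, hS, hspan⟩ := (Submodule.fg_span_iff_fg_span_finset_subset (R := R)
    {x : R | ∃ d, 1 ≤ d ∧ x ∈ 𝒜 d}).1 (IsNoetherian.noetherian _)
  have hS' : ∀ a ∈ S, ∃ d, 1 ≤ d ∧ a ∈ 𝒜 d := fun a ha => hS ha
  choose! e he1 he2 using hS'
  refine ⟨S, e, he1, ?_⟩
  intro m hm x hx
  have hx1 : x ∈ Submodule.span R (S : Set R) := by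
    rw [← hspan]
    exact Submodule.subset_span ⟨m, hm, hx⟩
  obtain ⟨f, _, hf⟩ := Submodule.mem_span_finset.1 hx1
  refine ⟨fun a => if e a ≤ m then (DirectSum.decompose 𝒜 (f a) (m - e a) : R) else 0, ?_, ?_⟩
  · intro a _
    by_cases h2 : e a ≤ m
    · right
      refine ⟨h2, ?_⟩
      simp only [h2, if_true]
      exact SetLike.coe_mem _
    · left
      simp only [h2, if_false]
  · have h3 : x = GradedRing.proj 𝒜 m x := by
      rw [GradedRing.proj_apply, DirectSum.decompose_of_mem_same 𝒜 hx]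
    rw [h3]
    conv_lhs => rw [← hf]
    rw [map_sum]
    refine Finset.sum_congr rfl fun a ha => ?_
    rw [smul_eq_mul, GradedRing.proj_apply, DirectSum.coe_decompose_mul_of_right_mem 𝒜 m (he2 a ha)]
    by_cases h2 : e a ≤ m
    · simp only [h2, if_true]
    · simp only [h2, if_false, zero_mul]

theorem finite_gradedP (h : IsPol 𝒜 n) (m : ℕ) : Module.Finite ℂ (𝒜 m) := by
  classical
  obtain ⟨S, e, he, hgen⟩ := Growth_gen h
  rw [Module.Finite.iff_fg]
  induction m using Nat.strong_induction_on with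
  | _ m ih =>
    rcases Nat.eq_zero_or_pos m with rfl | hm
    · rw [h.connected, Algebra.toSubmodule_bot, Submodule.one_eq_span]
      exact Submodule.fg_span_singleton _
    · have h1 : (⨆ a ∈ S, if e a ≤ m then (𝒜 (m - e a)).map (LinearMap.mulRight ℂ a) else
          (⊥ : Submodule ℂ R)).FG := by
        refine Submodule.fg_biSup S _ fun a ha => ?_
        by_cases h2 : e a ≤ m
        · simp only [h2, if_true]
          exact (ih (m - e a) (by have := he a ha; omega)).map _
        · simp only [h2, if_false]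
          exact Submodule.fg_bot
      refine Submodule.FG.of_le h1 fun x hx => ?_
      obtain ⟨y, hy, rfl⟩ := hgen m hm x hx
      refine Submodule.sum_mem _ fun a ha => ?_
      rcases hy a ha with h2 | ⟨h2, h3⟩
      · rw [h2, zero_mul]
        exact Submodule.zero_mem _
      · refine Submodule.mem_iSup_of_mem a (Submodule.mem_iSup_of_mem ha ?_)
        simp only [h2, if_true]
        exact ⟨y a, h3, rfl⟩

/-- the polynomials of bounded degree times the module generators -/
private noncomputable def GrowthW {s K : ℕ} (G : MvPolynomial (Fin s) ℂ →ₐ[ℂ] R) (g : Fin K → R)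
    (D : ℕ) : Submodule ℂ R :=
  Submodule.span ℂ (Set.range fun p : (Fin s → Fin (D + 1)) × Fin K =>
    G (MvPolynomial.monomial (Finsupp.equivFunOnFinite.symm fun i => (p.1 i : ℕ)) 1) * g p.2)

private theorem GrowthW_mono' {s K : ℕ} (G : MvPolynomial (Fin s) ℂ →ₐ[ℂ] R) (g : Fin K → R)
    (D : ℕ) (α : Fin s →₀ ℕ) (hα : ∀ i, α i ≤ D) (k : Fin K) :
    G (MvPolynomial.monomial α 1) * g k ∈ GrowthW G g D := by
  refine Submodule.subset_span ⟨(fun i => ⟨α i, by have := hα i; omega⟩, k), ?_⟩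
  have h1 : (Finsupp.equivFunOnFinite.symm fun i => α i) = α := by
    ext i
    rfl
  simp only [h1]

private theorem GrowthW_poly {s K : ℕ} (G : MvPolynomial (Fin s) ℂ →ₐ[ℂ] R) (g : Fin K → R)
    (D : ℕ) (P : MvPolynomial (Fin s) ℂ) (hP : ∀ i, P.degreeOf i ≤ D) (k : Fin K) :
    G P * g k ∈ GrowthW G g D := by
  have h0 : G P = ∑ α ∈ P.support, G (MvPolynomial.monomial α (MvPolynomial.coeff α P)) := by
    conv_lhs => rw [P.as_sum, map_sum]
  rw [h0, Finset.sum_mul]
  refine Submodule.sum_mem _ fun α hα => ?_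
  have h1 : MvPolynomial.monomial α (MvPolynomial.coeff α P) =
      MvPolynomial.coeff α P • MvPolynomial.monomial α (1 : ℂ) := by
    rw [MvPolynomial.smul_monomial, smul_eq_mul, mul_one]
  rw [h1, map_smul, smul_mul_assoc]
  exact Submodule.smul_mem _ _ (GrowthW_mono' G g D α
    (fun i => (MvPolynomial.monomial_le_degreeOf i hα).trans (hP i)) k)

private theorem GrowthW_le {s K : ℕ} (G : MvPolynomial (Fin s) ℂ →ₐ[ℂ] R) (g : Fin K → R)
    {D D' : ℕ} (hD : D ≤ D') : GrowthW G g D ≤ GrowthW G g D' := by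
  refine Submodule.span_le.2 ?_
  rintro _ ⟨p, rfl⟩
  refine GrowthW_mono' G g D' _ (fun i => ?_) p.2
  have := (p.1 i).isLt
  change (p.1 i : ℕ) ≤ D'
  omega

private theorem GrowthW_card {s K : ℕ} (G : MvPolynomial (Fin s) ℂ →ₐ[ℂ] R) (g : Fin K → R)
    (D : ℕ) : Module.finrank ℂ (GrowthW G g D) ≤ (D + 1) ^ s * K := by
  refine (finrank_range_le_card _).trans (le_of_eq ?_)
  rw [Fintype.card_prod, Fintype.card_fun, Fintype.card_fin, Fintype.card_fin, Fintype.card_fin]

private theorem GrowthW_mul {s K : ℕ} (G : MvPolynomial (Fin s) ℂ →ₐ[ℂ] R) (g : Fin K → R)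
    (c : ℕ) (a : R) (P : Fin K → Fin K → MvPolynomial (Fin s) ℂ)
    (hP : ∀ i k j, (P i k).degreeOf j ≤ c) (ha : ∀ i, a * g i = ∑ k, G (P i k) * g k)
    (D : ℕ) (w : R) (hw : w ∈ GrowthW G g D) : a * w ∈ GrowthW G g (D + c) := by
  unfold GrowthW at hw
  induction hw using Submodule.span_induction with
  | mem x hx =>
    obtain ⟨p, rfl⟩ := hx
    have h1 : a * (G (MvPolynomial.monomial (Finsupp.equivFunOnFinite.symm
        fun i => (p.1 i : ℕ)) 1) * g p.2) = ∑ k, G (MvPolynomial.monomial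
        (Finsupp.equivFunOnFinite.symm fun i => (p.1 i : ℕ)) 1 * P p.2 k) * g k := by
      rw [mul_left_comm, ha, Finset.mul_sum]
      refine Finset.sum_congr rfl fun k _ => ?_
      rw [map_mul, mul_assoc]
    simp only [h1]
    refine Submodule.sum_mem _ fun k _ => GrowthW_poly G g _ _ (fun j => ?_) k
    refine (MvPolynomial.degreeOf_mul_le j _ _).trans ?_
    rw [MvPolynomial.degreeOf_monomial_eq _ _ one_ne_zero]
    have h2 := (p.1 j).isLt
    have h3 := hP p.2 k j
    change (p.1 j : ℕ) + _ ≤ D + c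
    omega
  | zero =>
    rw [mul_zero]
    exact Submodule.zero_mem _
  | add x y _ _ hx hy =>
    rw [mul_add]
    exact Submodule.add_mem _ hx hy
  | smul r x _ hx =>
    rw [mul_smul_comm]
    exact Submodule.smul_mem _ _ hx

/-- non-zero elements of all large degrees -/
private theorem Growth_large (h : IsPol 𝒜 n)
    (h0 : ∃ d > 0, ∃ f ∈ 𝒜 d, f ≠ 0) : ∃ j₀, ∀ j, j₀ ≤ j → ∃ f ∈ 𝒜 j, f ≠ 0 := by
  have hdom := h.domain
  obtain ⟨d, f, hf, g, hg, hf0, hg0⟩ := h.line ⊥ Ideal.isPrime_bot (by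
    obtain ⟨d, hd, f, hf, hf0⟩ := h0
    exact ⟨d, hd, f, hf, fun hc => hf0 (by simpa using hc)⟩)
  have hf0' : f ≠ 0 := fun hc => hf0 (by simp [hc])
  have hg0' : g ≠ 0 := fun hc => hg0 (by simp [hc])
  rcases Nat.eq_zero_or_pos d with rfl | hd
  · refine ⟨0, fun j _ => ⟨g ^ j, ?_, pow_ne_zero _ hg0'⟩⟩
    have := SetLike.pow_mem_graded j hg
    simpa using this
  · refine ⟨d * d, fun j hj => ⟨f ^ (j / d - j % d) * g ^ (j % d), ?_,
      mul_ne_zero (pow_ne_zero _ hf0') (pow_ne_zero _ hg0')⟩⟩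
    have h1 := SetLike.mul_mem_graded (SetLike.pow_mem_graded (j / d - j % d) hf)
      (SetLike.pow_mem_graded (j % d) hg)
    have h2 : j % d < d := Nat.mod_lt _ hd
    have h3 : d ≤ j / d := (Nat.le_div_iff_mul_le hd).2 hj
    have h4 : (j / d - j % d) • d + (j % d) • (d + 1) = j := by
      rw [smul_eq_mul, smul_eq_mul, mul_add, mul_one, ← add_assoc, ← add_mul,
        Nat.sub_add_cancel (by omega)]
      exact Nat.div_add_mod' j d
    rwa [h4] at h1

/-- `N_m ≤ C m^n`. -/
theorem secDim_leP (h : IsPol 𝒜 n) :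
    ∃ C : ℕ, ∀ m, 1 ≤ m → secDim 𝒜 m ≤ C * m ^ n := by
  classical
  by_cases h0 : ∃ d > 0, ∃ f ∈ 𝒜 d, f ≠ 0
  swap
  · refine ⟨0, fun m hm => ?_⟩
    push Not at h0
    have h1 : 𝒜 m = ⊥ := by
      rw [Submodule.eq_bot_iff]
      exact fun x hx => h0 m hm x hx
    unfold secDim
    rw [h1, finrank_bot]
    exact Nat.zero_le _
  obtain ⟨j₀, hj₀⟩ := Growth_large h h0
  choose! H hH1 hH2 using hj₀
  obtain ⟨S, e, he, hgen⟩ := Growth_gen h
  have hfin := fun m => finite_gradedP h m
  have hdom := h.domain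
  have hft := h.finiteType
  obtain ⟨s, G, hG, hGfin⟩ := exists_finite_inj_algHom_of_fg ℂ R
  have hs : s ≤ n + 1 := by
    have h1 : AlgebraicIndependent ℂ (fun i => G (MvPolynomial.X i)) := by
      rw [algebraicIndependent_iff_injective_aeval]
      have h2 : MvPolynomial.aeval (fun i => G (MvPolynomial.X i)) = G := by
        refine MvPolynomial.algHom_ext fun i => ?_
        rw [MvPolynomial.aeval_X]
      rw [h2]
      exact hG
    have h3 := h1.cardinalMk_le_trdeg
    rw [h.dim, Cardinal.mk_fin] at h3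
    exact_mod_cast h3
  have hK : ∃ (K : ℕ) (g : Fin K → R), ∀ x : R, ∃ P : Fin K → MvPolynomial (Fin s) ℂ,
      x = ∑ k, G (P k) * g k := by
    let := G.toRingHom.toAlgebra
    have : Module.Finite (MvPolynomial (Fin s) ℂ) R := hGfin
    obtain ⟨K, g, hg⟩ := Module.Finite.exists_fin (R := MvPolynomial (Fin s) ℂ) (M := R)
    refine ⟨K, g, fun x => ?_⟩
    have hx : x ∈ Submodule.span (MvPolynomial (Fin s) ℂ) (Set.range g) := by
      rw [hg]
      trivial
    obtain ⟨P, hP⟩ := (Submodule.mem_span_range_iff_exists_fun _).1 hx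
    exact ⟨P, hP.symm⟩
  obtain ⟨K, g, hg⟩ := hK
  choose P hP using hg
  -- the degree constant
  obtain ⟨c, hc1, hc2⟩ : ∃ c, (∀ a ∈ S, ∀ i k j, (P (a * g i) k).degreeOf j ≤ c) ∧
      ∀ k j, (P 1 k).degreeOf j ≤ c := by
    refine ⟨(S.sup fun a => Finset.univ.sup fun i => Finset.univ.sup fun k =>
      Finset.univ.sup fun j => (P (a * g i) k).degreeOf j) +
      (Finset.univ.sup fun k => Finset.univ.sup fun j => (P 1 k).degreeOf j), ?_, ?_⟩
    · intro a ha i k j
      refine le_trans ?_ (Nat.le_add_right _ _)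
      refine le_trans ?_ (Finset.le_sup (f := fun a => Finset.univ.sup fun i =>
        Finset.univ.sup fun k => Finset.univ.sup fun j => (P (a * g i) k).degreeOf j) ha)
      refine le_trans ?_ (Finset.le_sup (f := fun i =>
        Finset.univ.sup fun k => Finset.univ.sup fun j => (P (a * g i) k).degreeOf j)
        (Finset.mem_univ i))
      refine le_trans ?_ (Finset.le_sup (f := fun k =>
        Finset.univ.sup fun j => (P (a * g i) k).degreeOf j) (Finset.mem_univ k))
      exact Finset.le_sup (f := fun j => (P (a * g i) k).degreeOf j) (Finset.mem_univ j)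
    · intro k j
      refine le_trans ?_ (Nat.le_add_left _ _)
      refine le_trans ?_ (Finset.le_sup (f := fun k =>
        Finset.univ.sup fun j => (P 1 k).degreeOf j) (Finset.mem_univ k))
      exact Finset.le_sup (f := fun j => (P 1 k).degreeOf j) (Finset.mem_univ j)
  have hmain : ∀ m, 𝒜 m ≤ GrowthW G g (c * (m + 1)) := by
    intro m
    induction m using Nat.strong_induction_on with
    | _ m ih =>
      rcases Nat.eq_zero_or_pos m with rfl | hm
      · rw [h.connected, Algebra.toSubmodule_bot, Submodule.one_eq_span, Submodule.span_le,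
          Set.singleton_subset_iff, SetLike.mem_coe, hP 1]
        refine Submodule.sum_mem _ fun k _ => GrowthW_poly G g _ _ (fun j => ?_) k
        have := hc2 k j
        simpa using this
      · intro x hx
        obtain ⟨y, hy, rfl⟩ := hgen m hm x hx
        refine Submodule.sum_mem _ fun a ha => ?_
        rcases hy a ha with h2 | ⟨h2, h3⟩
        · rw [h2, zero_mul]
          exact Submodule.zero_mem _
        · have h4 := ih (m - e a) (by have := he a ha; omega) h3
          have h5 := GrowthW_mul G g c a (fun i k => P (a * g i) k)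
            (fun i k j => hc1 a ha i k j) (fun i => hP (a * g i)) _ _ h4
          rw [mul_comm (y a) a]
          refine GrowthW_le G g ?_ h5
          have h6 : m - e a + 1 + 1 ≤ m + 1 := by
            have := he a ha
            omega
          calc c * (m - e a + 1) + c = c * (m - e a + 1 + 1) := by ring
            _ ≤ c * (m + 1) := Nat.mul_le_mul_left c h6
  refine ⟨(c * (j₀ + 3) + 1) ^ (n + 1) * K, fun m hm => ?_⟩
  -- multiplication by sections of degrees `j₀, ..., j₀ + m - 1`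
  set Φ : (Fin m → 𝒜 m) →ₗ[ℂ] R := ∑ j : Fin m,
    (LinearMap.mulLeft ℂ (H (j₀ + j))).comp ((𝒜 m).subtype.comp (LinearMap.proj j)) with hΦ
  have hΦa : ∀ x, Φ x = ∑ j : Fin m, H (j₀ + j) * (x j : R) := by
    intro x
    rw [hΦ, LinearMap.sum_apply]
    rfl
  have hmem : ∀ (x : Fin m → 𝒜 m) (j : Fin m), H (j₀ + j) * (x j : R) ∈ 𝒜 (j₀ + j + m) :=
    fun x j => SetLike.mul_mem_graded (hH1 (j₀ + j) (Nat.le_add_right _ _)) (x j).2
  have hinj : Function.Injective Φ := by
    rw [← LinearMap.ker_eq_bot, LinearMap.ker_eq_bot']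
    intro x hx
    rw [hΦa] at hx
    funext i
    have h1 : GradedRing.proj 𝒜 (j₀ + i + m) (∑ j : Fin m, H (j₀ + j) * (x j : R)) = 0 := by
      rw [hx, map_zero]
    rw [map_sum, Finset.sum_eq_single i] at h1
    · rw [GradedRing.proj_apply, DirectSum.decompose_of_mem_same 𝒜 (hmem x i)] at h1
      rcases mul_eq_zero.1 h1 with h2 | h2
      · exact absurd h2 (hH2 _ (Nat.le_add_right _ _))
      · exact Subtype.ext h2
    · intro j _ hj
      rw [GradedRing.proj_apply]
      refine DirectSum.decompose_of_mem_ne 𝒜 (hmem x j) fun hc => hj ?_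
      apply Fin.ext
      omega
    · intro hc
      exact absurd (Finset.mem_univ i) hc
  have hrange : LinearMap.range Φ ≤ GrowthW G g (c * (2 * m + j₀ + 1)) := by
    rintro _ ⟨x, rfl⟩
    rw [hΦa]
    refine Submodule.sum_mem _ fun j _ => ?_
    refine GrowthW_le G g ?_ (hmain _ (hmem x j))
    have := j.isLt
    exact Nat.mul_le_mul_left c (by omega)
  have hfinW : Module.Finite ℂ (GrowthW G g (c * (2 * m + j₀ + 1))) := by
    unfold GrowthW
    exact FiniteDimensional.span_of_finite ℂ (Set.finite_range _)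
  have h1 : m * secDim 𝒜 m ≤ (c * (2 * m + j₀ + 1) + 1) ^ s * K := by
    calc m * secDim 𝒜 m = Module.finrank ℂ (Fin m → 𝒜 m) := by
          rw [Module.finrank_pi_fintype]
          simp [secDim]
      _ = Module.finrank ℂ (LinearMap.range Φ) := (LinearMap.finrank_range_of_inj hinj).symm
      _ ≤ Module.finrank ℂ (GrowthW G g (c * (2 * m + j₀ + 1))) := Submodule.finrank_mono hrange
      _ ≤ _ := GrowthW_card G g _
  have h2 : c * (2 * m + j₀ + 1) + 1 ≤ (c * (j₀ + 3) + 1) * m := by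
    have h3 : 2 * m + j₀ + 1 ≤ (j₀ + 3) * m := by nlinarith
    calc c * (2 * m + j₀ + 1) + 1 ≤ c * ((j₀ + 3) * m) + m :=
          Nat.add_le_add (Nat.mul_le_mul_left c h3) hm
      _ = (c * (j₀ + 3) + 1) * m := by ring
  have h4 : (c * (2 * m + j₀ + 1) + 1) ^ s ≤ ((c * (j₀ + 3) + 1) * m) ^ (n + 1) :=
    (Nat.pow_le_pow_left h2 s).trans (Nat.pow_le_pow_right (by positivity) hs)
  have h5 : m * secDim 𝒜 m ≤ m * ((c * (j₀ + 3) + 1) ^ (n + 1) * K * m ^ n) := by
    calc m * secDim 𝒜 m ≤ ((c * (j₀ + 3) + 1) * m) ^ (n + 1) * K :=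
          h1.trans (Nat.mul_le_mul_right K h4)
      _ = m * ((c * (j₀ + 3) + 1) ^ (n + 1) * K * m ^ n) := by
          rw [mul_pow, pow_succ m n]
          ring
  exact Nat.le_of_mul_le_mul_left h5 hm

/-- The sections `secBasis 𝒜 m` form a basis of `𝒜 m`. -/
theorem secBasis_specP (h : IsPol 𝒜 n) (m : ℕ) :
    (∀ i, secBasis 𝒜 m i ∈ 𝒜 m) ∧ LinearIndependent ℂ (secBasis 𝒜 m) ∧
      Submodule.span ℂ (Set.range (secBasis 𝒜 m)) = 𝒜 m := by
  have hfin := finite_gradedP h m
  have h1 : secBasis 𝒜 m = fun i => ((𝒜 m).subtype (Module.finBasis ℂ (𝒜 m) i) : R) := by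
    funext i
    unfold secBasis
    rw [dif_pos hfin]
    rfl
  refine ⟨fun i => ?_, ?_, ?_⟩
  · rw [h1]
    exact (Module.finBasis ℂ (𝒜 m) i).2
  · rw [h1]
    exact (Module.finBasis ℂ (𝒜 m)).linearIndependent.map' (𝒜 m).subtype (Submodule.ker_subtype _)
  · have h2 : Set.range (secBasis 𝒜 m) =
        (𝒜 m).subtype '' Set.range (Module.finBasis ℂ (𝒜 m)) := by
      ext x
      constructor
      · rintro ⟨i, rfl⟩
        exact ⟨_, ⟨i, rfl⟩, (congrFun h1 i).symm⟩
      · rintro ⟨_, ⟨i, rfl⟩, rfl⟩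
        exact ⟨i, congrFun h1 i⟩
    rw [h2, Submodule.span_image, Module.Basis.span_eq, Submodule.map_top, Submodule.range_subtype]

end Pool.Agent.Lib_KF
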