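import Pool.Agent.Lib_KF.PDefs
import Pool.Agent.Lib_GD.OrdC
import Pool.Agent.Lib_KF.PSep
import Pool.Agent.Lib_GD.ChartTay

/-! G07: bound for vanishing orders at `ℂ`-points. -/

open PowerSeries

namespace Pool.Agent.Lib_KF

open Pool.Agent.Lib_GD

variable {R : Type} [CommRing R] [Algebra ℂ R] {𝒜 : ℕ → Submodule ℂ R} [GradedAlgebra 𝒜]
  {n : ℕ}

omit [GradedAlgebra 𝒜] in
private theorem dd_mul_zero (c : Chart 𝒜 n) (x : c.B →ₐ[ℂ] ℂ) (q : ℕ) (b b' : c.B)
    (hb : ∀ α : Fin n →₀ ℕ, α.degree < q → x (c.dd α b) = 0) (α : Fin n →₀ ℕ)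
    (hα : α.degree < q) : x (c.dd α (b * b')) = 0 := by
  classical
  have h1 : c.tay x α (b * b') = 0 := by
    rw [c.tay_mul]
    refine Finset.sum_eq_zero fun p hp => ?_
    have h2 : p.1 + p.2 = α := Finset.HasAntidiagonal.mem_antidiagonal.1 hp
    have h3 : p.1.degree + p.2.degree = α.degree := by rw [← map_add, h2]
    have h4 : c.tay x p.1 b = 0 := by
      unfold Chart.tay
      rw [hb p.1 (by omega), mul_zero]
    rw [h4, zero_mul]
  unfold Chart.tay at h1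
  rcases mul_eq_zero.1 h1 with h2 | h2
  · exfalso
    have h3 : (∏ l, ((α l).factorial : ℂ)) ≠ 0 :=
      Finset.prod_ne_zero_iff.2 fun _ _ => Nat.cast_ne_zero.2 (Nat.factorial_ne_zero _)
    have h4 : (∏ l, ((α l).factorial : ℂ))⁻¹ = 0 := by simpa using h2
    exact inv_ne_zero h3 h4
  · exact h2

private theorem count_step (h : IsPol 𝒜 n) (hn : 1 ≤ n) (c : Chart 𝒜 n) (m M Q : ℕ)
    (x : c.B →ₐ[ℂ] ℂ)
    (hsep : LinearIndependent ℂ (fun α : {α : Fin n →₀ ℕ // α.degree < n * Q} =>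
        fun i : Fin (secDim 𝒜 (m + M)) => x (c.dd α.1 (c.ρ (secBasis 𝒜 (m + M) i)))))
    (s : R) (hs : s ∈ 𝒜 m) (hs0 : s ≠ 0)
    (hj : ∀ α : Fin n →₀ ℕ, α.degree < n * Q → x (c.dd α (c.ρ s)) = 0) :
    Q ^ n + secDim 𝒜 M ≤ secDim 𝒜 (m + M) := by
  classical
  have := h.domain
  -- the multi-indices
  let g : (Fin n → Fin Q) → {α : Fin n →₀ ℕ // α.degree < n * Q} := fun a =>
    ⟨Finsupp.equivFunOnFinite.symm fun l => (a l : ℕ), by
      rw [Finsupp.degree_eq_sum]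
      simp only [Finsupp.equivFunOnFinite_symm_apply_apply]
      have h1 : ∑ l : Fin n, (a l : ℕ) < ∑ l : Fin n, Q :=
        Finset.sum_lt_sum_of_nonempty ⟨⟨0, hn⟩, Finset.mem_univ _⟩ fun l _ => (a l).2
      simpa using h1⟩
  have hg : Function.Injective g := by
    intro a a' haa
    have h1 : (g a).1 = (g a').1 := congrArg Subtype.val haa
    funext l
    have h2 : (g a).1 l = (g a').1 l := by rw [h1]
    exact Fin.ext h2
  have hA := hsep.comp g hg
  let A : Matrix (Fin n → Fin Q) (Fin (secDim 𝒜 (m + M))) ℂ :=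
    Matrix.of fun a i => x (c.dd (g a).1 (c.ρ (secBasis 𝒜 (m + M) i)))
  have hAr : A.rank = Q ^ n := by
    have h1 : A.rank = Fintype.card (Fin n → Fin Q) := LinearIndependent.rank_matrix hA
    rw [h1]
    simp
  -- the products
  obtain ⟨hb1, hb2, hb3⟩ := secBasis_specP (𝒜 := 𝒜) h (m + M)
  obtain ⟨hb1', hb2', hb3'⟩ := secBasis_specP (𝒜 := 𝒜) h M
  have hex : ∀ j : Fin (secDim 𝒜 M), ∃ e : Fin (secDim 𝒜 (m + M)) → ℂ,
      ∑ i, e i • secBasis 𝒜 (m + M) i = s * secBasis 𝒜 M j := by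
    intro j
    have h1 : s * secBasis 𝒜 M j ∈ 𝒜 (m + M) := SetLike.mul_mem_graded hs (hb1' j)
    rw [← hb3] at h1
    exact (Submodule.mem_span_range_iff_exists_fun ℂ).1 h1
  choose e he using hex
  have hB : LinearIndependent ℂ e := by
    let L : (Fin (secDim 𝒜 (m + M)) → ℂ) →ₗ[ℂ] R := Fintype.linearCombination ℂ (secBasis 𝒜 (m + M))
    refine LinearIndependent.of_comp L ?_
    have h1 : L ∘ e = (LinearMap.mulLeft ℂ s) ∘ secBasis 𝒜 M := by
      funext j
      simp only [Function.comp_apply, LinearMap.mulLeft_apply, L, Fintype.linearCombination_apply]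
      exact he j
    rw [h1]
    refine hb2'.map' _ ?_
    rw [LinearMap.ker_eq_bot]
    intro u v huv
    simp only [LinearMap.mulLeft_apply] at huv
    exact mul_left_cancel₀ hs0 huv
  let B : Matrix (Fin (secDim 𝒜 M)) (Fin (secDim 𝒜 (m + M))) ℂ := Matrix.of e
  have hBr : B.transpose.rank = secDim 𝒜 M := by
    rw [Matrix.rank_transpose]
    have h1 : B.rank = Fintype.card (Fin (secDim 𝒜 M)) := LinearIndependent.rank_matrix hB
    rw [h1]
    simp
  have hAB : A * B.transpose = 0 := by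
    ext a j
    rw [Matrix.mul_apply]
    simp only [Matrix.transpose_apply, Matrix.zero_apply, A, B, Matrix.of_apply]
    have h1 : x (c.dd (g a).1 (c.ρ (s * secBasis 𝒜 M j))) = 0 := by
      rw [map_mul]
      exact dd_mul_zero c x (n * Q) _ _ hj (g a).1 (g a).2
    rw [← he j] at h1
    rw [map_sum, map_sum, map_sum] at h1
    rw [← h1]
    refine Finset.sum_congr rfl fun i _ => ?_
    rw [map_smul, map_smul, map_smul, smul_eq_mul, mul_comm]
  have h1 := Matrix.rank_add_rank_le_card_of_mul_eq_zero hAB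
  rw [hAr, hBr, Fintype.card_fin] at h1
  exact h1

/-- G07a (T) at `ℂ`-points. -/
theorem chart_ord_le_CP (h : IsPol 𝒜 n) (hn : 1 ≤ n) (c : Chart 𝒜 n) :
    ∃ C : ℕ, ∀ m, 1 ≤ m → ∀ (x : c.B →ₐ[ℂ] ℂ), ∀ s ∈ 𝒜 m, s ≠ 0 →
      ∃ α : Fin n →₀ ℕ, α.degree ≤ C * m ∧ x (c.dd α (c.ρ s)) ≠ 0 := by
  obtain ⟨c₀, hc₀, m₀, hsep⟩ := chart_sepP h c
  obtain ⟨C₁, hC₁⟩ := secDim_leP (𝒜 := 𝒜) h
  have hn0 : (0 : ℝ) < n := by exact_mod_cast hn
  -- the constants
  obtain ⟨K, hK⟩ := exists_nat_gt (max (C₁ * (4 * n / c₀) ^ n) (max (n / c₀) (max m₀ 1)))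
  have hK1 : C₁ * (4 * n / c₀) ^ n < (K : ℝ) := lt_of_le_of_lt (le_max_left _ _) hK
  have hK2 : n / c₀ < (K : ℝ) :=
    lt_of_le_of_lt ((le_max_left _ _).trans (le_max_right _ _)) hK
  have hK3 : (m₀ : ℝ) < (K : ℝ) :=
    lt_of_le_of_lt ((le_max_left _ _).trans ((le_max_right _ _).trans (le_max_right _ _))) hK
  have hK4 : (1 : ℝ) < (K : ℝ) :=
    lt_of_le_of_lt ((le_max_right _ _).trans ((le_max_right _ _).trans (le_max_right _ _))) hK
  have hK3' : m₀ < K := by exact_mod_cast hK3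
  have hK4' : 1 < K := by exact_mod_cast hK4
  have hK0 : (0 : ℝ) < K := by linarith
  set C' : ℕ := ⌊c₀ * K / n⌋₊ with hC'
  have hy1 : 1 ≤ c₀ * K / n := by
    rw [le_div_iff₀ hn0, one_mul]
    rw [div_lt_iff₀ hc₀] at hK2
    linarith
  have hfl : (C' : ℝ) ≤ c₀ * K / n := Nat.floor_le (by positivity)
  have hfl2 : c₀ * K / n / 2 ≤ (C' : ℝ) := by
    have h1 := Nat.lt_floor_add_one (c₀ * K / n)
    rw [← hC'] at h1
    have h2 : 1 ≤ C' := by
      rw [hC']
      exact Nat.le_floor (by simpa using hy1)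
    have h3 : (1 : ℝ) ≤ C' := by exact_mod_cast h2
    linarith
  refine ⟨n * C', ?_⟩
  intro m hm x s hs hs0
  by_contra hcon
  push Not at hcon
  have hmr : (1 : ℝ) ≤ m := by exact_mod_cast hm
  have hj : ∀ α : Fin n →₀ ℕ, α.degree < n * (C' * m) → x (c.dd α (c.ρ s)) = 0 := by
    intro α hα
    exact hcon α (by rw [mul_assoc]; exact hα.le)
  -- the iteration
  have hiter : ∀ k : ℕ, k * (C' * m) ^ n ≤ secDim 𝒜 (k * m + K * m) := by
    intro k
    induction k with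
    | zero => simp
    | succ k ih =>
      have h1 := count_step h hn c m (k * m + K * m) (C' * m) x (by
        refine hsep (m + (k * m + K * m)) ?_ ℂ x (n * (C' * m)) ?_
        · nlinarith
        · push_cast
          have h2 : (n : ℝ) * C' ≤ c₀ * K := by
            rw [le_div_iff₀ hn0] at hfl
            linarith
          have h3 : (n : ℝ) * (C' * m) ≤ c₀ * (K * m) := by nlinarith
          have h4 : (0 : ℝ) ≤ (m : ℝ) + k * m := by positivity
          nlinarith) s hs hs0 hj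
      have h2 : (k + 1) * m + K * m = m + (k * m + K * m) := by ring
      rw [h2]
      calc (k + 1) * (C' * m) ^ n = (C' * m) ^ n + k * (C' * m) ^ n := by ring
        _ ≤ (C' * m) ^ n + secDim 𝒜 (k * m + K * m) := Nat.add_le_add_left ih _
        _ ≤ _ := h1
  have h1 := hiter K
  have h2 := hC₁ (K * m + K * m) (by nlinarith)
  have h3 : K * (C' * m) ^ n ≤ C₁ * (K * m + K * m) ^ n := h1.trans h2
  have h4 : (K : ℝ) * (C' * m) ^ n ≤ C₁ * (K * m + K * m) ^ n := by exact_mod_cast h3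
  have h5 : (K : ℝ) * (C' : ℝ) ^ n ≤ C₁ * (2 * K) ^ n := by
    have h6 : (K : ℝ) * (C' * m) ^ n = (K * (C' : ℝ) ^ n) * m ^ n := by rw [mul_pow]; ring
    have h7 : (C₁ : ℝ) * (K * m + K * m) ^ n = (C₁ * (2 * K) ^ n) * m ^ n := by
      rw [← two_mul, ← mul_assoc, mul_pow]; ring
    rw [h6, h7] at h4
    exact le_of_mul_le_mul_right h4 (by positivity)
  have h6 : (c₀ * K / n / 2) ^ n ≤ (C' : ℝ) ^ n := pow_le_pow_left₀ (by positivity) hfl2 n
  have h7 : (K : ℝ) * (c₀ * K / n / 2) ^ n ≤ C₁ * (2 * K) ^ n :=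
    (mul_le_mul_of_nonneg_left h6 hK0.le).trans h5
  have h8 : (C₁ : ℝ) * (2 * K) ^ n = C₁ * (4 * n / c₀) ^ n * (c₀ * K / n / 2) ^ n := by
    rw [mul_assoc, ← mul_pow]
    congr 2
    field_simp
    ring
  rw [h8] at h7
  have h9 : (K : ℝ) ≤ C₁ * (4 * n / c₀) ^ n := le_of_mul_le_mul_right h7 (by positivity)
  linarith

end Pool.Agent.Lib_KF
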