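import Pool.Agent.Lib_KF.PDefs
import Pool.Agent.Lib_GD.AtlasEx

/-! Existence of a chart (generic smoothness). -/

open KaehlerDifferential

namespace Pool.Agent.Lib_KF

open Pool.Agent.Lib_GD

open scoped IntermediateField.algebraAdjoinAdjoin in
/-- the rank of the differentials of a finitely generated field is its transcendence degree -/
private theorem atlasEx_rank_field (L : Type) [Field L] [Algebra ℂ L] [Algebra.EssFiniteType ℂ L] :
    Module.rank L (Ω[L⁄ℂ]) = Algebra.trdeg ℂ L := by
  obtain ⟨s, hs, hsep⟩ := exists_isTranscendenceBasis_and_isSeparable_of_perfectField ℂ L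
  set v : s → L := fun x => (x : L) with hv
  have hrange : (s : Set L) = Set.range v := by simp [hv]
  rw [hrange] at hsep
  have hb : AlgebraicIndependent ℂ v := hs.1
  let A' := Algebra.adjoin ℂ (Set.range v)
  let K := IntermediateField.adjoin ℂ (Set.range v)
  let i1 : Algebra (MvPolynomial s ℂ) A' :=
    (hb.aevalEquiv : MvPolynomial s ℂ →+* A').toAlgebra
  have i2 : IsScalarTower ℂ (MvPolynomial s ℂ) A' :=
    .of_algebraMap_eq fun x => by
      change _ = hb.aevalEquiv (algebraMap ℂ (MvPolynomial s ℂ) x)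
      rw [AlgEquiv.commutes]
  have i3 : Algebra.FormallyEtale (MvPolynomial s ℂ) A' :=
    Algebra.FormallyEtale.of_equiv
      (AlgEquiv.ofBijective (Algebra.ofId (MvPolynomial s ℂ) A') hb.aevalEquiv.bijective)
  have i4 : Algebra.FormallyEtale A' K := .of_isLocalization (nonZeroDivisors _)
  have i5 : Algebra.FormallyEtale K L := Algebra.FormallyEtale.of_isSeparable _ L
  have i6 : Algebra.FormallyEtale A' L := .comp A' K L
  let b0 : Module.Basis s A' (Ω[A'⁄ℂ]) :=
    ((KaehlerDifferential.mvPolynomialBasis ℂ s).baseChange A').map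
      (KaehlerDifferential.tensorKaehlerEquivOfFormallyEtale ℂ (MvPolynomial s ℂ) A')
  let b1 : Module.Basis s L (Ω[L⁄ℂ]) :=
    (b0.baseChange L).map (KaehlerDifferential.tensorKaehlerEquivOfFormallyEtale ℂ A' L)
  rw [← b1.mk_eq_rank'', ← hs.cardinalMk_eq_trdeg]

/-- the number of elements of a basis of the differentials is the transcendence degree -/
private theorem atlasEx_card (B : Type) [CommRing B] [IsDomain B] [Algebra ℂ B]
    [Algebra.EssFiniteType ℂ B] {I : Type} (b : Module.Basis I B (Ω[B⁄ℂ])) :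
    Cardinal.mk I = Algebra.trdeg ℂ B := by
  let L := FractionRing B
  have i0 : Algebra.EssFiniteType B L := Algebra.EssFiniteType.of_isLocalization L (nonZeroDivisors B)
  have i1 : Algebra.EssFiniteType ℂ L := .comp ℂ B L
  have i2 : Algebra.FormallyEtale B L := .of_isLocalization (nonZeroDivisors B)
  let b1 : Module.Basis I L (Ω[L⁄ℂ]) :=
    (b.baseChange L).map (KaehlerDifferential.tensorKaehlerEquivOfFormallyEtale ℂ B L)
  have h1 := atlasEx_rank_field L
  rw [← b1.mk_eq_rank''] at h1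
  rw [h1]
  have h2 := trdeg_add_eq ℂ B (A := L)
  have h3 : Algebra.trdeg B L = 0 := by
    rw [trdeg_eq_zero_iff]
    exact IsLocalization.isAlgebraic L (nonZeroDivisors B)
  rw [h3, add_zero] at h2
  exact h2.symm

variable {R : Type} [CommRing R] [Algebra ℂ R] {𝒜 : ℕ → Submodule ℂ R} [GradedAlgebra 𝒜] {n : ℕ}

/-- homomorphisms out of a graded algebra -/
private theorem atlasEx_hom {B : Type} [CommRing B] [Algebra ℂ B] (f : ∀ m, 𝒜 m →ₗ[ℂ] B)
    (h1 : f 0 ⟨1, SetLike.one_mem_graded 𝒜⟩ = 1)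
    (hmul : ∀ i j (a : 𝒜 i) (b : 𝒜 j), f (i + j) ⟨a * b, SetLike.mul_mem_graded a.2 b.2⟩ =
      f i a * f j b) :
    ∃ φ : R →ₐ[ℂ] B, ∀ m (s : 𝒜 m), φ s = f m s := by
  classical
  refine ⟨(DirectSum.toAlgebra ℂ (fun i => 𝒜 i) f h1 (fun {i j} a b => hmul i j a b)).comp
    (DirectSum.decomposeAlgEquiv 𝒜 : R →ₐ[ℂ] _), fun m s => ?_⟩
  rw [AlgHom.comp_apply]
  have h2 : (DirectSum.decomposeAlgEquiv 𝒜 : R →ₐ[ℂ] _) (s : R) = DirectSum.of (fun i => 𝒜 i) m s := by
    change DirectSum.decompose 𝒜 (s : R) = _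
    exact DirectSum.decompose_coe 𝒜 s
  rw [h2]
  exact DirectSum.toAddMonoid_of (fun i => (f i).toAddMonoidHom) m s

/-- the data of an open set on which `O(1)` is trivial -/
private structure AtlasExPre (𝒜 : ℕ → Submodule ℂ R) (f g : R) (d : ℕ) where
  B : Type
  [commRing : CommRing B]
  [isDomain : IsDomain B]
  [algebra : Algebra ℂ B]
  [ft : Algebra.FiniteType ℂ B]
  ρ : R →ₐ[ℂ] B
  unit : IsUnit (ρ f)
  eq : ρ f = ρ g
  inj : ∀ m, ∀ s ∈ 𝒜 m, ρ s = 0 → s = 0
  surj : ∀ b, ∃ k, ∃ s ∈ 𝒜 ((d + (d + 1)) * k), b * ρ (f * g) ^ k = ρ s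

private theorem atlasEx_pre (h : IsPol 𝒜 n)
    (f g : R) (d : ℕ) (hf : f ∈ 𝒜 d) (hg : g ∈ 𝒜 (d + 1)) (hf0 : f ≠ 0) (hg0 : g ≠ 0) :
    Nonempty (AtlasExPre 𝒜 f g d) := by
  classical
  have hdom : IsDomain R := h.domain
  have hF0 : f * g ∈ 𝒜 (d + (d + 1)) := SetLike.mul_mem_graded hf hg
  have hFne : f * g ≠ 0 := mul_ne_zero hf0 hg0
  let B0 := HomogeneousLocalization.Away 𝒜 (f * g)
  let S := Localization.Away (f * g)
  have hSdom : IsDomain S := IsLocalization.isDomain_localization
    (powers_le_nonZeroDivisors_of_noZeroDivisors hFne)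
  have hSinj : Function.Injective (algebraMap R S) :=
    IsLocalization.injective S (powers_le_nonZeroDivisors_of_noZeroDivisors hFne)
  have hBdom : IsDomain B0 := Function.Injective.isDomain (algebraMap B0 S)
    (HomogeneousLocalization.val_injective _)
  have hFu : IsUnit (algebraMap R S (f * g)) := IsLocalization.Away.algebraMap_isUnit (f * g)
  -- the algebra structure
  let iC : Algebra ℂ B0 :=
    { (inferInstance : SMul ℂ B0) with
      algebraMap := (algebraMap (𝒜 0) B0).comp (algebraMap ℂ (𝒜 0))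
      commutes' := fun c x => mul_comm _ _
      smul_def' := fun c x => by
        apply HomogeneousLocalization.val_injective
        rw [HomogeneousLocalization.val_mul, HomogeneousLocalization.val_smul]
        rw [Algebra.smul_def]
        rfl }
  have iT : @IsScalarTower ℂ (𝒜 0) B0 Algebra.toSMul Algebra.toSMul Algebra.toSMul :=
    IsScalarTower.of_algebraMap_eq fun x => rfl
  have hbij : Function.Bijective (algebraMap ℂ (𝒜 0)) := by
    constructor
    · intro x y hxy
      have h1 : algebraMap ℂ R x = algebraMap ℂ R y := congrArg Subtype.val hxy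
      exact (algebraMap ℂ R).injective h1
    · rintro ⟨x, hx⟩
      have hx' := hx
      rw [h.connected] at hx'
      obtain ⟨c, hc⟩ := Algebra.mem_bot.1 hx'
      exact ⟨c, Subtype.ext hc⟩
  have hft : Algebra.FiniteType ℂ R := h.finiteType
  have hst : @IsScalarTower ℂ (𝒜 0) R Algebra.toSMul Algebra.toSMul Algebra.toSMul :=
    IsScalarTower.of_algebraMap_eq fun x => rfl
  have hft0 : Algebra.FiniteType (𝒜 0) R :=
    Algebra.FiniteType.of_restrictScalars_finiteType ℂ (𝒜 0) R
  have hsm0 : Algebra.FiniteType ℂ (𝒜 0) := Algebra.FiniteType.of_surjective (Algebra.ofId ℂ (𝒜 0))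
    hbij.2
  have hsm1 : Algebra.FiniteType (𝒜 0) B0 :=
    HomogeneousLocalization.Away.finiteType (f * g) _ hF0
  have hsm : Algebra.FiniteType ℂ B0 := Algebra.FiniteType.trans hsm0 hsm1
  -- the homomorphism
  have hdeg : ∀ m, ∀ s ∈ 𝒜 m, s * f ^ (2 * m) ∈ 𝒜 (m • (d + (d + 1))) := by
    intro m s hs
    have h1 : f ^ (2 * m) ∈ 𝒜 ((2 * m) • d) := SetLike.pow_mem_graded _ hf
    have h2 := SetLike.mul_mem_graded hs h1
    have h3 : m + (2 * m) • d = m • (d + (d + 1)) := by
      simp only [smul_eq_mul]; ring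
    rwa [h3] at h2
  have hmk : ∀ (k : ℕ) (a : R) (z : S), algebraMap R S a = z * algebraMap R S (f * g) ^ k →
      (Localization.mk a ⟨(f * g) ^ k, ⟨k, rfl⟩⟩ : S) = z := by
    intro k a z hz
    rw [Localization.mk_eq_mk', IsLocalization.mk'_eq_iff_eq_mul]
    rw [hz, map_pow]
  have hmk' : ∀ (k : ℕ) (a : R), (Localization.mk a ⟨(f * g) ^ k, ⟨k, rfl⟩⟩ : S) *
      algebraMap R S (f * g) ^ k = algebraMap R S a := by
    intro k a
    rw [Localization.mk_eq_mk', ← map_pow]
    exact IsLocalization.mk'_spec S a (⟨(f * g) ^ k, ⟨k, rfl⟩⟩ : Submonoid.powers (f * g))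
  obtain ⟨θ, hθ⟩ : ∃ θ : S, algebraMap R S g * θ = algebraMap R S f := by
    refine ⟨IsLocalization.mk' S (f ^ 2) (⟨f * g, 1, pow_one _⟩ : Submonoid.powers (f * g)), ?_⟩
    have h1 := IsLocalization.mk'_spec' S (f ^ 2) (⟨f * g, 1, pow_one _⟩ : Submonoid.powers (f * g))
    have h2 : algebraMap R S f ≠ 0 := fun h0 => hf0 (hSinj (by rw [h0, map_zero]))
    apply mul_left_cancel₀ h2
    rw [← mul_assoc, ← map_mul, ← map_mul, ← pow_two]
    exact h1
  have hθF : algebraMap R S (f * g) * θ = algebraMap R S f ^ 2 := by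
    rw [map_mul, mul_assoc, hθ, pow_two]
  have hlin : ∀ m (s : R) (hs : s ∈ 𝒜 m),
      (HomogeneousLocalization.Away.mk 𝒜 hF0 m (s * f ^ (2 * m)) (hdeg m s hs)).val =
        algebraMap R S s * θ ^ m := by
    intro m s hs
    rw [HomogeneousLocalization.Away.val_mk]
    apply hmk
    rw [mul_assoc, ← mul_pow, mul_comm θ, hθF, ← pow_mul, map_mul, map_pow]
  let lin : ∀ m, 𝒜 m →ₗ[ℂ] B0 := fun m =>
    { toFun := fun s => HomogeneousLocalization.Away.mk 𝒜 hF0 m (s * f ^ (2 * m)) (hdeg m s s.2)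
      map_add' := fun a b => by
        apply HomogeneousLocalization.val_injective
        rw [HomogeneousLocalization.val_add, hlin m _ a.2, hlin m _ b.2, hlin m _ (a + b).2]
        rw [Submodule.coe_add, map_add, add_mul]
      map_smul' := fun c a => by
        apply HomogeneousLocalization.val_injective
        rw [RingHom.id_apply]
        have h1 : (c • (HomogeneousLocalization.Away.mk 𝒜 hF0 m (a * f ^ (2 * m))
            (hdeg m a a.2))).val = c • (HomogeneousLocalization.Away.mk 𝒜 hF0 m (a * f ^ (2 * m))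
            (hdeg m a a.2)).val := HomogeneousLocalization.val_smul _ _ _
        rw [h1, hlin m _ a.2, hlin m _ (c • a).2]
        rw [Submodule.coe_smul, Algebra.smul_def, map_mul, Algebra.smul_def,
          IsScalarTower.algebraMap_apply ℂ R S, mul_assoc] }
  have hval : ∀ m (s : 𝒜 m), (lin m s).val = algebraMap R S s * θ ^ m := fun m s => hlin m s s.2
  obtain ⟨ρ, hρ⟩ := atlasEx_hom (𝒜 := 𝒜) lin
    (by
      apply HomogeneousLocalization.val_injective
      rw [hval, HomogeneousLocalization.val_one, pow_zero, mul_one, map_one])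
    (fun i j a b => by
      apply HomogeneousLocalization.val_injective
      rw [HomogeneousLocalization.val_mul, hval, hval, hval, map_mul, pow_add]
      ring)
  have hρ' : ∀ m, ∀ s ∈ 𝒜 m, (ρ s).val = algebraMap R S s * θ ^ m := fun m s hs => by
    rw [hρ m ⟨s, hs⟩, hval]
  have hθ0 : θ ≠ 0 := by
    rintro rfl
    rw [mul_zero] at hθ
    exact hf0 (hSinj (by rw [← hθ, map_zero]))
  have hFFu : IsUnit (algebraMap R S (f * g)) := hFu
  have hfg : ρ f = ρ g := by
    apply HomogeneousLocalization.val_injective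
    rw [hρ' _ _ hf, hρ' _ _ hg, ← hθ, pow_succ]
    ring
  exact ⟨{
    B := B0
    ρ := ρ
    unit := by
      have h1 : g ^ (2 * d + 1) ∈ 𝒜 ((d + 1) • (d + (d + 1))) := by
        have := SetLike.pow_mem_graded (A := 𝒜) (2 * d + 1) hg
        have h3 : (2 * d + 1) • (d + 1) = (d + 1) • (d + (d + 1)) := by
          simp only [smul_eq_mul]; ring
        rwa [h3] at this
      apply IsUnit.of_mul_eq_one
        (HomogeneousLocalization.Away.mk 𝒜 hF0 (d + 1) (g ^ (2 * d + 1)) h1)
      apply HomogeneousLocalization.val_injective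
      rw [HomogeneousLocalization.val_mul, HomogeneousLocalization.val_one, hρ' _ _ hf,
        HomogeneousLocalization.Away.val_mk]
      apply (hFFu.pow (d + 1)).mul_right_cancel
      rw [mul_assoc, hmk', one_mul, map_mul, mul_pow, map_pow]
      have h4 : algebraMap R S g ^ d * θ ^ d = algebraMap R S f ^ d := by
        rw [← mul_pow, hθ]
      calc algebraMap R S f * θ ^ d * algebraMap R S g ^ (2 * d + 1)
          = algebraMap R S f * (algebraMap R S g ^ d * θ ^ d) * algebraMap R S g ^ (d + 1) := by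
            ring
        _ = algebraMap R S f ^ (d + 1) * algebraMap R S g ^ (d + 1) := by rw [h4]; ring
    eq := hfg
    inj := fun m s hs h0 => by
      have h1 := hρ' m s hs
      rw [h0, HomogeneousLocalization.val_zero] at h1
      have h2 : algebraMap R S s = 0 := by
        rcases mul_eq_zero.1 h1.symm with h3 | h3
        · exact h3
        · exact absurd h3 (pow_ne_zero _ hθ0)
      exact hSinj (by rw [h2, map_zero])
    surj := fun b => by
      obtain ⟨k, a, ha, rfl⟩ := HomogeneousLocalization.Away.mk_surjective 𝒜 hF0 b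
      have ha' : a ∈ 𝒜 ((d + (d + 1)) * k) := by
        rwa [smul_eq_mul, mul_comm] at ha
      refine ⟨k, a, ha', ?_⟩
      apply HomogeneousLocalization.val_injective
      rw [HomogeneousLocalization.val_mul, HomogeneousLocalization.val_pow, hρ' _ _ hF0,
        hρ' _ _ ha', HomogeneousLocalization.Away.val_mk, mul_pow (algebraMap R S (f * g)),
        ← mul_assoc, hmk', ← pow_mul] }⟩

/-- a homomorphism which is injective on the graded pieces and multiplies them with the powers of
a variable -/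
private theorem atlasEx_poly {B : Type} [CommRing B] [Algebra ℂ B] (ρ : R →ₐ[ℂ] B) :
    ∃ φ : R →ₐ[ℂ] Polynomial B, ∀ m, ∀ s ∈ 𝒜 m, φ s = Polynomial.monomial m (ρ s) := by
  obtain ⟨φ, hφ⟩ := atlasEx_hom (𝒜 := 𝒜) (B := Polynomial B)
    (fun m => ((Polynomial.monomial m).restrictScalars ℂ).comp
      ((ρ : R →ₗ[ℂ] B).comp (𝒜 m).subtype))
    (by simp) (fun i j a b => by simp [Polynomial.monomial_mul_monomial])
  exact ⟨φ, fun m s hs => by rw [hφ m ⟨s, hs⟩]; simp⟩

private theorem atlasEx_trdeg {B : Type} [CommRing B] [IsDomain B] [IsDomain R] [Algebra ℂ B]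
    (ρ : R →ₐ[ℂ] B) (F : R) (d : ℕ) (hF : F ∈ 𝒜 d) (hF0 : F ≠ 0)
    (inj : ∀ m, ∀ s ∈ 𝒜 m, ρ s = 0 → s = 0)
    (surj : ∀ b, ∃ k, ∃ s ∈ 𝒜 (d * k), b * ρ F ^ k = ρ s)
    (e : ℕ) (T : R) (hT : T ∈ 𝒜 (d * e + 1)) (ρT : ρ T = ρ F ^ e) :
    Algebra.trdeg ℂ R = Algebra.trdeg ℂ B + 1 := by
  classical
  obtain ⟨φ, hφ⟩ := atlasEx_poly (𝒜 := 𝒜) ρ
  have hinj : Function.Injective φ := by
    rw [injective_iff_map_eq_zero]
    intro s hs
    have h1 : ∀ m, (DirectSum.decompose 𝒜 s m : R) = 0 := by
      intro m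
      refine inj m _ (DirectSum.decompose 𝒜 s m).2 ?_
      have h2 : φ s = ∑ i ∈ (DirectSum.decompose 𝒜 s).support,
          Polynomial.monomial i (ρ (DirectSum.decompose 𝒜 s i : R)) := by
        conv_lhs => rw [← DirectSum.sum_support_decompose 𝒜 s]
        rw [map_sum]
        exact Finset.sum_congr rfl fun i _ => hφ i _ (DirectSum.decompose 𝒜 s i).2
      have h3 : (φ s).coeff m = ρ (DirectSum.decompose 𝒜 s m : R) := by
        rw [h2, Polynomial.finsetSum_coeff]
        rw [Finset.sum_eq_single m]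
        · simp
        · intro b _ hb
          simp [Polynomial.coeff_monomial, hb]
        · intro hm
          have : DirectSum.decompose 𝒜 s m = 0 := by
            simpa using hm
          simp [this]
      rw [← h3, hs]
      simp
    rw [← DirectSum.sum_support_decompose 𝒜 s]
    exact Finset.sum_eq_zero fun i _ => h1 i
  let i1 : Algebra R (Polynomial B) := (φ : R →+* Polynomial B).toAlgebra
  have hmap : ∀ r, algebraMap R (Polynomial B) r = φ r := fun r => rfl
  have i2 : IsScalarTower ℂ R (Polynomial B) :=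
    .of_algebraMap_eq fun x => by
      rw [hmap, AlgHom.commutes]
  have hFpow : ∀ k, F ^ k ∈ 𝒜 (d * k) := fun k => by
    have := SetLike.pow_mem_graded (A := 𝒜) k hF
    rwa [smul_eq_mul, mul_comm] at this
  have hφF : ∀ k, φ (F ^ k) = Polynomial.monomial (d * k) (ρ F ^ k) := fun k => by
    rw [hφ _ _ (hFpow k), map_pow]
  have key : ∀ (r s : R) (z : Polynomial B), r ≠ 0 → φ r * z = φ s → IsAlgebraic R z := by
    intro r s z hr h
    refine ⟨Polynomial.C r * Polynomial.X - Polynomial.C s, ?_, ?_⟩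
    · intro h0
      have := congrArg (fun p => Polynomial.coeff p 1) h0
      simp only [Polynomial.coeff_sub, Polynomial.coeff_C_mul, Polynomial.coeff_X_one, mul_one,
        Polynomial.coeff_zero] at this
      rw [Polynomial.coeff_C_of_ne_zero (by norm_num), sub_zero] at this
      exact hr this
    · simp only [map_sub, map_mul, Polynomial.aeval_C, Polynomial.aeval_X, hmap]
      rw [h, sub_self]
  have hC : ∀ b : B, IsAlgebraic R (Polynomial.C b) := by
    intro b
    obtain ⟨k, s, hs, hbs⟩ := surj b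
    refine key (F ^ k) s _ (pow_ne_zero _ hF0) ?_
    rw [hφF, hφ _ _ hs, ← hbs, Polynomial.monomial_mul_C, mul_comm b]
  have hX : IsAlgebraic R (Polynomial.X : Polynomial B) := by
    refine key (F ^ e) T _ (pow_ne_zero _ hF0) ?_
    rw [hφF, hφ _ _ hT, ρT, Polynomial.monomial_mul_X]
  have hinj' : Function.Injective (algebraMap R (Polynomial B)) := hinj
  have i3 : FaithfulSMul R (Polynomial B) := (faithfulSMul_iff_algebraMap_injective _ _).2 hinj'
  have i4 : Algebra.IsAlgebraic R (Polynomial B) := by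
    refine ⟨fun p => ?_⟩
    induction p using Polynomial.induction_on with
    | C a => exact hC a
    | add p q hp hq => exact hp.add hq
    | monomial k a h => 
      rw [pow_succ, ← mul_assoc]
      exact h.mul hX
  have i5 : FaithfulSMul ℂ R := (faithfulSMul_iff_algebraMap_injective _ _).2
    (algebraMap ℂ R).injective
  have i6 : FaithfulSMul ℂ B := (faithfulSMul_iff_algebraMap_injective _ _).2
    (algebraMap ℂ B).injective
  have h1 := trdeg_add_eq ℂ R (A := Polynomial B)
  have h2 := trdeg_add_eq ℂ B (A := Polynomial B)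
  rw [trdeg_eq_zero_iff.2 i4, add_zero] at h1
  rw [Polynomial.trdeg_of_isDomain] at h2
  rw [h1, h2]

/-- There is a chart (generic smoothness). -/
theorem exists_chartP (h : IsPol 𝒜 n)
    (hp' : ∃ d > 0, ∃ f ∈ 𝒜 d, f ≠ 0) : Nonempty (Chart 𝒜 n) := by
  classical
  have hdom : IsDomain R := h.domain
  obtain ⟨d, f, hf, g, hg, hfp, hgp⟩ := h.line ⊥ Ideal.isPrime_bot (by
    obtain ⟨d, hd, f, hf, hf0⟩ := hp'
    exact ⟨d, hd, f, hf, by simpa using hf0⟩)
  have hf0 : f ≠ 0 := by simpa using hfp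
  have hg0 : g ≠ 0 := by simpa using hgp
  obtain ⟨P⟩ := atlasEx_pre h f g d hf hg hf0 hg0
  obtain ⟨B0, ρ0, hu, hfg, inj, surj⟩ := P
  have hfp0 : Algebra.FinitePresentation ℂ B0 := Algebra.FinitePresentation.of_finiteType.1 ‹_›
  have hq : (⊥ : Ideal B0).IsPrime := Ideal.isPrime_bot
  have hsmooth : Algebra.IsSmoothAt ℂ (⊥ : Ideal B0) := by
    let K := FractionRing B0
    have i0 : Algebra.EssFiniteType B0 K :=
      Algebra.EssFiniteType.of_isLocalization K (nonZeroDivisors B0)
    have i1 : Algebra.EssFiniteType ℂ K := .comp ℂ B0 K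
    have i2 : Algebra.FormallySmooth ℂ K := inferInstance
    have e0 : (⊥ : Ideal B0).primeCompl = nonZeroDivisors B0 := by
      ext z
      rw [mem_nonZeroDivisors_iff_ne_zero]
      simp [Ideal.primeCompl]
    have i3 : IsLocalization (⊥ : Ideal B0).primeCompl K := by
      rw [e0]
      infer_instance
    let e : K ≃ₐ[B0] Localization.AtPrime (⊥ : Ideal B0) :=
      IsLocalization.algEquiv (⊥ : Ideal B0).primeCompl K _
    exact Algebra.FormallySmooth.of_equiv (e.restrictScalars ℂ)
  have hfgd : f * g ∈ 𝒜 (d + (d + 1)) := SetLike.mul_mem_graded hf hg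
  obtain ⟨b0, hb0, hstd⟩ := Algebra.IsSmoothAt.exists_notMem_isStandardSmooth ℂ (⊥ : Ideal B0)
  obtain ⟨k, a, ha, hab⟩ := surj b0
  have hb00 : b0 ≠ 0 := by simpa using hb0
  have hu2 : IsUnit (ρ0 (f * g)) := by
    rw [map_mul, ← hfg]; exact hu.mul hu
  have ha0 : a ≠ 0 := by
    rintro rfl
    rw [map_zero] at hab
    exact mul_ne_zero hb00 (hu2.pow k).ne_zero hab
  obtain ⟨I, b, hb⟩ := (Algebra.IsStandardSmooth.iff_exists_basis_kaehlerDifferential.1 hstd).2
  let B := Localization.Away b0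
  have hBdom : IsDomain B := IsLocalization.isDomain_localization
    (powers_le_nonZeroDivisors_of_noZeroDivisors hb00)
  have hBinj : Function.Injective (algebraMap B0 B) :=
    IsLocalization.injective B (powers_le_nonZeroDivisors_of_noZeroDivisors hb00)
  have hbu : IsUnit (algebraMap B0 B b0) := IsLocalization.Away.algebraMap_isUnit b0
  let ρ : R →ₐ[ℂ] B := (Algebra.algHom ℂ B0 B).comp ρ0
  have hρ : ∀ s, ρ s = algebraMap B0 B (ρ0 s) := fun s => rfl
  have hF : f * g * a ∈ 𝒜 ((d + (d + 1)) * (k + 1)) := by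
    have h1 := SetLike.mul_mem_graded hfgd ha
    have h2 : d + (d + 1) + (d + (d + 1)) * k = (d + (d + 1)) * (k + 1) := by ring
    rwa [h2] at h1
  have hT : g * g * a ∈ 𝒜 ((d + (d + 1)) * (k + 1) * 1 + 1) := by
    have h1 := SetLike.mul_mem_graded (SetLike.mul_mem_graded hg hg) ha
    have h2 : d + 1 + (d + 1) + (d + (d + 1)) * k = (d + (d + 1)) * (k + 1) * 1 + 1 := by ring
    rwa [h2] at h1
  have hρT : ρ (g * g * a) = ρ (f * g * a) ^ 1 := by
    simp only [hρ, map_mul, hfg, pow_one]
  have hF0 : f * g * a ≠ 0 := mul_ne_zero (mul_ne_zero hf0 hg0) ha0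
  have hρF : ρ (f * g * a) = algebraMap B0 B b0 * algebraMap B0 B (ρ0 (f * g)) ^ (k + 1) := by
    rw [hρ, map_mul ρ0 (f * g) a, ← hab, map_mul (algebraMap B0 B), map_mul (algebraMap B0 B),
      map_pow (algebraMap B0 B)]
    ring
  have hunit : IsUnit (ρ (f * g * a)) := by
    rw [hρF]
    exact hbu.mul ((hu2.map (algebraMap B0 B)).pow _)
  have hinj : ∀ m, ∀ s ∈ 𝒜 m, ρ s = 0 → s = 0 := fun m s hs h0 =>
    inj m s hs (hBinj (by rw [← hρ, h0, map_zero]))
  have hsurj : ∀ z : B, ∃ K, ∃ s ∈ 𝒜 ((d + (d + 1)) * (k + 1) * K),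
      z * ρ (f * g * a) ^ K = ρ s := by
    intro z
    obtain ⟨j, c, hc⟩ := IsLocalization.Away.surj b0 z
    obtain ⟨i, a', ha', hca'⟩ := surj c
    refine ⟨i + j, a' * a ^ i * (f * g) ^ ((k + 1) * j), ?_, ?_⟩
    · have h1 := SetLike.mul_mem_graded (SetLike.mul_mem_graded ha' (SetLike.pow_mem_graded i ha))
        (SetLike.pow_mem_graded ((k + 1) * j) hfgd)
      have h2 : (d + (d + 1)) * i + i • ((d + (d + 1)) * k) + ((k + 1) * j) • (d + (d + 1)) =
          (d + (d + 1)) * (k + 1) * (i + j) := by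
        simp only [smul_eq_mul]; ring
      rwa [h2] at h1
    · have h3 : ρ (a' * a ^ i * (f * g) ^ ((k + 1) * j)) =
          (z * algebraMap B0 B b0 ^ j * algebraMap B0 B (ρ0 (f * g)) ^ i) *
          (algebraMap B0 B b0 * algebraMap B0 B (ρ0 (f * g)) ^ k) ^ i *
            algebraMap B0 B (ρ0 (f * g)) ^ ((k + 1) * j) := by
        rw [hc, ← map_pow, ← map_mul, hca']
        rw [← map_pow (algebraMap B0 B) (ρ0 (f * g)) k, ← map_mul, hab]
        rw [hρ, map_mul, map_mul, map_mul, map_mul, map_pow, map_pow, map_pow, map_pow]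
      rw [h3, hρF]
      ring
  have htr := atlasEx_trdeg ρ (f * g * a) _ hF hF0 hinj hsurj 1 _ hT hρT
  rw [h.dim] at htr
  have hI : Cardinal.mk I = (n : Cardinal) := by
    rw [atlasEx_card B b]
    exact (Cardinal.add_one_inj.1 htr).symm
  obtain ⟨e⟩ := Cardinal.mk_eq_nat_iff.1 hI
  let b' : Module.Basis (Fin n) B (Ω[B⁄ℂ]) := b.reindex e
  have hb' : ∀ l, ∃ y : B, D ℂ B y = b' l := fun l => by
    obtain ⟨y, hy⟩ := hb ⟨e.symm l, rfl⟩
    exact ⟨y, by rw [hy, Module.Basis.reindex_apply]⟩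
  choose y hy using hb'
  exact ⟨{
    B := B
    ρ := ρ
    F := f * g * a
    d := (d + (d + 1)) * (k + 1)
    hd := by positivity
    hF := hF
    unit := hunit
    inj := hinj
    surj := hsurj
    e := 1
    T := g * g * a
    hT := hT
    ρT := hρT
    y := y
    der := fun l => (b'.coord l).compDer (D ℂ B)
    der_y := fun l k => by
      change b'.coord l (D ℂ B (y k)) = _
      rw [hy, Module.Basis.coord_apply, Module.Basis.repr_self, Finsupp.single_apply]
      simp only [eq_comm]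
    gen := fun z => by
      simp only [hy]
      exact (b'.sum_repr (D ℂ B z)).symm }⟩

end Pool.Agent.Lib_KF
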