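import Pool.Agent.Lib_KF.PDefs
import Pool.Agent.Lib_GD.OrdFacts
import Pool.Agent.Lib_KF.PGrowth
import Pool.Agent.Lib_GD.ChartPoint
import Pool.Agent.Lib_KF.PAtlas

/-! B07a: order functions of divisors over `X`. -/

open scoped ENNReal

namespace Pool.Agent.Lib_KF

open Pool.Agent.Lib_GD

/-- monomials with bounded exponents in algebraically independent elements -/
private theorem OrdFacts_mono {F : Type} [Field F] [Algebra ℂ F] {n K : ℕ} {z : Fin n → F}
    (hind : AlgebraicIndependent ℂ z) (c : (Fin n → Fin (K + 1)) → ℂ)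
    (hc : ∑ α, c α • ∏ i, z i ^ (α i : ℕ) = 0) : ∀ α, c α = 0 := by
  classical
  let μ : (Fin n → Fin (K + 1)) → (Fin n →₀ ℕ) := fun α =>
    Finsupp.equivFunOnFinite.symm (fun i => (α i : ℕ))
  have hμ : Function.Injective μ := by
    intro α β h
    funext i
    have h1 := DFunLike.congr_fun h i
    simp only [μ, Finsupp.equivFunOnFinite_symm_apply_apply] at h1
    exact Fin.ext h1
  let P : MvPolynomial (Fin n) ℂ := ∑ α, MvPolynomial.monomial (μ α) (c α)
  have hP : P = 0 := by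
    refine algebraicIndependent_iff.1 hind P ?_
    rw [← hc, map_sum]
    refine Finset.sum_congr rfl fun α _ => ?_
    rw [MvPolynomial.aeval_monomial, Algebra.smul_def, Finsupp.prod_fintype _ _ (by simp)]
    simp only [μ, Finsupp.equivFunOnFinite_symm_apply_apply]
  intro β
  have h1 := congrArg (MvPolynomial.coeff (μ β)) hP
  simp only [P, MvPolynomial.coeff_sum, MvPolynomial.coeff_monomial,
    MvPolynomial.coeff_zero] at h1
  rw [Finset.sum_eq_single β] at h1
  · simpa using h1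
  · intro α _ hα
    rw [if_neg fun h => hα (hμ h)]
  · intro h
    exact absurd (Finset.mem_univ β) h

/-- the products `s ^ j * g ^ (N - j - |α|) * a ^ α` are linearly independent -/
private theorem OrdFacts_core {R F : Type} [CommRing R] [IsDomain R] [Algebra ℂ R] [Field F]
    [Algebra ℂ F] (φ : R →ₐ[ℂ] F) {n : ℕ} {s g : R} {a : Fin n → R} (hs : s ≠ 0)
    (hφs : φ s = 0) (hg : φ g ≠ 0)
    (hind : AlgebraicIndependent ℂ (fun i => φ (a i) / φ g)) (K : ℕ) :
    LinearIndependent ℂ (fun p : Fin (K + 1) × (Fin n → Fin (K + 1)) =>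
      s ^ (p.1 : ℕ) * (g ^ ((n + 1) * K - p.1 - ∑ i, (p.2 i : ℕ)) *
        ∏ i, a i ^ (p.2 i : ℕ))) := by
  classical
  rw [Fintype.linearIndependent_iff]
  intro c hc
  set B : Fin (K + 1) × (Fin n → Fin (K + 1)) → R := fun p =>
    g ^ ((n + 1) * K - p.1 - ∑ i, (p.2 i : ℕ)) * ∏ i, a i ^ (p.2 i : ℕ) with hB
  have main : ∀ j : ℕ, ∀ (hj : j < K + 1) (α : Fin n → Fin (K + 1)), c (⟨j, hj⟩, α) = 0 := by
    intro j
    induction j using Nat.strong_induction_on with
    | _ j ih =>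
      intro hj α
      have h1 : ∀ p : Fin (K + 1) × (Fin n → Fin (K + 1)),
          c p • (s ^ (p.1 : ℕ) * B p) = s ^ j * (c p • (s ^ ((p.1 : ℕ) - j) * B p)) := by
        intro p
        rcases lt_or_ge (p.1 : ℕ) j with h2 | h2
        · have h3 : c p = 0 := ih p.1 h2 p.1.2 p.2
          rw [h3, zero_smul, zero_smul, mul_zero]
        · rw [mul_smul_comm, ← mul_assoc (s ^ j), ← pow_add, Nat.add_sub_cancel' h2]
      have h2 : s ^ j * ∑ p, c p • (s ^ ((p.1 : ℕ) - j) * B p) = 0 := by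
        rw [Finset.mul_sum, ← hc]
        exact Finset.sum_congr rfl fun p _ => (h1 p).symm
      have h3 : ∑ p, c p • (s ^ ((p.1 : ℕ) - j) * B p) = 0 :=
        (mul_eq_zero.1 h2).resolve_left (pow_ne_zero j hs)
      have h4 := congrArg φ h3
      rw [map_sum, map_zero, Fintype.sum_prod_type, Finset.sum_eq_single ⟨j, hj⟩] at h4
      · have h5 : ∀ β : Fin n → Fin (K + 1),
            φ (c (⟨j, hj⟩, β) • (s ^ (((⟨j, hj⟩ : Fin (K + 1)) : ℕ) - j) * B (⟨j, hj⟩, β))) =
            φ g ^ ((n + 1) * K - j) *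
              (c (⟨j, hj⟩, β) • ∏ i, (φ (a i) / φ g) ^ (β i : ℕ)) := by
          intro β
          have hle : ∑ i, (β i : ℕ) ≤ (n + 1) * K - j := by
            have h6 : ∑ i, (β i : ℕ) ≤ ∑ _i : Fin n, K :=
              Finset.sum_le_sum fun i _ => Nat.lt_succ_iff.1 (β i).2
            rw [Finset.sum_const, Finset.card_univ, Fintype.card_fin, smul_eq_mul] at h6
            have h7 : (n + 1) * K = n * K + K := by ring
            omega
          rw [map_smul, Nat.sub_self, pow_zero, one_mul, mul_smul_comm]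
          congr 1
          simp only [hB, map_mul, map_pow, map_prod, div_pow, Finset.prod_div_distrib,
            Finset.prod_pow_eq_pow_sum]
          rw [← mul_div_assoc, eq_div_iff (pow_ne_zero _ hg), mul_right_comm, ← pow_add,
            Nat.sub_add_cancel hle]
        simp_rw [h5] at h4
        rw [← Finset.mul_sum] at h4
        exact OrdFacts_mono hind (fun β => c (⟨j, hj⟩, β))
          ((mul_eq_zero.1 h4).resolve_left (pow_ne_zero _ hg)) α
      · intro j' _ hj'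
        refine Finset.sum_eq_zero fun β _ => ?_
        rcases lt_trichotomy (j' : ℕ) j with h5 | h5 | h5
        · have h6 : c (j', β) = 0 := ih j' h5 j'.2 β
          rw [h6, zero_smul, map_zero]
        · exact absurd (Fin.ext h5) hj'
        · rw [map_smul, map_mul, map_pow, hφs, zero_pow (Nat.sub_ne_zero_of_lt h5), zero_mul,
            smul_zero]
      · intro h
        exact absurd (Finset.mem_univ _) h
  intro p
  exact main p.1 p.1.2 p.2

set_option linter.unusedSectionVars false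

variable {R : Type} [CommRing R] [Algebra ℂ R] {𝒜 : ℕ → Submodule ℂ R} [GradedAlgebra 𝒜]
  {n : ℕ}

/-- growth contradiction -/
private theorem OrdFacts_growth (h : IsPol 𝒜 n) {F : Type} [Field F]
    [Algebra ℂ F] (φ : R →ₐ[ℂ] F) {D : ℕ} (hD : 0 < D) {s g : R} {a : Fin n → R}
    (hsD : s ∈ 𝒜 D) (hgD : g ∈ 𝒜 D) (haD : ∀ i, a i ∈ 𝒜 D) (hs : s ≠ 0)
    (hφs : φ s = 0) (hg : φ g ≠ 0)
    (hind : AlgebraicIndependent ℂ (fun i => φ (a i) / φ g)) : False := by
  have := h.domain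
  obtain ⟨C, hC⟩ := secDim_leP h
  set K := C * (D * (n + 1)) ^ n + 1 with hK
  have hlin := OrdFacts_core φ hs hφs hg hind K
  have hmem : ∀ p : Fin (K + 1) × (Fin n → Fin (K + 1)),
      s ^ (p.1 : ℕ) * (g ^ ((n + 1) * K - p.1 - ∑ i, (p.2 i : ℕ)) *
        ∏ i, a i ^ (p.2 i : ℕ)) ∈ 𝒜 (D * ((n + 1) * K)) := by
    intro p
    have hj : (p.1 : ℕ) ≤ K := Nat.lt_succ_iff.1 p.1.2
    have h6 : ∑ i, (p.2 i : ℕ) ≤ ∑ _i : Fin n, K :=
      Finset.sum_le_sum fun i _ => Nat.lt_succ_iff.1 (p.2 i).2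
    rw [Finset.sum_const, Finset.card_univ, Fintype.card_fin, smul_eq_mul] at h6
    have h7 : (n + 1) * K = n * K + K := by ring
    have h1 := SetLike.pow_mem_graded (p.1 : ℕ) hsD
    have h2 := SetLike.pow_mem_graded ((n + 1) * K - p.1 - ∑ i, (p.2 i : ℕ)) hgD
    have h3 : ∏ i, a i ^ (p.2 i : ℕ) ∈ 𝒜 (∑ i, (p.2 i : ℕ) • D) :=
      SetLike.prod_mem_graded 𝒜 (fun i => (p.2 i : ℕ) • D) (fun i => a i ^ (p.2 i : ℕ))
        (fun i _ => SetLike.pow_mem_graded _ (haD i))
    have h4 := SetLike.mul_mem_graded h1 (SetLike.mul_mem_graded h2 h3)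
    have h5 : (p.1 : ℕ) • D + (((n + 1) * K - p.1 - ∑ i, (p.2 i : ℕ)) • D +
        ∑ i, (p.2 i : ℕ) • D) = D * ((n + 1) * K) := by
      rw [← Finset.sum_smul, ← add_smul, ← add_smul, smul_eq_mul, mul_comm]
      congr 1
      omega
    rw [h5] at h4
    exact h4
  have := finite_gradedP h (D * ((n + 1) * K))
  have hlin2 : LinearIndependent ℂ (fun p : Fin (K + 1) × (Fin n → Fin (K + 1)) =>
      (⟨_, hmem p⟩ : 𝒜 (D * ((n + 1) * K)))) := by
    refine LinearIndependent.of_comp (𝒜 (D * ((n + 1) * K))).subtype ?_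
    exact hlin
  have hcard := hlin2.fintype_card_le_finrank
  rw [Fintype.card_prod, Fintype.card_pi_const, Fintype.card_fin, ← pow_succ'] at hcard
  have hK1 : 1 ≤ K := by omega
  have h8 := hC (D * ((n + 1) * K)) (Nat.mul_pos hD (Nat.mul_pos (Nat.succ_pos n) hK1))
  have h9 : (K + 1) ^ (n + 1) ≤ C * (D * ((n + 1) * K)) ^ n := le_trans hcard h8
  have h10 : C * (D * ((n + 1) * K)) ^ n = C * (D * (n + 1)) ^ n * K ^ n := by
    rw [← mul_assoc D, mul_pow (D * (n + 1)) K, mul_assoc]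
  rw [h10] at h9
  have h11 : C * (D * (n + 1)) ^ n * K ^ n ≤ K * K ^ n :=
    Nat.mul_le_mul_right _ (by omega)
  have h12 : K * K ^ n = K ^ (n + 1) := (pow_succ' K n).symm
  have h13 : K ^ (n + 1) < (K + 1) ^ (n + 1) := Nat.pow_lt_pow_left (Nat.lt_succ_self K) (by omega)
  omega

theorem ord_ne_topP (h : IsPol 𝒜 n) (hn : 1 ≤ n)
    (E : DivisorOver 𝒜 n 1) (m : ℕ) (s : R) (hs : s ∈ 𝒜 m) (hs0 : s ≠ 0) :
    E.ord (E.φ 0 s) ≠ ⊤ := by
  classical
  have := h.domain
  intro htop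
  unfold DivisorOver.ord at htop
  rw [IsDiscreteValuationRing.addVal_eq_top_iff] at htop
  -- the algebraically independent ratios
  set S : Set (FractionRing E.V) := {z | ∃ j m, ∃ s ∈ 𝒜 m, ∃ s' ∈ 𝒜 m,
    E.φ j s' ≠ 0 ∧ z = algebraMap E.V (FractionRing E.V) (E.φ j s) /
      algebraMap E.V (FractionRing E.V) (E.φ j s')} with hS
  have hinj : Function.Injective (algebraMap E.V (FractionRing E.V)) :=
    IsFractionRing.injective E.V (FractionRing E.V)
  have halg : Algebra.IsAlgebraic (Algebra.adjoin ℂ S) (FractionRing E.V) := by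
    rw [← IntermediateField.isAlgebraic_adjoin_iff_top, E.generates]
    infer_instance
  obtain ⟨t, htS, ht⟩ := exists_isTranscendenceBasis_subset (R := ℂ) S
  have htr : Cardinal.mk t = n := by
    rw [ht.cardinalMk_eq_trdeg]
    have : Algebra.IsAlgebraic E.V (FractionRing E.V) :=
      IsLocalization.isAlgebraic _ (nonZeroDivisors E.V)
    have h1 := trdeg_add_eq ℂ E.V (A := FractionRing E.V)
    rw [trdeg_eq_zero (R := E.V) (A := FractionRing E.V), add_zero, E.trdeg, mul_one] at h1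
    exact h1.symm
  have hcard : Cardinal.mk (Fin n) = Cardinal.mk t := by
    rw [htr, Cardinal.mk_fin]
  obtain ⟨e⟩ := Cardinal.eq.1 hcard
  have hind : AlgebraicIndependent ℂ (fun i : Fin n => ((e i : t) : FractionRing E.V)) :=
    ht.1.comp e e.injective
  have hex : ∀ i : Fin n, ∃ m, ∃ a ∈ 𝒜 m, ∃ b ∈ 𝒜 m, E.φ 0 b ≠ 0 ∧
      ((e i : t) : FractionRing E.V) = algebraMap E.V (FractionRing E.V) (E.φ 0 a) /
        algebraMap E.V (FractionRing E.V) (E.φ 0 b) := by
    intro i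
    obtain ⟨j, m, a, ha, b, hb, h1, h2⟩ := htS (e i).2
    have hj : j = 0 := Subsingleton.elim _ _
    subst hj
    exact ⟨m, a, ha, b, hb, h1, h2⟩
  choose M a ha b hb hb0 hab using hex
  obtain ⟨d, hd, f, hf, hfu⟩ := E.centre 0
  have hf0 : E.φ 0 f ≠ 0 := hfu.ne_zero
  -- common denominators
  set g1 : R := (∏ i, b i) * f with hg1
  set M1 : ℕ := ∑ i, M i + d with hM1
  have hg1m : g1 ∈ 𝒜 M1 :=
    SetLike.mul_mem_graded (SetLike.prod_mem_graded 𝒜 M b (fun i _ => hb i)) hf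
  have hg10 : E.φ 0 g1 ≠ 0 := by
    rw [hg1, map_mul, map_prod]
    exact mul_ne_zero (Finset.prod_ne_zero_iff.2 fun i _ => hb0 i) hf0
  set a1 : Fin n → R := fun i => (a i * ∏ l ∈ Finset.univ.erase i, b l) * f with ha1
  have ha1m : ∀ i, a1 i ∈ 𝒜 M1 := by
    intro i
    have h1 : ∏ l ∈ Finset.univ.erase i, b l ∈ 𝒜 (∑ l ∈ Finset.univ.erase i, M l) :=
      SetLike.prod_mem_graded 𝒜 M b (fun l _ => hb l)
    have h2 := SetLike.mul_mem_graded (SetLike.mul_mem_graded (ha i) h1) hf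
    rw [Finset.add_sum_erase _ _ (Finset.mem_univ i)] at h2
    exact h2
  have hratio : ∀ i, E.φ 0 (a1 i) * E.φ 0 (b i) = E.φ 0 (a i) * E.φ 0 g1 := by
    intro i
    rw [← map_mul, ← map_mul]
    congr 1
    rw [ha1, hg1, ← Finset.mul_prod_erase _ _ (Finset.mem_univ i)]
    ring
  have hM1pos : 0 < M1 := by omega
  -- the element of the kernel
  set s1 : R := s * f with hs1
  have hs1m : s1 ∈ 𝒜 (m + d) := SetLike.mul_mem_graded hs hf
  have hfR : f ≠ 0 := by
    intro h1
    rw [h1, map_zero] at hf0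
    exact hf0 rfl
  have hs10 : s1 ≠ 0 := mul_ne_zero hs0 hfR
  have hs1k : E.φ 0 s1 = 0 := by rw [hs1, map_mul, htop, zero_mul]
  have hmd : 0 < m + d := by omega
  let ψ : R →ₐ[ℂ] FractionRing E.V :=
    (IsScalarTower.toAlgHom ℂ E.V (FractionRing E.V)).comp (E.φ 0)
  have hψ : ∀ x, ψ x = algebraMap E.V (FractionRing E.V) (E.φ 0 x) := fun x => rfl
  refine OrdFacts_growth h ψ (D := M1 * (m + d)) (Nat.mul_pos hM1pos hmd)
    (s := s1 ^ M1) (g := g1 ^ (m + d)) (a := fun i => a1 i * g1 ^ (m + d - 1))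
    ?_ ?_ ?_ (pow_ne_zero _ hs10) ?_ ?_ ?_
  · have h1 := SetLike.pow_mem_graded M1 hs1m
    rw [smul_eq_mul] at h1
    exact h1
  · have h1 := SetLike.pow_mem_graded (m + d) hg1m
    rw [smul_eq_mul, mul_comm] at h1
    exact h1
  · intro i
    have h1 := SetLike.mul_mem_graded (ha1m i) (SetLike.pow_mem_graded (m + d - 1) hg1m)
    have h2 : M1 + (m + d - 1) • M1 = M1 * (m + d) := by
      rw [smul_eq_mul]
      obtain ⟨q, hq⟩ : ∃ q, m + d = q + 1 := ⟨m + d - 1, by omega⟩
      rw [hq, Nat.add_sub_cancel]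
      ring
    rw [h2] at h1
    exact h1
  · rw [hψ, map_pow, hs1k, zero_pow hM1pos.ne', map_zero]
  · rw [hψ, map_pow, map_pow]
    exact pow_ne_zero _ ((map_ne_zero_iff _ hinj).2 hg10)
  · have h1 : (fun i => ψ (a1 i * g1 ^ (m + d - 1)) / ψ (g1 ^ (m + d))) =
        fun i : Fin n => ((e i : t) : FractionRing E.V) := by
      funext i
      have hG : algebraMap E.V (FractionRing E.V) (E.φ 0 g1) ≠ 0 :=
        (map_ne_zero_iff _ hinj).2 hg10
      have hBi : algebraMap E.V (FractionRing E.V) (E.φ 0 (b i)) ≠ 0 :=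
        (map_ne_zero_iff _ hinj).2 (hb0 i)
      have h2 : algebraMap E.V (FractionRing E.V) (E.φ 0 (a1 i)) *
          algebraMap E.V (FractionRing E.V) (E.φ 0 (b i)) =
          algebraMap E.V (FractionRing E.V) (E.φ 0 (a i)) *
          algebraMap E.V (FractionRing E.V) (E.φ 0 g1) := by
        rw [← map_mul (algebraMap E.V (FractionRing E.V)),
          ← map_mul (algebraMap E.V (FractionRing E.V)), hratio i]
      obtain ⟨q, hq⟩ : ∃ q, m + d = q + 1 := ⟨m + d - 1, by omega⟩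
      rw [hab i, hψ, hψ, hq, Nat.add_sub_cancel]
      simp only [map_mul, map_pow]
      rw [pow_succ, div_eq_div_iff (mul_ne_zero (pow_ne_zero _ hG) hG) hBi]
      linear_combination (algebraMap E.V (FractionRing E.V) (E.φ 0 g1)) ^ q * h2
    rw [h1]
    exact hind

end Pool.Agent.Lib_KF
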