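import Pool.Agent.Lib_KF.PDefs
import Pool.Agent.Lib_GD.OkBasis
import Pool.Agent.Lib_KF.POkGeom

/-! P08: the graded semigroup with adapted bases. -/

open scoped ENNReal

namespace Pool.Agent.Lib_KF

open Pool.Agent.Lib_GD

variable {R : Type} [CommRing R] [Algebra ℂ R] {𝒜 : ℕ → Submodule ℂ R} [GradedAlgebra 𝒜]
  {n : ℕ}

/-- P08: as `exists_okDataP`, and there are bases of `𝒜 m` adapted to the filtration of `E`. -/
theorem exists_okData_basisP (h : IsPol 𝒜 n) (hn : 1 ≤ n) :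
    ∃ D : OkData n, (∀ m, 1 ≤ m → (D.Γ m).card = secDim 𝒜 m) ∧
      ∀ E : DivisorOver 𝒜 n 1, ∃ g : ℕ → (Fin n → ℕ) → ℕ, D.IsWeight g ∧
        (∀ m, 1 ≤ m → ∀ r : ℝ, D.cnt g m r = Module.finrank ℂ (E.filt 𝒜 m r)) ∧
        ∀ m, 1 ≤ m → ∃ b : Fin (secDim 𝒜 m) → R, (∀ i, b i ∈ 𝒜 m) ∧ LinearIndependent ℂ b ∧
          ∑ i, E.ord (E.φ 0 (b i)) = (∑ γ ∈ D.Γ m, g m γ : ℕ) := by
  classical
  obtain ⟨D, hD, hE⟩ := exists_okDataP h hn
  refine ⟨D, hD, fun E => ?_⟩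
  obtain ⟨g, hg, hcnt, -⟩ := hE E
  refine ⟨g, hg, hcnt, fun m hm => ?_⟩
  have := finite_gradedP h m
  have hord : ∀ (k : ℕ) (s : R), ENNReal.ofReal k ≤ (E.ord (E.φ 0 s) : ℝ≥0∞) ↔
      (k : ℕ∞) ≤ E.ord (E.φ 0 s) := by
    intro k s
    rw [ENNReal.ofReal_natCast]
    rw [← ENat.toENNReal_coe, ENat.toENNReal_le]
  obtain ⟨b, g', hb, hbg, hc⟩ := okBasis_exists (V := 𝒜 m) (fun v => E.ord (E.φ 0 v))
    (fun k => (E.filt 𝒜 m k).comap (𝒜 m).subtype) (by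
      intro k v
      rw [Submodule.mem_comap]
      constructor
      · intro hv
        exact (hord k v).1 hv.2
      · intro hv
        exact ⟨v.2, (hord k v).2 hv⟩) (by
      intro v hv
      exact ord_ne_topP h hn E m v v.2 (by simpa using hv))
  have hfin : ∀ k : ℕ, Module.finrank ℂ ((E.filt 𝒜 m k).comap (𝒜 m).subtype) =
      Module.finrank ℂ (E.filt 𝒜 m k) := by
    intro k
    have hle : E.filt 𝒜 m k ≤ 𝒜 m := fun s hs => hs.1
    exact LinearEquiv.finrank_eq (Submodule.comapSubtypeEquivOfLe hle)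
  refine ⟨fun i => b i, fun i => (b i).2, ?_, ?_⟩
  · exact hb.map' (𝒜 m).subtype (Submodule.ker_subtype _)
  · have e1 : ∑ i, E.ord (E.φ 0 (b i)) = ((∑ i, g' i : ℕ) : ℕ∞) := by
      push_cast
      exact Finset.sum_congr rfl fun i _ => hbg i
    refine e1.trans ?_
    congr 1
    obtain ⟨K, hK1, hK2⟩ : ∃ K, (∀ i ∈ (Finset.univ : Finset (Fin (secDim 𝒜 m))), g' i ≤ K) ∧
        ∀ γ ∈ D.Γ m, g m γ ≤ K := by
      refine ⟨∑ i, g' i + ∑ γ ∈ D.Γ m, g m γ, fun i hi => ?_, fun γ hγ => ?_⟩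
      · have h0 : g' i ≤ ∑ i, g' i :=
          Finset.single_le_sum (f := g') (fun i _ => Nat.zero_le _) (Finset.mem_univ i)
        exact h0.trans (Nat.le_add_right _ _)
      · have := Finset.single_le_sum (f := g m) (fun i _ => Nat.zero_le _) hγ
        omega
    have e2 := okBasis_sum _ g' K hK1
    have e3 := okBasis_sum _ (g m) K hK2
    rw [e3]
    refine e2.trans (Finset.sum_congr rfl fun k _ => ?_)
    have e4 := hc (k + 1)
    have e5 := hcnt m hm ((k + 1 : ℕ) : ℝ)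
    rw [hfin] at e4
    refine e4.trans (e5.symm.trans ?_)
    unfold OkData.cnt
    congr 1
    ext γ
    simp only [Finset.mem_filter, Nat.cast_le]

end Pool.Agent.Lib_KF
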