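import Pool.Agent.Lib_KF.FColen
import Pool.Agent.Lib_KF.FProd
import Pool.Agent.Lib_KF.POkBasis
import Pool.Agent.Lib_GD.OkLower

/-! Fujita's inequality `γ ≤ δ`. -/

open scoped ENNReal NNReal

namespace Pool.Agent.Lib_KF

open Pool.Agent.Lib_GD

variable {R : Type} [CommRing R] [Algebra ℂ R] {𝒜 : ℕ → Submodule ℂ R} [GradedAlgebra 𝒜]
  {n r d : ℕ} {x : Fin (n + 1) → R} {G : R}

/-- the determinant of `secBasis` vanishes to the order of the determinant of any other basis -/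
private theorem FFuj_det (h : IsFano 𝒜 n r d x G) {m : ℕ}
    (E' : DivisorOver 𝒜 n (secDim 𝒜 m)) (b : Fin (secDim 𝒜 m) → R) (hb : ∀ i, b i ∈ 𝒜 m)
    (hli : LinearIndependent ℂ b) :
    E'.ord (Matrix.det (Matrix.of fun j i : Fin (secDim 𝒜 m) => E'.φ j (b i))) ≤
      E'.ordDet 𝒜 := by
  classical
  have hfin := finite_gradedP h.isPol m
  have hspan : Submodule.span ℂ (Set.range b) = 𝒜 m := by
    refine Submodule.eq_of_le_of_finrank_eq ?_ ?_
    · rw [Submodule.span_le]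
      rintro _ ⟨i, rfl⟩
      exact hb i
    · rw [finrank_span_eq_card hli, Fintype.card_fin]
      rfl
  have hmem : ∀ k, ∃ M : Fin (secDim 𝒜 m) → ℂ, ∑ i, M i • b i = secBasis 𝒜 m k := by
    intro k
    have h1 := (secBasis_specP h.isPol m).1 k
    rw [← hspan] at h1
    exact (Submodule.mem_span_range_iff_exists_fun ℂ).1 h1
  choose M hM using hmem
  have hmat : (Matrix.of fun j i : Fin (secDim 𝒜 m) => E'.φ j (secBasis 𝒜 m i)) =
      (Matrix.of fun j i : Fin (secDim 𝒜 m) => E'.φ j (b i)) *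
        (Matrix.of fun i k : Fin (secDim 𝒜 m) => algebraMap ℂ E'.V (M k i)) := by
    ext j k
    rw [Matrix.mul_apply]
    simp only [Matrix.of_apply]
    rw [← hM k, map_sum]
    refine Finset.sum_congr rfl fun i _ => ?_
    rw [map_smul, Algebra.smul_def, mul_comm]
  unfold DivisorOver.ordDet
  rw [hmat, Matrix.det_mul]
  unfold DivisorOver.ord
  rw [IsDiscreteValuationRing.addVal_mul]
  exact le_self_add

/-- the log discrepancy of the product divisor -/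
theorem exists_product_logDisc (h : IsFano 𝒜 n r d x G) (hn : 1 ≤ n) (E : DivisorOver 𝒜 n 1)
    (N : ℕ) (hN : 1 ≤ N) :
    ∃ E' : DivisorOver 𝒜 n N, logDisc E' r x G ≤ N * logDisc E r x G ∧
      ∀ b : Fin N → R, ∑ i, E.ord (E.φ 0 (b i)) ≤
        E'.ord (Matrix.det (Matrix.of fun j i : Fin N => E'.φ j (b i))) := by
  obtain ⟨E', h1, h2, h3⟩ := exists_product_divisorF hn x E N hN
  refine ⟨E', ?_, h3⟩
  have hE := length_coordSpan_ne_top h E
  have hE' := length_coordSpan_ne_top h E'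
  obtain ⟨l, hl⟩ := ENat.ne_top_iff_exists.1 hE
  obtain ⟨l', hl'⟩ := ENat.ne_top_iff_exists.1 hE'
  unfold logDisc
  rw [← hl, ← hl'] at h1 ⊢
  rw [ENat.toNat_natCast, ENat.toNat_natCast]
  have h4 : 1 + l' ≤ N * (1 + l) := by exact_mod_cast h1
  have h5 : (1 + l' : ℝ) ≤ N * (1 + l) := by exact_mod_cast h4
  have h6 : ∑ j, ((E'.ord (E'.φ j G)).toNat : ℝ) = N * ((E.ord (E.φ 0 G)).toNat : ℝ) := by
    simp only [h2]
    rw [Finset.sum_const, Finset.card_univ, Fintype.card_fin, nsmul_eq_mul]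
  have h7 : ∑ j : Fin 1, ((E.ord (E.φ j G)).toNat : ℝ) = ((E.ord (E.φ 0 G)).toNat : ℝ) := by
    rw [Fin.sum_univ_one]
  rw [h6, h7]
  have h8 : (1 / r : ℝ) * (N * ((E.ord (E.φ 0 G)).toNat : ℝ)) =
      N * ((1 / r : ℝ) * ((E.ord (E.φ 0 G)).toNat : ℝ)) := by ring
  rw [h8]
  linarith

/-- the bound for one degree -/
private theorem FFuj_bound (h : IsFano 𝒜 n r d x G) (hn : 1 ≤ n) (E : DivisorOver 𝒜 n 1)
    {m : ℕ} (hm : 1 ≤ m) (hN : 1 ≤ secDim 𝒜 m)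
    (hod : ∀ E' : DivisorOver 𝒜 n (secDim 𝒜 m), E'.ordDet 𝒜 ≠ ⊤) (g : ℕ)
    (hg : ∃ b : Fin (secDim 𝒜 m) → R, (∀ i, b i ∈ 𝒜 m) ∧ LinearIndependent ℂ b ∧
      ∑ i, E.ord (E.φ 0 (b i)) = (g : ℕ∞)) (c : ℝ≥0) (hc : IsKltPair 𝒜 n r x G m c) :
    0 < logDisc E r x G ∧ (c : ℝ) * (g / (m * secDim 𝒜 m)) ≤ r * logDisc E r x G := by
  obtain ⟨b, hb, hli, hsum⟩ := hg
  obtain ⟨E', h1, h2⟩ := exists_product_logDisc h hn E (secDim 𝒜 m) hN
  have hr : (0 : ℝ) < r := by exact_mod_cast h.r_pos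
  have hm0 : (0 : ℝ) < m := by exact_mod_cast hm
  have hN0 : (0 : ℝ) < secDim 𝒜 m := by exact_mod_cast hN
  have h3 : (g : ℕ∞) ≤ E'.ordDet 𝒜 := by
    rw [← hsum]
    exact (h2 b).trans (FFuj_det h E' b hb hli)
  obtain ⟨o, ho⟩ := ENat.ne_top_iff_exists.1 (hod E')
  have h4 := hc E'
  rw [← ho] at h3 h4
  rw [ENat.toNat_natCast] at h4
  have h5 : (g : ℝ) ≤ o := by exact_mod_cast h3
  have h6 : (c : ℝ) / (m * r) * g ≤ secDim 𝒜 m * logDisc E r x G := by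
    calc (c : ℝ) / (m * r) * g ≤ (c : ℝ) / (m * r) * o := by gcongr
      _ ≤ logDisc E' r x G := h4.le
      _ ≤ _ := h1
  constructor
  · have h7 : 0 ≤ (c : ℝ) / (m * r) * o := by positivity
    have h8 : 0 < secDim 𝒜 m * logDisc E r x G := lt_of_lt_of_le (lt_of_le_of_lt h7 h4) h1
    exact pos_of_mul_pos_right h8 hN0.le
  · have h9 : (c : ℝ) * (g / (m * secDim 𝒜 m)) = r / secDim 𝒜 m * ((c : ℝ) / (m * r) * g) := by
      field_simp
    rw [h9]
    calc r / secDim 𝒜 m * ((c : ℝ) / (m * r) * g) ≤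
        r / secDim 𝒜 m * (secDim 𝒜 m * logDisc E r x G) := by gcongr
      _ = r * logDisc E r x G := by field_simp

/-- The upper limit of the log canonical thresholds is at most the stability threshold. -/
theorem limsup_lctF_le (h : IsFano 𝒜 n r d x G) (hn : 1 ≤ n)
    (hod : ∀ m, 1 ≤ m → ∀ E' : DivisorOver 𝒜 n (secDim 𝒜 m), E'.ordDet 𝒜 ≠ ⊤) :
    Filter.limsup (fun m => lctF 𝒜 n r x G m) Filter.atTop ≤ stabilityF 𝒜 n r x G := by
  obtain ⟨D, hcard, hE⟩ := exists_okData_basisP h.isPol hn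
  unfold stabilityF
  refine le_iInf fun E => ?_
  obtain ⟨g, hg, hcnt, hbas⟩ := hE E
  have hvol : D.vol = volL 𝒜 n := by
    unfold OkData.vol volL
    apply Filter.limsup_congr
    filter_upwards [Filter.eventually_ge_atTop 1] with k hk
    rw [hcard k hk]
  have hvolt : ∀ t : ℝ, D.volt g t = E.vol 𝒜 t := by
    intro t
    unfold OkData.volt DivisorOver.vol
    apply Filter.limsup_congr
    filter_upwards [Filter.eventually_ge_atTop 1] with k hk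
    rw [hcnt k hk]
  have hS : D.S g = E.S 𝒜 := by
    unfold OkData.S DivisorOver.S
    rw [hvol]
    congr 1
    apply MeasureTheory.lintegral_congr
    intro t
    exact hvolt t
  have hlow := D.S_le_liminf g hg
  rw [hS] at hlow
  have hr0 : (r : ℝ≥0∞) ≠ 0 := by
    have := h.r_pos
    exact_mod_cast (by omega : r ≠ 0)
  have hrt : (r : ℝ≥0∞) ≠ ⊤ := ENNReal.natCast_ne_top r
  -- the dimension is positive for large `m`
  have hpos : ∀ m, max D.m₀ 1 ≤ m → 1 ≤ secDim 𝒜 m := by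
    intro m hm
    have hm1 : 1 ≤ m := le_trans (le_max_right _ _) hm
    rw [← hcard m hm1]
    refine Finset.card_pos.2 ⟨0, D.simplex m (le_trans (le_max_left _ _) hm) 0 ?_⟩
    simp only [Pi.zero_apply, Finset.sum_const_zero, Nat.cast_zero]
    exact mul_nonneg D.hc.le (Nat.cast_nonneg m)
  have hbound : ∀ m, max D.m₀ 1 ≤ m → ∀ c : ℝ≥0, IsKltPair 𝒜 n r x G m c →
      0 < logDisc E r x G ∧ (c : ℝ≥0∞) * (((∑ γ ∈ D.Γ m, g m γ : ℕ) : ℝ≥0∞) /
        ((m * (D.Γ m).card : ℕ) : ℝ≥0∞)) ≤ r * ENNReal.ofReal (logDisc E r x G) := by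
    intro m hm c hc
    have hm1 : 1 ≤ m := le_trans (le_max_right _ _) hm
    obtain ⟨h1, h2⟩ := FFuj_bound h hn E hm1 (hpos m hm) (hod m hm1) _ (hbas m hm1) c hc
    refine ⟨h1, ?_⟩
    have hm0 : (0 : ℝ) < m := by exact_mod_cast hm1
    have hN0 : (0 : ℝ) < secDim 𝒜 m := by exact_mod_cast hpos m hm
    rw [hcard m hm1]
    have h3 := ENNReal.ofReal_le_ofReal h2
    rw [ENNReal.ofReal_mul (NNReal.coe_nonneg c), ENNReal.ofReal_mul (Nat.cast_nonneg r),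
      ENNReal.ofReal_div_of_pos (mul_pos hm0 hN0), ENNReal.ofReal_coe_nnreal,
      ENNReal.ofReal_natCast, ENNReal.ofReal_natCast, ENNReal.ofReal_mul hm0.le,
      ENNReal.ofReal_natCast, ENNReal.ofReal_natCast] at h3
    rw [Nat.cast_mul]
    exact h3
  refine le_of_forall_lt fun a ha => ?_
  obtain ⟨a', ha', ha''⟩ := exists_between ha
  refine lt_of_lt_of_le ha' ?_
  have hev := Filter.frequently_lt_of_lt_limsup (by isBoundedDefault) ha''
  have ha't : a' ≠ ⊤ := (lt_of_lt_of_le ha'' le_top).ne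
  have ha'0 : a' ≠ 0 := (lt_of_le_of_lt zero_le ha').ne'
  have hx : ∃ᶠ m : ℕ in Filter.atTop, 0 < logDisc E r x G ∧
      ((∑ γ ∈ D.Γ m, g m γ : ℕ) : ℝ≥0∞) /
      ((m * (D.Γ m).card : ℕ) : ℝ≥0∞) ≤ r * ENNReal.ofReal (logDisc E r x G) / a' := by
    refine (hev.and_eventually (Filter.eventually_ge_atTop (max D.m₀ 1))).mono ?_
    rintro m ⟨hm, hm1⟩
    unfold lctF at hm
    obtain ⟨⟨c, hc⟩, hac⟩ := lt_iSup_iff.1 hm
    obtain ⟨h0, h1⟩ := hbound m hm1 c hc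
    refine ⟨h0, ?_⟩
    rw [ENNReal.le_div_iff_mul_le (Or.inl ha'0) (Or.inl ha't), mul_comm]
    exact le_trans (mul_le_mul_left hac.le _) h1
  obtain ⟨m, hm0, -⟩ := hx.exists
  have hA0 : ENNReal.ofReal (logDisc E r x G) ≠ 0 := by
    rw [Ne, ENNReal.ofReal_eq_zero, not_le]
    exact hm0
  have hliminf : Filter.liminf (fun m : ℕ => ((∑ γ ∈ D.Γ m, g m γ : ℕ) : ℝ≥0∞) /
      ((m * (D.Γ m).card : ℕ) : ℝ≥0∞)) Filter.atTop ≤
      r * ENNReal.ofReal (logDisc E r x G) / a' :=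
    Filter.liminf_le_of_frequently_le (hx.mono fun m hm => hm.2)
  have h2 : E.S 𝒜 ≤ r * ENNReal.ofReal (logDisc E r x G) / a' := hlow.trans hliminf
  rw [ENNReal.le_div_iff_mul_le (Or.inr hA0) (Or.inr ENNReal.ofReal_ne_top)]
  rw [ENNReal.le_div_iff_mul_le (Or.inl ha'0) (Or.inl ha't)] at h2
  rw [← mul_div_assoc]
  refine ENNReal.div_le_of_le_mul ?_
  rw [mul_comm a', mul_comm (ENNReal.ofReal _)]
  exact h2

/-- `γ(X) ≤ δ(X)`. -/
theorem gibbsF_le_stabilityF (h : IsFano 𝒜 n r d x G) (hn : 1 ≤ n)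
    (hod : ∀ m, 1 ≤ m → ∀ E' : DivisorOver 𝒜 n (secDim 𝒜 m), E'.ordDet 𝒜 ≠ ⊤) :
    gibbsF 𝒜 n r x G ≤ stabilityF 𝒜 n r x G := by
  refine le_trans ?_ (limsup_lctF_le h hn hod)
  unfold gibbsF
  exact Filter.liminf_le_limsup

end Pool.Agent.Lib_KF
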