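import Pool.Agent.Lib_KF.Defs

/-! G4c: the span of the differentials of the coordinates. -/

namespace Pool.Agent.Lib_KF

open Pool.Agent.Lib_GD

/-- G4c. Proof: as `coordSpan_eq` in `Lib_MP_e0d435_kv/AdCoord.lean` (the case `N = 1`), factor by
factor. -/
theorem coordSpan_eqN {R : Type} [CommRing R] [Algebra ℂ R] {𝒜 : ℕ → Submodule ℂ R} {n N : ℕ}
    (E : DivisorOver 𝒜 n N) (x : Fin (n + 1) → R) (a : Fin N → Fin (n + 1)) (u : Fin N → E.V)
    (hu : ∀ j, E.φ j (x (a j)) * u j = 1) :
    coordSpan E x = Submodule.span E.V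
      (Set.range fun p : Fin N × Fin n =>
        KaehlerDifferential.D ℂ E.V (E.φ p.1 (x ((a p.1).succAbove p.2)) * u p.1)) := by
  classical
  set S := Submodule.span E.V
      (Set.range fun p : Fin N × Fin n =>
        KaehlerDifferential.D ℂ E.V (E.φ p.1 (x ((a p.1).succAbove p.2)) * u p.1))
    with hS
  have hy : ∀ j b, KaehlerDifferential.D ℂ E.V (E.φ j (x b) * u j) ∈ S := by
    intro j b
    rcases Fin.eq_self_or_eq_succAbove (a j) b with rfl | ⟨l, rfl⟩
    · rw [hu, Derivation.map_one_eq_zero]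
      exact S.zero_mem
    · exact Submodule.subset_span ⟨(j, l), rfl⟩
  refine le_antisymm ?_ ?_
  · refine Submodule.span_le.2 ?_
    rintro ω ⟨j, b, b'', w, hw, rfl⟩
    set z : E.V := E.φ j (x (a j)) * w with hz
    have h1 : E.φ j (x b'') * u j * z = 1 := by
      rw [hz]
      calc _ = (E.φ j (x b'') * w) * (E.φ j (x (a j)) * u j) := by ring
        _ = 1 := by rw [hw, hu, mul_one]
    have h2 : E.φ j (x b) * w = (E.φ j (x b) * u j) * z := by
      rw [hz]
      calc _ = (E.φ j (x b) * w) * (E.φ j (x (a j)) * u j) := by rw [hu, mul_one]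
        _ = _ := by ring
    have h3 : KaehlerDifferential.D ℂ E.V z ∈ S := by
      have h4 : (E.φ j (x b'') * u j) • KaehlerDifferential.D ℂ E.V z +
          z • KaehlerDifferential.D ℂ E.V (E.φ j (x b'') * u j) = 0 := by
        rw [← Derivation.leibniz, h1, Derivation.map_one_eq_zero]
      have h5 : KaehlerDifferential.D ℂ E.V z =
          -((z * z) • KaehlerDifferential.D ℂ E.V (E.φ j (x b'') * u j)) := by
        have h6 := congrArg (fun ω => z • ω) h4
        simp only [smul_add, smul_smul, smul_zero] at h6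
        rw [show z * (E.φ j (x b'') * u j) = 1 by rw [mul_comm]; exact h1, one_smul] at h6
        exact eq_neg_of_add_eq_zero_left h6
      rw [h5]
      exact S.neg_mem (S.smul_mem _ (hy j b''))
    have h7 : KaehlerDifferential.D ℂ E.V (E.φ j (x b) * w) ∈ S := by
      rw [h2, Derivation.leibniz]
      exact S.add_mem (S.smul_mem _ h3) (S.smul_mem _ (hy j b))
    exact h7
  · refine Submodule.span_le.2 ?_
    rintro ω ⟨⟨j, l⟩, rfl⟩
    exact Submodule.subset_span ⟨j, (a j).succAbove l, a j, u j, hu j, rfl⟩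

end Pool.Agent.Lib_KF
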