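import Pool.Agent.Lib_KF.GDefs
import Pool.Agent.Lib_GD.TrdegBound

/-! G1b: the derivations `h ∂_b`. -/

namespace Pool.Agent.Lib_KF

open Pool.Agent.Lib_GD

variable {R : Type} [CommRing R] [Algebra ℂ R] {𝒜 : ℕ → Submodule ℂ R} [GradedAlgebra 𝒜]
  {n r d : ℕ} {x : Fin (n + 1) → R} {G : R}

/-- G1b. Proof: `K` the fraction field of `R`, algebraic over `ℂ(x)`, so there are
derivations `∂_b` of `K` with `∂_b x_c = δ_bc` (derivations of `ℂ(x)` extend:
`Lib_MP_e0d435_kv/DerExt.lean`, or `exists_derivation` of `Lib_GD/TrdegBound.lean` for the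
transcendence basis `x`). For `s ∈ R`: `h D s = ∑ r_b D (x b)`; apply the linear map
`Ω_R → K` of the derivation `∂_c`: `h ∂_c s = r_c`. So `E b s := r_b` is `h ∂_b s`, in `R`; it is a
derivation `R → R`. -/
theorem exists_E (h : IsFano 𝒜 n r d x G) (hp : MvPolynomial (Fin (n + 1)) ℂ)
    (hs : ∀ s : R, MvPolynomial.aeval x hp • KaehlerDifferential.D ℂ R s ∈
        Submodule.span R (Set.range fun b => KaehlerDifferential.D ℂ R (x b))) :
    ∃ E : Fin (n + 1) → Derivation ℂ R R,
      (∀ b c, E b (x c) = if b = c then MvPolynomial.aeval x hp else 0) ∧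
      ∀ s, MvPolynomial.aeval x hp • KaehlerDifferential.D ℂ R s =
        ∑ b, E b s • KaehlerDifferential.D ℂ R (x b) := by
  classical
  have hdom : IsDomain R := h.domain
  let K := FractionRing R
  have hinj : Function.Injective (algebraMap R K) := IsFractionRing.injective R K
  have hxK : AlgebraicIndependent ℂ (fun b => algebraMap R K (x b)) :=
    h.x_indep.map' (f := IsScalarTower.toAlgHom ℂ R K) hinj
  have h1 : ∀ c : Fin (n + 1), ∃ δ : Derivation ℂ K K,
      ∀ b, δ (algebraMap R K (x b)) = if c = b then 1 else 0 :=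
    fun c => exists_derivation _ hxK _
  choose δ hδ using h1
  have h2 : ∀ s : R, ∃ c : Fin (n + 1) → R,
      MvPolynomial.aeval x hp • KaehlerDifferential.D ℂ R s =
        ∑ b, c b • KaehlerDifferential.D ℂ R (x b) := by
    intro s
    have h3 := hs s
    rw [Submodule.mem_span_range_iff_exists_fun] at h3
    obtain ⟨c, hc⟩ := h3
    exact ⟨c, hc.symm⟩
  choose rr hrr using h2
  have key : ∀ c s, algebraMap R K (rr s c) =
      algebraMap R K (MvPolynomial.aeval x hp) * δ c (algebraMap R K s) := by
    intro c s
    let ψ : Derivation ℂ R K := (δ c).compAlgebraMap R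
    have h4 := congrArg ψ.liftKaehlerDifferential (hrr s)
    rw [map_smul, map_sum, Derivation.liftKaehlerDifferential_comp_D] at h4
    have h5 : ∀ b, ψ.liftKaehlerDifferential (rr s b • KaehlerDifferential.D ℂ R (x b)) =
        algebraMap R K (rr s b) * (if c = b then 1 else 0) := by
      intro b
      rw [map_smul, Derivation.liftKaehlerDifferential_comp_D, Algebra.smul_def]
      congr 1
      exact hδ c b
    rw [Finset.sum_congr rfl fun b _ => h5 b, Algebra.smul_def] at h4
    simp only [mul_ite, mul_one, mul_zero, Finset.sum_ite_eq, Finset.mem_univ, if_true] at h4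
    exact h4.symm
  let E : Fin (n + 1) → Derivation ℂ R R := fun b => Derivation.mk'
    { toFun := fun s => rr s b
      map_add' := fun s t => hinj (by
        rw [map_add, key, key, key, map_add, map_add, mul_add])
      map_smul' := fun c s => hinj (by
        have h6 : algebraMap R K (c • s) = c • algebraMap R K s :=
          map_smul (IsScalarTower.toAlgHom ℂ R K) c s
        have h7 : algebraMap R K (c • rr s b) = c • algebraMap R K (rr s b) :=
          map_smul (IsScalarTower.toAlgHom ℂ R K) c (rr s b)
        rw [RingHom.id_apply, key, h6, h7, key, (δ b).map_smul, mul_smul_comm]) }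
    (fun s t => hinj (by
      change algebraMap R K (rr (s * t) b) = algebraMap R K (s • rr t b + t • rr s b)
      rw [smul_eq_mul, smul_eq_mul, map_add, map_mul, map_mul, key, key, key, map_mul,
        Derivation.leibniz, smul_eq_mul, smul_eq_mul]
      ring))
  refine ⟨E, ?_, ?_⟩
  · intro b c
    apply hinj
    change algebraMap R K (rr (x c) b) = _
    rw [key, hδ]
    by_cases hbc : b = c
    · rw [if_pos hbc, if_pos hbc, mul_one]
    · rw [if_neg hbc, if_neg hbc, mul_zero, map_zero]
  · intro s
    exact hrr s

end Pool.Agent.Lib_KF
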