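import Pool.Agent.Lib_KF.GDefs
import Pool.Agent.Lib_GD.TaylorGen

/-! G1c: the operators `h ^ |α| ∂^α`. -/

namespace Pool.Agent.Lib_KF

open Pool.Agent.Lib_GD

section GFAux

variable {R : Type} [CommRing R] [Algebra ℂ R] {n : ℕ}

private theorem GF_ind (P : (Fin n →₀ ℕ) → Prop) (h0 : P 0)
    (hs : ∀ α l, P α → P (α + Finsupp.single l 1)) : ∀ α, P α := by
  have key : ∀ (m : ℕ) (α : Fin n →₀ ℕ), α.degree = m → P α := by
    intro m
    induction m with
    | zero =>
      intro α hα
      have h1 : α = 0 := by simpa [Finsupp.degree_eq_zero_iff] using hα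
      rw [h1]; exact h0
    | succ m ih =>
      intro α hα
      obtain ⟨l, hl⟩ : ∃ l, α l ≠ 0 := by
        by_contra hcon
        push Not at hcon
        have : α = 0 := by ext l; simp [hcon l]
        subst this
        simp at hα
      obtain ⟨β, rfl⟩ : ∃ β : Fin n →₀ ℕ, α = β + Finsupp.single l 1 := by
        refine ⟨α - Finsupp.single l 1, ?_⟩
        rw [tsub_add_cancel_of_le]
        rw [Finsupp.single_le_iff]
        omega
      have hβ : β.degree = m := by
        rw [map_add, Finsupp.degree_single] at hα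
        omega
      exact hs β l (ih β hβ)
  exact fun α => key _ α rfl

/-- `s ↦ D s - k u s`. -/
private noncomputable def GF_T (D : Derivation ℂ R R) (u : R) (k : ℕ) : R →ₗ[ℂ] R :=
  (D : R →ₗ[ℂ] R) - LinearMap.mulLeft ℂ ((k : R) * u)

private theorem GF_T_apply (D : Derivation ℂ R R) (u : R) (k : ℕ) (s : R) :
    GF_T D u k s = D s - (k : R) * u * s := rfl

/-- Iterated operators along a list. -/
private noncomputable def GF_op (D : Fin n → Derivation ℂ R R) (u : Fin n → R) :
    List (Fin n) → (R →ₗ[ℂ] R)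
  | [] => LinearMap.id
  | l :: L => (GF_T (D l) (u l) L.length).comp (GF_op D u L)

private theorem GF_op_perm (D : Fin n → Derivation ℂ R R) (u : Fin n → R)
    (hcomm : ∀ l k s, D l (D k s) - D k (D l s) = u l * D k s - u k * D l s)
    (hsymm : ∀ l k, D l (u k) = D k (u l)) {L L' : List (Fin n)} (h : L.Perm L') :
    GF_op D u L = GF_op D u L' := by
  induction h with
  | nil => rfl
  | cons l h ih =>
    change (GF_T (D l) (u l) _).comp (GF_op D u _) = (GF_T (D l) (u l) _).comp (GF_op D u _)
    rw [ih, h.length_eq]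
  | swap l k L =>
    ext s
    change GF_T (D k) (u k) (L.length + 1) (GF_T (D l) (u l) L.length (GF_op D u L s)) =
      GF_T (D l) (u l) (L.length + 1) (GF_T (D k) (u k) L.length (GF_op D u L s))
    generalize GF_op D u L s = s'
    rw [GF_T_apply, GF_T_apply, GF_T_apply, GF_T_apply]
    have h1 := hcomm l k s'
    have h2 := hsymm l k
    rw [map_sub, map_sub, Derivation.leibniz, Derivation.leibniz, Derivation.leibniz,
      Derivation.leibniz]
    simp only [smul_eq_mul, Derivation.map_natCast, mul_zero, add_zero]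
    push_cast
    linear_combination (-1 : R) * h1 + (L.length : R) * s' * h2
  | trans h1 h2 ih1 ih2 => rw [ih1, ih2]

private theorem GF_succ (D : Fin n → Derivation ℂ R R) (u : Fin n → R)
    (hcomm : ∀ l k s, D l (D k s) - D k (D l s) = u l * D k s - u k * D l s)
    (hsymm : ∀ l k, D l (u k) = D k (u l)) (α : Fin n →₀ ℕ) (l : Fin n) (s : R) :
    GF_op D u (Finsupp.toMultiset (α + Finsupp.single l 1)).toList s =
      D l (GF_op D u (Finsupp.toMultiset α).toList s) -
        (α.degree : R) * u l * GF_op D u (Finsupp.toMultiset α).toList s := by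
  have h1 : (Finsupp.toMultiset (α + Finsupp.single l 1)).toList.Perm
      (l :: (Finsupp.toMultiset α).toList) := by
    rw [← Multiset.coe_eq_coe, Multiset.coe_toList, ← Multiset.cons_coe, Multiset.coe_toList,
      Finsupp.toMultiset_add, Finsupp.toMultiset_single, one_smul, add_comm,
      Multiset.singleton_add]
  have h2 : (Finsupp.toMultiset α).toList.length = α.degree := by
    rw [Multiset.length_toList, Finsupp.card_toMultiset]
    rfl
  rw [GF_op_perm D u hcomm hsymm h1]
  change GF_T (D l) (u l) _ (GF_op D u (Finsupp.toMultiset α).toList s) = _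
  rw [GF_T_apply, h2]

/-- The generating series. -/
private noncomputable def GF_ps (F : (Fin n →₀ ℕ) → R →ₗ[ℂ] R) (s : R) :
    MvPowerSeries (Fin n) R := fun α => algebraMap ℂ R (facG α)⁻¹ * F α s

private theorem GF_coeff (F : (Fin n →₀ ℕ) → R →ₗ[ℂ] R) (s : R) (α : Fin n →₀ ℕ) :
    MvPowerSeries.coeff α (GF_ps F s) = algebraMap ℂ R (facG α)⁻¹ * F α s := rfl

private theorem GF_pderiv (F : (Fin n →₀ ℕ) → R →ₗ[ℂ] R) (D : Fin n → Derivation ℂ R R)
    (u : Fin n → R)
    (hs : ∀ α l s, F (α + Finsupp.single l 1) s = D l (F α s) - (α.degree : R) * u l * F α s)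
    (s : R) (α : Fin n →₀ ℕ) (l : Fin n) :
    MvPowerSeries.coeff α (MvPowerSeries.pderiv R l (GF_ps F s)) =
      D l (MvPowerSeries.coeff α (GF_ps F s)) -
        (α.degree : R) * u l * MvPowerSeries.coeff α (GF_ps F s) := by
  rw [MvPowerSeries.coeff_pderiv, GF_coeff, GF_coeff, hs, facG_add_single, Derivation.leibniz,
    Derivation.map_algebraMap, smul_zero, add_zero, smul_eq_mul]
  have h2 : ((α l : ℂ) + 1) ≠ 0 := Nat.cast_add_one_ne_zero (α l)
  have h3 : ((α l : R) + 1) = algebraMap ℂ R (α l + 1) := by simp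
  have h4 : facG α ≠ 0 := facG_ne_zero α
  have h5 : algebraMap ℂ R (((α l : ℂ) + 1) * facG α)⁻¹ * algebraMap ℂ R (α l + 1) =
      algebraMap ℂ R (facG α)⁻¹ := by
    rw [← map_mul]
    congr 1
    field_simp
  rw [h3]
  linear_combination (D l (F α s) - (α.degree : R) * u l * F α s) * h5

private theorem GF_ps_mul (F : (Fin n →₀ ℕ) → R →ₗ[ℂ] R) (D : Fin n → Derivation ℂ R R)
    (u : Fin n → R) (hz : ∀ s, F 0 s = s)
    (hs : ∀ α l s, F (α + Finsupp.single l 1) s = D l (F α s) - (α.degree : R) * u l * F α s)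
    (s s' : R) : ∀ α : Fin n →₀ ℕ, MvPowerSeries.coeff α (GF_ps F (s * s')) =
      MvPowerSeries.coeff α (GF_ps F s * GF_ps F s') := by
  classical
  apply GF_ind
  · have e1 : MvPowerSeries.coeff (0 : Fin n →₀ ℕ) (GF_ps F s * GF_ps F s') =
        MvPowerSeries.coeff (0 : Fin n →₀ ℕ) (GF_ps F s) *
          MvPowerSeries.coeff (0 : Fin n →₀ ℕ) (GF_ps F s') := by
      simp only [MvPowerSeries.coeff_zero_eq_constantCoeff_apply, map_mul]
    rw [e1, GF_coeff, GF_coeff, GF_coeff, hz, hz, hz]
    simp [facG]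
  · intro α l ih
    have key : MvPowerSeries.coeff α (MvPowerSeries.pderiv R l (GF_ps F (s * s'))) =
        MvPowerSeries.coeff α (MvPowerSeries.pderiv R l (GF_ps F s * GF_ps F s')) := by
      rw [GF_pderiv F D u hs, ih, Derivation.leibniz, smul_eq_mul, smul_eq_mul, map_add,
        MvPowerSeries.coeff_mul, MvPowerSeries.coeff_mul, MvPowerSeries.coeff_mul, map_sum,
        Finset.mul_sum]
      have hsw : ∑ p ∈ Finset.HasAntidiagonal.antidiagonal α,
          MvPowerSeries.coeff p.1 (GF_ps F s') *
            MvPowerSeries.coeff p.2 (MvPowerSeries.pderiv R l (GF_ps F s)) =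
          ∑ p ∈ Finset.HasAntidiagonal.antidiagonal α,
          MvPowerSeries.coeff p.2 (GF_ps F s') *
            MvPowerSeries.coeff p.1 (MvPowerSeries.pderiv R l (GF_ps F s)) := by
        refine Finset.sum_nbij' Prod.swap Prod.swap ?_ ?_ ?_ ?_ ?_
        · intro p hp
          rw [Finset.HasAntidiagonal.mem_antidiagonal] at hp ⊢
          rw [← hp]; exact add_comm _ _
        · intro p hp
          rw [Finset.HasAntidiagonal.mem_antidiagonal] at hp ⊢
          rw [← hp]; exact add_comm _ _
        · intro p _; rfl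
        · intro p _; rfl
        · intro p _; rfl
      rw [hsw, ← Finset.sum_add_distrib, ← Finset.sum_sub_distrib]
      refine Finset.sum_congr rfl fun p hp => ?_
      have hdeg : α.degree = p.1.degree + p.2.degree := by
        rw [← map_add, Finset.HasAntidiagonal.mem_antidiagonal.1 hp]
      rw [GF_pderiv F D u hs, GF_pderiv F D u hs, Derivation.leibniz, smul_eq_mul, smul_eq_mul,
        hdeg]
      push_cast
      ring
    rw [MvPowerSeries.coeff_pderiv, MvPowerSeries.coeff_pderiv] at key
    have hu : IsUnit ((α l : R) + 1) := by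
      have : ((α l : R) + 1) = algebraMap ℂ R (α l + 1) := by simp
      rw [this]
      exact (IsUnit.mk0 _ (Nat.cast_add_one_ne_zero (α l))).map _
    exact hu.mul_right_cancel key

private theorem GF_mul (F : (Fin n →₀ ℕ) → R →ₗ[ℂ] R) (D : Fin n → Derivation ℂ R R)
    (u : Fin n → R) (hz : ∀ s, F 0 s = s)
    (hs : ∀ α l s, F (α + Finsupp.single l 1) s = D l (F α s) - (α.degree : R) * u l * F α s)
    (γ : Fin n →₀ ℕ) (s s' : R) :
    F γ (s * s') = ∑ p ∈ Finset.HasAntidiagonal.antidiagonal γ,
      binG p.1 p.2 • (F p.1 s * F p.2 s') := by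
  classical
  have h1 := GF_ps_mul F D u hz hs s s' γ
  rw [MvPowerSeries.coeff_mul, GF_coeff] at h1
  have h2 : F γ (s * s') = algebraMap ℂ R (facG γ) * (algebraMap ℂ R (facG γ)⁻¹ * F γ (s * s')) := by
    rw [← mul_assoc, ← map_mul, mul_inv_cancel₀ (facG_ne_zero γ), map_one, one_mul]
  rw [h2, h1, Finset.mul_sum]
  refine Finset.sum_congr rfl fun p hp => ?_
  have hγ := Finset.HasAntidiagonal.mem_antidiagonal.1 hp
  have hb : binG p.1 p.2 = facG γ * ((facG p.1)⁻¹ * (facG p.2)⁻¹) := by
    unfold binG facG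
    rw [← Finset.prod_inv_distrib, ← Finset.prod_inv_distrib, ← Finset.prod_mul_distrib,
      ← Finset.prod_mul_distrib]
    refine Finset.prod_congr rfl fun l _ => ?_
    rw [← hγ, Finsupp.add_apply, Nat.choose_symm_add,
      ← Nat.add_choose_mul_factorial_mul_factorial]
    push_cast
    have e1 : ((p.1 l).factorial : ℂ) ≠ 0 := Nat.cast_ne_zero.2 (Nat.factorial_ne_zero _)
    have e2 : ((p.2 l).factorial : ℂ) ≠ 0 := Nat.cast_ne_zero.2 (Nat.factorial_ne_zero _)
    field_simp
  rw [GF_coeff, GF_coeff, hb, Algebra.smul_def, map_mul, map_mul]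
  ring

private theorem GF_pd_comm {σ : Type} (i j : σ) (p : MvPolynomial σ ℂ) :
    MvPolynomial.pderiv i (MvPolynomial.pderiv j p) =
      MvPolynomial.pderiv j (MvPolynomial.pderiv i p) := by
  classical
  have h : ⁅(MvPolynomial.pderiv i : Derivation ℂ (MvPolynomial σ ℂ) (MvPolynomial σ ℂ)),
      (MvPolynomial.pderiv j : Derivation ℂ (MvPolynomial σ ℂ) (MvPolynomial σ ℂ))⁆ = 0 := by
    apply MvPolynomial.derivation_ext
    intro k
    rw [Derivation.commutator_apply, MvPolynomial.pderiv_X, MvPolynomial.pderiv_X,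
      Derivation.zero_apply]
    have h1 : ∀ a b : σ, (MvPolynomial.pderiv a : Derivation ℂ (MvPolynomial σ ℂ)
        (MvPolynomial σ ℂ)) ((Pi.single b 1 : σ → MvPolynomial σ ℂ) k) = 0 := by
      intro a b
      by_cases hbk : k = b
      · subst hbk; rw [Pi.single_eq_same, Derivation.map_one_eq_zero]
      · rw [Pi.single_eq_of_ne hbk, map_zero]
    rw [h1, h1, sub_zero]
  have h2 := Derivation.congr_fun h p
  rw [Derivation.commutator_apply, Derivation.zero_apply] at h2
  exact sub_eq_zero.1 h2

private theorem GF_aeval {m : ℕ} (x : Fin m → R) (D : Derivation ℂ R R) (H : R) (b : Fin m)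
    (hD : ∀ c, D (x c) = if b = c then H else 0) (p : MvPolynomial (Fin m) ℂ) :
    D (MvPolynomial.aeval x p) = H * MvPolynomial.aeval x (MvPolynomial.pderiv b p) := by
  classical
  induction p using MvPolynomial.induction_on with
  | C a =>
    rw [MvPolynomial.aeval_C, Derivation.map_algebraMap, MvPolynomial.pderiv_C, map_zero, mul_zero]
  | add p q hp hq => rw [map_add, map_add, hp, hq, map_add, map_add, mul_add]
  | mul_X p c hp =>
    rw [map_mul, MvPolynomial.aeval_X, Derivation.leibniz, hp, hD, MvPolynomial.pderiv_mul,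
      map_add, map_mul, map_mul, MvPolynomial.aeval_X, MvPolynomial.pderiv_X, smul_eq_mul,
      smul_eq_mul]
    by_cases hbc : b = c
    · subst hbc
      rw [if_pos rfl, Pi.single_eq_same, map_one]
      ring
    · rw [if_neg hbc, Pi.single_eq_of_ne (Ne.symm hbc), map_zero]
      ring

end GFAux

variable {R : Type} [CommRing R] [Algebra ℂ R] {𝒜 : ℕ → Submodule ℂ R} [GradedAlgebra 𝒜]
  {n r d : ℕ} {x : Fin (n + 1) → R} {G : R}

/-- G1c. Proof: let `K` be the fraction field, `∂_b = h⁻¹ E_b` extended to `K`; the `∂_b` commute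
(`h` times the commutator `[∂_b, ∂_c]` is a derivation of `K` killing the `x_c'`, so by `hom` it
is zero: every derivation `R → K` killing the `x b` is zero by `hom`, as `h ≠ 0`). By induction
on `|α|`: `h ^ |α| ∂^α` maps `R` to `R`, since
`h ^ (k+1) ∂_b ∂^α s = E_b (h ^ k ∂^α s) - k (∂_b h) h ^ k ∂^α s` and `∂_b h` is
`aeval x (pderiv b hp)`. `F a α s` is the element of `R` with image `h ^ |α| ∂^α s`, `∂^α` the
iterated derivation (`ddG` of `Lib_GD/TaylorGen.lean` for the commuting derivations
`∂_(a.succAbove l)` of `K`; its Leibniz rule can be obtained by induction on `|γ|` or from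
`tsG_mul_aux`). `F_poly`: `∂_b (aeval x p) = aeval x (pderiv b p)`, iterate. -/
theorem exists_F (h : IsFano 𝒜 n r d x G) (hp : MvPolynomial (Fin (n + 1)) ℂ) (h0 : hp ≠ 0)
    (E : Fin (n + 1) → Derivation ℂ R R)
    (hE : ∀ b c, E b (x c) = if b = c then MvPolynomial.aeval x hp else 0)
    (hom : ∀ s, MvPolynomial.aeval x hp • KaehlerDifferential.D ℂ R s =
        ∑ b, E b s • KaehlerDifferential.D ℂ R (x b)) :
    ∃ F : Fin (n + 1) → (Fin n →₀ ℕ) → R →ₗ[ℂ] R,
      (∀ a s, F a 0 s = s) ∧
      (∀ a α l s, F a (α + Finsupp.single l 1) s = E (a.succAbove l) (F a α s) -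
        (α.degree : R) * MvPolynomial.aeval x (MvPolynomial.pderiv (a.succAbove l) hp) *
          F a α s) ∧
      (∀ a γ s s', F a γ (s * s') = ∑ p ∈ Finset.HasAntidiagonal.antidiagonal γ,
        binG p.1 p.2 • (F a p.1 s * F a p.2 s')) ∧
      (∀ a γ p, F a γ (MvPolynomial.aeval x p) =
        MvPolynomial.aeval x hp ^ γ.degree * MvPolynomial.aeval x (pdG a γ p)) := by
  classical
  have hdom := h.domain
  have hH0 : MvPolynomial.aeval x hp ≠ 0 := by
    intro hc
    exact h0 (h.x_indep.eq_zero_of_aeval_eq_zero hp hc)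
  -- a derivation killing the coordinates vanishes
  have hkill : ∀ D : Derivation ℂ R R, (∀ c, D (x c) = 0) → D = 0 := by
    intro D hD
    ext s
    have h1 := congrArg D.liftKaehlerDifferential (hom s)
    rw [map_smul, map_sum, Derivation.liftKaehlerDifferential_comp_D] at h1
    have h2 : ∑ b, D.liftKaehlerDifferential (E b s • KaehlerDifferential.D ℂ R (x b)) = 0 := by
      refine Finset.sum_eq_zero fun b _ => ?_
      rw [map_smul, Derivation.liftKaehlerDifferential_comp_D, hD, smul_zero]
    rw [h2, smul_eq_mul] at h1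
    exact (mul_eq_zero.1 h1).resolve_left hH0
  have hEp : ∀ b p, E b (MvPolynomial.aeval x p) =
      MvPolynomial.aeval x hp * MvPolynomial.aeval x (MvPolynomial.pderiv b p) := fun b p =>
    GF_aeval x (E b) _ b (fun c => hE b c) p
  have hsymm : ∀ b c, E b (MvPolynomial.aeval x (MvPolynomial.pderiv c hp)) =
      E c (MvPolynomial.aeval x (MvPolynomial.pderiv b hp)) := by
    intro b c
    rw [hEp, hEp, GF_pd_comm]
  have hcomm : ∀ b c s, E b (E c s) - E c (E b s) =
      MvPolynomial.aeval x (MvPolynomial.pderiv b hp) * E c s -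
        MvPolynomial.aeval x (MvPolynomial.pderiv c hp) * E b s := by
    intro b c s
    have h1 : ⁅E b, E c⁆ - (MvPolynomial.aeval x (MvPolynomial.pderiv b hp) • E c -
        MvPolynomial.aeval x (MvPolynomial.pderiv c hp) • E b) = 0 := by
      apply hkill
      intro k
      rw [Derivation.sub_apply, Derivation.sub_apply, Derivation.smul_apply,
        Derivation.smul_apply, Derivation.commutator_apply, hE, hE]
      by_cases hbk : b = k
      · by_cases hck : c = k
        · rw [if_pos hbk, if_pos hck, hEp, hEp, hbk, hck]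
          simp
        · rw [if_pos hbk, if_neg hck, hEp, map_zero, smul_zero, smul_eq_mul]
          ring
      · by_cases hck : c = k
        · rw [if_neg hbk, if_pos hck, hEp, map_zero, smul_zero, smul_eq_mul]
          ring
        · rw [if_neg hbk, if_neg hck, map_zero, map_zero, smul_zero, smul_zero]
          ring
    have h2 := Derivation.congr_fun h1 s
    rw [Derivation.sub_apply, Derivation.sub_apply, Derivation.smul_apply,
      Derivation.smul_apply, Derivation.commutator_apply, Derivation.zero_apply] at h2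
    rw [smul_eq_mul, smul_eq_mul] at h2
    exact sub_eq_zero.1 h2
  have hz : ∀ (a : Fin (n + 1)) (s : R), GF_op (fun l => E (a.succAbove l))
      (fun l => MvPolynomial.aeval x (MvPolynomial.pderiv (a.succAbove l) hp))
      (Finsupp.toMultiset (0 : Fin n →₀ ℕ)).toList s = s := by
    intro a s
    rw [Finsupp.toMultiset_zero, Multiset.toList_zero]
    rfl
  have hs := fun (a : Fin (n + 1)) (α : Fin n →₀ ℕ) (l : Fin n) (s : R) =>
    GF_succ (fun l => E (a.succAbove l))
      (fun l => MvPolynomial.aeval x (MvPolynomial.pderiv (a.succAbove l) hp))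
      (fun l k s => hcomm _ _ s) (fun l k => hsymm _ _) α l s
  refine ⟨fun a α => GF_op (fun l => E (a.succAbove l))
      (fun l => MvPolynomial.aeval x (MvPolynomial.pderiv (a.succAbove l) hp))
      (Finsupp.toMultiset α).toList, hz, hs, ?_, ?_⟩
  · intro a γ s s'
    exact GF_mul (fun α => GF_op (fun l => E (a.succAbove l))
      (fun l => MvPolynomial.aeval x (MvPolynomial.pderiv (a.succAbove l) hp))
      (Finsupp.toMultiset α).toList) (fun l => E (a.succAbove l))
      (fun l => MvPolynomial.aeval x (MvPolynomial.pderiv (a.succAbove l) hp)) (hz a) (hs a) γ s s'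
  · intro a γ p
    have hpd : ∀ α : Fin n →₀ ℕ, ∀ l, pdG a (α + Finsupp.single l 1) p =
        MvPolynomial.pderiv (a.succAbove l) (pdG a α p) := by
      intro α l
      exact (der_ddG (fun l : Fin n => (MvPolynomial.pderiv (a.succAbove l) :
        Derivation ℂ (MvPolynomial (Fin (n + 1)) ℂ) (MvPolynomial (Fin (n + 1)) ℂ)))
        (fun l k b => GF_pd_comm _ _ b) α l p).symm
    have hp0 : pdG a 0 p = p :=
      ddG_zero (fun l : Fin n => (MvPolynomial.pderiv (a.succAbove l) :
        Derivation ℂ (MvPolynomial (Fin (n + 1)) ℂ) (MvPolynomial (Fin (n + 1)) ℂ))) p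
    revert γ
    apply GF_ind
    · change GF_op _ _ (Finsupp.toMultiset (0 : Fin n →₀ ℕ)).toList _ = _
      rw [hz, hp0, map_zero, pow_zero, one_mul]
    · intro α l ih
      change GF_op _ _ (Finsupp.toMultiset (α + Finsupp.single l 1)).toList _ = _
      rw [hs a α l]
      have ih' : GF_op (fun l => E (a.succAbove l))
        (fun l => MvPolynomial.aeval x (MvPolynomial.pderiv (a.succAbove l) hp))
        (Finsupp.toMultiset α).toList (MvPolynomial.aeval x p) =
        MvPolynomial.aeval x hp ^ α.degree * MvPolynomial.aeval x (pdG a α p) := ih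
      rw [ih', hpd, map_add, Finsupp.degree_single, Derivation.leibniz, Derivation.leibniz_pow,
        hEp, hEp, smul_eq_mul, smul_eq_mul, smul_eq_mul, nsmul_eq_mul]
      rcases Nat.eq_zero_or_pos α.degree with hd | hd
      · rw [hd]
        simp
      · obtain ⟨k, hk⟩ := Nat.exists_eq_add_of_lt hd
        have hk' : α.degree = k + 1 := by omega
        rw [hk', Nat.add_sub_cancel]
        push_cast
        ring

end Pool.Agent.Lib_KF
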