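import Pool.Agent.Lib_KF.GDer
import Pool.Agent.Lib_KF.GE
import Pool.Agent.Lib_KF.GF
import Pool.Agent.Lib_GD.HatLem

/-! G1d: existence of derivation data; the transport equation. -/

open PowerSeries

namespace Pool.Agent.Lib_KF

open Pool.Agent.Lib_GD

variable {R : Type} [CommRing R] [Algebra ℂ R] {𝒜 : ℕ → Submodule ℂ R} [GradedAlgebra 𝒜]
  {n r d : ℕ} {x : Fin (n + 1) → R} {G : R}

theorem exists_derData (h : IsFano 𝒜 n r d x G) : Nonempty (DerData x) := by
  obtain ⟨hp, wt, h0, hhom, hs⟩ := exists_hp h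
  obtain ⟨E, hE, hom⟩ := exists_E h hp hs
  obtain ⟨F, h1, h2, h3, h4⟩ := exists_F h hp h0 E hE hom
  exact ⟨⟨hp, h0, wt, hhom, E, hE, hom, F, h1, h2, h3, h4⟩⟩

section

variable {R : Type} [CommRing R] [Algebra ℂ R] {L : Type} [Field L] [Algebra ℂ L]

private theorem GData_hat_alg (xj : R →ₐ[ℂ] L⟦X⟧) (δ : Derivation ℂ L L) (z : ℂ) :
    hat δ (xj (algebraMap ℂ R z)) = 0 := by
  rw [AlgHom.commutes]
  ext k
  rw [coeff_hat, PowerSeries.algebraMap_apply, PowerSeries.coeff_C]
  split_ifs <;> simp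

private theorem GData_hat_one (δ : Derivation ℂ L L) : hat δ (1 : L⟦X⟧) = 0 := by
  have h := hat_mul δ (1 : L⟦X⟧) 1
  rw [mul_one, one_mul, mul_one] at h
  exact left_eq_add.1 h

private theorem GData_om {ι : Type} [Fintype ι] (xj : R →ₐ[ℂ] L⟦X⟧) (δ : Derivation ℂ L L)
    (h s : R) (c y : ι → R)
    (hs : h • KaehlerDifferential.D ℂ R s = ∑ b, c b • KaehlerDifferential.D ℂ R (y b)) :
    xj h * hat δ (xj s) = ∑ b, xj (c b) * hat δ (xj (y b)) := by
  let _ : Module R L⟦X⟧ := Module.compHom L⟦X⟧ xj.toRingHom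
  have hsm : ∀ (b : R) (f : L⟦X⟧), b • f = xj b * f := fun _ _ => rfl
  have _ : IsScalarTower ℂ R L⟦X⟧ := ⟨fun z b f => by
    rw [hsm, hsm, map_smul, smul_mul_assoc]⟩
  let D : Derivation ℂ R L⟦X⟧ :=
    { toFun := fun b => hat δ (xj b)
      map_add' := fun a b => by
        ext k; simp [hat]
      map_smul' := fun z b => by
        ext k; simp [hat]
      map_one_eq_zero' := by
        change hat δ (xj 1) = 0
        rw [map_one, GData_hat_one]
      leibniz' := fun a b => by
        change hat δ (xj (a * b)) = a • hat δ (xj b) + b • hat δ (xj a)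
        rw [hsm, hsm, map_mul, hat_mul, mul_comm (hat δ (xj a))] }
  have h1 := congrArg D.liftKaehlerDifferential hs
  rw [map_sum, map_smul, Derivation.liftKaehlerDifferential_comp_D] at h1
  have h2 : h • D s = ∑ b, c b • D (y b) := by
    rw [h1]
    refine Finset.sum_congr rfl fun l _ => ?_
    rw [map_smul, Derivation.liftKaehlerDifferential_comp_D]
  exact h2

private theorem GData_poly {n : ℕ} (x : Fin (n + 1) → R) (xj : R →ₐ[ℂ] L⟦X⟧)
    (δ : Derivation ℂ L L) (p : MvPolynomial (Fin (n + 1)) ℂ) :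
    hat δ (xj (MvPolynomial.aeval x p)) =
      ∑ b, xj (MvPolynomial.aeval x (MvPolynomial.pderiv b p)) * hat δ (xj (x b)) := by
  classical
  induction p using MvPolynomial.induction_on with
  | C a =>
    rw [MvPolynomial.aeval_C, GData_hat_alg]
    simp
  | add p q hp hq =>
    rw [map_add, map_add, hat_add, hp, hq, ← Finset.sum_add_distrib]
    refine Finset.sum_congr rfl fun b _ => ?_
    rw [map_add, map_add, map_add, add_mul]
  | mul_X p i hp =>
    have h1 : ∀ b, xj (MvPolynomial.aeval x (MvPolynomial.pderiv b (p * MvPolynomial.X i))) *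
        hat δ (xj (x b)) =
        xj (x i) * (xj (MvPolynomial.aeval x (MvPolynomial.pderiv b p)) * hat δ (xj (x b))) +
          if i = b then xj (MvPolynomial.aeval x p) * hat δ (xj (x i)) else 0 := by
      intro b
      rw [MvPolynomial.pderiv_mul, map_add, map_add, map_mul, map_mul, map_mul, map_mul,
        MvPolynomial.aeval_X, MvPolynomial.pderiv_X]
      by_cases hb : i = b
      · subst hb
        simp only [Pi.single_eq_same, map_one, mul_one, if_true]
        ring
      · simp only [Pi.single_eq_of_ne hb, map_zero, mul_zero, add_zero, hb, if_false]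
        ring
    simp only [h1]
    rw [Finset.sum_add_distrib, ← Finset.mul_sum, ← hp, map_mul, map_mul, hat_mul,
      MvPolynomial.aeval_X]
    simp only [Finset.sum_ite_eq, Finset.mem_univ, if_true]
    ring

end

namespace DerData

variable {R : Type} [CommRing R] [Algebra ℂ R] {n : ℕ} {x : Fin (n + 1) → R} (T : DerData x)
  {L : Type} [Field L] [Algebra ℂ L]

/-- Proof: the map `s ↦ hat δ (xj s)` is a derivation `R → L⟦X⟧` (`L⟦X⟧` a module through `xj`);
its linear map `Ω_R → L⟦X⟧` applied to `om`. -/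
theorem hat_arc (xj : R →ₐ[ℂ] L⟦X⟧) (δ : Derivation ℂ L L) (s : R) :
    xj T.h * hat δ (xj s) = ∑ b, xj (T.E b s) * hat δ (xj (x b)) := by
  exact GData_om xj δ T.h s (fun b => T.E b s) x (T.om s)

/-- The derivative of `h`. Proof: chain rule for polynomials (induction on `hp`), or `hat_arc`
for `s = h` with `E b h = h ∂_b h` and division by `xj h ≠ 0`; better the direct way, which needs
no `xj h ≠ 0`. -/
theorem hat_h (xj : R →ₐ[ℂ] L⟦X⟧) (δ : Derivation ℂ L L) :
    hat δ (xj T.h) =
      ∑ b, xj (MvPolynomial.aeval x (MvPolynomial.pderiv b T.hp)) * hat δ (xj (x b)) := by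
  exact GData_poly x xj δ T.hp

/-- The transport equation in the chart `x a = 1`. Proof: `hat_arc` for `F a α s`, `F_succ`,
`hat_h`; the term `b = a` vanishes because `hat δ 1 = 0`; sum over `b ≠ a` by
`Fin.sum_univ_succAbove`. -/
theorem transport (a : Fin (n + 1)) (xj : R →ₐ[ℂ] L⟦X⟧) (hx : xj (x a) = 1)
    (δ : Derivation ℂ L L) (α : Fin n →₀ ℕ) (s : R) :
    xj T.h * hat δ (xj (T.F a α s)) =
      (α.degree : L⟦X⟧) * hat δ (xj T.h) * xj (T.F a α s) +
      ∑ l, hat δ (xj (x (a.succAbove l))) * xj (T.F a (α + Finsupp.single l 1) s) := by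
  have h0 : hat δ (xj (x a)) = 0 := by rw [hx, GData_hat_one]
  rw [T.hat_arc xj δ, T.hat_h xj δ, Fin.sum_univ_succAbove _ a, Fin.sum_univ_succAbove _ a, h0,
    mul_zero, mul_zero, zero_add, zero_add, Finset.mul_sum, Finset.sum_mul,
    ← Finset.sum_add_distrib]
  refine Finset.sum_congr rfl fun l _ => ?_
  rw [T.F_succ, map_sub, map_mul, map_mul, map_natCast]
  ring

end DerData

end Pool.Agent.Lib_KF
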