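import Pool.Agent.Lib_GD.HatLem
import Pool.Agent.Lib_MP_e0d435_kv.Basic

/-! G5a: Laurent series as a log-differential valued field. -/

open PowerSeries

namespace Pool.Agent.Lib_KF

open Pool.Agent.Lib_GD Pool.Agent.Lib_MP_e0d435_kv

section

variable {L : Type} [Field L] [Algebra ℂ L]

/-- Laurent series. -/
private def GLauM (L : Type) [Field L] [Algebra ℂ L] : Type := HahnSeries ℤ L

private noncomputable instance GLauField : Field (GLauM L) :=
  inferInstanceAs (Field (HahnSeries ℤ L))

private noncomputable instance GLauAlg : Algebra ℂ (GLauM L) :=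
  ((HahnSeries.ofPowerSeries ℤ L).comp (algebraMap ℂ L⟦X⟧)).toAlgebra

private theorem GLau_coeff_mul (c : ℂ) (f : HahnSeries ℤ L) (a : ℤ) :
    (HahnSeries.ofPowerSeries ℤ L (algebraMap ℂ L⟦X⟧ c) * f).coeff a = c • f.coeff a := by
  rw [PowerSeries.algebraMap_apply, HahnSeries.ofPowerSeries_C,
    HahnSeries.C_mul_eq_smul, HahnSeries.coeff_smul, smul_eq_mul, Algebra.smul_def]

private theorem GLau_coeff_smul (c : ℂ) (f : GLauM L) (a : ℤ) :
    HahnSeries.coeff (c • f : GLauM L) a = c • HahnSeries.coeff f a :=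
  GLau_coeff_mul c f a

/-- The coefficientwise action. -/
private noncomputable def GLauMap (δ : Derivation ℂ L L) (f : HahnSeries ℤ L) :
    HahnSeries ℤ L where
  coeff a := δ (f.coeff a)
  isPWO_support' := f.isPWO_support.mono fun a ha h => ha (by
    show δ (f.coeff a) = 0
    rw [h, map_zero])

private theorem GLau_coeff (δ : Derivation ℂ L L) (f : HahnSeries ℤ L) (a : ℤ) :
    (GLauMap δ f).coeff a = δ (f.coeff a) := rfl

private theorem GLau_supp (δ : Derivation ℂ L L) (f : HahnSeries ℤ L) :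
    (GLauMap δ f).support ⊆ f.support := fun a ha h => ha (by
  show δ (f.coeff a) = 0
  rw [h, map_zero])

private theorem GLau_mul (δ : Derivation ℂ L L) (f g : HahnSeries ℤ L) :
    GLauMap δ (f * g) = f * GLauMap δ g + g * GLauMap δ f := by
  ext a
  rw [GLau_coeff, HahnSeries.coeff_mul, map_sum, HahnSeries.coeff_add,
    HahnSeries.coeff_mul_right' g.isPWO_support (GLau_supp δ g), mul_comm g,
    HahnSeries.coeff_mul_left' f.isPWO_support (GLau_supp δ f), ← Finset.sum_add_distrib]
  refine Finset.sum_congr rfl fun p _ => ?_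
  rw [Derivation.leibniz, GLau_coeff, GLau_coeff, smul_eq_mul, smul_eq_mul,
    mul_comm (g.coeff p.2)]

/-- The coefficientwise derivation. -/
private noncomputable def GLauD (δ : Derivation ℂ L L) : Derivation ℂ (GLauM L) (GLauM L) :=
  Derivation.mk'
    { toFun := fun f => GLauMap δ f
      map_add' := fun f g => HahnSeries.ext (funext fun a => map_add δ (HahnSeries.coeff f a)
        (HahnSeries.coeff g a))
      map_smul' := fun c f => HahnSeries.ext (funext fun a =>
        (congrArg δ (GLau_coeff_smul c f a)).trans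
          ((δ.map_smul c (HahnSeries.coeff f a)).trans
            (GLau_coeff_smul c (GLauMap δ f : HahnSeries ℤ L) a).symm)) }
    (fun f g => GLau_mul δ f g)

/-- The field. -/
private noncomputable def GLauL (n : ℕ) (δ : Fin n → Derivation ℂ L L) : LDF n where
  M := GLauM L
  w := (HahnSeries.addVal ℤ L : AddValuation (HahnSeries ℤ L) (WithTop ℤ))
  t := (HahnSeries.single 1 1 : HahnSeries ℤ L)
  w_t := by
    show HahnSeries.addVal ℤ L (HahnSeries.single 1 1 : HahnSeries ℤ L) = 1
    rw [HahnSeries.addVal_apply, HahnSeries.orderTop_single one_ne_zero]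
    rfl
  d := fun i => GLauD (δ i)
  log := fun i f => by
    show HahnSeries.addVal ℤ L (f : HahnSeries ℤ L) ≤ HahnSeries.addVal ℤ L (GLauMap (δ i) f)
    rw [HahnSeries.addVal_apply, HahnSeries.addVal_apply]
    refine HahnSeries.le_orderTop_iff_forall.2 fun a ha => ?_
    rw [GLau_coeff, HahnSeries.coeff_eq_zero_of_lt_orderTop ha, map_zero]

end

/-- G5a. Proof: `M` is the field of Laurent series `LaurentSeries L` (Hahn series with exponents
in `ℤ`, or the fraction field of `L⟦X⟧`), `w` the order (`HahnSeries.addVal ℤ L`), `t = X`, the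
derivations act coefficientwise (a derivation `δ` of `L` over `ℂ` gives
`∑ a_k X^k ↦ ∑ δ(a_k) X^k`, which is a derivation and does not decrease the order; if the
coefficientwise Leibniz rule for Laurent series is awkward write `f = X^(-p) g`, `g ∈ L⟦X⟧`, and use
`hat_mul`, `hat_X_pow_mul` of `Lib_GD/HatLem.lean`). -/
theorem exists_laurent (L : Type) [Field L] [Algebra ℂ L] (n : ℕ)
    (δ : Fin n → Derivation ℂ L L) :
    ∃ (Λ : LDF n) (ι : L⟦X⟧ →ₐ[ℂ] Λ.M), Function.Injective ι ∧
      (∀ (f : L⟦X⟧) (k : ℕ), f.order = k → ordZ Λ.w (ι f) = k) ∧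
      ∀ i f, Λ.d i (ι f) = ι (hat (δ i) f) := by
  let ι : L⟦X⟧ →ₐ[ℂ] (GLauL n δ).M :=
    { (HahnSeries.ofPowerSeries ℤ L) with commutes' := fun _ => rfl }
  have hι : ∀ f : L⟦X⟧, ι f = HahnSeries.ofPowerSeries ℤ L f := fun _ => rfl
  have hneg : ∀ (f : L⟦X⟧) (a : ℤ), a < 0 → (HahnSeries.ofPowerSeries ℤ L f).coeff a = 0 := by
    intro f a ha
    have h := PowerSeries.coeff_coe (f := f) a
    rw [if_pos ha] at h
    exact h
  refine ⟨GLauL n δ, ι, ?_, ?_, ?_⟩
  · exact HahnSeries.ofPowerSeries_injective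
  · intro f k hk
    refine ordZ_eq_of_w _ ?_
    have hc : PowerSeries.coeff k f ≠ 0 := ((PowerSeries.order_eq_nat).1 hk).1
    have hlt : ∀ i, i < k → PowerSeries.coeff i f = 0 := ((PowerSeries.order_eq_nat).1 hk).2
    show HahnSeries.addVal ℤ L (HahnSeries.ofPowerSeries ℤ L f) = _
    rw [HahnSeries.addVal_apply]
    apply le_antisymm
    · refine HahnSeries.orderTop_le_of_coeff_ne_zero (g := (k : ℤ)) ?_
      rw [HahnSeries.ofPowerSeries_apply_coeff]
      exact hc
    · refine HahnSeries.le_orderTop_iff_forall.2 fun a ha => ?_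
      rcases lt_or_ge a 0 with h0 | h0
      · exact hneg f a h0
      · obtain ⟨m, rfl⟩ := Int.eq_ofNat_of_zero_le h0
        rw [HahnSeries.ofPowerSeries_apply_coeff]
        refine hlt m ?_
        have h1 : ((m : ℤ) : WithTop ℤ) < ((k : ℤ) : WithTop ℤ) := ha
        have h2 : (m : ℤ) < (k : ℤ) := WithTop.coe_lt_coe.1 h1
        exact_mod_cast h2
  · intro i f
    show GLauMap (δ i) (HahnSeries.ofPowerSeries ℤ L f) =
      HahnSeries.ofPowerSeries ℤ L (hat (δ i) f)
    ext a
    rw [GLau_coeff]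
    rcases lt_or_ge a 0 with h0 | h0
    · rw [hneg f a h0, hneg _ a h0, map_zero]
    · obtain ⟨m, rfl⟩ := Int.eq_ofNat_of_zero_le h0
      rw [HahnSeries.ofPowerSeries_apply_coeff, HahnSeries.ofPowerSeries_apply_coeff, coeff_hat]

end Pool.Agent.Lib_KF
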