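import Pool.Agent.Lib_GD.ArcColen

/-! G5b: a basis of a submodule of finite colength. -/

open PowerSeries

namespace Pool.Agent.Lib_KF

open Pool.Agent.Lib_GD

private theorem GRows_ord_prod {R : Type} [CommRing R] [IsDomain R] {m : Type} (s : Finset m)
    (c : m → R) (hc : ∀ i, c i ≠ 0) : Ring.ord R (∏ i ∈ s, c i) = ∑ i ∈ s, Ring.ord R (c i) := by
  classical
  induction s using Finset.induction_on with
  | empty => simp
  | insert a s ha ih =>
    rw [Finset.prod_insert ha, Finset.sum_insert ha, Ring.ord_mul R, ih]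
    exact mem_nonZeroDivisors_of_ne_zero (Finset.prod_ne_zero_iff.2 fun i _ => hc i)

/-- The length of the cokernel of a square matrix over a principal ideal domain. -/
private theorem GRows_length {R : Type} [CommRing R] [IsDomain R] [IsPrincipalIdealRing R]
    {m : Type} [Fintype m] [DecidableEq m] (A : Matrix m m R) (hA : A.det ≠ 0) :
    Module.length R ((m → R) ⧸ Submodule.span R (Set.range A)) = Ring.ord R A.det := by
  set N : Submodule R (m → R) := Submodule.span R (Set.range A) with hN
  have hr : LinearMap.range A.vecMulLinear = N := by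
    rw [range_vecMulLinear]
    rfl
  have hinj : Function.Injective A.vecMulLinear := by
    rw [← LinearMap.ker_eq_bot, LinearMap.ker_eq_bot']
    intro x hx
    exact Matrix.eq_zero_of_vecMul_eq_zero hA hx
  let eN : (m → R) ≃ₗ[R] N :=
    (LinearEquiv.ofInjective A.vecMulLinear hinj).trans (LinearEquiv.ofEq _ _ hr)
  have heN : ∀ x, ((eN x : N) : m → R) = A.vecMulLinear x := fun x => rfl
  have hrank : Module.finrank R N = Module.finrank R (m → R) := eN.finrank_eq.symm
  let b := Pi.basisFun R m
  let b' := Submodule.smithNormalFormTopBasis b hrank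
  let ab := Submodule.smithNormalFormBotBasis b hrank
  let c := Submodule.smithNormalFormCoeffs b hrank
  have hab : ∀ i, (ab i : m → R) = c i • b' i := Submodule.smithNormalFormBotBasis_def b hrank
  have hc : ∀ i, c i ≠ 0 := fun i => Submodule.smithNormalFormCoeffs_ne_zero b hrank i
  rw [(N.quotientEquivPiSpan b hrank).length_eq, Module.length_pi_of_fintype]
  have h1 : ∑ i, Module.length R (R ⧸ Ideal.span ({c i} : Set R)) = Ring.ord R (∏ i, c i) := by
    rw [GRows_ord_prod _ _ hc]
    rfl
  refine h1.trans (Ring.ord_eq_of_associated ?_)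
  -- the two determinants
  let ψ : (m → R) →ₗ[R] (m → R) := N.subtype ∘ₗ (b'.equiv ab (Equiv.refl m)).toLinearMap
  have hψ : LinearMap.det ψ = ∏ i, c i := by
    rw [← LinearMap.det_toMatrix b', ← Matrix.det_diagonal]
    congr 1
    ext i j
    rw [LinearMap.toMatrix_apply]
    have h2 : ψ (b' j) = c j • b' j := by
      rw [← hab j]
      show ((b'.equiv ab (Equiv.refl m) (b' j) : N) : m → R) = ab j
      rw [Module.Basis.equiv_apply]
      rfl
    rw [h2, map_smul, Finsupp.smul_apply, Module.Basis.repr_self, Matrix.diagonal_apply,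
      smul_eq_mul, Finsupp.single_apply]
    split_ifs with h3 h4 h4
    · rw [mul_one, h3]
    · exact absurd h3.symm h4
    · exact absurd h4.symm h3
    · rw [mul_zero]
  have hφ : LinearMap.det A.vecMulLinear = A.det := by
    rw [← Matrix.mulVecLin_transpose, ← Matrix.toLin'_apply', LinearMap.det_toLin',
      Matrix.det_transpose]
  rw [← hψ, ← hφ]
  refine (LinearMap.associated_det_of_eq_comp (eN.trans (b'.equiv ab (Equiv.refl m)).symm)
    A.vecMulLinear ψ fun x => ?_).symm
  show A.vecMulLinear x = ((b'.equiv ab (Equiv.refl m)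
    ((b'.equiv ab (Equiv.refl m)).symm (eN x)) : N) : m → R)
  rw [LinearEquiv.apply_symm_apply, heN]

/-- If the cokernel has finite length the determinant is not zero. -/
private theorem GRows_det_ne {R : Type} [CommRing R] [IsDomain R] [IsDiscreteValuationRing R]
    {m : Type} [Fintype m] [DecidableEq m] (A : Matrix m m R)
    (h : Module.length R ((m → R) ⧸ Submodule.span R (Set.range A)) ≠ ⊤) : A.det ≠ 0 := by
  intro h0
  obtain ⟨w, hw0, hw⟩ := Matrix.exists_mulVec_eq_zero_iff.2 h0
  obtain ⟨q, hq⟩ : ∃ q, w q ≠ 0 := by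
    by_contra hne
    push Not at hne
    exact hw0 (funext hne)
  let ℓ : (m → R) →ₗ[R] R := ∑ i, w i • LinearMap.proj i
  have hℓ : ∀ x, ℓ x = ∑ i, w i * x i := by
    intro x
    simp [ℓ, LinearMap.sum_apply]
  have hker : Submodule.span R (Set.range A) ≤ LinearMap.ker ℓ := by
    rw [Submodule.span_le]
    rintro _ ⟨p, rfl⟩
    show ℓ (A p) = 0
    rw [hℓ]
    have := congrFun hw p
    rw [Matrix.mulVec, dotProduct, Pi.zero_apply] at this
    rw [← this]
    exact Finset.sum_congr rfl fun i _ => mul_comm _ _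
  let g : R →ₗ[R] ((m → R) ⧸ Submodule.span R (Set.range A)) :=
    (Submodule.mkQ _) ∘ₗ (LinearMap.single R (fun _ => R) q)
  have hg : Function.Injective g := by
    rw [← LinearMap.ker_eq_bot, LinearMap.ker_eq_bot']
    intro x hx
    have h1 : (Pi.single q x : m → R) ∈ Submodule.span R (Set.range A) :=
      (Submodule.Quotient.mk_eq_zero _).1 hx
    have h2 : ℓ (Pi.single q x) = 0 := hker h1
    rw [hℓ, Finset.sum_eq_single q] at h2
    · rw [Pi.single_eq_same] at h2
      exact (mul_eq_zero.1 h2).resolve_left hq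
    · intro i _ hi
      rw [Pi.single_eq_of_ne hi, mul_zero]
    · intro hh
      exact absurd (Finset.mem_univ q) hh
  have h3 : Module.length R R ≠ ⊤ := fun hh =>
    h (top_le_iff.1 (hh ▸ Module.length_le_of_injective g hg))
  have h4 : IsArtinian R R := (isFiniteLength_iff_isNoetherian_isArtinian.1
    (Module.length_ne_top_iff.1 h3)).2
  have h5 : IsArtinianRing R := h4
  exact IsDiscreteValuationRing.not_isField R (IsArtinianRing.isField_of_isDomain R)

private theorem GRows_ord_dvr {R : Type} [CommRing R] [IsDomain R] [IsDiscreteValuationRing R]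
    (x : R) (hx : x ≠ 0) : Ring.ord R x = IsDiscreteValuationRing.addVal R x := by
  obtain ⟨ϖ, hϖ⟩ := IsDiscreteValuationRing.exists_irreducible R
  obtain ⟨n, u, rfl⟩ := IsDiscreteValuationRing.eq_unit_mul_pow_irreducible hx hϖ
  rw [IsDiscreteValuationRing.addVal_def' u hϖ n, Ring.ord_mul_of_isUnit_left u.isUnit,
    Ring.ord_pow (mem_nonZeroDivisors_of_ne_zero hϖ.ne_zero), Ring.ord_of_irreducible hϖ,
    nsmul_eq_mul, mul_one]

private theorem GRows_ord_series {L : Type} [Field L] (f : L⟦X⟧) (hf : f ≠ 0) :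
    Ring.ord L⟦X⟧ f = f.order := by
  have h1 : f.order = (f.order.toNat : ℕ∞) := by
    rw [ENat.natCast_toNat]
    exact fun h => hf (PowerSeries.order_eq_top.1 h)
  have h2 : IsUnit (divXPowOrder f) := by
    rw [PowerSeries.isUnit_iff_constantCoeff, isUnit_iff_ne_zero, constantCoeff_divXPowOrder]
    exact coeff_order hf
  conv_lhs => rw [← X_pow_order_mul_divXPowOrder (f := f)]
  rw [Ring.ord_mul_of_isUnit_right h2, Ring.ord_pow (mem_nonZeroDivisors_of_ne_zero X_ne_zero),
    Ring.ord_of_irreducible X_irreducible, nsmul_eq_mul, mul_one, ← h1]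

/-- G5b. Proof: `L⟦X⟧` is a principal ideal domain; `Ξ` is free of rank `n` (it contains
`X^c O^n`); take a basis `A i` of `Ξ` (`Submodule.smithNormalForm`, or
`Submodule.nonempty_basis_of_pid`); then `Ξ` is the span of the rows of `A`, and the colength of
the span of the rows is the order of the determinant (`length_matrix` in
`Lib_MP_e0d435_kv/AdLen.lean`, or `ArcColen_det_ne` and the lemmas of `Lib_GD/ArcColen.lean`);
`det A ≠ 0` because the rows are linearly independent. -/
theorem exists_rows {L : Type} [Field L] {n : ℕ} (Ξ : Submodule L⟦X⟧ (Fin n → L⟦X⟧))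
    (hΞ : FinColen Ξ) :
    ∃ A : Matrix (Fin n) (Fin n) L⟦X⟧, (∀ i, A i ∈ Ξ) ∧ Matrix.det A ≠ 0 ∧
      (Matrix.det A).order = (colen Ξ : ℕ∞) := by
  classical
  obtain ⟨m, ⟨bN⟩⟩ := Submodule.nonempty_basis_of_pid (Pi.basisFun L⟦X⟧ (Fin n)) Ξ
  have hm : m ≤ n := by
    have h1 := Submodule.finrank_le Ξ
    rwa [Module.finrank_eq_card_basis bN, Module.finrank_fintype_fun_eq_card, Fintype.card_fin,
      Fintype.card_fin] at h1
  let A : Matrix (Fin n) (Fin n) L⟦X⟧ := fun i =>
    if h : (i : ℕ) < m then (bN ⟨i, h⟩ : Fin n → L⟦X⟧) else 0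
  have hmem : ∀ i, A i ∈ Ξ := by
    intro i
    by_cases h : (i : ℕ) < m
    · have : A i = (bN ⟨i, h⟩ : Fin n → L⟦X⟧) := dif_pos h
      rw [this]
      exact (bN ⟨i, h⟩).2
    · have : A i = 0 := dif_neg h
      rw [this]
      exact Ξ.zero_mem
  have hspan : Submodule.span L⟦X⟧ (Set.range A) = Ξ := by
    apply le_antisymm
    · rw [Submodule.span_le]
      rintro _ ⟨i, rfl⟩
      exact hmem i
    · intro x hx
      have h1 : x = ∑ i, bN.repr ⟨x, hx⟩ i • (bN i : Fin n → L⟦X⟧) := by
        have h2 := congrArg (Submodule.subtype Ξ) (bN.sum_repr ⟨x, hx⟩)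
        rw [map_sum] at h2
        exact h2.symm
      rw [h1]
      refine Submodule.sum_mem _ fun i _ => Submodule.smul_mem _ _ (Submodule.subset_span ?_)
      refine ⟨⟨i, lt_of_lt_of_le i.2 hm⟩, ?_⟩
      exact dif_pos i.2
  have hdet : A.det ≠ 0 := GRows_det_ne A (by rw [hspan]; exact hΞ)
  refine ⟨A, hmem, hdet, ?_⟩
  rw [← GRows_ord_series _ hdet, ← GRows_length A hdet, hspan, colen]
  exact (ENat.natCast_toNat hΞ).symm

end Pool.Agent.Lib_KF
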