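import Pool.Agent.Lib_KF.GDefs
import Pool.Agent.Lib_KF.GLau
import Pool.Agent.Lib_KF.GRows
import Pool.Agent.Lib_MP_e0d435_kv.ArcDiv

/-! G5c: lower bound for the cost of an arc. -/

open PowerSeries

namespace Pool.Agent.Lib_KF

open Pool.Agent.Lib_GD Pool.Agent.Lib_MP_e0d435_kv

variable {R : Type} [CommRing R] [Algebra ℂ R] {𝒜 : ℕ → Submodule ℂ R} [GradedAlgebra 𝒜]
  {n r d : ℕ} {x : Fin (n + 1) → R} {G : R}

private theorem GUp_order {L M : Type} [Field L] [Algebra ℂ L] [Field M] [Algebra ℂ M]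
    (w : AddValuation M (WithTop ℤ)) (ι : L⟦X⟧ →ₐ[ℂ] M)
    (ho : ∀ (f : L⟦X⟧) (k : ℕ), f.order = k → ordZ w (ι f) = k) (f : L⟦X⟧) (k : ℕ)
    (h0 : ι f ≠ 0) (h1 : ordZ w (ι f) = k) : f.order = k := by
  have hf : f ≠ 0 := by
    rintro rfl
    exact h0 (map_zero ι)
  have h2 : f.order ≠ ⊤ := by
    rw [Ne, PowerSeries.order_eq_top]; exact hf
  obtain ⟨m, hm⟩ := ENat.ne_top_iff_exists.1 h2
  have h3 := ho f m hm.symm
  rw [h1] at h3
  have h4 : k = m := by exact_mod_cast h3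
  rw [h4, hm]

/-- G5c. Proof: `C₁ = ⌈1 + 2 C⌉₊ + 1`, say. `exists_rows` gives `A` with rows in `Ξ`, order of the
determinant `c = colen Ξ`; the rows are `A i l = hat (δ i) (xj (x (a.succAbove l)))`.
`exists_laurent` gives `Λ`, `ι`; `φ = ι ∘ xj`, `φ (x a) = 1`; the Jacobian of
`l ↦ φ (x (a.succAbove l)) / φ (x a)` is `ι (det A)`, of order `c`, not zero; `hmin` holds because
`ordZ (ι f) ≥ 0`. `arc_divisor_affine`: `d w₁ = 0`, so `w₁ = 0`. First case: `ordZ φ(G) = 0` and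
`ordZ φ(q) = 0`: `g = e = 0` and the claim is `c ≤ C₁ r c`. Second case: `E`, `e₀`:
`g = e₀ ord_E G`, `e = e₀ ord_E q`, `e₀ (1 + len) ≤ c`. With `A_E = logDisc E r x G > 0`,
`1 + len = A_E + ord_E G / r`: `g = e₀ r (1 + len - A_E) ≤ r c`, and
`c + e = (c - e₀ (1 + len)) + e₀ (1 + len + ord_E q) ≤ (c - e₀ (1 + len)) + e₀ (1 + C / r + C) A_E`
while `r c - g = r (c - e₀ (1 + len)) + r e₀ A_E`. -/
theorem up_arc (h : IsFano 𝒜 n r d x G) (hn : 1 ≤ n) (q : R) (k : ℕ) (hq : q ∈ 𝒜 k) (hq0 : q ≠ 0)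
    (C : ℝ) (hC0 : 0 ≤ C) (hpos : ∀ E : DivisorOver 𝒜 n 1, 0 < logDisc E r x G)
    (hCG : ∀ E : DivisorOver 𝒜 n 1, ((E.ord (E.φ 0 G)).toNat : ℝ) ≤ C * logDisc E r x G)
    (hCq : ∀ E : DivisorOver 𝒜 n 1, ((E.ord (E.φ 0 q)).toNat : ℝ) ≤ C * logDisc E r x G) :
    ∃ C₁ : ℕ, 1 ≤ C₁ ∧ ∀ (L : Type) [Field L] [Algebra ℂ L] (a : Fin (n + 1))
      (xj : R →ₐ[ℂ] L⟦X⟧), xj (x a) = 1 →
      ∀ Ξ : Submodule L⟦X⟧ (Fin n → L⟦X⟧), FinColen Ξ →
      (∀ v ∈ Ξ, ∃ δ : Derivation ℂ L L, ∀ l, v l = hat δ (xj (x (a.succAbove l)))) →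
      ∃ g e : ℕ, (xj G).order = g ∧ (xj q).order = e ∧ g ≤ r * colen Ξ ∧
        colen Ξ + e ≤ C₁ * (r * colen Ξ - g) := by
  have hr1 : (1 : ℝ) ≤ r := by exact_mod_cast h.r_pos
  have hd1 := h.d_pos
  refine ⟨⌈1 + 2 * C⌉₊ + 1, Nat.le_add_left 1 _, ?_⟩
  intro L _ _ a xj hxa Ξ hΞ hform
  have hC1 : 1 + 2 * C ≤ ((⌈1 + 2 * C⌉₊ + 1 : ℕ) : ℝ) := by
    push_cast
    linarith [Nat.le_ceil (1 + 2 * C)]
  obtain ⟨A, hA, hdet, hord⟩ := exists_rows Ξ hΞ
  choose δ hδ using fun i => hform (A i) (hA i)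
  obtain ⟨Λ, ι, hι, hιo, hιd⟩ := exists_laurent L n δ
  have hφa : (ι.comp xj) (x a) = 1 := by
    rw [AlgHom.comp_apply, hxa, map_one]
  have hjac : Λ.jac (fun l => (ι.comp xj) (x (a.succAbove l)) / (ι.comp xj) (x a)) =
      ι (Matrix.det A) := by
    have h1 := AlgHom.map_det ι A
    rw [h1, LDF.jac]
    congr 1
    ext i l
    rw [Matrix.of_apply, hφa, div_one, AlgHom.comp_apply, hιd, AlgHom.mapMatrix_apply,
      Matrix.map_apply, hδ i l]
  have hι0 : ∀ f : L⟦X⟧, f ≠ 0 → ι f ≠ 0 := fun f hf h1 => hf (hι (by rw [h1, map_zero]))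
  have hJ : Λ.jac (fun l => (ι.comp xj) (x (a.succAbove l)) / (ι.comp xj) (x a)) ≠ 0 := by
    rw [hjac]; exact hι0 _ hdet
  have hJo : ordZ Λ.w (Λ.jac (fun l => (ι.comp xj) (x (a.succAbove l)) / (ι.comp xj) (x a))) =
      (colen Ξ : ℤ) := by
    rw [hjac]; exact hιo _ _ hord
  have hmin : ∀ b, (ι.comp xj) (x b) ≠ 0 →
      ordZ Λ.w ((ι.comp xj) (x a)) ≤ ordZ Λ.w ((ι.comp xj) (x b)) := by
    intro b hb
    rw [hφa, ordZ_one, AlgHom.comp_apply]
    rw [AlgHom.comp_apply] at hb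
    have hf : xj (x b) ≠ 0 := by
      intro h1
      rw [h1, map_zero] at hb
      exact hb rfl
    have h2 : (xj (x b)).order ≠ ⊤ := by
      rw [Ne, PowerSeries.order_eq_top]; exact hf
    obtain ⟨m, hm⟩ := ENat.ne_top_iff_exists.1 h2
    rw [hιo _ m hm.symm]
    exact Int.natCast_nonneg m
  obtain ⟨w₁, hw₁, hcase⟩ := arc_divisor_affine h hn Λ (ι.comp xj) a
    (by rw [hφa]; exact one_ne_zero) hmin hJ
  have hw0 : w₁ = 0 := by
    rw [hφa, ordZ_one] at hw₁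
    have h1 : (d : ℤ) ≠ 0 := by exact_mod_cast (by omega : d ≠ 0)
    rcases mul_eq_zero.1 hw₁.symm with h2 | h2
    · exact absurd h2 h1
    · exact h2
  rw [hJo] at hcase
  rw [hw0] at hcase
  rcases hcase with ⟨h1, -⟩ | ⟨E, e₀, he₀, h1, h2⟩
  · obtain ⟨hG0, hG1⟩ := h1 _ G h.G_mem h.G_ne
    obtain ⟨hq0', hq1⟩ := h1 _ q hq hq0
    refine ⟨0, 0, GUp_order Λ.w ι hιo _ 0 hG0 ?_, GUp_order Λ.w ι hιo _ 0 hq0' ?_,
      Nat.zero_le _, ?_⟩
    · rw [AlgHom.comp_apply] at hG1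
      rw [hG1]; simp
    · rw [AlgHom.comp_apply] at hq1
      rw [hq1]; simp
    · rw [Nat.sub_zero, Nat.add_zero]
      have h3 : 1 ≤ r := h.r_pos
      calc colen Ξ = 1 * (1 * colen Ξ) := by ring
        _ ≤ (⌈1 + 2 * C⌉₊ + 1) * (r * colen Ξ) :=
          Nat.mul_le_mul (Nat.le_add_left 1 _) (Nat.mul_le_mul h3 le_rfl)
  · obtain ⟨hG0, hG1⟩ := h1 _ G h.G_mem h.G_ne
    obtain ⟨hq0', hq1⟩ := h1 _ q hq hq0
    have hE := hpos E
    have hEG := hCG E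
    have hEq := hCq E
    have hlog : logDisc E r x G = 1 + ((Module.length E.V
        (KaehlerDifferential ℂ E.V ⧸ coordSpan E x)).toNat : ℝ) -
        (1 / r : ℝ) * ((E.ord (E.φ 0 G)).toNat : ℝ) := by
      unfold logDisc
      rw [Fin.sum_univ_one]
    set γ : ℕ := (E.ord (E.φ 0 G)).toNat with hγ
    set ρ : ℕ := (E.ord (E.φ 0 q)).toNat with hρ
    set len : ℕ := (Module.length E.V
        (KaehlerDifferential ℂ E.V ⧸ coordSpan E x)).toNat with hlen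
    set AE : ℝ := logDisc E r x G with hAE
    have h2' : (e₀ : ℝ) * (1 + len) ≤ colen Ξ := by exact_mod_cast h2
    have he₀' : (1 : ℝ) ≤ e₀ := by exact_mod_cast he₀
    have hγr : (γ : ℝ) = r * (1 + len) - r * AE := by
      rw [hlog]
      field_simp
      ring
    have hgr : (e₀ : ℝ) * γ = r * (e₀ * (1 + len)) - r * (e₀ * AE) := by
      rw [hγr]; ring
    have hrA : 0 ≤ (r : ℝ) * (e₀ * AE) := by positivity
    have hle1 : (e₀ : ℝ) * γ ≤ r * colen Ξ := by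
      rw [hgr]
      nlinarith
    have hle1' : e₀ * γ ≤ r * colen Ξ := by exact_mod_cast hle1
    refine ⟨e₀ * γ, e₀ * ρ, GUp_order Λ.w ι hιo _ _ hG0 ?_, GUp_order Λ.w ι hιo _ _ hq0' ?_,
      hle1', ?_⟩
    · rw [AlgHom.comp_apply] at hG1
      rw [hG1]; push_cast; ring
    · rw [AlgHom.comp_apply] at hq1
      rw [hq1]; push_cast; ring
    · have key : (colen Ξ : ℝ) + e₀ * ρ ≤
          ((⌈1 + 2 * C⌉₊ + 1 : ℕ) : ℝ) * (r * colen Ξ - e₀ * γ) := by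
        set K : ℝ := ((⌈1 + 2 * C⌉₊ + 1 : ℕ) : ℝ) with hK
        have hK1 : 1 ≤ K := by linarith
        have hlen1 : (1 : ℝ) + len ≤ (1 + C) * AE := by
          have e1 : (1 : ℝ) + len = AE + (1 / r) * γ := by rw [hlog]; ring
          have e2 : (1 / r : ℝ) * γ ≤ 1 * γ := by
            apply mul_le_mul_of_nonneg_right _ (Nat.cast_nonneg γ)
            rw [div_le_one (by linarith)]
            exact hr1
          rw [e1]
          linarith
        have hlen2 : (1 : ℝ) + len + ρ ≤ K * AE := by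
          have e1 : (1 + 2 * C) * AE ≤ K * AE := mul_le_mul_of_nonneg_right hC1 hE.le
          linarith
        have hlen3 : (e₀ : ℝ) * (1 + len + ρ) ≤ K * (r * (e₀ * AE)) := by
          have e1 : (e₀ : ℝ) * (1 + len + ρ) ≤ e₀ * (K * AE) :=
            mul_le_mul_of_nonneg_left hlen2 (by linarith)
          have e2 : (0 : ℝ) ≤ K * (e₀ * AE) := by positivity
          nlinarith
        have hrest : (colen Ξ : ℝ) - e₀ * (1 + len) ≤
            K * (r * (colen Ξ - e₀ * (1 + len))) := by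
          have e0 : (0 : ℝ) ≤ colen Ξ - e₀ * (1 + len) := by linarith
          have e1 : (colen Ξ : ℝ) - e₀ * (1 + len) ≤ r * (colen Ξ - e₀ * (1 + len)) := by
            nlinarith
          have e2 : (r : ℝ) * (colen Ξ - e₀ * (1 + len)) ≤
              K * (r * (colen Ξ - e₀ * (1 + len))) := by
            have e3 : (0 : ℝ) ≤ r * (colen Ξ - e₀ * (1 + len)) := by linarith
            nlinarith
          linarith
        rw [hgr]
        calc (colen Ξ : ℝ) + e₀ * ρ = (colen Ξ - e₀ * (1 + len)) + e₀ * (1 + len + ρ) := by ring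
          _ ≤ K * (r * (colen Ξ - e₀ * (1 + len))) + K * (r * (e₀ * AE)) :=
            add_le_add hrest hlen3
          _ = K * (r * colen Ξ - (r * (e₀ * (1 + len)) - r * (e₀ * AE))) := by ring
      have h5 : (((colen Ξ + e₀ * ρ : ℕ)) : ℝ) ≤
          (((⌈1 + 2 * C⌉₊ + 1) * (r * colen Ξ - e₀ * γ) : ℕ) : ℝ) := by
        rw [Nat.cast_mul, Nat.cast_sub hle1']
        push_cast at key ⊢
        linarith
      exact_mod_cast h5

end Pool.Agent.Lib_KF
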