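import Pool.Agent.Lib_KF.PBJ
import Pool.Agent.Lib_KF.POrdFacts

/-! Uniform positivity of log discrepancies from `δ > 0`. -/

open scoped ENNReal NNReal

namespace Pool.Agent.Lib_KF

open Pool.Agent.Lib_GD

variable {R : Type} [CommRing R] [Algebra ℂ R] {𝒜 : ℕ → Submodule ℂ R} [GradedAlgebra 𝒜]
  {n r d : ℕ} {x : Fin (n + 1) → R} {G : R}

/-- a basis containing a given non-zero section -/
theorem exists_basis_mem (h : IsPol 𝒜 n) (m : ℕ) (s : R) (hs : s ∈ 𝒜 m) (hs0 : s ≠ 0) :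
    ∃ b : Fin (secDim 𝒜 m) → R, (∀ i, b i ∈ 𝒜 m) ∧ LinearIndependent ℂ b ∧ ∃ i, b i = s := by
  classical
  have hfin := finite_gradedP h m
  let v : 𝒜 m := ⟨s, hs⟩
  have hv : v ≠ 0 := fun h0 => hs0 (congrArg Subtype.val h0)
  have hli : LinearIndepOn ℂ id ({v} : Set (𝒜 m)) := LinearIndepOn.singleton hv
  let B := Module.Basis.extend hli
  have hmem : v ∈ hli.extend (Set.subset_univ _) :=
    hli.subset_extend _ rfl
  have : Finite (hli.extend (Set.subset_univ _)) := Module.Finite.finite_basis B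
  have : Fintype (hli.extend (Set.subset_univ _)) := Fintype.ofFinite _
  have hcard : Fintype.card (hli.extend (Set.subset_univ _)) = secDim 𝒜 m :=
    (Module.finrank_eq_card_basis B).symm
  let e := Fintype.equivFinOfCardEq hcard
  refine ⟨fun i => (B (e.symm i) : R), fun i => (B (e.symm i)).2, ?_, e ⟨v, hmem⟩, ?_⟩
  · have h1 : LinearIndependent ℂ (fun i => B (e.symm i)) :=
      B.linearIndependent.comp _ e.symm.injective
    exact h1.map' (𝒜 m).subtype (Submodule.ker_subtype _)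
  · simp only [Equiv.symm_apply_apply]
    rw [Module.Basis.extend_apply_self]

/-- the sum of the orders in terms of the log discrepancy -/
theorem sum_ord_le_logDisc (h : IsFano 𝒜 n r d x G) (hklt : IsKltVar 𝒜 n r x G) (D : ℝ≥0)
    (hD : 0 < D)
    (hE : ∀ E : DivisorOver 𝒜 n 1, (D : ℝ≥0∞) * (E.S 𝒜 / r) ≤ ENNReal.ofReal (logDisc E r x G))
    (hn : 1 ≤ n) (ε : ℝ) (hε : 0 < ε) :
    ∃ m₁ : ℕ, ∀ m, m₁ ≤ m → ∀ (E : DivisorOver 𝒜 n 1) (b : Fin (secDim 𝒜 m) → R),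
      (∀ i, b i ∈ 𝒜 m) → LinearIndependent ℂ b →
      (D : ℝ) * ((∑ i, (E.ord (E.φ 0 (b i))).toNat : ℕ) : ℝ) ≤
        (1 + ε) * (m * secDim 𝒜 m) * r * logDisc E r x G := by
  obtain ⟨m₁, hm₁⟩ := sum_ord_leP h.isPol hn ε hε
  refine ⟨m₁, fun m hm E b hb hli => ?_⟩
  have h1 := hm₁ m hm E b hb hli
  have h2 := hE E
  have hr0 : (r : ℝ≥0∞) ≠ 0 := by
    have := h.r_pos
    exact_mod_cast (by omega : r ≠ 0)
  have hrt : (r : ℝ≥0∞) ≠ ⊤ := ENNReal.natCast_ne_top r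
  have h3 : (D : ℝ≥0∞) * E.S 𝒜 ≤ r * ENNReal.ofReal (logDisc E r x G) := by
    calc (D : ℝ≥0∞) * E.S 𝒜 = r * (D * (E.S 𝒜 / r)) := by
          rw [mul_left_comm, ENNReal.mul_div_cancel hr0 hrt]
      _ ≤ _ := by gcongr
  have h4 : (D : ℝ≥0∞) * ((∑ i, (E.ord (E.φ 0 (b i))).toNat : ℕ) : ℝ≥0∞) ≤
      ENNReal.ofReal (1 + ε) * ((m * secDim 𝒜 m : ℕ) : ℝ≥0∞) *
        (r * ENNReal.ofReal (logDisc E r x G)) := by
    calc (D : ℝ≥0∞) * ((∑ i, (E.ord (E.φ 0 (b i))).toNat : ℕ) : ℝ≥0∞)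
        ≤ D * (ENNReal.ofReal (1 + ε) * ((m * secDim 𝒜 m : ℕ) : ℝ≥0∞) * E.S 𝒜) := by gcongr
      _ = ENNReal.ofReal (1 + ε) * ((m * secDim 𝒜 m : ℕ) : ℝ≥0∞) * (D * E.S 𝒜) := by ring
      _ ≤ _ := by gcongr
  have h5 := ENNReal.toReal_mono (by
    refine ENNReal.mul_ne_top (ENNReal.mul_ne_top ENNReal.ofReal_ne_top ?_)
      (ENNReal.mul_ne_top hrt ENNReal.ofReal_ne_top)
    exact ENNReal.natCast_ne_top _) h4
  rw [ENNReal.toReal_mul, ENNReal.toReal_mul, ENNReal.toReal_mul, ENNReal.toReal_mul,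
    ENNReal.coe_toReal, ENNReal.toReal_natCast, ENNReal.toReal_natCast, ENNReal.toReal_natCast,
    ENNReal.toReal_ofReal (by linarith), ENNReal.toReal_ofReal (hklt E).le] at h5
  push_cast at h5 ⊢
  linarith

/-- The order of a fixed section is at most a constant times the log discrepancy. -/
theorem ord_le_logDisc (h : IsFano 𝒜 n r d x G) (hklt : IsKltVar 𝒜 n r x G) (D : ℝ≥0)
    (hD : 0 < D)
    (hE : ∀ E : DivisorOver 𝒜 n 1, (D : ℝ≥0∞) * (E.S 𝒜 / r) ≤ ENNReal.ofReal (logDisc E r x G))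
    (hn : 1 ≤ n) (j : ℕ) (hj : 1 ≤ j) (Q : R) (hQ : Q ∈ 𝒜 j) (hQ0 : Q ≠ 0) :
    ∃ C : ℝ, 0 < C ∧ ∀ E : DivisorOver 𝒜 n 1,
      ((E.ord (E.φ 0 Q)).toNat : ℝ) ≤ C * logDisc E r x G := by
  have hdom := h.domain
  obtain ⟨m₁, hm₁⟩ := sum_ord_le_logDisc h hklt D hD hE hn 1 one_pos
  set k := m₁ + 1 with hk
  have hm : m₁ ≤ k * j := by nlinarith
  have hQk : Q ^ k ∈ 𝒜 (k * j) := by
    have := SetLike.pow_mem_graded (A := 𝒜) k hQ
    rwa [smul_eq_mul] at this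
  have hQk0 : Q ^ k ≠ 0 := pow_ne_zero _ hQ0
  obtain ⟨b, hb, hbi, i₀, hi₀⟩ := exists_basis_mem h.isPol (k * j) (Q ^ k) hQk hQk0
  have hD' : (0 : ℝ) < D := by exact_mod_cast hD
  have hN : 0 < secDim 𝒜 (k * j) := Fin.pos i₀
  have hr := h.r_pos
  refine ⟨(1 + 1) * ((k * j : ℕ) * secDim 𝒜 (k * j)) * r / D, ?_, fun E => ?_⟩
  · have h1 : (0 : ℝ) < (k * j : ℕ) := by
      have : 0 < k * j := Nat.mul_pos (by omega) hj
      exact_mod_cast this
    have h2 : (0 : ℝ) < secDim 𝒜 (k * j) := by exact_mod_cast hN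
    have h3 : (0 : ℝ) < r := by exact_mod_cast hr
    positivity
  · have h1 := hm₁ (k * j) hm E b hb hbi
    have h2 : (E.ord (E.φ 0 Q)).toNat ≤ ∑ i, (E.ord (E.φ 0 (b i))).toNat := by
      refine le_trans ?_ (Finset.single_le_sum (f := fun i => (E.ord (E.φ 0 (b i))).toNat)
        (fun i _ => Nat.zero_le _) (Finset.mem_univ i₀))
      simp only [hi₀, map_pow]
      have h3 : E.ord (E.φ 0 Q ^ k) = k * E.ord (E.φ 0 Q) := by
        unfold DivisorOver.ord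
        rw [AddValuation.map_pow]
        simp
      rw [h3]
      by_cases htop : E.ord (E.φ 0 Q) = ⊤
      · rw [htop]
        simp
      · obtain ⟨o, ho⟩ := ENat.ne_top_iff_exists.1 htop
        rw [← ho]
        have : ((k : ℕ∞) * (o : ℕ∞)) = ((k * o : ℕ) : ℕ∞) := by push_cast; rfl
        rw [this, ENat.toNat_natCast, ENat.toNat_natCast]
        exact Nat.le_mul_of_pos_left o (by omega)
    have h4 : ((E.ord (E.φ 0 Q)).toNat : ℝ) ≤
        ((∑ i, (E.ord (E.φ 0 (b i))).toNat : ℕ) : ℝ) := by exact_mod_cast h2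
    rw [div_mul_eq_mul_div, le_div_iff₀ hD']
    calc ((E.ord (E.φ 0 Q)).toNat : ℝ) * D ≤
        ((∑ i, (E.ord (E.φ 0 (b i))).toNat : ℕ) : ℝ) * D := by gcongr
      _ = D * ((∑ i, (E.ord (E.φ 0 (b i))).toNat : ℕ) : ℝ) := mul_comm _ _
      _ ≤ _ := h1

end Pool.Agent.Lib_KF
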