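import Pool.Agent.Lib_KF.GArcDefs
import Pool.Agent.Lib_KF.GUp
import Pool.Agent.Lib_KF.UPF
import Pool.Agent.Lib_GD.Cost

/-! G5d: hypothesis (HUP). -/

open PowerSeries
open scoped ENNReal NNReal

namespace Pool.Agent.Lib_KF

open Pool.Agent.Lib_GD

variable {R : Type} [CommRing R] [Algebra ℂ R] {𝒜 : ℕ → Submodule ℂ R} [GradedAlgebra 𝒜]
  {n r d : ℕ} {x : Fin (n + 1) → R} {G : R}

/-- `T.h` is homogeneous. -/
theorem h_mem (h : IsFano 𝒜 n r d x G) (T : DerData x) : T.h ∈ 𝒜 (T.wt * d) := by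
  rw [DerData.h, MvPolynomial.aeval_def, MvPolynomial.eval₂_eq']
  refine Submodule.sum_mem _ fun m hm => ?_
  rw [← Algebra.smul_def]
  refine Submodule.smul_mem _ _ ?_
  have h1 : ∏ i, x i ^ m i ∈ 𝒜 (∑ i, m i • d) :=
    SetLike.prod_mem_graded 𝒜 (fun i => m i • d) (fun i => x i ^ m i)
      (fun i _ => SetLike.pow_mem_graded (m i) (h.x_mem i))
  have h2 : ∑ i, m i • d = T.wt * d := by
    have h3 := T.hp_hom (MvPolynomial.mem_support_iff.1 hm)
    rw [Finsupp.weight_apply, Finsupp.sum_fintype _ _ (by simp)] at h3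
    rw [← h3, Finset.sum_mul]
    simp
  rw [h2] at h1
  exact h1

/-- `T.h ≠ 0`. -/
theorem h_ne (h : IsFano 𝒜 n r d x G) (T : DerData x) : T.h ≠ 0 := by
  intro h0
  exact T.hp_ne (h.x_indep (by rw [map_zero]; exact h0))

/-- The order of `T.h` is bounded by the log discrepancy. -/
private theorem GHup_h (h : IsFano 𝒜 n r d x G) (hn : 1 ≤ n) (hklt : IsKltVar 𝒜 n r x G)
    (D : ℝ≥0) (hD : 0 < D)
    (hE : ∀ E : DivisorOver 𝒜 n 1, (D : ℝ≥0∞) * (E.S 𝒜 / r) ≤ ENNReal.ofReal (logDisc E r x G))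
    (T : DerData x) : ∃ C : ℝ, 0 < C ∧ ∀ E : DivisorOver 𝒜 n 1,
      ((E.ord (E.φ 0 T.h)).toNat : ℝ) ≤ C * logDisc E r x G := by
  rcases Nat.eq_zero_or_pos T.wt with h0 | h0
  · refine ⟨1, one_pos, fun E => ?_⟩
    have h1 : T.hp.totalDegree = 0 := by
      have := T.hp_hom.totalDegree T.hp_ne
      rw [this, h0]
    have h2 := MvPolynomial.totalDegree_eq_zero_iff_eq_C.1 h1
    have h3 : T.h = algebraMap ℂ R (MvPolynomial.coeff 0 T.hp) := by
      rw [DerData.h, h2, MvPolynomial.aeval_C]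
      simp
    have h4 : MvPolynomial.coeff 0 T.hp ≠ 0 := by
      intro hc
      apply T.hp_ne
      rw [h2, hc, map_zero]
    have h5 : E.ord (E.φ 0 T.h) = 0 := by
      unfold DivisorOver.ord
      rw [h3, AlgHom.commutes]
      exact IsDiscreteValuationRing.addVal_eq_zero_of_unit
        ((IsUnit.mk0 _ h4).map (algebraMap ℂ E.V)).unit
    rw [h5]
    have := (hklt E).le
    simpa using this
  · exact ord_le_logDisc h hklt D hD hE hn (T.wt * d) (Nat.mul_pos h0 h.d_pos) T.h (h_mem h T)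
      (h_ne h T)

/-- G5d. Proof: constants from `ord_le_logDisc` (UPF.lean) for `G` (degree `r d (n+1) - 1 ≥ 1` as
`n ≥ 1`) and for `T.h` (if `T.wt = 0` then `T.h` is a constant, of order `0`); `up_arc` with
`q = T.h` gives `C₁`. For `D`, `j`, `S`: `Ξ = Γ.base.Xirel j S`, of finite colength
(`finColen_Xirel`), its elements are `Γ.ξ δ j` (`mem_Xirel`), `xi_eq`; `G_order`, `h_order`,
`r_eq`. -/
theorem hup (h : IsFano 𝒜 n r d x G) (hn : 1 ≤ n) (hklt : IsKltVar 𝒜 n r x G) (D : ℝ≥0)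
    (hD : 0 < D)
    (hE : ∀ E : DivisorOver 𝒜 n 1, (D : ℝ≥0∞) * (E.S 𝒜 / r) ≤ ENNReal.ofReal (logDisc E r x G))
    (T : DerData x) :
    ∃ C₁ : ℕ, 1 ≤ C₁ ∧ ∀ (m : ℕ) (L : Type) [Field L] [Algebra ℂ L]
      (Γ : ArcSys L n (secDim 𝒜 m)), ArcDat 𝒜 T r G m Γ → Γ.HUP C₁ := by
  have hdeg : 1 ≤ r * d * (n + 1) - 1 := by
    have h1 : 1 ≤ r * d := Nat.mul_pos h.r_pos h.d_pos
    have h2 : 2 ≤ r * d * (n + 1) := by nlinarith
    omega
  obtain ⟨CG, hCG0, hCG⟩ := ord_le_logDisc h hklt D hD hE hn _ hdeg G h.G_mem h.G_ne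
  obtain ⟨Ch, hCh0, hCh⟩ := GHup_h h hn hklt D hD hE T
  obtain ⟨C₁, hC₁, hup⟩ := up_arc h hn T.h (T.wt * d) (h_mem h T) (h_ne h T) (CG + Ch)
    (by positivity) hklt
    (fun E => (hCG E).trans (mul_le_mul_of_nonneg_right (by linarith) (hklt E).le))
    (fun E => (hCh E).trans (mul_le_mul_of_nonneg_right (by linarith) (hklt E).le))
  refine ⟨C₁, hC₁, ?_⟩
  intro m L _ _ Γ Dt j S hj
  obtain ⟨g, e, hg, he, hgr, hce⟩ := hup L (Dt.a j) (Dt.arc j) (Dt.arc_x j) (Γ.base.Xirel j S)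
    (Γ.base.finColen_Xirel j S hj) (by
      intro v hv
      obtain ⟨δ, -, rfl⟩ := (Γ.base.mem_Xirel j S v).1 hv
      exact ⟨δ, fun l => Dt.xi_eq δ j l⟩)
  have hg' : g = Γ.g j := by
    have := hg.symm.trans (Dt.G_order j)
    exact_mod_cast this
  have he' : e = Γ.e j := by
    have := he.symm.trans (Dt.h_order j)
    exact_mod_cast this
  subst hg' he'
  have hr := Dt.r_eq
  have hcost : Γ.cost j S = colen (Γ.base.Xirel j S) := rfl
  refine ⟨?_, ?_⟩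
  · rw [hcost, hr]
    exact hgr
  · rw [ArcSys.cc, hcost, hr]
    exact hce

end Pool.Agent.Lib_KF
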