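import Pool.Agent.Lib_KF.GLau
import Pool.Agent.Lib_KF.GRows
import Pool.Agent.Lib_MP_e0d435_kv.ArcDiv

/-! G4e: homogeneous elements do not vanish on an arc with enough derivations. -/

open PowerSeries

namespace Pool.Agent.Lib_KF

open Pool.Agent.Lib_GD Pool.Agent.Lib_MP_e0d435_kv

variable {R : Type} [CommRing R] [Algebra ℂ R] {𝒜 : ℕ → Submodule ℂ R} [GradedAlgebra 𝒜]
  {n r d : ℕ} {x : Fin (n + 1) → R} {G : R}

/-- G4e. Proof: as the beginning of `up_arc` (GUp.lean): `exists_rows`, `exists_laurent`,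
`arc_divisor_affine`, which gives `φ s ≠ 0` for `s ≠ 0` homogeneous, `φ = ι ∘ xj`. -/
theorem arc_inj (h : IsFano 𝒜 n r d x G) (hn : 1 ≤ n) {L : Type} [Field L] [Algebra ℂ L]
    (a : Fin (n + 1)) (xj : R →ₐ[ℂ] L⟦X⟧) (hx : xj (x a) = 1)
    (Ξ : Submodule L⟦X⟧ (Fin n → L⟦X⟧)) (hΞ : FinColen Ξ)
    (hΞ' : ∀ v ∈ Ξ, ∃ δ : Derivation ℂ L L, ∀ l, v l = hat δ (xj (x (a.succAbove l))))
    (k : ℕ) (s : R) (hs : s ∈ 𝒜 k) (h0 : xj s = 0) : s = 0 := by
  by_contra hs0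
  obtain ⟨A, hA, hdet, -⟩ := exists_rows Ξ hΞ
  choose δ hδ using fun i => hΞ' (A i) (hA i)
  obtain ⟨Λ, ι, hι, hιo, hιd⟩ := exists_laurent L n δ
  have hφa : (ι.comp xj) (x a) = 1 := by
    rw [AlgHom.comp_apply, hx, map_one]
  have hjac : Λ.jac (fun l => (ι.comp xj) (x (a.succAbove l)) / (ι.comp xj) (x a)) =
      ι (Matrix.det A) := by
    have h1 := AlgHom.map_det ι A
    rw [h1, LDF.jac]
    congr 1
    ext i l
    rw [Matrix.of_apply, hφa, div_one, AlgHom.comp_apply, hιd, AlgHom.mapMatrix_apply,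
      Matrix.map_apply, hδ i l]
  have hJ : Λ.jac (fun l => (ι.comp xj) (x (a.succAbove l)) / (ι.comp xj) (x a)) ≠ 0 := by
    rw [hjac]
    exact fun h1 => hdet (hι (by rw [h1, map_zero]))
  have hmin : ∀ b, (ι.comp xj) (x b) ≠ 0 →
      ordZ Λ.w ((ι.comp xj) (x a)) ≤ ordZ Λ.w ((ι.comp xj) (x b)) := by
    intro b hb
    rw [hφa, ordZ_one, AlgHom.comp_apply]
    rw [AlgHom.comp_apply] at hb
    have hf : xj (x b) ≠ 0 := by
      intro h1
      rw [h1, map_zero] at hb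
      exact hb rfl
    have h2 : (xj (x b)).order ≠ ⊤ := by
      rw [Ne, PowerSeries.order_eq_top]; exact hf
    obtain ⟨m, hm⟩ := ENat.ne_top_iff_exists.1 h2
    rw [hιo _ m hm.symm]
    exact Int.natCast_nonneg m
  obtain ⟨w₁, -, hcase⟩ := arc_divisor_affine h hn Λ (ι.comp xj) a
    (by rw [hφa]; exact one_ne_zero) hmin hJ
  have h3 : (ι.comp xj) s ≠ 0 := by
    rcases hcase with ⟨h1, -⟩ | ⟨E, e₀, -, h1, -⟩
    · exact (h1 k s hs hs0).1
    · exact (h1 k s hs hs0).1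
  rw [AlgHom.comp_apply, h0, map_zero] at h3
  exact h3 rfl

end Pool.Agent.Lib_KF
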