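import Mathlib

/-! G4b: roots of units of `L⟦X⟧`. -/

open PowerSeries

namespace Pool.Agent.Lib_KF

private theorem GRoot_pow {L : Type} [Field L] [CharZero L] (a : ℚ) (k : ℕ) :
    (binomialSeries L a) ^ k = binomialSeries L ((k : ℚ) * a) := by
  induction k with
  | zero => simp
  | succ k ih =>
    rw [pow_succ, ih, ← binomialSeries_add]
    congr 1
    push_cast
    ring

/-- G4b. Proof: a `d`-th root `c` of the constant coefficient exists (`IsAlgClosed.exists_pow_nat_eq`);
then solve `v ^ d = u` coefficient by coefficient: Hensel's lemma for the `X`-adically complete ring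
`L⟦X⟧` (`HenselianLocalRing` / `IsAdicComplete`), as `d c ^ (d-1) ≠ 0`; or by recursion on the
coefficients; or the binomial series. -/
theorem exists_root_series {L : Type} [Field L] [IsAlgClosed L] [CharZero L] (d : ℕ) (hd : 1 ≤ d)
    (u : L⟦X⟧) (hu : IsUnit u) : ∃ v : L⟦X⟧, IsUnit v ∧ v ^ d = u := by
  have hc0 : constantCoeff u ≠ 0 := by
    intro h
    have := hu.map (constantCoeff (R := L))
    rw [h] at this
    exact not_isUnit_zero this
  obtain ⟨c, hc⟩ := IsAlgClosed.exists_pow_nat_eq (constantCoeff u) (by omega : 0 < d)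
  set w : L⟦X⟧ := C (constantCoeff u)⁻¹ * u - 1 with hw
  have hw0 : constantCoeff w = 0 := by
    rw [hw, map_sub, map_mul, constantCoeff_C, map_one, inv_mul_cancel₀ hc0, sub_self]
  have hs : HasSubst w := HasSubst.of_constantCoeff_zero' hw0
  have hb : (binomialSeries L ((1 : ℚ) / d)) ^ d = 1 + X := by
    rw [GRoot_pow, mul_one_div_cancel (by positivity)]
    have := binomialSeries_nat (R := ℚ) (A := L) 1
    simpa using this
  have h1 : (substAlgHom (R := L) hs (binomialSeries L ((1 : ℚ) / d))) ^ d = 1 + w := by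
    rw [← map_pow, hb, map_add, map_one, substAlgHom_X]
  set b : L⟦X⟧ := substAlgHom (R := L) hs (binomialSeries L ((1 : ℚ) / d)) with hbdef
  have h2 : b ^ d = 1 + w := h1
  have hv : (C c * b) ^ d = u := by
    rw [mul_pow, ← map_pow, hc, h2, hw, add_sub_cancel, ← mul_assoc, ← map_mul,
      mul_inv_cancel₀ hc0, map_one, one_mul]
  refine ⟨C c * b, ?_, hv⟩
  rw [← hv] at hu
  exact (isUnit_pow_iff (by omega)).1 hu

end Pool.Agent.Lib_KF
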