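import Pool.Agent.Lib_KF.GArcCl
import Pool.Agent.Lib_GD.ArcColen
import Pool.Agent.Lib_GD.ArcPull

/-! G4d: the values of the derivations along the generic arc. -/

open PowerSeries

namespace Pool.Agent.Lib_KF

open Pool.Agent.Lib_GD

/-- Derivations of `L` on the image of `Φ`. -/
private theorem GXi_hat {V : Type} [CommRing V] [Algebra ℂ V] {r : ℕ} {t : V}
    {w : Fin r → V} {δt : Derivation ℂ V V} {δ : Fin r → Derivation ℂ V V}
    (h5 : ∀ f, KaehlerDifferential.D ℂ V f = δt f • KaehlerDifferential.D ℂ V t +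
        ∑ l, δ l f • KaehlerDifferential.D ℂ V (w l))
    {L : Type} [Field L] [Algebra ℂ L] (Φ : V →ₐ[ℂ] L⟦X⟧) (d : Derivation ℂ L L) (f : V) :
    hat d (Φ f) = Φ (δt f) * hat d (Φ t) + ∑ l, Φ (δ l f) * hat d (Φ (w l)) := by
  let _ : Module V L⟦X⟧ := Module.compHom L⟦X⟧ Φ.toRingHom
  have hsm : ∀ (b : V) (f : L⟦X⟧), b • f = Φ b * f := fun _ _ => rfl
  have _ : IsScalarTower ℂ V L⟦X⟧ := ⟨fun z b f => by
    rw [hsm, hsm, map_smul, smul_mul_assoc]⟩
  let D : Derivation ℂ V L⟦X⟧ :=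
    { toFun := fun b => hat d (Φ b)
      map_add' := fun a b => by
        ext k; simp [hat]
      map_smul' := fun z b => by
        ext k; simp [hat]
      map_one_eq_zero' := by
        change hat d (Φ 1) = 0
        ext k
        rw [map_one, hat, PowerSeries.coeff_mk, PowerSeries.coeff_one]
        split_ifs <;> simp
      leibniz' := fun a b => by
        change hat d (Φ (a * b)) = a • hat d (Φ b) + b • hat d (Φ a)
        rw [hsm, hsm, map_mul, hat_mul, mul_comm (hat d (Φ a))] }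
  have h := congrArg D.liftKaehlerDifferential (h5 f)
  rw [map_add, map_sum, map_smul, Derivation.liftKaehlerDifferential_comp_D,
    Derivation.liftKaehlerDifferential_comp_D] at h
  have h' : D f = δt f • D t + ∑ l, δ l f • D (w l) := by
    rw [h]
    congr 1
    refine Finset.sum_congr rfl fun l _ => ?_
    rw [map_smul, Derivation.liftKaehlerDifferential_comp_D]
  exact h'

private theorem GXi_length {A P Q : Type} [CommRing A] [AddCommGroup P] [Module A P]
    [AddCommGroup Q] [Module A Q] (e : P ≃ₗ[A] Q) (M : Submodule A P) (M' : Submodule A Q)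
    (h : M.map (e : P →ₗ[A] Q) = M') :
    Module.length A (P ⧸ M) = Module.length A (Q ⧸ M') :=
  (Submodule.Quotient.equiv M M' e h).length_eq

/-- The submodule of the values of the derivations. -/
private def GXi_Xi {L : Type} [Field L] {r N n : ℕ}
    (J : Fin N × Fin n → Option (Fin r) → L⟦X⟧) :
    Submodule L⟦X⟧ (Fin N → Fin n → L⟦X⟧) where
  carrier := {v | ∃ ζ : Option (Fin r) → L⟦X⟧, X ∣ ζ none ∧
    ∀ j l, v j l = ∑ q, ζ q * J (j, l) q}
  add_mem' := by
    rintro a b ⟨ζ, hζ, h⟩ ⟨ζ', hζ', h'⟩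
    refine ⟨ζ + ζ', dvd_add hζ hζ', fun j l => ?_⟩
    rw [Pi.add_apply, Pi.add_apply, h, h', ← Finset.sum_add_distrib]
    exact Finset.sum_congr rfl fun q _ => by rw [Pi.add_apply, add_mul]
  zero_mem' := ⟨0, dvd_zero _, fun j l => by simp⟩
  smul_mem' := by
    rintro c a ⟨ζ, hζ, h⟩
    refine ⟨c • ζ, Dvd.dvd.mul_left hζ c, fun j l => ?_⟩
    rw [Pi.smul_apply, Pi.smul_apply, h, smul_eq_mul, Finset.mul_sum]
    exact Finset.sum_congr rfl fun q _ => by rw [Pi.smul_apply, smul_eq_mul, mul_assoc]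

/-- G4d. Proof: this is a part of the proof of `exists_arcSystem` (Lib_GD/ArcBuild.lean, with
`exists_generic_arc_closed` instead of `exists_generic_arc` and `y j l` instead of
`ψ j ((a.chart (k j)).y l)`): `exists_dvr_coords`, `exists_dvr_der`, the matrix
`J (j, l) q = δ_q (y j l)`, `Ξ = ArcBuild_Xi`, `colen_of_matrix` (copy the private lemmas). -/
theorem exists_Xi (V : Type) [CommRing V] [IsDomain V] [IsDiscreteValuationRing V]
    [Algebra ℂ V] [Algebra.EssFiniteType ℂ V] (n N : ℕ) (hn : 1 ≤ n) (hN : 1 ≤ N)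
    (htr : Algebra.trdeg ℂ V = (n * N : ℕ)) (y : Fin N → Fin n → V)
    (hfin : Module.length V (KaehlerDifferential ℂ V ⧸ Submodule.span V
      (Set.range fun p : Fin N × Fin n => KaehlerDifferential.D ℂ V (y p.1 p.2))) ≠ ⊤) :
    ∃ (L : Type) (_ : Field L) (_ : IsAlgClosed L) (_ : Algebra ℂ L) (Φ : V →ₐ[ℂ] L⟦X⟧)
      (Ξ : Submodule L⟦X⟧ (Fin N → Fin n → L⟦X⟧)),
      (∀ f, (Φ f).order = IsDiscreteValuationRing.addVal V f) ∧
      (∀ v, v ∈ Ξ ↔ ∃ δ : Derivation ℂ L L, ∀ j l, hat δ (Φ (y j l)) = v j l) ∧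
      FinColen Ξ ∧
      colen Ξ = 1 + (Module.length V (KaehlerDifferential ℂ V ⧸ Submodule.span V
        (Set.range fun p : Fin N × Fin n => KaehlerDifferential.D ℂ V (y p.1 p.2)))).toNat := by
  classical
  obtain ⟨r, hr⟩ : ∃ r, n * N = r + 1 :=
    ⟨n * N - 1, (Nat.sub_add_cancel (Nat.mul_pos hn hN)).symm⟩
  have htr' : Algebra.trdeg ℂ V = (r + 1 : ℕ) := by rw [htr, hr]
  obtain ⟨t, w, b, ht, hb, hb'⟩ := exists_dvr_coords V r htr'
  obtain ⟨δt, δ, h1, h2, h3, h4, h5, h6, h7⟩ := exists_dvr_der V r t w b hb hb'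
  obtain ⟨L, _, hcl, _, Φ, hΦ, hreal⟩ :=
    exists_generic_arc_closed V r t w ht δt δ h1 h2 h3 h4 h5 h6 h7
  -- the Jacobian matrix
  set J : Fin N × Fin n → Option (Fin r) → V := fun p q =>
    match q with
    | none => δt (y p.1 p.2)
    | some l => δ l (y p.1 p.2) with hJ
  have hhat : ∀ (d : Derivation ℂ L L) (j : Fin N) (l : Fin n),
      hat d (Φ (y j l)) =
        ∑ q, (match q with | none => hat d (Φ t) | some i => hat d (Φ (w i))) *
          Φ (J (j, l) q) := by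
    intro d j l
    rw [GXi_hat h5 Φ d, Fintype.sum_option]
    simp only [hJ]
    congr 1
    · exact mul_comm _ _
    · exact Finset.sum_congr rfl fun i _ => mul_comm _ _
  have hXt : ∀ d : Derivation ℂ L L, X ∣ hat d (Φ t) := by
    intro d
    have h0 : (X : L⟦X⟧) ^ 1 ∣ Φ t := by
      rw [PowerSeries.X_pow_dvd_iff]
      intro i hi
      apply PowerSeries.coeff_of_lt_order
      rw [hΦ, IsDiscreteValuationRing.addVal_uniformizer ht]
      exact_mod_cast hi
    have := X_pow_dvd_hat d h0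
    rwa [pow_one] at this
  -- colengths
  set M : Submodule L⟦X⟧ (Fin N → Fin n → L⟦X⟧) :=
    GXi_Xi (fun p q => Φ (J p q)) with hM
  let cur : (Fin N → Fin n → L⟦X⟧) ≃ₗ[L⟦X⟧]
      (Fin N × Fin n → L⟦X⟧) := (LinearEquiv.curry L⟦X⟧ L⟦X⟧ _ _).symm
  obtain ⟨a₀, ha₀⟩ := ENat.ne_top_iff_exists.1 hfin
  have hlen : Module.length V ((Option (Fin r) → V) ⧸ Submodule.span V (Set.range J))
      = a₀ := by
    rw [ha₀]
    symm
    apply GXi_length b.equivFun
    rw [Submodule.map_span, ← Set.range_comp]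
    congr 1
    congr 1
    funext p
    have h8 : b.equivFun.symm (J p) = KaehlerDifferential.D ℂ V (y p.1 p.2) := by
      rw [b.equivFun_symm_apply, Fintype.sum_option, hb, h5 (y p.1 p.2)]
      simp only [hb', hJ]
    rw [Function.comp_apply, ← h8]
    exact b.equivFun.apply_symm_apply _
  have hcard : Fintype.card (Fin N × Fin n) = r + 1 := by
    rw [Fintype.card_prod, Fintype.card_fin, Fintype.card_fin, mul_comm, hr]
  obtain ⟨hf1, hf2⟩ := colen_of_matrix (Φ : V →+* L⟦X⟧) hΦ hcard J a₀ hlen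
    (M.map (cur : _ →ₗ[L⟦X⟧] _)) (by
      intro v
      constructor
      · rintro ⟨u, ⟨ζ, hζ, hu⟩, rfl⟩
        exact ⟨ζ, hζ, fun p => hu p.1 p.2⟩
      · rintro ⟨ζ, hζ, hv⟩
        refine ⟨fun j l => v (j, l), ⟨ζ, hζ, fun j l => hv (j, l)⟩, ?_⟩
        funext p
        rfl)
  have hl : Module.length L⟦X⟧ ((Fin N → Fin n → L⟦X⟧) ⧸ M) =
      Module.length L⟦X⟧ ((Fin N × Fin n → L⟦X⟧) ⧸ M.map (cur : _ →ₗ[L⟦X⟧] _)) :=
    GXi_length cur M _ rfl
  have hMfin : FinColen M := by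
    unfold FinColen
    rw [hl]
    exact hf1
  have hMcol : colen M = a₀ + 1 := by
    unfold colen
    rw [hl]
    exact hf2
  refine ⟨L, inferInstance, hcl, inferInstance, Φ, M, hΦ, ?_, hMfin, ?_⟩
  · intro v
    constructor
    · rintro ⟨ζ, hζ, hv⟩
      obtain ⟨d, hd0, hd⟩ := hreal (ζ none) (fun l => ζ (some l)) hζ
      refine ⟨d, fun j l => ?_⟩
      rw [hhat, hv, Fintype.sum_option, Fintype.sum_option]
      simp only [hd0, hd]
    · rintro ⟨d, hd⟩
      refine ⟨fun q => match q with | none => hat d (Φ t) | some i => hat d (Φ (w i)),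
        hXt d, fun j l => ?_⟩
      rw [← hd]
      exact hhat d j l
  · rw [hMcol, ← ha₀, ENat.toNat_natCast]
    exact add_comm _ _

end Pool.Agent.Lib_KF
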