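import Pool.Agent.Lib_KF.GArcDefs
import Pool.Agent.Lib_KF.GData
import Pool.Agent.Lib_KF.GXi
import Pool.Agent.Lib_KF.GRoot
import Pool.Agent.Lib_KF.GCoord
import Pool.Agent.Lib_KF.GInj
import Pool.Agent.Lib_KF.GHup
import Pool.Agent.Lib_KF.FColen
import Pool.Agent.Lib_KF.POrdC

/-! G4f: the arc system of a divisor over `X ^ N_m`. -/

open PowerSeries

namespace Pool.Agent.Lib_KF

open Pool.Agent.Lib_GD

variable {R : Type} [CommRing R] [Algebra ℂ R] {𝒜 : ℕ → Submodule ℂ R} [GradedAlgebra 𝒜]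
  {n r d : ℕ} {x : Fin (n + 1) → R} {G : R}

private theorem GArcEx_hat_pow {L : Type} [Field L] [Algebra ℂ L] (δ : Derivation ℂ L L)
    (ε : L⟦X⟧) (k : ℕ) : ε * hat δ (ε ^ k) = (k : L⟦X⟧) * hat δ ε * ε ^ k := by
  induction k with
  | zero =>
    have h1 : hat δ (1 : L⟦X⟧) = 0 := by
      have h2 := hat_mul δ (1 : L⟦X⟧) 1
      simp only [mul_one, one_mul] at h2
      exact left_eq_add.1 h2
    rw [pow_zero, h1]; simp
  | succ k ih =>
    rw [pow_succ, hat_mul]
    push_cast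
    linear_combination ε * ih

/-- The transport equation after division by the unit. Proof: with `U α = ε ^ |α| u α`,
`H = X ^ e ε`, `hat δ H = X ^ e hat δ ε`: the transport equation of `DerData` for `U` is
`X^e ε hat δ (ε^k u_α) = k X^e (hat δ ε) ε^k u_α + ∑ ξ_l ε^(k+1) u_(α+l)`; expand
`hat δ (ε^k u_α) = ε^k hat δ u_α + k ε^(k-1) (hat δ ε) u_α` and divide by `ε^(k+1)`. -/
theorem transport_unit {L : Type} [Field L] [Algebra ℂ L] (T : DerData x) (a : Fin (n + 1))
    (xj : R →ₐ[ℂ] L⟦X⟧) (hx : xj (x a) = 1) (e : ℕ) (ε : L⟦X⟧) (hε : IsUnit ε)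
    (hH : xj T.h = X ^ e * ε) (u : (Fin n →₀ ℕ) → L⟦X⟧) (s : R)
    (hu : ∀ α, ε ^ α.degree * u α = xj (T.F a α s)) (δ : Derivation ℂ L L) (α : Fin n →₀ ℕ) :
    X ^ e * hat δ (u α) =
      ∑ l, hat δ (xj (x (a.succAbove l))) * u (α + Finsupp.single l 1) := by
  have h1 := T.transport a xj hx δ α s
  have h2 : ∀ l : Fin n, (α + Finsupp.single l 1).degree = α.degree + 1 := by
    intro l
    rw [map_add, Finsupp.degree_single]
  rw [← hu α] at h1
  simp only [← hu (α + Finsupp.single _ 1), h2] at h1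
  rw [hH, hat_X_pow_mul, hat_mul] at h1
  have h3 := GArcEx_hat_pow δ ε α.degree
  have h4 : ε ^ (α.degree + 1) * (X ^ e * hat δ (u α)) = ε ^ (α.degree + 1) *
      ∑ l, hat δ (xj (x (a.succAbove l))) * u (α + Finsupp.single l 1) := by
    have h5 : ∑ l, hat δ (xj (x (a.succAbove l))) * (ε ^ (α.degree + 1) *
        u (α + Finsupp.single l 1)) = ε ^ (α.degree + 1) *
        ∑ l, hat δ (xj (x (a.succAbove l))) * u (α + Finsupp.single l 1) := by
      rw [Finset.mul_sum]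
      exact Finset.sum_congr rfl fun l _ => by ring
    rw [← h5]
    have h6 : X ^ e * ε * (hat δ (ε ^ α.degree) * u α) =
        (α.degree : L⟦X⟧) * (X ^ e * hat δ ε) * (ε ^ α.degree * u α) := by
      calc X ^ e * ε * (hat δ (ε ^ α.degree) * u α)
          = X ^ e * (ε * hat δ (ε ^ α.degree)) * u α := by ring
        _ = _ := by rw [h3]; ring
    linear_combination h1 - h6
  exact (hε.pow (α.degree + 1)).mul_left_cancel h4

/-- G4f. Proof. `isUnit_coord` (FColen.lean) with `E.centre j`: `a j`, `w j` with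
`E.φ j (x (a j)) * w j = 1`; `y j l = E.φ j (x ((a j).succAbove l)) * w j`; `coordSpan_eqN`,
`length_coordSpan_ne_top`, `exists_Xi` give `L`, `Φ`, `Ξ`. `η j` a unit with
`η j ^ d = Φ (w j)` (`exists_root_series`); `arc j` the twist of `Φ ∘ E.φ j` by `η j`
(`exists_scale`, ChNorm.lean): `arc j s = η j ^ k * Φ (E.φ j s)` for `s ∈ 𝒜 k`; so
`arc j (x (a j)) = 1`, `arc j (x ((a j).succAbove l)) = Φ (y j l)`. Injectivity: `arc_inj` with the
projection of `Ξ` to the factor `j` (of finite colength, as in `finColen_Xirel` with `S = ∅`).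
`T.h ≠ 0` homogeneous (`h_ne`, `h_mem`), so `arc j T.h = X ^ e_j * eps_j` with `eps_j` a unit.
`u j α i = (eps_j⁻¹) ^ |α| * arc j (T.F (a j) α (secBasis 𝒜 m i))`, `w = 0`, `𝒟 = ⊤`,
`transport_unit`. `Γ.g j` = the order of `arc j G` = `E.ord (E.φ j G)` (`h.G_mem`, `h.G_ne`).
Orders: `r colen Ξ - ∑ g_j = r (1 + length) - ∑ ord = r logDisc`. Determinant: row `j` is `η_j ^ m`
times `Φ` of the row of `E.φ j (secBasis 𝒜 m i)` (as at the end of Lib_GD/ArcBuild.lean;
`secBasis_specP` of PGrowth/Defs for `secBasis 𝒜 m i ∈ 𝒜 m`). -/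
theorem exists_arcDat (h : IsFano 𝒜 n r d x G) (hn : 1 ≤ n) (T : DerData x) (m : ℕ)
    (hm : 1 ≤ secDim 𝒜 m) (E : DivisorOver 𝒜 n (secDim 𝒜 m)) :
    ∃ (L : Type) (_ : Field L) (_ : Algebra ℂ L) (Γ : ArcSys L n (secDim 𝒜 m)),
      Nonempty (ArcDat 𝒜 T r G m Γ) ∧ 1 ≤ colen Γ.Ξ ∧
      (r : ℝ) * colen Γ.Ξ - ∑ j, (Γ.g j : ℝ) = r * logDisc E r x G ∧
      Γ.det.order = E.ordDet 𝒜 := by
  classical
  have hdom := h.domain
  have hch : ∀ j, ∃ a : Fin (n + 1), IsUnit (E.φ j (x a)) := fun j =>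
    isUnit_coord h (E.φ j) (E.centre j)
  choose a ha using hch
  have hw' : ∀ j, ∃ w : E.V, E.φ j (x (a j)) * w = 1 := fun j => (ha j).exists_right_inv
  choose w hw using hw'
  set y : Fin (secDim 𝒜 m) → Fin n → E.V := fun j l => E.φ j (x ((a j).succAbove l)) * w j with hy
  have hspan := coordSpan_eqN E x a w hw
  have hfin := length_coordSpan_ne_top h E
  obtain ⟨L, _, _, _, Φ, Ξ, hΦ, hΞ, hΞfin, hΞcol⟩ := exists_Xi E.V n (secDim 𝒜 m) hn hm
    E.trdeg y (by rw [← hspan]; exact hfin)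
  change colen Ξ = 1 + (Module.length E.V (KaehlerDifferential ℂ E.V ⧸ Submodule.span E.V
      (Set.range fun p : Fin (secDim 𝒜 m) × Fin n =>
        KaehlerDifferential.D ℂ E.V (E.φ p.1 (x ((a p.1).succAbove p.2)) * w p.1)))).toNat at hΞcol
  rw [← hspan] at hΞcol
  have hchar : CharZero L := charZero_of_injective_algebraMap (algebraMap ℂ L).injective
  have hΦw : ∀ j, IsUnit (Φ (w j)) := fun j =>
    (IsUnit.of_mul_eq_one _ ((mul_comm _ _).trans (hw j))).map Φ
  have hroot : ∀ j, ∃ η : L⟦X⟧, IsUnit η ∧ η ^ d = Φ (w j) := fun j =>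
    exists_root_series d h.d_pos _ (hΦw j)
  choose η hη hηd using hroot
  have harc' : ∀ j, ∃ ψ : R →ₐ[ℂ] L⟦X⟧, ∀ k, ∀ f ∈ 𝒜 k, ψ f = η j ^ k * (Φ.comp (E.φ j)) f :=
    fun j => exists_scale (Φ.comp (E.φ j)) (η j)
  choose arc harc using harc'
  have harcx : ∀ j, arc j (x (a j)) = 1 := by
    intro j
    rw [harc j d _ (h.x_mem _), hηd, AlgHom.comp_apply, ← map_mul, mul_comm, hw, map_one]
  have harcy : ∀ j l, arc j (x ((a j).succAbove l)) = Φ (y j l) := by
    intro j l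
    rw [harc j d _ (h.x_mem _), hηd, AlgHom.comp_apply, ← map_mul, mul_comm]
  have hinj : ∀ j k, ∀ s ∈ 𝒜 k, arc j s = 0 → s = 0 := by
    intro j k s hs h0
    refine arc_inj h hn (a j) (arc j) (harcx j) (Ξ.map (LinearMap.proj j)) ?_ ?_ k s hs h0
    · refine (finColen_of_X_pow (B := colen Ξ) fun f => ?_).1
      refine Submodule.mem_map.2 ⟨(X : L⟦X⟧) ^ (colen Ξ) • Pi.single j f,
        X_pow_smul_mem hΞfin le_rfl _, ?_⟩
      rw [map_smul, LinearMap.proj_apply, Pi.single_eq_same]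
    · rintro v ⟨u, hu, rfl⟩
      obtain ⟨δ, hδ⟩ := (hΞ u).1 hu
      refine ⟨δ, fun l => ?_⟩
      rw [harcy, hδ]
      rfl
  have harch0 : ∀ j, arc j T.h ≠ 0 := fun j h0 => h_ne h T (hinj j _ _ (h_mem h T) h0)
  have hfac : ∀ j, ∃ (e : ℕ) (ε : L⟦X⟧), IsUnit ε ∧ arc j T.h = X ^ e * ε := by
    intro j
    obtain ⟨k, u, hu⟩ := IsDiscreteValuationRing.eq_unit_mul_pow_irreducible (harch0 j)
      PowerSeries.X_irreducible
    exact ⟨k, u, u.isUnit, by rw [hu, mul_comm]⟩
  choose e ε hε harch using hfac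
  have hε'' : ∀ j, ∃ ε' : L⟦X⟧, ε j * ε' = 1 := fun j => (hε j).exists_right_inv
  choose ε' hε' using hε''
  have horder : ∀ j k, ∀ s ∈ 𝒜 k, (arc j s).order = E.ord (E.φ j s) := by
    intro j k s hs
    rw [harc j k s hs, PowerSeries.order_mul, PowerSeries.order_zero_of_unit ((hη j).pow k),
      zero_add, AlgHom.comp_apply, hΦ]
    rfl
  have hgo : ∀ j, (arc j G).order = (((E.ord (E.φ j G)).toNat : ℕ) : ℕ∞) := by
    intro j
    have h1 := horder j _ G h.G_mem
    have h2 : arc j G ≠ 0 := fun h0 => h.G_ne (hinj j _ _ h.G_mem h0)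
    have h3 : (arc j G).order ≠ ⊤ := fun h4 => h2 (PowerSeries.order_eq_top.1 h4)
    rw [h1] at h3 ⊢
    exact (ENat.natCast_toNat h3).symm
  have hsec := (secBasis_specP h.isPol m).1
  have hu_eq : ∀ j (α : Fin n →₀ ℕ) i, ε j ^ α.degree * (ε' j ^ α.degree *
      arc j (T.F (a j) α (secBasis 𝒜 m i))) = arc j (T.F (a j) α (secBasis 𝒜 m i)) := by
    intro j α i
    rw [← mul_assoc, ← mul_pow, hε', one_pow, one_mul]
  let Γ : ArcSys L n (secDim 𝒜 m) :=
    { 𝒟 := ⊤
      e := e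
      u := fun j α i => ε' j ^ α.degree * arc j (T.F (a j) α (secBasis 𝒜 m i))
      ξ := fun δ j l => hat δ (arc j (x ((a j).succAbove l)))
      w := fun _ _ _ => 0
      transport := by
        intro δ _ j α i
        rw [zero_mul, mul_zero, add_zero]
        exact transport_unit T (a j) (arc j) (harcx j) (e j) (ε j) (hε j) (harch j)
          (fun α => ε' j ^ α.degree * arc j (T.F (a j) α (secBasis 𝒜 m i))) (secBasis 𝒜 m i)
          (fun α => hu_eq j α i) δ α
      Ξ := Ξ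
      mem_Ξ := by
        intro v
        rw [hΞ]
        constructor
        · rintro ⟨δ, hδ⟩
          refine ⟨δ, Submodule.mem_top, ?_⟩
          funext j l
          rw [harcy, hδ]
        · rintro ⟨δ, -, rfl⟩
          refine ⟨δ, fun j l => ?_⟩
          change hat δ (Φ (y j l)) = hat δ (arc j (x ((a j).succAbove l)))
          rw [harcy]
      fin_Ξ := hΞfin
      g := fun j => (E.ord (E.φ j G)).toNat
      r := r }
  let D : ArcDat 𝒜 T r G m Γ :=
    { arc := arc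
      a := a
      arc_x := harcx
      inj := hinj
      eps := ε
      eps_unit := hε
      arc_h := harch
      u_eq := hu_eq
      w_eq := fun _ _ _ => rfl
      xi_eq := fun _ _ _ => rfl
      D_top := rfl
      G_order := hgo
      r_eq := rfl }
  refine ⟨L, inferInstance, inferInstance, Γ, ⟨D⟩, ?_, ?_, ?_⟩
  · change 1 ≤ colen Ξ
    rw [hΞcol]
    exact Nat.le_add_right _ _
  · change (r : ℝ) * (colen Ξ : ℝ) - ∑ j, (((E.ord (E.φ j G)).toNat : ℕ) : ℝ) = r * logDisc E r x G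
    have hr0 : (r : ℝ) ≠ 0 := by
      have := h.r_pos
      positivity
    rw [hΞcol]
    unfold logDisc
    push_cast
    field_simp
  · have hdet : Γ.det = (∏ j, η j ^ m) * Φ (Matrix.det (Matrix.of
        fun j i : Fin (secDim 𝒜 m) => E.φ j (secBasis 𝒜 m i))) := by
      rw [AlgHom.map_det, ← Matrix.det_mul_column]
      change Matrix.det (Matrix.of fun j i : Fin (secDim 𝒜 m) =>
        ε' j ^ (0 : Fin n →₀ ℕ).degree * arc j (T.F (a j) 0 (secBasis 𝒜 m i))) = _
      congr 1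
      ext1 j i
      simp only [Matrix.of_apply, AlgHom.mapMatrix_apply, Matrix.map_apply]
      rw [map_zero, pow_zero, one_mul, T.F_zero, harc j m _ (hsec i), AlgHom.comp_apply]
    have hunit : IsUnit (∏ j, η j ^ m) := by
      rw [IsUnit.prod_univ_iff]
      exact fun j => (hη j).pow m
    rw [hdet, PowerSeries.order_mul, PowerSeries.order_zero_of_unit hunit, zero_add, hΦ]
    rfl

end Pool.Agent.Lib_KF
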