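import Pool.Agent.Lib_KF.GDefs
import Pool.Agent.Lib_KF.CDefs

/-!
# Arc systems on the cone

The arc system of `N_m` arcs `x_j : R → L⟦X⟧` with `x_j (x (a_j)) = 1`.
-/

open PowerSeries

namespace Pool.Agent.Lib_KF

open Pool.Agent.Lib_GD

/-- The arc system `Γ` is the arc system of the arcs `arc j` on the cone, with
`arc j (x (a j)) = 1`; `u j α i` is `arc j (h ^ |α| ∂^α s_i)` divided by the unit `eps j ^ |α|`,
`arc j h = X ^ e_j eps j`. -/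
structure ArcDat {R : Type} [CommRing R] [Algebra ℂ R] (𝒜 : ℕ → Submodule ℂ R)
    [GradedAlgebra 𝒜] {n : ℕ} {x : Fin (n + 1) → R} (T : DerData x) (r : ℕ) (G : R) (m : ℕ)
    {L : Type} [Field L] [Algebra ℂ L] (Γ : ArcSys L n (secDim 𝒜 m)) where
  arc : Fin (secDim 𝒜 m) → (R →ₐ[ℂ] L⟦X⟧)
  a : Fin (secDim 𝒜 m) → Fin (n + 1)
  arc_x : ∀ j, arc j (x (a j)) = 1
  /-- homogeneous elements do not vanish on the arcs -/
  inj : ∀ j k, ∀ s ∈ 𝒜 k, arc j s = 0 → s = 0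
  eps : Fin (secDim 𝒜 m) → L⟦X⟧
  eps_unit : ∀ j, IsUnit (eps j)
  arc_h : ∀ j, arc j T.h = X ^ Γ.e j * eps j
  u_eq : ∀ j α i, eps j ^ α.degree * Γ.u j α i = arc j (T.F (a j) α (secBasis 𝒜 m i))
  w_eq : ∀ δ j α, Γ.w δ j α = 0
  xi_eq : ∀ δ j l, Γ.ξ δ j l = hat δ (arc j (x ((a j).succAbove l)))
  D_top : Γ.𝒟 = ⊤
  G_order : ∀ j, (arc j G).order = (Γ.g j : ℕ∞)
  r_eq : Γ.r = r

namespace ArcDat

variable {R : Type} [CommRing R] [Algebra ℂ R] {𝒜 : ℕ → Submodule ℂ R} [GradedAlgebra 𝒜] {n : ℕ}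
  {x : Fin (n + 1) → R} {T : DerData x} {r : ℕ} {G : R} {m : ℕ}
  {L : Type} [Field L] [Algebra ℂ L] {Γ : ArcSys L n (secDim 𝒜 m)}

theorem u_zero (D : ArcDat 𝒜 T r G m Γ) (j i : Fin (secDim 𝒜 m)) :
    Γ.u j 0 i = D.arc j (secBasis 𝒜 m i) := by
  have h1 := D.u_eq j 0 i
  rw [T.F_zero] at h1
  simpa using h1

theorem h_order (D : ArcDat 𝒜 T r G m Γ) (j : Fin (secDim 𝒜 m)) :
    (D.arc j T.h).order = (Γ.e j : ℕ∞) := by
  rw [D.arc_h, PowerSeries.order_mul, PowerSeries.order_X_pow,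
    PowerSeries.order_zero_of_unit (D.eps_unit j), add_zero]

end ArcDat

end Pool.Agent.Lib_KF
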