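import Pool.Agent.Lib_KF.GSep
import Pool.Agent.Lib_KF.GArcDefs

/-!
# G6: (T') and (Sep') for the arc systems on the cone
-/

open PowerSeries

namespace Pool.Agent.Lib_KF

open Pool.Agent.Lib_GD

variable {R : Type} [CommRing R] [Algebra ℂ R] {𝒜 : ℕ → Submodule ℂ R} [GradedAlgebra 𝒜]
  {n r d : ℕ} {x : Fin (n + 1) → R} {G : R}

/-- The functional `ev j α` in terms of the arc `x_j`. -/
theorem ArcDat.ev_eq {T : DerData x} {m : ℕ} {L : Type} [Field L] [Algebra ℂ L]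
    {Γ : ArcSys L n (secDim 𝒜 m)} (D : ArcDat 𝒜 T r G m Γ) (j : Fin (secDim 𝒜 m))
    (α : Fin n →₀ ℕ) (f : Fin (secDim 𝒜 m) → L⟦X⟧) :
    ∑ i, f i * D.arc j (T.F (D.a j) α (secBasis 𝒜 m i)) =
      D.eps j ^ α.degree * Γ.ev j α f := by
  change _ = D.eps j ^ α.degree * ∑ i, Γ.u j α i * f i
  rw [Finset.mul_sum]
  refine Finset.sum_congr rfl fun i _ => ?_
  rw [← D.u_eq]
  ring

theorem arc_h_not_dvd {T : DerData x} {m : ℕ} {L : Type} [Field L] [Algebra ℂ L]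
    {Γ : ArcSys L n (secDim 𝒜 m)} (D : ArcDat 𝒜 T r G m Γ) (j : Fin (secDim 𝒜 m)) :
    ¬ (X : L⟦X⟧) ^ (Γ.e j + 1) ∣ D.arc j T.h := by
  rw [PowerSeries.X_pow_dvd_iff]
  intro h1
  have h2 := D.h_order j
  have h3 : ((Γ.e j + 1 : ℕ) : ℕ∞) ≤ (D.arc j T.h).order := by
    refine PowerSeries.nat_le_order _ _ h1
  rw [h2] at h3
  exact absurd (Nat.cast_le.mp h3) (by omega)

/-- (T') for the arc systems on the cone. -/
theorem ht_arcDat (h : IsFano 𝒜 n r d x G) (T : DerData x) : ∃ C : ℕ, ∀ (m : ℕ) (L : Type)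
    [Field L] [Algebra ℂ L] (Γ : ArcSys L n (secDim 𝒜 m)), ArcDat 𝒜 T r G m Γ →
      Γ.HT (C * m) := by
  obtain ⟨C, hC⟩ := g_T h T
  refine ⟨C, fun m L _ _ Γ D j f hf => ?_⟩
  obtain ⟨γ, hγ, hnd⟩ := hC m L (D.a j) (D.arc j) (D.arc_x j) (Γ.e j) (arc_h_not_dvd D j) f hf
  refine ⟨γ, hγ, fun hdvd => hnd ?_⟩
  rw [D.ev_eq]
  exact Dvd.dvd.mul_left hdvd _

/-- (Sep') for the arc systems on the cone; `hloc` is `exists_local` of `GLoc.lean`. -/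
theorem hsep_arcDat_of (h : IsFano 𝒜 n r d x G) (T : DerData x) (K₀ : ℕ)
    (hloc : ∀ (L : Type) [Field L] [Algebra ℂ L] (a : Fin (n + 1)) (xj : R →ₐ[ℂ] L⟦X⟧),
      xj (x a) = 1 → ∀ m, K₀ ≤ m → ∃ m' t, m = m' + d * t ∧ m' ≤ K₀ ∧
        ∃ b ∈ 𝒜 m', IsUnit (xj b)) :
    ∃ (c : ℝ) (m₀ : ℕ), 0 < c ∧ ∀ m, m₀ ≤ m → ∀ q : ℕ, (q : ℝ) ≤ c * m →
      ∀ (L : Type) [Field L] [Algebra ℂ L] (Γ : ArcSys L n (secDim 𝒜 m)),
        ArcDat 𝒜 T r G m Γ → Γ.HSep q := by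
  obtain ⟨c, m₀, hc, H⟩ := g_Sep h T K₀ hloc
  refine ⟨c, m₀, hc, fun m hm q hq L _ _ Γ D j k s cf hs hf α hα => ?_⟩
  -- the inverse of the unit `eps j`
  obtain ⟨u, hu⟩ := D.eps_unit j
  have hinv : ∀ i : ℕ, ((u⁻¹ : (L⟦X⟧)ˣ) : L⟦X⟧) ^ i * D.eps j ^ i = 1 := fun i => by
    rw [← hu, ← mul_pow, Units.inv_mul, one_pow]
  have h1 := H m hm q hq L (D.a j) (D.arc j) (D.arc_x j) (Γ.e j) (D.eps j) (D.eps_unit j)
    (D.arc_h j) k s (fun β => cf β * ((u⁻¹ : (L⟦X⟧)ˣ) : L⟦X⟧) ^ β.degree) hs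
    (fun f => by
      have h2 := hf f
      have h3 : ∑ β ∈ s, cf β * ((u⁻¹ : (L⟦X⟧)ˣ) : L⟦X⟧) ^ β.degree *
          ∑ i, f i * D.arc j (T.F (D.a j) β (secBasis 𝒜 m i)) =
          ∑ β ∈ s, cf β * Γ.ev j β f := by
        refine Finset.sum_congr rfl fun β _ => ?_
        rw [D.ev_eq, mul_assoc, ← mul_assoc (((u⁻¹ : (L⟦X⟧)ˣ) : L⟦X⟧) ^ β.degree), hinv,
          one_mul]
      rw [h3]
      exact h2) α hα
  have h4 : X ^ (2 * q * Γ.e j) * cf α =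
      (X ^ ((q - 1) * Γ.e j) * (cf α * ((u⁻¹ : (L⟦X⟧)ˣ) : L⟦X⟧) ^ α.degree)) *
        (X ^ (2 * q * Γ.e j - (q - 1) * Γ.e j) * D.eps j ^ α.degree) := by
    have h5 : (q - 1) * Γ.e j ≤ 2 * q * Γ.e j := Nat.mul_le_mul_right _ (by omega)
    have h6 : (X : L⟦X⟧) ^ (2 * q * Γ.e j) =
        X ^ ((q - 1) * Γ.e j) * X ^ (2 * q * Γ.e j - (q - 1) * Γ.e j) := by
      rw [← pow_add]
      congr 1
      omega
    rw [h6]
    calc _ = X ^ ((q - 1) * Γ.e j) * X ^ (2 * q * Γ.e j - (q - 1) * Γ.e j) * cf α *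
          (((u⁻¹ : (L⟦X⟧)ˣ) : L⟦X⟧) ^ α.degree * D.eps j ^ α.degree) := by
            rw [hinv, mul_one]
      _ = _ := by ring
  rw [h4]
  exact Dvd.dvd.mul_right h1 _

end Pool.Agent.Lib_KF
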