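import Pool.Agent.Lib_KF.GHT

/-!
# G3a: sections which do not vanish at the origin of an arc, and (Sep')
-/

open PowerSeries

namespace Pool.Agent.Lib_KF

open Pool.Agent.Lib_GD

variable {R : Type} [CommRing R] [Algebra ℂ R] {𝒜 : ℕ → Submodule ℂ R} [GradedAlgebra 𝒜]
  {n r d : ℕ} {x : Fin (n + 1) → R} {G : R}

/-- Uniformly for all homomorphisms to local rings with `x a ↦ 1`, two sections of consecutive
bounded degrees are units. -/
private theorem GLoc_pair (h : IsFano 𝒜 n r d x G) (a : Fin (n + 1)) :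
    ∃ K : ℕ, ∀ (O : Type) [CommRing O] [IsLocalRing O] (φ : R →+* O), φ (x a) = 1 →
      ∃ k, k ≤ K ∧ ∃ f ∈ 𝒜 k, ∃ g ∈ 𝒜 (k + 1), IsUnit (φ f) ∧ IsUnit (φ g) := by
  classical
  set S : Set R := {s | ∃ k, ∃ f ∈ 𝒜 k, ∃ g ∈ 𝒜 (k + 1), s = f * g} with hS
  have h1 : x a ∈ (Ideal.span S).radical := by
    rw [Ideal.radical_eq_sInf, Ideal.mem_sInf]
    rintro p ⟨hp, hpp⟩
    by_contra hxa
    obtain ⟨k, f, hf, g, hg, hfp, hgp⟩ := h.line p hpp ⟨d, h.d_pos, x a, h.x_mem a, hxa⟩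
    have h2 : f * g ∈ p := hp (Ideal.subset_span ⟨k, f, hf, g, hg, rfl⟩)
    rcases hpp.mem_or_mem h2 with h3 | h3
    · exact hfp h3
    · exact hgp h3
  obtain ⟨N, hN⟩ := h1
  obtain ⟨T, hT, hT'⟩ := Submodule.mem_span_finite_of_mem_span hN
  have h2 : ∀ s : R, ∃ k, s ∈ T → ∃ f ∈ 𝒜 k, ∃ g ∈ 𝒜 (k + 1), s = f * g := by
    intro s
    by_cases hs : s ∈ T
    · obtain ⟨k, hk⟩ := hT hs
      exact ⟨k, fun _ => hk⟩
    · exact ⟨0, fun hs' => absurd hs' hs⟩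
  choose kk hkk using h2
  refine ⟨T.sup kk, fun O _ _ φ hφ => ?_⟩
  by_contra hne
  push Not at hne
  have h3 : (T : Set R) ⊆ Ideal.comap φ (IsLocalRing.maximalIdeal O) := by
    intro s hs
    obtain ⟨f, hf, g, hg, hfg⟩ := hkk s hs
    have h4 := hne (kk s) (Finset.le_sup hs) f hf g hg
    rw [SetLike.mem_coe, Ideal.mem_comap, IsLocalRing.mem_maximalIdeal, mem_nonunits_iff, hfg,
      map_mul, IsUnit.mul_iff]
    rintro ⟨h5, h6⟩
    exact h4 h5 h6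
  have h4 : x a ^ N ∈ Ideal.comap φ (IsLocalRing.maximalIdeal O) :=
    (Submodule.span_le.2 h3) hT'
  rw [Ideal.mem_comap, map_pow, hφ, one_pow] at h4
  exact (IsLocalRing.mem_maximalIdeal _).1 h4 isUnit_one

/-- G3a. -/
theorem exists_local (h : IsFano 𝒜 n r d x G) :
    ∃ K₀ : ℕ, ∀ (L : Type) [Field L] [Algebra ℂ L] (a : Fin (n + 1)) (xj : R →ₐ[ℂ] L⟦X⟧),
      xj (x a) = 1 → ∀ m, K₀ ≤ m → ∃ m' t, m = m' + d * t ∧ m' ≤ K₀ ∧
        ∃ b ∈ 𝒜 m', IsUnit (xj b) := by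
  classical
  choose K hK using fun a => GLoc_pair (𝒜 := 𝒜) h a
  have hd := h.d_pos
  refine ⟨d * (Finset.univ.sup K) + d, fun L _ _ a xj hxj m hm => ?_⟩
  obtain ⟨k, hk, f, hf, g, hg, hfu, hgu⟩ := hK a L⟦X⟧ (xj : R →+* L⟦X⟧) hxj
  have hkK : k ≤ Finset.univ.sup K := hk.trans (Finset.le_sup (Finset.mem_univ a))
  have hj : m % d < d := Nat.mod_lt _ (by omega)
  have hdk : d * k ≤ d * (Finset.univ.sup K) := Nat.mul_le_mul_left _ hkK
  have hdiv : k ≤ m / d := by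
    rw [Nat.le_div_iff_mul_le (by omega), mul_comm]
    omega
  refine ⟨d * k + m % d, m / d - k, ?_, by omega, f ^ (d - m % d) * g ^ (m % d), ?_, ?_⟩
  · rw [Nat.mul_sub]
    have h1 := Nat.div_add_mod m d
    have h2 : d * k ≤ d * (m / d) := Nat.mul_le_mul_left _ hdiv
    omega
  · have h1 := SetLike.mul_mem_graded (SetLike.pow_mem_graded (d - m % d) hf)
      (SetLike.pow_mem_graded (m % d) hg)
    have h2 : (d - m % d) • k + (m % d) • (k + 1) = d * k + m % d := by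
      obtain ⟨c, hc⟩ := Nat.exists_eq_add_of_le hj.le
      have h3 : d - m % d = c := by omega
      have h4 : d * k = (m % d + c) * k := congrArg (fun i => i * k) hc
      rw [smul_eq_mul, smul_eq_mul, h3, h4]
      ring
    rwa [h2] at h1
  · rw [map_mul, map_pow, map_pow]
    exact (hfu.pow _).mul (hgu.pow _)

/-- (Sep') for the arc systems on the cone. -/
theorem hsep_arcDat (h : IsFano 𝒜 n r d x G) (T : DerData x) :
    ∃ (c : ℝ) (m₀ : ℕ), 0 < c ∧ ∀ m, m₀ ≤ m → ∀ q : ℕ, (q : ℝ) ≤ c * m →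
      ∀ (L : Type) [Field L] [Algebra ℂ L] (Γ : ArcSys L n (secDim 𝒜 m)),
        ArcDat 𝒜 T r G m Γ → Γ.HSep q := by
  obtain ⟨K₀, hK₀⟩ := exists_local h
  exact hsep_arcDat_of h T K₀ hK₀

end Pool.Agent.Lib_KF
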