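import Pool.Agent.Lib_KF.ILat
import Pool.Agent.Lib_KF.CDefs
import Pool.Agent.Lib_GD.Cost
import Pool.Agent.Lib_GD.HatLem

/-! (I2) for arc systems with poles. -/

open PowerSeries
open scoped ENNReal NNReal

namespace Pool.Agent.Lib_KF

open Pool.Agent.Lib_GD

/-- (I2) for arc systems which come from arcs of the cone. -/
theorem hI2F {R : Type} [CommRing R] [Algebra ℂ R] {𝒜 : ℕ → Submodule ℂ R}
    [GradedAlgebra 𝒜] {n r d : ℕ} {x : Fin (n + 1) → R} {G : R} (h : IsFano 𝒜 n r d x G)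
    (hn : 1 ≤ n) (m : ℕ) (hm : 1 ≤ m) (hN : 1 ≤ secDim 𝒜 m) (c : ℝ) (hc : 0 < c)
    (hint : ∀ b : Fin (secDim 𝒜 m) → R, (∀ i, b i ∈ 𝒜 m) → LinearIndependent ℂ b →
      intI x G r b (c / (m * r * secDim 𝒜 m)) ≠ ⊤)
    {L : Type} [Field L] [Algebra ℂ L] (Γ : ArcSys L n (secDim 𝒜 m))
    (arc : Fin (secDim 𝒜 m) → R →ₐ[ℂ] L⟦X⟧) (a : Fin (secDim 𝒜 m) → Fin (n + 1))
    (hx : ∀ j, arc j (x (a j)) = 1)
    (hu : ∀ j i, Γ.u j 0 i = arc j (secBasis 𝒜 m i))
    (hξ : ∀ δ j l, Γ.ξ δ j l = hat δ (arc j (x ((a j).succAbove l))))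
    (hg : ∀ j, Γ.g j = (arc j G).order.toNat) (hr : Γ.r = r) :
    Γ.HI2 (m * secDim 𝒜 m / c) := by
  intro S j hj B M hB hM hev
  let Δ : Submodule L (Derivation ℂ L L) :=
    { carrier := Γ.Dker S
      add_mem' := by
        intro δ δ' hδ hδ'
        refine ⟨Γ.𝒟.add_mem hδ.1 hδ'.1, fun i hi => ?_⟩
        funext l
        have h1 := congrFun (hδ.2 i hi) l
        have h2 := congrFun (hδ'.2 i hi) l
        rw [hξ] at h1 h2
        rw [hξ, hat_add_der, h1, h2, Pi.zero_apply, add_zero]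
      zero_mem' := by
        refine ⟨Γ.𝒟.zero_mem, fun i hi => ?_⟩
        funext l
        rw [hξ, Pi.zero_apply]
        ext t
        rw [coeff_hat, Derivation.zero_apply, map_zero]
      smul_mem' := by
        intro c δ hδ
        refine ⟨Γ.𝒟.smul_mem c hδ.1, fun i hi => ?_⟩
        funext l
        have h1 := congrFun (hδ.2 i hi) l
        rw [hξ] at h1
        rw [hξ, hat_smul_der, h1, Pi.zero_apply, mul_zero] }
  have hr0 : (0 : ℝ) < r := by exact_mod_cast h.r_pos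
  have hm0 : (0 : ℝ) < m := by exact_mod_cast hm
  have hN0 : (0 : ℝ) < secDim 𝒜 m := by exact_mod_cast hN
  have hc' : 0 < c / (m * r * secDim 𝒜 m) := by positivity
  obtain ⟨-, h1⟩ := lattice_boundF h hn m (c / (m * r * secDim 𝒜 m)) hc' hint Δ (arc j) (a j) 1
    (by rw [hx, mul_one]) (Γ.base.Xirel j S) (Γ.base.finColen_Xirel j S hj)
    (by
      intro v hv
      obtain ⟨δ, hδ, rfl⟩ := (Γ.base.mem_Xirel j S v).1 hv
      refine ⟨δ, hδ, fun l => ?_⟩
      rw [mul_one]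
      exact (hξ δ j l).symm) B M hB hM
    (by
      intro f hf
      have h2 := hev f hf
      have h3 : Γ.ev j 0 f = ∑ i, arc j (secBasis 𝒜 m i) * f i := by
        change ∑ i, Γ.u j 0 i * f i = _
        exact Finset.sum_congr rfl fun i _ => by rw [hu]
      rwa [h3] at h2)
  have h2 : (colen (Γ.base.Xirel j S) : ℝ) = Γ.cost j S := rfl
  rw [h2, ← hg j] at h1
  have h3 : (r : ℝ) * Γ.cost j S - Γ.g j ≤ Γ.cc j S := by
    have h4 : Γ.r * Γ.cost j S ≤ Γ.cc j S + Γ.g j := by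
      unfold ArcSys.cc
      omega
    rw [hr] at h4
    have h5 : ((r * Γ.cost j S : ℕ) : ℝ) ≤ ((Γ.cc j S + Γ.g j : ℕ) : ℝ) := by exact_mod_cast h4
    push_cast at h5
    linarith
  set t : ℝ := (B : ℝ) * secDim 𝒜 m - colen M with ht
  have h4 : c / (m * r * secDim 𝒜 m) * t ≤ Γ.cost j S - (Γ.g j : ℝ) / r := by linarith
  have h5 : t = (m * r * secDim 𝒜 m / c) * (c / (m * r * secDim 𝒜 m) * t) := by
    field_simp
  rw [h5]
  calc (m * r * secDim 𝒜 m / c) * (c / (m * r * secDim 𝒜 m) * t)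
      ≤ (m * r * secDim 𝒜 m / c) * (Γ.cost j S - (Γ.g j : ℝ) / r) := by gcongr
    _ = m * secDim 𝒜 m / c * (r * Γ.cost j S - Γ.g j) := by field_simp
    _ ≤ m * secDim 𝒜 m / c * Γ.cc j S := by gcongr

end Pool.Agent.Lib_KF
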