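import Pool.Agent.Lib_KF.UPF
import Pool.Agent.Lib_MP_e0d435_kv.IntMain

/-! Integrability from `δ > 0`. -/

open scoped ENNReal NNReal

namespace Pool.Agent.Lib_KF

open Pool.Agent.Lib_GD

variable {R : Type} [CommRing R] [Algebra ℂ R] {𝒜 : ℕ → Submodule ℂ R} [GradedAlgebra 𝒜]
  {n r d : ℕ} {x : Fin (n + 1) → R} {G : R}

/-- Integrability for the exponent `c / (m r N_m)`, `c < min (δ, 1)`, and all large `m`. -/
theorem int_of_delta (h : IsFano 𝒜 n r d x G) (hklt : IsKltVar 𝒜 n r x G) (hn : 1 ≤ n) (D : ℝ≥0)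
    (hE : ∀ E : DivisorOver 𝒜 n 1, (D : ℝ≥0∞) * (E.S 𝒜 / r) ≤ ENNReal.ofReal (logDisc E r x G))
    (c : ℝ) (hc : 0 < c) (hcD : c < D) (hc1 : c < 1) :
    ∃ m₁ : ℕ, ∀ m, m₁ ≤ m → 1 ≤ secDim 𝒜 m → ∀ b : Fin (secDim 𝒜 m) → R,
      (∀ i, b i ∈ 𝒜 m) → LinearIndependent ℂ b →
      intI x G r b (c / (m * r * secDim 𝒜 m)) ≠ ⊤ := by
  have hD : 0 < D := by
    have : (0 : ℝ) < D := hc.trans hcD
    exact_mod_cast this
  have hr : (0 : ℝ) < r := by exact_mod_cast h.r_pos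
  -- the constants
  obtain ⟨κ, hκ, hκ'⟩ : ∃ κ : ℝ, 0 < κ ∧ (1 + κ) * (1 + κ) * c ≤ D := by
    refine ⟨min 1 ((D - c) / (3 * c)), ?_, ?_⟩
    · exact lt_min one_pos (div_pos (by linarith) (by linarith))
    · set κ := min 1 ((D - c) / (3 * c))
      have h1 : κ ≤ 1 := min_le_left _ _
      have h2 : κ ≤ (D - c) / (3 * c) := min_le_right _ _
      have h0 : 0 ≤ κ := le_min zero_le_one (div_nonneg (by linarith) (by linarith))
      have h3 : κ * (3 * c) ≤ D - c := by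
        rwa [le_div_iff₀ (by linarith)] at h2
      nlinarith [mul_nonneg h0 (sub_nonneg.2 h1), mul_nonneg (mul_nonneg h0 (sub_nonneg.2 h1)) hc.le]
  obtain ⟨m₁, hm₁⟩ := sum_ord_le_logDisc h hklt D hD hE hn κ hκ
  -- the section `G`
  have hGdeg : 1 ≤ r * d * (n + 1) - 1 := by
    have h1 := h.r_pos
    have h2 := h.d_pos
    have h3 : 1 ≤ r * d := Nat.mul_pos h1 h2
    have h4 : 1 * 2 ≤ r * d * (n + 1) := Nat.mul_le_mul h3 (by omega)
    omega
  obtain ⟨C, hC, hCG⟩ := ord_le_logDisc h hklt D hD hE hn _ hGdeg G h.G_mem h.G_ne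
  refine ⟨m₁ + 1, fun m hm hN b hb hbi => ?_⟩
  have hm0 : (0 : ℝ) < m := by
    have : 0 < m := by omega
    exact_mod_cast this
  have hN0 : (0 : ℝ) < secDim 𝒜 m := by exact_mod_cast hN
  have hc0 : 0 < c / (m * r * secDim 𝒜 m) := by positivity
  refine Lib_MP_e0d435_kv.intI_ne_top h hn h.G_ne b hb (fun i => hbi.ne_zero i) _ hc0 ?_ κ C⁻¹ hκ
    (inv_pos.2 hC) (fun E => ?_) (fun E => ?_)
  · have h1 : c / (m * r * secDim 𝒜 m) * (secDim 𝒜 m * m) = c / r := by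
      field_simp
    rw [h1]
    exact div_lt_div_of_pos_right hc1 hr
  · have h1 := hm₁ m (by omega) E b hb hbi
    have h2 : 0 < logDisc E r x G := hklt E
    push_cast at h1
    set s := ∑ i, ((E.ord (E.φ 0 (b i))).toNat : ℝ) with hs
    have hs0 : 0 ≤ s := Finset.sum_nonneg fun i _ => Nat.cast_nonneg _
    have h3 : (1 + κ) * (c / (m * r * secDim 𝒜 m) * s) =
        ((1 + κ) * c * s) / (m * r * secDim 𝒜 m) := by ring
    rw [h3, div_le_iff₀ (by positivity)]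
    have hD' : (0 : ℝ) < D := hc.trans hcD
    -- `(1 + κ) c s ≤ m r N A`
    have h4 : (1 + κ) * (D * s) ≤ (1 + κ) * ((1 + κ) * (m * secDim 𝒜 m) * r * logDisc E r x G) :=
      mul_le_mul_of_nonneg_left h1 (by linarith)
    have h5 : D * ((1 + κ) * c * s) ≤ D * (logDisc E r x G * (m * r * secDim 𝒜 m)) := by
      have h6 : c * ((1 + κ) * (D * s)) ≤
          c * ((1 + κ) * ((1 + κ) * (m * secDim 𝒜 m) * r * logDisc E r x G)) :=
        mul_le_mul_of_nonneg_left h4 hc.le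
      have h7 : (1 + κ) * (1 + κ) * c * (m * secDim 𝒜 m * r * logDisc E r x G) ≤
          D * (m * secDim 𝒜 m * r * logDisc E r x G) :=
        mul_le_mul_of_nonneg_right hκ' (by positivity)
      nlinarith
    exact le_of_mul_le_mul_left h5 hD'
  · have h1 := hCG E
    rw [inv_mul_le_iff₀ hC]
    exact h1

end Pool.Agent.Lib_KF
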