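import Pool.Agent.Lib_KF.CFinal
import Pool.Agent.Lib_KF.IHI2
import Pool.Agent.Lib_KF.IntF
import Pool.Agent.Lib_KF.GHT
import Pool.Agent.Lib_KF.GLoc
import Pool.Agent.Lib_KF.GArcEx

/-! The main bound for klt Fano varieties. -/

open scoped ENNReal NNReal

namespace Pool.Agent.Lib_KF

open Pool.Agent.Lib_GD

variable {R : Type} [CommRing R] [Algebra ℂ R] {𝒜 : ℕ → Submodule ℂ R} [GradedAlgebra 𝒜]
  {n r d : ℕ} {x : Fin (n + 1) → R} {G : R}

/-- `D_m` is a divisor: the determinant does not vanish. -/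
theorem ordDet_ne_topF (h : IsFano 𝒜 n r d x G) (hn : 1 ≤ n) (m : ℕ) (hm : 1 ≤ m)
    (E : DivisorOver 𝒜 n (secDim 𝒜 m)) : E.ordDet 𝒜 ≠ ⊤ := by
  rcases Nat.eq_zero_or_pos (secDim 𝒜 m) with h0 | h0
  · have : IsEmpty (Fin (secDim 𝒜 m)) := by rw [h0]; infer_instance
    unfold DivisorOver.ordDet
    rw [Matrix.det_isEmpty]
    unfold DivisorOver.ord
    rw [IsDiscreteValuationRing.addVal_one]
    exact ENat.zero_ne_top
  · obtain ⟨T⟩ := exists_derData h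
    obtain ⟨C, hC⟩ := ht_arcDat h T
    obtain ⟨L, _, _, Γ, ⟨D⟩, -, -, hdet⟩ := exists_arcDat h hn T m h0 E
    rw [← hdet]
    exact PowerSeries.order_eq_top.not.2 (Γ.det_ne_zero (hC m L Γ D))

/-- The main bound: the pairs `(X ^ N_m, (c / (m r)) D_m)` are klt for all large `m`, if
`c < min (δ, 1)`. -/
theorem main_boundF (h : IsFano 𝒜 n r d x G) (hn : 1 ≤ n) (hklt : IsKltVar 𝒜 n r x G) (D : ℝ≥0)
    (hE : ∀ E : DivisorOver 𝒜 n 1, (D : ℝ≥0∞) * (E.S 𝒜 / r) ≤ ENNReal.ofReal (logDisc E r x G))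
    (c : ℝ≥0) (hc : 0 < c) (hcD : c < D) (hc1 : c < 1) :
    ∃ m₁ : ℕ, ∀ m, m₁ ≤ m → IsKltPair 𝒜 n r x G m c := by
  have hD : 0 < D := hc.trans hcD
  have hc' : (0 : ℝ) < c := by exact_mod_cast hc
  -- `c < c' < min (D, 1)`
  obtain ⟨c', hcc', hc'm⟩ := exists_between (lt_min hcD hc1)
  have hc'D : (c' : ℝ) < D := by exact_mod_cast lt_of_lt_of_le hc'm (min_le_left _ _)
  have hc'1 : (c' : ℝ) < 1 := by exact_mod_cast lt_of_lt_of_le hc'm (min_le_right _ _)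
  have hcc'' : (c : ℝ) < c' := by exact_mod_cast hcc'
  obtain ⟨m₁, hm₁⟩ := int_of_delta h hklt hn D hE c' (hc'.trans hcc'') hc'D hc'1
  obtain ⟨T⟩ := exists_derData h
  obtain ⟨CT, hCT⟩ := ht_arcDat h T
  obtain ⟨K₀, hloc⟩ := exists_local h
  obtain ⟨cl, m₀, hcl, hSep⟩ := hsep_arcDat_of h T K₀ hloc
  obtain ⟨C₁, hC₁, hUP⟩ := hup h hn hklt D hD hE T
  obtain ⟨Cg, hCg⟩ := secDim_leP h.isPol
  obtain ⟨m₂, hm₂⟩ := main_bound_abs n hn r h.r_pos c c' hc' hcc'' Cg (CT + 1) C₁ (by omega) hC₁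
    cl hcl
  refine ⟨1 + m₀ + m₁ + m₂, fun m hm E => ?_⟩
  have hm1 : 1 ≤ m := by omega
  rcases Nat.eq_zero_or_pos (secDim 𝒜 m) with h0 | h0
  · have : IsEmpty (Fin (secDim 𝒜 m)) := by rw [h0]; infer_instance
    have h1 : E.ordDet 𝒜 = 0 := by
      unfold DivisorOver.ordDet
      rw [Matrix.det_isEmpty]
      unfold DivisorOver.ord
      rw [IsDiscreteValuationRing.addVal_one]
    rw [h1]
    have h2 : (Finset.univ : Finset (Fin (secDim 𝒜 m))) = ∅ := Finset.univ_eq_empty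
    unfold logDisc
    rw [h2, Finset.sum_empty]
    simp only [ENat.toNat_zero, Nat.cast_zero, mul_zero, sub_zero]
    positivity
  · obtain ⟨L, _, _, Γ, ⟨A⟩, hX, hlog, hdet⟩ := exists_arcDat h hn T m h0 E
    have hT : Γ.HT ((CT + 1) * m) := by
      intro j f hf
      obtain ⟨α, h1, h2⟩ := hCT m L Γ A j f hf
      refine ⟨α, h1.trans (Nat.mul_le_mul_right _ (Nat.le_succ _)), fun h3 => h2 ?_⟩
      refine dvd_trans (pow_dvd_pow _ ?_) h3
      have h4 : CT * m * Γ.e j ≤ (CT + 1) * m * Γ.e j :=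
        Nat.mul_le_mul_right _ (Nat.mul_le_mul_right _ (Nat.le_succ _))
      omega
    obtain ⟨h1, h2⟩ := hm₂ m (secDim 𝒜 m) (by omega) hm1 h0 (hCg m hm1) L Γ A.r_eq hT
      (fun q hq => hSep m (by omega) q hq L Γ A) (hUP m L Γ A)
      (hI2F h hn m hm1 h0 c' (hc'.trans hcc'') (hm₁ m (by omega) h0) Γ A.arc A.a A.arc_x A.u_zero
        A.xi_eq (fun j => by rw [A.G_order j, ENat.toNat_natCast]) A.r_eq) hX _ hlog
    rw [hdet] at h2
    exact h2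

end Pool.Agent.Lib_KF
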