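import Pool.Agent.Lib_KF.FFuj
import Pool.Agent.Lib_KF.MBound

/-! `γ(X) = δ(X)` for klt Fano varieties with `δ(X) ≤ 1`. -/

open scoped ENNReal NNReal

namespace Pool.Agent.Lib_KF

open Pool.Agent.Lib_GD

variable {R : Type} [CommRing R] [Algebra ℂ R] {𝒜 : ℕ → Submodule ℂ R} [GradedAlgebra 𝒜]
  {n r d : ℕ} {x : Fin (n + 1) → R} {G : R}

omit [GradedAlgebra 𝒜] in
/-- There are no divisors over a point. -/
theorem isEmpty_divisorOver_zero (N : ℕ) : IsEmpty (DivisorOver 𝒜 0 N) := by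
  refine ⟨fun E => ?_⟩
  have h0 : Algebra.trdeg ℂ E.V = 0 := by
    rw [E.trdeg, Nat.zero_mul]
    rfl
  have halg : Algebra.IsAlgebraic ℂ E.V := by
    have : FaithfulSMul ℂ E.V := (faithfulSMul_iff_algebraMap_injective _ _).2
      (algebraMap ℂ E.V).injective
    exact trdeg_eq_zero_iff.1 h0
  have hint : Algebra.IsIntegral ℂ E.V := Algebra.IsAlgebraic.isIntegral
  have hf : IsField E.V := isField_of_isIntegral_of_isField' (Field.toIsField ℂ)
  exact IsDiscreteValuationRing.not_isField E.V hf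

/-- `min (δ, 1) ≤ γ`. -/
theorem min_stabilityF_le_gibbsF (h : IsFano 𝒜 n r d x G) (hn : 1 ≤ n)
    (hklt : IsKltVar 𝒜 n r x G) :
    min (stabilityF 𝒜 n r x G) 1 ≤ gibbsF 𝒜 n r x G := by
  refine le_of_forall_lt fun a ha => ?_
  obtain ⟨c, hac, hc⟩ := ENNReal.lt_iff_exists_nnreal_btwn.1 ha
  refine lt_of_lt_of_le hac ?_
  have hc0 : 0 < c := by
    have : (0 : ℝ≥0∞) < c := lt_of_le_of_lt zero_le hac
    exact_mod_cast this
  have hc1 : c < 1 := by
    have : (c : ℝ≥0∞) < 1 := lt_of_lt_of_le hc (min_le_right _ _)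
    exact_mod_cast this
  obtain ⟨D, hcD, hD⟩ := ENNReal.lt_iff_exists_nnreal_btwn.1 (lt_of_lt_of_le hc (min_le_left _ _))
  have hcD' : c < D := by exact_mod_cast hcD
  obtain ⟨m₁, hm₁⟩ := main_boundF h hn hklt D (fun E => by
    have h1 : (D : ℝ≥0∞) ≤ ENNReal.ofReal (logDisc E r x G) / (E.S 𝒜 / r) :=
      hD.le.trans (iInf_le _ E)
    have hA0 : ENNReal.ofReal (logDisc E r x G) ≠ 0 := by
      rw [Ne, ENNReal.ofReal_eq_zero, not_le]
      exact hklt E
    rwa [ENNReal.le_div_iff_mul_le (Or.inr hA0) (Or.inr ENNReal.ofReal_ne_top)] at h1) c hc0 hcD' hc1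
  unfold gibbsF
  refine Filter.le_liminf_of_le (by isBoundedDefault) ?_
  filter_upwards [Filter.eventually_ge_atTop m₁] with m hm
  exact le_iSup (fun c : {c : ℝ≥0 // IsKltPair 𝒜 n r x G m c} => (c : ℝ≥0∞)) ⟨c, hm₁ m hm⟩

/-- Q1: if `δ ≤ 1` then `δ = γ`. -/
theorem stabilityF_eq_gibbsF (h : IsFano 𝒜 n r d x G) (hklt : IsKltVar 𝒜 n r x G)
    (hδ : stabilityF 𝒜 n r x G ≤ 1) : stabilityF 𝒜 n r x G = gibbsF 𝒜 n r x G := by
  rcases Nat.eq_zero_or_pos n with rfl | hn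
  · have hE := isEmpty_divisorOver_zero (𝒜 := 𝒜) 1
    have h1 : stabilityF 𝒜 0 r x G = ⊤ := by
      unfold stabilityF
      exact iInf_of_empty _
    rw [h1] at hδ
    exact absurd hδ (by simp)
  · refine le_antisymm ?_ (gibbsF_le_stabilityF h hn fun m hm E' => ordDet_ne_topF h hn m hm E')
    have h1 := min_stabilityF_le_gibbsF h hn hklt
    rwa [min_eq_left hδ] at h1

end Pool.Agent.Lib_KF
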