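import Pool.Agent.Lib_GD.GenericArc

/-! G4a: the generic arc over an algebraically closed field. -/

open PowerSeries

namespace Pool.Agent.Lib_KF

open Pool.Agent.Lib_GD

/-- G4a. Proof: the proof of `exists_generic_arc` (Lib_GD/GenericArc.lean) with `L` replaced by
`AlgebraicClosure (FractionRing (MvPolynomial σ κ))`: the point `x` and the elements `cc` are the
images under the embedding; the family `Sum.elim cc (x ∘ w)` stays algebraically independent over
`ℂ` (`AlgebraicIndependent.map'` with the injection into the algebraic closure) and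
`exists_derivation` is applied in the algebraic closure. Everything else is verbatim. -/
theorem exists_generic_arc_closed (V : Type) [CommRing V] [IsDomain V]
    [IsDiscreteValuationRing V] [Algebra ℂ V] (r : ℕ) (t : V) (w : Fin r → V)
    (ht : Irreducible t) (δt : Derivation ℂ V V) (δ : Fin r → Derivation ℂ V V)
    (h1 : δt t = 1) (h2 : ∀ l, δt (w l) = 0) (h3 : ∀ l, δ l t = 0)
    (h4 : ∀ l k, δ l (w k) = if l = k then 1 else 0)
    (h5 : ∀ f, KaehlerDifferential.D ℂ V f = δt f • KaehlerDifferential.D ℂ V t +
        ∑ l, δ l f • KaehlerDifferential.D ℂ V (w l))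
    (h6 : ∀ l f, δt (δ l f) = δ l (δt f)) (h7 : ∀ l k f, δ l (δ k f) = δ k (δ l f)) :
    ∃ (L : Type) (_ : Field L) (_ : IsAlgClosed L) (_ : Algebra ℂ L) (Φ : V →ₐ[ℂ] L⟦X⟧),
      (∀ f, (Φ f).order = IsDiscreteValuationRing.addVal V f) ∧
      ∀ (ζ₀ : L⟦X⟧) (ζ : Fin r → L⟦X⟧), X ∣ ζ₀ →
        ∃ d : Derivation ℂ L L, hat d (Φ t) = ζ₀ ∧ ∀ l, hat d (Φ (w l)) = ζ l := by
  classical
  let κ : Type := IsLocalRing.ResidueField V
  let σ : Type := Option (Fin r) × ℕ
  let L0 : Type := FractionRing (MvPolynomial σ κ)
  let L : Type := AlgebraicClosure L0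
  -- the point
  let x : V →ₐ[ℂ] L := (IsScalarTower.toAlgHom ℂ κ L).comp (IsScalarTower.toAlgHom ℂ V κ)
  let cc : σ → L := fun s => algebraMap L0 L (algebraMap (MvPolynomial σ κ) L0 (MvPolynomial.X s))
  let der : Fin (r + 1) → Derivation ℂ V V := Fin.cons δt δ
  let y : Fin (r + 1) → V := Fin.cons t w
  have hc : ∀ l k b, der l (der k b) = der k (der l b) := by
    intro l k b
    refine Fin.cases ?_ (fun l => ?_) l <;> refine Fin.cases ?_ (fun k => ?_) k
    · rfl
    · exact h6 k b
    · exact (h6 l b).symm
    · exact h7 l k b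
  have hy : ∀ l k, der l (y k) = if l = k then 1 else 0 := by
    intro l k
    refine Fin.cases ?_ (fun l => ?_) l <;> refine Fin.cases ?_ (fun k => ?_) k
    · simpa [der, y] using h1
    · simpa [der, y, Fin.succ_ne_zero, (Fin.succ_ne_zero _).symm] using h2 k
    · simpa [der, y, Fin.succ_ne_zero] using h3 l
    · simpa [der, y] using h4 l k
  -- the arc
  let idx : Fin (r + 1) → Option (Fin r) := Fin.cons none some
  let a : Fin (r + 1) → L⟦X⟧ := fun k => PowerSeries.mk fun i =>
    if i = 0 then 0 else cc (idx k, i)
  have ha0 : ∀ k, MvPowerSeries.constantCoeff (a k) = 0 := by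
    intro k
    change PowerSeries.constantCoeff (a k) = 0
    rw [← PowerSeries.coeff_zero_eq_constantCoeff_apply]
    simp [a]
  have ha : MvPowerSeries.HasSubst a := MvPowerSeries.hasSubst_of_constantCoeff_zero ha0
  have hxt : x t = 0 := by
    change algebraMap κ L (algebraMap V κ t) = 0
    have : algebraMap V κ t = 0 := by
      change IsLocalRing.residue V t = 0
      rw [IsLocalRing.residue_eq_zero_iff, ht.maximalIdeal_eq]
      exact Ideal.mem_span_singleton_self t
    rw [this, map_zero]
  have hcc : ∀ s, cc s ≠ 0 := by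
    intro s h
    have h' := (map_eq_zero_iff _ (algebraMap L0 L).injective).1 h
    have := (map_eq_zero_iff _ (IsFractionRing.injective (MvPolynomial σ κ) L0)).1 h'
    exact MvPolynomial.X_ne_zero s this
  let sb : MvPowerSeries (Fin (r + 1)) L →ₐ[L] L⟦X⟧ := MvPowerSeries.substAlgHom ha
  let Φ : V →ₐ[ℂ] L⟦X⟧ := (sb.restrictScalars ℂ).comp (taylorG der hc x)
  have hsbC : ∀ c : L, sb (MvPowerSeries.C c) = C c := by
    intro c
    exact sb.commutes c
  have hΦy : ∀ k, Φ (y k) = C (x (y k)) + a k := by
    intro k
    change sb (taylorG der hc x (y k)) = _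
    rw [genericArc_taylor_coord der hc y hy x k, map_add, hsbC]
    congr 1
    exact MvPowerSeries.substAlgHom_X ha k
  have hΦ0 : ∀ f, constantCoeff (Φ f) = x f := by
    intro f
    have e1 : MvPowerSeries.constantCoeff (taylorG der hc x f) = x f := by
      rw [← MvPowerSeries.coeff_zero_eq_constantCoeff_apply, coeff_taylorG, tayG, ddG_zero]
      simp
    have e2 : Φ f = sb (taylorG der hc x f - MvPowerSeries.C (x f)) + C (x f) := by
      rw [map_sub, hsbC, sub_add_cancel]
      rfl
    rw [e2, map_add, constantCoeff_C]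
    have e3 : MvPowerSeries.constantCoeff (taylorG der hc x f - MvPowerSeries.C (x f)) = 0 := by
      rw [map_sub, e1, MvPowerSeries.constantCoeff_C, sub_self]
    have e4 := MvPowerSeries.constantCoeff_subst_eq_zero ha ha0 e3
    have e5 : constantCoeff (sb (taylorG der hc x f - MvPowerSeries.C (x f))) = 0 := by
      change MvPowerSeries.constantCoeff (sb _) = 0
      rw [← e4]
      congr 1
      exact congrFun (MvPowerSeries.coe_substAlgHom ha) _
    rw [e5, zero_add]
  have hΦt : Φ t = a 0 := by
    have := hΦy 0
    simp only [y, Fin.cons_zero, hxt, map_zero, zero_add] at this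
    exact this
  have hΦw : ∀ l, Φ (w l) = C (x (w l)) + a l.succ := by
    intro l
    have := hΦy l.succ
    simpa only [y, Fin.cons_succ] using this
  refine ⟨L, inferInstance, inferInstance, inferInstance, Φ, ?_, ?_⟩
  · -- orders
    have hot : (Φ t).order = 1 := by
      rw [hΦt]
      have : ((1 : ℕ) : ℕ∞) = 1 := rfl
      rw [← this, PowerSeries.order_eq_nat]
      constructor
      · simp only [a, coeff_mk, one_ne_zero, if_false]
        exact hcc _
      · intro i hi
        have : i = 0 := by omega
        subst this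
        simp [a]
    intro f
    by_cases hf : f = 0
    · subst hf; simp
    · obtain ⟨k, u, rfl⟩ := IsDiscreteValuationRing.eq_unit_mul_pow_irreducible hf ht
      have hu : (Φ u).order = 0 := by
        have h := hΦ0 (u : V)
        have hxu : x (u : V) ≠ 0 := (u.isUnit.map x).ne_zero
        have : ((0 : ℕ) : ℕ∞) = 0 := rfl
        rw [← this, PowerSeries.order_eq_nat]
        refine ⟨?_, fun i hi => absurd hi (Nat.not_lt_zero i)⟩
        rw [coeff_zero_eq_constantCoeff_apply, h]
        exact hxu
      rw [map_mul, map_pow, PowerSeries.order_mul, PowerSeries.order_pow, hot, hu]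
      rw [IsDiscreteValuationRing.addVal_def _ u ht k rfl]
      simp
  · -- derivations
    intro ζ₀ ζ hζ₀
    have hex : ∀ l, ∃ e : Derivation ℂ κ κ, ∀ f, e (algebraMap V κ f) =
        algebraMap V κ (δ l f) := by
      intro l
      refine genericArc_desc (V := V) (κ := κ) IsLocalRing.residue_surjective (δ l) ?_
      intro f hf
      have hf' : f ∈ IsLocalRing.maximalIdeal V := by
        rw [← IsLocalRing.residue_eq_zero_iff]; exact hf
      rw [ht.maximalIdeal_eq, Ideal.mem_span_singleton] at hf'
      obtain ⟨g, rfl⟩ := hf'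
      rw [Derivation.leibniz, h3, smul_zero, add_zero, smul_eq_mul, map_mul]
      have : algebraMap V κ t = 0 := by
        change IsLocalRing.residue V t = 0
        rw [IsLocalRing.residue_eq_zero_iff, ht.maximalIdeal_eq]
        exact Ideal.mem_span_singleton_self t
      rw [this, zero_mul]
    choose e he using hex
    have hAI : AlgebraicIndependent ℂ (fun l => algebraMap V κ (w l)) := by
      refine genericArc_algInd e ?_ _ ?_
      · intro l k b
        obtain ⟨f, rfl⟩ := IsLocalRing.residue_surjective (R := V) b
        change e l (e k (algebraMap V κ f)) = e k (e l (algebraMap V κ f))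
        rw [he, he, he, he, h7]
      · intro l k
        rw [he, h4]
        split_ifs <;> simp
    have hAI2 : AlgebraicIndependent κ cc := by
      have := (MvPolynomial.algebraicIndependent_X σ κ).map'
        (f := (IsScalarTower.toAlgHom κ L0 L).comp (IsScalarTower.toAlgHom κ (MvPolynomial σ κ) L0))
        ((algebraMap L0 L).injective.comp (IsFractionRing.injective (MvPolynomial σ κ) L0))
      exact this
    have hAI3 := hAI.sumElim_comp hAI2
    obtain ⟨d, hd⟩ := exists_derivation _ hAI3
      (Sum.elim (fun s : σ => s.1.elim (coeff s.2 ζ₀) (fun l => coeff s.2 (ζ l)))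
        (fun l => coeff 0 (ζ l)))
    have hd1 : ∀ i, d (cc (none, i)) = coeff i ζ₀ := fun i => hd (Sum.inl (none, i))
    have hd2 : ∀ l i, d (cc (some l, i)) = coeff i (ζ l) := fun l i => hd (Sum.inl (some l, i))
    have hd3 : ∀ l, d (x (w l)) = coeff 0 (ζ l) := fun l => hd (Sum.inr l)
    refine ⟨d, ?_, ?_⟩
    · rw [hΦt]
      ext i
      rw [coeff_hat]
      simp only [a, coeff_mk]
      by_cases hi : i = 0
      · subst hi
        rw [if_pos rfl, map_zero, coeff_zero_eq_constantCoeff_apply, eq_comm,
          ← X_dvd_iff]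
        exact hζ₀
      · rw [if_neg hi]
        exact hd1 i
    · intro l
      rw [hΦw]
      ext i
      rw [coeff_hat, map_add, coeff_C]
      simp only [a, coeff_mk]
      by_cases hi : i = 0
      · subst hi
        rw [if_pos rfl, if_pos rfl, add_zero]
        exact hd3 l
      · rw [if_neg hi, if_neg hi, zero_add]
        exact hd2 l i

end Pool.Agent.Lib_KF
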