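import Pool.Agent.Lib_KF.Defs
import Pool.Agent.Lib_GD.ArcDefs

/-!
# Derivations of the cone with respect to the projection `x`

`∂_b` is the derivation `∂ / ∂x_b` of the fraction field of `R`; `h ∂_b` maps `R` to `R`. In the
chart `x a = 1` (`a : Fin (n + 1)`) only the `∂_b` with `b ≠ a`, `b = a.succAbove l`, are used;
`F a α = h ^ |α| ∂^α`.
-/

open PowerSeries

namespace Pool.Agent.Lib_KF

open Pool.Agent.Lib_GD

/-- The number `γ! / (α! β!)` for `γ = α + β`. -/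
noncomputable def binG {n : ℕ} (α β : Fin n →₀ ℕ) : ℂ :=
  ∏ l, ((α l + β l).choose (α l) : ℂ)

/-- Iterated partial derivatives of polynomials in the variables `a.succAbove l`. -/
noncomputable def pdG {n : ℕ} (a : Fin (n + 1)) (α : Fin n →₀ ℕ) :
    Module.End ℂ (MvPolynomial (Fin (n + 1)) ℂ) :=
  ((List.finRange n).map fun l =>
    (((MvPolynomial.pderiv (a.succAbove l) :
      Derivation ℂ (MvPolynomial (Fin (n + 1)) ℂ) (MvPolynomial (Fin (n + 1)) ℂ)) :
      MvPolynomial (Fin (n + 1)) ℂ →ₗ[ℂ] MvPolynomial (Fin (n + 1)) ℂ) :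
      Module.End ℂ (MvPolynomial (Fin (n + 1)) ℂ)) ^ (α l)).prod

/-- The derivations `E b = h ∂_b` of `R` and the operators `F a α = h ^ |α| ∂^α`. -/
structure DerData {R : Type} [CommRing R] [Algebra ℂ R] {n : ℕ} (x : Fin (n + 1) → R) where
  hp : MvPolynomial (Fin (n + 1)) ℂ
  hp_ne : hp ≠ 0
  wt : ℕ
  hp_hom : hp.IsHomogeneous wt
  E : Fin (n + 1) → Derivation ℂ R R
  E_x : ∀ b c, E b (x c) = if b = c then MvPolynomial.aeval x hp else 0
  /-- `h ds = ∑ h ∂_b s dx_b` in `Ω_{R/ℂ}`. -/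
  om : ∀ s, MvPolynomial.aeval x hp • KaehlerDifferential.D ℂ R s =
    ∑ b, E b s • KaehlerDifferential.D ℂ R (x b)
  F : Fin (n + 1) → (Fin n →₀ ℕ) → R →ₗ[ℂ] R
  F_zero : ∀ a s, F a 0 s = s
  F_succ : ∀ a α l s, F a (α + Finsupp.single l 1) s = E (a.succAbove l) (F a α s) -
    (α.degree : R) * MvPolynomial.aeval x (MvPolynomial.pderiv (a.succAbove l) hp) * F a α s
  F_mul : ∀ a γ s s', F a γ (s * s') = ∑ p ∈ Finset.HasAntidiagonal.antidiagonal γ,
    binG p.1 p.2 • (F a p.1 s * F a p.2 s')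
  F_poly : ∀ a γ p, F a γ (MvPolynomial.aeval x p) =
    MvPolynomial.aeval x hp ^ γ.degree * MvPolynomial.aeval x (pdG a γ p)

variable {R : Type} [CommRing R] [Algebra ℂ R] {n : ℕ} {x : Fin (n + 1) → R}

/-- `h` as an element of `R`. -/
noncomputable def DerData.h (T : DerData x) : R := MvPolynomial.aeval x T.hp

end Pool.Agent.Lib_KF
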