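import Pool.Agent.Lib_KF.GDefs

/-! G1a, G1b: existence of `h` and of the derivations `h ∂_b`. -/

namespace Pool.Agent.Lib_KF

open Pool.Agent.Lib_GD

section GDerAux

open DirectSum KaehlerDifferential

/-- The homogeneous components of a polynomial in `x` are polynomials in `x`. -/
private theorem gder_comp {R : Type} [CommRing R] [Algebra ℂ R] {𝒜 : ℕ → Submodule ℂ R}
    [GradedAlgebra 𝒜] {n d : ℕ} {x : Fin (n + 1) → R} (hx : ∀ b, x b ∈ 𝒜 d)
    (p : MvPolynomial (Fin (n + 1)) ℂ) :
    ∀ j, ∃ p' : MvPolynomial (Fin (n + 1)) ℂ, MvPolynomial.aeval x p' = (decompose 𝒜 (MvPolynomial.aeval x p) j : R) := by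
  induction p using MvPolynomial.induction_on with
  | C c =>
    intro j
    by_cases hj : j = 0
    · refine ⟨MvPolynomial.C c, ?_⟩
      subst hj
      rw [MvPolynomial.aeval_C, decompose_of_mem_same _ (SetLike.algebraMap_mem_graded 𝒜 c)]
    · refine ⟨0, ?_⟩
      rw [MvPolynomial.aeval_C,
        decompose_of_mem_ne _ (SetLike.algebraMap_mem_graded 𝒜 c) (Ne.symm hj), map_zero]
  | add p q hp hq =>
    intro j
    obtain ⟨p', hp'⟩ := hp j
    obtain ⟨q', hq'⟩ := hq j
    exact ⟨p' + q', by rw [map_add, map_add, decompose_add, hp', hq']; rfl⟩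
  | mul_X p b hp =>
    intro j
    rw [map_mul, MvPolynomial.aeval_X, coe_decompose_mul_of_right_mem 𝒜 j (hx b)]
    split_ifs with h
    · obtain ⟨p', hp'⟩ := hp (j - d)
      exact ⟨p' * MvPolynomial.X b, by rw [map_mul, MvPolynomial.aeval_X, hp']⟩
    · exact ⟨0, map_zero _⟩

/-- A form of degree `k` in `x` has degree `k * d`. -/
private theorem gder_form {R : Type} [CommRing R] [Algebra ℂ R] {𝒜 : ℕ → Submodule ℂ R}
    [GradedAlgebra 𝒜] {n d : ℕ} {x : Fin (n + 1) → R} (hx : ∀ b, x b ∈ 𝒜 d)
    {p : MvPolynomial (Fin (n + 1)) ℂ} {k : ℕ} (hp : p.IsHomogeneous k) :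
    MvPolynomial.aeval x p ∈ 𝒜 (k * d) := by
  rw [p.as_sum, map_sum]
  refine Submodule.sum_mem _ fun u hu => ?_
  rw [MvPolynomial.aeval_monomial]
  have h1 : (u.prod fun i e => x i ^ e) ∈ 𝒜 (∑ i ∈ u.support, u i • d) :=
    SetLike.prod_pow_mem_graded 𝒜 (fun _ => d) x u (fun b _ => hx b)
  have h2 : ∑ i ∈ u.support, u i • d = k * d := by
    have h3 : u.degree = k := by
      rw [Finsupp.degree_eq_weight_one]
      exact hp (MvPolynomial.mem_support_iff.mp hu)
    rw [← h3, ← Finset.sum_smul, smul_eq_mul]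
    rfl
  have h4 := SetLike.mul_mem_graded (SetLike.algebraMap_mem_graded 𝒜 (p.coeff u)) h1
  rw [h2, zero_add] at h4
  exact h4

/-- A polynomial in `x` which is homogeneous in `R` is a form. -/
private theorem gder_hom {R : Type} [CommRing R] [Algebra ℂ R] {𝒜 : ℕ → Submodule ℂ R}
    [GradedAlgebra 𝒜] {n d : ℕ} {x : Fin (n + 1) → R} (hd : 1 ≤ d) (hx : ∀ b, x b ∈ 𝒜 d)
    (hi : Function.Injective
      (MvPolynomial.aeval x : MvPolynomial (Fin (n + 1)) ℂ →ₐ[ℂ] R))
    {c : MvPolynomial (Fin (n + 1)) ℂ} {j : ℕ} (hc : MvPolynomial.aeval x c ∈ 𝒜 j) :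
    ∃ k, c.IsHomogeneous k := by
  have key : ∀ k, k * d ≠ j → MvPolynomial.homogeneousComponent k c = 0 := by
    intro k hk
    apply hi
    rw [map_zero]
    have h1 : (decompose 𝒜 (MvPolynomial.aeval x c) (k * d) : R) =
        MvPolynomial.aeval x (MvPolynomial.homogeneousComponent k c) := by
      conv_lhs => rw [← MvPolynomial.sum_homogeneousComponent c]
      rw [map_sum, decompose_sum, DFinsupp.finsetSum_apply, AddSubmonoidClass.coe_finsetSum]
      have h2 : ∀ i ∈ Finset.range (c.totalDegree + 1), i ≠ k →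
          (decompose 𝒜 (MvPolynomial.aeval x (MvPolynomial.homogeneousComponent i c))
            (k * d) : R) = 0 := by
        intro i _ hik
        refine decompose_of_mem_ne _
          (gder_form hx (MvPolynomial.homogeneousComponent_isHomogeneous i c)) ?_
        intro he
        exact hik (Nat.eq_of_mul_eq_mul_right hd he)
      by_cases hkr : k ∈ Finset.range (c.totalDegree + 1)
      · rw [Finset.sum_eq_single_of_mem k hkr h2]
        exact decompose_of_mem_same _
          (gder_form hx (MvPolynomial.homogeneousComponent_isHomogeneous k c))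
      · rw [Finset.sum_eq_zero fun i hi' => h2 i hi' (by rintro rfl; exact hkr hi')]
        rw [MvPolynomial.homogeneousComponent_eq_zero k c (by
          simp only [Finset.mem_range] at hkr; omega), map_zero]
    rw [← h1]
    exact decompose_of_mem_ne _ hc (Ne.symm hk)
  by_cases hex : ∃ k, k * d = j
  · obtain ⟨k, hk⟩ := hex
    refine ⟨k, ?_⟩
    have h1 : c = MvPolynomial.homogeneousComponent k c := by
      conv_lhs => rw [← MvPolynomial.sum_homogeneousComponent c]
      have h2 : ∀ i ∈ Finset.range (c.totalDegree + 1), i ≠ k →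
          MvPolynomial.homogeneousComponent i c = 0 := by
        intro i _ hik
        refine key i fun he => hik (Nat.eq_of_mul_eq_mul_right hd (he.trans hk.symm))
      by_cases hkr : k ∈ Finset.range (c.totalDegree + 1)
      · exact Finset.sum_eq_single_of_mem k hkr h2
      · rw [Finset.sum_eq_zero fun i hi' => h2 i hi' (by rintro rfl; exact hkr hi')]
        rw [MvPolynomial.homogeneousComponent_eq_zero k c (by
          simp only [Finset.mem_range] at hkr; omega)]
    rw [h1]
    exact MvPolynomial.homogeneousComponent_isHomogeneous k c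
  · push Not at hex
    refine ⟨0, ?_⟩
    have h1 : c = 0 := by
      rw [← MvPolynomial.sum_homogeneousComponent c]
      exact Finset.sum_eq_zero fun i _ => key i (hex i)
    rw [h1]
    exact MvPolynomial.isHomogeneous_zero _ _ _

/-- The derivative of `P (s)`. -/
private theorem gder_relation {A R : Type} [CommRing A] [CommRing R] [Algebra ℂ R] [Algebra A R]
    (N : Submodule R (KaehlerDifferential ℂ R)) (hN : ∀ a : A, D ℂ R (algebraMap A R a) ∈ N)
    (s : R) (P : Polynomial A) :
    D ℂ R (Polynomial.aeval s P) -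
      Polynomial.aeval s (Polynomial.derivative P) • D ℂ R s ∈ N := by
  induction P using Polynomial.induction_on' with
  | add p q hp hq =>
    have h := N.add_mem hp hq
    rw [map_add, map_add, Polynomial.derivative_add, map_add, add_smul]
    convert h using 1
    abel
  | monomial m a =>
    have h1 := N.smul_mem (s ^ m) (hN a)
    rw [Polynomial.derivative_monomial, Polynomial.aeval_monomial, Polynomial.aeval_monomial,
      Derivation.leibniz, Derivation.leibniz_pow]
    convert h1 using 1
    rw [map_mul, map_natCast, mul_smul, mul_smul, ← Nat.cast_smul_eq_nsmul R]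
    abel

section Minpoly

variable {A R : Type} [CommRing A] [IsDomain A] [IsIntegrallyClosed A] [CommRing R] [IsDomain R]
  [Algebra ℂ R] [Algebra A R] [Module.IsTorsionFree A R] {𝒜 : ℕ → Submodule ℂ R}
  [GradedAlgebra 𝒜]

/-- The minimal polynomial of a homogeneous element is homogeneous. -/
private theorem gder_minpoly
    (hA : ∀ (a : A) (j : ℕ), ∃ a' : A, algebraMap A R a' =
      (decompose 𝒜 (algebraMap A R a) j : R))
    {s : R} {m : ℕ} (hs : s ∈ 𝒜 m) (hint : IsIntegral A s) (k : ℕ)
    (hk : k ≤ (minpoly A s).natDegree) :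
    algebraMap A R ((minpoly A s).coeff k) ∈ 𝒜 (((minpoly A s).natDegree - k) * m) := by
  choose g hg using hA
  set P := minpoly A s with hP
  set p := P.natDegree with hp
  have hinj : Function.Injective (algebraMap A R) :=
    Module.isTorsionFree_iff_algebraMap_injective.mp inferInstance
  let Q : Polynomial A := ∑ i ∈ Finset.range (p + 1),
    Polynomial.monomial i (g (P.coeff i) ((p - i) * m))
  have hQc : ∀ i ≤ p, Q.coeff i = g (P.coeff i) ((p - i) * m) := by
    intro i hi
    simp only [Q, Polynomial.finsetSum_coeff, Polynomial.coeff_monomial]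
    rw [Finset.sum_ite_eq' (Finset.range (p + 1)) i]
    rw [if_pos (Finset.mem_range.mpr (by omega))]
  have hQd : Q.natDegree ≤ p := by
    refine Polynomial.natDegree_sum_le_of_forall_le _ _ fun i hi => ?_
    refine (Polynomial.natDegree_monomial_le _).trans ?_
    have := Finset.mem_range.mp hi
    omega
  have hmon : P.Monic := minpoly.monic hint
  have hQp : Q.coeff p = 1 := by
    rw [hQc p le_rfl]
    apply hinj
    rw [hg, Nat.sub_self, zero_mul, hp, hmon.coeff_natDegree, map_one,
      decompose_of_mem_same _ (SetLike.GradedOne.one_mem (A := 𝒜))]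
  have hQr : Polynomial.aeval s Q = 0 := by
    have h1 : Polynomial.aeval s Q = (decompose 𝒜 (Polynomial.aeval s P) (p * m) : R) := by
      rw [Polynomial.aeval_eq_sum_range' (Nat.lt_succ_of_le hQd),
        Polynomial.aeval_eq_sum_range' (Nat.lt_succ_self P.natDegree), ← hp, decompose_sum,
        DFinsupp.finsetSum_apply, AddSubmonoidClass.coe_finsetSum]
      refine Finset.sum_congr rfl fun i hi => ?_
      have hi' : i ≤ p := by have := Finset.mem_range.mp hi; omega
      rw [hQc i hi', Algebra.smul_def, Algebra.smul_def, hg]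
      have h2 : p * m = (p - i) * m + i * m := by rw [← Nat.add_mul]; congr 1; omega
      have h3 : s ^ i ∈ 𝒜 (i * m) := by
        have := SetLike.pow_mem_graded i hs
        rwa [smul_eq_mul] at this
      rw [h2, coe_decompose_mul_add_of_right_mem 𝒜 h3]
    rw [h1, hP, minpoly.aeval, decompose_zero]
    rfl
  have hdvd : P ∣ Q := minpoly.isIntegrallyClosed_dvd hint hQr
  have hQn : Q ≠ 0 := by
    intro h0
    rw [h0, Polynomial.coeff_zero] at hQp
    exact zero_ne_one hQp
  have hQd' : Q.natDegree = p := le_antisymm hQd (Polynomial.natDegree_le_of_dvd hdvd hQn)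
  have hPQ : P = Q := by
    refine Polynomial.eq_of_dvd_of_natDegree_le_of_leadingCoeff hdvd hQd ?_
    rw [hmon.leadingCoeff, Polynomial.leadingCoeff, hQd', hQp]
  rw [hPQ, hQc k hk, hg]
  exact SetLike.coe_mem _

omit [Algebra ℂ R] in
/-- The derivative of the minimal polynomial of `s` does not vanish at `s`. -/
private theorem gder_sep [CharZero A] {s : R} (hint : IsIntegral A s) :
    Polynomial.aeval s (Polynomial.derivative (minpoly A s)) ≠ 0 := by
  intro h0
  have hdvd := minpoly.isIntegrallyClosed_dvd hint h0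
  have hpos := minpoly.natDegree_pos hint
  have hne : Polynomial.derivative (minpoly A s) ≠ 0 := by
    intro h1
    have := Polynomial.derivative_eq_zero.mp h1
    omega
  have h2 := Polynomial.natDegree_le_of_dvd hdvd hne
  have h3 := Polynomial.natDegree_derivative_lt (p := minpoly A s) (by omega)
  omega

/-- A non-zero homogeneous element divides a non-zero homogeneous element of `A`. -/
private theorem gder_norm
    (hA : ∀ (a : A) (j : ℕ), ∃ a' : A, algebraMap A R a' =
      (decompose 𝒜 (algebraMap A R a) j : R))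
    {s : R} {m : ℕ} (hs : s ∈ 𝒜 m) (hint : IsIntegral A s) (h0 : s ≠ 0) :
    ∃ (c : A) (j : ℕ), c ≠ 0 ∧ algebraMap A R c ∈ 𝒜 j ∧ s ∣ algebraMap A R c := by
  have hc : (minpoly A s).coeff 0 ≠ 0 := by
    intro hc
    have h1 : (Polynomial.X : Polynomial A) ∣ minpoly A s := Polynomial.X_dvd_iff.mpr hc
    have h2 := Polynomial.irreducible_X.associated_of_dvd (minpoly.irreducible hint) h1
    have h3 := Polynomial.eq_of_monic_of_associated Polynomial.monic_X (minpoly.monic hint) h2
    have h4 := minpoly.aeval A s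
    rw [← h3, Polynomial.aeval_X] at h4
    exact h0 h4
  refine ⟨(minpoly A s).coeff 0, _, hc,
    gder_minpoly hA hs hint 0 (Nat.zero_le _), ?_⟩
  have h1 := minpoly.aeval A s
  rw [← Polynomial.divX_mul_X_add (minpoly A s), map_add, map_mul, Polynomial.aeval_X,
    Polynomial.aeval_C] at h1
  refine ⟨-Polynomial.aeval s (minpoly A s).divX, ?_⟩
  rw [eq_neg_of_add_eq_zero_right h1]
  ring

/-- For homogeneous `s` there is a non-zero homogeneous `c` in `A` with `c ds` in the span. -/
private theorem gder_elem [CharZero A]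
    (hA : ∀ (a : A) (j : ℕ), ∃ a' : A, algebraMap A R a' =
      (decompose 𝒜 (algebraMap A R a) j : R))
    (hI : ∀ s : R, IsIntegral A s)
    (N : Submodule R (KaehlerDifferential ℂ R)) (hN : ∀ a : A, D ℂ R (algebraMap A R a) ∈ N)
    {s : R} {m : ℕ} (hs : s ∈ 𝒜 m) :
    ∃ (c : A) (j : ℕ), c ≠ 0 ∧ algebraMap A R c ∈ 𝒜 j ∧
      algebraMap A R c • D ℂ R s ∈ N := by
  have hint := hI s
  set q := Polynomial.aeval s (Polynomial.derivative (minpoly A s)) with hq
  have hq0 : q ≠ 0 := gder_sep hint
  have hqN : q • D ℂ R s ∈ N := by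
    have h := gder_relation N hN s (minpoly A s)
    rw [minpoly.aeval, map_zero, zero_sub] at h
    exact (Submodule.neg_mem_iff N).mp h
  have hqh : q ∈ 𝒜 (((minpoly A s).natDegree - 1) * m) := by
    have hpos := minpoly.natDegree_pos hint
    rw [hq, Polynomial.aeval_eq_sum_range' (n := (minpoly A s).natDegree)
      (Polynomial.natDegree_derivative_lt (by omega))]
    refine Submodule.sum_mem _ fun i hi => ?_
    have hi' := Finset.mem_range.mp hi
    rw [Polynomial.coeff_derivative, Algebra.smul_def, map_mul]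
    have h1 := gder_minpoly hA hs hint (i + 1) (by omega)
    have h2 : algebraMap A R ((i : A) + 1) ∈ 𝒜 0 := by
      have : algebraMap A R ((i : A) + 1) = algebraMap ℂ R ((i : ℂ) + 1) := by simp
      rw [this]
      exact SetLike.algebraMap_mem_graded 𝒜 _
    have h3 := SetLike.mul_mem_graded (SetLike.mul_mem_graded h1 h2)
      (SetLike.pow_mem_graded i hs)
    have h4 : ((minpoly A s).natDegree - (i + 1)) * m + 0 + i • m =
        ((minpoly A s).natDegree - 1) * m := by
      rw [add_zero, smul_eq_mul, ← Nat.add_mul]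
      congr 1
      omega
    rw [h4] at h3
    exact h3
  obtain ⟨c, j, hc0, hcj, e, he⟩ := gder_norm hA hqh (hI q) hq0
  refine ⟨c, j, hc0, hcj, ?_⟩
  rw [he, mul_comm, mul_smul]
  exact N.smul_mem _ hqN

/-- The same for every `s`. -/
private theorem gder_all [CharZero A]
    (hA : ∀ (a : A) (j : ℕ), ∃ a' : A, algebraMap A R a' =
      (decompose 𝒜 (algebraMap A R a) j : R))
    (hI : ∀ s : R, IsIntegral A s)
    (N : Submodule R (KaehlerDifferential ℂ R)) (hN : ∀ a : A, D ℂ R (algebraMap A R a) ∈ N)
    (s : R) :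
    ∃ (c : A) (j : ℕ), c ≠ 0 ∧ algebraMap A R c ∈ 𝒜 j ∧
      algebraMap A R c • D ℂ R s ∈ N := by
  refine DirectSum.Decomposition.inductionOn 𝒜 (motive := fun s => ∃ (c : A) (j : ℕ),
    c ≠ 0 ∧ algebraMap A R c ∈ 𝒜 j ∧ algebraMap A R c • D ℂ R s ∈ N) ?_ ?_ ?_ s
  · refine ⟨1, 0, one_ne_zero, ?_, ?_⟩
    · rw [map_one]; exact SetLike.GradedOne.one_mem
    · rw [map_zero, smul_zero]; exact N.zero_mem
  · intro i t
    exact gder_elem hA hI N hN t.2
  · rintro t t' ⟨c, j, hc0, hcj, hc⟩ ⟨c', j', hc0', hcj', hc'⟩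
    refine ⟨c * c', j + j', mul_ne_zero hc0 hc0', ?_, ?_⟩
    · rw [map_mul]; exact SetLike.mul_mem_graded hcj hcj'
    · rw [map_mul, map_add, smul_add]
      refine N.add_mem ?_ ?_
      · rw [mul_comm, mul_smul]; exact N.smul_mem _ hc
      · rw [mul_smul]; exact N.smul_mem _ hc'

/-- One `c` for the whole of `R`, if `R` is a finite `A`-module. -/
private theorem gder_uniform [CharZero A] [Module.Finite A R]
    (hA : ∀ (a : A) (j : ℕ), ∃ a' : A, algebraMap A R a' =
      (decompose 𝒜 (algebraMap A R a) j : R))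
    (N : Submodule R (KaehlerDifferential ℂ R)) (hN : ∀ a : A, D ℂ R (algebraMap A R a) ∈ N) :
    ∃ (c : A) (j : ℕ), c ≠ 0 ∧ algebraMap A R c ∈ 𝒜 j ∧
      ∀ s : R, algebraMap A R c • D ℂ R s ∈ N := by
  classical
  have hI : ∀ s : R, IsIntegral A s := fun s => Algebra.IsIntegral.isIntegral s
  have hfin : ∀ S : Finset R, ∃ (c : A) (j : ℕ), c ≠ 0 ∧ algebraMap A R c ∈ 𝒜 j ∧
      ∀ s ∈ S, algebraMap A R c • D ℂ R s ∈ N := by
    intro S
    induction S using Finset.induction_on with
    | empty =>
      refine ⟨1, 0, one_ne_zero, ?_, ?_⟩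
      · rw [map_one]; exact SetLike.GradedOne.one_mem
      · intro s hs
        exact absurd hs (Finset.notMem_empty s)
    | insert t S _ ih =>
      obtain ⟨c, j, hc0, hcj, hc⟩ := ih
      obtain ⟨c', j', hc0', hcj', hc'⟩ := gder_all hA hI N hN t
      refine ⟨c * c', j + j', mul_ne_zero hc0 hc0', ?_, ?_⟩
      · rw [map_mul]; exact SetLike.mul_mem_graded hcj hcj'
      · intro s hs
        rw [map_mul]
        rcases Finset.mem_insert.mp hs with rfl | hs
        · rw [mul_smul]; exact N.smul_mem _ hc'
        · rw [mul_comm, mul_smul]; exact N.smul_mem _ (hc s hs)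
  obtain ⟨S, hS⟩ := (Module.finite_def.mp (inferInstance : Module.Finite A R))
  obtain ⟨c, j, hc0, hcj, hc⟩ := hfin S
  refine ⟨c, j, hc0, hcj, fun s => ?_⟩
  have hs : s ∈ Submodule.span A (S : Set R) := by rw [hS]; trivial
  induction hs using Submodule.span_induction with
  | mem t ht => exact hc t ht
  | zero => rw [map_zero, smul_zero]; exact N.zero_mem
  | add t t' _ _ ht ht' => rw [map_add, smul_add]; exact N.add_mem ht ht'
  | smul a t _ ht =>
    rw [Algebra.smul_def, Derivation.leibniz, smul_add]
    refine N.add_mem ?_ ?_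
    · rw [smul_comm]; exact N.smul_mem _ ht
    · exact N.smul_mem _ (N.smul_mem _ (hN a))

end Minpoly

end GDerAux

variable {R : Type} [CommRing R] [Algebra ℂ R] {𝒜 : ℕ → Submodule ℂ R} [GradedAlgebra 𝒜]
  {n r d : ℕ} {x : Fin (n + 1) → R} {G : R}

/-- G1a. Proof: `R` is generated as a `ℂ`-algebra by finitely many homogeneous elements `s_i`
(`x_finite`). Each `s_i`, of degree `m`, is a root of a monic polynomial over `ℂ[x]`, homogeneous
in the sense that the coefficient of `T ^ (p - k)` is a form of degree `k m / d` (or `0`); take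
such a homogeneous `P_i ≠ 0` (not necessarily monic) of least degree in `T`: then
`P_i' (s_i) ≠ 0` (characteristic zero), homogeneous, and `P_i' (s_i) D s_i` is in the span of the
`D (x b)` because `0 = D (P_i (s_i)) = P_i' (s_i) D s_i + ∑ s_i ^ k D a_k`. A non-zero homogeneous
element `q` of `R` divides a non-zero form in `ℂ[x]`: the constant coefficient of its homogeneous
integral equation of least degree. `hp` = the product of these forms over all `i`. The set of `s`
with `h D s` in the span is a subalgebra (Leibniz). -/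
theorem exists_hp (h : IsFano 𝒜 n r d x G) :
    ∃ (hp : MvPolynomial (Fin (n + 1)) ℂ) (wt : ℕ), hp ≠ 0 ∧ hp.IsHomogeneous wt ∧
      ∀ s : R, MvPolynomial.aeval x hp • KaehlerDifferential.D ℂ R s ∈
        Submodule.span R (Set.range fun b => KaehlerDifferential.D ℂ R (x b)) := by
  classical
  have := h.domain
  have hi : Function.Injective
      (MvPolynomial.aeval x : MvPolynomial (Fin (n + 1)) ℂ →ₐ[ℂ] R) := h.x_indep
  let _ : Algebra (MvPolynomial (Fin (n + 1)) ℂ) R :=
    (MvPolynomial.aeval x : MvPolynomial (Fin (n + 1)) ℂ →ₐ[ℂ] R).toRingHom.toAlgebra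
  have hmap : ∀ p : MvPolynomial (Fin (n + 1)) ℂ,
      algebraMap (MvPolynomial (Fin (n + 1)) ℂ) R p = MvPolynomial.aeval x p := fun _ => rfl
  have : Module.IsTorsionFree (MvPolynomial (Fin (n + 1)) ℂ) R :=
    Module.isTorsionFree_iff_algebraMap_injective.mpr hi
  have : Module.Finite (MvPolynomial (Fin (n + 1)) ℂ) R := by
    obtain ⟨S, hS⟩ := Module.finite_def.mp h.x_finite
    refine Module.finite_def.mpr ⟨S, ?_⟩
    rw [eq_top_iff]
    intro s _
    have hs : s ∈ Submodule.span (Algebra.adjoin ℂ (Set.range x)) (S : Set R) := by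
      rw [hS]; trivial
    induction hs using Submodule.span_induction with
    | mem t ht => exact Submodule.subset_span ht
    | zero => exact Submodule.zero_mem _
    | add t t' _ _ ht ht' => exact Submodule.add_mem _ (ht trivial) (ht' trivial)
    | smul a t _ ht =>
      have ha : (a : R) ∈ (MvPolynomial.aeval x : MvPolynomial (Fin (n + 1)) ℂ →ₐ[ℂ] R).range := by
        rw [← Algebra.adjoin_range_eq_range_aeval]
        exact a.2
      obtain ⟨p, hp⟩ := ha
      have h1 := Submodule.smul_mem _ p (ht trivial)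
      rw [Algebra.smul_def, hmap] at h1
      have h2 : a • t = MvPolynomial.aeval x p * t := by
        rw [Algebra.smul_def]
        exact congrArg (· * t) hp.symm
      rw [h2]
      exact h1
  have hN : ∀ p : MvPolynomial (Fin (n + 1)) ℂ,
      KaehlerDifferential.D ℂ R (algebraMap (MvPolynomial (Fin (n + 1)) ℂ) R p) ∈
      Submodule.span R (Set.range fun b => KaehlerDifferential.D ℂ R (x b)) := by
    intro p
    rw [hmap]
    induction p using MvPolynomial.induction_on with
    | C c =>
      rw [MvPolynomial.aeval_C, Derivation.map_algebraMap]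
      exact Submodule.zero_mem _
    | add p q hp hq => rw [map_add, map_add]; exact Submodule.add_mem _ hp hq
    | mul_X p b hp =>
      rw [map_mul, MvPolynomial.aeval_X, Derivation.leibniz]
      exact Submodule.add_mem _
        (Submodule.smul_mem _ _ (Submodule.subset_span ⟨b, rfl⟩)) (Submodule.smul_mem _ _ hp)
  obtain ⟨c, j, hc0, hcj, hc⟩ := gder_uniform (𝒜 := 𝒜) (fun a => gder_comp h.x_mem a) _ hN
  obtain ⟨k, hk⟩ := gder_hom h.d_pos h.x_mem hi hcj
  exact ⟨c, k, hc0, hk, hc⟩

end Pool.Agent.Lib_KF
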