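import Mathlib

/-! G2d: the tensor product of two domains over `ℂ` is a domain. -/

open scoped TensorProduct

namespace Pool.Agent.Lib_KF

private theorem GDom_point (R : Type) [CommRing R] [IsDomain R] [Algebra ℂ R]
    [Algebra.FiniteType ℂ R] (c : R) (hc : c ≠ 0) : ∃ φ : R →ₐ[ℂ] ℂ, φ c ≠ 0 := by
  have hJ : IsJacobsonRing R := isJacobsonRing_of_finiteType (A := ℂ)
  have hbot : (⊥ : Ideal R).jacobson = ⊥ := hJ.out (Ideal.isRadical_bot)
  have hm : ∃ m : Ideal R, m.IsMaximal ∧ c ∉ m := by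
    by_contra hcon
    push Not at hcon
    apply hc
    have h1 : c ∈ (⊥ : Ideal R).jacobson := by
      rw [Ideal.jacobson, Ideal.mem_sInf]
      intro m hm
      exact hcon m hm.2
    rwa [hbot] at h1
  obtain ⟨m, hm, hcm⟩ := hm
  let _ : Field (R ⧸ m) := Ideal.Quotient.field m
  have hft : Algebra.FiniteType ℂ (R ⧸ m) := inferInstance
  have hfin : Module.Finite ℂ (R ⧸ m) := finite_of_finite_type_of_isJacobsonRing ℂ (R ⧸ m)
  have hint : Algebra.IsIntegral ℂ (R ⧸ m) := inferInstance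
  have hbij : Function.Bijective (Algebra.ofId ℂ (R ⧸ m)) :=
    IsAlgClosed.algebraMap_bijective_of_isIntegral
  let e : ℂ ≃ₐ[ℂ] (R ⧸ m) := AlgEquiv.ofBijective (Algebra.ofId ℂ (R ⧸ m)) hbij
  refine ⟨(e.symm : (R ⧸ m) →ₐ[ℂ] ℂ).comp (Ideal.Quotient.mkₐ ℂ m), ?_⟩
  intro h
  apply hcm
  have h1 : e.symm (Ideal.Quotient.mk m c) = 0 := h
  rw [EmbeddingLike.map_eq_zero_iff] at h1
  exact Ideal.Quotient.eq_zero_iff_mem.1 h1

/-- G2d. Proof: it suffices to treat `A` finitely generated over `ℂ`: if `u u' = 0` in `A ⊗ B`,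
write `u = ∑ a_i ⊗ b_i`, `u' = ∑ a'_j ⊗ b'_j` with `b_i` linearly independent and `b'_j` linearly
independent, and let `A₀` be the subalgebra generated by the `a_i`, `a'_j`; `A₀ ⊗ B → A ⊗ B` is
injective (flat over a field). For a maximal ideal `p` of `A₀`, `A₀ / p = ℂ` (Nullstellensatz), so
`(∑ a_i(p) b_i) (∑ a'_j(p) b'_j) = 0` in `B`, hence all `a_i ∈ p` or all `a'_j ∈ p`. So
`a_i a'_j` is in every maximal ideal of `A₀`, hence zero (`A₀` is a Jacobson ring and reduced), for
all `i, j`: so all `a_i = 0` or all `a'_j = 0`, i.e. `u = 0` or `u' = 0`. -/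
theorem tensor_isDomain (A B : Type) [CommRing A] [CommRing B] [IsDomain A] [IsDomain B]
    [Algebra ℂ A] [Algebra ℂ B] : IsDomain (A ⊗[ℂ] B) := by
  classical
  have hnt : Nontrivial (A ⊗[ℂ] B) := by
    refine ⟨⟨0, 1, fun h => ?_⟩⟩
    have hinj : Function.Injective (Algebra.TensorProduct.includeRight : B →ₐ[ℂ] A ⊗[ℂ] B) :=
      Algebra.TensorProduct.includeRight_injective (FaithfulSMul.algebraMap_injective ℂ A)
    have h1 : (Algebra.TensorProduct.includeRight : B →ₐ[ℂ] A ⊗[ℂ] B) 0 =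
        (Algebra.TensorProduct.includeRight : B →ₐ[ℂ] A ⊗[ℂ] B) 1 := by
      rw [map_zero, map_one]; exact h
    exact zero_ne_one (hinj h1)
  have hnz : NoZeroDivisors (A ⊗[ℂ] B) := by
    refine ⟨fun {u u'} huu => ?_⟩
    by_contra hcon
    push Not at hcon
    obtain ⟨hu, hu'⟩ := hcon
    let b := Module.Basis.ofVectorSpace ℂ B
    let bA := Algebra.TensorProduct.basis A b
    let f := bA.repr u
    let f' := bA.repr u'
    have hf : f ≠ 0 := fun h => hu (bA.repr.map_eq_zero_iff.1 h)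
    have hf' : f' ≠ 0 := fun h => hu' (bA.repr.map_eq_zero_iff.1 h)
    obtain ⟨i0, hi0⟩ := Finsupp.ne_iff.1 hf
    obtain ⟨j0, hj0⟩ := Finsupp.ne_iff.1 hf'
    rw [Finsupp.zero_apply] at hi0 hj0
    let A₀ : Subalgebra ℂ A := Algebra.adjoin ℂ
      (((f.support.image f ∪ f'.support.image f' : Finset A)) : Set A)
    have hm : ∀ i, f i ∈ A₀ := by
      intro i
      by_cases h : f i = 0
      · rw [h]; exact A₀.zero_mem
      · apply Algebra.subset_adjoin
        rw [Finset.mem_coe, Finset.mem_union]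
        exact Or.inl (Finset.mem_image_of_mem f (Finsupp.mem_support_iff.2 h))
    have hm' : ∀ i, f' i ∈ A₀ := by
      intro i
      by_cases h : f' i = 0
      · rw [h]; exact A₀.zero_mem
      · apply Algebra.subset_adjoin
        rw [Finset.mem_coe, Finset.mem_union]
        exact Or.inr (Finset.mem_image_of_mem f' (Finsupp.mem_support_iff.2 h))
    have hfg : A₀.FG := Subalgebra.fg_adjoin_finset _
    have hft : Algebra.FiniteType ℂ A₀ := (Subalgebra.fg_iff_finiteType A₀).1 hfg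
    let v : A₀ ⊗[ℂ] B := ∑ i ∈ f.support, (⟨f i, hm i⟩ : A₀) ⊗ₜ[ℂ] b i
    let v' : A₀ ⊗[ℂ] B := ∑ i ∈ f'.support, (⟨f' i, hm' i⟩ : A₀) ⊗ₜ[ℂ] b i
    let ψ : A₀ ⊗[ℂ] B →ₐ[ℂ] A ⊗[ℂ] B := Algebra.TensorProduct.map A₀.val (AlgHom.id ℂ B)
    have hψ : Function.Injective ψ := by
      have h1 : Function.Injective (LinearMap.rTensor B A₀.val.toLinearMap) :=
        Module.Flat.rTensor_preserves_injective_linearMap _ Subtype.val_injective
      exact h1
    have hv : ψ v = u := by
      have h1 := bA.linearCombination_repr u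
      rw [Finsupp.linearCombination_apply, Finsupp.sum] at h1
      rw [map_sum]
      refine Eq.trans (Finset.sum_congr rfl fun i _ => ?_) h1
      rw [Algebra.TensorProduct.map_tmul, Algebra.TensorProduct.basis_apply,
        TensorProduct.smul_tmul', smul_eq_mul, mul_one]
      rfl
    have hv' : ψ v' = u' := by
      have h1 := bA.linearCombination_repr u'
      rw [Finsupp.linearCombination_apply, Finsupp.sum] at h1
      rw [map_sum]
      refine Eq.trans (Finset.sum_congr rfl fun i _ => ?_) h1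
      rw [Algebra.TensorProduct.map_tmul, Algebra.TensorProduct.basis_apply,
        TensorProduct.smul_tmul', smul_eq_mul, mul_one]
      rfl
    have hvv : v * v' = 0 := by
      apply hψ
      rw [map_mul, hv, hv', huu, map_zero]
    obtain ⟨φ, hφ⟩ := GDom_point A₀ (⟨f i0, hm i0⟩ * ⟨f' j0, hm' j0⟩) (by
      intro h
      have h1 := congrArg Subtype.val h
      exact mul_ne_zero hi0 hj0 h1)
    let χ : A₀ ⊗[ℂ] B →ₐ[ℂ] B := Algebra.TensorProduct.lift ((Algebra.ofId ℂ B).comp φ)
      (AlgHom.id ℂ B) (fun _ _ => Commute.all _ _)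
    have hχ : χ v = ∑ i ∈ f.support, φ ⟨f i, hm i⟩ • b i := by
      rw [map_sum]
      refine Finset.sum_congr rfl fun i _ => ?_
      rw [Algebra.TensorProduct.lift_tmul, Algebra.smul_def]
      rfl
    have hχ' : χ v' = ∑ i ∈ f'.support, φ ⟨f' i, hm' i⟩ • b i := by
      rw [map_sum]
      refine Finset.sum_congr rfl fun i _ => ?_
      rw [Algebra.TensorProduct.lift_tmul, Algebra.smul_def]
      rfl
    have hprod : χ v * χ v' = 0 := by rw [← map_mul, hvv, map_zero]
    have hli := linearIndependent_iff'.1 b.linearIndependent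
    apply hφ
    rw [map_mul]
    rcases mul_eq_zero.1 hprod with h | h
    · rw [hχ] at h
      have h1 := hli f.support (fun i => φ ⟨f i, hm i⟩) h i0 (Finsupp.mem_support_iff.2 hi0)
      rw [h1, zero_mul]
    · rw [hχ'] at h
      have h1 := hli f'.support (fun i => φ ⟨f' i, hm' i⟩) h j0 (Finsupp.mem_support_iff.2 hj0)
      rw [h1, mul_zero]
  exact NoZeroDivisors.to_isDomain _

end Pool.Agent.Lib_KF
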