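import Pool.Agent.Lib_KF.SHBase

/-!
# SH1: a homogeneous basis of `Frac R` over `ℂ(x)` containing `1`
-/

open scoped ENNReal NNReal

namespace Pool.Agent.Lib_KF

open Pool.Agent.Lib_GD

variable {R : Type} [CommRing R] [IsDomain R] [Algebra ℂ R] {n : ℕ} [Algebra (PA n) R]
  [IsScalarTower ℂ (PA n) R] [Module.Finite (PA n) R] [Module.IsTorsionFree (PA n) R]

/-- `K = Frac R` is finite over `K₀ = Frac ℂ[x]` and spanned over `K₀` by the homogeneous elements of
`R` (every element of `K` is `f / q`, `f ∈ R`, `q ∈ ℂ[x]`, as `R` is integral). Extend `{1}` to a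
`K₀`-basis inside the set of homogeneous elements (`exists_linearIndepOn_extension` or similar). -/
theorem sh_basis (𝒜 : ℕ → Submodule ℂ R) [GradedAlgebra 𝒜] :
    ∃ (k : ℕ) (β : Fin (k + 1) → R) (deg : Fin (k + 1) → ℕ), β 0 = 1 ∧
      (∀ a, β a ∈ 𝒜 (deg a)) ∧ LinearIndependent (PA n) β ∧
      ∀ f : R, ∃ q : PA n, q ≠ 0 ∧ ∃ p : Fin (k + 1) → PA n,
        algebraMap (PA n) R q * f = ∑ a, algebraMap (PA n) R (p a) * β a := by
  classical
  have hinj : Function.Injective (algebraMap (PA n) R) :=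
    (Module.isTorsionFree_iff_algebraMap_injective).1 inferInstance
  -- the sizes of the families
  let P : ℕ → Prop := fun k => ∃ (β : Fin (k + 1) → R) (deg : Fin (k + 1) → ℕ), β 0 = 1 ∧
    (∀ a, β a ∈ 𝒜 (deg a)) ∧ LinearIndependent (PA n) β
  have hP0 : P 0 := by
    refine ⟨fun _ => 1, fun _ => 0, rfl, fun _ => SetLike.GradedOne.one_mem, ?_⟩
    rw [Fintype.linearIndependent_iff]
    intro g hg i
    rw [Fin.sum_univ_one] at hg
    have h1 : algebraMap (PA n) R (g 0) = 0 := by
      rw [Algebra.algebraMap_eq_smul_one]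
      exact hg
    have h2 : g 0 = 0 := hinj (by rw [h1, map_zero])
    have h3 : i = 0 := Fin.ext (by have := i.isLt; simp only [Fin.val_zero]; omega)
    rw [h3]
    exact h2
  have hbd : ∀ k, P k → k ≤ Module.finrank (PA n) R := by
    rintro k ⟨β, deg, -, -, hli⟩
    have h := hli.fintype_card_le_finrank
    rw [Fintype.card_fin] at h
    omega
  obtain ⟨k, hk, hmax⟩ : ∃ k, P k ∧ ∀ m, P m → m ≤ k := by
    refine ⟨Nat.findGreatest P (Module.finrank (PA n) R), ?_, ?_⟩
    · exact Nat.findGreatest_spec (m := 0) (Nat.zero_le _) hP0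
    · intro m hm
      exact Nat.le_findGreatest (hbd m hm) hm
  obtain ⟨β, deg, hβ0, hβh, hβli⟩ := hk
  refine ⟨k, β, deg, hβ0, hβh, hβli, ?_⟩
  -- homogeneous elements
  have hhom : ∀ (i : ℕ) (f : R), f ∈ 𝒜 i → ∃ q : PA n, q ≠ 0 ∧ ∃ p : Fin (k + 1) → PA n,
      algebraMap (PA n) R q * f = ∑ a, algebraMap (PA n) R (p a) * β a := by
    intro i f hf
    by_contra hcon
    push Not at hcon
    have hP : P (k + 1) := by
      refine ⟨Fin.snoc (α := fun _ => R) β f, Fin.snoc (α := fun _ => ℕ) deg i, ?_, ?_, ?_⟩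
      · have h0 : (0 : Fin (k + 1 + 1)) = Fin.castSucc 0 := rfl
        rw [h0, Fin.snoc_castSucc]
        exact hβ0
      · intro a
        refine Fin.lastCases ?_ (fun b => ?_) a
        · rw [Fin.snoc_last, Fin.snoc_last]
          exact hf
        · rw [Fin.snoc_castSucc, Fin.snoc_castSucc]
          exact hβh b
      · rw [Fintype.linearIndependent_iff]
        intro g hg
        rw [Fin.sum_univ_castSucc] at hg
        simp only [Fin.snoc_castSucc, Fin.snoc_last] at hg
        have hlast : g (Fin.last (k + 1)) = 0 := by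
          by_contra hne
          refine hcon _ hne (fun a => - g (Fin.castSucc a)) ?_
          have h1 : algebraMap (PA n) R (g (Fin.last (k + 1))) * f =
              - ∑ a : Fin (k + 1), g (Fin.castSucc a) • β a := by
            rw [← Algebra.smul_def]
            exact (neg_eq_of_add_eq_zero_right hg).symm
          rw [h1, ← Finset.sum_neg_distrib]
          refine Finset.sum_congr rfl fun a _ => ?_
          rw [map_neg, neg_mul, Algebra.smul_def]
        rw [hlast, zero_smul, add_zero] at hg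
        have hrest := (Fintype.linearIndependent_iff.1 hβli) (fun a => g (Fin.castSucc a)) hg
        intro a
        refine Fin.lastCases ?_ (fun b => ?_) a
        · exact hlast
        · exact hrest b
    have := hmax _ hP
    omega
  -- the general case
  intro f
  have key : ∀ (s : Finset ℕ) (c : ℕ → R), (∀ i ∈ s, c i ∈ 𝒜 i) →
      ∃ q : PA n, q ≠ 0 ∧ ∃ p : Fin (k + 1) → PA n,
        algebraMap (PA n) R q * (∑ i ∈ s, c i) = ∑ a, algebraMap (PA n) R (p a) * β a := by
    intro s c
    refine Finset.induction_on s ?_ ?_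
    · intro _
      refine ⟨1, one_ne_zero, fun _ => 0, ?_⟩
      simp
    · intro i s his ih hmem
      obtain ⟨q₁, hq₁, p₁, h₁⟩ := ih fun j hj => hmem j (Finset.mem_insert_of_mem hj)
      obtain ⟨q₂, hq₂, p₂, h₂⟩ := hhom i (c i) (hmem i (Finset.mem_insert_self i s))
      refine ⟨q₁ * q₂, mul_ne_zero hq₁ hq₂, fun a => q₁ * p₂ a + q₂ * p₁ a, ?_⟩
      rw [Finset.sum_insert his]
      have e1 : algebraMap (PA n) R (q₁ * q₂) * (c i + ∑ x ∈ s, c x) =
          algebraMap (PA n) R q₁ * (algebraMap (PA n) R q₂ * c i) +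
          algebraMap (PA n) R q₂ * (algebraMap (PA n) R q₁ * ∑ x ∈ s, c x) := by
        rw [map_mul]; ring
      rw [e1, h₁, h₂, Finset.mul_sum, Finset.mul_sum, ← Finset.sum_add_distrib]
      refine Finset.sum_congr rfl fun a _ => ?_
      rw [map_add, map_mul, map_mul]; ring
  have hf : f = ∑ i ∈ (DirectSum.decompose 𝒜 f).support, (DirectSum.decompose 𝒜 f i : R) :=
    (DirectSum.sum_support_decompose 𝒜 f).symm
  obtain ⟨q, hq, p, hp⟩ := key (DirectSum.decompose 𝒜 f).support
    (fun i => (DirectSum.decompose 𝒜 f i : R)) fun i _ => (DirectSum.decompose 𝒜 f i).2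
  refine ⟨q, hq, p, ?_⟩
  rw [← hp]
  rw [← hf]

end Pool.Agent.Lib_KF
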