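import Pool.Agent.Lib_KF.GDefs
import Pool.Agent.Lib_KF.GDom
import Pool.Agent.Lib_KF.SHBasis

/-! G2a: the norm of a family of sections. -/

open PowerSeries
open scoped TensorProduct

namespace Pool.Agent.Lib_KF

open Pool.Agent.Lib_GD

section GNormPoly

/-- a determinant with homogeneous entries is homogeneous -/
private theorem GNorm_det {σ K : Type*} [CommRing K] {e : ℕ}
    (B : Matrix (Fin e) (Fin e) (MvPolynomial σ K)) (deg : Fin e → ℕ) (d w : ℕ) (hd : 1 ≤ d)
    (hB : ∀ a b, B a b = 0 ∨ ∃ δ, (B a b).IsHomogeneous δ ∧ d * δ + deg b = w + deg a) :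
    B.det.IsHomogeneous (e * w / d) := by
  classical
  rw [Matrix.det_apply]
  refine MvPolynomial.IsHomogeneous.sum _ _ _ fun σ' _ => ?_
  have hkey : (∏ i, B (σ' i) i).IsHomogeneous (e * w / d) := by
    by_cases h0 : ∃ i, B (σ' i) i = 0
    · obtain ⟨i, hi⟩ := h0
      have hz : (∏ i, B (σ' i) i) = 0 := Finset.prod_eq_zero (Finset.mem_univ i) hi
      exact hz.symm ▸ MvPolynomial.isHomogeneous_zero _ _ _
    · push Not at h0
      have h1 : ∀ i, ∃ δ, (B (σ' i) i).IsHomogeneous δ ∧ d * δ + deg i = w + deg (σ' i) :=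
        fun i => (hB (σ' i) i).resolve_left (h0 i)
      choose δ hδ hs using h1
      have h2 := MvPolynomial.IsHomogeneous.prod Finset.univ (fun i => B (σ' i) i) δ
        fun i _ => hδ i
      have h3 : d * ∑ i, δ i + ∑ i, deg i = e * w + ∑ i, deg i := by
        have h4 : ∑ i, (d * δ i + deg i) = ∑ i, (w + deg (σ' i)) :=
          Finset.sum_congr rfl fun i _ => hs i
        rw [Finset.sum_add_distrib, Finset.sum_add_distrib, ← Finset.mul_sum,
          Equiv.sum_comp σ' deg] at h4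
        simpa using h4
      have h5 : e * w / d = ∑ i, δ i := by
        have h6 : e * w = d * ∑ i, δ i := by omega
        rw [h6, Nat.mul_div_cancel_left _ (by omega)]
      rw [h5]
      exact h2
  have h7 : (Equiv.Perm.sign σ' • ∏ i, B (σ' i) i) =
      ((Equiv.Perm.sign σ' : ℤ) : ℤ) • ∏ i, B (σ' i) i := rfl
  rw [h7]
  have h8 : (∏ i, B (σ' i) i) ∈ MvPolynomial.homogeneousSubmodule σ K (e * w / d) := hkey
  exact (zsmul_mem h8 _ : _ ∈ MvPolynomial.homogeneousSubmodule σ K (e * w / d))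

/-- Nullstellensatz: no common zero over `ℂ` gives no common zero over any field -/
private theorem GNorm_null {σ : Type} {M : ℕ} (P : MvPolynomial σ (MvPolynomial (Fin M) ℂ))
    (hP : ∀ v : Fin M → ℂ, v ≠ 0 →
      MvPolynomial.map ((MvPolynomial.aeval v : MvPolynomial (Fin M) ℂ →ₐ[ℂ] ℂ) :
        MvPolynomial (Fin M) ℂ →+* ℂ) P ≠ 0)
    (L : Type) [Field L] [Algebra ℂ L] (v : Fin M → L) (hv : v ≠ 0) :
    MvPolynomial.map ((MvPolynomial.aeval v : MvPolynomial (Fin M) ℂ →ₐ[ℂ] L) :
      MvPolynomial (Fin M) ℂ →+* L) P ≠ 0 := by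
  intro h0
  apply hv
  funext i
  let I : Ideal (MvPolynomial (Fin M) ℂ) := Ideal.span (Set.range fun μ => P.coeff μ)
  have h1 : MvPolynomial.X i ∈ I.radical := by
    rw [← MvPolynomial.vanishingIdeal_zeroLocus_eq_radical (K := ℂ) I,
      MvPolynomial.mem_vanishingIdeal_iff]
    intro y hy
    rw [MvPolynomial.mem_zeroLocus_iff] at hy
    have h2 : y = 0 := by
      by_contra hne
      refine hP y hne ?_
      ext μ
      rw [MvPolynomial.coeff_map, MvPolynomial.coeff_zero]
      exact hy _ (Ideal.subset_span ⟨μ, rfl⟩)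
    rw [h2, MvPolynomial.aeval_X, Pi.zero_apply]
  obtain ⟨N, hN⟩ := h1
  have h3 : I ≤ RingHom.ker ((MvPolynomial.aeval v : MvPolynomial (Fin M) ℂ →ₐ[ℂ] L) :
      MvPolynomial (Fin M) ℂ →+* L) := by
    refine Ideal.span_le.2 ?_
    rintro _ ⟨μ, rfl⟩
    rw [SetLike.mem_coe, RingHom.mem_ker]
    have h4 := congrArg (MvPolynomial.coeff μ) h0
    rw [MvPolynomial.coeff_map, MvPolynomial.coeff_zero] at h4
    exact h4
  have h5 := h3 hN
  rw [RingHom.mem_ker, map_pow] at h5
  have h6 : (v i) ^ N = 0 := by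
    have h7 : ((MvPolynomial.aeval v : MvPolynomial (Fin M) ℂ →ₐ[ℂ] L) :
      MvPolynomial (Fin M) ℂ →+* L) (MvPolynomial.X i) = v i := MvPolynomial.aeval_X v i
    rw [h7] at h5
    exact h5
  exact eq_zero_of_pow_eq_zero h6

end GNormPoly

variable {R : Type} [CommRing R] [Algebra ℂ R] {𝒜 : ℕ → Submodule ℂ R} [GradedAlgebra 𝒜]
  {n r d : ℕ} {x : Fin (n + 1) → R} {G : R}

private theorem GNorm_mono (hx : ∀ b, x b ∈ 𝒜 d) (μ : Fin (n + 1) →₀ ℕ) (c : ℂ) :
    MvPolynomial.aeval x (MvPolynomial.monomial μ c) ∈ 𝒜 (d * μ.degree) := by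
  rw [MvPolynomial.aeval_monomial, ← Algebra.smul_def]
  refine Submodule.smul_mem _ _ ?_
  have h1 := SetLike.prod_pow_mem_graded 𝒜 (fun _ : Fin (n + 1) => d) x (fun b => μ b)
    (F := μ.support) fun b _ => hx b
  have h2 : d * μ.degree = ∑ b ∈ μ.support, μ b • d := by
    rw [Finsupp.degree_apply, Finset.mul_sum]
    exact Finset.sum_congr rfl fun b _ => by rw [smul_eq_mul, mul_comm]
  rw [h2]
  exact h1

private theorem GNorm_proj (hd : 1 ≤ d) (hx : ∀ b, x b ∈ 𝒜 d) {s : ℕ} {u : R} (hu : u ∈ 𝒜 s)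
    (T : ℕ) (p : MvPolynomial (Fin (n + 1)) ℂ) :
    (∀ δ, d * δ + s = T → (DirectSum.decompose 𝒜 (MvPolynomial.aeval x p * u) T : R) =
      MvPolynomial.aeval x (MvPolynomial.homogeneousComponent δ p) * u) ∧
    ((¬ ∃ δ, d * δ + s = T) →
      (DirectSum.decompose 𝒜 (MvPolynomial.aeval x p * u) T : R) = 0) := by
  classical
  induction p using MvPolynomial.induction_on' with
  | monomial μ c =>
    have hm : MvPolynomial.aeval x (MvPolynomial.monomial μ c) * u ∈ 𝒜 (d * μ.degree + s) :=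
      SetLike.mul_mem_graded (GNorm_mono hx μ c) hu
    constructor
    · intro δ hδ
      rw [MvPolynomial.homogeneousComponent_of_mem (MvPolynomial.isHomogeneous_monomial c rfl)]
      by_cases h1 : δ = μ.degree
      · rw [if_pos h1]
        rw [h1] at hδ
        rw [← hδ]
        exact DirectSum.decompose_of_mem_same 𝒜 hm
      · rw [if_neg h1, map_zero, zero_mul]
        refine DirectSum.decompose_of_mem_ne 𝒜 hm ?_
        intro h2
        apply h1
        have h3 : d * μ.degree = d * δ := by omega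
        exact (Nat.eq_of_mul_eq_mul_left (by omega) h3).symm
    · intro h1
      refine DirectSum.decompose_of_mem_ne 𝒜 hm ?_
      intro h2
      exact h1 ⟨_, h2⟩
  | add p q hp hq =>
    have h0 : (DirectSum.decompose 𝒜 (MvPolynomial.aeval x (p + q) * u) T : R) =
        (DirectSum.decompose 𝒜 (MvPolynomial.aeval x p * u) T : R) +
        (DirectSum.decompose 𝒜 (MvPolynomial.aeval x q * u) T : R) := by
      rw [map_add, add_mul, DirectSum.decompose_add, DirectSum.add_apply, Submodule.coe_add]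
    constructor
    · intro δ hδ
      rw [h0, hp.1 δ hδ, hq.1 δ hδ, map_add, map_add, add_mul]
    · intro h1
      rw [h0, hp.2 h1, hq.2 h1, add_zero]

private theorem GNorm_basis (h : IsFano 𝒜 n r d x G) :
    ∃ (e : ℕ) (β : Fin e → R) (deg : Fin e → ℕ) (γ : ℕ) (g : MvPolynomial (Fin (n + 1)) ℂ),
      g ≠ 0 ∧ (∃ a₀, β a₀ = 1) ∧ (∀ a, β a ∈ 𝒜 (deg a)) ∧
      (∀ p : Fin e → MvPolynomial (Fin (n + 1)) ℂ,
        ∑ a, MvPolynomial.aeval x (p a) * β a = 0 → p = 0) ∧
      ∀ (t : ℕ) (f : R), f ∈ 𝒜 t → ∃ p : Fin e → MvPolynomial (Fin (n + 1)) ℂ,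
        MvPolynomial.aeval x g * f = ∑ a, MvPolynomial.aeval x (p a) * β a ∧
        ∀ a, p a = 0 ∨ ∃ δ, (p a).IsHomogeneous δ ∧ d * δ + deg a = d * γ + t := by
  classical
  have := h.domain
  let _ : Algebra (PA n) R :=
    (MvPolynomial.aeval x : MvPolynomial (Fin (n + 1)) ℂ →ₐ[ℂ] R).toRingHom.toAlgebra
  have hmap : ∀ p : PA n, algebraMap (PA n) R p = MvPolynomial.aeval x p := fun p => rfl
  have : IsScalarTower ℂ (PA n) R := IsScalarTower.of_algebraMap_eq fun c => by
    rw [hmap, MvPolynomial.algebraMap_eq, MvPolynomial.aeval_C]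
  have hfin := h.x_finite
  rw [Algebra.adjoin_range_eq_range_aeval] at hfin
  have : Module.Finite (PA n) R := by
    have h1 : (algebraMap (MvPolynomial.aeval x : MvPolynomial (Fin (n + 1)) ℂ →ₐ[ℂ] R).range
        R).Finite := RingHom.finite_algebraMap.2 hfin
    have h2 : (MvPolynomial.aeval x :
        MvPolynomial (Fin (n + 1)) ℂ →ₐ[ℂ] R).rangeRestrict.toRingHom.Finite :=
      RingHom.Finite.of_surjective _
        (AlgHom.rangeRestrict_surjective (MvPolynomial.aeval x))
    exact RingHom.finite_algebraMap.1 (h1.comp h2)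
  have : Module.IsTorsionFree (PA n) R :=
    Module.isTorsionFree_iff_algebraMap_injective.2 h.x_indep
  obtain ⟨k, β, deg, hβ0, hdeg, hβ, hsp⟩ := sh_basis (R := R) (n := n) 𝒜
  choose q hq p hp using hsp
  obtain ⟨S, hS⟩ := (inferInstance : Module.Finite (PA n) R).fg_top
  have hsp0 : ∀ f : R, ∃ p : Fin (k + 1) → PA n,
      algebraMap (PA n) R (∏ u ∈ S, q u) * f = ∑ a, algebraMap (PA n) R (p a) * β a := by
    intro f
    have hf : f ∈ Submodule.span (PA n) (S : Set R) := by rw [hS]; trivial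
    induction hf using Submodule.span_induction with
    | mem u hu =>
      refine ⟨fun a => (∏ u' ∈ S.erase u, q u') * p u a, ?_⟩
      rw [← Finset.mul_prod_erase S q (Finset.mem_coe.1 hu), map_mul,
        mul_comm (algebraMap (PA n) R (q u)), mul_assoc, hp u, Finset.mul_sum]
      refine Finset.sum_congr rfl fun a _ => ?_
      rw [map_mul, mul_assoc]
    | zero => exact ⟨fun _ => 0, by simp⟩
    | add u v _ _ hu hv =>
      obtain ⟨p₁, h₁⟩ := hu
      obtain ⟨p₂, h₂⟩ := hv
      refine ⟨fun a => p₁ a + p₂ a, ?_⟩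
      rw [mul_add, h₁, h₂, ← Finset.sum_add_distrib]
      refine Finset.sum_congr rfl fun a _ => ?_
      rw [map_add, add_mul]
    | smul c u _ hu =>
      obtain ⟨p₁, h₁⟩ := hu
      refine ⟨fun a => c * p₁ a, ?_⟩
      rw [Algebra.smul_def, mul_left_comm, h₁, Finset.mul_sum]
      refine Finset.sum_congr rfl fun a _ => ?_
      rw [map_mul, mul_assoc]
  have hg0 : (∏ u ∈ S, q u) ≠ 0 := Finset.prod_ne_zero_iff.2 fun u _ => hq u
  obtain ⟨γ, hγ⟩ : ∃ γ, MvPolynomial.homogeneousComponent γ (∏ u ∈ S, q u) ≠ 0 := by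
    by_contra hcon
    push Not at hcon
    apply hg0
    rw [← MvPolynomial.sum_homogeneousComponent (∏ u ∈ S, q u)]
    exact Finset.sum_eq_zero fun i _ => hcon i
  refine ⟨k + 1, β, deg, γ, MvPolynomial.homogeneousComponent γ (∏ u ∈ S, q u), hγ, ⟨0, hβ0⟩,
    hdeg, ?_, ?_⟩
  · intro p hp0
    have h1 := Fintype.linearIndependent_iff.1 hβ p (by
      rw [← hp0]
      exact Finset.sum_congr rfl fun a _ => Algebra.smul_def _ _)
    funext a
    exact h1 a
  · intro t f hf
    obtain ⟨p₀, hp₀⟩ := hsp0 f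
    have h1 : (DirectSum.decompose 𝒜 (MvPolynomial.aeval x (∏ u ∈ S, q u) * f) (d * γ + t) : R) =
        MvPolynomial.aeval x (MvPolynomial.homogeneousComponent γ (∏ u ∈ S, q u)) * f :=
      (GNorm_proj h.d_pos h.x_mem hf (d * γ + t) (∏ u ∈ S, q u)).1 γ rfl
    have h2 : ∀ a, ∃ p' : PA n,
        (DirectSum.decompose 𝒜 (MvPolynomial.aeval x (p₀ a) * β a) (d * γ + t) : R) =
          MvPolynomial.aeval x p' * β a ∧
        (p' = 0 ∨ ∃ δ, p'.IsHomogeneous δ ∧ d * δ + deg a = d * γ + t) := by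
      intro a
      have h3 := GNorm_proj h.d_pos h.x_mem (hdeg a) (d * γ + t) (p₀ a)
      by_cases h4 : ∃ δ, d * δ + deg a = d * γ + t
      · obtain ⟨δ, hδ⟩ := h4
        exact ⟨_, h3.1 δ hδ, Or.inr ⟨δ, MvPolynomial.homogeneousComponent_isHomogeneous _ _, hδ⟩⟩
      · exact ⟨0, by rw [h3.2 h4, map_zero, zero_mul], Or.inl rfl⟩
    choose p' hp' hp'' using h2
    refine ⟨p', ?_, hp''⟩
    rw [← h1, ← hmap, hp₀]
    simp only [hmap]
    rw [DirectSum.decompose_sum, DFinsupp.finsetSum_apply, Submodule.coe_sum]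
    exact Finset.sum_congr rfl fun a _ => hp' a

/-- the case `m > 0` -/
private theorem GNorm_main (h : IsFano 𝒜 n r d x G) {e : ℕ} {β : Fin e → R} {deg : Fin e → ℕ}
    {γ : ℕ} {g : MvPolynomial (Fin (n + 1)) ℂ} (hg : g ≠ 0) {a₀ : Fin e} (ha₀ : β a₀ = 1)
    (hdeg : ∀ a, β a ∈ 𝒜 (deg a))
    (hli : ∀ p : Fin e → MvPolynomial (Fin (n + 1)) ℂ,
      ∑ a, MvPolynomial.aeval x (p a) * β a = 0 → p = 0)
    (hsp : ∀ (t : ℕ) (f : R), f ∈ 𝒜 t → ∃ p : Fin e → MvPolynomial (Fin (n + 1)) ℂ,
      MvPolynomial.aeval x g * f = ∑ a, MvPolynomial.aeval x (p a) * β a ∧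
      ∀ a, p a = 0 ∨ ∃ δ, (p a).IsHomogeneous δ ∧ d * δ + deg a = d * γ + t)
    (m M : ℕ) (s : Fin M → R) (hs : ∀ i, s i ∈ 𝒜 m) (hls : LinearIndependent ℂ s) :
    ∃ (P : MvPolynomial (Fin (n + 1)) (MvPolynomial (Fin M) ℂ))
      (f' : MvPolynomial (Fin M) R), P.IsHomogeneous (e * (d * γ + m) / d) ∧
      (MvPolynomial.eval₂ (MvPolynomial.map (algebraMap ℂ R))
        (fun b => (MvPolynomial.C (x b) : MvPolynomial (Fin M) R)) P =
          (∑ i, MvPolynomial.X i * MvPolynomial.C (s i)) * f') ∧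
      ∀ (L : Type) [Field L] [Algebra ℂ L] (v : Fin M → L), v ≠ 0 →
        MvPolynomial.map ((MvPolynomial.aeval v : MvPolynomial (Fin M) ℂ →ₐ[ℂ] L) :
          MvPolynomial (Fin M) ℂ →+* L) P ≠ 0 := by
  classical
  have hdom := h.domain
  have h0 : ∀ (i : Fin M) (a : Fin e), ∃ p : Fin e → MvPolynomial (Fin (n + 1)) ℂ,
      MvPolynomial.aeval x g * (s i * β a) = ∑ b, MvPolynomial.aeval x (p b) * β b ∧
      ∀ b, p b = 0 ∨ ∃ δ, (p b).IsHomogeneous δ ∧ d * δ + deg b = d * γ + (m + deg a) :=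
    fun i a => hsp _ _ (SetLike.mul_mem_graded (hs i) (hdeg a))
  choose A hA hAh using h0
  let B : Matrix (Fin e) (Fin e) (MvPolynomial (Fin (n + 1)) (MvPolynomial (Fin M) ℂ)) :=
    Matrix.of fun a b => ∑ i, MvPolynomial.C (MvPolynomial.X i) *
      MvPolynomial.map MvPolynomial.C (A i a b)
  have hB : ∀ a b, B a b = ∑ i, MvPolynomial.C (MvPolynomial.X i) *
      MvPolynomial.map MvPolynomial.C (A i a b) := fun a b => rfl
  let E : MvPolynomial (Fin (n + 1)) (MvPolynomial (Fin M) ℂ) →+* MvPolynomial (Fin M) R :=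
    MvPolynomial.eval₂Hom (MvPolynomial.map (algebraMap ℂ R)) fun b => MvPolynomial.C (x b)
  have hE : ∀ P, E P = MvPolynomial.eval₂ (MvPolynomial.map (algebraMap ℂ R))
      (fun b => (MvPolynomial.C (x b) : MvPolynomial (Fin M) R)) P := fun P => rfl
  have hEX : ∀ i, E (MvPolynomial.C (MvPolynomial.X i)) = MvPolynomial.X i := by
    intro i
    rw [hE, MvPolynomial.eval₂_C, MvPolynomial.map_X]
  have hEp : ∀ p : MvPolynomial (Fin (n + 1)) ℂ, E (MvPolynomial.map MvPolynomial.C p) =
      MvPolynomial.C (MvPolynomial.aeval x p) := by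
    intro p
    have h1 : E.comp (MvPolynomial.map MvPolynomial.C) =
        (MvPolynomial.C : R →+* MvPolynomial (Fin M) R).comp
          (MvPolynomial.aeval x : MvPolynomial (Fin (n + 1)) ℂ →ₐ[ℂ] R).toRingHom := by
      refine MvPolynomial.ringHom_ext ?_ ?_
      · intro c
        simp [hE]
      · intro b
        simp [hE]
    exact RingHom.congr_fun h1 p
  have hrow : ∀ a, ∑ b, E (B a b) * MvPolynomial.C (β b) =
      (∑ i, MvPolynomial.X i * MvPolynomial.C (s i)) *
        (MvPolynomial.C (MvPolynomial.aeval x g) * MvPolynomial.C (β a)) := by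
    intro a
    have h1 : ∀ b, E (B a b) * MvPolynomial.C (β b) = ∑ i, MvPolynomial.X i *
        MvPolynomial.C (MvPolynomial.aeval x (A i a b) * β b) := by
      intro b
      rw [hB, map_sum, Finset.sum_mul]
      refine Finset.sum_congr rfl fun i _ => ?_
      rw [map_mul, hEX, hEp, mul_assoc, ← MvPolynomial.C_mul]
    rw [Finset.sum_congr rfl fun b _ => h1 b, Finset.sum_comm, Finset.sum_mul]
    refine Finset.sum_congr rfl fun i _ => ?_
    rw [← Finset.mul_sum, ← map_sum, ← hA i a, mul_assoc, ← MvPolynomial.C_mul,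
      ← MvPolynomial.C_mul]
    congr 2
    ring
  refine ⟨B.det, MvPolynomial.C (MvPolynomial.aeval x g) *
    ∑ a, E (B.adjugate a₀ a) * MvPolynomial.C (β a), ?_, ?_, ?_⟩
  · refine GNorm_det B deg d (d * γ + m) h.d_pos fun a b => ?_
    by_cases h1 : ∃ δ, d * δ + deg b = d * γ + m + deg a
    · obtain ⟨δ, hδ⟩ := h1
      refine Or.inr ⟨δ, ?_, hδ⟩
      rw [hB]
      refine MvPolynomial.IsHomogeneous.sum _ _ _ fun i _ => ?_
      have h2 : (MvPolynomial.map (MvPolynomial.C : ℂ →+* MvPolynomial (Fin M) ℂ)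
          (A i a b)).IsHomogeneous δ := by
        rcases hAh i a b with h3 | ⟨δ', h3, h4⟩
        · rw [h3, map_zero]
          exact MvPolynomial.isHomogeneous_zero _ _ _
        · have h5 : δ' = δ :=
            Nat.eq_of_mul_eq_mul_left (show 0 < d from h.d_pos) (by omega)
          rw [h5] at h3
          exact h3.map _
      have h6 := (MvPolynomial.isHomogeneous_C (Fin (n + 1))
        (MvPolynomial.X i : MvPolynomial (Fin M) ℂ)).mul h2
      rwa [zero_add] at h6
    · left
      rw [hB]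
      refine Finset.sum_eq_zero fun i _ => ?_
      rcases hAh i a b with h3 | ⟨δ', h3, h4⟩
      · rw [h3, map_zero, mul_zero]
      · exact absurd ⟨δ', by omega⟩ h1
  · rw [← hE]
    have h1 : E B.det = E B.det * MvPolynomial.C (β a₀) := by
      rw [ha₀, MvPolynomial.C_1, mul_one]
    have h2 : ∑ a, E (B.adjugate a₀ a) * ∑ b, E (B a b) * MvPolynomial.C (β b) =
        E B.det * MvPolynomial.C (β a₀) := by
      have h3 : ∀ b, ∑ a, B.adjugate a₀ a * B a b = if a₀ = b then B.det else 0 := by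
        intro b
        rw [← Matrix.mul_apply, Matrix.adjugate_mul, Matrix.smul_apply, Matrix.one_apply,
          smul_eq_mul, mul_ite, mul_one, mul_zero]
      calc ∑ a, E (B.adjugate a₀ a) * ∑ b, E (B a b) * MvPolynomial.C (β b)
          = ∑ a, ∑ b, E (B.adjugate a₀ a * B a b) * MvPolynomial.C (β b) := by
            refine Finset.sum_congr rfl fun a _ => ?_
            rw [Finset.mul_sum]
            refine Finset.sum_congr rfl fun b _ => ?_
            rw [map_mul, mul_assoc]
        _ = ∑ b, E (∑ a, B.adjugate a₀ a * B a b) * MvPolynomial.C (β b) := by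
            rw [Finset.sum_comm]
            refine Finset.sum_congr rfl fun b _ => ?_
            rw [map_sum, Finset.sum_mul]
        _ = E B.det * MvPolynomial.C (β a₀) := by
            rw [Finset.sum_eq_single a₀]
            · rw [h3, if_pos rfl]
            · intro b _ hb
              rw [h3, if_neg (Ne.symm hb), map_zero, zero_mul]
            · intro hb
              exact absurd (Finset.mem_univ _) hb
    rw [h1, ← h2, Finset.mul_sum, Finset.mul_sum]
    refine Finset.sum_congr rfl fun a _ => ?_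
    rw [hrow a]
    ring
  · intro L _ _ v hv
    refine GNorm_null B.det ?_ L v hv
    intro v hv h1
    rw [RingHom.map_det] at h1
    obtain ⟨w, hw, hw'⟩ := Matrix.exists_vecMul_eq_zero_iff.2 h1
    have h2 : ∀ a b, ((MvPolynomial.map ((MvPolynomial.aeval v : MvPolynomial (Fin M) ℂ →ₐ[ℂ] ℂ) :
        MvPolynomial (Fin M) ℂ →+* ℂ)).mapMatrix B) a b =
        ∑ i, MvPolynomial.C (v i) * A i a b := by
      intro a b
      rw [RingHom.mapMatrix_apply, Matrix.map_apply, hB, map_sum]
      refine Finset.sum_congr rfl fun i _ => ?_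
      rw [map_mul, MvPolynomial.map_C, MvPolynomial.map_map]
      have h3 : ((MvPolynomial.aeval v : MvPolynomial (Fin M) ℂ →ₐ[ℂ] ℂ) :
        MvPolynomial (Fin M) ℂ →+* ℂ).comp MvPolynomial.C = RingHom.id ℂ := by
        ext c
        simp
      rw [h3, MvPolynomial.map_id]
      congr 2
      exact MvPolynomial.aeval_X v i
    have h4 : MvPolynomial.aeval x g * (∑ i, v i • s i) *
        (∑ a, MvPolynomial.aeval x (w a) * β a) = 0 := by
      have h5 : ∀ a, MvPolynomial.aeval x g * (∑ i, v i • s i) *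
          (MvPolynomial.aeval x (w a) * β a) =
          ∑ b, MvPolynomial.aeval x (w a * ∑ i, MvPolynomial.C (v i) * A i a b) * β b := by
        intro a
        have h6 : ∀ b, MvPolynomial.aeval x (w a * ∑ i, MvPolynomial.C (v i) * A i a b) * β b =
            MvPolynomial.aeval x (w a) *
              ∑ i, v i • (MvPolynomial.aeval x (A i a b) * β b) := by
          intro b
          rw [map_mul, map_sum, mul_assoc, Finset.sum_mul]
          congr 1
          refine Finset.sum_congr rfl fun i _ => ?_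
          rw [map_mul, MvPolynomial.aeval_C, Algebra.smul_def, mul_assoc]
        rw [Finset.sum_congr rfl fun b _ => h6 b, ← Finset.mul_sum, Finset.sum_comm]
        have h7 : ∀ i, ∑ b, v i • (MvPolynomial.aeval x (A i a b) * β b) =
            v i • (MvPolynomial.aeval x g * (s i * β a)) := by
          intro i
          rw [← Finset.smul_sum, ← hA i a]
        rw [Finset.sum_congr rfl fun i _ => h7 i, mul_left_comm]
        congr 1
        rw [Finset.mul_sum, Finset.sum_mul]
        refine Finset.sum_congr rfl fun i _ => ?_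
        rw [mul_smul_comm, smul_mul_assoc, mul_assoc]
      rw [Finset.mul_sum, Finset.sum_congr rfl fun a _ => h5 a, Finset.sum_comm]
      refine Finset.sum_eq_zero fun b _ => ?_
      have h8 := congrFun hw' b
      rw [Matrix.vecMul, dotProduct] at h8
      simp only [h2, Pi.zero_apply] at h8
      rw [← Finset.sum_mul, ← map_sum, h8, map_zero, zero_mul]
    rcases mul_eq_zero.1 h4 with h5 | h5
    · rcases mul_eq_zero.1 h5 with h6 | h6
      · have h7 : MvPolynomial.aeval x g =
            MvPolynomial.aeval x (0 : MvPolynomial (Fin (n + 1)) ℂ) := by rw [h6, map_zero]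
        exact hg (h.x_indep h7)
      · apply hv
        funext i
        exact Fintype.linearIndependent_iff.1 hls v h6 i
    · exact hw (hli w h5)

/-- G2a. Statement over the polynomial ring `ℂ[Y_i]` in the coefficients: there is `D₀` such that
for every `m` and every `ℂ`-linearly independent finite family `s i ∈ 𝒜 m` there are a polynomial
`P ∈ ℂ[Y][x]`, homogeneous of some degree `k ≤ D₀ m` in `x`, and an element `f'` of `R[Y]` with
`P (x) = (∑ Y_i s_i) f'` in `R[Y]`, and such that `P` does not vanish at any non-zero point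
`v ∈ L ^ M`, `L` any field over `ℂ`.
Proof (elementary, no Galois theory). `S = ℂ[x]`, `F` its fraction field, `K = Frac R`,
`D₀ = e = [K : F]` (if `M = 0` there is no `v ≠ 0`: take `P = 0`). Put `f = ∑ Y_i s_i ∈ R[Y]`, `f ≠ 0`.
(1) `f` is integral over `S[Y]`, which is integrally closed (a UFD). Let
`μ(T) = T^p + c_1 T^(p-1) + … + c_p` be its minimal polynomial over `Frac S[Y]`; it has coefficients
in `S[Y]` (`minpoly.isIntegrallyClosed_eq_field_fractions`), `p ≤ e` (a basis of `K` over `F` spans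
`K(Y)` over `F(Y)`). `c_p = f f''` with `f'' = -(f^(p-1) + c_1 f^(p-2) + …) ∈ R[Y]`.
(2) Homogeneity: for `λ ∈ ℂ*` let `θ_λ` be the automorphism of `R[Y]` with `s ↦ λ^(deg s) s`,
`Y_i ↦ Y_i`; it maps `S[Y]` to `S[Y]` by `x ↦ λ^d x` and `θ_λ f = λ^m f`; so
`λ^(-mp) (θ_λ μ)(λ^m T)` is monic of degree `p` and vanishes at `f`, hence is `μ`. So
`c_k (λ^d x) = λ^(mk) c_k (x)` for all `λ`: `c_k` is homogeneous of degree `mk/d`.
(3) Non-vanishing: let `A_i ∈ M_e(F)` be the matrix of the multiplication by `s_i` on `K`; the norm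
of `f` from `K(Y)` to `F(Y)` is `det (∑ Y_i A_i)` and equals `± c_p^q`, `q = e / p`
(`Algebra.norm` and `minpoly`). For `v ∈ L^M`, `v ≠ 0`, `det (∑ v_i A_i)` in `F ⊗ L` is the
determinant of the multiplication by `∑ s_i ⊗ v_i` on the free `F ⊗ L`-module `K ⊗ L`; `K ⊗_ℂ L` is
a domain (`tensor_isDomain` of `GDom.lean`) and `∑ s_i ⊗ v_i ≠ 0` (linear independence), so the determinant is not zero and
`c_p (v) ≠ 0`. Take `P = c_p` (as a polynomial in `x` over `ℂ[Y]`). -/
theorem exists_norm (h : IsFano 𝒜 n r d x G) : ∃ D₀ : ℕ, ∀ (m M : ℕ) (s : Fin M → R),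
    (∀ i, s i ∈ 𝒜 m) → LinearIndependent ℂ s →
    ∃ (P : MvPolynomial (Fin (n + 1)) (MvPolynomial (Fin M) ℂ)) (k : ℕ)
      (f' : MvPolynomial (Fin M) R), k ≤ D₀ * m ∧ P.IsHomogeneous k ∧
      (MvPolynomial.eval₂ (MvPolynomial.map (algebraMap ℂ R))
        (fun b => (MvPolynomial.C (x b) : MvPolynomial (Fin M) R)) P =
          (∑ i, MvPolynomial.X i * MvPolynomial.C (s i)) * f') ∧
      ∀ (L : Type) [Field L] [Algebra ℂ L] (v : Fin M → L), v ≠ 0 →
        MvPolynomial.map ((MvPolynomial.aeval v : MvPolynomial (Fin M) ℂ →ₐ[ℂ] L) :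
          MvPolynomial (Fin M) ℂ →+* L) P ≠ 0 := by
  classical
  obtain ⟨e, β, deg, γ, g, hg, ⟨a₀, ha₀⟩, hdeg, hli, hsp⟩ := GNorm_basis h
  refine ⟨e * (γ + 1), fun m M s hs hls => ?_⟩
  rcases Nat.eq_zero_or_pos m with rfl | hm
  · -- `𝒜 0 = ℂ`
    have h0 : ∀ i, ∃ c : ℂ, algebraMap ℂ R c = s i := by
      intro i
      have h1 := hs i
      rw [h.connected] at h1
      exact Algebra.mem_bot.1 h1
    choose c hc using h0
    have hci : LinearIndependent ℂ c := by
      rw [Fintype.linearIndependent_iff]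
      intro v hv
      refine Fintype.linearIndependent_iff.1 hls v ?_
      have h1 : ∑ i, v i • s i = algebraMap ℂ R (∑ i, v i • c i) := by
        rw [map_sum]
        refine Finset.sum_congr rfl fun i _ => ?_
        rw [smul_eq_mul, map_mul, hc, Algebra.smul_def]
      rw [h1, hv, map_zero]
    have hM : M ≤ 1 := by
      have h1 := hci.fintype_card_le_finrank
      simpa using h1
    refine ⟨MvPolynomial.C (∑ i, MvPolynomial.X i * MvPolynomial.C (c i)), 0, 1, by omega,
      MvPolynomial.isHomogeneous_C _ _, ?_, ?_⟩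
    · rw [MvPolynomial.eval₂_C, mul_one, map_sum]
      refine Finset.sum_congr rfl fun i _ => ?_
      rw [map_mul, MvPolynomial.map_X, MvPolynomial.map_C, hc]
    · intro L _ _ v hv h1
      apply hv
      funext i
      rw [MvPolynomial.map_C, MvPolynomial.C_eq_zero] at h1
      have h2 : ((MvPolynomial.aeval v : MvPolynomial (Fin M) ℂ →ₐ[ℂ] L) :
          MvPolynomial (Fin M) ℂ →+* L) (∑ i, MvPolynomial.X i * MvPolynomial.C (c i)) =
          ∑ i, v i * algebraMap ℂ L (c i) := by
        rw [map_sum]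
        refine Finset.sum_congr rfl fun i _ => ?_
        simp
      rw [h2] at h1
      have h3 : ∀ j, j = i := fun j => Fin.ext (by have := j.isLt; have := i.isLt; omega)
      rw [Finset.sum_eq_single i (fun j _ hj => absurd (h3 j) hj)
        (fun hj => absurd (Finset.mem_univ _) hj)] at h1
      rcases mul_eq_zero.1 h1 with h4 | h4
      · exact h4
      · exact absurd ((_root_.map_eq_zero _).1 h4) (hci.ne_zero i)
  · obtain ⟨P, f', h1, h2, h3⟩ := GNorm_main h hg ha₀ hdeg hli hsp m M s hs hls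
    refine ⟨P, _, f', ?_, h1, h2, h3⟩
    refine Nat.div_le_of_le_mul ?_
    have hd := h.d_pos
    have h4 : d * γ + m ≤ d * ((γ + 1) * m) := by
      have h5 : d * γ ≤ d * (γ * m) := Nat.mul_le_mul_left _ (Nat.le_mul_of_pos_right _ hm)
      have h6 : m ≤ d * m := Nat.le_mul_of_pos_left _ hd
      calc d * γ + m ≤ d * (γ * m) + d * m := Nat.add_le_add h5 h6
        _ = d * ((γ + 1) * m) := by ring
    calc e * (d * γ + m) ≤ e * (d * ((γ + 1) * m)) := Nat.mul_le_mul_left _ h4
      _ = d * (e * (γ + 1) * m) := by ring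

end Pool.Agent.Lib_KF
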