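import Pool.Agent.Lib_KF.GTay

/-!
# G2e: the operators `F a γ` on sections with coefficients in `L⟦X⟧`
-/

open PowerSeries

namespace Pool.Agent.Lib_KF

open Pool.Agent.Lib_GD

variable {R : Type} [CommRing R] [Algebra ℂ R] {n : ℕ} {x : Fin (n + 1) → R}
  {L : Type} [Field L] [Algebra ℂ L]

/-- `∑_κ r_κ Y^κ ↦ ∑_κ f^κ (F a γ r_κ) (x_j)`. -/
noncomputable def phiG (T : DerData x) (a : Fin (n + 1)) (xj : R →ₐ[ℂ] L⟦X⟧) {M : ℕ}
    (f : Fin M → L⟦X⟧) (γ : Fin n →₀ ℕ) (u : MvPolynomial (Fin M) R) : L⟦X⟧ :=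
  u.support.sum fun κ => xj (T.F a γ (MvPolynomial.coeff κ u)) * ∏ i, f i ^ κ i

private theorem gphi_sup (T : DerData x) (a : Fin (n + 1)) (xj : R →ₐ[ℂ] L⟦X⟧) {M : ℕ}
    (f : Fin M → L⟦X⟧) (γ : Fin n →₀ ℕ) (u : MvPolynomial (Fin M) R)
    (s : Finset (Fin M →₀ ℕ)) (hs : u.support ⊆ s) :
    phiG T a xj f γ u =
      ∑ κ ∈ s, xj (T.F a γ (MvPolynomial.coeff κ u)) * ∏ i, f i ^ κ i := by
  refine Finset.sum_subset hs fun κ _ hκ => ?_
  rw [MvPolynomial.notMem_support_iff.1 hκ, map_zero, map_zero, zero_mul]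

theorem phiG_add (T : DerData x) (a : Fin (n + 1)) (xj : R →ₐ[ℂ] L⟦X⟧) {M : ℕ}
    (f : Fin M → L⟦X⟧) (γ : Fin n →₀ ℕ) (u v : MvPolynomial (Fin M) R) :
    phiG T a xj f γ (u + v) = phiG T a xj f γ u + phiG T a xj f γ v := by
  classical
  rw [gphi_sup T a xj f γ (u + v) (u.support ∪ v.support) MvPolynomial.support_add,
    gphi_sup T a xj f γ u (u.support ∪ v.support) Finset.subset_union_left,
    gphi_sup T a xj f γ v (u.support ∪ v.support) Finset.subset_union_right,
    ← Finset.sum_add_distrib]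
  refine Finset.sum_congr rfl fun κ _ => ?_
  rw [MvPolynomial.coeff_add, map_add, map_add, add_mul]

private theorem gphi_zero (T : DerData x) (a : Fin (n + 1)) (xj : R →ₐ[ℂ] L⟦X⟧) {M : ℕ}
    (f : Fin M → L⟦X⟧) (γ : Fin n →₀ ℕ) :
    phiG T a xj f γ (0 : MvPolynomial (Fin M) R) = 0 := by
  rw [gphi_sup T a xj f γ 0 ∅ (by simp), Finset.sum_empty]

private theorem gphi_monomial (T : DerData x) (a : Fin (n + 1)) (xj : R →ₐ[ℂ] L⟦X⟧) {M : ℕ}
    (f : Fin M → L⟦X⟧) (γ : Fin n →₀ ℕ) (κ : Fin M →₀ ℕ) (r : R) :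
    phiG T a xj f γ (MvPolynomial.monomial κ r) = xj (T.F a γ r) * ∏ i, f i ^ κ i := by
  classical
  rw [gphi_sup T a xj f γ _ {κ} MvPolynomial.support_monomial_subset, Finset.sum_singleton,
    MvPolynomial.coeff_monomial, if_pos rfl]

private theorem gphi_sum (T : DerData x) (a : Fin (n + 1)) (xj : R →ₐ[ℂ] L⟦X⟧) {M : ℕ}
    (f : Fin M → L⟦X⟧) (γ : Fin n →₀ ℕ) {ι : Type} (s : Finset ι)
    (u : ι → MvPolynomial (Fin M) R) :
    phiG T a xj f γ (∑ i ∈ s, u i) = ∑ i ∈ s, phiG T a xj f γ (u i) := by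
  classical
  induction s using Finset.induction_on with
  | empty => rw [Finset.sum_empty, Finset.sum_empty, gphi_zero]
  | insert i s hi ih => rw [Finset.sum_insert hi, Finset.sum_insert hi, phiG_add, ih]

/-- Leibniz rule, from `F_mul` (for monomials, then bilinear extension). -/
theorem phiG_mul (T : DerData x) (a : Fin (n + 1)) (xj : R →ₐ[ℂ] L⟦X⟧) {M : ℕ}
    (f : Fin M → L⟦X⟧) (γ : Fin n →₀ ℕ) (u v : MvPolynomial (Fin M) R) :
    phiG T a xj f γ (u * v) = ∑ p ∈ Finset.HasAntidiagonal.antidiagonal γ,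
      algebraMap ℂ L⟦X⟧ (binG p.1 p.2) * (phiG T a xj f p.1 u * phiG T a xj f p.2 v) := by
  induction u using MvPolynomial.induction_on' with
  | monomial κ r =>
    induction v using MvPolynomial.induction_on' with
    | monomial κ' r' =>
      rw [MvPolynomial.monomial_mul, gphi_monomial, T.F_mul, map_sum, Finset.sum_mul]
      refine Finset.sum_congr rfl fun p _ => ?_
      rw [gphi_monomial, gphi_monomial, map_smul, map_mul, Algebra.smul_def]
      have h : ∏ i, f i ^ (κ + κ') i = (∏ i, f i ^ κ i) * ∏ i, f i ^ κ' i := by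
        rw [← Finset.prod_mul_distrib]
        refine Finset.prod_congr rfl fun i _ => ?_
        rw [Finsupp.add_apply, pow_add]
      rw [h]
      ring
    | add p q hp hq =>
      rw [mul_add, phiG_add, hp, hq, ← Finset.sum_add_distrib]
      refine Finset.sum_congr rfl fun p _ => ?_
      rw [phiG_add]
      ring
  | add p q hp hq =>
    rw [add_mul, phiG_add, hp, hq, ← Finset.sum_add_distrib]
    refine Finset.sum_congr rfl fun p _ => ?_
    rw [phiG_add]
    ring

theorem phiG_lin (T : DerData x) (a : Fin (n + 1)) (xj : R →ₐ[ℂ] L⟦X⟧) {M : ℕ}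
    (f : Fin M → L⟦X⟧) (γ : Fin n →₀ ℕ) (s : Fin M → R) :
    phiG T a xj f γ (∑ i, MvPolynomial.X i * MvPolynomial.C (s i)) =
      ∑ i, f i * xj (T.F a γ (s i)) := by
  classical
  rw [gphi_sum]
  refine Finset.sum_congr rfl fun i _ => ?_
  have h1 : (MvPolynomial.X i * MvPolynomial.C (s i) : MvPolynomial (Fin M) R) =
      MvPolynomial.monomial (Finsupp.single i 1) (s i) := by
    rw [mul_comm, MvPolynomial.C_mul_X_eq_monomial]
  rw [h1, gphi_monomial, mul_comm]
  congr 1
  rw [Finset.prod_eq_single i]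
  · rw [Finsupp.single_eq_same, pow_one]
  · intro j _ hj
    rw [Finsupp.single_eq_of_ne hj, pow_zero]
  · intro h
    exact absurd (Finset.mem_univ i) h

/-- On polynomials in the `x b` with coefficients in `ℂ[Y]` (from `F_poly`): the derivative of
the polynomial `P` with `Y := f`, at the point `xj (x b)`, times `xj h ^ |γ|`. -/
theorem phiG_poly (T : DerData x) (a : Fin (n + 1)) (xj : R →ₐ[ℂ] L⟦X⟧) {M : ℕ}
    (f : Fin M → L⟦X⟧) (γ : Fin n →₀ ℕ)
    (P : MvPolynomial (Fin (n + 1)) (MvPolynomial (Fin M) ℂ)) :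
    phiG T a xj f γ (MvPolynomial.eval₂ (MvPolynomial.map (algebraMap ℂ R))
        (fun b => (MvPolynomial.C (x b) : MvPolynomial (Fin M) R)) P) =
      xj T.h ^ γ.degree * MvPolynomial.eval (fun b => xj (x b))
        (pdL a γ (MvPolynomial.map ((MvPolynomial.aeval f : MvPolynomial (Fin M) ℂ →ₐ[ℂ] L⟦X⟧) :
          MvPolynomial (Fin M) ℂ →+* L⟦X⟧) P)) := by
  induction P using MvPolynomial.induction_on' with
  | add p q hp hq =>
    rw [MvPolynomial.eval₂_add, phiG_add, hp, hq, map_add, map_add, map_add, mul_add]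
  | monomial κ q =>
    induction q using MvPolynomial.induction_on' with
    | add p q hp hq =>
      rw [map_add, MvPolynomial.eval₂_add, phiG_add, hp, hq, map_add, map_add, map_add, mul_add]
    | monomial μ c =>
      have h1 : MvPolynomial.eval₂ (MvPolynomial.map (algebraMap ℂ R))
          (fun b => (MvPolynomial.C (x b) : MvPolynomial (Fin M) R))
          (MvPolynomial.monomial κ (MvPolynomial.monomial μ c)) =
          MvPolynomial.monomial μ (MvPolynomial.aeval x (MvPolynomial.monomial κ c)) := by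
        rw [MvPolynomial.eval₂_monomial, MvPolynomial.map_monomial, MvPolynomial.aeval_monomial]
        have h2 : (κ.prod fun b k => (MvPolynomial.C (x b) : MvPolynomial (Fin M) R) ^ k) =
            MvPolynomial.C (κ.prod fun b k => x b ^ k) := by
          simp only [Finsupp.prod, map_prod, map_pow]
        rw [h2, mul_comm, MvPolynomial.C_mul_monomial, mul_comm]
      have h3 : MvPolynomial.map ((MvPolynomial.aeval f : MvPolynomial (Fin M) ℂ →ₐ[ℂ] L⟦X⟧) :
          MvPolynomial (Fin M) ℂ →+* L⟦X⟧)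
          (MvPolynomial.monomial κ (MvPolynomial.monomial μ c)) =
          (∏ i, f i ^ μ i) • MvPolynomial.map (algebraMap ℂ L⟦X⟧)
            (MvPolynomial.monomial κ c) := by
        rw [MvPolynomial.map_monomial, MvPolynomial.map_monomial, MvPolynomial.smul_monomial]
        congr 1
        rw [RingHom.coe_coe, MvPolynomial.aeval_monomial, Finsupp.prod_fintype _ _ (by simp),
          smul_eq_mul, mul_comm]
      rw [h1, gphi_monomial, h3, T.F_poly, map_smul, MvPolynomial.smul_eval, pdL_map,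
        pdL_eq_pdG, map_mul, map_pow, MvPolynomial.eval_map]
      have h4 : xj (MvPolynomial.aeval x (pdG a γ (MvPolynomial.monomial κ c))) =
          MvPolynomial.eval₂ (algebraMap ℂ L⟦X⟧) (fun b => xj (x b))
            (pdG a γ (MvPolynomial.monomial κ c)) := by
        rw [← MvPolynomial.aeval_def]
        have h5 : xj.comp (MvPolynomial.aeval x) = MvPolynomial.aeval fun b => xj (x b) := by
          ext b
          simp
        exact DFunLike.congr_fun h5 _
      rw [h4]
      change xj T.h ^ γ.degree * _ * _ = _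
      ring

end Pool.Agent.Lib_KF
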