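import Pool.Agent.Lib_KF.GSepA

/-!
# G3b: (Sep'), jets are independent up to a bounded denominator
-/

open PowerSeries

namespace Pool.Agent.Lib_KF

open Pool.Agent.Lib_GD

variable {R : Type} [CommRing R] [Algebra ℂ R] {𝒜 : ℕ → Submodule ℂ R} [GradedAlgebra 𝒜]
  {n r d : ℕ} {x : Fin (n + 1) → R} {G : R}

private theorem GSep_binG_zero (β : Fin n →₀ ℕ) : binG (0 : Fin n →₀ ℕ) β = 1 := by
  unfold binG
  refine Finset.prod_eq_one fun l _ => ?_
  simp

private theorem GSep_degree_lt {α β : Fin n →₀ ℕ} (h : β ≤ α) (hne : α ≠ β) :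
    β.degree < α.degree := by
  have h1 : α - β + β = α := tsub_add_cancel_of_le h
  have h2 : (α - β).degree + β.degree = α.degree := by rw [← map_add, h1]
  have h3 : (α - β).degree ≠ 0 := by
    intro h4
    rw [Finsupp.degree_eq_zero_iff] at h4
    rw [h4, zero_add] at h1
    exact hne h1.symm
  omega

/-- (Sep'). `hloc` is `GLoc.exists_local`. PROOF. `c = 1 / (2 d)`, `m₀ = 2 K₀ + 2 d`; write
`m = m' + d t` by `hloc`, `b` with `xj b` a unit; `t = (m - m') / d ≥ q` for `q ≤ c m`. For every `β` with `|β| < q` test with `g_test`: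
`X^k ∣ ∑_{α ∈ s, α ≥ β} c_α bin β! xj h^|β| xj (F a (α - β) b)`. Descending induction on `|β|`: `X^k ∣ X^((q - 1) e) c_β`
for all `β ∈ s`: the term `α = β` is `c_β β! xj h^|β| xj b` = `c_β X^(|β| e)` times a unit; multiply by
`X^((q - 1 - |β|) e)`; the other terms are multiples of `X^((q - 1) e) c_α`, `|α| > |β|`. -/
theorem g_Sep (h : IsFano 𝒜 n r d x G) (T : DerData x) (K₀ : ℕ)
    (hloc : ∀ (L : Type) [Field L] [Algebra ℂ L] (a : Fin (n + 1)) (xj : R →ₐ[ℂ] L⟦X⟧),
      xj (x a) = 1 → ∀ m, K₀ ≤ m → ∃ m' t, m = m' + d * t ∧ m' ≤ K₀ ∧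
        ∃ b ∈ 𝒜 m', IsUnit (xj b)) :
    ∃ (c : ℝ) (m₀ : ℕ), 0 < c ∧ ∀ m, m₀ ≤ m → ∀ q : ℕ, (q : ℝ) ≤ c * m →
      ∀ (L : Type) [Field L] [Algebra ℂ L] (a : Fin (n + 1)) (xj : R →ₐ[ℂ] L⟦X⟧),
      xj (x a) = 1 → ∀ (e : ℕ) (v : L⟦X⟧), IsUnit v → xj T.h = X ^ e * v →
      ∀ (k : ℕ) (s : Finset (Fin n →₀ ℕ)) (cf : (Fin n →₀ ℕ) → L⟦X⟧),
        (∀ α ∈ s, α.degree < q) →
        (∀ f : Fin (secDim 𝒜 m) → L⟦X⟧,
          (X : L⟦X⟧) ^ k ∣ ∑ α ∈ s, cf α * ∑ i, f i * xj (T.F a α (secBasis 𝒜 m i))) →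
        ∀ α ∈ s, (X : L⟦X⟧) ^ k ∣ X ^ ((q - 1) * e) * cf α := by
  classical
  have hd := h.d_pos
  have hd' : (0 : ℝ) < d := by exact_mod_cast hd
  refine ⟨1 / (2 * d), 2 * K₀ + 2 * d, by positivity, ?_⟩
  intro m hm q hq L _ _ a xj hxj e v hv hh k s cf hs hf
  obtain ⟨m', t, hmt, hm', b, hb, hbu⟩ := hloc L a xj hxj m (by omega)
  have hq1 : 2 * d * q ≤ m := by
    have h1 : (2 * d * q : ℝ) ≤ m := by
      have h2 : (2 * d : ℝ) * (1 / (2 * d) * m) = m := by field_simp
      calc (2 * d * q : ℝ) ≤ 2 * d * (1 / (2 * d) * m) :=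
            mul_le_mul_of_nonneg_left hq (by positivity)
        _ = m := h2
    exact_mod_cast h1
  have hqt : q ≤ t := by
    by_contra hlt
    have h1 : d * (t + 1) ≤ d * q := Nat.mul_le_mul_left _ (by omega)
    have h2 : 2 * d * q = d * q + d * q := by ring
    rw [mul_add, mul_one] at h1
    omega
  have key : ∀ M : ℕ, ∀ β ∈ s, q ≤ β.degree + M →
      (X : L⟦X⟧) ^ k ∣ X ^ ((q - 1) * e) * cf β := by
    intro M
    induction M with
    | zero =>
      intro β hβ hle
      exact absurd (hs β hβ) (by omega)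
    | succ M ih =>
      intro β hβ hle
      have hβq := hs β hβ
      obtain ⟨f, hff⟩ := g_test h T a xj hxj hmt b hb β (by omega)
      have h1 := Dvd.dvd.mul_left (hf f) ((X : L⟦X⟧) ^ ((q - 1 - β.degree) * e))
      rw [Finset.mul_sum, ← Finset.add_sum_erase s _ hβ] at h1
      have h2 : (X : L⟦X⟧) ^ k ∣ ∑ α ∈ s.erase β, (X : L⟦X⟧) ^ ((q - 1 - β.degree) * e) *
          (cf α * ∑ i, f i * xj (T.F a α (secBasis 𝒜 m i))) := by
        refine Finset.dvd_sum fun α hα => ?_
        rw [Finset.mem_erase] at hα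
        rw [hff α]
        split_ifs with hle'
        · have h3 := GSep_degree_lt hle' hα.1
          have h4 := ih α hα.2 (by omega)
          have h5 : (X : L⟦X⟧) ^ ((q - 1 - β.degree) * e) *
              (cf α * (algebraMap ℂ L⟦X⟧ (binG (α - β) β * ∏ l, ((β l).factorial : ℂ)) *
                xj T.h ^ β.degree * xj (T.F a (α - β) b))) =
              (X ^ ((q - 1) * e) * cf α) *
                (algebraMap ℂ L⟦X⟧ (binG (α - β) β * ∏ l, ((β l).factorial : ℂ)) *
                  v ^ β.degree * xj (T.F a (α - β) b)) := by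
            have h6 : (q - 1) * e = (q - 1 - β.degree) * e + e * β.degree := by
              rw [mul_comm e, ← add_mul]
              congr 1
              omega
            rw [hh, mul_pow, ← pow_mul, h6, pow_add]
            ring
          rw [h5]
          exact Dvd.dvd.mul_right h4 _
        · rw [mul_zero, mul_zero]
          exact dvd_zero _
      have h3 := (dvd_add_left h2).1 h1
      rw [hff β, if_pos le_rfl, tsub_self, T.F_zero, GSep_binG_zero, one_mul, hh] at h3
      have h4 : (X : L⟦X⟧) ^ ((q - 1 - β.degree) * e) *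
          (cf β * (algebraMap ℂ L⟦X⟧ (∏ l, ((β l).factorial : ℂ)) *
            (X ^ e * v) ^ β.degree * xj b)) =
          (X ^ ((q - 1) * e) * cf β) *
            (algebraMap ℂ L⟦X⟧ (∏ l, ((β l).factorial : ℂ)) * v ^ β.degree * xj b) := by
        have h6 : (q - 1) * e = (q - 1 - β.degree) * e + e * β.degree := by
          rw [mul_comm e, ← add_mul]
          congr 1
          omega
        rw [mul_pow, ← pow_mul, h6, pow_add]
        ring
      rw [h4] at h3
      have h5 : IsUnit (algebraMap ℂ L⟦X⟧ (∏ l, ((β l).factorial : ℂ)) * v ^ β.degree *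
          xj b) := by
        refine IsUnit.mul (IsUnit.mul ?_ (hv.pow _)) hbu
        refine IsUnit.map _ (isUnit_iff_ne_zero.2 ?_)
        refine Finset.prod_ne_zero_iff.2 fun l _ => ?_
        exact_mod_cast Nat.factorial_ne_zero _
      exact (h5.dvd_mul_right).1 h3
  intro α hα
  exact key q α hα (by omega)

end Pool.Agent.Lib_KF
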