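import Pool.Agent.Lib_KF.GT

/-!
# G3c: test sections for (Sep')
-/

open PowerSeries

namespace Pool.Agent.Lib_KF

open Pool.Agent.Lib_GD

variable {R : Type} [CommRing R] [Algebra ℂ R] {𝒜 : ℕ → Submodule ℂ R} [GradedAlgebra 𝒜]
  {n r d : ℕ} {x : Fin (n + 1) → R} {G : R}

/-! ### derivatives of the test polynomial -/

private theorem GSepA_pow {A : Type} [CommRing A] (D : Derivation A (MvPolynomial (Fin (n + 1)) A)
    (MvPolynomial (Fin (n + 1)) A)) (u v : MvPolynomial (Fin (n + 1)) A) (hu : D u = 0)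
    (hv : D v = 1) (m k : ℕ) :
    (((D : MvPolynomial (Fin (n + 1)) A →ₗ[A] MvPolynomial (Fin (n + 1)) A) :
      Module.End A (MvPolynomial (Fin (n + 1)) A)) ^ k) (u * v ^ m) =
      u * (((m.descFactorial k : ℕ) : MvPolynomial (Fin (n + 1)) A) * v ^ (m - k)) := by
  induction k with
  | zero => simp
  | succ k ih =>
    rw [pow_succ', Module.End.mul_apply, ih]
    change D (u * (((m.descFactorial k : ℕ) : MvPolynomial (Fin (n + 1)) A) * v ^ (m - k))) = _
    rw [Derivation.leibniz, hu, smul_zero, add_zero, Derivation.leibniz, Derivation.map_natCast,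
      smul_zero, add_zero, Derivation.leibniz_pow, hv, Nat.descFactorial_succ, Nat.sub_sub]
    simp only [smul_eq_mul, mul_one, nsmul_eq_mul, Nat.cast_mul]
    ring

private theorem GSepA_prod_zero {A : Type} [CommRing A]
    (D : Derivation A (MvPolynomial (Fin (n + 1)) A) (MvPolynomial (Fin (n + 1)) A)) {ι : Type}
    (s : Finset ι) (f : ι → MvPolynomial (Fin (n + 1)) A) (h : ∀ i ∈ s, D (f i) = 0) :
    D (∏ i ∈ s, f i) = 0 := by
  refine Finset.prod_induction f (fun p => D p = 0) (fun p q hp hq => ?_) D.map_one_eq_zero h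
  rw [Derivation.leibniz, hp, hq, smul_zero, smul_zero, add_zero]

private theorem GSepA_pow_zero {A : Type} [CommRing A]
    (D : Derivation A (MvPolynomial (Fin (n + 1)) A) (MvPolynomial (Fin (n + 1)) A))
    (p : MvPolynomial (Fin (n + 1)) A) (h : D p = 0) (k : ℕ) : D (p ^ k) = 0 := by
  rw [Derivation.leibniz_pow, h, smul_zero, smul_zero]

/-- the linear form `x_l - z_l x_a` -/
private noncomputable def GSepA_G {A : Type} [CommRing A] (a : Fin (n + 1)) (z : Fin n → A)
    (l : Fin n) : MvPolynomial (Fin (n + 1)) A :=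
  MvPolynomial.X (a.succAbove l) - MvPolynomial.C (z l) * MvPolynomial.X a

private theorem GSepA_D_a {A : Type} [CommRing A] (a : Fin (n + 1)) (m : Fin n) :
    MvPolynomial.pderiv (a.succAbove m) (MvPolynomial.X a : MvPolynomial (Fin (n + 1)) A) = 0 :=
  MvPolynomial.pderiv_X_of_ne (Fin.succAbove_ne a m).symm

private theorem GSepA_D_G {A : Type} [CommRing A] (a : Fin (n + 1)) (z : Fin n → A)
    (m l : Fin n) : MvPolynomial.pderiv (a.succAbove m) (GSepA_G a z l) =
      if l = m then 1 else 0 := by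
  unfold GSepA_G
  rw [map_sub, Derivation.leibniz, GSepA_D_a, MvPolynomial.pderiv_C, smul_zero, smul_zero,
    add_zero, sub_zero]
  by_cases h : l = m
  · rw [if_pos h, h, MvPolynomial.pderiv_X_self]
  · rw [if_neg h, MvPolynomial.pderiv_X_of_ne]
    intro h1
    exact h (Fin.succAbove_right_injective h1)

private theorem GSepA_list {A : Type} [CommRing A] (a : Fin (n + 1)) (z : Fin n → A) (s : ℕ)
    (β q : Fin n →₀ ℕ) (L : List (Fin n)) (hL : L.Nodup) :
    ((L.map fun l => (((MvPolynomial.pderiv (a.succAbove l) :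
      Derivation A (MvPolynomial (Fin (n + 1)) A) (MvPolynomial (Fin (n + 1)) A)) :
      MvPolynomial (Fin (n + 1)) A →ₗ[A] MvPolynomial (Fin (n + 1)) A) :
      Module.End A (MvPolynomial (Fin (n + 1)) A)) ^ (q l)).prod)
      (MvPolynomial.X a ^ s * ∏ l, GSepA_G a z l ^ β l) =
    MvPolynomial.X a ^ s * ∏ l, (if l ∈ L then
      (((β l).descFactorial (q l) : ℕ) : MvPolynomial (Fin (n + 1)) A) *
        GSepA_G a z l ^ (β l - q l) else GSepA_G a z l ^ β l) := by
  classical
  induction L with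
  | nil => simp
  | cons m L ih =>
    rw [List.nodup_cons] at hL
    rw [List.map_cons, List.prod_cons, Module.End.mul_apply, ih hL.2]
    set f : Fin n → MvPolynomial (Fin (n + 1)) A := fun l => if l ∈ L then
      (((β l).descFactorial (q l) : ℕ) : MvPolynomial (Fin (n + 1)) A) *
        GSepA_G a z l ^ (β l - q l) else GSepA_G a z l ^ β l with hf
    have h1 : MvPolynomial.X a ^ s * ∏ l, f l =
        (MvPolynomial.X a ^ s * ∏ l ∈ Finset.univ.erase m, f l) * GSepA_G a z m ^ β m := by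
      rw [← Finset.mul_prod_erase Finset.univ f (Finset.mem_univ m)]
      have h2 : f m = GSepA_G a z m ^ β m := by
        rw [hf]
        exact if_neg hL.1
      rw [h2]
      ring
    have h3 : MvPolynomial.pderiv (a.succAbove m)
        (MvPolynomial.X a ^ s * ∏ l ∈ Finset.univ.erase m, f l) = 0 := by
      rw [Derivation.leibniz, GSepA_pow_zero _ _ (GSepA_D_a a m), smul_zero, add_zero,
        GSepA_prod_zero, smul_zero]
      intro l hl
      have hlm : l ≠ m := Finset.ne_of_mem_erase hl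
      have h4 : MvPolynomial.pderiv (a.succAbove m) (GSepA_G a z l) = 0 := by
        rw [GSepA_D_G, if_neg hlm]
      rw [hf]
      by_cases h5 : l ∈ L
      · simp only [if_pos h5]
        rw [Derivation.leibniz, GSepA_pow_zero _ _ h4, smul_zero, zero_add,
          Derivation.map_natCast, smul_zero]
      · simp only [if_neg h5]
        exact GSepA_pow_zero _ _ h4 _
    rw [h1, GSepA_pow _ _ _ h3 (by rw [GSepA_D_G, if_pos rfl])]
    have h6 : ∏ l, (if l ∈ m :: L then
        (((β l).descFactorial (q l) : ℕ) : MvPolynomial (Fin (n + 1)) A) *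
        GSepA_G a z l ^ (β l - q l) else GSepA_G a z l ^ β l) =
        ((((β m).descFactorial (q m) : ℕ) : MvPolynomial (Fin (n + 1)) A) *
          GSepA_G a z m ^ (β m - q m)) * ∏ l ∈ Finset.univ.erase m, f l := by
      rw [← Finset.mul_prod_erase Finset.univ _ (Finset.mem_univ m), if_pos List.mem_cons_self]
      congr 1
      refine Finset.prod_congr rfl fun l hl => ?_
      have hlm : l ≠ m := Finset.ne_of_mem_erase hl
      rw [hf]
      simp only [List.mem_cons, hlm, false_or]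
    rw [h6]
    ring

private theorem GSepA_eval {A : Type} [CommRing A] (a : Fin (n + 1)) (y : Fin (n + 1) → A)
    (hy : y a = 1) (s : ℕ) (β q : Fin n →₀ ℕ) :
    MvPolynomial.eval y (pdL a q
      (MvPolynomial.X a ^ s * ∏ l, GSepA_G a (fun l => y (a.succAbove l)) l ^ β l)) =
      if q = β then ∏ l, ((β l).factorial : A) else 0 := by
  classical
  have h0 : pdL a q
      (MvPolynomial.X a ^ s * ∏ l, GSepA_G a (fun l => y (a.succAbove l)) l ^ β l) = _ :=
    GSepA_list a (fun l => y (a.succAbove l)) s β q (List.finRange n) (List.nodup_finRange n)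
  rw [h0]
  have h1 : ∀ l, MvPolynomial.eval y (GSepA_G a (fun l => y (a.succAbove l)) l) = 0 := by
    intro l
    unfold GSepA_G
    simp [hy]
  simp only [List.mem_finRange, if_true, map_mul, map_pow, map_prod, MvPolynomial.eval_X, hy,
    one_pow, one_mul, map_natCast, h1]
  by_cases hq : q = β
  · rw [if_pos hq, hq]
    refine Finset.prod_congr rfl fun l _ => ?_
    rw [Nat.sub_self, pow_zero, mul_one, Nat.descFactorial_self]
  · rw [if_neg hq]
    obtain ⟨l, hl⟩ : ∃ l, q l ≠ β l := by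
      by_contra hcon
      push Not at hcon
      exact hq (Finsupp.ext hcon)
    refine Finset.prod_eq_zero (Finset.mem_univ l) ?_
    rcases lt_or_gt_of_ne hl with h2 | h2
    · rw [zero_pow (by omega), mul_zero]
    · rw [Nat.descFactorial_eq_zero_iff_lt.2 h2, Nat.cast_zero, zero_mul]

/-! ### degrees of the coefficients -/

private def GSepA_deg (𝒜 : ℕ → Submodule ℂ R) (j : ℕ) (u : MvPolynomial (Fin n) R) : Prop :=
  ∀ κ, MvPolynomial.coeff κ u ∈ 𝒜 j

private theorem GSepA_deg_mul {i j : ℕ} {u v : MvPolynomial (Fin n) R}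
    (hu : GSepA_deg 𝒜 i u) (hv : GSepA_deg 𝒜 j v) : GSepA_deg 𝒜 (i + j) (u * v) := by
  classical
  intro κ
  rw [MvPolynomial.coeff_mul]
  exact Submodule.sum_mem _ fun p _ => SetLike.mul_mem_graded (hu _) (hv _)

omit [GradedAlgebra 𝒜] in
private theorem GSepA_deg_C {j : ℕ} {b : R} (hb : b ∈ 𝒜 j) :
    GSepA_deg 𝒜 j (MvPolynomial.C b : MvPolynomial (Fin n) R) := by
  classical
  intro κ
  rw [MvPolynomial.coeff_C]
  split_ifs
  · exact hb
  · exact Submodule.zero_mem _

private theorem GSepA_deg_one : GSepA_deg 𝒜 0 (1 : MvPolynomial (Fin n) R) := by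
  rw [← MvPolynomial.C_1]
  exact GSepA_deg_C SetLike.GradedOne.one_mem

private theorem GSepA_deg_pow {j : ℕ} {u : MvPolynomial (Fin n) R} (hu : GSepA_deg 𝒜 j u)
    (k : ℕ) : GSepA_deg 𝒜 (j * k) (u ^ k) := by
  induction k with
  | zero => rw [pow_zero, mul_zero]; exact GSepA_deg_one
  | succ k ih => rw [pow_succ, mul_add, mul_one]; exact GSepA_deg_mul ih hu

private theorem GSepA_deg_prod {ι : Type} (s : Finset ι) (j : ι → ℕ)
    (u : ι → MvPolynomial (Fin n) R) (hu : ∀ i, GSepA_deg 𝒜 (j i) (u i)) :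
    GSepA_deg 𝒜 (∑ i ∈ s, j i) (∏ i ∈ s, u i) := by
  classical
  induction s using Finset.induction_on with
  | empty => rw [Finset.sum_empty, Finset.prod_empty]; exact GSepA_deg_one
  | insert i s hi ih =>
    rw [Finset.sum_insert hi, Finset.prod_insert hi]
    exact GSepA_deg_mul (hu i) ih

omit [GradedAlgebra 𝒜] in
private theorem GSepA_deg_lin {j : ℕ} {b c : R} (hb : b ∈ 𝒜 j) (hc : c ∈ 𝒜 j) (l : Fin n) :
    GSepA_deg 𝒜 j (MvPolynomial.C b - MvPolynomial.X l * MvPolynomial.C c :
      MvPolynomial (Fin n) R) := by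
  classical
  intro κ
  rw [MvPolynomial.coeff_sub]
  refine Submodule.sub_mem _ (GSepA_deg_C hb κ) ?_
  rw [mul_comm, MvPolynomial.C_mul_X_eq_monomial, MvPolynomial.coeff_monomial]
  split_ifs
  · exact hc
  · exact Submodule.zero_mem _

/-- The test section `b x_a^(t - |β|) ∏_l (x_l - z_l x_a)^(β_l)`, `z_l = xj (x_l)`, `l` standing
for `a.succAbove l`. Its expansion is `∑_{κ ≤ β} bin (κ, β - κ) (-z)^(β - κ) b x_a^(t - |κ|) x^κ`, each
`b x_a^(t - |κ|) x^κ ∈ 𝒜 m` is a combination of the `secBasis 𝒜 m i`; this defines `f`. By `F_mul` and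
`F_poly` the value is `∑_{p + q = α} bin (p, q) xj (F a p b) xj h ^ |q| (∂^q (y - z)^β) (z)` (with `x_a = 1`),
and `(∂^q (y - z)^β) (z) = β!` if `q = β` and `0` otherwise (use `pdL_monomial` and the binomial identity, or
`phiG_poly` with `M = n`, `Y_l ↦ z_l` and the polynomial `x_a^(t-|β|) ∏ (x_l - Y_l x_a)^(β_l)`). -/
theorem g_test (h : IsFano 𝒜 n r d x G) (T : DerData x) {L : Type} [Field L] [Algebra ℂ L]
    (a : Fin (n + 1)) (xj : R →ₐ[ℂ] L⟦X⟧) (hxj : xj (x a) = 1) {m m' t : ℕ}
    (hm : m = m' + d * t) (b : R) (hb : b ∈ 𝒜 m') (β : Fin n →₀ ℕ) (hβ : β.degree ≤ t) :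
    ∃ f : Fin (secDim 𝒜 m) → L⟦X⟧, ∀ α : Fin n →₀ ℕ,
      ∑ i, f i * xj (T.F a α (secBasis 𝒜 m i)) =
        if β ≤ α then algebraMap ℂ L⟦X⟧ (binG (α - β) β * ∏ l, ((β l).factorial : ℂ)) *
          xj T.h ^ β.degree * xj (T.F a (α - β) b) else 0 := by
  classical
  obtain ⟨-, -, hsp⟩ := secBasis_indepF h m
  set z : Fin n → L⟦X⟧ := fun l => xj (x (a.succAbove l)) with hz
  set s : ℕ := t - β.degree with hs
  -- the test polynomial
  set P : MvPolynomial (Fin (n + 1)) (MvPolynomial (Fin n) ℂ) :=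
    MvPolynomial.X a ^ s * ∏ l, GSepA_G a (fun l => MvPolynomial.X l) l ^ β l with hP
  set E : MvPolynomial (Fin n) R := MvPolynomial.eval₂ (MvPolynomial.map (algebraMap ℂ R))
    (fun b => (MvPolynomial.C (x b) : MvPolynomial (Fin n) R)) P with hE
  have hE1 : E = MvPolynomial.C (x a) ^ s * ∏ l, (MvPolynomial.C (x (a.succAbove l)) -
      MvPolynomial.X l * MvPolynomial.C (x a)) ^ β l := by
    rw [hE, hP, MvPolynomial.eval₂_mul, MvPolynomial.eval₂_pow, MvPolynomial.eval₂_X,
      MvPolynomial.eval₂_prod]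
    congr 1
    refine Finset.prod_congr rfl fun l _ => ?_
    unfold GSepA_G
    rw [MvPolynomial.eval₂_pow, MvPolynomial.eval₂_sub, MvPolynomial.eval₂_mul,
      MvPolynomial.eval₂_X, MvPolynomial.eval₂_X, MvPolynomial.eval₂_C, MvPolynomial.map_X]
  have hdeg : β.degree = ∑ l, β l := Finsupp.degree_eq_sum β
  have hEdeg : GSepA_deg 𝒜 (d * t) E := by
    have h1 : d * t = d * s + ∑ l, d * β l := by
      rw [← Finset.mul_sum, ← hdeg, ← mul_add]
      congr 1
      omega
    rw [h1, hE1]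
    exact GSepA_deg_mul (GSepA_deg_pow (GSepA_deg_C (h.x_mem a)) s)
      (GSepA_deg_prod Finset.univ (fun l => d * β l) _ fun l =>
        GSepA_deg_pow (GSepA_deg_lin (h.x_mem _) (h.x_mem a) l) (β l))
  set u : MvPolynomial (Fin n) R := MvPolynomial.C b * E with hu
  have hudeg : GSepA_deg 𝒜 m u := by
    rw [hm]
    exact GSepA_deg_mul (GSepA_deg_C hb) hEdeg
  choose c hc using fun κ => hsp _ (hudeg κ)
  refine ⟨fun i => ∑ κ ∈ u.support, algebraMap ℂ L⟦X⟧ (c κ i) * ∏ l, z l ^ κ l, fun α => ?_⟩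
  -- the sum is `phiG`
  have h1 : ∑ i, (∑ κ ∈ u.support, algebraMap ℂ L⟦X⟧ (c κ i) * ∏ l, z l ^ κ l) *
      xj (T.F a α (secBasis 𝒜 m i)) = phiG T a xj z α u := by
    unfold phiG Finset.sum
    change ∑ i, (∑ κ ∈ u.support, algebraMap ℂ L⟦X⟧ (c κ i) * ∏ l, z l ^ κ l) *
      xj (T.F a α (secBasis 𝒜 m i)) =
      ∑ κ ∈ u.support, xj (T.F a α (MvPolynomial.coeff κ u)) * ∏ l, z l ^ κ l
    simp only [Finset.sum_mul]
    rw [Finset.sum_comm]
    refine Finset.sum_congr rfl fun κ _ => ?_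
    rw [hc κ, map_sum, map_sum, Finset.sum_mul]
    refine Finset.sum_congr rfl fun i _ => ?_
    rw [map_smul, map_smul, Algebra.smul_def]
    ring
  have hzP : MvPolynomial.map ((MvPolynomial.aeval z : MvPolynomial (Fin n) ℂ →ₐ[ℂ] L⟦X⟧) :
      MvPolynomial (Fin n) ℂ →+* L⟦X⟧) P =
      MvPolynomial.X a ^ s * ∏ l, GSepA_G a z l ^ β l := by
    rw [hP, map_mul, map_pow, MvPolynomial.map_X, map_prod]
    congr 1
    refine Finset.prod_congr rfl fun l _ => ?_
    unfold GSepA_G
    rw [map_pow, map_sub, map_mul, MvPolynomial.map_X, MvPolynomial.map_X, MvPolynomial.map_C,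
      RingHom.coe_coe, MvPolynomial.aeval_X]
  have h2 : ∀ q : Fin n →₀ ℕ, phiG T a xj z q E = xj T.h ^ q.degree *
      (if q = β then ∏ l, ((β l).factorial : L⟦X⟧) else 0) := by
    intro q
    rw [hE, phiG_poly, hzP]
    congr 1
    exact GSepA_eval a (fun b => xj (x b)) hxj s β q
  have h3 : ∀ p : Fin n →₀ ℕ, phiG T a xj z p (MvPolynomial.C b) = xj (T.F a p b) := by
    intro p
    unfold phiG
    by_cases hb0 : b = 0
    · rw [hb0, MvPolynomial.C_0, MvPolynomial.support_zero, Finset.sum_empty, map_zero, map_zero]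
    · rw [MvPolynomial.support_C, if_neg hb0]
      simp
  rw [h1, hu, phiG_mul]
  simp only [h2, h3]
  by_cases hβα : β ≤ α
  · rw [if_pos hβα, Finset.sum_eq_single (α - β, β)]
    · rw [if_pos rfl, map_mul, map_prod]
      simp only [map_natCast]
      ring
    · intro p hp hne
      rw [if_neg, mul_zero, mul_zero, mul_zero]
      intro h4
      apply hne
      rw [Finset.HasAntidiagonal.mem_antidiagonal] at hp
      ext1
      · rw [← hp, ← h4, add_tsub_cancel_right]
      · exact h4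
    · intro h4
      exact absurd (Finset.HasAntidiagonal.mem_antidiagonal.2 (tsub_add_cancel_of_le hβα)) h4
  · rw [if_neg hβα]
    refine Finset.sum_eq_zero fun p hp => ?_
    rw [if_neg, mul_zero, mul_zero, mul_zero]
    intro h4
    apply hβα
    rw [Finset.HasAntidiagonal.mem_antidiagonal] at hp
    rw [← hp, ← h4]
    exact le_add_self

end Pool.Agent.Lib_KF
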