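import Pool.Agent.Lib_KF.GPhi
import Pool.Agent.Lib_KF.GNorm
import Pool.Agent.Lib_KF.PGrowth

/-!
# G2c: (T'), a non-zero section has bounded order of vanishing along an arc
-/

open PowerSeries

namespace Pool.Agent.Lib_KF

open Pool.Agent.Lib_GD

variable {R : Type} [CommRing R] [Algebra ℂ R] {𝒜 : ℕ → Submodule ℂ R} [GradedAlgebra 𝒜]
  {n r d : ℕ} {x : Fin (n + 1) → R} {G : R}

/-- Under `IsFano` the elements `secBasis 𝒜 m i` are a basis of `𝒜 m` (`finite_gradedP`). -/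
theorem secBasis_indepF (h : IsFano 𝒜 n r d x G) (m : ℕ) :
    (∀ i, secBasis 𝒜 m i ∈ 𝒜 m) ∧ LinearIndependent ℂ (secBasis 𝒜 m) ∧
      ∀ s ∈ 𝒜 m, ∃ c : Fin (secDim 𝒜 m) → ℂ, s = ∑ i, c i • secBasis 𝒜 m i := by
  obtain ⟨h1, h2, h3⟩ := secBasis_specP h.isPol m
  refine ⟨h1, h2, fun s hs => ?_⟩
  rw [← h3] at hs
  obtain ⟨c, hc⟩ := (Submodule.mem_span_range_iff_exists_fun ℂ).1 hs
  exact ⟨c, hc.symm⟩

/-- (T'). PROOF. `exists_norm` gives `D₀` (take `C = D₀`) and for `s = secBasis 𝒜 m` the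
polynomial `P`, homogeneous of degree `k ≤ D₀ m`, and `f'`. Let `v` be the constant coefficients of `f`,
`v ≠ 0`, `P_f` = `P` with `Y := f`; its reduction modulo `X` is `P (v) ≠ 0`, homogeneous of degree
`k`. `g_taylor` at `z b` = constant coefficient of `xj (x b)`, `z a = 1`, gives `γ`, `|γ| ≤ k`, such that
`(∂^γ P_f) (xj (x b))` has a non-zero constant coefficient (`pdL_map`). By `phiG_poly`, `phiG_mul`,
`phiG_lin`: `xj h ^ |γ| * unit = ∑_{p + q = γ} bin * (∑ f i * xj (F a p (s i))) * (...)`. If `X ^ (C m e + 1)`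
divides all the sums with `|p| ≤ C m`, it divides `xj h ^ |γ| * unit`, whose order is `|γ| * ord (xj h) ≤ C m e`
(as `¬ X ^ (e + 1) ∣ xj h`): contradiction. -/
theorem g_T (h : IsFano 𝒜 n r d x G) (T : DerData x) : ∃ C : ℕ, ∀ (m : ℕ)
    (L : Type) [Field L] [Algebra ℂ L] (a : Fin (n + 1)) (xj : R →ₐ[ℂ] L⟦X⟧),
    xj (x a) = 1 → ∀ e : ℕ, ¬ (X : L⟦X⟧) ^ (e + 1) ∣ xj T.h →
    ∀ f : Fin (secDim 𝒜 m) → L⟦X⟧, (∃ i, constantCoeff (f i) ≠ 0) →
      ∃ γ : Fin n →₀ ℕ, γ.degree ≤ C * m ∧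
        ¬ (X : L⟦X⟧) ^ (C * m * e + 1) ∣ ∑ i, f i * xj (T.F a γ (secBasis 𝒜 m i)) := by
  classical
  obtain ⟨D₀, hD⟩ := exists_norm h
  refine ⟨D₀, fun m L _ _ a xj hxa e he f hf => ?_⟩
  have : CharZero L := charZero_of_injective_algebraMap (algebraMap ℂ L).injective
  obtain ⟨hs1, hs2, -⟩ := secBasis_indepF h m
  obtain ⟨P, k, f', hk, hPh, hPf, hPv⟩ := hD m (secDim 𝒜 m) (secBasis 𝒜 m) hs1 hs2
  let v : Fin (secDim 𝒜 m) → L := fun i => constantCoeff (f i)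
  have hv : v ≠ 0 := by
    obtain ⟨i, hi⟩ := hf
    intro h0
    exact hi (congrFun h0 i)
  let φ : L⟦X⟧ →+* L := constantCoeff
  let Pf : MvPolynomial (Fin (n + 1)) L⟦X⟧ :=
    MvPolynomial.map ((MvPolynomial.aeval f : MvPolynomial (Fin (secDim 𝒜 m)) ℂ →ₐ[ℂ] L⟦X⟧) :
      MvPolynomial (Fin (secDim 𝒜 m)) ℂ →+* L⟦X⟧) P
  have hred : MvPolynomial.map φ Pf =
      MvPolynomial.map ((MvPolynomial.aeval v : MvPolynomial (Fin (secDim 𝒜 m)) ℂ →ₐ[ℂ] L) :
        MvPolynomial (Fin (secDim 𝒜 m)) ℂ →+* L) P := by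
    rw [MvPolynomial.map_map]
    refine congrArg (fun g : MvPolynomial (Fin (secDim 𝒜 m)) ℂ →+* L => MvPolynomial.map g P) ?_
    refine MvPolynomial.ringHom_ext ?_ ?_
    · intro c
      rw [RingHom.comp_apply, RingHom.coe_coe, RingHom.coe_coe, MvPolynomial.aeval_C,
        MvPolynomial.aeval_C]
      change constantCoeff (algebraMap ℂ L⟦X⟧ c) = algebraMap ℂ L c
      rw [PowerSeries.algebraMap_apply, constantCoeff_C]
    · intro i
      rw [RingHom.comp_apply, RingHom.coe_coe, RingHom.coe_coe, MvPolynomial.aeval_X,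
        MvPolynomial.aeval_X]
  have hQ0 : MvPolynomial.map φ Pf ≠ 0 := by
    rw [hred]
    exact hPv L v hv
  have hQh : (MvPolynomial.map φ Pf).IsHomogeneous k := (hPh.map _).map _
  obtain ⟨γ, hγ, hne⟩ := g_taylor (MvPolynomial.map φ Pf) hQ0 hQh a
    (fun b => φ (xj (x b))) (by
      change constantCoeff (xj (x a)) = 1
      rw [hxa]
      exact map_one _)
  set W : L⟦X⟧ := MvPolynomial.eval (fun b => xj (x b)) (pdL a γ Pf) with hW
  have hWne : constantCoeff W ≠ 0 := by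
    rw [pdL_map] at hne
    have h1 : MvPolynomial.eval (fun b => φ (xj (x b))) (MvPolynomial.map φ (pdL a γ Pf)) =
        φ W := by
      rw [hW, MvPolynomial.eval_map, MvPolynomial.eval₂_comp]
      rfl
    rw [h1] at hne
    exact hne
  have hWu : IsUnit W := by
    rw [PowerSeries.isUnit_iff_constantCoeff, isUnit_iff_ne_zero]
    exact hWne
  by_contra hcon
  push Not at hcon
  have hpoly := phiG_poly T a xj f γ P
  rw [hPf, phiG_mul] at hpoly
  have hdvd : (X : L⟦X⟧) ^ (D₀ * m * e + 1) ∣ xj T.h ^ γ.degree * W := by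
    rw [hW]
    have h1 : ∀ p ∈ Finset.HasAntidiagonal.antidiagonal γ, (X : L⟦X⟧) ^ (D₀ * m * e + 1) ∣
        algebraMap ℂ L⟦X⟧ (binG p.1 p.2) * (phiG T a xj f p.1
          (∑ i, MvPolynomial.X i * MvPolynomial.C (secBasis 𝒜 m i)) * phiG T a xj f p.2 f') := by
      intro p hp
      rw [Finset.HasAntidiagonal.mem_antidiagonal] at hp
      have h2 : p.1.degree ≤ D₀ * m := by
        have h3 : p.1.degree + p.2.degree = γ.degree := by rw [← hp, map_add]
        omega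
      rw [phiG_lin]
      exact Dvd.dvd.mul_left (Dvd.dvd.mul_right (hcon p.1 h2) _) _
    have h2 := Finset.dvd_sum h1
    rw [hpoly] at h2
    exact h2
  have hdvd2 : (X : L⟦X⟧) ^ (D₀ * m * e + 1) ∣ xj T.h ^ γ.degree :=
    (hWu.dvd_mul_right).1 hdvd
  have h0 : (xj T.h).order ≤ e := by
    by_contra h1
    push Not at h1
    apply he
    rw [X_pow_dvd_iff]
    intro i hi
    refine coeff_of_lt_order i (lt_of_le_of_lt ?_ h1)
    exact_mod_cast Nat.lt_succ_iff.1 hi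
  have h1 : ((D₀ * m * e + 1 : ℕ) : ℕ∞) ≤ (xj T.h ^ γ.degree).order := by
    refine le_order _ _ fun i hi => ?_
    exact (X_pow_dvd_iff.1 hdvd2) i (by exact_mod_cast hi)
  have h2 : (xj T.h ^ γ.degree).order ≤ ((D₀ * m * e : ℕ) : ℕ∞) := by
    rw [order_pow, nsmul_eq_mul]
    calc (γ.degree : ℕ∞) * (xj T.h).order ≤ ((D₀ * m : ℕ) : ℕ∞) * (e : ℕ∞) :=
          mul_le_mul' (by exact_mod_cast hγ.trans hk) h0
      _ = ((D₀ * m * e : ℕ) : ℕ∞) := by push_cast; rfl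
  have h3 := h1.trans h2
  have h4 : D₀ * m * e + 1 ≤ D₀ * m * e := by exact_mod_cast h3
  omega

end Pool.Agent.Lib_KF
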