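import Pool.Agent.Lib_KF.GDefs

/-!
# G2b: a non-zero form of degree `k` has a non-zero derivative of order at most `k` at every point
-/

open PowerSeries

namespace Pool.Agent.Lib_KF

open Pool.Agent.Lib_GD

/-- Iterated partial derivatives in the variables `a.succAbove l` over any ring. -/
noncomputable def pdL {A : Type} [CommRing A] {n : ℕ} (a : Fin (n + 1)) (α : Fin n →₀ ℕ) :
    Module.End A (MvPolynomial (Fin (n + 1)) A) :=
  ((List.finRange n).map fun l =>
    (((MvPolynomial.pderiv (a.succAbove l) :
      Derivation A (MvPolynomial (Fin (n + 1)) A) (MvPolynomial (Fin (n + 1)) A)) :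
      MvPolynomial (Fin (n + 1)) A →ₗ[A] MvPolynomial (Fin (n + 1)) A) :
      Module.End A (MvPolynomial (Fin (n + 1)) A)) ^ (α l)).prod

theorem pdL_eq_pdG {n : ℕ} (a : Fin (n + 1)) (α : Fin n →₀ ℕ)
    (p : MvPolynomial (Fin (n + 1)) ℂ) : pdL a α p = pdG a α p := rfl

/-- one derivative as an endomorphism -/
private noncomputable def GTay_D {A : Type} [CommRing A] {σ : Type} (i : σ) :
    Module.End A (MvPolynomial σ A) :=
  ((MvPolynomial.pderiv i : Derivation A (MvPolynomial σ A) (MvPolynomial σ A)) :
    MvPolynomial σ A →ₗ[A] MvPolynomial σ A)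

private theorem GTay_D_apply {A : Type} [CommRing A] {σ : Type} (i : σ) (p : MvPolynomial σ A) :
    GTay_D i p = MvPolynomial.pderiv i p := rfl

private theorem GTay_pow_map {A B : Type} [CommRing A] [CommRing B] (φ : A →+* B) {σ : Type}
    (i : σ) (k : ℕ) (p : MvPolynomial σ A) :
    (GTay_D i ^ k) (MvPolynomial.map φ p) = MvPolynomial.map φ ((GTay_D i ^ k) p) := by
  induction k with
  | zero => rfl
  | succ k ih =>
    rw [pow_succ', pow_succ', Module.End.mul_apply, Module.End.mul_apply, ih, GTay_D_apply,
      GTay_D_apply, MvPolynomial.pderiv_map]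

private theorem GTay_list_map {A B : Type} [CommRing A] [CommRing B] (φ : A →+* B) {n : ℕ}
    (a : Fin (n + 1)) (α : Fin n →₀ ℕ) (L : List (Fin n)) (p : MvPolynomial (Fin (n + 1)) A) :
    ((L.map fun l => (GTay_D (a.succAbove l) : Module.End B (MvPolynomial (Fin (n + 1)) B)) ^
      (α l)).prod) (MvPolynomial.map φ p) =
    MvPolynomial.map φ (((L.map fun l =>
      (GTay_D (a.succAbove l) : Module.End A (MvPolynomial (Fin (n + 1)) A)) ^ (α l)).prod) p) := by
  induction L with
  | nil => rfl
  | cons l L ih =>
    rw [List.map_cons, List.map_cons, List.prod_cons, List.prod_cons, Module.End.mul_apply,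
      Module.End.mul_apply, ih, GTay_pow_map]

/-- Derivatives commute with a change of the coefficient ring. -/
theorem pdL_map {A B : Type} [CommRing A] [CommRing B] (φ : A →+* B) {n : ℕ} (a : Fin (n + 1))
    (α : Fin n →₀ ℕ) (p : MvPolynomial (Fin (n + 1)) A) :
    pdL a α (MvPolynomial.map φ p) = MvPolynomial.map φ (pdL a α p) :=
  GTay_list_map φ a α (List.finRange n) p

private theorem GTay_pow_monomial {A : Type} [CommRing A] {σ : Type} (i : σ) (k : ℕ)
    (κ : σ →₀ ℕ) (c : A) : (GTay_D i ^ k) (MvPolynomial.monomial κ c) =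
      MvPolynomial.monomial (κ - Finsupp.single i k) (c * ((κ i).descFactorial k : ℕ)) := by
  classical
  induction k with
  | zero => simp
  | succ k ih =>
    rw [pow_succ', Module.End.mul_apply, ih, GTay_D_apply, MvPolynomial.pderiv_monomial, tsub_tsub,
      ← Finsupp.single_add, mul_assoc]
    congr 2
    rw [Finsupp.tsub_apply, Finsupp.single_eq_same, Nat.descFactorial_succ, Nat.cast_mul, mul_comm]

private theorem GTay_list_monomial {A : Type} [CommRing A] {n : ℕ} (a : Fin (n + 1))
    (α : Fin n →₀ ℕ) (κ : Fin (n + 1) →₀ ℕ) (c : A) (L : List (Fin n)) (hL : L.Nodup) :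
    ((L.map fun l => (GTay_D (a.succAbove l) : Module.End A (MvPolynomial (Fin (n + 1)) A)) ^
      (α l)).prod) (MvPolynomial.monomial κ c) =
    MvPolynomial.monomial (κ - (L.map fun l => Finsupp.single (a.succAbove l) (α l)).sum)
      (c * (L.map fun l => (((κ (a.succAbove l)).descFactorial (α l) : ℕ) : A)).prod) := by
  classical
  induction L with
  | nil => simp
  | cons l L ih =>
    rw [List.nodup_cons] at hL
    rw [List.map_cons, List.prod_cons, Module.End.mul_apply, ih hL.2, GTay_pow_monomial, tsub_tsub,
      List.map_cons, List.sum_cons, List.map_cons, List.prod_cons, mul_assoc,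
      add_comm (Finsupp.single (a.succAbove l) (α l))]
    congr 2
    rw [mul_comm]
    congr 3
    have h1 : ∀ L' : List (Fin n), l ∉ L' →
        (L'.map fun l => Finsupp.single (a.succAbove l) (α l)).sum (a.succAbove l) = 0 := by
      intro L' hL'
      induction L' with
      | nil => rfl
      | cons m L' ih' =>
        rw [List.mem_cons, not_or] at hL'
        rw [List.map_cons, List.sum_cons, Finsupp.add_apply, ih' hL'.2, add_zero,
          Finsupp.single_apply, if_neg]
        intro h
        exact hL'.1 (Fin.succAbove_right_injective h).symm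
    rw [Finsupp.tsub_apply, h1 L hL.1, tsub_zero]

/-- The value of the derivatives of a monomial: `∂^α x^κ = ∏ descFactorial (κ, α) x^(κ - α)`. -/
theorem pdL_monomial {A : Type} [CommRing A] {n : ℕ} (a : Fin (n + 1)) (α : Fin n →₀ ℕ)
    (κ : Fin (n + 1) →₀ ℕ) (c : A) (z : Fin (n + 1) → A) :
    MvPolynomial.eval z (pdL a α (MvPolynomial.monomial κ c)) =
      c * z a ^ κ a * ∏ l : Fin n, (((κ (a.succAbove l)).descFactorial (α l) : ℕ) : A) *
        z (a.succAbove l) ^ (κ (a.succAbove l) - α l) := by
  classical
  have h0 : pdL a α (MvPolynomial.monomial κ c) = _ :=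
    GTay_list_monomial a α κ c (List.finRange n) (List.nodup_finRange n)
  have h1 : ((List.finRange n).map fun l => Finsupp.single (a.succAbove l) (α l)).sum =
      ∑ l : Fin n, Finsupp.single (a.succAbove l) (α l) := by
    rw [← List.ofFn_eq_map, List.sum_ofFn]
  have h2 : ((List.finRange n).map fun l =>
      (((κ (a.succAbove l)).descFactorial (α l) : ℕ) : A)).prod =
      ∏ l : Fin n, (((κ (a.succAbove l)).descFactorial (α l) : ℕ) : A) := by
    rw [← List.ofFn_eq_map, List.prod_ofFn]
  have h3 : (∑ l : Fin n, Finsupp.single (a.succAbove l) (α l)) a = 0 := by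
    rw [Finsupp.finsetSum_apply]
    refine Finset.sum_eq_zero fun l _ => ?_
    rw [Finsupp.single_apply, if_neg (Fin.succAbove_ne a l)]
  have h4 : ∀ m : Fin n, (∑ l : Fin n, Finsupp.single (a.succAbove l) (α l)) (a.succAbove m) =
      α m := by
    intro m
    rw [Finsupp.finsetSum_apply, Finset.sum_eq_single m]
    · rw [Finsupp.single_eq_same]
    · intro l _ hl
      rw [Finsupp.single_apply, if_neg]
      intro h
      exact hl (Fin.succAbove_right_injective h)
    · intro h
      exact absurd (Finset.mem_univ m) h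
  rw [h0, h1, h2, MvPolynomial.eval_monomial, Finsupp.prod_fintype _ _ (fun i => pow_zero _),
    Fin.prod_univ_succAbove _ a, Finsupp.tsub_apply, h3, tsub_zero, Finset.prod_mul_distrib]
  have h5 : ∀ m : Fin n, z (a.succAbove m) ^
      ((κ - ∑ l : Fin n, Finsupp.single (a.succAbove l) (α l)) (a.succAbove m)) =
      z (a.succAbove m) ^ (κ (a.succAbove m) - α m) := by
    intro m
    rw [Finsupp.tsub_apply, h4]
  rw [Finset.prod_congr rfl fun m _ => h5 m]
  ring

/-- G2b. Proof: put `x_a = 1` (`z a = 1`): the form `Q` becomes a non-zero polynomial of degree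
`≤ k` in `n` variables (different monomials of the same degree stay different); some derivative
of order `≤ k` of it is not zero at a given point (characteristic zero; e.g. take a monomial of
maximal degree of the translated polynomial, whose coefficient is the derivative divided by
`γ!`). -/
theorem g_taylor {L : Type} [Field L] [CharZero L] {n k : ℕ}
    (Q : MvPolynomial (Fin (n + 1)) L) (hQ : Q ≠ 0) (hk : Q.IsHomogeneous k)
    (a : Fin (n + 1)) (z : Fin (n + 1) → L) (hz : z a = 1) :
    ∃ γ : Fin n →₀ ℕ, γ.degree ≤ k ∧ MvPolynomial.eval z (pdL a γ Q) ≠ 0 := by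
  classical
  obtain ⟨κ, hκ, hmin⟩ := Finset.exists_min_image Q.support (fun κ => κ a)
    (MvPolynomial.support_nonempty.2 hQ)
  have hdeg : ∀ κ' ∈ Q.support, κ' a + ∑ l : Fin n, κ' (a.succAbove l) = k := by
    intro κ' hκ'
    have h1 : κ'.degree = k := by
      by_contra hcon
      exact (MvPolynomial.mem_support_iff.1 hκ') (hk.coeff_eq_zero hcon)
    rw [Finsupp.degree_eq_sum, Fin.sum_univ_succAbove _ a] at h1
    exact h1
  set γ : Fin n →₀ ℕ := Finsupp.equivFunOnFinite.symm fun l => κ (a.succAbove l) with hγ
  have hγl : ∀ l, γ l = κ (a.succAbove l) := fun l => by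
    rw [hγ, Finsupp.equivFunOnFinite_symm_apply_apply]
  refine ⟨γ, ?_, ?_⟩
  · rw [Finsupp.degree_eq_sum, Finset.sum_congr rfl fun l _ => hγl l]
    have := hdeg κ hκ
    omega
  · have h1 : MvPolynomial.eval z (pdL a γ Q) = ∑ κ' ∈ Q.support,
        MvPolynomial.eval z (pdL a γ (MvPolynomial.monomial κ' (MvPolynomial.coeff κ' Q))) := by
      conv_lhs => rw [MvPolynomial.as_sum Q]
      rw [map_sum, map_sum]
    rw [h1, Finset.sum_eq_single κ]
    · rw [pdL_monomial, hz, one_pow, mul_one]
      refine mul_ne_zero (MvPolynomial.mem_support_iff.1 hκ) (Finset.prod_ne_zero_iff.2 ?_)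
      intro l _
      rw [hγl, Nat.descFactorial_self, tsub_self, pow_zero, mul_one, Nat.cast_ne_zero]
      exact Nat.factorial_ne_zero _
    · intro κ' hκ' hne
      have h2 : ∃ l : Fin n, κ' (a.succAbove l) < κ (a.succAbove l) := by
        by_contra hcon
        push Not at hcon
        have h3 := hdeg κ hκ
        have h4 := hdeg κ' hκ'
        have h5 := hmin κ' hκ'
        have h6 : ∑ l : Fin n, κ (a.succAbove l) ≤ ∑ l : Fin n, κ' (a.succAbove l) :=
          Finset.sum_le_sum fun l _ => hcon l
        have h7 : ∑ l : Fin n, κ (a.succAbove l) = ∑ l : Fin n, κ' (a.succAbove l) := by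
          omega
        have h8 : κ' a = κ a := by
          omega
        have h9 := (Finset.sum_eq_sum_iff_of_le fun l _ => hcon l).1 h7
        apply hne
        ext i
        rcases eq_or_ne i a with rfl | hi
        · exact h8
        · obtain ⟨l, rfl⟩ := Fin.exists_succAbove_eq hi
          exact (h9 l (Finset.mem_univ l)).symm
      obtain ⟨l, hl⟩ := h2
      rw [pdL_monomial]
      refine mul_eq_zero_of_right _ (Finset.prod_eq_zero (Finset.mem_univ l) ?_)
      rw [hγl, Nat.descFactorial_of_lt hl, Nat.cast_zero, zero_mul]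
    · intro h
      exact absurd hκ h

end Pool.Agent.Lib_KF
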