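import Pool.Agent.Lib_KF.HIbp

/-! H03: the Bochner-Kodaira inequality for compactly supported forms. -/

open MeasureTheory Complex
open scoped ENNReal ContDiff ComplexConjugate

namespace Pool.Agent.Lib_KF

open GPn

section hbo_calc

variable {E : Type} [NormedAddCommGroup E] [NormedSpace ℂ E] {W : Set E}

private lemma hbo_fd {F : E → ℂ} (hW : IsOpen W) (hF : ContDiffOn ℝ ∞ F W) (v : E) :
    ContDiffOn ℝ ∞ (fun x => fderiv ℝ F x v) W := by
  have h : ContDiffOn ℝ ∞ (fderiv ℝ F) W := hF.fderiv_of_isOpen hW (by simp)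
  exact h.clm_apply contDiffOn_const

private lemma hbo_dz {F : E → ℂ} (hW : IsOpen W) (hF : ContDiffOn ℝ ∞ F W) (v : E) :
    ContDiffOn ℝ ∞ (dz v F) W := by
  have h1 := hbo_fd hW hF v
  have h2 := hbo_fd hW hF (I • v)
  have : dz v F = fun x => (fderiv ℝ F x v - I * fderiv ℝ F x (I • v)) / 2 := rfl
  rw [this]
  exact (h1.sub (contDiffOn_const.mul h2)).div_const 2

private lemma hbo_dzb {F : E → ℂ} (hW : IsOpen W) (hF : ContDiffOn ℝ ∞ F W) (v : E) :
    ContDiffOn ℝ ∞ (dzb v F) W := by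
  have h1 := hbo_fd hW hF v
  have h2 := hbo_fd hW hF (I • v)
  have : dzb v F = fun x => (fderiv ℝ F x v + I * fderiv ℝ F x (I • v)) / 2 := rfl
  rw [this]
  exact (h1.add (contDiffOn_const.mul h2)).div_const 2

private lemma hbo_da {F : E → ℂ} (hW : IsOpen W) (hF : ContDiffOn ℝ ∞ F W) {x : E} (hx : x ∈ W) :
    DifferentiableAt ℝ F x :=
  (hF.contDiffAt (hW.mem_nhds hx)).differentiableAt (by simp)

private lemma hbo_dzb_mul {F G : E → ℂ} {x : E} (hF : DifferentiableAt ℝ F x)
    (hG : DifferentiableAt ℝ G x) (v : E) :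
    dzb v (fun y => F y * G y) x = dzb v F x * G x + F x * dzb v G x := by
  have h := fderiv_fun_mul hF hG
  simp only [dzb, h, add_apply, smul_apply, smul_eq_mul]
  ring

private lemma hbo_dzb_add {F G : E → ℂ} {x : E} (hF : DifferentiableAt ℝ F x)
    (hG : DifferentiableAt ℝ G x) (v : E) :
    dzb v (fun y => F y + G y) x = dzb v F x + dzb v G x := by
  have h := fderiv_fun_add hF hG
  simp only [dzb, h, add_apply]
  ring

private lemma hbo_dzb_sum {κ : Type*} (s : Finset κ) {F : κ → E → ℂ} {x : E}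
    (hF : ∀ i, DifferentiableAt ℝ (F i) x) (v : E) :
    dzb v (fun y => ∑ i ∈ s, F i y) x = ∑ i ∈ s, dzb v (F i) x := by
  classical
  induction s using Finset.induction_on with
  | empty => simp [dzb]
  | insert i s hi ih =>
    simp only [Finset.sum_insert hi]
    rw [hbo_dzb_add (hF i) (DifferentiableAt.fun_sum fun i _ => hF i), ih]

private lemma hbo_d1 {F : E → ℂ} (hW : IsOpen W) (hF : ContDiffOn ℝ ∞ F W) {x : E} (hx : x ∈ W) :
    DifferentiableAt ℝ (fderiv ℝ F) x := by
  have h : ContDiffOn ℝ ∞ (fderiv ℝ F) W := hF.fderiv_of_isOpen hW (by simp)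
  exact (h.contDiffAt (hW.mem_nhds hx)).differentiableAt (by simp)

private lemma hbo_d2 {F : E → ℂ} (hW : IsOpen W) (hF : ContDiffOn ℝ ∞ F W) {x : E} (hx : x ∈ W)
    (v w : E) :
    fderiv ℝ (fun y => fderiv ℝ F y v) x w = fderiv ℝ (fderiv ℝ F) x w v := by
  have h2 := (hbo_d1 hW hF hx).hasFDerivAt.clm_apply (hasFDerivAt_const v x)
  rw [h2.fderiv]
  simp

private lemma hbo_symm {F : E → ℂ} (hW : IsOpen W) (hF : ContDiffOn ℝ ∞ F W) {x : E} (hx : x ∈ W)
    (v w : E) :
    fderiv ℝ (fderiv ℝ F) x v w = fderiv ℝ (fderiv ℝ F) x w v := by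
  have h : IsSymmSndFDerivAt ℝ F x :=
    (hF.contDiffAt (hW.mem_nhds hx)).isSymmSndFDerivAt (by
      rw [minSmoothness_of_isRCLikeNormedField]
      exact WithTop.coe_le_coe.2 le_top)
  exact h v w

private lemma hbo_fdz {F : E → ℂ} (hW : IsOpen W) (hF : ContDiffOn ℝ ∞ F W) {x : E} (hx : x ∈ W)
    (v w : E) :
    fderiv ℝ (dz v F) x w =
      (fderiv ℝ (fderiv ℝ F) x w v - I * fderiv ℝ (fderiv ℝ F) x w (I • v)) / 2 := by
  have h1 := hbo_fd hW hF v
  have h2 := hbo_fd hW hF (I • v)
  have e : dz v F = fun x => (fderiv ℝ F x v - I * fderiv ℝ F x (I • v)) / 2 := rfl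
  rw [e]
  have h3 := ((hbo_da hW h1 hx).hasFDerivAt.sub
    ((hbo_da hW h2 hx).hasFDerivAt.const_mul I)).mul_const ((2 : ℂ)⁻¹)
  simp only [div_eq_mul_inv]
  have h4 : HasFDerivAt (fun x => (fderiv ℝ F x v - I * fderiv ℝ F x (I • v)) * (2 : ℂ)⁻¹)
    _ x := h3
  rw [h4.fderiv]
  simp [hbo_d2 hW hF hx]
  ring

private lemma hbo_fdzb {F : E → ℂ} (hW : IsOpen W) (hF : ContDiffOn ℝ ∞ F W) {x : E} (hx : x ∈ W)
    (v w : E) :
    fderiv ℝ (dzb v F) x w =
      (fderiv ℝ (fderiv ℝ F) x w v + I * fderiv ℝ (fderiv ℝ F) x w (I • v)) / 2 := by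
  have h1 := hbo_fd hW hF v
  have h2 := hbo_fd hW hF (I • v)
  have e : dzb v F = fun x => (fderiv ℝ F x v + I * fderiv ℝ F x (I • v)) / 2 := rfl
  rw [e]
  have h3 := ((hbo_da hW h1 hx).hasFDerivAt.add
    ((hbo_da hW h2 hx).hasFDerivAt.const_mul I)).mul_const ((2 : ℂ)⁻¹)
  simp only [div_eq_mul_inv]
  have h4 : HasFDerivAt (fun x => (fderiv ℝ F x v + I * fderiv ℝ F x (I • v)) * (2 : ℂ)⁻¹)
    _ x := h3
  rw [h4.fderiv]
  simp [hbo_d2 hW hF hx]
  ring

/-- mixed second derivatives commute -/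
private lemma hbo_comm {F : E → ℂ} (hW : IsOpen W) (hF : ContDiffOn ℝ ∞ F W) {x : E} (hx : x ∈ W)
    (a c : E) : dzb c (dz a F) x = dz a (dzb c F) x := by
  simp only [dzb, dz]
  have h1 := hbo_fdz hW hF hx a c
  have h2 := hbo_fdz hW hF hx a (I • c)
  have h3 := hbo_fdzb hW hF hx c a
  have h4 := hbo_fdzb hW hF hx c (I • a)
  simp only [h1, h2, h3, h4]
  rw [hbo_symm hW hF hx a c, hbo_symm hW hF hx a (I • c), hbo_symm hW hF hx (I • a) c,
    hbo_symm hW hF hx (I • a) (I • c)]
  ring_nf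

end hbo_calc

section hbo_ip

variable {D : ℕ}

private lemma hbo_ip_add_left (H : Fin D → Fin D → ℂ) (u u' v : Fin D → ℂ) :
    ip H (fun a => u a + u' a) v = ip H u v + ip H u' v := by
  simp only [ip, mul_add, Finset.sum_add_distrib]

private lemma hbo_ip_neg_left (H : Fin D → Fin D → ℂ) (u v : Fin D → ℂ) :
    ip H (fun a => - u a) v = - ip H u v := by
  simp only [ip, mul_neg, Finset.sum_neg_distrib]

private lemma hbo_ip_sum_left {κ : Type*} (s : Finset κ) (H : Fin D → Fin D → ℂ)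
    (u : κ → Fin D → ℂ) (v : Fin D → ℂ) :
    ip H (fun a => ∑ i ∈ s, u i a) v = ∑ i ∈ s, ip H (u i) v := by
  simp only [ip, Finset.mul_sum]
  have : ∀ a : Fin D, ∑ c, ∑ i ∈ s, conj (v a) * H a c * u i c =
      ∑ i ∈ s, ∑ c, conj (v a) * H a c * u i c := fun a => Finset.sum_comm
  simp only [this]
  exact Finset.sum_comm

private lemma hbo_ip_sum_right {κ : Type*} (s : Finset κ) (H : Fin D → Fin D → ℂ)
    (u : Fin D → ℂ) (v : κ → Fin D → ℂ) :
    ip H u (fun a => ∑ i ∈ s, v i a) = ∑ i ∈ s, ip H u (v i) := by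
  simp only [ip, map_sum, Finset.sum_mul]
  have : ∀ a : Fin D, ∑ c, ∑ i ∈ s, conj (v i a) * H a c * u c =
      ∑ i ∈ s, ∑ c, conj (v i a) * H a c * u c := fun a => Finset.sum_comm
  simp only [this]
  exact Finset.sum_comm

private lemma hbo_ip_conj {H : Fin D → Fin D → ℂ} (hH : ∀ a c, H a c = conj (H c a))
    (u v : Fin D → ℂ) : conj (ip H u v) = ip H v u := by
  simp only [ip, map_sum, map_mul, conj_conj]
  rw [Finset.sum_comm]
  refine Finset.sum_congr rfl fun c _ => Finset.sum_congr rfl fun a _ => ?_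
  rw [hH c a]
  ring

private lemma hbo_ip_zero_left (H : Fin D → Fin D → ℂ) (v : Fin D → ℂ) :
    ip H (fun _ => 0) v = 0 := by
  simp [ip]

private lemma hbo_ip_zero_right (H : Fin D → Fin D → ℂ) (v : Fin D → ℂ) :
    ip H v (fun _ => 0) = 0 := by
  simp [ip]

/-- polarisation -/
private lemma hbo_pol {H : Fin D → Fin D → ℂ} (hH : ∀ a c, H a c = conj (H c a))
    (u v : Fin D → ℂ) :
    (ip H (fun a => u a - v a) (fun a => u a - v a)).re =
      (ip H u u).re + (ip H v v).re - 2 * (ip H v u).re := by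
  have e : ip H (fun a => u a - v a) (fun a => u a - v a) =
      ip H u u + ip H v v - ip H v u - ip H u v := by
    simp only [ip, map_sub]
    rw [← Finset.sum_add_distrib, ← Finset.sum_sub_distrib, ← Finset.sum_sub_distrib]
    refine Finset.sum_congr rfl fun a _ => ?_
    rw [← Finset.sum_add_distrib, ← Finset.sum_sub_distrib, ← Finset.sum_sub_distrib]
    refine Finset.sum_congr rfl fun c _ => ?_
    ring
  have h1 : (ip H u v).re = (ip H v u).re := by
    rw [← hbo_ip_conj hH v u, conj_re]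
  rw [e]
  simp only [sub_re, add_re, h1]
  ring

private lemma hbo_alg {ι : Type} [Fintype ι] {H : Fin D → Fin D → ℂ}
    (hH : ∀ a c, H a c = conj (H c a)) (hp : ∀ u, 0 ≤ (ip H u u).re)
    (B : ι → ι → Fin D → ℂ) :
    -((1 / 2) * ∑ j, ∑ k, (ip H (fun a => B j k a - B k j a) (fun a => B j k a - B k j a)).re) ≤
      (∑ k, ∑ j, ip H (B k j) (B j k)).re := by
  have h2 : (∑ k, ∑ j, ip H (B k j) (B j k)).re = ∑ j, ∑ k, (ip H (B k j) (B j k)).re := by
    rw [Finset.sum_comm, re_sum]
    refine Finset.sum_congr rfl fun j _ => ?_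
    rw [re_sum]
  have h3 : ∑ j, ∑ k, (ip H (fun a => B j k a - B k j a) (fun a => B j k a - B k j a)).re =
      ∑ j, ∑ k, (ip H (B j k) (B j k)).re + ∑ j, ∑ k, (ip H (B k j) (B k j)).re
        - 2 * ∑ j, ∑ k, (ip H (B k j) (B j k)).re := by
    simp only [hbo_pol hH, Finset.sum_sub_distrib, Finset.sum_add_distrib, Finset.mul_sum]
  have h4 : 0 ≤ ∑ j, ∑ k, (ip H (B j k) (B j k)).re :=
    Finset.sum_nonneg fun j _ => Finset.sum_nonneg fun k _ => hp _
  have h5 : 0 ≤ ∑ j, ∑ k, (ip H (B k j) (B k j)).re :=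
    Finset.sum_nonneg fun j _ => Finset.sum_nonneg fun k _ => hp _
  rw [h2, h3]
  linarith

end hbo_ip

variable {E : Type} [NormedAddCommGroup E] [NormedSpace ℂ E] [FiniteDimensional ℂ E]
  [MeasurableSpace E] [BorelSpace E] {W : Set E} {ι : Type} [Fintype ι]
  {b : Module.Basis ι ℂ E} {D : ℕ}

/-- The commutator of the Chern connection and `∂bar`. -/
theorem HMet.commutator (M : HMet W b D) (hW : IsOpen W) (j k : ι) (u : Fin D → E → ℂ)
    (hu : ∀ a, ContDiffOn ℝ ∞ (u a) W) (x : E) (hx : x ∈ W) (a : Fin D) :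
    M.ch j (fun c => dzb (b k) (u c)) x a - dzb (b k) (fun y => M.ch j u y a) x =
      - ∑ c, dzb (b k) (fun y => M.A j y a c) x * u c x := by
  have e : (fun y => M.ch j u y a) =
      fun y => dz (b j) (u a) y + ∑ c, M.A j y a c * u c y := rfl
  have hA : ∀ c, DifferentiableAt ℝ (fun y => M.A j y a c) x := fun c =>
    hbo_da hW (M.smA j a c) hx
  have hu' : ∀ c, DifferentiableAt ℝ (u c) x := fun c => hbo_da hW (hu c) hx
  have hS : DifferentiableAt ℝ (fun y => ∑ c, M.A j y a c * u c y) x :=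
    DifferentiableAt.fun_sum fun c _ => (hA c).mul (hu' c)
  rw [e, hbo_dzb_add (hbo_da hW (hbo_dz hW (hu a) (b j)) hx) hS,
    hbo_dzb_sum (F := fun c y => M.A j y a c * u c y) _ (fun c => (hA c).mul (hu' c)),
    hbo_comm hW (hu a) hx]
  have e2 : ∀ c, dzb (b k) (fun y => M.A j y a c * u c y) x =
      dzb (b k) (fun y => M.A j y a c) x * u c x + M.A j x a c * dzb (b k) (u c) x := fun c =>
    hbo_dzb_mul (hA c) (hu' c) _
  simp only [e2, Finset.sum_add_distrib, HMet.ch]
  ring

omit [FiniteDimensional ℂ E] [MeasurableSpace E] [BorelSpace E] in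
private lemma hbo_ch_smooth (M : HMet W b D) (hW : IsOpen W) (k : ι) {u : Fin D → E → ℂ}
    (hu : ∀ a, ContDiffOn ℝ ∞ (u a) W) (a : Fin D) :
    ContDiffOn ℝ ∞ (fun x => M.ch k u x a) W := by
  have e : (fun x => M.ch k u x a) =
      fun y => dz (b k) (u a) y + ∑ c, M.A k y a c * u c y := rfl
  rw [e]
  exact (hbo_dz hW (hu a) (b k)).add (ContDiffOn.sum fun c _ => (M.smA k a c).mul (hu c))

omit [FiniteDimensional ℂ E] [MeasurableSpace E] [BorelSpace E] in
private lemma hbo_ip_smooth (M : HMet W b D) {p q : Fin D → E → ℂ}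
    (hp : ∀ a, ContDiffOn ℝ ∞ (p a) W) (hq : ∀ a, ContDiffOn ℝ ∞ (q a) W) :
    ContinuousOn (fun x => ip (M.H x) (fun a => p a x) (fun a => q a x)) W := by
  simp only [ip]
  refine continuousOn_finsetSum _ fun a _ => continuousOn_finsetSum _ fun c _ => ?_
  refine ((?_ : ContinuousOn (fun x => conj (q a x)) W).mul (M.smH a c).continuousOn).mul
    (hp c).continuousOn
  exact Complex.continuous_conj.comp_continuousOn (hq a).continuousOn

private lemma hbo_int (μ : Measure E) [μ.IsAddHaarMeasure] (hW : IsOpen W) {K : Set E}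
    (hK : IsCompact K) (hKW : K ⊆ W) {F : E → ℂ} (hF : ContinuousOn F W)
    (h0 : ∀ x, x ∉ K → F x = 0) : Integrable F μ := by
  have : FiniteDimensional ℝ E := FiniteDimensional.complexToReal E
  have : ProperSpace E := FiniteDimensional.proper ℝ E
  have hc : Continuous F := by
    rw [continuous_iff_continuousAt]
    intro x
    by_cases hx : x ∈ K
    · exact hF.continuousAt (hW.mem_nhds (hKW hx))
    · have h1 : F =ᶠ[nhds x] fun _ => 0 := by
        filter_upwards [hK.isClosed.isOpen_compl.mem_nhds hx] with y hy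
        exact h0 y hy
      exact (continuousAt_const).congr h1.symm
  exact hc.integrable_of_hasCompactSupport (HasCompactSupport.intro hK h0)

theorem HMet.bochner (M : HMet W b D) (hW : IsOpen W) (μ : Measure E) [μ.IsAddHaarMeasure]
    (f : ι → Fin D → E → ℂ) (hf : ∀ k a, SCW W (f k a)) :
    ∫ x, M.curv x (fun k a => f k a x) ∂μ ≤
      ∫ x, M.nsq x (fun a => ∑ k, M.ch k (f k) x a) ∂μ +
      (1 / 2) * ∫ x, ∑ j, ∑ k, M.nsq x (fun a => dzb (b j) (f k a) x - dzb (b k) (f j a) x) ∂μ := by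
  classical
  set K : Set E := ⋃ k, ⋃ a, tsupport (f k a) with hKdef
  have hK : IsCompact K := isCompact_iUnion fun k => isCompact_iUnion fun a => (hf k a).2.1
  have hKW : K ⊆ W := Set.iUnion_subset fun k => Set.iUnion_subset fun a => (hf k a).2.2
  have hns : ∀ x, x ∉ K → ∀ k a, x ∉ tsupport (f k a) := fun x hx k a h =>
    hx (Set.mem_iUnion.2 ⟨k, Set.mem_iUnion.2 ⟨a, h⟩⟩)
  have hf0 : ∀ x, x ∉ K → ∀ k a, f k a x = 0 := fun x hx k a =>
    image_eq_zero_of_notMem_tsupport (hns x hx k a)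
  have hfd0 : ∀ x, x ∉ K → ∀ k a, fderiv ℝ (f k a) x = 0 := fun x hx k a =>
    fderiv_of_notMem_tsupport ℝ (hns x hx k a)
  have hdzb0 : ∀ x, x ∉ K → ∀ j k a, dzb (b j) (f k a) x = 0 := fun x hx j k a => by
    simp [dzb, hfd0 x hx k a]
  have hch0 : ∀ x, x ∉ K → ∀ k a, M.ch k (f k) x a = 0 := fun x hx k a => by
    simp [HMet.ch, dz, hfd0 x hx k a, hf0 x hx k]
  have hfW : ∀ k a, ContDiffOn ℝ ∞ (f k a) W := fun k a => (hf k a).1.contDiffOn
  have hBW : ∀ j k a, ContDiffOn ℝ ∞ (dzb (b j) (f k a)) W := fun j k a => hbo_dzb hW (hfW k a) _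
  have hcW : ∀ k a, ContDiffOn ℝ ∞ (fun x => M.ch k (f k) x a) W := fun k a =>
    hbo_ch_smooth M hW k (hfW k) a
  set g : Fin D → E → ℂ := fun a x => ∑ k, M.ch k (f k) x a with hg
  have hgW : ∀ a, ContDiffOn ℝ ∞ (g a) W := fun a => ContDiffOn.sum fun k _ => hcW k a
  have hint : ∀ F : E → ℂ, ContinuousOn F W → (∀ x, x ∉ K → F x = 0) → Integrable F μ :=
    fun F hF h0 => hbo_int μ hW hK hKW hF h0
  -- integrable pieces
  have I1 : ∀ k, Integrable (fun x => ip (M.H x) (fun a => g a x) (M.ch k (f k) x)) μ := fun k =>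
    hint _ (hbo_ip_smooth M hgW (q := fun a x => M.ch k (f k) x a) (hcW k)) fun x hx => by
      have : M.ch k (f k) x = fun _ => 0 := funext fun a => hch0 x hx k a
      rw [this, hbo_ip_zero_right]
  have I2 : ∀ k j, Integrable (fun x => ip (M.H x)
      (M.ch j (fun c => dzb (b k) (f j c)) x) (fun a => f k a x)) μ := fun k j =>
    hint _ (hbo_ip_smooth M (p := fun a x => M.ch j (fun c => dzb (b k) (f j c)) x a)
      (hbo_ch_smooth M hW j (fun c => hBW k j c)) (hfW k)) fun x hx => by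
      have : (fun a => f k a x) = fun _ => 0 := funext fun a => hf0 x hx k a
      rw [this, hbo_ip_zero_right]
  have hTh : ∀ k j a, ContDiffOn ℝ ∞
      (fun x => - ∑ c, dzb (b k) (fun y => M.A j y a c) x * f j c x) W := fun k j a =>
    (ContDiffOn.sum fun c _ => (hbo_dzb hW (M.smA j a c) (b k)).mul (hfW j c)).neg
  have I3 : ∀ k j, Integrable (fun x => ip (M.H x)
      (fun a => - ∑ c, dzb (b k) (fun y => M.A j y a c) x * f j c x) (fun a => f k a x)) μ :=
    fun k j =>
    hint _ (hbo_ip_smooth M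
      (p := fun a x => - ∑ c, dzb (b k) (fun y => M.A j y a c) x * f j c x)
      (hTh k j) (hfW k)) fun x hx => by
      have : (fun a => f k a x) = fun _ => 0 := funext fun a => hf0 x hx k a
      rw [this, hbo_ip_zero_right]
  have I4 : ∀ k j, Integrable (fun x => ip (M.H x) (fun a => dzb (b k) (f j a) x)
      (fun a => dzb (b j) (f k a) x)) μ := fun k j =>
    hint _ (hbo_ip_smooth M (p := fun a x => dzb (b k) (f j a) x)
      (q := fun a x => dzb (b j) (f k a) x) (hBW k j) (hBW j k)) fun x hx => by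
      have : (fun a => dzb (b j) (f k a) x) = fun _ => 0 := funext fun a => hdzb0 x hx j k a
      rw [this, hbo_ip_zero_right]
  have hgi : Integrable (fun x => ip (M.H x) (fun a => g a x) (fun a => g a x)) μ :=
    hint _ (hbo_ip_smooth M hgW hgW) fun x hx => by
      have : (fun a => g a x) = fun _ => 0 := funext fun a => by simp [hg, hch0 x hx]
      rw [this, hbo_ip_zero_right]
  -- step 1
  have step1 : ∫ x, ip (M.H x) (fun a => g a x) (fun a => g a x) ∂μ =
      ∑ k, ∫ x, ip (M.H x) (fun a => g a x) (M.ch k (f k) x) ∂μ := by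
    rw [← integral_finsetSum _ fun k _ => I1 k]
    congr 1; ext x
    exact hbo_ip_sum_right _ _ _ (fun k => M.ch k (f k) x)
  -- step 2
  have step2 : ∀ k, ∫ x, ip (M.H x) (fun a => g a x) (M.ch k (f k) x) ∂μ =
      ∑ j, (∫ x, ip (M.H x) (fun a => dzb (b k) (f j a) x) (fun a => dzb (b j) (f k a) x) ∂μ
        + ∫ x, ip (M.H x) (fun a => - ∑ c, dzb (b k) (fun y => M.A j y a c) x * f j c x)
          (fun a => f k a x) ∂μ) := by
    intro k
    rw [M.ibp hW μ k g (f k) hgW (hf k)]
    have e : ∀ x, ip (M.H x) (fun a => dzb (b k) (g a) x) (fun a => f k a x) =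
        ∑ j, (ip (M.H x) (M.ch j (fun c => dzb (b k) (f j c)) x) (fun a => f k a x)
          - ip (M.H x) (fun a => - ∑ c, dzb (b k) (fun y => M.A j y a c) x * f j c x)
          (fun a => f k a x)) := by
      intro x
      by_cases hx : x ∈ K
      · have hxW := hKW hx
        have e1 : ∀ a, dzb (b k) (g a) x = ∑ j, (M.ch j (fun c => dzb (b k) (f j c)) x a +
            - (- ∑ c, dzb (b k) (fun y => M.A j y a c) x * f j c x)) := by
          intro a
          have e2 : g a = fun y => ∑ j, M.ch j (f j) y a := rfl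
          rw [e2, hbo_dzb_sum (F := fun j y => M.ch j (f j) y a) _
            (fun j => hbo_da hW (hcW j a) hxW)]
          refine Finset.sum_congr rfl fun j _ => ?_
          have h3 := M.commutator hW j k (f j) (hfW j) x hxW a
          rw [← h3]
          ring
        have e3 : (fun a => dzb (b k) (g a) x) =
            fun a => ∑ j, (M.ch j (fun c => dzb (b k) (f j c)) x a +
            - (- ∑ c, dzb (b k) (fun y => M.A j y a c) x * f j c x)) := funext e1
        rw [e3, hbo_ip_sum_left _ _ (fun j a => (M.ch j (fun c => dzb (b k) (f j c)) x a +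
            - (- ∑ c, dzb (b k) (fun y => M.A j y a c) x * f j c x)))]
        refine Finset.sum_congr rfl fun j _ => ?_
        rw [hbo_ip_add_left, hbo_ip_neg_left, sub_eq_add_neg]
      · have : (fun a => f k a x) = fun _ => 0 := funext fun a => hf0 x hx k a
        rw [this]
        simp [hbo_ip_zero_right]
    simp only [e]
    have I23 : ∀ j, Integrable (fun x => ip (M.H x) (M.ch j (fun c => dzb (b k) (f j c)) x)
          (fun a => f k a x)
          - ip (M.H x) (fun a => - ∑ c, dzb (b k) (fun y => M.A j y a c) x * f j c x)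
          (fun a => f k a x)) μ := fun j => (I2 k j).sub (I3 k j)
    rw [integral_finsetSum _ fun j _ => I23 j, ← Finset.sum_neg_distrib]
    refine Finset.sum_congr rfl fun j _ => ?_
    rw [integral_sub (I2 k j) (I3 k j)]
    have h5 := M.ibp' hW μ j (fun c => dzb (b k) (f j c)) (f k) (fun c => hBW k j c) (hf k)
    have h6 : ∫ x, ip (M.H x) (M.ch j (fun c => dzb (b k) (f j c)) x) (fun a => f k a x) ∂μ =
        conj (∫ x, ip (M.H x) (fun a => f k a x) (M.ch j (fun c => dzb (b k) (f j c)) x) ∂μ) := by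
      rw [← integral_conj]
      congr 1; ext x
      by_cases hx : x ∈ K
      · rw [hbo_ip_conj (M.herm x (hKW hx))]
      · have : (fun a => f k a x) = fun _ => 0 := funext fun a => hf0 x hx k a
        rw [this, hbo_ip_zero_right, hbo_ip_zero_left, map_zero]
    have h7 : ∫ x, ip (M.H x) (fun a => dzb (b k) (f j a) x) (fun a => dzb (b j) (f k a) x) ∂μ =
        conj (∫ x, ip (M.H x) (fun a => dzb (b j) (f k a) x) (fun a => dzb (b k) (f j a) x) ∂μ) := by
      rw [← integral_conj]
      congr 1; ext x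
      by_cases hx : x ∈ K
      · rw [hbo_ip_conj (M.herm x (hKW hx))]
      · have : (fun a => dzb (b j) (f k a) x) = fun _ => 0 :=
          funext fun a => hdzb0 x hx j k a
        rw [this, hbo_ip_zero_right, hbo_ip_zero_left, map_zero]
    rw [h6, h5, h7, map_neg]
    ring
  -- main identity
  have main : ∫ x, ip (M.H x) (fun a => g a x) (fun a => g a x) ∂μ =
      ∫ x, ∑ k, ∑ j, ip (M.H x) (fun a => dzb (b k) (f j a) x)
        (fun a => dzb (b j) (f k a) x) ∂μ +
      ∫ x, ∑ k, ∑ j, ip (M.H x)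
        (fun a => - ∑ c, dzb (b k) (fun y => M.A j y a c) x * f j c x) (fun a => f k a x) ∂μ := by
    rw [step1]
    simp only [step2, Finset.sum_add_distrib]
    congr 1
    · rw [integral_finsetSum _ fun k _ => integrable_finsetSum _ fun j _ => I4 k j]
      refine Finset.sum_congr rfl fun k _ => ?_
      rw [integral_finsetSum _ fun j _ => I4 k j]
    · rw [integral_finsetSum _ fun k _ => integrable_finsetSum _ fun j _ => I3 k j]
      refine Finset.sum_congr rfl fun k _ => ?_
      rw [integral_finsetSum _ fun j _ => I3 k j]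
  have hTi : Integrable (fun x => ∑ k, ∑ j, ip (M.H x) (fun a => dzb (b k) (f j a) x)
        (fun a => dzb (b j) (f k a) x)) μ :=
    integrable_finsetSum _ fun k _ => integrable_finsetSum _ fun j _ => I4 k j
  have hCi : Integrable (fun x => ∑ k, ∑ j, ip (M.H x)
        (fun a => - ∑ c, dzb (b k) (fun y => M.A j y a c) x * f j c x) (fun a => f k a x)) μ :=
    integrable_finsetSum _ fun k _ => integrable_finsetSum _ fun j _ => I3 k j
  have hDi : Integrable (fun x => ∑ j, ∑ k,
      M.nsq x (fun a => dzb (b j) (f k a) x - dzb (b k) (f j a) x)) μ := by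
    refine integrable_finsetSum _ fun j _ => integrable_finsetSum _ fun k _ => ?_
    have h := hint (fun x => ip (M.H x) (fun a => dzb (b j) (f k a) x - dzb (b k) (f j a) x)
      (fun a => dzb (b j) (f k a) x - dzb (b k) (f j a) x))
      (hbo_ip_smooth M (p := fun a x => dzb (b j) (f k a) x - dzb (b k) (f j a) x)
        (q := fun a x => dzb (b j) (f k a) x - dzb (b k) (f j a) x)
        (fun a => (hBW j k a).sub (hBW k j a)) (fun a => (hBW j k a).sub (hBW k j a)))
      (fun x hx => by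
        have : (fun a => dzb (b j) (f k a) x - dzb (b k) (f j a) x) = fun _ => 0 :=
          funext fun a => by rw [hdzb0 x hx j k a, hdzb0 x hx k j a, sub_zero]
        rw [this, hbo_ip_zero_right])
    exact h.re
  have r1 : ∫ x, M.nsq x (fun a => ∑ k, M.ch k (f k) x a) ∂μ =
      (∫ x, ip (M.H x) (fun a => g a x) (fun a => g a x) ∂μ).re :=
    integral_re hgi
  have r2 : ∫ x, M.curv x (fun k a => f k a x) ∂μ =
      (∫ x, ∑ k, ∑ j, ip (M.H x)
        (fun a => - ∑ c, dzb (b k) (fun y => M.A j y a c) x * f j c x)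
        (fun a => f k a x) ∂μ).re := by
    have h := integral_re hCi
    rw [RCLike.re_eq_complex_re] at h
    rw [← h]
    congr 1; ext x
    simp only [HMet.curv]
    rw [Finset.sum_comm]
  have r5 : (∫ x, ∑ k, ∑ j, ip (M.H x) (fun a => dzb (b k) (f j a) x)
        (fun a => dzb (b j) (f k a) x) ∂μ).re =
      ∫ x, (∑ k, ∑ j, ip (M.H x) (fun a => dzb (b k) (f j a) x)
        (fun a => dzb (b j) (f k a) x)).re ∂μ := (integral_re hTi).symm
  have r6 : -((1 / 2) * ∫ x, ∑ j, ∑ k,
      M.nsq x (fun a => dzb (b j) (f k a) x - dzb (b k) (f j a) x) ∂μ)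
      ≤ ∫ x, (∑ k, ∑ j, ip (M.H x) (fun a => dzb (b k) (f j a) x)
        (fun a => dzb (b j) (f k a) x)).re ∂μ := by
    rw [← integral_const_mul, ← integral_neg]
    refine integral_mono (hDi.const_mul _).neg hTi.re fun x => ?_
    by_cases hx : x ∈ K
    · have hxW := hKW hx
      refine hbo_alg (M.herm x hxW) (fun u => ?_) (fun j k => fun a => dzb (b j) (f k a) x)
      by_cases hu : u = 0
      · subst hu
        have : ip (M.H x) 0 0 = 0 := by simp [ip]
        rw [this]; simp
      · exact (M.pos x hxW u hu).le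
    · have e1 : ∀ j k, (fun a => dzb (b j) (f k a) x) = fun _ => 0 := fun j k =>
        funext fun a => hdzb0 x hx j k a
      have e2 : ∀ j k, (fun a => dzb (b j) (f k a) x - dzb (b k) (f j a) x) = fun _ => 0 :=
        fun j k => funext fun a => by rw [hdzb0 x hx j k a, hdzb0 x hx k j a, sub_zero]
      simp only [HMet.nsq, e1, e2, hbo_ip_zero_right]
      simp
  rw [r1, r2, main, add_re, r5]
  linarith

end Pool.Agent.Lib_KF
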