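import Pool.Agent.Lib_KF.HTwist
import Pool.Agent.Lib_KF.HBoch

/-! H04: Hörmander's a priori inequality with three weights. -/

open MeasureTheory Complex
open scoped ENNReal ContDiff ComplexConjugate

namespace Pool.Agent.Lib_KF

open GPn

variable {E : Type} [NormedAddCommGroup E] [NormedSpace ℂ E] [FiniteDimensional ℂ E]
  [MeasurableSpace E] [BorelSpace E] {W : Set E} {ι : Type} [Fintype ι]
  {b : Module.Basis ι ℂ E} {D : ℕ}

/-! ### auxiliary lemmas -/

section HApr_aux

private lemma HApr_fd (hW : IsOpen W) {F : E → ℂ} (hF : ContDiffOn ℝ ∞ F W) (v : E) :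
    ContDiffOn ℝ ∞ (fun x => fderiv ℝ F x v) W := by
  have h : ContDiffOn ℝ ∞ (fderiv ℝ F) W := hF.fderiv_of_isOpen hW (by simp)
  exact h.clm_apply contDiffOn_const

private lemma HApr_dz (hW : IsOpen W) {F : E → ℂ} (hF : ContDiffOn ℝ ∞ F W) (v : E) :
    ContDiffOn ℝ ∞ (dz v F) W := by
  have h1 := HApr_fd hW hF v
  have h2 := HApr_fd hW hF (I • v)
  have : dz v F = fun x => (fderiv ℝ F x v - I * fderiv ℝ F x (I • v)) / 2 := rfl
  rw [this]
  exact (h1.sub (contDiffOn_const.mul h2)).div_const 2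

private lemma HApr_dzb (hW : IsOpen W) {F : E → ℂ} (hF : ContDiffOn ℝ ∞ F W) (v : E) :
    ContDiffOn ℝ ∞ (dzb v F) W := by
  have h1 := HApr_fd hW hF v
  have h2 := HApr_fd hW hF (I • v)
  have : dzb v F = fun x => (fderiv ℝ F x v + I * fderiv ℝ F x (I • v)) / 2 := rfl
  rw [this]
  exact (h1.add (contDiffOn_const.mul h2)).div_const 2

private lemma HApr_re {χ : E → ℝ} (hχ : ContDiffOn ℝ ∞ χ W) :
    ContDiffOn ℝ ∞ (fun y => (χ y : ℂ)) W :=
  Complex.ofRealCLM.contDiff.comp_contDiffOn hχ

omit [NormedSpace ℂ E] [FiniteDimensional ℂ E] [MeasurableSpace E] [BorelSpace E] in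
private lemma HApr_ip {H : E → Fin D → Fin D → ℂ} {u v : E → Fin D → ℂ}
    (hH : ∀ a c, ContinuousOn (fun x => H x a c) W) (hu : ∀ a, ContinuousOn (fun x => u x a) W)
    (hv : ∀ a, ContinuousOn (fun x => v x a) W) :
    ContinuousOn (fun x => ip (H x) (u x) (v x)) W := by
  unfold ip
  refine continuousOn_finsetSum _ fun a _ => continuousOn_finsetSum _ fun c _ => ?_
  exact ((Complex.continuous_conj.comp_continuousOn (hv a)).mul (hH a c)).mul (hu c)

omit [NormedSpace ℂ E] [FiniteDimensional ℂ E] in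
private lemma HApr_int {g : E → ℝ} (hW : IsOpen W) (μ : Measure E)
    [IsFiniteMeasureOnCompacts μ] (hg : ContinuousOn g W) {K : Set E} (hK : IsCompact K)
    (hKW : K ⊆ W) (h0 : ∀ x, x ∉ K → g x = 0) : Integrable g μ := by
  have hc : Continuous g := by
    rw [continuous_iff_continuousAt]
    intro x
    by_cases hx : x ∈ W
    · exact hg.continuousAt (hW.mem_nhds hx)
    · have hxK : x ∈ Kᶜ := fun h => hx (hKW h)
      have : g =ᶠ[nhds x] fun _ => (0 : ℝ) := by
        filter_upwards [hK.isClosed.isOpen_compl.mem_nhds hxK] with y hy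
        exact h0 y hy
      exact (continuousAt_const (y := (0 : ℝ))).congr this.symm
  exact hc.integrable_of_hasCompactSupport (HasCompactSupport.intro hK h0)

private lemma HApr_ip_add_left (H : Fin D → Fin D → ℂ) (u u' v : Fin D → ℂ) :
    ip H (fun a => u a + u' a) v = ip H u v + ip H u' v := by
  simp only [ip, mul_add, Finset.sum_add_distrib]

private lemma HApr_ip_add_right (H : Fin D → Fin D → ℂ) (u v v' : Fin D → ℂ) :
    ip H u (fun a => v a + v' a) = ip H u v + ip H u v' := by
  simp only [ip, map_add, add_mul, Finset.sum_add_distrib]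

private lemma HApr_ip_smul_left (H : Fin D → Fin D → ℂ) (c : ℂ) (u v : Fin D → ℂ) :
    ip H (fun a => c * u a) v = c * ip H u v := by
  simp only [ip, Finset.mul_sum]
  refine Finset.sum_congr rfl fun a _ => Finset.sum_congr rfl fun d _ => ?_
  ring

private lemma HApr_ip_smul_right (H : Fin D → Fin D → ℂ) (c : ℂ) (u v : Fin D → ℂ) :
    ip H u (fun a => c * v a) = conj c * ip H u v := by
  simp only [ip, Finset.mul_sum, map_mul]
  refine Finset.sum_congr rfl fun a _ => Finset.sum_congr rfl fun d _ => ?_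
  ring

private lemma HApr_ip_sum_left (H : Fin D → Fin D → ℂ) (u : ι → Fin D → ℂ) (v : Fin D → ℂ) :
    ip H (fun a => ∑ k, u k a) v = ∑ k, ip H (u k) v := by
  simp only [ip, Finset.mul_sum]
  rw [Finset.sum_comm' (s := Finset.univ) (t := fun _ => Finset.univ) (t' := Finset.univ)
    (s' := fun _ => Finset.univ) (by simp)]
  rw [Finset.sum_comm]
  simp only [Finset.sum_comm (s := (Finset.univ : Finset (Fin D))) (t := (Finset.univ : Finset ι))]

private lemma HApr_ip_sum_right (H : Fin D → Fin D → ℂ) (u : Fin D → ℂ) (v : ι → Fin D → ℂ) :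
    ip H u (fun a => ∑ k, v k a) = ∑ k, ip H u (v k) := by
  simp only [ip, map_sum, Finset.sum_mul]
  simp only [Finset.sum_comm (s := (Finset.univ : Finset (Fin D))) (t := (Finset.univ : Finset ι))]

private lemma HApr_nsq_nonneg (M : HMet W b D) {x : E} (hx : x ∈ W) (u : Fin D → ℂ) :
    0 ≤ M.nsq x u := by
  by_cases h : u = 0
  · subst h
    simp [HMet.nsq, ip]
  · exact (M.pos x hx u h).le

end HApr_aux

/-- `∑_k (δ_k f_k - (∂_k σ) f_k)` -/
noncomputable def HMet.LL (M : HMet W b D) (σ : E → ℝ) (f : ι → Fin D → E → ℂ) (x : E)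
    (a : Fin D) : ℂ :=
  ∑ k, (M.ch k (f k) x a - dz (b k) (fun y => (σ y : ℂ)) x * f k a x)

theorem HMet.nsq_add_le (M : HMet W b D) (x : E) (hx : x ∈ W) (u v : Fin D → ℂ) :
    M.nsq x (u + v) ≤ 2 * M.nsq x u + 2 * M.nsq x v := by
  have h0 := HApr_nsq_nonneg M hx (fun a => u a + (-1) * v a)
  have e : ∀ c : ℂ, ip (M.H x) (fun a => u a + c * v a) (fun a => u a + c * v a) =
      ip (M.H x) u u + conj c * ip (M.H x) u v + c * ip (M.H x) v u +
        c * conj c * ip (M.H x) v v := by
    intro c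
    have h1 := HApr_ip_add_left (M.H x) u (fun a => c * v a) (fun a => u a + c * v a)
    have h2 := HApr_ip_add_right (M.H x) u u (fun a => c * v a)
    have h3 := HApr_ip_add_right (M.H x) v u (fun a => c * v a)
    rw [h1, HApr_ip_smul_left, h2, h3, HApr_ip_smul_right, HApr_ip_smul_right]
    ring
  have h1 : u + v = fun a => u a + 1 * v a := by
    funext a
    simp
  have e1 := congrArg Complex.re (e 1)
  have e2 := congrArg Complex.re (e (-1))
  rw [h1]
  simp only [HMet.nsq] at h0 ⊢
  rw [e1]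
  rw [e2] at h0
  simp only [map_one, map_neg, one_mul, neg_mul, mul_neg, neg_neg, Complex.add_re,
    Complex.neg_re] at h0 ⊢
  linarith

/-- Cauchy-Schwarz: `|∑_k c_k f_k| ^ 2 ≤ (∑ |c_k| ^ 2) (∑ |f_k| ^ 2)`. -/
theorem HMet.nsq_sum_le (M : HMet W b D) (x : E) (hx : x ∈ W) (c : ι → ℂ) (f : ι → Fin D → ℂ) :
    M.nsq x (fun a => ∑ k, c k * f k a) ≤ (∑ k, ‖c k‖ ^ 2) * ∑ k, M.nsq x (f k) := by
  set B : ι → ι → ℂ := fun k l => ip (M.H x) (f k) (f l) with hB
  have hS : ip (M.H x) (fun a => ∑ k, c k * f k a) (fun a => ∑ k, c k * f k a) =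
      ∑ k, ∑ l, c k * conj (c l) * B k l := by
    rw [HApr_ip_sum_left (M.H x) (fun k a => c k * f k a)]
    refine Finset.sum_congr rfl fun k _ => ?_
    rw [HApr_ip_smul_left, HApr_ip_sum_right (M.H x) (f k) (fun l a => c l * f l a),
      Finset.mul_sum]
    refine Finset.sum_congr rfl fun l _ => ?_
    rw [HApr_ip_smul_right]
    ring
  have hw : ∀ j k, ip (M.H x) (fun a => conj (c j) * f k a + (-conj (c k)) * f j a)
      (fun a => conj (c j) * f k a + (-conj (c k)) * f j a) =
      c j * conj (c j) * B k k - c k * conj (c j) * B k j - c j * conj (c k) * B j k +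
        B j j * (c k * conj (c k)) := by
    intro j k
    have h1 := HApr_ip_add_left (M.H x) (fun a => conj (c j) * f k a)
      (fun a => (-conj (c k)) * f j a) (fun a => conj (c j) * f k a + (-conj (c k)) * f j a)
    have h2 := HApr_ip_add_right (M.H x) (f k) (fun a => conj (c j) * f k a)
      (fun a => (-conj (c k)) * f j a)
    have h3 := HApr_ip_add_right (M.H x) (f j) (fun a => conj (c j) * f k a)
      (fun a => (-conj (c k)) * f j a)
    rw [h1, HApr_ip_smul_left, HApr_ip_smul_left, h2, h3, HApr_ip_smul_right, HApr_ip_smul_right,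
      HApr_ip_smul_right, HApr_ip_smul_right]
    simp only [map_neg, Complex.conj_conj, hB]
    ring
  have hsum : ∑ j, ∑ k, ip (M.H x) (fun a => conj (c j) * f k a + (-conj (c k)) * f j a)
      (fun a => conj (c j) * f k a + (-conj (c k)) * f j a) =
      2 * ((∑ k, c k * conj (c k)) * ∑ k, B k k) -
        2 * ip (M.H x) (fun a => ∑ k, c k * f k a) (fun a => ∑ k, c k * f k a) := by
    simp only [hw, Finset.sum_add_distrib, Finset.sum_sub_distrib]
    have t1 : ∑ j, ∑ k, c j * conj (c j) * B k k = (∑ k, c k * conj (c k)) * ∑ k, B k k := by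
      rw [Finset.sum_mul_sum]
    have t2 : ∑ j, ∑ k, B j j * (c k * conj (c k)) = (∑ k, c k * conj (c k)) * ∑ k, B k k := by
      rw [mul_comm, Finset.sum_mul_sum]
    have t3 : ∑ j, ∑ k, c k * conj (c j) * B k j = ∑ k, ∑ l, c k * conj (c l) * B k l :=
      Finset.sum_comm
    rw [t1, t2, t3, hS]
    ring
  have hpos : 0 ≤ (∑ j, ∑ k, ip (M.H x) (fun a => conj (c j) * f k a + (-conj (c k)) * f j a)
      (fun a => conj (c j) * f k a + (-conj (c k)) * f j a)).re := by
    rw [Complex.re_sum]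
    refine Finset.sum_nonneg fun j _ => ?_
    rw [Complex.re_sum]
    exact Finset.sum_nonneg fun k _ => HApr_nsq_nonneg M hx _
  rw [hsum] at hpos
  have hc : (∑ k, c k * conj (c k)) = ((∑ k, ‖c k‖ ^ 2 : ℝ) : ℂ) := by
    push_cast
    refine Finset.sum_congr rfl fun k _ => ?_
    rw [Complex.mul_conj, Complex.normSq_eq_norm_sq]
    push_cast
    rfl
  have hBr : (∑ k, B k k).re = ∑ k, M.nsq x (f k) := by
    rw [Complex.re_sum]
    rfl
  rw [hc] at hpos
  have h2 : (2 * ((((∑ k, ‖c k‖ ^ 2 : ℝ)) : ℂ) * ∑ k, B k k)).re =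
      2 * ((∑ k, ‖c k‖ ^ 2) * ∑ k, M.nsq x (f k)) := by
    rw [← hBr]
    simp only [Complex.mul_re, Complex.re_ofNat, Complex.im_ofNat, zero_mul, sub_zero,
      Complex.ofReal_re, Complex.ofReal_im]
  have h3 : (2 * ip (M.H x) (fun a => ∑ k, c k * f k a) (fun a => ∑ k, c k * f k a)).re =
      2 * M.nsq x (fun a => ∑ k, c k * f k a) := by
    simp only [HMet.nsq, Complex.mul_re, Complex.re_ofNat, Complex.im_ofNat, zero_mul, sub_zero]
  rw [Complex.sub_re, h2, h3] at hpos
  linarith

theorem HMet.apriori (M : HMet W b D) (hW : IsOpen W) (μ : Measure E) [μ.IsAddHaarMeasure]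
    (θ χ : E → ℝ) (hθ : ContDiffOn ℝ ∞ θ W) (hχ : ContDiffOn ℝ ∞ χ W) (κ : E → ℝ)
    (hκ : ContinuousOn κ W) (k₀ : ι)
    (hcurv : ∀ x ∈ W, ∀ f : ι → Fin D → ℂ, κ x * M.nsq x (f k₀) ≤ M.curv x f)
    (hlev : ∀ x ∈ W, ∀ f : ι → Fin D → ℂ,
      2 * gradsq b θ x * ∑ k, M.nsq x (f k) ≤ levH b (M.H x) χ x f)
    (f : ι → Fin D → E → ℂ) (hf : ∀ k a, SCW W (f k a)) :
    ∫ x, κ x * M.nsq x (fun a => f k₀ a x) * Real.exp (-χ x) ∂μ ≤
      2 * ∫ x, M.nsq x (M.LL (fun y => χ y - θ y) f x) * Real.exp (-χ x) ∂μ +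
      (1 / 2) * ∫ x, (∑ j, ∑ k, M.nsq x (fun a => dzb (b j) (f k a) x - dzb (b k) (f j a) x)) *
        Real.exp (-χ x) ∂μ := by
  classical
  have hχc := HApr_re hχ
  have hθc := HApr_re hθ
  -- the support
  set K : Set E := ⋃ k, ⋃ a, tsupport (f k a) with hKdef
  have hK : IsCompact K := isCompact_iUnion fun k => isCompact_iUnion fun a => (hf k a).2.1
  have hKW : K ⊆ W := Set.iUnion_subset fun k => Set.iUnion_subset fun a => (hf k a).2.2
  have hnot : ∀ x, x ∉ K → ∀ k a, x ∉ tsupport (f k a) := fun x hx k a h =>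
    hx (Set.mem_iUnion.mpr ⟨k, Set.mem_iUnion.mpr ⟨a, h⟩⟩)
  have hf0 : ∀ x, x ∉ K → ∀ k a, f k a x = 0 := fun x hx k a =>
    image_eq_zero_of_notMem_tsupport (hnot x hx k a)
  have hd0 : ∀ x, x ∉ K → ∀ k a v, dz v (f k a) x = 0 := by
    intro x hx k a v
    simp [dz, fderiv_of_notMem_tsupport ℝ (hnot x hx k a)]
  -- smoothness
  have hfs : ∀ k a, ContDiffOn ℝ ∞ (f k a) W := fun k a => (hf k a).1.contDiffOn
  have hfc : ∀ k a, ContinuousOn (f k a) W := fun k a => (hfs k a).continuousOn
  have hHc : ∀ a c, ContinuousOn (fun x => M.H x a c) W := fun a c => (M.smH a c).continuousOn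
  have hexp : ContinuousOn (fun x => Real.exp (-χ x)) W :=
    Real.continuous_exp.comp_continuousOn hχ.continuousOn.neg
  have hch : ∀ k a, ContinuousOn (fun x => M.ch k (f k) x a) W := by
    intro k a
    have h1 : ContinuousOn (dz (b k) (f k a)) W := (HApr_dz hW (hfs k a) (b k)).continuousOn
    have h2 : ContinuousOn (fun x => ∑ c, M.A k x a c * f k c x) W :=
      continuousOn_finsetSum _ fun c _ => ((M.smA k a c).continuousOn).mul (hfc k c)
    exact h1.add h2
  have hχθ : ContDiffOn ℝ ∞ (fun y => ((χ y - θ y : ℝ) : ℂ)) W := HApr_re (hχ.sub hθ)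
  have hLL : ∀ a, ContinuousOn (fun x => M.LL (fun y => χ y - θ y) f x a) W := by
    intro a
    refine continuousOn_finsetSum _ fun k _ => (hch k a).sub ?_
    exact ((HApr_dz hW hχθ (b k)).continuousOn).mul (hfc k a)
  -- integrability
  have hI1 : Integrable (fun x => κ x * M.nsq x (fun a => f k₀ a x) * Real.exp (-χ x)) μ := by
    refine HApr_int hW μ ?_ hK hKW ?_
    · refine (hκ.mul ?_).mul hexp
      exact Complex.continuous_re.comp_continuousOn
        (HApr_ip hHc (fun a => hfc k₀ a) (fun a => hfc k₀ a))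
    · intro x hx
      simp [HMet.nsq, ip, hf0 x hx]
  have hI2 : Integrable (fun x => Real.exp (-χ x) * M.curv x (fun k a => f k a x)) μ := by
    refine HApr_int hW μ ?_ hK hKW ?_
    · refine hexp.mul ?_
      refine Complex.continuous_re.comp_continuousOn ?_
      refine continuousOn_finsetSum _ fun j _ => continuousOn_finsetSum _ fun k _ => ?_
      refine HApr_ip hHc (fun a => ?_) (fun a => hfc k a)
      refine (continuousOn_finsetSum _ fun c _ => ?_).neg
      exact ((HApr_dzb hW (M.smA j a c) (b k)).continuousOn).mul (hfc j c)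
    · intro x hx
      simp [HMet.curv, ip, hf0 x hx]
  have hI3 : Integrable (fun x => Real.exp (-χ x) * levH b (M.H x) χ x (fun k a => f k a x)) μ := by
    refine HApr_int hW μ ?_ hK hKW ?_
    · refine hexp.mul ?_
      refine Complex.continuous_re.comp_continuousOn ?_
      refine continuousOn_finsetSum _ fun j _ => continuousOn_finsetSum _ fun k _ => ?_
      exact ((HApr_dzb hW (HApr_dz hW hχc (b j)) (b k)).continuousOn).mul
        (HApr_ip hHc (fun a => hfc j a) (fun a => hfc k a))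
    · intro x hx
      simp [levH, ip, hf0 x hx]
  have hI4 : Integrable (fun x => M.nsq x (M.LL (fun y => χ y - θ y) f x) *
      Real.exp (-χ x)) μ := by
    refine HApr_int hW μ ?_ hK hKW ?_
    · refine ContinuousOn.mul ?_ hexp
      exact Complex.continuous_re.comp_continuousOn (HApr_ip hHc hLL hLL)
    · intro x hx
      have : M.LL (fun y => χ y - θ y) f x = 0 := by
        funext a
        simp [HMet.LL, HMet.ch, hf0 x hx, hd0 x hx]
      rw [this]
      simp [HMet.nsq, ip]
  -- Bochner for the twisted metric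
  have hB := (M.twist hW χ hχ).bochner hW μ f hf
  have e1 : ∀ x, (M.twist hW χ hχ).curv x (fun k a => f k a x) =
      Real.exp (-χ x) * M.curv x (fun k a => f k a x) +
        Real.exp (-χ x) * levH b (M.H x) χ x (fun k a => f k a x) := by
    intro x
    by_cases hx : x ∈ W
    · rw [HMet.curv_twist M hW χ hχ x hx, mul_add]
    · have hxK : x ∉ K := fun h => hx (hKW h)
      simp [HMet.curv, levH, ip, hf0 x hxK]
  have e2 : ∀ x, (M.twist hW χ hχ).nsq x (fun a => ∑ k, (M.twist hW χ hχ).ch k (f k) x a) =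
      Real.exp (-χ x) * M.nsq x (M.LL χ f x) := by
    intro x
    rw [HMet.nsq_twist]
    congr 2
    funext a
    simp only [HMet.LL]
    exact Finset.sum_congr rfl fun k _ => HMet.ch_twist M hW χ hχ k (f k) x a
  have e3 : ∀ x, (∑ j, ∑ k, (M.twist hW χ hχ).nsq x
      (fun a => dzb (b j) (f k a) x - dzb (b k) (f j a) x)) =
      (∑ j, ∑ k, M.nsq x (fun a => dzb (b j) (f k a) x - dzb (b k) (f j a) x)) *
        Real.exp (-χ x) := by
    intro x
    rw [Finset.sum_mul]
    refine Finset.sum_congr rfl fun j _ => ?_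
    rw [Finset.sum_mul]
    refine Finset.sum_congr rfl fun k _ => ?_
    rw [HMet.nsq_twist, mul_comm]
  simp only [e1, e2, e3] at hB
  rw [integral_add hI2 hI3] at hB
  -- pointwise inequality
  have hpt : ∀ x, Real.exp (-χ x) * M.nsq x (M.LL χ f x) ≤
      2 * (M.nsq x (M.LL (fun y => χ y - θ y) f x) * Real.exp (-χ x)) +
        Real.exp (-χ x) * levH b (M.H x) χ x (fun k a => f k a x) := by
    intro x
    by_cases hx : x ∈ W
    · have hd : ∀ k, dz (b k) (fun y => ((χ y - θ y : ℝ) : ℂ)) x =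
          dz (b k) (fun y => (χ y : ℂ)) x - dz (b k) (fun y => (θ y : ℂ)) x := by
        intro k
        have h1 : DifferentiableAt ℝ (fun y => (χ y : ℂ)) x :=
          (hχc.contDiffAt (hW.mem_nhds hx)).differentiableAt (by simp)
        have h2 : DifferentiableAt ℝ (fun y => (θ y : ℂ)) x :=
          (hθc.contDiffAt (hW.mem_nhds hx)).differentiableAt (by simp)
        have h3 : fderiv ℝ (fun y => ((χ y - θ y : ℝ) : ℂ)) x =
            fderiv ℝ (fun y => (χ y : ℂ)) x - fderiv ℝ (fun y => (θ y : ℂ)) x := by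
          have : (fun y => ((χ y - θ y : ℝ) : ℂ)) = fun y => (χ y : ℂ) - (θ y : ℂ) := by
            funext y
            push_cast
            rfl
          rw [this]
          exact fderiv_fun_sub h1 h2
        simp only [dz, h3, sub_apply]
        ring
      have hdec : M.LL χ f x = M.LL (fun y => χ y - θ y) f x +
          fun a => ∑ k, (-dz (b k) (fun y => (θ y : ℂ)) x) * f k a x := by
        funext a
        simp only [HMet.LL, Pi.add_apply]
        rw [← Finset.sum_add_distrib]
        refine Finset.sum_congr rfl fun k _ => ?_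
        rw [hd k]
        ring
      have h1 := M.nsq_add_le x hx (M.LL (fun y => χ y - θ y) f x)
        (fun a => ∑ k, (-dz (b k) (fun y => (θ y : ℂ)) x) * f k a x)
      rw [← hdec] at h1
      have h2 := M.nsq_sum_le x hx (fun k => -dz (b k) (fun y => (θ y : ℂ)) x)
        (fun k a => f k a x)
      simp only [norm_neg] at h2
      have h3 := hlev x hx (fun k a => f k a x)
      have h4 : M.nsq x (M.LL χ f x) ≤ 2 * M.nsq x (M.LL (fun y => χ y - θ y) f x) +
          levH b (M.H x) χ x (fun k a => f k a x) := by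
        simp only [gradsq] at h3
        linarith
      have h5 := mul_le_mul_of_nonneg_left h4 (Real.exp_pos (-χ x)).le
      linarith
    · have hxK : x ∉ K := fun h => hx (hKW h)
      have hz : ∀ σ : E → ℝ, M.LL σ f x = 0 := by
        intro σ
        funext a
        simp [HMet.LL, HMet.ch, hf0 x hxK, hd0 x hxK]
      rw [hz, hz]
      simp [HMet.nsq, levH, ip, hf0 x hxK]
  have hI5 : Integrable (fun x => 2 * (M.nsq x (M.LL (fun y => χ y - θ y) f x) *
      Real.exp (-χ x)) + Real.exp (-χ x) * levH b (M.H x) χ x (fun k a => f k a x)) μ :=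
    (hI4.const_mul 2).add hI3
  have hmono : ∫ x, Real.exp (-χ x) * M.nsq x (M.LL χ f x) ∂μ ≤
      ∫ x, (2 * (M.nsq x (M.LL (fun y => χ y - θ y) f x) * Real.exp (-χ x)) +
        Real.exp (-χ x) * levH b (M.H x) χ x (fun k a => f k a x)) ∂μ := by
    refine integral_mono_of_nonneg (Filter.Eventually.of_forall fun x => ?_) hI5
      (Filter.Eventually.of_forall hpt)
    by_cases hx : x ∈ W
    · exact mul_nonneg (Real.exp_pos _).le (HApr_nsq_nonneg M hx _)
    · have hxK : x ∉ K := fun h => hx (hKW h)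
      have hz : M.LL χ f x = 0 := by
        funext a
        simp [HMet.LL, HMet.ch, hf0 x hxK, hd0 x hxK]
      simp [hz, HMet.nsq, ip]
  rw [integral_add (hI4.const_mul 2) hI3, integral_const_mul] at hmono
  have hcurv' : ∫ x, κ x * M.nsq x (fun a => f k₀ a x) * Real.exp (-χ x) ∂μ ≤
      ∫ x, Real.exp (-χ x) * M.curv x (fun k a => f k a x) ∂μ := by
    refine integral_mono hI1 hI2 fun x => ?_
    show κ x * M.nsq x (fun a => f k₀ a x) * Real.exp (-χ x) ≤
      Real.exp (-χ x) * M.curv x (fun k a => f k a x)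
    by_cases hx : x ∈ W
    · have h1 := mul_le_mul_of_nonneg_left (hcurv x hx (fun k a => f k a x))
        (Real.exp_pos (-χ x)).le
      linarith
    · have hxK : x ∉ K := fun h => hx (hKW h)
      simp [HMet.nsq, HMet.curv, ip, hf0 x hxK]
  linarith

end Pool.Agent.Lib_KF
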