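import Pool.Agent.Lib_KF.HMollW

/-! H06: the a priori inequality for closed weak forms (cutoffs). -/

open MeasureTheory Complex
open scoped ENNReal ContDiff ComplexConjugate

namespace Pool.Agent.Lib_KF

open GPn

section HCutAlg

variable {D : ℕ}

private theorem hcut_ip_smul (H : Fin D → Fin D → ℂ) (c d : ℂ) (u v : Fin D → ℂ) :
    ip H (fun a => c * u a) (fun a => d * v a) = c * conj d * ip H u v := by
  unfold ip
  rw [Finset.mul_sum]
  refine Finset.sum_congr rfl fun a _ => ?_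
  rw [Finset.mul_sum]
  refine Finset.sum_congr rfl fun c' _ => ?_
  rw [map_mul]
  ring

private theorem hcut_ip_add_right (H : Fin D → Fin D → ℂ) (u v w : Fin D → ℂ) :
    ip H u (fun a => v a + w a) = ip H u v + ip H u w := by
  unfold ip
  rw [← Finset.sum_add_distrib]
  refine Finset.sum_congr rfl fun a _ => ?_
  rw [← Finset.sum_add_distrib]
  refine Finset.sum_congr rfl fun c' _ => ?_
  rw [map_add]
  ring

private theorem hcut_ip_add_left (H : Fin D → Fin D → ℂ) (u v w : Fin D → ℂ) :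
    ip H (fun a => u a + v a) w = ip H u w + ip H v w := by
  unfold ip
  rw [← Finset.sum_add_distrib]
  refine Finset.sum_congr rfl fun a _ => ?_
  rw [← Finset.sum_add_distrib]
  refine Finset.sum_congr rfl fun c' _ => ?_
  ring

private theorem hcut_ip_zero_right (H : Fin D → Fin D → ℂ) (u : Fin D → ℂ) :
    ip H u (fun _ => 0) = 0 := by
  simp [ip]

private theorem hcut_ip_zero_left (H : Fin D → Fin D → ℂ) (u : Fin D → ℂ) :
    ip H (fun _ => 0) u = 0 := by
  simp [ip]

private theorem hcut_ip_sum_right {ι : Type} (s : Finset ι) (H : Fin D → Fin D → ℂ)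
    (u : Fin D → ℂ) (c : ι → ℂ) (f : ι → Fin D → ℂ) :
    ip H u (fun a => ∑ k ∈ s, c k * f k a) = ∑ k ∈ s, conj (c k) * ip H u (f k) := by
  classical
  induction s using Finset.induction_on with
  | empty => simp [hcut_ip_zero_right]
  | insert k s hk ih =>
    have e : (fun a => ∑ j ∈ insert k s, c j * f j a) =
        fun a => c k * f k a + ∑ j ∈ s, c j * f j a := by
      funext a
      rw [Finset.sum_insert hk]
    rw [e, hcut_ip_add_right, ih, Finset.sum_insert hk]
    have h1 := hcut_ip_smul H 1 (c k) u (f k)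
    simp only [one_mul] at h1
    rw [h1]

/-- the identity behind `|u + v| ^ 2 ≤ (1 + t) |u| ^ 2 + (1 + 1 / t) |v| ^ 2` -/
private theorem hcut_quad (H : Fin D → Fin D → ℂ) (r : ℝ) (hr : r ≠ 0) (u v : Fin D → ℂ) :
    (ip H (fun a => u a + v a) (fun a => u a + v a)).re +
      (ip H (fun a => (r : ℂ) * u a + (-(r⁻¹ : ℝ) : ℂ) * v a)
        (fun a => (r : ℂ) * u a + (-(r⁻¹ : ℝ) : ℂ) * v a)).re =
    (1 + r ^ 2) * (ip H u u).re + (1 + (r ^ 2)⁻¹) * (ip H v v).re := by
  have h1 : ip H (fun a => u a + v a) (fun a => u a + v a) =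
      ip H u u + ip H v u + (ip H u v + ip H v v) := by
    rw [hcut_ip_add_right, hcut_ip_add_left, hcut_ip_add_left]
  have h2 : ip H (fun a => (r : ℂ) * u a + (-(r⁻¹ : ℝ) : ℂ) * v a)
        (fun a => (r : ℂ) * u a + (-(r⁻¹ : ℝ) : ℂ) * v a) =
      ((r ^ 2 : ℝ) : ℂ) * ip H u u - ip H v u - ip H u v + (((r ^ 2)⁻¹ : ℝ) : ℂ) * ip H v v := by
    rw [hcut_ip_add_right, hcut_ip_add_left, hcut_ip_add_left, hcut_ip_smul, hcut_ip_smul,
      hcut_ip_smul, hcut_ip_smul]
    simp only [map_neg, conj_ofReal]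
    have hrC : (r : ℂ) ≠ 0 := by exact_mod_cast hr
    push_cast
    field_simp
    ring
  rw [h1, h2]
  simp only [add_re, sub_re, re_ofReal_mul]
  ring

end HCutAlg

section HCutMet

variable {E : Type} [NormedAddCommGroup E] [NormedSpace ℂ E] {W : Set E} {ι : Type} [Fintype ι]
  {b : Module.Basis ι ℂ E} {D : ℕ}

private theorem hcut_nsq_smul (M : HMet W b D) (x : E) (c : ℂ) (u : Fin D → ℂ) :
    M.nsq x (fun a => c * u a) = ‖c‖ ^ 2 * M.nsq x u := by
  unfold HMet.nsq
  rw [hcut_ip_smul, mul_conj, re_ofReal_mul, normSq_eq_norm_sq]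

private theorem hcut_nsq_zero (M : HMet W b D) (x : E) : M.nsq x (fun _ => 0) = 0 := by
  unfold HMet.nsq
  rw [hcut_ip_zero_right]
  rfl

private theorem hcut_nsq_nonneg (M : HMet W b D) {x : E} (hx : x ∈ W) (u : Fin D → ℂ) :
    0 ≤ M.nsq x u := by
  by_cases hu : u = 0
  · rw [hu]
    exact (hcut_nsq_zero M x).ge
  · exact (M.pos x hx u hu).le

private theorem hcut_nsq_add (M : HMet W b D) {x : E} (hx : x ∈ W) {t : ℝ} (ht : 0 < t)
    (u v : Fin D → ℂ) :
    M.nsq x (fun a => u a + v a) ≤ (1 + t) * M.nsq x u + (1 + t⁻¹) * M.nsq x v := by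
  have h := hcut_quad (M.H x) (Real.sqrt t) (Real.sqrt_pos.2 ht).ne' u v
  rw [Real.sq_sqrt ht.le] at h
  have h2 := hcut_nsq_nonneg M hx
    (fun a => (Real.sqrt t : ℂ) * u a + (-((Real.sqrt t)⁻¹ : ℝ) : ℂ) * v a)
  unfold HMet.nsq at h2 ⊢
  linarith

private theorem hcut_nsq_cont (M : HMet W b D) :
    ContinuousOn (fun q : E × (Fin D → ℂ) => M.nsq q.1 q.2) (W ×ˢ Set.univ) := by
  have h1 : ContinuousOn (fun q : E × (Fin D → ℂ) => ip (M.H q.1) q.2 q.2)
      (W ×ˢ Set.univ) := by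
    unfold ip
    refine continuousOn_finsetSum _ fun a _ => continuousOn_finsetSum _ fun c _ => ?_
    have h2 : ContinuousOn (fun q : E × (Fin D → ℂ) => M.H q.1 a c) (W ×ˢ Set.univ) :=
      (M.smH a c).continuousOn.comp continuousOn_fst fun q hq => hq.1
    have h3 : Continuous fun q : E × (Fin D → ℂ) => conj (q.2 a) := by fun_prop
    have h4 : Continuous fun q : E × (Fin D → ℂ) => q.2 c := by fun_prop
    exact (h3.continuousOn.mul h2).mul h4.continuousOn
  exact Complex.continuous_re.comp_continuousOn h1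

/-- on compact sets the metric dominates the euclidean one -/
private theorem hcut_compare (M : HMet W b D) {K : Set E} (hK : IsCompact K) (hKW : K ⊆ W) :
    ∃ C : ℝ, 0 ≤ C ∧ ∀ x ∈ K, ∀ u : Fin D → ℂ, ‖u‖ ^ 2 ≤ C * M.nsq x u := by
  have hS : IsCompact (Metric.sphere (0 : Fin D → ℂ) 1) := isCompact_sphere _ _
  have hKS : IsCompact (K ×ˢ Metric.sphere (0 : Fin D → ℂ) 1) := hK.prod hS
  have key : ∀ m₀ : ℝ, 0 < m₀ → (∀ x ∈ K, ∀ v : Fin D → ℂ, ‖v‖ = 1 → m₀ ≤ M.nsq x v) →
      ∃ C : ℝ, 0 ≤ C ∧ ∀ x ∈ K, ∀ u : Fin D → ℂ, ‖u‖ ^ 2 ≤ C * M.nsq x u := by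
    intro m₀ hm h
    refine ⟨m₀⁻¹, (inv_pos.2 hm).le, fun x hx u => ?_⟩
    by_cases hu : u = 0
    · rw [hu, norm_zero]
      have : M.nsq x (0 : Fin D → ℂ) = 0 := hcut_nsq_zero M x
      rw [this]
      simp
    · have hn : 0 < ‖u‖ := norm_pos_iff.2 hu
      have h1 : ‖(fun a => (((‖u‖)⁻¹ : ℝ) : ℂ) * u a : Fin D → ℂ)‖ = 1 := by
        have e : (fun a => (((‖u‖)⁻¹ : ℝ) : ℂ) * u a : Fin D → ℂ) =
            (((‖u‖)⁻¹ : ℝ) : ℂ) • u := rfl
        rw [e, norm_smul, Complex.norm_real, Real.norm_of_nonneg (inv_pos.2 hn).le,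
          inv_mul_cancel₀ hn.ne']
      have h2 := h x hx _ h1
      rw [hcut_nsq_smul, Complex.norm_real, Real.norm_of_nonneg (inv_pos.2 hn).le] at h2
      rw [inv_pow, inv_mul_eq_div, le_div_iff₀ (by positivity)] at h2
      rw [inv_mul_eq_div, le_div_iff₀ hm]
      linarith
  rcases (K ×ˢ Metric.sphere (0 : Fin D → ℂ) 1).eq_empty_or_nonempty with he | hne
  · refine key 1 one_pos fun x hx v hv => ?_
    exfalso
    have : (x, v) ∈ K ×ˢ Metric.sphere (0 : Fin D → ℂ) 1 := by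
      refine Set.mk_mem_prod hx ?_
      rw [mem_sphere_zero_iff_norm]
      exact hv
    rw [he] at this
    exact this
  · obtain ⟨q, hq, hmin⟩ := hKS.exists_isMinOn hne
      ((hcut_nsq_cont M).mono fun q hq => ⟨hKW hq.1, Set.mem_univ _⟩)
    have hq2 : q.2 ≠ 0 := by
      intro h0
      have := hq.2
      rw [mem_sphere_zero_iff_norm, h0, norm_zero] at this
      exact zero_ne_one this
    refine key (M.nsq q.1 q.2) (M.pos q.1 (hKW hq.1) q.2 hq2) fun x hx v hv => ?_
    have hm : (x, v) ∈ K ×ˢ Metric.sphere (0 : Fin D → ℂ) 1 := by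
      refine Set.mk_mem_prod hx ?_
      rw [mem_sphere_zero_iff_norm]
      exact hv
    have := isMinOn_iff.1 hmin (x, v) hm
    exact this

end HCutMet

section HCutInt

variable {E : Type} [NormedAddCommGroup E] [NormedSpace ℂ E] [FiniteDimensional ℂ E]
  [MeasurableSpace E] [BorelSpace E] {W : Set E} {ι : Type} [Fintype ι]
  {b : Module.Basis ι ℂ E} {D : ℕ}

private theorem hcut_sc : SecondCountableTopology E := by
  haveI : ProperSpace E := FiniteDimensional.proper ℂ E
  infer_instance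

omit [FiniteDimensional ℂ E] [MeasurableSpace E] [BorelSpace E] in
private theorem hcut_cont_ext {f : E → ℂ} (hW : IsOpen W) (hf : ContinuousOn f W) {T : Set E}
    (hT : IsClosed T) (hTW : T ⊆ W) (h0 : ∀ x, x ∉ T → f x = 0) : Continuous f := by
  rw [continuous_iff_continuousAt]
  intro x
  by_cases hx : x ∈ W
  · exact hf.continuousAt (hW.mem_nhds hx)
  · have h1 : Tᶜ ∈ nhds x := hT.isOpen_compl.mem_nhds fun h => hx (hTW h)
    have h2 : f =ᶠ[nhds x] fun _ => 0 := by
      filter_upwards [h1] with y hy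
      exact h0 y hy
    exact (continuousAt_congr h2).2 continuousAt_const

private theorem hcut_aesm_nsq (M : HMet W b D) (hW : IsOpen W) (μ : Measure E)
    (u : Fin D → E → ℂ) (hu : ∀ a, AEStronglyMeasurable (u a) (μ.restrict W)) :
    AEStronglyMeasurable (fun x => M.nsq x (fun a => u a x)) (μ.restrict W) := by
  haveI := hcut_sc (E := E)
  have h1 : AEStronglyMeasurable (fun x => ip (M.H x) (fun a => u a x) (fun a => u a x))
      (μ.restrict W) := by
    unfold ip
    refine Finset.aestronglyMeasurable_fun_sum _ fun a _ =>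
      Finset.aestronglyMeasurable_fun_sum _ fun c _ => ?_
    have h2 : AEStronglyMeasurable (fun x => M.H x a c) (μ.restrict W) :=
      ((M.smH a c).continuousOn).aestronglyMeasurable hW.measurableSet
    exact ((Complex.continuous_conj.comp_aestronglyMeasurable (hu a)).mul h2).mul (hu c)
  exact Complex.continuous_re.comp_aestronglyMeasurable h1

private theorem hcut_memLp (hW : IsOpen W) (μ : Measure E) {F : E → ℂ}
    (hF : AEStronglyMeasurable F (μ.restrict W)) (h0 : ∀ x, x ∉ W → F x = 0)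
    (hfin : ∫⁻ x in W, ENNReal.ofReal (‖F x‖ ^ 2) ∂μ ≠ ⊤) : MemLp F 2 μ := by
  have e : W.indicator F = F := by
    rw [Set.indicator_eq_self]
    intro x hx
    by_contra h
    exact hx (h0 x h)
  have hm : AEStronglyMeasurable F μ := by
    rw [← e]
    exact (aestronglyMeasurable_indicator_iff hW.measurableSet).2 hF
  refine ⟨hm, ?_⟩
  rw [eLpNorm_lt_top_iff_lintegral_rpow_enorm_lt_top two_ne_zero ENNReal.ofNat_ne_top]
  have e2 : (fun x => ‖F x‖ₑ ^ (2 : ℝ≥0∞).toReal) =
      W.indicator (fun x => ENNReal.ofReal (‖F x‖ ^ 2)) := by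
    funext x
    by_cases hx : x ∈ W
    · rw [Set.indicator_of_mem hx, ENNReal.toReal_ofNat, ENNReal.rpow_ofNat,
        ENNReal.ofReal_pow (norm_nonneg _), ofReal_norm]
    · rw [Set.indicator_of_notMem hx, h0 x hx]
      simp
  rw [e2, lintegral_indicator hW.measurableSet]
  exact lt_top_iff_ne_top.2 hfin

private theorem hcut_loc (M : HMet W b D) (hW : IsOpen W) (μ : Measure E) {φ : E → ℝ}
    (hφ : ContinuousOn φ W) {u : Fin D → E → ℂ}
    (hu : ∀ a, AEStronglyMeasurable (u a) (μ.restrict W)) (h2 : M.L2 μ φ u ≠ ⊤) {K : Set E}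
    (hK : IsCompact K) (hKW : K ⊆ W) {c : E → ℂ} (hc : Continuous c)
    (hcK : ∀ x, x ∉ K → c x = 0) (a : Fin D) : MemLp (fun x => c x * u a x) 2 μ := by
  haveI := hcut_sc (E := E)
  obtain ⟨C, hC0, hC⟩ := hcut_compare M hK hKW
  obtain ⟨B, hB⟩ := hK.exists_bound_of_continuousOn hc.continuousOn
  obtain ⟨P, hP⟩ := hK.exists_bound_of_continuousOn (hφ.mono hKW)
  refine hcut_memLp hW μ (hc.aestronglyMeasurable.mul (hu a)) ?_ ?_
  · intro x hx
    rw [hcK x fun h => hx (hKW h), zero_mul]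
  · have hle : ∀ x ∈ W, ENNReal.ofReal (‖c x * u a x‖ ^ 2) ≤
        ENNReal.ofReal (B ^ 2 * C * Real.exp P) *
          ENNReal.ofReal (M.nsq x (fun a => u a x) * Real.exp (-φ x)) := by
      intro x hx
      rw [← ENNReal.ofReal_mul (by positivity)]
      refine ENNReal.ofReal_le_ofReal ?_
      have hn := hcut_nsq_nonneg M hx (fun a => u a x)
      by_cases hxK : x ∈ K
      · have h3 := hB x hxK
        have h4 := hC x hxK (fun a => u a x)
        have h5 : ‖u a x‖ ≤ ‖(fun a => u a x : Fin D → ℂ)‖ := norm_le_pi_norm (fun a => u a x) a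
        have h6 : 1 ≤ Real.exp P * Real.exp (-φ x) := by
          rw [← Real.exp_add]
          refine Real.one_le_exp ?_
          have := (abs_le.1 (hP x hxK)).2
          linarith
        rw [norm_mul, mul_pow]
        have h7 : ‖c x‖ ^ 2 ≤ B ^ 2 := by
          have := norm_nonneg (c x)
          nlinarith
        have h8 : ‖u a x‖ ^ 2 ≤ C * M.nsq x (fun a => u a x) := by
          have := norm_nonneg (u a x)
          nlinarith
        calc ‖c x‖ ^ 2 * ‖u a x‖ ^ 2 ≤ B ^ 2 * (C * M.nsq x (fun a => u a x)) :=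
              mul_le_mul h7 h8 (by positivity) (by positivity)
          _ = B ^ 2 * (C * M.nsq x (fun a => u a x)) * 1 := by ring
          _ ≤ B ^ 2 * (C * M.nsq x (fun a => u a x)) * (Real.exp P * Real.exp (-φ x)) := by
              gcongr
          _ = _ := by ring
      · rw [hcK x hxK, zero_mul, norm_zero]
        have : 0 ≤ B ^ 2 * C * Real.exp P *
          (M.nsq x (fun a => u a x) * Real.exp (-φ x)) := by positivity
        simpa using this
    refine ne_top_of_le_ne_top ?_ (setLIntegral_mono' hW.measurableSet hle)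
    rw [lintegral_const_mul' _ _ ENNReal.ofReal_ne_top]
    exact ENNReal.mul_ne_top ENNReal.ofReal_ne_top h2

omit [NormedSpace ℂ E] [FiniteDimensional ℂ E] in
private theorem hcut_integrable (μ : Measure E) [IsFiniteMeasureOnCompacts μ] {K : Set E}
    (hK : IsCompact K) {F : E → ℂ} (hF : MemLp F 2 μ) (h0 : ∀ x, x ∉ K → F x = 0) :
    Integrable F μ := by
  haveI : IsFiniteMeasure (μ.restrict K) :=
    ⟨by rw [Measure.restrict_apply_univ]; exact hK.measure_lt_top⟩
  have h1 : MemLp F 2 (μ.restrict K) := hF.restrict K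
  have h2 : Integrable F (μ.restrict K) := h1.integrable (by norm_num)
  refine (integrableOn_iff_integrable_of_support_subset ?_).1 h2
  intro x hx
  by_contra h
  exact hx (h0 x h)

private theorem hcut_ip_int (M : HMet W b D) (hW : IsOpen W) (μ : Measure E)
    [IsFiniteMeasureOnCompacts μ] {φ σ : E → ℝ}
    (hφ : ContinuousOn φ W) (hσ : ContinuousOn σ W) {v : Fin D → E → ℂ}
    (hv : ∀ a, AEStronglyMeasurable (v a) (μ.restrict W)) (h2 : M.L2 μ φ v ≠ ⊤)
    {w : Fin D → E → ℂ} (hw : ∀ c, SCW W (w c)) :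
    Integrable (fun x => ip (M.H x) (fun c => w c x) (fun a => v a x) *
      (Real.exp (-σ x) : ℂ)) μ := by
  have e : (fun x => ip (M.H x) (fun c => w c x) (fun a => v a x) * (Real.exp (-σ x) : ℂ)) =
      fun x => ∑ a, ∑ c, conj (conj (M.H x a c * w c x * (Real.exp (-σ x) : ℂ)) * v a x) := by
    funext x
    unfold ip
    rw [Finset.sum_mul]
    refine Finset.sum_congr rfl fun a _ => ?_
    rw [Finset.sum_mul]
    refine Finset.sum_congr rfl fun c _ => ?_
    rw [map_mul, Complex.conj_conj]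
    ring
  rw [e]
  refine integrable_finsetSum _ fun a _ => integrable_finsetSum _ fun c _ => ?_
  have h0 : ∀ x, x ∉ tsupport (w c) →
      M.H x a c * w c x * (Real.exp (-σ x) : ℂ) = 0 := by
    intro x hx
    rw [image_eq_zero_of_notMem_tsupport hx]
    simp
  have hC : Continuous fun x => M.H x a c * w c x * (Real.exp (-σ x) : ℂ) := by
    refine hcut_cont_ext hW ?_ (isClosed_tsupport (w c)) (hw c).2.2 h0
    have h3 : ContinuousOn (fun x => M.H x a c) W := (M.smH a c).continuousOn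
    have h4 : ContinuousOn (w c) W := (hw c).1.continuous.continuousOn
    have h5 : ContinuousOn (fun x => (Real.exp (-σ x) : ℂ)) W :=
      Complex.continuous_ofReal.comp_continuousOn (Real.continuous_exp.comp_continuousOn hσ.neg)
    exact (h3.mul h4).mul h5
  have hC' : Continuous fun x => conj (M.H x a c * w c x * (Real.exp (-σ x) : ℂ)) :=
    Complex.continuous_conj.comp hC
  have h0' : ∀ x, x ∉ tsupport (w c) →
      conj (M.H x a c * w c x * (Real.exp (-σ x) : ℂ)) = 0 := by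
    intro x hx
    rw [h0 x hx, map_zero]
  have h6 := hcut_loc M hW μ hφ hv h2 (hw c).2.1 (hw c).2.2 hC' h0' a
  have h7 := hcut_integrable μ (hw c).2.1 h6 fun x hx => by rw [h0' x hx, zero_mul]
  exact (Complex.conjCLE : ℂ →L[ℝ] ℂ).integrable_comp h7

end HCutInt

section HCutDer

variable {E : Type} [NormedAddCommGroup E] [NormedSpace ℂ E]

private theorem hcut_da {F : E → ℂ} (hF : ContDiff ℝ ∞ F) (x : E) : DifferentiableAt ℝ F x :=
  hF.contDiffAt.differentiableAt (by simp)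

private theorem hcut_fd {F : E → ℂ} (hF : ContDiff ℝ ∞ F) (v : E) :
    ContDiff ℝ ∞ (fun x => fderiv ℝ F x v) := by
  have h : ContDiff ℝ ∞ (fderiv ℝ F) := hF.fderiv_right (m := ∞) (by simp)
  exact h.clm_apply contDiff_const

private theorem hcut_dzb_smooth {F : E → ℂ} (hF : ContDiff ℝ ∞ F) (v : E) :
    ContDiff ℝ ∞ (dzb v F) := by
  have h1 := hcut_fd hF v
  have h2 := hcut_fd hF (I • v)
  have : dzb v F = fun x => (fderiv ℝ F x v + I * fderiv ℝ F x (I • v)) / 2 := rfl
  rw [this]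
  exact (h1.add (contDiff_const.mul h2)).div_const 2

private theorem hcut_dz_smooth {F : E → ℂ} (hF : ContDiff ℝ ∞ F) (v : E) :
    ContDiff ℝ ∞ (dz v F) := by
  have h1 := hcut_fd hF v
  have h2 := hcut_fd hF (I • v)
  have : dz v F = fun x => (fderiv ℝ F x v - I * fderiv ℝ F x (I • v)) / 2 := rfl
  rw [this]
  exact (h1.sub (contDiff_const.mul h2)).div_const 2

private theorem hcut_fd0 {F : E → ℂ} {x : E} (hx : x ∉ tsupport F) : fderiv ℝ F x = 0 :=
  fderiv_of_notMem_tsupport ℝ hx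

private theorem hcut_dzb0 {F : E → ℂ} {x : E} (hx : x ∉ tsupport F) (v : E) : dzb v F x = 0 := by
  simp [dzb, hcut_fd0 hx]

private theorem hcut_dz0 {F : E → ℂ} {x : E} (hx : x ∉ tsupport F) (v : E) : dz v F x = 0 := by
  simp [dz, hcut_fd0 hx]

private theorem hcut_dzb_mul {F G : E → ℂ} (hF : ContDiff ℝ ∞ F) (hG : ContDiff ℝ ∞ G) (v x : E) :
    dzb v (fun y => F y * G y) x = dzb v F x * G x + F x * dzb v G x := by
  have h := fderiv_fun_mul (hcut_da hF x) (hcut_da hG x)
  simp only [dzb, h, add_apply, smul_apply, smul_eq_mul]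
  ring

private theorem hcut_real {f : E → ℝ} (hf : ContDiff ℝ ∞ f) :
    ContDiff ℝ ∞ (fun y => (f y : ℂ)) :=
  Complex.ofRealCLM.contDiff.comp hf

private theorem hcut_fd_real {f : E → ℝ} (hf : ContDiff ℝ ∞ f) (x v : E) :
    fderiv ℝ (fun y => (f y : ℂ)) x v = ((fderiv ℝ f x v : ℝ) : ℂ) := by
  have h1 : HasFDerivAt f (fderiv ℝ f x) x := ((hf.differentiable (by simp)) x).hasFDerivAt
  have h2 := Complex.ofRealCLM.hasFDerivAt.comp x h1
  have h3 : fderiv ℝ (fun y => (f y : ℂ)) x = Complex.ofRealCLM.comp (fderiv ℝ f x) := h2.fderiv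
  rw [h3]
  rfl

private theorem hcut_dzb_real {f : E → ℝ} (hf : ContDiff ℝ ∞ f) (v x : E) :
    dzb v (fun y => (f y : ℂ)) x = conj (dz v (fun y => (f y : ℂ)) x) := by
  simp only [dzb, dz, hcut_fd_real hf, map_div₀, map_sub, map_mul, conj_I, conj_ofReal]
  have : conj (2 : ℂ) = 2 := Complex.conj_ofNat 2
  rw [this]
  ring

private theorem hcut_tsupp_real (f : E → ℝ) :
    tsupport (fun y => (f y : ℂ)) = tsupport f := by
  have : Function.support (fun y => (f y : ℂ)) = Function.support f := by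
    ext x
    simp
  unfold tsupport
  rw [this]

private theorem hcut_SCW_mul {W : Set E} {c F : E → ℂ} (hc : ContDiff ℝ ∞ c) (hF : SCW W F) :
    SCW W (fun x => c x * F x) := by
  refine ⟨hc.mul hF.1, hF.2.1.mul_left, ?_⟩
  exact (closure_mono fun x hx => by
    intro h
    apply hx
    change c x * F x = 0
    rw [h, mul_zero]).trans hF.2.2

private theorem hcut_SCW_dzb {W : Set E} {F : E → ℂ} (hF : SCW W F) (v : E) :
    SCW W (dzb v F) := by
  have h : tsupport (dzb v F) ⊆ tsupport F := by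
    refine closure_minimal (fun x hx => ?_) (isClosed_tsupport F)
    by_contra h
    exact hx (hcut_dzb0 h v)
  exact ⟨hcut_dzb_smooth hF.1 v, hF.2.1.mono' (subset_closure.trans h), h.trans hF.2.2⟩

private theorem hcut_norm_dz_le {ι : Type} [Fintype ι] (b : Module.Basis ι ℂ E) (η : E → ℝ)
    (x : E) (k : ι) : ‖dz (b k) (fun y => (η y : ℂ)) x‖ ^ 2 ≤ gradsq b η x := by
  unfold gradsq
  exact Finset.single_le_sum (f := fun k => ‖dz (b k) (fun y => (η y : ℂ)) x‖ ^ 2)
    (fun i _ => by positivity) (Finset.mem_univ k)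

end HCutDer

section HCutStep

variable {E : Type} [NormedAddCommGroup E] [NormedSpace ℂ E] [FiniteDimensional ℂ E]
  [MeasurableSpace E] [BorelSpace E] {W : Set E} {ι : Type} [Fintype ι]
  {b : Module.Basis ι ℂ E} {D : ℕ}

/-- the weak equation for the cut off form -/
private theorem hcut_LL (M : HMet W b D) (hW : IsOpen W) (μ : Measure E)
    [IsFiniteMeasureOnCompacts μ] {σ χ : E → ℝ} (hσ : ContinuousOn σ W) (hχ : ContinuousOn χ W)
    {g : ι → Fin D → E → ℂ} (hg : ∀ k a, AEStronglyMeasurable (g k a) (μ.restrict W))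
    (hg2 : ∀ k, M.L2 μ σ (g k) ≠ ⊤)
    {l : Fin D → E → ℂ} (hl : ∀ a, AEStronglyMeasurable (l a) (μ.restrict W))
    (hl2 : M.L2 μ χ l ≠ ⊤) (hLL : M.WeakLL μ σ g l)
    {η : E → ℝ} (hη : ContDiff ℝ ∞ η) :
    M.WeakLL μ σ (fun k a x => (η x : ℂ) * g k a x)
      (fun a x => (η x : ℂ) * l a x + ∑ k, dz (b k) (fun y => (η y : ℂ)) x * g k a x) := by
  intro u hu
  have hηC : ContDiff ℝ ∞ (fun y => (η y : ℂ)) := hcut_real hη
  have h1 := hLL (fun a x => (η x : ℂ) * u a x) (fun a => hcut_SCW_mul hηC (hu a))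
  have hA : Integrable (fun x => ip (M.H x) (fun a => (η x : ℂ) * u a x) (fun a => l a x) *
      (Real.exp (-σ x) : ℂ)) μ :=
    hcut_ip_int M hW μ hχ hσ hl hl2 (w := fun a x => (η x : ℂ) * u a x)
      (fun a => hcut_SCW_mul hηC (hu a))
  have hB : ∀ k, Integrable (fun x => ip (M.H x)
      (fun a => dzb (b k) (fun y => (η y : ℂ)) x * u a x) (fun a => g k a x) *
      (Real.exp (-σ x) : ℂ)) μ := fun k =>
    hcut_ip_int M hW μ hσ hσ (hg k) (hg2 k)
      (w := fun a x => dzb (b k) (fun y => (η y : ℂ)) x * u a x)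
      (fun a => hcut_SCW_mul (hcut_dzb_smooth hηC (b k)) (hu a))
  have hC : ∀ k, Integrable (fun x => ip (M.H x)
      (fun a => (η x : ℂ) * dzb (b k) (u a) x) (fun a => g k a x) *
      (Real.exp (-σ x) : ℂ)) μ := fun k =>
    hcut_ip_int M hW μ hσ hσ (hg k) (hg2 k)
      (w := fun a x => (η x : ℂ) * dzb (b k) (u a) x)
      (fun a => hcut_SCW_mul hηC (hcut_SCW_dzb (hu a) (b k)))
  have hBs := integrable_finsetSum (Finset.univ : Finset ι) fun k _ => hB k
  have hCs := integrable_finsetSum (Finset.univ : Finset ι) fun k _ => hC k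
  have e1 : (fun x => ip (M.H x) (fun a => u a x)
      (fun a => (η x : ℂ) * l a x + ∑ k, dz (b k) (fun y => (η y : ℂ)) x * g k a x) *
      (Real.exp (-σ x) : ℂ)) = fun x =>
      ip (M.H x) (fun a => (η x : ℂ) * u a x) (fun a => l a x) * (Real.exp (-σ x) : ℂ) +
      ∑ k, ip (M.H x) (fun a => dzb (b k) (fun y => (η y : ℂ)) x * u a x) (fun a => g k a x) *
        (Real.exp (-σ x) : ℂ) := by
    funext x
    rw [hcut_ip_add_right, hcut_ip_sum_right, add_mul, Finset.sum_mul]
    congr 1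
    · have h2 := hcut_ip_smul (M.H x) 1 (η x : ℂ) (fun a => u a x) (fun a => l a x)
      have h3 := hcut_ip_smul (M.H x) (η x : ℂ) 1 (fun a => u a x) (fun a => l a x)
      simp only [one_mul, conj_ofReal, map_one, mul_one] at h2 h3
      rw [h2, h3]
    · refine Finset.sum_congr rfl fun k _ => ?_
      have h3 := hcut_ip_smul (M.H x) (dzb (b k) (fun y => (η y : ℂ)) x) 1
        (fun a => u a x) (fun a => g k a x)
      simp only [one_mul, map_one, mul_one] at h3
      rw [h3, hcut_dzb_real hη]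
  have e2 : (fun x => (∑ k, ip (M.H x) (fun a => dzb (b k) (fun y => (η y : ℂ) * u a y) x)
      (fun a => g k a x)) * (Real.exp (-σ x) : ℂ)) = fun x =>
      (∑ k, ip (M.H x) (fun a => dzb (b k) (fun y => (η y : ℂ)) x * u a x)
        (fun a => g k a x) * (Real.exp (-σ x) : ℂ)) +
      ∑ k, ip (M.H x) (fun a => (η x : ℂ) * dzb (b k) (u a) x) (fun a => g k a x) *
        (Real.exp (-σ x) : ℂ) := by
    funext x
    rw [Finset.sum_mul, ← Finset.sum_add_distrib]
    refine Finset.sum_congr rfl fun k _ => ?_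
    rw [← add_mul, ← hcut_ip_add_left]
    congr 2
    funext a
    exact hcut_dzb_mul hηC (hu a).1 (b k) x
  have e3 : (fun x => (∑ k, ip (M.H x) (fun a => dzb (b k) (u a) x)
      (fun a => (η x : ℂ) * g k a x)) * (Real.exp (-σ x) : ℂ)) = fun x =>
      ∑ k, ip (M.H x) (fun a => (η x : ℂ) * dzb (b k) (u a) x) (fun a => g k a x) *
        (Real.exp (-σ x) : ℂ) := by
    funext x
    rw [Finset.sum_mul]
    refine Finset.sum_congr rfl fun k _ => ?_
    have h2 := hcut_ip_smul (M.H x) 1 (η x : ℂ) (fun a => dzb (b k) (u a) x) (fun a => g k a x)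
    have h3 := hcut_ip_smul (M.H x) (η x : ℂ) 1 (fun a => dzb (b k) (u a) x) (fun a => g k a x)
    simp only [one_mul, conj_ofReal, map_one, mul_one] at h2 h3
    rw [h2, h3]
  have h1' : ∫ x, ip (M.H x) (fun a => (η x : ℂ) * u a x) (fun a => l a x) *
      (Real.exp (-σ x) : ℂ) ∂μ = -∫ x, (∑ k, ip (M.H x)
        (fun a => dzb (b k) (fun y => (η y : ℂ) * u a y) x) (fun a => g k a x)) *
        (Real.exp (-σ x) : ℂ) ∂μ := h1
  rw [e2, integral_add hBs hCs] at h1'
  rw [e1, e3, integral_add hA hBs, h1']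
  ring

/-- the weak exterior derivative of the cut off form -/
private theorem hcut_ext (M : HMet W b D) (hW : IsOpen W) (μ : Measure E)
    [IsFiniteMeasureOnCompacts μ] {σ : E → ℝ} (hσ : ContinuousOn σ W)
    {g : ι → Fin D → E → ℂ} (hg : ∀ k a, AEStronglyMeasurable (g k a) (μ.restrict W))
    (hg2 : ∀ k, M.L2 μ σ (g k) ≠ ⊤) (hcl : WeakClosed W μ b g)
    {η : E → ℝ} (hη : ContDiff ℝ ∞ η) (j k : ι) (a : Fin D) (ψ : E → ℂ) (hψ : SCW W ψ) :
    - ∫ x, ((η x : ℂ) * g k a x * dzb (b j) ψ x - (η x : ℂ) * g j a x * dzb (b k) ψ x) ∂μ =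
      ∫ x, (dzb (b j) (fun y => (η y : ℂ)) x * g k a x -
        dzb (b k) (fun y => (η y : ℂ)) x * g j a x) * ψ x ∂μ := by
  have hηC : ContDiff ℝ ∞ (fun y => (η y : ℂ)) := hcut_real hη
  have h1 := hcl j k a (fun x => (η x : ℂ) * ψ x) (hcut_SCW_mul hηC hψ)
  have hint : ∀ (i : ι) (c : E → ℂ), Continuous c → (∀ x, x ∉ tsupport ψ → c x = 0) →
      Integrable (fun x => c x * g i a x) μ := by
    intro i c hc h0
    exact hcut_integrable μ hψ.2.1 (hcut_loc M hW μ hσ (hg i) (hg2 i) hψ.2.1 hψ.2.2 hc h0 a)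
      fun x hx => by rw [h0 x hx, zero_mul]
  have hP : ∀ i i' : ι, Integrable
      (fun x => (dzb (b i') (fun y => (η y : ℂ)) x * ψ x) * g i a x) μ := fun i i' =>
    hint i _ ((hcut_dzb_smooth hηC (b i')).continuous.mul hψ.1.continuous) fun x hx => by
      rw [image_eq_zero_of_notMem_tsupport hx, mul_zero]
  have hQ : ∀ i i' : ι, Integrable
      (fun x => ((η x : ℂ) * dzb (b i') ψ x) * g i a x) μ := fun i i' =>
    hint i _ (hηC.continuous.mul (hcut_dzb_smooth hψ.1 (b i')).continuous) fun x hx => by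
      rw [hcut_dzb0 hx, mul_zero]
  have e1 : ∀ i i' : ι, (fun x => g i a x * dzb (b i') (fun x => (η x : ℂ) * ψ x) x) =
      fun x => (dzb (b i') (fun y => (η y : ℂ)) x * ψ x) * g i a x +
        ((η x : ℂ) * dzb (b i') ψ x) * g i a x := by
    intro i i'
    funext x
    rw [hcut_dzb_mul hηC hψ.1]
    ring
  rw [e1, e1, integral_add (hP k j) (hQ k j), integral_add (hP j k) (hQ j k)] at h1
  have e2 : (fun x => (η x : ℂ) * g k a x * dzb (b j) ψ x -
      (η x : ℂ) * g j a x * dzb (b k) ψ x) = fun x =>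
      ((η x : ℂ) * dzb (b j) ψ x) * g k a x - ((η x : ℂ) * dzb (b k) ψ x) * g j a x := by
    funext x
    ring
  have e3 : (fun x => (dzb (b j) (fun y => (η y : ℂ)) x * g k a x -
      dzb (b k) (fun y => (η y : ℂ)) x * g j a x) * ψ x) = fun x =>
      (dzb (b j) (fun y => (η y : ℂ)) x * ψ x) * g k a x -
      (dzb (b k) (fun y => (η y : ℂ)) x * ψ x) * g j a x := by
    funext x
    ring
  rw [e2, e3, integral_sub (hQ k j) (hQ j k), integral_sub (hP k j) (hP j k)]
  linear_combination (-1 : ℂ) * h1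

end HCutStep

section HCutEst

variable {E : Type} [NormedAddCommGroup E] [NormedSpace ℂ E] [FiniteDimensional ℂ E]
  [MeasurableSpace E] [BorelSpace E] {W : Set E} {ι : Type} [Fintype ι]
  {b : Module.Basis ι ℂ E} {D : ℕ}

/-- the error density -/
private noncomputable def hcutF (M : HMet W b D) (θ χ η : E → ℝ) (g : ι → Fin D → E → ℂ)
    (x : E) : ℝ≥0∞ :=
  Set.indicator {x | gradsq b η x ≠ 0} (fun x => ENNReal.ofReal
    ((∑ k, M.nsq x (fun a => g k a x)) * Real.exp (-(χ x - θ x)))) x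

private theorem hcut_nsq_nonneg' (M : HMet W b D) {x : E} (hx : x ∈ W) (g : ι → Fin D → E → ℂ) :
    0 ≤ ∑ k, M.nsq x (fun a => g k a x) :=
  Finset.sum_nonneg fun k _ => hcut_nsq_nonneg M hx _

/-- a term bounded by `A * gradsq * ∑ nsq` has weighted size at most `A * C * F` -/
private theorem hcut_density (M : HMet W b D) {θ χ η : E → ℝ} {g : ι → Fin D → E → ℂ} {C A : ℝ}
    (hA : 0 ≤ A) (hC : 0 ≤ C) {x : E} (hx : x ∈ W)
    (hηC : gradsq b η x ≤ C * Real.exp (θ x)) {y : ℝ}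
    (hy : y ≤ A * (gradsq b η x * ∑ k, M.nsq x (fun a => g k a x))) :
    ENNReal.ofReal (y * Real.exp (-χ x)) ≤
      ENNReal.ofReal (A * C) * hcutF M θ χ η g x := by
  have hS := hcut_nsq_nonneg' M hx g
  unfold hcutF
  by_cases h : gradsq b η x = 0
  · rw [h, zero_mul, mul_zero] at hy
    have : y * Real.exp (-χ x) ≤ 0 := mul_nonpos_of_nonpos_of_nonneg hy (Real.exp_pos _).le
    rw [ENNReal.ofReal_of_nonpos this]
    exact bot_le
  · rw [Set.indicator_of_mem (show x ∈ {x | gradsq b η x ≠ 0} from h),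
      ← ENNReal.ofReal_mul (by positivity)]
    refine ENNReal.ofReal_le_ofReal ?_
    have h1 : y ≤ A * (C * Real.exp (θ x) * ∑ k, M.nsq x (fun a => g k a x)) := by
      refine hy.trans ?_
      gcongr
    calc y * Real.exp (-χ x) ≤
        A * (C * Real.exp (θ x) * ∑ k, M.nsq x (fun a => g k a x)) * Real.exp (-χ x) :=
          mul_le_mul_of_nonneg_right h1 (Real.exp_pos _).le
      _ = A * C * ((∑ k, M.nsq x (fun a => g k a x)) * (Real.exp (θ x) * Real.exp (-χ x))) := by
          ring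
      _ = _ := by
          rw [← Real.exp_add]
          congr 3
          ring_nf

/-- pointwise bound of the right hand side of the cut off equation -/
private theorem hcut_l_le (M : HMet W b D) {x : E} (hx : x ∈ W) {η : E → ℝ}
    (h01 : 0 ≤ η x ∧ η x ≤ 1) {t : ℝ} (ht : 0 < t) (g : ι → Fin D → E → ℂ)
    (l : Fin D → E → ℂ) :
    M.nsq x (fun a => (η x : ℂ) * l a x + ∑ k, dz (b k) (fun y => (η y : ℂ)) x * g k a x) ≤
      (1 + t) * M.nsq x (fun a => l a x) +
      (1 + t⁻¹) * (gradsq b η x * ∑ k, M.nsq x (fun a => g k a x)) := by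
  have h1 := hcut_nsq_add M hx ht (fun a => (η x : ℂ) * l a x)
    (fun a => ∑ k, dz (b k) (fun y => (η y : ℂ)) x * g k a x)
  have h2 := M.nsq_sum_le x hx (fun k => dz (b k) (fun y => (η y : ℂ)) x) (fun k a => g k a x)
  have h3 := hcut_nsq_smul M x (η x : ℂ) (fun a => l a x)
  have h4 := hcut_nsq_nonneg M hx (fun a => l a x)
  have h5 : ‖(η x : ℂ)‖ ^ 2 ≤ 1 := by
    rw [Complex.norm_real, Real.norm_of_nonneg h01.1]
    nlinarith [h01.1, h01.2]
  have h6 : M.nsq x (fun a => (η x : ℂ) * l a x) ≤ M.nsq x (fun a => l a x) := by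
    rw [h3]
    nlinarith
  have ht' : 0 < t⁻¹ := inv_pos.2 ht
  unfold gradsq
  calc _ ≤ _ := h1
    _ ≤ _ := by
      gcongr

/-- pointwise bound of the weak exterior derivative -/
private theorem hcut_s_le (M : HMet W b D) {x : E} (hx : x ∈ W) {η : E → ℝ}
    (hη : ContDiff ℝ ∞ η) (g : ι → Fin D → E → ℂ) (j k : ι) :
    M.nsq x (fun a => dzb (b j) (fun y => (η y : ℂ)) x * g k a x -
        dzb (b k) (fun y => (η y : ℂ)) x * g j a x) ≤
      4 * (gradsq b η x * ∑ k, M.nsq x (fun a => g k a x)) := by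
  have e : (fun a => dzb (b j) (fun y => (η y : ℂ)) x * g k a x -
      dzb (b k) (fun y => (η y : ℂ)) x * g j a x) =
      fun a => dzb (b j) (fun y => (η y : ℂ)) x * g k a x +
      (-dzb (b k) (fun y => (η y : ℂ)) x) * g j a x := by
    funext a
    ring
  have h1 := hcut_nsq_add M hx one_pos (fun a => dzb (b j) (fun y => (η y : ℂ)) x * g k a x)
    (fun a => (-dzb (b k) (fun y => (η y : ℂ)) x) * g j a x)
  rw [hcut_nsq_smul, hcut_nsq_smul, norm_neg, hcut_dzb_real hη, hcut_dzb_real hη,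
    Complex.norm_conj, Complex.norm_conj] at h1
  rw [e, hcut_dzb_real hη, hcut_dzb_real hη]
  have hG : ∀ i, ‖dz (b i) (fun y => (η y : ℂ)) x‖ ^ 2 ≤ gradsq b η x :=
    hcut_norm_dz_le b η x
  have hN : ∀ i, M.nsq x (fun a => g i a x) ≤ ∑ k, M.nsq x (fun a => g k a x) := fun i =>
    Finset.single_le_sum (f := fun k => M.nsq x (fun a => g k a x))
      (fun i _ => hcut_nsq_nonneg M hx _) (Finset.mem_univ i)
  have hN0 : ∀ i, 0 ≤ M.nsq x (fun a => g i a x) := fun i => hcut_nsq_nonneg M hx _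
  have hG0 : 0 ≤ gradsq b η x := le_trans (by positivity) (hG j)
  have h2 : ∀ i i', ‖dz (b i) (fun y => (η y : ℂ)) x‖ ^ 2 * M.nsq x (fun a => g i' a x) ≤
      gradsq b η x * ∑ k, M.nsq x (fun a => g k a x) := fun i i' =>
    mul_le_mul (hG i) (hN i') (hN0 i') hG0
  have h3 := h2 j k
  have h4 := h2 k j
  rw [inv_one] at h1
  linarith

private theorem hcut_gradsq_cont {η : E → ℝ} (hη : ContDiff ℝ ∞ η) :
    Continuous (gradsq b η) := by
  unfold gradsq
  refine continuous_finsetSum _ fun k _ => ?_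
  exact ((hcut_dz_smooth (hcut_real hη) (b k)).continuous.norm).pow 2

/-- measurability of weighted norms -/
private theorem hcut_meas (M : HMet W b D) (hW : IsOpen W) (μ : Measure E) {φ : E → ℝ}
    (hφ : ContinuousOn φ W) {u : Fin D → E → ℂ}
    (hu : ∀ a, AEStronglyMeasurable (u a) (μ.restrict W)) :
    AEStronglyMeasurable (fun x => M.nsq x (fun a => u a x) * Real.exp (-φ x))
      (μ.restrict W) := by
  have h1 := hcut_sc (E := E)
  exact (hcut_aesm_nsq M hW μ u hu).mul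
    ((Real.continuous_exp.comp_continuousOn hφ.neg).aestronglyMeasurable hW.measurableSet)

/-- measurability of the error density -/
private theorem hcutF_meas (M : HMet W b D) (hW : IsOpen W) (μ : Measure E) {θ χ η : E → ℝ}
    (hθ : ContinuousOn θ W) (hχ : ContinuousOn χ W) (hη : ContDiff ℝ ∞ η)
    {g : ι → Fin D → E → ℂ} (hg : ∀ k a, AEStronglyMeasurable (g k a) (μ.restrict W)) :
    AEMeasurable (hcutF M θ χ η g) (μ.restrict W) := by
  have h1 : MeasurableSet {x | gradsq b η x ≠ 0} :=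
    (isOpen_ne_fun (hcut_gradsq_cont (b := b) hη) continuous_const).measurableSet
  have h2 : AEStronglyMeasurable (fun x => (∑ k, M.nsq x (fun a => g k a x)) *
      Real.exp (-(χ x - θ x))) (μ.restrict W) := by
    have e : (fun x => (∑ k, M.nsq x (fun a => g k a x)) * Real.exp (-(χ x - θ x))) =
        fun x => ∑ k, M.nsq x (fun a => g k a x) * Real.exp (-(χ x - θ x)) := by
      funext x
      rw [Finset.sum_mul]
    rw [e]
    exact Finset.aestronglyMeasurable_fun_sum _ fun k _ =>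
      hcut_meas M hW μ (hχ.sub hθ) (hg k)
  exact (h2.aemeasurable.ennreal_ofReal).indicator h1

end HCutEst

section HCutMain

variable {E : Type} [NormedAddCommGroup E] [NormedSpace ℂ E] [FiniteDimensional ℂ E]
  [MeasurableSpace E] [BorelSpace E] {W : Set E} {ι : Type} [Fintype ι]
  {b : Module.Basis ι ℂ E} {D : ℕ}

/-- the a priori inequality for one cut off form -/
private theorem hcut_step (M : HMet W b D) (hW : IsOpen W) (μ : Measure E)
    [μ.IsAddHaarMeasure]
    (θ χ : E → ℝ) (hθ : ContDiffOn ℝ ∞ θ W) (hχ : ContDiffOn ℝ ∞ χ W) (κ : E → ℝ)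
    (hκ : ContinuousOn κ W) (hκ0 : ∀ x ∈ W, 0 ≤ κ x) (k₀ : ι)
    (hcurv : ∀ x ∈ W, ∀ f : ι → Fin D → ℂ, κ x * M.nsq x (f k₀) ≤ M.curv x f)
    (hlev : ∀ x ∈ W, ∀ f : ι → Fin D → ℂ,
      2 * gradsq b θ x * ∑ k, M.nsq x (f k) ≤ levH b (M.H x) χ x f)
    (g : ι → Fin D → E → ℂ) (hg : ∀ k a, AEStronglyMeasurable (g k a) (μ.restrict W))
    (hg2 : ∀ k, M.L2 μ (fun y => χ y - θ y) (g k) ≠ ⊤)
    (l : Fin D → E → ℂ) (hl : ∀ a, AEStronglyMeasurable (l a) (μ.restrict W))
    (hl2 : M.L2 μ χ l ≠ ⊤)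
    (hLL : M.WeakLL μ (fun y => χ y - θ y) g l) (hcl : WeakClosed W μ b g)
    {η : E → ℝ} (hη : ContDiff ℝ ∞ η) (hηc : HasCompactSupport η) (hηW : tsupport η ⊆ W)
    (h01 : ∀ x, 0 ≤ η x ∧ η x ≤ 1) {C : ℝ} (hC : 0 ≤ C)
    (hηC : ∀ x ∈ W, gradsq b η x ≤ C * Real.exp (θ x)) {t : ℝ} (ht : 0 < t) :
    ∫⁻ x in W, ENNReal.ofReal (κ x * M.nsq x (fun a => (η x : ℂ) * g k₀ a x) *
      Real.exp (-χ x)) ∂μ ≤
      2 * (ENNReal.ofReal (1 + t) * M.L2 μ χ l + ENNReal.ofReal ((1 + t⁻¹) * C) *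
        ∫⁻ x in W, hcutF M θ χ η g x ∂μ) +
      (1 / 2) * ∑ _j : ι, ∑ _k : ι, ENNReal.ofReal (4 * C) *
        ∫⁻ x in W, hcutF M θ χ η g x ∂μ := by
  have hσ : ContinuousOn (fun y => χ y - θ y) W := hχ.continuousOn.sub hθ.continuousOn
  have hηR : ContDiff ℝ ∞ (fun y => (η y : ℂ)) := hcut_real hη
  have hsupp : ∀ x, x ∉ tsupport η → (η x : ℂ) = 0 := by
    intro x hx
    rw [image_eq_zero_of_notMem_tsupport hx, Complex.ofReal_zero]
  have hdz0 : ∀ k, ∀ x, x ∉ tsupport η → dz (b k) (fun y => (η y : ℂ)) x = 0 := by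
    intro k x hx
    exact hcut_dz0 (by rwa [hcut_tsupp_real]) _
  have hdzb0 : ∀ k, ∀ x, x ∉ tsupport η → dzb (b k) (fun y => (η y : ℂ)) x = 0 := by
    intro k x hx
    exact hcut_dzb0 (by rwa [hcut_tsupp_real]) _
  have hLL' := hcut_LL M hW μ hσ hχ.continuousOn hg hg2 hl hl2 hLL hη
  have main := M.apriori_compact hW μ θ χ hθ hχ κ hκ hκ0 k₀ hcurv hlev (tsupport η) hηc hηW
    (fun k a x => (η x : ℂ) * g k a x)
    (fun k a => hcut_loc M hW μ hσ (hg k) (hg2 k) hηc hηW hηR.continuous hsupp a)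
    (fun k a x hx => by
      change (η x : ℂ) * g k a x = 0
      rw [hsupp x hx, zero_mul])
    (fun a x => (η x : ℂ) * l a x + ∑ k, dz (b k) (fun y => (η y : ℂ)) x * g k a x)
    (fun a => (hcut_loc M hW μ hχ.continuousOn hl hl2 hηc hηW hηR.continuous hsupp a).add
      (memLp_finsetSum _ fun k _ => hcut_loc M hW μ hσ (hg k) (hg2 k) hηc hηW
        (hcut_dz_smooth hηR (b k)).continuous (hdz0 k) a))
    (fun a x hx => by
      change (η x : ℂ) * l a x + ∑ k, dz (b k) (fun y => (η y : ℂ)) x * g k a x = 0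
      rw [hsupp x hx, zero_mul, zero_add]
      exact Finset.sum_eq_zero fun k _ => by rw [hdz0 k x hx, zero_mul])
    (fun j k a x => dzb (b j) (fun y => (η y : ℂ)) x * g k a x -
        dzb (b k) (fun y => (η y : ℂ)) x * g j a x)
    (fun j k a => (hcut_loc M hW μ hσ (hg k) (hg2 k) hηc hηW
        (hcut_dzb_smooth hηR (b j)).continuous (hdzb0 j) a).sub
      (hcut_loc M hW μ hσ (hg j) (hg2 j) hηc hηW
        (hcut_dzb_smooth hηR (b k)).continuous (hdzb0 k) a))
    (fun j k a x hx => by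
      rw [hdzb0 j x hx, hdzb0 k x hx, zero_mul, zero_mul, sub_zero])
    hLL'
    (fun j k a ψ hψ => hcut_ext M hW μ hσ hg hg2 hcl hη j k a ψ hψ)
  refine main.trans (add_le_add (mul_le_mul_right ?_ _) (mul_le_mul_right ?_ _))
  · unfold HMet.L2
    have hmeas : AEMeasurable (fun x => ENNReal.ofReal (1 + t) *
        ENNReal.ofReal (M.nsq x (fun a => l a x) * Real.exp (-χ x))) (μ.restrict W) :=
      ((hcut_meas M hW μ hχ.continuousOn hl).aemeasurable.ennreal_ofReal).const_mul _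
    rw [← lintegral_const_mul' _ _ ENNReal.ofReal_ne_top,
      ← lintegral_const_mul' _ _ ENNReal.ofReal_ne_top, ← lintegral_add_left' hmeas]
    refine setLIntegral_mono' hW.measurableSet fun x hx => ?_
    have h1 := hcut_l_le M hx (h01 x) ht g l
    have h2 := hcut_nsq_nonneg M hx (fun a => l a x)
    have h3 : M.nsq x (fun a => (η x : ℂ) * l a x +
        ∑ k, dz (b k) (fun y => (η y : ℂ)) x * g k a x) * Real.exp (-χ x) ≤
        (1 + t) * (M.nsq x (fun a => l a x) * Real.exp (-χ x)) +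
        ((1 + t⁻¹) * (gradsq b η x * ∑ k, M.nsq x (fun a => g k a x))) *
          Real.exp (-χ x) := by
      have := mul_le_mul_of_nonneg_right h1 (Real.exp_pos (-χ x)).le
      linarith
    have ht' : 0 < t⁻¹ := inv_pos.2 ht
    have h4 := hcut_density M (θ := θ) (χ := χ) (η := η) (g := g) (A := 1 + t⁻¹)
      (by positivity) hC hx (hηC x hx) le_rfl
    calc ENNReal.ofReal _ ≤ ENNReal.ofReal _ := ENNReal.ofReal_le_ofReal h3
      _ ≤ ENNReal.ofReal ((1 + t) * (M.nsq x (fun a => l a x) * Real.exp (-χ x))) +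
          ENNReal.ofReal (((1 + t⁻¹) * (gradsq b η x * ∑ k, M.nsq x (fun a => g k a x))) *
          Real.exp (-χ x)) := ENNReal.ofReal_add_le
      _ ≤ _ := by
        rw [ENNReal.ofReal_mul (by positivity)]
        exact add_le_add le_rfl h4
  · refine Finset.sum_le_sum fun j _ => Finset.sum_le_sum fun k _ => ?_
    unfold HMet.L2
    rw [← lintegral_const_mul' _ _ ENNReal.ofReal_ne_top]
    refine setLIntegral_mono' hW.measurableSet fun x hx => ?_
    exact hcut_density M (by norm_num) hC hx (hηC x hx) (hcut_s_le M hx hη g j k)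

/-- the error tends to zero -/
private theorem hcut_err (M : HMet W b D) (hW : IsOpen W) (μ : Measure E)
    {θ χ : E → ℝ} (hθ : ContinuousOn θ W) (hχ : ContinuousOn χ W)
    {g : ι → Fin D → E → ℂ} (hg : ∀ k a, AEStronglyMeasurable (g k a) (μ.restrict W))
    (hg2 : ∀ k, M.L2 μ (fun y => χ y - θ y) (g k) ≠ ⊤)
    {η : ℕ → E → ℝ} (hη : ∀ m, ContDiff ℝ ∞ (η m))
    (h1 : ∀ K : Set E, IsCompact K → K ⊆ W →
      ∃ m₀, ∀ m, m₀ ≤ m → ∀ x ∈ K, η m =ᶠ[nhds x] 1) :
    Filter.Tendsto (fun m => ∫⁻ x in W, hcutF M θ χ (η m) g x ∂μ) Filter.atTop (nhds 0) := by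
  have h0 : (0 : ℝ≥0∞) = ∫⁻ x in W, (0 : ℝ≥0∞) ∂μ := by simp
  rw [h0]
  refine tendsto_lintegral_of_dominated_convergence' (fun x => ENNReal.ofReal
    ((∑ k, M.nsq x (fun a => g k a x)) * Real.exp (-(χ x - θ x))))
    (fun m => hcutF_meas M hW μ hθ hχ (hη m) hg) (fun m => ?_) ?_ ?_
  · refine Filter.Eventually.of_forall fun x => ?_
    exact Set.indicator_le_self _ _ x
  · have h2 : ∀ x ∈ W, ENNReal.ofReal
        ((∑ k, M.nsq x (fun a => g k a x)) * Real.exp (-(χ x - θ x))) ≤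
        ∑ k, ENNReal.ofReal (M.nsq x (fun a => g k a x) * Real.exp (-(χ x - θ x))) := by
      intro x hx
      rw [Finset.sum_mul, ENNReal.ofReal_sum_of_nonneg]
      intro k _
      exact mul_nonneg (hcut_nsq_nonneg M hx _) (Real.exp_pos _).le
    refine ne_top_of_le_ne_top ?_ (setLIntegral_mono' hW.measurableSet h2)
    have hm : ∀ k ∈ (Finset.univ : Finset ι), AEMeasurable (fun x => ENNReal.ofReal
        (M.nsq x (fun a => g k a x) * Real.exp (-(χ x - θ x)))) (μ.restrict W) := fun k _ =>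
      (hcut_meas M hW μ (hχ.sub hθ) (hg k)).aemeasurable.ennreal_ofReal
    rw [lintegral_finsetSum' _ hm]
    exact ENNReal.sum_ne_top.2 fun k _ => hg2 k
  · refine (ae_restrict_iff' hW.measurableSet).2 (Filter.Eventually.of_forall fun x hx => ?_)
    obtain ⟨m₀, hm⟩ := h1 {x} isCompact_singleton (by simpa using hx)
    refine tendsto_const_nhds.congr' ?_
    filter_upwards [Filter.eventually_ge_atTop m₀] with m hmm
    have h3 := hm m hmm x rfl
    have h4 : gradsq b (η m) x = 0 := by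
      unfold gradsq
      refine Finset.sum_eq_zero fun k _ => ?_
      have h5 : (fun y => (η m y : ℂ)) =ᶠ[nhds x] fun _ => 1 := by
        filter_upwards [h3] with y hy
        rw [hy]
        simp
      have h6 : fderiv ℝ (fun y => (η m y : ℂ)) x = 0 := by
        rw [h5.fderiv_eq]
        simp
      simp [dz, h6]
    unfold hcutF
    rw [Set.indicator_of_notMem]
    intro h
    exact h h4

end HCutMain

variable {E : Type} [NormedAddCommGroup E] [NormedSpace ℂ E] [FiniteDimensional ℂ E]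
  [MeasurableSpace E] [BorelSpace E] {W : Set E} {ι : Type} [Fintype ι]
  {b : Module.Basis ι ℂ E} {D : ℕ}

theorem HMet.apriori_weak (M : HMet W b D) (hW : IsOpen W) (μ : Measure E)
    [μ.IsAddHaarMeasure]
    (θ χ : E → ℝ) (hθ : ContDiffOn ℝ ∞ θ W) (hχ : ContDiffOn ℝ ∞ χ W) (κ : E → ℝ)
    (hκ : ContinuousOn κ W) (hκ0 : ∀ x ∈ W, 0 ≤ κ x) (k₀ : ι)
    (hcurv : ∀ x ∈ W, ∀ f : ι → Fin D → ℂ, κ x * M.nsq x (f k₀) ≤ M.curv x f)
    (hlev : ∀ x ∈ W, ∀ f : ι → Fin D → ℂ,
      2 * gradsq b θ x * ∑ k, M.nsq x (f k) ≤ levH b (M.H x) χ x f)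
    (hcut : HasCutoffs W b θ)
    (g : ι → Fin D → E → ℂ) (hg : ∀ k a, AEStronglyMeasurable (g k a) (μ.restrict W))
    (hg2 : ∀ k, M.L2 μ (fun y => χ y - θ y) (g k) ≠ ⊤)
    (l : Fin D → E → ℂ) (hl : ∀ a, AEStronglyMeasurable (l a) (μ.restrict W))
    (hl2 : M.L2 μ χ l ≠ ⊤)
    (hLL : M.WeakLL μ (fun y => χ y - θ y) g l) (hcl : WeakClosed W μ b g) :
    ∫⁻ x in W, ENNReal.ofReal (κ x * M.nsq x (fun a => g k₀ a x) * Real.exp (-χ x)) ∂μ ≤
      2 * M.L2 μ χ l := by
  obtain ⟨C₀, η, hη⟩ := hcut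
  set C : ℝ := max C₀ 0 with hCdef
  have hC : 0 ≤ C := le_max_right _ _
  have hηC : ∀ m, ∀ x ∈ W, gradsq b (η m) x ≤ C * Real.exp (θ x) := by
    intro m x hx
    refine ((hη m).2.2.2.2.1 x hx).trans ?_
    exact mul_le_mul_of_nonneg_right (le_max_left _ _) (Real.exp_pos _).le
  have hlim := hcut_err M hW μ hθ.continuousOn hχ.continuousOn hg hg2 (fun m => (hη m).1)
    (hη 0).2.2.2.2.2
  set ε : ℕ → ℝ≥0∞ := fun m => ∫⁻ x in W, hcutF M θ χ (η m) g x ∂μ with hε
  set L : ℝ≥0∞ := M.L2 μ χ l with hLdef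
  have key : ∀ t : ℝ, 0 < t →
      ∫⁻ x in W, ENNReal.ofReal (κ x * M.nsq x (fun a => g k₀ a x) * Real.exp (-χ x)) ∂μ ≤
        2 * (ENNReal.ofReal (1 + t) * L) := by
    intro t ht
    have hstep : ∀ m, ∫⁻ x in W, ENNReal.ofReal
        (κ x * M.nsq x (fun a => (η m x : ℂ) * g k₀ a x) * Real.exp (-χ x)) ∂μ ≤
        2 * (ENNReal.ofReal (1 + t) * L + ENNReal.ofReal ((1 + t⁻¹) * C) * ε m) +
        (1 / 2) * ∑ _j : ι, ∑ _k : ι, ENNReal.ofReal (4 * C) * ε m := fun m =>
      hcut_step M hW μ θ χ hθ hχ κ hκ hκ0 k₀ hcurv hlev g hg hg2 l hl hl2 hLL hcl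
        (hη m).1 (hη m).2.1 (hη m).2.2.1 (hη m).2.2.2.1 hC (hηC m) ht
    have hR : Filter.Tendsto (fun m =>
        2 * (ENNReal.ofReal (1 + t) * L + ENNReal.ofReal ((1 + t⁻¹) * C) * ε m) +
        (1 / 2) * ∑ _j : ι, ∑ _k : ι, ENNReal.ofReal (4 * C) * ε m) Filter.atTop
        (nhds (2 * (ENNReal.ofReal (1 + t) * L + ENNReal.ofReal ((1 + t⁻¹) * C) * 0) +
        (1 / 2) * ∑ _j : ι, ∑ _k : ι, ENNReal.ofReal (4 * C) * 0)) := by
      refine Filter.Tendsto.add (ENNReal.Tendsto.const_mul (tendsto_const_nhds.add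
        (ENNReal.Tendsto.const_mul hlim (Or.inr ENNReal.ofReal_ne_top)))
        (Or.inr ENNReal.ofNat_ne_top)) (ENNReal.Tendsto.const_mul
        (tendsto_finsetSum _ fun j _ => tendsto_finsetSum _ fun k _ =>
          ENNReal.Tendsto.const_mul hlim (Or.inr ENNReal.ofReal_ne_top)) (Or.inr ?_))
      simp
    have hR0 : 2 * (ENNReal.ofReal (1 + t) * L + ENNReal.ofReal ((1 + t⁻¹) * C) * 0) +
        (1 / 2) * ∑ _j : ι, ∑ _k : ι, ENNReal.ofReal (4 * C) * 0 =
        2 * (ENNReal.ofReal (1 + t) * L) := by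
      simp
    have hmeas : ∀ m, AEMeasurable (fun x => ENNReal.ofReal
        (κ x * M.nsq x (fun a => (η m x : ℂ) * g k₀ a x) * Real.exp (-χ x)))
        (μ.restrict W) := by
      intro m
      have h1 := hcut_sc (E := E)
      have h2 := hcut_meas M hW μ hχ.continuousOn (u := fun a x => (η m x : ℂ) * g k₀ a x)
        (fun a => ((hcut_real (hη m).1).continuous.aestronglyMeasurable).mul (hg k₀ a))
      have h3 : AEStronglyMeasurable κ (μ.restrict W) :=
        hκ.aestronglyMeasurable hW.measurableSet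
      have h4 := (h3.mul h2).aemeasurable.ennreal_ofReal
      refine h4.congr (Filter.Eventually.of_forall fun x => ?_)
      change ENNReal.ofReal (κ x * (M.nsq x (fun a => (η m x : ℂ) * g k₀ a x) *
        Real.exp (-χ x))) = ENNReal.ofReal
        (κ x * M.nsq x (fun a => (η m x : ℂ) * g k₀ a x) * Real.exp (-χ x))
      rw [mul_assoc]
    have hfatou := lintegral_liminf_le' (u := Filter.atTop) hmeas
    have hpt : ∀ x ∈ W, ENNReal.ofReal
        (κ x * M.nsq x (fun a => g k₀ a x) * Real.exp (-χ x)) ≤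
        Filter.liminf (fun m => ENNReal.ofReal
        (κ x * M.nsq x (fun a => (η m x : ℂ) * g k₀ a x) * Real.exp (-χ x)))
          Filter.atTop := by
      intro x hx
      obtain ⟨m₀, hm⟩ := (hη 0).2.2.2.2.2 {x} isCompact_singleton (by simpa using hx)
      have h1 : Filter.Tendsto (fun m => ENNReal.ofReal
          (κ x * M.nsq x (fun a => (η m x : ℂ) * g k₀ a x) * Real.exp (-χ x)))
          Filter.atTop (nhds (ENNReal.ofReal
          (κ x * M.nsq x (fun a => g k₀ a x) * Real.exp (-χ x)))) := by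
        refine tendsto_const_nhds.congr' ?_
        filter_upwards [Filter.eventually_ge_atTop m₀] with m hmm
        have h3 := (hm m hmm x rfl).eq_of_nhds
        rw [h3]
        simp
      exact h1.liminf_eq.ge
    refine le_trans (setLIntegral_mono' hW.measurableSet hpt) (le_trans hfatou
      (le_trans (Filter.liminf_le_liminf (Filter.Eventually.of_forall hstep)) ?_))
    rw [hR.liminf_eq, hR0]
  have hlast : Filter.Tendsto (fun n : ℕ =>
      2 * (ENNReal.ofReal (1 + 1 / ((n : ℝ) + 1)) * L)) Filter.atTop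
      (nhds (2 * (ENNReal.ofReal (1 + 0) * L))) := by
    refine ENNReal.Tendsto.const_mul (ENNReal.Tendsto.mul_const (ENNReal.tendsto_ofReal
      (tendsto_const_nhds.add tendsto_one_div_add_atTop_nhds_zero_nat)) (Or.inr hl2))
      (Or.inr ENNReal.ofNat_ne_top)
  have h5 := ge_of_tendsto' hlast fun n => key (1 / ((n : ℝ) + 1)) (by positivity)
  simpa using h5

end Pool.Agent.Lib_KF
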