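import Pool.Agent.Lib_MP_e0d435_ag.HDefs

/-!
# Hörmander's theorem for a trivial bundle with a Hermitian metric: definitions

`E` is a finite dimensional complex vector space with basis `b`, `W ⊆ E` is open. Sections of the
trivial bundle of rank `D` are families `u : Fin D → E → ℂ`. `dz v`, `dzb v` are the Wirtinger
derivatives of `Lib_MP_e0d435_ag/HDefs.lean`.
-/

open MeasureTheory Complex
open scoped ENNReal ContDiff ComplexConjugate

namespace Pool.Agent.Lib_KF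

open GPn

/-- the hermitian form of a matrix: linear in `u`, conjugate linear in `v` -/
noncomputable def ip {D : ℕ} (H : Fin D → Fin D → ℂ) (u v : Fin D → ℂ) : ℂ :=
  ∑ a, ∑ c, conj (v a) * H a c * u c

/-- smooth with compact support in `W` -/
def SCW {E : Type} [NormedAddCommGroup E] [NormedSpace ℂ E] (W : Set E) (f : E → ℂ) : Prop :=
  ContDiff ℝ ∞ f ∧ HasCompactSupport f ∧ tsupport f ⊆ W

/-- A smooth Hermitian metric `H` on the trivial bundle of rank `D` over `W` with the matrices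
`A k = H⁻¹ ∂_k H` of its Chern connection. -/
structure HMet {E : Type} [NormedAddCommGroup E] [NormedSpace ℂ E] (W : Set E) {ι : Type}
    [Fintype ι] (b : Module.Basis ι ℂ E) (D : ℕ) where
  H : E → Fin D → Fin D → ℂ
  A : ι → E → Fin D → Fin D → ℂ
  smH : ∀ a c, ContDiffOn ℝ ∞ (fun x => H x a c) W
  smA : ∀ k a c, ContDiffOn ℝ ∞ (fun x => A k x a c) W
  herm : ∀ x ∈ W, ∀ a c, H x a c = conj (H x c a)
  pos : ∀ x ∈ W, ∀ u : Fin D → ℂ, u ≠ 0 → 0 < (ip (H x) u u).re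
  chern : ∀ k a c, ∀ x ∈ W, dz (b k) (fun y => H y a c) x = ∑ e, H x a e * A k x e c

namespace HMet

variable {E : Type} [NormedAddCommGroup E] [NormedSpace ℂ E] {W : Set E} {ι : Type} [Fintype ι]
  {b : Module.Basis ι ℂ E} {D : ℕ} (M : HMet W b D)

/-- `|u|_H ^ 2` at `x` -/
noncomputable def nsq (x : E) (u : Fin D → ℂ) : ℝ := (ip (M.H x) u u).re

/-- the Chern connection `δ_k u = ∂_k u + A_k u` -/
noncomputable def ch (k : ι) (u : Fin D → E → ℂ) (x : E) (a : Fin D) : ℂ :=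
  dz (b k) (u a) x + ∑ c, M.A k x a c * u c x

/-- the curvature form `∑ ⟨Θ_{jk} f_j, f_k⟩`, `Θ_{jk} = - ∂bar_k A_j` -/
noncomputable def curv (x : E) (f : ι → Fin D → ℂ) : ℝ :=
  (∑ j, ∑ k, ip (M.H x) (fun a => - ∑ c, dzb (b k) (fun y => M.A j y a c) x * f j c) (f k)).re

end HMet

/-- `∑_{jk} χ_{j kbar} ⟨f_j, f_k⟩` -/
noncomputable def levH {E : Type} [NormedAddCommGroup E] [NormedSpace ℂ E] {ι : Type} [Fintype ι]
    (b : Module.Basis ι ℂ E) {D : ℕ} (H : Fin D → Fin D → ℂ) (χ : E → ℝ) (x : E)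
    (f : ι → Fin D → ℂ) : ℝ :=
  (∑ j, ∑ k, dzb (b k) (dz (b j) (fun y => (χ y : ℂ))) x * ip H (f j) (f k)).re

/-- `∑_k |∂_k χ| ^ 2` -/
noncomputable def gradsq {E : Type} [NormedAddCommGroup E] [NormedSpace ℂ E] {ι : Type} [Fintype ι]
    (b : Module.Basis ι ℂ E) (χ : E → ℝ) (x : E) : ℝ :=
  ∑ k, ‖dz (b k) (fun y => (χ y : ℂ)) x‖ ^ 2

end Pool.Agent.Lib_KF
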