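import Pool.Agent.Lib_KF.HWeakDefs

/-! H07: a measurable orthonormal frame; completeness of `L²(W, H)` in the form of a
Riesz representation theorem and of orthogonal projections. -/

open MeasureTheory Complex
open scoped ENNReal ContDiff ComplexConjugate

namespace Pool.Agent.Lib_KF

open GPn

/-- completing the square in the first coordinate -/
private theorem hOrtho_ip_succ {D : ℕ} (H : Fin (D + 1) → Fin (D + 1) → ℂ)
    (hh : ∀ a c, H a c = conj (H c a)) (h0 : H 0 0 ≠ 0) (u v : Fin (D + 1) → ℂ) :
    ip H u v = conj (H 0 0 * v 0 + ∑ c : Fin D, H 0 c.succ * v c.succ) *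
        (H 0 0 * u 0 + ∑ c : Fin D, H 0 c.succ * u c.succ) / H 0 0 +
      ip (fun i c : Fin D => H i.succ c.succ - conj (H 0 i.succ) * H 0 c.succ / H 0 0)
        (fun c => u c.succ) (fun c => v c.succ) := by
  have hr : conj (H 0 0) = H 0 0 := (hh 0 0).symm
  have e1 : ip (fun i c : Fin D => H i.succ c.succ - conj (H 0 i.succ) * H 0 c.succ / H 0 0)
        (fun c => u c.succ) (fun c => v c.succ) =
      (∑ i : Fin D, ∑ c : Fin D, conj (v i.succ) * H i.succ c.succ * u c.succ) -
        (∑ i : Fin D, conj (H 0 i.succ) * conj (v i.succ)) *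
          (∑ c : Fin D, H 0 c.succ * u c.succ) / H 0 0 := by
    unfold ip
    rw [Finset.sum_mul_sum, Finset.sum_div, ← Finset.sum_sub_distrib]
    refine Finset.sum_congr rfl fun i _ => ?_
    rw [Finset.sum_div, ← Finset.sum_sub_distrib]
    refine Finset.sum_congr rfl fun c _ => ?_
    ring
  have e2 : ip H u v = conj (v 0) * H 0 0 * u 0 +
      conj (v 0) * (∑ c : Fin D, H 0 c.succ * u c.succ) +
      ((∑ i : Fin D, conj (H 0 i.succ) * conj (v i.succ)) * u 0 +
      ∑ i : Fin D, ∑ c : Fin D, conj (v i.succ) * H i.succ c.succ * u c.succ) := by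
    unfold ip
    rw [Fin.sum_univ_succ, Fin.sum_univ_succ]
    have e3 : ∀ i : Fin D, ∑ c, conj (v i.succ) * H i.succ c * u c =
        conj (H 0 i.succ) * conj (v i.succ) * u 0 +
          ∑ c : Fin D, conj (v i.succ) * H i.succ c.succ * u c.succ := by
      intro i
      rw [Fin.sum_univ_succ, hh i.succ 0]
      ring
    simp_rw [e3]
    rw [Finset.sum_add_distrib, Finset.sum_mul]
    congr 2
    rw [Finset.mul_sum]
    refine Finset.sum_congr rfl fun c _ => ?_
    ring
  rw [e1, e2, map_add, map_mul, map_sum, hr]
  simp_rw [map_mul]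
  field_simp
  ring

private theorem hOrtho_aux {X : Type} [MeasurableSpace X] : ∀ (D : ℕ)
    (H : X → Fin D → Fin D → ℂ), (∀ a c, Measurable fun x => H x a c) →
    (∀ x a c, H x a c = conj (H x c a)) →
    (∀ x (u : Fin D → ℂ), u ≠ 0 → 0 < (ip (H x) u u).re) →
    ∃ P Q : X → Fin D → Fin D → ℂ, (∀ i a, Measurable fun x => P x i a) ∧
      (∀ i a, Measurable fun x => Q x i a) ∧
      (∀ x, ∀ i j, ip (H x) (P x i) (P x j) = if i = j then 1 else 0) ∧
      (∀ x, ∀ u : Fin D → ℂ, ∀ a, ∑ i, (∑ c, Q x i c * u c) * P x i a = u a) ∧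
      (∀ x, ∀ u : Fin D → ℂ, (ip (H x) u u).re = ∑ i, ‖∑ c, Q x i c * u c‖ ^ 2) := by
  intro D
  induction D with
  | zero =>
    intro H _ _ _
    refine ⟨fun _ _ _ => 0, fun _ _ _ => 0, fun i => i.elim0, fun i => i.elim0,
      fun _ i => i.elim0, fun _ _ a => a.elim0, fun x u => ?_⟩
    simp [ip]
  | succ D IH =>
    intro H hm hh hp
    -- the corner entry
    have hcr : ∀ x, ((H x 0 0).re : ℂ) = H x 0 0 := fun x =>
      Complex.conj_eq_iff_re.1 (hh x 0 0).symm
    have hcp : ∀ x, 0 < (H x 0 0).re := by
      intro x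
      have h1 := hp x (Pi.single 0 1) (by
        intro h
        have := congrFun h 0
        simp at this)
      have h2 : ip (H x) (Pi.single 0 1) (Pi.single 0 1) = H x 0 0 := by
        unfold ip
        rw [Finset.sum_eq_single 0, Finset.sum_eq_single 0]
        · simp
        · intro c _ hc
          simp [hc]
        · simp
        · intro c _ hc
          simp [hc]
        · simp
      rwa [h2] at h1
    have hc0 : ∀ x, H x 0 0 ≠ 0 := by
      intro x h
      have := hcp x
      rw [h] at this
      simp at this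
    let S : X → Fin D → Fin D → ℂ := fun x i c =>
      H x i.succ c.succ - conj (H x 0 i.succ) * H x 0 c.succ / H x 0 0
    have hmc : ∀ a c, Measurable fun x => conj (H x a c) := fun a c =>
      Complex.continuous_conj.measurable.comp (hm a c)
    have hSm : ∀ a c, Measurable fun x => S x a c := fun a c =>
      (hm _ _).sub (((hmc _ _).mul (hm _ _)).div (hm _ _))
    have hSh : ∀ x a c, S x a c = conj (S x c a) := by
      intro x a c
      simp only [S, map_sub, map_div₀, map_mul, Complex.conj_conj]
      rw [← hh x a.succ c.succ, ← hh x 0 0]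
      ring
    have hsq := fun x => hOrtho_ip_succ (H x) (hh x) (hc0 x)
    have hSp : ∀ x (u : Fin D → ℂ), u ≠ 0 → 0 < (ip (S x) u u).re := by
      intro x u hu
      have h1 := hp x (Fin.cons (-(∑ c : Fin D, H x 0 c.succ * u c) / H x 0 0) u) (by
        intro h
        apply hu
        funext c
        have := congrFun h c.succ
        simpa using this)
      rw [hsq x] at h1
      simp only [Fin.cons_zero, Fin.cons_succ] at h1
      have h2 : H x 0 0 * (-(∑ c : Fin D, H x 0 c.succ * u c) / H x 0 0) +
          ∑ c : Fin D, H x 0 c.succ * u c = 0 := by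
        have := hc0 x
        field_simp
        ring
      rw [h2, mul_zero, zero_div, zero_add] at h1
      exact h1
    obtain ⟨P, Q, hP, hQ, ho, hi, hn⟩ := IH S hSm hSh hSp
    let s : X → ℂ := fun x => ((Real.sqrt (H x 0 0).re : ℝ) : ℂ)
    have hs2 : ∀ x, s x * s x = H x 0 0 := by
      intro x
      simp only [s]
      rw [← Complex.ofReal_mul, Real.mul_self_sqrt (hcp x).le, hcr]
    have hs0 : ∀ x, s x ≠ 0 := by
      intro x h
      apply hc0 x
      rw [← hs2, h, zero_mul]
    have hsm : Measurable s :=
      Complex.measurable_ofReal.comp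
        (Real.continuous_sqrt.measurable.comp (Complex.measurable_re.comp (hm 0 0)))
    have hsc : ∀ x, conj (s x) = s x := fun x => Complex.conj_ofReal _
    let P' : X → Fin (D + 1) → Fin (D + 1) → ℂ := fun x =>
      Fin.cons (Fin.cons (1 / s x) (fun _ => 0))
        (fun i => Fin.cons (-(∑ c : Fin D, H x 0 c.succ * P x i c) / H x 0 0) (P x i))
    let Q' : X → Fin (D + 1) → Fin (D + 1) → ℂ := fun x =>
      Fin.cons (Fin.cons (s x) (fun c => H x 0 c.succ / s x))
        (fun i => Fin.cons 0 (Q x i))
    have hQ0 : ∀ x (u : Fin (D + 1) → ℂ), ∑ c, Q' x 0 c * u c =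
        (H x 0 0 * u 0 + ∑ c : Fin D, H x 0 c.succ * u c.succ) / s x := by
      intro x u
      rw [Fin.sum_univ_succ]
      simp only [Q', Fin.cons_zero, Fin.cons_succ]
      rw [add_div, Finset.sum_div, ← hs2]
      have := hs0 x
      congr 1
      · field_simp
      · refine Finset.sum_congr rfl fun c _ => ?_
        ring
    have hQs : ∀ x (u : Fin (D + 1) → ℂ) (i : Fin D), ∑ c, Q' x i.succ c * u c =
        ∑ c, Q x i c * u c.succ := by
      intro x u i
      rw [Fin.sum_univ_succ]
      simp only [Q', Fin.cons_succ, Fin.cons_zero, zero_mul, zero_add]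
    have hL0 : ∀ x, H x 0 0 * P' x 0 0 + ∑ c : Fin D, H x 0 c.succ * P' x 0 c.succ = s x := by
      intro x
      simp only [P', Fin.cons_zero, Fin.cons_succ, mul_zero, Finset.sum_const_zero, add_zero]
      rw [← hs2]
      have := hs0 x
      field_simp
    have hLs : ∀ x (i : Fin D), H x 0 0 * P' x i.succ 0 +
        ∑ c : Fin D, H x 0 c.succ * P' x i.succ c.succ = 0 := by
      intro x i
      simp only [P', Fin.cons_zero, Fin.cons_succ]
      have := hc0 x
      field_simp
      ring
    refine ⟨P', Q', ?_, ?_, ?_, ?_, ?_⟩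
    · intro i a
      refine Fin.cases ?_ (fun i => ?_) i
      · refine Fin.cases ?_ (fun a => ?_) a
        · exact measurable_const.div hsm
        · exact measurable_const
      · refine Fin.cases ?_ (fun a => ?_) a
        · exact ((Finset.measurable_sum _ fun c _ => (hm _ _).mul (hP _ _)).neg).div (hm _ _)
        · exact hP i a
    · intro i a
      refine Fin.cases ?_ (fun i => ?_) i
      · refine Fin.cases ?_ (fun a => ?_) a
        · exact hsm
        · exact (hm _ _).div hsm
      · refine Fin.cases ?_ (fun a => ?_) a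
        · exact measurable_const
        · exact hQ i a
    · intro x i j
      rw [hsq x]
      refine Fin.cases ?_ (fun i => ?_) i <;> refine Fin.cases ?_ (fun j => ?_) j
      · rw [hL0, hsc, hs2, div_self (hc0 x)]
        simp [P', ip]
      · rw [hL0, hLs]
        simp [P', ip, (Fin.succ_ne_zero j).symm]
      · rw [hL0, hLs]
        simp [P', ip]
      · rw [hLs, hLs]
        have := ho x i j
        simp only [P', Fin.cons_succ, mul_zero, zero_div, zero_add, Fin.succ_inj]
        exact this
    · intro x u a
      rw [Fin.sum_univ_succ, hQ0]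
      simp_rw [hQs]
      refine Fin.cases ?_ (fun a => ?_) a
      · simp only [P', Fin.cons_zero, Fin.cons_succ]
        have e1 : ∑ i : Fin D, (∑ c, Q x i c * u c.succ) *
            (-(∑ c : Fin D, H x 0 c.succ * P x i c) / H x 0 0) =
            -(∑ c : Fin D, H x 0 c.succ * u c.succ) / H x 0 0 := by
          have e2 : ∀ c : Fin D, H x 0 c.succ * u c.succ =
              ∑ i : Fin D, (∑ e, Q x i e * u e.succ) * (H x 0 c.succ * P x i c) := by
            intro c
            have := hi x (fun c => u c.succ) c
            rw [← this, Finset.mul_sum]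
            refine Finset.sum_congr rfl fun i _ => ?_
            ring
          rw [Finset.sum_congr rfl fun c _ => e2 c, Finset.sum_comm, neg_div, Finset.sum_div,
            ← Finset.sum_neg_distrib]
          refine Finset.sum_congr rfl fun i _ => ?_
          rw [← Finset.mul_sum]
          ring
        rw [e1]
        have h1 := hc0 x
        have h2 := hs2 x
        have h3 := hs0 x
        have e3 : (H x 0 0 * u 0 + ∑ c : Fin D, H x 0 c.succ * u c.succ) / s x * (1 / s x) =
            (H x 0 0 * u 0 + ∑ c : Fin D, H x 0 c.succ * u c.succ) / H x 0 0 := by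
          rw [← h2]
          field_simp
        rw [e3]
        field_simp
        ring
      · simp only [P', Fin.cons_zero, Fin.cons_succ, mul_zero, zero_add]
        exact hi x (fun c => u c.succ) a
    · intro x u
      rw [hsq x, Fin.sum_univ_succ, hQ0]
      simp_rw [hQs]
      rw [Complex.add_re, ← hn x (fun c => u c.succ)]
      congr 1
      have h3 := hs0 x
      have e3 : conj (H x 0 0 * u 0 + ∑ c : Fin D, H x 0 c.succ * u c.succ) *
          (H x 0 0 * u 0 + ∑ c : Fin D, H x 0 c.succ * u c.succ) / H x 0 0 =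
          conj ((H x 0 0 * u 0 + ∑ c : Fin D, H x 0 c.succ * u c.succ) / s x) *
          ((H x 0 0 * u 0 + ∑ c : Fin D, H x 0 c.succ * u c.succ) / s x) := by
        rw [map_div₀, hsc, ← hs2]
        field_simp
      rw [e3, mul_comm, Complex.mul_conj, Complex.normSq_eq_norm_sq, Complex.ofReal_re]

variable {E : Type} [NormedAddCommGroup E] [NormedSpace ℂ E] [MeasurableSpace E] [BorelSpace E]
  {W : Set E} {ι : Type} [Fintype ι] {b : Module.Basis ι ℂ E} {D : ℕ}

/-- A measurable frame `P` which is orthonormal for `H`, with its inverse `Q`. -/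
theorem HMet.exists_frame (M : HMet W b D) (hW : IsOpen W) :
    ∃ P Q : E → Fin D → Fin D → ℂ, (∀ i a, Measurable fun x => P x i a) ∧
      (∀ i a, Measurable fun x => Q x i a) ∧
      (∀ x ∈ W, ∀ i j, ip (M.H x) (P x i) (P x j) = if i = j then 1 else 0) ∧
      (∀ x ∈ W, ∀ u : Fin D → ℂ, ∀ a, ∑ i, (∑ c, Q x i c * u c) * P x i a = u a) ∧
      (∀ x ∈ W, ∀ u : Fin D → ℂ, M.nsq x u = ∑ i, ‖∑ c, Q x i c * u c‖ ^ 2) := by
  classical
  let H' : E → Fin D → Fin D → ℂ := fun x a c => if x ∈ W then M.H x a c else if a = c then 1 else 0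
  have hH' : ∀ x ∈ W, H' x = M.H x := by
    intro x hx
    funext a c
    simp only [H', if_pos hx]
  have hm : ∀ a c, Measurable fun x => H' x a c := by
    intro a c
    have h1 : ContinuousOn (fun x => M.H x a c) W := (M.smH a c).continuousOn
    have h2 : (fun x => H' x a c) = W.piecewise (fun x => M.H x a c)
        (fun _ => if a = c then 1 else 0) := by
      funext x
      simp only [H', Set.piecewise]
    rw [h2]
    exact ContinuousOn.measurable_piecewise h1 continuousOn_const hW.measurableSet
  have hh : ∀ x a c, H' x a c = conj (H' x c a) := by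
    intro x a c
    by_cases hx : x ∈ W
    · simp only [H', if_pos hx]
      exact M.herm x hx a c
    · simp only [H', if_neg hx]
      by_cases hac : a = c
      · subst hac
        simp
      · rw [if_neg hac, if_neg (fun h => hac h.symm), map_zero]
  have hp : ∀ x (u : Fin D → ℂ), u ≠ 0 → 0 < (ip (H' x) u u).re := by
    intro x u hu
    by_cases hx : x ∈ W
    · rw [hH' x hx]
      exact M.pos x hx u hu
    · have h1 : ip (H' x) u u = ((∑ a, ‖u a‖ ^ 2 : ℝ) : ℂ) := by
        unfold ip
        push_cast
        refine Finset.sum_congr rfl fun a _ => ?_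
        rw [Finset.sum_eq_single a]
        · simp only [H', if_neg hx, if_true, mul_one]
          rw [mul_comm, Complex.mul_conj, Complex.normSq_eq_norm_sq]
          push_cast
          rfl
        · intro c _ hc
          simp only [H', if_neg hx]
          rw [if_neg (fun h => hc h.symm)]
          ring
        · simp
      rw [h1, Complex.ofReal_re]
      obtain ⟨a, ha⟩ := Function.ne_iff.1 hu
      refine Finset.sum_pos' (fun a _ => by positivity) ⟨a, Finset.mem_univ _, ?_⟩
      have : 0 < ‖u a‖ := norm_pos_iff.2 ha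
      positivity
  obtain ⟨P, Q, h1, h2, h3, h4, h5⟩ := hOrtho_aux D H' hm hh hp
  refine ⟨P, Q, h1, h2, fun x hx => ?_, fun x _ => h4 x, fun x hx u => ?_⟩
  · intro i j
    have := h3 x i j
    rwa [hH' x hx] at this
  · have := h5 x u
    rwa [hH' x hx] at this

end Pool.Agent.Lib_KF
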