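import Pool.Agent.Lib_KF.HCut
import Pool.Agent.Lib_KF.HOrtho

/-! H08: the dual estimate. -/

open MeasureTheory Complex
open scoped ENNReal ContDiff ComplexConjugate

namespace Pool.Agent.Lib_KF

open GPn

namespace HDualW

section calc1

variable {E : Type} [NormedAddCommGroup E] [NormedSpace ℂ E] {W : Set E}

/-- the product of a function smooth on `W` and a test function is a test function -/
theorem scw_mul (hW : IsOpen W) {u ψ : E → ℂ} (hu : ContDiffOn ℝ ∞ u W) (hψ : SCW W ψ) :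
    SCW W (fun x => u x * ψ x) := by
  refine ⟨?_, hψ.2.1.mul_left, ?_⟩
  · rw [contDiff_iff_contDiffAt]
    intro x
    by_cases hx : x ∈ W
    · exact (hu.contDiffAt (hW.mem_nhds hx)).mul hψ.1.contDiffAt
    · have h1 : x ∉ tsupport ψ := fun h => hx (hψ.2.2 h)
      have h2 : ψ =ᶠ[nhds x] 0 := notMem_tsupport_iff_eventuallyEq.1 h1
      have h3 : (fun x => u x * ψ x) =ᶠ[nhds x] fun _ => 0 := by
        filter_upwards [h2] with y hy
        simp [hy]
      exact contDiffAt_const.congr_of_eventuallyEq h3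
  · exact (closure_mono (fun x hx => by
      simp only [Function.mem_support] at hx ⊢
      exact right_ne_zero_of_mul hx)).trans hψ.2.2

theorem scw_of_zero {u ψ : E → ℂ} (hu : ContDiff ℝ ∞ u) (hψ : SCW W ψ)
    (h : ∀ x, x ∉ tsupport ψ → u x = 0) : SCW W u := by
  have hs : tsupport u ⊆ tsupport ψ := by
    refine closure_minimal (fun x hx => ?_) (isClosed_tsupport ψ)
    by_contra h'
    exact hx (h x h')
  exact ⟨hu, hψ.2.1.of_isClosed_subset (isClosed_tsupport u) hs, hs.trans hψ.2.2⟩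

theorem contDiff_fderiv_apply {F : E → ℂ} (hF : ContDiff ℝ ∞ F) (v : E) :
    ContDiff ℝ ∞ (fun x => fderiv ℝ F x v) :=
  (hF.fderiv_right (m := ∞) (by simp)).clm_apply contDiff_const

theorem contDiff_dz {F : E → ℂ} (hF : ContDiff ℝ ∞ F) (v : E) : ContDiff ℝ ∞ (dz v F) := by
  unfold dz
  exact ((contDiff_fderiv_apply hF v).sub
    (contDiff_const.mul (contDiff_fderiv_apply hF (I • v)))).div_const 2

theorem contDiff_dzb {F : E → ℂ} (hF : ContDiff ℝ ∞ F) (v : E) : ContDiff ℝ ∞ (dzb v F) := by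
  unfold dzb
  exact ((contDiff_fderiv_apply hF v).add
    (contDiff_const.mul (contDiff_fderiv_apply hF (I • v)))).div_const 2

theorem contDiffOn_fderiv_apply (hW : IsOpen W) {F : E → ℂ} (hF : ContDiffOn ℝ ∞ F W) (v : E) :
    ContDiffOn ℝ ∞ (fun x => fderiv ℝ F x v) W :=
  (hF.fderiv_of_isOpen (m := ∞) hW (by simp)).clm_apply contDiffOn_const

theorem contDiffOn_dz (hW : IsOpen W) {F : E → ℂ} (hF : ContDiffOn ℝ ∞ F W) (v : E) :
    ContDiffOn ℝ ∞ (dz v F) W := by
  unfold dz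
  exact ((contDiffOn_fderiv_apply hW hF v).sub
    (contDiffOn_const.mul (contDiffOn_fderiv_apply hW hF (I • v)))).div_const 2

theorem fderiv_zero_off {ψ : E → ℂ} {x : E} (hx : x ∉ tsupport ψ) : fderiv ℝ ψ x = 0 := by
  have h2 : ψ =ᶠ[nhds x] fun _ => 0 := notMem_tsupport_iff_eventuallyEq.1 hx
  rw [h2.fderiv_eq]
  simp

theorem dz_zero_off {ψ : E → ℂ} {x : E} (hx : x ∉ tsupport ψ) (v : E) : dz v ψ x = 0 := by
  simp [dz, fderiv_zero_off hx]

theorem dzb_zero_off {ψ : E → ℂ} {x : E} (hx : x ∉ tsupport ψ) (v : E) : dzb v ψ x = 0 := by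
  simp [dzb, fderiv_zero_off hx]

theorem scw_dz {ψ : E → ℂ} (hψ : SCW W ψ) (v : E) : SCW W (dz v ψ) :=
  scw_of_zero (contDiff_dz hψ.1 v) hψ fun _ hx => dz_zero_off hx v

theorem scw_dzb {ψ : E → ℂ} (hψ : SCW W ψ) (v : E) : SCW W (dzb v ψ) :=
  scw_of_zero (contDiff_dzb hψ.1 v) hψ fun _ hx => dzb_zero_off hx v

theorem scw_add {u v : E → ℂ} (hu : SCW W u) (hv : SCW W v) : SCW W (fun x => u x + v x) := by
  refine ⟨hu.1.add hv.1, hu.2.1.add hv.2.1, (tsupport_add u v).trans ?_⟩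
  exact Set.union_subset hu.2.2 hv.2.2

theorem scw_neg {u : E → ℂ} (hu : SCW W u) : SCW W (fun x => - u x) :=
  scw_of_zero hu.1.neg hu fun x hx => by
    have : u x = 0 := image_eq_zero_of_notMem_tsupport hx
    simp [this]

theorem scw_sub {u v : E → ℂ} (hu : SCW W u) (hv : SCW W v) : SCW W (fun x => u x - v x) := by
  simpa [sub_eq_add_neg] using scw_add hu (scw_neg hv)

theorem scw_zero : SCW W (fun _ : E => (0 : ℂ)) := by
  refine ⟨contDiff_const, HasCompactSupport.zero, ?_⟩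
  have : tsupport (fun _ : E => (0 : ℂ)) = ∅ := by
    rw [tsupport_eq_empty_iff]
    rfl
  rw [this]
  exact Set.empty_subset _

theorem scw_sum {κ : Type*} (s : Finset κ) {F : κ → E → ℂ} (hF : ∀ j, SCW W (F j)) :
    SCW W (fun x => ∑ j ∈ s, F j x) := by
  classical
  induction s using Finset.induction_on with
  | empty => simpa using scw_zero
  | insert a s ha ih =>
    have := scw_add (hF a) ih
    simpa [Finset.sum_insert ha] using this

/-- the operators dzb commute -/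
theorem dzb_comm {F : E → ℂ} (hF : ContDiff ℝ ∞ F) (v w x : E) :
    dzb v (dzb w F) x = dzb w (dzb v F) x := by
  have hd2 : Differentiable ℝ (fderiv ℝ F) :=
    (hF.fderiv_right (m := ∞) (by simp)).differentiable (by simp)
  have key : ∀ v w : E, fderiv ℝ (fun y => fderiv ℝ F y w) x v = fderiv ℝ (fderiv ℝ F) x v w := by
    intro v w
    have h1 : HasFDerivAt (fun y => fderiv ℝ F y w)
        ((ContinuousLinearMap.apply ℝ ℂ w).comp (fderiv ℝ (fderiv ℝ F) x)) x :=
      (ContinuousLinearMap.apply ℝ ℂ w).hasFDerivAt.comp x (hd2 x).hasFDerivAt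
    rw [h1.fderiv]
    rfl
  have hsym : ∀ v w : E, fderiv ℝ (fderiv ℝ F) x v w = fderiv ℝ (fderiv ℝ F) x w v := by
    intro v w
    have := (hF.contDiffAt (x := x)).isSymmSndFDerivAt
      (by rw [minSmoothness_of_isRCLikeNormedField]; exact WithTop.coe_le_coe.2 le_top)
    exact this v w
  have hda : ∀ w : E, DifferentiableAt ℝ (fun y => fderiv ℝ F y w) x := fun w =>
    (hd2 x).clm_apply (differentiableAt_const w)
  have expand : ∀ v w : E, fderiv ℝ (dzb w F) x v =
      (fderiv ℝ (fderiv ℝ F) x v w + I * fderiv ℝ (fderiv ℝ F) x v (I • w)) / 2 := by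
    intro v w
    have h1 : HasFDerivAt (fun y => fderiv ℝ F y w) (fderiv ℝ (fun y => fderiv ℝ F y w) x) x :=
      (hda w).hasFDerivAt
    have h2 : HasFDerivAt (fun y => fderiv ℝ F y (I • w))
        (fderiv ℝ (fun y => fderiv ℝ F y (I • w)) x) x := (hda (I • w)).hasFDerivAt
    have h3 := (h1.add (h2.const_mul I)).mul_const ((2 : ℂ)⁻¹)
    have h4 : dzb w F = fun y => (fderiv ℝ F y w + I * fderiv ℝ F y (I • w)) * (2 : ℂ)⁻¹ := by
      funext y
      simp [dzb, div_eq_mul_inv]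
    have h5 : HasFDerivAt (dzb w F) ((2 : ℂ)⁻¹ • (fderiv ℝ (fun y => fderiv ℝ F y w) x +
        I • fderiv ℝ (fun y => fderiv ℝ F y (I • w)) x)) x := by
      rw [h4]
      exact h3
    rw [h5.fderiv]
    simp only [smul_apply, add_apply, smul_eq_mul, key]
    ring
  rw [dzb, dzb, expand, expand, expand, expand, hsym w v, hsym w (I • v), hsym (I • w) v,
    hsym (I • w) (I • v)]
  ring

theorem dzb_mul {u v : E → ℂ} {x : E} (hu : DifferentiableAt ℝ u x) (hv : DifferentiableAt ℝ v x)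
    (w : E) : dzb w (fun y => u y * v y) x = dzb w u x * v x + u x * dzb w v x := by
  have h1 : fderiv ℝ (fun y => u y * v y) x = u x • fderiv ℝ v x + v x • fderiv ℝ u x :=
    fderiv_fun_mul hu hv
  simp only [dzb, h1, add_apply, smul_apply, smul_eq_mul]
  ring

variable [FiniteDimensional ℂ E] [MeasurableSpace E] [BorelSpace E]

theorem integral_fderiv_zero (μ : Measure E) [μ.IsAddHaarMeasure] {F : E → ℂ}
    (hF : ContDiff ℝ ∞ F) (hc : HasCompactSupport F) (v : E) :
    ∫ x, fderiv ℝ F x v ∂μ = 0 := by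
  have : FiniteDimensional ℝ E := FiniteDimensional.complexToReal E
  have hd : Continuous (fun x => fderiv ℝ F x v) := (contDiff_fderiv_apply hF v).continuous
  have hdc : HasCompactSupport (fun x => fderiv ℝ F x v) :=
    (hc.fderiv ℝ).comp_left (g := fun L : E →L[ℝ] ℂ => L v) (by simp)
  have h := integral_mul_fderiv_eq_neg_fderiv_mul_of_integrable (μ := μ) (𝕜 := ℂ)
    (f := fun _ : E => (1 : ℂ)) (g := F) (v := v)
    (by simp) (by simpa using hd.integrable_of_hasCompactSupport hdc)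
    (by simpa using hF.continuous.integrable_of_hasCompactSupport hc)
    (fun x _ => differentiableAt_const _) (fun x _ => hF.differentiable (by simp) x)
  simpa using h

theorem integral_dzb_zero (μ : Measure E) [μ.IsAddHaarMeasure] {F : E → ℂ}
    (hF : ContDiff ℝ ∞ F) (hc : HasCompactSupport F) (v : E) :
    ∫ x, dzb v F x ∂μ = 0 := by
  have hi : ∀ w : E, Integrable (fun x => fderiv ℝ F x w) μ := fun w =>
    (contDiff_fderiv_apply hF w).continuous.integrable_of_hasCompactSupport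
      ((hc.fderiv ℝ).comp_left (g := fun L : E →L[ℝ] ℂ => L w) (by simp))
  unfold dzb
  rw [integral_div, integral_add (hi v) ((hi (I • v)).const_mul I), integral_const_mul,
    integral_fderiv_zero μ hF hc, integral_fderiv_zero μ hF hc]
  simp

/-- scalar integration by parts -/
theorem ibp_scalar (hW : IsOpen W) (μ : Measure E) [μ.IsAddHaarMeasure] {u ψ : E → ℂ}
    (hu : ContDiffOn ℝ ∞ u W) (hψ : SCW W ψ) (v : E) :
    ∫ x, u x * dzb v ψ x ∂μ = - ∫ x, dzb v u x * ψ x ∂μ := by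
  have hp := scw_mul hW hu hψ
  have h0 := integral_dzb_zero μ hp.1 hp.2.1 v
  have h1 : ∀ x, dzb v (fun x => u x * ψ x) x = dzb v u x * ψ x + u x * dzb v ψ x := by
    intro x
    by_cases hx : x ∈ W
    · exact dzb_mul ((hu.contDiffAt (hW.mem_nhds hx)).differentiableAt (by simp))
        ((hψ.1.differentiable (by simp)) x) v
    · have h1 : x ∉ tsupport ψ := fun h => hx (hψ.2.2 h)
      have h2 : ψ x = 0 := image_eq_zero_of_notMem_tsupport h1
      have h3 : x ∉ tsupport (fun x => u x * ψ x) := fun h => hx (hp.2.2 h)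
      rw [dzb_zero_off h3, dzb_zero_off h1, h2]
      simp
  have hdu : ContDiffOn ℝ ∞ (dzb v u) W := by
    unfold dzb
    exact ((contDiffOn_fderiv_apply hW hu v).add
      (contDiffOn_const.mul (contDiffOn_fderiv_apply hW hu (I • v)))).div_const 2
  have hi1 : Integrable (fun x => dzb v u x * ψ x) μ :=
    (scw_mul hW hdu hψ).1.continuous.integrable_of_hasCompactSupport (scw_mul hW hdu hψ).2.1
  have hi2 : Integrable (fun x => u x * dzb v ψ x) μ :=
    (scw_mul hW hu (scw_dzb hψ v)).1.continuous.integrable_of_hasCompactSupport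
      (scw_mul hW hu (scw_dzb hψ v)).2.1
  simp_rw [h1] at h0
  rw [integral_add hi1 hi2] at h0
  exact eq_neg_of_add_eq_zero_right h0

end calc1


section alg

variable {E : Type} [NormedAddCommGroup E] [NormedSpace ℂ E] {W : Set E} {ι : Type} [Fintype ι]
  {b : Module.Basis ι ℂ E} {D : ℕ}

theorem ip_sum_left (H : Fin D → Fin D → ℂ) (α : Fin D → ℂ) (P : Fin D → Fin D → ℂ)
    (v : Fin D → ℂ) :
    ip H (fun a => ∑ i, α i * P i a) v = ∑ i, α i * ip H (P i) v := by
  simp only [ip, Finset.mul_sum]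
  calc ∑ a, ∑ c, ∑ i, conj (v a) * H a c * (α i * P i c)
      = ∑ a, ∑ i, ∑ c, conj (v a) * H a c * (α i * P i c) :=
        Finset.sum_congr rfl fun a _ => Finset.sum_comm
    _ = ∑ i, ∑ a, ∑ c, conj (v a) * H a c * (α i * P i c) := Finset.sum_comm
    _ = _ := by
        refine Finset.sum_congr rfl fun i _ => Finset.sum_congr rfl fun a _ =>
          Finset.sum_congr rfl fun c _ => ?_
        ring

theorem ip_sum_right (H : Fin D → Fin D → ℂ) (β : Fin D → ℂ) (P : Fin D → Fin D → ℂ)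
    (u : Fin D → ℂ) :
    ip H u (fun a => ∑ i, β i * P i a) = ∑ i, conj (β i) * ip H u (P i) := by
  simp only [ip, map_sum, map_mul, Finset.mul_sum, Finset.sum_mul]
  calc ∑ a, ∑ c, ∑ i, conj (β i) * conj (P i a) * H a c * u c
      = ∑ a, ∑ i, ∑ c, conj (β i) * conj (P i a) * H a c * u c :=
        Finset.sum_congr rfl fun a _ => Finset.sum_comm
    _ = ∑ i, ∑ a, ∑ c, conj (β i) * conj (P i a) * H a c * u c := Finset.sum_comm
    _ = _ := by
        refine Finset.sum_congr rfl fun i _ => Finset.sum_congr rfl fun a _ =>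
          Finset.sum_congr rfl fun c _ => ?_
        ring

theorem ip_zero_left (H : Fin D → Fin D → ℂ) (v : Fin D → ℂ) : ip H (fun _ => 0) v = 0 := by
  simp [ip]

theorem ip_zero_right (H : Fin D → Fin D → ℂ) (v : Fin D → ℂ) : ip H v (fun _ => 0) = 0 := by
  simp [ip]

theorem ip_smul (H : Fin D → Fin D → ℂ) (t : ℂ) (u v : Fin D → ℂ) :
    ip (fun a c => t * H a c) u v = t * ip H u v := by
  simp only [ip, Finset.mul_sum]
  refine Finset.sum_congr rfl fun a _ => Finset.sum_congr rfl fun c _ => ?_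
  ring

theorem ip_sum_left' {κ : Type*} (s : Finset κ) (H : Fin D → Fin D → ℂ) (F : κ → Fin D → ℂ)
    (v : Fin D → ℂ) :
    ip H (fun a => ∑ k ∈ s, F k a) v = ∑ k ∈ s, ip H (F k) v := by
  simp only [ip, Finset.mul_sum]
  calc ∑ a, ∑ c, ∑ k ∈ s, conj (v a) * H a c * F k c
      = ∑ a, ∑ k ∈ s, ∑ c, conj (v a) * H a c * F k c :=
        Finset.sum_congr rfl fun a _ => Finset.sum_comm
    _ = _ := Finset.sum_comm

theorem ip_sum_right' {κ : Type*} (s : Finset κ) (H : Fin D → Fin D → ℂ) (F : κ → Fin D → ℂ)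
    (u : Fin D → ℂ) :
    ip H u (fun a => ∑ k ∈ s, F k a) = ∑ k ∈ s, ip H u (F k) := by
  simp only [ip, map_sum, Finset.sum_mul]
  calc ∑ a, ∑ c, ∑ k ∈ s, conj (F k a) * H a c * u c
      = ∑ a, ∑ k ∈ s, ∑ c, conj (F k a) * H a c * u c :=
        Finset.sum_congr rfl fun a _ => Finset.sum_comm
    _ = _ := Finset.sum_comm

/-- a frame at one point -/
structure FrameAt (H : Fin D → Fin D → ℂ) (P Q : Fin D → Fin D → ℂ) : Prop where
  orth : ∀ i j, ip H (P i) (P j) = if i = j then 1 else 0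
  rec' : ∀ u : Fin D → ℂ, ∀ a, ∑ i, (∑ c, Q i c * u c) * P i a = u a

theorem FrameAt.QP {H P Q : Fin D → Fin D → ℂ} (h : FrameAt H P Q) (z : Fin D → ℂ) (i : Fin D) :
    ∑ c, Q i c * (∑ j, z j * P j c) = z i := by
  set u : Fin D → ℂ := fun a => ∑ j, z j * P j a with hu
  have h1 : ip H u (P i) = z i := by
    rw [hu, ip_sum_left]
    simp [h.orth]
  have h2 : u = fun a => ∑ j, (∑ c, Q j c * u c) * P j a := by
    funext a
    exact (h.rec' u a).symm
  have h3 : ip H u (P i) = ∑ c, Q i c * u c := by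
    conv_lhs => rw [h2]
    rw [ip_sum_left]
    simp [h.orth]
  exact h3.symm.trans h1

theorem FrameAt.ipQ {H P Q : Fin D → Fin D → ℂ} (h : FrameAt H P Q) (u v : Fin D → ℂ) :
    ip H u v = ∑ i, (∑ c, Q i c * u c) * conj (∑ c, Q i c * v c) := by
  have h2 : ∀ u : Fin D → ℂ, u = fun a => ∑ j, (∑ c, Q j c * u c) * P j a := by
    intro u
    funext a
    exact (h.rec' u a).symm
  conv_lhs => rw [h2 u, h2 v]
  rw [ip_sum_left]
  refine Finset.sum_congr rfl fun i _ => ?_
  rw [ip_sum_right]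
  simp [h.orth]

theorem FrameAt.nsqQ {H P Q : Fin D → Fin D → ℂ} (h : FrameAt H P Q) (u : Fin D → ℂ) :
    (ip H u u).re = ∑ i, ‖∑ c, Q i c * u c‖ ^ 2 := by
  rw [h.ipQ, Complex.re_sum]
  refine Finset.sum_congr rfl fun i _ => ?_
  rw [Complex.mul_conj, Complex.ofReal_re, Complex.normSq_eq_norm_sq]

theorem FrameAt.nonneg {H P Q : Fin D → Fin D → ℂ} (h : FrameAt H P Q) (u : Fin D → ℂ) :
    0 ≤ (ip H u u).re := by
  rw [h.nsqQ]
  positivity

/-- Cauchy-Schwarz -/
theorem FrameAt.cs {H P Q : Fin D → Fin D → ℂ} (h : FrameAt H P Q) (u v : Fin D → ℂ) :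
    ‖ip H u v‖ ^ 2 ≤ (ip H u u).re * (ip H v v).re := by
  rw [h.nsqQ, h.nsqQ, h.ipQ]
  calc ‖∑ i, (∑ c, Q i c * u c) * conj (∑ c, Q i c * v c)‖ ^ 2
      ≤ (∑ i, ‖∑ c, Q i c * u c‖ * ‖∑ c, Q i c * v c‖) ^ 2 := by
        gcongr
        refine (norm_sum_le _ _).trans (le_of_eq (Finset.sum_congr rfl fun i _ => ?_))
        rw [norm_mul, RCLike.norm_conj]
    _ ≤ _ := Finset.sum_mul_sq_le_sq_mul_sq _ _ _

theorem cont_nsq (M : HMet W b D) : ContinuousOn (fun p : E × (Fin D → ℂ) => M.nsq p.1 p.2)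
    (W ×ˢ Set.univ) := by
  unfold HMet.nsq ip
  refine Complex.continuous_re.comp_continuousOn ?_
  refine continuousOn_finsetSum _ fun a _ => continuousOn_finsetSum _ fun c _ => ?_
  have h1 : ContinuousOn (fun p : E × (Fin D → ℂ) => M.H p.1 a c) (W ×ˢ Set.univ) :=
    (M.smH a c).continuousOn.comp continuousOn_fst fun p hp => hp.1
  have h2 : Continuous (fun p : E × (Fin D → ℂ) => conj (p.2 a)) :=
    Complex.continuous_conj.comp ((continuous_apply a).comp continuous_snd)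
  have h3 : Continuous (fun p : E × (Fin D → ℂ) => p.2 c) :=
    (continuous_apply c).comp continuous_snd
  exact (h2.continuousOn.mul h1).mul h3.continuousOn

theorem nsq_smul (M : HMet W b D) (x : E) (t : ℝ) (u : Fin D → ℂ) :
    M.nsq x (fun a => (t : ℂ) * u a) = t ^ 2 * M.nsq x u := by
  have : ip (M.H x) (fun a => (t : ℂ) * u a) (fun a => (t : ℂ) * u a) =
      ((t ^ 2 : ℝ) : ℂ) * ip (M.H x) u u := by
    simp only [ip, map_mul, conj_ofReal, Finset.mul_sum]
    refine Finset.sum_congr rfl fun a _ => Finset.sum_congr rfl fun c _ => ?_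
    push_cast
    ring
  rw [HMet.nsq, this, Complex.re_ofReal_mul, HMet.nsq]

/-- the metric is bounded below on compact sets -/
theorem bdd_below (M : HMet W b D) {K : Set E} (hK : IsCompact K) (hKW : K ⊆ W) :
    ∃ C : ℝ, 0 ≤ C ∧ ∀ x ∈ K, ∀ u : Fin D → ℂ, ∀ a, ‖u a‖ ^ 2 ≤ C * M.nsq x u := by
  have hS : IsCompact (K ×ˢ Metric.sphere (0 : Fin D → ℂ) 1) :=
    hK.prod (isCompact_sphere _ _)
  rcases (K ×ˢ Metric.sphere (0 : Fin D → ℂ) 1).eq_empty_or_nonempty with he | hne
  · refine ⟨0, le_rfl, fun x hx u a => ?_⟩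
    by_cases hu : u = 0
    · simp [hu]
    · exfalso
      have hn : ‖u‖ ≠ 0 := norm_ne_zero_iff.2 hu
      have : ((x, (‖u‖⁻¹ : ℝ) • u) : E × (Fin D → ℂ)) ∈ K ×ˢ Metric.sphere (0 : Fin D → ℂ) 1 := by
        refine ⟨hx, ?_⟩
        rw [mem_sphere_zero_iff_norm, norm_smul, norm_inv, norm_norm, inv_mul_cancel₀ hn]
      rw [he] at this
      exact this
  · obtain ⟨p, hp, hmin⟩ := hS.exists_isMinOn hne
      ((cont_nsq M).mono (Set.prod_mono hKW (Set.subset_univ _)))
    have hp2 : p.2 ≠ 0 := by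
      intro h0
      have h1 := hp.2
      rw [mem_sphere_zero_iff_norm, h0, norm_zero] at h1
      exact zero_ne_one h1
    have hm : 0 < M.nsq p.1 p.2 := M.pos p.1 (hKW hp.1) p.2 hp2
    refine ⟨(M.nsq p.1 p.2)⁻¹, inv_nonneg.2 hm.le, fun x hx u a => ?_⟩
    by_cases hu : u = 0
    · subst hu
      simp [HMet.nsq, ip]
    · have hn : 0 < ‖u‖ := norm_pos_iff.2 hu
      have hmem : ((x, fun a => ((‖u‖⁻¹ : ℝ) : ℂ) * u a) : E × (Fin D → ℂ)) ∈
          K ×ˢ Metric.sphere (0 : Fin D → ℂ) 1 := by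
        refine ⟨hx, ?_⟩
        have h2 : (fun a => ((‖u‖⁻¹ : ℝ) : ℂ) * u a) = (‖u‖⁻¹ : ℝ) • u := by
          funext a
          simp
        rw [mem_sphere_zero_iff_norm, h2, norm_smul, norm_inv, norm_norm, inv_mul_cancel₀ hn.ne']
      have h1 : M.nsq p.1 p.2 ≤ M.nsq x (fun a => ((‖u‖⁻¹ : ℝ) : ℂ) * u a) :=
        isMinOn_iff.1 hmin (x, fun a => ((‖u‖⁻¹ : ℝ) : ℂ) * u a) hmem
      rw [nsq_smul] at h1
      have h3 : M.nsq p.1 p.2 * ‖u‖ ^ 2 ≤ M.nsq x u := by
        have h4 := mul_le_mul_of_nonneg_right h1 (sq_nonneg ‖u‖)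
        have h5 : (‖u‖⁻¹) ^ 2 * M.nsq x u * ‖u‖ ^ 2 = M.nsq x u := by
          field_simp
        rwa [h5] at h4
      calc ‖u a‖ ^ 2 ≤ ‖u‖ ^ 2 := by
            gcongr
            exact norm_le_pi_norm u a
        _ ≤ (M.nsq p.1 p.2)⁻¹ * M.nsq x u := by
            rw [inv_mul_eq_div, le_div_iff₀ hm]
            linarith

end alg

section hilb

variable {E : Type} [NormedAddCommGroup E] [NormedSpace ℂ E]
  [MeasurableSpace E] [BorelSpace E] {W : Set E} {ι : Type} [Fintype ι]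
  {b : Module.Basis ι ℂ E} {D : ℕ}

/-- the Hilbert space -/
abbrev HH (ν : Measure E) (κ : Type) [Fintype κ] := PiLp 2 (fun _ : κ => Lp ℂ 2 ν)

variable {κ : Type} [Fintype κ]

/-- element of the Hilbert space from a family of functions -/
noncomputable def mk (ν : Measure E) (u : κ → E → ℂ) (hu : ∀ j, MemLp (u j) 2 ν) :
    HH ν κ := WithLp.toLp 2 (fun j => (hu j).toLp (u j))

theorem mk_apply (ν : Measure E) (u : κ → E → ℂ) (hu : ∀ j, MemLp (u j) 2 ν) (j : κ) :
    (mk ν u hu) j = (hu j).toLp (u j) := rfl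

theorem inner_toLp_left (ν : Measure E) {u : E → ℂ} (hu : MemLp u 2 ν) (g : Lp ℂ 2 ν) :
    inner ℂ (hu.toLp u) g = ∫ x, g x * conj (u x) ∂ν := by
  rw [MeasureTheory.L2.inner_def]
  refine integral_congr_ae ?_
  filter_upwards [hu.coeFn_toLp] with x hx
  rw [hx, RCLike.inner_apply]

theorem inner_mk_left (ν : Measure E) (u : κ → E → ℂ) (hu : ∀ j, MemLp (u j) 2 ν)
    (g : HH ν κ) :
    inner ℂ (mk ν u hu) g = ∑ j, ∫ x, g j x * conj (u j x) ∂ν := by
  rw [PiLp.inner_apply]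
  refine Finset.sum_congr rfl fun j _ => ?_
  rw [mk_apply, inner_toLp_left]

theorem int_mul_conj (ν : Measure E) {u v : E → ℂ} (hu : MemLp u 2 ν) (hv : MemLp v 2 ν) :
    Integrable (fun x => u x * conj (v x)) ν := by
  have := L2.integrable_inner (𝕜 := ℂ) (hv.toLp v) (hu.toLp u)
  refine this.congr ?_
  filter_upwards [hu.coeFn_toLp, hv.coeFn_toLp] with x h1 h2
  rw [h1, h2, RCLike.inner_apply]

variable (μ : Measure E) [IsFiniteMeasureOnCompacts μ]

/-- `P ψ` is square integrable -/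
theorem memLp_P (N : HMet W b D) (hW : IsOpen W) {P Q : E → Fin D → Fin D → ℂ}
    (hP : ∀ i a, Measurable fun x => P x i a)
    (hPQ : ∀ x ∈ W, FrameAt (N.H x) (P x) (Q x)) {ψ : E → ℂ} (hψ : SCW W ψ) (i a : Fin D) :
    MemLp (fun x => conj (P x i a * ψ x)) 2 (μ.restrict W) := by
  obtain ⟨C, hC0, hC⟩ := bdd_below N hψ.2.1 hψ.2.2
  have h0 : MemLp ψ 2 μ := hψ.1.continuous.memLp_of_hasCompactSupport hψ.2.1
  have h1 : MemLp ψ 2 (μ.restrict W) := h0.restrict W
  refine h1.of_le_mul (c := Real.sqrt C) ?_ ?_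
  · have h2 : Measurable fun x => conj (P x i a * ψ x) :=
      Complex.continuous_conj.measurable.comp ((hP i a).mul hψ.1.continuous.measurable)
    exact h2.aestronglyMeasurable
  · refine (ae_restrict_iff' hW.measurableSet).2 (Filter.Eventually.of_forall fun x hx => ?_)
    rw [RCLike.norm_conj, norm_mul]
    by_cases hxs : x ∈ tsupport ψ
    · gcongr
      refine Real.le_sqrt_of_sq_le ?_
      have h2 := hC x hxs (P x i) a
      have h3 : N.nsq x (P x i) = 1 := by
        rw [HMet.nsq, (hPQ x hx).orth]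
        simp
      rwa [h3, mul_one] at h2
    · have : ψ x = 0 := image_eq_zero_of_notMem_tsupport hxs
      simp [this]

/-- components in the frame -/
def comp (Q : E → Fin D → Fin D → ℂ) (F : Fin D → E → ℂ) (i : Fin D) (x : E) : ℂ :=
  ∑ c, Q x i c * F c x

omit [IsFiniteMeasureOnCompacts μ] in
theorem memLp_comp (N : HMet W b D) (hW : IsOpen W) {P Q : E → Fin D → Fin D → ℂ}
    (hQ : ∀ i a, Measurable fun x => Q x i a)
    (hPQ : ∀ x ∈ W, FrameAt (N.H x) (P x) (Q x)) {F : Fin D → E → ℂ}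
    (hF : ∀ a, AEStronglyMeasurable (F a) (μ.restrict W))
    (hF2 : ∫⁻ x in W, ENNReal.ofReal (N.nsq x (fun a => F a x)) ∂μ ≠ ⊤) (i : Fin D) :
    MemLp (comp Q F i) 2 (μ.restrict W) := by
  have hm : AEStronglyMeasurable (comp Q F i) (μ.restrict W) := by
    unfold comp
    exact Finset.aestronglyMeasurable_fun_sum _ fun c _ =>
      (hQ i c).aestronglyMeasurable.mul (hF c)
  rw [memLp_two_iff_integrable_sq_norm hm]
  refine ⟨hm.norm.pow 2, ?_⟩
  refine lt_of_le_of_lt ?_ (lt_top_iff_ne_top.2 hF2)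
  refine setLIntegral_mono' hW.measurableSet fun x hx => ?_
  rw [Real.enorm_eq_ofReal (by positivity)]
  refine ENNReal.ofReal_le_ofReal ?_
  rw [HMet.nsq, (hPQ x hx).nsqQ]
  exact Finset.single_le_sum (f := fun i => ‖∑ c, Q x i c * F c x‖ ^ 2)
    (fun i _ => by positivity) (Finset.mem_univ i)

omit [IsFiniteMeasureOnCompacts μ] in
theorem int_ip (N : HMet W b D) (hW : IsOpen W) {P Q : E → Fin D → Fin D → ℂ}
    (hQ : ∀ i a, Measurable fun x => Q x i a)
    (hPQ : ∀ x ∈ W, FrameAt (N.H x) (P x) (Q x)) {F G : Fin D → E → ℂ}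
    (hF : ∀ a, AEStronglyMeasurable (F a) (μ.restrict W))
    (hF2 : ∫⁻ x in W, ENNReal.ofReal (N.nsq x (fun a => F a x)) ∂μ ≠ ⊤)
    (hG : ∀ a, AEStronglyMeasurable (G a) (μ.restrict W))
    (hG2 : ∫⁻ x in W, ENNReal.ofReal (N.nsq x (fun a => G a x)) ∂μ ≠ ⊤) :
    IntegrableOn (fun x => ip (N.H x) (fun a => F a x) (fun a => G a x)) W μ := by
  have h1 : Integrable (fun x => ∑ i, comp Q F i x * conj (comp Q G i x)) (μ.restrict W) :=
    integrable_finsetSum _ fun i _ => int_mul_conj _ (memLp_comp μ N hW hQ hPQ hF hF2 i)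
      (memLp_comp μ N hW hQ hPQ hG hG2 i)
  refine h1.congr ?_
  refine (ae_restrict_iff' hW.measurableSet).2 (Filter.Eventually.of_forall fun x hx => ?_)
  simp only [comp]
  rw [(hPQ x hx).ipQ]

omit [IsFiniteMeasureOnCompacts μ] in
theorem integral_ip (N : HMet W b D) (hW : IsOpen W) {P Q : E → Fin D → Fin D → ℂ}
    (hQ : ∀ i a, Measurable fun x => Q x i a)
    (hPQ : ∀ x ∈ W, FrameAt (N.H x) (P x) (Q x)) {F G : Fin D → E → ℂ}
    (hF : ∀ a, AEStronglyMeasurable (F a) (μ.restrict W))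
    (hF2 : ∫⁻ x in W, ENNReal.ofReal (N.nsq x (fun a => F a x)) ∂μ ≠ ⊤)
    (hG : ∀ a, AEStronglyMeasurable (G a) (μ.restrict W))
    (hG2 : ∫⁻ x in W, ENNReal.ofReal (N.nsq x (fun a => G a x)) ∂μ ≠ ⊤) :
    ∫ x in W, ip (N.H x) (fun a => F a x) (fun a => G a x) ∂μ =
      ∑ i, ∫ x in W, comp Q F i x * conj (comp Q G i x) ∂μ := by
  rw [← integral_finsetSum _ fun i _ => int_mul_conj _ (memLp_comp μ N hW hQ hPQ hF hF2 i)
      (memLp_comp μ N hW hQ hPQ hG hG2 i)]
  refine setIntegral_congr_fun hW.measurableSet fun x hx => ?_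
  simp only [comp]
  rw [(hPQ x hx).ipQ]

/-- the functional `h ↦ ∫ h_{k a} ψ` -/
noncomputable def TT [DecidableEq ι] (N : HMet W b D) (hW : IsOpen W)
    {P Q : E → Fin D → Fin D → ℂ}
    (hP : ∀ i a, Measurable fun x => P x i a)
    (hPQ : ∀ x ∈ W, FrameAt (N.H x) (P x) (Q x)) {ψ : E → ℂ} (hψ : SCW W ψ) (k : ι)
    (a : Fin D) : HH (μ.restrict W) (ι × Fin D) :=
  mk (μ.restrict W) (fun p x => if p.1 = k then conj (P x p.2 a * ψ x) else 0) (by
    intro p
    by_cases h : p.1 = k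
    · simpa [h] using memLp_P μ N hW hP hPQ hψ p.2 a
    · simp [h])

/-- a family of functions from an element of the Hilbert space -/
noncomputable def rc (P : E → Fin D → Fin D → ℂ) {ν : Measure E} (h : HH ν (ι × Fin D)) (k : ι)
    (a : Fin D) (x : E) : ℂ := ∑ i, h (k, i) x * P x i a

theorem inner_TT [DecidableEq ι] (N : HMet W b D) (hW : IsOpen W)
    {P Q : E → Fin D → Fin D → ℂ}
    (hP : ∀ i a, Measurable fun x => P x i a)
    (hPQ : ∀ x ∈ W, FrameAt (N.H x) (P x) (Q x)) {ψ : E → ℂ} (hψ : SCW W ψ) (k : ι)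
    (a : Fin D) (h : HH (μ.restrict W) (ι × Fin D)) :
    inner ℂ (TT μ N hW hP hPQ hψ k a) h = ∫ x, rc P h k a x * ψ x ∂μ := by
  have h1 : ∫ x, rc P h k a x * ψ x ∂μ = ∫ x in W, rc P h k a x * ψ x ∂μ := by
    refine (setIntegral_eq_integral_of_forall_compl_eq_zero fun x hx => ?_).symm
    have : ψ x = 0 := image_eq_zero_of_notMem_tsupport fun h => hx (hψ.2.2 h)
    rw [this, mul_zero]
  rw [h1, TT, inner_mk_left, Fintype.sum_prod_type, Finset.sum_eq_single k]
  · have h2 : ∀ i, Integrable (fun x => h (k, i) x * conj (conj (P x i a * ψ x)))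
        (μ.restrict W) := fun i =>
      int_mul_conj _ (Lp.memLp _) (memLp_P μ N hW hP hPQ hψ i a)
    simp only [if_true]
    rw [← integral_finsetSum _ fun i _ => h2 i]
    refine integral_congr_ae (Filter.Eventually.of_forall fun x => ?_)
    simp only [rc, Finset.sum_mul, RCLike.conj_conj, Complex.conj_conj]
    refine Finset.sum_congr rfl fun i _ => ?_
    ring
  · intro j _ hj
    refine Finset.sum_eq_zero fun i _ => ?_
    simp [hj]
  · intro h
    exact absurd (Finset.mem_univ k) h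

/-- the closed subspace of weakly closed forms -/
noncomputable def KK [DecidableEq ι] (N : HMet W b D) (hW : IsOpen W)
    {P Q : E → Fin D → Fin D → ℂ}
    (hP : ∀ i a, Measurable fun x => P x i a)
    (hPQ : ∀ x ∈ W, FrameAt (N.H x) (P x) (Q x)) :
    Submodule ℂ (HH (μ.restrict W) (ι × Fin D)) :=
  (Submodule.span ℂ {T | ∃ j k a, ∃ ψ : E → ℂ, ∃ h : SCW W ψ,
    T = TT μ N hW hP hPQ (scw_dzb h (b j)) k a - TT μ N hW hP hPQ (scw_dzb h (b k)) j a})ᗮ

theorem mem_KK [DecidableEq ι] (N : HMet W b D) (hW : IsOpen W)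
    {P Q : E → Fin D → Fin D → ℂ}
    (hP : ∀ i a, Measurable fun x => P x i a)
    (hPQ : ∀ x ∈ W, FrameAt (N.H x) (P x) (Q x)) (h : HH (μ.restrict W) (ι × Fin D)) :
    h ∈ KK μ N hW hP hPQ ↔ WeakClosed W μ b (rc P h) := by
  rw [KK, Submodule.mem_orthogonal]
  constructor
  · intro H j k a ψ hψ
    have := H _ (Submodule.subset_span ⟨j, k, a, ψ, hψ, rfl⟩)
    rw [inner_sub_left, inner_TT, inner_TT] at this
    exact sub_eq_zero.1 this
  · intro H u hu
    induction hu using Submodule.span_induction with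
    | mem x hx =>
      obtain ⟨j, k, a, ψ, hψ, rfl⟩ := hx
      rw [inner_sub_left, inner_TT, inner_TT]
      exact sub_eq_zero.2 (H j k a ψ hψ)
    | zero => exact inner_zero_left _
    | add x y _ _ hx hy => rw [inner_add_left, hx, hy, add_zero]
    | smul a x _ hx => rw [inner_smul_left, hx, mul_zero]

/-- orthogonal projection onto closed forms -/
theorem proj (N : HMet W b D) (hW : IsOpen W) (F : ι → Fin D → E → ℂ)
    (hF : ∀ k a, AEStronglyMeasurable (F k a) (μ.restrict W))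
    (hF2 : ∀ k, ∫⁻ x in W, ENNReal.ofReal (N.nsq x (fun a => F k a x)) ∂μ ≠ ⊤) :
    ∃ g : ι → Fin D → E → ℂ, (∀ k a, AEStronglyMeasurable (g k a) (μ.restrict W)) ∧
      (∀ k, ∫⁻ x in W, ENNReal.ofReal (N.nsq x (fun a => g k a x)) ∂μ ≠ ⊤) ∧
      WeakClosed W μ b g ∧
      ∀ v : ι → Fin D → E → ℂ, (∀ k a, AEStronglyMeasurable (v k a) (μ.restrict W)) →
        (∀ k, ∫⁻ x in W, ENNReal.ofReal (N.nsq x (fun a => v k a x)) ∂μ ≠ ⊤) →
        WeakClosed W μ b v →
        ∑ k, ∫ x in W, ip (N.H x) (fun a => v k a x) (fun a => F k a x) ∂μ =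
        ∑ k, ∫ x in W, ip (N.H x) (fun a => v k a x) (fun a => g k a x) ∂μ := by
  classical
  obtain ⟨P, Q, hP, hQ, h1, h2, h3⟩ := N.exists_frame hW
  have hPQ : ∀ x ∈ W, FrameAt (N.H x) (P x) (Q x) := fun x hx => ⟨h1 x hx, h2 x hx⟩
  have hFL : ∀ p : ι × Fin D, MemLp (comp Q (F p.1) p.2) 2 (μ.restrict W) := fun p =>
    memLp_comp μ N hW hQ hPQ (hF p.1) (hF2 p.1) p.2
  set A : HH (μ.restrict W) (ι × Fin D) :=
    mk (μ.restrict W) (fun p : ι × Fin D => comp Q (F p.1) p.2) hFL with hA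
  have hKc : (KK μ N hW hP hPQ).HasOrthogonalProjection := by
    unfold KK
    infer_instance
  obtain ⟨y, hy, z, hz, hyz⟩ := (KK μ N hW hP hPQ).exists_add_mem_mem_orthogonal A
  have hym : ∀ p, StronglyMeasurable (y p : E → ℂ) := fun p => Lp.stronglyMeasurable (y p)
  have hgm : ∀ k a, AEStronglyMeasurable (rc P y k a) (μ.restrict W) := by
    intro k a
    unfold rc
    exact Finset.aestronglyMeasurable_fun_sum _ fun i _ =>
      (hym (k, i)).aestronglyMeasurable.mul (hP i a).aestronglyMeasurable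
  have hcomp : ∀ x ∈ W, ∀ k i, comp Q (rc P y k) i x = y (k, i) x := by
    intro x hx k i
    exact (hPQ x hx).QP (fun i => y (k, i) x) i
  have hg2 : ∀ k, ∫⁻ x in W, ENNReal.ofReal (N.nsq x (fun a => rc P y k a x)) ∂μ ≠ ⊤ := by
    intro k
    have h4 : Integrable (fun x => ∑ i, ‖y (k, i) x‖ ^ 2) (μ.restrict W) :=
      integrable_finsetSum _ fun i _ => (Lp.memLp (y (k, i))).integrable_norm_pow (by norm_num)
    have h5 := h4.lintegral_lt_top.ne
    refine (lt_of_le_of_lt ?_ (lt_top_iff_ne_top.2 h5)).ne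
    refine setLIntegral_mono' hW.measurableSet fun x hx => ?_
    refine ENNReal.ofReal_le_ofReal (le_of_eq ?_)
    rw [HMet.nsq, (hPQ x hx).nsqQ]
    refine Finset.sum_congr rfl fun i _ => ?_
    have := hcomp x hx k i
    rw [comp] at this
    rw [this]
  refine ⟨rc P y, hgm, hg2, (mem_KK μ N hW hP hPQ y).1 hy, ?_⟩
  intro v hv hv2 hvcl
  have hvL : ∀ p : ι × Fin D, MemLp (comp Q (v p.1) p.2) 2 (μ.restrict W) := fun p =>
    memLp_comp μ N hW hQ hPQ (hv p.1) (hv2 p.1) p.2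
  set V : HH (μ.restrict W) (ι × Fin D) :=
    mk (μ.restrict W) (fun p : ι × Fin D => comp Q (v p.1) p.2) hvL with hV
  have hVK : V ∈ KK μ N hW hP hPQ := by
    rw [mem_KK]
    intro j k a ψ hψ
    have h6 : ∀ k a, ∀ φ : E → ℂ, SCW W φ →
        ∫ x, rc P V k a x * φ x ∂μ = ∫ x, v k a x * φ x ∂μ := by
      intro k a φ hφ
      have h7 : ∀ G : E → ℂ, ∫ x, G x * φ x ∂μ = ∫ x in W, G x * φ x ∂μ := by
        intro G
        refine (setIntegral_eq_integral_of_forall_compl_eq_zero fun x hx => ?_).symm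
        have : φ x = 0 := image_eq_zero_of_notMem_tsupport fun h => hx (hφ.2.2 h)
        rw [this, mul_zero]
      rw [h7, h7]
      refine integral_congr_ae ?_
      have h8 : ∀ᵐ x ∂(μ.restrict W), ∀ i, V (k, i) x = comp Q (v k) i x := by
        rw [MeasureTheory.ae_all_iff]
        intro i
        exact (hvL (k, i)).coeFn_toLp
      filter_upwards [h8, ae_restrict_mem hW.measurableSet] with x hx hxW
      have : rc P V k a x = v k a x := by
        unfold rc
        simp only [hx]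
        exact (hPQ x hxW).rec' (fun c => v k c x) a
      rw [this]
    rw [h6 k a _ (scw_dzb hψ (b j)), h6 j a _ (scw_dzb hψ (b k))]
    exact hvcl j k a ψ hψ
  have hin : inner ℂ A V = inner ℂ y V := by
    rw [hyz, inner_add_left, Submodule.inner_left_of_mem_orthogonal hVK hz, add_zero]
  have hl : inner ℂ A V =
      ∑ k, ∫ x in W, ip (N.H x) (fun a => v k a x) (fun a => F k a x) ∂μ := by
    rw [hA, inner_mk_left, Fintype.sum_prod_type]
    refine Finset.sum_congr rfl fun k _ => ?_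
    rw [integral_ip μ N hW hQ hPQ (hv k) (hv2 k) (hF k) (hF2 k)]
    refine Finset.sum_congr rfl fun i _ => ?_
    refine integral_congr_ae ?_
    filter_upwards [(hvL (k, i)).coeFn_toLp] with x hx
    rw [hV, mk_apply, hx]
  have hr : inner ℂ y V =
      ∑ k, ∫ x in W, ip (N.H x) (fun a => v k a x) (fun a => rc P y k a x) ∂μ := by
    rw [PiLp.inner_apply, Fintype.sum_prod_type]
    refine Finset.sum_congr rfl fun k _ => ?_
    rw [integral_ip μ N hW hQ hPQ (hv k) (hv2 k) (hgm k) (hg2 k)]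
    refine Finset.sum_congr rfl fun i _ => ?_
    rw [MeasureTheory.L2.inner_def]
    refine integral_congr_ae ?_
    filter_upwards [(hvL (k, i)).coeFn_toLp, ae_restrict_mem hW.measurableSet] with x hx hxW
    rw [RCLike.inner_apply, hcomp x hxW, hV, mk_apply, hx]
  rw [← hl, ← hr, hin]

end hilb

section main

variable {E : Type} [NormedAddCommGroup E] [NormedSpace ℂ E] [FiniteDimensional ℂ E]
  [MeasurableSpace E] [BorelSpace E] {W : Set E} {ι : Type} [Fintype ι]
  {b : Module.Basis ι ℂ E} {D : ℕ}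

omit [FiniteDimensional ℂ E] [MeasurableSpace E] [BorelSpace E] in
theorem contDiffOn_conj {v : E → ℂ} (hv : ContDiffOn ℝ ∞ v W) :
    ContDiffOn ℝ ∞ (fun x => conj (v x)) W :=
  Complex.conjCLE.contDiff.comp_contDiffOn hv

omit [FiniteDimensional ℂ E] [MeasurableSpace E] [BorelSpace E] in
theorem scw_ip (N : HMet W b D) (hW : IsOpen W) {u v : Fin D → E → ℂ}
    (hu : ∀ a, SCW W (u a)) (hv : ∀ a, ContDiffOn ℝ ∞ (v a) W) :
    SCW W (fun x => ip (N.H x) (fun a => u a x) (fun a => v a x)) := by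
  unfold ip
  refine scw_sum _ fun a => scw_sum _ fun c => ?_
  exact scw_mul hW ((contDiffOn_conj (hv a)).mul (N.smH a c)) (hu c)

omit [FiniteDimensional ℂ E] [MeasurableSpace E] [BorelSpace E] in
theorem nsq_nonneg (N : HMet W b D) {x : E} (hx : x ∈ W) (u : Fin D → ℂ) : 0 ≤ N.nsq x u := by
  by_cases hu : u = 0
  · subst hu
    simp [HMet.nsq, ip]
  · exact (N.pos x hx u hu).le

omit [FiniteDimensional ℂ E] [MeasurableSpace E] [BorelSpace E] in
theorem zero_off {u : Fin D → E → ℂ} (hu : ∀ a, SCW W (u a)) {x : E} (hx : x ∉ W) :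
    (fun a => u a x) = fun _ => 0 := by
  funext a
  exact image_eq_zero_of_notMem_tsupport fun h => hx ((hu a).2.2 h)

theorem int_nsq (N : HMet W b D) (hW : IsOpen W) (μ : Measure E) [μ.IsAddHaarMeasure]
    {u : Fin D → E → ℂ} (hu : ∀ a, SCW W (u a)) :
    Integrable (fun x => N.nsq x (fun a => u a x)) μ := by
  have h1 := scw_ip N hW hu fun a => (hu a).1.contDiffOn
  exact (Complex.continuous_re.comp h1.1.continuous).integrable_of_hasCompactSupport
    (h1.2.1.comp_left Complex.zero_re)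

theorem lint_nsq (N : HMet W b D) (hW : IsOpen W) (μ : Measure E) [μ.IsAddHaarMeasure]
    {u : Fin D → E → ℂ} (hu : ∀ a, SCW W (u a)) :
    ∫⁻ x in W, ENNReal.ofReal (N.nsq x (fun a => u a x)) ∂μ ≠ ⊤ :=
  (int_nsq N hW μ hu).integrableOn.lintegral_lt_top.ne

/-- `N.ch` preserves test functions -/
theorem scw_ch (N : HMet W b D) (hW : IsOpen W) (k : ι) {u : Fin D → E → ℂ}
    (hu : ∀ a, SCW W (u a)) (a : Fin D) : SCW W (fun x => N.ch k u x a) := by
  unfold HMet.ch
  exact scw_add (scw_dz (hu a) _) (scw_sum _ fun c => scw_mul hW (N.smA k a c) (hu c))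

theorem setInt_eq (μ : Measure E) {G : E → ℂ} (h : ∀ x, x ∉ W → G x = 0) :
    ∫ x in W, G x ∂μ = ∫ x, G x ∂μ :=
  setIntegral_eq_integral_of_forall_compl_eq_zero h

theorem closed_dzb (μ : Measure E) [μ.IsAddHaarMeasure] (hW : IsOpen W) {w : Fin D → E → ℂ}
    (hw : ∀ a, SCW W (w a)) : WeakClosed W μ b (fun k a => dzb (b k) (w a)) := by
  intro j k a ψ hψ
  rw [ibp_scalar hW μ (contDiff_dzb (hw a).1 _).contDiffOn hψ,
    ibp_scalar hW μ (contDiff_dzb (hw a).1 _).contDiffOn hψ]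
  simp_rw [dzb_comm (hw a).1 (b j) (b k)]

theorem closed_single (μ : Measure E) [μ.IsAddHaarMeasure] (hW : IsOpen W) [DecidableEq ι]
    (k₀ : ι) (v : Fin D → E → ℂ) (hv : ∀ a, ContDiffOn ℝ ∞ (v a) W)
    (hvcl : ∀ k, k ≠ k₀ → ∀ a, ∀ x ∈ W, dzb (b k) (v a) x = 0) :
    WeakClosed W μ b (fun k a x => if k = k₀ then v a x else 0) := by
  have hz : ∀ j, j ≠ k₀ → ∀ a, ∀ ψ : E → ℂ, SCW W ψ → ∫ x, v a x * dzb (b j) ψ x ∂μ = 0 := by
    intro j hj a ψ hψ
    rw [ibp_scalar hW μ (hv a) hψ]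
    have : ∀ x, dzb (b j) (v a) x * ψ x = 0 := by
      intro x
      by_cases hx : x ∈ W
      · rw [hvcl j hj a x hx, zero_mul]
      · have : ψ x = 0 := image_eq_zero_of_notMem_tsupport fun h => hx (hψ.2.2 h)
        rw [this, mul_zero]
    simp [this]
  intro j k a ψ hψ
  by_cases hk : k = k₀
  · by_cases hj : j = k₀
    · rw [hk, hj]
    · simp only [hk, hj, if_true, if_false, zero_mul, integral_zero]
      exact hz j hj a ψ hψ
  · by_cases hj : j = k₀
    · simp only [hk, hj, if_true, if_false, zero_mul, integral_zero]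
      exact (hz k hk a ψ hψ).symm
    · simp only [hk, hj, if_false, zero_mul]

theorem int_ip' (N : HMet W b D) (hW : IsOpen W) (μ : Measure E) {F G : Fin D → E → ℂ}
    (hF : ∀ a, AEStronglyMeasurable (F a) (μ.restrict W))
    (hF2 : ∫⁻ x in W, ENNReal.ofReal (N.nsq x (fun a => F a x)) ∂μ ≠ ⊤)
    (hG : ∀ a, AEStronglyMeasurable (G a) (μ.restrict W))
    (hG2 : ∫⁻ x in W, ENNReal.ofReal (N.nsq x (fun a => G a x)) ∂μ ≠ ⊤) :
    IntegrableOn (fun x => ip (N.H x) (fun a => F a x) (fun a => G a x)) W μ := by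
  obtain ⟨P, Q, hP, hQ, h1, h2, h3⟩ := N.exists_frame hW
  exact int_ip μ N hW hQ (fun x hx => ⟨h1 x hx, h2 x hx⟩ : ∀ x ∈ W, FrameAt (N.H x) (P x) (Q x))
    hF hF2 hG hG2

theorem cs' (N : HMet W b D) (hW : IsOpen W) {x : E} (hx : x ∈ W) (u v : Fin D → ℂ) :
    ‖ip (N.H x) u v‖ ^ 2 ≤ N.nsq x u * N.nsq x v := by
  obtain ⟨P, Q, hP, hQ, h1, h2, h3⟩ := N.exists_frame hW
  exact (⟨h1 x hx, h2 x hx⟩ : FrameAt (N.H x) (P x) (Q x)).cs u v

theorem aesm_nsq (N : HMet W b D) (hW : IsOpen W) (μ : Measure E) {F : Fin D → E → ℂ}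
    (hF : ∀ a, AEStronglyMeasurable (F a) (μ.restrict W)) :
    AEStronglyMeasurable (fun x => N.nsq x (fun a => F a x)) (μ.restrict W) := by
  unfold HMet.nsq ip
  refine Complex.continuous_re.comp_aestronglyMeasurable ?_
  refine Finset.aestronglyMeasurable_fun_sum _ fun a _ =>
    Finset.aestronglyMeasurable_fun_sum _ fun c _ => ?_
  exact ((Complex.continuous_conj.comp_aestronglyMeasurable (hF a)).mul
    ((N.smH a c).continuousOn.aestronglyMeasurable hW.measurableSet)).mul (hF c)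

theorem lint_cs (ν : Measure E) {G : E → ℂ} {A B : E → ℝ≥0∞} (hA : AEMeasurable A ν)
    (hB : AEMeasurable B ν) (h : ∀ᵐ x ∂ν, ‖G x‖ₑ ^ 2 ≤ A x * B x) :
    ‖∫ x, G x ∂ν‖ₑ ^ 2 ≤ (∫⁻ x, A x ∂ν) * ∫⁻ x, B x ∂ν := by
  have h1 : ‖∫ x, G x ∂ν‖ₑ ≤
      ∫⁻ x, ((fun x => A x ^ (1 / 2 : ℝ)) * fun x => B x ^ (1 / 2 : ℝ)) x ∂ν := by
    refine (enorm_integral_le_lintegral_enorm _).trans (lintegral_mono_ae ?_)
    filter_upwards [h] with x hx
    rw [Pi.mul_apply, ← ENNReal.mul_rpow_of_nonneg _ _ (by norm_num)]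
    calc ‖G x‖ₑ = (‖G x‖ₑ ^ 2) ^ (1 / 2 : ℝ) := by
          rw [← ENNReal.rpow_natCast, ← ENNReal.rpow_mul]
          norm_num
      _ ≤ _ := ENNReal.rpow_le_rpow hx (by norm_num)
  have h2 := h1.trans (ENNReal.lintegral_mul_le_Lp_mul_Lq ν Real.HolderConjugate.two_two
    (hA.pow_const _) (hB.pow_const _))
  have h3 : ∀ y : ℝ≥0∞, (y ^ (1 / 2 : ℝ)) ^ (2 : ℝ) = y := by
    intro y
    rw [← ENNReal.rpow_mul]
    norm_num
  simp only [h3] at h2
  calc ‖∫ x, G x ∂ν‖ₑ ^ 2 ≤
        ((∫⁻ x, A x ∂ν) ^ (1 / 2 : ℝ) * (∫⁻ x, B x ∂ν) ^ (1 / 2 : ℝ)) ^ 2 :=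
        ENNReal.pow_le_pow_left h2
    _ = _ := by
        rw [← ENNReal.mul_rpow_of_nonneg _ _ (by norm_num), ← ENNReal.rpow_natCast,
          ← ENNReal.rpow_mul]
        norm_num

end main

end HDualW

variable {E : Type} [NormedAddCommGroup E] [NormedSpace ℂ E] [FiniteDimensional ℂ E]
  [MeasurableSpace E] [BorelSpace E] {W : Set E} {ι : Type} [Fintype ι]
  {b : Module.Basis ι ℂ E} {D : ℕ}

open HDualW in
/-- `v dzbar_{k₀}` is a closed form; `C₁` bounds `∫ |v|² / κ exp (2 θ - χ)`. -/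
theorem HMet.dual (M : HMet W b D) (hW : IsOpen W) (μ : Measure E) [μ.IsAddHaarMeasure]
    (θ χ : E → ℝ) (hθ : ContDiffOn ℝ ∞ θ W) (hχ : ContDiffOn ℝ ∞ χ W) (κ : E → ℝ)
    (hκ : ContinuousOn κ W) (hκ0 : ∀ x ∈ W, 0 ≤ κ x) (k₀ : ι)
    (hcurv : ∀ x ∈ W, ∀ f : ι → Fin D → ℂ, κ x * M.nsq x (f k₀) ≤ M.curv x f)
    (hlev : ∀ x ∈ W, ∀ f : ι → Fin D → ℂ,
      2 * gradsq b θ x * ∑ k, M.nsq x (f k) ≤ levH b (M.H x) χ x f)
    (hcut : HasCutoffs W b θ)
    (v : Fin D → E → ℂ) (hv : ∀ a, ContDiffOn ℝ ∞ (v a) W)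
    (hvcl : ∀ k, k ≠ k₀ → ∀ a, ∀ x ∈ W, dzb (b k) (v a) x = 0)
    (hv2 : M.L2 μ (fun y => χ y - θ y) v ≠ ⊤)
    (C₁ : ℝ) (hC₁ : 0 ≤ C₁) (hvκ : ∀ x ∈ W, κ x = 0 → ∀ a, v a x = 0)
    (hvM : ∫⁻ x in W, ENNReal.ofReal ((κ x)⁻¹ * M.nsq x (fun a => v a x) *
      Real.exp (2 * θ x - χ x)) ∂μ ≤ ENNReal.ofReal C₁)
    (f : ι → Fin D → E → ℂ) (hf : ∀ k a, SCW W (f k a)) :
    ‖∫ x, ip (M.H x) (fun a => v a x) (fun a => f k₀ a x) * Real.exp (-(χ x - θ x)) ∂μ‖ ^ 2 ≤
      2 * C₁ * ∫ x, M.nsq x (M.LL (fun y => χ y - θ y) f x) * Real.exp (-χ x) ∂μ := by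
  classical
  have hσ : ContDiffOn ℝ ∞ (fun y => χ y - θ y) W := hχ.sub hθ
  set N : HMet W b D := M.twist hW (fun y => χ y - θ y) hσ with hN
  have ipN : ∀ x (u v : Fin D → ℂ), ip (N.H x) u v =
      ip (M.H x) u v * (Real.exp (-(χ x - θ x)) : ℂ) := by
    intro x u v
    rw [mul_comm]
    exact ip_smul (M.H x) _ u v
  have nsqN : ∀ x (u : Fin D → ℂ), N.nsq x u = M.nsq x u * Real.exp (-(χ x - θ x)) := by
    intro x u
    rw [mul_comm]
    exact HMet.nsq_twist M hW _ hσ x u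
  have L2N : ∀ u : Fin D → E → ℂ, ∫⁻ x in W, ENNReal.ofReal (N.nsq x (fun a => u a x)) ∂μ =
      M.L2 μ (fun y => χ y - θ y) u := by
    intro u
    unfold HMet.L2
    simp only [nsqN]
  have hfm : ∀ k a, AEStronglyMeasurable (f k a) (μ.restrict W) := fun k a =>
    (hf k a).1.continuous.aestronglyMeasurable
  have hvm : ∀ a, AEStronglyMeasurable (v a) (μ.restrict W) := fun a =>
    (hv a).continuousOn.aestronglyMeasurable hW.measurableSet
  have hf2 : ∀ k, ∫⁻ x in W, ENNReal.ofReal (N.nsq x (fun a => f k a x)) ∂μ ≠ ⊤ := fun k =>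
    lint_nsq N hW μ (hf k)
  obtain ⟨g, hgm, hg2, hgcl, hg⟩ := proj (μ := μ) N hW f hfm hf2
  -- the divergence of `f`
  have hch : ∀ x a, M.LL (fun y => χ y - θ y) f x a = ∑ k, N.ch k (f k) x a := by
    intro x a
    unfold HMet.LL
    refine Finset.sum_congr rfl fun k _ => ?_
    exact (HMet.ch_twist M hW _ hσ k (f k) x a).symm
  have hl : ∀ a, SCW W (fun x => M.LL (fun y => χ y - θ y) f x a) := by
    intro a
    simp only [hch]
    exact scw_sum _ fun k => scw_ch N hW k (hf k) a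
  have hWLL : M.WeakLL μ (fun y => χ y - θ y) g
      (fun a x => M.LL (fun y => χ y - θ y) f x a) := by
    intro u hu
    have hdu : ∀ k a, SCW W (dzb (b k) (u a)) := fun k a => scw_dzb (hu a) _
    have hdum : ∀ k a, AEStronglyMeasurable (dzb (b k) (u a)) (μ.restrict W) := fun k a =>
      (hdu k a).1.continuous.aestronglyMeasurable
    have hdu2 : ∀ k, ∫⁻ x in W, ENNReal.ofReal (N.nsq x (fun a => dzb (b k) (u a) x)) ∂μ ≠ ⊤ :=
      fun k => lint_nsq N hW μ (hdu k)
    have h1 := hg (fun k a => dzb (b k) (u a)) hdum hdu2 (closed_dzb μ hW hu)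
    have h2 : ∀ k, ∫ x in W, ip (N.H x) (fun a => dzb (b k) (u a) x) (fun a => f k a x) ∂μ =
        - ∫ x, ip (N.H x) (fun a => u a x) (N.ch k (f k) x) ∂μ := by
      intro k
      rw [N.ibp hW μ k u (f k) (fun a => (hu a).1.contDiffOn) (hf k), neg_neg]
      refine setInt_eq μ fun x hx => ?_
      rw [zero_off (hf k) hx, ip_zero_right]
    have h3 : ∀ k, Integrable (fun x => ip (N.H x) (fun a => u a x) (N.ch k (f k) x)) μ := by
      intro k
      have h4 := scw_ip N hW hu fun a => (scw_ch N hW k (hf k) a).1.contDiffOn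
      exact h4.1.continuous.integrable_of_hasCompactSupport h4.2.1
    calc ∫ x, ip (M.H x) (fun a => u a x) (fun a => M.LL (fun y => χ y - θ y) f x a) *
          (Real.exp (-(χ x - θ x)) : ℂ) ∂μ
        = ∫ x, ∑ k, ip (N.H x) (fun a => u a x) (N.ch k (f k) x) ∂μ := by
          refine integral_congr_ae (Filter.Eventually.of_forall fun x => ?_)
          simp only
          rw [← ipN, ← ip_sum_right']
          simp only [hch]
      _ = ∑ k, ∫ x, ip (N.H x) (fun a => u a x) (N.ch k (f k) x) ∂μ :=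
          integral_finsetSum _ fun k _ => h3 k
      _ = - ∑ k, ∫ x in W, ip (N.H x) (fun a => dzb (b k) (u a) x) (fun a => f k a x) ∂μ := by
          rw [Finset.sum_congr rfl fun k _ => h2 k, Finset.sum_neg_distrib, neg_neg]
      _ = - ∑ k, ∫ x in W, ip (N.H x) (fun a => dzb (b k) (u a) x) (fun a => g k a x) ∂μ := by
          rw [h1]
      _ = - ∫ x in W, ∑ k, ip (N.H x) (fun a => dzb (b k) (u a) x) (fun a => g k a x) ∂μ := by
          rw [integral_finsetSum _ fun k _ => int_ip' N hW μ (hdum k) (hdu2 k) (hgm k) (hg2 k)]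
      _ = - ∫ x in W, (∑ k, ip (M.H x) (fun a => dzb (b k) (u a) x) (fun a => g k a x)) *
            (Real.exp (-(χ x - θ x)) : ℂ) ∂μ := by
          congr 1
          refine integral_congr_ae (Filter.Eventually.of_forall fun x => ?_)
          simp only [ipN, Finset.sum_mul]
      _ = - ∫ x, (∑ k, ip (M.H x) (fun a => dzb (b k) (u a) x) (fun a => g k a x)) *
            (Real.exp (-(χ x - θ x)) : ℂ) ∂μ := by
          congr 1
          refine setInt_eq μ fun x hx => ?_
          rw [Finset.sum_eq_zero fun k _ => ?_, zero_mul]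
          rw [zero_off (hdu k) hx, ip_zero_left]
  set l : Fin D → E → ℂ := fun a x => M.LL (fun y => χ y - θ y) f x a with hldef
  set N' : HMet W b D := M.twist hW χ hχ with hN'
  have nsqN' : ∀ x (u : Fin D → ℂ), N'.nsq x u = M.nsq x u * Real.exp (-χ x) := by
    intro x u
    rw [mul_comm]
    exact HMet.nsq_twist M hW _ hχ x u
  have hlint : Integrable (fun x => M.nsq x (fun a => l a x) * Real.exp (-χ x)) μ := by
    have := int_nsq N' hW μ hl
    simpa only [nsqN'] using this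
  have hl0 : ∀ x, x ∉ W → M.nsq x (fun a => l a x) = 0 := by
    intro x hx
    rw [zero_off hl hx, HMet.nsq, ip_zero_left, Complex.zero_re]
  have hl2 : M.L2 μ χ l = ENNReal.ofReal
      (∫ x, M.nsq x (fun a => l a x) * Real.exp (-χ x) ∂μ) := by
    rw [← setIntegral_eq_integral_of_forall_compl_eq_zero (s := W) fun x hx => by
      rw [hl0 x hx, zero_mul]]
    rw [ofReal_integral_eq_lintegral_ofReal hlint.integrableOn]
    · rfl
    · refine (ae_restrict_iff' hW.measurableSet).2 (Filter.Eventually.of_forall fun x hx => ?_)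
      exact mul_nonneg (nsq_nonneg M hx _) (Real.exp_pos _).le
  have hlnn : 0 ≤ ∫ x, M.nsq x (fun a => l a x) * Real.exp (-χ x) ∂μ := by
    refine integral_nonneg fun x => ?_
    by_cases hx : x ∈ W
    · exact mul_nonneg (nsq_nonneg M hx _) (Real.exp_pos _).le
    · simp only [hl0 x hx, zero_mul, Pi.zero_apply, le_refl]
  have hap := M.apriori_weak hW μ θ χ hθ hχ κ hκ hκ0 k₀ hcurv hlev hcut g hgm
    (fun k => by rw [← L2N]; exact hg2 k) l
    (fun a => (hl a).1.continuous.aestronglyMeasurable) (by rw [hl2]; exact ENNReal.ofReal_ne_top)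
    hWLL hgcl
  -- the pairing
  have hvf := hg (fun k a x => if k = k₀ then v a x else 0)
    (fun k a => by
      by_cases hk : k = k₀
      · simpa only [hk, if_true] using hvm a
      · simp only [hk, if_false]
        exact aestronglyMeasurable_const)
    (fun k => by
      by_cases hk : k = k₀
      · simp only [hk, if_true]
        rw [L2N]
        exact hv2
      · simp only [hk, if_false]
        have : ∀ x, N.nsq x (fun _ => 0) = 0 := by
          intro x
          rw [HMet.nsq, ip_zero_left, Complex.zero_re]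
        simp [this])
    (closed_single μ hW k₀ v hv hvcl)
  have hsg : ∀ G : ι → Fin D → E → ℂ,
      ∑ k, ∫ x in W, ip (N.H x) (fun a => if k = k₀ then v a x else 0) (fun a => G k a x) ∂μ =
      ∫ x in W, ip (N.H x) (fun a => v a x) (fun a => G k₀ a x) ∂μ := by
    intro G
    rw [Finset.sum_eq_single k₀]
    · simp only [if_true]
    · intro k _ hk
      simp only [hk, if_false, ip_zero_left, integral_zero]
    · intro h
      exact absurd (Finset.mem_univ k₀) h
  rw [hsg, hsg] at hvf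
  have hpair : ∫ x, ip (M.H x) (fun a => v a x) (fun a => f k₀ a x) *
      (Real.exp (-(χ x - θ x)) : ℂ) ∂μ =
      ∫ x in W, ip (N.H x) (fun a => v a x) (fun a => g k₀ a x) ∂μ := by
    rw [← hvf, setInt_eq μ fun x hx => by rw [zero_off (hf k₀) hx, ip_zero_right]]
    simp only [ipN]
  rw [hpair]
  have hcs := lint_cs (μ.restrict W)
    (G := fun x => ip (N.H x) (fun a => v a x) (fun a => g k₀ a x))
    (A := fun x => ENNReal.ofReal ((κ x)⁻¹ * M.nsq x (fun a => v a x) *
      Real.exp (2 * θ x - χ x)))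
    (B := fun x => ENNReal.ofReal (κ x * M.nsq x (fun a => g k₀ a x) * Real.exp (-χ x)))
    (by
      have h1 : AEMeasurable κ (μ.restrict W) := hκ.aemeasurable hW.measurableSet
      have h2 : AEMeasurable (fun x => Real.exp (2 * θ x - χ x)) (μ.restrict W) :=
        (Real.continuous_exp.comp_continuousOn
          ((continuousOn_const.mul hθ.continuousOn).sub hχ.continuousOn)).aemeasurable
          hW.measurableSet
      exact ((h1.inv.mul (aesm_nsq M hW μ hvm).aemeasurable).mul h2).ennreal_ofReal)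
    (by
      have h1 : AEMeasurable κ (μ.restrict W) := hκ.aemeasurable hW.measurableSet
      have h2 : AEMeasurable (fun x => Real.exp (-χ x)) (μ.restrict W) :=
        (Real.continuous_exp.comp_continuousOn hχ.continuousOn.neg).aemeasurable
          hW.measurableSet
      exact ((h1.mul (aesm_nsq M hW μ (hgm k₀)).aemeasurable).mul h2).ennreal_ofReal)
    (by
      refine (ae_restrict_iff' hW.measurableSet).2 (Filter.Eventually.of_forall fun x hx => ?_)
      have hκx := hκ0 x hx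
      have hnv := nsq_nonneg M hx (fun a => v a x)
      have hng := nsq_nonneg M hx (fun a => g k₀ a x)
      rw [← ENNReal.ofReal_mul (by positivity), ← ofReal_norm,
        ← ENNReal.ofReal_pow (norm_nonneg _)]
      refine ENNReal.ofReal_le_ofReal ?_
      by_cases hk : κ x = 0
      · have : (fun a => v a x) = fun _ => 0 := by
          funext a
          exact hvκ x hx hk a
        simp [this, ip_zero_left, hk]
      · rw [ipN, norm_mul, mul_pow, Complex.norm_real, Real.norm_eq_abs, abs_of_pos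
          (Real.exp_pos _)]
        have h1 := cs' M hW hx (fun a => v a x) (fun a => g k₀ a x)
        calc ‖ip (M.H x) (fun a => v a x) (fun a => g k₀ a x)‖ ^ 2 *
              Real.exp (-(χ x - θ x)) ^ 2
            ≤ (M.nsq x (fun a => v a x) * M.nsq x (fun a => g k₀ a x)) *
              Real.exp (-(χ x - θ x)) ^ 2 := by gcongr
          _ = _ := by
              have h2 : Real.exp (-(χ x - θ x)) ^ 2 =
                  Real.exp (2 * θ x - χ x) * Real.exp (-χ x) := by
                rw [← Real.exp_nat_mul, ← Real.exp_add]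
                congr 1
                push_cast
                ring
              rw [h2]
              field_simp)
  have hfin : ENNReal.ofReal (‖∫ x in W, ip (N.H x) (fun a => v a x)
      (fun a => g k₀ a x) ∂μ‖ ^ 2) ≤ ENNReal.ofReal
      (2 * C₁ * ∫ x, M.nsq x (fun a => l a x) * Real.exp (-χ x) ∂μ) := by
    calc ENNReal.ofReal (‖∫ x in W, ip (N.H x) (fun a => v a x) (fun a => g k₀ a x) ∂μ‖ ^ 2)
        = ‖∫ x in W, ip (N.H x) (fun a => v a x) (fun a => g k₀ a x) ∂μ‖ₑ ^ 2 := by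
          rw [ENNReal.ofReal_pow (norm_nonneg _), ofReal_norm]
      _ ≤ _ := hcs
      _ ≤ ENNReal.ofReal C₁ * (2 * M.L2 μ χ l) := by gcongr
      _ = _ := by
          rw [hl2, ENNReal.ofReal_mul (by positivity), ENNReal.ofReal_mul (by norm_num)]
          rw [ENNReal.ofReal_ofNat]
          ring
  exact (ENNReal.ofReal_le_ofReal_iff (by positivity)).1 hfin

end Pool.Agent.Lib_KF
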