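import Pool.Agent.Lib_KF.HDefs

/-! H02: integration by parts; `- ∂bar_k` is the adjoint of the Chern connection. -/

open MeasureTheory Complex
open scoped ENNReal ContDiff ComplexConjugate

namespace Pool.Agent.Lib_KF

open GPn

section HIbp_calc

variable {E : Type} [NormedAddCommGroup E] [NormedSpace ℂ E] {W : Set E}

private lemma HIbp_fd {F : E → ℂ} (hW : IsOpen W) (hF : ContDiffOn ℝ ∞ F W) (v : E) :
    ContDiffOn ℝ ∞ (fun x => fderiv ℝ F x v) W := by
  have h : ContDiffOn ℝ ∞ (fderiv ℝ F) W := hF.fderiv_of_isOpen hW (by simp)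
  exact h.clm_apply contDiffOn_const

private lemma HIbp_dz {F : E → ℂ} (hW : IsOpen W) (hF : ContDiffOn ℝ ∞ F W) (v : E) :
    ContDiffOn ℝ ∞ (dz v F) W := by
  have h1 := HIbp_fd hW hF v
  have h2 := HIbp_fd hW hF (I • v)
  have : dz v F = fun x => (fderiv ℝ F x v - I * fderiv ℝ F x (I • v)) / 2 := rfl
  rw [this]
  exact (h1.sub (contDiffOn_const.mul h2)).div_const 2

private lemma HIbp_dzb {F : E → ℂ} (hW : IsOpen W) (hF : ContDiffOn ℝ ∞ F W) (v : E) :
    ContDiffOn ℝ ∞ (dzb v F) W := by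
  have h1 := HIbp_fd hW hF v
  have h2 := HIbp_fd hW hF (I • v)
  have : dzb v F = fun x => (fderiv ℝ F x v + I * fderiv ℝ F x (I • v)) / 2 := rfl
  rw [this]
  exact (h1.add (contDiffOn_const.mul h2)).div_const 2

private lemma HIbp_da {F : E → ℂ} (hW : IsOpen W) (hF : ContDiffOn ℝ ∞ F W) {x : E}
    (hx : x ∈ W) : DifferentiableAt ℝ F x :=
  (hF.contDiffAt (hW.mem_nhds hx)).differentiableAt (by simp)

private lemma HIbp_dzb_mul {F G : E → ℂ} {x : E} (hF : DifferentiableAt ℝ F x)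
    (hG : DifferentiableAt ℝ G x) (v : E) :
    dzb v (fun y => F y * G y) x = dzb v F x * G x + F x * dzb v G x := by
  have h := fderiv_fun_mul hF hG
  simp only [dzb, h, add_apply, smul_apply, smul_eq_mul]
  ring

private lemma HIbp_dzb_add {F G : E → ℂ} {x : E} (hF : DifferentiableAt ℝ F x)
    (hG : DifferentiableAt ℝ G x) (v : E) :
    dzb v (fun y => F y + G y) x = dzb v F x + dzb v G x := by
  have h := fderiv_fun_add hF hG
  simp only [dzb, h, add_apply]
  ring

private lemma HIbp_dzb_sum {κ : Type*} (s : Finset κ) {F : κ → E → ℂ} {x : E}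
    (hF : ∀ i, DifferentiableAt ℝ (F i) x) (v : E) :
    dzb v (fun y => ∑ i ∈ s, F i y) x = ∑ i ∈ s, dzb v (F i) x := by
  classical
  induction s using Finset.induction_on with
  | empty => simp [dzb]
  | insert i s hi ih =>
    simp only [Finset.sum_insert hi]
    rw [HIbp_dzb_add (hF i) (DifferentiableAt.fun_sum fun i _ => hF i), ih]

private lemma HIbp_conj_da {F : E → ℂ} {x : E} (hF : DifferentiableAt ℝ F x) :
    DifferentiableAt ℝ (fun y => conj (F y)) x :=
  Complex.conjCLE.toContinuousLinearMap.differentiableAt.comp x hF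

private lemma HIbp_conj_fd {F : E → ℂ} {x : E} (hF : DifferentiableAt ℝ F x) (w : E) :
    fderiv ℝ (fun y => conj (F y)) x w = conj (fderiv ℝ F x w) := by
  have h2 := (Complex.conjCLE.toContinuousLinearMap.hasFDerivAt (x := F x)).comp x
    hF.hasFDerivAt
  have h3 : HasFDerivAt (fun y => conj (F y))
    (Complex.conjCLE.toContinuousLinearMap.comp (fderiv ℝ F x)) x := h2
  rw [h3.fderiv]
  simp

private lemma HIbp_dzb_conj {F : E → ℂ} {x : E} (hF : DifferentiableAt ℝ F x) (v : E) :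
    dzb v (fun y => conj (F y)) x = conj (dz v F x) := by
  simp only [dzb, dz, HIbp_conj_fd hF, map_div₀, map_sub, map_mul, conj_I,
    map_ofNat (starRingEnd ℂ) 2]
  ring

private lemma HIbp_dzb_congr {F G : E → ℂ} {x : E} (h : F =ᶠ[nhds x] G) (v : E) :
    dzb v F x = dzb v G x := by
  simp only [dzb, h.fderiv_eq]

private lemma HIbp_glue (hW : IsOpen W) {K : Set E} (hK : IsClosed K) (hKW : K ⊆ W)
    {F : E → ℂ} (hF : ContDiffOn ℝ ∞ F W) (h0 : ∀ x, x ∉ K → F x = 0) : ContDiff ℝ ∞ F := by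
  rw [contDiff_iff_contDiffAt]
  intro x
  by_cases hx : x ∈ K
  · exact hF.contDiffAt (hW.mem_nhds (hKW hx))
  · have h1 : F =ᶠ[nhds x] fun _ => 0 := by
      filter_upwards [hK.isOpen_compl.mem_nhds hx] with y hy
      exact h0 y hy
    exact (contDiffAt_const (c := (0 : ℂ))).congr_of_eventuallyEq h1

end HIbp_calc

variable {E : Type} [NormedAddCommGroup E] [NormedSpace ℂ E] [FiniteDimensional ℂ E]
  [MeasurableSpace E] [BorelSpace E] {W : Set E} {ι : Type} [Fintype ι]
  {b : Module.Basis ι ℂ E} {D : ℕ}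

/-- Product rule for the hermitian form. -/
theorem HMet.dzb_ip (M : HMet W b D) (hW : IsOpen W) (k : ι) (u f : Fin D → E → ℂ)
    (hu : ∀ a, ContDiffOn ℝ ∞ (u a) W) (hf : ∀ a, ContDiffOn ℝ ∞ (f a) W) (x : E) (hx : x ∈ W) :
    dzb (b k) (fun y => ip (M.H y) (fun a => u a y) (fun a => f a y)) x =
      ip (M.H x) (fun a => dzb (b k) (u a) x) (fun a => f a x) +
      ip (M.H x) (fun a => u a x) (M.ch k f x) := by
  have hu' : ∀ a, DifferentiableAt ℝ (u a) x := fun a => HIbp_da hW (hu a) hx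
  have hf' : ∀ a, DifferentiableAt ℝ (f a) x := fun a => HIbp_da hW (hf a) hx
  have hH' : ∀ a c, DifferentiableAt ℝ (fun y => M.H y a c) x := fun a c =>
    HIbp_da hW (M.smH a c) hx
  have hc' : ∀ a, DifferentiableAt ℝ (fun y => conj (f a y)) x := fun a => HIbp_conj_da (hf' a)
  have h1 : ∀ a c, DifferentiableAt ℝ (fun y => conj (f a y) * M.H y a c) x := fun a c =>
    (hc' a).mul (hH' a c)
  have h2 : ∀ a c, DifferentiableAt ℝ (fun y => conj (f a y) * M.H y a c * u c y) x :=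
    fun a c => (h1 a c).mul (hu' c)
  have h3 : ∀ a, DifferentiableAt ℝ (fun y => ∑ c, conj (f a y) * M.H y a c * u c y) x :=
    fun a => DifferentiableAt.fun_sum fun c _ => h2 a c
  have hdH : ∀ a c, dzb (b k) (fun y => M.H y a c) x =
      ∑ e, M.H x e c * conj (M.A k x e a) := by
    intro a c
    have hev : (fun y => M.H y a c) =ᶠ[nhds x] fun y => conj (M.H y c a) := by
      filter_upwards [hW.mem_nhds hx] with y hy
      exact M.herm y hy a c
    rw [HIbp_dzb_congr hev, HIbp_dzb_conj (hH' c a), M.chern k c a x hx, map_sum]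
    refine Finset.sum_congr rfl fun e _ => ?_
    rw [map_mul, ← M.herm x hx e c]
  simp only [ip]
  rw [HIbp_dzb_sum _ h3]
  have h4 : ∀ a, dzb (b k) (fun y => ∑ c, conj (f a y) * M.H y a c * u c y) x =
      ∑ c, (conj (dz (b k) (f a) x) * M.H x a c * u c x +
        conj (f a x) * (∑ e, M.H x e c * conj (M.A k x e a)) * u c x +
        conj (f a x) * M.H x a c * dzb (b k) (u c) x) := by
    intro a
    rw [HIbp_dzb_sum _ (h2 a)]
    refine Finset.sum_congr rfl fun c _ => ?_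
    rw [HIbp_dzb_mul (h1 a c) (hu' c), HIbp_dzb_mul (hc' a) (hH' a c), HIbp_dzb_conj (hf' a),
      hdH a c]
    ring
  rw [Finset.sum_congr rfl fun a _ => h4 a]
  have h5 : ∑ a, ∑ c, conj (f a x) * (∑ e, M.H x e c * conj (M.A k x e a)) * u c x =
      ∑ a, ∑ c, conj (∑ e, M.A k x a e * f e x) * M.H x a c * u c x := by
    simp only [map_sum, map_mul, Finset.mul_sum, Finset.sum_mul]
    rw [Finset.sum_comm]
    rw [Finset.sum_comm (f := fun a c => ∑ e, conj (M.A k x a e) * conj (f e x) *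
      M.H x a c * u c x)]
    refine Finset.sum_congr rfl fun c _ => ?_
    rw [Finset.sum_comm]
    refine Finset.sum_congr rfl fun a _ => Finset.sum_congr rfl fun e _ => ?_
    ring
  simp only [HMet.ch, map_add, add_mul, Finset.sum_add_distrib]
  rw [h5]
  ring

private lemma HIbp_smooth (M : HMet W b D) {p q : Fin D → E → ℂ}
    (hp : ∀ a, ContDiffOn ℝ ∞ (p a) W) (hq : ∀ a, ContDiffOn ℝ ∞ (q a) W) :
    ContDiffOn ℝ ∞ (fun x => ip (M.H x) (fun a => p a x) (fun a => q a x)) W := by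
  simp only [ip]
  refine ContDiffOn.sum fun a _ => ContDiffOn.sum fun c _ => ?_
  refine ((?_ : ContDiffOn ℝ ∞ (fun x => conj (q a x)) W).mul (M.smH a c)).mul (hp c)
  exact Complex.conjCLE.contDiff.comp_contDiffOn (hq a)

private lemma HIbp_ch_smooth (M : HMet W b D) (hW : IsOpen W) (k : ι) {u : Fin D → E → ℂ}
    (hu : ∀ a, ContDiffOn ℝ ∞ (u a) W) (a : Fin D) :
    ContDiffOn ℝ ∞ (fun x => M.ch k u x a) W := by
  have e : (fun x => M.ch k u x a) =
      fun y => dz (b k) (u a) y + ∑ c, M.A k y a c * u c y := rfl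
  rw [e]
  exact (HIbp_dz hW (hu a) (b k)).add (ContDiffOn.sum fun c _ => (M.smA k a c).mul (hu c))

private lemma HIbp_zero (μ : Measure E) [μ.IsAddHaarMeasure] {g : E → ℂ}
    (hg : ContDiff ℝ ∞ g) {K : Set E} (hK : IsCompact K) (h0 : ∀ x, x ∉ K → g x = 0) (a : E) :
    ∫ x, dzb a g x ∂μ = 0 := by
  have : FiniteDimensional ℝ E := FiniteDimensional.complexToReal E
  have : ProperSpace E := FiniteDimensional.proper ℝ E
  have hgc : HasCompactSupport g := HasCompactSupport.intro hK h0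
  have hfc : ∀ v : E, Continuous fun x => fderiv ℝ g x v := fun v =>
    ((hg.fderiv_right (m := ∞) (by simp)).clm_apply contDiff_const).continuous
  have hfi : ∀ v : E, Integrable (fun x => fderiv ℝ g x v) μ := fun v =>
    (hfc v).integrable_of_hasCompactSupport (hgc.fderiv_apply ℝ v)
  have key : ∀ v : E, ∫ x, fderiv ℝ g x v ∂μ = 0 := by
    intro v
    have h := integral_mul_fderiv_eq_neg_fderiv_mul_of_integrable (μ := μ) (v := v)
      (f := fun _ : E => (1 : ℂ)) (g := g) (by simp) (by simpa using hfi v)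
      (by simpa using hg.continuous.integrable_of_hasCompactSupport hgc)
      (fun x _ => differentiableAt_const _) (fun x _ => hg.contDiffAt.differentiableAt (by simp))
    simpa using h
  have e1 : ∫ x, dzb a g x ∂μ =
      (∫ x, fderiv ℝ g x a ∂μ) * 2⁻¹ + (∫ x, fderiv ℝ g x (I • a) ∂μ) * (I * 2⁻¹) := by
    rw [← integral_mul_const, ← integral_mul_const, ← integral_add ((hfi a).mul_const _)
      ((hfi (I • a)).mul_const _)]
    refine integral_congr_ae (Filter.Eventually.of_forall fun x => ?_)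
    simp only [dzb]
    ring
  rw [e1, key, key]
  simp

private lemma HIbp_core (M : HMet W b D) (hW : IsOpen W) (μ : Measure E) [μ.IsAddHaarMeasure]
    (k : ι) {K : Set E} (hK : IsCompact K) (hKW : K ⊆ W)
    (p q : Fin D → E → ℂ) (hp : ∀ a, ContDiffOn ℝ ∞ (p a) W) (hq : ∀ a, ContDiffOn ℝ ∞ (q a) W)
    (h0 : ∀ x, x ∉ K → ip (M.H x) (fun a => p a x) (fun a => q a x) = 0)
    (h1 : ∀ x, x ∉ K → ip (M.H x) (fun a => dzb (b k) (p a) x) (fun a => q a x) = 0)
    (h2 : ∀ x, x ∉ K → ip (M.H x) (fun a => p a x) (M.ch k q x) = 0) :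
    ∫ x, ip (M.H x) (fun a => p a x) (M.ch k q x) ∂μ =
      - ∫ x, ip (M.H x) (fun a => dzb (b k) (p a) x) (fun a => q a x) ∂μ := by
  have : FiniteDimensional ℝ E := FiniteDimensional.complexToReal E
  have : ProperSpace E := FiniteDimensional.proper ℝ E
  have hg : ContDiff ℝ ∞ (fun x => ip (M.H x) (fun a => p a x) (fun a => q a x)) :=
    HIbp_glue hW hK.isClosed hKW (HIbp_smooth M hp hq) h0
  have hg1 : ContDiff ℝ ∞ (fun x => ip (M.H x) (fun a => dzb (b k) (p a) x) (fun a => q a x)) :=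
    HIbp_glue hW hK.isClosed hKW (HIbp_smooth M (fun a => HIbp_dzb hW (hp a) (b k)) hq) h1
  have hg2 : ContDiff ℝ ∞ (fun x => ip (M.H x) (fun a => p a x) (M.ch k q x)) :=
    HIbp_glue hW hK.isClosed hKW (HIbp_smooth M hp (HIbp_ch_smooth M hW k hq)) h2
  have i1 := hg1.continuous.integrable_of_hasCompactSupport (μ := μ) (HasCompactSupport.intro hK h1)
  have i2 := hg2.continuous.integrable_of_hasCompactSupport (μ := μ) (HasCompactSupport.intro hK h2)
  have hz := HIbp_zero μ hg hK h0 (b k)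
  have hs : ∫ x, dzb (b k) (fun x => ip (M.H x) (fun a => p a x) (fun a => q a x)) x ∂μ =
      ∫ x, ip (M.H x) (fun a => dzb (b k) (p a) x) (fun a => q a x) ∂μ +
      ∫ x, ip (M.H x) (fun a => p a x) (M.ch k q x) ∂μ := by
    rw [← integral_add i1 i2]
    refine integral_congr_ae (Filter.Eventually.of_forall fun x => ?_)
    by_cases hx : x ∈ K
    · exact M.dzb_ip hW k p q hp hq x (hKW hx)
    · have hev : (fun x => ip (M.H x) (fun a => p a x) (fun a => q a x)) =ᶠ[nhds x]
          fun _ => (0 : ℂ) := by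
        filter_upwards [hK.isClosed.isOpen_compl.mem_nhds hx] with y hy
        exact h0 y hy
      simp only [h1 x hx, h2 x hx, add_zero]
      rw [HIbp_dzb_congr hev]
      simp [dzb]
  rw [hz] at hs
  exact eq_neg_of_add_eq_zero_right hs.symm

theorem HMet.ibp (M : HMet W b D) (hW : IsOpen W) (μ : Measure E) [μ.IsAddHaarMeasure] (k : ι)
    (u f : Fin D → E → ℂ) (hu : ∀ a, ContDiffOn ℝ ∞ (u a) W) (hf : ∀ a, SCW W (f a)) :
    ∫ x, ip (M.H x) (fun a => u a x) (M.ch k f x) ∂μ =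
      - ∫ x, ip (M.H x) (fun a => dzb (b k) (u a) x) (fun a => f a x) ∂μ := by
  set K : Set E := ⋃ a, tsupport (f a) with hKdef
  have hK : IsCompact K := isCompact_iUnion fun a => (hf a).2.1
  have hKW : K ⊆ W := Set.iUnion_subset fun a => (hf a).2.2
  have hns : ∀ x, x ∉ K → ∀ a, x ∉ tsupport (f a) := fun x hx a h =>
    hx (Set.mem_iUnion.2 ⟨a, h⟩)
  have hf0 : ∀ x, x ∉ K → ∀ a, f a x = 0 := fun x hx a =>
    image_eq_zero_of_notMem_tsupport (hns x hx a)
  have hfd0 : ∀ x, x ∉ K → ∀ a, fderiv ℝ (f a) x = 0 := fun x hx a =>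
    fderiv_of_notMem_tsupport ℝ (hns x hx a)
  refine HIbp_core M hW μ k hK hKW u f hu (fun a => (hf a).1.contDiffOn) ?_ ?_ ?_
  · intro x hx
    simp [ip, hf0 x hx]
  · intro x hx
    simp [ip, hf0 x hx]
  · intro x hx
    simp [ip, HMet.ch, dz, hf0 x hx, hfd0 x hx]

/-- The same with the compactly supported factor first. -/
theorem HMet.ibp' (M : HMet W b D) (hW : IsOpen W) (μ : Measure E) [μ.IsAddHaarMeasure] (k : ι)
    (u f : Fin D → E → ℂ) (hu : ∀ a, ContDiffOn ℝ ∞ (u a) W) (hf : ∀ a, SCW W (f a)) :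
    ∫ x, ip (M.H x) (fun a => f a x) (M.ch k u x) ∂μ =
      - ∫ x, ip (M.H x) (fun a => dzb (b k) (f a) x) (fun a => u a x) ∂μ := by
  set K : Set E := ⋃ a, tsupport (f a) with hKdef
  have hK : IsCompact K := isCompact_iUnion fun a => (hf a).2.1
  have hKW : K ⊆ W := Set.iUnion_subset fun a => (hf a).2.2
  have hns : ∀ x, x ∉ K → ∀ a, x ∉ tsupport (f a) := fun x hx a h =>
    hx (Set.mem_iUnion.2 ⟨a, h⟩)
  have hf0 : ∀ x, x ∉ K → ∀ a, f a x = 0 := fun x hx a =>
    image_eq_zero_of_notMem_tsupport (hns x hx a)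
  have hfd0 : ∀ x, x ∉ K → ∀ a, fderiv ℝ (f a) x = 0 := fun x hx a =>
    fderiv_of_notMem_tsupport ℝ (hns x hx a)
  refine HIbp_core M hW μ k hK hKW f u (fun a => (hf a).1.contDiffOn) hu ?_ ?_ ?_
  · intro x hx
    simp [ip, hf0 x hx]
  · intro x hx
    simp [ip, dzb, hfd0 x hx]
  · intro x hx
    simp [ip, hf0 x hx]

end Pool.Agent.Lib_KF
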