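import Pool.Agent.Lib_KF.HWeakDefs

/-! H09: the auxiliary weights `θ_t = 2 log (1 + t ρ)`, `χ_t = B t² ρ⁵`. -/

open MeasureTheory Complex
open scoped ENNReal ContDiff ComplexConjugate

namespace Pool.Agent.Lib_KF

open GPn

variable {E : Type} [NormedAddCommGroup E] [NormedSpace ℂ E] [FiniteDimensional ℂ E]
  {W : Set E} {ι : Type} [Fintype ι] {b : Module.Basis ι ℂ E} {D : ℕ}

/-- A good exhaustion function of `W`. -/
structure Exhaust (W : Set E) (b : Module.Basis ι ℂ E) (ρ : E → ℝ) : Prop where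
  smooth : ContDiffOn ℝ ∞ ρ W
  one_le : ∀ x ∈ W, 1 ≤ ρ x
  compact : ∀ c : ℝ, IsCompact {x | x ∈ W ∧ ρ x ≤ c}
  grad : ∃ C : ℝ, ∀ x ∈ W, gradsq b ρ x ≤ C * ρ x ^ 4
  levi : ∀ x ∈ W, ∀ a : ι → ℂ, ∑ k, ‖a k‖ ^ 2 ≤
    (∑ j, ∑ k, dzb (b k) (dz (b j) (fun y => (ρ y : ℂ))) x * a j * conj (a k)).re

section HWt_aux

omit [FiniteDimensional ℂ E] in
private lemma HWt_ip_nonneg (M : HMet W b D) {x : E} (hx : x ∈ W) (u : Fin D → ℂ) :
    0 ≤ (ip (M.H x) u u).re := by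
  by_cases h : u = 0
  · subst h
    simp [ip]
  · exact (M.pos x hx u h).le

omit [FiniteDimensional ℂ E] in
private lemma HWt_ip_im (M : HMet W b D) {x : E} (hx : x ∈ W) (u : Fin D → ℂ) :
    (ip (M.H x) u u).im = 0 := by
  have h : conj (ip (M.H x) u u) = ip (M.H x) u u := by
    unfold ip
    rw [map_sum]
    simp only [map_sum, map_mul, Complex.conj_conj]
    rw [Finset.sum_comm]
    refine Finset.sum_congr rfl fun c _ => Finset.sum_congr rfl fun a _ => ?_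
    rw [M.herm x hx a c, Complex.conj_conj]
    ring
  exact Complex.conj_eq_iff_im.1 h

open scoped MatrixOrder ComplexOrder Matrix.Norms.L2Operator in
omit [FiniteDimensional ℂ E] in
private lemma HWt_factor (M : HMet W b D) {x : E} (hx : x ∈ W) :
    ∃ B : Fin D → Fin D → ℂ, ∀ u v : Fin D → ℂ, ip (M.H x) u v =
      ∑ i, (∑ c, B i c * u c) * conj (∑ a, B i a * v a) := by
  set A : Matrix (Fin D) (Fin D) ℂ := Matrix.of (M.H x) with hA
  have hherm : A.IsHermitian := by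
    ext a c
    simp only [Matrix.conjTranspose_apply, hA, Matrix.of_apply]
    exact (M.herm x hx a c).symm
  have hps : A.PosSemidef := by
    refine Matrix.PosSemidef.of_dotProduct_mulVec_nonneg hherm fun u => ?_
    have h1 : star u ⬝ᵥ (A.mulVec u) = ip (M.H x) u u := by
      simp only [dotProduct, Matrix.mulVec, ip, Pi.star_apply, Finset.mul_sum, hA,
        Matrix.of_apply]
      refine Finset.sum_congr rfl fun a _ => Finset.sum_congr rfl fun c _ => ?_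
      simp only [RCLike.star_def]
      ring
    rw [h1, Complex.nonneg_iff]
    exact ⟨HWt_ip_nonneg M hx u, (HWt_ip_im M hx u).symm⟩
  obtain ⟨B, hB⟩ := CStarAlgebra.nonneg_iff_eq_star_mul_self.mp hps.nonneg
  refine ⟨fun i c => B i c, fun u v => ?_⟩
  have hH : ∀ a c, M.H x a c = ∑ i, conj (B i a) * B i c := by
    intro a c
    have h := congrFun (congrFun hB a) c
    simp only [hA, Matrix.of_apply] at h
    rw [h, Matrix.mul_apply]
    rfl
  have h3 : ∀ i, (∑ c, B i c * u c) * conj (∑ a, B i a * v a) =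
      ∑ a, ∑ c, conj (v a) * (conj (B i a) * B i c) * u c := by
    intro i
    rw [map_sum, mul_comm, Finset.sum_mul_sum]
    refine Finset.sum_congr rfl fun a _ => Finset.sum_congr rfl fun c _ => ?_
    rw [map_mul]
    ring
  rw [Finset.sum_congr rfl fun i _ => h3 i]
  have h4 : ∑ i, ∑ a, ∑ c, conj (v a) * (conj (B i a) * B i c) * u c =
      ∑ a, ∑ c, ∑ i, conj (v a) * (conj (B i a) * B i c) * u c :=
    Finset.sum_comm.trans (Finset.sum_congr rfl fun a _ => Finset.sum_comm)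
  rw [h4]
  unfold ip
  refine Finset.sum_congr rfl fun a _ => Finset.sum_congr rfl fun c _ => ?_
  rw [hH, Finset.mul_sum, Finset.sum_mul]

end HWt_aux

/-- Positivity of the Levi form gives positivity on vectors: if `∑ P_{jk} a_j conj a_k ≥ c |a|²`
then `∑ P_{jk} ⟨f_j, f_k⟩ ≥ c ∑ |f_k|²`. -/
theorem levH_ge (M : HMet W b D) (χ : E → ℝ) (x : E) (hx : x ∈ W) (c : ℝ)
    (h : ∀ a : ι → ℂ, c * ∑ k, ‖a k‖ ^ 2 ≤
      (∑ j, ∑ k, dzb (b k) (dz (b j) (fun y => (χ y : ℂ))) x * a j * conj (a k)).re)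
    (f : ι → Fin D → ℂ) : c * ∑ k, M.nsq x (f k) ≤ levH b (M.H x) χ x f := by
  obtain ⟨B, hB⟩ := HWt_factor M hx
  set P : ι → ι → ℂ := fun j k => dzb (b k) (dz (b j) (fun y => (χ y : ℂ))) x with hP
  have h1 : levH b (M.H x) χ x f =
      ∑ i, (∑ j, ∑ k, P j k * (∑ c, B i c * f j c) * conj (∑ a, B i a * f k a)).re := by
    rw [← Complex.re_sum]
    unfold levH
    congr 1
    have h4 : ∑ i, ∑ j, ∑ k, P j k * (∑ c, B i c * f j c) * conj (∑ a, B i a * f k a) =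
        ∑ j, ∑ k, ∑ i, P j k * (∑ c, B i c * f j c) * conj (∑ a, B i a * f k a) :=
      Finset.sum_comm.trans (Finset.sum_congr rfl fun a _ => Finset.sum_comm)
    rw [h4]
    refine Finset.sum_congr rfl fun j _ => Finset.sum_congr rfl fun k _ => ?_
    rw [hB, Finset.mul_sum]
    exact Finset.sum_congr rfl fun i _ => (mul_assoc _ _ _).symm
  have h2 : ∀ k, M.nsq x (f k) = ∑ i, ‖∑ c, B i c * f k c‖ ^ 2 := by
    intro k
    unfold HMet.nsq
    rw [hB, Complex.re_sum]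
    refine Finset.sum_congr rfl fun i _ => ?_
    rw [Complex.mul_conj, Complex.normSq_eq_norm_sq, Complex.ofReal_re]
  rw [h1]
  simp only [h2]
  rw [Finset.sum_comm, Finset.mul_sum]
  exact Finset.sum_le_sum fun i _ => h fun k => ∑ c, B i c * f k c

section HWt_aux2

omit [FiniteDimensional ℂ E] in
private lemma HWt_fd {ρ : E → ℝ} {x : E} (hρ : DifferentiableAt ℝ ρ x) {G : ℝ → ℝ} {G' : ℝ}
    (hG : HasDerivAt G G' (ρ x)) (v : E) :
    fderiv ℝ (fun y => ((G (ρ y) : ℝ) : ℂ)) x v =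
      (G' : ℂ) * fderiv ℝ (fun y => (ρ y : ℂ)) x v := by
  have h1 : HasFDerivAt (fun y => G (ρ y)) (G' • fderiv ℝ ρ x) x :=
    hG.comp_hasFDerivAt x hρ.hasFDerivAt
  have h2 : fderiv ℝ (fun y => ((G (ρ y) : ℝ) : ℂ)) x = Complex.ofRealCLM.comp
      (G' • fderiv ℝ ρ x) := (Complex.ofRealCLM.hasFDerivAt.comp x h1).fderiv
  have h3 : fderiv ℝ (fun y => (ρ y : ℂ)) x = Complex.ofRealCLM.comp (fderiv ℝ ρ x) :=
    (Complex.ofRealCLM.hasFDerivAt.comp x hρ.hasFDerivAt).fderiv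
  rw [h2, h3]
  simp

omit [FiniteDimensional ℂ E] in
private lemma HWt_dz {ρ : E → ℝ} {x : E} (hρ : DifferentiableAt ℝ ρ x) {G : ℝ → ℝ} {G' : ℝ}
    (hG : HasDerivAt G G' (ρ x)) (v : E) :
    dz v (fun y => ((G (ρ y) : ℝ) : ℂ)) x = (G' : ℂ) * dz v (fun y => (ρ y : ℂ)) x := by
  simp only [dz, HWt_fd hρ hG]
  ring

omit [FiniteDimensional ℂ E] in
private lemma HWt_dzb {ρ : E → ℝ} {x : E} (hρ : DifferentiableAt ℝ ρ x) {G : ℝ → ℝ} {G' : ℝ}
    (hG : HasDerivAt G G' (ρ x)) (v : E) :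
    dzb v (fun y => ((G (ρ y) : ℝ) : ℂ)) x = (G' : ℂ) * dzb v (fun y => (ρ y : ℂ)) x := by
  simp only [dzb, HWt_fd hρ hG]
  ring

omit [FiniteDimensional ℂ E] in
private lemma HWt_conj {ρ : E → ℝ} {x : E} (hρ : DifferentiableAt ℝ ρ x) (v : E) :
    dzb v (fun y => (ρ y : ℂ)) x = conj (dz v (fun y => (ρ y : ℂ)) x) := by
  have h3 : fderiv ℝ (fun y => (ρ y : ℂ)) x = Complex.ofRealCLM.comp (fderiv ℝ ρ x) :=
    (Complex.ofRealCLM.hasFDerivAt.comp x hρ.hasFDerivAt).fderiv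
  have h4 : ∀ w, fderiv ℝ (fun y => (ρ y : ℂ)) x w = ((fderiv ℝ ρ x w : ℝ) : ℂ) := by
    intro w
    rw [h3]
    rfl
  simp only [dzb, dz, h4, map_div₀, map_sub, map_mul, conj_I, conj_ofReal]
  have : (starRingEnd ℂ) 2 = 2 := Complex.conj_ofNat 2
  rw [this]
  ring

omit [FiniteDimensional ℂ E] in
private lemma HWt_gradsq {ρ : E → ℝ} {x : E} (hρ : DifferentiableAt ℝ ρ x) {G : ℝ → ℝ} {G' : ℝ}
    (hG : HasDerivAt G G' (ρ x)) :
    gradsq b (fun y => G (ρ y)) x = G' ^ 2 * gradsq b ρ x := by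
  unfold gradsq
  rw [Finset.mul_sum]
  refine Finset.sum_congr rfl fun k _ => ?_
  rw [HWt_dz hρ hG, norm_mul, mul_pow, Complex.norm_real, Real.norm_eq_abs, sq_abs]

omit [FiniteDimensional ℂ E] in
private lemma HWt_mul {F G : E → ℂ} {x : E} (hF : DifferentiableAt ℝ F x)
    (hG : DifferentiableAt ℝ G x) (v : E) :
    dzb v (fun y => F y * G y) x = dzb v F x * G x + F x * dzb v G x := by
  have h : fderiv ℝ (fun y => F y * G y) x = F x • fderiv ℝ G x + G x • fderiv ℝ F x :=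
    fderiv_fun_mul hF hG
  simp only [dzb, h, ContinuousLinearMap.add_apply, ContinuousLinearMap.smul_apply, smul_eq_mul]
  ring

omit [FiniteDimensional ℂ E] in
private lemma HWt_congr {F G : E → ℂ} {x : E} (h : F =ᶠ[nhds x] G) (v : E) :
    dzb v F x = dzb v G x := by
  simp only [dzb, h.fderiv_eq]

omit [FiniteDimensional ℂ E] in
private lemma HWt_gradsq_congr {f g : E → ℝ} {x : E} (h : f =ᶠ[nhds x] g) :
    gradsq b f x = gradsq b g x := by
  unfold gradsq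
  refine Finset.sum_congr rfl fun k _ => ?_
  have h' : (fun y => (f y : ℂ)) =ᶠ[nhds x] fun y => (g y : ℂ) := by
    filter_upwards [h] with y hy
    rw [hy]
  simp only [dz, h'.fderiv_eq]

omit [FiniteDimensional ℂ E] in
private lemma HWt_dz_smooth (hW : IsOpen W) {F : E → ℂ} (hF : ContDiffOn ℝ ∞ F W) (v : E) :
    ContDiffOn ℝ ∞ (dz v F) W := by
  have h : ContDiffOn ℝ ∞ (fderiv ℝ F) W := hF.fderiv_of_isOpen hW (by simp)
  have h1 : ContDiffOn ℝ ∞ (fun x => fderiv ℝ F x v) W := h.clm_apply contDiffOn_const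
  have h2 : ContDiffOn ℝ ∞ (fun x => fderiv ℝ F x (I • v)) W := h.clm_apply contDiffOn_const
  have : dz v F = fun x => (fderiv ℝ F x v - I * fderiv ℝ F x (I • v)) / 2 := rfl
  rw [this]
  exact (h1.sub (contDiffOn_const.mul h2)).div_const 2

omit [FiniteDimensional ℂ E] in
/-- the Levi form of `G ∘ ρ` -/
private lemma HWt_levi (hW : IsOpen W) {ρ : E → ℝ} (hρ : ContDiffOn ℝ ∞ ρ W) {G G1 G2 : ℝ → ℝ}
    (h1 : ∀ s, HasDerivAt G (G1 s) s) (h2 : ∀ s, HasDerivAt G1 (G2 s) s) {x : E} (hx : x ∈ W)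
    (v w : E) :
    dzb w (dz v (fun y => ((G (ρ y) : ℝ) : ℂ))) x =
      (G2 (ρ x) : ℂ) * (conj (dz w (fun y => (ρ y : ℂ)) x) * dz v (fun y => (ρ y : ℂ)) x) +
      (G1 (ρ x) : ℂ) * dzb w (dz v (fun y => (ρ y : ℂ))) x := by
  have hd : ∀ y ∈ W, DifferentiableAt ℝ ρ y := fun y hy =>
    (hρ.contDiffAt (hW.mem_nhds hy)).differentiableAt (by simp)
  have hc : (dz v (fun y => ((G (ρ y) : ℝ) : ℂ))) =ᶠ[nhds x]
      fun y => ((G1 (ρ y) : ℝ) : ℂ) * dz v (fun y => (ρ y : ℂ)) y := by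
    filter_upwards [hW.mem_nhds hx] with y hy
    exact HWt_dz (hd y hy) (h1 (ρ y)) v
  have hF : ContDiffOn ℝ ∞ (fun y => (ρ y : ℂ)) W := Complex.ofRealCLM.contDiff.comp_contDiffOn hρ
  have hA : DifferentiableAt ℝ (fun y => ((G1 (ρ y) : ℝ) : ℂ)) x := by
    have : HasFDerivAt (fun y => G1 (ρ y)) (G2 (ρ x) • fderiv ℝ ρ x) x :=
      (h2 (ρ x)).comp_hasFDerivAt x (hd x hx).hasFDerivAt
    exact (Complex.ofRealCLM.hasFDerivAt.comp x this).differentiableAt
  have hB : DifferentiableAt ℝ (dz v (fun y => (ρ y : ℂ))) x :=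
    ((HWt_dz_smooth hW hF v).contDiffAt (hW.mem_nhds hx)).differentiableAt (by simp)
  rw [HWt_congr hc, HWt_mul hA hB, HWt_dzb (hd x hx) (h2 (ρ x)), HWt_conj (hd x hx)]
  ring

/-- the Levi form sum, abstractly -/
private lemma HWt_sum (c1 c2 : ℂ) (d a : ι → ℂ) (P L : ι → ι → ℂ)
    (h : ∀ j k, L j k = c1 * (conj (d k) * d j) + c2 * P j k) :
    ∑ j, ∑ k, L j k * a j * conj (a k) =
      c1 * ((∑ j, d j * a j) * conj (∑ j, d j * a j)) + c2 * ∑ j, ∑ k, P j k * a j * conj (a k) := by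
  rw [map_sum, Finset.sum_mul_sum, Finset.mul_sum, Finset.mul_sum, ← Finset.sum_add_distrib]
  refine Finset.sum_congr rfl fun j _ => ?_
  rw [Finset.mul_sum, Finset.mul_sum, ← Finset.sum_add_distrib]
  refine Finset.sum_congr rfl fun k _ => ?_
  rw [h, map_mul]
  ring

omit [FiniteDimensional ℂ E] in
/-- the Levi form of `B t² ρ⁵` -/
private lemma HWt_chi (hW : IsOpen W) {ρ : E → ℝ} (hρ : ContDiffOn ℝ ∞ ρ W) (β : ℝ) {x : E}
    (hx : x ∈ W) (a : ι → ℂ) :
    (∑ j, ∑ k, dzb (b k) (dz (b j) (fun y => ((β * ρ y ^ 5 : ℝ) : ℂ))) x * a j * conj (a k)).re =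
      β * (5 * (4 * ρ x ^ 3)) * Complex.normSq (∑ j, dz (b j) (fun y => (ρ y : ℂ)) x * a j) +
      β * (5 * ρ x ^ 4) *
        (∑ j, ∑ k, dzb (b k) (dz (b j) (fun y => (ρ y : ℂ))) x * a j * conj (a k)).re := by
  have h1 : ∀ s : ℝ, HasDerivAt (fun s : ℝ => β * s ^ 5) (β * (5 * s ^ 4)) s :=
    fun s => by simpa using (hasDerivAt_pow 5 s).const_mul β
  have h2 : ∀ s : ℝ, HasDerivAt (fun s : ℝ => β * (5 * s ^ 4)) (β * (5 * (4 * s ^ 3))) s :=
    fun s => by simpa using ((hasDerivAt_pow 4 s).const_mul 5).const_mul β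
  have hL := fun j k => HWt_levi (G := fun s : ℝ => β * s ^ 5) (G1 := fun s => β * (5 * s ^ 4))
    (G2 := fun s => β * (5 * (4 * s ^ 3))) hW hρ h1 h2 hx (b j) (b k)
  rw [HWt_sum _ _ (fun j => dz (b j) (fun y => (ρ y : ℂ)) x) a
    (fun j k => dzb (b k) (dz (b j) (fun y => (ρ y : ℂ))) x) _ hL, Complex.add_re,
    Complex.re_ofReal_mul, Complex.re_ofReal_mul, Complex.mul_conj, Complex.ofReal_re]

private lemma HWt_st_deriv {s : ℝ} (h : s < 0 ∨ 1 < s) : deriv Real.smoothTransition s = 0 := by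
  rcases h with h | h
  · have : Real.smoothTransition =ᶠ[nhds s] fun _ => (0 : ℝ) := by
      filter_upwards [Iio_mem_nhds h] with y hy
      exact Real.smoothTransition.zero_of_nonpos (le_of_lt hy)
    rw [this.deriv_eq]
    simp
  · have : Real.smoothTransition =ᶠ[nhds s] fun _ => (1 : ℝ) := by
      filter_upwards [Ioi_mem_nhds h] with y hy
      exact Real.smoothTransition.one_of_one_le (le_of_lt hy)
    rw [this.deriv_eq]
    simp

private lemma HWt_st_bound : ∃ C : ℝ, 0 ≤ C ∧ ∀ s, |deriv Real.smoothTransition s| ≤ C := by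
  have hc : Continuous (deriv Real.smoothTransition) :=
    (Real.smoothTransition.contDiff (n := 1)).continuous_deriv (by simp)
  obtain ⟨C, hC⟩ := (isCompact_Icc (a := (0 : ℝ)) (b := 1)).exists_bound_of_continuousOn
    hc.continuousOn
  have h0 : 0 ≤ C := (norm_nonneg _).trans (hC 0 (by simp))
  refine ⟨C, h0, fun s => ?_⟩
  by_cases hs : s ∈ Set.Icc (0 : ℝ) 1
  · exact hC s hs
  · rw [Set.mem_Icc, not_and_or, not_le, not_le] at hs
    rw [HWt_st_deriv hs]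
    simpa using h0

private lemma HWt_exp (y : ℝ) (hy : 0 ≤ y) : (1 + y) ^ 4 * Real.exp (-y ^ 2) ≤ 8 := by
  have h1 : (1 + y) ^ 4 ≤ 4 * (1 + y ^ 2) ^ 2 := by
    have : (1 + y) ^ 2 ≤ 2 * (1 + y ^ 2) := by nlinarith [sq_nonneg (1 - y)]
    calc (1 + y) ^ 4 = ((1 + y) ^ 2) ^ 2 := by ring
      _ ≤ (2 * (1 + y ^ 2)) ^ 2 := pow_le_pow_left₀ (by positivity) this 2
      _ = _ := by ring
  have h2 : (1 + y ^ 2) ^ 2 ≤ 2 * Real.exp (y ^ 2) := by
    have h := Real.quadratic_le_exp_of_nonneg (sq_nonneg y)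
    nlinarith
  have h3 : Real.exp (y ^ 2) * Real.exp (-y ^ 2) = 1 := by
    rw [← Real.exp_add]
    simp
  calc (1 + y) ^ 4 * Real.exp (-y ^ 2) ≤ (8 * Real.exp (y ^ 2)) * Real.exp (-y ^ 2) := by
        refine mul_le_mul_of_nonneg_right ?_ (Real.exp_pos _).le
        linarith
    _ = 8 := by rw [mul_assoc, h3, mul_one]

omit [FiniteDimensional ℂ E] in
private lemma HWt_cut (hW : IsOpen W) {ρ : E → ℝ} (hρ : Exhaust W b ρ) {C : ℝ} (hC0 : 0 ≤ C)
    (hC : ∀ x ∈ W, gradsq b ρ x ≤ C * ρ x ^ 4) {t : ℝ} (ht : 0 < t) (θ : E → ℝ)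
    (hθ : ∀ x ∈ W, Real.exp (θ x) = (1 + t * ρ x) ^ 2) : HasCutoffs W b θ := by
  classical
  obtain ⟨C2, hC20, hC2⟩ := HWt_st_bound
  have hdiff : ∀ y ∈ W, DifferentiableAt ℝ ρ y := fun y hy =>
    (hρ.smooth.contDiffAt (hW.mem_nhds hy)).differentiableAt (by simp)
  set g : ℕ → ℝ → ℝ := fun m s => Real.smoothTransition (2 - s / (m + 1)) with hg
  set η : ℕ → E → ℝ := fun m x => if x ∈ W then g m (ρ x) else 0 with hη
  have hm : ∀ m : ℕ, (0 : ℝ) < (m : ℝ) + 1 := fun m => by positivity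
  have hloc : ∀ m : ℕ, ∀ x ∈ W, η m =ᶠ[nhds x] fun y => g m (ρ y) := by
    intro m x hx
    filter_upwards [hW.mem_nhds hx] with y hy
    simp only [hη, if_pos hy]
  have hz : ∀ m : ℕ, Function.support (η m) ⊆ {x | x ∈ W ∧ ρ x ≤ 2 * ((m : ℝ) + 1)} := by
    intro m x hx
    have hxW : x ∈ W := by
      by_contra hxW
      exact hx (by simp only [hη, if_neg hxW])
    refine ⟨hxW, ?_⟩
    by_contra hle
    refine hx ?_
    simp only [hη, if_pos hxW, hg]
    refine Real.smoothTransition.zero_of_nonpos ?_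
    have h1 : 2 < ρ x / ((m : ℝ) + 1) := (lt_div_iff₀ (hm m)).2 (not_le.1 hle)
    linarith
  have hts : ∀ m : ℕ, tsupport (η m) ⊆ {x | x ∈ W ∧ ρ x ≤ 2 * ((m : ℝ) + 1)} := fun m =>
    closure_minimal (hz m) (hρ.compact _).isClosed
  have hgs : ∀ m : ℕ, ContDiff ℝ ∞ (g m) := fun m =>
    Real.smoothTransition.contDiff.comp (contDiff_const.sub (contDiff_id.div_const _))
  have hgd : ∀ (m : ℕ) (s : ℝ), HasDerivAt (g m)
      (-(deriv Real.smoothTransition (2 - s / (m + 1)) / (m + 1))) s := by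
    intro m s
    have h1 : HasDerivAt (fun s : ℝ => 2 - s / ((m : ℝ) + 1)) (-(1 / ((m : ℝ) + 1))) s := by
      simpa using ((hasDerivAt_id s).div_const ((m : ℝ) + 1)).const_sub 2
    have h2 : HasDerivAt Real.smoothTransition (deriv Real.smoothTransition (2 - s / (m + 1)))
        (2 - s / ((m : ℝ) + 1)) :=
      ((Real.smoothTransition.contDiff (n := 1)).differentiable (by simp) _).hasDerivAt
    have h4 : -(deriv Real.smoothTransition (2 - s / (m + 1)) / (m + 1)) =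
        deriv Real.smoothTransition (2 - s / (m + 1)) * (-(1 / ((m : ℝ) + 1))) := by ring
    rw [h4]
    exact h2.comp s h1
  refine ⟨4 * C2 ^ 2 * C / t ^ 2, η, fun m => ⟨?_, ?_, ?_, ?_, ?_, ?_⟩⟩
  · rw [contDiff_iff_contDiffAt]
    intro x
    by_cases hx : x ∈ W
    · exact ((hgs m).contDiffAt.comp x (hρ.smooth.contDiffAt (hW.mem_nhds hx))).congr_of_eventuallyEq
        (hloc m x hx)
    · have h1 : x ∉ tsupport (η m) := fun h => hx (hts m h).1
      exact contDiffAt_const.congr_of_eventuallyEq (notMem_tsupport_iff_eventuallyEq.1 h1)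
  · exact (hρ.compact _).of_isClosed_subset (isClosed_tsupport _) (hts m)
  · exact fun x hx => (hts m hx).1
  · intro x
    simp only [hη]
    split_ifs
    · exact ⟨Real.smoothTransition.nonneg _, Real.smoothTransition.le_one _⟩
    · simp
  · intro x hx
    have hρ1 := hρ.one_le x hx
    rw [HWt_gradsq_congr (hloc m x hx), HWt_gradsq (b := b) (G := g m) (hdiff x hx) (hgd m (ρ x)),
      hθ x hx]
    have h7 : 0 ≤ gradsq b ρ x := by
      unfold gradsq
      exact Finset.sum_nonneg fun k _ => by positivity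
    by_cases h : 2 - ρ x / ((m : ℝ) + 1) < 0
    · rw [HWt_st_deriv (Or.inl h)]
      simp only [zero_div, neg_zero]
      have : 0 ≤ 4 * C2 ^ 2 * C / t ^ 2 * (1 + t * ρ x) ^ 2 := by positivity
      simpa using this
    · have h1 : ρ x / ((m : ℝ) + 1) ≤ 2 := by linarith
      have h0 : 0 ≤ ρ x / ((m : ℝ) + 1) := by positivity
      have h2 : deriv Real.smoothTransition (2 - ρ x / (m + 1)) ^ 2 ≤ C2 ^ 2 := by
        rw [← sq_abs]
        exact pow_le_pow_left₀ (abs_nonneg _) (hC2 _) 2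
      have h3 : (ρ x / ((m : ℝ) + 1)) ^ 2 ≤ 4 := by nlinarith
      have h4 : t ^ 2 * ρ x ^ 2 ≤ (1 + t * ρ x) ^ 2 := by
        have : 0 ≤ t * ρ x := by positivity
        nlinarith
      calc (-(deriv Real.smoothTransition (2 - ρ x / (m + 1)) / (m + 1))) ^ 2 * gradsq b ρ x
          = deriv Real.smoothTransition (2 - ρ x / (m + 1)) ^ 2 *
            (gradsq b ρ x / ((m : ℝ) + 1) ^ 2) := by
              rw [neg_sq, div_pow]
              ring
        _ ≤ C2 ^ 2 * (C * ρ x ^ 4 / ((m : ℝ) + 1) ^ 2) := by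
          gcongr
          exact hC x hx
        _ = C2 ^ 2 * C * ρ x ^ 2 * (ρ x / ((m : ℝ) + 1)) ^ 2 := by
          rw [div_pow]
          ring
        _ ≤ C2 ^ 2 * C * ρ x ^ 2 * 4 := by gcongr
        _ = 4 * C2 ^ 2 * C / t ^ 2 * (t ^ 2 * ρ x ^ 2) := by
          field_simp
        _ ≤ _ := by gcongr
  · intro K hK hKW
    obtain ⟨R, hR⟩ := hK.bddAbove_image (hρ.smooth.continuousOn.mono hKW)
    refine ⟨⌈R⌉₊, fun n hn x hx => ?_⟩
    have h1 : ρ x < (n : ℝ) + 1 := by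
      have h2 : ρ x ≤ R := hR (Set.mem_image_of_mem ρ hx)
      have h3 : R ≤ (n : ℝ) := (Nat.le_ceil R).trans (by exact_mod_cast hn)
      linarith
    have h2 : ∀ᶠ y in nhds x, ρ y < (n : ℝ) + 1 :=
      (hdiff x (hKW hx)).continuousAt.eventually_lt continuousAt_const h1
    filter_upwards [hloc n x (hKW hx), h2] with y hy hy2
    rw [hy]
    simp only [hg, Pi.one_apply]
    refine Real.smoothTransition.one_of_one_le ?_
    have h3 : ρ y / ((n : ℝ) + 1) < 1 := (div_lt_one (hm n)).2 hy2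
    linarith

end HWt_aux2

theorem exists_weights (hW : IsOpen W) (ρ : E → ℝ) (hρ : Exhaust W b ρ) :
    ∃ B : ℝ, 1 ≤ B ∧ ∀ t : ℝ, 0 < t → t ≤ 1 →
      let θ : E → ℝ := fun x => 2 * Real.log (1 + t * ρ x)
      let χ : E → ℝ := fun x => B * t ^ 2 * ρ x ^ 5
      ContDiffOn ℝ ∞ θ W ∧ ContDiffOn ℝ ∞ χ W ∧
      (∀ (D : ℕ) (M : HMet W b D), ∀ x ∈ W, ∀ f : ι → Fin D → ℂ,
        2 * gradsq b θ x * ∑ k, M.nsq x (f k) ≤ levH b (M.H x) χ x f) ∧
      HasCutoffs W b θ ∧ (∀ x ∈ W, Real.exp (2 * θ x - χ x) ≤ 8) ∧ (∀ x ∈ W, 0 ≤ θ x) := by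
  obtain ⟨C, hC⟩ := hρ.grad
  obtain ⟨C2, hC20, hC2⟩ := HWt_st_bound
  have hC0 : ∀ x ∈ W, gradsq b ρ x ≤ |C| * ρ x ^ 4 := fun x hx =>
    (hC x hx).trans (mul_le_mul_of_nonneg_right (le_abs_self C)
      (by have := hρ.one_le x hx; positivity))
  obtain ⟨B, hB1, hB8⟩ : ∃ B : ℝ, 1 ≤ B ∧ 8 * |C| ≤ B :=
    ⟨max 1 (8 * |C|), le_max_left _ _, le_max_right _ _⟩
  refine ⟨B, hB1, fun t ht ht1 => ?_⟩
  intro θ χ
  have hpos : ∀ x ∈ W, 0 < 1 + t * ρ x := fun x hx => by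
    have := hρ.one_le x hx
    positivity
  have hdiff : ∀ y ∈ W, DifferentiableAt ℝ ρ y := fun y hy =>
    (hρ.smooth.contDiffAt (hW.mem_nhds hy)).differentiableAt (by simp)
  have hθs : ContDiffOn ℝ ∞ θ W :=
    contDiffOn_const.mul ((contDiffOn_const.add (contDiffOn_const.mul hρ.smooth)).log
      fun x hx => (hpos x hx).ne')
  have hχs : ContDiffOn ℝ ∞ χ W := contDiffOn_const.mul (hρ.smooth.pow 5)
  refine ⟨hθs, hχs, ?_, ?_, ?_, ?_⟩
  · intro D M x hx f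
    refine levH_ge M χ x hx _ (fun a => ?_) f
    have hρ1 := hρ.one_le x hx
    have hg : gradsq b θ x = (2 * (t / (1 + t * ρ x))) ^ 2 * gradsq b ρ x := by
      have hG : HasDerivAt (fun s : ℝ => 2 * Real.log (1 + t * s)) (2 * (t / (1 + t * ρ x)))
          (ρ x) := by
        have h0 : HasDerivAt (fun s : ℝ => 1 + t * s) t (ρ x) := by
          simpa using ((hasDerivAt_id (ρ x)).const_mul t).const_add 1
        exact (h0.log (hpos x hx).ne').const_mul 2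
      exact HWt_gradsq (b := b) (G := fun s : ℝ => 2 * Real.log (1 + t * s)) (hdiff x hx) hG
    have hS : (∑ j, ∑ k, dzb (b k) (dz (b j) (fun y => (χ y : ℂ))) x * a j * conj (a k)).re =
        B * t ^ 2 * (5 * (4 * ρ x ^ 3)) *
          Complex.normSq (∑ j, dz (b j) (fun y => (ρ y : ℂ)) x * a j) +
        B * t ^ 2 * (5 * ρ x ^ 4) *
          (∑ j, ∑ k, dzb (b k) (dz (b j) (fun y => (ρ y : ℂ))) x * a j * conj (a k)).re :=
      HWt_chi hW hρ.smooth (B * t ^ 2) hx a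
    rw [hS]
    have hn := Complex.normSq_nonneg (∑ j, dz (b j) (fun y => (ρ y : ℂ)) x * a j)
    have hl := hρ.levi x hx a
    have hsum : 0 ≤ ∑ k, ‖a k‖ ^ 2 := Finset.sum_nonneg fun k _ => by positivity
    have hc : 2 * gradsq b θ x ≤ B * t ^ 2 * (5 * ρ x ^ 4) := by
      rw [hg]
      have h3 : (2 * (t / (1 + t * ρ x))) ^ 2 ≤ 4 * t ^ 2 := by
        have h4 : t / (1 + t * ρ x) ≤ t := div_le_self ht.le (by
          have : 0 ≤ t * ρ x := by positivity
          linarith)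
        have h5 : 0 ≤ t / (1 + t * ρ x) := div_nonneg ht.le (hpos x hx).le
        nlinarith
      have h6 : gradsq b ρ x ≤ |C| * ρ x ^ 4 := hC0 x hx
      have h7 : 0 ≤ gradsq b ρ x := by
        unfold gradsq
        exact Finset.sum_nonneg fun k _ => by positivity
      calc 2 * ((2 * (t / (1 + t * ρ x))) ^ 2 * gradsq b ρ x)
          ≤ 2 * (4 * t ^ 2 * (|C| * ρ x ^ 4)) := by gcongr
        _ = (8 * |C|) * (t ^ 2 * ρ x ^ 4) := by ring
        _ ≤ B * (t ^ 2 * ρ x ^ 4) := by gcongr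
        _ ≤ B * t ^ 2 * (5 * ρ x ^ 4) := by
          have : 0 ≤ B * (t ^ 2 * ρ x ^ 4) := by positivity
          nlinarith
    calc 2 * gradsq b θ x * ∑ k, ‖a k‖ ^ 2 ≤ (B * t ^ 2 * (5 * ρ x ^ 4)) * ∑ k, ‖a k‖ ^ 2 :=
          mul_le_mul_of_nonneg_right hc hsum
      _ ≤ (B * t ^ 2 * (5 * ρ x ^ 4)) *
          (∑ j, ∑ k, dzb (b k) (dz (b j) (fun y => (ρ y : ℂ))) x * a j * conj (a k)).re :=
          mul_le_mul_of_nonneg_left hl (by positivity)
      _ ≤ _ := le_add_of_nonneg_left (mul_nonneg (by positivity) hn)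
  · refine HWt_cut hW hρ (abs_nonneg C) hC0 ht θ fun x hx => ?_
    have : θ x = ((2 : ℕ) : ℝ) * Real.log (1 + t * ρ x) := by
      simp only [θ]
      push_cast
      ring
    rw [this, Real.exp_nat_mul, Real.exp_log (hpos x hx)]
  · intro x hx
    have hρ1 := hρ.one_le x hx
    have h0 : 0 ≤ t * ρ x := by positivity
    have h1 : Real.exp (2 * θ x) = (1 + t * ρ x) ^ 4 := by
      have : 2 * θ x = ((4 : ℕ) : ℝ) * Real.log (1 + t * ρ x) := by
        simp only [θ]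
        push_cast
        ring
      rw [this, Real.exp_nat_mul, Real.exp_log (hpos x hx)]
    have h2 : (t * ρ x) ^ 2 ≤ χ x := by
      have h3 : ρ x ^ 2 ≤ ρ x ^ 5 := pow_le_pow_right₀ hρ1 (by norm_num)
      calc (t * ρ x) ^ 2 = 1 * (t ^ 2 * ρ x ^ 2) := by ring
        _ ≤ B * (t ^ 2 * ρ x ^ 5) := by gcongr
        _ = χ x := by simp only [χ]; ring
    calc Real.exp (2 * θ x - χ x) ≤ Real.exp (2 * θ x + -(t * ρ x) ^ 2) :=
          Real.exp_le_exp.2 (by linarith)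
      _ = (1 + t * ρ x) ^ 4 * Real.exp (-(t * ρ x) ^ 2) := by rw [Real.exp_add, h1]
      _ ≤ 8 := HWt_exp _ h0
  · intro x hx
    have hρ1 := hρ.one_le x hx
    have h0 : 0 ≤ t * ρ x := by positivity
    exact mul_nonneg (by norm_num) (Real.log_nonneg (by linarith))

end Pool.Agent.Lib_KF
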