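import Pool.Agent.Lib_KF.HDualW
import Pool.Agent.Lib_KF.HWt

/-! H10: the limit of the dual estimates. -/

open MeasureTheory Complex
open scoped ENNReal ContDiff ComplexConjugate

namespace Pool.Agent.Lib_KF

open GPn

section HLimAux

open Filter Topology

variable {E : Type} [NormedAddCommGroup E] [NormedSpace ℂ E]

private lemma hlim_continuous {F : Type} [NormedAddCommGroup F] {W K : Set E} (hW : IsOpen W)
    (hK : IsClosed K) (hKW : K ⊆ W) {g : E → F} (hg : ContinuousOn g W)
    (h0 : ∀ x, x ∉ K → g x = 0) : Continuous g := by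
  rw [continuous_iff_continuousAt]
  intro x
  by_cases hx : x ∈ W
  · exact hg.continuousAt (hW.mem_nhds hx)
  · have hxK : x ∉ K := fun h => hx (hKW h)
    have h1 : g =ᶠ[𝓝 x] fun _ => 0 := by
      filter_upwards [hK.isOpen_compl.mem_nhds hxK] with y hy using h0 y hy
    exact (continuousAt_congr h1).2 continuousAt_const

private lemma hlim_integrable [MeasurableSpace E] [BorelSpace E] (μ : Measure E)
    [IsFiniteMeasureOnCompacts μ] {F : Type} [NormedAddCommGroup F] {W K : Set E} (hW : IsOpen W)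
    (hK : IsCompact K) (hKW : K ⊆ W) {g : E → F} (hg : ContinuousOn g W)
    (h0 : ∀ x, x ∉ K → g x = 0) : Integrable g μ :=
  (hlim_continuous hW hK.isClosed hKW hg h0).integrable_of_hasCompactSupport
    (HasCompactSupport.intro hK h0)

private lemma hlim_dz_comp {ρ : E → ℝ} {x : E} (hρ : DifferentiableAt ℝ ρ x) {φ : ℝ → ℝ} {φ' : ℝ}
    (hφ : HasDerivAt φ φ' (ρ x)) (v : E) :
    dz v (fun y => (φ (ρ y) : ℂ)) x = φ' * dz v (fun y => (ρ y : ℂ)) x := by
  have h1 : HasFDerivAt (fun y => (ρ y : ℂ)) (Complex.ofRealCLM.comp (fderiv ℝ ρ x)) x :=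
    Complex.ofRealCLM.hasFDerivAt.comp x hρ.hasFDerivAt
  have h2 : HasFDerivAt (fun y => (φ (ρ y) : ℂ))
      (Complex.ofRealCLM.comp (φ' • fderiv ℝ ρ x)) x :=
    Complex.ofRealCLM.hasFDerivAt.comp x (hφ.comp_hasFDerivAt x hρ.hasFDerivAt)
  unfold dz
  rw [h1.fderiv, h2.fderiv]
  simp
  ring

private lemma hlim_ip_expand {D : ℕ} (H : Fin D → Fin D → ℂ) (p q : Fin D → ℂ) (s : ℝ) :
    ip H (fun a => p a - s * q a) (fun a => p a - s * q a) =
      ip H p p - s * (ip H p q + ip H q p) + (s : ℂ) ^ 2 * ip H q q := by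
  unfold ip
  rw [← Finset.sum_add_distrib, Finset.mul_sum, Finset.mul_sum, ← Finset.sum_sub_distrib,
    ← Finset.sum_add_distrib]
  refine Finset.sum_congr rfl fun a _ => ?_
  rw [← Finset.sum_add_distrib, Finset.mul_sum, Finset.mul_sum, ← Finset.sum_sub_distrib,
    ← Finset.sum_add_distrib]
  refine Finset.sum_congr rfl fun c _ => ?_
  simp only [map_sub, map_mul, Complex.conj_ofReal]
  ring

private lemma hlim_ip_zero {D : ℕ} (H : Fin D → Fin D → ℂ) (u w : Fin D → ℂ)
    (h : (∀ a, u a = 0) ∨ ∀ a, w a = 0) : ip H u w = 0 := by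
  unfold ip
  refine Finset.sum_eq_zero fun a _ => Finset.sum_eq_zero fun c _ => ?_
  rcases h with h | h
  · rw [h c, mul_zero]
  · rw [h a, map_zero, zero_mul, zero_mul]

private lemma hlim_ip_continuousOn {D : ℕ} {W : Set E} {H : E → Fin D → Fin D → ℂ}
    {u w : E → Fin D → ℂ} (hH : ∀ a c, ContinuousOn (fun x => H x a c) W)
    (hu : ∀ a, ContinuousOn (fun x => u x a) W) (hw : ∀ a, ContinuousOn (fun x => w x a) W) :
    ContinuousOn (fun x => ip (H x) (u x) (w x)) W := by
  unfold ip
  refine continuousOn_finsetSum _ fun a _ => continuousOn_finsetSum _ fun c _ => ?_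
  exact ((Complex.continuous_conj.comp_continuousOn (hw a)).mul (hH a c)).mul (hu c)

private lemma hlim_dz_continuousOn {W : Set E} (hW : IsOpen W) {F : E → ℂ}
    (hF : ContDiffOn ℝ ∞ F W) (v : E) : ContinuousOn (fun x => dz v F x) W := by
  have h1 : ContinuousOn (fun x => fderiv ℝ F x) W :=
    hF.continuousOn_fderiv_of_isOpen hW (by simp)
  unfold dz
  exact ((h1.clm_apply continuousOn_const).sub
    (continuousOn_const.mul (h1.clm_apply continuousOn_const))).div_const _

private lemma hlim_dz_zero {F : E → ℂ} {x : E} (h : F =ᶠ[𝓝 x] 0) (v : E) : dz v F x = 0 := by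
  unfold dz
  rw [h.fderiv_eq]
  simp

end HLimAux

variable {E : Type} [NormedAddCommGroup E] [NormedSpace ℂ E] [FiniteDimensional ℂ E]
  [MeasurableSpace E] [BorelSpace E] {W : Set E} {ι : Type} [Fintype ι]
  [DecidableEq ι] {b : Module.Basis ι ℂ E} {D : ℕ}

/-- H10: the limit `t → 0` of the dual estimates. -/
theorem HMet.dual_limit (M : HMet W b D) (hW : IsOpen W) (μ : Measure E) [μ.IsAddHaarMeasure]
    (ρ : E → ℝ) (hρ : Exhaust W b ρ) (κ : E → ℝ)
    (hκ : ContinuousOn κ W) (hκ0 : ∀ x ∈ W, 0 ≤ κ x) (k₀ : ι)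
    (hcurv : ∀ x ∈ W, ∀ f : ι → Fin D → ℂ, κ x * M.nsq x (f k₀) ≤ M.curv x f)
    (v : Fin D → E → ℂ) (hv : ∀ a, ContDiffOn ℝ ∞ (v a) W)
    (hvcl : ∀ k, k ≠ k₀ → ∀ a, ∀ x ∈ W, dzb (b k) (v a) x = 0)
    (c : ℝ) (hc : 0 < c) (hvκ : ∀ x ∈ W, (∃ a, v a x ≠ 0) → c ≤ κ x ∧ κ x ≤ c⁻¹)
    (C₁ : ℝ) (hC₁ : 0 ≤ C₁)
    (hvM : ∫⁻ x in W, ENNReal.ofReal ((κ x)⁻¹ * M.nsq x (fun a => v a x)) ∂μ ≤ ENNReal.ofReal C₁)
    (f : ι → Fin D → E → ℂ) (hf : ∀ k a, SCW W (f k a)) :
    ‖∫ x, ip (M.H x) (fun a => v a x) (fun a => f k₀ a x) ∂μ‖ ^ 2 ≤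
      16 * C₁ * ∫ x, M.nsq x (fun a => ∑ k, M.ch k (f k) x a) ∂μ := by
  classical
  obtain ⟨B, hB, hw⟩ := exists_weights (b := b) hW ρ hρ
  have hρc : ContinuousOn ρ W := hρ.smooth.continuousOn
  have hρd : ∀ x ∈ W, DifferentiableAt ℝ ρ x := fun x hx =>
    (hρ.smooth.contDiffAt (hW.mem_nhds hx)).differentiableAt (by simp)
  have hnz : ∀ x, ∀ u : Fin D → ℂ, (∀ a, u a = 0) → M.nsq x u = 0 := by
    intro x u hu
    unfold HMet.nsq
    rw [hlim_ip_zero (M.H x) u u (Or.inl hu)]
    simp
  have hnn : ∀ x ∈ W, ∀ u : Fin D → ℂ, 0 ≤ M.nsq x u := by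
    intro x hx u
    by_cases hu : u = 0
    · rw [hnz x u (fun a => by rw [hu]; rfl)]
    · exact (M.pos x hx u hu).le
  -- the compact set
  obtain ⟨K, hKc, hKW, hK⟩ : ∃ K : Set E, IsCompact K ∧ K ⊆ W ∧
      ∀ k a x, x ∉ K → f k a =ᶠ[nhds x] 0 := by
    refine ⟨⋃ k, ⋃ a, tsupport (f k a),
      isCompact_iUnion fun k => isCompact_iUnion fun a => (hf k a).2.1,
      Set.iUnion_subset fun k => Set.iUnion_subset fun a => (hf k a).2.2, ?_⟩
    intro k a x hx
    have h1 : x ∉ tsupport (f k a) := fun h => hx (Set.mem_iUnion₂.2 ⟨k, a, h⟩)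
    exact notMem_tsupport_iff_eventuallyEq.1 h1
  have hK0 : ∀ k a x, x ∉ K → f k a x = 0 := fun k a x hx => (hK k a x hx).eq_of_nhds
  have hfc : ∀ k a, ContinuousOn (f k a) W := fun k a => (hf k a).1.continuous.continuousOn
  have hHc : ∀ a e, ContinuousOn (fun x => M.H x a e) W := fun a e => (M.smH a e).continuousOn
  have hvc : ∀ a, ContinuousOn (v a) W := fun a => (hv a).continuousOn
  -- abbreviations
  let T : ℕ → ℝ := fun n => 1 / ((n : ℝ) + 1)
  have hT0 : ∀ n, 0 < T n := fun n => by positivity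
  have hT1 : ∀ n, T n ≤ 1 := fun n => by
    simp only [T]
    rw [div_le_one (by positivity)]
    linarith [(Nat.cast_nonneg n : (0 : ℝ) ≤ n)]
  have hTl : Filter.Tendsto T Filter.atTop (nhds 0) := tendsto_one_div_add_atTop_nhds_zero_nat
  let θ : ℕ → E → ℝ := fun n x => 2 * Real.log (1 + T n * ρ x)
  let χ : ℕ → E → ℝ := fun n x => B * T n ^ 2 * ρ x ^ 5
  let p : E → Fin D → ℂ := fun x a => ∑ k, M.ch k (f k) x a
  let q : E → Fin D → ℂ := fun x a => ∑ k, dz (b k) (fun y => (ρ y : ℂ)) x * f k a x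
  let s : ℕ → E → ℝ := fun n x => B * T n ^ 2 * (5 * ρ x ^ 4) - 2 * (T n / (1 + T n * ρ x))
  have hpos : ∀ n, ∀ x ∈ W, 1 ≤ 1 + T n * ρ x := fun n x hx => by
    have := mul_nonneg (hT0 n).le (zero_le_one.trans (hρ.one_le x hx))
    linarith
  -- the dual estimates
  have key : ∀ n, ‖∫ x, ip (M.H x) (fun a => v a x) (fun a => f k₀ a x) *
      Real.exp (-(χ n x - θ n x)) ∂μ‖ ^ 2 ≤
      2 * (8 * C₁) * ∫ x, M.nsq x (M.LL (fun y => χ n y - θ n y) f x) *
        Real.exp (-χ n x) ∂μ := by
    intro n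
    obtain ⟨h1, h2, h3, h4, h5, h6⟩ := hw (T n) (hT0 n) (hT1 n)
    have h7 : ∀ x ∈ W, κ x = 0 → ∀ a, v a x = 0 := by
      intro x hx hx0 a
      by_contra hne
      have := (hvκ x hx ⟨a, hne⟩).1
      rw [hx0] at this
      exact absurd this (not_le.2 hc)
    refine M.dual hW μ (θ n) (χ n) h1 h2 κ hκ hκ0 k₀ hcurv (h3 D M) h4 v hv hvcl ?_ (8 * C₁)
      (by positivity) h7 ?_ f hf
    · unfold HMet.L2
      refine ne_top_of_le_ne_top (b := ENNReal.ofReal (8 * c⁻¹) * ENNReal.ofReal C₁)
        (ENNReal.mul_ne_top ENNReal.ofReal_ne_top ENNReal.ofReal_ne_top) ?_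
      refine le_trans ?_ (mul_le_mul_right hvM _)
      rw [← lintegral_const_mul' _ _ ENNReal.ofReal_ne_top]
      refine setLIntegral_mono' hW.measurableSet fun x hx => ?_
      rw [← ENNReal.ofReal_mul (by positivity)]
      refine ENNReal.ofReal_le_ofReal ?_
      have h8 : Real.exp (-(χ n x - θ n x)) ≤ 8 :=
        (Real.exp_le_exp.2 (by have := h6 x hx; simp only [χ, θ] at *; linarith)).trans (h5 x hx)
      by_cases hvx : ∃ a, v a x ≠ 0
      · obtain ⟨hk1, hk2⟩ := hvκ x hx hvx
        have hkp : 0 < κ x := hc.trans_le hk1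
        have h9 := hnn x hx (fun a => v a x)
        have h10 : M.nsq x (fun a => v a x) = κ x * ((κ x)⁻¹ * M.nsq x (fun a => v a x)) := by
          rw [mul_inv_cancel_left₀ hkp.ne']
        have h11 : 0 ≤ (κ x)⁻¹ * M.nsq x (fun a => v a x) := mul_nonneg (by positivity) h9
        calc M.nsq x (fun a => v a x) * Real.exp (-(χ n x - θ n x))
            ≤ M.nsq x (fun a => v a x) * 8 := mul_le_mul_of_nonneg_left h8 h9
          _ = 8 * (κ x * ((κ x)⁻¹ * M.nsq x (fun a => v a x))) := by rw [← h10]; ring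
          _ ≤ 8 * (c⁻¹ * ((κ x)⁻¹ * M.nsq x (fun a => v a x))) := by
              gcongr
          _ = 8 * c⁻¹ * ((κ x)⁻¹ * M.nsq x (fun a => v a x)) := by ring
      · push Not at hvx
        rw [hnz x _ hvx]
        simp
    · rw [ENNReal.ofReal_mul (by norm_num)]
      refine le_trans ?_ (mul_le_mul_right hvM _)
      rw [← lintegral_const_mul' _ _ ENNReal.ofReal_ne_top]
      refine setLIntegral_mono' hW.measurableSet fun x hx => ?_
      rw [← ENNReal.ofReal_mul (by norm_num)]
      refine ENNReal.ofReal_le_ofReal ?_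
      have h9 := hnn x hx (fun a => v a x)
      have h11 : 0 ≤ (κ x)⁻¹ * M.nsq x (fun a => v a x) :=
        mul_nonneg (inv_nonneg.2 (hκ0 x hx)) h9
      rw [mul_comm 8]
      exact mul_le_mul_of_nonneg_left (h5 x hx) h11
  -- off `K` everything vanishes
  have hp0 : ∀ x, x ∉ K → ∀ a, p x a = 0 := by
    intro x hx a
    refine Finset.sum_eq_zero fun k _ => ?_
    unfold HMet.ch
    rw [hlim_dz_zero (hK k a x hx), zero_add]
    exact Finset.sum_eq_zero fun e _ => by rw [hK0 k e x hx, mul_zero]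
  have hq0 : ∀ x, x ∉ K → ∀ a, q x a = 0 := by
    intro x hx a
    exact Finset.sum_eq_zero fun k _ => by rw [hK0 k a x hx, mul_zero]
  have hpc : ∀ a, ContinuousOn (fun x => p x a) W := by
    intro a
    refine continuousOn_finsetSum _ fun k _ => ?_
    unfold HMet.ch
    refine (hlim_dz_continuousOn hW (hf k a).1.contDiffOn _).add ?_
    exact continuousOn_finsetSum _ fun e _ => ((M.smA k a e).continuousOn).mul (hfc k e)
  have hqc : ∀ a, ContinuousOn (fun x => q x a) W := by
    intro a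
    refine continuousOn_finsetSum _ fun k _ => ?_
    exact (hlim_dz_continuousOn hW
      (Complex.ofRealCLM.contDiff.comp_contDiffOn hρ.smooth) _).mul (hfc k a)
  -- the form of `LL`
  have hLL : ∀ n x, (M.nsq x (M.LL (fun y => χ n y - θ n y) f x)) =
      M.nsq x (p x) - s n x * ((ip (M.H x) (p x) (q x)).re + (ip (M.H x) (q x) (p x)).re) +
        s n x ^ 2 * M.nsq x (q x) := by
    intro n x
    by_cases hx : x ∈ K
    · have hxW := hKW hx
      have h1 : M.LL (fun y => χ n y - θ n y) f x = fun a => p x a - s n x * q x a := by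
        funext a
        unfold HMet.LL
        simp only [p, q]
        rw [Finset.sum_sub_distrib, Finset.mul_sum]
        congr 1
        refine Finset.sum_congr rfl fun k _ => ?_
        have h2 : HasDerivAt (fun r : ℝ => B * T n ^ 2 * r ^ 5 - 2 * Real.log (1 + T n * r))
            (s n x) (ρ x) := by
          have h3 : HasDerivAt (fun r : ℝ => r ^ 5) (5 * ρ x ^ 4) (ρ x) := by
            simpa using hasDerivAt_pow 5 (ρ x)
          have h4 : HasDerivAt (fun r : ℝ => 1 + T n * r) (T n) (ρ x) := by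
            simpa using ((hasDerivAt_id (ρ x)).const_mul (T n)).const_add 1
          have h5 := h4.log (by have := hpos n x hxW; linarith)
          exact (h3.const_mul (B * T n ^ 2)).sub (h5.const_mul 2)
        have h6 := hlim_dz_comp (hρd x hxW) h2 (b k)
        simp only [χ, θ]
        rw [h6, mul_assoc]
      rw [h1]
      unfold HMet.nsq
      rw [hlim_ip_expand]
      simp only [Complex.add_re, Complex.sub_re, Complex.re_ofReal_mul]
      congr 1
      rw [← Complex.ofReal_pow, Complex.re_ofReal_mul]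
    · rw [hnz x (p x) (hp0 x hx), hnz x (q x) (hq0 x hx),
        hlim_ip_zero (M.H x) (p x) (q x) (Or.inl (hp0 x hx)),
        hlim_ip_zero (M.H x) (q x) (p x) (Or.inl (hq0 x hx)), hnz]
      · simp
      · intro a
        unfold HMet.LL
        refine Finset.sum_eq_zero fun k _ => ?_
        rw [hK0 k a x hx, mul_zero, sub_zero]
        unfold HMet.ch
        rw [hlim_dz_zero (hK k a x hx), zero_add]
        exact Finset.sum_eq_zero fun e _ => by rw [hK0 k e x hx, mul_zero]
  -- limits of the weights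
  have hslim : ∀ x, Filter.Tendsto (fun n => s n x) Filter.atTop (nhds 0) := by
    intro x
    have h1 : Filter.Tendsto (fun n => B * T n ^ 2 * (5 * ρ x ^ 4)) Filter.atTop
        (nhds (B * 0 ^ 2 * (5 * ρ x ^ 4))) := ((hTl.pow 2).const_mul B).mul_const _
    have h2 : Filter.Tendsto (fun n => T n / (1 + T n * ρ x)) Filter.atTop
        (nhds (0 / (1 + 0 * ρ x))) :=
      hTl.div ((hTl.mul_const _).const_add 1) (by simp)
    have h3 := h1.sub (h2.const_mul 2)
    simpa using h3
  have hχlim : ∀ x, Filter.Tendsto (fun n => χ n x) Filter.atTop (nhds 0) := by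
    intro x
    have h1 : Filter.Tendsto (fun n => B * T n ^ 2 * ρ x ^ 5) Filter.atTop
        (nhds (B * 0 ^ 2 * ρ x ^ 5)) := ((hTl.pow 2).const_mul B).mul_const _
    simpa using h1
  have hθlim : ∀ x, Filter.Tendsto (fun n => θ n x) Filter.atTop (nhds 0) := by
    intro x
    have h1 : Filter.Tendsto (fun n => 1 + T n * ρ x) Filter.atTop (nhds (1 + 0 * ρ x)) :=
      (hTl.mul_const _).const_add 1
    have h2 : Filter.Tendsto (fun n => Real.log (1 + T n * ρ x)) Filter.atTop
        (nhds (Real.log (1 + 0 * ρ x))) := h1.log (by simp)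
    have h3 := h2.const_mul 2
    simpa using h3
  have hχc : ∀ n, ContinuousOn (χ n) W := fun n => continuousOn_const.mul (hρc.pow 5)
  have hθc : ∀ n, ContinuousOn (θ n) W := fun n =>
    continuousOn_const.mul ((continuousOn_const.add (continuousOn_const.mul hρc)).log
      fun x hx => (zero_lt_one.trans_le (hpos n x hx)).ne')
  have hsc : ∀ n, ContinuousOn (s n) W := fun n =>
    (continuousOn_const.mul (continuousOn_const.mul (hρc.pow 4))).sub
      (continuousOn_const.mul (continuousOn_const.div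
        (continuousOn_const.add (continuousOn_const.mul hρc))
        fun x hx => (zero_lt_one.trans_le (hpos n x hx)).ne'))
  have hχ0 : ∀ n, ∀ x ∈ W, 0 ≤ χ n x := fun n x hx => by
    have h1 : 0 ≤ ρ x := zero_le_one.trans (hρ.one_le x hx)
    have h2 : 0 ≤ B := zero_le_one.trans hB
    simp only [χ]
    positivity
  -- the left side
  have hic : ContinuousOn (fun x => ip (M.H x) (fun a => v a x) (fun a => f k₀ a x)) W :=
    hlim_ip_continuousOn hHc hvc (hfc k₀)
  have hi0 : ∀ x, x ∉ K → ip (M.H x) (fun a => v a x) (fun a => f k₀ a x) = 0 := fun x hx =>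
    hlim_ip_zero _ _ _ (Or.inr fun a => hK0 k₀ a x hx)
  have hI : Filter.Tendsto (fun n => ∫ x, ip (M.H x) (fun a => v a x) (fun a => f k₀ a x) *
      (Real.exp (-(χ n x - θ n x)) : ℂ) ∂μ) Filter.atTop
      (nhds (∫ x, ip (M.H x) (fun a => v a x) (fun a => f k₀ a x) ∂μ)) := by
    refine tendsto_integral_of_dominated_convergence
      (fun x => ‖ip (M.H x) (fun a => v a x) (fun a => f k₀ a x)‖ * 8) ?_ ?_ ?_ ?_
    · intro n
      refine (hlim_continuous hW hKc.isClosed hKW (hic.mul ?_) ?_).aestronglyMeasurable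
      · exact Complex.continuous_ofReal.comp_continuousOn
          (Real.continuous_exp.comp_continuousOn ((hχc n).sub (hθc n)).neg)
      · intro x hx
        simp only [Pi.mul_apply]
        rw [hi0 x hx, zero_mul]
    · refine hlim_integrable μ hW hKc hKW (hic.norm.mul continuousOn_const) ?_
      intro x hx
      rw [hi0 x hx, norm_zero, zero_mul]
    · intro n
      refine Filter.Eventually.of_forall fun x => ?_
      by_cases hx : x ∈ K
      · rw [norm_mul]
        refine mul_le_mul_of_nonneg_left ?_ (norm_nonneg _)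
        rw [Complex.norm_real, Real.norm_eq_abs, abs_of_pos (Real.exp_pos _)]
        obtain ⟨h1, h2, h3, h4, h5, h6⟩ := hw (T n) (hT0 n) (hT1 n)
        have h7 := h6 x (hKW hx)
        have h8 := h5 x (hKW hx)
        refine (Real.exp_le_exp.2 ?_).trans h8
        simp only [χ, θ]
        linarith
      · rw [hi0 x hx, zero_mul, norm_zero, zero_mul]
    · refine Filter.Eventually.of_forall fun x => ?_
      have h1 : Filter.Tendsto (fun n => (Real.exp (-(χ n x - θ n x)) : ℂ)) Filter.atTop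
          (nhds ((Real.exp (-(0 - 0)) : ℝ) : ℂ)) :=
        (Complex.continuous_ofReal.tendsto _).comp
          ((Real.continuous_exp.tendsto _).comp ((hχlim x).sub (hθlim x)).neg)
      have h2 := h1.const_mul (ip (M.H x) (fun a => v a x) (fun a => f k₀ a x))
      simpa using h2
  -- the right side
  let r : E → ℝ := fun x => (ip (M.H x) (p x) (q x)).re + (ip (M.H x) (q x) (p x)).re
  have hnpc : ContinuousOn (fun x => M.nsq x (p x)) W :=
    Complex.continuous_re.comp_continuousOn (hlim_ip_continuousOn hHc hpc hpc)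
  have hnqc : ContinuousOn (fun x => M.nsq x (q x)) W :=
    Complex.continuous_re.comp_continuousOn (hlim_ip_continuousOn hHc hqc hqc)
  have hrc : ContinuousOn r W :=
    (Complex.continuous_re.comp_continuousOn (hlim_ip_continuousOn hHc hpc hqc)).add
      (Complex.continuous_re.comp_continuousOn (hlim_ip_continuousOn hHc hqc hpc))
  have hnp0 : ∀ x, x ∉ K → M.nsq x (p x) = 0 := fun x hx => hnz x _ (hp0 x hx)
  have hnq0 : ∀ x, x ∉ K → M.nsq x (q x) = 0 := fun x hx => hnz x _ (hq0 x hx)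
  have hr0 : ∀ x, x ∉ K → r x = 0 := fun x hx => by
    simp only [r]
    rw [hlim_ip_zero (M.H x) (p x) (q x) (Or.inl (hp0 x hx)),
      hlim_ip_zero (M.H x) (q x) (p x) (Or.inl (hq0 x hx))]
    simp
  have hJ : Filter.Tendsto (fun n => ∫ x, M.nsq x (M.LL (fun y => χ n y - θ n y) f x) *
      Real.exp (-χ n x) ∂μ) Filter.atTop (nhds (∫ x, M.nsq x (p x) ∂μ)) := by
    have h0 : (fun n => ∫ x, M.nsq x (M.LL (fun y => χ n y - θ n y) f x) *
        Real.exp (-χ n x) ∂μ) = fun n => ∫ x, (M.nsq x (p x) - s n x * r x +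
          s n x ^ 2 * M.nsq x (q x)) * Real.exp (-χ n x) ∂μ := by
      funext n
      congr 1
      funext x
      rw [hLL]
    rw [h0]
    refine tendsto_integral_of_dominated_convergence
      (fun x => |M.nsq x (p x)| + (5 * B * ρ x ^ 4 + 2) * |r x| +
        (5 * B * ρ x ^ 4 + 2) ^ 2 * |M.nsq x (q x)|) ?_ ?_ ?_ ?_
    · intro n
      refine (hlim_continuous hW hKc.isClosed hKW (ContinuousOn.mul ((hnpc.sub
        ((hsc n).mul hrc)).add (((hsc n).pow 2).mul hnqc))
        (Real.continuous_exp.comp_continuousOn (hχc n).neg)) ?_).aestronglyMeasurable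
      intro x hx
      change (M.nsq x (p x) - s n x * r x + s n x ^ 2 * M.nsq x (q x)) *
        Real.exp (-χ n x) = 0
      rw [hnp0 x hx, hnq0 x hx, hr0 x hx]
      simp
    · have hSc : ContinuousOn (fun x => 5 * B * ρ x ^ 4 + 2) W :=
        (continuousOn_const.mul (hρc.pow 4)).add continuousOn_const
      refine hlim_integrable μ hW hKc hKW ((hnpc.abs.add (hSc.mul hrc.abs)).add
        ((hSc.pow 2).mul hnqc.abs)) ?_
      intro x hx
      rw [hnp0 x hx, hnq0 x hx, hr0 x hx]
      simp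
    · intro n
      refine Filter.Eventually.of_forall fun x => ?_
      by_cases hx : x ∈ K
      · have hxW := hKW hx
        have hρ1 := hρ.one_le x hxW
        have hρ0 : 0 ≤ ρ x := zero_le_one.trans hρ1
        have hB0 : 0 ≤ B := zero_le_one.trans hB
        have hT2 : T n ^ 2 ≤ 1 := pow_le_one₀ (hT0 n).le (hT1 n)
        have hs1 : |s n x| ≤ 5 * B * ρ x ^ 4 + 2 := by
          have h1 : 0 ≤ B * T n ^ 2 * (5 * ρ x ^ 4) := by positivity
          have h2 : B * T n ^ 2 * (5 * ρ x ^ 4) ≤ 5 * B * ρ x ^ 4 := by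
            calc B * T n ^ 2 * (5 * ρ x ^ 4) ≤ B * 1 * (5 * ρ x ^ 4) := by gcongr
              _ = 5 * B * ρ x ^ 4 := by ring
          have h3 : 0 ≤ T n / (1 + T n * ρ x) :=
            div_nonneg (hT0 n).le (zero_le_one.trans (hpos n x hxW))
          have h4 : T n / (1 + T n * ρ x) ≤ 1 := by
            rw [div_le_one (zero_lt_one.trans_le (hpos n x hxW))]
            exact (hT1 n).trans (hpos n x hxW)
          rw [abs_le]
          constructor <;> simp only [s] <;> linarith
        have he1 : Real.exp (-χ n x) ≤ 1 := by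
          rw [Real.exp_le_one_iff]
          have := hχ0 n x hxW
          linarith
        rw [Real.norm_eq_abs, abs_mul, abs_of_pos (Real.exp_pos (-χ n x))]
        refine (mul_le_mul_of_nonneg_left he1 (abs_nonneg _)).trans ?_
        rw [mul_one]
        refine (abs_add_le _ _).trans (add_le_add ((abs_sub _ _).trans ?_) ?_)
        · refine add_le_add le_rfl ?_
          rw [abs_mul]
          exact mul_le_mul_of_nonneg_right hs1 (abs_nonneg _)
        · rw [abs_mul, abs_pow]
          exact mul_le_mul_of_nonneg_right (pow_le_pow_left₀ (abs_nonneg _) hs1 2)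
            (abs_nonneg _)
      · rw [hnp0 x hx, hnq0 x hx, hr0 x hx]
        simp
    · refine Filter.Eventually.of_forall fun x => ?_
      have h1 : Filter.Tendsto (fun n => Real.exp (-χ n x)) Filter.atTop
          (nhds (Real.exp (-0))) := (Real.continuous_exp.tendsto _).comp (hχlim x).neg
      have h2 := (((hslim x).mul_const (r x)).const_sub (M.nsq x (p x))).add
        (((hslim x).pow 2).mul_const (M.nsq x (q x)))
      have h3 := h2.mul h1
      simpa using h3
  have hfin := le_of_tendsto_of_tendsto' ((hI.norm).pow 2) (hJ.const_mul (2 * (8 * C₁))) key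
  have h16 : 2 * (8 * C₁) = 16 * C₁ := by ring
  rw [h16] at hfin
  exact hfin

end Pool.Agent.Lib_KF
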