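import Pool.Agent.Lib_KF.HLim

/-! H11: Hörmander's theorem. -/

open MeasureTheory Complex
open scoped ENNReal ContDiff ComplexConjugate

namespace Pool.Agent.Lib_KF

open GPn

/-! ### Hilbert space -/

private theorem hmain_riesz {𝓗 V : Type*} [NormedAddCommGroup 𝓗] [InnerProductSpace ℂ 𝓗]
    [CompleteSpace 𝓗] [AddCommGroup V] [Module ℂ V] (T : V →ₗ[ℂ] 𝓗) (l : V →ₗ[ℂ] ℂ) (C : ℝ)
    (hC : 0 ≤ C) (h : ∀ f, ‖l f‖ ^ 2 ≤ C * ‖T f‖ ^ 2) :
    ∃ U : 𝓗, ‖U‖ ^ 2 ≤ C ∧ ∀ f, inner ℂ U (T f) = l f := by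
  have hle : ∀ f, ‖l f‖ ≤ √C * ‖T f‖ := by
    intro f
    have h1 := Real.sqrt_le_sqrt (h f)
    rwa [Real.sqrt_sq (norm_nonneg _), Real.sqrt_mul hC, Real.sqrt_sq (norm_nonneg _)] at h1
  have hk : ∀ f, T f = 0 → l f = 0 := by
    intro f hf
    have := hle f
    rw [hf, norm_zero, mul_zero] at this
    exact norm_le_zero_iff.1 this
  obtain ⟨S, hS⟩ := T.rangeRestrict.exists_rightInverse_of_surjective (LinearMap.range_rangeRestrict T)
  have hS1 : ∀ y : LinearMap.range T, T (S y) = y := by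
    intro y
    have := congrArg (fun g : LinearMap.range T →ₗ[ℂ] LinearMap.range T => ((g y : _) : 𝓗)) hS
    simpa using this
  have hgT : ∀ f, l (S ⟨T f, LinearMap.mem_range_self T f⟩) = l f := by
    intro f
    have h1 : T (S ⟨T f, LinearMap.mem_range_self T f⟩ - f) = 0 := by
      rw [map_sub, hS1]
      simp
    have h2 := hk _ h1
    rw [map_sub] at h2
    exact sub_eq_zero.1 h2
  set g : LinearMap.range T →ₗ[ℂ] ℂ := l ∘ₗ S with hg
  have hgb : ∀ y : LinearMap.range T, ‖g y‖ ≤ √C * ‖y‖ := by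
    intro y
    have := hle (S y)
    rw [hS1] at this
    simpa [hg] using this
  obtain ⟨G, hG1, hG2⟩ := exists_extension_norm_eq (LinearMap.range T) (g.mkContinuous (√C) hgb)
  refine ⟨(InnerProductSpace.toDual ℂ 𝓗).symm G, ?_, ?_⟩
  · have h1 : ‖(InnerProductSpace.toDual ℂ 𝓗).symm G‖ ≤ √C := by
      rw [LinearIsometryEquiv.norm_map, hG2]
      exact g.mkContinuous_norm_le (Real.sqrt_nonneg _) _
    calc _ ≤ (√C) ^ 2 := pow_le_pow_left₀ (norm_nonneg _) h1 2
      _ = C := Real.sq_sqrt hC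
  · intro f
    rw [InnerProductSpace.toDual_symm_apply]
    have := hG1 ⟨T f, LinearMap.mem_range_self T f⟩
    rw [LinearMap.mkContinuous_apply] at this
    change G (T f) = _ at this
    rw [this]
    exact hgT f

/-! ### algebra of `ip` -/

section
variable {D : ℕ}

private theorem hmain_ip_add_left (H : Fin D → Fin D → ℂ) (u u' v : Fin D → ℂ) :
    ip H (fun a => u a + u' a) v = ip H u v + ip H u' v := by
  simp only [ip, mul_add, Finset.sum_add_distrib]

private theorem hmain_ip_smul_left (H : Fin D → Fin D → ℂ) (c : ℂ) (u v : Fin D → ℂ) :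
    ip H (fun a => c * u a) v = c * ip H u v := by
  simp only [ip, Finset.mul_sum]
  refine Finset.sum_congr rfl fun a _ => Finset.sum_congr rfl fun e _ => ?_
  ring

private theorem hmain_ip_sum_left {κ : Type*} (s : Finset κ) (H : Fin D → Fin D → ℂ)
    (c : κ → ℂ) (u : κ → Fin D → ℂ) (v : Fin D → ℂ) :
    ip H (fun a => ∑ i ∈ s, c i * u i a) v = ∑ i ∈ s, c i * ip H (u i) v := by
  classical
  induction s using Finset.induction_on with
  | empty => simp [ip]
  | insert i s hi ih =>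
    simp only [Finset.sum_insert hi]
    rw [hmain_ip_add_left, hmain_ip_smul_left, ih]

private theorem hmain_ip_add_right (H : Fin D → Fin D → ℂ) (u v v' : Fin D → ℂ) :
    ip H u (fun a => v a + v' a) = ip H u v + ip H u v' := by
  simp only [ip, map_add, add_mul, Finset.sum_add_distrib]

private theorem hmain_ip_smul_right (H : Fin D → Fin D → ℂ) (c : ℂ) (u v : Fin D → ℂ) :
    ip H u (fun a => c * v a) = conj c * ip H u v := by
  simp only [ip, Finset.mul_sum, map_mul]
  refine Finset.sum_congr rfl fun a _ => Finset.sum_congr rfl fun e _ => ?_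
  ring

private theorem hmain_ip_sum_right {κ : Type*} (s : Finset κ) (H : Fin D → Fin D → ℂ)
    (c : κ → ℂ) (u : Fin D → ℂ) (v : κ → Fin D → ℂ) :
    ip H u (fun a => ∑ i ∈ s, c i * v i a) = ∑ i ∈ s, conj (c i) * ip H u (v i) := by
  classical
  induction s using Finset.induction_on with
  | empty => simp [ip]
  | insert i s hi ih =>
    simp only [Finset.sum_insert hi]
    rw [hmain_ip_add_right, hmain_ip_smul_right, ih]

private theorem hmain_frame_ip (H P Q : Fin D → Fin D → ℂ)
    (hP : ∀ i j, ip H (P i) (P j) = if i = j then 1 else 0)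
    (hPQ : ∀ u : Fin D → ℂ, ∀ a, ∑ i, (∑ c, Q i c * u c) * P i a = u a) (z w : Fin D → ℂ) :
    ip H (fun a => ∑ i, z i * P i a) w = ∑ i, z i * conj (∑ c, Q i c * w c) := by
  have hw : w = fun a => ∑ i, (∑ c, Q i c * w c) * P i a := by
    funext a
    exact (hPQ w a).symm
  rw [hmain_ip_sum_left]
  refine Finset.sum_congr rfl fun i _ => ?_
  congr 1
  conv_lhs => rw [hw]
  rw [hmain_ip_sum_right]
  simp only [hP]
  simp

private theorem hmain_frame_nsq (H P : Fin D → Fin D → ℂ)
    (hP : ∀ i j, ip H (P i) (P j) = if i = j then 1 else 0) (z : Fin D → ℂ) :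
    (ip H (fun a => ∑ i, z i * P i a) (fun a => ∑ i, z i * P i a)).re = ∑ i, ‖z i‖ ^ 2 := by
  rw [hmain_ip_sum_left]
  simp only [hmain_ip_sum_right, hP]
  simp only [mul_ite, mul_one, mul_zero, Finset.sum_ite_eq, Finset.mem_univ, if_true]
  rw [re_sum]
  refine Finset.sum_congr rfl fun i _ => ?_
  rw [mul_conj, normSq_eq_norm_sq, ofReal_re]

/-- `ip H u v` in terms of `H v` -/
private theorem hmain_ip_herm (H : Fin D → Fin D → ℂ) (hH : ∀ a c, H a c = conj (H c a))
    (u v : Fin D → ℂ) : ip H u v = ∑ c, conj (∑ a, H c a * v a) * u c := by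
  unfold ip
  rw [Finset.sum_comm]
  refine Finset.sum_congr rfl fun c _ => ?_
  rw [map_sum, Finset.sum_mul]
  refine Finset.sum_congr rfl fun a _ => ?_
  rw [map_mul, ← hH a c]
  ring

end

/-! ### calculus -/

section
variable {E : Type} [NormedAddCommGroup E] [NormedSpace ℂ E]

private theorem hmain_dz_add (v : E) {F G : E → ℂ} {x : E} (hF : DifferentiableAt ℝ F x)
    (hG : DifferentiableAt ℝ G x) : dz v (fun y => F y + G y) x = dz v F x + dz v G x := by
  have h := fderiv_fun_add hF hG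
  simp only [dz, h, add_apply]
  ring

private theorem hmain_dz_mul (v : E) {F G : E → ℂ} {x : E} (hF : DifferentiableAt ℝ F x)
    (hG : DifferentiableAt ℝ G x) :
    dz v (fun y => F y * G y) x = dz v F x * G x + F x * dz v G x := by
  have h : fderiv ℝ (fun y => F y * G y) x = F x • fderiv ℝ G x + G x • fderiv ℝ F x :=
    fderiv_fun_mul hF hG
  simp only [dz, h, add_apply, smul_apply, smul_eq_mul]
  ring

private theorem hmain_dz_const_mul (v : E) (c : ℂ) {F : E → ℂ} {x : E}
    (hF : DifferentiableAt ℝ F x) : dz v (fun y => c * F y) x = c * dz v F x := by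
  have h : fderiv ℝ (fun y => c * F y) x = c • fderiv ℝ F x := fderiv_const_mul hF c
  simp only [dz, h, smul_apply, smul_eq_mul]
  ring

private theorem hmain_dz_sum {κ : Type*} (s : Finset κ) (v : E) {F : κ → E → ℂ} {x : E}
    (hF : ∀ i ∈ s, DifferentiableAt ℝ (F i) x) :
    dz v (fun y => ∑ i ∈ s, F i y) x = ∑ i ∈ s, dz v (F i) x := by
  have h : fderiv ℝ (fun y => ∑ i ∈ s, F i y) x = ∑ i ∈ s, fderiv ℝ (F i) x := fderiv_fun_sum hF
  simp only [dz, h, FunLike.coe_sum, Finset.sum_apply]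
  rw [Finset.mul_sum, ← Finset.sum_sub_distrib, Finset.sum_div]

private theorem hmain_dz_congr (v : E) {F G : E → ℂ} {x : E} (h : F =ᶠ[nhds x] G) :
    dz v F x = dz v G x := by
  simp only [dz, h.fderiv_eq]

private theorem hmain_dz_zero (v : E) (x : E) : dz v (fun _ => (0 : ℂ)) x = 0 := by
  simp [dz]

private theorem hmain_dz_conj (v : E) {F : E → ℂ} {x : E} (hF : DifferentiableAt ℝ F x) :
    conj (dz v (fun y => conj (F y)) x) = dzb v F x := by
  have h : fderiv ℝ (fun y => conj (F y)) x = (conjCLE : ℂ →L[ℝ] ℂ).comp (fderiv ℝ F x) :=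
    (conjCLE.toContinuousLinearMap.hasFDerivAt.comp x hF.hasFDerivAt).fderiv
  simp only [dz, dzb, h]
  simp [map_ofNat]

private theorem hmain_dz_smooth {F : E → ℂ} (hF : ContDiff ℝ ∞ F) (v : E) :
    ContDiff ℝ ∞ (dz v F) := by
  have h : ContDiff ℝ ∞ (fderiv ℝ F) := hF.fderiv_right (m := ∞) (by simp)
  have h1 : ContDiff ℝ ∞ (fun x => fderiv ℝ F x v) := h.clm_apply contDiff_const
  have h2 : ContDiff ℝ ∞ (fun x => fderiv ℝ F x (I • v)) := h.clm_apply contDiff_const
  have : dz v F = fun x => (fderiv ℝ F x v - I * fderiv ℝ F x (I • v)) / 2 := rfl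
  rw [this]
  exact (h1.sub (contDiff_const.mul h2)).div_const 2

private theorem hmain_scw_zero {W : Set E} : SCW W (fun _ => (0 : ℂ)) :=
  ⟨contDiff_const, HasCompactSupport.zero, by
    have : tsupport (fun _ : E => (0 : ℂ)) = ∅ := tsupport_eq_empty_iff.2 rfl
    rw [this]; exact Set.empty_subset _⟩

private theorem hmain_scw_add {W : Set E} {f g : E → ℂ} (hf : SCW W f) (hg : SCW W g) :
    SCW W (fun x => f x + g x) := by
  refine ⟨hf.1.add hg.1, hf.2.1.add hg.2.1, ?_⟩
  exact (tsupport_add f g).trans (Set.union_subset hf.2.2 hg.2.2)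

private theorem hmain_scw_smul {W : Set E} {f : E → ℂ} (c : ℂ) (hf : SCW W f) :
    SCW W (fun x => c * f x) := by
  refine ⟨contDiff_const.mul hf.1, hf.2.1.mul_left, ?_⟩
  exact (tsupport_mul_subset_right (f := fun _ => c) (g := f)).trans hf.2.2

/-- a function smooth on `W` times (the conjugate of) a test function -/
private theorem hmain_scw_mul {W : Set E} (hW : IsOpen W) {G f : E → ℂ}
    (hG : ContDiffOn ℝ ∞ G W) (hf : SCW W f) : SCW W (fun x => G x * conj (f x)) := by
  have hs : Function.support (fun x => G x * conj (f x)) ⊆ Function.support f := by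
    intro x hx
    rw [Function.mem_support] at hx ⊢
    intro h
    exact hx (by rw [h, map_zero, mul_zero])
  have hts : tsupport (fun x => G x * conj (f x)) ⊆ tsupport f := closure_mono hs
  refine ⟨?_, ?_, hts.trans hf.2.2⟩
  · rw [contDiff_iff_contDiffAt]
    intro x
    by_cases hx : x ∈ tsupport f
    · exact ((hG x (hf.2.2 hx)).contDiffAt (hW.mem_nhds (hf.2.2 hx))).mul
        (conjCLE.contDiff.contDiffAt.comp x hf.1.contDiffAt)
    · have h0 : (fun x => G x * conj (f x)) =ᶠ[nhds x] fun _ => 0 := by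
        filter_upwards [(isClosed_tsupport f).isOpen_compl.mem_nhds hx] with y hy
        rw [image_eq_zero_of_notMem_tsupport hy, map_zero, mul_zero]
      exact contDiffAt_const.congr_of_eventuallyEq h0
  · exact hf.2.1.mono hs

end

/-! ### the inverse matrix -/

section
variable {E : Type} [NormedAddCommGroup E] [NormedSpace ℂ E] {D : ℕ}

private theorem hmain_det_smooth {W : Set E} {m : ℕ} (B : E → Matrix (Fin m) (Fin m) ℂ)
    (hB : ∀ a c, ContDiffOn ℝ ∞ (fun x => B x a c) W) :
    ContDiffOn ℝ ∞ (fun x => (B x).det) W := by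
  simp only [Matrix.det_apply]
  refine ContDiffOn.sum fun σ _ => ?_
  refine ContDiffOn.const_smul _ ?_
  exact contDiffOn_prod fun i _ => hB _ _

private theorem hmain_inv_smooth {W : Set E} (B : E → Matrix (Fin D) (Fin D) ℂ)
    (hB : ∀ a c, ContDiffOn ℝ ∞ (fun x => B x a c) W) (hd : ∀ x ∈ W, (B x).det ≠ 0) (a c : Fin D) :
    ContDiffOn ℝ ∞ (fun x => (B x)⁻¹ a c) W := by
  have h : ∀ x, (B x)⁻¹ a c = ((B x).det)⁻¹ * ((B x).updateRow c (Pi.single a 1)).det := by
    intro x
    rw [Matrix.inv_def, Ring.inverse_eq_inv', Matrix.smul_apply, smul_eq_mul,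
      Matrix.adjugate_apply]
  simp only [h]
  refine ((hmain_det_smooth B hB).inv hd).mul (hmain_det_smooth _ fun i j => ?_)
  by_cases hi : i = c
  · subst hi
    simp only [Matrix.updateRow_self]
    exact contDiffOn_const
  · simp only [Matrix.updateRow_ne hi]
    exact hB i j

private theorem hmain_det_ne (H : Fin D → Fin D → ℂ)
    (hpos : ∀ u : Fin D → ℂ, u ≠ 0 → 0 < (ip H u u).re) : (Matrix.of H).det ≠ 0 := by
  intro h
  obtain ⟨u, hu, hu0⟩ := Matrix.exists_mulVec_eq_zero_iff.2 h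
  have h1 : ip H u u = 0 := by
    unfold ip
    have h2 : ∀ a, ∑ c, H a c * u c = 0 := by
      intro a
      have := congrFun hu0 a
      simpa [Matrix.mulVec, dotProduct] using this
    simp only [mul_assoc, ← Finset.mul_sum, h2, mul_zero, Finset.sum_const_zero]
  have := hpos u hu
  rw [h1] at this
  simp at this

end

/-! ### the main part -/

section
variable {E : Type} [NormedAddCommGroup E] [NormedSpace ℂ E] [FiniteDimensional ℂ E]
  [MeasurableSpace E] [BorelSpace E] {W : Set E} {ι : Type} [Fintype ι]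
  {b : Module.Basis ι ℂ E} {D : ℕ}

/-- test forms -/
private def hmain_V (W : Set E) (ι : Type) (D : ℕ) : Submodule ℂ (ι → Fin D → E → ℂ) where
  carrier := {f | ∀ k a, SCW W (f k a)}
  add_mem' := fun hf hg k a => hmain_scw_add (hf k a) (hg k a)
  zero_mem' := fun _ _ => hmain_scw_zero
  smul_mem' := fun c _ hf k a => hmain_scw_smul c (hf k a)

/-- the divergence -/
private noncomputable def hmain_Div (M : HMet W b D) (f : ι → Fin D → E → ℂ) (x : E)
    (a : Fin D) : ℂ := ∑ k, M.ch k (f k) x a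

omit [FiniteDimensional ℂ E] [MeasurableSpace E] [BorelSpace E] in
private theorem hmain_diff {f : E → ℂ} (hf : SCW W f) (x : E) : DifferentiableAt ℝ f x :=
  hf.1.contDiffAt.differentiableAt (by simp)

omit [FiniteDimensional ℂ E] [MeasurableSpace E] [BorelSpace E] in
private theorem hmain_Div_add (M : HMet W b D) (f g : ι → Fin D → E → ℂ)
    (hf : ∀ k a, SCW W (f k a)) (hg : ∀ k a, SCW W (g k a)) (x : E) (a : Fin D) :
    hmain_Div M (fun k a x => f k a x + g k a x) x a = hmain_Div M f x a + hmain_Div M g x a := by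
  simp only [hmain_Div, HMet.ch]
  rw [← Finset.sum_add_distrib]
  refine Finset.sum_congr rfl fun k _ => ?_
  rw [hmain_dz_add _ (hmain_diff (hf k a) x) (hmain_diff (hg k a) x)]
  simp only [mul_add, Finset.sum_add_distrib]
  ring

omit [FiniteDimensional ℂ E] [MeasurableSpace E] [BorelSpace E] in
private theorem hmain_Div_smul (M : HMet W b D) (c : ℂ) (f : ι → Fin D → E → ℂ)
    (hf : ∀ k a, SCW W (f k a)) (x : E) (a : Fin D) :
    hmain_Div M (fun k a x => c * f k a x) x a = c * hmain_Div M f x a := by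
  simp only [hmain_Div, HMet.ch]
  rw [Finset.mul_sum]
  refine Finset.sum_congr rfl fun k _ => ?_
  rw [hmain_dz_const_mul _ _ (hmain_diff (hf k a) x), mul_add, Finset.mul_sum]
  congr 1
  refine Finset.sum_congr rfl fun e _ => ?_
  ring

omit [FiniteDimensional ℂ E] [MeasurableSpace E] [BorelSpace E] in
private theorem hmain_ch_cont (M : HMet W b D) (k : ι) (u : Fin D → E → ℂ)
    (hu : ∀ a, SCW W (u a)) (a : Fin D) : ContinuousOn (fun x => M.ch k u x a) W := by
  unfold HMet.ch
  refine ((hmain_dz_smooth (hu a).1 (b k)).continuous.continuousOn).add ?_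
  exact continuousOn_finsetSum _ fun c _ =>
    (M.smA k a c).continuousOn.mul (hu c).1.continuous.continuousOn

omit [FiniteDimensional ℂ E] [MeasurableSpace E] [BorelSpace E] in
private theorem hmain_Div_cont (M : HMet W b D) (f : ι → Fin D → E → ℂ)
    (hf : ∀ k a, SCW W (f k a)) (a : Fin D) : ContinuousOn (fun x => hmain_Div M f x a) W :=
  continuousOn_finsetSum _ fun k _ => hmain_ch_cont M k (f k) (hf k) a

omit [FiniteDimensional ℂ E] [MeasurableSpace E] [BorelSpace E] in
private theorem hmain_ch_zero (M : HMet W b D) (k : ι) (u : Fin D → E → ℂ) (x : E)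
    (hx : ∀ a, x ∉ tsupport (u a)) (a : Fin D) : M.ch k u x a = 0 := by
  unfold HMet.ch
  have h1 : fderiv ℝ (u a) x = 0 := fderiv_of_notMem_tsupport ℝ (hx a)
  have h2 : ∀ c, u c x = 0 := fun c => image_eq_zero_of_notMem_tsupport (hx c)
  simp [dz, h1, h2]

omit [FiniteDimensional ℂ E] [MeasurableSpace E] [BorelSpace E] in
private theorem hmain_Div_zero (M : HMet W b D) (f : ι → Fin D → E → ℂ) (x : E)
    (hx : x ∉ ⋃ k, ⋃ a, tsupport (f k a)) (a : Fin D) : hmain_Div M f x a = 0 := by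
  simp only [Set.mem_iUnion, not_exists] at hx
  exact Finset.sum_eq_zero fun k _ => hmain_ch_zero M k (f k) x (hx k) a

omit [FiniteDimensional ℂ E] [MeasurableSpace E] [BorelSpace E] in
private theorem hmain_K_compact (f : ι → Fin D → E → ℂ) (hf : ∀ k a, SCW W (f k a)) :
    IsCompact (⋃ k, ⋃ a, tsupport (f k a)) :=
  isCompact_iUnion fun k => isCompact_iUnion fun a => (hf k a).2.1

omit [FiniteDimensional ℂ E] [MeasurableSpace E] [BorelSpace E] [Fintype ι] in
private theorem hmain_K_sub (f : ι → Fin D → E → ℂ) (hf : ∀ k a, SCW W (f k a)) :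
    (⋃ k, ⋃ a, tsupport (f k a)) ⊆ W :=
  Set.iUnion_subset fun k => Set.iUnion_subset fun a => (hf k a).2.2

omit [NormedSpace ℂ E] [FiniteDimensional ℂ E] in
private theorem hmain_integrable {F : Type*} [NormedAddCommGroup F] (μ : Measure E)
    [μ.IsAddHaarMeasure] {K : Set E} (hK : IsCompact K) (hKW : K ⊆ W) {g : E → F}
    (hg : ContinuousOn g W) (h0 : ∀ x, x ∉ K → g x = 0) : Integrable g μ := by
  have h1 : IntegrableOn g K μ := (hg.mono hKW).integrableOn_compact hK
  rwa [integrableOn_iff_integrable_of_support_subset] at h1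
  intro x hx
  by_contra h
  exact hx (h0 x h)

omit [FiniteDimensional ℂ E] [MeasurableSpace E] [BorelSpace E] in
private theorem hmain_ip_cont (M : HMet W b D) (u v : E → Fin D → ℂ)
    (hu : ∀ a, ContinuousOn (fun x => u x a) W) (hv : ∀ a, ContinuousOn (fun x => v x a) W) :
    ContinuousOn (fun x => ip (M.H x) (u x) (v x)) W := by
  unfold ip
  refine continuousOn_finsetSum _ fun a _ => continuousOn_finsetSum _ fun c _ => ?_
  exact ((Complex.continuous_conj.comp_continuousOn (hv a)).mul (M.smH a c).continuousOn).mul (hu c)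

private theorem hmain_ip_zero_left (H : Fin D → Fin D → ℂ) (u v : Fin D → ℂ)
    (h : ∀ a, u a = 0) : ip H u v = 0 := by
  simp [ip, h]

private theorem hmain_ip_zero_right (H : Fin D → Fin D → ℂ) (u v : Fin D → ℂ)
    (h : ∀ a, v a = 0) : ip H u v = 0 := by
  simp [ip, h]

omit [FiniteDimensional ℂ E] in
private theorem hmain_nsq_int (M : HMet W b D) (μ : Measure E) [μ.IsAddHaarMeasure]
    (f : ι → Fin D → E → ℂ) (hf : ∀ k a, SCW W (f k a)) :
    Integrable (fun x => M.nsq x (hmain_Div M f x)) μ := by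
  refine hmain_integrable μ (hmain_K_compact f hf) (hmain_K_sub f hf) ?_ ?_
  · exact Complex.continuous_re.comp_continuousOn
      (hmain_ip_cont M _ _ (hmain_Div_cont M f hf) (hmain_Div_cont M f hf))
  · intro x hx
    unfold HMet.nsq
    rw [hmain_ip_zero_left _ _ _ (hmain_Div_zero M f x hx)]
    simp

omit [FiniteDimensional ℂ E] in
private theorem hmain_ip_int (M : HMet W b D) (μ : Measure E) [μ.IsAddHaarMeasure] (k₀ : ι)
    (v : Fin D → E → ℂ) (hv : ∀ a, ContDiffOn ℝ ∞ (v a) W)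
    (f : ι → Fin D → E → ℂ) (hf : ∀ k a, SCW W (f k a)) :
    Integrable (fun x => ip (M.H x) (fun a => v a x) (fun a => f k₀ a x)) μ := by
  refine hmain_integrable μ (hmain_K_compact f hf) (hmain_K_sub f hf) ?_ ?_
  · exact hmain_ip_cont M (fun x a => v a x) (fun x a => f k₀ a x)
      (fun a => (hv a).continuousOn) (fun a => (hf k₀ a).1.continuous.continuousOn)
  · intro x hx
    simp only [Set.mem_iUnion, not_exists] at hx
    exact hmain_ip_zero_right _ _ _ fun a => image_eq_zero_of_notMem_tsupport (hx k₀ a)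

/-- the isometry given by the frame -/
private noncomputable def hmain_T (Q : E → Fin D → Fin D → ℂ) (w : E → Fin D → ℂ) (x : E) :
    EuclideanSpace ℂ (Fin D) := WithLp.toLp 2 (fun i => ∑ c, Q x i c * w x c)

private theorem hmain_aesm {X : Type*} [MeasurableSpace X] {ν : Measure X} (g : Fin D → X → ℂ)
    (hg : ∀ i, AEStronglyMeasurable (g i) ν) :
    AEStronglyMeasurable (fun x => (WithLp.toLp 2 (fun i => g i x) : EuclideanSpace ℂ (Fin D)))
      ν := by
  have h1 : AEMeasurable (fun x => fun i => g i x) ν :=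
    aemeasurable_pi_iff.2 fun i => (hg i).aemeasurable
  exact (PiLp.continuous_toLp 2 _).comp_aestronglyMeasurable h1.aestronglyMeasurable

omit [FiniteDimensional ℂ E] in
private theorem hmain_memLp (M : HMet W b D) (hW : IsOpen W) (μ : Measure E)
    [μ.IsAddHaarMeasure] (Q : E → Fin D → Fin D → ℂ)
    (hQ : ∀ i a, Measurable fun x => Q x i a)
    (hQn : ∀ x ∈ W, ∀ u : Fin D → ℂ, M.nsq x u = ∑ i, ‖∑ c, Q x i c * u c‖ ^ 2)
    (f : ι → Fin D → E → ℂ) (hf : ∀ k a, SCW W (f k a)) :
    MemLp (hmain_T Q (hmain_Div M f)) 2 (μ.restrict W) := by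
  have hm : AEStronglyMeasurable (hmain_T Q (hmain_Div M f)) (μ.restrict W) := by
    refine hmain_aesm (fun i x => ∑ c, Q x i c * hmain_Div M f x c) fun i => ?_
    refine Finset.aestronglyMeasurable_fun_sum _ fun c _ => ?_
    exact (hQ i c).aestronglyMeasurable.mul
      ((hmain_Div_cont M f hf c).aestronglyMeasurable hW.measurableSet)
  rw [memLp_two_iff_integrable_sq_norm hm]
  refine ((hmain_nsq_int M μ f hf).integrableOn (s := W)).congr ?_
  filter_upwards [ae_restrict_mem hW.measurableSet] with x hx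
  rw [hQn x hx, EuclideanSpace.norm_sq_eq]
  rfl

/-- norms in `Lp` -/
private theorem hmain_norm_sq {X : Type*} [MeasurableSpace X] {ν : Measure X}
    (u : Lp (EuclideanSpace ℂ (Fin D)) 2 ν) : ‖u‖ ^ 2 = ∫ x, ‖u x‖ ^ 2 ∂ν := by
  have h := @inner_self_eq_norm_sq_to_K ℂ (Lp (EuclideanSpace ℂ (Fin D)) 2 ν) _ _ _ u
  rw [L2.inner_def] at h
  have e : ∀ x, inner ℂ (u x) (u x) = ((‖u x‖ ^ 2 : ℝ) : ℂ) := by
    intro x
    rw [inner_self_eq_norm_sq_to_K]
    simp
  simp only [e] at h
  rw [integral_complex_ofReal] at h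
  have h2 : ((∫ x, ‖u x‖ ^ 2 ∂ν : ℝ) : ℂ) = ((‖u‖ ^ 2 : ℝ) : ℂ) := by
    rw [h]; simp
  exact_mod_cast h2.symm

/-- the isometry as a linear map -/
private noncomputable def hmain_Tl (M : HMet W b D) (hW : IsOpen W) (μ : Measure E)
    [μ.IsAddHaarMeasure] (Q : E → Fin D → Fin D → ℂ)
    (hQ : ∀ i a, Measurable fun x => Q x i a)
    (hQn : ∀ x ∈ W, ∀ u : Fin D → ℂ, M.nsq x u = ∑ i, ‖∑ c, Q x i c * u c‖ ^ 2) :
    hmain_V W ι D →ₗ[ℂ] Lp (EuclideanSpace ℂ (Fin D)) 2 (μ.restrict W) where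
  toFun f := (hmain_memLp M hW μ Q hQ hQn f.1 f.2).toLp _
  map_add' f g := by
    rw [← MemLp.toLp_add]
    refine MemLp.toLp_congr _ _ (Filter.Eventually.of_forall fun x => ?_)
    have h : ∀ a, hmain_Div M (f + g).1 x a = hmain_Div M f.1 x a + hmain_Div M g.1 x a :=
      fun a => hmain_Div_add M f.1 g.1 f.2 g.2 x a
    change hmain_T Q (hmain_Div M (f + g).1) x = hmain_T Q (hmain_Div M f.1) x +
      hmain_T Q (hmain_Div M g.1) x
    unfold hmain_T
    rw [← WithLp.toLp_add]
    congr 1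
    funext i
    simp only [h, mul_add, Finset.sum_add_distrib, Pi.add_apply]
  map_smul' c f := by
    rw [RingHom.id_apply, ← MemLp.toLp_const_smul]
    refine MemLp.toLp_congr _ _ (Filter.Eventually.of_forall fun x => ?_)
    have h : ∀ a, hmain_Div M (c • f).1 x a = c * hmain_Div M f.1 x a :=
      fun a => hmain_Div_smul M c f.1 f.2 x a
    change hmain_T Q (hmain_Div M (c • f).1) x = c • hmain_T Q (hmain_Div M f.1) x
    unfold hmain_T
    rw [← WithLp.toLp_smul]
    congr 1
    funext i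
    simp only [h, Pi.smul_apply, smul_eq_mul, Finset.mul_sum]
    refine Finset.sum_congr rfl fun e _ => ?_
    ring

/-- the functional -/
private noncomputable def hmain_l (M : HMet W b D) (μ : Measure E) [μ.IsAddHaarMeasure] (k₀ : ι)
    (v : Fin D → E → ℂ) (hv : ∀ a, ContDiffOn ℝ ∞ (v a) W) : hmain_V W ι D →ₗ[ℂ] ℂ where
  toFun f := ∫ x, conj (ip (M.H x) (fun a => v a x) (fun a => f.1 k₀ a x)) ∂μ
  map_add' f g := by
    have hi : ∀ f : hmain_V W ι D,
        Integrable (fun x => conj (ip (M.H x) (fun a => v a x) (fun a => f.1 k₀ a x))) μ :=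
      fun f => conjCLE.toContinuousLinearMap.integrable_comp (hmain_ip_int M μ k₀ v hv f.1 f.2)
    rw [← integral_add (hi f) (hi g)]
    refine integral_congr_ae (Filter.Eventually.of_forall fun x => ?_)
    change conj (ip (M.H x) (fun a => v a x) (fun a => f.1 k₀ a x + g.1 k₀ a x)) = _
    rw [hmain_ip_add_right, map_add]
  map_smul' c f := by
    rw [RingHom.id_apply, smul_eq_mul, ← integral_const_mul]
    refine integral_congr_ae (Filter.Eventually.of_forall fun x => ?_)
    change conj (ip (M.H x) (fun a => v a x) (fun a => c * f.1 k₀ a x)) = _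
    rw [hmain_ip_smul_right, map_mul, Complex.conj_conj]

variable [DecidableEq ι]

/-- the special test form -/
private noncomputable def hmain_f (M : HMet W b D) (j : ι) (a : Fin D) (ψ : E → ℂ) :
    ι → Fin D → E → ℂ :=
  fun k c x => if k = j then (Matrix.of (M.H x))⁻¹ c a * conj (ψ x) else 0

omit [FiniteDimensional ℂ E] [MeasurableSpace E] [BorelSpace E] in
private theorem hmain_f_scw (M : HMet W b D) (hW : IsOpen W) (j : ι) (a : Fin D) (ψ : E → ℂ)
    (hψ : SCW W ψ) (k : ι) (c : Fin D) : SCW W (hmain_f M j a ψ k c) := by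
  unfold hmain_f
  by_cases hk : k = j
  · simp only [hk, if_true]
    exact hmain_scw_mul hW (hmain_inv_smooth (fun x => Matrix.of (M.H x)) (fun a c => M.smH a c)
      (fun x hx => hmain_det_ne (M.H x) (M.pos x hx)) c a) hψ
  · simp only [hk, if_false]
    exact hmain_scw_zero

omit [FiniteDimensional ℂ E] [MeasurableSpace E] [BorelSpace E] in
private theorem hmain_f_mul (M : HMet W b D) (j : ι) (a : Fin D) (ψ : E → ℂ) (x : E)
    (hx : x ∈ W) (c : Fin D) :
    ∑ e, M.H x c e * hmain_f M j a ψ j e x = if c = a then conj (ψ x) else 0 := by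
  have h1 : (Matrix.of (M.H x)) * (Matrix.of (M.H x))⁻¹ = 1 :=
    Matrix.mul_nonsing_inv _ (isUnit_iff_ne_zero.2 (hmain_det_ne (M.H x) (M.pos x hx)))
  have h2 : ∑ e, M.H x c e * (Matrix.of (M.H x))⁻¹ e a = if c = a then 1 else 0 := by
    have := congrFun (congrFun h1 c) a
    rw [Matrix.mul_apply, Matrix.one_apply] at this
    exact this
  unfold hmain_f
  simp only [if_true, ← mul_assoc, ← Finset.sum_mul, h2]
  split_ifs <;> simp

omit [FiniteDimensional ℂ E] [MeasurableSpace E] [BorelSpace E] [DecidableEq ι] in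
/-- `H (δ_k f) = ∂_k (H f)` -/
private theorem hmain_H_ch (M : HMet W b D) (hW : IsOpen W) (k : ι) (u : Fin D → E → ℂ)
    (hu : ∀ a, SCW W (u a)) (x : E) (hx : x ∈ W) (c : Fin D) :
    ∑ a, M.H x c a * M.ch k u x a = dz (b k) (fun y => ∑ a, M.H y c a * u a y) x := by
  have hH : ∀ a, DifferentiableAt ℝ (fun y => M.H y c a) x := fun a =>
    ((M.smH c a x hx).contDiffAt (hW.mem_nhds hx)).differentiableAt (by simp)
  rw [hmain_dz_sum (F := fun a y => M.H y c a * u a y) Finset.univ (b k)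
    fun a _ => (hH a).mul (hmain_diff (hu a) x)]
  have e : ∀ a, dz (b k) (fun y => M.H y c a * u a y) x =
      (∑ e, M.H x c e * M.A k x e a) * u a x + M.H x c a * dz (b k) (u a) x := by
    intro a
    rw [hmain_dz_mul _ (hH a) (hmain_diff (hu a) x), M.chern k c a x hx]
  simp only [e]
  unfold HMet.ch
  simp only [mul_add, Finset.sum_add_distrib, Finset.mul_sum, Finset.sum_mul]
  rw [add_comm, Finset.sum_comm]
  congr 1
  refine Finset.sum_congr rfl fun a _ => Finset.sum_congr rfl fun e _ => ?_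
  ring

omit [FiniteDimensional ℂ E] [MeasurableSpace E] [BorelSpace E] in
private theorem hmain_f_div (M : HMet W b D) (hW : IsOpen W) (j : ι) (a : Fin D) (ψ : E → ℂ)
    (hψ : SCW W ψ) (x : E) (hx : x ∈ W) (u : Fin D → ℂ) :
    ip (M.H x) u (hmain_Div M (hmain_f M j a ψ) x) = u a * dzb (b j) ψ x := by
  have h0 : ∀ c, hmain_Div M (hmain_f M j a ψ) x c = M.ch j (hmain_f M j a ψ j) x c := by
    intro c
    unfold hmain_Div
    refine Finset.sum_eq_single j (fun k _ hk => ?_) (by simp)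
    refine hmain_ch_zero M k _ x (fun e => ?_) c
    have : hmain_f M j a ψ k e = fun _ => 0 := by
      funext y
      simp [hmain_f, hk]
    rw [this, notMem_tsupport_iff_eventuallyEq]
    exact Filter.EventuallyEq.rfl
  have h1 : hmain_Div M (hmain_f M j a ψ) x = M.ch j (hmain_f M j a ψ j) x := funext h0
  rw [h1, hmain_ip_herm _ (M.herm x hx)]
  have h2 : ∀ c, ∑ e, M.H x c e * M.ch j (hmain_f M j a ψ j) x e =
      dz (b j) (fun y => if c = a then conj (ψ y) else 0) x := by
    intro c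
    rw [hmain_H_ch M hW j _ (hmain_f_scw M hW j a ψ hψ j) x hx c]
    refine hmain_dz_congr _ ?_
    filter_upwards [hW.mem_nhds hx] with y hy
    exact hmain_f_mul M j a ψ y hy c
  simp only [h2]
  rw [Finset.sum_eq_single a]
  · simp only [if_true]
    rw [hmain_dz_conj _ (hmain_diff hψ x), mul_comm]
  · intro c _ hc
    simp only [hc, if_false]
    rw [hmain_dz_zero]
    simp
  · simp

omit [FiniteDimensional ℂ E] [MeasurableSpace E] [BorelSpace E] in
private theorem hmain_f_v (M : HMet W b D) (j k₀ : ι) (a : Fin D) (ψ : E → ℂ) (x : E)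
    (hx : x ∈ W) (v : Fin D → ℂ) :
    ip (M.H x) v (fun c => hmain_f M j a ψ k₀ c x) = (if j = k₀ then v a else 0) * ψ x := by
  by_cases hj : j = k₀
  · subst hj
    rw [hmain_ip_herm _ (M.herm x hx)]
    simp only [hmain_f_mul M j a ψ x hx]
    rw [Finset.sum_eq_single a]
    · simp [mul_comm]
    · intro c _ hc
      simp [hc]
    · simp
  · rw [if_neg hj, hmain_ip_zero_right, zero_mul]
    intro c
    simp [hmain_f, Ne.symm hj]

end

variable {E : Type} [NormedAddCommGroup E] [NormedSpace ℂ E] [FiniteDimensional ℂ E]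
  [MeasurableSpace E] [BorelSpace E] {W : Set E} {ι : Type} [Fintype ι]
  [DecidableEq ι] {b : Module.Basis ι ℂ E} {D : ℕ}

/-- H11: Hörmander's theorem. -/
theorem HMet.hormander (M : HMet W b D) (hW : IsOpen W) (μ : Measure E) [μ.IsAddHaarMeasure]
    (ρ : E → ℝ) (hρ : Exhaust W b ρ) (κ : E → ℝ)
    (hκ : ContinuousOn κ W) (hκ0 : ∀ x ∈ W, 0 ≤ κ x) (k₀ : ι)
    (hcurv : ∀ x ∈ W, ∀ f : ι → Fin D → ℂ, κ x * M.nsq x (f k₀) ≤ M.curv x f)
    (v : Fin D → E → ℂ) (hv : ∀ a, ContDiffOn ℝ ∞ (v a) W)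
    (hvcl : ∀ k, k ≠ k₀ → ∀ a, ∀ x ∈ W, dzb (b k) (v a) x = 0)
    (c : ℝ) (hc : 0 < c) (hvκ : ∀ x ∈ W, (∃ a, v a x ≠ 0) → c ≤ κ x ∧ κ x ≤ c⁻¹)
    (C₁ : ℝ) (hC₁ : 0 ≤ C₁)
    (hvM : ∫⁻ x in W, ENNReal.ofReal ((κ x)⁻¹ * M.nsq x (fun a => v a x)) ∂μ ≤
      ENNReal.ofReal C₁) :
    ∃ u : Fin D → E → ℂ, (∀ a, AEStronglyMeasurable (u a) (μ.restrict W)) ∧
      ∫⁻ x in W, ENNReal.ofReal (M.nsq x (fun a => u a x)) ∂μ ≤ ENNReal.ofReal (16 * C₁) ∧
      ∀ ψ : E → ℂ, SCW W ψ → ∀ j a,
        ∫ x in W, u a x * dzb (b j) ψ x ∂μ =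
          - ∫ x in W, (if j = k₀ then v a x else 0) * ψ x ∂μ := by
  obtain ⟨P, Q, hPm, hQm, hP, hPQ, hQn⟩ := M.exists_frame hW
  have hWm : MeasurableSet W := hW.measurableSet
  set ν := μ.restrict W with hν
  have haeW : ∀ᵐ x ∂ν, x ∈ W := ae_restrict_mem hWm
  set T := hmain_Tl M hW μ Q hQm hQn with hT
  set l := hmain_l M μ k₀ v hv with hl
  have hTc : ∀ f : hmain_V W ι D, (T f : E → EuclideanSpace ℂ (Fin D)) =ᵐ[ν]
      hmain_T Q (hmain_Div M f.1) := fun f =>
    MemLp.coeFn_toLp (hmain_memLp M hW μ Q hQm hQn f.1 f.2)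
  have hTn : ∀ f : hmain_V W ι D, ‖T f‖ ^ 2 = ∫ x, M.nsq x (hmain_Div M f.1 x) ∂μ := by
    intro f
    rw [hmain_norm_sq]
    have h1 : ∫ x, M.nsq x (hmain_Div M f.1 x) ∂μ = ∫ x in W, M.nsq x (hmain_Div M f.1 x) ∂μ := by
      refine (setIntegral_eq_integral_of_forall_compl_eq_zero fun x hx => ?_).symm
      unfold HMet.nsq
      rw [hmain_ip_zero_left _ _ _ (hmain_Div_zero M f.1 x fun h => hx (hmain_K_sub f.1 f.2 h))]
      simp
    rw [h1]
    refine integral_congr_ae ?_
    filter_upwards [hTc f, haeW] with x hx hxW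
    rw [hx, hQn x hxW, EuclideanSpace.norm_sq_eq]
    rfl
  have hest : ∀ f : hmain_V W ι D, ‖l f‖ ^ 2 ≤ (16 * C₁) * ‖T f‖ ^ 2 := by
    intro f
    have h1 := M.dual_limit hW μ ρ hρ κ hκ hκ0 k₀ hcurv v hv hvcl c hc hvκ C₁ hC₁ hvM f.1 f.2
    have h2 : l f = conj (∫ x, ip (M.H x) (fun a => v a x) (fun a => f.1 k₀ a x) ∂μ) :=
      integral_conj
    rw [h2, RCLike.norm_conj, hTn f]
    exact h1
  obtain ⟨U, hU1, hU2⟩ := hmain_riesz T l (16 * C₁) (by positivity) hest
  refine ⟨fun a x => -∑ i, U x i * P x i a, ?_, ?_, ?_⟩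
  · intro a
    refine (Finset.aestronglyMeasurable_fun_sum _ fun i _ => ?_).neg
    refine AEStronglyMeasurable.mul ?_ (hPm i a).aestronglyMeasurable
    exact (PiLp.continuous_apply 2 _ i).comp_aestronglyMeasurable (Lp.aestronglyMeasurable U)
  · have h1 : ∀ x ∈ W, M.nsq x (fun a => -∑ i, U x i * P x i a) = ‖U x‖ ^ 2 := by
      intro x hx
      rw [EuclideanSpace.norm_sq_eq]
      have h2 := hmain_frame_nsq (M.H x) (P x) (hP x hx) (fun i => - U x i)
      simp only [norm_neg] at h2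
      rw [← h2]
      unfold HMet.nsq
      simp only [neg_mul, Finset.sum_neg_distrib]
    have h2 : ∫⁻ x in W, ENNReal.ofReal (M.nsq x (fun a => -∑ i, U x i * P x i a)) ∂μ =
        ∫⁻ x, ENNReal.ofReal (‖U x‖ ^ 2) ∂ν := by
      refine lintegral_congr_ae ?_
      filter_upwards [haeW] with x hx
      rw [h1 x hx]
    rw [h2]
    have h3 : Integrable (fun x => ‖U x‖ ^ 2) ν :=
      (memLp_two_iff_integrable_sq_norm (Lp.aestronglyMeasurable U)).1 (Lp.memLp U)
    rw [← ofReal_integral_eq_lintegral_ofReal h3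
      (Filter.Eventually.of_forall fun x => by positivity), ← hmain_norm_sq]
    exact ENNReal.ofReal_le_ofReal hU1
  · intro ψ hψ j a
    set f : hmain_V W ι D := ⟨hmain_f M j a ψ, hmain_f_scw M hW j a ψ hψ⟩ with hf
    have h1 := hU2 f
    have h2 : l f = conj (∫ x in W, (if j = k₀ then v a x else 0) * ψ x ∂μ) := by
      have h3 : l f = conj (∫ x, ip (M.H x) (fun a => v a x) (fun a => f.1 k₀ a x) ∂μ) :=
        integral_conj
      rw [h3]
      congr 1
      have h4 : ∫ x, ip (M.H x) (fun a => v a x) (fun a => f.1 k₀ a x) ∂μ =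
          ∫ x in W, ip (M.H x) (fun a => v a x) (fun a => f.1 k₀ a x) ∂μ := by
        refine (setIntegral_eq_integral_of_forall_compl_eq_zero fun x hx => ?_).symm
        refine hmain_ip_zero_right _ _ _ fun a => image_eq_zero_of_notMem_tsupport fun h => hx ?_
        exact (f.2 k₀ a).2.2 h
      rw [h4]
      refine setIntegral_congr_fun hWm fun x hx => ?_
      exact hmain_f_v M j k₀ a ψ x hx (fun a => v a x)
    have h3 : inner ℂ U (T f) =
        - conj (∫ x in W, (-∑ i, U x i * P x i a) * dzb (b j) ψ x ∂μ) := by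
      rw [L2.inner_def, ← integral_conj, ← integral_neg]
      refine integral_congr_ae ?_
      filter_upwards [hTc f, haeW] with x hx hxW
      rw [hx]
      have h4 := hmain_frame_ip (M.H x) (P x) (Q x) (hP x hxW) (hPQ x hxW) (fun i => U x i)
        (hmain_Div M f.1 x)
      have h5 := hmain_f_div M hW j a ψ hψ x hxW (fun a => ∑ i, U x i * P x i a)
      have h6 : inner ℂ (U x) (hmain_T Q (hmain_Div M f.1) x) =
          conj (∑ i, U x i * conj (∑ c, Q x i c * hmain_Div M f.1 x c)) := by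
        rw [PiLp.inner_apply, map_sum]
        refine Finset.sum_congr rfl fun i _ => ?_
        rw [map_mul, Complex.conj_conj]
        simp only [hmain_T, RCLike.inner_apply]
        rw [mul_comm]
      rw [h6, ← h4, h5]
      simp only [map_mul, map_neg, neg_mul, neg_neg]
    rw [h3, h2] at h1
    have h4 := congrArg conj h1
    simp only [map_neg, Complex.conj_conj] at h4
    rw [← h4]
    ring

end Pool.Agent.Lib_KF
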