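import Pool.Agent.Lib_KF.HWeakDefs
import Pool.Agent.Lib_MP_e0d435_ag.HMoll

/-! H05: the a priori inequality for weak forms with compact support (mollification). -/

set_option linter.unusedSectionVars false

open MeasureTheory Complex
open scoped ENNReal ContDiff ComplexConjugate

namespace Pool.Agent.Lib_KF

open GPn

section HMollWcalc

variable {E : Type} [NormedAddCommGroup E] [NormedSpace ℂ E]

private lemma mw_dz_mul (v : E) (u w : E → ℂ) (x : E) (hu : DifferentiableAt ℝ u x)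
    (hw : DifferentiableAt ℝ w x) :
    dz v (fun y => u y * w y) x = dz v u x * w x + u x * dz v w x := by
  have h : fderiv ℝ (fun y => u y * w y) x = u x • fderiv ℝ w x + w x • fderiv ℝ u x :=
    fderiv_fun_mul hu hw
  simp only [dz, h, _root_.add_apply, _root_.smul_apply, smul_eq_mul]
  ring

private lemma mw_dzb_mul (v : E) (u w : E → ℂ) (x : E) (hu : DifferentiableAt ℝ u x)
    (hw : DifferentiableAt ℝ w x) :
    dzb v (fun y => u y * w y) x = dzb v u x * w x + u x * dzb v w x := by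
  have h : fderiv ℝ (fun y => u y * w y) x = u x • fderiv ℝ w x + w x • fderiv ℝ u x :=
    fderiv_fun_mul hu hw
  simp only [dzb, h, _root_.add_apply, _root_.smul_apply, smul_eq_mul]
  ring

private lemma mw_fderiv_ofReal (r : E → ℝ) (x v : E) (hr : DifferentiableAt ℝ r x) :
    fderiv ℝ (fun y => (r y : ℂ)) x v = ((fderiv ℝ r x v : ℝ) : ℂ) := by
  have h : HasFDerivAt (fun y => (r y : ℂ)) (Complex.ofRealCLM.comp (fderiv ℝ r x)) x :=
    Complex.ofRealCLM.hasFDerivAt.comp x hr.hasFDerivAt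
  rw [h.fderiv]
  rfl

private lemma mw_conj_diff {f : E → ℂ} {x : E} (hf : DifferentiableAt ℝ f x) :
    DifferentiableAt ℝ (fun y => conj (f y)) x :=
  Complex.conjCLE.toContinuousLinearMap.differentiableAt.comp x hf

private lemma mw_fderiv_conj (f : E → ℂ) (x v : E) (hf : DifferentiableAt ℝ f x) :
    fderiv ℝ (fun y => conj (f y)) x v = conj (fderiv ℝ f x v) := by
  have h : HasFDerivAt (fun y => conj (f y))
      (Complex.conjCLE.toContinuousLinearMap.comp (fderiv ℝ f x)) x :=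
    Complex.conjCLE.toContinuousLinearMap.hasFDerivAt.comp x hf.hasFDerivAt
  rw [h.fderiv]
  rfl

private lemma mw_dzb_conj (v : E) (f : E → ℂ) (x : E) (hf : DifferentiableAt ℝ f x) :
    dzb v (fun y => conj (f y)) x = conj (dz v f x) := by
  simp only [dz, dzb, mw_fderiv_conj f x _ hf, map_div₀, map_sub, map_mul, Complex.conj_I,
    map_ofNat]
  ring

private lemma mw_conj_dzb (v : E) (f : E → ℂ) (x : E) (hf : DifferentiableAt ℝ f x) :
    conj (dzb v f x) = dz v (fun y => conj (f y)) x := by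
  simp only [dz, dzb, mw_fderiv_conj f x _ hf, map_div₀, map_add, map_mul, Complex.conj_I,
    map_ofNat]
  ring

private lemma mw_dz_congr {v : E} {f g : E → ℂ} {x : E} (h : f =ᶠ[nhds x] g) :
    dz v f x = dz v g x := by
  simp only [dz, h.fderiv_eq]

private lemma mw_dzb_congr {v : E} {f g : E → ℂ} {x : E} (h : f =ᶠ[nhds x] g) :
    dzb v f x = dzb v g x := by
  simp only [dzb, h.fderiv_eq]

private lemma mw_dzb_sum {κ : Type} (s : Finset κ) (v : E) (f : κ → E → ℂ) (x : E)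
    (hf : ∀ i ∈ s, DifferentiableAt ℝ (f i) x) :
    dzb v (fun y => ∑ i ∈ s, f i y) x = ∑ i ∈ s, dzb v (f i) x := by
  have h : fderiv ℝ (fun y => ∑ i ∈ s, f i y) x = ∑ i ∈ s, fderiv ℝ (f i) x :=
    fderiv_fun_sum hf
  simp only [dzb, h, _root_.sum_apply]
  rw [Finset.mul_sum, ← Finset.sum_add_distrib, Finset.sum_div]

/-- derivative of y maps to r (x - y) -/
private lemma mw_dz_flip (r : E → ℝ) (x y v : E) (hr : Differentiable ℝ r) :
    dz v (fun y => (r (x - y) : ℂ)) y = - dz v (fun y => (r y : ℂ)) (x - y) := by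
  have h : HasFDerivAt (fun y => r (x - y)) (-(fderiv ℝ r (x - y))) y := by
    have h1 : HasFDerivAt (fun y : E => x - y) (-(ContinuousLinearMap.id ℝ E)) y :=
      (hasFDerivAt_id y).const_sub x
    have h2 : HasFDerivAt (fun y => r (x - y))
        ((fderiv ℝ r (x - y)).comp (-(ContinuousLinearMap.id ℝ E))) y :=
      (hr (x - y)).hasFDerivAt.comp y h1
    have h3 : (fderiv ℝ r (x - y)).comp (-(ContinuousLinearMap.id ℝ E)) = -(fderiv ℝ r (x - y)) := by
      ext z
      simp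
    rw [h3] at h2
    exact h2
  have hd : DifferentiableAt ℝ (fun y => r (x - y)) y := h.differentiableAt
  simp only [dz, mw_fderiv_ofReal (fun y => r (x - y)) y _ hd, mw_fderiv_ofReal r (x - y) _ (hr _),
    h.fderiv, _root_.neg_apply, Complex.ofReal_neg]
  ring

private lemma mw_dzb_flip (r : E → ℝ) (x y v : E) (hr : Differentiable ℝ r) :
    dzb v (fun y => (r (x - y) : ℂ)) y = - dzb v (fun y => (r y : ℂ)) (x - y) := by
  have h : HasFDerivAt (fun y => r (x - y)) (-(fderiv ℝ r (x - y))) y := by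
    have h1 : HasFDerivAt (fun y : E => x - y) (-(ContinuousLinearMap.id ℝ E)) y :=
      (hasFDerivAt_id y).const_sub x
    have h2 : HasFDerivAt (fun y => r (x - y))
        ((fderiv ℝ r (x - y)).comp (-(ContinuousLinearMap.id ℝ E))) y :=
      (hr (x - y)).hasFDerivAt.comp y h1
    have h3 : (fderiv ℝ r (x - y)).comp (-(ContinuousLinearMap.id ℝ E)) = -(fderiv ℝ r (x - y)) := by
      ext z
      simp
    rw [h3] at h2
    exact h2
  have hd : DifferentiableAt ℝ (fun y => r (x - y)) y := h.differentiableAt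
  simp only [dzb, mw_fderiv_ofReal (fun y => r (x - y)) y _ hd, mw_fderiv_ofReal r (x - y) _ (hr _),
    h.fderiv, _root_.neg_apply, Complex.ofReal_neg]
  ring

private lemma mw_dzb_exp (Ps : E → ℝ) (y v : E) (hP : DifferentiableAt ℝ Ps y) :
    dzb v (fun y => (Real.exp (Ps y) : ℂ)) y
      = (Real.exp (Ps y) : ℂ) * dzb v (fun y => (Ps y : ℂ)) y := by
  have h : HasFDerivAt (fun y => Real.exp (Ps y)) (Real.exp (Ps y) • fderiv ℝ Ps y) y :=
    hP.hasFDerivAt.exp
  simp only [dzb, mw_fderiv_ofReal (fun y => Real.exp (Ps y)) y _ h.differentiableAt,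
    mw_fderiv_ofReal Ps y _ hP, h.fderiv, _root_.smul_apply, smul_eq_mul,
    Complex.ofReal_mul]
  ring

end HMollWcalc

section HMollWmoll

open scoped Convolution

variable {E : Type} [NormedAddCommGroup E] [NormedSpace ℂ E] [FiniteDimensional ℂ E]
  [MeasurableSpace E] [BorelSpace E]

/-- mollification -/
private noncomputable def mw_moll (mu : Measure E) (r : E → ℝ) (u : E → ℂ) (x : E) : ℂ :=
  ∫ y, (r (x - y) : ℂ) * u y ∂mu

private lemma mw_moll_eq (mu : Measure E) (r : E → ℝ) (u : E → ℂ) :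
    mw_moll mu r u = u ⋆[ContinuousLinearMap.mul ℝ ℂ, mu] (fun z => (r z : ℂ)) := by
  funext x
  unfold mw_moll
  rw [convolution_def]
  refine integral_congr_ae (Filter.Eventually.of_forall fun y => ?_)
  simp only [ContinuousLinearMap.mul_apply']
  ring

private lemma mw_cast_smooth (r : E → ℝ) (hr : ContDiff ℝ ∞ r) :
    ContDiff ℝ ∞ (fun z => (r z : ℂ)) := Complex.ofRealCLM.contDiff.comp hr

private lemma mw_cast_supp (r : E → ℝ) (hc : HasCompactSupport r) :
    HasCompactSupport (fun z => (r z : ℂ)) :=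
  hc.comp_left (g := fun t : ℝ => (t : ℂ)) (by simp)

private lemma mw_moll_contDiff (mu : Measure E) [mu.IsAddHaarMeasure] (r : E → ℝ) (u : E → ℂ)
    (hr : ContDiff ℝ ∞ r) (hc : HasCompactSupport r) (hu : LocallyIntegrable u mu) :
    ContDiff ℝ ∞ (mw_moll mu r u) := by
  rw [mw_moll_eq]
  exact (mw_cast_supp r hc).contDiff_convolution_right _ hu (mw_cast_smooth r hr)

private lemma mw_integrable (mu : Measure E) [mu.IsAddHaarMeasure] (k : E → ℂ) (u : E → ℂ)
    (hk : Continuous k) (hc : HasCompactSupport k) (hu : LocallyIntegrable u mu) (x : E) :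
    Integrable (fun y => k (x - y) * u y) mu := by
  have h : ConvolutionExistsAt u k x (ContinuousLinearMap.mul ℝ ℂ) mu :=
    hc.convolutionExists_right _ hu hk x
  have h2 := h.integrable
  refine h2.congr (Filter.Eventually.of_forall fun y => ?_)
  simp only [ContinuousLinearMap.mul_apply']
  ring

private lemma mw_fderiv_cont (k : E → ℂ) (hk : ContDiff ℝ ∞ k) (v : E) :
    Continuous (fun z => fderiv ℝ k z v) := by
  have h1 : Continuous (fderiv ℝ k) := hk.continuous_fderiv (by simp)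
  exact h1.clm_apply continuous_const

private lemma mw_fderiv_supp (k : E → ℂ) (hc : HasCompactSupport k) (v : E) :
    HasCompactSupport (fun z => fderiv ℝ k z v) :=
  (hc.fderiv ℝ).comp_left (g := fun L : E →L[ℝ] ℂ => L v) (by simp)

private lemma mw_moll_fderiv (mu : Measure E) [mu.IsAddHaarMeasure] (r : E → ℝ) (u : E → ℂ)
    (hr : ContDiff ℝ ∞ r) (hc : HasCompactSupport r) (hu : LocallyIntegrable u mu) (x v : E) :
    fderiv ℝ (mw_moll mu r u) x v
      = ∫ y, fderiv ℝ (fun z => (r z : ℂ)) (x - y) v * u y ∂mu := by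
  have hk := mw_cast_smooth r hr
  have hs := mw_cast_supp r hc
  have h := hs.hasFDerivAt_convolution_right (ContinuousLinearMap.mul ℝ ℂ) hu
    (hk.of_le (by simp)) x
  rw [← mw_moll_eq] at h
  rw [h.fderiv]
  rw [convolution_precompR_apply (ContinuousLinearMap.mul ℝ ℂ) hu (hs.fderiv ℝ)
    (hk.continuous_fderiv (by simp)) x v]
  rw [convolution_def]
  refine integral_congr_ae (Filter.Eventually.of_forall fun y => ?_)
  simp only [ContinuousLinearMap.mul_apply']
  ring

private lemma mw_moll_dzb (mu : Measure E) [mu.IsAddHaarMeasure] (r : E → ℝ) (u : E → ℂ)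
    (hr : ContDiff ℝ ∞ r) (hc : HasCompactSupport r) (hu : LocallyIntegrable u mu) (x v : E) :
    dzb v (mw_moll mu r u) x = ∫ y, dzb v (fun z => (r z : ℂ)) (x - y) * u y ∂mu := by
  have hk := mw_cast_smooth r hr
  have hs := mw_cast_supp r hc
  have i1 := mw_integrable mu _ u (mw_fderiv_cont _ hk v) (mw_fderiv_supp _ hs v) hu x
  have i2 := mw_integrable mu _ u (mw_fderiv_cont _ hk (I • v)) (mw_fderiv_supp _ hs (I • v)) hu x
  unfold dzb
  rw [mw_moll_fderiv mu r u hr hc hu, mw_moll_fderiv mu r u hr hc hu]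
  rw [← integral_const_mul, ← integral_add i1 (i2.const_mul I), ← integral_div]
  refine integral_congr_ae (Filter.Eventually.of_forall fun y => ?_)
  simp only
  ring

private lemma mw_moll_dz (mu : Measure E) [mu.IsAddHaarMeasure] (r : E → ℝ) (u : E → ℂ)
    (hr : ContDiff ℝ ∞ r) (hc : HasCompactSupport r) (hu : LocallyIntegrable u mu) (x v : E) :
    dz v (mw_moll mu r u) x = ∫ y, dz v (fun z => (r z : ℂ)) (x - y) * u y ∂mu := by
  have hk := mw_cast_smooth r hr
  have hs := mw_cast_supp r hc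
  have i1 := mw_integrable mu _ u (mw_fderiv_cont _ hk v) (mw_fderiv_supp _ hs v) hu x
  have i2 := mw_integrable mu _ u (mw_fderiv_cont _ hk (I • v)) (mw_fderiv_supp _ hs (I • v)) hu x
  unfold dz
  rw [mw_moll_fderiv mu r u hr hc hu, mw_moll_fderiv mu r u hr hc hu]
  rw [← integral_const_mul, ← integral_sub i1 (i2.const_mul I), ← integral_div]
  refine integral_congr_ae (Filter.Eventually.of_forall fun y => ?_)
  simp only
  ring

private lemma mw_dz_cont (k : E → ℂ) (hk : ContDiff ℝ ∞ k) (v : E) : Continuous (dz v k) := by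
  unfold dz
  exact ((mw_fderiv_cont k hk v).sub (continuous_const.mul (mw_fderiv_cont k hk (I • v)))).div_const _

private lemma mw_dzb_cont (k : E → ℂ) (hk : ContDiff ℝ ∞ k) (v : E) : Continuous (dzb v k) := by
  unfold dzb
  exact ((mw_fderiv_cont k hk v).add (continuous_const.mul (mw_fderiv_cont k hk (I • v)))).div_const _

private lemma mw_dz_zero (k : E → ℂ) (v x : E) (hx : x ∉ tsupport k) : dz v k x = 0 := by
  have h0 : fderiv ℝ k x = 0 := by
    by_contra h
    exact hx (tsupport_fderiv_subset ℝ (subset_tsupport _ h))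
  simp [dz, h0]

private lemma mw_dzb_zero (k : E → ℂ) (v x : E) (hx : x ∉ tsupport k) : dzb v k x = 0 := by
  have h0 : fderiv ℝ k x = 0 := by
    by_contra h
    exact hx (tsupport_fderiv_subset ℝ (subset_tsupport _ h))
  simp [dzb, h0]

private lemma mw_dz_supp (k : E → ℂ) (hc : HasCompactSupport k) (v : E) :
    HasCompactSupport (dz v k) := by
  refine hc.mono' ?_
  intro x hx
  by_contra hx2
  exact hx (mw_dz_zero k v x hx2)

private lemma mw_dzb_supp (k : E → ℂ) (hc : HasCompactSupport k) (v : E) :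
    HasCompactSupport (dzb v k) := by
  refine hc.mono' ?_
  intro x hx
  by_contra hx2
  exact hx (mw_dzb_zero k v x hx2)

omit [FiniteDimensional ℂ E] [BorelSpace E] in
/-- the mollification vanishes far from the support -/
private lemma mw_moll_zero (mu : Measure E) (r : E → ℝ) (u : E → ℂ) (K : Set E) (d : ℝ)
    (hu : ∀ x, x ∉ K → u x = 0) (hr : ∀ x, r x ≠ 0 → ‖x‖ ≤ d) (x : E)
    (hx : x ∉ Metric.cthickening d K) : mw_moll mu r u x = 0 := by
  unfold mw_moll
  rw [integral_eq_zero_of_ae]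
  refine Filter.Eventually.of_forall fun y => ?_
  simp only [Pi.zero_apply]
  by_cases hy : y ∈ K
  · have h0 : r (x - y) = 0 := by
      by_contra h
      have h1 := hr _ h
      exact hx (Metric.mem_cthickening_of_dist_le x y d K hy (by rwa [dist_eq_norm]))
    rw [h0]
    simp
  · rw [hu y hy, mul_zero]

end HMollWmoll

section HMollWcut

open scoped Manifold

variable {E : Type} [NormedAddCommGroup E] [NormedSpace ℂ E]

/-- a smooth cutoff -/
private lemma mw_cutoff [FiniteDimensional ℂ E] {K W : Set E} (hK : IsCompact K) (hW : IsOpen W)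
    (hKW : K ⊆ W) : ∃ c : E → ℝ, ContDiff ℝ ∞ c ∧ HasCompactSupport c ∧ tsupport c ⊆ W ∧
      ∀ x ∈ K, c =ᶠ[nhds x] 1 := by
  have : FiniteDimensional ℝ E := FiniteDimensional.complexToReal E
  have : ProperSpace E := FiniteDimensional.proper_real E
  obtain ⟨K', hK', hKK', hK'W⟩ := exists_compact_between hK hW hKW
  obtain ⟨f, hf1, hf2, -⟩ := exists_contMDiffMap_one_nhds_of_subset_interior (n := (⊤ : ℕ∞)) 𝓘(ℝ, E)
    hK.isClosed hKK'
  have hts : tsupport f ⊆ K' := by
    refine closure_minimal ?_ hK'.isClosed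
    intro x hx
    by_contra hx2
    exact hx (hf2 x hx2)
  refine ⟨f, ?_, ?_, hts.trans hK'W, ?_⟩
  · exact contMDiff_iff_contDiff.1 f.contMDiff
  · exact HasCompactSupport.of_support_subset_isCompact hK' ((subset_tsupport _).trans hts)
  · intro x hx
    have h1 := Filter.Eventually.filter_mono (nhds_le_nhdsSet hx) hf1
    filter_upwards [h1] with y hy
    rw [hy]
    rfl

/-- multiplication by a cutoff -/
private lemma mw_mul_smooth {W : Set E} (hW : IsOpen W) {c : E → ℝ} (hc : ContDiff ℝ ∞ c)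
    (hcW : tsupport c ⊆ W) {f : E → ℂ} (hf : ContDiffOn ℝ ∞ f W) :
    ContDiff ℝ ∞ (fun x => (c x : ℂ) * f x) := by
  rw [contDiff_iff_contDiffAt]
  intro x
  by_cases hx : x ∈ W
  · have h1 : ContDiff ℝ ∞ (fun z => (c z : ℂ)) := Complex.ofRealCLM.contDiff.comp hc
    exact h1.contDiffAt.mul (hf.contDiffAt (hW.mem_nhds hx))
  · have h1 : (fun x => (c x : ℂ) * f x) =ᶠ[nhds x] fun _ => 0 := by
      have h2 : c =ᶠ[nhds x] 0 := notMem_tsupport_iff_eventuallyEq.1 fun h => hx (hcW h)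
      filter_upwards [h2] with y hy
      rw [hy]
      simp
    exact contDiffAt_const.congr_of_eventuallyEq h1

private lemma mw_mul_supp {c : E → ℝ} (hc : HasCompactSupport c) (f : E → ℂ) :
    HasCompactSupport (fun x => (c x : ℂ) * f x) := by
  have h1 : HasCompactSupport (fun z => (c z : ℂ)) :=
    hc.comp_left (g := fun t : ℝ => (t : ℂ)) (by simp)
  exact h1.mul_right

private lemma mw_mul_tsupp {W : Set E} {c : E → ℝ} (hcW : tsupport c ⊆ W) (f : E → ℂ) :
    tsupport (fun x => (c x : ℂ) * f x) ⊆ W := by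
  refine subset_trans ?_ hcW
  refine closure_mono ?_
  intro x hx
  by_contra h
  have h0 : c x = 0 := by
    by_contra h2
    exact h h2
  exact hx (by simp [h0])

private lemma mw_mul_SCW {W : Set E} (hW : IsOpen W) {c : E → ℝ} (hc : ContDiff ℝ ∞ c)
    (hcs : HasCompactSupport c) (hcW : tsupport c ⊆ W) {f : E → ℂ} (hf : ContDiffOn ℝ ∞ f W) :
    SCW W (fun x => (c x : ℂ) * f x) :=
  ⟨mw_mul_smooth hW hc hcW hf, mw_mul_supp hcs f, mw_mul_tsupp hcW f⟩

end HMollWcut


section HMollWalg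

variable {E : Type} [NormedAddCommGroup E] [NormedSpace ℂ E]

private lemma mw_mulC_smooth {W : Set E} (hW : IsOpen W) {c : E → ℂ} (hc : ContDiff ℝ ∞ c)
    (hcW : tsupport c ⊆ W) {f : E → ℂ} (hf : ContDiffOn ℝ ∞ f W) :
    ContDiff ℝ ∞ (fun x => f x * c x) := by
  rw [contDiff_iff_contDiffAt]
  intro x
  by_cases hx : x ∈ W
  · exact (hf.contDiffAt (hW.mem_nhds hx)).mul hc.contDiffAt
  · have h1 : (fun x => f x * c x) =ᶠ[nhds x] fun _ => 0 := by
      have h2 : c =ᶠ[nhds x] 0 := notMem_tsupport_iff_eventuallyEq.1 fun h => hx (hcW h)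
      filter_upwards [h2] with y hy
      rw [hy]
      simp
    exact contDiffAt_const.congr_of_eventuallyEq h1

private lemma mw_mulC_SCW {W : Set E} (hW : IsOpen W) {c : E → ℂ} (hc : SCW W c) {f : E → ℂ}
    (hf : ContDiffOn ℝ ∞ f W) : SCW W (fun x => f x * c x) := by
  refine ⟨mw_mulC_smooth hW hc.1 hc.2.2 hf, hc.2.1.mul_left, ?_⟩
  refine subset_trans (closure_mono ?_) hc.2.2
  intro x hx
  by_contra h
  have h0 : c x = 0 := by
    by_contra h2
    exact h h2
  exact hx (by simp [h0])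

private lemma mw_conj_SCW {W : Set E} {c : E → ℂ} (hc : SCW W c) : SCW W (fun x => conj (c x)) := by
  refine ⟨Complex.conjCLE.contDiff.comp hc.1, hc.2.1.comp_left (g := fun t : ℂ => conj t) (by simp),
    ?_⟩
  refine subset_trans (closure_mono ?_) hc.2.2
  intro x hx
  by_contra h
  have h0 : c x = 0 := by
    by_contra h2
    exact h h2
  exact hx (by simp [h0])

private lemma mw_det_smooth {W : Set E} {D : ℕ} (A : E → Matrix (Fin D) (Fin D) ℂ)
    (hA : ∀ a c, ContDiffOn ℝ ∞ (fun x => A x a c) W) : ContDiffOn ℝ ∞ (fun x => (A x).det) W := by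
  simp only [Matrix.det_apply']
  refine ContDiffOn.sum fun σ _ => ?_
  refine contDiffOn_const.mul ?_
  exact contDiffOn_prod fun i _ => hA _ _

private lemma mw_adj_smooth {W : Set E} {D : ℕ} (A : E → Matrix (Fin D) (Fin D) ℂ)
    (hA : ∀ a c, ContDiffOn ℝ ∞ (fun x => A x a c) W) (a c : Fin D) :
    ContDiffOn ℝ ∞ (fun x => (A x).adjugate a c) W := by
  simp only [Matrix.adjugate_apply]
  refine mw_det_smooth _ fun i j => ?_
  by_cases h : i = c
  · subst h
    simp only [Matrix.updateRow_self]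
    exact contDiffOn_const
  · have e : ∀ x, (A x).updateRow c (Pi.single a 1) i j = A x i j := by
      intro x
      rw [Matrix.updateRow_ne h]
    simp only [e]
    exact hA i j

variable {W : Set E} {ι : Type} [Fintype ι] {b : Module.Basis ι ℂ E} {D : ℕ}

private lemma mw_ip_eq (H : Fin D → Fin D → ℂ) (u v : Fin D → ℂ) :
    ip H u v = ∑ a, conj (v a) * ∑ c, H a c * u c := by
  unfold ip
  refine Finset.sum_congr rfl fun a _ => ?_
  rw [Finset.mul_sum]
  refine Finset.sum_congr rfl fun c _ => ?_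
  ring

private lemma mw_ip_zero (H : Fin D → Fin D → ℂ) (v : Fin D → ℂ) : ip H (fun _ => 0) v = 0 := by
  simp [ip]

private lemma mw_det_ne (M : HMet W b D) {x : E} (hx : x ∈ W) :
    (Matrix.of (M.H x)).det ≠ 0 := by
  intro h
  obtain ⟨v, hv, hv2⟩ := Matrix.exists_mulVec_eq_zero_iff.2 h
  have h1 := M.pos x hx v hv
  have h2 : ip (M.H x) v v = 0 := by
    rw [mw_ip_eq]
    refine Finset.sum_eq_zero fun a _ => ?_
    have h3 := congrFun hv2 a
    simp only [Matrix.mulVec, dotProduct, Matrix.of_apply, Pi.zero_apply] at h3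
    rw [h3, mul_zero]
  rw [h2] at h1
  simp at h1

/-- solution of `H u = t e_a` -/
private noncomputable def mw_sol (M : HMet W b D) (a₀ : Fin D) (t : E → ℂ) (c : Fin D) (x : E) : ℂ :=
  ((Matrix.of (M.H x)).det)⁻¹ * (Matrix.of (M.H x)).adjugate c a₀ * t x

private lemma mw_sol_eq (M : HMet W b D) (a₀ : Fin D) (t : E → ℂ) {x : E} (hx : x ∈ W)
    (a : Fin D) : ∑ c, M.H x a c * mw_sol M a₀ t c x = if a = a₀ then t x else 0 := by
  have hd := mw_det_ne M hx
  have h1 := congrFun (congrFun (Matrix.mul_adjugate (Matrix.of (M.H x))) a) a₀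
  simp only [Matrix.mul_apply, Matrix.of_apply, Matrix.smul_apply, Matrix.one_apply, smul_eq_mul]
    at h1
  unfold mw_sol
  have h2 : ∑ c, M.H x a c * (((Matrix.of (M.H x)).det)⁻¹ * (Matrix.of (M.H x)).adjugate c a₀ * t x)
      = ((Matrix.of (M.H x)).det)⁻¹ * (∑ c, M.H x a c * (Matrix.of (M.H x)).adjugate c a₀) * t x := by
    rw [Finset.mul_sum, Finset.sum_mul]
    refine Finset.sum_congr rfl fun c _ => ?_
    ring
  rw [h2, h1]
  split_ifs with h
  · rw [mul_one, inv_mul_cancel₀ hd, one_mul]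
  · simp

private lemma mw_sol_smooth (M : HMet W b D) (hW : IsOpen W) (a₀ c : Fin D) {t : E → ℂ}
    (ht : SCW W t) : SCW W (mw_sol M a₀ t c) := by
  have hA : ∀ a c, ContDiffOn ℝ ∞ (fun x => Matrix.of (M.H x) a c) W := fun a c => M.smH a c
  have h1 : ContDiffOn ℝ ∞ (fun x => ((Matrix.of (M.H x)).det)⁻¹ *
      (Matrix.of (M.H x)).adjugate c a₀) W :=
    ((mw_det_smooth _ hA).inv fun x hx => mw_det_ne M hx).mul (mw_adj_smooth _ hA c a₀)
  exact mw_mulC_SCW hW ht h1

/-- pairing of the derivative of the solution -/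
private lemma mw_sol_dzb (M : HMet W b D) (hW : IsOpen W) (a₀ : Fin D) {t : E → ℂ}
    (ht : SCW W t) (k : ι) {x : E} (hx : x ∈ W) (a : Fin D) :
    ∑ c, M.H x a c * dzb (b k) (mw_sol M a₀ t c) x =
      (if a = a₀ then dzb (b k) t x else 0) - conj (M.A k x a₀ a) * t x := by
  have hnx := hW.mem_nhds hx
  have dH : ∀ a c, DifferentiableAt ℝ (fun y => M.H y a c) x := fun a c =>
    ((M.smH a c).contDiffAt hnx).differentiableAt (by simp)
  have dS : ∀ c, DifferentiableAt ℝ (mw_sol M a₀ t c) x := fun c =>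
    ((mw_sol_smooth M hW a₀ c ht).1.contDiffAt).differentiableAt (by simp)
  have h1 : dzb (b k) (fun y => ∑ c, M.H y a c * mw_sol M a₀ t c y) x =
      ∑ c, (dzb (b k) (fun y => M.H y a c) x * mw_sol M a₀ t c x +
        M.H x a c * dzb (b k) (mw_sol M a₀ t c) x) := by
    rw [mw_dzb_sum Finset.univ (b k) (fun c y => M.H y a c * mw_sol M a₀ t c y) x
      fun c _ => (dH a c).mul (dS c)]
    refine Finset.sum_congr rfl fun c _ => ?_
    exact mw_dzb_mul (b k) _ _ x (dH a c) (dS c)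
  have h2 : dzb (b k) (fun y => ∑ c, M.H y a c * mw_sol M a₀ t c y) x =
      if a = a₀ then dzb (b k) t x else 0 := by
    have e : (fun y => ∑ c, M.H y a c * mw_sol M a₀ t c y) =ᶠ[nhds x]
        fun y => if a = a₀ then t y else 0 := by
      filter_upwards [hnx] with y hy
      exact mw_sol_eq M a₀ t hy a
    rw [mw_dzb_congr e]
    split_ifs with h
    · rfl
    · simp [dzb]
  have h3 : ∀ c, dzb (b k) (fun y => M.H y a c) x = ∑ e, M.H x e c * conj (M.A k x e a) := by
    intro c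
    have e1 : (fun y => M.H y a c) =ᶠ[nhds x] fun y => conj (M.H y c a) := by
      filter_upwards [hnx] with y hy
      exact M.herm y hy a c
    rw [mw_dzb_congr e1, mw_dzb_conj _ _ _ (dH c a), M.chern k c a x hx, map_sum]
    refine Finset.sum_congr rfl fun e _ => ?_
    rw [map_mul, ← M.herm x hx e c]
  have h4 : ∑ c, dzb (b k) (fun y => M.H y a c) x * mw_sol M a₀ t c x =
      conj (M.A k x a₀ a) * t x := by
    simp only [h3, Finset.sum_mul]
    rw [Finset.sum_comm]
    have e2 : ∀ e, ∑ c, M.H x e c * conj (M.A k x e a) * mw_sol M a₀ t c x =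
        conj (M.A k x e a) * (if e = a₀ then t x else 0) := by
      intro e
      rw [← mw_sol_eq M a₀ t hx e, Finset.mul_sum]
      refine Finset.sum_congr rfl fun c _ => ?_
      ring
    simp only [e2]
    simp
  rw [h1, Finset.sum_add_distrib, h4] at h2
  rw [← h2]
  ring

end HMollWalg


section HMollWweak

variable {E : Type} [NormedAddCommGroup E] [NormedSpace ℂ E] [FiniteDimensional ℂ E]
  [MeasurableSpace E] [BorelSpace E] {W : Set E} {ι : Type} [Fintype ι]
  {b : Module.Basis ι ℂ E} {D : ℕ}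

/-- unfolding of `WeakLL` with test functions `H⁻¹ (exp σ conj φ e_a)` -/
private lemma mw_weak1 (M : HMet W b D) (hW : IsOpen W) (μ : Measure E) (σ : E → ℝ)
    (hσ : ContDiffOn ℝ ∞ σ W) (g : ι → Fin D → E → ℂ) (l : Fin D → E → ℂ)
    (hLL : M.WeakLL μ σ g l) (a₀ : Fin D) (φ : E → ℂ) (hφ : SCW W φ) :
    ∫ x, l a₀ x * φ x ∂μ = - ∫ x, ∑ k, (g k a₀ x * (dz (b k) φ x +
      dz (b k) (fun y => (σ y : ℂ)) x * φ x) - ∑ c, M.A k x a₀ c * g k c x * φ x) ∂μ := by
  have hes : ContDiffOn ℝ ∞ (fun x => (Real.exp (σ x) : ℂ)) W :=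
    Complex.ofRealCLM.contDiff.comp_contDiffOn (Real.contDiff_exp.comp_contDiffOn hσ)
  set t : E → ℂ := fun x => (Real.exp (σ x) : ℂ) * conj (φ x) with ht
  have htS : SCW W t := mw_mulC_SCW hW (mw_conj_SCW hφ) hes
  have h := hLL (fun c => mw_sol M a₀ t c) (fun c => mw_sol_smooth M hW a₀ c htS)
  have hcanc : ∀ x, (Real.exp (σ x) : ℂ) * (Real.exp (-σ x) : ℂ) = 1 := by
    intro x
    rw [← Complex.ofReal_mul, ← Real.exp_add]
    simp
  have hφ0 : ∀ x, x ∉ W → x ∉ tsupport φ := fun x hx h => hx (hφ.2.2 h)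
  -- left side
  have e1 : ∀ x, ip (M.H x) (fun a => mw_sol M a₀ t a x) (fun a => l a x) * Real.exp (-σ x) =
      conj (l a₀ x * φ x) := by
    intro x
    by_cases hx : x ∈ W
    · rw [mw_ip_eq]
      simp only [mw_sol_eq M a₀ t hx]
      simp only [mul_ite, mul_zero, Finset.sum_ite_eq', Finset.mem_univ, if_true]
      rw [map_mul, ht]
      linear_combination (conj (l a₀ x) * conj (φ x)) * hcanc x
    · have h0 : φ x = 0 := image_eq_zero_of_notMem_tsupport (hφ0 x hx)
      have h1 : ∀ a, mw_sol M a₀ t a x = 0 := by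
        intro a
        simp [mw_sol, ht, h0]
      simp only [h1]
      rw [mw_ip_zero, h0]
      simp
  have e2 : ∀ x, (∑ k, ip (M.H x) (fun a => dzb (b k) (mw_sol M a₀ t a) x) (fun a => g k a x)) *
      Real.exp (-σ x) = conj (∑ k, (g k a₀ x * (dz (b k) φ x +
      dz (b k) (fun y => (σ y : ℂ)) x * φ x) - ∑ c, M.A k x a₀ c * g k c x * φ x)) := by
    intro x
    by_cases hx : x ∈ W
    · have hnx := hW.mem_nhds hx
      have dσ : DifferentiableAt ℝ σ x := (hσ.contDiffAt hnx).differentiableAt (by simp)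
      have dσ' : DifferentiableAt ℝ (fun y => (σ y : ℂ)) x :=
        Complex.ofRealCLM.differentiableAt.comp x dσ
      have dφ : DifferentiableAt ℝ φ x := hφ.1.contDiffAt.differentiableAt (by simp)
      have de : DifferentiableAt ℝ (fun x => (Real.exp (σ x) : ℂ)) x :=
        (hes.contDiffAt hnx).differentiableAt (by simp)
      rw [map_sum, Finset.sum_mul]
      refine Finset.sum_congr rfl fun k _ => ?_
      rw [mw_ip_eq]
      simp only [mw_sol_dzb M hW a₀ htS k hx]
      have h3 : dzb (b k) t x = (Real.exp (σ x) : ℂ) *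
          (conj (dz (b k) (fun y => (σ y : ℂ)) x) * conj (φ x) + conj (dz (b k) φ x)) := by
        rw [ht, mw_dzb_mul _ _ _ _ de (mw_conj_diff dφ), mw_dzb_exp σ x _ dσ,
          mw_dzb_conj _ _ _ dφ]
        have h4 : dzb (b k) (fun y => (σ y : ℂ)) x = conj (dz (b k) (fun y => (σ y : ℂ)) x) := by
          rw [← mw_dzb_conj _ _ _ dσ']
          simp only [Complex.conj_ofReal]
        rw [h4]
        ring
      have h5 : ∑ a, conj (g k a x) * ((if a = a₀ then dzb (b k) t x else 0) -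
          conj (M.A k x a₀ a) * t x) = conj (g k a₀ x) * dzb (b k) t x -
          ∑ a, conj (g k a x) * (conj (M.A k x a₀ a) * t x) := by
        simp only [mul_sub, Finset.sum_sub_distrib, mul_ite, mul_zero, Finset.sum_ite_eq',
          Finset.mem_univ, if_true]
      rw [h5, h3, map_sub, map_sum, sub_mul, Finset.sum_mul]
      congr 1
      · rw [map_mul, map_add, map_mul]
        linear_combination (conj (g k a₀ x) * (conj (dz (b k) (fun y => (σ y : ℂ)) x) *
          conj (φ x) + conj (dz (b k) φ x))) * hcanc x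
      · refine Finset.sum_congr rfl fun a _ => ?_
        rw [map_mul, map_mul, ht]
        linear_combination (conj (g k a x) * conj (M.A k x a₀ a) * conj (φ x)) * hcanc x
    · have h0 : φ x = 0 := image_eq_zero_of_notMem_tsupport (hφ0 x hx)
      have h1 : ∀ k : ι, dz (b k) φ x = 0 := fun k => mw_dz_zero φ (b k) x (hφ0 x hx)
      have h2 : ∀ (k : ι) (a : Fin D), dzb (b k) (mw_sol M a₀ t a) x = 0 := fun k a =>
        mw_dzb_zero _ (b k) x fun h => hx ((mw_sol_smooth M hW a₀ a htS).2.2 h)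
      simp only [h2, mw_ip_zero, h0, h1]
      simp
  simp only [e1, e2] at h
  rw [integral_conj, integral_conj, ← map_neg] at h
  exact (starRingEnd ℂ).injective h

/-- the same with any smooth `φ`, since everything vanishes off `K` -/
private lemma mw_weak2 (M : HMet W b D) (hW : IsOpen W) (μ : Measure E) (σ : E → ℝ)
    (hσ : ContDiffOn ℝ ∞ σ W) (K : Set E) (hK : IsCompact K) (hKW : K ⊆ W)
    (g : ι → Fin D → E → ℂ) (hgK : ∀ k a, ∀ x, x ∉ K → g k a x = 0)
    (l : Fin D → E → ℂ) (hlK : ∀ a, ∀ x, x ∉ K → l a x = 0)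
    (hLL : M.WeakLL μ σ g l) (a₀ : Fin D) (φ : E → ℂ) (hφ : ContDiff ℝ ∞ φ) :
    ∫ x, l a₀ x * φ x ∂μ = - ∫ x, ∑ k, (g k a₀ x * (dz (b k) φ x +
      dz (b k) (fun y => (σ y : ℂ)) x * φ x) - ∑ c, M.A k x a₀ c * g k c x * φ x) ∂μ := by
  obtain ⟨c, hc, hcs, hcW, hc1⟩ := mw_cutoff hK hW hKW
  have h := mw_weak1 M hW μ σ hσ g l hLL a₀ (fun x => (c x : ℂ) * φ x)
    (mw_mul_SCW hW hc hcs hcW hφ.contDiffOn)
  have hK1 : ∀ x ∈ K, (fun x => (c x : ℂ) * φ x) =ᶠ[nhds x] φ := by
    intro x hx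
    filter_upwards [hc1 x hx] with y hy
    rw [hy]
    simp
  have hKv : ∀ x ∈ K, (c x : ℂ) * φ x = φ x := fun x hx => (hK1 x hx).self_of_nhds
  have e1 : ∀ x, l a₀ x * ((c x : ℂ) * φ x) = l a₀ x * φ x := by
    intro x
    by_cases hx : x ∈ K
    · rw [hKv x hx]
    · rw [hlK a₀ x hx, zero_mul, zero_mul]
  have e2 : ∀ x, ∑ k, (g k a₀ x * (dz (b k) (fun x => (c x : ℂ) * φ x) x +
      dz (b k) (fun y => (σ y : ℂ)) x * ((c x : ℂ) * φ x)) -
        ∑ e, M.A k x a₀ e * g k e x * ((c x : ℂ) * φ x)) =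
      ∑ k, (g k a₀ x * (dz (b k) φ x + dz (b k) (fun y => (σ y : ℂ)) x * φ x) -
        ∑ e, M.A k x a₀ e * g k e x * φ x) := by
    intro x
    refine Finset.sum_congr rfl fun k _ => ?_
    by_cases hx : x ∈ K
    · rw [mw_dz_congr (hK1 x hx), hKv x hx]
    · simp only [hgK _ _ x hx]
      simp
  simp only [e1, e2] at h
  exact h

private lemma mw_ext2 (hW : IsOpen W) (μ : Measure E) (K : Set E) (hK : IsCompact K) (hKW : K ⊆ W)
    (u w s : E → ℂ) (huK : ∀ x, x ∉ K → u x = 0) (hwK : ∀ x, x ∉ K → w x = 0)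
    (hsK : ∀ x, x ∉ K → s x = 0) (vj vk : E)
    (h : ∀ ψ : E → ℂ, SCW W ψ →
      - ∫ x, (u x * dzb vj ψ x - w x * dzb vk ψ x) ∂μ = ∫ x, s x * ψ x ∂μ)
    (ψ : E → ℂ) (hψ : ContDiff ℝ ∞ ψ) :
    - ∫ x, (u x * dzb vj ψ x - w x * dzb vk ψ x) ∂μ = ∫ x, s x * ψ x ∂μ := by
  obtain ⟨c, hc, hcs, hcW, hc1⟩ := mw_cutoff hK hW hKW
  have h := h (fun x => (c x : ℂ) * ψ x) (mw_mul_SCW hW hc hcs hcW hψ.contDiffOn)
  have hK1 : ∀ x ∈ K, (fun x => (c x : ℂ) * ψ x) =ᶠ[nhds x] ψ := by
    intro x hx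
    filter_upwards [hc1 x hx] with y hy
    rw [hy]
    simp
  have hKv : ∀ x ∈ K, (c x : ℂ) * ψ x = ψ x := fun x hx => (hK1 x hx).self_of_nhds
  have e1 : ∀ x, s x * ((c x : ℂ) * ψ x) = s x * ψ x := by
    intro x
    by_cases hx : x ∈ K
    · rw [hKv x hx]
    · rw [hsK x hx, zero_mul, zero_mul]
  have e2 : ∀ x, u x * dzb vj (fun x => (c x : ℂ) * ψ x) x -
      w x * dzb vk (fun x => (c x : ℂ) * ψ x) x = u x * dzb vj ψ x - w x * dzb vk ψ x := by
    intro x
    by_cases hx : x ∈ K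
    · rw [mw_dzb_congr (hK1 x hx), mw_dzb_congr (hK1 x hx)]
    · rw [huK x hx, hwK x hx]
      simp
  simp only [e1, e2] at h
  exact h

private lemma mw_test_smooth (r : E → ℝ) (hr : ContDiff ℝ ∞ r) (x : E) :
    ContDiff ℝ ∞ (fun y => (r (x - y) : ℂ)) :=
  Complex.ofRealCLM.contDiff.comp (hr.comp (contDiff_const.sub contDiff_id))

/-- exterior derivative of the mollification -/
private lemma mw_ext3 (hW : IsOpen W) (μ : Measure E) [μ.IsAddHaarMeasure] (K : Set E)
    (hK : IsCompact K) (hKW : K ⊆ W)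
    (u w s : E → ℂ) (hu : LocallyIntegrable u μ) (hw : LocallyIntegrable w μ)
    (huK : ∀ x, x ∉ K → u x = 0) (hwK : ∀ x, x ∉ K → w x = 0)
    (hsK : ∀ x, x ∉ K → s x = 0) (vj vk : E)
    (h : ∀ ψ : E → ℂ, SCW W ψ →
      - ∫ x, (u x * dzb vj ψ x - w x * dzb vk ψ x) ∂μ = ∫ x, s x * ψ x ∂μ)
    (r : E → ℝ) (hr : ContDiff ℝ ∞ r) (hc : HasCompactSupport r) (x : E) :
    dzb vj (mw_moll μ r u) x - dzb vk (mw_moll μ r w) x = mw_moll μ r s x := by
  have h1 := mw_ext2 hW μ K hK hKW u w s huK hwK hsK vj vk h _ (mw_test_smooth r hr x)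
  have hrd : Differentiable ℝ r := hr.differentiable (by simp)
  have hk := mw_cast_smooth r hr
  have hs := mw_cast_supp r hc
  have i1 := mw_integrable μ _ u (mw_dzb_cont _ hk vj) (mw_dzb_supp _ hs vj) hu x
  have i2 := mw_integrable μ _ w (mw_dzb_cont _ hk vk) (mw_dzb_supp _ hs vk) hw x
  rw [mw_moll_dzb μ r u hr hc hu, mw_moll_dzb μ r w hr hc hw, ← integral_sub i1 i2]
  have e1 : ∫ y, s y * (r (x - y) : ℂ) ∂μ = mw_moll μ r s x := by
    unfold mw_moll
    refine integral_congr_ae (Filter.Eventually.of_forall fun y => ?_)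
    simp only
    ring
  rw [← e1, ← h1, ← integral_neg]
  refine integral_congr_ae (Filter.Eventually.of_forall fun y => ?_)
  simp only [mw_dzb_flip r x y _ hrd]
  ring

/-- divergence of the mollification -/
private lemma mw_div3 (M : HMet W b D) (hW : IsOpen W) (μ : Measure E) [μ.IsAddHaarMeasure]
    (σ : E → ℝ) (hσ : ContDiffOn ℝ ∞ σ W) (K : Set E) (hK : IsCompact K) (hKW : K ⊆ W)
    (g : ι → Fin D → E → ℂ) (hg : ∀ k a, LocallyIntegrable (g k a) μ)
    (hgK : ∀ k a, ∀ x, x ∉ K → g k a x = 0)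
    (l : Fin D → E → ℂ) (hlK : ∀ a, ∀ x, x ∉ K → l a x = 0)
    (hLL : M.WeakLL μ σ g l) (a₀ : Fin D) (B : E → ℂ)
    (hB : ∀ y, B y = ∑ k, ((∑ c, M.A k y a₀ c * g k c y) -
      dz (b k) (fun y => (σ y : ℂ)) y * g k a₀ y)) (hBi : LocallyIntegrable B μ)
    (r : E → ℝ) (hr : ContDiff ℝ ∞ r) (hc : HasCompactSupport r) (x : E) :
    ∑ k, dz (b k) (mw_moll μ r (g k a₀)) x = mw_moll μ r (l a₀) x - mw_moll μ r B x := by
  have h1 := mw_weak2 M hW μ σ hσ K hK hKW g hgK l hlK hLL a₀ _ (mw_test_smooth r hr x)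
  have hrd : Differentiable ℝ r := hr.differentiable (by simp)
  have hk := mw_cast_smooth r hr
  have hs := mw_cast_supp r hc
  have i1 : ∀ k : ι, Integrable (fun y => dz (b k) (fun z => (r z : ℂ)) (x - y) * g k a₀ y) μ :=
    fun k => mw_integrable μ _ _ (mw_dz_cont _ hk (b k)) (mw_dz_supp _ hs (b k)) (hg k a₀) x
  have i2 : Integrable (fun y => (r (x - y) : ℂ) * B y) μ :=
    mw_integrable μ (fun z => (r z : ℂ)) B hk.continuous hs hBi x
  have e1 : ∫ y, l a₀ y * (r (x - y) : ℂ) ∂μ = mw_moll μ r (l a₀) x := by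
    unfold mw_moll
    refine integral_congr_ae (Filter.Eventually.of_forall fun y => ?_)
    simp only
    ring
  have e2 : ∑ k, dz (b k) (mw_moll μ r (g k a₀)) x =
      ∫ y, ∑ k, dz (b k) (fun z => (r z : ℂ)) (x - y) * g k a₀ y ∂μ := by
    rw [integral_finsetSum _ fun k _ => i1 k]
    refine Finset.sum_congr rfl fun k _ => ?_
    rw [mw_moll_dz μ r _ hr hc (hg k a₀)]
  have e3 : mw_moll μ r B x = ∫ y, (r (x - y) : ℂ) * B y ∂μ := rfl
  rw [e2, ← e1, h1, e3, ← integral_neg, ← integral_sub]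
  · refine integral_congr_ae (Filter.Eventually.of_forall fun y => ?_)
    simp only [mw_dz_flip r x y _ hrd, hB y]
    rw [Finset.mul_sum, ← Finset.sum_neg_distrib, ← Finset.sum_sub_distrib]
    refine Finset.sum_congr rfl fun k _ => ?_
    rw [← Finset.sum_mul]
    ring
  · have e4 : ∀ y, -∑ k, (g k a₀ y * (dz (b k) (fun y => (r (x - y) : ℂ)) y +
        dz (b k) (fun y => (σ y : ℂ)) y * (r (x - y) : ℂ)) -
        ∑ c, M.A k y a₀ c * g k c y * (r (x - y) : ℂ)) =
        (∑ k, dz (b k) (fun z => (r z : ℂ)) (x - y) * g k a₀ y) + (r (x - y) : ℂ) * B y := by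
      intro y
      simp only [mw_dz_flip r x y _ hrd, hB y]
      rw [Finset.mul_sum, ← Finset.sum_neg_distrib, ← Finset.sum_add_distrib]
      refine Finset.sum_congr rfl fun k _ => ?_
      rw [← Finset.sum_mul]
      ring
    simp only [e4]
    exact (integrable_finsetSum _ fun k _ => i1 k).add i2
  · exact i2

end HMollWweak


section HMollWform

variable {E : Type} [NormedAddCommGroup E] [NormedSpace ℂ E] {W : Set E} {ι : Type} [Fintype ι]
  {b : Module.Basis ι ℂ E} {D : ℕ}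

private lemma mw_nsq_zero (M : HMet W b D) (x : E) : M.nsq x (fun _ => 0) = 0 := by
  simp [HMet.nsq, ip]

private lemma mw_nsq_nonneg (M : HMet W b D) {x : E} (hx : x ∈ W) (u : Fin D → ℂ) :
    0 ≤ M.nsq x u := by
  by_cases hu : u = 0
  · subst hu
    exact (mw_nsq_zero M x).ge
  · exact (M.pos x hx u hu).le

private lemma mw_nsq_comb (M : HMet W b D) (x : E) (s t : ℝ) (u v : Fin D → ℂ) :
    M.nsq x (fun a => (s : ℂ) * u a + (t : ℂ) * v a) = s ^ 2 * M.nsq x u + t ^ 2 * M.nsq x v +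
      s * t * (ip (M.H x) u v + ip (M.H x) v u).re := by
  have key : ip (M.H x) (fun a => (s : ℂ) * u a + (t : ℂ) * v a)
      (fun a => (s : ℂ) * u a + (t : ℂ) * v a) =
      ((s ^ 2 : ℝ) : ℂ) * ip (M.H x) u u + ((t ^ 2 : ℝ) : ℂ) * ip (M.H x) v v +
      ((s * t : ℝ) : ℂ) * (ip (M.H x) u v + ip (M.H x) v u) := by
    simp only [ip, Finset.mul_sum, mul_add, ← Finset.sum_add_distrib]
    refine Finset.sum_congr rfl fun a _ => Finset.sum_congr rfl fun c _ => ?_
    simp only [map_add, map_mul, Complex.conj_ofReal]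
    push_cast
    ring
  unfold HMet.nsq
  rw [key, Complex.add_re, Complex.add_re, Complex.re_ofReal_mul, Complex.re_ofReal_mul,
    Complex.re_ofReal_mul]

private lemma mw_nsq_eps (M : HMet W b D) {x : E} (hx : x ∈ W) (ε : ℝ) (hε : 0 < ε)
    (u v : Fin D → ℂ) :
    M.nsq x (fun a => u a + v a) ≤ (1 + ε) * M.nsq x u + (1 + 1 / ε) * M.nsq x v := by
  have h1 := mw_nsq_comb M x 1 1 u v
  have h2 := mw_nsq_comb M x ε (-1) u v
  have h3 := mw_nsq_nonneg M hx (fun a => (ε : ℂ) * u a + ((-1 : ℝ) : ℂ) * v a)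
  rw [h2] at h3
  simp only [Complex.ofReal_one, one_mul] at h1
  rw [h1]
  set R := (ip (M.H x) u v + ip (M.H x) v u).re
  have h4 : ε * R ≤ ε ^ 2 * M.nsq x u + M.nsq x v := by nlinarith
  have h5 : R ≤ ε * M.nsq x u + 1 / ε * M.nsq x v := by
    have h6 : R = 1 / ε * (ε * R) := by
      field_simp
    rw [h6]
    have h7 : 1 / ε * (ε * R) ≤ 1 / ε * (ε ^ 2 * M.nsq x u + M.nsq x v) :=
      mul_le_mul_of_nonneg_left h4 (by positivity)
    refine h7.trans (le_of_eq ?_)
    field_simp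
  linarith

private lemma mw_nsq_bound (M : HMet W b D) {K : Set E} (hK : IsCompact K) (hKW : K ⊆ W)
    (w : E → ℝ) (hw : ContinuousOn w W) (hw0 : ∀ x ∈ W, 0 ≤ w x) :
    ∃ C : ℝ, 0 ≤ C ∧ ∀ x ∈ K, ∀ u : Fin D → ℂ, M.nsq x u * w x ≤ C * ∑ a, ‖u a‖ ^ 2 := by
  have hc : ContinuousOn (fun x => ∑ a, ∑ c, ‖M.H x a c‖) K :=
    continuousOn_finsetSum _ fun a _ => continuousOn_finsetSum _ fun c _ =>
      ((M.smH a c).continuousOn.mono hKW).norm
  obtain ⟨B, hB⟩ := hK.exists_bound_of_continuousOn hc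
  obtain ⟨B', hB'⟩ := hK.exists_bound_of_continuousOn (hw.mono hKW)
  refine ⟨max B 0 * max B' 0, by positivity, fun x hx u => ?_⟩
  have hS : 0 ≤ ∑ a, ‖u a‖ ^ 2 := Finset.sum_nonneg fun a _ => by positivity
  have h1 : M.nsq x u ≤ max B 0 * ∑ a, ‖u a‖ ^ 2 := by
    have h2 : M.nsq x u ≤ ∑ a, ∑ c, ‖M.H x a c‖ * ∑ e, ‖u e‖ ^ 2 := by
      refine (Complex.re_le_norm _).trans ?_
      unfold ip
      refine (norm_sum_le _ _).trans (Finset.sum_le_sum fun a _ => ?_)
      refine (norm_sum_le _ _).trans (Finset.sum_le_sum fun c _ => ?_)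
      rw [norm_mul, norm_mul, RCLike.norm_conj]
      have h3 : ‖u a‖ ^ 2 ≤ ∑ e, ‖u e‖ ^ 2 :=
        Finset.single_le_sum (f := fun e => ‖u e‖ ^ 2) (fun e _ => by positivity)
          (Finset.mem_univ a)
      have h4 : ‖u c‖ ^ 2 ≤ ∑ e, ‖u e‖ ^ 2 :=
        Finset.single_le_sum (f := fun e => ‖u e‖ ^ 2) (fun e _ => by positivity)
          (Finset.mem_univ c)
      have h5 : ‖u a‖ * ‖u c‖ ≤ ∑ e, ‖u e‖ ^ 2 := by
        nlinarith [sq_nonneg (‖u a‖ - ‖u c‖)]
      calc ‖u a‖ * ‖M.H x a c‖ * ‖u c‖ = ‖M.H x a c‖ * (‖u a‖ * ‖u c‖) := by ring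
        _ ≤ _ := mul_le_mul_of_nonneg_left h5 (norm_nonneg _)
    refine h2.trans ?_
    simp only [← Finset.sum_mul]
    refine mul_le_mul_of_nonneg_right ?_ hS
    exact (le_abs_self _).trans ((hB x hx).trans (le_max_left _ _))
  have h6 : w x ≤ max B' 0 := (le_abs_self _).trans ((hB' x hx).trans (le_max_left _ _))
  calc M.nsq x u * w x ≤ (max B 0 * ∑ a, ‖u a‖ ^ 2) * max B' 0 :=
        mul_le_mul h1 h6 (hw0 x (hKW hx)) (by positivity)
    _ = _ := by ring

variable [MeasurableSpace E] [BorelSpace E]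

private lemma mw_sq {X : Type} [MeasurableSpace X] (nu : Measure X) (u : X → ℂ) :
    eLpNorm u 2 nu ^ 2 = ∫⁻ x, ENNReal.ofReal (‖u x‖ ^ 2) ∂nu := by
  have h := eLpNorm_nnreal_pow_eq_lintegral (μ := nu) (f := u) (p := 2) (by norm_num)
  have h2 : eLpNorm u 2 nu ^ 2 = eLpNorm u ((2 : NNReal) : ℝ≥0∞) nu ^ ((2 : NNReal) : ℝ) := by
    norm_num
  rw [h2, h]
  refine lintegral_congr fun x => ?_
  rw [ENNReal.ofReal_pow (norm_nonneg _), ofReal_norm]
  norm_num

/-- the weighted square norm on `W` -/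
private noncomputable def mw_Q (M : HMet W b D) (μ : Measure E) (w : E → ℝ)
    (v : Fin D → E → ℂ) : ℝ≥0∞ :=
  ∫⁻ x in W, ENNReal.ofReal (M.nsq x (fun a => v a x) * w x) ∂μ

private lemma mw_meas (M : HMet W b D) (hW : IsOpen W) (μ : Measure E) (w : E → ℝ)
    (hw : ContinuousOn w W) (v : Fin D → E → ℂ) (hv : ∀ a, AEMeasurable (v a) (μ.restrict W)) :
    AEMeasurable (fun x => ENNReal.ofReal (M.nsq x (fun a => v a x) * w x)) (μ.restrict W) := by
  have hH : ∀ a c, AEMeasurable (fun x => M.H x a c) (μ.restrict W) := fun a c =>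
    (M.smH a c).continuousOn.aemeasurable hW.measurableSet
  have hw' : AEMeasurable w (μ.restrict W) := hw.aemeasurable hW.measurableSet
  have h1 : AEMeasurable (fun x => ip (M.H x) (fun a => v a x) (fun a => v a x))
      (μ.restrict W) := by
    unfold ip
    refine Finset.aemeasurable_fun_sum _ fun a _ => Finset.aemeasurable_fun_sum _ fun c _ => ?_
    have h2 : AEMeasurable (fun x => conj (v a x)) (μ.restrict W) :=
      Complex.continuous_conj.measurable.comp_aemeasurable (hv a)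
    exact (h2.mul (hH a c)).mul (hv c)
  have h3 : AEMeasurable (fun x => M.nsq x (fun a => v a x)) (μ.restrict W) :=
    Complex.measurable_re.comp_aemeasurable h1
  exact (h3.mul hw').ennreal_ofReal

private lemma mw_Q_eps (M : HMet W b D) (hW : IsOpen W) (μ : Measure E) (w : E → ℝ)
    (hw : ContinuousOn w W) (hw0 : ∀ x ∈ W, 0 ≤ w x) (u v v' : Fin D → E → ℂ)
    (hv : ∀ a, AEMeasurable (v a) (μ.restrict W)) (hu : ∀ a, ∀ x, u a x = v a x + v' a x)
    (ε : ℝ) (hε : 0 < ε) :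
    mw_Q M μ w u ≤ ENNReal.ofReal (1 + ε) * mw_Q M μ w v +
      ENNReal.ofReal (1 + 1 / ε) * mw_Q M μ w v' := by
  unfold mw_Q
  rw [← lintegral_const_mul' _ _ ENNReal.ofReal_ne_top,
    ← lintegral_const_mul' _ _ ENNReal.ofReal_ne_top,
    ← lintegral_add_left' ((mw_meas M hW μ w hw v hv).const_mul _)]
  refine setLIntegral_mono' hW.measurableSet fun x hx => ?_
  rw [← ENNReal.ofReal_mul (by positivity), ← ENNReal.ofReal_mul (by positivity),
    ← ENNReal.ofReal_add]
  · refine ENNReal.ofReal_le_ofReal ?_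
    simp only [hu]
    have h1 := mw_nsq_eps M hx ε hε (fun a => v a x) (fun a => v' a x)
    have h2 := mul_le_mul_of_nonneg_right h1 (hw0 x hx)
    refine h2.trans (le_of_eq ?_)
    ring
  · exact mul_nonneg (by positivity) (mul_nonneg (mw_nsq_nonneg M hx _) (hw0 x hx))
  · exact mul_nonneg (by positivity) (mul_nonneg (mw_nsq_nonneg M hx _) (hw0 x hx))

private lemma mw_Q_bound (M : HMet W b D) (hW : IsOpen W) (μ : Measure E) (w : E → ℝ)
    (hw : ContinuousOn w W) (hw0 : ∀ x ∈ W, 0 ≤ w x) {K : Set E} (hK : IsCompact K)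
    (hKW : K ⊆ W) : ∃ C : ℝ, 0 ≤ C ∧ ∀ v : Fin D → E → ℂ,
      (∀ a, AEStronglyMeasurable (v a) (μ.restrict K)) → (∀ a, ∀ x, x ∉ K → v a x = 0) →
      mw_Q M μ w v ≤ ENNReal.ofReal C * ∑ a, eLpNorm (v a) 2 (μ.restrict K) ^ 2 := by
  obtain ⟨C, hC0, hC⟩ := mw_nsq_bound M hK hKW w hw hw0
  refine ⟨C, hC0, fun v hv hv0 => ?_⟩
  simp only [mw_sq]
  rw [← lintegral_finsetSum' _ fun a _ => ((hv a).norm.aemeasurable.pow_const 2).ennreal_ofReal,
    ← lintegral_const_mul' _ _ ENNReal.ofReal_ne_top, ← lintegral_indicator hK.measurableSet]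
  unfold mw_Q
  rw [← lintegral_indicator hW.measurableSet]
  refine lintegral_mono fun x => ?_
  by_cases hxK : x ∈ K
  · rw [Set.indicator_of_mem hxK, Set.indicator_of_mem (hKW hxK),
      ← ENNReal.ofReal_sum_of_nonneg fun a _ => by positivity, ← ENNReal.ofReal_mul hC0]
    exact ENNReal.ofReal_le_ofReal (hC x hxK _)
  · rw [Set.indicator_of_notMem hxK]
    by_cases hxW : x ∈ W
    · rw [Set.indicator_of_mem hxW]
      simp only [hv0 _ x hxK]
      rw [mw_nsq_zero]
      simp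
    · rw [Set.indicator_of_notMem hxW]

end HMollWform


section HMollWmain

variable {E : Type} [NormedAddCommGroup E] [NormedSpace ℂ E] [FiniteDimensional ℂ E]
  [MeasurableSpace E] [BorelSpace E] {W : Set E} {ι : Type} [Fintype ι]
  {b : Module.Basis ι ℂ E} {D : ℕ}

private lemma mw_dz_contOn (hW : IsOpen W) (σ : E → ℝ) (hσ : ContDiffOn ℝ ∞ σ W) (v : E) :
    ContinuousOn (dz v (fun y => (σ y : ℂ))) W := by
  have h1 : ContDiffOn ℝ ∞ (fun y => (σ y : ℂ)) W := Complex.ofRealCLM.contDiff.comp_contDiffOn hσ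
  have h2 : ContinuousOn (fderiv ℝ (fun y => (σ y : ℂ))) W :=
    h1.continuousOn_fderiv_of_isOpen hW (by simp)
  unfold dz
  exact ((h2.clm_apply continuousOn_const).sub
    (continuousOn_const.mul (h2.clm_apply continuousOn_const))).div_const _

/-- from Bochner integrals to lower integrals -/
private lemma mw_conv (hW : IsOpen W) (μ : Measure E) [μ.IsAddHaarMeasure] {K : Set E}
    (hK : IsCompact K) (hKW : K ⊆ W) (F : E → ℝ) (hF : ContinuousOn F W)
    (hF0 : ∀ x, x ∉ K → F x = 0) (hFn : ∀ x ∈ W, 0 ≤ F x) :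
    ENNReal.ofReal (∫ x, F x ∂μ) = ∫⁻ x in W, ENNReal.ofReal (F x) ∂μ := by
  have hi : Integrable F μ := by
    have h1 : IntegrableOn F K μ := (hF.mono hKW).integrableOn_compact hK
    refine (integrableOn_iff_integrable_of_support_subset ?_).1 h1
    intro x hx
    by_contra h
    exact hx (hF0 x h)
  have hn : ∀ x, 0 ≤ F x := by
    intro x
    by_cases hx : x ∈ W
    · exact hFn x hx
    · rw [hF0 x fun h => hx (hKW h)]
  rw [ofReal_integral_eq_lintegral_ofReal hi (Filter.Eventually.of_forall hn),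
    ← lintegral_indicator hW.measurableSet]
  refine lintegral_congr fun x => ?_
  by_cases hx : x ∈ W
  · rw [Set.indicator_of_mem hx]
  · rw [Set.indicator_of_notMem hx, hF0 x fun h => hx (hKW h), ENNReal.ofReal_zero]

private lemma mw_nsq_contOn (M : HMet W b D) (w : E → ℝ) (hw : ContinuousOn w W)
    (v : Fin D → E → ℂ) (hv : ∀ a, ContinuousOn (v a) W) :
    ContinuousOn (fun x => M.nsq x (fun a => v a x) * w x) W := by
  have h1 : ContinuousOn (fun x => ip (M.H x) (fun a => v a x) (fun a => v a x)) W := by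
    unfold ip
    refine continuousOn_finsetSum _ fun a _ => continuousOn_finsetSum _ fun c _ => ?_
    exact ((Complex.continuous_conj.comp_continuousOn (hv a)).mul
      (M.smH a c).continuousOn).mul (hv c)
  exact (Complex.continuous_re.comp_continuousOn h1).mul hw

/-- the smooth case -/
private lemma mw_smooth (M : HMet W b D) (hW : IsOpen W) (μ : Measure E) [μ.IsAddHaarMeasure]
    (θ χ : E → ℝ) (hθ : ContDiffOn ℝ ∞ θ W) (hχ : ContDiffOn ℝ ∞ χ W) (κ : E → ℝ)
    (hκ : ContinuousOn κ W) (hκ0 : ∀ x ∈ W, 0 ≤ κ x) (k₀ : ι)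
    (hcurv : ∀ x ∈ W, ∀ f : ι → Fin D → ℂ, κ x * M.nsq x (f k₀) ≤ M.curv x f)
    (hlev : ∀ x ∈ W, ∀ f : ι → Fin D → ℂ,
      2 * gradsq b θ x * ∑ k, M.nsq x (f k) ≤ levH b (M.H x) χ x f)
    {K : Set E} (hK : IsCompact K) (hKW : K ⊆ W) (f : ι → Fin D → E → ℂ)
    (hf : ∀ k a, ContDiff ℝ ∞ (f k a)) (hfK : ∀ k a, ∀ x, x ∉ K → f k a x = 0) :
    mw_Q M μ (fun x => κ x * Real.exp (-χ x)) (f k₀) ≤
      2 * mw_Q M μ (fun x => Real.exp (-χ x)) (fun a x => M.LL (fun y => χ y - θ y) f x a) +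
      (1 / 2) * ∑ j, ∑ k, mw_Q M μ (fun x => Real.exp (-χ x))
        (fun a x => dzb (b j) (f k a) x - dzb (b k) (f j a) x) := by
  have hts : ∀ k a, tsupport (f k a) ⊆ K := fun k a =>
    closure_minimal (fun x hx => by
      by_contra h
      exact hx (hfK k a x h)) hK.isClosed
  have hSC : ∀ k a, SCW W (f k a) := fun k a =>
    ⟨hf k a, HasCompactSupport.of_support_subset_isCompact hK ((subset_tsupport _).trans (hts k a)),
      (hts k a).trans hKW⟩
  have hdz : ∀ k a (v : E) x, x ∉ K → dz v (f k a) x = 0 := fun k a v x hx =>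
    mw_dz_zero _ v x fun h => hx (hts k a h)
  have hdzb : ∀ k a (v : E) x, x ∉ K → dzb v (f k a) x = 0 := fun k a v x hx =>
    mw_dzb_zero _ v x fun h => hx (hts k a h)
  have hσ : ContDiffOn ℝ ∞ (fun y => χ y - θ y) W := hχ.sub hθ
  have hw : ContinuousOn (fun x => Real.exp (-χ x)) W :=
    Real.continuous_exp.comp_continuousOn hχ.continuousOn.neg
  have hmain := M.apriori hW μ θ χ hθ hχ κ hκ k₀ hcurv hlev f hSC
  -- continuity
  have hLc : ∀ a, ContinuousOn (fun x => M.LL (fun y => χ y - θ y) f x a) W := by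
    intro a
    unfold HMet.LL HMet.ch
    refine continuousOn_finsetSum _ fun k _ => ?_
    refine ContinuousOn.sub (ContinuousOn.add (mw_dz_cont _ (hf k a) _).continuousOn ?_) ?_
    · exact continuousOn_finsetSum _ fun c _ =>
        (M.smA k a c).continuousOn.mul (hf k c).continuous.continuousOn
    · exact (mw_dz_contOn hW _ hσ (b k)).mul (hf k a).continuous.continuousOn
  have hSc : ∀ j k a, ContinuousOn (fun x => dzb (b j) (f k a) x - dzb (b k) (f j a) x) W :=
    fun j k a => ((mw_dzb_cont _ (hf k a) _).sub (mw_dzb_cont _ (hf j a) _)).continuousOn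
  have c1 := mw_nsq_contOn M (fun x => κ x * Real.exp (-χ x)) (hκ.mul hw) (f k₀)
    fun a => (hf k₀ a).continuous.continuousOn
  have c2 := mw_nsq_contOn M (fun x => Real.exp (-χ x)) hw
    (fun a x => M.LL (fun y => χ y - θ y) f x a) hLc
  have c3 : ∀ j k, ContinuousOn (fun x => M.nsq x (fun a => dzb (b j) (f k a) x -
      dzb (b k) (f j a) x) * Real.exp (-χ x)) W := fun j k =>
    mw_nsq_contOn M (fun x => Real.exp (-χ x)) hw
      (fun a x => dzb (b j) (f k a) x - dzb (b k) (f j a) x) (hSc j k)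
  -- zero off K
  have z1 : ∀ x, x ∉ K → M.nsq x (fun a => f k₀ a x) * (κ x * Real.exp (-χ x)) = 0 := by
    intro x hx
    simp only [hfK _ _ x hx]
    rw [mw_nsq_zero, zero_mul]
  have z2 : ∀ x, x ∉ K → M.nsq x (fun a => M.LL (fun y => χ y - θ y) f x a) *
      Real.exp (-χ x) = 0 := by
    intro x hx
    have : ∀ a, M.LL (fun y => χ y - θ y) f x a = 0 := by
      intro a
      unfold HMet.LL HMet.ch
      simp only [hfK _ _ x hx, hdz _ _ _ x hx]
      simp
    simp only [this]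
    rw [mw_nsq_zero, zero_mul]
  have z3 : ∀ j k x, x ∉ K → M.nsq x (fun a => dzb (b j) (f k a) x -
      dzb (b k) (f j a) x) * Real.exp (-χ x) = 0 := by
    intro j k x hx
    simp only [hdzb _ _ _ x hx]
    simp only [sub_zero]
    rw [mw_nsq_zero, zero_mul]
  have n1 : ∀ x ∈ W, 0 ≤ M.nsq x (fun a => f k₀ a x) * (κ x * Real.exp (-χ x)) := fun x hx =>
    mul_nonneg (mw_nsq_nonneg M hx _) (mul_nonneg (hκ0 x hx) (Real.exp_pos _).le)
  have n2 : ∀ x ∈ W, 0 ≤ M.nsq x (fun a => M.LL (fun y => χ y - θ y) f x a) *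
      Real.exp (-χ x) := fun x hx => mul_nonneg (mw_nsq_nonneg M hx _) (Real.exp_pos _).le
  have n3 : ∀ j k, ∀ x ∈ W, 0 ≤ M.nsq x (fun a => dzb (b j) (f k a) x -
      dzb (b k) (f j a) x) * Real.exp (-χ x) := fun j k x hx =>
    mul_nonneg (mw_nsq_nonneg M hx _) (Real.exp_pos _).le
  have e1 := mw_conv hW μ hK hKW _ c1 z1 n1
  have e2 := mw_conv hW μ hK hKW _ c2 z2 n2
  have e3 := fun j k => mw_conv hW μ hK hKW _ (c3 j k) (z3 j k) (n3 j k)
  have hi3 : ∀ j k, Integrable (fun x => M.nsq x (fun a => dzb (b j) (f k a) x -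
      dzb (b k) (f j a) x) * Real.exp (-χ x)) μ := by
    intro j k
    have h1 : IntegrableOn (fun x => M.nsq x (fun a => dzb (b j) (f k a) x -
      dzb (b k) (f j a) x) * Real.exp (-χ x)) K μ := ((c3 j k).mono hKW).integrableOn_compact hK
    refine (integrableOn_iff_integrable_of_support_subset ?_).1 h1
    intro x hx
    by_contra h
    exact hx (z3 j k x h)
  have hI3 : ∫ x, (∑ j, ∑ k, M.nsq x (fun a => dzb (b j) (f k a) x - dzb (b k) (f j a) x)) *
        Real.exp (-χ x) ∂μ = ∑ j, ∑ k, ∫ x, M.nsq x (fun a => dzb (b j) (f k a) x -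
      dzb (b k) (f j a) x) * Real.exp (-χ x) ∂μ := by
    simp only [Finset.sum_mul]
    rw [integral_finsetSum _ fun j _ => integrable_finsetSum _ fun k _ => hi3 j k]
    refine Finset.sum_congr rfl fun j _ => ?_
    rw [integral_finsetSum _ fun k _ => hi3 j k]
  have hL : ∫ x, κ x * M.nsq x (fun a => f k₀ a x) * Real.exp (-χ x) ∂μ =
      ∫ x, M.nsq x (fun a => f k₀ a x) * (κ x * Real.exp (-χ x)) ∂μ := by
    refine integral_congr_ae (Filter.Eventually.of_forall fun x => ?_)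
    simp only
    ring
  rw [hL, hI3] at hmain
  have hpos : ∀ (F : E → ℝ), (∀ x, x ∉ K → F x = 0) → (∀ x ∈ W, 0 ≤ F x) →
      0 ≤ ∫ x, F x ∂μ := by
    intro F h0 h1
    refine integral_nonneg fun x => ?_
    by_cases hx : x ∈ W
    · exact h1 x hx
    · rw [h0 x fun h => hx (hKW h)]
      exact le_rfl
  have hq1 : mw_Q M μ (fun x => κ x * Real.exp (-χ x)) (f k₀) =
      ENNReal.ofReal (∫ x, M.nsq x (fun a => f k₀ a x) * (κ x * Real.exp (-χ x)) ∂μ) := e1.symm
  have hq2 : mw_Q M μ (fun x => Real.exp (-χ x)) (fun a x => M.LL (fun y => χ y - θ y) f x a) =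
      ENNReal.ofReal (∫ x, M.nsq x (M.LL (fun y => χ y - θ y) f x) * Real.exp (-χ x) ∂μ) :=
    e2.symm
  have hq3 : ∀ j k, mw_Q M μ (fun x => Real.exp (-χ x))
      (fun a x => dzb (b j) (f k a) x - dzb (b k) (f j a) x) =
      ENNReal.ofReal (∫ x, M.nsq x (fun a => dzb (b j) (f k a) x -
      dzb (b k) (f j a) x) * Real.exp (-χ x) ∂μ) := fun j k => (e3 j k).symm
  simp only [hq1, hq2, hq3]
  refine (ENNReal.ofReal_le_ofReal hmain).trans (le_of_eq ?_)
  have p2 := hpos _ z2 n2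
  have p3 := fun j k => hpos _ (z3 j k) (n3 j k)
  rw [ENNReal.ofReal_add (mul_nonneg (by norm_num) p2) (mul_nonneg (by norm_num)
    (Finset.sum_nonneg fun j _ => Finset.sum_nonneg fun k _ => p3 j k)),
    ENNReal.ofReal_mul (by norm_num), ENNReal.ofReal_mul (by norm_num),
    ENNReal.ofReal_sum_of_nonneg fun j _ => Finset.sum_nonneg fun k _ => p3 j k]
  have e4 : ENNReal.ofReal (1 / 2) = 1 / 2 := by
    rw [ENNReal.ofReal_div_of_pos (by norm_num)]
    norm_num
  rw [e4]
  congr 1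
  · norm_num
  · congr 1
    refine Finset.sum_congr rfl fun j _ => ?_
    rw [ENNReal.ofReal_sum_of_nonneg fun k _ => p3 j k]

private lemma mw_memLp_mul (μ : Measure E) (c : E → ℂ) (hc : Continuous c)
    (hcs : HasCompactSupport c) (u : E → ℂ) (hu : MemLp u 2 μ) :
    MemLp (fun x => c x * u x) 2 μ := by
  obtain ⟨C, hC⟩ := hc.bounded_above_of_compact_support hcs
  refine hu.of_le_mul (c := C) (hc.aestronglyMeasurable.mul hu.1) ?_
  refine Filter.Eventually.of_forall fun x => ?_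
  rw [norm_mul]
  exact mul_le_mul_of_nonneg_right (hC x) (norm_nonneg _)

/-- the zero order part of `LL` -/
private noncomputable def mw_B (M : HMet W b D) (σ : E → ℝ) (g : ι → Fin D → E → ℂ) (a : Fin D)
    (y : E) : ℂ :=
  ∑ k, ((∑ c, M.A k y a c * g k c y) - dz (b k) (fun y => (σ y : ℂ)) y * g k a y)

private lemma mw_B_memLp (M : HMet W b D) (hW : IsOpen W) (μ : Measure E) [μ.IsAddHaarMeasure]
    (σ : E → ℝ) (hσ : ContDiffOn ℝ ∞ σ W) (K : Set E) (hK : IsCompact K) (hKW : K ⊆ W)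
    (g : ι → Fin D → E → ℂ) (hg : ∀ k a, MemLp (g k a) 2 μ)
    (hgK : ∀ k a, ∀ x, x ∉ K → g k a x = 0) (a : Fin D) : MemLp (mw_B M σ g a) 2 μ := by
  obtain ⟨c, hc, hcs, hcW, hc1⟩ := mw_cutoff hK hW hKW
  have hcK : ∀ x ∈ K, (c x : ℂ) = 1 := by
    intro x hx
    rw [(hc1 x hx).self_of_nhds]
    simp
  have hσ1 : ContDiffOn ℝ ∞ (fun y => (σ y : ℂ)) W := Complex.ofRealCLM.contDiff.comp_contDiffOn hσ
  have e : mw_B M σ g a = fun y => ∑ k, ((∑ e, ((c y : ℂ) * M.A k y a e) * g k e y) -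
      ((c y : ℂ) * dz (b k) (fun y => (σ y : ℂ)) y) * g k a y) := by
    funext y
    unfold mw_B
    refine Finset.sum_congr rfl fun k _ => ?_
    by_cases hy : y ∈ K
    · rw [hcK y hy]
      simp only [one_mul]
    · simp only [hgK _ _ y hy, mul_zero]
  rw [e]
  refine memLp_finsetSum _ fun k _ => ?_
  refine MemLp.sub (memLp_finsetSum _ fun e _ => ?_) ?_
  · exact mw_memLp_mul μ _ (mw_mul_smooth hW hc hcW (M.smA k a e)).continuous
      (mw_mul_supp hcs _) _ (hg k e)
  · refine mw_memLp_mul μ _ ?_ (mw_mul_supp hcs _) _ (hg k a)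
    rw [continuous_iff_continuousAt]
    intro x
    by_cases hx : x ∈ W
    · have h1 := (mw_dz_contOn hW σ hσ (b k)).continuousAt (hW.mem_nhds hx)
      exact (Complex.continuous_ofReal.comp hc.continuous).continuousAt.mul h1
    · have h2 : (fun x => (c x : ℂ) * dz (b k) (fun y => (σ y : ℂ)) x) =ᶠ[nhds x] fun _ => 0 := by
        have h3 : c =ᶠ[nhds x] 0 := notMem_tsupport_iff_eventuallyEq.1 fun h => hx (hcW h)
        filter_upwards [h3] with y hy
        rw [hy]
        simp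
      exact continuousAt_const.congr h2.symm

/-- bound for the coefficients on a compact set -/
private lemma mw_coef (M : HMet W b D) (hW : IsOpen W) (σ : E → ℝ) (hσ : ContDiffOn ℝ ∞ σ W)
    {K : Set E} (hK : IsCompact K) (hKW : K ⊆ W) : ∃ C : ℝ, 0 ≤ C ∧ ∀ x ∈ K,
      ∀ u : ι → Fin D → ℂ, ∀ a, ‖∑ k, ((∑ c, M.A k x a c * u k c) -
        dz (b k) (fun y => (σ y : ℂ)) x * u k a)‖ ≤ C * ∑ k, ∑ c, ‖u k c‖ := by
  have hc : ContinuousOn (fun x => ∑ k, ((∑ a, ∑ c, ‖M.A k x a c‖) +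
      ‖dz (b k) (fun y => (σ y : ℂ)) x‖)) K := by
    refine continuousOn_finsetSum _ fun k _ => ContinuousOn.add ?_ ?_
    · exact continuousOn_finsetSum _ fun a _ => continuousOn_finsetSum _ fun c _ =>
        ((M.smA k a c).continuousOn.mono hKW).norm
    · exact ((mw_dz_contOn hW σ hσ (b k)).mono hKW).norm
  obtain ⟨B, hB⟩ := hK.exists_bound_of_continuousOn hc
  refine ⟨max B 0, le_max_right _ _, fun x hx u a => ?_⟩
  set S := ∑ k, ∑ c, ‖u k c‖ with hS
  have hS0 : 0 ≤ S := Finset.sum_nonneg fun k _ => Finset.sum_nonneg fun c _ => norm_nonneg _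
  have hu : ∀ k c, ‖u k c‖ ≤ S := by
    intro k c
    have h1 : ‖u k c‖ ≤ ∑ c, ‖u k c‖ :=
      Finset.single_le_sum (f := fun c => ‖u k c‖) (fun e _ => norm_nonneg _) (Finset.mem_univ c)
    have h2 : ∑ c, ‖u k c‖ ≤ S :=
      Finset.single_le_sum (f := fun k => ∑ c, ‖u k c‖)
        (fun e _ => Finset.sum_nonneg fun c _ => norm_nonneg _) (Finset.mem_univ k)
    exact h1.trans h2
  have h3 : ‖∑ k, ((∑ c, M.A k x a c * u k c) - dz (b k) (fun y => (σ y : ℂ)) x * u k a)‖ ≤
      ∑ k, ((∑ c, ‖M.A k x a c‖) + ‖dz (b k) (fun y => (σ y : ℂ)) x‖) * S := by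
    refine (norm_sum_le _ _).trans (Finset.sum_le_sum fun k _ => ?_)
    refine (norm_sub_le _ _).trans ?_
    rw [add_mul, Finset.sum_mul]
    refine add_le_add ?_ ?_
    · refine (norm_sum_le _ _).trans (Finset.sum_le_sum fun c _ => ?_)
      rw [norm_mul]
      exact mul_le_mul_of_nonneg_left (hu k c) (norm_nonneg _)
    · rw [norm_mul]
      exact mul_le_mul_of_nonneg_left (hu k a) (norm_nonneg _)
  refine h3.trans ?_
  rw [← Finset.sum_mul]
  refine mul_le_mul_of_nonneg_right ?_ hS0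
  refine le_trans ?_ ((le_abs_self _).trans ((hB x hx).trans (le_max_left _ _)))
  refine Finset.sum_le_sum fun k _ => add_le_add ?_ le_rfl
  exact Finset.single_le_sum (f := fun a => ∑ c, ‖M.A k x a c‖)
    (fun e _ => Finset.sum_nonneg fun c _ => norm_nonneg _) (Finset.mem_univ a)

/-- convergence of the squares of the L^2 norms -/
private lemma mw_tendsto_sum {κ : Type} [Fintype κ] (F : ℕ → κ → ℝ≥0∞)
    (h : ∀ a, Filter.Tendsto (fun n => F n a) Filter.atTop (nhds 0)) :
    Filter.Tendsto (fun n => ∑ a, F n a ^ 2) Filter.atTop (nhds 0) := by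
  have h1 : Filter.Tendsto (fun n => ∑ a, F n a ^ 2) Filter.atTop (nhds (∑ _a : κ, (0 : ℝ≥0∞) ^ 2)) :=
    tendsto_finsetSum _ fun a _ => ENNReal.Tendsto.pow (h a)
  simpa using h1

end HMollWmain

variable {E : Type} [NormedAddCommGroup E] [NormedSpace ℂ E] [FiniteDimensional ℂ E]
  [MeasurableSpace E] [BorelSpace E] {W : Set E} {ι : Type} [Fintype ι]
  {b : Module.Basis ι ℂ E} {D : ℕ}

/-- `g` has compact support in `W`, is square integrable, `LL σ g = l` weakly with `l` square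
integrable (zero off a compact set), and the weak exterior derivative is `s`. -/
theorem HMet.apriori_compact (M : HMet W b D) (hW : IsOpen W) (μ : Measure E)
    [μ.IsAddHaarMeasure]
    (θ χ : E → ℝ) (hθ : ContDiffOn ℝ ∞ θ W) (hχ : ContDiffOn ℝ ∞ χ W) (κ : E → ℝ)
    (hκ : ContinuousOn κ W) (hκ0 : ∀ x ∈ W, 0 ≤ κ x) (k₀ : ι)
    (hcurv : ∀ x ∈ W, ∀ f : ι → Fin D → ℂ, κ x * M.nsq x (f k₀) ≤ M.curv x f)
    (hlev : ∀ x ∈ W, ∀ f : ι → Fin D → ℂ,
      2 * gradsq b θ x * ∑ k, M.nsq x (f k) ≤ levH b (M.H x) χ x f)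
    (K : Set E) (hK : IsCompact K) (hKW : K ⊆ W)
    (g : ι → Fin D → E → ℂ) (hg : ∀ k a, MemLp (g k a) 2 μ) (hgK : ∀ k a, ∀ x, x ∉ K → g k a x = 0)
    (l : Fin D → E → ℂ) (hl : ∀ a, MemLp (l a) 2 μ) (hlK : ∀ a, ∀ x, x ∉ K → l a x = 0)
    (s : ι → ι → Fin D → E → ℂ) (hs : ∀ j k a, MemLp (s j k a) 2 μ)
    (hsK : ∀ j k a, ∀ x, x ∉ K → s j k a x = 0)
    (hLL : M.WeakLL μ (fun y => χ y - θ y) g l)
    (hds : ∀ j k a, ∀ ψ : E → ℂ, SCW W ψ →
      - ∫ x, (g k a x * dzb (b j) ψ x - g j a x * dzb (b k) ψ x) ∂μ = ∫ x, s j k a x * ψ x ∂μ) :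
    ∫⁻ x in W, ENNReal.ofReal (κ x * M.nsq x (fun a => g k₀ a x) * Real.exp (-χ x)) ∂μ ≤
      2 * M.L2 μ χ l + (1 / 2) * ∑ j, ∑ k, M.L2 μ χ (s j k) := by
  have : FiniteDimensional ℝ E := FiniteDimensional.complexToReal E
  have : ProperSpace E := FiniteDimensional.proper_real E
  have hσ : ContDiffOn ℝ ∞ (fun y => χ y - θ y) W := hχ.sub hθ
  set σ : E → ℝ := fun y => χ y - θ y with hσdef
  set w₀ : E → ℝ := fun x => Real.exp (-χ x) with hw₀
  set w₁ : E → ℝ := fun x => κ x * Real.exp (-χ x) with hw₁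
  have cw₀ : ContinuousOn w₀ W := Real.continuous_exp.comp_continuousOn hχ.continuousOn.neg
  have cw₁ : ContinuousOn w₁ W := hκ.mul cw₀
  have pw₀ : ∀ x ∈ W, 0 ≤ w₀ x := fun x _ => (Real.exp_pos _).le
  have pw₁ : ∀ x ∈ W, 0 ≤ w₁ x := fun x hx => mul_nonneg (hκ0 x hx) (Real.exp_pos _).le
  have hleft : ∫⁻ x in W, ENNReal.ofReal (κ x * M.nsq x (fun a => g k₀ a x) * Real.exp (-χ x)) ∂μ =
      mw_Q M μ w₁ (g k₀) := by
    unfold mw_Q
    refine lintegral_congr fun x => ?_
    congr 1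
    simp only [hw₁]
    ring
  rw [hleft]
  set R : ℝ≥0∞ := 2 * M.L2 μ χ l + (1 / 2) * ∑ j, ∑ k, M.L2 μ χ (s j k) with hR
  -- thickening
  obtain ⟨δ, hδ, hδW⟩ := hK.exists_cthickening_subset_open hW hKW
  set K₁ : Set E := Metric.cthickening δ K with hK₁
  have hK₁c : IsCompact K₁ := hK.cthickening
  have hKK₁ : K ⊆ K₁ := Metric.self_subset_cthickening K
  have off : ∀ {x}, x ∉ K₁ → x ∉ K := fun h h' => h (hKK₁ h')
  obtain ⟨r, hr1, hr2, hr3, hr4, hr5, hr6⟩ := exists_mollifier μ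
  -- B
  have hBm : ∀ a, MemLp (mw_B M σ g a) 2 μ := fun a => mw_B_memLp M hW μ σ hσ K hK hKW g hg hgK a
  have lg : ∀ k a, LocallyIntegrable (g k a) μ := fun k a => (hg k a).locallyIntegrable (by norm_num)
  have ll : ∀ a, LocallyIntegrable (l a) μ := fun a => (hl a).locallyIntegrable (by norm_num)
  have ls : ∀ j k a, LocallyIntegrable (s j k a) μ := fun j k a =>
    (hs j k a).locallyIntegrable (by norm_num)
  have lB : ∀ a, LocallyIntegrable (mw_B M σ g a) μ := fun a =>
    (hBm a).locallyIntegrable (by norm_num)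
  set G : ℕ → ι → Fin D → E → ℂ := fun n k a => mw_moll μ (r n) (g k a) with hG
  have sG : ∀ n k a, ContDiff ℝ ∞ (G n k a) := fun n k a =>
    mw_moll_contDiff μ (r n) _ (hr1 n) (hr2 n) (lg k a)
  have sl : ∀ n a, ContDiff ℝ ∞ (mw_moll μ (r n) (l a)) := fun n a =>
    mw_moll_contDiff μ (r n) _ (hr1 n) (hr2 n) (ll a)
  have sB : ∀ n a, ContDiff ℝ ∞ (mw_moll μ (r n) (mw_B M σ g a)) := fun n a =>
    mw_moll_contDiff μ (r n) _ (hr1 n) (hr2 n) (lB a)
  have ss : ∀ n j k a, ContDiff ℝ ∞ (mw_moll μ (r n) (s j k a)) := fun n j k a =>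
    mw_moll_contDiff μ (r n) _ (hr1 n) (hr2 n) (ls j k a)
  -- exterior derivative and LL of the mollification
  have hext : ∀ n j k a x, dzb (b j) (G n k a) x - dzb (b k) (G n j a) x =
      mw_moll μ (r n) (s j k a) x := fun n j k a x =>
    mw_ext3 hW μ K hK hKW (g k a) (g j a) (s j k a) (lg k a) (lg j a) (hgK k a) (hgK j a)
      (hsK j k a) (b j) (b k) (hds j k a) (r n) (hr1 n) (hr2 n) x
  have hdiv : ∀ n a x, ∑ k, dz (b k) (G n k a) x =
      mw_moll μ (r n) (l a) x - mw_moll μ (r n) (mw_B M σ g a) x := fun n a x =>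
    mw_div3 M hW μ σ hσ K hK hKW g lg hgK l hlK hLL a (mw_B M σ g a) (fun y => rfl) (lB a)
      (r n) (hr1 n) (hr2 n) x
  have hLLn : ∀ n a x, M.LL σ (G n) x a = (mw_moll μ (r n) (l a) x -
      mw_moll μ (r n) (mw_B M σ g a) x) + mw_B M σ (G n) a x := by
    intro n a x
    rw [← hdiv]
    unfold HMet.LL HMet.ch mw_B
    rw [← Finset.sum_add_distrib]
    refine Finset.sum_congr rfl fun k _ => ?_
    ring
  -- support
  have hrK : ∀ᶠ n : ℕ in Filter.atTop, 1 / ((n : ℝ) + 1) ≤ δ :=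
    ((tendsto_one_div_add_atTop_nhds_zero_nat).eventually (gt_mem_nhds hδ)).mono fun n hn => hn.le
  have hsupp : ∀ n : ℕ, 1 / ((n : ℝ) + 1) ≤ δ → ∀ u : E → ℂ, (∀ x, x ∉ K → u x = 0) →
      ∀ x, x ∉ K₁ → mw_moll μ (r n) u x = 0 := by
    intro n hn u hu x hx
    refine mw_moll_zero μ (r n) u K δ hu (fun y hy => (hr5 n y hy).trans hn) x hx
  -- constants
  obtain ⟨C₀, hC₀, hQ₀⟩ := mw_Q_bound M hW μ w₀ cw₀ pw₀ hK₁c hδW
  obtain ⟨C₁, hC₁, hQ₁⟩ := mw_Q_bound M hW μ w₁ cw₁ pw₁ hK₁c hδW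
  obtain ⟨C₂, hC₂, hcoef⟩ := mw_coef M hW σ hσ hK₁c hδW
  -- measurability
  have mres : ∀ {u : E → ℂ}, MemLp u 2 μ → AEStronglyMeasurable u (μ.restrict K₁) :=
    fun h => h.1.restrict
  have mresW : ∀ {u : E → ℂ}, MemLp u 2 μ → AEMeasurable u (μ.restrict W) :=
    fun h => h.1.aemeasurable.restrict
  have mc : ∀ {u : E → ℂ}, ContDiff ℝ ∞ u → ∀ ν : Measure E, AEStronglyMeasurable u ν :=
    fun h ν => h.continuous.aestronglyMeasurable
  -- convergence
  have tG : ∀ k a, Filter.Tendsto (fun n => eLpNorm (fun x => G n k a x - g k a x) 2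
      (μ.restrict K₁)) Filter.atTop (nhds 0) := fun k a =>
    hr6 (g k a) (fun K' _ => (hg k a).restrict K') K₁ hK₁c
  have tl : ∀ a, Filter.Tendsto (fun n => eLpNorm (fun x => mw_moll μ (r n) (l a) x - l a x) 2
      (μ.restrict K₁)) Filter.atTop (nhds 0) := fun a =>
    hr6 (l a) (fun K' _ => (hl a).restrict K') K₁ hK₁c
  have tB : ∀ a, Filter.Tendsto (fun n => eLpNorm (fun x => mw_moll μ (r n) (mw_B M σ g a) x -
      mw_B M σ g a x) 2 (μ.restrict K₁)) Filter.atTop (nhds 0) := fun a =>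
    hr6 _ (fun K' _ => (hBm a).restrict K') K₁ hK₁c
  have ts : ∀ j k a, Filter.Tendsto (fun n => eLpNorm (fun x => mw_moll μ (r n) (s j k a) x -
      s j k a x) 2 (μ.restrict K₁)) Filter.atTop (nhds 0) := fun j k a =>
    hr6 _ (fun K' _ => (hs j k a).restrict K') K₁ hK₁c
  have mdG : ∀ n k a, AEStronglyMeasurable (fun x => G n k a x - g k a x) (μ.restrict K₁) :=
    fun n k a => (mc (sG n k a) _).sub (mres (hg k a))
  -- the error of LL
  have tL : ∀ a, Filter.Tendsto (fun n => eLpNorm (fun x => M.LL σ (G n) x a - l a x) 2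
      (μ.restrict K₁)) Filter.atTop (nhds 0) := by
    intro a
    have hle : ∀ n, eLpNorm (fun x => M.LL σ (G n) x a - l a x) 2 (μ.restrict K₁) ≤
        eLpNorm (fun x => mw_moll μ (r n) (l a) x - l a x) 2 (μ.restrict K₁) +
        eLpNorm (fun x => mw_moll μ (r n) (mw_B M σ g a) x - mw_B M σ g a x) 2 (μ.restrict K₁) +
        ENNReal.ofReal C₂ * ∑ k, ∑ c, eLpNorm (fun x => G n k c x - g k c x) 2 (μ.restrict K₁) := by
      intro n
      have m1 : AEStronglyMeasurable (fun x => mw_moll μ (r n) (l a) x - l a x) (μ.restrict K₁) :=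
        (mc (sl n a) _).sub (mres (hl a))
      have m2 : AEStronglyMeasurable (fun x => mw_moll μ (r n) (mw_B M σ g a) x -
          mw_B M σ g a x) (μ.restrict K₁) := (mc (sB n a) _).sub (mres (hBm a))
      have m3 : ∀ k c, AEStronglyMeasurable (fun x => ‖G n k c x - g k c x‖) (μ.restrict K₁) :=
        fun k c => (mdG n k c).norm
      have m3' : AEStronglyMeasurable (fun x => ∑ k, ∑ c, ‖G n k c x - g k c x‖)
          (μ.restrict K₁) :=
        Finset.aestronglyMeasurable_fun_sum _ fun k _ =>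
          Finset.aestronglyMeasurable_fun_sum _ fun c _ => m3 k c
      have hb : ∀ᵐ x ∂(μ.restrict K₁), ‖M.LL σ (G n) x a - l a x‖ ≤
          (‖mw_moll μ (r n) (l a) x - l a x‖ +
          ‖mw_moll μ (r n) (mw_B M σ g a) x - mw_B M σ g a x‖) +
          C₂ * ∑ k, ∑ c, ‖G n k c x - g k c x‖ := by
        filter_upwards [ae_restrict_mem hK₁c.measurableSet] with x hx
        have e : M.LL σ (G n) x a - l a x = (mw_moll μ (r n) (l a) x - l a x) -
            (mw_moll μ (r n) (mw_B M σ g a) x - mw_B M σ g a x) +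
            (mw_B M σ (G n) a x - mw_B M σ g a x) := by
          rw [hLLn]
          ring
        have e2 : mw_B M σ (G n) a x - mw_B M σ g a x =
            ∑ k, ((∑ c, M.A k x a c * (G n k c x - g k c x)) -
              dz (b k) (fun y => (σ y : ℂ)) x * (G n k a x - g k a x)) := by
          unfold mw_B
          rw [← Finset.sum_sub_distrib]
          refine Finset.sum_congr rfl fun k _ => ?_
          simp only [mul_sub, Finset.sum_sub_distrib]
          ring
        rw [e]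
        refine (norm_add_le _ _).trans (add_le_add (norm_sub_le _ _) ?_)
        rw [e2]
        exact hcoef x hx (fun k c => G n k c x - g k c x) a
      refine (eLpNorm_mono_ae_real hb).trans ?_
      refine (eLpNorm_add_le (f := fun x => ‖mw_moll μ (r n) (l a) x - l a x‖ +
          ‖mw_moll μ (r n) (mw_B M σ g a) x - mw_B M σ g a x‖)
          (g := fun x => C₂ * ∑ k, ∑ c, ‖G n k c x - g k c x‖) (m1.norm.add m2.norm)
          (m3'.const_mul _) (by norm_num)).trans ?_
      refine add_le_add ?_ ?_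
      · refine (eLpNorm_add_le (f := fun x => ‖mw_moll μ (r n) (l a) x - l a x‖)
          (g := fun x => ‖mw_moll μ (r n) (mw_B M σ g a) x - mw_B M σ g a x‖) m1.norm m2.norm
          (by norm_num)).trans ?_
        rw [eLpNorm_norm, eLpNorm_norm]
      · have h1 : eLpNorm (fun x => C₂ * ∑ k, ∑ c, ‖G n k c x - g k c x‖) 2 (μ.restrict K₁) ≤
            ENNReal.ofReal C₂ * eLpNorm (fun x => ∑ k, ∑ c, ‖G n k c x - g k c x‖) 2
              (μ.restrict K₁) := by
          refine eLpNorm_le_mul_eLpNorm_of_ae_le_mul (Filter.Eventually.of_forall fun x => ?_) 2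
          rw [norm_mul, Real.norm_of_nonneg hC₂]
        refine h1.trans ?_
        gcongr
        have h2 : (fun x => ∑ k, ∑ c, ‖G n k c x - g k c x‖) =
            ∑ k, ∑ c, fun x => ‖G n k c x - g k c x‖ := by
          funext x
          simp only [Finset.sum_apply]
        rw [h2]
        refine (eLpNorm_sum_le (fun k _ => ?_) (by norm_num)).trans
          (Finset.sum_le_sum fun k _ => ?_)
        · exact Finset.aestronglyMeasurable_sum _ fun c _ => m3 k c
        · refine (eLpNorm_sum_le (fun c _ => m3 k c) (by norm_num)).trans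
            (Finset.sum_le_sum fun c _ => ?_)
          rw [eLpNorm_norm]
    have t3 : Filter.Tendsto (fun n => ENNReal.ofReal C₂ * ∑ k, ∑ c,
        eLpNorm (fun x => G n k c x - g k c x) 2 (μ.restrict K₁)) Filter.atTop
        (nhds (ENNReal.ofReal C₂ * ∑ _k : ι, ∑ _c : Fin D, 0)) :=
      ENNReal.Tendsto.const_mul (tendsto_finsetSum _ fun k _ => tendsto_finsetSum _ fun c _ =>
        tG k c) (Or.inr ENNReal.ofReal_ne_top)
    have t4 := ((tl a).add (tB a)).add t3
    simp only [Finset.sum_const_zero, mul_zero, add_zero] at t4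
    exact tendsto_of_tendsto_of_tendsto_of_le_of_le tendsto_const_nhds t4 (fun n => zero_le) hle
  -- errors
  set E₁ : ℕ → ℝ≥0∞ := fun n => ∑ a, eLpNorm (fun x => g k₀ a x - G n k₀ a x) 2
    (μ.restrict K₁) ^ 2 with hE₁
  set E₂ : ℕ → ℝ≥0∞ := fun n => ∑ a, eLpNorm (fun x => M.LL σ (G n) x a - l a x) 2
    (μ.restrict K₁) ^ 2 with hE₂
  set E₃ : ℕ → ℝ≥0∞ := fun n => ∑ j, ∑ k, ∑ a, eLpNorm (fun x => mw_moll μ (r n) (s j k a) x -
      s j k a x) 2 (μ.restrict K₁) ^ 2 with hE₃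
  have tE₁ : Filter.Tendsto E₁ Filter.atTop (nhds 0) := by
    refine mw_tendsto_sum _ fun a => ?_
    refine (tG k₀ a).congr fun n => ?_
    rw [← eLpNorm_neg]
    refine congrArg (fun f => eLpNorm f 2 (μ.restrict K₁)) ?_
    funext x
    simp only [Pi.neg_apply]
    ring
  have tE₂ : Filter.Tendsto E₂ Filter.atTop (nhds 0) := mw_tendsto_sum _ tL
  have tE₃ : Filter.Tendsto E₃ Filter.atTop (nhds 0) := by
    have h1 : Filter.Tendsto E₃ Filter.atTop (nhds (∑ _j : ι, ∑ _k : ι, (0 : ℝ≥0∞))) :=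
      tendsto_finsetSum _ fun j _ => tendsto_finsetSum _ fun k _ => mw_tendsto_sum _ (ts j k)
    simpa using h1
  -- the inequality for fixed ε
  have key : ∀ ε : ℝ, 0 < ε → mw_Q M μ w₁ (g k₀) ≤
      ENNReal.ofReal (1 + ε) * (ENNReal.ofReal (1 + ε) * R) := by
    intro ε hε
    set c₀ : ℝ≥0∞ := ENNReal.ofReal (1 + 1 / ε) * ENNReal.ofReal C₀ with hc₀
    set c₁ : ℝ≥0∞ := ENNReal.ofReal (1 + 1 / ε) * ENNReal.ofReal C₁ with hc₁
    have hc₀t : c₀ ≠ ⊤ := ENNReal.mul_ne_top ENNReal.ofReal_ne_top ENNReal.ofReal_ne_top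
    have hc₁t : c₁ ≠ ⊤ := ENNReal.mul_ne_top ENNReal.ofReal_ne_top ENNReal.ofReal_ne_top
    have hn : ∀ n : ℕ, 1 / ((n : ℝ) + 1) ≤ δ → mw_Q M μ w₁ (g k₀) ≤
        ENNReal.ofReal (1 + ε) * (ENNReal.ofReal (1 + ε) * R + (2 * (c₀ * E₂ n) +
          (1 / 2) * (c₀ * E₃ n))) + c₁ * E₁ n := by
      intro n hn
      have zG : ∀ k a, ∀ x, x ∉ K₁ → G n k a x = 0 := fun k a => hsupp n hn _ (hgK k a)
      have hts : ∀ k a, tsupport (G n k a) ⊆ K₁ := fun k a =>
        closure_minimal (fun x hx => by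
          by_contra h
          exact hx (zG k a x h)) hK₁c.isClosed
      have zL : ∀ a, ∀ x, x ∉ K₁ → M.LL σ (G n) x a = 0 := by
        intro a x hx
        have hdz : ∀ k, dz (b k) (G n k a) x = 0 := fun k =>
          mw_dz_zero _ (b k) x fun h => hx (hts k a h)
        unfold HMet.LL HMet.ch
        simp only [zG _ _ x hx, hdz]
        simp
      -- step 1
      have s1 : mw_Q M μ w₁ (g k₀) ≤ ENNReal.ofReal (1 + ε) * mw_Q M μ w₁ (G n k₀) +
          c₁ * E₁ n := by
        refine (mw_Q_eps M hW μ w₁ cw₁ pw₁ (g k₀) (G n k₀) (fun a x => g k₀ a x - G n k₀ a x)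
          (fun a => (sG n k₀ a).continuous.measurable.aemeasurable) (fun a x => by ring) ε
          hε).trans ?_
        refine add_le_add le_rfl ?_
        rw [hc₁, mul_assoc]
        gcongr
        refine hQ₁ _ (fun a => (mres (hg k₀ a)).sub (mc (sG n k₀ a) _)) fun a x hx => ?_
        rw [hgK k₀ a x (off hx), zG k₀ a x hx, sub_zero]
      -- step 2
      have s2 : mw_Q M μ w₁ (G n k₀) ≤ 2 * mw_Q M μ w₀ (fun a x => M.LL σ (G n) x a) +
          (1 / 2) * ∑ j, ∑ k, mw_Q M μ w₀ (fun a x => mw_moll μ (r n) (s j k a) x) := by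
        have h1 := mw_smooth M hW μ θ χ hθ hχ κ hκ hκ0 k₀ hcurv hlev hK₁c hδW (G n) (sG n) zG
        simp only [hext] at h1
        exact h1
      -- step 3
      have s3 : mw_Q M μ w₀ (fun a x => M.LL σ (G n) x a) ≤
          ENNReal.ofReal (1 + ε) * M.L2 μ χ l + c₀ * E₂ n := by
        refine (mw_Q_eps M hW μ w₀ cw₀ pw₀ (fun a x => M.LL σ (G n) x a) l
          (fun a x => M.LL σ (G n) x a - l a x) (fun a => mresW (hl a)) (fun a x => by ring) ε
          hε).trans ?_
        refine add_le_add le_rfl ?_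
        rw [hc₀, mul_assoc]
        gcongr
        refine hQ₀ _ (fun a => ?_) fun a x hx => ?_
        · have cL : ContinuousOn (fun x => M.LL σ (G n) x a) W := by
            unfold HMet.LL HMet.ch
            refine continuousOn_finsetSum _ fun k _ => ?_
            refine ContinuousOn.sub (ContinuousOn.add (mw_dz_cont _ (sG n k a) _).continuousOn ?_)
              ?_
            · exact continuousOn_finsetSum _ fun c _ =>
                (M.smA k a c).continuousOn.mul (sG n k c).continuous.continuousOn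
            · exact (mw_dz_contOn hW _ hσ (b k)).mul (sG n k a).continuous.continuousOn
          exact ((cL.mono hδW).aestronglyMeasurable hK₁c.measurableSet).sub (mres (hl a))
        · rw [zL a x hx, hlK a x (off hx), sub_zero]
      -- step 4
      have s4 : ∀ j k, mw_Q M μ w₀ (fun a x => mw_moll μ (r n) (s j k a) x) ≤
          ENNReal.ofReal (1 + ε) * M.L2 μ χ (s j k) + c₀ * ∑ a, eLpNorm (fun x =>
            mw_moll μ (r n) (s j k a) x - s j k a x) 2 (μ.restrict K₁) ^ 2 := by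
        intro j k
        refine (mw_Q_eps M hW μ w₀ cw₀ pw₀ (fun a x => mw_moll μ (r n) (s j k a) x) (s j k)
          (fun a x => mw_moll μ (r n) (s j k a) x - s j k a x) (fun a => mresW (hs j k a))
          (fun a x => by ring) ε hε).trans ?_
        refine add_le_add le_rfl ?_
        rw [hc₀, mul_assoc]
        gcongr
        refine hQ₀ _ (fun a => (mc (ss n j k a) _).sub (mres (hs j k a))) fun a x hx => ?_
        rw [hsupp n hn _ (hsK j k a) x hx, hsK j k a x (off hx), sub_zero]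
      have s5 : ∑ j, ∑ k, mw_Q M μ w₀ (fun a x => mw_moll μ (r n) (s j k a) x) ≤
          ENNReal.ofReal (1 + ε) * ∑ j, ∑ k, M.L2 μ χ (s j k) + c₀ * E₃ n := by
        refine (Finset.sum_le_sum fun j _ => Finset.sum_le_sum fun k _ => s4 j k).trans
          (le_of_eq ?_)
        simp only [Finset.sum_add_distrib, ← Finset.mul_sum, hE₃]
      refine s1.trans (add_le_add ?_ le_rfl)
      gcongr
      refine s2.trans ?_
      refine (add_le_add (mul_le_mul_right s3 2) (mul_le_mul_right s5 (1 / 2))).trans (le_of_eq ?_)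
      rw [hR]
      ring
    have ht : Filter.Tendsto (fun n => ENNReal.ofReal (1 + ε) * (ENNReal.ofReal (1 + ε) * R +
        (2 * (c₀ * E₂ n) + (1 / 2) * (c₀ * E₃ n))) + c₁ * E₁ n) Filter.atTop
        (nhds (ENNReal.ofReal (1 + ε) * (ENNReal.ofReal (1 + ε) * R +
        (2 * (c₀ * 0) + (1 / 2) * (c₀ * 0))) + c₁ * 0)) := by
      refine Filter.Tendsto.add (ENNReal.Tendsto.const_mul (Filter.Tendsto.add tendsto_const_nhds
        (Filter.Tendsto.add ?_ ?_)) (Or.inr ENNReal.ofReal_ne_top))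
        (ENNReal.Tendsto.const_mul tE₁ (Or.inr hc₁t))
      · exact ENNReal.Tendsto.const_mul (ENNReal.Tendsto.const_mul tE₂ (Or.inr hc₀t))
          (Or.inr (by norm_num))
      · exact ENNReal.Tendsto.const_mul (ENNReal.Tendsto.const_mul tE₃ (Or.inr hc₀t))
          (Or.inr (by norm_num))
    simp only [mul_zero, add_zero] at ht
    exact ge_of_tendsto ht (hrK.mono hn)
  -- ε → 0
  have hlim : Filter.Tendsto (fun m : ℕ => ENNReal.ofReal (1 + 1 / ((m : ℝ) + 1)) *
      (ENNReal.ofReal (1 + 1 / ((m : ℝ) + 1)) * R)) Filter.atTop (nhds (1 * (1 * R))) := by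
    have h1 : Filter.Tendsto (fun m : ℕ => ENNReal.ofReal (1 + 1 / ((m : ℝ) + 1))) Filter.atTop
        (nhds 1) := by
      have h2 : Filter.Tendsto (fun m : ℕ => (1 : ℝ) + 1 / ((m : ℝ) + 1)) Filter.atTop
          (nhds (1 + 0)) := tendsto_const_nhds.add tendsto_one_div_add_atTop_nhds_zero_nat
      rw [add_zero] at h2
      have h3 := ENNReal.tendsto_ofReal h2
      rwa [ENNReal.ofReal_one] at h3
    have h4 : Filter.Tendsto (fun m : ℕ => ENNReal.ofReal (1 + 1 / ((m : ℝ) + 1)) * R)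
        Filter.atTop (nhds (1 * R)) := ENNReal.Tendsto.mul_const h1 (Or.inl one_ne_zero)
    exact ENNReal.Tendsto.mul h1 (Or.inl one_ne_zero) h4 (Or.inr (by norm_num))
  rw [one_mul, one_mul] at hlim
  exact ge_of_tendsto' hlim fun m => key _ (by positivity)

end Pool.Agent.Lib_KF
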