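import Pool.Agent.Lib_KF.HDefs

/-! H01: twisting a Hermitian metric by `exp (-χ)`. -/

open MeasureTheory Complex
open scoped ENNReal ContDiff ComplexConjugate

namespace Pool.Agent.Lib_KF

open GPn

section HTwist_aux

variable {E : Type} [NormedAddCommGroup E] [NormedSpace ℂ E] {W : Set E}

private lemma HTwist_fd (hW : IsOpen W) {F : E → ℂ} (hF : ContDiffOn ℝ ∞ F W) (v : E) :
    ContDiffOn ℝ ∞ (fun x => fderiv ℝ F x v) W := by
  have h : ContDiffOn ℝ ∞ (fderiv ℝ F) W := hF.fderiv_of_isOpen hW (by simp)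
  exact h.clm_apply contDiffOn_const

private lemma HTwist_dz (hW : IsOpen W) {F : E → ℂ} (hF : ContDiffOn ℝ ∞ F W) (v : E) :
    ContDiffOn ℝ ∞ (dz v F) W := by
  have h1 := HTwist_fd hW hF v
  have h2 := HTwist_fd hW hF (I • v)
  have : dz v F = fun x => (fderiv ℝ F x v - I * fderiv ℝ F x (I • v)) / 2 := rfl
  rw [this]
  exact (h1.sub (contDiffOn_const.mul h2)).div_const 2

private lemma HTwist_re {χ : E → ℝ} (hχ : ContDiffOn ℝ ∞ χ W) :
    ContDiffOn ℝ ∞ (fun x => (χ x : ℂ)) W :=
  Complex.ofRealCLM.contDiff.comp_contDiffOn hχ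

private lemma HTwist_da {F : E → ℂ} (hW : IsOpen W) (hF : ContDiffOn ℝ ∞ F W) {x : E}
    (hx : x ∈ W) : DifferentiableAt ℝ F x :=
  (hF.contDiffAt (hW.mem_nhds hx)).differentiableAt (by simp)

private lemma HTwist_dar {F : E → ℝ} (hW : IsOpen W) (hF : ContDiffOn ℝ ∞ F W) {x : E}
    (hx : x ∈ W) : DifferentiableAt ℝ F x :=
  (hF.contDiffAt (hW.mem_nhds hx)).differentiableAt (by simp)

private lemma HTwist_dz_mul {F G : E → ℂ} {x : E} (hF : DifferentiableAt ℝ F x)
    (hG : DifferentiableAt ℝ G x) (v : E) :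
    dz v (fun y => F y * G y) x = dz v F x * G x + F x * dz v G x := by
  have h := fderiv_fun_mul hF hG
  simp only [dz, h, add_apply, smul_apply, smul_eq_mul]
  ring

private lemma HTwist_dzb_sub {F G : E → ℂ} {x : E} (hF : DifferentiableAt ℝ F x)
    (hG : DifferentiableAt ℝ G x) (v : E) :
    dzb v (fun y => F y - G y) x = dzb v F x - dzb v G x := by
  have h := fderiv_fun_sub hF hG
  simp only [dzb, h, sub_apply]
  ring

/-- the derivative of the real function `exp (-χ)`, seen as a complex function -/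
private lemma HTwist_exp {χ : E → ℝ} {x : E} (hχ : DifferentiableAt ℝ χ x) (v : E) :
    fderiv ℝ (fun y => (Real.exp (-χ y) : ℂ)) x v =
      -(Real.exp (-χ x) : ℂ) * fderiv ℝ (fun y => (χ y : ℂ)) x v := by
  have h1 : HasFDerivAt (fun y => (χ y : ℂ)) (Complex.ofRealCLM.comp (fderiv ℝ χ x)) x :=
    Complex.ofRealCLM.hasFDerivAt.comp x hχ.hasFDerivAt
  have h2 : HasFDerivAt (fun y => Real.exp (-χ y)) (Real.exp (-χ x) • (-(fderiv ℝ χ x))) x :=
    hχ.hasFDerivAt.neg.exp
  have h3 : HasFDerivAt (fun y => (Real.exp (-χ y) : ℂ))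
      (Complex.ofRealCLM.comp (Real.exp (-χ x) • (-(fderiv ℝ χ x)))) x :=
    Complex.ofRealCLM.hasFDerivAt.comp x h2
  rw [h1.fderiv, h3.fderiv]
  simp

private lemma HTwist_dz_exp {χ : E → ℝ} {x : E} (hχ : DifferentiableAt ℝ χ x) (v : E) :
    dz v (fun y => (Real.exp (-χ y) : ℂ)) x =
      -(Real.exp (-χ x) : ℂ) * dz v (fun y => (χ y : ℂ)) x := by
  simp only [dz, HTwist_exp hχ]
  ring

private lemma HTwist_expda {χ : E → ℝ} {x : E} (hχ : DifferentiableAt ℝ χ x) :
    DifferentiableAt ℝ (fun y => (Real.exp (-χ y) : ℂ)) x :=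
  (Complex.ofRealCLM.hasFDerivAt.comp x hχ.hasFDerivAt.neg.exp).differentiableAt

variable {D : ℕ}

private lemma HTwist_ip_smul (t : ℂ) (H : Fin D → Fin D → ℂ) (u v : Fin D → ℂ) :
    ip (fun a c => t * H a c) u v = t * ip H u v := by
  simp only [ip, Finset.mul_sum]
  exact Finset.sum_congr rfl fun a _ => Finset.sum_congr rfl fun c _ => by ring

private lemma HTwist_ip_add_smul (H : Fin D → Fin D → ℂ) (t : ℂ) (u u' v : Fin D → ℂ) :
    ip H (fun a => u a + t * u' a) v = ip H u v + t * ip H u' v := by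
  simp only [ip, Finset.mul_sum, ← Finset.sum_add_distrib]
  exact Finset.sum_congr rfl fun a _ => Finset.sum_congr rfl fun c _ => by ring

end HTwist_aux

namespace HMet

variable {E : Type} [NormedAddCommGroup E] [NormedSpace ℂ E] {W : Set E} {ι : Type} [Fintype ι]
  {b : Module.Basis ι ℂ E} {D : ℕ}

/-- The metric `exp (-χ) H`. -/
noncomputable def twist (M : HMet W b D) (hW : IsOpen W) (χ : E → ℝ) (hχ : ContDiffOn ℝ ∞ χ W) :
    HMet W b D where
  H := fun x a c => (Real.exp (-χ x) : ℂ) * M.H x a c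
  A := fun k x a c => M.A k x a c - if a = c then dz (b k) (fun y => (χ y : ℂ)) x else 0
  smH := by
    intro a c
    have h1 : ContDiffOn ℝ ∞ (fun x => Real.exp (-χ x)) W := hχ.neg.exp
    exact (HTwist_re h1).mul (M.smH a c)
  smA := by
    intro k a c
    have h1 : ContDiffOn ℝ ∞ (dz (b k) (fun y => (χ y : ℂ))) W := HTwist_dz hW (HTwist_re hχ) (b k)
    by_cases h : a = c
    · simp only [h, if_true]
      exact (M.smA k c c).sub h1
    · simp only [h, if_false, sub_zero]
      exact M.smA k a c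
  herm := by
    intro x hx a c
    simp only [map_mul, conj_ofReal]
    rw [M.herm x hx a c]
  pos := by
    intro x hx u hu
    have h := M.pos x hx u hu
    rw [HTwist_ip_smul, re_ofReal_mul]
    exact mul_pos (Real.exp_pos _) h
  chern := by
    intro k a c x hx
    have hd : DifferentiableAt ℝ χ x := HTwist_dar hW hχ hx
    rw [HTwist_dz_mul (HTwist_expda hd) (HTwist_da hW (M.smH a c) hx), HTwist_dz_exp hd,
      M.chern k a c x hx]
    simp only [mul_sub, Finset.sum_sub_distrib, mul_ite, mul_zero, Finset.sum_ite_eq',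
      Finset.mem_univ, if_true]
    rw [Finset.mul_sum]
    simp only [mul_assoc]
    ring

variable (M : HMet W b D) (hW : IsOpen W) (χ : E → ℝ) (hχ : ContDiffOn ℝ ∞ χ W)

theorem nsq_twist (x : E) (u : Fin D → ℂ) :
    (M.twist hW χ hχ).nsq x u = Real.exp (-χ x) * M.nsq x u := by
  change (ip (fun a c => (Real.exp (-χ x) : ℂ) * M.H x a c) u u).re = _
  rw [HTwist_ip_smul, re_ofReal_mul]
  rfl

theorem ch_twist (k : ι) (u : Fin D → E → ℂ) (x : E) (a : Fin D) :
    (M.twist hW χ hχ).ch k u x a =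
      M.ch k u x a - dz (b k) (fun y => (χ y : ℂ)) x * u a x := by
  change dz (b k) (u a) x + ∑ c, (M.A k x a c - if a = c then dz (b k) (fun y => (χ y : ℂ)) x
    else 0) * u c x = dz (b k) (u a) x + ∑ c, M.A k x a c * u c x - _
  simp only [sub_mul, Finset.sum_sub_distrib, ite_mul, zero_mul, Finset.sum_ite_eq,
    Finset.mem_univ, if_true]
  ring

theorem curv_twist (x : E) (hx : x ∈ W) (f : ι → Fin D → ℂ) :
    (M.twist hW χ hχ).curv x f =
      Real.exp (-χ x) * (M.curv x f + levH b (M.H x) χ x f) := by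
  have hA : ∀ (j k : ι) (a c : Fin D),
      dzb (b k) (fun y => M.A j y a c - if a = c then dz (b j) (fun y => (χ y : ℂ)) y else 0) x =
        dzb (b k) (fun y => M.A j y a c) x -
          if a = c then dzb (b k) (dz (b j) (fun y => (χ y : ℂ))) x else 0 := by
    intro j k a c
    by_cases h : a = c
    · simp only [h, if_true]
      exact HTwist_dzb_sub (HTwist_da hW (M.smA j c c) hx)
        (HTwist_da hW (HTwist_dz hW (HTwist_re hχ) (b j)) hx) (b k)
    · simp only [h, if_false, sub_zero]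
  have hs : ∀ j k : ι,
      ip (fun a c => (Real.exp (-χ x) : ℂ) * M.H x a c)
        (fun a => - ∑ c, dzb (b k) (fun y => M.A j y a c -
          if a = c then dz (b j) (fun y => (χ y : ℂ)) y else 0) x * f j c) (f k) =
      (Real.exp (-χ x) : ℂ) *
        (ip (M.H x) (fun a => - ∑ c, dzb (b k) (fun y => M.A j y a c) x * f j c) (f k) +
          dzb (b k) (dz (b j) (fun y => (χ y : ℂ))) x * ip (M.H x) (f j) (f k)) := by
    intro j k
    rw [HTwist_ip_smul, ← HTwist_ip_add_smul]
    congr 2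
    funext a
    simp only [hA, sub_mul, Finset.sum_sub_distrib, ite_mul, zero_mul, Finset.sum_ite_eq,
      Finset.mem_univ, if_true]
    ring
  change (∑ j, ∑ k, ip (fun a c => (Real.exp (-χ x) : ℂ) * M.H x a c)
        (fun a => - ∑ c, dzb (b k) (fun y => M.A j y a c -
          if a = c then dz (b j) (fun y => (χ y : ℂ)) y else 0) x * f j c) (f k)).re = _
  simp only [hs, ← Finset.mul_sum, Finset.sum_add_distrib]
  rw [re_ofReal_mul, add_re]
  rfl

end HMet

end Pool.Agent.Lib_KF
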