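import Pool.Agent.Lib_KF.HApr

/-! Weak forms: definitions. -/

open MeasureTheory Complex
open scoped ENNReal ContDiff ComplexConjugate

namespace Pool.Agent.Lib_KF

open GPn

variable {E : Type} [NormedAddCommGroup E] [NormedSpace ℂ E] [MeasurableSpace E] {W : Set E}
  {ι : Type} [Fintype ι] {b : Module.Basis ι ℂ E} {D : ℕ}

/-- `∫_W |u|_H ^ 2 exp (-φ)` -/
noncomputable def HMet.L2 (M : HMet W b D) (μ : Measure E) (φ : E → ℝ) (u : Fin D → E → ℂ) : ℝ≥0∞ :=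
  ∫⁻ x in W, ENNReal.ofReal (M.nsq x (fun a => u a x) * Real.exp (-φ x)) ∂μ

/-- `g = ∑ g_k dzbar_k` is weakly `∂bar`-closed on `W`. -/
def WeakClosed (W : Set E) (μ : Measure E) (b : Module.Basis ι ℂ E) (g : ι → Fin D → E → ℂ) :
    Prop :=
  ∀ j k a, ∀ ψ : E → ℂ, SCW W ψ →
    ∫ x, g k a x * dzb (b j) ψ x ∂μ = ∫ x, g j a x * dzb (b k) ψ x ∂μ

/-- `LL σ g = l` weakly on `W`. -/
def HMet.WeakLL (M : HMet W b D) (μ : Measure E) (σ : E → ℝ) (g : ι → Fin D → E → ℂ)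
    (l : Fin D → E → ℂ) : Prop :=
  ∀ u : Fin D → E → ℂ, (∀ a, SCW W (u a)) →
    ∫ x, ip (M.H x) (fun a => u a x) (fun a => l a x) * Real.exp (-σ x) ∂μ =
    - ∫ x, (∑ k, ip (M.H x) (fun a => dzb (b k) (u a) x) (fun a => g k a x)) *
        Real.exp (-σ x) ∂μ

/-- Cutoff functions adapted to the weight `θ`. -/
def HasCutoffs (W : Set E) (b : Module.Basis ι ℂ E) (θ : E → ℝ) : Prop :=
  ∃ C : ℝ, ∃ η : ℕ → E → ℝ, ∀ m, ContDiff ℝ ∞ (η m) ∧ HasCompactSupport (η m) ∧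
    tsupport (η m) ⊆ W ∧ (∀ x, 0 ≤ η m x ∧ η m x ≤ 1) ∧
    (∀ x ∈ W, gradsq b (η m) x ≤ C * Real.exp (θ x)) ∧
    ∀ K : Set E, IsCompact K → K ⊆ W → ∃ m₀, ∀ m, m₀ ≤ m → ∀ x ∈ K, η m =ᶠ[nhds x] 1

end Pool.Agent.Lib_KF
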