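import Pool.Agent.Lib_KF.Ana
import Pool.Agent.Lib_KF.ChMain
import Pool.Agent.Lib_KF.PGrowth
import Pool.Agent.Lib_GD.RatBasis

/-! (I2) for one arc, from the analytic inequality. -/

open PowerSeries
open scoped ENNReal NNReal

namespace Pool.Agent.Lib_KF

open Pool.Agent.Lib_GD

/-- (I2) for one arc `φ` of the cone with `φ (x a)` a unit. -/
theorem lattice_boundF {R : Type} [CommRing R] [Algebra ℂ R] {𝒜 : ℕ → Submodule ℂ R}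
    [GradedAlgebra 𝒜] {n r d : ℕ} {x : Fin (n + 1) → R} {G : R} (h : IsFano 𝒜 n r d x G)
    (hn : 1 ≤ n) (m : ℕ) (c : ℝ) (hc : 0 < c)
    (hint : ∀ b : Fin (secDim 𝒜 m) → R, (∀ i, b i ∈ 𝒜 m) → LinearIndependent ℂ b →
      intI x G r b c ≠ ⊤)
    {L : Type} [Field L] [Algebra ℂ L] (Δ : Submodule L (Derivation ℂ L L)) (φ : R →ₐ[ℂ] L⟦X⟧)
    (a : Fin (n + 1)) (η' : L⟦X⟧) (ha : φ (x a) * η' = 1)
    (Ξ : Submodule L⟦X⟧ (Fin n → L⟦X⟧)) (hΞ : FinColen Ξ)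
    (hΞΔ : ∀ v ∈ Ξ, ∃ δ ∈ Δ, ∀ l, hat δ (φ (x (a.succAbove l)) * η') = v l) (B : ℕ)
    (M : Submodule L⟦X⟧ (Fin (secDim 𝒜 m) → L⟦X⟧)) (hB : ∀ f, (X : L⟦X⟧) ^ B • f ∈ M)
    (hM : StableD (Δ : Set (Derivation ℂ L L)) M)
    (hx : ∀ f ∈ M, (X : L⟦X⟧) ^ B ∣ ∑ i, φ (secBasis 𝒜 m i) * f i) :
    φ G ≠ 0 ∧ c * ((B : ℝ) * secDim 𝒜 m - colen M) + ((φ G).order.toNat : ℝ) / r ≤ colen Ξ := by
  classical
  obtain ⟨e, lam, he, he', hlam, hsum, hdet, hmem⟩ :=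
    exists_rational_basis (Δ : Set (Derivation ℂ L L)) M hB hM
  -- the orders of the sections `∑ e_il s_l` on the arc
  have hord : ∀ i, (X : L⟦X⟧) ^ lam i ∣ ∑ l, e i l * φ (secBasis 𝒜 m l) := by
    intro i
    have h1 := hx _ (hmem i)
    have h2 : ∑ l, φ (secBasis 𝒜 m l) * ((X : L⟦X⟧) ^ (B - lam i) • e i) l =
        X ^ (B - lam i) * ∑ l, e i l * φ (secBasis 𝒜 m l) := by
      rw [Finset.mul_sum]
      refine Finset.sum_congr rfl fun l _ => ?_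
      rw [Pi.smul_apply, smul_eq_mul]
      ring
    rw [h2] at h1
    have h3 : (X : L⟦X⟧) ^ B = X ^ (B - lam i) * X ^ lam i := by
      rw [← pow_add, Nat.sub_add_cancel (hlam i)]
    rw [h3] at h1
    exact (mul_dvd_mul_iff_left (pow_ne_zero _ PowerSeries.X_ne_zero)).1 h1
  obtain ⟨hb1, hb2, -⟩ := secBasis_specP h.isPol m
  obtain ⟨hG, ε, κ, hκ, hε, hεi, ⟨Ch⟩⟩ := exists_anChart h (Δ : Set (Derivation ℂ L L)) φ a η' ha
    Ξ hΞ hΞΔ (secBasis 𝒜 m) hb1 hb2 e he he' hdet lam hord h.G_ne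
  refine ⟨hG, ?_⟩
  have h1 := ana h hn ε hε (fun i => hεi.ne_zero i) lam _ κ Ch c hc
    (hint _ (fun i => hε i 0) hεi)
  have hgoal : (B : ℝ) * secDim 𝒜 m - colen M = ((∑ i, lam i : ℕ) : ℝ) := by
    have : ((∑ i, lam i : ℕ) : ℝ) + colen M = B * secDim 𝒜 m := by exact_mod_cast hsum
    linarith
  rw [hgoal]
  have h2 : (κ : ℝ) ≤ colen Ξ := by exact_mod_cast hκ
  exact h1.trans h2

end Pool.Agent.Lib_KF
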