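import Mathlib

/-! J01: the Jacobian of `(t, u) ↦ (t ^ d X_b(u))_b`. -/

namespace Pool.Agent.Lib_KF

/-- J01a. The real determinant of a complex linear map is `|det| ^ 2`
(`LinearMap.det_restrictScalars`, `Algebra.norm_complex_apply`). -/
theorem abs_det_restrictScalars {m : ℕ} (f : (Fin m → ℂ) →L[ℂ] (Fin m → ℂ)) :
    |(f.restrictScalars ℝ).det| =
      ‖Matrix.det (Matrix.of fun i j => f (Pi.single j 1) i)‖ ^ 2 := by
  have h1 : (f.restrictScalars ℝ).det =
      LinearMap.det ((f : (Fin m → ℂ) →ₗ[ℂ] (Fin m → ℂ)).restrictScalars ℝ) := rfl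
  have h2 : LinearMap.det (f : (Fin m → ℂ) →ₗ[ℂ] (Fin m → ℂ)) =
      Matrix.det (Matrix.of fun i j => f (Pi.single j 1) i) := by
    rw [← LinearMap.det_toMatrix']
    congr 1
  rw [h1, LinearMap.det_restrictScalars, Algebra.norm_complex_apply, h2,
    Complex.normSq_eq_norm_sq, abs_of_nonneg (by positivity)]

/-- the derivative of a quotient -/
private lemma JDet_quot {n : ℕ} {X Z : (Fin n → ℂ) → ℂ} {u : Fin n → ℂ}
    (hX : DifferentiableAt ℂ X u) (hZ : DifferentiableAt ℂ Z u) (h0 : Z u ≠ 0) (v : Fin n → ℂ) :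
    fderiv ℂ (fun u => X u / Z u) u v =
      (fderiv ℂ X u v * Z u - X u * fderiv ℂ Z u v) / Z u ^ 2 := by
  have h1 : DifferentiableAt ℂ (fun u => X u / Z u) u := by
    have := hX.fun_mul (hZ.fun_inv h0)
    simpa only [div_eq_mul_inv] using this
  have h2 : (fun u => (X u / Z u) * Z u) =ᶠ[nhds u] X := by
    filter_upwards [hZ.continuousAt.eventually_ne h0] with y hy
    exact div_mul_cancel₀ _ hy
  have h3 : fderiv ℂ (fun u => (X u / Z u) * Z u) u v = fderiv ℂ X u v := by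
    rw [h2.fderiv_eq]
  rw [fderiv_fun_mul h1 hZ] at h3
  simp only [_root_.add_apply, _root_.smul_apply, smul_eq_mul] at h3
  rw [← h3]
  field_simp
  ring

/-- the determinant -/
private lemma JDet_det {n : ℕ} (a : Fin (n + 1)) (c s : ℂ) (x : Fin (n + 1) → ℂ)
    (D : Fin (n + 1) → Fin n → ℂ) (ha : x a ≠ 0) (M : Matrix (Fin (n + 1)) (Fin (n + 1)) ℂ)
    (h0 : ∀ b, M b 0 = c * x b) (h1 : ∀ b (l : Fin n), M b l.succ = s * D b l) :
    ‖M.det‖ = ‖c‖ * ‖s‖ ^ n * ‖x a‖ ^ (n + 1) *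
      ‖Matrix.det (Matrix.of fun (b l : Fin n) =>
        (D (a.succAbove b) l * x a - x (a.succAbove b) * D a l) / x a ^ 2)‖ := by
  let N : Matrix (Fin (n + 1)) (Fin (n + 1)) ℂ := Matrix.of fun b j =>
    Fin.cases (x b / x a) (fun l => (D b l * x a - x b * D a l) / x a ^ 2) j
  let C : Matrix (Fin (n + 1)) (Fin (n + 1)) ℂ := Matrix.of fun i j =>
    Fin.cases (Fin.cases (c * x a) (fun l => s * D a l) j)
      (fun i' => Fin.cases 0 (fun l => if i' = l then s * x a else 0) j) i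
  have hN0 : ∀ b, N b 0 = x b / x a := fun b => rfl
  have hN1 : ∀ b (l : Fin n), N b l.succ = (D b l * x a - x b * D a l) / x a ^ 2 :=
    fun b l => rfl
  have hC00 : C 0 0 = c * x a := rfl
  have hC01 : ∀ l : Fin n, C 0 l.succ = s * D a l := fun l => rfl
  have hC10 : ∀ i : Fin n, C i.succ 0 = 0 := fun i => rfl
  have hC11 : ∀ i l : Fin n, C i.succ l.succ = if i = l then s * x a else 0 := fun i l => rfl
  have hM : M = N * C := by
    ext b j
    rw [Matrix.mul_apply, Fin.sum_univ_succ]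
    refine Fin.cases ?_ (fun l => ?_) j
    · rw [h0, hN0, hC00]
      simp only [hC10, mul_zero, Finset.sum_const_zero, add_zero]
      field_simp
    · rw [h1, hN0, hC01]
      simp only [hC11, hN1, mul_ite, mul_zero, Finset.sum_ite_eq', Finset.mem_univ, if_true]
      field_simp
      ring
  have hCdet : C.det = c * x a * (s * x a) ^ n := by
    rw [Matrix.det_succ_column_zero, Fin.sum_univ_succ]
    simp only [hC10, mul_zero, zero_mul, Finset.sum_const_zero, add_zero]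
    have h2 : C.submatrix (Fin.succAbove 0) Fin.succ = Matrix.diagonal fun _ : Fin n => s * x a := by
      ext i l
      rw [Matrix.submatrix_apply, Fin.zero_succAbove, hC11, Matrix.diagonal_apply]
    rw [h2, Matrix.det_diagonal, hC00]
    simp
  have hNdet : ‖N.det‖ = ‖Matrix.det (Matrix.of fun (b l : Fin n) =>
        (D (a.succAbove b) l * x a - x (a.succAbove b) * D a l) / x a ^ 2)‖ := by
    have h3 : ∀ l : Fin n, N a l.succ = 0 := by
      intro l
      rw [hN1]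
      ring
    rw [Matrix.det_succ_row N a, Fin.sum_univ_succ]
    simp only [h3, mul_zero, zero_mul, Finset.sum_const_zero, add_zero]
    rw [hN0, div_self ha, norm_mul, norm_mul, norm_pow, norm_neg, norm_one, one_pow, one_mul,
      one_mul]
    congr 2
  rw [hM, Matrix.det_mul, norm_mul, hNdet, hCdet]
  simp only [norm_mul, norm_pow]
  ring

/-- J01b. The map `Θ(p)_b = (t₀ + p_0) ^ d X_b(p_1, …, p_n)` is differentiable, with Jacobian
determinant of absolute value `d |t| ^ (d (n + 1) - 1) |X_a| ^ (n + 1) |det ∂_l (X_b / X_a)|`,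
`t = t₀ + p_0`. (Columns: `∂/∂t` gives `d t ^ (d - 1) X_b`, `∂/∂u_l` gives `t ^ d ∂_l X_b`; with
`X_b = X_a Y_b`, `∂_l X_b = X_a ∂_l Y_b + Y_b ∂_l X_a`: subtract multiples of the first column,
then expand along the row `a`, `Y_a = 1`.) -/
theorem exists_jac {n d : ℕ} (hd : 1 ≤ d) (X : Fin (n + 1) → (Fin n → ℂ) → ℂ) (a : Fin (n + 1))
    (t₀ : ℂ) (p : Fin (n + 1) → ℂ) (hX : ∀ b, DifferentiableAt ℂ (X b) (fun l => p l.succ))
    (ha : X a (fun l => p l.succ) ≠ 0) :
    ∃ f : (Fin (n + 1) → ℂ) →L[ℂ] (Fin (n + 1) → ℂ),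
      HasFDerivAt (fun q : Fin (n + 1) → ℂ => fun b : Fin (n + 1) =>
        (t₀ + q 0) ^ d * X b (fun l => q l.succ)) f p ∧
      ‖Matrix.det (Matrix.of fun i j => f (Pi.single j 1) i)‖ =
        d * ‖t₀ + p 0‖ ^ (d * (n + 1) - 1) * ‖X a (fun l => p l.succ)‖ ^ (n + 1) *
          ‖Matrix.det (Matrix.of fun (b l : Fin n) =>
            fderiv ℂ (fun u : Fin n → ℂ => X (a.succAbove b) u / X a u) (fun l => p l.succ)
              (Pi.single l 1))‖ := by
  let π : (Fin (n + 1) → ℂ) →L[ℂ] (Fin n → ℂ) :=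
    ContinuousLinearMap.pi fun l => ContinuousLinearMap.proj l.succ
  set u : Fin n → ℂ := fun l => p l.succ with hu
  have hπ : HasFDerivAt (fun q : Fin (n + 1) → ℂ => fun l : Fin n => q l.succ) π p :=
    π.hasFDerivAt
  have hpow : HasFDerivAt (fun q : Fin (n + 1) → ℂ => (t₀ + q 0) ^ d)
      (((d : ℂ) * (t₀ + p 0) ^ (d - 1)) •
        (ContinuousLinearMap.proj 0 : (Fin (n + 1) → ℂ) →L[ℂ] ℂ)) p := by
    have h1 : HasFDerivAt (fun q : Fin (n + 1) → ℂ => t₀ + q 0)
        (ContinuousLinearMap.proj 0 : (Fin (n + 1) → ℂ) →L[ℂ] ℂ) p :=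
      (ContinuousLinearMap.proj (R := ℂ) (φ := fun _ : Fin (n + 1) => ℂ) 0).hasFDerivAt.const_add t₀
    have h2 : HasDerivAt (fun t : ℂ => t ^ d) ((d : ℂ) * (t₀ + p 0) ^ (d - 1)) (t₀ + p 0) :=
      hasDerivAt_pow d _
    exact h2.comp_hasFDerivAt p h1
  have hXb : ∀ b, HasFDerivAt (fun q : Fin (n + 1) → ℂ => X b (fun l => q l.succ))
      ((fderiv ℂ (X b) u).comp π) p := fun b => (hX b).hasFDerivAt.comp p hπ
  refine ⟨ContinuousLinearMap.pi fun b => (t₀ + p 0) ^ d • (fderiv ℂ (X b) u).comp π +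
    X b u • (((d : ℂ) * (t₀ + p 0) ^ (d - 1)) •
        (ContinuousLinearMap.proj 0 : (Fin (n + 1) → ℂ) →L[ℂ] ℂ)),
    hasFDerivAt_pi.2 fun b => hpow.fun_mul (hXb b), ?_⟩
  have hsingle0 : π (Pi.single 0 1) = 0 := by
    ext l
    simp [π]
  have hsingle : ∀ l : Fin n, π (Pi.single l.succ 1) = Pi.single l 1 := by
    intro l
    ext l'
    simp only [π, ContinuousLinearMap.coe_pi', ContinuousLinearMap.proj_apply]
    rcases eq_or_ne l' l with rfl | h
    · simp
    · rw [Pi.single_eq_of_ne (fun h' => h (Fin.succ_injective n h')), Pi.single_eq_of_ne h]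
  rw [JDet_det a ((d : ℂ) * (t₀ + p 0) ^ (d - 1)) ((t₀ + p 0) ^ d) (fun b => X b u)
    (fun b l => fderiv ℂ (X b) u (Pi.single l 1)) ha _ ?_ ?_]
  · have h3 : ∀ (b l : Fin n), (fderiv ℂ (X (a.succAbove b)) u (Pi.single l 1) * X a u -
        X (a.succAbove b) u * fderiv ℂ (X a) u (Pi.single l 1)) / X a u ^ 2 =
        fderiv ℂ (fun u : Fin n → ℂ => X (a.succAbove b) u / X a u) u (Pi.single l 1) :=
      fun b l => (JDet_quot (hX _) (hX a) ha _).symm
    simp only [h3]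
    congr 2
    rw [norm_mul, Complex.norm_natCast, norm_pow, norm_pow, mul_assoc, ← pow_mul, ← pow_add]
    congr 2
    rw [Nat.mul_succ]
    omega
  · intro b
    simp only [Matrix.of_apply, ContinuousLinearMap.coe_pi', _root_.add_apply,
      _root_.smul_apply, ContinuousLinearMap.comp_apply, hsingle0, map_zero, smul_zero, zero_add,
      ContinuousLinearMap.proj_apply, Pi.single_eq_same, smul_eq_mul, mul_one]
    ring
  · intro b l
    simp only [Matrix.of_apply, ContinuousLinearMap.coe_pi', _root_.add_apply,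
      _root_.smul_apply, ContinuousLinearMap.comp_apply, hsingle, ContinuousLinearMap.proj_apply,
      smul_eq_mul]
    rw [Pi.single_eq_of_ne (Fin.succ_ne_zero l).symm]
    ring

/-- J01c. `t ↦ t ^ d` is injective on a small disc. -/
theorem pow_inj_on_disc (d : ℕ) (hd : 1 ≤ d) (t₀ : ℝ) (ht₀ : 0 < t₀) :
    ∃ δ : ℝ, 0 < δ ∧ δ < t₀ ∧ ∀ t t' : ℂ, ‖t - t₀‖ < δ → ‖t' - t₀‖ < δ → t ^ d = t' ^ d →
      t = t' := by
  have h1 : HasStrictDerivAt (fun t : ℂ => t ^ d) ((d : ℂ) * (t₀ : ℂ) ^ (d - 1)) (t₀ : ℂ) :=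
    hasStrictDerivAt_pow d _
  have h2 : (d : ℂ) * (t₀ : ℂ) ^ (d - 1) ≠ 0 :=
    mul_ne_zero (Nat.cast_ne_zero.2 (by omega)) (pow_ne_zero _ (by exact_mod_cast ht₀.ne'))
  have h3 := h1.hasStrictFDerivAt_equiv h2
  have h4 : (h3.toOpenPartialHomeomorph (fun t : ℂ => t ^ d)).source ∈ nhds (t₀ : ℂ) :=
    (h3.toOpenPartialHomeomorph (fun t : ℂ => t ^ d)).open_source.mem_nhds
      h3.mem_toOpenPartialHomeomorph_source
  obtain ⟨ε, hε, hb⟩ := Metric.mem_nhds_iff.1 h4
  refine ⟨min ε (t₀ / 2), lt_min hε (by linarith), (min_le_right _ _).trans_lt (by linarith),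
    fun t t' ht ht' he => ?_⟩
  have h5 : t ∈ (h3.toOpenPartialHomeomorph (fun t : ℂ => t ^ d)).source :=
    hb (by rw [Metric.mem_ball, dist_eq_norm]; exact ht.trans_le (min_le_left _ _))
  have h6 : t' ∈ (h3.toOpenPartialHomeomorph (fun t : ℂ => t ^ d)).source :=
    hb (by rw [Metric.mem_ball, dist_eq_norm]; exact ht'.trans_le (min_le_left _ _))
  exact (h3.toOpenPartialHomeomorph (fun t : ℂ => t ^ d)).injOn h5 h6 he

end Pool.Agent.Lib_KF
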