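import Pool.Agent.Lib_KF.KCCoef

/-!
# KC15: the roots of the minimal equation over a point are the values on the fibre
-/

open scoped ENNReal NNReal

namespace Pool.Agent.Lib_KF

open Pool.Agent.Lib_GD

open Polynomial in
private theorem kcroots_core {A R : Type} [CommRing A] [IsDomain A] [IsIntegrallyClosed A]
    [CommRing R] [IsDomain R] [Algebra A R] [Algebra.IsIntegral A R]
    (hinj : Function.Injective (algebraMap A R)) (U V w : R) (hV : V ≠ 0) (a z : A)
    (ha : algebraMap A R a = (U - algebraMap A R z * V) * w) (ha0 : a ≠ 0)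
    (μ : Polynomial A) (hirr : Irreducible (μ.map (algebraMap A (FractionRing A))))
    (heq : ∑ i ∈ Finset.range (μ.natDegree + 1),
      algebraMap A R (μ.coeff i) * U ^ i * V ^ (μ.natDegree - i) = 0) :
    ∃ b : A, μ.leadingCoeff * a ^ μ.natDegree = μ.eval z * b := by
  classical
  have : FaithfulSMul A R := (faithfulSMul_iff_algebraMap_injective A R).2 hinj
  let K := FractionRing A
  let L := FractionRing R
  have hRL : Function.Injective (algebraMap R L) := IsFractionRing.injective R L
  have hAL : Function.Injective (algebraMap A L) := by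
    rw [IsScalarTower.algebraMap_eq A R L]
    exact hRL.comp hinj
  have : FaithfulSMul A L := (faithfulSMul_iff_algebraMap_injective A L).2 hAL
  let _ : Algebra K L := FractionRing.liftAlgebra A L
  have : IsScalarTower A K L := FractionRing.isScalarTower_liftAlgebra A L
  have hAK : Function.Injective (algebraMap A K) := IsFractionRing.injective A K
  set m := μ.natDegree with hm
  set v : L := algebraMap R L V with hv
  have hv0 : v ≠ 0 := by
    rw [hv]
    exact (map_ne_zero_iff _ hRL).2 hV
  set Z : L := algebraMap R L U / v with hZ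
  set ζ : L := algebraMap A L z with hζ
  set s : R := V * w with hs
  have hAR : ∀ c : A, algebraMap A L c = algebraMap R L (algebraMap A R c) := fun c =>
    IsScalarTower.algebraMap_apply A R L c
  have hZv : Z * v = algebraMap R L U := by rw [hZ, div_mul_cancel₀ _ hv0]
  -- `(Z - ζ) s = a`
  have hZs : (Z - ζ) * algebraMap R L s = algebraMap A L a := by
    rw [hAR a, ha, hs, map_mul, map_mul, map_sub, map_mul, ← hv, ← hAR, ← hζ, ← hZv]
    ring
  have haL : algebraMap A L a ≠ 0 := (map_ne_zero_iff _ hAL).2 ha0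
  have hsL : algebraMap R L s ≠ 0 := by
    intro h
    rw [h, mul_zero] at hZs
    exact haL hZs.symm
  have hZζ : Z - ζ ≠ 0 := by
    intro h
    rw [h, zero_mul] at hZs
    exact haL hZs.symm
  -- `Z` is a root
  have hZroot : aeval Z μ = 0 := by
    have h1 : v ^ m * aeval Z μ = 0 := by
      rw [aeval_eq_sum_range, Finset.mul_sum, ← map_zero (algebraMap R L), ← heq, map_sum]
      refine Finset.sum_congr rfl fun i hi => ?_
      rw [Finset.mem_range] at hi
      rw [map_mul, map_mul, map_pow, map_pow, ← hAR, ← hv, ← hZv, Algebra.smul_def]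
      have h2 : v ^ m = v ^ i * v ^ (m - i) := by rw [← pow_add]; congr 1; omega
      rw [h2, mul_pow]
      ring
    exact (mul_eq_zero.1 h1).resolve_left (pow_ne_zero _ hv0)
  have hZrootK : aeval Z (μ.map (algebraMap A K)) = 0 := by
    rw [aeval_map_algebraMap]
    exact hZroot
  have hdegZ : (minpoly K Z).natDegree = m := by
    rw [← minpoly.eq_of_irreducible hirr hZrootK, natDegree_mul_C, natDegree_map_eq_of_injective hAK]
    exact inv_ne_zero (leadingCoeff_ne_zero.2 hirr.ne_zero)
  have hint : IsIntegral A s := Algebra.IsIntegral.isIntegral s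
  have hZint : IsIntegral K Z :=
    (IsAlgebraic.isIntegral ⟨_, hirr.ne_zero, hZrootK⟩)
  have hsint : IsIntegral K (algebraMap R L s) := by
    have h1 : IsIntegral A (algebraMap R L s) := hint.map (IsScalarTower.toAlgHom A R L)
    exact h1.tower_top
  have hadj : IntermediateField.adjoin K {algebraMap R L s} = IntermediateField.adjoin K {Z} := by
    have hζm : ∀ F : IntermediateField K L, ∀ c : A, algebraMap A L c ∈ F := by
      intro F c
      rw [IsScalarTower.algebraMap_apply A K L]
      exact F.algebraMap_mem _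
    apply le_antisymm
    · rw [IntermediateField.adjoin_simple_le_iff]
      have h1 : algebraMap R L s = algebraMap A L a / (Z - ζ) := by
        rw [← hZs, mul_div_cancel_left₀ _ hZζ]
      rw [h1]
      exact div_mem (hζm _ _) (sub_mem (IntermediateField.mem_adjoin_simple_self K Z) (hζm _ _))
    · rw [IntermediateField.adjoin_simple_le_iff]
      have h1 : Z = ζ + algebraMap A L a / algebraMap R L s := by
        rw [← hZs, mul_div_cancel_right₀ _ hsL]
        ring
      rw [h1]
      exact add_mem (hζm _ _) (div_mem (hζm _ _)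
        (IntermediateField.mem_adjoin_simple_self K (algebraMap R L s)))
  have hdegs : (minpoly K (algebraMap R L s)).natDegree = m := by
    rw [← IntermediateField.adjoin.finrank hsint, hadj, IntermediateField.adjoin.finrank hZint, hdegZ]
  set M := minpoly A s with hM
  have hMm : M.Monic := minpoly.monic hint
  have hMdeg : M.natDegree = m := by
    rw [minpoly.isIntegrallyClosed_eq_field_fractions K L hint,
      natDegree_map_eq_of_injective hAK] at hdegs
    exact hdegs
  -- the transformed polynomial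
  set c : ℕ → A := fun j => (taylor z μ).coeff j with hc
  set P : Polynomial A := ∑ j ∈ Finset.range (m + 1), C (c j * a ^ j) * X ^ (m - j) with hP
  have hPs : aeval s P = 0 := by
    apply hRL
    rw [map_zero, hP, map_sum, map_sum]
    have h1 : ∀ j ∈ Finset.range (m + 1), algebraMap R L (aeval s (C (c j * a ^ j) * X ^ (m - j))) =
        algebraMap R L s ^ m * (algebraMap A L (c j) * (Z - ζ) ^ j) := by
      intro j hj
      rw [Finset.mem_range] at hj
      rw [map_mul, aeval_C, map_pow, aeval_X, map_mul, map_pow, ← hAR, map_mul, map_pow, ← hZs, mul_pow]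
      have h2 : algebraMap R L s ^ m = algebraMap R L s ^ j * algebraMap R L s ^ (m - j) := by
        rw [← pow_add]; congr 1; omega
      rw [h2]
      ring
    rw [Finset.sum_congr rfl h1, ← Finset.mul_sum]
    have h3 : ∑ j ∈ Finset.range (m + 1), algebraMap A L (c j) * (Z - ζ) ^ j = aeval (Z - ζ) (taylor z μ) := by
      rw [aeval_eq_sum_range' (n := m + 1) (by rw [natDegree_taylor]; omega)]
      refine Finset.sum_congr rfl fun j _ => ?_
      rw [Algebra.smul_def]
    rw [h3, taylor_apply, aeval_comp]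
    have h4 : aeval (Z - ζ) (X + C z : Polynomial A) = Z := by
      rw [map_add, aeval_X, aeval_C, ← hζ]
      ring
    rw [h4, hZroot, mul_zero]
  have hPm : P.coeff m = μ.eval z := by
    rw [hP, finsetSum_coeff, Finset.sum_eq_single 0]
    · rw [coeff_C_mul, coeff_X_pow, if_pos (by omega), mul_one, pow_zero, mul_one, hc]
      exact taylor_coeff_zero _ _
    · intro j hj hj0
      rw [Finset.mem_range] at hj
      rw [coeff_C_mul, coeff_X_pow, if_neg (by omega), mul_zero]
    · intro h
      exact absurd (Finset.mem_range.2 (Nat.succ_pos m)) h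
  have hP0 : P.coeff 0 = μ.leadingCoeff * a ^ m := by
    rw [hP, finsetSum_coeff, Finset.sum_eq_single m]
    · rw [coeff_C_mul, coeff_X_pow, if_pos (by omega), mul_one]
      rw [show c m = μ.leadingCoeff from coeff_taylor_natDegree _ _]
    · intro j hj hj0
      rw [Finset.mem_range] at hj
      rw [coeff_C_mul, coeff_X_pow, if_neg (by omega), mul_zero]
    · intro h
      exact absurd (Finset.mem_range.2 (Nat.lt_succ_self m)) h
  have hPd : P.natDegree ≤ m := by
    rw [hP]
    refine natDegree_sum_le_of_forall_le _ _ fun j _ => ?_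
    exact (natDegree_C_mul_X_pow_le _ _).trans (Nat.sub_le _ _)
  obtain ⟨Q, hQ⟩ := minpoly.isIntegrallyClosed_dvd hint hPs
  rw [← hM] at hQ
  rcases eq_or_ne Q 0 with hQ0 | hQ0
  · refine ⟨0, ?_⟩
    rw [← hP0, hQ, hQ0, mul_zero, coeff_zero, mul_zero]
  · have h1 : P.natDegree = m + Q.natDegree := by
      rw [hQ, hMm.natDegree_mul' hQ0, hMdeg]
    have h2 : Q.natDegree = 0 := by omega
    obtain ⟨q0, hq0⟩ := natDegree_eq_zero.1 h2
    have h3 : P = M * C q0 := by rw [hQ, hq0]
    have h4 : μ.eval z = q0 := by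
      rw [← hPm, h3, coeff_mul_C]
      have : M.coeff m = 1 := by rw [← hMdeg]; exact hMm
      rw [this, one_mul]
    refine ⟨M.coeff 0, ?_⟩
    rw [← hP0, h3, coeff_mul_C, h4, mul_comm]

private theorem kcroots_lying {R : Type} [CommRing R] [IsDomain R] [Algebra ℂ R] {n : ℕ}
    {x : Fin (n + 1) → R} (hx : AlgebraicIndependent ℂ x)
    (hfin : Module.Finite (Algebra.adjoin ℂ (Set.range x)) R)
    (y : Fin (n + 1) → ℂ) (W : R)
    (hW : ∀ (a : MvPolynomial (Fin (n + 1)) ℂ) (w : R), MvPolynomial.aeval x a = W * w →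
      MvPolynomial.eval y a = 0) : ∃ ν ∈ fib x y, ν W = 0 := by
  classical
  have := hfin
  have : Algebra.IsIntegral (Algebra.adjoin ℂ (Set.range x)) R := Algebra.IsIntegral.of_finite _ _
  set φ : Algebra.adjoin ℂ (Set.range x) →ₐ[ℂ] ℂ :=
    (MvPolynomial.aeval y).comp (hx.aevalEquiv.symm : _ →ₐ[ℂ] _) with hφ
  have hφs : Function.Surjective φ := fun c => ⟨algebraMap ℂ _ c, by rw [AlgHom.commutes]; rfl⟩
  have hmax : (RingHom.ker φ).IsMaximal := RingHom.ker_isMaximal_of_surjective φ hφs
  have hφp : ∀ p : MvPolynomial (Fin (n + 1)) ℂ, φ (hx.aevalEquiv p) = MvPolynomial.eval y p := by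
    intro p
    rw [hφ]
    simp [MvPolynomial.aeval_eq_eval]
  obtain ⟨Q, hQW, hQp, hQc⟩ := Ideal.exists_ideal_over_prime_of_isIntegral (S := R)
    (RingHom.ker φ) (Ideal.span {W}) (by
      intro a ha
      rw [Ideal.mem_comap, Ideal.mem_span_singleton] at ha
      obtain ⟨w, hw⟩ := ha
      obtain ⟨p, rfl⟩ := hx.aevalEquiv.surjective a
      rw [hx.algebraMap_aevalEquiv] at hw
      rw [RingHom.mem_ker]
      rw [hφp]
      exact hW p w hw)
  have hQ : Q.IsMaximal := Ideal.isMaximal_of_isIntegral_of_isMaximal_comap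
    (R := Algebra.adjoin ℂ (Set.range x)) Q (by rw [hQc]; exact hmax)
  have hmem : ∀ p : MvPolynomial (Fin (n + 1)) ℂ,
      MvPolynomial.aeval x p - algebraMap ℂ R (MvPolynomial.eval y p) ∈ Q := by
    intro p
    have h1 : hx.aevalEquiv (p - MvPolynomial.C (MvPolynomial.eval y p)) ∈ RingHom.ker φ := by
      change φ (hx.aevalEquiv (p - MvPolynomial.C (MvPolynomial.eval y p))) = 0
      rw [hφp]
      simp
    rw [← hQc, Ideal.mem_comap] at h1
    have h2 : algebraMap (Algebra.adjoin ℂ (Set.range x)) R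
        (hx.aevalEquiv (p - MvPolynomial.C (MvPolynomial.eval y p))) =
        MvPolynomial.aeval x p - algebraMap ℂ R (MvPolynomial.eval y p) := by
      rw [hx.algebraMap_aevalEquiv]
      simp
    rwa [h2] at h1
  let : Field (R ⧸ Q) := Ideal.Quotient.field Q
  have : Algebra.IsIntegral ℂ (R ⧸ Q) := by
    refine ⟨fun k => ?_⟩
    obtain ⟨f, rfl⟩ := Ideal.Quotient.mk_surjective k
    obtain ⟨D, c, hD, hf⟩ := kc_integral hfin f
    refine ⟨Polynomial.X ^ D -
      ∑ i : Fin D, Polynomial.C (MvPolynomial.eval y (c i)) * Polynomial.X ^ (i : ℕ), ?_, ?_⟩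
    · refine Polynomial.monic_X_pow_sub ?_
      refine (Polynomial.degree_sum_le _ _).trans_lt ?_
      rw [Finset.sup_lt_iff (by exact WithBot.bot_lt_coe D)]
      intro i _
      refine (Polynomial.degree_C_mul_X_pow_le _ _).trans_lt ?_
      exact_mod_cast i.2
    · rw [Polynomial.eval₂_sub, Polynomial.eval₂_pow, Polynomial.eval₂_X,
        Polynomial.eval₂_finsetSum, ← map_pow, hf, map_sum, sub_eq_zero]
      refine Finset.sum_congr rfl fun i _ => ?_
      rw [map_mul, map_pow, Polynomial.eval₂_mul, Polynomial.eval₂_C, Polynomial.eval₂_pow,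
        Polynomial.eval₂_X]
      congr 1
      exact Ideal.Quotient.eq.2 (hmem (c i))
  have hbij := IsAlgClosed.algebraMap_bijective_of_isIntegral (k := ℂ) (K := R ⧸ Q)
  set E : ℂ ≃ₐ[ℂ] (R ⧸ Q) := AlgEquiv.ofBijective (Algebra.ofId ℂ (R ⧸ Q)) hbij with hE
  refine ⟨(E.symm : (R ⧸ Q) →ₐ[ℂ] ℂ).comp (Ideal.Quotient.mkₐ ℂ Q), fun b => ?_, ?_⟩
  · have h1 : Ideal.Quotient.mkₐ ℂ Q (x b) = E (y b) := by
      have h2 := hmem (MvPolynomial.X b)
      rw [MvPolynomial.aeval_X, MvPolynomial.eval_X] at h2
      exact Ideal.Quotient.eq.2 h2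
    rw [AlgHom.comp_apply, h1]
    exact E.symm_apply_apply (y b)
  · have h1 : Ideal.Quotient.mkₐ ℂ Q W = 0 :=
      Ideal.Quotient.eq_zero_iff_mem.2 (hQW (Ideal.mem_span_singleton_self W))
    rw [AlgHom.comp_apply, h1, map_zero]

/-- Let `V V' = aeval x q_V` (`kc_norm`), `q = q_V * μ.leadingCoeff`. If `q (y) ≠ 0` and `z` is a root of
`μ_y` then `ℂ[x]_q [T] / (μ) ≅ ℂ[x]_q [U / V] ⊆ R_q` (`μ` has a unit leading coefficient in
`ℂ[x]_q` and is irreducible over `ℂ(x)`, division with remainder) and the homomorphism `x ↦ y`, `T ↦ z` to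
`ℂ` extends to `R_q` (integral extension, lying over, `ℂ` algebraically closed). -/
theorem kc_roots {R : Type} [CommRing R] [IsDomain R] [Algebra ℂ R] {n : ℕ}
    {x : Fin (n + 1) → R} (hx : AlgebraicIndependent ℂ x)
    (hfin : Module.Finite (Algebra.adjoin ℂ (Set.range x)) R)
    (U V : R) (hV : V ≠ 0) (μ : Polynomial (MvPolynomial (Fin (n + 1)) ℂ))
    (hμ : IsMinEq x U V μ) :
    ∃ q : MvPolynomial (Fin (n + 1)) ℂ, q ≠ 0 ∧ ∀ y, MvPolynomial.eval y q ≠ 0 →
      MvPolynomial.eval y μ.leadingCoeff ≠ 0 ∧ (∀ ν ∈ fib x y, ν V ≠ 0) ∧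
      ∀ z : ℂ, (μ.map (MvPolynomial.eval y)).IsRoot z → ∃ ν ∈ fib x y, ν U = z * ν V := by
  classical
  obtain ⟨qV, hqV, hqV'⟩ := fib_ne hfin V hV
  have hμ0 : μ ≠ 0 := by
    rintro rfl
    exact hμ.irr.ne_zero (Polynomial.map_zero _)
  refine ⟨qV * μ.leadingCoeff, mul_ne_zero hqV (Polynomial.leadingCoeff_ne_zero.2 hμ0), ?_⟩
  intro y hy
  rw [map_mul] at hy
  have hy1 := left_ne_zero_of_mul hy
  have hy2 := right_ne_zero_of_mul hy
  refine ⟨hy2, hqV' y hy1, fun z hz => ?_⟩
  by_contra hcon
  push Not at hcon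
  -- an element of `ℂ[x]` in `(U - z V)` which does not vanish at `y`
  have h1 : ∃ (a : MvPolynomial (Fin (n + 1)) ℂ) (w : R),
      MvPolynomial.aeval x a = (U - algebraMap ℂ R z * V) * w ∧ MvPolynomial.eval y a ≠ 0 := by
    by_contra h2
    push Not at h2
    obtain ⟨ν, hν, hν0⟩ := kcroots_lying hx hfin y (U - algebraMap ℂ R z * V) h2
    refine hcon ν hν ?_
    rw [map_sub, map_mul, AlgHom.commutes, Algebra.algebraMap_self, RingHom.id_apply, sub_eq_zero] at hν0
    exact hν0
  obtain ⟨a, w, haw, hay⟩ := h1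
  let _ : Algebra (MvPolynomial (Fin (n + 1)) ℂ) R := (MvPolynomial.aeval x).toRingHom.toAlgebra
  have hmap : ∀ p, algebraMap (MvPolynomial (Fin (n + 1)) ℂ) R p = MvPolynomial.aeval x p := fun _ => rfl
  have hinj : Function.Injective (algebraMap (MvPolynomial (Fin (n + 1)) ℂ) R) := hx
  have : Algebra.IsIntegral (MvPolynomial (Fin (n + 1)) ℂ) R := by
    refine ⟨fun f => ?_⟩
    obtain ⟨D, c, hD, hf⟩ := kc_integral hfin f
    refine ⟨Polynomial.X ^ D -
      ∑ i : Fin D, Polynomial.C (c i) * Polynomial.X ^ (i : ℕ), ?_, ?_⟩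
    · refine Polynomial.monic_X_pow_sub ?_
      refine (Polynomial.degree_sum_le _ _).trans_lt ?_
      rw [Finset.sup_lt_iff (by exact WithBot.bot_lt_coe D)]
      intro i _
      refine (Polynomial.degree_C_mul_X_pow_le _ _).trans_lt ?_
      exact_mod_cast i.2
    · rw [Polynomial.eval₂_sub, Polynomial.eval₂_pow, Polynomial.eval₂_X,
        Polynomial.eval₂_finsetSum, hf, sub_eq_zero]
      refine Finset.sum_congr rfl fun i _ => ?_
      rw [Polynomial.eval₂_mul, Polynomial.eval₂_C, Polynomial.eval₂_pow, Polynomial.eval₂_X]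
      rfl
  have ha0 : a ≠ 0 := by
    rintro rfl
    exact hay (map_zero _)
  obtain ⟨b, hb⟩ := kcroots_core hinj U V w hV a (MvPolynomial.C z) (by
    rw [hmap, hmap, haw, MvPolynomial.algHom_C]) ha0 μ hμ.irr hμ.eq
  have hev : MvPolynomial.eval y (μ.eval (MvPolynomial.C z)) = 0 := by
    have h3 : (μ.map (MvPolynomial.eval y)).eval z = 0 := hz
    rw [Polynomial.eval_map] at h3
    rw [← Polynomial.eval₂_id, Polynomial.hom_eval₂]
    simpa using h3
  have h4 := congrArg (MvPolynomial.eval y) hb
  rw [map_mul, map_pow, map_mul, hev, zero_mul] at h4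
  rcases mul_eq_zero.1 h4 with h5 | h5
  · exact hy2 h5
  · exact pow_ne_zero _ hay h5

end Pool.Agent.Lib_KF
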