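import Pool.Agent.Lib_KF.KCCoefA
import Pool.Agent.Lib_KF.KCRoots

/-!
# KC16: lower bound for the largest value on the fibre
-/

open scoped ENNReal NNReal

namespace Pool.Agent.Lib_KF

open Pool.Agent.Lib_GD

/-- From `kc_coef` and `kc_roots`: for generic `y`, `|a / (b h₁ ^ j)| = |c_k (y)| ≤ C max |roots| ^ k` and the roots
are values `ν U / ν V` (`Polynomial.coeff_le_of_roots_le` or Vieta). -/
theorem kc_bound {R : Type} [CommRing R] [IsDomain R] [Algebra ℂ R] {n : ℕ}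
    {x : Fin (n + 1) → R} (hx : AlgebraicIndependent ℂ x)
    (hfin : Module.Finite (Algebra.adjoin ℂ (Set.range x)) R)
    (p : Ideal R) (hp : p.IsPrime)
    (hdom : IsDomain (Localization.AtPrime p))
    (hdvr : IsDiscreteValuationRing (Localization.AtPrime p))
    (h₁ : MvPolynomial (Fin (n + 1)) ℂ) (hirr : Irreducible h₁)
    (hc : p.comap (MvPolynomial.aeval x : MvPolynomial (Fin (n + 1)) ℂ →ₐ[ℂ] R) =
        Ideal.span {h₁})
    (U V : R) (hU : U ≠ 0) (hV : V ≠ 0) (r : ℕ)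
    (hord : IsDiscreteValuationRing.addVal (Localization.AtPrime p)
        (algebraMap R (Localization.AtPrime p) (U * MvPolynomial.aeval x h₁ ^ r)) ≤
      IsDiscreteValuationRing.addVal (Localization.AtPrime p)
        (algebraMap R (Localization.AtPrime p) V)) :
    ∃ (k j : ℕ) (a b q : MvPolynomial (Fin (n + 1)) ℂ) (C : ℝ), 1 ≤ k ∧ r * k ≤ j ∧ 0 < C ∧
      ¬ h₁ ∣ a ∧ ¬ h₁ ∣ b ∧ q ≠ 0 ∧ ∀ y, MvPolynomial.eval y q ≠ 0 →
        ∃ ν ∈ fib x y, ν V ≠ 0 ∧
          ‖MvPolynomial.eval y a‖ ≤ C * (‖MvPolynomial.eval y b‖ * ‖MvPolynomial.eval y h₁‖ ^ j) *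
            (‖ν U‖ / ‖ν V‖) ^ k := by
  obtain ⟨μ, hμ, k, j, a, b, hk1, hkD, hrk, ha, hb, hcoef⟩ :=
    kc_coef hx hfin p hp hdom hdvr h₁ hirr hc U V hU hV r hord
  obtain ⟨q, hq, hroots⟩ := kc_roots hx hfin U V hV μ hμ
  refine ⟨k, j, a, b, q, (μ.natDegree.choose k : ℝ), hk1, hrk, ?_, ha, hb, hq, ?_⟩
  · exact_mod_cast Nat.choose_pos hkD
  intro y hy
  obtain ⟨hlead, hV', hr⟩ := hroots y hy
  set P : Polynomial ℂ := μ.map (MvPolynomial.eval y) with hP
  have hdeg : P.natDegree = μ.natDegree := by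
    rw [hP]
    exact Polynomial.natDegree_map_of_leadingCoeff_ne_zero _ hlead
  have hPlead : P.leadingCoeff = MvPolynomial.eval y μ.leadingCoeff := by
    rw [hP]
    exact Polynomial.leadingCoeff_map_of_leadingCoeff_ne_zero _ hlead
  have hP0 : P ≠ 0 := by
    intro h0
    rw [h0, Polynomial.leadingCoeff_zero] at hPlead
    exact hlead hPlead.symm
  have hdpos : 0 < P.natDegree := by omega
  obtain ⟨z₁, hz₁⟩ := IsAlgClosed.exists_root P (by
    rw [Polynomial.degree_eq_natDegree hP0]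
    exact_mod_cast hdpos.ne')
  obtain ⟨z, hz, hmax⟩ := P.roots.toFinset.exists_max_image (fun z => ‖z‖)
    ⟨z₁, by rw [Multiset.mem_toFinset, Polynomial.mem_roots hP0]; exact hz₁⟩
  rw [Multiset.mem_toFinset, Polynomial.mem_roots hP0] at hz
  obtain ⟨ν, hν, hνU⟩ := hr z hz
  have hνV := hV' ν hν
  refine ⟨ν, hν, hνV, ?_⟩
  have hzn : ‖ν U‖ / ‖ν V‖ = ‖z‖ := by
    rw [hνU, norm_mul]
    exact mul_div_cancel_right₀ _ (norm_ne_zero_iff.mpr hνV)
  rw [hzn]
  -- the Vieta bound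
  have hl0 : P.leadingCoeff ≠ 0 := Polynomial.leadingCoeff_ne_zero.mpr hP0
  set p₁ : Polynomial ℂ := Polynomial.C (P.leadingCoeff)⁻¹ * P with hp₁
  have hmon : p₁.Monic := Polynomial.monic_C_mul_of_mul_leadingCoeff_eq_one (inv_mul_cancel₀ hl0)
  have hdeg1 : p₁.natDegree = μ.natDegree := by
    rw [hp₁, Polynomial.natDegree_C_mul (inv_ne_zero hl0), hdeg]
  have hb1 := Polynomial.coeff_le_of_roots_le (p := p₁) (f := RingHom.id ℂ) (B := ‖z‖)
    (μ.natDegree - k) hmon (IsAlgClosed.splits _) (by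
      intro w hw
      rw [Polynomial.map_id, hp₁, Polynomial.roots_C_mul _ (inv_ne_zero hl0)] at hw
      exact hmax w (by rw [Multiset.mem_toFinset]; exact hw))
  rw [Polynomial.map_id, hdeg1, hp₁, Polynomial.coeff_C_mul, norm_mul, norm_inv,
    Nat.choose_symm hkD, show μ.natDegree - (μ.natDegree - k) = k by omega] at hb1
  have hln : 0 < ‖P.leadingCoeff‖ := norm_pos_iff.mpr hl0
  have hb2 : ‖P.coeff (μ.natDegree - k)‖ ≤ ‖P.leadingCoeff‖ * (‖z‖ ^ k * μ.natDegree.choose k) := by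
    rw [inv_mul_le_iff₀ hln] at hb1
    exact hb1
  have hcoef' := congrArg (MvPolynomial.eval y) hcoef
  simp only [map_mul, map_pow] at hcoef'
  have hc1 : P.coeff (μ.natDegree - k) = MvPolynomial.eval y (μ.coeff (μ.natDegree - k)) := by
    rw [hP, Polynomial.coeff_map]
  rw [← hc1, ← hPlead] at hcoef'
  have hcn := congrArg norm hcoef'
  simp only [norm_mul, norm_pow] at hcn
  have hfin2 : ‖MvPolynomial.eval y a‖ * ‖P.leadingCoeff‖ ≤
      ((μ.natDegree.choose k : ℝ) * (‖MvPolynomial.eval y b‖ * ‖MvPolynomial.eval y h₁‖ ^ j) *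
        ‖z‖ ^ k) * ‖P.leadingCoeff‖ := by
    rw [← hcn]
    calc ‖P.coeff (μ.natDegree - k)‖ * ‖MvPolynomial.eval y b‖ * ‖MvPolynomial.eval y h₁‖ ^ j
        = ‖P.coeff (μ.natDegree - k)‖ * (‖MvPolynomial.eval y b‖ * ‖MvPolynomial.eval y h₁‖ ^ j) := by
          ring
      _ ≤ (‖P.leadingCoeff‖ * (‖z‖ ^ k * μ.natDegree.choose k)) *
          (‖MvPolynomial.eval y b‖ * ‖MvPolynomial.eval y h₁‖ ^ j) := by
          gcongr
      _ = _ := by ring
  exact le_of_mul_le_mul_right hfin2 hln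

end Pool.Agent.Lib_KF
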