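import Pool.Agent.Lib_KF.KCBase

/-!
# KC03: Cauchy integrals depending on parameters are holomorphic
-/

open MeasureTheory
open scoped ENNReal NNReal

namespace Pool.Agent.Lib_KF

/-- A bounded holomorphic function is Lipschitz on a smaller ball (Schwarz lemma on lines). -/
private lemma kccau_lip {E : Type} [NormedAddCommGroup E] [NormedSpace ℂ E] {F : E → ℂ} {z₀ : E}
    {r M : ℝ} (hr : 0 < r) (hM : 0 ≤ M)
    (hd : ∀ z ∈ Metric.ball z₀ (2 * r), DifferentiableAt ℂ F z)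
    (hb : ∀ z ∈ Metric.ball z₀ (2 * r), ‖F z‖ ≤ M)
    {z z' : E} (hz : z ∈ Metric.ball z₀ r) (hz' : z' ∈ Metric.ball z₀ r) :
    ‖F z' - F z‖ ≤ 2 * M / r * ‖z' - z‖ := by
  by_cases h0 : z' = z
  · rw [h0, sub_self, sub_self, norm_zero, norm_zero, mul_zero]
  have hn : 0 < ‖z' - z‖ := norm_pos_iff.2 (sub_ne_zero.2 h0)
  have hsub : Metric.ball z₀ r ⊆ Metric.ball z₀ (2 * r) := Metric.ball_subset_ball (by linarith)
  by_cases hlt : ‖z' - z‖ < r
  · have hR : 1 < r / ‖z' - z‖ := by rw [lt_div_iff₀ hn, one_mul]; exact hlt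
    have hin : ∀ t ∈ Metric.ball (0 : ℂ) (r / ‖z' - z‖),
        z + t • (z' - z) ∈ Metric.ball z₀ (2 * r) := by
      intro t ht
      rw [Metric.mem_ball, dist_zero_right, lt_div_iff₀ hn] at ht
      rw [Metric.mem_ball, dist_eq_norm] at hz ⊢
      calc ‖z + t • (z' - z) - z₀‖ = ‖(z - z₀) + t • (z' - z)‖ := by congr 1; abel
        _ ≤ ‖z - z₀‖ + ‖t • (z' - z)‖ := norm_add_le _ _
        _ < r + r := by rw [norm_smul]; linarith
        _ = 2 * r := by ring
    have hφd : DifferentiableOn ℂ (fun t : ℂ => F (z + t • (z' - z)))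
        (Metric.ball 0 (r / ‖z' - z‖)) := by
      intro t ht
      have h1 : DifferentiableAt ℂ (fun t : ℂ => z + t • (z' - z)) t :=
        (differentiableAt_id.smul_const (z' - z)).const_add z
      exact (DifferentiableAt.comp t (hd _ (hin t ht)) h1).differentiableWithinAt
    have hmaps : Set.MapsTo (fun t : ℂ => F (z + t • (z' - z)))
        (Metric.ball 0 (r / ‖z' - z‖)) (Metric.closedBall (F (z + (0 : ℂ) • (z' - z))) (2 * M)) := by
      intro t ht
      rw [Metric.mem_closedBall, dist_eq_norm]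
      have h1 := hb _ (hin t ht)
      have h2 := hb _ (hin 0 (Metric.mem_ball_self (by positivity)))
      calc _ ≤ ‖F (z + t • (z' - z))‖ + ‖F (z + (0 : ℂ) • (z' - z))‖ := norm_sub_le _ _
        _ ≤ 2 * M := by linarith
    have h1in : (1 : ℂ) ∈ Metric.ball (0 : ℂ) (r / ‖z' - z‖) := by
      rw [Metric.mem_ball, dist_zero_right, norm_one]
      exact hR
    have h1 := Complex.dist_le_div_mul_dist_of_mapsTo_ball hφd hmaps h1in
    rw [dist_zero_right, norm_one, mul_one, dist_eq_norm, one_smul, zero_smul, add_zero,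
      add_sub_cancel] at h1
    refine h1.trans (le_of_eq ?_)
    field_simp
  · rw [not_lt] at hlt
    have h1 := hb z' (hsub hz')
    have h2 := hb z (hsub hz)
    calc ‖F z' - F z‖ ≤ ‖F z'‖ + ‖F z‖ := norm_sub_le _ _
      _ ≤ 2 * M := by linarith
      _ = 2 * M / r * r := by field_simp
      _ ≤ 2 * M / r * ‖z' - z‖ := by gcongr

/-- `(1 / 2 π i) ∮ f (ζ, z) / (ζ - τ) dζ` is holomorphic in `(τ, z)`. -/
theorem kc_cauchy {E : Type} [NormedAddCommGroup E] [NormedSpace ℂ E] [FiniteDimensional ℂ E]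
    {V : Set (ℂ × E)} (hV : IsOpen V) {f : ℂ × E → ℂ} (hf : DifferentiableOn ℂ f V)
    {c : ℂ} {ρ : ℝ} (hρ : 0 < ρ) {B : Set E} (hB : IsOpen B)
    (hsub : Metric.sphere c ρ ×ˢ B ⊆ V) :
    DifferentiableOn ℂ (fun p : ℂ × E =>
      (2 * Real.pi * Complex.I)⁻¹ * ∮ ζ in C(c, ρ), f (ζ, p.2) / (ζ - p.1))
      (Metric.ball c ρ ×ˢ B) := by
  classical
  rintro ⟨τ₀, z₀⟩ ⟨hτ₀, hz₀⟩
  have hτ₀ : τ₀ ∈ Metric.ball c ρ := hτ₀
  have hz₀ : z₀ ∈ B := hz₀
  haveI : ProperSpace E := FiniteDimensional.proper ℂ E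
  obtain ⟨r0, hr0, hr0B⟩ := Metric.isOpen_iff.1 hB z₀ hz₀
  obtain ⟨r, hr, hrr0⟩ : ∃ r : ℝ, 0 < r ∧ 2 * r < r0 := ⟨r0 / 3, by positivity, by linarith⟩
  have hballB : Metric.closedBall z₀ (2 * r) ⊆ B := fun z hz =>
    hr0B (lt_of_le_of_lt (Metric.mem_closedBall.1 hz) hrr0)
  have hK : IsCompact (Metric.sphere c ρ ×ˢ Metric.closedBall z₀ (2 * r)) :=
    (isCompact_sphere c ρ).prod (isCompact_closedBall z₀ (2 * r))
  have hKV : Metric.sphere c ρ ×ˢ Metric.closedBall z₀ (2 * r) ⊆ V := fun p hp =>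
    hsub ⟨hp.1, hballB hp.2⟩
  obtain ⟨M0, hM0⟩ := hK.exists_bound_of_continuousOn (hf.continuousOn.mono hKV)
  obtain ⟨M, hM, hMb⟩ : ∃ M : ℝ, 0 ≤ M ∧ ∀ p ∈ Metric.sphere c ρ ×ˢ Metric.closedBall z₀ (2 * r),
      ‖f p‖ ≤ M := ⟨max M0 0, le_max_right _ _, fun p hp => (hM0 p hp).trans (le_max_left _ _)⟩
  obtain ⟨δ, hδ, hδρ⟩ : ∃ δ : ℝ, 0 < δ ∧ ‖τ₀ - c‖ + 2 * δ = ρ := by
    rw [Metric.mem_ball, dist_eq_norm] at hτ₀
    exact ⟨(ρ - ‖τ₀ - c‖) / 2, by linarith, by ring⟩
  have hsph : ∀ θ, circleMap c ρ θ ∈ Metric.sphere c ρ := fun θ =>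
    circleMap_mem_sphere c hρ.le θ
  let G : ℂ × E → ℝ → ℂ := fun p θ => deriv (circleMap c ρ) θ •
    (f (circleMap c ρ θ, p.2) / (circleMap c ρ θ - p.1))
  -- continuity in the angle
  have hGc : ∀ p ∈ Metric.ball c ρ ×ˢ B, Continuous (G p) := by
    intro p hp
    have h1 : Continuous (fun θ : ℝ => deriv (circleMap c ρ) θ) := by
      simp only [deriv_circleMap]
      exact (continuous_circleMap 0 ρ).mul continuous_const
    have h2 : Continuous (fun θ : ℝ => f (circleMap c ρ θ, p.2)) :=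
      hf.continuousOn.comp_continuous ((continuous_circleMap c ρ).prodMk continuous_const)
        fun θ => hsub ⟨hsph θ, hp.2⟩
    have h3 : Continuous (fun θ : ℝ => circleMap c ρ θ - p.1) :=
      (continuous_circleMap c ρ).sub continuous_const
    exact h1.smul (h2.div h3 fun θ => sub_ne_zero.2 (circleMap_ne_mem_ball hp.1 θ))
  -- differentiability
  have hGd : ∀ θ, DifferentiableAt ℂ (fun p => G p θ) (τ₀, z₀) := by
    intro θ
    have h1 : DifferentiableAt ℂ (fun p : ℂ × E => f (circleMap c ρ θ, p.2)) (τ₀, z₀) := by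
      have h2 : DifferentiableAt ℂ f (circleMap c ρ θ, z₀) :=
        hf.differentiableAt (hV.mem_nhds (hsub ⟨hsph θ, hz₀⟩))
      have h3 : DifferentiableAt ℂ (fun p : ℂ × E => (circleMap c ρ θ, p.2)) (τ₀, z₀) :=
        (differentiableAt_const _).prodMk differentiableAt_snd
      exact DifferentiableAt.comp (τ₀, z₀) (g := f) h2 h3
    have h4 : DifferentiableAt ℂ (fun p : ℂ × E => circleMap c ρ θ - p.1) (τ₀, z₀) :=
      differentiableAt_fst.const_sub _
    have h5 : DifferentiableAt ℂ (fun p : ℂ × E => (circleMap c ρ θ - p.1)⁻¹) (τ₀, z₀) :=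
      h4.inv (sub_ne_zero.2 (circleMap_ne_mem_ball hτ₀ θ))
    have h6 := (h1.mul h5).const_smul (deriv (circleMap c ρ) θ)
    refine h6.congr_of_eventuallyEq (Filter.Eventually.of_forall fun p => ?_)
    simp only [G, div_eq_mul_inv, Pi.smul_apply, Pi.mul_apply]
  let F' : ℝ → (ℂ × E) →L[ℂ] ℂ := fun θ => fderiv ℂ (fun p => G p θ) (τ₀, z₀)
  -- the ball
  have hε : 0 < min r δ := lt_min hr hδ
  have hs : ∀ p ∈ Metric.ball (τ₀, z₀) (min r δ), p.2 ∈ Metric.ball z₀ r ∧
      ‖p.1 - τ₀‖ < δ ∧ p ∈ Metric.ball c ρ ×ˢ B := by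
    intro p hp
    rw [Metric.mem_ball, Prod.dist_eq] at hp
    have h1 : dist p.1 τ₀ < min r δ := (le_max_left _ _).trans_lt hp
    have h2 : dist p.2 z₀ < min r δ := (le_max_right _ _).trans_lt hp
    have h3 : dist p.2 z₀ < r := h2.trans_le (min_le_left _ _)
    have h4 : ‖p.1 - τ₀‖ < δ := by rw [← dist_eq_norm]; exact h1.trans_le (min_le_right _ _)
    refine ⟨h3, h4, ?_, hballB ?_⟩
    · rw [Metric.mem_ball, dist_eq_norm]
      calc ‖p.1 - c‖ = ‖(p.1 - τ₀) + (τ₀ - c)‖ := by congr 1; ring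
        _ ≤ ‖p.1 - τ₀‖ + ‖τ₀ - c‖ := norm_add_le _ _
        _ < ρ := by linarith
    · rw [Metric.mem_closedBall]
      linarith
  have hden : ∀ θ, ∀ p ∈ Metric.ball (τ₀, z₀) (min r δ), δ ≤ ‖circleMap c ρ θ - p.1‖ := by
    intro θ p hp
    obtain ⟨-, h4, -⟩ := hs p hp
    have h5 : ‖circleMap c ρ θ - c‖ = ρ := by
      have := hsph θ
      rwa [Metric.mem_sphere, dist_eq_norm] at this
    have h6 : ‖circleMap c ρ θ - c‖ ≤ ‖circleMap c ρ θ - p.1‖ + ‖p.1 - c‖ := norm_sub_le_norm_sub_add_norm_sub _ _ _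
    have h7 : ‖p.1 - c‖ ≤ ‖p.1 - τ₀‖ + ‖τ₀ - c‖ := norm_sub_le_norm_sub_add_norm_sub _ _ _
    linarith
  -- Lipschitz bound
  have hlip : ∀ θ, LipschitzOnWith (Real.nnabs (ρ * (2 * M / r / δ + M / δ ^ 2)))
      (fun p => G p θ) (Metric.ball (τ₀, z₀) (min r δ)) := by
    intro θ
    refine LipschitzOnWith.of_dist_le_mul fun p hp p' hp' => ?_
    obtain ⟨h1, h2, h3⟩ := hs p hp
    obtain ⟨h1', h2', h3'⟩ := hs p' hp'
    have hC0 : 0 ≤ ρ * (2 * M / r / δ + M / δ ^ 2) := by positivity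
    rw [Real.coe_nnabs, abs_of_nonneg hC0, dist_eq_norm, dist_eq_norm]
    have hγ : ‖deriv (circleMap c ρ) θ‖ = ρ := by
      rw [deriv_circleMap, norm_mul, norm_circleMap_zero, Complex.norm_I, mul_one,
        abs_of_pos hρ]
    have hd1 := hden θ p hp
    have hd2 := hden θ p' hp'
    have hn1 : circleMap c ρ θ - p.1 ≠ 0 := norm_pos_iff.1 (hδ.trans_le hd1)
    have hn2 : circleMap c ρ θ - p'.1 ≠ 0 := norm_pos_iff.1 (hδ.trans_le hd2)
    have hz1 : ‖f (circleMap c ρ θ, p.2) - f (circleMap c ρ θ, p'.2)‖ ≤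
        2 * M / r * ‖p.2 - p'.2‖ := by
      refine kccau_lip (F := fun z => f (circleMap c ρ θ, z)) hr hM ?_ ?_ h1' h1
      · intro z hz
        have h4 : z ∈ B := hballB (Metric.ball_subset_closedBall hz)
        have h5 : DifferentiableAt ℂ f (circleMap c ρ θ, z) :=
          hf.differentiableAt (hV.mem_nhds (hsub ⟨hsph θ, h4⟩))
        exact DifferentiableAt.comp z (g := f) h5
          ((differentiableAt_const _).prodMk differentiableAt_id)
      · intro z hz
        exact hMb _ ⟨hsph θ, Metric.ball_subset_closedBall hz⟩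
    have hz2 : ‖f (circleMap c ρ θ, p'.2)‖ ≤ M :=
      hMb _ ⟨hsph θ, Metric.ball_subset_closedBall (Metric.ball_subset_ball (by linarith) h1')⟩
    have e1 : G p θ - G p' θ = deriv (circleMap c ρ) θ *
        ((f (circleMap c ρ θ, p.2) - f (circleMap c ρ θ, p'.2)) / (circleMap c ρ θ - p.1) +
          f (circleMap c ρ θ, p'.2) * (p.1 - p'.1) /
            ((circleMap c ρ θ - p.1) * (circleMap c ρ θ - p'.1))) := by
      simp only [G, smul_eq_mul]
      field_simp
      ring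
    have hp1 : ‖p.1 - p'.1‖ ≤ ‖p - p'‖ := norm_fst_le (p - p')
    have hp2 : ‖p.2 - p'.2‖ ≤ ‖p - p'‖ := norm_snd_le (p - p')
    rw [e1, norm_mul, hγ, mul_assoc]
    refine mul_le_mul_of_nonneg_left ?_ hρ.le
    refine (norm_add_le _ _).trans ?_
    rw [add_mul]
    refine add_le_add ?_ ?_
    · rw [norm_div]
      calc ‖f (circleMap c ρ θ, p.2) - f (circleMap c ρ θ, p'.2)‖ / ‖circleMap c ρ θ - p.1‖
          ≤ (2 * M / r * ‖p - p'‖) / δ := by
            refine div_le_div₀ (by positivity) (hz1.trans ?_) hδ hd1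
            exact mul_le_mul_of_nonneg_left hp2 (by positivity)
        _ = 2 * M / r / δ * ‖p - p'‖ := by ring
    · rw [norm_div, norm_mul, norm_mul]
      calc ‖f (circleMap c ρ θ, p'.2)‖ * ‖p.1 - p'.1‖ /
            (‖circleMap c ρ θ - p.1‖ * ‖circleMap c ρ θ - p'.1‖)
          ≤ (M * ‖p - p'‖) / (δ * δ) := by
            refine div_le_div₀ (by positivity) (mul_le_mul hz2 hp1 (norm_nonneg _) hM)
              (by positivity) (mul_le_mul hd1 hd2 hδ.le (norm_nonneg _))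
        _ = M / δ ^ 2 * ‖p - p'‖ := by ring
  -- measurability of the derivative
  have hmeas : AEStronglyMeasurable F' (volume.restrict (Set.uIoc 0 (2 * Real.pi))) := by
    have hv : ∀ v : ℂ × E, AEStronglyMeasurable (fun θ => F' θ v)
        (volume.restrict (Set.uIoc 0 (2 * Real.pi))) := by
      intro v
      obtain ⟨N, hN⟩ := exists_nat_gt (‖v‖ / min r δ)
      let cc : ℕ → ℂ := fun n => ((n + N + 1 : ℕ) : ℂ)
      have hccn : ∀ n, ‖cc n‖ = ((n + N + 1 : ℕ) : ℝ) := fun n => by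
        simp only [cc]
        rw [Complex.norm_natCast]
      have hcc : Filter.Tendsto (fun n => ‖cc n‖) Filter.atTop Filter.atTop := by
        simp only [hccn]
        exact tendsto_natCast_atTop_atTop.comp
          ((Filter.tendsto_add_atTop_nat (N + 1)).congr fun n => by ring)
      have hin : ∀ n, (τ₀, z₀) + (cc n)⁻¹ • v ∈ Metric.ball c ρ ×ˢ B := by
        intro n
        refine (hs _ ?_).2.2
        rw [Metric.mem_ball, dist_eq_norm, add_sub_cancel_left, norm_smul, norm_inv, hccn]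
        rw [inv_mul_lt_iff₀ (by positivity)]
        rw [div_lt_iff₀ hε] at hN
        refine hN.trans_le ?_
        refine mul_le_mul_of_nonneg_right ?_ hε.le
        push_cast
        linarith [(Nat.cast_nonneg n : (0 : ℝ) ≤ n)]
      refine aestronglyMeasurable_of_tendsto_ae Filter.atTop
        (f := fun n θ => cc n • (G ((τ₀, z₀) + (cc n)⁻¹ • v) θ - G (τ₀, z₀) θ)) ?_ ?_
      · intro n
        exact (((hGc _ (hin n)).sub (hGc _ ⟨hτ₀, hz₀⟩)).const_smul (cc n)).aestronglyMeasurable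
      · refine Filter.Eventually.of_forall fun θ => ?_
        exact (hGd θ).hasFDerivAt.lim v hcc
    have hsum : F' = fun θ => ∑ i, F' θ (Module.finBasis ℂ (ℂ × E) i) •
        LinearMap.toContinuousLinearMap ((Module.finBasis ℂ (ℂ × E)).coord i) := by
      funext θ
      refine ContinuousLinearMap.ext fun x => ?_
      conv_lhs => rw [← (Module.finBasis ℂ (ℂ × E)).sum_repr x]
      rw [map_sum, _root_.sum_apply]
      refine Finset.sum_congr rfl fun i _ => ?_
      rw [map_smul, smul_eq_mul, _root_.smul_apply, smul_eq_mul, mul_comm]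
      rfl
    rw [hsum]
    refine Finset.aestronglyMeasurable_fun_sum _ fun i _ => ?_
    exact (hv _).smul_const _
  have hfin := (intervalIntegral.hasFDerivAt_integral_of_dominated_loc_of_lip (𝕜 := ℂ)
    (μ := volume) (a := 0) (b := 2 * Real.pi) (F := G) (F' := F') (x₀ := (τ₀, z₀))
    (s := Metric.ball (τ₀, z₀) (min r δ))
    (bound := fun _ => ρ * (2 * M / r / δ + M / δ ^ 2))
    (Metric.ball_mem_nhds _ hε)
    (by
      filter_upwards [Metric.ball_mem_nhds (τ₀, z₀) hε] with p hp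
      exact (hGc p (hs p hp).2.2).aestronglyMeasurable)
    ((hGc _ ⟨hτ₀, hz₀⟩).intervalIntegrable _ _) hmeas
    (Filter.Eventually.of_forall fun θ _ => hlip θ)
    intervalIntegrable_const
    (Filter.Eventually.of_forall fun θ _ => (hGd θ).hasFDerivAt)).2
  exact (hfin.differentiableAt.const_mul _).differentiableWithinAt

end Pool.Agent.Lib_KF
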