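import Pool.Agent.Lib_KF.KCBase

/-!
# KC14, KC15: minimal equations of fractions over `ℂ(x)`
-/

open scoped ENNReal NNReal

namespace Pool.Agent.Lib_KF

open Pool.Agent.Lib_GD

/-- `μ` is a minimal polynomial of `U / V` over `ℂ(x)`, with coefficients in `ℂ[x]`. -/
structure IsMinEq {R : Type} [CommRing R] [Algebra ℂ R] {n : ℕ} (x : Fin (n + 1) → R)
    (U V : R) (μ : Polynomial (MvPolynomial (Fin (n + 1)) ℂ)) : Prop where
  irr : Irreducible (μ.map (algebraMap (MvPolynomial (Fin (n + 1)) ℂ)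
    (FractionRing (MvPolynomial (Fin (n + 1)) ℂ))))
  eq : ∑ i ∈ Finset.range (μ.natDegree + 1),
    MvPolynomial.aeval x (μ.coeff i) * U ^ i * V ^ (μ.natDegree - i) = 0

end Pool.Agent.Lib_KF
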