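import Pool.Agent.Lib_KF.KCCoef

/-!
# KC14: a pole of `U / V` gives a pole of a coefficient of the minimal equation
-/

open scoped ENNReal NNReal

namespace Pool.Agent.Lib_KF

open Pool.Agent.Lib_GD

/-- abstract form of the existence of a minimal equation -/
private theorem KCCoefA_exists_aux {P R L : Type} [CommRing P] [IsDomain P] [CommRing R] [IsDomain R]
    [Algebra P R] [Field L] [Algebra R L] [IsFractionRing R L] [Algebra P L] [IsScalarTower P R L]
    (hinj : Function.Injective (algebraMap P R)) (hint : ∀ f : R, IsIntegral P f) (U V : R)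
    (hV : V ≠ 0) :
    ∃ μ : Polynomial P, Irreducible (μ.map (algebraMap P (FractionRing P))) ∧
      ∑ i ∈ Finset.range (μ.natDegree + 1),
        algebraMap P R (μ.coeff i) * U ^ i * V ^ (μ.natDegree - i) = 0 := by
  classical
  have hmapPL : ∀ f, algebraMap P L f = algebraMap R L (algebraMap P R f) :=
    fun f => IsScalarTower.algebraMap_apply P R L f
  have hinjL : Function.Injective (algebraMap P L) := by
    intro f g hfg
    rw [hmapPL, hmapPL] at hfg
    exact hinj (IsFractionRing.injective R L hfg)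
  have : FaithfulSMul P L := (faithfulSMul_iff_algebraMap_injective _ _).mpr hinjL
  let algKL : Algebra (FractionRing P) L := FractionRing.liftAlgebra P L
  have towerL : IsScalarTower P (FractionRing P) L := FractionRing.isScalarTower_liftAlgebra P L
  -- elements of `R` are integral over `K`
  have hint' : ∀ f : R, IsIntegral (FractionRing P) (algebraMap R L f) := by
    intro f
    have h1 : IsIntegral P (algebraMap R L f) := (hint f).algebraMap
    exact h1.tower_top
  have hVL : algebraMap R L V ≠ 0 := by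
    intro h0
    exact hV (IsFractionRing.injective R L (h0.trans (map_zero _).symm))
  set Z : L := algebraMap R L U * (algebraMap R L V)⁻¹ with hZ
  have hZint : IsIntegral (FractionRing P) Z := (hint' U).mul (hint' V).inv
  set m := minpoly (FractionRing P) Z with hm
  have hmirr : Irreducible m := minpoly.irreducible hZint
  obtain ⟨b, hbm, hb⟩ := IsLocalization.integerNormalization_spec (nonZeroDivisors P) m
  set μ := IsLocalization.integerNormalization (nonZeroDivisors P) m with hμ
  have hbK : algebraMap P (FractionRing P) b ≠ 0 := by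
    intro h0
    exact nonZeroDivisors.ne_zero hbm (IsFractionRing.injective _ _ (h0.trans (map_zero _).symm))
  have hb' : μ.map (algebraMap P (FractionRing P)) =
      Polynomial.C (algebraMap P (FractionRing P) b) * m := by
    rw [hb, ← algebraMap_smul (FractionRing P) b m, Polynomial.smul_eq_C_mul]
  refine ⟨μ, ?_, ?_⟩
  · rw [hb', irreducible_isUnit_mul]
    · exact hmirr
    · exact Polynomial.isUnit_C.mpr (isUnit_iff_ne_zero.mpr hbK)
  · -- the equation
    apply IsFractionRing.injective R L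
    rw [map_sum, map_zero]
    have h1 : Polynomial.aeval Z (μ.map (algebraMap P (FractionRing P))) = 0 := by
      rw [hb', map_mul, minpoly.aeval, mul_zero]
    rw [Polynomial.aeval_map_algebraMap, Polynomial.aeval_eq_sum_range] at h1
    have h2 : ∑ i ∈ Finset.range (μ.natDegree + 1), algebraMap R L
        (algebraMap P R (μ.coeff i) * U ^ i * V ^ (μ.natDegree - i)) =
        (algebraMap R L V) ^ μ.natDegree *
          ∑ i ∈ Finset.range (μ.natDegree + 1), μ.coeff i • Z ^ i := by
      rw [Finset.mul_sum]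
      refine Finset.sum_congr rfl fun i hi => ?_
      rw [Finset.mem_range] at hi
      rw [map_mul, map_mul, map_pow, map_pow, Algebra.smul_def, hmapPL, hZ, mul_pow, inv_pow]
      have h3 : (algebraMap R L V) ^ μ.natDegree =
          (algebraMap R L V) ^ (μ.natDegree - i) * (algebraMap R L V) ^ i := by
        rw [← pow_add]; congr 1; omega
      rw [h3]
      field_simp
    rw [h2, h1, mul_zero]

/-- existence of a minimal equation -/
private theorem KCCoefA_exists {R : Type} [CommRing R] [IsDomain R] [Algebra ℂ R] {n : ℕ}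
    {x : Fin (n + 1) → R} (hx : AlgebraicIndependent ℂ x)
    (hfin : Module.Finite (Algebra.adjoin ℂ (Set.range x)) R)
    (U V : R) (hV : V ≠ 0) :
    ∃ μ : Polynomial (MvPolynomial (Fin (n + 1)) ℂ), IsMinEq x U V μ := by
  have hinj : Function.Injective (MvPolynomial.aeval x : MvPolynomial (Fin (n + 1)) ℂ →ₐ[ℂ] R) := hx
  let algPR : Algebra (MvPolynomial (Fin (n + 1)) ℂ) R :=
    (MvPolynomial.aeval x : MvPolynomial (Fin (n + 1)) ℂ →ₐ[ℂ] R).toRingHom.toAlgebra
  have hmapPR : ∀ f, algebraMap (MvPolynomial (Fin (n + 1)) ℂ) R f = MvPolynomial.aeval x f :=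
    fun f => rfl
  have hint : ∀ f : R, IsIntegral (MvPolynomial (Fin (n + 1)) ℂ) f := by
    intro f
    obtain ⟨D, c, hD, hf⟩ := kc_integral hfin f
    refine ⟨Polynomial.X ^ D - ∑ i : Fin D, Polynomial.C (c i) * Polynomial.X ^ (i : ℕ), ?_, ?_⟩
    · refine Polynomial.monic_X_pow_sub ?_
      refine (Polynomial.degree_sum_le _ _).trans_lt ?_
      refine (Finset.sup_lt_iff (WithBot.bot_lt_coe D)).mpr ?_
      intro i _
      refine (Polynomial.degree_C_mul_X_pow_le _ _).trans_lt ?_
      exact WithBot.coe_lt_coe.mpr i.2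
    · rw [Polynomial.eval₂_sub, Polynomial.eval₂_finsetSum, Polynomial.eval₂_pow,
        Polynomial.eval₂_X, hf, sub_eq_zero]
      refine Finset.sum_congr rfl fun i _ => ?_
      rw [Polynomial.eval₂_mul, Polynomial.eval₂_C, Polynomial.eval₂_pow, Polynomial.eval₂_X,
        hmapPR]
  obtain ⟨μ, h1, h2⟩ := KCCoefA_exists_aux (L := FractionRing R) hinj hint U V hV
  exact ⟨μ, h1, h2⟩

/-- Let `c_k ∈ ℂ(x)` be the coefficients of the monic minimal polynomial of `Z = U / V` over `ℂ(x)`,
of degree `M`. If the order of `c_k` along `h₁` were `> - r k` for all `1 ≤ k ≤ M`, then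
`Z' = h₁ ^ r Z` satisfies `Z' ^ M = - ∑ (h₁ ^ (r k) c_k) Z' ^ (M - k)` with `ord_p Z' ≤ 0` and
`ord_p (h₁ ^ (r k) c_k) ≥ 1`: contradiction. (For `g ∈ ℂ[x]` not divisible by `h₁` the image in `R_p` is a
unit.) Write the bad `c_k = a / (b h₁ ^ j)`. -/
theorem kc_coef {R : Type} [CommRing R] [IsDomain R] [Algebra ℂ R] {n : ℕ}
    {x : Fin (n + 1) → R} (hx : AlgebraicIndependent ℂ x)
    (hfin : Module.Finite (Algebra.adjoin ℂ (Set.range x)) R)
    (p : Ideal R) (hp : p.IsPrime)
    (hdom : IsDomain (Localization.AtPrime p))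
    (hdvr : IsDiscreteValuationRing (Localization.AtPrime p))
    (h₁ : MvPolynomial (Fin (n + 1)) ℂ) (hirr : Irreducible h₁)
    (hc : p.comap (MvPolynomial.aeval x : MvPolynomial (Fin (n + 1)) ℂ →ₐ[ℂ] R) =
        Ideal.span {h₁})
    (U V : R) (hU : U ≠ 0) (hV : V ≠ 0) (r : ℕ)
    (hord : IsDiscreteValuationRing.addVal (Localization.AtPrime p)
        (algebraMap R (Localization.AtPrime p) (U * MvPolynomial.aeval x h₁ ^ r)) ≤
      IsDiscreteValuationRing.addVal (Localization.AtPrime p)
        (algebraMap R (Localization.AtPrime p) V)) :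
    ∃ μ : Polynomial (MvPolynomial (Fin (n + 1)) ℂ), IsMinEq x U V μ ∧
      ∃ (k j : ℕ) (a b : MvPolynomial (Fin (n + 1)) ℂ), 1 ≤ k ∧ k ≤ μ.natDegree ∧ r * k ≤ j ∧
        ¬ h₁ ∣ a ∧ ¬ h₁ ∣ b ∧
        μ.coeff (μ.natDegree - k) * b * h₁ ^ j = a * μ.leadingCoeff := by
  classical
  have hinj : Function.Injective (MvPolynomial.aeval x : MvPolynomial (Fin (n + 1)) ℂ →ₐ[ℂ] R) := hx
  obtain ⟨μ, hμ⟩ := KCCoefA_exists hx hfin U V hV
  refine ⟨μ, hμ, ?_⟩
  have hμ0 : μ ≠ 0 := by
    intro h0
    have h1 := hμ.irr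
    rw [h0, Polynomial.map_zero] at h1
    exact not_irreducible_zero h1
  have hd0 : μ.leadingCoeff ≠ 0 := Polynomial.leadingCoeff_ne_zero.mpr hμ0
  obtain ⟨β, d', hd', hd⟩ := WfDvdMonoid.max_power_factor hd0 hirr
  -- the localisation
  set O := Localization.AtPrime p with hO
  set ι : MvPolynomial (Fin (n + 1)) ℂ →+* O :=
    (algebraMap R O).comp (MvPolynomial.aeval x : MvPolynomial (Fin (n + 1)) ℂ →ₐ[ℂ] R).toRingHom
    with hι
  have hιa : ∀ f, ι f = algebraMap R O (MvPolynomial.aeval x f) := fun f => rfl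
  have hRO : Function.Injective (algebraMap R O) :=
    IsLocalization.injective O p.primeCompl_le_nonZeroDivisors
  have hmemc : ∀ f : MvPolynomial (Fin (n + 1)) ℂ, MvPolynomial.aeval x f ∈ p ↔ h₁ ∣ f := by
    intro f
    rw [← Ideal.mem_span_singleton, ← hc, Ideal.mem_comap]
  have hunit : ∀ f : MvPolynomial (Fin (n + 1)) ℂ, ¬ h₁ ∣ f → IsUnit (ι f) := by
    intro f hf
    rw [hιa]
    exact (IsLocalization.AtPrime.isUnit_to_map_iff O p _).mpr (fun h => hf ((hmemc f).mp h))
  have hnunit : ¬ IsUnit (ι h₁) := by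
    rw [hιa]
    intro h
    have h2 := (IsLocalization.AtPrime.isUnit_to_map_iff O p _).mp h
    exact h2 ((hmemc h₁).mpr dvd_rfl)
  have hh1 : MvPolynomial.aeval x h₁ ≠ 0 := by
    intro h0
    exact hirr.ne_zero (hinj (h0.trans (map_zero _).symm))
  have hh1' : ι h₁ ≠ 0 := by
    rw [hιa]
    intro h0
    exact hh1 (hRO (h0.trans (map_zero _).symm))
  set D := μ.natDegree with hD
  -- the equation in `O`
  obtain ⟨W, hW⟩ := IsDiscreteValuationRing.addVal_le_iff_dvd.mp hord
  set Y : O := algebraMap R O (U * MvPolynomial.aeval x h₁ ^ r) with hY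
  have hY0 : Y ≠ 0 := by
    intro h0
    exact mul_ne_zero hU (pow_ne_zero r hh1) (hRO (h0.trans (map_zero _).symm))
  have hYU : Y = algebraMap R O U * ι h₁ ^ r := by rw [hY, map_mul, map_pow, hιa]
  have heq : ∑ i ∈ Finset.range (D + 1), ι (μ.coeff i) * ι h₁ ^ (r * (D - i)) * W ^ (D - i) = 0 := by
    have h1 := congrArg (algebraMap R O) hμ.eq
    rw [map_sum, map_zero] at h1
    have h2 : Y ^ D * ∑ i ∈ Finset.range (D + 1),
        ι (μ.coeff i) * ι h₁ ^ (r * (D - i)) * W ^ (D - i) =
        ι h₁ ^ (r * D) * ∑ i ∈ Finset.range (μ.natDegree + 1), algebraMap R O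
          (MvPolynomial.aeval x (μ.coeff i) * U ^ i * V ^ (μ.natDegree - i)) := by
      rw [Finset.mul_sum, Finset.mul_sum]
      refine Finset.sum_congr rfl fun i hi => ?_
      rw [Finset.mem_range] at hi
      rw [map_mul, map_mul, map_pow, map_pow, ← hιa, hW, mul_pow, ← hD]
      have e1 : Y ^ D = Y ^ i * Y ^ (D - i) := by rw [← pow_add]; congr 1; omega
      have e2 : Y ^ i = (algebraMap R O U) ^ i * ι h₁ ^ (r * i) := by rw [hYU, mul_pow, ← pow_mul]
      have e3 : ι h₁ ^ (r * D) = ι h₁ ^ (r * i) * ι h₁ ^ (r * (D - i)) := by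
        rw [← pow_add, ← mul_add]; congr 2; omega
      rw [e1, e2, e3]
      ring
    rw [h1, mul_zero] at h2
    exact (mul_eq_zero.mp h2).resolve_left (pow_ne_zero D hY0)
  -- the critical coefficient
  have hkey : ∃ k, 1 ≤ k ∧ k ≤ D ∧ ¬ h₁ ^ (β + 1) ∣ μ.coeff (D - k) * h₁ ^ (r * k) := by
    by_contra hcon
    push Not at hcon
    have h1 : ι h₁ ^ (β + 1) ∣ ι μ.leadingCoeff := by
      have h2 : ι μ.leadingCoeff = -∑ i ∈ Finset.range D,
          ι (μ.coeff i) * ι h₁ ^ (r * (D - i)) * W ^ (D - i) := by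
        rw [Finset.sum_range_succ, Nat.sub_self, mul_zero, pow_zero, pow_zero, mul_one, mul_one,
          add_comm] at heq
        exact eq_neg_of_add_eq_zero_left heq
      rw [h2]
      refine (dvd_neg).mpr (Finset.dvd_sum fun i hi => ?_)
      rw [Finset.mem_range] at hi
      have h3 := hcon (D - i) (by omega) (by omega)
      rw [show D - (D - i) = i by omega] at h3
      have h4 := map_dvd ι h3
      rw [map_mul, map_pow, map_pow] at h4
      exact Dvd.dvd.mul_right h4 _
    rw [hd, map_mul, map_pow, pow_succ] at h1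
    have h5 : ι h₁ ∣ ι d' := (mul_dvd_mul_iff_left (pow_ne_zero β hh1')).mp h1
    exact hnunit (isUnit_of_dvd_unit h5 (hunit d' hd'))
  obtain ⟨k, hk1, hkD, hk⟩ := hkey
  have hck : μ.coeff (D - k) ≠ 0 := by
    intro h0
    rw [h0, zero_mul] at hk
    exact hk (dvd_zero _)
  obtain ⟨α, a', ha', ha⟩ := WfDvdMonoid.max_power_factor hck hirr
  have hle : α + r * k ≤ β := by
    by_contra hcon
    apply hk
    rw [ha]
    have h1 : h₁ ^ (β + 1) ∣ h₁ ^ (α + r * k) := pow_dvd_pow _ (by omega)
    have h2 : h₁ ^ α * a' * h₁ ^ (r * k) = h₁ ^ (α + r * k) * a' := by rw [pow_add]; ring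
    rw [h2]
    exact Dvd.dvd.mul_right h1 _
  refine ⟨k, β - α, a', d', hk1, hkD, by omega, ha', hd', ?_⟩
  rw [ha, hd]
  have h1 : h₁ ^ β = h₁ ^ α * h₁ ^ (β - α) := by rw [← pow_add]; congr 1; omega
  rw [h1]
  ring

end Pool.Agent.Lib_KF
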