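import Pool.Agent.Lib_KF.KCRem
import Pool.Agent.Lib_KF.KCCau

/-!
# KC04: square integrable holomorphic functions extend over the zero set of a polynomial
-/

open MeasureTheory
open scoped ENNReal NNReal

namespace Pool.Agent.Lib_KF

/-- coordinates `ℂ × E` such that the first one is in the direction `v` -/
private theorem KCExt_equiv {N : ℕ} (v : Fin (N + 1) → ℂ) (hv : v ≠ 0) :
    ∃ L : (ℂ × (Fin N → ℂ)) ≃L[ℂ] (Fin (N + 1) → ℂ), ∀ τ z, L (τ, z) = L (0, z) + τ • v := by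
  obtain ⟨i, hi⟩ := Function.ne_iff.1 hv
  have hi' : v i ≠ 0 := hi
  let M : (Fin (N + 1) → ℂ) →ₗ[ℂ] ℂ × (Fin N → ℂ) :=
    { toFun := fun y => (y i / v i, fun l => y (i.succAbove l) - (y i / v i) * v (i.succAbove l))
      map_add' := by
        intro y y'
        refine Prod.ext ?_ (funext fun l => ?_)
        · simp only [Pi.add_apply, Prod.fst_add]
          ring
        · simp only [Pi.add_apply, Prod.snd_add]
          ring
      map_smul' := by
        intro c y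
        refine Prod.ext ?_ (funext fun l => ?_)
        · simp only [Pi.smul_apply, smul_eq_mul, RingHom.id_apply, Prod.smul_fst]
          ring
        · simp only [Pi.smul_apply, smul_eq_mul, RingHom.id_apply, Prod.smul_snd]
          ring }
  have hM : ∀ y, M y = (y i / v i, fun l => y (i.succAbove l) - (y i / v i) * v (i.succAbove l)) :=
    fun _ => rfl
  have hinj : Function.Injective M := by
    rw [injective_iff_map_eq_zero]
    intro y hy
    rw [hM] at hy
    have h1 : y i = 0 := by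
      have h2 : y i / v i = 0 := congrArg Prod.fst hy
      exact (div_eq_zero_iff.1 h2).resolve_right hi'
    funext j
    refine i.succAboveCases ?_ (fun l => ?_) j
    · exact h1
    · have h3 := congrFun (congrArg Prod.snd hy) l
      simpa [h1] using h3
  have hdim : Module.finrank ℂ (Fin (N + 1) → ℂ) = Module.finrank ℂ (ℂ × (Fin N → ℂ)) := by
    rw [Module.finrank_prod, Module.finrank_fin_fun, Module.finrank_fin_fun, Module.finrank_self]
    ring
  let e := (LinearMap.linearEquivOfInjective M hinj hdim).symm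
  have he : e (1, 0) = v := by
    rw [LinearEquiv.symm_apply_eq, LinearMap.linearEquivOfInjective_apply, hM]
    refine Prod.ext ?_ (funext fun l => ?_)
    · simp [hi']
    · simp [hi']
  refine ⟨e.toContinuousLinearEquiv, fun τ z => ?_⟩
  have h1 : ((τ, z) : ℂ × (Fin N → ℂ)) = (0, z) + τ • (1, 0) := by
    refine Prod.ext ?_ ?_ <;> simp
  rw [h1, map_add, map_smul]
  congr 2

private theorem KCExt_poly {N : ℕ} (h : MvPolynomial (Fin N) ℂ) (a v : Fin N → ℂ) :
    ∃ q : Polynomial ℂ, ∀ τ : ℂ, q.eval τ = MvPolynomial.eval (a + τ • v) h := by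
  refine ⟨MvPolynomial.aeval (fun j => Polynomial.C (a j) + Polynomial.X * Polynomial.C (v j)) h,
    fun τ => ?_⟩
  have h1 : (Polynomial.aeval τ : Polynomial ℂ →ₐ[ℂ] ℂ).comp
      (MvPolynomial.aeval (fun j => Polynomial.C (a j) + Polynomial.X * Polynomial.C (v j))) =
      MvPolynomial.aeval (a + τ • v) := by
    apply MvPolynomial.algHom_ext
    intro j
    simp
    ring
  have h2 := DFunLike.congr_fun h1 h
  rw [AlgHom.comp_apply, Polynomial.coe_aeval_eq_eval, MvPolynomial.aeval_eq_eval] at h2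
  exact h2

private theorem KCExt_meas {N : ℕ} (L : (ℂ × (Fin N → ℂ)) ≃L[ℂ] (Fin (N + 1) → ℂ))
    (p : Fin (N + 1) → ℂ) (S : Set (Fin (N + 1) → ℂ)) (F : (Fin (N + 1) → ℂ) → ℝ≥0∞)
    (hF : ∫⁻ y in S, F y ≠ ⊤) :
    ∫⁻ q in (fun q => p + L q) ⁻¹' S, F (p + L q) ≠ ⊤ := by
  have hemb : MeasurableEmbedding (L : (ℂ × (Fin N → ℂ)) → (Fin (N + 1) → ℂ)) :=
    L.toHomeomorph.measurableEmbedding
  have h1 : ∫⁻ q in (fun q => p + L q) ⁻¹' S, F (p + L q) =
      ∫⁻ u in (fun u => p + u) ⁻¹' S, F (p + u)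
        ∂(Measure.map L (volume : Measure (ℂ × (Fin N → ℂ)))) := by
    rw [hemb.restrict_map, hemb.lintegral_map]
    rfl
  have h0 : (volume : Measure (ℂ × (Fin N → ℂ))).IsAddHaarMeasure :=
    Measure.prod.instIsAddHaarMeasure _ _
  have h0' : (Measure.map L (volume : Measure (ℂ × (Fin N → ℂ)))).IsAddHaarMeasure :=
    L.isAddHaarMeasure_map volume
  have h2 : Measure.map L (volume : Measure (ℂ × (Fin N → ℂ))) =
      Measure.addHaarScalarFactor (Measure.map L (volume : Measure (ℂ × (Fin N → ℂ)))) volume •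
        (volume : Measure (Fin (N + 1) → ℂ)) :=
    Measure.isAddLeftInvariant_eq_smul _ _
  have h3 : ∫⁻ u in (fun u => p + u) ⁻¹' S, F (p + u) = ∫⁻ y in S, F y :=
    (measurePreserving_add_left volume p).setLIntegral_comp_preimage_emb
      (measurableEmbedding_addLeft p) F S
  rw [h1, h2, Measure.restrict_smul, lintegral_smul_measure, h3]
  exact ENNReal.mul_ne_top ENNReal.coe_ne_top hF

/-- Local extension. Choose `w` with `h w ≠ 0`, `v = w - p` (if `h p ≠ 0` nothing is to be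
proved), a complement `E` of the line `ℂ v`, coordinates `y = p + τ v + z`, `z ∈ E`; `τ ↦ h (p + τ v)` is not
zero, so there are `ρ` and a ball `B` about `0` in `E` such that `h (p + τ v + z) ≠ 0` for
`|τ| = ρ`, `z ∈ B` and all these points with `|τ| ≤ ρ` are in `U`. Let `g` be the Cauchy integral of
`f` over `|τ| = ρ` (`kc_cauchy`). For almost every `z` the function `τ ↦ f (p + τ v + z)` is square
integrable (Fubini) and so `g = f` there by `kc_removable` (also if `h (p + · v + z)` has only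
finitely many zeros; it is not identically zero as it does not vanish on `|τ| = ρ`); by continuity
`g = f` wherever `h ≠ 0`. -/
theorem kc_extend_local {N : ℕ} {U : Set (Fin N → ℂ)} (hU : IsOpen U)
    (h : MvPolynomial (Fin N) ℂ) (hh : h ≠ 0) {f : (Fin N → ℂ) → ℂ}
    (hf : DifferentiableOn ℂ f (U ∩ {y | MvPolynomial.eval y h ≠ 0}))
    (hL2 : ∫⁻ y in U ∩ {y | MvPolynomial.eval y h ≠ 0}, ‖f y‖ₑ ^ 2 ≠ ⊤)
    (p : Fin N → ℂ) (hp : p ∈ U) :
    ∃ V : Set (Fin N → ℂ), IsOpen V ∧ p ∈ V ∧ V ⊆ U ∧ ∃ g : (Fin N → ℂ) → ℂ,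
      DifferentiableOn ℂ g V ∧ Set.EqOn g f (V ∩ {y | MvPolynomial.eval y h ≠ 0}) := by
  have hne : IsOpen {y : Fin N → ℂ | MvPolynomial.eval y h ≠ 0} :=
    isOpen_ne_fun (MvPolynomial.continuous_eval h) continuous_const
  set S : Set (Fin N → ℂ) := U ∩ {y | MvPolynomial.eval y h ≠ 0} with hSdef
  have hS : IsOpen S := hU.inter hne
  by_cases hhp : MvPolynomial.eval p h = 0
  swap
  · exact ⟨S, hS, ⟨hp, hhp⟩, Set.inter_subset_left, f, hf, fun _ _ => rfl⟩
  -- a direction in which `h` does not vanish identically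
  obtain ⟨w, hw⟩ : ∃ w, MvPolynomial.eval w h ≠ 0 := by
    by_contra hcon
    push Not at hcon
    exact hh (MvPolynomial.funext fun y => by rw [hcon y, map_zero])
  have hv : w - p ≠ 0 := by
    intro h0
    rw [sub_eq_zero.1 h0] at hw
    exact hw hhp
  obtain ⟨N', rfl⟩ : ∃ N', N = N' + 1 := by
    refine ⟨N - 1, ?_⟩
    rcases Nat.eq_zero_or_pos N with h0 | h0
    · subst h0
      exact absurd (Subsingleton.elim _ _) hv
    · omega
  obtain ⟨L, hL⟩ := KCExt_equiv (w - p) hv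
  set Φ : ℂ × (Fin N' → ℂ) → (Fin (N' + 1) → ℂ) := fun q => p + L q with hΦ
  have hΦc : Continuous Φ := continuous_const.add L.continuous
  have hΦd : Differentiable ℂ Φ := (differentiable_const p).add L.differentiable
  have hΦ0 : Φ 0 = p := by simp [hΦ]
  -- the polynomials on the lines
  have hpoly : ∀ z : Fin N' → ℂ, ∃ q : Polynomial ℂ, ∀ τ : ℂ,
      q.eval τ = MvPolynomial.eval (Φ (τ, z)) h := by
    intro z
    obtain ⟨q, hq⟩ := KCExt_poly h (p + L (0, z)) (w - p)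
    refine ⟨q, fun τ => ?_⟩
    rw [hq, hΦ]
    simp only
    rw [hL τ z, add_assoc]
  have hfin : ∀ z : Fin N' → ℂ, (∃ τ, MvPolynomial.eval (Φ (τ, z)) h ≠ 0) →
      {τ : ℂ | MvPolynomial.eval (Φ (τ, z)) h = 0}.Finite := by
    rintro z ⟨τ, hτ⟩
    obtain ⟨q, hq⟩ := hpoly z
    have hq0 : q ≠ 0 := by
      rintro rfl
      apply hτ
      rw [← hq τ, Polynomial.eval_zero]
    refine (Polynomial.finite_setOfPred_isRoot hq0).subset fun t ht => ?_
    change q.eval t = 0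
    rw [hq t]
    exact ht
  -- the radius
  have hΦU : IsOpen (Φ ⁻¹' U) := hU.preimage hΦc
  obtain ⟨r, hr0, hr⟩ := Metric.isOpen_iff.1 hΦU 0 (by rw [Set.mem_preimage, hΦ0]; exact hp)
  have hfin0 : {τ : ℂ | MvPolynomial.eval (Φ (τ, 0)) h = 0}.Finite := by
    refine hfin 0 ⟨1, ?_⟩
    have h1 : Φ (1, 0) = w := by
      rw [hΦ]
      simp only
      rw [hL 1 0]
      have h2 : L ((0 : ℂ), (0 : Fin N' → ℂ)) = 0 := by
        have h3 : (((0 : ℂ), (0 : Fin N' → ℂ)) : ℂ × (Fin N' → ℂ)) = 0 := rfl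
        rw [h3, map_zero]
      rw [h2, zero_add, one_smul]
      abel
    rw [h1]
    exact hw
  obtain ⟨ρ, hρ, hρn⟩ : ∃ ρ ∈ Set.Ioo 0 r,
      ρ ∉ (fun τ : ℂ => ‖τ‖) '' {τ : ℂ | MvPolynomial.eval (Φ (τ, 0)) h = 0} :=
    (Set.Ioo_infinite hr0).exists_notMem_finite (hfin0.image _)
  have hρ0 : 0 < ρ := hρ.1
  -- the set where everything is defined
  set V' : Set (ℂ × (Fin N' → ℂ)) := Φ ⁻¹' S with hV'def
  have hV' : IsOpen V' := hS.preimage hΦc
  have hsph : Metric.sphere (0 : ℂ) ρ ×ˢ ({0} : Set (Fin N' → ℂ)) ⊆ V' := by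
    rintro ⟨τ, z⟩ ⟨hτ, hz⟩
    simp only [Set.mem_singleton_iff] at hz
    simp only [Metric.mem_sphere, dist_zero_right] at hτ
    subst hz
    refine ⟨hr ?_, fun h0 => hρn ⟨τ, h0, hτ⟩⟩
    rw [Metric.mem_ball, dist_zero_right, Prod.norm_mk, norm_zero, max_eq_left (norm_nonneg _), hτ]
    exact hρ.2
  have hball : Metric.closedBall (0 : ℂ) ρ ×ˢ ({0} : Set (Fin N' → ℂ)) ⊆ Φ ⁻¹' U := by
    rintro ⟨τ, z⟩ ⟨hτ, hz⟩
    simp only [Set.mem_singleton_iff] at hz
    simp only [Metric.mem_closedBall, dist_zero_right] at hτ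
    subst hz
    refine hr ?_
    rw [Metric.mem_ball, dist_zero_right, Prod.norm_mk, norm_zero, max_eq_left (norm_nonneg _)]
    exact hτ.trans_lt hρ.2
  obtain ⟨u1, B1, hu1, hB1, hs1, ht1, hsub1⟩ :=
    generalized_tube_lemma (isCompact_sphere (0 : ℂ) ρ) isCompact_singleton hV' hsph
  obtain ⟨u2, B2, hu2, hB2, hs2, ht2, hsub2⟩ :=
    generalized_tube_lemma (isCompact_closedBall (0 : ℂ) ρ) isCompact_singleton hΦU hball
  set B : Set (Fin N' → ℂ) := B1 ∩ B2 with hBdef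
  have hB : IsOpen B := hB1.inter hB2
  have h0B : (0 : Fin N' → ℂ) ∈ B := ⟨ht1 rfl, ht2 rfl⟩
  have hsphB : Metric.sphere (0 : ℂ) ρ ×ˢ B ⊆ V' :=
    (Set.prod_mono hs1 Set.inter_subset_left).trans hsub1
  have hballB : Metric.closedBall (0 : ℂ) ρ ×ˢ B ⊆ Φ ⁻¹' U :=
    (Set.prod_mono hs2 Set.inter_subset_right).trans hsub2
  -- the function in the new coordinates and its Cauchy integral
  set f' : ℂ × (Fin N' → ℂ) → ℂ := fun q => f (Φ q) with hf'def
  have hf' : DifferentiableOn ℂ f' V' := hf.comp hΦd.differentiableOn fun q hq => hq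
  have hG := kc_cauchy hV' hf' hρ0 hB hsphB
  set G : ℂ × (Fin N' → ℂ) → ℂ := fun q =>
    (2 * Real.pi * Complex.I)⁻¹ * ∮ ζ in C(0, ρ), f' (ζ, q.2) / (ζ - q.1) with hGdef
  -- square integrability in the new coordinates
  have hL2' : ∫⁻ q in V', ‖f' q‖ₑ ^ 2 ≠ ⊤ := KCExt_meas L p S (fun y => ‖f y‖ₑ ^ 2) hL2
  set K : ℂ × (Fin N' → ℂ) → ℝ≥0∞ := V'.indicator (fun q => ‖f' q‖ₑ ^ 2) with hKdef
  have hK : AEMeasurable K ((volume : Measure ℂ).prod (volume : Measure (Fin N' → ℂ))) := by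
    rw [hKdef, aemeasurable_indicator_iff hV'.measurableSet]
    refine ContinuousOn.aemeasurable ?_ hV'.measurableSet
    exact (ENNReal.continuous_pow 2).comp_continuousOn hf'.continuousOn.enorm
  have hKint : ∫⁻ z, ∫⁻ τ, K (τ, z) ≠ ⊤ := by
    rw [← lintegral_prod_symm K hK, ← Measure.volume_eq_prod, hKdef,
      lintegral_indicator hV'.measurableSet]
    exact hL2'
  have hae : ∀ᵐ z : Fin N' → ℂ, ∫⁻ τ, K (τ, z) < ⊤ := ae_lt_top' hK.lintegral_prod_left' hKint
  have hgood : ∀ z ∈ B, ∫⁻ τ, K (τ, z) < ⊤ → ∀ τ ∈ Metric.ball (0 : ℂ) ρ,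
      (τ, z) ∈ V' → G (τ, z) = f' (τ, z) := by
    intro z hz hzint τ hτ hτV
    set Uz : Set ℂ := {t | Φ (t, z) ∈ U} with hUz
    set Zz : Set ℂ := {t | MvPolynomial.eval (Φ (t, z)) h = 0} with hZz
    have hcz : Continuous fun t : ℂ => (t, z) := by fun_prop
    have hUzo : IsOpen Uz := hU.preimage (hΦc.comp hcz)
    have hZf : Zz.Finite := by
      refine hfin z ⟨(ρ : ℂ), ?_⟩
      have h1 : ((ρ : ℂ), z) ∈ V' := hsphB ⟨by
        simp [abs_of_pos hρ0], hz⟩
      exact h1.2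
    have hdiff : ∀ t, t ∈ Uz \ Zz ↔ (t, z) ∈ V' := fun t => Iff.rfl
    have hdf : DifferentiableOn ℂ (fun t => f' (t, z)) (Uz \ Zz) := by
      refine hf'.comp (Differentiable.differentiableOn (by fun_prop)) fun t ht => ?_
      exact (hdiff t).1 ht
    have hmeas : MeasurableSet (Uz \ Zz) := hUzo.measurableSet.diff hZf.measurableSet
    have hint : ∫⁻ t in Uz, ‖f' (t, z)‖ₑ ^ 2 ≠ ⊤ := by
      have h1 : ∫⁻ t in Uz, ‖f' (t, z)‖ₑ ^ 2 = ∫⁻ t in Uz \ Zz, ‖f' (t, z)‖ₑ ^ 2 := by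
        refine (setLIntegral_congr ?_).symm
        exact sdiff_null_ae_eq_self (hZf.measure_zero _)
      have h2 : ∫⁻ t in Uz \ Zz, ‖f' (t, z)‖ₑ ^ 2 = ∫⁻ t, K (t, z) := by
        rw [← lintegral_indicator hmeas]
        refine lintegral_congr fun t => ?_
        by_cases ht : t ∈ Uz \ Zz
        · rw [Set.indicator_of_mem ht, hKdef, Set.indicator_of_mem ((hdiff t).1 ht)]
        · rw [Set.indicator_of_notMem ht, hKdef,
            Set.indicator_of_notMem (fun h3 => ht ((hdiff t).2 h3))]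
      rw [h1, h2]
      exact hzint.ne
    obtain ⟨g, hgd, hge⟩ := kc_removable hUzo hZf hdf hint
    have hcb : Metric.closedBall (0 : ℂ) ρ ⊆ Uz := fun t ht => hballB ⟨ht, hz⟩
    have h1 := (hgd.diffContOnCl_ball hcb).two_pi_i_inv_smul_circleIntegral_sub_inv_smul hτ
    have h2 : g τ = f' (τ, z) := hge ((hdiff τ).2 hτV)
    rw [← h2, ← h1]
    change (2 * Real.pi * Complex.I)⁻¹ * (∮ ζ in C(0, ρ), f' (ζ, z) / (ζ - τ)) =
      (2 * Real.pi * Complex.I)⁻¹ * (∮ ζ in C(0, ρ), (ζ - τ)⁻¹ * g ζ)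
    congr 1
    refine circleIntegral.integral_congr hρ0.le fun ζ hζ => ?_
    have h3 : g ζ = f' (ζ, z) := hge ((hdiff ζ).2 (hsphB ⟨hζ, hz⟩))
    rw [h3, div_eq_mul_inv, mul_comm]
  have hall : ∀ τ ∈ Metric.ball (0 : ℂ) ρ, ∀ z ∈ B, (τ, z) ∈ V' → G (τ, z) = f' (τ, z) := by
    intro τ hτ z hz hzV
    have hcτ : Continuous fun z : Fin N' → ℂ => (τ, z) := by fun_prop
    set O : Set (Fin N' → ℂ) := B ∩ {z | (τ, z) ∈ V'} with hO
    have hOo : IsOpen O := hB.inter (hV'.preimage hcτ)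
    have hdense : Dense {z : Fin N' → ℂ | ∫⁻ τ, K (τ, z) < ⊤} := Measure.dense_of_ae hae
    have heq : Set.EqOn (fun z => G (τ, z)) (fun z => f' (τ, z))
        (O ∩ {z : Fin N' → ℂ | ∫⁻ τ, K (τ, z) < ⊤}) := fun z' hz' =>
      hgood z' hz'.1.1 hz'.2 τ hτ hz'.1.2
    have hGc : ContinuousOn (fun z => G (τ, z)) O :=
      hG.continuousOn.comp hcτ.continuousOn fun z' hz' => ⟨hτ, hz'.1⟩
    have hfc : ContinuousOn (fun z => f' (τ, z)) O :=
      hf'.continuousOn.comp hcτ.continuousOn fun z' hz' => hz'.2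
    exact heq.of_subset_closure hGc hfc Set.inter_subset_left
      (hdense.open_subset_closure_inter hOo) ⟨hz, hzV⟩
  -- back to the old coordinates
  have hΨc : Continuous fun y : Fin (N' + 1) → ℂ => L.symm (y - p) :=
    L.symm.continuous.comp (continuous_id.sub continuous_const)
  have hΨd : Differentiable ℂ fun y : Fin (N' + 1) → ℂ => L.symm (y - p) :=
    L.symm.differentiable.comp (differentiable_id.sub (differentiable_const p))
  have hΦΨ : ∀ y, Φ (L.symm (y - p)) = y := by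
    intro y
    rw [hΦ]
    simp
  refine ⟨(fun y => L.symm (y - p)) ⁻¹' (Metric.ball (0 : ℂ) ρ ×ˢ B),
    (Metric.isOpen_ball.prod hB).preimage hΨc, ?_, ?_, fun y => G (L.symm (y - p)), ?_, ?_⟩
  · rw [Set.mem_preimage, sub_self, map_zero]
    exact ⟨Metric.mem_ball_self hρ0, h0B⟩
  · intro y hy
    have h1 : Φ (L.symm (y - p)) ∈ U :=
      hballB ⟨Metric.ball_subset_closedBall hy.1, hy.2⟩
    rw [hΦΨ] at h1
    exact h1
  · exact hG.comp hΨd.differentiableOn fun y hy => hy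
  · rintro y ⟨hy, hy0⟩
    have hyU : y ∈ U := by
      have h1 : Φ (L.symm (y - p)) ∈ U :=
        hballB ⟨Metric.ball_subset_closedBall hy.1, hy.2⟩
      rw [hΦΨ] at h1
      exact h1
    have hyV : L.symm (y - p) ∈ V' := by
      change Φ (L.symm (y - p)) ∈ S
      rw [hΦΨ]
      exact ⟨hyU, hy0⟩
    have h2 : G (L.symm (y - p)) = f (Φ (L.symm (y - p))) := hall _ hy.1 _ hy.2 hyV
    rw [hΦΨ] at h2
    exact h2

end Pool.Agent.Lib_KF
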