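import Pool.Agent.Lib_KF.KCExt

/-!
# KC05: global extension
-/

open MeasureTheory
open scoped ENNReal NNReal

namespace Pool.Agent.Lib_KF

private theorem KCExtG_dense {N : ℕ} (h : MvPolynomial (Fin N) ℂ) (hh : h ≠ 0)
    (x : Fin N → ℂ) : x ∈ closure {y : Fin N → ℂ | MvPolynomial.eval y h ≠ 0} := by
  by_contra hx
  have h1 : ∀ᶠ y in nhds x, MvPolynomial.eval y h = 0 := by
    filter_upwards [isClosed_closure.isOpen_compl.mem_nhds hx] with y hy
    by_contra hne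
    exact hy (subset_closure hne)
  have h2 : (fun y : Fin N → ℂ => MvPolynomial.eval y h) = fun _ => (0 : ℂ) :=
    AnalyticOnNhd.eq_of_eventuallyEq (AnalyticOnNhd.eval_mvPolynomial h)
      analyticOnNhd_const h1
  apply hh
  apply MvPolynomial.funext
  intro y
  rw [map_zero]
  exact congrFun h2 y

/-- Gluing of the local extensions of `kc_extend_local` (two local extensions agree where both are
defined, by continuity and density of `h ≠ 0`). -/
theorem kc_extend {N : ℕ} {U : Set (Fin N → ℂ)} (hU : IsOpen U)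
    (h : MvPolynomial (Fin N) ℂ) (hh : h ≠ 0) {f : (Fin N → ℂ) → ℂ}
    (hf : DifferentiableOn ℂ f (U ∩ {y | MvPolynomial.eval y h ≠ 0}))
    (hL2 : ∫⁻ y in U ∩ {y | MvPolynomial.eval y h ≠ 0}, ‖f y‖ₑ ^ 2 ≠ ⊤) :
    ∃ g : (Fin N → ℂ) → ℂ,
      DifferentiableOn ℂ g U ∧ Set.EqOn g f (U ∩ {y | MvPolynomial.eval y h ≠ 0}) := by
  classical
  choose V hVo hpV hVU g hg hgf using
    fun p : U => kc_extend_local hU h hh hf hL2 (p : Fin N → ℂ) p.2
  have hS : IsOpen {y : Fin N → ℂ | MvPolynomial.eval y h ≠ 0} :=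
    isOpen_ne_fun (MvPolynomial.continuous_eval h) continuous_const
  -- two local extensions agree
  have hag : ∀ p q : U, ∀ x ∈ V p ∩ V q, g p x = g q x := by
    intro p q x hx
    have hcp : ContinuousAt (g p) x :=
      ((hg p).differentiableAt ((hVo p).mem_nhds hx.1)).continuousAt
    have hcq : ContinuousAt (g q) x :=
      ((hg q).differentiableAt ((hVo q).mem_nhds hx.2)).continuousAt
    have hne : (nhdsWithin x {y : Fin N → ℂ | MvPolynomial.eval y h ≠ 0}).NeBot :=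
      mem_closure_iff_nhdsWithin_neBot.1 (KCExtG_dense h hh x)
    have hev : g p =ᶠ[nhdsWithin x {y : Fin N → ℂ | MvPolynomial.eval y h ≠ 0}] g q := by
      have h1 : V p ∩ V q ∈ nhdsWithin x {y : Fin N → ℂ | MvPolynomial.eval y h ≠ 0} :=
        mem_nhdsWithin_of_mem_nhds (((hVo p).inter (hVo q)).mem_nhds hx)
      filter_upwards [h1, self_mem_nhdsWithin] with y hy hy'
      rw [hgf p ⟨hy.1, hy'⟩, hgf q ⟨hy.2, hy'⟩]
    have h1 := hcp.continuousWithinAt (s := {y : Fin N → ℂ | MvPolynomial.eval y h ≠ 0})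
    have h2 := hcq.continuousWithinAt (s := {y : Fin N → ℂ | MvPolynomial.eval y h ≠ 0})
    exact tendsto_nhds_unique_of_eventuallyEq h1 h2 hev
  let G : (Fin N → ℂ) → ℂ := fun x => if hx : x ∈ U then g ⟨x, hx⟩ x else 0
  have hG : ∀ p : U, ∀ x ∈ V p, G x = g p x := by
    intro p x hx
    have hxU : x ∈ U := hVU p hx
    show (if hx : x ∈ U then g ⟨x, hx⟩ x else 0) = g p x
    rw [dif_pos hxU]
    exact hag ⟨x, hxU⟩ p x ⟨hpV ⟨x, hxU⟩, hx⟩
  refine ⟨G, ?_, ?_⟩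
  · intro x hx
    have h1 : DifferentiableAt ℂ (g ⟨x, hx⟩) x :=
      (hg ⟨x, hx⟩).differentiableAt ((hVo ⟨x, hx⟩).mem_nhds (hpV ⟨x, hx⟩))
    have h2 : G =ᶠ[nhds x] g ⟨x, hx⟩ := by
      filter_upwards [(hVo ⟨x, hx⟩).mem_nhds (hpV ⟨x, hx⟩)] with y hy
      exact hG ⟨x, hx⟩ y hy
    exact (h1.congr_of_eventuallyEq h2).differentiableWithinAt
  · intro x hx
    rw [hG ⟨x, hx.1⟩ x (hpV ⟨x, hx.1⟩)]
    exact hgf ⟨x, hx.1⟩ ⟨hpV ⟨x, hx.1⟩, hx.2⟩

end Pool.Agent.Lib_KF
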