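import Pool.Agent.Lib_KF.KCPoly

/-!
# KC07: circle equivariant holomorphic functions on the polydisc are polynomials
-/

open MeasureTheory
open scoped ENNReal NNReal

namespace Pool.Agent.Lib_KF

/-- homogeneity on the polydisc -/
private theorem kcHom_disc {N : ℕ} {g : (Fin N → ℂ) → ℂ}
    (hg : DifferentiableOn ℂ g (Metric.ball 0 1)) {d w : ℕ} (hd : 1 ≤ d)
    (hinv : ∀ θ : ℝ, ∀ y ∈ Metric.ball (0 : Fin N → ℂ) 1,
      g (Complex.exp (d * θ * Complex.I) • y) = Complex.exp ((d * w : ℕ) * θ * Complex.I) * g y)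
    {y : Fin N → ℂ} (hy : y ∈ Metric.ball (0 : Fin N → ℂ) 1) {t : ℂ} (ht : ‖t‖ ≤ 1) :
    g (t • y) = t ^ w * g y := by
  have hy1 : ‖y‖ < 1 := by simpa using hy
  have hmap : ∀ t : ℂ, ‖t‖ ≤ 1 → t • y ∈ Metric.ball (0 : Fin N → ℂ) 1 := by
    intro t ht
    rw [mem_ball_zero_iff, norm_smul]
    exact lt_of_le_of_lt (mul_le_of_le_one_left (norm_nonneg y) ht) hy1
  have hcl : closure (Metric.ball (0 : ℂ) 1) = Metric.closedBall 0 1 :=
    closure_ball _ one_ne_zero
  have hf : DiffContOnCl ℂ (fun t : ℂ => g (t • y)) (Metric.ball 0 1) := by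
    constructor
    · exact hg.comp (by fun_prop) fun t ht => hmap t (by simpa using (mem_ball_zero_iff.1 ht).le)
    · rw [hcl]
      exact hg.continuousOn.comp (by fun_prop) fun t ht => hmap t (by simpa using ht)
  have hf2 : DiffContOnCl ℂ (fun t : ℂ => t ^ w * g y) (Metric.ball 0 1) :=
    (by fun_prop : Differentiable ℂ fun t : ℂ => t ^ w * g y).diffContOnCl
  have heq : Set.EqOn (fun t : ℂ => g (t • y)) (fun t : ℂ => t ^ w * g y)
      (frontier (Metric.ball 0 1)) := by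
    intro t ht
    rw [frontier_ball _ one_ne_zero, mem_sphere_zero_iff_norm] at ht
    have hd0 : (d : ℂ) ≠ 0 := by
      rw [Nat.cast_ne_zero]
      omega
    have h1 := hinv (t.arg / d) y hy
    have h2 : (d : ℂ) * ((t.arg / d : ℝ) : ℂ) * Complex.I = t.arg * Complex.I := by
      push_cast
      field_simp
    have h3 : ((d * w : ℕ) : ℂ) * ((t.arg / d : ℝ) : ℂ) * Complex.I =
        w * (t.arg * Complex.I) := by
      push_cast
      field_simp
    have h4 : Complex.exp (t.arg * Complex.I) = t := by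
      have h5 := Complex.norm_mul_exp_arg_mul_I t
      rw [ht] at h5
      simpa using h5
    rw [h2, h3, Complex.exp_nat_mul, h4] at h1
    exact h1
  have hmem : t ∈ closure (Metric.ball (0 : ℂ) 1) := by
    rw [hcl]
    simpa using ht
  exact Complex.eqOn_closure_of_eqOn_frontier Metric.isBounded_ball hf hf2 heq hmem

/-- Proof: for `y` in the polydisc `φ (t) = g (t y)` is holomorphic on `|t| < 1 / ‖y‖` and
`φ (e^{i d θ} t) = e^{i j θ} φ (t)`, so only the Taylor coefficient of degree `w`, `d w = j`,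
can be non-zero: `g (t y) = t ^ w g y` (`g = 0` if `d` does not divide `j`). So `g` extends to the
entire function `G y = t ^ (- w) g (t y)` (`t` small, e.g. `t = 1 / (1 + ‖y‖) / 2`), bounded by
`C (1 + ‖y‖) ^ w`; apply `kc_poly_growth` and `kc_homog_of_equivariant`. -/
theorem kc_poly {N : ℕ} {g : (Fin N → ℂ) → ℂ}
    (hg : DifferentiableOn ℂ g (Metric.ball 0 1)) {d j : ℕ} (hd : 1 ≤ d)
    (hinv : ∀ θ : ℝ, ∀ y ∈ Metric.ball (0 : Fin N → ℂ) 1,
      g (Complex.exp (d * θ * Complex.I) • y) = Complex.exp (j * θ * Complex.I) * g y) :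
    ∃ p : MvPolynomial (Fin N) ℂ, (∀ y ∈ Metric.ball (0 : Fin N → ℂ) 1,
      g y = MvPolynomial.eval y p) ∧ (p = 0 ∨ ∃ w, d * w = j ∧ p.IsHomogeneous w) := by
  have hd0 : (d : ℂ) ≠ 0 := by
    rw [Nat.cast_ne_zero]
    omega
  by_cases hdj : d ∣ j
  swap
  · -- `g = 0`
    refine ⟨0, fun y hy => ?_, Or.inl rfl⟩
    rw [map_zero]
    have h1 := hinv (2 * Real.pi / d) y hy
    have h2 : (d : ℂ) * ((2 * Real.pi / d : ℝ) : ℂ) * Complex.I = 2 * Real.pi * Complex.I := by
      push_cast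
      field_simp
    rw [h2, Complex.exp_two_pi_mul_I, one_smul] at h1
    by_contra hne
    have h3 : Complex.exp ((j : ℂ) * ((2 * Real.pi / d : ℝ) : ℂ) * Complex.I) = 1 := by
      have h4 : (Complex.exp ((j : ℂ) * ((2 * Real.pi / d : ℝ) : ℂ) * Complex.I) - 1) * g y = 0 := by
        rw [sub_mul, one_mul, ← h1, sub_self]
      rcases mul_eq_zero.1 h4 with h5 | h5
      · exact sub_eq_zero.1 h5
      · exact absurd h5 hne
    rw [Complex.exp_eq_one_iff] at h3
    obtain ⟨n, hn⟩ := h3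
    apply hdj
    have h5 : (j : ℂ) = n * d := by
      have h6 : (j : ℂ) * ((2 * Real.pi / d : ℝ) : ℂ) * Complex.I =
          (j / d) * (2 * Real.pi * Complex.I) := by
        push_cast
        field_simp
      rw [h6] at hn
      have h7 : (j : ℂ) / d = n := mul_right_cancel₀ Complex.two_pi_I_ne_zero hn
      rw [← h7]
      field_simp
    have h8 : (j : ℤ) = n * d := by exact_mod_cast h5
    exact Int.natCast_dvd_natCast.1 ⟨n, by rw [h8]; ring⟩
  obtain ⟨w, rfl⟩ := hdj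
  have hdisc : ∀ y ∈ Metric.ball (0 : Fin N → ℂ) 1, ∀ t : ℂ, ‖t‖ ≤ 1 →
      g (t • y) = t ^ w * g y := fun y hy t ht => kcHom_disc hg hd hinv hy ht
  -- the extension
  let τ : (Fin N → ℂ) → ℂ := fun y => ((1 / (2 * (1 + ‖y‖)) : ℝ) : ℂ)
  have hτpos : ∀ y : Fin N → ℂ, (0 : ℝ) < 1 / (2 * (1 + ‖y‖)) := fun y => by positivity
  have hτ0 : ∀ y, τ y ≠ 0 := fun y => by
    have := (hτpos y).ne'
    exact Complex.ofReal_ne_zero.2 this
  have hτn : ∀ y, ‖τ y‖ = 1 / (2 * (1 + ‖y‖)) := fun y => by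
    show ‖((1 / (2 * (1 + ‖y‖)) : ℝ) : ℂ)‖ = _
    rw [Complex.norm_real, Real.norm_of_nonneg (hτpos y).le]
  have hτhalf : ∀ y, ‖τ y • y‖ ≤ 1 / 2 := fun y => by
    rw [norm_smul, hτn, div_mul_eq_mul_div, one_mul, div_le_div_iff₀ (by positivity) (by norm_num)]
    nlinarith [norm_nonneg y]
  let G : (Fin N → ℂ) → ℂ := fun y => (τ y ^ w)⁻¹ * g (τ y • y)
  have hG : ∀ (y : Fin N → ℂ) (s : ℂ), s ≠ 0 → ‖s • y‖ < 1 →
      G y = (s ^ w)⁻¹ * g (s • y) := by
    intro y s hs hsy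
    have key : ∀ a b : ℂ, a ≠ 0 → b ≠ 0 → ‖a • y‖ < 1 → ‖b‖ ≤ ‖a‖ →
        (b ^ w)⁻¹ * g (b • y) = (a ^ w)⁻¹ * g (a • y) := by
      intro a b ha hb hay hab
      have h1 : b • y = (b / a) • (a • y) := by
        rw [smul_smul, div_mul_cancel₀ _ ha]
      rw [h1, hdisc (a • y) (by simpa using hay) (b / a) (by
        rw [norm_div]
        exact div_le_one_of_le₀ hab (norm_nonneg a)), div_pow]
      have hbw : b ^ w ≠ 0 := pow_ne_zero _ hb
      have haw : a ^ w ≠ 0 := pow_ne_zero _ ha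
      field_simp
    have hty : ‖τ y • y‖ < 1 := lt_of_le_of_lt (hτhalf y) (by norm_num)
    rcases le_total ‖s‖ ‖τ y‖ with h | h
    · exact (key (τ y) s (hτ0 y) hs hty h).symm
    · exact key s (τ y) hs (hτ0 y) hsy h
  have hGg : ∀ y ∈ Metric.ball (0 : Fin N → ℂ) 1, G y = g y := by
    intro y hy
    have h1 := hG y 1 one_ne_zero (by rw [one_smul]; simpa using hy)
    rw [h1, one_pow, inv_one, one_mul, one_smul]
  obtain ⟨B, hB⟩ := (isCompact_closedBall (0 : Fin N → ℂ) (1 / 2)).exists_bound_of_continuousOn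
    (hg.continuousOn.mono (Metric.closedBall_subset_ball (by norm_num)))
  have hgrow : ∀ y, ‖G y‖ ≤ (2 ^ w * B) * (1 + ‖y‖) ^ w := by
    intro y
    show ‖(τ y ^ w)⁻¹ * g (τ y • y)‖ ≤ _
    rw [norm_mul, norm_inv, norm_pow, hτn]
    have h1 : ‖g (τ y • y)‖ ≤ B := hB _ (by simpa using hτhalf y)
    have h2 : ((1 / (2 * (1 + ‖y‖))) ^ w)⁻¹ = 2 ^ w * (1 + ‖y‖) ^ w := by
      rw [one_div, inv_pow, inv_inv, mul_pow]
    rw [h2]
    calc 2 ^ w * (1 + ‖y‖) ^ w * ‖g (τ y • y)‖ ≤ 2 ^ w * (1 + ‖y‖) ^ w * B := by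
          apply mul_le_mul_of_nonneg_left h1
          positivity
      _ = (2 ^ w * B) * (1 + ‖y‖) ^ w := by ring
  have hdiff : ∀ y i, Differentiable ℂ (fun t => G (Function.update y i t)) := by
    intro y i t0
    obtain ⟨r, hr, hlt⟩ : ∃ r : ℝ, 0 < r ∧ ‖(r : ℂ) • Function.update y i t0‖ < 1 := by
      have hr : (0 : ℝ) < 1 / (2 + ‖Function.update y i t0‖) := by positivity
      refine ⟨1 / (2 + ‖Function.update y i t0‖), hr, ?_⟩
      rw [norm_smul, Complex.norm_real, Real.norm_of_nonneg hr.le, div_mul_eq_mul_div, one_mul,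
        div_lt_one (by positivity)]
      linarith
    have hr0 : (r : ℂ) ≠ 0 := Complex.ofReal_ne_zero.2 hr.ne'
    have hupd : Differentiable ℂ (fun t : ℂ => Function.update y i t) := fun t =>
      (hasFDerivAt_update y t).differentiableAt
    have hus : Differentiable ℂ (fun t : ℂ => (r : ℂ) • (Function.update y i t : Fin N → ℂ)) :=
      Differentiable.const_smul hupd (r : ℂ)
    have hcont : Continuous fun t : ℂ => ‖(r : ℂ) • (Function.update y i t : Fin N → ℂ)‖ :=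
      continuous_norm.comp hus.continuous
    have hev : ∀ᶠ t in nhds t0, G (Function.update y i t) =
        ((r : ℂ) ^ w)⁻¹ * g ((r : ℂ) • Function.update y i t) := by
      have h1 : ∀ᶠ t in nhds t0, ‖(r : ℂ) • Function.update y i t‖ < 1 :=
        hcont.continuousAt.eventually_lt continuousAt_const hlt
      exact h1.mono fun t ht => hG (Function.update y i t) (r : ℂ) hr0 ht
    have hd1 : DifferentiableAt ℂ (fun t => ((r : ℂ) ^ w)⁻¹ *
        g ((r : ℂ) • Function.update y i t)) t0 := by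
      refine DifferentiableAt.const_mul ?_ _
      have h1 : DifferentiableAt ℂ g ((r : ℂ) • Function.update y i t0) :=
        (hg _ (by simpa using hlt)).differentiableAt
          (Metric.isOpen_ball.mem_nhds (by simpa using hlt))
      exact DifferentiableAt.comp (f := fun t : ℂ => (r : ℂ) • (Function.update y i t : Fin N → ℂ))
        t0 h1 (hus t0)
    exact hd1.congr_of_eventuallyEq hev
  obtain ⟨p, hp⟩ := kc_poly_growth G w hdiff _ hgrow
  refine ⟨p, fun y hy => by rw [← hGg y hy, hp], ?_⟩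
  refine kc_homog_of_equivariant p hd fun t ht y => ?_
  rw [← hp, ← hp]
  have htd : t ^ d ≠ 0 := pow_ne_zero _ ht
  have h1 := hG (t ^ d • y) (τ (t ^ d • y)) (hτ0 _) (lt_of_le_of_lt (hτhalf _) (by norm_num))
  have h2 := hG y (τ (t ^ d • y) * t ^ d) (mul_ne_zero (hτ0 _) htd) (by
    rw [← smul_smul]
    exact lt_of_le_of_lt (hτhalf _) (by norm_num))
  rw [h1, h2, smul_smul, mul_pow, pow_mul]
  have h3 : τ (t ^ d • y) ^ w ≠ 0 := pow_ne_zero _ (hτ0 _)
  have h4 : (t ^ d) ^ w ≠ 0 := pow_ne_zero _ htd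
  field_simp

end Pool.Agent.Lib_KF
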