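import Pool.Agent.Lib_KF.KCRot

/-!
# KC06: holomorphic functions on the polydisc which are homogeneous under the circle action
-/

open MeasureTheory
open scoped ENNReal NNReal

namespace Pool.Agent.Lib_KF

/-- One variable: an entire function of growth `(1 + |t|) ^ w` is a polynomial of degree `≤ w`. -/
private theorem kcPoly_one (w : ℕ) : ∀ (f : ℂ → ℂ), Differentiable ℂ f → ∀ K : ℝ,
    (∀ t, ‖f t‖ ≤ K * (1 + ‖t‖) ^ w) →
    ∃ p : Polynomial ℂ, p.natDegree ≤ w ∧ ∀ t, f t = p.eval t := by
  induction w with
  | zero =>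
    intro f hf K hK
    have hb : Bornology.IsBounded (Set.range f) := by
      rw [isBounded_iff_forall_norm_le]
      refine ⟨K, ?_⟩
      rintro _ ⟨t, rfl⟩
      simpa using hK t
    obtain ⟨c, hc⟩ := hf.exists_const_forall_eq_of_bounded hb
    refine ⟨Polynomial.C c, ?_, fun t => ?_⟩
    · rw [Polynomial.natDegree_C]
    · rw [Polynomial.eval_C, hc]
  | succ w ih =>
    intro f hf K hK
    have hK0 : 0 ≤ K := by
      have := (norm_nonneg _).trans (hK 0)
      simpa using this
    set g : ℂ → ℂ := dslope f 0 with hg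
    have hgd : Differentiable ℂ g := by
      rw [← differentiableOn_univ] at hf ⊢
      exact (Complex.differentiableOn_dslope Filter.univ_mem).2 hf
    have hfg : ∀ t, f t = f 0 + t * g t := by
      intro t
      have h := sub_smul_dslope f 0 t
      rw [sub_zero, smul_eq_mul] at h
      rw [hg, h]
      ring
    obtain ⟨B, hB⟩ := (isCompact_closedBall (0 : ℂ) 1).exists_bound_of_continuousOn
      hgd.continuous.continuousOn
    have hgrow : ∀ t, ‖g t‖ ≤ max (4 * K) B * (1 + ‖t‖) ^ w := by
      intro t
      have h1w : (1 : ℝ) ≤ (1 + ‖t‖) ^ w := one_le_pow₀ (by linarith [norm_nonneg t])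
      rcases le_or_gt ‖t‖ 1 with ht | ht
      · have h1 : ‖g t‖ ≤ B := hB t (by simpa using ht)
        have h2 : B ≤ max (4 * K) B := le_max_right _ _
        have h3 : 0 ≤ max (4 * K) B := le_trans (by positivity) (le_max_left _ _)
        nlinarith
      · have h1 : t * g t = f t - f 0 := by
          rw [hfg t]
          ring
        have h2 : ‖t‖ * ‖g t‖ ≤ K * (1 + ‖t‖) ^ (w + 1) + K := by
          rw [← norm_mul, h1]
          have h3 : ‖f 0‖ ≤ K := by simpa using hK 0
          exact (norm_sub_le _ _).trans (add_le_add (hK t) h3)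
        have h4 : K ≤ K * (1 + ‖t‖) ^ (w + 1) := by
          have : (1 : ℝ) ≤ (1 + ‖t‖) ^ (w + 1) := one_le_pow₀ (by linarith [norm_nonneg t])
          nlinarith
        have h5 : ‖t‖ * ‖g t‖ ≤ ‖t‖ * (4 * K * (1 + ‖t‖) ^ w) := by
          calc ‖t‖ * ‖g t‖ ≤ 2 * (K * (1 + ‖t‖) ^ (w + 1)) := by linarith
            _ = 2 * K * (1 + ‖t‖) ^ w * (1 + ‖t‖) := by ring
            _ ≤ 2 * K * (1 + ‖t‖) ^ w * (2 * ‖t‖) := by
                apply mul_le_mul_of_nonneg_left _ (by positivity)
                linarith
            _ = ‖t‖ * (4 * K * (1 + ‖t‖) ^ w) := by ring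
        have h6 : ‖g t‖ ≤ 4 * K * (1 + ‖t‖) ^ w := le_of_mul_le_mul_left h5 (by linarith)
        exact h6.trans (mul_le_mul_of_nonneg_right (le_max_left _ _) (by positivity))
    obtain ⟨p, hp1, hp2⟩ := ih g hgd _ hgrow
    refine ⟨Polynomial.C (f 0) + Polynomial.X * p, ?_, fun t => ?_⟩
    · refine (Polynomial.natDegree_add_le _ _).trans (max_le ?_ ?_)
      · rw [Polynomial.natDegree_C]
        omega
      · refine Polynomial.natDegree_mul_le.trans ?_
        have := Polynomial.natDegree_X_le (R := ℂ)
        omega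
    · rw [hfg t, Polynomial.eval_add, Polynomial.eval_C, Polynomial.eval_mul, Polynomial.eval_X,
        hp2]

private theorem kcPoly_norm_cons {N : ℕ} (t : ℂ) (z : Fin N → ℂ) :
    ‖(Fin.cons t z : Fin (N + 1) → ℂ)‖ ≤ ‖t‖ + ‖z‖ := by
  rw [pi_norm_le_iff_of_nonneg (by positivity)]
  intro i
  refine Fin.cases ?_ (fun j => ?_) i
  · rw [Fin.cons_zero]
    linarith [norm_nonneg z]
  · rw [Fin.cons_succ]
    have := norm_le_pi_norm z j
    linarith [norm_nonneg t]

private theorem kcPoly_eval {N : ℕ} (y : Fin (N + 1) → ℂ) (b : Polynomial ℂ) :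
    MvPolynomial.eval y (Polynomial.aeval (MvPolynomial.X 0 : MvPolynomial (Fin (N + 1)) ℂ) b) =
      b.eval (y 0) := by
  induction b using Polynomial.induction_on' with
  | add p q hp hq => rw [map_add, map_add, hp, hq, Polynomial.eval_add]
  | monomial n a =>
    rw [Polynomial.aeval_monomial, map_mul, map_pow, MvPolynomial.eval_X, Polynomial.eval_monomial,
      MvPolynomial.algebraMap_eq, MvPolynomial.eval_C]

/-- An entire function of polynomial growth is a polynomial. Proof: in each variable it is a
polynomial of degree at most `w` (Cauchy estimates / Liouville), so Lagrange interpolation at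
`w + 1` points in one variable after the other (induction on `N`) gives a polynomial. -/
theorem kc_poly_growth {N : ℕ} (G : (Fin N → ℂ) → ℂ) (w : ℕ)
    (hG : ∀ y i, Differentiable ℂ (fun t => G (Function.update y i t))) (C : ℝ)
    (hC : ∀ y, ‖G y‖ ≤ C * (1 + ‖y‖) ^ w) :
    ∃ p : MvPolynomial (Fin N) ℂ, ∀ y, G y = MvPolynomial.eval y p := by
  classical
  induction N generalizing C with
  | zero =>
    refine ⟨MvPolynomial.C (G 0), fun y => ?_⟩
    rw [MvPolynomial.eval_C, Subsingleton.elim y 0]
  | succ N ih =>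
    have hC0 : 0 ≤ C := by
      have := (norm_nonneg _).trans (hC 0)
      simpa using this
    have hsub : ∀ (t : ℂ) (z : Fin N → ℂ), ‖G (Fin.cons t z)‖ ≤
        C * ((1 + ‖t‖) * (1 + ‖z‖)) ^ w := by
      intro t z
      refine (hC _).trans ?_
      apply mul_le_mul_of_nonneg_left _ hC0
      apply pow_le_pow_left₀ (by positivity)
      have h1 := kcPoly_norm_cons t z
      nlinarith [mul_nonneg (norm_nonneg t) (norm_nonneg z)]
    -- polynomials in the first variable
    have hfirst : ∀ z : Fin N → ℂ, ∃ p : Polynomial ℂ, p.natDegree ≤ w ∧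
        ∀ t, G (Fin.cons t z) = p.eval t := by
      intro z
      refine kcPoly_one w (fun t => G (Fin.cons t z)) ?_ (C * (1 + ‖z‖) ^ w) ?_
      · have h := hG (Fin.cons 0 z) 0
        simp only [Fin.update_cons_zero] at h
        exact h
      · intro t
        refine (hsub t z).trans (le_of_eq ?_)
        rw [mul_pow]
        ring
    have hrest : ∀ s : ℂ, ∃ p : MvPolynomial (Fin N) ℂ,
        ∀ z, G (Fin.cons s z) = MvPolynomial.eval z p := by
      intro s
      refine ih (fun z => G (Fin.cons s z)) ?_ (C * (1 + ‖s‖) ^ w) ?_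
      · intro z i
        have h := hG (Fin.cons s z) i.succ
        simp only [← Fin.cons_update] at h
        exact h
      · intro z
        refine (hsub s z).trans (le_of_eq ?_)
        rw [mul_pow]
        ring
    choose q hq using hrest
    let v : ℕ → ℂ := fun j => (j : ℂ)
    have hv : Set.InjOn v (Finset.range (w + 1)) := fun a _ b _ h => Nat.cast_injective h
    refine ⟨∑ j ∈ Finset.range (w + 1), MvPolynomial.rename Fin.succ (q (v j)) *
      Polynomial.aeval (MvPolynomial.X 0) (Lagrange.basis (Finset.range (w + 1)) v j),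
      fun y => ?_⟩
    obtain ⟨p, hp1, hp2⟩ := hfirst (Fin.tail y)
    have hdeg : p.degree < (Finset.range (w + 1)).card := by
      rw [Finset.card_range]
      refine lt_of_le_of_lt Polynomial.degree_le_natDegree ?_
      exact_mod_cast Nat.lt_succ_of_le hp1
    have hL := Lagrange.eq_interpolate hv hdeg
    have h1 : G y = p.eval (y 0) := by
      rw [← hp2, Fin.cons_self_tail]
    rw [h1, hL, Lagrange.interpolate_apply, Polynomial.eval_finsetSum, map_sum]
    refine Finset.sum_congr rfl fun j _ => ?_
    rw [Polynomial.eval_mul, Polynomial.eval_C, map_mul, kcPoly_eval, MvPolynomial.eval_rename,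
      ← hp2, hq]
    rfl

end Pool.Agent.Lib_KF
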