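import Pool.Agent.Lib_KF.KCBase

/-!
# KC02: square integrable holomorphic functions of one variable extend over finitely many points
-/

open MeasureTheory
open scoped ENNReal NNReal

namespace Pool.Agent.Lib_KF

section Aux

open Complex Set Metric

private theorem kcRem_rot (c : ℂ) (θ : ℝ) :
    MeasurePreserving (fun w : ℂ => c + (w - c) * circleMap 0 1 θ) := by
  have h1 : MeasurePreserving (fun w : ℂ => w - c) := measurePreserving_sub_right volume c
  have h2 : MeasurePreserving (fun w : ℂ => w * circleMap 0 1 θ) := by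
    have h := (rotation (Circle.exp θ)).measurePreserving
    convert h using 1
    funext w
    rw [rotation_apply, Circle.coe_exp, circleMap]
    simp [mul_comm]
  have h3 : MeasurePreserving (fun w : ℂ => c + w) := measurePreserving_add_left volume c
  exact h3.comp (h2.comp h1)

/-- Mean value inequality for `|F|²` on rotation invariant sets. -/
private theorem kcRem_mean {F : ℂ → ℂ} {c : ℂ} {ρ : ℝ}
    (hF : ∀ z, ‖z - c‖ ≤ ρ → DifferentiableAt ℂ F z) (hFm : Measurable F) {T : Set ℝ}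
    (hT : MeasurableSet T) (hTρ : ∀ t ∈ T, t ≤ ρ) :
    ENNReal.ofReal (‖F c‖ ^ 2) * volume {w : ℂ | ‖w - c‖ ∈ T} ≤
      ∫⁻ w in {w : ℂ | ‖w - c‖ ∈ T}, ENNReal.ofReal (‖F w‖ ^ 2) := by
  set D : Set ℂ := {w : ℂ | ‖w - c‖ ∈ T} with hD
  have hDm : MeasurableSet D := by
    have : Measurable (fun w : ℂ => ‖w - c‖) := by fun_prop
    exact this hT
  have hgm : Measurable (fun w : ℂ => ENNReal.ofReal (‖F w‖ ^ 2)) := by fun_prop
  set A := ∫⁻ w in D, ENNReal.ofReal (‖F w‖ ^ 2) with hA
  have hrot : ∀ θ : ℝ, ∫⁻ w in D, ENNReal.ofReal (‖F (c + (w - c) * circleMap 0 1 θ)‖ ^ 2) = A := by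
    intro θ
    have h := (kcRem_rot c θ).setLIntegral_comp_preimage hDm hgm
    rw [hA, ← h]
    congr 2
    ext w
    simp [hD]
  have hswap : ∫⁻ θ in Ioc (0 : ℝ) (2 * Real.pi), ∫⁻ w in D,
      ENNReal.ofReal (‖F (c + (w - c) * circleMap 0 1 θ)‖ ^ 2) =
      ∫⁻ w in D, ∫⁻ θ in Ioc (0 : ℝ) (2 * Real.pi),
        ENNReal.ofReal (‖F (c + (w - c) * circleMap 0 1 θ)‖ ^ 2) := by
    refine lintegral_lintegral_swap ?_
    refine Measurable.aemeasurable ?_
    have h1 : Measurable (fun p : ℝ × ℂ => c + (p.2 - c) * circleMap 0 1 p.1) := by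
      have : Continuous (fun p : ℝ × ℂ => c + (p.2 - c) * circleMap 0 1 p.1) := by
        unfold circleMap
        fun_prop
      exact this.measurable
    exact hgm.comp h1
  have hvol : volume (Ioc (0 : ℝ) (2 * Real.pi)) = ENNReal.ofReal (2 * Real.pi) := by
    rw [Real.volume_Ioc, sub_zero]
  have hpt : ∀ w ∈ D, ENNReal.ofReal (2 * Real.pi) * ENNReal.ofReal (‖F c‖ ^ 2) ≤
      ∫⁻ θ in Ioc (0 : ℝ) (2 * Real.pi),
        ENNReal.ofReal (‖F (c + (w - c) * circleMap 0 1 θ)‖ ^ 2) := by
    intro w hw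
    have hwρ : ‖w - c‖ ≤ ρ := hTρ _ hw
    set G : ℂ → ℂ := fun z => (F (c + (w - c) * z)) ^ 2 with hG
    have hGd : ∀ z : ℂ, ‖z‖ ≤ 1 → DifferentiableAt ℂ G z := by
      intro z hz
      have h1 : DifferentiableAt ℂ F (c + (w - c) * z) := by
        apply hF
        rw [add_sub_cancel_left, norm_mul]
        calc ‖w - c‖ * ‖z‖ ≤ ‖w - c‖ * 1 := by gcongr
          _ ≤ ρ := by rw [mul_one]; exact hwρ
      have h2 : DifferentiableAt ℂ (fun z => c + (w - c) * z) z := by fun_prop
      exact (DifferentiableAt.comp z h1 h2).pow 2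
    have hav : Real.circleAverage G 0 1 = G 0 := by
      apply circleAverage_of_differentiable_on_off_countable (s := ∅) countable_empty
      · intro z hz
        refine (hGd z ?_).continuousAt.continuousWithinAt
        simpa using hz
      · intro z hz
        refine hGd z ?_
        have := hz.1
        rw [mem_ball_zero_iff, abs_one] at this
        exact this.le
    have h0 : G 0 = F c ^ 2 := by simp [hG]
    rw [h0, Real.circleAverage_def] at hav
    have h3 : ∫ θ in (0 : ℝ)..2 * Real.pi, G (circleMap 0 1 θ) = ((2 * Real.pi : ℝ) : ℂ) * F c ^ 2 := by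
      rw [← hav, real_smul, ← mul_assoc, ← ofReal_mul, mul_inv_cancel₀ Real.two_pi_pos.ne']
      simp
    rw [intervalIntegral.integral_of_le Real.two_pi_pos.le] at h3
    have h4 := enorm_integral_le_lintegral_enorm (μ := volume.restrict (Ioc (0 : ℝ) (2 * Real.pi)))
      (fun θ => G (circleMap 0 1 θ))
    rw [h3] at h4
    refine le_trans (le_of_eq ?_) (h4.trans (le_of_eq ?_))
    · rw [← ENNReal.ofReal_mul Real.two_pi_pos.le, ← ofReal_norm, norm_mul, norm_pow,
        Complex.norm_real, Real.norm_of_nonneg Real.two_pi_pos.le]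
    · refine lintegral_congr fun θ => ?_
      rw [← ofReal_norm, hG, norm_pow]
  have h5 : ENNReal.ofReal (2 * Real.pi) * ENNReal.ofReal (‖F c‖ ^ 2) * volume D ≤
      A * ENNReal.ofReal (2 * Real.pi) := by
    calc ENNReal.ofReal (2 * Real.pi) * ENNReal.ofReal (‖F c‖ ^ 2) * volume D
        = ∫⁻ _ in D, ENNReal.ofReal (2 * Real.pi) * ENNReal.ofReal (‖F c‖ ^ 2) := by
          rw [setLIntegral_const]
      _ ≤ ∫⁻ w in D, ∫⁻ θ in Ioc (0 : ℝ) (2 * Real.pi),
        ENNReal.ofReal (‖F (c + (w - c) * circleMap 0 1 θ)‖ ^ 2) := setLIntegral_mono' hDm hpt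
      _ = A * ENNReal.ofReal (2 * Real.pi) := by
          rw [← hswap, lintegral_congr hrot, setLIntegral_const, hvol]
  have h6 : ENNReal.ofReal (2 * Real.pi) ≠ 0 := by
    simpa using Real.two_pi_pos
  rw [mul_comm A, mul_assoc] at h5
  exact (ENNReal.mul_le_mul_iff_right h6 ENNReal.ofReal_ne_top).1 h5

/-- The growth estimate at a possible singularity. -/
private theorem kcRem_tendsto {s : Set ℂ} {c : ℂ} (hs : IsOpen s) (hc : c ∈ s) {f : ℂ → ℂ}
    (hf : DifferentiableOn ℂ f (s \ {c})) (hL2 : ∫⁻ z in s, ‖f z‖ₑ ^ 2 ≠ ⊤) :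
    Filter.Tendsto (fun z => f z * (z - c)) (nhdsWithin c {c}ᶜ) (nhds 0) := by
  classical
  set s' : Set ℂ := s \ {c} with hs'
  have hs'o : IsOpen s' := hs.sdiff isClosed_singleton
  set F : ℂ → ℂ := s'.piecewise f 0 with hF
  have hFm : Measurable F :=
    hf.continuousOn.measurable_piecewise continuousOn_const hs'o.measurableSet
  have hFd : ∀ z ∈ s', DifferentiableAt ℂ F z := by
    intro z hz
    have h1 : DifferentiableAt ℂ f z := hf.differentiableAt (hs'o.mem_nhds hz)
    refine h1.congr_of_eventuallyEq ?_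
    filter_upwards [hs'o.mem_nhds hz] with w hw
    rw [hF, Set.piecewise_eq_of_mem _ _ _ hw]
  obtain ⟨r, hr, hball⟩ := Metric.isOpen_iff.1 hs c hc
  -- the integrals over shrinking balls
  have hJ : Filter.Tendsto (fun z : ℂ => ∫⁻ w in closedBall c (2 * ‖z - c‖),
      (s.indicator (fun w => ‖f w‖ₑ ^ 2)) w) (nhdsWithin c {c}ᶜ) (nhds 0) := by
    refine tendsto_setLIntegral_zero (μ := volume) ?_ ?_
    · rw [lintegral_indicator hs.measurableSet]
      exact hL2
    · have h1 : Filter.Tendsto (fun z : ℂ => ENNReal.ofReal (2 * ‖z - c‖) ^ 2 * NNReal.pi)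
          (nhds c) (nhds (ENNReal.ofReal (2 * ‖c - c‖) ^ 2 * NNReal.pi)) := by
        have h2 : Continuous (fun z : ℂ => ENNReal.ofReal (2 * ‖z - c‖) ^ 2) := by
          refine (ENNReal.continuous_pow 2).comp ?_
          exact ENNReal.continuous_ofReal.comp (by fun_prop)
        exact ENNReal.Tendsto.mul_const h2.continuousAt (Or.inr ENNReal.coe_ne_top)
      rw [sub_self, norm_zero, mul_zero, ENNReal.ofReal_zero, zero_pow two_ne_zero, zero_mul] at h1
      refine (h1.mono_left nhdsWithin_le_nhds).congr fun z => ?_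
      rw [Function.comp_apply, Complex.volume_closedBall]
  have hest : ∀ᶠ z in nhdsWithin c {c}ᶜ, ENNReal.ofReal (‖f z * (z - c)‖ ^ 2 * (Real.pi / 4)) ≤
      ∫⁻ w in closedBall c (2 * ‖z - c‖), (s.indicator (fun w => ‖f w‖ₑ ^ 2)) w := by
    have hev : ∀ᶠ z in nhdsWithin c {c}ᶜ, z ∈ ball c (r / 2) :=
      nhdsWithin_le_nhds (ball_mem_nhds c (half_pos hr))
    filter_upwards [hev, self_mem_nhdsWithin] with z hz hzc
    have hzc' : z ≠ c := hzc
    have hd : 0 < ‖z - c‖ := norm_pos_iff.2 (sub_ne_zero.2 hzc')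
    have hzr : ‖z - c‖ < r / 2 := by rwa [mem_ball, dist_eq_norm] at hz
    have hin : ∀ w : ℂ, ‖w - z‖ ≤ ‖z - c‖ / 2 → w ∈ s' := by
      intro w hw
      refine ⟨hball ?_, ?_⟩
      · rw [mem_ball, dist_eq_norm]
        calc ‖w - c‖ = ‖(w - z) + (z - c)‖ := by rw [sub_add_sub_cancel]
          _ ≤ ‖w - z‖ + ‖z - c‖ := norm_add_le _ _
          _ < r := by linarith
      · intro h
        rw [mem_singleton_iff] at h
        rw [h, norm_sub_rev] at hw
        linarith
    have hsub : {w : ℂ | ‖w - z‖ ∈ Iic (‖z - c‖ / 2)} ⊆ closedBall c (2 * ‖z - c‖) := by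
      intro w hw
      have hw' : ‖w - z‖ ≤ ‖z - c‖ / 2 := hw
      rw [mem_closedBall, dist_eq_norm]
      calc ‖w - c‖ = ‖(w - z) + (z - c)‖ := by rw [sub_add_sub_cancel]
        _ ≤ ‖w - z‖ + ‖z - c‖ := norm_add_le _ _
        _ ≤ 2 * ‖z - c‖ := by linarith
    have hm := kcRem_mean (F := F) (c := z) (ρ := ‖z - c‖ / 2) (T := Iic (‖z - c‖ / 2))
      (fun w hw => hFd w (hin w hw)) hFm measurableSet_Iic (fun t ht => ht)
    have hset : {w : ℂ | ‖w - z‖ ∈ Iic (‖z - c‖ / 2)} = closedBall z (‖z - c‖ / 2) := by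
      ext w
      rw [mem_setOf_eq, mem_Iic, mem_closedBall, dist_eq_norm]
    have hFz : F z = f z := by
      rw [hF, Set.piecewise_eq_of_mem _ _ _ (hin z (by rw [sub_self, norm_zero]; positivity))]
    have hvol : ENNReal.ofReal (‖F z‖ ^ 2) * volume {w : ℂ | ‖w - z‖ ∈ Iic (‖z - c‖ / 2)} =
        ENNReal.ofReal (‖f z * (z - c)‖ ^ 2 * (Real.pi / 4)) := by
      rw [hset, Complex.volume_closedBall, hFz, ← ENNReal.ofReal_pow (by positivity)]
      have hpi : (NNReal.pi : ℝ≥0∞) = ENNReal.ofReal Real.pi := by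
        rw [← NNReal.coe_real_pi, ENNReal.ofReal_coe_nnreal]
      rw [hpi, ← ENNReal.ofReal_mul (by positivity), ← ENNReal.ofReal_mul (by positivity),
        norm_mul]
      congr 1
      ring
    rw [← hvol]
    refine hm.trans ?_
    rw [← lintegral_indicator (by rw [hset]; exact measurableSet_closedBall),
      ← lintegral_indicator measurableSet_closedBall]
    refine lintegral_mono fun w => ?_
    by_cases hw : w ∈ {w : ℂ | ‖w - z‖ ∈ Iic (‖z - c‖ / 2)}
    · rw [indicator_of_mem hw, indicator_of_mem (hsub hw)]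
      have hws : w ∈ s' := hin w hw
      rw [indicator_of_mem hws.1, hF, Set.piecewise_eq_of_mem _ _ _ hws, ← ofReal_norm,
        ENNReal.ofReal_pow (norm_nonneg _)]
    · rw [indicator_of_notMem hw]
      exact zero_le
  have h0 : Filter.Tendsto (fun z => ENNReal.ofReal (‖f z * (z - c)‖ ^ 2 * (Real.pi / 4)))
      (nhdsWithin c {c}ᶜ) (nhds 0) :=
    tendsto_of_tendsto_of_tendsto_of_le_of_le' tendsto_const_nhds hJ
      (Filter.Eventually.of_forall fun _ => zero_le) hest
  have h1 := (ENNReal.tendsto_toReal ENNReal.zero_ne_top).comp h0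
  rw [ENNReal.toReal_zero] at h1
  have h2 : Filter.Tendsto (fun z => ‖f z * (z - c)‖ ^ 2) (nhdsWithin c {c}ᶜ) (nhds 0) := by
    have h3 := h1.mul_const (4 / Real.pi)
    rw [zero_mul] at h3
    refine h3.congr fun z => ?_
    rw [Function.comp_apply, ENNReal.toReal_ofReal (by positivity)]
    field_simp
  have h4 := (Real.continuous_sqrt.tendsto 0).comp h2
  rw [Real.sqrt_zero] at h4
  rw [tendsto_zero_iff_norm_tendsto_zero]
  refine h4.congr fun z => ?_
  rw [Function.comp_apply, Real.sqrt_sq (norm_nonneg _)]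

/-- One singular point. -/
private theorem kcRem_one {s : Set ℂ} {c : ℂ} (hs : IsOpen s) (hc : c ∈ s) {f : ℂ → ℂ}
    (hf : DifferentiableOn ℂ f (s \ {c})) (hL2 : ∫⁻ z in s, ‖f z‖ₑ ^ 2 ≠ ⊤) :
    ∃ a : ℂ, DifferentiableOn ℂ (Function.update f c a) s := by
  refine ⟨_, Complex.differentiableOn_update_limUnder_of_isLittleO (hs.mem_nhds hc) hf ?_⟩
  rw [Asymptotics.isLittleO_iff_tendsto']
  · have h1 := kcRem_tendsto hs hc hf hL2
    have h2 : Filter.Tendsto (fun z => f c * (z - c)) (nhdsWithin c {c}ᶜ) (nhds 0) := by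
      have h3 : Continuous (fun z => f c * (z - c)) := by fun_prop
      have h4 := h3.tendsto c
      rw [sub_self, mul_zero] at h4
      exact h4.mono_left nhdsWithin_le_nhds
    have h5 := h1.sub h2
    rw [sub_zero] at h5
    refine h5.congr fun z => ?_
    rw [div_inv_eq_mul]
    ring
  · filter_upwards [self_mem_nhdsWithin] with z hz h
    exact absurd (sub_eq_zero.1 (inv_eq_zero.1 h)) hz

end Aux

/-- One variable: a square integrable holomorphic function on `U` minus a finite set extends.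
Proof: at a point `c` of `Z` the mean value property on the disc of radius `|z - c| / 2` about `z`
and Cauchy-Schwarz give `|z - c| |f z| ≤ C (∫_{B(z, |z - c| / 2)} |f|²) ^ (1/2) → 0`, so
`Complex.differentiableOn_update_limUnder_of_isLittleO` applies; then glue (`Z` is finite). -/
theorem kc_removable {U Z : Set ℂ} (hU : IsOpen U) (hZ : Z.Finite) {f : ℂ → ℂ}
    (hf : DifferentiableOn ℂ f (U \ Z)) (hL2 : ∫⁻ z in U, ‖f z‖ₑ ^ 2 ≠ ⊤) :
    ∃ g : ℂ → ℂ, DifferentiableOn ℂ g U ∧ Set.EqOn g f (U \ Z) := by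
  induction Z, hZ using Set.Finite.induction_on generalizing f with
  | empty => exact ⟨f, by rwa [Set.diff_empty] at hf, fun _ _ => rfl⟩
  | @insert a S haS hS ih =>
    by_cases haU : a ∈ U
    · have hso : IsOpen (U \ S) := hU.sdiff hS.isClosed
      have hset : U \ insert a S = (U \ S) \ {a} := by
        rw [← Set.union_singleton, Set.diff_diff]
      rw [hset] at hf
      have hL : ∫⁻ z in U \ S, ‖f z‖ₑ ^ 2 ≠ ⊤ :=
        ne_top_of_le_ne_top hL2 (lintegral_mono_set Set.diff_subset)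
      obtain ⟨b, hb⟩ := kcRem_one hso ⟨haU, haS⟩ hf hL
      have hL' : ∫⁻ z in U, ‖Function.update f a b z‖ₑ ^ 2 ≠ ⊤ := by
        have : ∫⁻ z in U, ‖Function.update f a b z‖ₑ ^ 2 = ∫⁻ z in U, ‖f z‖ₑ ^ 2 := by
          refine lintegral_congr_ae ?_
          have h1 : ∀ᵐ z : ℂ ∂(volume.restrict U), z ≠ a :=
            ae_restrict_of_ae (by
              rw [ae_iff]
              simp)
          filter_upwards [h1] with z hz
          rw [Function.update_of_ne hz]
        rwa [this]
      obtain ⟨g, hg, hge⟩ := ih hb hL'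
      refine ⟨g, hg, fun z hz => ?_⟩
      rw [hset] at hz
      rw [hge hz.1, Function.update_of_ne hz.2]
    · have hset : U \ insert a S = U \ S := by
        ext z
        constructor
        · rintro ⟨h1, h2⟩
          exact ⟨h1, fun h => h2 (Set.mem_insert_of_mem a h)⟩
        · rintro ⟨h1, h2⟩
          refine ⟨h1, fun h => ?_⟩
          rcases Set.mem_insert_iff.1 h with h | h
          · exact haU (h ▸ h1)
          · exact h2 h
      rw [hset] at hf ⊢
      exact ih hf hL2

end Pool.Agent.Lib_KF
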