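import Pool.Agent.Lib_KF.KCBase

/-!
# KC01: the circle action on the cone; polynomials equivariant under it
-/

open MeasureTheory
open scoped ENNReal NNReal

namespace Pool.Agent.Lib_KF

open Pool.Agent.Lib_GD

section Rot

variable {R : Type} [CommRing R] [Algebra ℂ R] (𝒜 : ℕ → Submodule ℂ R) [GradedAlgebra 𝒜]

/-- The action of `t ∈ ℂ` on the cone: `rot t ν f = t ^ j ν f` for `f ∈ 𝒜 j`. -/
theorem exists_rot (t : ℂ) (ν : R →ₐ[ℂ] ℂ) :
    ∃ ν' : R →ₐ[ℂ] ℂ, ∀ j, ∀ f ∈ 𝒜 j, ν' f = t ^ j * ν f := by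
  classical
  let F : ∀ j, 𝒜 j →ₗ[ℂ] ℂ := fun j => t ^ j • (ν.toLinearMap ∘ₗ (𝒜 j).subtype)
  have hone : F 0 (GradedMonoid.GOne.one (A := fun j => 𝒜 j)) = 1 := by
    change t ^ 0 * ν (1 : R) = 1
    simp
  have hmul : ∀ {i j : ℕ} (a : 𝒜 i) (c : 𝒜 j),
      F (i + j) (GradedMonoid.GMul.mul (A := fun j => 𝒜 j) a c) = F i a * F j c := by
    intro i j a c
    change t ^ (i + j) * ν ((a : R) * (c : R)) = (t ^ i * ν a) * (t ^ j * ν c)
    rw [map_mul, pow_add]
    ring
  let Φ : (DirectSum ℕ fun j => 𝒜 j) →ₐ[ℂ] ℂ := DirectSum.toAlgebra ℂ (fun j => 𝒜 j) F hone hmul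
  refine ⟨Φ.comp (DirectSum.decomposeAlgEquiv 𝒜).toAlgHom, fun j f hf => ?_⟩
  change Φ (DirectSum.decompose 𝒜 f) = _
  lift f to 𝒜 j using hf
  rw [DirectSum.decompose_coe]
  exact DirectSum.toSemiring_of (fun i => (F i).toAddMonoidHom) hone hmul j f

/-- see `exists_rot` -/
noncomputable def rot (t : ℂ) (ν : R →ₐ[ℂ] ℂ) : R →ₐ[ℂ] ℂ := (exists_rot 𝒜 t ν).choose

theorem rot_apply (t : ℂ) (ν : R →ₐ[ℂ] ℂ) {j : ℕ} {f : R} (hf : f ∈ 𝒜 j) :
    rot 𝒜 t ν f = t ^ j * ν f := (exists_rot 𝒜 t ν).choose_spec j f hf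

include 𝒜 in
private lemma KCRot_ext {ν ν' : R →ₐ[ℂ] ℂ} (h : ∀ j, ∀ f ∈ 𝒜 j, ν f = ν' f) : ν = ν' := by
  classical
  ext f
  induction f using DirectSum.Decomposition.inductionOn 𝒜 with
  | zero => simp
  | homogeneous m => exact h _ _ m.2
  | add a c ha hc => rw [map_add, map_add, ha, hc]

theorem rot_one (ν : R →ₐ[ℂ] ℂ) : rot 𝒜 1 ν = ν := by
  refine KCRot_ext 𝒜 fun j f hf => ?_
  rw [rot_apply 𝒜 _ _ hf, one_pow, one_mul]

theorem rot_rot (s t : ℂ) (ν : R →ₐ[ℂ] ℂ) : rot 𝒜 s (rot 𝒜 t ν) = rot 𝒜 (s * t) ν := by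
  refine KCRot_ext 𝒜 fun j f hf => ?_
  rw [rot_apply 𝒜 _ _ hf, rot_apply 𝒜 _ _ hf, rot_apply 𝒜 _ _ hf, mul_pow, mul_assoc]

theorem rot_mem_fib {n d : ℕ} {x : Fin (n + 1) → R} (hx : ∀ b, x b ∈ 𝒜 d) (t : ℂ)
    {y : Fin (n + 1) → ℂ} {ν : R →ₐ[ℂ] ℂ} (hν : ν ∈ fib x y) :
    rot 𝒜 t ν ∈ fib x (t ^ d • y) := by
  intro b
  rw [rot_apply 𝒜 _ _ (hx b), hν b, Pi.smul_apply, smul_eq_mul]

/-- For `t ≠ 0` the map `rot t` is a bijection of the fibres. -/
theorem rot_bijOn {n d : ℕ} {x : Fin (n + 1) → R} (hx : ∀ b, x b ∈ 𝒜 d) {t : ℂ} (ht : t ≠ 0)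
    (y : Fin (n + 1) → ℂ) : Set.BijOn (rot 𝒜 t) (fib x y) (fib x (t ^ d • y)) := by
  have h1 : ∀ ν, rot 𝒜 t⁻¹ (rot 𝒜 t ν) = ν := fun ν => by
    rw [rot_rot, inv_mul_cancel₀ ht, rot_one]
  have h2 : ∀ ν, rot 𝒜 t (rot 𝒜 t⁻¹ ν) = ν := fun ν => by
    rw [rot_rot, mul_inv_cancel₀ ht, rot_one]
  refine ⟨fun ν hν => rot_mem_fib 𝒜 hx t hν, fun ν _ ν' _ h => ?_, fun ν hν => ?_⟩
  · rw [← h1 ν, h, h1]
  · refine ⟨rot 𝒜 t⁻¹ ν, ?_, h2 ν⟩
    have h := rot_mem_fib 𝒜 hx t⁻¹ hν
    rwa [smul_smul, ← mul_pow, inv_mul_cancel₀ ht, one_pow, one_smul] at h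

/-- If `ν f` is invariant under the circle action over a non-empty open set, then `f` is
constant. -/
theorem kc_deg_zero {n : ℕ} {x : Fin (n + 1) → R} [IsDomain R] (hx : AlgebraicIndependent ℂ x)
    (hfin : Module.Finite (Algebra.adjoin ℂ (Set.range x)) R)
    (h0 : 𝒜 0 = Subalgebra.toSubmodule (⊥ : Subalgebra ℂ R)) (f : R)
    {U : Set (Fin (n + 1) → ℂ)} (hU : IsOpen U) (hne : U.Nonempty)
    (hinv : ∀ y ∈ U, ∀ ν ∈ fib x y, ∀ θ : ℝ, rot 𝒜 (Complex.exp (θ * Complex.I)) ν f = ν f) :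
    ∃ c : ℂ, f = algebraMap ℂ R c := by
  classical
  have hdec : ∀ g : R, ∑ j ∈ (DirectSum.decompose 𝒜 g).support,
      ((DirectSum.decompose 𝒜 g j : 𝒜 j) : R) = g := fun g =>
    DirectSum.sum_support_decompose 𝒜 g
  have hcomp : ∀ j, 1 ≤ j → ((DirectSum.decompose 𝒜 f j : 𝒜 j) : R) = 0 := by
    intro j hj
    refine fib_zero hx hfin _ hU hne fun y hy ν hν => ?_
    set P : Polynomial ℂ := ∑ i ∈ (DirectSum.decompose 𝒜 f).support,
      Polynomial.C (ν (DirectSum.decompose 𝒜 f i : 𝒜 i)) * Polynomial.X ^ i -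
      Polynomial.C (ν f) with hP
    have hroot : ∀ θ : ℝ, P.IsRoot (Complex.exp (θ * Complex.I)) := by
      intro θ
      have h := hinv y hy ν hν θ
      rw [Polynomial.IsRoot, hP, Polynomial.eval_sub, Polynomial.eval_finsetSum,
        Polynomial.eval_C]
      rw [← h, sub_eq_zero]
      conv_rhs => rw [← hdec f]
      rw [map_sum]
      refine Finset.sum_congr rfl fun i _ => ?_
      rw [rot_apply 𝒜 _ _ (DirectSum.decompose 𝒜 f i).2, Polynomial.eval_mul,
        Polynomial.eval_C, Polynomial.eval_pow, Polynomial.eval_X, mul_comm]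
    have hinf : Set.Infinite {z | P.IsRoot z} := by
      refine Set.Infinite.mono (s := (fun θ : ℝ => Complex.exp (θ * Complex.I)) ''
        Set.Ioo (0 : ℝ) 1) ?_ ?_
      · rintro _ ⟨θ, _, rfl⟩
        exact hroot θ
      · refine (Set.Ioo_infinite one_pos).image ?_
        intro a ha c hc hac
        have h3 : Complex.exp (a * Complex.I) = Complex.exp (c * Complex.I) := hac
        rw [Complex.exp_eq_exp_iff_exists_int] at h3
        obtain ⟨m, hm⟩ := h3
        have h4 : (a : ℂ) = c + m * (2 * Real.pi) := by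
          have h5 : (a : ℂ) * Complex.I = (c + m * (2 * Real.pi)) * Complex.I := by
            rw [hm]
            ring
          exact mul_right_cancel₀ Complex.I_ne_zero h5
        have h6 : a = c + m * (2 * Real.pi) := by exact_mod_cast h4
        have hpi := Real.pi_gt_three
        have h7 : (m : ℝ) = 0 := by
          by_contra hm0
          have h8 : 1 ≤ |(m : ℝ)| := by
            have : m ≠ 0 := fun h => hm0 (by simp [h])
            exact_mod_cast Int.one_le_abs this
          have h9 : |a - c| < 1 := abs_lt.2 ⟨by linarith [ha.1, ha.2, hc.1, hc.2],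
            by linarith [ha.1, ha.2, hc.1, hc.2]⟩
          have h10 : |a - c| = |(m : ℝ)| * (2 * Real.pi) := by
            rw [h6, add_sub_cancel_left, abs_mul, abs_of_pos (by positivity : 0 < 2 * Real.pi)]
          nlinarith
        rw [h6, h7]
        ring
    have hP0 : P = 0 := Polynomial.eq_zero_of_infinite_isRoot P hinf
    have hc : P.coeff j = ν ((DirectSum.decompose 𝒜 f j : 𝒜 j) : R) := by
      rw [hP, Polynomial.coeff_sub, Polynomial.finsetSum_coeff, Polynomial.coeff_C,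
        if_neg (by omega), sub_zero]
      simp only [Polynomial.coeff_C_mul, Polynomial.coeff_X_pow, mul_ite, mul_one, mul_zero]
      rw [Finset.sum_ite_eq]
      split_ifs with h
      · rfl
      · rw [DFinsupp.notMem_support_iff.1 h]
        simp
    rw [← hc, hP0, Polynomial.coeff_zero]
  have hf0 : f = ((DirectSum.decompose 𝒜 f 0 : 𝒜 0) : R) := by
    conv_lhs => rw [← hdec f]
    refine Finset.sum_eq_single 0 (fun j _ hj => hcomp j (by omega)) fun h => ?_
    rw [DFinsupp.notMem_support_iff.1 h]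
    rfl
  have hm : f ∈ 𝒜 0 := by
    rw [hf0]
    exact (DirectSum.decompose 𝒜 f 0).2
  rw [h0] at hm
  obtain ⟨c, hc⟩ := Algebra.mem_bot.1 (show f ∈ (⊥ : Subalgebra ℂ R) from hm)
  exact ⟨c, hc.symm⟩

end Rot

private lemma KCRot_eval {N : ℕ} {φ : MvPolynomial (Fin N) ℂ} {m : ℕ} (hφ : φ.IsHomogeneous m)
    (c : ℂ) (y : Fin N → ℂ) :
    MvPolynomial.eval (c • y) φ = c ^ m * MvPolynomial.eval y φ := by
  rw [MvPolynomial.eval_eq', MvPolynomial.eval_eq', Finset.mul_sum]
  refine Finset.sum_congr rfl fun s hs => ?_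
  have h1 : ∑ i, s i = m := by
    have h := hφ (MvPolynomial.mem_support_iff.1 hs)
    rw [← h, Finsupp.weight_apply, Finsupp.sum_fintype _ _ (fun i => by simp)]
    simp
  simp only [Pi.smul_apply, smul_eq_mul, mul_pow]
  rw [Finset.prod_mul_distrib, Finset.prod_pow_eq_pow_sum, h1]
  ring

/-- A polynomial with `p (t ^ d y) = t ^ e p (y)` for all `t ≠ 0`, `y` is zero or homogeneous of
degree `e / d`. -/
theorem kc_homog_of_equivariant {N : ℕ} (p : MvPolynomial (Fin N) ℂ) {d e : ℕ} (hd : 1 ≤ d)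
    (hp : ∀ t : ℂ, t ≠ 0 → ∀ y : Fin N → ℂ,
      MvPolynomial.eval (t ^ d • y) p = t ^ e * MvPolynomial.eval y p) :
    p = 0 ∨ ∃ w, d * w = e ∧ p.IsHomogeneous w := by
  have hcomp : ∀ w, d * w ≠ e → MvPolynomial.homogeneousComponent w p = 0 := by
    intro w hw
    refine MvPolynomial.funext fun y => ?_
    rw [map_zero]
    set P : Polynomial ℂ := ∑ i ∈ Finset.range (p.totalDegree + 1),
      Polynomial.C (MvPolynomial.eval y (MvPolynomial.homogeneousComponent i p)) *
        Polynomial.X ^ (d * i) - Polynomial.C (MvPolynomial.eval y p) * Polynomial.X ^ e with hP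
    have hroot : ∀ t : ℂ, t ≠ 0 → P.IsRoot t := by
      intro t ht
      rw [Polynomial.IsRoot, hP, Polynomial.eval_sub, Polynomial.eval_finsetSum,
        Polynomial.eval_mul, Polynomial.eval_C, Polynomial.eval_pow, Polynomial.eval_X,
        mul_comm, ← hp t ht y, sub_eq_zero]
      conv_rhs => rw [← MvPolynomial.sum_homogeneousComponent p]
      rw [map_sum]
      refine Finset.sum_congr rfl fun i _ => ?_
      rw [Polynomial.eval_mul, Polynomial.eval_C, Polynomial.eval_pow, Polynomial.eval_X]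
      rw [KCRot_eval (MvPolynomial.homogeneousComponent_isHomogeneous i p), ← pow_mul, mul_comm]
    have hP0 : P = 0 := by
      refine Polynomial.eq_zero_of_infinite_isRoot P ?_
      refine Set.Infinite.mono (s := {0}ᶜ) (fun t ht => hroot t ht) ?_
      exact (Set.finite_singleton _).infinite_compl
    have hc : P.coeff (d * w) = MvPolynomial.eval y (MvPolynomial.homogeneousComponent w p) := by
      rw [hP, Polynomial.coeff_sub, Polynomial.finsetSum_coeff, Polynomial.coeff_C_mul,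
        Polynomial.coeff_X_pow, if_neg hw, mul_zero, sub_zero]
      have h1 : ∀ i, d * w = d * i ↔ w = i := fun i =>
        ⟨fun h => Nat.eq_of_mul_eq_mul_left (by omega) h, fun h => by rw [h]⟩
      simp only [Polynomial.coeff_C_mul, Polynomial.coeff_X_pow, mul_ite, mul_one, mul_zero, h1]
      rw [Finset.sum_ite_eq]
      split_ifs with h
      · rfl
      · rw [MvPolynomial.homogeneousComponent_eq_zero _ _ (by
          rw [Finset.mem_range] at h
          omega), map_zero]
    rw [← hc, hP0, Polynomial.coeff_zero]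
  by_cases h : ∃ w, d * w = e
  · obtain ⟨w, hw⟩ := h
    refine Or.inr ⟨w, hw, ?_⟩
    have h1 : p = MvPolynomial.homogeneousComponent w p := by
      ext s
      rw [MvPolynomial.coeff_homogeneousComponent]
      split_ifs with h2
      · rfl
      · have h3 := congrArg (MvPolynomial.coeff s) (hcomp s.degree (fun h4 => h2
          (Nat.eq_of_mul_eq_mul_left (by omega) (h4.trans hw.symm))))
        rwa [MvPolynomial.coeff_homogeneousComponent, if_pos rfl, MvPolynomial.coeff_zero] at h3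
    rw [h1]
    exact MvPolynomial.homogeneousComponent_isHomogeneous w p
  · left
    rw [← MvPolynomial.sum_homogeneousComponent p]
    exact Finset.sum_eq_zero fun w _ => hcomp w fun hw => h ⟨w, hw⟩

/-- the substitution `X i ↦ X i * T` -/
private noncomputable def KCRotPhi (N : ℕ) :
    MvPolynomial (Fin N) ℂ →ₐ[ℂ] Polynomial (MvPolynomial (Fin N) ℂ) :=
  MvPolynomial.aeval fun i => Polynomial.C (MvPolynomial.X i) * Polynomial.X

private lemma KCRot_phi_monomial {N : ℕ} (s : Fin N →₀ ℕ) (c : ℂ) :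
    KCRotPhi N (MvPolynomial.monomial s c) =
      Polynomial.monomial s.degree (MvPolynomial.monomial s c) := by
  unfold KCRotPhi
  rw [MvPolynomial.aeval_monomial, Finsupp.prod_fintype _ _ (fun i => by simp)]
  simp only [mul_pow]
  rw [Finset.prod_mul_distrib, Finset.prod_pow_eq_pow_sum, MvPolynomial.monomial_eq,
    Finsupp.prod_fintype _ _ (fun i => by simp), ← Polynomial.C_mul_X_pow_eq_monomial,
    Finsupp.degree_eq_sum]
  simp only [map_mul, map_prod, map_pow]
  rw [mul_assoc]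
  rfl

private lemma KCRot_phi_coeff {N : ℕ} (p : MvPolynomial (Fin N) ℂ) (k : ℕ) :
    (KCRotPhi N p).coeff k = MvPolynomial.homogeneousComponent k p := by
  induction p using MvPolynomial.induction_on' with
  | monomial s c =>
    rw [KCRot_phi_monomial, Polynomial.coeff_monomial]
    ext s'
    rw [MvPolynomial.coeff_homogeneousComponent, MvPolynomial.coeff_monomial]
    by_cases h : s = s'
    · subst h
      by_cases h1 : s.degree = k
      · simp [h1]
      · simp [h1]
    · split_ifs <;> simp [MvPolynomial.coeff_monomial, h]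
  | add p q hp hq => rw [map_add, Polynomial.coeff_add, hp, hq, map_add]

/-- A factor of a non-zero homogeneous polynomial is homogeneous. -/
theorem kc_homog_of_dvd {N w : ℕ} {p q : MvPolynomial (Fin N) ℂ} (hq : q ≠ 0)
    (hqw : q.IsHomogeneous w) (hpq : p ∣ q) : ∃ w', p.IsHomogeneous w' := by
  obtain ⟨r, rfl⟩ := hpq
  have hinj : ∀ g : MvPolynomial (Fin N) ℂ, g ≠ 0 → KCRotPhi N g ≠ 0 := by
    intro g hg h
    refine hg ?_
    rw [← MvPolynomial.sum_homogeneousComponent g]
    exact Finset.sum_eq_zero fun k _ => by rw [← KCRot_phi_coeff, h, Polynomial.coeff_zero]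
  have hp0 := hinj p (left_ne_zero_of_mul hq)
  have hr0 := hinj r (right_ne_zero_of_mul hq)
  have h1 : KCRotPhi N (p * r) = Polynomial.monomial w (p * r) := by
    ext1 k
    rw [KCRot_phi_coeff, Polynomial.coeff_monomial]
    split_ifs with h
    · subst h
      exact MvPolynomial.homogeneousComponent_eq_self hqw
    · rw [MvPolynomial.homogeneousComponent_of_mem
        ((MvPolynomial.mem_homogeneousSubmodule _ _).2 hqw), if_neg (Ne.symm h)]
  rw [map_mul] at h1
  have h2 : (KCRotPhi N p).natDegree + (KCRotPhi N r).natDegree = w := by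
    rw [← Polynomial.natDegree_mul hp0 hr0, h1, Polynomial.natDegree_monomial_eq _ hq]
  have h3 : (KCRotPhi N p).natTrailingDegree + (KCRotPhi N r).natTrailingDegree = w := by
    rw [← Polynomial.natTrailingDegree_mul hp0 hr0, h1, Polynomial.natTrailingDegree_monomial hq]
  have h4 := Polynomial.natTrailingDegree_le_natDegree (KCRotPhi N p)
  have h5 := Polynomial.natTrailingDegree_le_natDegree (KCRotPhi N r)
  refine ⟨(KCRotPhi N p).natDegree, ?_⟩
  have h6 : MvPolynomial.homogeneousComponent (KCRotPhi N p).natDegree p = p := by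
    ext s
    rw [MvPolynomial.coeff_homogeneousComponent]
    split_ifs with h7
    · rfl
    · symm
      have h8 : (KCRotPhi N p).coeff s.degree = 0 := by
        rcases lt_or_gt_of_ne h7 with h9 | h9
        · exact Polynomial.coeff_eq_zero_of_lt_natTrailingDegree (by omega)
        · exact Polynomial.coeff_eq_zero_of_natDegree_lt h9
      rw [KCRot_phi_coeff] at h8
      have h10 := congrArg (MvPolynomial.coeff s) h8
      rwa [MvPolynomial.coeff_homogeneousComponent, if_pos rfl, MvPolynomial.coeff_zero] at h10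
  have h7 := MvPolynomial.homogeneousComponent_isHomogeneous (KCRotPhi N p).natDegree p
  rwa [h6] at h7

end Pool.Agent.Lib_KF
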