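import Pool.Agent.Lib_KF.SheetDefs
import Pool.Agent.Lib_KF.KCExtG
import Pool.Agent.Lib_KF.KCHom
import Pool.Agent.Lib_KF.KCRot
import Pool.Agent.Lib_MP_e0d435_ag.Null

/-!
# KC08: the traces `T_l = ∑_ν Φ (ν) ν (β l)` of a square integrable function are polynomials

`Φ (ν) = ∑ a, F a y * ν (β a)` for `ν` in the fibre over `y`.
-/

open MeasureTheory
open scoped ENNReal NNReal

namespace Pool.Agent.Lib_KF

open Pool.Agent.Lib_GD

variable {R : Type} [CommRing R] [Algebra ℂ R] {𝒜 : ℕ → Submodule ℂ R}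
    [GradedAlgebra 𝒜] {n r d : ℕ} {x : Fin (n + 1) → R} {G : R}

private theorem kctr_eval_smul {N w : ℕ} {p : MvPolynomial (Fin N) ℂ} (hp : p.IsHomogeneous w)
    (c : ℂ) (y : Fin N → ℂ) :
    MvPolynomial.eval (c • y) p = c ^ w * MvPolynomial.eval y p := by
  rw [MvPolynomial.eval_eq, MvPolynomial.eval_eq, Finset.mul_sum]
  refine Finset.sum_congr rfl fun m hm => ?_
  have h1 : ∑ i ∈ m.support, m i = w := by
    have := hp (MvPolynomial.mem_support_iff.1 hm)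
    rw [Finsupp.weight_apply] at this
    simpa [Finsupp.sum] using this
  have h2 : ∏ i ∈ m.support, (c • y) i ^ m i = c ^ w * ∏ i ∈ m.support, y i ^ m i := by
    rw [← h1, ← Finset.prod_pow_eq_pow_sum, ← Finset.prod_mul_distrib]
    refine Finset.prod_congr rfl fun i _ => ?_
    rw [Pi.smul_apply, smul_eq_mul, mul_pow]
  rw [h2]
  ring

private theorem kctr_differentiable {N : ℕ} (p : MvPolynomial (Fin N) ℂ) :
    Differentiable ℂ (fun y : Fin N → ℂ => MvPolynomial.eval y p) := by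
  induction p using MvPolynomial.induction_on with
  | C a => simp
  | add p q hp hq =>
    simp_rw [map_add]
    exact hp.fun_add hq
  | mul_X p i hp =>
    simp_rw [map_mul, MvPolynomial.eval_X]
    exact hp.fun_mul (differentiable_apply i)

/-- The trace polynomials are homogeneous of degree `(deg a + deg c) / d` where `h ≠ 0`
(`tr_eq` and `rot_bijOn`; `h (t ^ d y) = t ^ (d w) h y ≠ 0`). -/
theorem kc_tr_equivariant (h : IsFano 𝒜 n r d x G) {k : ℕ} (S : Sheets 𝒜 x k)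
    (a c : Fin (k + 1)) (t : ℂ) (ht : t ≠ 0) (y : Fin (n + 1) → ℂ)
    (hy : MvPolynomial.eval y S.h ≠ 0) :
    MvPolynomial.eval (t ^ d • y) (S.tr a c) =
      t ^ (S.deg a + S.deg c) * MvPolynomial.eval y (S.tr a c) := by
  have hy' : MvPolynomial.eval (t ^ d • y) S.h ≠ 0 := by
    rw [kctr_eval_smul S.h_hom]
    exact mul_ne_zero (pow_ne_zero _ (pow_ne_zero _ ht)) hy
  rw [← S.tr_eq _ hy', ← S.tr_eq _ hy, mul_finsum_mem' _ _ (S.fin y hy)]
  symm
  refine finsum_mem_eq_of_bijOn (rot 𝒜 t) (rot_bijOn 𝒜 h.x_mem ht y) fun ν _ => ?_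
  rw [rot_apply 𝒜 t ν (S.β_mem a), rot_apply 𝒜 t ν (S.β_mem c)]
  ring

/-- `T_l` is square integrable: `T_l = ∑ᶠ ν, Φ (ν) ν (β l)`, Cauchy-Schwarz over the
`k + 1` points of the fibre, `|ν (β l)| ≤ C` and `|ν G| ≤ C` (`fib_bdd`), and `ν G ≠ 0` outside a null
set (`fib_ne`, `GPn.mv_null`). -/
theorem kc_trace_L2 (h : IsFano 𝒜 n r d x G) (hG : G ≠ 0) {k : ℕ} (S : Sheets 𝒜 x k)
    (F : Fin (k + 1) → (Fin (n + 1) → ℂ) → ℂ)
    (hL2 : ∫⁻ y in W0 S.h, ∑' ν : fib x y,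
      ENNReal.ofReal (‖∑ a, F a y * ν.1 (S.β a)‖ ^ 2 * ‖ν.1 G‖ ^ (-2 / (r : ℝ))) ≠ ⊤)
    (l : Fin (k + 1)) :
    ∫⁻ y in W0 S.h, ‖∑ a, F a y * MvPolynomial.eval y (S.tr a l)‖ₑ ^ 2 ≠ ⊤ := by
  classical
  obtain ⟨C₁, hC₁⟩ := fib_bdd (n := n) h.x_finite (S.β l)
  obtain ⟨C₂, hC₂⟩ := fib_bdd (n := n) h.x_finite G
  have := h.domain
  obtain ⟨q, hq, hqG⟩ := fib_ne (n := n) h.x_finite G hG
  set A : ℝ := max C₂ 1 with hA
  have hA1 : 0 < A := lt_of_lt_of_le one_pos (le_max_right _ _)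
  have hr : (0 : ℝ) < r := by exact_mod_cast h.r_pos
  set K : ℝ := (k + 1) * C₁ ^ 2 * A ^ (2 / (r : ℝ)) with hK
  have hAp : 0 < A ^ (2 / (r : ℝ)) := Real.rpow_pos_of_pos hA1 _
  have hK0 : 0 ≤ K := by positivity
  have hpt : ∀ y ∈ W0 S.h, MvPolynomial.eval y q ≠ 0 →
      ‖∑ a, F a y * MvPolynomial.eval y (S.tr a l)‖ₑ ^ 2 ≤ ENNReal.ofReal K *
        ∑' ν : fib x y, ENNReal.ofReal
          (‖∑ a, F a y * ν.1 (S.β a)‖ ^ 2 * ‖ν.1 G‖ ^ (-2 / (r : ℝ))) := by
    intro y hy hyq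
    have hfin := S.fin y hy.2
    letI : Fintype (fib x y) := hfin.fintype
    have hyb : y ∈ Metric.ball (0 : Fin (n + 1) → ℂ) 1 := by
      rw [mem_ball_zero_iff]
      exact hy.1
    have hT : ∑ a, F a y * MvPolynomial.eval y (S.tr a l) =
        ∑ ν : fib x y, (∑ a, F a y * ν.1 (S.β a)) * ν.1 (S.β l) := by
      have h1 : ∀ a, MvPolynomial.eval y (S.tr a l) =
          ∑ ν : fib x y, ν.1 (S.β a) * ν.1 (S.β l) := by
        intro a
        rw [← S.tr_eq y hy.2 a l,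
          ← finsum_set_coe_eq_finsum_mem (f := fun ν : R →ₐ[ℂ] ℂ => ν (S.β a) * ν (S.β l)),
          finsum_eq_sum_of_fintype]
      simp_rw [h1, Finset.mul_sum, Finset.sum_mul]
      rw [Finset.sum_comm]
      refine Finset.sum_congr rfl fun ν _ => Finset.sum_congr rfl fun a _ => ?_
      ring
    have hcard : (Fintype.card (fib x y) : ℝ) = k + 1 := by
      have := S.card y hy.2
      rw [← Nat.card_coe_set_eq, Nat.card_eq_fintype_card] at this
      rw [this]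
      push_cast
      ring
    have hle : ‖∑ a, F a y * MvPolynomial.eval y (S.tr a l)‖ ^ 2 ≤
        K * ∑ ν : fib x y, ‖∑ a, F a y * ν.1 (S.β a)‖ ^ 2 * ‖ν.1 G‖ ^ (-2 / (r : ℝ)) := by
      rw [hT]
      have h2 : ‖∑ ν : fib x y, (∑ a, F a y * ν.1 (S.β a)) * ν.1 (S.β l)‖ ^ 2 ≤
          (k + 1) * ∑ ν : fib x y, ‖(∑ a, F a y * ν.1 (S.β a)) * ν.1 (S.β l)‖ ^ 2 := by
        refine (pow_le_pow_left₀ (norm_nonneg _) (norm_sum_le _ _) 2).trans ?_
        have := sq_sum_le_card_mul_sum_sq (s := (Finset.univ : Finset (fib x y)))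
          (f := fun ν => ‖(∑ a, F a y * ν.1 (S.β a)) * ν.1 (S.β l)‖)
        rw [Finset.card_univ, hcard] at this
        exact this
      refine h2.trans ?_
      rw [hK, mul_assoc, mul_assoc]
      refine mul_le_mul_of_nonneg_left ?_ (by positivity)
      rw [Finset.mul_sum, Finset.mul_sum]
      refine Finset.sum_le_sum fun ν _ => ?_
      have h3 : ‖ν.1 (S.β l)‖ ≤ C₁ := hC₁ y hyb ν.1 ν.2
      have h4 : ‖ν.1 G‖ ≤ A := (hC₂ y hyb ν.1 ν.2).trans (le_max_left _ _)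
      have h5 : 0 < ‖ν.1 G‖ := norm_pos_iff.2 (hqG y hyq ν.1 ν.2)
      have h6 : 1 ≤ A ^ (2 / (r : ℝ)) * ‖ν.1 G‖ ^ (-2 / (r : ℝ)) := by
        rw [neg_div, Real.rpow_neg h5.le, ← div_eq_mul_inv, one_le_div (Real.rpow_pos_of_pos h5 _)]
        exact Real.rpow_le_rpow h5.le h4 (by positivity)
      have h7 : ‖ν.1 (S.β l)‖ ^ 2 ≤ C₁ ^ 2 := pow_le_pow_left₀ (norm_nonneg _) h3 2
      rw [norm_mul, mul_pow]
      calc ‖∑ a, F a y * ν.1 (S.β a)‖ ^ 2 * ‖ν.1 (S.β l)‖ ^ 2 ≤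
            ‖∑ a, F a y * ν.1 (S.β a)‖ ^ 2 * C₁ ^ 2 :=
            mul_le_mul_of_nonneg_left h7 (by positivity)
        _ = ‖∑ a, F a y * ν.1 (S.β a)‖ ^ 2 * C₁ ^ 2 * 1 := by ring
        _ ≤ ‖∑ a, F a y * ν.1 (S.β a)‖ ^ 2 * C₁ ^ 2 *
            (A ^ (2 / (r : ℝ)) * ‖ν.1 G‖ ^ (-2 / (r : ℝ))) :=
            mul_le_mul_of_nonneg_left h6 (by positivity)
        _ = _ := by ring
    rw [tsum_fintype, ← ENNReal.ofReal_sum_of_nonneg (fun ν _ => by positivity),
      ← ENNReal.ofReal_mul hK0, ← ofReal_norm_eq_enorm, ← ENNReal.ofReal_pow (norm_nonneg _)]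
    exact ENNReal.ofReal_le_ofReal hle
  have hae : ∀ᵐ y ∂(volume.restrict (W0 S.h)), ‖∑ a, F a y * MvPolynomial.eval y (S.tr a l)‖ₑ ^ 2 ≤
      ENNReal.ofReal K * ∑' ν : fib x y, ENNReal.ofReal
          (‖∑ a, F a y * ν.1 (S.β a)‖ ^ 2 * ‖ν.1 G‖ ^ (-2 / (r : ℝ))) := by
    have h1 : ∀ᵐ y ∂(volume : Measure (Fin (n + 1) → ℂ)), MvPolynomial.eval y q ≠ 0 := by
      rw [ae_iff]
      simpa using GPn.mv_null q hq
    have h2 := ae_restrict_mem (μ := (volume : Measure (Fin (n + 1) → ℂ)))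
      (isOpen_W0 S.h).measurableSet
    filter_upwards [ae_restrict_of_ae h1, h2] with y hy1 hy2
    exact hpt y hy2 hy1
  refine ((lintegral_mono_ae hae).trans_lt ?_).ne
  rw [lintegral_const_mul' _ _ ENNReal.ofReal_ne_top]
  exact ENNReal.mul_lt_top ENNReal.ofReal_lt_top (lt_top_iff_ne_top.2 hL2)

/-- The traces are (homogeneous) polynomials: `kc_extend` with `U` the polydisc, then `kc_poly` with
`j = deg l` (the equivariance extends from `W0` to the polydisc by continuity). -/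
theorem kc_trace_poly (h : IsFano 𝒜 n r d x G) (hG : G ≠ 0) {k : ℕ} (S : Sheets 𝒜 x k)
    (F : Fin (k + 1) → (Fin (n + 1) → ℂ) → ℂ)
    (hF : ∀ a, DifferentiableOn ℂ (F a) (W0 S.h))
    (hinv : ∀ a, ∀ θ : ℝ, ∀ y ∈ W0 S.h,
      F a (Complex.exp (d * θ * Complex.I) • y) * Complex.exp (S.deg a * θ * Complex.I) = F a y)
    (hL2 : ∫⁻ y in W0 S.h, ∑' ν : fib x y,
      ENNReal.ofReal (‖∑ a, F a y * ν.1 (S.β a)‖ ^ 2 * ‖ν.1 G‖ ^ (-2 / (r : ℝ))) ≠ ⊤) :
    ∃ P : Fin (k + 1) → MvPolynomial (Fin (n + 1)) ℂ, ∀ l, ∀ y ∈ W0 S.h,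
      ∑ a, F a y * MvPolynomial.eval y (S.tr a l) = MvPolynomial.eval y (P l) := by
  have hW : W0 S.h = Metric.ball (0 : Fin (n + 1) → ℂ) 1 ∩ {y | MvPolynomial.eval y S.h ≠ 0} := by
    ext y
    simp [W0]
  have key : ∀ l, ∃ P : MvPolynomial (Fin (n + 1)) ℂ, ∀ y ∈ W0 S.h,
      ∑ a, F a y * MvPolynomial.eval y (S.tr a l) = MvPolynomial.eval y P := by
    intro l
    have hd : DifferentiableOn ℂ (fun y => ∑ a, F a y * MvPolynomial.eval y (S.tr a l))
        (Metric.ball (0 : Fin (n + 1) → ℂ) 1 ∩ {y | MvPolynomial.eval y S.h ≠ 0}) := by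
      rw [← hW]
      refine DifferentiableOn.fun_sum fun a _ => ?_
      exact (hF a).mul (kctr_differentiable _).differentiableOn
    have hi := kc_trace_L2 h hG S F hL2 l
    rw [hW] at hi
    obtain ⟨g, hg, hgT⟩ := kc_extend (U := Metric.ball (0 : Fin (n + 1) → ℂ) 1)
      Metric.isOpen_ball S.h S.h_ne hd hi
    rw [← hW] at hgT
    have hnorm : ∀ θ : ℝ, ‖Complex.exp (d * θ * Complex.I)‖ = 1 := by
      intro θ
      have := Complex.norm_exp_ofReal_mul_I ((d : ℝ) * θ)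
      push_cast at this
      exact this
    have hball : ∀ θ : ℝ, ∀ y ∈ Metric.ball (0 : Fin (n + 1) → ℂ) 1,
        Complex.exp (d * θ * Complex.I) • y ∈ Metric.ball (0 : Fin (n + 1) → ℂ) 1 := by
      intro θ y hy
      rw [mem_ball_zero_iff] at hy ⊢
      rw [norm_smul, hnorm, one_mul]
      exact hy
    have hinv0 : ∀ θ : ℝ, ∀ y ∈ W0 S.h,
        g (Complex.exp (d * θ * Complex.I) • y) =
          Complex.exp (S.deg l * θ * Complex.I) * g y := by
      intro θ y hy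
      set t : ℂ := Complex.exp (θ * Complex.I) with ht
      have hpow : ∀ m : ℕ, t ^ m = Complex.exp (m * θ * Complex.I) := by
        intro m
        rw [ht, ← Complex.exp_nat_mul]
        congr 1
        ring
      have ht0 : t ≠ 0 := Complex.exp_ne_zero _
      have hy' : Complex.exp (d * θ * Complex.I) • y ∈ W0 S.h := by
        rw [hW] at hy ⊢
        refine ⟨hball θ y hy.1, ?_⟩
        change MvPolynomial.eval (Complex.exp (d * θ * Complex.I) • y) S.h ≠ 0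
        rw [kctr_eval_smul S.h_hom]
        exact mul_ne_zero (pow_ne_zero _ (Complex.exp_ne_zero _)) hy.2
      rw [hgT hy', hgT hy]
      simp only
      rw [Finset.mul_sum]
      refine Finset.sum_congr rfl fun a _ => ?_
      have h1 := kc_tr_equivariant h S a l t ht0 y hy.2
      rw [hpow d] at h1
      rw [h1, pow_add, hpow, hpow, ← hinv a θ y hy]
      ring
    have hinv1 : ∀ θ : ℝ, ∀ y ∈ Metric.ball (0 : Fin (n + 1) → ℂ) 1,
        g (Complex.exp (d * θ * Complex.I) • y) =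
          Complex.exp (S.deg l * θ * Complex.I) * g y := by
      intro θ y hy
      by_contra hcon
      have hc : ContinuousOn (fun y => g (Complex.exp (d * θ * Complex.I) • y) -
          Complex.exp (S.deg l * θ * Complex.I) * g y)
          (Metric.ball (0 : Fin (n + 1) → ℂ) 1) := by
        refine ContinuousOn.sub ?_ (continuousOn_const.mul hg.continuousOn)
        refine hg.continuousOn.comp (continuous_const_smul _).continuousOn ?_
        intro z hz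
        exact hball θ z hz
      have ho : IsOpen (Metric.ball (0 : Fin (n + 1) → ℂ) 1 ∩
          (fun y => g (Complex.exp (d * θ * Complex.I) • y) -
          Complex.exp (S.deg l * θ * Complex.I) * g y) ⁻¹' {0}ᶜ) :=
        hc.isOpen_inter_preimage Metric.isOpen_ball isOpen_compl_singleton
      obtain ⟨z, hz, hzh⟩ := kc_exists_ne S.h S.h_ne ho ⟨y, hy, fun h0 => hcon (sub_eq_zero.1 h0)⟩
      have hz1 : z ∈ W0 S.h := by
        rw [hW]
        exact ⟨hz.1, hzh⟩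
      exact hz.2 (sub_eq_zero.2 (hinv0 θ z hz1))
    obtain ⟨p, hp, _⟩ := kc_poly hg h.d_pos hinv1
    refine ⟨p, fun y hy => ?_⟩
    have h1 := hgT hy
    simp only at h1
    rw [← h1]
    refine hp y ?_
    rw [hW] at hy
    exact hy.1
  choose P hP using key
  exact ⟨P, hP⟩

end Pool.Agent.Lib_KF
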