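import Pool.Agent.Lib_KF.Defs
import Pool.Agent.Lib_GD.GeomDefs

/-! Polarised varieties without a smoothness assumption. -/

namespace Pool.Agent.Lib_KF

open Pool.Agent.Lib_GD

/-- `R` is (up to finitely many degrees) a section ring of an ample line bundle on a projective
variety `X = Proj R` of dimension `n`. -/
structure IsPol {R : Type} [CommRing R] [Algebra ℂ R] (𝒜 : ℕ → Submodule ℂ R)
    [GradedAlgebra 𝒜] (n : ℕ) : Prop where
  domain : IsDomain R
  finiteType : Algebra.FiniteType ℂ R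
  connected : 𝒜 0 = Subalgebra.toSubmodule (⊥ : Subalgebra ℂ R)
  line : ∀ p : Ideal R, p.IsPrime → (∃ d > 0, ∃ f ∈ 𝒜 d, f ∉ p) →
    ∃ d, ∃ f ∈ 𝒜 d, ∃ g ∈ 𝒜 (d + 1), f ∉ p ∧ g ∉ p
  dim : Algebra.trdeg ℂ R = n + 1

variable {R : Type} [CommRing R] [Algebra ℂ R] {𝒜 : ℕ → Submodule ℂ R} [GradedAlgebra 𝒜]

theorem IsFano.isPol {n r d : ℕ} {x : Fin (n + 1) → R} {G : R} (h : IsFano 𝒜 n r d x G) :
    IsPol 𝒜 n := by
  classical
  have hdom := h.domain
  have hfin := h.x_finite
  refine ⟨h.domain, ?_, h.connected, h.line, ?_⟩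
  · have h0 : (Algebra.adjoin ℂ (Set.range x)).FG := by
      have := Subalgebra.fg_adjoin_finset (R := ℂ) (Finset.univ.image x)
      rwa [Finset.coe_image, Finset.coe_univ, Set.image_univ] at this
    have h1 : Algebra.FiniteType ℂ (Algebra.adjoin ℂ (Set.range x)) :=
      (Subalgebra.fg_iff_finiteType _).1 h0
    exact Algebra.FiniteType.trans h1 inferInstance
  · have halg : Algebra.IsAlgebraic (Algebra.adjoin ℂ (Set.range x)) R := inferInstance
    have htr : IsTranscendenceBasis ℂ x :=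
      h.x_indep.isTranscendenceBasis_iff_isAlgebraic.2 halg
    have h2 := htr.cardinalMk_eq_trdeg
    rw [← h2]
    simp

end Pool.Agent.Lib_KF
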