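import Pool.Agent.Lib_KF.PDefs
import Pool.Agent.Lib_GD.OrdL
import Pool.Agent.Lib_KF.POrdC

/-! G08: bound for vanishing orders at points with values in fields. -/

open PowerSeries

namespace Pool.Agent.Lib_KF

open Pool.Agent.Lib_GD

variable {R : Type} [CommRing R] [Algebra ℂ R] {𝒜 : ℕ → Submodule ℂ R} [GradedAlgebra 𝒜]
  {n : ℕ}

/-- a finitely generated nonzero algebra over the complex numbers has a complex point -/
private theorem OrdL_point (A : Type) [CommRing A] [Nontrivial A] [Algebra ℂ A]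
    [Algebra.FiniteType ℂ A] : Nonempty (A →ₐ[ℂ] ℂ) := by
  obtain ⟨M, hM⟩ := Ideal.exists_maximal A
  letI : Field (A ⧸ M) := Ideal.Quotient.field M
  haveI : Algebra.FiniteType ℂ (A ⧸ M) :=
    Algebra.FiniteType.of_surjective (Ideal.Quotient.mkₐ ℂ M)
      (Ideal.Quotient.mkₐ_surjective ℂ M)
  haveI : Module.Finite ℂ (A ⧸ M) := finite_of_finite_type_of_isJacobsonRing ℂ (A ⧸ M)
  haveI : Algebra.IsAlgebraic ℂ (A ⧸ M) := inferInstance
  exact ⟨(IsAlgClosed.lift : (A ⧸ M) →ₐ[ℂ] ℂ).comp (Ideal.Quotient.mkₐ ℂ M)⟩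

/-- G07b (T) at all points with values in a field. -/
theorem chart_ord_leP (h : IsPol 𝒜 n) (hn : 1 ≤ n) (c : Chart 𝒜 n) :
    ∃ C : ℕ, ∀ m, 1 ≤ m → ∀ (L : Type) [Field L] [Algebra ℂ L] (x : c.B →ₐ[ℂ] L)
      (v : Fin (secDim 𝒜 m) → L), v ≠ 0 →
      ∃ α : Fin n →₀ ℕ, α.degree ≤ C * m ∧
        ∑ i, x (c.dd α (c.ρ (secBasis 𝒜 m i))) * v i ≠ 0 := by
  classical
  obtain ⟨C, hC⟩ := chart_ord_le_CP h hn c
  refine ⟨C, fun m hm L _ _ x v hv => ?_⟩
  by_contra hcon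
  push Not at hcon
  obtain ⟨i0, hi0⟩ := Function.ne_iff.1 hv
  let S : Finset L := Finset.univ.image v ∪ {(v i0)⁻¹}
  let A : Subalgebra ℂ L := x.range ⊔ Algebra.adjoin ℂ (S : Set L)
  have hAfg : A.FG := by
    refine Subalgebra.FG.sup ?_ (Subalgebra.fg_adjoin_finset S)
    rw [← Algebra.map_top]
    exact (Algebra.FiniteType.out : (⊤ : Subalgebra ℂ c.B).FG).map x
  haveI : Algebra.FiniteType ℂ A := A.fg_iff_finiteType.1 hAfg
  obtain ⟨π⟩ := OrdL_point A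
  let x' : c.B →ₐ[ℂ] A := x.codRestrict A fun b =>
    (le_sup_left : x.range ≤ A) (AlgHom.mem_range_self x b)
  have hS : ∀ z ∈ S, z ∈ A := fun z hz =>
    (le_sup_right : Algebra.adjoin ℂ (S : Set L) ≤ A) (Algebra.subset_adjoin hz)
  have hvA : ∀ i, v i ∈ A := fun i => hS _ (by simp [S])
  have hinv : (v i0)⁻¹ ∈ A := hS _ (by simp [S])
  let cc : Fin (secDim 𝒜 m) → ℂ := fun i => π ⟨v i, hvA i⟩
  have hcc : cc i0 ≠ 0 := by
    intro h0
    have h1 : (⟨v i0, hvA i0⟩ : A) * ⟨(v i0)⁻¹, hinv⟩ = 1 := by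
      apply Subtype.ext
      exact mul_inv_cancel₀ hi0
    have h2 := congrArg π h1
    rw [map_mul, map_one] at h2
    change cc i0 * _ = 1 at h2
    rw [h0, zero_mul] at h2
    exact zero_ne_one h2
  obtain ⟨b1, b2, -⟩ := secBasis_specP h m
  have hs0 : ∑ i, cc i • secBasis 𝒜 m i ≠ 0 := by
    intro h0
    exact hcc (Fintype.linearIndependent_iff.1 b2 cc h0 i0)
  obtain ⟨α, hα, hne⟩ := hC m hm (π.comp x') (∑ i, cc i • secBasis 𝒜 m i)
    (Submodule.sum_mem _ fun i _ => Submodule.smul_mem _ _ (b1 i)) hs0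
  apply hne
  have h1 := hcon α hα
  have h2 : (∑ i, x' (c.dd α (c.ρ (secBasis 𝒜 m i))) * ⟨v i, hvA i⟩ : A) = 0 := by
    apply Subtype.ext
    rw [AddSubmonoidClass.coe_finset_sum]
    exact h1
  have h3 := congrArg π h2
  rw [map_sum, map_zero] at h3
  rw [map_sum, map_sum, map_sum, ← h3]
  refine Finset.sum_congr rfl fun i _ => ?_
  rw [map_mul, map_smul, map_smul, map_smul, smul_eq_mul, mul_comm]
  rfl

end Pool.Agent.Lib_KF
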