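import Pool.Agent.Lib_KF.RSol

/-! RS11: averaging over the circle. -/

open MeasureTheory Complex
open scoped ENNReal NNReal ContDiff ComplexConjugate

namespace Pool.Agent.Lib_KF

open Pool.Agent.Lib_GD GPn

variable {R : Type} [CommRing R] [Algebra ℂ R] {𝒜 : ℕ → Submodule ℂ R} [GradedAlgebra 𝒜]
  {n r d k M B : ℕ} {x : Fin (n + 1) → R} {G : R}

/-! ### Rotation of points -/

private theorem RAvg_hom_ext (f g : R →ₐ[ℂ] ℂ) (h : ∀ j, ∀ a ∈ 𝒜 j, f a = g a) : f = g := by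
  classical
  ext a
  rw [← DirectSum.sum_support_decompose 𝒜 a, map_sum, map_sum]
  exact Finset.sum_congr rfl fun j _ => h j _ (SetLike.coe_mem _)

private theorem RAvg_exists_rot (z : ℂ) (ν : R →ₐ[ℂ] ℂ) :
    ∃ μ : R →ₐ[ℂ] ℂ, ∀ j, ∀ a ∈ 𝒜 j, μ a = z ^ j * ν a := by
  classical
  have hone : (fun j => (z ^ j • (ν.toLinearMap.comp (𝒜 j).subtype) : 𝒜 j →ₗ[ℂ] ℂ)) 0
      (GradedMonoid.GOne.one (A := fun i => 𝒜 i)) = 1 := by
    change z ^ 0 • ν (1 : R) = 1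
    rw [pow_zero, one_smul, map_one]
  have hmul : ∀ {i j : ℕ} (a : 𝒜 i) (b : 𝒜 j),
      (fun j => (z ^ j • (ν.toLinearMap.comp (𝒜 j).subtype) : 𝒜 j →ₗ[ℂ] ℂ)) (i + j)
        (GradedMonoid.GMul.mul (A := fun i => 𝒜 i) a b) =
      (fun j => (z ^ j • (ν.toLinearMap.comp (𝒜 j).subtype) : 𝒜 j →ₗ[ℂ] ℂ)) i a *
      (fun j => (z ^ j • (ν.toLinearMap.comp (𝒜 j).subtype) : 𝒜 j →ₗ[ℂ] ℂ)) j b := by
    intro i j a b
    change z ^ (i + j) • ν ((a : R) * (b : R)) = (z ^ i • ν (a : R)) * (z ^ j • ν (b : R))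
    rw [map_mul, pow_add]
    simp only [smul_eq_mul]
    ring
  refine ⟨(DirectSum.toAlgebra ℂ (fun i => 𝒜 i)
      (fun j => z ^ j • (ν.toLinearMap.comp (𝒜 j).subtype)) hone @hmul).comp
        (DirectSum.decomposeAlgEquiv 𝒜).toAlgHom, fun j a ha => ?_⟩
  have h1 : (DirectSum.decomposeAlgEquiv 𝒜) a = DirectSum.of (fun i => 𝒜 i) j ⟨a, ha⟩ :=
    DirectSum.decompose_of_mem 𝒜 ha
  change (DirectSum.toAlgebra ℂ (fun i => 𝒜 i)
      (fun j => z ^ j • (ν.toLinearMap.comp (𝒜 j).subtype)) hone @hmul)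
        ((DirectSum.decomposeAlgEquiv 𝒜) a) = _
  rw [h1]
  exact DirectSum.toSemiring_of
    (fun j => (z ^ j • (ν.toLinearMap.comp (𝒜 j).subtype) : 𝒜 j →ₗ[ℂ] ℂ).toAddMonoidHom)
    hone @hmul j ⟨a, ha⟩

/-- the rotated point -/
private noncomputable def RAvg_rot (𝒜 : ℕ → Submodule ℂ R) [GradedAlgebra 𝒜] (z : ℂ)
    (ν : R →ₐ[ℂ] ℂ) : R →ₐ[ℂ] ℂ := Classical.choose (RAvg_exists_rot (𝒜 := 𝒜) z ν)

private theorem RAvg_rot_apply (z : ℂ) (ν : R →ₐ[ℂ] ℂ) (j : ℕ) (a : R) (ha : a ∈ 𝒜 j) :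
    RAvg_rot 𝒜 z ν a = z ^ j * ν a :=
  Classical.choose_spec (RAvg_exists_rot (𝒜 := 𝒜) z ν) j a ha

private theorem RAvg_rot_rot (z w : ℂ) (ν : R →ₐ[ℂ] ℂ) (h : z * w = 1) :
    RAvg_rot 𝒜 z (RAvg_rot 𝒜 w ν) = ν := by
  refine RAvg_hom_ext (𝒜 := 𝒜) _ _ fun j a ha => ?_
  rw [RAvg_rot_apply z _ j a ha, RAvg_rot_apply w _ j a ha, ← mul_assoc, ← mul_pow, h, one_pow,
    one_mul]

private theorem RAvg_rot_fib (hx : ∀ b, x b ∈ 𝒜 d) (z : ℂ) (y : Fin (n + 1) → ℂ)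
    (ν : R →ₐ[ℂ] ℂ) (hν : ν ∈ fib x y) : RAvg_rot 𝒜 z ν ∈ fib x (z ^ d • y) := by
  intro b
  rw [RAvg_rot_apply z ν d _ (hx b), hν b]
  rfl

private theorem RAvg_fib_range (hx : ∀ b, x b ∈ 𝒜 d) (z : ℂ) (hz : z ≠ 0) (y : Fin (n + 1) → ℂ)
    (σ : Fin (k + 1) → (R →ₐ[ℂ] ℂ)) (h2 : fib x y = Set.range σ) :
    fib x (z ^ d • y) = Set.range fun i => RAvg_rot 𝒜 z (σ i) := by
  ext μ
  constructor
  · intro hμ
    have h3 := RAvg_rot_fib hx z⁻¹ _ μ hμ
    rw [smul_smul, ← mul_pow, inv_mul_cancel₀ hz, one_pow, one_smul, h2] at h3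
    obtain ⟨i, hi⟩ := h3
    refine ⟨i, ?_⟩
    change RAvg_rot 𝒜 z (σ i) = μ
    rw [hi]
    exact RAvg_rot_rot _ _ _ (mul_inv_cancel₀ hz)
  · rintro ⟨i, rfl⟩
    refine RAvg_rot_fib hx z y _ ?_
    rw [h2]
    exact ⟨i, rfl⟩

private theorem RAvg_rot_inj (z : ℂ) (hz : z ≠ 0) (σ : Fin (k + 1) → (R →ₐ[ℂ] ℂ))
    (h1 : Function.Injective σ) : Function.Injective fun i => RAvg_rot 𝒜 z (σ i) := by
  intro i j hij
  apply h1
  have h3 : RAvg_rot 𝒜 z⁻¹ (RAvg_rot 𝒜 z (σ i)) = RAvg_rot 𝒜 z⁻¹ (RAvg_rot 𝒜 z (σ j)) :=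
    congrArg _ hij
  rwa [RAvg_rot_rot _ _ _ (inv_mul_cancel₀ hz), RAvg_rot_rot _ _ _ (inv_mul_cancel₀ hz)] at h3

omit [GradedAlgebra 𝒜] in
private theorem RAvg_famAt_mem {m : ℕ} (e : Fin (B + 1) → R) (he : ∀ l, e l ∈ 𝒜 m) (s : ℂ) :
    famAt e s ∈ 𝒜 m := by
  unfold famAt
  exact Submodule.sum_mem _ fun l _ => Submodule.smul_mem _ _ (he l)

private theorem RAvg_norm_rot (z : ℂ) (hz : ‖z‖ = 1) (ν : R →ₐ[ℂ] ℂ) (j : ℕ) (a : R)
    (ha : a ∈ 𝒜 j) : ‖RAvg_rot 𝒜 z ν a‖ = ‖ν a‖ := by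
  rw [RAvg_rot_apply z ν j a ha, norm_mul, norm_pow, hz, one_pow, one_mul]

private theorem RAvg_wph {m g : ℕ} (hG : G ∈ 𝒜 g) (e : Fin M → Fin (B + 1) → R)
    (he : ∀ i l, e i l ∈ 𝒜 m) (c ε : ℝ) (z : ℂ) (hz : ‖z‖ = 1) (ν : R →ₐ[ℂ] ℂ) (s : ℂ) :
    wph G r e c ε (RAvg_rot 𝒜 z ν) s = wph G r e c ε ν s := by
  unfold wph Ssum
  rw [RAvg_norm_rot z hz ν g G hG]
  congr 1
  refine Finset.prod_congr rfl fun i _ => ?_
  rw [RAvg_norm_rot z hz ν m _ (RAvg_famAt_mem (e i) (he i) s)]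
  congr 3
  refine Finset.sum_congr rfl fun i' _ => Finset.sum_congr rfl fun l _ => ?_
  rw [RAvg_norm_rot z hz ν m _ (he i' l)]

/-! ### The circle action -/

private theorem RAvg_eval {w : ℕ} (h : MvPolynomial (Fin (n + 1)) ℂ) (hh : h.IsHomogeneous w)
    (z : ℂ) (y : Fin (n + 1) → ℂ) :
    MvPolynomial.eval (z • y) h = z ^ w * MvPolynomial.eval y h := by
  rw [MvPolynomial.eval_eq', MvPolynomial.eval_eq', Finset.mul_sum]
  refine Finset.sum_congr rfl fun m hm => ?_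
  have h1 : ∑ i, m i = w := by
    have h2 := hh (MvPolynomial.mem_support_iff.1 hm)
    rw [← h2, Finsupp.weight_apply, Finsupp.sum_fintype _ _ (fun i => by simp)]
    simp
  simp only [Pi.smul_apply, smul_eq_mul, mul_pow, Finset.prod_mul_distrib]
  rw [Finset.prod_pow_eq_pow_sum, h1]
  ring

/-- the circle action -/
private noncomputable def RAvg_ro (d : ℕ) (t : ℝ) (p : (Fin (n + 1) → ℂ) × ℂ) :
    (Fin (n + 1) → ℂ) × ℂ := (Complex.exp (d * t * I) • p.1, p.2)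

private theorem RAvg_norm_exp (d : ℕ) (t : ℝ) : ‖Complex.exp (d * t * I)‖ = 1 := by
  have h : (d * t * I : ℂ) = ((d * t : ℝ) : ℂ) * I := by push_cast; ring
  rw [h]
  exact Complex.norm_exp_ofReal_mul_I _

private theorem RAvg_norm_exp1 (t : ℝ) : ‖Complex.exp (t * I)‖ = 1 :=
  Complex.norm_exp_ofReal_mul_I _

private theorem RAvg_exp_pow (d : ℕ) (t : ℝ) :
    Complex.exp (t * I) ^ d = Complex.exp (d * t * I) := by
  rw [← Complex.exp_nat_mul]
  congr 1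
  ring

private theorem RAvg_ro_add (d : ℕ) (s t : ℝ) (p : (Fin (n + 1) → ℂ) × ℂ) :
    RAvg_ro d s (RAvg_ro d t p) = RAvg_ro d (s + t) p := by
  unfold RAvg_ro
  simp only [smul_smul, ← Complex.exp_add]
  congr 3
  push_cast
  ring

private theorem RAvg_ro_zero (d : ℕ) (p : (Fin (n + 1) → ℂ) × ℂ) : RAvg_ro d 0 p = p := by
  unfold RAvg_ro
  simp

omit [GradedAlgebra 𝒜] in
private theorem RAvg_ro_mem (S : Sheets 𝒜 x k) (d : ℕ) (t : ℝ) (p : (Fin (n + 1) → ℂ) × ℂ)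
    (hp : p ∈ WW S) : RAvg_ro d t p ∈ WW S := by
  obtain ⟨⟨h1, h2⟩, h3⟩ := hp
  refine ⟨⟨?_, ?_⟩, h3⟩
  · change ‖Complex.exp (d * t * I) • p.1‖ < 1
    rw [norm_smul, RAvg_norm_exp, one_mul]
    exact h1
  · change MvPolynomial.eval (Complex.exp (d * t * I) • p.1) S.h ≠ 0
    rw [RAvg_eval S.h S.h_hom]
    exact mul_ne_zero (pow_ne_zero _ (Complex.exp_ne_zero _)) h2

omit [GradedAlgebra 𝒜] in
private theorem RAvg_ro_preimage (S : Sheets 𝒜 x k) (d : ℕ) (t : ℝ) :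
    RAvg_ro d t ⁻¹' (WW S) = WW S := by
  ext p
  constructor
  · intro hp
    have h1 := RAvg_ro_mem S d (-t) _ hp
    rwa [RAvg_ro_add, neg_add_cancel, RAvg_ro_zero] at h1
  · exact RAvg_ro_mem S d t p

private theorem RAvg_ro_cont (d : ℕ) :
    Continuous fun q : ((Fin (n + 1) → ℂ) × ℂ) × ℝ => RAvg_ro d q.2 q.1 := by
  unfold RAvg_ro
  fun_prop

private theorem RAvg_ro_mp (d : ℕ) (t : ℝ) :
    MeasurePreserving (RAvg_ro (n := n) d t) := by
  have h1 : MeasurePreserving (fun z : ℂ => Complex.exp (d * t * I) * z) := by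
    have h2 := (rotation (Circle.exp (d * t))).measurePreserving
    convert h2 using 1
    ext z
    rw [rotation_apply, Circle.coe_exp]
    push_cast
    rfl
  have h3 : MeasurePreserving (fun y : Fin (n + 1) → ℂ => Complex.exp (d * t * I) • y) :=
    volume_preserving_pi fun _ => h1
  exact h3.prod (MeasurePreserving.id _)

omit [GradedAlgebra 𝒜] in
private theorem RAvg_ro_lint (S : Sheets 𝒜 x k) (d : ℕ) (t : ℝ)
    (g : (Fin (n + 1) → ℂ) × ℂ → ℝ≥0∞) :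
    ∫⁻ p in WW S, g (RAvg_ro d t p) = ∫⁻ p in WW S, g p := by
  have hc : Continuous (RAvg_ro (n := n) d t) :=
    (RAvg_ro_cont d).comp (continuous_id.prodMk continuous_const)
  have hinj : Function.Injective (RAvg_ro (n := n) d t) := by
    intro p q hpq
    have h1 : RAvg_ro d (-t) (RAvg_ro d t p) = RAvg_ro d (-t) (RAvg_ro d t q) := by rw [hpq]
    rwa [RAvg_ro_add, RAvg_ro_add, neg_add_cancel, RAvg_ro_zero, RAvg_ro_zero] at h1
  have h := (RAvg_ro_mp (n := n) d t).setLIntegral_comp_preimage_emb (hc.measurableEmbedding hinj)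
    g (WW S)
  rwa [RAvg_ro_preimage] at h

/-- the action as a continuous linear map -/
private noncomputable def RAvg_L (n d : ℕ) (t : ℝ) :
    ((Fin (n + 1) → ℂ) × ℂ) →L[ℂ] ((Fin (n + 1) → ℂ) × ℂ) :=
  Complex.exp (d * t * I) • ((ContinuousLinearMap.inl ℂ (Fin (n + 1) → ℂ) ℂ).comp
    (ContinuousLinearMap.fst ℂ (Fin (n + 1) → ℂ) ℂ)) +
  (ContinuousLinearMap.inr ℂ (Fin (n + 1) → ℂ) ℂ).comp
    (ContinuousLinearMap.snd ℂ (Fin (n + 1) → ℂ) ℂ)

private theorem RAvg_L_apply (n d : ℕ) (t : ℝ) (p : (Fin (n + 1) → ℂ) × ℂ) :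
    RAvg_L n d t p = RAvg_ro d t p := by
  unfold RAvg_L RAvg_ro
  ext <;> simp

private theorem RAvg_norm_ro (d : ℕ) (t : ℝ) (p : (Fin (n + 1) → ℂ) × ℂ) :
    ‖RAvg_ro d t p‖ = ‖p‖ := by
  unfold RAvg_ro
  rw [Prod.norm_def, Prod.norm_def, norm_smul, RAvg_norm_exp, one_mul]

private theorem RAvg_norm_L (n d : ℕ) (t : ℝ) : ‖RAvg_L n d t‖ ≤ 1 := by
  refine ContinuousLinearMap.opNorm_le_bound _ zero_le_one fun p => ?_
  rw [RAvg_L_apply, RAvg_norm_ro, one_mul]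

private theorem RAvg_L_cont (n d : ℕ) : Continuous fun t : ℝ => RAvg_L n d t := by
  unfold RAvg_L
  fun_prop

private theorem RAvg_dist_ro (d : ℕ) (t : ℝ) (p q : (Fin (n + 1) → ℂ) × ℂ) :
    dist (RAvg_ro d t p) (RAvg_ro d t q) = dist p q := by
  rw [← RAvg_L_apply, ← RAvg_L_apply, dist_eq_norm, ← map_sub, RAvg_L_apply, RAvg_norm_ro,
    dist_eq_norm]

private theorem RAvg_diff {W : Set ((Fin (n + 1) → ℂ) × ℂ)} (hW : IsOpen W) (d g : ℕ)
    (hinv : ∀ (t : ℝ) (p), p ∈ W → RAvg_ro d t p ∈ W) (F : ((Fin (n + 1) → ℂ) × ℂ) → ℂ)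
    (hF : DifferentiableOn ℂ F W) :
    DifferentiableOn ℂ (fun p => ∫ t in Set.Ioc 0 (2 * Real.pi),
      Complex.exp (g * t * I) * F (RAvg_ro d t p)) W := by
  intro p₀ hp₀
  refine DifferentiableAt.differentiableWithinAt ?_
  -- the orbit
  set K : Set ((Fin (n + 1) → ℂ) × ℂ) := (fun t : ℝ => RAvg_ro d t p₀) '' Set.Icc 0 (2 * Real.pi)
    with hK
  have hct : ∀ p : (Fin (n + 1) → ℂ) × ℂ, Continuous fun t : ℝ => RAvg_ro d t p := fun p =>
    (RAvg_ro_cont d).comp (continuous_const.prodMk continuous_id)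
  have hKc : IsCompact K := isCompact_Icc.image (hct p₀)
  have hKW : K ⊆ W := by
    rintro _ ⟨t, -, rfl⟩
    exact hinv t p₀ hp₀
  obtain ⟨δ, hδ, hδW⟩ := hKc.exists_cthickening_subset_open hW hKW
  have hcc : IsCompact (Metric.cthickening δ K) := hKc.cthickening
  obtain ⟨C, hC⟩ := hcc.exists_bound_of_continuousOn (hF.continuousOn.mono hδW)
  have hnear : ∀ p ∈ Metric.ball p₀ (δ / 2), ∀ t ∈ Set.Ioc 0 (2 * Real.pi),
      Metric.ball (RAvg_ro d t p) (δ / 2) ⊆ Metric.cthickening δ K := by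
    intro p hp t ht q hq
    refine Metric.mem_cthickening_of_dist_le q (RAvg_ro d t p₀) δ K
      ⟨t, ⟨ht.1.le, ht.2⟩, rfl⟩ ?_
    have h1 := dist_triangle q (RAvg_ro d t p) (RAvg_ro d t p₀)
    rw [RAvg_dist_ro] at h1
    have h2 : dist q (RAvg_ro d t p) < δ / 2 := hq
    have h3 : dist p p₀ < δ / 2 := hp
    linarith
  have hexp : Continuous fun t : ℝ => Complex.exp (g * t * I) := by fun_prop
  have hcont : ∀ p ∈ W, Continuous fun t : ℝ => Complex.exp (g * t * I) * F (RAvg_ro d t p) := by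
    intro p hp
    refine hexp.mul ?_
    exact hF.continuousOn.comp_continuous (hct p) fun t => hinv t p hp
  have hball : Metric.ball p₀ (δ / 2) ⊆ W := by
    intro p hp
    refine hδW (Metric.mem_cthickening_of_dist_le p (RAvg_ro d 0 p₀) δ K
      ⟨0, ⟨le_rfl, by positivity⟩, rfl⟩ ?_)
    have h3 : dist p p₀ < δ / 2 := hp
    have h4 : RAvg_ro d 0 p₀ = p₀ := by simp [RAvg_ro]
    rw [h4]
    linarith
  have hder : ∀ p ∈ Metric.ball p₀ (δ / 2), ∀ t ∈ Set.Ioc 0 (2 * Real.pi),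
      HasFDerivAt (fun p => Complex.exp (g * t * I) * F (RAvg_ro d t p))
        (Complex.exp (g * t * I) • (fderiv ℂ F (RAvg_ro d t p)).comp (RAvg_L n d t)) p := by
    intro p hp t ht
    have h1 : DifferentiableAt ℂ F (RAvg_ro d t p) :=
      (hF _ (hinv t p (hball hp))).differentiableAt (hW.mem_nhds (hinv t p (hball hp)))
    have h2 : HasFDerivAt (fun p => RAvg_ro d t p) (RAvg_L n d t) p := by
      have h3 := (RAvg_L n d t).hasFDerivAt (x := p)
      have h4 : (fun p => RAvg_ro d t p) = ⇑(RAvg_L n d t) := by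
        funext q
        exact (RAvg_L_apply n d t q).symm
      rw [h4]
      exact h3
    exact (h1.hasFDerivAt.comp p h2).const_mul _
  have hbd : ∀ p ∈ Metric.ball p₀ (δ / 2), ∀ t ∈ Set.Ioc 0 (2 * Real.pi),
      ‖Complex.exp (g * t * I) • (fderiv ℂ F (RAvg_ro d t p)).comp (RAvg_L n d t)‖ ≤
        2 * C / (δ / 2) := by
    intro p hp t ht
    have h0 := hnear p hp t ht
    have h1 : ‖fderiv ℂ F (RAvg_ro d t p)‖ ≤ 2 * C / (δ / 2) := by
      refine Complex.norm_fderiv_le_div_of_mapsTo_ball (hF.mono (h0.trans hδW)) ?_ (by positivity)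
      intro q hq
      rw [Metric.mem_closedBall, dist_eq_norm]
      have h2 := hC q (h0 hq)
      have h3 := hC _ (h0 (Metric.mem_ball_self (by positivity)))
      exact (norm_sub_le _ _).trans (by linarith)
    rw [norm_smul, RAvg_norm_exp, one_mul]
    refine (ContinuousLinearMap.opNorm_comp_le _ _).trans ?_
    calc _ ≤ ‖fderiv ℂ F (RAvg_ro d t p)‖ * 1 :=
          mul_le_mul_of_nonneg_left (RAvg_norm_L n d t) (norm_nonneg _)
      _ ≤ _ := by rw [mul_one]; exact h1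
  have hmeas : Measurable fun t : ℝ =>
      Complex.exp (g * t * I) • (fderiv ℂ F (RAvg_ro d t p₀)).comp (RAvg_L n d t) := by
    have h1 : Measurable fun t : ℝ => fderiv ℂ F (RAvg_ro d t p₀) :=
      (measurable_fderiv ℂ F).comp (hct p₀).measurable
    have h2 : Continuous fun q : (((Fin (n + 1) → ℂ) × ℂ) →L[ℂ] ℂ) ×
        (((Fin (n + 1) → ℂ) × ℂ) →L[ℂ] ((Fin (n + 1) → ℂ) × ℂ)) => q.1.comp q.2 := by
      fun_prop
    have h3 := h2.measurable.comp (h1.prodMk (RAvg_L_cont n d).measurable)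
    exact hexp.measurable.smul h3
  have key := hasFDerivAt_integral_of_dominated_of_fderiv_le
    (μ := volume.restrict (Set.Ioc 0 (2 * Real.pi))) (𝕜 := ℂ)
    (F := fun p t => Complex.exp (g * t * I) * F (RAvg_ro d t p))
    (F' := fun p t => Complex.exp (g * t * I) •
      (fderiv ℂ F (RAvg_ro d t p)).comp (RAvg_L n d t)) (x₀ := p₀)
    (bound := fun _ => 2 * C / (δ / 2))
    (Metric.ball_mem_nhds p₀ (by positivity : 0 < δ / 2))
    (Filter.eventually_of_mem (Metric.ball_mem_nhds p₀ (by positivity : 0 < δ / 2))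
      fun p hp => (hcont p (hball hp)).aestronglyMeasurable)
    ((hcont p₀ hp₀).integrableOn_Icc.mono_set Set.Ioc_subset_Icc_self)
    hmeas.aestronglyMeasurable
    ((ae_restrict_mem measurableSet_Ioc).mono fun t ht p hp => hbd p hp t ht)
    (integrable_const _)
    ((ae_restrict_mem measurableSet_Ioc).mono fun t ht p hp => hder p hp t ht)
  exact key.differentiableAt

private theorem RAvg_per (d : ℕ) (t : ℝ) :
    Complex.exp (d * (t + 2 * Real.pi : ℝ) * I) = Complex.exp (d * t * I) := by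
  have h : (d * (t + 2 * Real.pi : ℝ) * I : ℂ) = d * t * I + d * (2 * Real.pi * I) := by
    push_cast
    ring
  rw [h, Complex.exp_add, Complex.exp_nat_mul_two_pi_mul_I, mul_one]

private theorem RAvg_equiv (d g : ℕ) (F : ((Fin (n + 1) → ℂ) × ℂ) → ℂ) (θ : ℝ)
    (p : (Fin (n + 1) → ℂ) × ℂ) :
    (∫ t in Set.Ioc 0 (2 * Real.pi), Complex.exp (g * t * I) * F (RAvg_ro d t (RAvg_ro d θ p))) *
      Complex.exp (g * θ * I) =
    ∫ t in Set.Ioc 0 (2 * Real.pi), Complex.exp (g * t * I) * F (RAvg_ro d t p) := by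
  have hpi : (0 : ℝ) ≤ 2 * Real.pi := by positivity
  rw [← intervalIntegral.integral_of_le hpi, ← intervalIntegral.integral_of_le hpi,
    ← intervalIntegral.integral_mul_const]
  set φ : ℝ → ℂ := fun t => Complex.exp (g * t * I) * F (RAvg_ro d t p) with hφ
  have h1 : ∀ t : ℝ, Complex.exp (g * t * I) * F (RAvg_ro d t (RAvg_ro d θ p)) *
      Complex.exp (g * θ * I) = φ (t + θ) := by
    intro t
    rw [hφ]
    simp only [RAvg_ro_add]
    have h2 : Complex.exp (g * (t + θ : ℝ) * I) =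
        Complex.exp (g * t * I) * Complex.exp (g * θ * I) := by
      rw [← Complex.exp_add]
      congr 1
      push_cast
      ring
    rw [h2]
    ring
  simp only [h1]
  rw [intervalIntegral.integral_comp_add_right]
  have h3 : Function.Periodic φ (2 * Real.pi) := by
    intro t
    rw [hφ]
    simp only [RAvg_ro, RAvg_per]
  have h4 := h3.intervalIntegral_add_eq θ 0
  rw [zero_add] at h4
  rw [zero_add, add_comm (2 * Real.pi) θ, h4]

/-! ### Continuity of the norm -/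

omit [GradedAlgebra 𝒜] in
private theorem RAvg_cont (S : Sheets 𝒜 x k)
    (e : Fin M → Fin (B + 1) → R) (hg : GoodSheets S G e) (c ε τ : ℝ)
    (hε : 0 < ε) (u : Fin (k + 1) → ((Fin (n + 1) → ℂ) × ℂ) → ℂ)
    (hu : ∀ a, ContinuousOn (u a) (WW S)) :
    ContinuousOn (fun p => nE S G r e c ε τ p (fun a => u a p)) (WW S) := by
  intro p₀ hp₀
  obtain ⟨δ, σ, hδ, h1, h2, h3, h4⟩ := S.local_sections p₀.1 hp₀.1.2
  have hmem : p₀.1 ∈ Metric.ball p₀.1 δ := Metric.mem_ball_self hδ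
  have hev : ∀ᶠ p : (Fin (n + 1) → ℂ) × ℂ in nhdsWithin p₀ (WW S), p.1 ∈ Metric.ball p₀.1 δ :=
    (continuous_fst.continuousAt.eventually_mem (Metric.ball_mem_nhds _ hδ)).filter_mono
      nhdsWithin_le_nhds
  have heq : ∀ p : (Fin (n + 1) → ℂ) × ℂ, p.1 ∈ Metric.ball p₀.1 δ →
      nE S G r e c ε τ p (fun a => u a p) = ∑ i, ENNReal.ofReal (wph G r e c ε (σ i p.1) p.2 *
        ws ε τ p.2 * ‖∑ a, σ i p.1 (S.β a) * u a p‖ ^ 2) := by
    intro p hp
    unfold nE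
    rw [tsum_fib p.1 (fun i => σ i p.1) (h2 _ hp) (h3 _ hp)
      (fun ν => ENNReal.ofReal (wph G r e c ε ν p.2 * ws ε τ p.2 *
        ‖∑ a, ν (S.β a) * u a p‖ ^ 2))]
  refine ContinuousWithinAt.congr_of_eventuallyEq (f := fun p => ∑ i, ENNReal.ofReal
    (wph G r e c ε (σ i p.1) p.2 * ws ε τ p.2 * ‖∑ a, σ i p.1 (S.β a) * u a p‖ ^ 2)) ?_
    (hev.mono fun p hp => heq p hp) (heq p₀ hmem)
  refine tendsto_finsetSum _ fun i _ => ?_
  refine (ENNReal.continuous_ofReal.tendsto _).comp ?_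
  have hσ : ∀ f : R, ContinuousAt (fun p : (Fin (n + 1) → ℂ) × ℂ => σ i p.1 f) p₀ := fun f =>
    ((h4 i f p₀.1 hmem).continuousAt).comp continuous_fst.continuousAt
  have hgood := hg p₀.1 hp₀.1.2 (σ i p₀.1) (by rw [h3 _ hmem]; exact ⟨i, rfl⟩)
  have hfam : ∀ j, ContinuousAt (fun p : (Fin (n + 1) → ℂ) × ℂ => σ i p.1 (famAt (e j) p.2))
      p₀ := by
    intro j
    have h5 : (fun p : (Fin (n + 1) → ℂ) × ℂ => σ i p.1 (famAt (e j) p.2)) =
        fun p => ∑ l : Fin (B + 1), p.2 ^ (l : ℕ) * σ i p.1 (e j l) := by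
      funext p
      unfold famAt
      rw [map_sum]
      refine Finset.sum_congr rfl fun l _ => ?_
      rw [map_smul, smul_eq_mul]
    rw [h5]
    exact tendsto_finsetSum _ fun l _ =>
      (continuous_snd.continuousAt.pow _).mul (hσ (e j l))
  have hS : ContinuousAt (fun p : (Fin (n + 1) → ℂ) × ℂ => Ssum e (σ i p.1)) p₀ := by
    unfold Ssum
    exact tendsto_finsetSum _ fun j _ => tendsto_finsetSum _ fun l _ =>
      ((hσ (e j l)).norm.pow 2)
  have hSpos : ∀ j : Fin M, 0 < Ssum e (σ i p₀.1) := by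
    intro j
    unfold Ssum
    have h5 : 0 < ‖σ i p₀.1 (e j 0)‖ ^ 2 := by
      have := norm_pos_iff.2 (hgood.2 j)
      positivity
    have h6 : ‖σ i p₀.1 (e j 0)‖ ^ 2 ≤ ∑ l, ‖σ i p₀.1 (e j l)‖ ^ 2 :=
      Finset.single_le_sum (f := fun l => ‖σ i p₀.1 (e j l)‖ ^ 2) (fun l _ => by positivity)
        (Finset.mem_univ 0)
    have h7 : ∑ l, ‖σ i p₀.1 (e j l)‖ ^ 2 ≤ ∑ j, ∑ l, ‖σ i p₀.1 (e j l)‖ ^ 2 :=
      Finset.single_le_sum (f := fun j => ∑ l, ‖σ i p₀.1 (e j l)‖ ^ 2)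
        (fun j _ => Finset.sum_nonneg fun l _ => by positivity) (Finset.mem_univ j)
    linarith
  have hw : ContinuousAt (fun p : (Fin (n + 1) → ℂ) × ℂ => wph G r e c ε (σ i p.1) p.2) p₀ := by
    unfold wph
    refine ContinuousAt.mul ?_ ?_
    · refine tendsto_finsetProd _ fun j _ => ?_
      refine ContinuousAt.rpow_const (((hfam j).norm.pow 2).add (hS.const_mul _)) (Or.inl ?_)
      have h5 := hSpos j
      have h6 : 0 < ε ^ 2 * Ssum e (σ i p₀.1) := by positivity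
      have h7 : 0 ≤ ‖σ i p₀.1 (famAt (e j) p₀.2)‖ ^ 2 := by positivity
      exact (add_pos_of_nonneg_of_pos h7 h6).ne'
    · exact ContinuousAt.rpow_const (hσ G).norm (Or.inl (norm_ne_zero_iff.2 hgood.1))
  have hws : ContinuousAt (fun p : (Fin (n + 1) → ℂ) × ℂ => ws ε τ p.2) p₀ := by
    unfold ws
    have h5 : ‖p₀.2‖ ≠ 0 := norm_ne_zero_iff.2 hp₀.2
    refine ContinuousAt.mul ((continuous_snd.norm.pow 2).continuousAt.inv₀ (pow_ne_zero 2 h5)) ?_
    refine ContinuousAt.rpow_const ?_ (Or.inl ?_)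
    · exact (continuous_const.add ((continuous_snd.norm.pow 2).div_const _)).continuousAt
    · have h6 : 0 ≤ ‖p₀.2‖ ^ 2 / ε ^ 2 := by positivity
      positivity
  refine Filter.Tendsto.mul (Filter.Tendsto.mul ?_ ?_) ?_
  · exact hw.continuousWithinAt
  · exact hws.continuousWithinAt
  · refine ((tendsto_finsetSum _ fun a _ => ?_).norm.pow 2)
    exact ((hσ (S.β a)).continuousWithinAt).mul (hu a p₀ hp₀)

/-! ### Jensen -/

private theorem RAvg_jensen (φ : ℝ → ℂ) (hφ : Continuous φ) (w : ℝ) (hw : 0 ≤ w) :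
    ENNReal.ofReal (w * ‖(1 / (2 * Real.pi) : ℂ) * ∫ t in Set.Ioc 0 (2 * Real.pi), φ t‖ ^ 2) ≤
      ENNReal.ofReal (1 / (2 * Real.pi)) *
        ∫⁻ t in Set.Ioc 0 (2 * Real.pi), ENNReal.ofReal (w * ‖φ t‖ ^ 2) := by
  have hpi : (0 : ℝ) < 2 * Real.pi := by positivity
  have hvol : (volume.restrict (Set.Ioc 0 (2 * Real.pi))).real Set.univ = 2 * Real.pi := by
    simp [Measure.real, Real.pi_pos.le]
  have hi1 : IntegrableOn (fun t => ‖φ t‖) (Set.Ioc 0 (2 * Real.pi)) :=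
    hφ.norm.integrableOn_Icc.mono_set Set.Ioc_subset_Icc_self
  have hi2 : IntegrableOn (fun t => ‖φ t‖ ^ 2) (Set.Ioc 0 (2 * Real.pi)) :=
    (hφ.norm.pow 2).integrableOn_Icc.mono_set Set.Ioc_subset_Icc_self
  set m : ℝ := (1 / (2 * Real.pi)) * ∫ t in Set.Ioc 0 (2 * Real.pi), ‖φ t‖ with hm
  have h1 : ‖(1 / (2 * Real.pi) : ℂ) * ∫ t in Set.Ioc 0 (2 * Real.pi), φ t‖ ≤ m := by
    rw [norm_mul, hm]
    have h2 : ‖(1 / (2 * Real.pi) : ℂ)‖ = 1 / (2 * Real.pi) := by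
      have h3 : (1 / (2 * Real.pi) : ℂ) = ((1 / (2 * Real.pi) : ℝ) : ℂ) := by push_cast; rfl
      rw [h3, Complex.norm_real, Real.norm_eq_abs, abs_of_pos (by positivity)]
    rw [h2]
    exact mul_le_mul_of_nonneg_left (norm_integral_le_integral_norm _) (by positivity)
  have h2 : m ^ 2 ≤ (1 / (2 * Real.pi)) * ∫ t in Set.Ioc 0 (2 * Real.pi), ‖φ t‖ ^ 2 := by
    have h3 : 0 ≤ ∫ t in Set.Ioc 0 (2 * Real.pi), (‖φ t‖ - m) ^ 2 :=
      integral_nonneg fun t => sq_nonneg _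
    have h4 : ∫ t in Set.Ioc 0 (2 * Real.pi), (‖φ t‖ - m) ^ 2 =
        (∫ t in Set.Ioc 0 (2 * Real.pi), ‖φ t‖ ^ 2) -
          2 * m * (∫ t in Set.Ioc 0 (2 * Real.pi), ‖φ t‖) + m ^ 2 * (2 * Real.pi) := by
      have h5 : ∀ t, (‖φ t‖ - m) ^ 2 = ‖φ t‖ ^ 2 - 2 * m * ‖φ t‖ + m ^ 2 := fun t => by ring
      simp only [h5]
      have hi3 : Integrable (fun t => ‖φ t‖ ^ 2 - 2 * m * ‖φ t‖)
          (volume.restrict (Set.Ioc 0 (2 * Real.pi))) := hi2.sub (hi1.const_mul (2 * m))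
      rw [integral_add hi3 (integrable_const _),
        integral_sub hi2 (hi1.const_mul _), integral_const_mul, integral_const, hvol]
      simp only [smul_eq_mul]
      ring
    have h6 : ∫ t in Set.Ioc 0 (2 * Real.pi), ‖φ t‖ = 2 * Real.pi * m := by
      rw [hm]
      field_simp
    rw [h4, h6] at h3
    rw [one_div, ← div_eq_inv_mul, le_div_iff₀ hpi]
    nlinarith
  have h0 : 0 ≤ m := (norm_nonneg _).trans h1
  have h3 : w * ‖(1 / (2 * Real.pi) : ℂ) * ∫ t in Set.Ioc 0 (2 * Real.pi), φ t‖ ^ 2 ≤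
      (1 / (2 * Real.pi)) * ∫ t in Set.Ioc 0 (2 * Real.pi), w * ‖φ t‖ ^ 2 := by
    rw [integral_const_mul]
    have h4 := pow_le_pow_left₀ (norm_nonneg _) h1 2
    calc _ ≤ w * ((1 / (2 * Real.pi)) * ∫ t in Set.Ioc 0 (2 * Real.pi), ‖φ t‖ ^ 2) :=
          mul_le_mul_of_nonneg_left (h4.trans h2) hw
      _ = _ := by ring
  refine (ENNReal.ofReal_le_ofReal h3).trans (le_of_eq ?_)
  rw [ENNReal.ofReal_mul (by positivity), ofReal_integral_eq_lintegral_ofReal (hi2.const_mul w)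
    (Filter.Eventually.of_forall fun t => by positivity)]

/-! ### The average -/

private theorem RAvg_deg (S : Sheets 𝒜 x k) (hdom : IsDomain R) : S.deg 0 = 0 := by
  classical
  have h1 : (1 : R) ∈ 𝒜 (S.deg 0) := by
    rw [← S.β_zero]
    exact S.β_mem 0
  exact DirectSum.degree_eq_of_mem_mem 𝒜 h1 SetLike.GradedOne.one_mem one_ne_zero

/-- the averaged function -/
private noncomputable def RAvg_F (d : ℕ) (S : Sheets 𝒜 x k)
    (F : Fin (k + 1) → ((Fin (n + 1) → ℂ) × ℂ) → ℂ) (a : Fin (k + 1))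
    (p : (Fin (n + 1) → ℂ) × ℂ) : ℂ :=
  (1 / (2 * Real.pi) : ℂ) * ∫ t in Set.Ioc 0 (2 * Real.pi),
    Complex.exp (S.deg a * t * I) * F a (RAvg_ro d t p)

private theorem RAvg_chi (S : Sheets 𝒜 x k) (hdom : IsDomain R) (ε : ℝ) (s : ℂ)
    (a : Fin (k + 1)) (t : ℝ) : Complex.exp (S.deg a * t * I) * chiT k ε s a = chiT k ε s a := by
  by_cases ha : a = 0
  · subst ha
    rw [RAvg_deg S hdom]
    simp
  · unfold chiT
    rw [if_neg ha, mul_zero]

private theorem RAvg_point (h : IsFano 𝒜 n r d x G) (S : Sheets 𝒜 x k) {m : ℕ}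
    (e : Fin M → Fin (B + 1) → R) (he : ∀ i l, e i l ∈ 𝒜 m)
    (c ε τ : ℝ) (hε : 0 < ε) (F : Fin (k + 1) → ((Fin (n + 1) → ℂ) × ℂ) → ℂ)
    (hF : ∀ a, DifferentiableOn ℂ (F a) (WW S)) (p : (Fin (n + 1) → ℂ) × ℂ) (hp : p ∈ WW S) :
    nE S G r e c ε τ p (fun a => chiT k ε p.2 a - RAvg_F d S F a p) ≤
      ENNReal.ofReal (1 / (2 * Real.pi)) * ∫⁻ t in Set.Ioc 0 (2 * Real.pi),
        nE S G r e c ε τ (RAvg_ro d t p) (fun a => chiT k ε (RAvg_ro d t p).2 a -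
          F a (RAvg_ro d t p)) := by
  obtain ⟨δ, σ', hδ, -, h2, h3, -⟩ := S.local_sections p.1 hp.1.2
  have hmem : p.1 ∈ Metric.ball p.1 δ := Metric.mem_ball_self hδ
  set σ : Fin (k + 1) → (R →ₐ[ℂ] ℂ) := fun i => σ' i p.1 with hσ
  have h2 : Function.Injective σ := h2 _ hmem
  have h3 : fib x p.1 = Set.range σ := h3 _ hmem
  have hdom := h.domain
  set w : Fin (k + 1) → ℝ := fun i => wph G r e c ε (σ i) p.2 * ws ε τ p.2 with hw
  have hw0 : ∀ i, 0 ≤ w i := by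
    intro i
    rw [hw]
    unfold wph Ssum ws
    positivity
  set φ : Fin (k + 1) → ℝ → ℂ := fun i t => ∑ a, RAvg_rot 𝒜 (Complex.exp (t * I)) (σ i) (S.β a) *
    (chiT k ε p.2 a - F a (RAvg_ro d t p)) with hφ
  have hro : Continuous fun t : ℝ => RAvg_ro d t p :=
    (RAvg_ro_cont d).comp (continuous_const.prodMk continuous_id)
  have hFc : ∀ a, Continuous fun t : ℝ => F a (RAvg_ro d t p) := fun a =>
    (hF a).continuousOn.comp_continuous hro fun t => RAvg_ro_mem S d t p hp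
  have hφ' : ∀ i t, φ i t = ∑ a, σ i (S.β a) * (chiT k ε p.2 a -
      Complex.exp (S.deg a * t * I) * F a (RAvg_ro d t p)) := by
    intro i t
    rw [hφ]
    refine Finset.sum_congr rfl fun a _ => ?_
    rw [RAvg_rot_apply _ _ _ _ (S.β_mem a), RAvg_exp_pow]
    have h4 := RAvg_chi S hdom ε p.2 a t
    linear_combination (σ i (S.β a)) * h4
  have hφc : ∀ i, Continuous (φ i) := by
    intro i
    have h4 : φ i = fun t : ℝ => ∑ a, σ i (S.β a) * (chiT k ε p.2 a -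
      Complex.exp (S.deg a * t * I) * F a (RAvg_ro d t p)) := funext (hφ' i)
    rw [h4]
    refine continuous_finsetSum _ fun a _ => continuous_const.mul (continuous_const.sub ?_)
    exact (by fun_prop : Continuous fun t : ℝ => Complex.exp (S.deg a * t * I)).mul (hFc a)
  have hL : nE S G r e c ε τ p (fun a => chiT k ε p.2 a - RAvg_F d S F a p) =
      ∑ i, ENNReal.ofReal (w i * ‖(1 / (2 * Real.pi) : ℂ) *
        ∫ t in Set.Ioc 0 (2 * Real.pi), φ i t‖ ^ 2) := by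
    unfold nE
    rw [tsum_fib p.1 σ h2 h3 (fun ν => ENNReal.ofReal (wph G r e c ε ν p.2 * ws ε τ p.2 *
        ‖∑ a, ν (S.β a) * (chiT k ε p.2 a - RAvg_F d S F a p)‖ ^ 2))]
    refine Finset.sum_congr rfl fun i _ => ?_
    congr 4
    simp only [hφ']
    have hint : ∀ a : Fin (k + 1), IntegrableOn (fun t : ℝ =>
        Complex.exp (S.deg a * t * I) * F a (RAvg_ro d t p)) (Set.Ioc 0 (2 * Real.pi)) := fun a =>
      (((by fun_prop : Continuous fun t : ℝ => Complex.exp (S.deg a * t * I)).mul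
        (hFc a)).integrableOn_Icc).mono_set Set.Ioc_subset_Icc_self
    have hint2 : ∀ a ∈ Finset.univ, Integrable (fun t : ℝ => σ i (S.β a) * (chiT k ε p.2 a -
        Complex.exp (S.deg a * t * I) * F a (RAvg_ro d t p)))
        (volume.restrict (Set.Ioc 0 (2 * Real.pi))) := fun a _ =>
      ((integrable_const (chiT k ε p.2 a)).sub (hint a)).const_mul _
    rw [integral_finsetSum _ hint2, Finset.mul_sum]
    refine Finset.sum_congr rfl fun a _ => ?_
    rw [integral_const_mul, integral_sub (integrable_const _) (hint a), integral_const]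
    have hvol : (volume.restrict (Set.Ioc 0 (2 * Real.pi))).real Set.univ = 2 * Real.pi := by
      simp [Measure.real, Real.pi_pos.le]
    rw [hvol]
    unfold RAvg_F
    have hpi : (Real.pi : ℂ) ≠ 0 := by exact_mod_cast Real.pi_ne_zero
    rw [Complex.real_smul]
    generalize (∫ t in Set.Ioc 0 (2 * Real.pi),
      Complex.exp (S.deg a * t * I) * F a (RAvg_ro d t p)) = J
    push_cast
    field_simp
  have hR : ∀ t : ℝ, nE S G r e c ε τ (RAvg_ro d t p) (fun a => chiT k ε (RAvg_ro d t p).2 a -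
          F a (RAvg_ro d t p)) = ∑ i, ENNReal.ofReal (w i * ‖φ i t‖ ^ 2) := by
    intro t
    have h5 : fib x (RAvg_ro d t p).1 = Set.range fun i => RAvg_rot 𝒜 (Complex.exp (t * I)) (σ i) := by
      have h6 := RAvg_fib_range (𝒜 := 𝒜) h.x_mem (Complex.exp (t * I)) (Complex.exp_ne_zero _)
        p.1 σ h3
      rw [RAvg_exp_pow] at h6
      exact h6
    unfold nE
    rw [tsum_fib (RAvg_ro d t p).1 (fun i => RAvg_rot 𝒜 (Complex.exp (t * I)) (σ i))
      (RAvg_rot_inj _ (Complex.exp_ne_zero _) σ h2) h5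
      (fun ν => ENNReal.ofReal (wph G r e c ε ν (RAvg_ro d t p).2 * ws ε τ (RAvg_ro d t p).2 *
        ‖∑ a, ν (S.β a) * (chiT k ε (RAvg_ro d t p).2 a - F a (RAvg_ro d t p))‖ ^ 2))]
    refine Finset.sum_congr rfl fun i _ => ?_
    rw [RAvg_wph h.G_mem e he c ε _ (RAvg_norm_exp1 t)]
    rfl
  rw [hL]
  simp only [hR]
  rw [lintegral_finsetSum' _ fun i _ => ?_, Finset.mul_sum]
  · exact Finset.sum_le_sum fun i _ => RAvg_jensen (φ i) (hφc i) (w i) (hw0 i)
  · exact (ENNReal.continuous_ofReal.comp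
      (continuous_const.mul ((hφc i).norm.pow 2))).measurable.aemeasurable

theorem exists_avg (h : IsFano 𝒜 n r d x G) (S : Sheets 𝒜 x k) {m : ℕ}
    (e : Fin M → Fin (B + 1) → R) (he : ∀ i l, e i l ∈ 𝒜 m) (hg : GoodSheets S G e)
    (c ε τ : ℝ) (hε : 0 < ε) (F : Fin (k + 1) → ((Fin (n + 1) → ℂ) × ℂ) → ℂ)
    (hF : ∀ a, DifferentiableOn ℂ (F a) (WW S)) :
    ∃ F' : Fin (k + 1) → ((Fin (n + 1) → ℂ) × ℂ) → ℂ,
      (∀ a, DifferentiableOn ℂ (F' a) (WW S)) ∧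
      (∀ a, ∀ θ : ℝ, ∀ p ∈ WW S,
        F' a (Complex.exp (d * θ * I) • p.1, p.2) * Complex.exp (S.deg a * θ * I) = F' a p) ∧
      ∫⁻ p in WW S, nE S G r e c ε τ p (fun a => chiT k ε p.2 a - F' a p) ≤
        ∫⁻ p in WW S, nE S G r e c ε τ p (fun a => chiT k ε p.2 a - F a p) := by
  have hWo : IsOpen (WW S) := isOpen_WW S
  refine ⟨RAvg_F d S F, fun a => ?_, fun a θ p hp => ?_, ?_⟩
  · exact (RAvg_diff hWo d (S.deg a) (fun t p hp => RAvg_ro_mem S d t p hp) (F a) (hF a)).const_mul _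
  · have h1 := RAvg_equiv d (S.deg a) (F a) θ p
    change RAvg_F d S F a (RAvg_ro d θ p) * _ = _
    unfold RAvg_F
    rw [mul_assoc, h1]
  · set g : ((Fin (n + 1) → ℂ) × ℂ) → ℝ≥0∞ := fun p =>
      nE S G r e c ε τ p (fun a => chiT k ε p.2 a - F a p) with hgdef
    have hchi : ∀ a : Fin (k + 1), Continuous fun s : ℂ => chiT k ε s a := by
      intro a
      unfold chiT
      by_cases ha : a = 0
      · simp only [if_pos ha]
        unfold cut
        refine Complex.continuous_ofReal.comp (Real.smoothTransition.continuous.comp ?_)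
        fun_prop
      · simp only [if_neg ha]
        exact continuous_const
    have hgc : ContinuousOn g (WW S) :=
      RAvg_cont S e hg c ε τ hε (fun a p => chiT k ε p.2 a - F a p) fun a =>
        ((hchi a).comp continuous_snd).continuousOn.sub (hF a).continuousOn
    have hmeas : AEMeasurable (fun q : ((Fin (n + 1) → ℂ) × ℂ) × ℝ => g (RAvg_ro d q.2 q.1))
        ((volume.restrict (WW S)).prod (volume.restrict (Set.Ioc 0 (2 * Real.pi)))) := by
      rw [Measure.prod_restrict]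
      refine ContinuousOn.aemeasurable ?_ (hWo.measurableSet.prod measurableSet_Ioc)
      exact hgc.comp (RAvg_ro_cont d).continuousOn fun q hq => RAvg_ro_mem S d q.2 q.1 hq.1
    calc ∫⁻ p in WW S, nE S G r e c ε τ p (fun a => chiT k ε p.2 a - RAvg_F d S F a p)
        ≤ ∫⁻ p in WW S, ENNReal.ofReal (1 / (2 * Real.pi)) *
          ∫⁻ t in Set.Ioc 0 (2 * Real.pi), g (RAvg_ro d t p) :=
          setLIntegral_mono' hWo.measurableSet fun p hp =>
            RAvg_point h S e he c ε τ hε F hF p hp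
      _ = ENNReal.ofReal (1 / (2 * Real.pi)) * ∫⁻ t in Set.Ioc 0 (2 * Real.pi),
          ∫⁻ p in WW S, g (RAvg_ro d t p) := by
          rw [lintegral_const_mul' _ _ ENNReal.ofReal_ne_top, lintegral_lintegral_swap hmeas]
      _ = ∫⁻ p in WW S, g p := by
          simp only [RAvg_ro_lint]
          have h5 : ENNReal.ofReal (1 / (2 * Real.pi)) * ENNReal.ofReal (2 * Real.pi) = 1 := by
            rw [← ENNReal.ofReal_mul (by positivity), one_div_mul_cancel (by positivity),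
              ENNReal.ofReal_one]
          rw [setLIntegral_const, Real.volume_Ioc, sub_zero, mul_comm (∫⁻ p in WW S, g p),
            ← mul_assoc, h5, one_mul]

end Pool.Agent.Lib_KF
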