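import Pool.Agent.Lib_KF.RLoc

/-! RS08: estimates of `J`. -/

open MeasureTheory Complex
open scoped ENNReal NNReal ContDiff ComplexConjugate

namespace Pool.Agent.Lib_KF

open Pool.Agent.Lib_GD GPn

variable {R : Type} [CommRing R] [Algebra ℂ R] {𝒜 : ℕ → Submodule ℂ R} {n k M B : ℕ}
  {x : Fin (n + 1) → R}

private theorem RBound_isOpen (h : MvPolynomial (Fin (n + 1)) ℂ) : IsOpen (W0 h) := by
  have h1 : W0 h = {y | ‖y‖ < 1} ∩ {y | MvPolynomial.eval y h ≠ 0} := rfl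
  rw [h1]
  exact (isOpen_lt continuous_norm continuous_const).inter
    (isOpen_ne_fun (MvPolynomial.continuous_eval h) continuous_const)

private theorem RBound_subset (h : MvPolynomial (Fin (n + 1)) ℂ) :
    W0 h ⊆ Metric.ball (0 : Fin (n + 1) → ℂ) 1 := by
  intro y hy
  simpa [Metric.mem_ball, dist_zero_right] using hy.1

private theorem RBound_nonempty (h : MvPolynomial (Fin (n + 1)) ℂ) (hh : h ≠ 0) :
    (W0 h).Nonempty := by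
  by_contra hne
  apply hh
  refine MvPolynomial.funext_set (fun _ => Metric.ball (0 : ℂ) 1)
    (fun _ => infinite_of_mem_nhds (0 : ℂ) (Metric.ball_mem_nhds _ one_pos)) ?_
  intro y hy
  rw [map_zero]
  by_contra h0
  refine hne ⟨y, ?_, h0⟩
  rw [pi_norm_lt_iff one_pos]
  intro i
  simpa [Metric.mem_ball, dist_zero_right] using hy i (Set.mem_univ i)

private theorem RBound_fam (e : Fin (B + 1) → R) (s : ℂ) (ν : R →ₐ[ℂ] ℂ) :
    ν (famAt e s) = ∑ l : Fin (B + 1), s ^ (l : ℕ) * ν (e l) := by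
  rw [famAt, map_sum]
  refine Finset.sum_congr rfl fun l _ => ?_
  rw [map_smul, smul_eq_mul]

/-- the square of the value at `0` in terms of the value at `s` -/
private theorem RBound_sq (a : Fin (B + 1) → ℂ) (s : ℂ) (ε T : ℝ) (hs : ‖s‖ ≤ ε) (hε1 : ε ≤ 1)
    (hε : 0 ≤ ε) (hT : ∑ l, ‖a l‖ ^ 2 ≤ T) :
    ‖a 0‖ ^ 2 ≤ 2 * (1 + B : ℝ) * (‖∑ l : Fin (B + 1), s ^ (l : ℕ) * a l‖ ^ 2 + ε ^ 2 * T) := by
  have h1 : a 0 = ∑ l : Fin (B + 1), s ^ (l : ℕ) * a l -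
      ∑ l : Fin B, s ^ ((l : ℕ) + 1) * a l.succ := by
    rw [Fin.sum_univ_succ]
    simp
  have h2 : ‖∑ l : Fin B, s ^ ((l : ℕ) + 1) * a l.succ‖ ≤ ε * ∑ l : Fin B, ‖a l.succ‖ := by
    refine (norm_sum_le _ _).trans ?_
    rw [Finset.mul_sum]
    refine Finset.sum_le_sum fun l _ => ?_
    rw [norm_mul, norm_pow]
    refine mul_le_mul_of_nonneg_right ?_ (norm_nonneg _)
    calc ‖s‖ ^ ((l : ℕ) + 1) ≤ ε ^ ((l : ℕ) + 1) := pow_le_pow_left₀ (norm_nonneg _) hs _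
      _ = ε ^ (l : ℕ) * ε := pow_succ _ _
      _ ≤ 1 * ε := mul_le_mul_of_nonneg_right (pow_le_one₀ hε hε1) hε
      _ = ε := one_mul _
  have h3 : (∑ l : Fin B, ‖a l.succ‖) ^ 2 ≤ B * ∑ l : Fin B, ‖a l.succ‖ ^ 2 := by
    have := sq_sum_le_card_mul_sum_sq (s := (Finset.univ : Finset (Fin B)))
      (f := fun l => ‖a l.succ‖)
    simpa using this
  have h4 : ∑ l : Fin B, ‖a l.succ‖ ^ 2 ≤ T := by
    refine le_trans ?_ hT
    rw [Fin.sum_univ_succ]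
    have := sq_nonneg ‖a 0‖
    linarith
  have h5 : ‖a 0‖ ≤ ‖∑ l : Fin (B + 1), s ^ (l : ℕ) * a l‖ + ε * ∑ l : Fin B, ‖a l.succ‖ := by
    calc ‖a 0‖ = ‖∑ l : Fin (B + 1), s ^ (l : ℕ) * a l -
        ∑ l : Fin B, s ^ ((l : ℕ) + 1) * a l.succ‖ := by rw [← h1]
      _ ≤ _ := (norm_sub_le _ _).trans (add_le_add le_rfl h2)
  set p := ‖∑ l : Fin (B + 1), s ^ (l : ℕ) * a l‖ with hp
  set q := ∑ l : Fin B, ‖a l.succ‖ with hq
  have hp0 : 0 ≤ p := norm_nonneg _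
  have hq0 : 0 ≤ q := Finset.sum_nonneg fun _ _ => norm_nonneg _
  have hT0 : 0 ≤ T := le_trans (Finset.sum_nonneg fun _ _ => sq_nonneg _) h4
  have hB0 : (0 : ℝ) ≤ B := Nat.cast_nonneg _
  have h6 : ‖a 0‖ ^ 2 ≤ (p + ε * q) ^ 2 := pow_le_pow_left₀ (norm_nonneg _) h5 2
  have h7 : (p + ε * q) ^ 2 ≤ 2 * p ^ 2 + 2 * (ε ^ 2 * q ^ 2) := by
    nlinarith [sq_nonneg (p - ε * q)]
  have h8 : q ^ 2 ≤ B * T := h3.trans (mul_le_mul_of_nonneg_left h4 hB0)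
  have h9 : ε ^ 2 * q ^ 2 ≤ ε ^ 2 * (B * T) := mul_le_mul_of_nonneg_left h8 (sq_nonneg _)
  have h10 : 0 ≤ ε ^ 2 * T := mul_nonneg (sq_nonneg _) hT0
  have h11 : 0 ≤ B * p ^ 2 := mul_nonneg hB0 (sq_nonneg _)
  nlinarith

private theorem RBound_Ssum_nonneg (e : Fin M → Fin (B + 1) → R) (ν : R →ₐ[ℂ] ℂ) :
    0 ≤ Ssum e ν :=
  Finset.sum_nonneg fun _ _ => Finset.sum_nonneg fun _ _ => sq_nonneg _

private theorem RBound_Ssum_ge (e : Fin M → Fin (B + 1) → R) (ν : R →ₐ[ℂ] ℂ) (i : Fin M) :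
    ∑ l, ‖ν (e i l)‖ ^ 2 ≤ Ssum e ν :=
  Finset.single_le_sum (f := fun i => ∑ l, ‖ν (e i l)‖ ^ 2)
    (fun _ _ => Finset.sum_nonneg fun _ _ => sq_nonneg _) (Finset.mem_univ i)

/-- the factors of the weight are positive -/
private theorem RBound_pos (e : Fin M → Fin (B + 1) → R) (ν : R →ₐ[ℂ] ℂ) (i : Fin M) (ε : ℝ)
    (hε : 0 < ε) (s : ℂ) (h0 : ν (e i 0) ≠ 0) :
    0 < ‖ν (famAt (e i) s)‖ ^ 2 + ε ^ 2 * Ssum e ν := by
  have h1 : 0 < ‖ν (e i 0)‖ ^ 2 := pow_pos (norm_pos_iff.2 h0) 2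
  have h2 : ‖ν (e i 0)‖ ^ 2 ≤ ∑ l, ‖ν (e i l)‖ ^ 2 :=
    Finset.single_le_sum (f := fun l => ‖ν (e i l)‖ ^ 2) (fun _ _ => sq_nonneg _)
      (Finset.mem_univ 0)
  have h3 : 0 < Ssum e ν := h1.trans_le (h2.trans (RBound_Ssum_ge e ν i))
  have h4 : 0 < ε ^ 2 * Ssum e ν := mul_pos (pow_pos hε 2) h3
  have h5 := sq_nonneg ‖ν (famAt (e i) s)‖
  linarith

/-- `J(s) ≤ C I_0` for `|s| ≤ ε ≤ 1`. -/
theorem JJ_le (S : Sheets 𝒜 x k) (G : R) (r : ℕ) (e : Fin M → Fin (B + 1) → R)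
    (hg : GoodSheets S G e) (c : ℝ) (hc : 0 ≤ c) (ε : ℝ) (hε : 0 < ε) (hε1 : ε ≤ 1) (s : ℂ)
    (hs : ‖s‖ ≤ ε) :
    JJ S G r e c ε s ≤ ENNReal.ofReal ((2 * (1 + B : ℝ)) ^ (c * M)) *
      intI x G r (fun i => e i 0) c := by
  have hB : (0 : ℝ) < 2 * (1 + B : ℝ) := by positivity
  have key : ∀ y ∈ W0 S.h, ∑' ν : fib x y, ENNReal.ofReal (wph G r e c ε ν.1 s) ≤
      ENNReal.ofReal ((2 * (1 + B : ℝ)) ^ (c * M)) * ∑' ν : fib x y,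
        ENNReal.ofReal ((∏ i, ‖ν.1 (e i 0)‖ ^ (-2 * c)) * ‖ν.1 G‖ ^ (-2 / (r : ℝ))) := by
    intro y hy
    rw [← ENNReal.tsum_mul_left]
    refine ENNReal.tsum_le_tsum fun ν => ?_
    rw [← ENNReal.ofReal_mul (Real.rpow_nonneg hB.le _)]
    refine ENNReal.ofReal_le_ofReal ?_
    rw [wph, ← mul_assoc]
    refine mul_le_mul_of_nonneg_right ?_ (Real.rpow_nonneg (norm_nonneg _) _)
    have hprod : (2 * (1 + B : ℝ)) ^ (c * M) * ∏ i : Fin M, ‖ν.1 (e i 0)‖ ^ (-2 * c) =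
        ∏ i : Fin M, ((2 * (1 + B : ℝ)) ^ c * ‖ν.1 (e i 0)‖ ^ (-2 * c)) := by
      rw [Finset.prod_mul_distrib, Finset.prod_const, Finset.card_univ, Fintype.card_fin,
        Real.rpow_mul hB.le, Real.rpow_natCast]
    rw [hprod]
    refine Finset.prod_le_prod (fun i _ => Real.rpow_nonneg (add_nonneg (sq_nonneg _)
      (mul_nonneg (sq_nonneg _) (RBound_Ssum_nonneg e ν.1))) _) fun i _ => ?_
    have h0 : ν.1 (e i 0) ≠ 0 := (hg y hy.2 ν.1 ν.2).2 i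
    have h1 : 0 < ‖ν.1 (e i 0)‖ := norm_pos_iff.2 h0
    have h2 := RBound_sq (fun l => ν.1 (e i l)) s ε (Ssum e ν.1) hs hε1 hε.le
      (RBound_Ssum_ge e ν.1 i)
    rw [← RBound_fam] at h2
    have h3 : 0 < (2 * (1 + B : ℝ))⁻¹ * ‖ν.1 (e i 0)‖ ^ 2 := by positivity
    have h4 : (2 * (1 + B : ℝ))⁻¹ * ‖ν.1 (e i 0)‖ ^ 2 ≤
        ‖ν.1 (famAt (e i) s)‖ ^ 2 + ε ^ 2 * Ssum e ν.1 := by
      rw [inv_mul_le_iff₀ hB]
      exact h2
    calc (‖ν.1 (famAt (e i) s)‖ ^ 2 + ε ^ 2 * Ssum e ν.1) ^ (-c)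
        ≤ ((2 * (1 + B : ℝ))⁻¹ * ‖ν.1 (e i 0)‖ ^ 2) ^ (-c) :=
          Real.rpow_le_rpow_of_nonpos h3 h4 (by linarith)
      _ = (2 * (1 + B : ℝ)) ^ c * ‖ν.1 (e i 0)‖ ^ (-2 * c) := by
          rw [Real.mul_rpow (by positivity) (by positivity), Real.rpow_neg (by positivity),
            Real.inv_rpow hB.le, inv_inv, ← Real.rpow_natCast, ← Real.rpow_mul h1.le]
          congr 2
          push_cast
          ring
  calc JJ S G r e c ε s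
      ≤ ∫⁻ y in W0 S.h, ENNReal.ofReal ((2 * (1 + B : ℝ)) ^ (c * M)) * ∑' ν : fib x y,
        ENNReal.ofReal ((∏ i, ‖ν.1 (e i 0)‖ ^ (-2 * c)) * ‖ν.1 G‖ ^ (-2 / (r : ℝ))) :=
        setLIntegral_mono' (RBound_isOpen S.h).measurableSet key
    _ = ENNReal.ofReal ((2 * (1 + B : ℝ)) ^ (c * M)) * ∫⁻ y in W0 S.h, ∑' ν : fib x y,
        ENNReal.ofReal ((∏ i, ‖ν.1 (e i 0)‖ ^ (-2 * c)) * ‖ν.1 G‖ ^ (-2 / (r : ℝ))) :=
        lintegral_const_mul' _ _ ENNReal.ofReal_ne_top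
    _ ≤ _ := by
        gcongr
        exact lintegral_mono_set (RBound_subset S.h)

/-- Elements of `ℂ[x]` are bounded on the points over the unit polydisc. -/
private theorem RBound_coeff (a : R) (ha : a ∈ Algebra.adjoin ℂ (Set.range x)) :
    ∃ C : ℝ≥0, ∀ y : Fin (n + 1) → ℂ, ‖y‖ ≤ 1 → ∀ ν ∈ fib x y, ‖ν a‖₊ ≤ C := by
  rw [Algebra.adjoin_range_eq_range_aeval] at ha
  obtain ⟨P, rfl⟩ := ha
  obtain ⟨C, hC⟩ := (isCompact_closedBall (0 : Fin (n + 1) → ℂ) 1).exists_bound_of_continuousOn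
    (MvPolynomial.continuous_eval P).continuousOn
  refine ⟨⟨max C 0, le_max_right _ _⟩, ?_⟩
  intro y hy ν hν
  have h1 : ν (MvPolynomial.aeval x P) = MvPolynomial.eval y P := by
    have h2 : ν.comp (MvPolynomial.aeval x) = MvPolynomial.aeval y := by
      apply MvPolynomial.algHom_ext
      intro b
      simp only [AlgHom.comp_apply, MvPolynomial.aeval_X]
      exact hν b
    have h3 := DFunLike.congr_fun h2 P
    rw [AlgHom.comp_apply] at h3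
    rw [h3, MvPolynomial.aeval_eq_eval]
  have h4 := hC y (by simpa using hy)
  rw [← NNReal.coe_le_coe, coe_nnnorm]
  change ‖ν (MvPolynomial.aeval x P)‖ ≤ max C 0
  rw [h1]
  exact h4.trans (le_max_left _ _)

/-- Elements of `R` are bounded on the points over the unit polydisc. -/
theorem exists_bound [GradedAlgebra 𝒜] {r d : ℕ} {G : R} (h : IsFano 𝒜 n r d x G) (f : R) :
    ∃ C : ℝ, 0 < C ∧ ∀ y : Fin (n + 1) → ℂ, ‖y‖ ≤ 1 → ∀ ν ∈ fib x y, ‖ν f‖ ≤ C := by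
  have := h.x_finite
  obtain ⟨p, hp, hpf⟩ := Algebra.IsIntegral.isIntegral
    (R := Algebra.adjoin ℂ (Set.range x)) (A := R) f
  choose C hC using fun i => RBound_coeff (x := x) (p.coeff i).1 (p.coeff i).2
  refine ⟨(∑ i ∈ Finset.range p.natDegree, (C i : ℝ)) + 1,
    add_pos_of_nonneg_of_pos (Finset.sum_nonneg fun _ _ => NNReal.coe_nonneg _) one_pos, ?_⟩
  intro y hy ν hν
  set g : Algebra.adjoin ℂ (Set.range x) →+* ℂ :=
    (ν : R →+* ℂ).comp (algebraMap (Algebra.adjoin ℂ (Set.range x)) R) with hgdef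
  have hg : ∀ a, g a = ν a.1 := fun a => rfl
  have hm : (p.map g).Monic := hp.map g
  have hroot : (p.map g).IsRoot (ν f) := by
    rw [Polynomial.IsRoot.def, Polynomial.eval_map]
    have h1 := Polynomial.hom_eval₂ p (algebraMap (Algebra.adjoin ℂ (Set.range x)) R)
      (ν : R →+* ℂ) f
    rw [hpf, map_zero] at h1
    exact h1.symm
  have h2 := Polynomial.IsRoot.norm_lt_cauchyBound hm.ne_zero hroot
  have h3 : (p.map g).cauchyBound ≤ (∑ i ∈ Finset.range p.natDegree, C i) + 1 := by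
    unfold Polynomial.cauchyBound
    rw [hm.leadingCoeff, nnnorm_one, div_one]
    refine add_le_add ?_ le_rfl
    refine Finset.sup_le fun i hi => ?_
    rw [Polynomial.coeff_map, hg]
    rw [hp.natDegree_map] at hi
    exact (hC i y hy ν hν).trans (Finset.single_le_sum (f := C) (fun _ _ => zero_le) hi)
  have h4 : ‖ν f‖₊ ≤ (∑ i ∈ Finset.range p.natDegree, C i) + 1 := h2.le.trans h3
  have h5 : ((‖ν f‖₊ : ℝ≥0) : ℝ) ≤ (((∑ i ∈ Finset.range p.natDegree, C i) + 1 : ℝ≥0) : ℝ) :=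
    NNReal.coe_le_coe.2 h4
  push_cast at h5
  exact h5

/-- The weight is bounded below on the polydisc. -/
theorem wph_ge [GradedAlgebra 𝒜] {r d : ℕ} {G : R} (h : IsFano 𝒜 n r d x G)
    (e : Fin M → Fin (B + 1) → R) (c : ℝ) (hc : 0 ≤ c) (ρ₀ : ℝ) :
    ∃ c₀ : ℝ, 0 < c₀ ∧ ∀ (ε : ℝ) (s : ℂ), 0 < ε → ε ≤ 1 → ‖s‖ ≤ ρ₀ → ∀ y : Fin (n + 1) → ℂ,
      ‖y‖ ≤ 1 → ∀ ν ∈ fib x y, ν G ≠ 0 → (∀ i, ν (e i 0) ≠ 0) →
        c₀ * ‖ν G‖ ^ (-2 / (r : ℝ)) ≤ wph G r e c ε ν s ∧ c₀ ≤ wph G r e c ε ν s := by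
  choose C hC0 hC using fun i l => exists_bound h (e i l)
  obtain ⟨CG, hCG0, hCG⟩ := exists_bound h G
  set T : ℝ := ∑ i, ∑ l, C i l ^ 2 with hT
  set D : ℝ := 1 + ∑ i, (∑ l : Fin (B + 1), |ρ₀| ^ (l : ℕ) * C i l) ^ 2 + T with hD
  have hT0 : 0 ≤ T := Finset.sum_nonneg fun _ _ => Finset.sum_nonneg fun _ _ => sq_nonneg _
  have hS0 : 0 ≤ ∑ i, (∑ l : Fin (B + 1), |ρ₀| ^ (l : ℕ) * C i l) ^ 2 :=
    Finset.sum_nonneg fun _ _ => sq_nonneg _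
  have hD0 : 0 < D := by linarith
  set c1 : ℝ := (D ^ (-c)) ^ M with hc1
  have hc10 : 0 < c1 := pow_pos (Real.rpow_pos_of_pos hD0 _) _
  have hCGp : 0 < CG ^ (-2 / (r : ℝ)) := Real.rpow_pos_of_pos hCG0 _
  have hexp : -2 / (r : ℝ) ≤ 0 := div_nonpos_of_nonpos_of_nonneg (by norm_num) (Nat.cast_nonneg _)
  refine ⟨min c1 (c1 * CG ^ (-2 / (r : ℝ))), lt_min hc10 (mul_pos hc10 hCGp), ?_⟩
  intro ε s hε hε1 hs y hy ν hν hG he
  have hGp : 0 < ‖ν G‖ ^ (-2 / (r : ℝ)) := Real.rpow_pos_of_pos (norm_pos_iff.2 hG) _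
  have hGle : CG ^ (-2 / (r : ℝ)) ≤ ‖ν G‖ ^ (-2 / (r : ℝ)) :=
    Real.rpow_le_rpow_of_nonpos (norm_pos_iff.2 hG) (hCG y hy ν hν) hexp
  have hSs : Ssum e ν ≤ T :=
    Finset.sum_le_sum fun i _ => Finset.sum_le_sum fun l _ =>
      pow_le_pow_left₀ (norm_nonneg _) (hC i l y hy ν hν) 2
  have hfac : ∀ i, ‖ν (famAt (e i) s)‖ ^ 2 + ε ^ 2 * Ssum e ν ≤ D := by
    intro i
    have h1 : ‖ν (famAt (e i) s)‖ ≤ ∑ l : Fin (B + 1), |ρ₀| ^ (l : ℕ) * C i l := by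
      rw [RBound_fam]
      refine (norm_sum_le _ _).trans (Finset.sum_le_sum fun l _ => ?_)
      rw [norm_mul, norm_pow]
      exact mul_le_mul (pow_le_pow_left₀ (norm_nonneg _) (hs.trans (le_abs_self _)) _)
        (hC i l y hy ν hν) (norm_nonneg _) (pow_nonneg (abs_nonneg _) _)
    have h2 : ‖ν (famAt (e i) s)‖ ^ 2 ≤
        ∑ i, (∑ l : Fin (B + 1), |ρ₀| ^ (l : ℕ) * C i l) ^ 2 :=
      (pow_le_pow_left₀ (norm_nonneg _) h1 2).trans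
        (Finset.single_le_sum (f := fun i => (∑ l : Fin (B + 1), |ρ₀| ^ (l : ℕ) * C i l) ^ 2)
          (fun _ _ => sq_nonneg _) (Finset.mem_univ i))
    have h3 : ε ^ 2 * Ssum e ν ≤ T := by
      calc ε ^ 2 * Ssum e ν ≤ 1 * Ssum e ν :=
            mul_le_mul_of_nonneg_right (pow_le_one₀ hε.le hε1) (RBound_Ssum_nonneg e ν)
        _ = Ssum e ν := one_mul _
        _ ≤ T := hSs
    linarith
  have hprod : c1 ≤ ∏ i, (‖ν (famAt (e i) s)‖ ^ 2 + ε ^ 2 * Ssum e ν) ^ (-c) := by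
    have h1 : c1 = ∏ _i : Fin M, D ^ (-c) := by
      rw [Finset.prod_const, Finset.card_univ, Fintype.card_fin]
    rw [h1]
    exact Finset.prod_le_prod (fun _ _ => (Real.rpow_pos_of_pos hD0 _).le) fun i _ =>
      Real.rpow_le_rpow_of_nonpos (RBound_pos e ν i ε hε s (he i)) (hfac i) (by linarith)
  have hw : c1 * ‖ν G‖ ^ (-2 / (r : ℝ)) ≤ wph G r e c ε ν s :=
    mul_le_mul_of_nonneg_right hprod hGp.le
  refine ⟨(mul_le_mul_of_nonneg_right (min_le_left _ _) hGp.le).trans hw, ?_⟩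
  exact (min_le_right _ _).trans ((mul_le_mul_of_nonneg_left hGle hc10.le).trans hw)

/-- `J(s) ≥ c₁ > 0` for `|s| ≤ 1`. -/
theorem JJ_ge [GradedAlgebra 𝒜] {r d : ℕ} {G : R} (h : IsFano 𝒜 n r d x G) (S : Sheets 𝒜 x k)
    (e : Fin M → Fin (B + 1) → R) (hg : GoodSheets S G e) (c : ℝ) (hc : 0 ≤ c) :
    ∃ c₁ : ℝ, 0 < c₁ ∧ ∀ (ε : ℝ) (s : ℂ), 0 < ε → ε ≤ 1 → ‖s‖ ≤ 1 →
      ENNReal.ofReal c₁ ≤ JJ S G r e c ε s := by
  obtain ⟨c₀, hc₀, H⟩ := wph_ge h e c hc 1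
  have hV0 : volume (W0 S.h) ≠ 0 :=
    ((RBound_isOpen S.h).measure_pos volume (RBound_nonempty S.h S.h_ne)).ne'
  have hV1 : volume (W0 S.h) ≠ ⊤ :=
    ((measure_mono (RBound_subset S.h)).trans_lt Metric.isBounded_ball.measure_lt_top).ne
  refine ⟨c₀ * (volume (W0 S.h)).toReal, mul_pos hc₀ (ENNReal.toReal_pos hV0 hV1), ?_⟩
  intro ε s hε hε1 hs
  rw [ENNReal.ofReal_mul hc₀.le, ENNReal.ofReal_toReal hV1, ← setLIntegral_const]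
  refine setLIntegral_mono' (RBound_isOpen S.h).measurableSet fun y hy => ?_
  have hne : (fib x y).Nonempty := by
    rw [Set.nonempty_iff_ne_empty]
    intro h0
    have h1 := S.card y hy.2
    rw [h0, Set.ncard_empty] at h1
    omega
  obtain ⟨ν, hν⟩ := hne
  have h2 := (H ε s hε hε1 hs y hy.1.le ν hν (hg y hy.2 ν hν).1 (hg y hy.2 ν hν).2).2
  exact (ENNReal.ofReal_le_ofReal h2).trans
    (ENNReal.le_tsum (f := fun ν : fib x y => ENNReal.ofReal (wph G r e c ε ν.1 s)) ⟨ν, hν⟩)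

/-- If `I_0` is finite then so is the integral of `∑ |G| ^ (-2/r)`. -/
theorem intG_ne_top [GradedAlgebra 𝒜] {r d : ℕ} {G : R} (h : IsFano 𝒜 n r d x G)
    (S : Sheets 𝒜 x k) (e : Fin M → Fin (B + 1) → R) (hg : GoodSheets S G e) (c : ℝ)
    (hc : 0 ≤ c) (hI : intI x G r (fun i => e i 0) c ≠ ⊤) :
    ∫⁻ y in W0 S.h, ∑' ν : fib x y, ENNReal.ofReal (‖ν.1 G‖ ^ (-2 / (r : ℝ))) ≠ ⊤ := by
  choose C hC0 hC using fun i => exists_bound h (e i 0)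
  set c1 : ℝ := ∏ i, C i ^ (-2 * c) with hc1
  have hc10 : 0 < c1 := Finset.prod_pos fun i _ => Real.rpow_pos_of_pos (hC0 i) _
  have key : ∀ y ∈ W0 S.h, ∑' ν : fib x y, ENNReal.ofReal (‖ν.1 G‖ ^ (-2 / (r : ℝ))) ≤
      ENNReal.ofReal c1⁻¹ * ∑' ν : fib x y,
        ENNReal.ofReal ((∏ i, ‖ν.1 (e i 0)‖ ^ (-2 * c)) * ‖ν.1 G‖ ^ (-2 / (r : ℝ))) := by
    intro y hy
    rw [← ENNReal.tsum_mul_left]
    refine ENNReal.tsum_le_tsum fun ν => ?_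
    rw [← ENNReal.ofReal_mul (inv_pos.2 hc10).le]
    refine ENNReal.ofReal_le_ofReal ?_
    have h1 : c1 ≤ ∏ i, ‖ν.1 (e i 0)‖ ^ (-2 * c) :=
      Finset.prod_le_prod (fun i _ => (Real.rpow_pos_of_pos (hC0 i) _).le) fun i _ =>
        Real.rpow_le_rpow_of_nonpos (norm_pos_iff.2 ((hg y hy.2 ν.1 ν.2).2 i))
          (hC i y hy.1.le ν.1 ν.2) (by linarith)
    have h2 : 0 ≤ ‖ν.1 G‖ ^ (-2 / (r : ℝ)) := Real.rpow_nonneg (norm_nonneg _) _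
    calc ‖ν.1 G‖ ^ (-2 / (r : ℝ)) = c1⁻¹ * (c1 * ‖ν.1 G‖ ^ (-2 / (r : ℝ))) := by
          rw [← mul_assoc, inv_mul_cancel₀ hc10.ne', one_mul]
      _ ≤ _ := mul_le_mul_of_nonneg_left (mul_le_mul_of_nonneg_right h1 h2) (inv_pos.2 hc10).le
  refine ne_top_of_le_ne_top (ENNReal.mul_ne_top (ENNReal.ofReal_ne_top (r := c1⁻¹)) hI) ?_
  calc ∫⁻ y in W0 S.h, ∑' ν : fib x y, ENNReal.ofReal (‖ν.1 G‖ ^ (-2 / (r : ℝ)))
      ≤ ∫⁻ y in W0 S.h, ENNReal.ofReal c1⁻¹ * ∑' ν : fib x y,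
        ENNReal.ofReal ((∏ i, ‖ν.1 (e i 0)‖ ^ (-2 * c)) * ‖ν.1 G‖ ^ (-2 / (r : ℝ))) :=
        setLIntegral_mono' (RBound_isOpen S.h).measurableSet key
    _ = ENNReal.ofReal c1⁻¹ * ∫⁻ y in W0 S.h, ∑' ν : fib x y,
        ENNReal.ofReal ((∏ i, ‖ν.1 (e i 0)‖ ^ (-2 * c)) * ‖ν.1 G‖ ^ (-2 / (r : ℝ))) :=
        lintegral_const_mul' _ _ ENNReal.ofReal_ne_top
    _ ≤ _ := by
        gcongr
        exact lintegral_mono_set (RBound_subset S.h)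

end Pool.Agent.Lib_KF
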