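import Pool.Agent.Lib_KF.RDefs

/-! RS03: the curvature of a metric which is locally a sum of line bundle metrics in a
holomorphic frame. -/

open MeasureTheory Complex
open scoped ENNReal ContDiff ComplexConjugate

namespace Pool.Agent.Lib_KF

open GPn

section RCurvAux

open Filter Topology

variable {E : Type} [NormedAddCommGroup E] [NormedSpace ℂ E]

private lemma rcurv_dz_mul (v : E) {u w : E → ℂ} {x : E} (hu : DifferentiableAt ℝ u x)
    (hw : DifferentiableAt ℝ w x) :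
    dz v (fun y => u y * w y) x = dz v u x * w x + u x * dz v w x := by
  have h : fderiv ℝ (fun y => u y * w y) x = u x • fderiv ℝ w x + w x • fderiv ℝ u x :=
    fderiv_fun_mul hu hw
  simp only [dz, h, _root_.add_apply, _root_.smul_apply, smul_eq_mul]
  ring

private lemma rcurv_dzb_mul (v : E) {u w : E → ℂ} {x : E} (hu : DifferentiableAt ℝ u x)
    (hw : DifferentiableAt ℝ w x) :
    dzb v (fun y => u y * w y) x = dzb v u x * w x + u x * dzb v w x := by
  have h : fderiv ℝ (fun y => u y * w y) x = u x • fderiv ℝ w x + w x • fderiv ℝ u x :=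
    fderiv_fun_mul hu hw
  simp only [dzb, h, _root_.add_apply, _root_.smul_apply, smul_eq_mul]
  ring

private lemma rcurv_dz_sum {κ : Type} (s : Finset κ) (v : E) {u : κ → E → ℂ} {x : E}
    (hu : ∀ i ∈ s, DifferentiableAt ℝ (u i) x) :
    dz v (fun y => ∑ i ∈ s, u i y) x = ∑ i ∈ s, dz v (u i) x := by
  have h : fderiv ℝ (fun y => ∑ i ∈ s, u i y) x = ∑ i ∈ s, fderiv ℝ (u i) x :=
    fderiv_fun_sum hu
  simp only [dz, h, ContinuousLinearMap.sum_apply, Finset.mul_sum]
  rw [← Finset.sum_sub_distrib, Finset.sum_div]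

private lemma rcurv_dzb_sum {κ : Type} (s : Finset κ) (v : E) {u : κ → E → ℂ} {x : E}
    (hu : ∀ i ∈ s, DifferentiableAt ℝ (u i) x) :
    dzb v (fun y => ∑ i ∈ s, u i y) x = ∑ i ∈ s, dzb v (u i) x := by
  have h : fderiv ℝ (fun y => ∑ i ∈ s, u i y) x = ∑ i ∈ s, fderiv ℝ (u i) x :=
    fderiv_fun_sum hu
  simp only [dzb, h, ContinuousLinearMap.sum_apply, Finset.mul_sum]
  rw [← Finset.sum_add_distrib, Finset.sum_div]

private lemma rcurv_dzb_sub (v : E) {u w : E → ℂ} {x : E} (hu : DifferentiableAt ℝ u x)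
    (hw : DifferentiableAt ℝ w x) :
    dzb v (fun y => u y - w y) x = dzb v u x - dzb v w x := by
  have h : fderiv ℝ (fun y => u y - w y) x = fderiv ℝ u x - fderiv ℝ w x :=
    fderiv_fun_sub hu hw
  simp only [dzb, h, _root_.sub_apply]
  ring

private lemma rcurv_dz_congr (v : E) {u w : E → ℂ} {x : E} (h : u =ᶠ[𝓝 x] w) :
    dz v u x = dz v w x := by
  simp only [dz, h.fderiv_eq]

private lemma rcurv_dzb_congr (v : E) {u w : E → ℂ} {x : E} (h : u =ᶠ[𝓝 x] w) :
    dzb v u x = dzb v w x := by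
  simp only [dzb, h.fderiv_eq]

private lemma rcurv_fderiv_ofReal {r : E → ℝ} {x : E} (v : E) (hr : DifferentiableAt ℝ r x) :
    fderiv ℝ (fun y => (r y : ℂ)) x v = ((fderiv ℝ r x v : ℝ) : ℂ) := by
  have h : HasFDerivAt (fun y => (r y : ℂ)) (Complex.ofRealCLM.comp (fderiv ℝ r x)) x :=
    Complex.ofRealCLM.hasFDerivAt.comp x hr.hasFDerivAt
  rw [h.fderiv]
  rfl

private lemma rcurv_dz_exp {Φ : E → ℝ} {y : E} (v : E) (hP : DifferentiableAt ℝ Φ y) :
    dz v (fun y => (Real.exp (-Φ y) : ℂ)) y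
      = -((Real.exp (-Φ y) : ℂ) * dz v (fun y => (Φ y : ℂ)) y) := by
  have h : HasFDerivAt (fun y => Real.exp (-Φ y)) (Real.exp (-Φ y) • -fderiv ℝ Φ y) y :=
    hP.hasFDerivAt.neg.exp
  simp only [dz, rcurv_fderiv_ofReal _ h.differentiableAt, rcurv_fderiv_ofReal _ hP, h.fderiv,
    _root_.smul_apply, _root_.neg_apply, smul_eq_mul, Complex.ofReal_mul, Complex.ofReal_neg]
  ring

private lemma rcurv_fderiv_I {F : E → ℂ} {x : E} (hF : DifferentiableAt ℂ F x) (v : E) :
    fderiv ℝ F x (I • v) = I * fderiv ℝ F x v := by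
  rw [hF.fderiv_restrictScalars ℝ]
  change fderiv ℂ F x (I • v) = I * fderiv ℂ F x v
  rw [map_smul, smul_eq_mul]

private lemma rcurv_dzb_hol {F : E → ℂ} {x : E} (hF : DifferentiableAt ℂ F x) (v : E) :
    dzb v F x = 0 := by
  simp only [dzb, rcurv_fderiv_I hF]
  rw [← mul_assoc, Complex.I_mul_I]
  ring

private lemma rcurv_dz_hol {F : E → ℂ} {x : E} (hF : DifferentiableAt ℂ F x) (v : E) :
    dz v F x = fderiv ℂ F x v := by
  have h1 : fderiv ℝ F x v = fderiv ℂ F x v := by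
    rw [hF.fderiv_restrictScalars ℝ]
    rfl
  simp only [dz, rcurv_fderiv_I hF, h1]
  rw [← mul_assoc, Complex.I_mul_I]
  ring

private lemma rcurv_conj_diff {F : E → ℂ} {x : E} (hF : DifferentiableAt ℝ F x) :
    HasFDerivAt (fun y => conj (F y))
      (Complex.conjCLE.toContinuousLinearMap.comp (fderiv ℝ F x)) x :=
  Complex.conjCLE.toContinuousLinearMap.hasFDerivAt.comp x hF.hasFDerivAt

private lemma rcurv_dz_conj {F : E → ℂ} {x : E} (hF : DifferentiableAt ℂ F x) (v : E) :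
    dz v (fun y => conj (F y)) x = 0 := by
  have h1 := rcurv_conj_diff (hF.restrictScalars ℝ)
  have h2 : ∀ w, fderiv ℝ (fun y => conj (F y)) x w = conj (fderiv ℝ F x w) := by
    intro w
    rw [h1.fderiv]
    simp
  simp only [dz, h2, rcurv_fderiv_I hF, map_mul, Complex.conj_I]
  rw [← mul_assoc, mul_neg, Complex.I_mul_I]
  ring

private lemma rcurv_dzb_dz_hol {F : E → ℂ} {x : E} (hF : AnalyticAt ℂ F x) (v w : E) :
    dzb w (dz v F) x = 0 := by
  have h1 : dz v F =ᶠ[𝓝 x] fun y => fderiv ℂ F y v := by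
    filter_upwards [hF.eventually_analyticAt] with y hy
    exact rcurv_dz_hol hy.differentiableAt v
  rw [rcurv_dzb_congr w h1]
  refine rcurv_dzb_hol ?_ w
  exact hF.fderiv.differentiableAt.clm_apply (differentiableAt_const v)

private lemma rcurv_diff_dz {F : E → ℂ} {x : E} (hF : ContDiffAt ℝ ∞ F x) (v : E) :
    DifferentiableAt ℝ (dz v F) x := by
  have h1 : DifferentiableAt ℝ (fderiv ℝ F) x :=
    (hF.fderiv_right (m := ∞) (by simp)).differentiableAt (by simp)
  have h2 : ∀ w, DifferentiableAt ℝ (fun y => fderiv ℝ F y w) x := fun w =>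
    h1.clm_apply (differentiableAt_const w)
  have h3 : dz v F = fun y => (fderiv ℝ F y v - I * fderiv ℝ F y (I • v)) * (2 : ℂ)⁻¹ := by
    funext y
    rw [dz, div_eq_mul_inv]
  rw [h3]
  exact ((h2 v).sub ((h2 (I • v)).const_mul I)).mul_const _

private lemma rcurv_ip {D : ℕ} (H : Fin D → Fin D → ℂ) (τ : Fin D → Fin D → ℂ) (w : Fin D → ℝ)
    (hH : ∀ a c, H a c = ∑ i, (w i : ℂ) * conj (τ i a) * τ i c) (u v : Fin D → ℂ) :
    ip H u v = ∑ i, (w i : ℂ) * ((∑ c, τ i c * u c) * conj (∑ a, τ i a * v a)) := by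
  unfold ip
  simp only [hH, map_sum, map_mul, Finset.mul_sum, Finset.sum_mul]
  rw [Finset.sum_congr rfl fun a _ => Finset.sum_comm, Finset.sum_comm]
  refine Finset.sum_congr rfl fun i _ => ?_
  refine Finset.sum_congr rfl fun a _ => ?_
  refine Finset.sum_congr rfl fun c _ => ?_
  ring

end RCurvAux

theorem HMet.curv_local {E : Type} [NormedAddCommGroup E] [NormedSpace ℂ E] {W : Set E}
    (hW : IsOpen W) {ι : Type} [Fintype ι] {b : Module.Basis ι ℂ E} {D : ℕ} (M : HMet W b D)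
    (x₀ : E) (hx₀ : x₀ ∈ W) (τ : Fin D → Fin D → E → ℂ) (Φ : Fin D → E → ℝ)
    (hτ : ∀ i a, AnalyticAt ℂ (τ i a) x₀) (hΦ : ∀ i, ContDiffAt ℝ ∞ (Φ i) x₀)
    (hH : ∀ᶠ x in nhds x₀, ∀ a c, M.H x a c =
      ∑ i, (Real.exp (-Φ i x) : ℂ) * conj (τ i a x) * τ i c x)
    (hinv : ∀ u : Fin D → ℂ, (∀ i, ∑ a, τ i a x₀ * u a = 0) → u = 0)
    (f : ι → Fin D → ℂ) :
    M.curv x₀ f = ∑ i, Real.exp (-Φ i x₀) * leviF b (Φ i) x₀ (fun j => ∑ a, τ i a x₀ * f j a) := by
  classical
  -- the matrix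
  let T : E → Matrix (Fin D) (Fin D) ℂ := fun x => Matrix.of fun i a => τ i a x
  have hdet0 : (T x₀).det ≠ 0 := by
    intro h0
    obtain ⟨u, hu, hu0⟩ := Matrix.exists_mulVec_eq_zero_iff.2 h0
    exact hu (hinv u fun i => congrFun hu0 i)
  have hdetc : ContinuousAt (fun x => (T x).det) x₀ := by
    have h1 : ContinuousAt T x₀ := by
      refine continuousAt_pi.2 fun i => continuousAt_pi.2 fun a => ?_
      exact (hτ i a).continuousAt
    exact ContinuousAt.comp (f := T) (g := Matrix.det)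
      (continuous_id.matrix_det.continuousAt) h1
  have hdet : ∀ᶠ x in nhds x₀, (T x).det ≠ 0 := hdetc.eventually_ne hdet0
  have hsolve : ∀ x, (T x).det ≠ 0 → ∀ z : Fin D → ℂ, (∀ a, ∑ i, conj (τ i a x) * z i = 0) →
      ∀ i, z i = 0 := by
    intro x hx z hz
    by_contra hne
    push Not at hne
    obtain ⟨i0, hi0⟩ := hne
    apply hx
    refine Matrix.exists_vecMul_eq_zero_iff.1 ⟨fun i => conj (z i), ?_, ?_⟩
    · intro h0
      have h1 : conj (z i0) = 0 := congrFun h0 i0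
      exact hi0 ((map_eq_zero _).1 h1)
    · funext a
      have h1 := congrArg conj (hz a)
      rw [map_sum, map_zero] at h1
      simp only [map_mul, Complex.conj_conj] at h1
      simp only [Matrix.vecMul, dotProduct, Pi.zero_apply, T, Matrix.of_apply]
      rw [← h1]
      exact Finset.sum_congr rfl fun i _ => mul_comm _ _
  -- the first order identity near x₀
  have hτe : ∀ᶠ x in nhds x₀, ∀ i a, AnalyticAt ℂ (τ i a) x :=
    Filter.eventually_all.2 fun i => Filter.eventually_all.2 fun a =>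
      (hτ i a).eventually_analyticAt
  have hΦe : ∀ᶠ x in nhds x₀, ∀ i, DifferentiableAt ℝ (Φ i) x := by
    refine Filter.eventually_all.2 fun i => ?_
    have h1 : ∀ᶠ x in nhds x₀, ContDiffAt ℝ 1 (Φ i) x :=
      ((hΦ i).of_le (m := 1) (by simp)).eventually (by simp)
    filter_upwards [h1] with x hx
    exact hx.differentiableAt (by simp)
  have hfirst : ∀ᶠ x in nhds x₀, ∀ k i c, ∑ e, τ i e x * M.A k x e c =
      dz (b k) (τ i c) x - dz (b k) (fun y => (Φ i y : ℂ)) x * τ i c x := by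
    filter_upwards [hτe, hΦe, hdet, hW.mem_nhds hx₀, hH.eventually_nhds] with x h1 h2 h3 h4 h5
    intro k i c
    have hd : ∀ i a, DifferentiableAt ℝ (τ i a) x := fun i a =>
      (h1 i a).differentiableAt.restrictScalars ℝ
    have hE : ∀ i, DifferentiableAt ℝ (fun y => (Real.exp (-Φ i y) : ℂ)) x := fun i =>
      Complex.ofRealCLM.differentiableAt.comp x ((h2 i).neg.exp)
    have hcj : ∀ i a, DifferentiableAt ℝ (fun y => conj (τ i a y)) x := fun i a =>
      (rcurv_conj_diff (hd i a)).differentiableAt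
    have hz := hsolve x h3 (fun i => (Real.exp (-Φ i x) : ℂ) *
      (dz (b k) (τ i c) x - dz (b k) (fun y => (Φ i y : ℂ)) x * τ i c x -
        ∑ e, τ i e x * M.A k x e c)) ?_ i
    · have h6 := (mul_eq_zero.1 hz).resolve_left
        (Complex.ofReal_ne_zero.2 (Real.exp_pos _).ne')
      exact (sub_eq_zero.1 h6).symm
    · intro a
      have h6 := M.chern k a c x h4
      have h7 : (fun y => M.H y a c) =ᶠ[nhds x] fun y =>
          ∑ i, (Real.exp (-Φ i y) : ℂ) * conj (τ i a y) * τ i c y := by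
        filter_upwards [h5] with y hy using hy a c
      have h8 : ∀ e, M.H x a e = ∑ i, (Real.exp (-Φ i x) : ℂ) * conj (τ i a x) * τ i e x :=
        fun e => h5.self_of_nhds a e
      rw [rcurv_dz_congr (b k) h7, rcurv_dz_sum Finset.univ (b k)
        (u := fun i y => (Real.exp (-Φ i y) : ℂ) * conj (τ i a y) * τ i c y)
        (fun i _ => ((hE i).mul (hcj i a)).mul (hd i c))] at h6
      have h9 : ∀ i, dz (b k) (fun y => (Real.exp (-Φ i y) : ℂ) * conj (τ i a y) * τ i c y) x =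
          conj (τ i a x) * ((Real.exp (-Φ i x) : ℂ) *
            (dz (b k) (τ i c) x - dz (b k) (fun y => (Φ i y : ℂ)) x * τ i c x)) := by
        intro i
        rw [rcurv_dz_mul (b k) (u := fun y => (Real.exp (-Φ i y) : ℂ) * conj (τ i a y))
            (w := τ i c) ((hE i).mul (hcj i a)) (hd i c),
          rcurv_dz_mul (b k) (hE i) (hcj i a), rcurv_dz_exp (b k) (h2 i),
          rcurv_dz_conj (h1 i a).differentiableAt]
        ring
      simp only [h9, h8] at h6
      have h10 : ∑ e, (∑ i, (Real.exp (-Φ i x) : ℂ) * conj (τ i a x) * τ i e x) * M.A k x e c =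
          ∑ i, conj (τ i a x) * ((Real.exp (-Φ i x) : ℂ) * ∑ e, τ i e x * M.A k x e c) := by
        simp only [Finset.sum_mul, Finset.mul_sum]
        rw [Finset.sum_comm]
        refine Finset.sum_congr rfl fun i _ => Finset.sum_congr rfl fun e _ => ?_
        ring
      rw [h10] at h6
      rw [← sub_eq_zero, ← Finset.sum_sub_distrib] at h6
      rw [← h6]
      refine Finset.sum_congr rfl fun i _ => ?_
      ring
  -- the second order identity at x₀
  have hτd : ∀ i a, DifferentiableAt ℝ (τ i a) x₀ := fun i a =>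
    (hτ i a).differentiableAt.restrictScalars ℝ
  have hAd : ∀ k e c, DifferentiableAt ℝ (fun x => M.A k x e c) x₀ := fun k e c =>
    ((M.smA k e c).contDiffAt (hW.mem_nhds hx₀)).differentiableAt (by simp)
  have hsecond : ∀ j k i c, ∑ e, τ i e x₀ * dzb (b k) (fun y => M.A j y e c) x₀ =
      - (dzb (b k) (dz (b j) (fun y => (Φ i y : ℂ))) x₀ * τ i c x₀) := by
    intro j k i c
    have h1 : (fun x => ∑ e, τ i e x * M.A j x e c) =ᶠ[nhds x₀] fun x =>
        dz (b j) (τ i c) x - dz (b j) (fun y => (Φ i y : ℂ)) x * τ i c x := by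
      filter_upwards [hfirst] with x hx using hx j i c
    have h2 := rcurv_dzb_congr (b k) h1
    have hτs : ContDiffAt ℝ ∞ (τ i c) x₀ :=
      ((hτ i c).contDiffAt (n := ∞)).restrict_scalars ℝ
    have hΦs : ContDiffAt ℝ ∞ (fun y => (Φ i y : ℂ)) x₀ :=
      Complex.ofRealCLM.contDiff.contDiffAt.comp x₀ (hΦ i)
    rw [rcurv_dzb_sum Finset.univ (b k) (u := fun e x => τ i e x * M.A j x e c)
        (fun e _ => (hτd i e).mul (hAd j e c)),
      rcurv_dzb_sub (b k) (u := fun x => dz (b j) (τ i c) x)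
        (w := fun x => dz (b j) (fun y => (Φ i y : ℂ)) x * τ i c x)
        (rcurv_diff_dz hτs (b j)) ((rcurv_diff_dz hΦs (b j)).mul (hτd i c)),
      rcurv_dzb_mul (b k) (rcurv_diff_dz hΦs (b j)) (hτd i c),
      rcurv_dzb_hol (hτ i c).differentiableAt, rcurv_dzb_dz_hol (hτ i c)] at h2
    have h3 : ∀ e, dzb (b k) (fun y => τ i e y * M.A j y e c) x₀ =
        τ i e x₀ * dzb (b k) (fun y => M.A j y e c) x₀ := by
      intro e
      rw [rcurv_dzb_mul (b k) (hτd i e) (hAd j e c), rcurv_dzb_hol (hτ i e).differentiableAt,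
        zero_mul, zero_add]
    simp only [h3] at h2
    rw [h2]
    ring
  -- the hermitian form
  have hip : ∀ u v : Fin D → ℂ, ip (M.H x₀) u v = ∑ i, (Real.exp (-Φ i x₀) : ℂ) *
      ((∑ c, τ i c x₀ * u c) * conj (∑ a, τ i a x₀ * v a)) := by
    intro u v
    exact rcurv_ip (M.H x₀) (fun i a => τ i a x₀) (fun i => Real.exp (-Φ i x₀))
      (fun a c => hH.self_of_nhds a c) u v
  have hterm : ∀ j k, ip (M.H x₀) (fun a => - ∑ c, dzb (b k) (fun y => M.A j y a c) x₀ * f j c)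
      (f k) = ∑ i, (Real.exp (-Φ i x₀) : ℂ) *
      (dzb (b k) (dz (b j) (fun y => (Φ i y : ℂ))) x₀ * (∑ a, τ i a x₀ * f j a) *
        conj (∑ a, τ i a x₀ * f k a)) := by
    intro j k
    rw [hip]
    refine Finset.sum_congr rfl fun i _ => ?_
    congr 2
    have h1 : ∑ e, τ i e x₀ * (- ∑ c, dzb (b k) (fun y => M.A j y e c) x₀ * f j c) =
        - ∑ c, (∑ e, τ i e x₀ * dzb (b k) (fun y => M.A j y e c) x₀) * f j c := by
      simp only [mul_neg, Finset.mul_sum, Finset.sum_mul, Finset.sum_neg_distrib]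
      rw [Finset.sum_comm]
      congr 1
      refine Finset.sum_congr rfl fun c _ => Finset.sum_congr rfl fun e _ => ?_
      ring
    rw [h1]
    simp only [hsecond, Finset.mul_sum, ← Finset.sum_neg_distrib]
    refine Finset.sum_congr rfl fun c _ => ?_
    ring
  unfold HMet.curv
  simp only [hterm]
  unfold leviF
  have h1 : (∑ j, ∑ k, ∑ i, (Real.exp (-Φ i x₀) : ℂ) *
      (dzb (b k) (dz (b j) (fun y => (Φ i y : ℂ))) x₀ * (∑ a, τ i a x₀ * f j a) *
        conj (∑ a, τ i a x₀ * f k a))) = ∑ i, (Real.exp (-Φ i x₀) : ℂ) *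
      ∑ j, ∑ k, dzb (b k) (dz (b j) (fun y => (Φ i y : ℂ))) x₀ * (∑ a, τ i a x₀ * f j a) *
        conj (∑ a, τ i a x₀ * f k a) := by
    simp only [Finset.mul_sum]
    rw [Finset.sum_congr rfl fun j _ => Finset.sum_comm, Finset.sum_comm]
  rw [h1, Complex.re_sum]
  refine Finset.sum_congr rfl fun i _ => ?_
  rw [Complex.re_ofReal_mul]

/-- Consequence: a lower bound of the curvature. -/
theorem HMet.curv_ge {E : Type} [NormedAddCommGroup E] [NormedSpace ℂ E] {W : Set E}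
    (hW : IsOpen W) {ι : Type} [Fintype ι] {b : Module.Basis ι ℂ E} {D : ℕ} (M : HMet W b D)
    (x₀ : E) (hx₀ : x₀ ∈ W) (τ : Fin D → Fin D → E → ℂ) (Φ : Fin D → E → ℝ)
    (hτ : ∀ i a, AnalyticAt ℂ (τ i a) x₀) (hΦ : ∀ i, ContDiffAt ℝ ∞ (Φ i) x₀)
    (hH : ∀ᶠ x in nhds x₀, ∀ a c, M.H x a c =
      ∑ i, (Real.exp (-Φ i x) : ℂ) * conj (τ i a x) * τ i c x)
    (hinv : ∀ u : Fin D → ℂ, (∀ i, ∑ a, τ i a x₀ * u a = 0) → u = 0)
    (κ : ℝ) (k₀ : ι) (hlev : ∀ i, ∀ a : ι → ℂ, κ * ‖a k₀‖ ^ 2 ≤ leviF b (Φ i) x₀ a)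
    (f : ι → Fin D → ℂ) : κ * M.nsq x₀ (f k₀) ≤ M.curv x₀ f := by
  rw [M.curv_local hW x₀ hx₀ τ Φ hτ hΦ hH hinv f]
  have h1 : M.nsq x₀ (f k₀) = ∑ i, Real.exp (-Φ i x₀) * ‖∑ a, τ i a x₀ * f k₀ a‖ ^ 2 := by
    unfold HMet.nsq
    rw [rcurv_ip (M.H x₀) (fun i a => τ i a x₀) (fun i => Real.exp (-Φ i x₀))
      (fun a c => hH.self_of_nhds a c), Complex.re_sum]
    refine Finset.sum_congr rfl fun i _ => ?_
    rw [Complex.re_ofReal_mul, Complex.mul_conj, Complex.normSq_eq_norm_sq, Complex.ofReal_re]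
  rw [h1, Finset.mul_sum]
  refine Finset.sum_le_sum fun i _ => ?_
  have h2 := mul_le_mul_of_nonneg_left (hlev i (fun j => ∑ a, τ i a x₀ * f j a))
    (Real.exp_pos (-Φ i x₀)).le
  calc κ * (Real.exp (-Φ i x₀) * ‖∑ a, τ i a x₀ * f k₀ a‖ ^ 2)
      = Real.exp (-Φ i x₀) * (κ * ‖∑ a, τ i a x₀ * f k₀ a‖ ^ 2) := by ring
    _ ≤ _ := h2

end Pool.Agent.Lib_KF
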