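import Pool.Agent.Lib_KF.ConstDefs
import Pool.Agent.Lib_KF.HDefs

/-! Module RS: the Hermitian metric on the trivial bundle with fibre `⨁ ℂ β a`. Definitions. -/

open MeasureTheory Complex
open scoped ENNReal NNReal ContDiff ComplexConjugate

namespace Pool.Agent.Lib_KF

open Pool.Agent.Lib_GD GPn

/-- Levi form -/
noncomputable def leviF {E : Type} [NormedAddCommGroup E] [NormedSpace ℂ E] {ι : Type} [Fintype ι]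
    (b : Module.Basis ι ℂ E) (χ : E → ℝ) (x : E) (a : ι → ℂ) : ℝ :=
  (∑ j, ∑ k, dzb (b k) (dz (b j) (fun y => (χ y : ℂ))) x * a j * conj (a k)).re

/-- The coordinates `(y, s)` of `ℂ ^ (n + 1) × ℂ`. -/
noncomputable def bE (n : ℕ) : Module.Basis (Fin (n + 1) ⊕ Unit) ℂ ((Fin (n + 1) → ℂ) × ℂ) :=
  (Pi.basisFun ℂ (Fin (n + 1))).prod (Module.Basis.singleton Unit ℂ)

/-- A smooth cutoff: `1` for `t ≤ 1 / 4`, `0` for `1 ≤ t`. -/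
noncomputable def cut (t : ℝ) : ℝ := Real.smoothTransition ((1 - t) * (4 / 3))

variable {R : Type} [CommRing R] [Algebra ℂ R] {𝒜 : ℕ → Submodule ℂ R} {n k M B : ℕ}
  {x : Fin (n + 1) → R}

/-- `∑ |ν (e i l)| ^ 2` -/
noncomputable def Ssum (e : Fin M → Fin (B + 1) → R) (ν : R →ₐ[ℂ] ℂ) : ℝ :=
  ∑ i, ∑ l, ‖ν (e i l)‖ ^ 2

/-- `exp (-φ)`, `φ = c ∑ log (|e_i(s)| ^ 2 + ε ^ 2 S) + (1 / r) log |G| ^ 2` -/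
noncomputable def wph (G : R) (r : ℕ) (e : Fin M → Fin (B + 1) → R) (c ε : ℝ)
    (ν : R →ₐ[ℂ] ℂ) (s : ℂ) : ℝ :=
  (∏ i, (‖ν (famAt (e i) s)‖ ^ 2 + ε ^ 2 * Ssum e ν) ^ (-c)) * ‖ν G‖ ^ (-2 / (r : ℝ))

/-- the weight `|s| ^ (-2) (1 + |s| ^ 2 / ε ^ 2) ^ (-τ)` -/
noncomputable def ws (ε τ : ℝ) (s : ℂ) : ℝ :=
  (‖s‖ ^ 2)⁻¹ * (1 + ‖s‖ ^ 2 / ε ^ 2) ^ (-τ)

/-- `J(s)` -/
noncomputable def JJ (S : Sheets 𝒜 x k) (G : R) (r : ℕ) (e : Fin M → Fin (B + 1) → R) (c ε : ℝ)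
    (s : ℂ) : ℝ≥0∞ :=
  ∫⁻ y in W0 S.h, ∑' ν : fib x y, ENNReal.ofReal (wph G r e c ε ν.1 s)

/-- The domain `{|y| < 1, h(y) ≠ 0, s ≠ 0}`. -/
def WW (S : Sheets 𝒜 x k) : Set ((Fin (n + 1) → ℂ) × ℂ) :=
  {p | p.1 ∈ W0 S.h ∧ p.2 ≠ 0}

/-- The metric: `|u| ^ 2 = ∑_ν exp (-Φ (ν, s)) |∑_a ν (β a) u a| ^ 2`. -/
noncomputable def Hmat (S : Sheets 𝒜 x k) (G : R) (r : ℕ) (e : Fin M → Fin (B + 1) → R)
    (c ε τ : ℝ) (p : (Fin (n + 1) → ℂ) × ℂ) (a a' : Fin (k + 1)) : ℂ :=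
  ∑ᶠ ν ∈ fib x p.1, ((wph G r e c ε ν p.2 * ws ε τ p.2 : ℝ) : ℂ) * conj (ν (S.β a)) * ν (S.β a')

/-- The norm squared as an extended number. -/
noncomputable def nE (S : Sheets 𝒜 x k) (G : R) (r : ℕ) (e : Fin M → Fin (B + 1) → R)
    (c ε τ : ℝ) (p : (Fin (n + 1) → ℂ) × ℂ) (u : Fin (k + 1) → ℂ) : ℝ≥0∞ :=
  ∑' ν : fib x p.1, ENNReal.ofReal (wph G r e c ε ν.1 p.2 * ws ε τ p.2 *
    ‖∑ a, ν.1 (S.β a) * u a‖ ^ 2)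

/-- The functions whose inverses occur in the weights do not vanish on the sheets. -/
def GoodSheets (S : Sheets 𝒜 x k) (G : R) (e : Fin M → Fin (B + 1) → R) : Prop :=
  ∀ y, MvPolynomial.eval y S.h ≠ 0 → ∀ ν ∈ fib x y, ν G ≠ 0 ∧ ∀ i, ν (e i 0) ≠ 0

/-- The exhaustion function of `WW`. -/
noncomputable def rhoE (S : Sheets 𝒜 x k) (p : (Fin (n + 1) → ℂ) × ℂ) : ℝ :=
  (∑ b, (1 - ‖p.1 b‖ ^ 2)⁻¹) + ‖p.2‖ ^ 2 + (‖MvPolynomial.eval p.1 S.h‖ ^ 2)⁻¹ + (‖p.2‖ ^ 2)⁻¹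

end Pool.Agent.Lib_KF
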