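import Pool.Agent.Lib_KF.RDefs
import Pool.Agent.Lib_KF.HWt

/-! RS01: `rhoE` is a good exhaustion function of `WW`. -/

open MeasureTheory Complex
open scoped ENNReal NNReal ContDiff ComplexConjugate

namespace Pool.Agent.Lib_KF

open Pool.Agent.Lib_GD GPn

section RExCalc

variable {E : Type} [NormedAddCommGroup E] [NormedSpace ℂ E]

private theorem REx_dz_add {F G : E → ℂ} {x : E} (hF : DifferentiableAt ℝ F x)
    (hG : DifferentiableAt ℝ G x) (v : E) :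
    dz v (fun y => F y + G y) x = dz v F x + dz v G x := by
  have h := fderiv_fun_add hF hG
  simp only [dz, h, add_apply]
  ring

private theorem REx_dzb_add {F G : E → ℂ} {x : E} (hF : DifferentiableAt ℝ F x)
    (hG : DifferentiableAt ℝ G x) (v : E) :
    dzb v (fun y => F y + G y) x = dzb v F x + dzb v G x := by
  have h := fderiv_fun_add hF hG
  simp only [dzb, h, add_apply]
  ring

private theorem REx_dzb_mul {F G : E → ℂ} {x : E} (hF : DifferentiableAt ℝ F x)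
    (hG : DifferentiableAt ℝ G x) (v : E) :
    dzb v (fun y => F y * G y) x = dzb v F x * G x + F x * dzb v G x := by
  have h := fderiv_fun_mul hF hG
  simp only [dzb, h, add_apply, smul_apply, smul_eq_mul]
  ring

private theorem REx_dz_congr {F G : E → ℂ} {x : E} (h : F =ᶠ[nhds x] G) (v : E) :
    dz v F x = dz v G x := by
  simp only [dz, h.fderiv_eq]

private theorem REx_dzb_congr {F G : E → ℂ} {x : E} (h : F =ᶠ[nhds x] G) (v : E) :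
    dzb v F x = dzb v G x := by
  simp only [dzb, h.fderiv_eq]

/-- holomorphic functions -/
private theorem REx_dzb_hol {g : E → ℂ} {x : E} (hg : DifferentiableAt ℂ g x) (v : E) :
    dzb v g x = 0 := by
  have h : fderiv ℝ g x = (fderiv ℂ g x).restrictScalars ℝ := hg.fderiv_restrictScalars ℝ
  simp only [dzb, h, ContinuousLinearMap.coe_restrictScalars', map_smul, smul_eq_mul]
  linear_combination (1 / 2 : ℂ) * fderiv ℂ g x v * I_mul_I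

private theorem REx_dz_hol {g : E → ℂ} {x : E} (hg : DifferentiableAt ℂ g x) (v : E) :
    dz v g x = fderiv ℂ g x v := by
  have h : fderiv ℝ g x = (fderiv ℂ g x).restrictScalars ℝ := hg.fderiv_restrictScalars ℝ
  simp only [dz, h, ContinuousLinearMap.coe_restrictScalars', map_smul, smul_eq_mul]
  linear_combination (-1 / 2 : ℂ) * fderiv ℂ g x v * I_mul_I

private theorem REx_dzb_conj {F : E → ℂ} {x : E} (hF : DifferentiableAt ℝ F x) (v : E) :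
    dzb v (fun y => conj (F y)) x = conj (dz v F x) := by
  have h : HasFDerivAt (fun y => conj (F y))
      ((conjCLE : ℂ →L[ℝ] ℂ).comp (fderiv ℝ F x)) x :=
    (conjCLE : ℂ →L[ℝ] ℂ).hasFDerivAt.comp x hF.hasFDerivAt
  simp only [dzb, dz, h.fderiv, ContinuousLinearMap.comp_apply]
  simp [map_ofNat]

/-- the derivative of `φ (|g| ^ 2)` -/
private theorem REx_hasF {g : E → ℂ} {x : E} (hg : DifferentiableAt ℂ g x) {φ : ℝ → ℝ} {φ' : ℝ}
    (hφ : HasDerivAt φ φ' (‖g x‖ ^ 2)) :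
    HasFDerivAt (fun y => ((φ (‖g y‖ ^ 2) : ℝ) : ℂ))
      (ofRealCLM.comp ((φ' * 2) • (innerSL ℝ (g x)).comp ((fderiv ℂ g x).restrictScalars ℝ))) x := by
  have h1 : HasFDerivAt g ((fderiv ℂ g x).restrictScalars ℝ) x := hg.hasFDerivAt.restrictScalars ℝ
  have h2 := h1.norm_sq
  have h3 := hφ.comp_hasFDerivAt x h2
  refine (ofRealCLM.hasFDerivAt.comp x h3).congr_fderiv ?_
  ext v
  simp [mul_assoc]

private theorem REx_dz_phi {g : E → ℂ} {x : E} (hg : DifferentiableAt ℂ g x) {φ : ℝ → ℝ} {φ' : ℝ}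
    (hφ : HasDerivAt φ φ' (‖g x‖ ^ 2)) (v : E) :
    dz v (fun y => ((φ (‖g y‖ ^ 2) : ℝ) : ℂ)) x = φ' * conj (g x) * fderiv ℂ g x v := by
  have h := REx_hasF hg hφ
  simp only [dz, h.fderiv]
  simp only [ContinuousLinearMap.comp_apply, smul_apply,
    ContinuousLinearMap.coe_restrictScalars', map_smul, smul_eq_mul, innerSL_apply_apply,
    ofRealCLM_apply, Complex.inner]
  generalize fderiv ℂ g x v = w
  apply Complex.ext <;> simp <;> ring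

private theorem REx_dzb_dz_phi {g : E → ℂ} {x : E} (hg : AnalyticAt ℂ g x) {φ φ' : ℝ → ℝ}
    {φ'' : ℝ} (hφ : ∀ᶠ t in nhds (‖g x‖ ^ 2), HasDerivAt φ (φ' t) t)
    (hφ' : HasDerivAt φ' φ'' (‖g x‖ ^ 2)) (v w : E) :
    dzb w (dz v (fun y => ((φ (‖g y‖ ^ 2) : ℝ) : ℂ))) x =
      ((φ'' * ‖g x‖ ^ 2 + φ' (‖g x‖ ^ 2) : ℝ) : ℂ) *
        (fderiv ℂ g x v * conj (fderiv ℂ g x w)) := by
  have hc : ContinuousAt (fun y => ‖g y‖ ^ 2) x := hg.continuousAt.norm.pow 2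
  have h1 : dz v (fun y => ((φ (‖g y‖ ^ 2) : ℝ) : ℂ)) =ᶠ[nhds x]
      fun y => (((φ' (‖g y‖ ^ 2) : ℝ) : ℂ) * conj (g y)) * fderiv ℂ g y v := by
    filter_upwards [hg.eventually_analyticAt, hc.eventually hφ] with y hy1 hy2
    exact REx_dz_phi hy1.differentiableAt hy2 v
  have hgd : DifferentiableAt ℂ g x := hg.differentiableAt
  have hgr : DifferentiableAt ℝ g x := hgd.restrictScalars ℝ
  have hA : DifferentiableAt ℝ (fun y => ((φ' (‖g y‖ ^ 2) : ℝ) : ℂ)) x :=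
    (REx_hasF hgd hφ').differentiableAt
  have hB : DifferentiableAt ℝ (fun y => conj (g y)) x :=
    (conjCLE : ℂ →L[ℝ] ℂ).differentiableAt.comp x hgr
  have hC0 : DifferentiableAt ℂ (fun y => fderiv ℂ g y v) x :=
    hg.fderiv.differentiableAt.clm_apply (differentiableAt_const v)
  have hC : DifferentiableAt ℝ (fun y => fderiv ℂ g y v) x := hC0.restrictScalars ℝ
  have hreal : dzb w (fun y => ((φ' (‖g y‖ ^ 2) : ℝ) : ℂ)) x =
      conj ((φ'' : ℂ) * conj (g x) * fderiv ℂ g x w) := by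
    rw [← REx_dz_phi hgd hφ' w, ← REx_dzb_conj hA]
    simp only [conj_ofReal]
  rw [REx_dzb_congr h1, REx_dzb_mul (hA.fun_mul hB) hC, REx_dzb_mul hA hB, REx_dzb_hol hC0,
    REx_dzb_conj hgr, REx_dz_hol hgd, hreal]
  have h5 : ((‖g x‖ ^ 2 : ℝ) : ℂ) = conj (g x) * g x := by
    rw [Complex.conj_mul']
    push_cast
    rfl
  simp only [ofReal_add, ofReal_mul, h5, map_mul, conj_ofReal, conj_conj, mul_zero, add_zero]
  ring

variable {ι : Type} [Fintype ι] (b : Module.Basis ι ℂ E)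

private theorem REx_levi_phi {g : E → ℂ} {x : E} (hg : AnalyticAt ℂ g x) {φ φ' : ℝ → ℝ}
    {φ'' : ℝ} (hφ : ∀ᶠ t in nhds (‖g x‖ ^ 2), HasDerivAt φ (φ' t) t)
    (hφ' : HasDerivAt φ' φ'' (‖g x‖ ^ 2)) (a : ι → ℂ) :
    leviF b (fun y => φ (‖g y‖ ^ 2)) x a =
      (φ'' * ‖g x‖ ^ 2 + φ' (‖g x‖ ^ 2)) * ‖∑ j, a j * fderiv ℂ g x (b j)‖ ^ 2 := by
  unfold leviF
  have h1 : ∀ j k, dzb (b k) (dz (b j) (fun y => ((φ (‖g y‖ ^ 2) : ℝ) : ℂ))) x * a j *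
      conj (a k) = ((φ'' * ‖g x‖ ^ 2 + φ' (‖g x‖ ^ 2) : ℝ) : ℂ) *
        ((a j * fderiv ℂ g x (b j)) * conj (a k * fderiv ℂ g x (b k))) := by
    intro j k
    rw [REx_dzb_dz_phi hg hφ hφ', map_mul]
    ring
  simp only [h1, ← Finset.mul_sum, ← Finset.sum_mul, ← map_sum]
  rw [Complex.mul_conj', ← ofReal_pow, ← ofReal_mul, ofReal_re]

private theorem REx_diff_dz {F : E → ℂ} {x : E} (hF : ContDiffAt ℝ ∞ F x) (v : E) :
    DifferentiableAt ℝ (dz v F) x := by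
  have h1 : ContDiffAt ℝ ∞ (fderiv ℝ F) x := hF.fderiv_right (m := ∞) (by simp)
  have h2 : DifferentiableAt ℝ (fderiv ℝ F) x := h1.differentiableAt (by simp)
  have h3 : ∀ u : E, DifferentiableAt ℝ (fun y => fderiv ℝ F y u) x := fun u =>
    h2.clm_apply (differentiableAt_const u)
  have : dz v F = fun y => (fderiv ℝ F y v - I * fderiv ℝ F y (I • v)) / 2 := rfl
  rw [this]
  have h4 := h3 v
  have h5 := h3 (I • v)
  fun_prop

private theorem REx_cd_near {F : E → ℂ} {x : E} (hF : ContDiffAt ℝ ∞ F x) :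
    ∀ᶠ y in nhds x, DifferentiableAt ℝ F y := by
  have h1 : ContDiffAt ℝ 1 F x := hF.of_le (by exact_mod_cast le_top)
  have h2 := h1.eventually (by simp)
  filter_upwards [h2] with y hy
  exact hy.differentiableAt (by simp)

private theorem REx_ofReal {χ : E → ℝ} {x : E} (h : ContDiffAt ℝ ∞ χ x) :
    ContDiffAt ℝ ∞ (fun y => (χ y : ℂ)) x :=
  Complex.ofRealCLM.contDiff.contDiffAt.comp x h

private theorem REx_levi_add (χ₁ χ₂ : E → ℝ) (x : E) (h₁ : ContDiffAt ℝ ∞ χ₁ x)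
    (h₂ : ContDiffAt ℝ ∞ χ₂ x) (a : ι → ℂ) :
    leviF b (fun y => χ₁ y + χ₂ y) x a = leviF b χ₁ x a + leviF b χ₂ x a := by
  have k1 := REx_ofReal h₁
  have k2 := REx_ofReal h₂
  have h3 : ∀ j k, dzb (b k) (dz (b j) (fun y => ((χ₁ y + χ₂ y : ℝ) : ℂ))) x =
      dzb (b k) (dz (b j) (fun y => (χ₁ y : ℂ))) x +
      dzb (b k) (dz (b j) (fun y => (χ₂ y : ℂ))) x := by
    intro j k
    have h4 : dz (b j) (fun y => ((χ₁ y + χ₂ y : ℝ) : ℂ)) =ᶠ[nhds x]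
        fun y => dz (b j) (fun y => (χ₁ y : ℂ)) y + dz (b j) (fun y => (χ₂ y : ℂ)) y := by
      filter_upwards [REx_cd_near k1, REx_cd_near k2] with y hy1 hy2
      rw [← REx_dz_add hy1 hy2]
      simp only [ofReal_add]
    rw [REx_dzb_congr h4, REx_dzb_add (REx_diff_dz k1 _) (REx_diff_dz k2 _)]
  unfold leviF
  simp only [h3, add_mul, Finset.sum_add_distrib, add_re]

private theorem REx_levi_sum {κ' : Type} (s : Finset κ') (χ : κ' → E → ℝ) (x : E)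
    (h : ∀ i, ContDiffAt ℝ ∞ (χ i) x) (a : ι → ℂ) :
    leviF b (fun y => ∑ i ∈ s, χ i y) x a = ∑ i ∈ s, leviF b (χ i) x a := by
  classical
  induction s using Finset.induction_on with
  | empty =>
    have h0 : ∀ v : E, dz v (fun _ : E => (((0 : ℝ) : ℝ) : ℂ)) = fun _ => 0 := by
      intro v
      funext y
      simp [dz]
    simp only [Finset.sum_empty]
    unfold leviF
    simp only [h0]
    simp [dzb]
  | insert i s hi ih =>
    simp only [Finset.sum_insert hi]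
    rw [REx_levi_add b (χ i) (fun y => ∑ j ∈ s, χ j y) x (h i)
      (ContDiffAt.sum fun j _ => h j), ih]

end RExCalc

variable {R : Type} [CommRing R] [Algebra ℂ R] {𝒜 : ℕ → Submodule ℂ R} {n k M B : ℕ}
  {x : Fin (n + 1) → R}

theorem isOpen_WW (S : Sheets 𝒜 x k) : IsOpen (WW S) :=
  ((isOpen_W0 S.h).preimage continuous_fst).inter (isOpen_ne_fun continuous_snd continuous_const)

private theorem REx_bE_inl (b : Fin (n + 1)) : bE n (Sum.inl b) = (Pi.single b 1, 0) := by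
  simp [bE, Module.Basis.prod_apply]

private theorem REx_bE_inr : bE n (Sum.inr ()) = (0, 1) := by
  simp [bE, Module.Basis.prod_apply]

private theorem REx_an_y (b : Fin (n + 1)) (p : (Fin (n + 1) → ℂ) × ℂ) :
    AnalyticAt ℂ (fun q : (Fin (n + 1) → ℂ) × ℂ => q.1 b) p :=
  ((ContinuousLinearMap.proj (R := ℂ) (φ := fun _ : Fin (n + 1) => ℂ) b).comp
    (ContinuousLinearMap.fst ℂ (Fin (n + 1) → ℂ) ℂ)).analyticAt p

private theorem REx_an_s (p : (Fin (n + 1) → ℂ) × ℂ) :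
    AnalyticAt ℂ (fun q : (Fin (n + 1) → ℂ) × ℂ => q.2) p :=
  (ContinuousLinearMap.snd ℂ (Fin (n + 1) → ℂ) ℂ).analyticAt p

private theorem REx_an_H (h : MvPolynomial (Fin (n + 1)) ℂ) (y : Fin (n + 1) → ℂ) :
    AnalyticAt ℂ (fun y : Fin (n + 1) → ℂ => MvPolynomial.eval y h) y := by
  have h1 := AnalyticAt.aeval_mvPolynomial (𝕜 := ℂ) (A := ℂ) (B := ℂ)
    (f := fun y : Fin (n + 1) → ℂ => y) (z := y)
    (fun i => (ContinuousLinearMap.proj (R := ℂ) (φ := fun _ : Fin (n + 1) => ℂ) i).analyticAt y) h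
  simpa [MvPolynomial.coe_aeval_eq_eval] using h1

private theorem REx_an_h (h : MvPolynomial (Fin (n + 1)) ℂ) (p : (Fin (n + 1) → ℂ) × ℂ) :
    AnalyticAt ℂ (fun q : (Fin (n + 1) → ℂ) × ℂ => MvPolynomial.eval q.1 h) p :=
  (REx_an_H h p.1).comp ((ContinuousLinearMap.fst ℂ (Fin (n + 1) → ℂ) ℂ).analyticAt p)

private theorem REx_fd_y (b : Fin (n + 1)) (p v : (Fin (n + 1) → ℂ) × ℂ) :
    fderiv ℂ (fun q : (Fin (n + 1) → ℂ) × ℂ => q.1 b) p v = v.1 b := by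
  have h : HasFDerivAt (fun q : (Fin (n + 1) → ℂ) × ℂ => q.1 b)
      ((ContinuousLinearMap.proj (R := ℂ) (φ := fun _ : Fin (n + 1) => ℂ) b).comp
        (ContinuousLinearMap.fst ℂ (Fin (n + 1) → ℂ) ℂ)) p :=
    ((ContinuousLinearMap.proj (R := ℂ) (φ := fun _ : Fin (n + 1) => ℂ) b).comp
      (ContinuousLinearMap.fst ℂ (Fin (n + 1) → ℂ) ℂ)).hasFDerivAt
  rw [h.fderiv]
  rfl

private theorem REx_fd_s (p v : (Fin (n + 1) → ℂ) × ℂ) :
    fderiv ℂ (fun q : (Fin (n + 1) → ℂ) × ℂ => q.2) p v = v.2 := by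
  have h : HasFDerivAt (fun q : (Fin (n + 1) → ℂ) × ℂ => q.2)
      (ContinuousLinearMap.snd ℂ (Fin (n + 1) → ℂ) ℂ) p :=
    (ContinuousLinearMap.snd ℂ (Fin (n + 1) → ℂ) ℂ).hasFDerivAt
  rw [h.fderiv]
  rfl

private theorem REx_fd_h (h : MvPolynomial (Fin (n + 1)) ℂ) (p v : (Fin (n + 1) → ℂ) × ℂ) :
    fderiv ℂ (fun q : (Fin (n + 1) → ℂ) × ℂ => MvPolynomial.eval q.1 h) p v =
      fderiv ℂ (fun y : Fin (n + 1) → ℂ => MvPolynomial.eval y h) p.1 v.1 := by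
  have h2 : HasFDerivAt (fun q : (Fin (n + 1) → ℂ) × ℂ => MvPolynomial.eval q.1 h)
      ((fderiv ℂ (fun y : Fin (n + 1) → ℂ => MvPolynomial.eval y h) p.1).comp
        (ContinuousLinearMap.fst ℂ (Fin (n + 1) → ℂ) ℂ)) p :=
    HasFDerivAt.comp (g := fun y : Fin (n + 1) → ℂ => MvPolynomial.eval y h)
      (f := fun q : (Fin (n + 1) → ℂ) × ℂ => q.1) p
      (REx_an_H h p.1).differentiableAt.hasFDerivAt
      (ContinuousLinearMap.fst ℂ (Fin (n + 1) → ℂ) ℂ).hasFDerivAt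
  rw [h2.fderiv]
  rfl

private theorem REx_bE_norm (j : Fin (n + 1) ⊕ Unit) : ‖(bE n j).1‖ ≤ 1 ∧ ‖(bE n j).2‖ ≤ 1 := by
  rcases j with b | u
  · rw [REx_bE_inl]
    constructor
    · refine (pi_norm_le_iff_of_nonneg zero_le_one).2 fun i => ?_
      by_cases hi : i = b
      · subst hi
        simp
      · simp [Pi.single_eq_of_ne hi]
    · simp
  · rw [REx_bE_inr]
    simp

private theorem REx_bdd (h : MvPolynomial (Fin (n + 1)) ℂ) :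
    ∃ C : ℝ, 0 ≤ C ∧ ∀ p : (Fin (n + 1) → ℂ) × ℂ, ‖p.1‖ < 1 → ∀ j,
      ‖fderiv ℂ (fun q : (Fin (n + 1) → ℂ) × ℂ => MvPolynomial.eval q.1 h) p (bE n j)‖ ≤ C := by
  have hc : Continuous (fderiv ℂ (fun y : Fin (n + 1) → ℂ => MvPolynomial.eval y h)) :=
    continuous_iff_continuousAt.2 fun y => (REx_an_H h y).fderiv.continuousAt
  obtain ⟨C, hC⟩ := (isCompact_closedBall (0 : Fin (n + 1) → ℂ) 1).exists_bound_of_continuousOn
    hc.continuousOn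
  refine ⟨|C|, abs_nonneg _, fun p hp j => ?_⟩
  rw [REx_fd_h]
  have h1 := hC p.1 (by simpa using hp.le)
  calc _ ≤ ‖fderiv ℂ (fun y : Fin (n + 1) → ℂ => MvPolynomial.eval y h) p.1‖ * ‖(bE n j).1‖ :=
        ContinuousLinearMap.le_opNorm _ _
    _ ≤ |C| * 1 := mul_le_mul (h1.trans (le_abs_self C)) (REx_bE_norm j).1 (norm_nonneg _)
        (abs_nonneg _)
    _ = |C| := mul_one _

/-- the functions of one variable -/
private theorem REx_phi1 {t : ℝ} (ht : t < 1) :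
    HasDerivAt (fun u : ℝ => (1 - u)⁻¹) (((1 - t) ^ 2)⁻¹) t := by
  have h1 : HasDerivAt (fun u : ℝ => 1 - u) (-1) t := by
    simpa using (hasDerivAt_id t).const_sub 1
  have h2 : (1 - t) ≠ 0 := by linarith
  have h3 := h1.fun_inv h2
  refine h3.congr_deriv ?_
  field_simp

private theorem REx_phi1' {t : ℝ} (ht : t < 1) :
    HasDerivAt (fun u : ℝ => ((1 - u) ^ 2)⁻¹) (2 * ((1 - t) ^ 3)⁻¹) t := by
  have h1 : HasDerivAt (fun u : ℝ => 1 - u) (-1) t := by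
    simpa using (hasDerivAt_id t).const_sub 1
  have h2 : (1 - t) ≠ 0 := by linarith
  have h3 := (h1.fun_pow 2).fun_inv (pow_ne_zero 2 h2)
  refine h3.congr_deriv ?_
  field_simp
  ring

private theorem REx_phi2 {t : ℝ} (ht : 0 < t) :
    HasDerivAt (fun u : ℝ => u⁻¹) (-(t ^ 2)⁻¹) t := by
  simpa using hasDerivAt_inv ht.ne'

private theorem REx_phi2' {t : ℝ} (ht : 0 < t) :
    HasDerivAt (fun u : ℝ => -(u ^ 2)⁻¹) (2 * (t ^ 3)⁻¹) t := by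
  have h2 : t ≠ 0 := ht.ne'
  have h3 := ((((hasDerivAt_id t).fun_pow 2).fun_inv (pow_ne_zero 2 h2))).fun_neg
  refine h3.congr_deriv ?_
  simp only [id]
  field_simp
  norm_num
  ring

private theorem REx_y_lt {S : Sheets 𝒜 x k} {p : (Fin (n + 1) → ℂ) × ℂ} (hp : p ∈ WW S)
    (b : Fin (n + 1)) : ‖p.1 b‖ ^ 2 < 1 := by
  have h1 : ‖p.1 b‖ < 1 := (norm_le_pi_norm p.1 b).trans_lt hp.1.1
  nlinarith [norm_nonneg (p.1 b)]

private theorem REx_h_pos {S : Sheets 𝒜 x k} {p : (Fin (n + 1) → ℂ) × ℂ} (hp : p ∈ WW S) :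
    0 < ‖MvPolynomial.eval p.1 S.h‖ ^ 2 := by
  have := norm_pos_iff.2 hp.1.2
  positivity

private theorem REx_s_pos {S : Sheets 𝒜 x k} {p : (Fin (n + 1) → ℂ) × ℂ} (hp : p ∈ WW S) :
    0 < ‖p.2‖ ^ 2 := by
  have := norm_pos_iff.2 hp.2
  positivity

private theorem REx_cd {g : (Fin (n + 1) → ℂ) × ℂ → ℂ} {p : (Fin (n + 1) → ℂ) × ℂ}
    (hg : AnalyticAt ℂ g p) : ContDiffAt ℝ ∞ (fun q => ‖g q‖ ^ 2) p :=
  (hg.contDiffAt.restrict_scalars ℝ).norm_sq ℝ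

private theorem REx_cd1 {S : Sheets 𝒜 x k} {p : (Fin (n + 1) → ℂ) × ℂ} (hp : p ∈ WW S)
    (b : Fin (n + 1)) :
    ContDiffAt ℝ ∞ (fun q : (Fin (n + 1) → ℂ) × ℂ => (1 - ‖q.1 b‖ ^ 2)⁻¹) p :=
  (contDiffAt_const.sub (REx_cd (REx_an_y b p))).inv
    (by have := REx_y_lt hp b; linarith)

private theorem REx_cd2 (p : (Fin (n + 1) → ℂ) × ℂ) :
    ContDiffAt ℝ ∞ (fun q : (Fin (n + 1) → ℂ) × ℂ => ‖q.2‖ ^ 2) p :=
  REx_cd (REx_an_s p)

private theorem REx_cd3 {S : Sheets 𝒜 x k} {p : (Fin (n + 1) → ℂ) × ℂ} (hp : p ∈ WW S) :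
    ContDiffAt ℝ ∞ (fun q : (Fin (n + 1) → ℂ) × ℂ =>
      (‖MvPolynomial.eval q.1 S.h‖ ^ 2)⁻¹) p :=
  (REx_cd (REx_an_h S.h p)).inv (REx_h_pos hp).ne'

private theorem REx_cd4 {S : Sheets 𝒜 x k} {p : (Fin (n + 1) → ℂ) × ℂ} (hp : p ∈ WW S) :
    ContDiffAt ℝ ∞ (fun q : (Fin (n + 1) → ℂ) × ℂ => (‖q.2‖ ^ 2)⁻¹) p :=
  (REx_cd2 p).inv (REx_s_pos hp).ne'

private theorem REx_smooth (S : Sheets 𝒜 x k) {p : (Fin (n + 1) → ℂ) × ℂ} (hp : p ∈ WW S) :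
    ContDiffAt ℝ ∞ (rhoE S) p := by
  unfold rhoE
  exact (((ContDiffAt.sum fun b _ => REx_cd1 hp b).add (REx_cd2 p)).add (REx_cd3 hp)).add
    (REx_cd4 hp)

private theorem REx_T1_ge {S : Sheets 𝒜 x k} {p : (Fin (n + 1) → ℂ) × ℂ} (hp : p ∈ WW S)
    (b : Fin (n + 1)) : 1 ≤ (1 - ‖p.1 b‖ ^ 2)⁻¹ := by
  have h1 := REx_y_lt hp b
  have h2 : 0 ≤ ‖p.1 b‖ ^ 2 := by positivity
  rw [one_le_inv₀ (by linarith)]
  linarith

private theorem REx_sum_ge {S : Sheets 𝒜 x k} {p : (Fin (n + 1) → ℂ) × ℂ} (hp : p ∈ WW S)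
    (b : Fin (n + 1)) : (1 - ‖p.1 b‖ ^ 2)⁻¹ ≤ ∑ b, (1 - ‖p.1 b‖ ^ 2)⁻¹ :=
  Finset.single_le_sum (f := fun b => (1 - ‖p.1 b‖ ^ 2)⁻¹)
    (fun i _ => zero_le_one.trans (REx_T1_ge hp i)) (Finset.mem_univ b)

/-- all the terms are at most `ρ` -/
private theorem REx_terms (S : Sheets 𝒜 x k) {p : (Fin (n + 1) → ℂ) × ℂ} (hp : p ∈ WW S) :
    1 ≤ rhoE S p ∧ (∀ b, (1 - ‖p.1 b‖ ^ 2)⁻¹ ≤ rhoE S p) ∧ ‖p.2‖ ^ 2 ≤ rhoE S p ∧
      (‖MvPolynomial.eval p.1 S.h‖ ^ 2)⁻¹ ≤ rhoE S p ∧ (‖p.2‖ ^ 2)⁻¹ ≤ rhoE S p := by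
  have h0 := REx_T1_ge hp 0
  have h1 := REx_sum_ge hp 0
  have h2 : 0 ≤ ‖p.2‖ ^ 2 := by positivity
  have h3 : 0 ≤ (‖MvPolynomial.eval p.1 S.h‖ ^ 2)⁻¹ := by positivity
  have h4 : 0 ≤ (‖p.2‖ ^ 2)⁻¹ := by positivity
  unfold rhoE
  refine ⟨by linarith, fun b => ?_, by linarith, by linarith, by linarith⟩
  have h5 := REx_sum_ge hp b
  linarith

private theorem REx_compact (S : Sheets 𝒜 x k) (c : ℝ) :
    IsCompact {p | p ∈ WW S ∧ rhoE S p ≤ c} := by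
  rcases lt_or_ge c 1 with hc | hc
  · have : {p | p ∈ WW S ∧ rhoE S p ≤ c} = ∅ := by
      refine Set.eq_empty_of_forall_notMem fun p hp => ?_
      have := (REx_terms S hp.1).1
      linarith [hp.2]
    rw [this]
    exact isCompact_empty
  have hc0 : 0 < c := by linarith
  set K : Set ((Fin (n + 1) → ℂ) × ℂ) := {p | (∀ b, ‖p.1 b‖ ^ 2 ≤ 1 - c⁻¹) ∧
    c⁻¹ ≤ ‖MvPolynomial.eval p.1 S.h‖ ^ 2 ∧ c⁻¹ ≤ ‖p.2‖ ^ 2 ∧ ‖p.2‖ ^ 2 ≤ c} with hK
  have hci : 0 < c⁻¹ := by positivity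
  have hKW : K ⊆ WW S := by
    intro p hp
    refine ⟨⟨?_, ?_⟩, ?_⟩
    · refine (pi_norm_lt_iff zero_lt_one).2 fun b => ?_
      have h1 := hp.1 b
      by_contra h2
      push Not at h2
      nlinarith [norm_nonneg (p.1 b)]
    · intro h0
      have h1 := hp.2.1
      rw [h0] at h1
      simp only [norm_zero] at h1
      linarith
    · intro h0
      have h1 := hp.2.2.1
      rw [h0] at h1
      simp only [norm_zero] at h1
      linarith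
  have hKc : IsClosed K := by
    have h1 : IsClosed {p : (Fin (n + 1) → ℂ) × ℂ | ∀ b, ‖p.1 b‖ ^ 2 ≤ 1 - c⁻¹} := by
      simp only [Set.ofPred_forall]
      refine isClosed_iInter fun b => isClosed_le ?_ continuous_const
      exact (((continuous_apply b).comp continuous_fst).norm).pow 2
    have h2 : IsClosed {p : (Fin (n + 1) → ℂ) × ℂ |
        c⁻¹ ≤ ‖MvPolynomial.eval p.1 S.h‖ ^ 2} :=
      isClosed_le continuous_const
        ((((MvPolynomial.continuous_eval S.h).comp continuous_fst).norm).pow 2)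
    have h3 : IsClosed {p : (Fin (n + 1) → ℂ) × ℂ | c⁻¹ ≤ ‖p.2‖ ^ 2} :=
      isClosed_le continuous_const ((continuous_snd.norm).pow 2)
    have h4 : IsClosed {p : (Fin (n + 1) → ℂ) × ℂ | ‖p.2‖ ^ 2 ≤ c} :=
      isClosed_le ((continuous_snd.norm).pow 2) continuous_const
    exact h1.inter (h2.inter (h3.inter h4))
  have hKb : IsCompact K := by
    refine Metric.isCompact_of_isClosed_isBounded hKc ?_
    refine (Metric.isBounded_closedBall (x := (0 : (Fin (n + 1) → ℂ) × ℂ)) (r := c + 1)).subset ?_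
    intro p hp
    rw [mem_closedBall_zero_iff, Prod.norm_def]
    refine max_le ?_ ?_
    · have := (hKW hp).1.1
      linarith
    · have h1 := hp.2.2.2
      nlinarith [norm_nonneg p.2]
  have hcont : ContinuousOn (rhoE S) K := fun p hp =>
    (REx_smooth S (hKW hp)).continuousAt.continuousWithinAt
  have hEq : {p | p ∈ WW S ∧ rhoE S p ≤ c} = K ∩ rhoE S ⁻¹' Set.Iic c := by
    ext p
    constructor
    · rintro ⟨hp, hpc⟩
      obtain ⟨-, t1, t2, t3, t4⟩ := REx_terms S hp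
      refine ⟨⟨fun b => ?_, ?_, ?_, t2.trans hpc⟩, hpc⟩
      · have h1 := REx_y_lt hp b
        have h2 := (t1 b).trans hpc
        have h3 := inv_anti₀ (inv_pos.2 (by linarith : (0 : ℝ) < 1 - ‖p.1 b‖ ^ 2)) h2
        rw [inv_inv] at h3
        linarith
      · have h3 := inv_anti₀ (inv_pos.2 (REx_h_pos hp)) (t3.trans hpc)
        rwa [inv_inv] at h3
      · have h3 := inv_anti₀ (inv_pos.2 (REx_s_pos hp)) (t4.trans hpc)
        rwa [inv_inv] at h3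
    · rintro ⟨hp, hpc⟩
      exact ⟨hKW hp, hpc⟩
  rw [hEq]
  exact hKb.of_isClosed_subset
    (hcont.preimage_isClosed_of_isClosed hKc isClosed_Iic) Set.inter_subset_left

private theorem REx_dz_sum {κ' : Type} (s : Finset κ') (F : κ' → (Fin (n + 1) → ℂ) × ℂ → ℂ)
    (p : (Fin (n + 1) → ℂ) × ℂ) (h : ∀ i, DifferentiableAt ℝ (F i) p)
    (v : (Fin (n + 1) → ℂ) × ℂ) :
    dz v (fun y => ∑ i ∈ s, F i y) p = ∑ i ∈ s, dz v (F i) p := by
  classical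
  induction s using Finset.induction_on with
  | empty =>
    simp only [Finset.sum_empty]
    simp [dz]
  | insert i s hi ih =>
    simp only [Finset.sum_insert hi]
    rw [REx_dz_add (h i) (DifferentiableAt.fun_sum fun j _ => h j), ih]

private theorem REx_df {χ : (Fin (n + 1) → ℂ) × ℂ → ℝ} {p : (Fin (n + 1) → ℂ) × ℂ}
    (h : ContDiffAt ℝ ∞ χ p) : DifferentiableAt ℝ (fun q => (χ q : ℂ)) p :=
  (REx_ofReal h).differentiableAt (by simp)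

/-- `∂_v ρ` -/
private theorem REx_dz_rho (S : Sheets 𝒜 x k) {p : (Fin (n + 1) → ℂ) × ℂ} (hp : p ∈ WW S)
    (v : (Fin (n + 1) → ℂ) × ℂ) :
    dz v (fun q => (rhoE S q : ℂ)) p =
      (∑ b, ((((1 - ‖p.1 b‖ ^ 2) ^ 2)⁻¹ : ℝ) : ℂ) * conj (p.1 b) * v.1 b) +
      conj p.2 * v.2 +
      ((-((‖MvPolynomial.eval p.1 S.h‖ ^ 2) ^ 2)⁻¹ : ℝ) : ℂ) *
        conj (MvPolynomial.eval p.1 S.h) *
        fderiv ℂ (fun q : (Fin (n + 1) → ℂ) × ℂ => MvPolynomial.eval q.1 S.h) p v +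
      ((-((‖p.2‖ ^ 2) ^ 2)⁻¹ : ℝ) : ℂ) * conj p.2 * v.2 := by
  have e : (fun q : (Fin (n + 1) → ℂ) × ℂ => (rhoE S q : ℂ)) = fun q =>
      (((∑ b, (((1 - ‖q.1 b‖ ^ 2)⁻¹ : ℝ) : ℂ)) + ((‖q.2‖ ^ 2 : ℝ) : ℂ)) +
      (((‖MvPolynomial.eval q.1 S.h‖ ^ 2)⁻¹ : ℝ) : ℂ)) + (((‖q.2‖ ^ 2)⁻¹ : ℝ) : ℂ) := by
    funext q
    unfold rhoE
    simp only [ofReal_add, ofReal_sum]
  have d1 : ∀ b, DifferentiableAt ℝ (fun q : (Fin (n + 1) → ℂ) × ℂ =>
    (((1 - ‖q.1 b‖ ^ 2)⁻¹ : ℝ) : ℂ)) p := fun b => REx_df (REx_cd1 hp b)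
  have d1' := DifferentiableAt.fun_sum (u := Finset.univ) fun b _ => d1 b
  have d2 := REx_df (REx_cd2 p)
  have d3 := REx_df (REx_cd3 hp)
  have d4 := REx_df (REx_cd4 hp)
  rw [e, REx_dz_add ((d1'.fun_add d2).fun_add d3) d4, REx_dz_add (d1'.fun_add d2) d3,
    REx_dz_add d1' d2, REx_dz_sum _ _ _ d1]
  have t1 : ∀ b, dz v (fun q : (Fin (n + 1) → ℂ) × ℂ => (((1 - ‖q.1 b‖ ^ 2)⁻¹ : ℝ) : ℂ)) p =
      ((((1 - ‖p.1 b‖ ^ 2) ^ 2)⁻¹ : ℝ) : ℂ) * conj (p.1 b) * v.1 b := by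
    intro b
    rw [REx_dz_phi (g := fun q : (Fin (n + 1) → ℂ) × ℂ => q.1 b) (x := p)
      (φ := fun u : ℝ => (1 - u)⁻¹) (REx_an_y b p).differentiableAt
      (REx_phi1 (REx_y_lt hp b)), REx_fd_y]
  have t2 : dz v (fun q : (Fin (n + 1) → ℂ) × ℂ => ((‖q.2‖ ^ 2 : ℝ) : ℂ)) p =
      conj p.2 * v.2 := by
    rw [REx_dz_phi (g := fun q : (Fin (n + 1) → ℂ) × ℂ => q.2) (x := p)
      (φ := fun u : ℝ => u) (REx_an_s p).differentiableAt (hasDerivAt_id' _), REx_fd_s]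
    simp
  have t3 : dz v (fun q : (Fin (n + 1) → ℂ) × ℂ =>
      (((‖MvPolynomial.eval q.1 S.h‖ ^ 2)⁻¹ : ℝ) : ℂ)) p =
      ((-((‖MvPolynomial.eval p.1 S.h‖ ^ 2) ^ 2)⁻¹ : ℝ) : ℂ) *
        conj (MvPolynomial.eval p.1 S.h) *
        fderiv ℂ (fun q : (Fin (n + 1) → ℂ) × ℂ => MvPolynomial.eval q.1 S.h) p v :=
    REx_dz_phi (g := fun q : (Fin (n + 1) → ℂ) × ℂ => MvPolynomial.eval q.1 S.h) (x := p)
      (φ := fun u : ℝ => u⁻¹) (REx_an_h S.h p).differentiableAt (REx_phi2 (REx_h_pos hp)) v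
  have t4 : dz v (fun q : (Fin (n + 1) → ℂ) × ℂ => (((‖q.2‖ ^ 2)⁻¹ : ℝ) : ℂ)) p =
      ((-((‖p.2‖ ^ 2) ^ 2)⁻¹ : ℝ) : ℂ) * conj p.2 * v.2 := by
    rw [REx_dz_phi (g := fun q : (Fin (n + 1) → ℂ) × ℂ => q.2) (x := p)
      (φ := fun u : ℝ => u⁻¹) (REx_an_s p).differentiableAt (REx_phi2 (REx_s_pos hp)),
      REx_fd_s]
  simp only [t1, t2, t3, t4]

/-- `t ^ 3 ≤ ρ ^ 2` -/
private theorem REx_cube {t ρ : ℝ} (ht : 0 < t) (h1 : (t ^ 2)⁻¹ ≤ ρ) (h2 : 1 ≤ ρ) :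
    ((t ^ 2) ^ 2)⁻¹ * t ≤ ρ ^ 2 := by
  have e : ((t ^ 2) ^ 2)⁻¹ * t = t⁻¹ ^ 3 := by
    field_simp
  rw [e]
  have hu : 0 < t⁻¹ := inv_pos.2 ht
  have h3 : t⁻¹ ^ 2 ≤ ρ := by rwa [inv_pow]
  set u := t⁻¹
  have h4 : u ^ 4 ≤ ρ ^ 2 := by
    have : u ^ 4 = (u ^ 2) ^ 2 := by ring
    rw [this]
    exact pow_le_pow_left₀ (by positivity) h3 2
  nlinarith [sq_nonneg (u - u ^ 2), mul_nonneg (zero_le_one.trans h2) (sub_nonneg.2 h2)]

private theorem REx_grad (S : Sheets 𝒜 x k) :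
    ∃ C : ℝ, ∀ p ∈ WW S, gradsq (bE n) (rhoE S) p ≤ C * rhoE S p ^ 4 := by
  obtain ⟨C, hC0, hC⟩ := REx_bdd S.h
  refine ⟨(n + 2) * (n + 3 + C) ^ 2, fun p hp => ?_⟩
  obtain ⟨h1, h2, h3, h4, h5⟩ := REx_terms S hp
  have key : ∀ j, ‖dz (bE n j) (fun q => (rhoE S q : ℂ)) p‖ ≤ (n + 3 + C) * rhoE S p ^ 2 := by
    intro j
    have hv1 : ∀ b, ‖(bE n j).1 b‖ ≤ 1 := fun b =>
      (norm_le_pi_norm _ b).trans (REx_bE_norm j).1
    have hv2 := (REx_bE_norm (n := n) j).2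
    have hρ2 : 0 ≤ rhoE S p ^ 2 := by positivity
    have a1 : ‖∑ b, ((((1 - ‖p.1 b‖ ^ 2) ^ 2)⁻¹ : ℝ) : ℂ) * conj (p.1 b) * (bE n j).1 b‖ ≤
        (n + 1) * rhoE S p ^ 2 := by
      refine (norm_sum_le _ _).trans ?_
      have : ∀ b ∈ (Finset.univ : Finset (Fin (n + 1))),
          ‖((((1 - ‖p.1 b‖ ^ 2) ^ 2)⁻¹ : ℝ) : ℂ) * conj (p.1 b) * (bE n j).1 b‖ ≤
          rhoE S p ^ 2 := by
        intro b _
        have hb1 : 0 < 1 - ‖p.1 b‖ ^ 2 := by linarith [REx_y_lt hp b]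
        have hb2 : ‖p.1 b‖ ≤ 1 := by nlinarith [norm_nonneg (p.1 b)]
        rw [norm_mul, norm_mul, Complex.norm_real, RCLike.norm_conj, Real.norm_eq_abs,
          abs_of_nonneg (by positivity)]
        have hb3 : ((1 - ‖p.1 b‖ ^ 2) ^ 2)⁻¹ ≤ rhoE S p ^ 2 := by
          rw [← inv_pow]
          exact pow_le_pow_left₀ (by positivity) (h2 b) 2
        calc _ ≤ ((1 - ‖p.1 b‖ ^ 2) ^ 2)⁻¹ * 1 * 1 := by
              gcongr
              exact hv1 b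
          _ ≤ rhoE S p ^ 2 := by linarith
      refine (Finset.sum_le_sum this).trans ?_
      simp
    have a2 : ‖conj p.2 * (bE n j).2‖ ≤ rhoE S p ^ 2 := by
      rw [norm_mul, RCLike.norm_conj]
      have b1 : ‖p.2‖ ≤ rhoE S p := by nlinarith [norm_nonneg p.2, sq_nonneg (‖p.2‖ - 1)]
      calc _ ≤ ‖p.2‖ * 1 := by gcongr
        _ ≤ rhoE S p := by linarith
        _ ≤ rhoE S p ^ 2 := by nlinarith
    have a3 : ‖((-((‖MvPolynomial.eval p.1 S.h‖ ^ 2) ^ 2)⁻¹ : ℝ) : ℂ) *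
        conj (MvPolynomial.eval p.1 S.h) *
        fderiv ℂ (fun q : (Fin (n + 1) → ℂ) × ℂ => MvPolynomial.eval q.1 S.h) p (bE n j)‖ ≤
        C * rhoE S p ^ 2 := by
      rw [norm_mul, norm_mul, Complex.norm_real, RCLike.norm_conj, Real.norm_eq_abs, abs_neg,
        abs_of_nonneg (by positivity)]
      calc _ ≤ rhoE S p ^ 2 * C :=
            mul_le_mul (REx_cube (norm_pos_iff.2 hp.1.2) h4 h1) (hC p hp.1.1 j)
              (norm_nonneg _) hρ2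
        _ = C * rhoE S p ^ 2 := by ring
    have a4 : ‖((-((‖p.2‖ ^ 2) ^ 2)⁻¹ : ℝ) : ℂ) * conj p.2 * (bE n j).2‖ ≤
        rhoE S p ^ 2 := by
      rw [norm_mul, norm_mul, Complex.norm_real, RCLike.norm_conj, Real.norm_eq_abs, abs_neg,
        abs_of_nonneg (by positivity)]
      calc _ ≤ rhoE S p ^ 2 * 1 :=
            mul_le_mul (REx_cube (norm_pos_iff.2 hp.2) h5 h1) hv2 (norm_nonneg _) hρ2
        _ = rhoE S p ^ 2 := mul_one _
    rw [REx_dz_rho S hp]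
    refine (norm_add_le _ _).trans ?_
    refine (add_le_add_left (norm_add_le _ _) _).trans ?_
    refine (add_le_add_left (add_le_add_left (norm_add_le _ _) _) _).trans ?_
    linarith
  unfold gradsq
  calc _ ≤ ∑ _j : Fin (n + 1) ⊕ Unit, ((n + 3 + C) * rhoE S p ^ 2) ^ 2 :=
        Finset.sum_le_sum fun j _ => pow_le_pow_left₀ (norm_nonneg _) (key j) 2
    _ = (n + 2) * (n + 3 + C) ^ 2 * rhoE S p ^ 4 := by
        simp only [Finset.sum_const, Finset.card_univ, Fintype.card_sum, Fintype.card_fin,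
          Fintype.card_unit, nsmul_eq_mul]
        push_cast
        ring

private theorem REx_levi (S : Sheets 𝒜 x k) {p : (Fin (n + 1) → ℂ) × ℂ} (hp : p ∈ WW S)
    (a : Fin (n + 1) ⊕ Unit → ℂ) : ∑ j, ‖a j‖ ^ 2 ≤ leviF (bE n) (rhoE S) p a := by
  have c1 : ∀ b, leviF (bE n) (fun q => (1 - ‖q.1 b‖ ^ 2)⁻¹) p a =
      (2 * ((1 - ‖p.1 b‖ ^ 2) ^ 3)⁻¹ * ‖p.1 b‖ ^ 2 + ((1 - ‖p.1 b‖ ^ 2) ^ 2)⁻¹) *
        ‖a (Sum.inl b)‖ ^ 2 := by
    intro b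
    have hb := REx_y_lt hp b
    rw [REx_levi_phi (bE n) (g := fun q : (Fin (n + 1) → ℂ) × ℂ => q.1 b)
      (φ := fun u : ℝ => (1 - u)⁻¹) (φ' := fun u : ℝ => ((1 - u) ^ 2)⁻¹) (REx_an_y b p)
      ((eventually_lt_nhds hb).mono fun t ht => REx_phi1 ht) (REx_phi1' hb)]
    congr 2
    simp only [REx_fd_y, Fintype.sum_sum_type, REx_bE_inl]
    simp [REx_bE_inr, Pi.single_apply]
  have c2 : leviF (bE n) (fun q => ‖q.2‖ ^ 2) p a = ‖a (Sum.inr ())‖ ^ 2 := by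
    rw [REx_levi_phi (bE n) (g := fun q : (Fin (n + 1) → ℂ) × ℂ => q.2)
      (φ := fun u : ℝ => u) (φ' := fun _ : ℝ => 1) (REx_an_s p)
      (Filter.Eventually.of_forall fun t => hasDerivAt_id' t) (hasDerivAt_const _ _)]
    simp [REx_fd_s, REx_bE_inl, REx_bE_inr]
  have c3 : 0 ≤ leviF (bE n) (fun q => (‖MvPolynomial.eval q.1 S.h‖ ^ 2)⁻¹) p a := by
    have hb := REx_h_pos hp
    rw [REx_levi_phi (bE n) (g := fun q : (Fin (n + 1) → ℂ) × ℂ => MvPolynomial.eval q.1 S.h)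
      (φ := fun u : ℝ => u⁻¹) (φ' := fun u : ℝ => -(u ^ 2)⁻¹) (REx_an_h S.h p)
      ((eventually_gt_nhds hb).mono fun t ht => REx_phi2 ht) (REx_phi2' hb)]
    refine mul_nonneg ?_ (by positivity)
    have e : 2 * ((‖MvPolynomial.eval p.1 S.h‖ ^ 2) ^ 3)⁻¹ * ‖MvPolynomial.eval p.1 S.h‖ ^ 2 +
        -((‖MvPolynomial.eval p.1 S.h‖ ^ 2) ^ 2)⁻¹ =
        ((‖MvPolynomial.eval p.1 S.h‖ ^ 2) ^ 2)⁻¹ := by
      have := hb.ne'
      field_simp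
      ring
    rw [e]
    positivity
  have c4 : 0 ≤ leviF (bE n) (fun q => (‖q.2‖ ^ 2)⁻¹) p a := by
    have hb := REx_s_pos hp
    rw [REx_levi_phi (bE n) (g := fun q : (Fin (n + 1) → ℂ) × ℂ => q.2)
      (φ := fun u : ℝ => u⁻¹) (φ' := fun u : ℝ => -(u ^ 2)⁻¹) (REx_an_s p)
      ((eventually_gt_nhds hb).mono fun t ht => REx_phi2 ht) (REx_phi2' hb)]
    refine mul_nonneg ?_ (by positivity)
    have e : 2 * ((‖p.2‖ ^ 2) ^ 3)⁻¹ * ‖p.2‖ ^ 2 + -((‖p.2‖ ^ 2) ^ 2)⁻¹ =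
        ((‖p.2‖ ^ 2) ^ 2)⁻¹ := by
      have := hb.ne'
      field_simp
      ring
    rw [e]
    positivity
  have s1 : ContDiffAt ℝ ∞ (fun q : (Fin (n + 1) → ℂ) × ℂ => ∑ b, (1 - ‖q.1 b‖ ^ 2)⁻¹) p :=
    ContDiffAt.sum fun b _ => REx_cd1 hp b
  have total : leviF (bE n) (rhoE S) p a =
      ((∑ b, leviF (bE n) (fun q => (1 - ‖q.1 b‖ ^ 2)⁻¹) p a) +
        leviF (bE n) (fun q => ‖q.2‖ ^ 2) p a +
        leviF (bE n) (fun q => (‖MvPolynomial.eval q.1 S.h‖ ^ 2)⁻¹) p a) +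
        leviF (bE n) (fun q => (‖q.2‖ ^ 2)⁻¹) p a := by
    rw [← REx_levi_sum (bE n) Finset.univ (fun b (q : (Fin (n + 1) → ℂ) × ℂ) =>
        (1 - ‖q.1 b‖ ^ 2)⁻¹) p (fun b => REx_cd1 hp b),
      ← REx_levi_add (bE n) _ _ p s1 (REx_cd2 p),
      ← REx_levi_add (bE n) _ _ p (s1.add (REx_cd2 p)) (REx_cd3 hp),
      ← REx_levi_add (bE n) _ _ p ((s1.add (REx_cd2 p)).add (REx_cd3 hp)) (REx_cd4 hp)]
    rfl
  have c1' : ∀ b ∈ (Finset.univ : Finset (Fin (n + 1))), ‖a (Sum.inl b)‖ ^ 2 ≤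
      leviF (bE n) (fun q => (1 - ‖q.1 b‖ ^ 2)⁻¹) p a := by
    intro b _
    rw [c1]
    have hb : 0 < 1 - ‖p.1 b‖ ^ 2 := by linarith [REx_y_lt hp b]
    have h6 : (1 : ℝ) ≤ ((1 - ‖p.1 b‖ ^ 2) ^ 2)⁻¹ := by
      rw [← inv_pow]
      exact one_le_pow₀ (REx_T1_ge hp b)
    have h7 : 0 ≤ 2 * ((1 - ‖p.1 b‖ ^ 2) ^ 3)⁻¹ * ‖p.1 b‖ ^ 2 := by positivity
    nlinarith [sq_nonneg ‖a (Sum.inl b)‖]
  have hsum := Finset.sum_le_sum c1'
  rw [total, Fintype.sum_sum_type, c2]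
  simp only [Finset.univ_unique, PUnit.default_eq_unit, Finset.sum_singleton]
  linarith

theorem exhaust_WW (S : Sheets 𝒜 x k) : Exhaust (WW S) (bE n) (rhoE S) where
  smooth := fun _ hp => (REx_smooth S hp).contDiffWithinAt
  one_le := fun _ hp => (REx_terms S hp).1
  compact := REx_compact S
  grad := REx_grad S
  levi := fun _ hp a => REx_levi S hp a

end Pool.Agent.Lib_KF
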