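import Pool.Agent.Lib_KF.RDefs

/-! RS04: Levi forms. -/

open MeasureTheory Complex
open scoped ENNReal ContDiff ComplexConjugate

namespace Pool.Agent.Lib_KF

open GPn

section RLeviAux

open Filter Topology

variable {E : Type} [NormedAddCommGroup E] [NormedSpace ℂ E]

private lemma rlevi_dz_add (v : E) {u w : E → ℂ} {x : E} (hu : DifferentiableAt ℝ u x)
    (hw : DifferentiableAt ℝ w x) :
    dz v (fun y => u y + w y) x = dz v u x + dz v w x := by
  have h : fderiv ℝ (fun y => u y + w y) x = fderiv ℝ u x + fderiv ℝ w x :=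
    fderiv_fun_add hu hw
  simp only [dz, h, _root_.add_apply]
  ring

private lemma rlevi_dzb_add (v : E) {u w : E → ℂ} {x : E} (hu : DifferentiableAt ℝ u x)
    (hw : DifferentiableAt ℝ w x) :
    dzb v (fun y => u y + w y) x = dzb v u x + dzb v w x := by
  have h : fderiv ℝ (fun y => u y + w y) x = fderiv ℝ u x + fderiv ℝ w x :=
    fderiv_fun_add hu hw
  simp only [dzb, h, _root_.add_apply]
  ring

private lemma rlevi_dz_cmul (v : E) (c : ℂ) {u : E → ℂ} {x : E} (hu : DifferentiableAt ℝ u x) :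
    dz v (fun y => c * u y) x = c * dz v u x := by
  have h : fderiv ℝ (fun y => c * u y) x = c • fderiv ℝ u x :=
    (hu.hasFDerivAt.const_mul c).fderiv
  simp only [dz, h, _root_.smul_apply, smul_eq_mul]
  ring

private lemma rlevi_dzb_cmul (v : E) (c : ℂ) {u : E → ℂ} {x : E} (hu : DifferentiableAt ℝ u x) :
    dzb v (fun y => c * u y) x = c * dzb v u x := by
  have h : fderiv ℝ (fun y => c * u y) x = c • fderiv ℝ u x :=
    (hu.hasFDerivAt.const_mul c).fderiv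
  simp only [dzb, h, _root_.smul_apply, smul_eq_mul]
  ring

private lemma rlevi_dz_mul (v : E) {u w : E → ℂ} {x : E} (hu : DifferentiableAt ℝ u x)
    (hw : DifferentiableAt ℝ w x) :
    dz v (fun y => u y * w y) x = dz v u x * w x + u x * dz v w x := by
  have h : fderiv ℝ (fun y => u y * w y) x = u x • fderiv ℝ w x + w x • fderiv ℝ u x :=
    fderiv_fun_mul hu hw
  simp only [dz, h, _root_.add_apply, _root_.smul_apply, smul_eq_mul]
  ring

private lemma rlevi_dzb_mul (v : E) {u w : E → ℂ} {x : E} (hu : DifferentiableAt ℝ u x)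
    (hw : DifferentiableAt ℝ w x) :
    dzb v (fun y => u y * w y) x = dzb v u x * w x + u x * dzb v w x := by
  have h : fderiv ℝ (fun y => u y * w y) x = u x • fderiv ℝ w x + w x • fderiv ℝ u x :=
    fderiv_fun_mul hu hw
  simp only [dzb, h, _root_.add_apply, _root_.smul_apply, smul_eq_mul]
  ring

private lemma rlevi_dz_sum {κ : Type} (s : Finset κ) (v : E) {u : κ → E → ℂ} {x : E}
    (hu : ∀ i ∈ s, DifferentiableAt ℝ (u i) x) :
    dz v (fun y => ∑ i ∈ s, u i y) x = ∑ i ∈ s, dz v (u i) x := by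
  have h : fderiv ℝ (fun y => ∑ i ∈ s, u i y) x = ∑ i ∈ s, fderiv ℝ (u i) x :=
    fderiv_fun_sum hu
  simp only [dz, h, ContinuousLinearMap.sum_apply, Finset.mul_sum]
  rw [← Finset.sum_sub_distrib, Finset.sum_div]

private lemma rlevi_dzb_sum {κ : Type} (s : Finset κ) (v : E) {u : κ → E → ℂ} {x : E}
    (hu : ∀ i ∈ s, DifferentiableAt ℝ (u i) x) :
    dzb v (fun y => ∑ i ∈ s, u i y) x = ∑ i ∈ s, dzb v (u i) x := by
  have h : fderiv ℝ (fun y => ∑ i ∈ s, u i y) x = ∑ i ∈ s, fderiv ℝ (u i) x :=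
    fderiv_fun_sum hu
  simp only [dzb, h, ContinuousLinearMap.sum_apply, Finset.mul_sum]
  rw [← Finset.sum_add_distrib, Finset.sum_div]

private lemma rlevi_dz_congr (v : E) {u w : E → ℂ} {x : E} (h : u =ᶠ[𝓝 x] w) :
    dz v u x = dz v w x := by
  simp only [dz, h.fderiv_eq]

private lemma rlevi_dzb_congr (v : E) {u w : E → ℂ} {x : E} (h : u =ᶠ[𝓝 x] w) :
    dzb v u x = dzb v w x := by
  simp only [dzb, h.fderiv_eq]

private lemma rlevi_fderiv_ofReal {r : E → ℝ} {x : E} (v : E) (hr : DifferentiableAt ℝ r x) :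
    fderiv ℝ (fun y => (r y : ℂ)) x v = ((fderiv ℝ r x v : ℝ) : ℂ) := by
  have h : HasFDerivAt (fun y => (r y : ℂ)) (Complex.ofRealCLM.comp (fderiv ℝ r x)) x :=
    Complex.ofRealCLM.hasFDerivAt.comp x hr.hasFDerivAt
  rw [h.fderiv]
  rfl

private lemma rlevi_dz_log {N : E → ℝ} {y : E} (v : E) (hN : DifferentiableAt ℝ N y)
    (h0 : N y ≠ 0) :
    dz v (fun y => (Real.log (N y) : ℂ)) y = (N y : ℂ)⁻¹ * dz v (fun y => (N y : ℂ)) y := by
  have h : HasFDerivAt (fun y => Real.log (N y)) ((N y)⁻¹ • fderiv ℝ N y) y :=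
    hN.hasFDerivAt.log h0
  simp only [dz, rlevi_fderiv_ofReal _ h.differentiableAt, rlevi_fderiv_ofReal _ hN, h.fderiv,
    _root_.smul_apply, smul_eq_mul, Complex.ofReal_mul, Complex.ofReal_inv]
  ring

private lemma rlevi_fderiv_I {F : E → ℂ} {x : E} (hF : DifferentiableAt ℂ F x) (v : E) :
    fderiv ℝ F x (I • v) = I * fderiv ℝ F x v := by
  rw [hF.fderiv_restrictScalars ℝ]
  change fderiv ℂ F x (I • v) = I * fderiv ℂ F x v
  rw [map_smul, smul_eq_mul]

private lemma rlevi_dzb_hol {F : E → ℂ} {x : E} (hF : DifferentiableAt ℂ F x) (v : E) :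
    dzb v F x = 0 := by
  simp only [dzb, rlevi_fderiv_I hF]
  rw [← mul_assoc, Complex.I_mul_I]
  ring

private lemma rlevi_dz_hol {F : E → ℂ} {x : E} (hF : DifferentiableAt ℂ F x) (v : E) :
    dz v F x = fderiv ℂ F x v := by
  have h1 : fderiv ℝ F x v = fderiv ℂ F x v := by
    rw [hF.fderiv_restrictScalars ℝ]
    rfl
  simp only [dz, rlevi_fderiv_I hF, h1]
  rw [← mul_assoc, Complex.I_mul_I]
  ring

private lemma rlevi_conj_diff {F : E → ℂ} {x : E} (hF : DifferentiableAt ℝ F x) :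
    HasFDerivAt (fun y => conj (F y))
      (Complex.conjCLE.toContinuousLinearMap.comp (fderiv ℝ F x)) x :=
  Complex.conjCLE.toContinuousLinearMap.hasFDerivAt.comp x hF.hasFDerivAt

private lemma rlevi_dz_conj {F : E → ℂ} {x : E} (hF : DifferentiableAt ℂ F x) (v : E) :
    dz v (fun y => conj (F y)) x = 0 := by
  have h1 := rlevi_conj_diff (hF.restrictScalars ℝ)
  have h2 : ∀ w, fderiv ℝ (fun y => conj (F y)) x w = conj (fderiv ℝ F x w) := by
    intro w
    rw [h1.fderiv]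
    simp
  simp only [dz, h2, rlevi_fderiv_I hF, map_mul, Complex.conj_I]
  rw [← mul_assoc, mul_neg, Complex.I_mul_I]
  ring

private lemma rlevi_dzb_conj {F : E → ℂ} {x : E} (hF : DifferentiableAt ℂ F x) (v : E) :
    dzb v (fun y => conj (F y)) x = conj (fderiv ℂ F x v) := by
  have h1 := rlevi_conj_diff (hF.restrictScalars ℝ)
  have h3 : fderiv ℝ F x v = fderiv ℂ F x v := by
    rw [hF.fderiv_restrictScalars ℝ]
    rfl
  have h2 : ∀ w, fderiv ℝ (fun y => conj (F y)) x w = conj (fderiv ℝ F x w) := by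
    intro w
    rw [h1.fderiv]
    simp
  simp only [dzb, h2, rlevi_fderiv_I hF, map_mul, Complex.conj_I, h3]
  rw [← mul_assoc, mul_neg, Complex.I_mul_I]
  ring

private lemma rlevi_diff_dz {F : E → ℂ} {x : E} (hF : ContDiffAt ℝ ∞ F x) (v : E) :
    DifferentiableAt ℝ (dz v F) x := by
  have h1 : DifferentiableAt ℝ (fderiv ℝ F) x :=
    (hF.fderiv_right (m := ∞) (by simp)).differentiableAt (by simp)
  have h2 : ∀ w, DifferentiableAt ℝ (fun y => fderiv ℝ F y w) x := fun w =>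
    h1.clm_apply (differentiableAt_const w)
  have h3 : dz v F = fun y => (fderiv ℝ F y v - I * fderiv ℝ F y (I • v)) * (2 : ℂ)⁻¹ := by
    funext y
    rw [dz, div_eq_mul_inv]
  rw [h3]
  exact ((h2 v).sub ((h2 (I • v)).const_mul I)).mul_const _

private lemma rlevi_ev {F : E → ℂ} {x : E} (hF : ContDiffAt ℝ ∞ F x) :
    ∀ᶠ y in 𝓝 x, DifferentiableAt ℝ F y := by
  have h1 : ContDiffAt ℝ 1 F x := hF.of_le (by simp)
  filter_upwards [h1.eventually (by simp)] with y hy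
  exact hy.differentiableAt (by simp)

private lemma rlevi_ofReal {χ : E → ℝ} {x : E} (h : ContDiffAt ℝ ∞ χ x) :
    ContDiffAt ℝ ∞ (fun y => (χ y : ℂ)) x :=
  Complex.ofRealCLM.contDiff.contDiffAt.comp x h

private lemma rlevi_add {F G : E → ℂ} {x : E} (hF : ContDiffAt ℝ ∞ F x)
    (hG : ContDiffAt ℝ ∞ G x) (v w : E) :
    dzb w (dz v (fun y => F y + G y)) x = dzb w (dz v F) x + dzb w (dz v G) x := by
  have h1 : dz v (fun y => F y + G y) =ᶠ[𝓝 x] fun y => dz v F y + dz v G y := by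
    filter_upwards [rlevi_ev hF, rlevi_ev hG] with y hy hy'
    exact rlevi_dz_add v hy hy'
  rw [rlevi_dzb_congr w h1, rlevi_dzb_add w (rlevi_diff_dz hF v) (rlevi_diff_dz hG v)]

private lemma rlevi_cmul {F : E → ℂ} {x : E} (hF : ContDiffAt ℝ ∞ F x) (c : ℂ) (v w : E) :
    dzb w (dz v (fun y => c * F y)) x = c * dzb w (dz v F) x := by
  have h1 : dz v (fun y => c * F y) =ᶠ[𝓝 x] fun y => c * dz v F y := by
    filter_upwards [rlevi_ev hF] with y hy
    exact rlevi_dz_cmul v c hy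
  rw [rlevi_dzb_congr w h1, rlevi_dzb_cmul w c (rlevi_diff_dz hF v)]

private lemma rlevi_zero (v w x : E) : dzb w (dz v (fun _ : E => ((0 : ℝ) : ℂ))) x = 0 := by
  have h1 : dz v (fun _ : E => ((0 : ℝ) : ℂ)) = fun _ => 0 := by
    funext y
    simp [dz]
  rw [h1]
  simp [dzb]

private lemma rlevi_contDiff {F : E → ℂ} {x : E} (hF : AnalyticAt ℂ F x) :
    ContDiffAt ℝ ∞ F x :=
  (hF.contDiffAt (n := ∞)).restrict_scalars ℝ

/-- The second derivatives of the logarithm of a sum of squares of holomorphic functions. -/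
private lemma rlevi_log_formula {κ' : Type} [Fintype κ'] (g : κ' → E → ℂ) (x : E)
    (hg : ∀ i, AnalyticAt ℂ (g i) x) (h0 : 0 < ∑ i, ‖g i x‖ ^ 2) :
    ContDiffAt ℝ ∞ (fun y => Real.log (∑ i, ‖g i y‖ ^ 2)) x ∧
    ∀ v w : E, dzb w (dz v (fun y => ((Real.log (∑ i, ‖g i y‖ ^ 2) : ℝ) : ℂ))) x =
      ((∑ i, ‖g i x‖ ^ 2 : ℝ) : ℂ)⁻¹ * ∑ i, fderiv ℂ (g i) x v * conj (fderiv ℂ (g i) x w) -
      (((∑ i, ‖g i x‖ ^ 2 : ℝ) : ℂ)⁻¹) ^ 2 * ((∑ i, fderiv ℂ (g i) x v * conj (g i x)) *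
        conj (∑ i, fderiv ℂ (g i) x w * conj (g i x))) := by
  classical
  set N : E → ℝ := fun y => ∑ i, ‖g i y‖ ^ 2 with hNdef
  have hgs : ∀ i, ContDiffAt ℝ ∞ (g i) x := fun i => rlevi_contDiff (hg i)
  have hNs : ContDiffAt ℝ ∞ N x := ContDiffAt.sum fun i _ => (hgs i).norm_sq ℝ
  have hlog : ContDiffAt ℝ ∞ (fun y => Real.log (N y)) x := hNs.log h0.ne'
  refine ⟨hlog, fun v w => ?_⟩
  have hNc : ∀ y, (N y : ℂ) = ∑ i, g i y * conj (g i y) := by
    intro y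
    rw [hNdef]
    push_cast
    refine Finset.sum_congr rfl fun i _ => ?_
    rw [Complex.mul_conj, Complex.normSq_eq_norm_sq]
    push_cast
    rfl
  have hcj : ∀ (i : κ') (y : E), DifferentiableAt ℂ (g i) y →
      DifferentiableAt ℝ (fun y => conj (g i y)) y := fun i y h =>
    (rlevi_conj_diff (h.restrictScalars ℝ)).differentiableAt
  -- first derivative
  have hP : ∀ (v y : E), (∀ i, DifferentiableAt ℂ (g i) y) →
      dz v (fun y => (N y : ℂ)) y = ∑ i, fderiv ℂ (g i) y v * conj (g i y) := by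
    intro v y hy
    have h1 : (fun y => (N y : ℂ)) = fun y => ∑ i, g i y * conj (g i y) := funext hNc
    rw [h1, rlevi_dz_sum Finset.univ v (fun i _ =>
      ((hy i).restrictScalars ℝ).fun_mul (hcj i y (hy i)))]
    refine Finset.sum_congr rfl fun i _ => ?_
    rw [rlevi_dz_mul v ((hy i).restrictScalars ℝ) (hcj i y (hy i)), rlevi_dz_conj (hy i),
      rlevi_dz_hol (hy i)]
    ring
  have hQ : dzb w (fun y => (N y : ℂ)) x = conj (∑ i, fderiv ℂ (g i) x w * conj (g i x)) := by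
    have hy : ∀ i, DifferentiableAt ℂ (g i) x := fun i => (hg i).differentiableAt
    have h1 : (fun y => (N y : ℂ)) = fun y => ∑ i, g i y * conj (g i y) := funext hNc
    rw [h1, rlevi_dzb_sum Finset.univ w (fun i _ =>
      ((hy i).restrictScalars ℝ).fun_mul (hcj i x (hy i))), map_sum]
    refine Finset.sum_congr rfl fun i _ => ?_
    rw [rlevi_dzb_mul w ((hy i).restrictScalars ℝ) (hcj i x (hy i)), rlevi_dzb_conj (hy i),
      rlevi_dzb_hol (hy i), map_mul, Complex.conj_conj]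
    ring
  have hev : dz v (fun y => ((Real.log (N y) : ℝ) : ℂ)) =ᶠ[𝓝 x]
      fun y => (N y : ℂ)⁻¹ * ∑ i, fderiv ℂ (g i) y v * conj (g i y) := by
    have e1 : ∀ᶠ y in 𝓝 x, 0 < N y := hNs.continuousAt.eventually (lt_mem_nhds h0)
    have e2 : ∀ᶠ y in 𝓝 x, ∀ i, AnalyticAt ℂ (g i) y :=
      Filter.eventually_all.2 fun i => (hg i).eventually_analyticAt
    have e3 : ∀ᶠ y in 𝓝 x, DifferentiableAt ℝ N y := by
      have h1 : ContDiffAt ℝ 1 N x := hNs.of_le (by simp)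
      filter_upwards [h1.eventually (by simp)] with y hy
      exact hy.differentiableAt (by simp)
    filter_upwards [e1, e2, e3] with y h1 h2 h3
    rw [rlevi_dz_log v h3 h1.ne', hP v y fun i => (h2 i).differentiableAt]
  rw [rlevi_dzb_congr w hev]
  -- the inverse
  have hNx : (N x : ℂ) ≠ 0 := by exact_mod_cast h0.ne'
  have hid : DifferentiableAt ℝ (fun y => (N y : ℂ)⁻¹) x := by
    have h1 : ContDiffAt ℝ ∞ (fun y => ((N y)⁻¹ : ℝ)) x := hNs.inv h0.ne'
    have h2 := (rlevi_ofReal h1).differentiableAt (by simp)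
    have h3 : (fun y => (((N y)⁻¹ : ℝ) : ℂ)) = fun y => (N y : ℂ)⁻¹ := by
      funext y
      push_cast
      rfl
    rwa [h3] at h2
  have hNd : DifferentiableAt ℝ (fun y => (N y : ℂ)) x :=
    (rlevi_ofReal hNs).differentiableAt (by simp)
  have hinv : dzb w (fun y => (N y : ℂ)⁻¹) x =
      -(((N x : ℂ)⁻¹) ^ 2 * dzb w (fun y => (N y : ℂ)) x) := by
    have h1 : (fun y => (N y : ℂ) * (N y : ℂ)⁻¹) =ᶠ[𝓝 x] fun _ => (1 : ℂ) := by
      have e1 : ∀ᶠ y in 𝓝 x, 0 < N y := hNs.continuousAt.eventually (lt_mem_nhds h0)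
      filter_upwards [e1] with y hy
      exact mul_inv_cancel₀ (by exact_mod_cast hy.ne')
    have h2 := rlevi_dzb_congr w h1
    rw [rlevi_dzb_mul w hNd hid] at h2
    have h3 : dzb w (fun _ : E => (1 : ℂ)) x = 0 := by simp [dzb]
    rw [h3] at h2
    have h4 : dzb w (fun y => (N y : ℂ)⁻¹) x =
        (N x : ℂ)⁻¹ * ((N x : ℂ) * dzb w (fun y => (N y : ℂ)⁻¹) x) := by
      rw [← mul_assoc, inv_mul_cancel₀ hNx, one_mul]
    rw [h4, eq_neg_of_add_eq_zero_right h2]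
    ring
  have hgd : ∀ i, DifferentiableAt ℂ (fun y => fderiv ℂ (g i) y v) x := fun i =>
    (hg i).fderiv.differentiableAt.clm_apply (differentiableAt_const v)
  have hPd : ∀ i, DifferentiableAt ℝ (fun y => fderiv ℂ (g i) y v * conj (g i y)) x := fun i =>
    ((hgd i).restrictScalars ℝ).mul (hcj i x (hg i).differentiableAt)
  have hPs : DifferentiableAt ℝ (fun y => ∑ i, fderiv ℂ (g i) y v * conj (g i y)) x :=
    DifferentiableAt.fun_sum fun i _ => hPd i
  have hPb : dzb w (fun y => ∑ i, fderiv ℂ (g i) y v * conj (g i y)) x =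
      ∑ i, fderiv ℂ (g i) x v * conj (fderiv ℂ (g i) x w) := by
    rw [rlevi_dzb_sum Finset.univ w fun i _ => hPd i]
    refine Finset.sum_congr rfl fun i _ => ?_
    rw [rlevi_dzb_mul w ((hgd i).restrictScalars ℝ) (hcj i x (hg i).differentiableAt),
      rlevi_dzb_hol (hgd i), rlevi_dzb_conj (hg i).differentiableAt]
    ring
  rw [rlevi_dzb_mul w hid hPs, hinv, hPb, hQ]
  ring

variable {ι : Type} [Fintype ι] (b : Module.Basis ι ℂ E)

private lemma rlevi_log_lev {κ' : Type} [Fintype κ'] (g : κ' → E → ℂ) (x : E)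
    (hg : ∀ i, AnalyticAt ℂ (g i) x) (h0 : 0 < ∑ i, ‖g i x‖ ^ 2) (a : ι → ℂ) :
    leviF b (fun y => Real.log (∑ i, ‖g i y‖ ^ 2)) x a =
      (∑ i, ‖g i x‖ ^ 2)⁻¹ * ∑ i, ‖∑ j, fderiv ℂ (g i) x (b j) * a j‖ ^ 2 -
      ((∑ i, ‖g i x‖ ^ 2)⁻¹) ^ 2 *
        ‖∑ i, (∑ j, fderiv ℂ (g i) x (b j) * a j) * conj (g i x)‖ ^ 2 := by
  have hf := (rlevi_log_formula g x hg h0).2
  set n : ℝ := ∑ i, ‖g i x‖ ^ 2 with hn
  set d : κ' → ℂ := fun i => ∑ j, fderiv ℂ (g i) x (b j) * a j with hd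
  have h1 : ∑ j, ∑ k, dzb (b k) (dz (b j)
      (fun y => ((Real.log (∑ i, ‖g i y‖ ^ 2) : ℝ) : ℂ))) x * a j * conj (a k) =
      (n : ℂ)⁻¹ * ∑ i, d i * conj (d i) -
        ((n : ℂ)⁻¹) ^ 2 * ((∑ i, d i * conj (g i x)) * conj (∑ i, d i * conj (g i x))) := by
    have e1 : ∑ i, d i * conj (d i) = ∑ j, ∑ k, (∑ i, fderiv ℂ (g i) x (b j) *
        conj (fderiv ℂ (g i) x (b k))) * a j * conj (a k) := by
      have e0 : ∀ i, d i * conj (d i) = ∑ j, ∑ k, (fderiv ℂ (g i) x (b j) *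
          conj (fderiv ℂ (g i) x (b k))) * a j * conj (a k) := by
        intro i
        simp only [hd]
        rw [map_sum, Finset.sum_mul_sum]
        refine Finset.sum_congr rfl fun j _ => ?_
        refine Finset.sum_congr rfl fun k _ => ?_
        rw [map_mul]
        ring
      rw [Finset.sum_congr rfl fun i _ => e0 i, Finset.sum_comm]
      refine Finset.sum_congr rfl fun j _ => ?_
      rw [Finset.sum_comm]
      refine Finset.sum_congr rfl fun k _ => ?_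
      rw [Finset.sum_mul, Finset.sum_mul]
    have e2 : ∑ i, d i * conj (g i x) =
        ∑ j, (∑ i, fderiv ℂ (g i) x (b j) * conj (g i x)) * a j := by
      simp only [hd, Finset.sum_mul]
      rw [Finset.sum_comm]
      refine Finset.sum_congr rfl fun j _ => ?_
      refine Finset.sum_congr rfl fun i _ => ?_
      ring
    have e3 : (∑ i, d i * conj (g i x)) * conj (∑ i, d i * conj (g i x)) =
        ∑ j, ∑ k, ((∑ i, fderiv ℂ (g i) x (b j) * conj (g i x)) *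
          conj (∑ i, fderiv ℂ (g i) x (b k) * conj (g i x))) * a j * conj (a k) := by
      rw [e2, map_sum, Finset.sum_mul_sum]
      refine Finset.sum_congr rfl fun j _ => ?_
      refine Finset.sum_congr rfl fun k _ => ?_
      rw [map_mul]
      ring
    rw [e1, e3, Finset.mul_sum, Finset.mul_sum, ← Finset.sum_sub_distrib]
    refine Finset.sum_congr rfl fun j _ => ?_
    rw [Finset.mul_sum, Finset.mul_sum, ← Finset.sum_sub_distrib]
    refine Finset.sum_congr rfl fun k _ => ?_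
    rw [hf (b j) (b k)]
    ring
  have h2 : ∀ z : ℂ, z * conj z = ((‖z‖ ^ 2 : ℝ) : ℂ) := fun z => by
    rw [Complex.mul_conj, Complex.normSq_eq_norm_sq]
  unfold leviF
  rw [h1]
  simp only [h2]
  rw [← Complex.ofReal_sum, ← Complex.ofReal_inv, ← Complex.ofReal_mul, ← Complex.ofReal_pow,
    ← Complex.ofReal_mul, ← Complex.ofReal_sub, Complex.ofReal_re]

end RLeviAux

section

variable {E : Type} [NormedAddCommGroup E] [NormedSpace ℂ E] {ι : Type} [Fintype ι]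
  (b : Module.Basis ι ℂ E)

theorem leviF_add (χ₁ χ₂ : E → ℝ) (x : E) (h₁ : ContDiffAt ℝ ∞ χ₁ x) (h₂ : ContDiffAt ℝ ∞ χ₂ x)
    (a : ι → ℂ) :
    leviF b (fun y => χ₁ y + χ₂ y) x a = leviF b χ₁ x a + leviF b χ₂ x a := by
  unfold leviF
  rw [← Complex.add_re, ← Finset.sum_add_distrib]
  congr 1
  refine Finset.sum_congr rfl fun j _ => ?_
  rw [← Finset.sum_add_distrib]
  refine Finset.sum_congr rfl fun k _ => ?_
  have h : (fun y => ((χ₁ y + χ₂ y : ℝ) : ℂ)) = fun y => (χ₁ y : ℂ) + (χ₂ y : ℂ) := by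
    funext y
    push_cast
    rfl
  rw [h, rlevi_add (rlevi_ofReal h₁) (rlevi_ofReal h₂)]
  ring

theorem leviF_const_mul (c : ℝ) (χ : E → ℝ) (x : E) (h : ContDiffAt ℝ ∞ χ x) (a : ι → ℂ) :
    leviF b (fun y => c * χ y) x a = c * leviF b χ x a := by
  unfold leviF
  rw [← Complex.re_ofReal_mul, Finset.mul_sum]
  congr 1
  refine Finset.sum_congr rfl fun j _ => ?_
  rw [Finset.mul_sum]
  refine Finset.sum_congr rfl fun k _ => ?_
  have h' : (fun y => ((c * χ y : ℝ) : ℂ)) = fun y => (c : ℂ) * (χ y : ℂ) := by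
    funext y
    push_cast
    rfl
  rw [h', rlevi_cmul (rlevi_ofReal h)]
  ring

theorem leviF_sum {κ' : Type} [Fintype κ'] (χ : κ' → E → ℝ) (x : E)
    (h : ∀ i, ContDiffAt ℝ ∞ (χ i) x) (a : ι → ℂ) :
    leviF b (fun y => ∑ i, χ i y) x a = ∑ i, leviF b (χ i) x a := by
  classical
  have key : ∀ s : Finset κ', leviF b (fun y => ∑ i ∈ s, χ i y) x a =
      ∑ i ∈ s, leviF b (χ i) x a := by
    intro s
    induction s using Finset.induction_on with
    | empty =>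
      simp only [Finset.sum_empty]
      unfold leviF
      simp only [rlevi_zero, zero_mul, Finset.sum_const_zero, Complex.zero_re]
    | insert i s hi ih =>
      simp only [Finset.sum_insert hi]
      rw [leviF_add b (χ i) (fun y => ∑ i ∈ s, χ i y) x (h i)
        (ContDiffAt.sum fun i _ => h i) a, ih]
  exact key Finset.univ

theorem leviF_congr (χ₁ χ₂ : E → ℝ) (x : E) (h : χ₁ =ᶠ[nhds x] χ₂) (a : ι → ℂ) :
    leviF b χ₁ x a = leviF b χ₂ x a := by
  unfold leviF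
  congr 1
  refine Finset.sum_congr rfl fun j _ => ?_
  refine Finset.sum_congr rfl fun k _ => ?_
  have h1 : (fun y => (χ₁ y : ℂ)) =ᶠ[nhds x] fun y => (χ₂ y : ℂ) := by
    filter_upwards [h] with y hy
    rw [hy]
  have h2 : dz (b j) (fun y => (χ₁ y : ℂ)) =ᶠ[nhds x] dz (b j) (fun y => (χ₂ y : ℂ)) := by
    filter_upwards [h1.eventuallyEq_nhds] with y hy
    exact rlevi_dz_congr (b j) hy
  rw [rlevi_dzb_congr (b k) h2]

/-- `log ∑ |g_l| ^ 2` is smooth and plurisubharmonic. -/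
theorem leviF_log_sum {κ' : Type} [Fintype κ'] (g : κ' → E → ℂ) (x : E)
    (hg : ∀ i, AnalyticAt ℂ (g i) x) (h0 : 0 < ∑ i, ‖g i x‖ ^ 2) :
    ContDiffAt ℝ ∞ (fun y => Real.log (∑ i, ‖g i y‖ ^ 2)) x ∧
    ∀ a : ι → ℂ, 0 ≤ leviF b (fun y => Real.log (∑ i, ‖g i y‖ ^ 2)) x a := by
  refine ⟨(rlevi_log_formula g x hg h0).1, fun a => ?_⟩
  rw [rlevi_log_lev b g x hg h0 a]
  set n : ℝ := ∑ i, ‖g i x‖ ^ 2 with hn
  set d : κ' → ℂ := fun i => ∑ j, fderiv ℂ (g i) x (b j) * a j with hd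
  have h1 : ‖∑ i, d i * conj (g i x)‖ ^ 2 ≤ (∑ i, ‖d i‖ ^ 2) * n := by
    have h2 : ‖∑ i, d i * conj (g i x)‖ ≤ ∑ i, ‖d i‖ * ‖g i x‖ := by
      refine (norm_sum_le _ _).trans (Finset.sum_le_sum fun i _ => ?_)
      rw [norm_mul, Complex.norm_conj]
    calc ‖∑ i, d i * conj (g i x)‖ ^ 2 ≤ (∑ i, ‖d i‖ * ‖g i x‖) ^ 2 :=
          pow_le_pow_left₀ (norm_nonneg _) h2 2
      _ ≤ (∑ i, ‖d i‖ ^ 2) * n := Finset.sum_mul_sq_le_sq_mul_sq _ _ _
  have h3 : (n⁻¹) ^ 2 * ‖∑ i, d i * conj (g i x)‖ ^ 2 ≤ n⁻¹ * ∑ i, ‖d i‖ ^ 2 := by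
    calc (n⁻¹) ^ 2 * ‖∑ i, d i * conj (g i x)‖ ^ 2 ≤ (n⁻¹) ^ 2 * ((∑ i, ‖d i‖ ^ 2) * n) :=
          mul_le_mul_of_nonneg_left h1 (by positivity)
      _ = n⁻¹ * ∑ i, ‖d i‖ ^ 2 := by
          field_simp
  linarith

end

/-- `log (1 + |s| ^ 2 / ε ^ 2)` -/
theorem leviF_s (n : ℕ) (ε : ℝ) (hε : 0 < ε) (p : (Fin (n + 1) → ℂ) × ℂ)
    (a : Fin (n + 1) ⊕ Unit → ℂ) :
    ContDiffAt ℝ ∞ (fun q : (Fin (n + 1) → ℂ) × ℂ => Real.log (1 + ‖q.2‖ ^ 2 / ε ^ 2)) p ∧
    leviF (bE n) (fun q => Real.log (1 + ‖q.2‖ ^ 2 / ε ^ 2)) p a =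
      ε ^ 2 / (ε ^ 2 + ‖p.2‖ ^ 2) ^ 2 * ‖a (Sum.inr ())‖ ^ 2 := by
  let g : Bool → (Fin (n + 1) → ℂ) × ℂ → ℂ := fun i q =>
    if i then 1 else (ε : ℂ)⁻¹ * q.2
  have hfun : (fun q : (Fin (n + 1) → ℂ) × ℂ => Real.log (1 + ‖q.2‖ ^ 2 / ε ^ 2)) =
      fun q => Real.log (∑ i, ‖g i q‖ ^ 2) := by
    funext q
    congr 1
    simp only [Fintype.sum_bool, g, if_true, norm_one, one_pow]
    simp only [Bool.false_eq_true, if_false, norm_mul, norm_inv, Complex.norm_real,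
      Real.norm_eq_abs, abs_of_pos hε]
    field_simp
  have hsnd : ∀ q : (Fin (n + 1) → ℂ) × ℂ, HasFDerivAt (g false)
      ((ε : ℂ)⁻¹ • ContinuousLinearMap.snd ℂ (Fin (n + 1) → ℂ) ℂ) q := by
    intro q
    have h1 : HasFDerivAt (fun q : (Fin (n + 1) → ℂ) × ℂ => q.2)
        (ContinuousLinearMap.snd ℂ (Fin (n + 1) → ℂ) ℂ) q := hasFDerivAt_snd
    exact h1.const_mul _
  have hone : ∀ q : (Fin (n + 1) → ℂ) × ℂ, HasFDerivAt (g true)
      (0 : ((Fin (n + 1) → ℂ) × ℂ) →L[ℂ] ℂ) q := fun q => hasFDerivAt_const _ _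
  have hg : ∀ i, AnalyticAt ℂ (g i) p := by
    intro i
    cases i
    · exact analyticAt_const.mul analyticAt_snd
    · exact analyticAt_const
  have hsum : ∑ i, ‖g i p‖ ^ 2 = 1 + ‖p.2‖ ^ 2 / ε ^ 2 := by
    simp only [Fintype.sum_bool, g, if_true, norm_one, one_pow]
    simp only [Bool.false_eq_true, if_false, norm_mul, norm_inv, Complex.norm_real,
      Real.norm_eq_abs, abs_of_pos hε]
    field_simp
  have h0 : 0 < ∑ i, ‖g i p‖ ^ 2 := by
    rw [hsum]
    positivity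
  rw [hfun]
  refine ⟨(rlevi_log_formula g p hg h0).1, ?_⟩
  rw [rlevi_log_lev (bE n) g p hg h0 a, hsum]
  have hd1 : ∑ j, fderiv ℂ (g true) p (bE n j) * a j = 0 := by
    rw [(hone p).fderiv]
    simp
  have hd2 : ∑ j, fderiv ℂ (g false) p (bE n j) * a j = (ε : ℂ)⁻¹ * a (Sum.inr ()) := by
    rw [(hsnd p).fderiv, Fintype.sum_sum_type]
    simp [bE, Module.Basis.prod_apply]
  have hgf : g false p = (ε : ℂ)⁻¹ * p.2 := by simp [g]
  simp only [Fintype.sum_bool, hd1, hd2, hgf]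
  simp only [norm_zero, zero_mul, zero_add, norm_mul, norm_inv, Complex.norm_real,
    Real.norm_eq_abs, abs_of_pos hε, Complex.norm_conj]
  field_simp
  ring

end Pool.Agent.Lib_KF
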