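import Pool.Agent.Lib_KF.RLoc
import Pool.Agent.Lib_KF.RLevi

/-! RS06: smoothness, positivity and local form of the metric `Hmat`. -/

open MeasureTheory Complex
open scoped ENNReal NNReal ContDiff ComplexConjugate

namespace Pool.Agent.Lib_KF

open Pool.Agent.Lib_GD GPn

variable {R : Type} [CommRing R] [Algebra ℂ R] {𝒜 : ℕ → Submodule ℂ R} {n k M B : ℕ}
  {x : Fin (n + 1) → R}

/-- The weight `Φ` of a section. -/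
noncomputable def PhiE (G : R) (r : ℕ) (e : Fin M → Fin (B + 1) → R) (c ε τ : ℝ)
    (σ : (Fin (n + 1) → ℂ) → (R →ₐ[ℂ] ℂ)) (p : (Fin (n + 1) → ℂ) × ℂ) : ℝ :=
  (∑ i, c * Real.log (‖σ p.1 (famAt (e i) p.2)‖ ^ 2 + ε ^ 2 * Ssum e (σ p.1))) +
    (1 / r : ℝ) * Real.log (‖σ p.1 G‖ ^ 2) + Real.log (‖p.2‖ ^ 2) +
    τ * Real.log (1 + ‖p.2‖ ^ 2 / ε ^ 2)

private theorem RHer_Ssum_nonneg (e : Fin M → Fin (B + 1) → R) (ν : R →ₐ[ℂ] ℂ) : 0 ≤ Ssum e ν := by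
  unfold Ssum
  exact Finset.sum_nonneg fun i _ => Finset.sum_nonneg fun l _ => by positivity

private theorem RHer_Ssum_pos (e : Fin M → Fin (B + 1) → R) (ν : R →ₐ[ℂ] ℂ) (i : Fin M)
    (hi : ν (e i 0) ≠ 0) : 0 < Ssum e ν := by
  unfold Ssum
  have h1 : 0 < ‖ν (e i 0)‖ ^ 2 := by positivity
  have h2 : ‖ν (e i 0)‖ ^ 2 ≤ ∑ l, ‖ν (e i l)‖ ^ 2 :=
    Finset.single_le_sum (f := fun l => ‖ν (e i l)‖ ^ 2) (fun l _ => by positivity)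
      (Finset.mem_univ 0)
  have h3 : ∑ l, ‖ν (e i l)‖ ^ 2 ≤ ∑ i, ∑ l, ‖ν (e i l)‖ ^ 2 :=
    Finset.single_le_sum (f := fun i => ∑ l, ‖ν (e i l)‖ ^ 2)
      (fun i _ => Finset.sum_nonneg fun l _ => by positivity) (Finset.mem_univ i)
  linarith

private theorem RHer_famAt (σ : R →ₐ[ℂ] ℂ) (e : Fin (B + 1) → R) (s : ℂ) :
    σ (famAt e s) = ∑ l : Fin (B + 1), s ^ (l : ℕ) * σ (e l) := by
  unfold famAt
  rw [map_sum]
  refine Finset.sum_congr rfl fun l _ => ?_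
  rw [map_smul, smul_eq_mul]

/-- `exp (-Φ)` is the weight. -/
theorem exp_PhiE (G : R) (r : ℕ) (e : Fin M → Fin (B + 1) → R) (c ε τ : ℝ)
    (hε : 0 < ε) (σ : (Fin (n + 1) → ℂ) → (R →ₐ[ℂ] ℂ)) (p : (Fin (n + 1) → ℂ) × ℂ)
    (hs : p.2 ≠ 0) (hG : σ p.1 G ≠ 0) (he : ∀ i, σ p.1 (e i 0) ≠ 0) :
    Real.exp (-PhiE G r e c ε τ σ p) = wph G r e c ε (σ p.1) p.2 * ws ε τ p.2 := by
  unfold PhiE wph ws
  have hpos : ∀ i, 0 < ‖σ p.1 (famAt (e i) p.2)‖ ^ 2 + ε ^ 2 * Ssum e (σ p.1) := by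
    intro i
    have h1 := RHer_Ssum_pos e (σ p.1) i (he i)
    positivity
  have hs' : 0 < ‖p.2‖ := norm_pos_iff.mpr hs
  have hG' : 0 < ‖σ p.1 G‖ := norm_pos_iff.mpr hG
  have h1 : ∏ i, (‖σ p.1 (famAt (e i) p.2)‖ ^ 2 + ε ^ 2 * Ssum e (σ p.1)) ^ (-c) =
      Real.exp (-∑ i, c * Real.log (‖σ p.1 (famAt (e i) p.2)‖ ^ 2 + ε ^ 2 * Ssum e (σ p.1))) := by
    rw [← Finset.sum_neg_distrib, Real.exp_sum]
    refine Finset.prod_congr rfl fun i _ => ?_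
    rw [Real.rpow_def_of_pos (hpos i)]
    congr 1
    ring
  have h2 : ‖σ p.1 G‖ ^ (-2 / (r : ℝ)) =
      Real.exp (-((1 / r : ℝ) * Real.log (‖σ p.1 G‖ ^ 2))) := by
    rw [Real.rpow_def_of_pos hG', Real.log_pow]
    congr 1
    push_cast
    ring
  have h3 : (‖p.2‖ ^ 2)⁻¹ = Real.exp (-Real.log (‖p.2‖ ^ 2)) := by
    rw [Real.exp_neg, Real.exp_log (by positivity)]
  have h4 : (1 + ‖p.2‖ ^ 2 / ε ^ 2) ^ (-τ) =
      Real.exp (-(τ * Real.log (1 + ‖p.2‖ ^ 2 / ε ^ 2))) := by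
    rw [Real.rpow_def_of_pos (by positivity)]
    congr 1
    ring
  rw [h1, h2, h3, h4, ← Real.exp_add, ← Real.exp_add, ← Real.exp_add]
  congr 1
  ring

private theorem RHer_an_fst {p : (Fin (n + 1) → ℂ) × ℂ} (σ : (Fin (n + 1) → ℂ) → (R →ₐ[ℂ] ℂ))
    (hσ : ∀ f, AnalyticAt ℂ (fun y => σ y f) p.1) (f : R) :
    AnalyticAt ℂ (fun q : (Fin (n + 1) → ℂ) × ℂ => σ q.1 f) p :=
  (hσ f).fun_comp analyticAt_fst

private theorem RHer_an_fam {p : (Fin (n + 1) → ℂ) × ℂ} (σ : (Fin (n + 1) → ℂ) → (R →ₐ[ℂ] ℂ))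
    (hσ : ∀ f, AnalyticAt ℂ (fun y => σ y f) p.1) (e : Fin (B + 1) → R) :
    AnalyticAt ℂ (fun q : (Fin (n + 1) → ℂ) × ℂ => σ q.1 (famAt e q.2)) p := by
  have h : (fun q : (Fin (n + 1) → ℂ) × ℂ => σ q.1 (famAt e q.2)) =
      fun q => ∑ l : Fin (B + 1), q.2 ^ (l : ℕ) * σ q.1 (e l) := by
    funext q
    exact RHer_famAt _ _ _
  rw [h]
  refine Finset.analyticAt_fun_sum _ fun l _ => ?_
  exact (analyticAt_snd.pow _).mul (RHer_an_fst σ hσ (e l))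

/-- the function `g` of `leviF_log_sum` -/
private noncomputable def RHer_g (e : Fin M → Fin (B + 1) → R) (ε : ℝ)
    (σ : (Fin (n + 1) → ℂ) → (R →ₐ[ℂ] ℂ)) (i : Fin M) :
    Option (Fin M × Fin (B + 1)) → (Fin (n + 1) → ℂ) × ℂ → ℂ
  | none, q => σ q.1 (famAt (e i) q.2)
  | some jl, q => (ε : ℂ) * σ q.1 (e jl.1 jl.2)

private theorem RHer_g_sum (e : Fin M → Fin (B + 1) → R) (ε : ℝ)
    (σ : (Fin (n + 1) → ℂ) → (R →ₐ[ℂ] ℂ)) (i : Fin M) (q : (Fin (n + 1) → ℂ) × ℂ) :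
    ∑ t, ‖RHer_g e ε σ i t q‖ ^ 2 =
      ‖σ q.1 (famAt (e i) q.2)‖ ^ 2 + ε ^ 2 * Ssum e (σ q.1) := by
  rw [Fintype.sum_option]
  congr 1
  unfold Ssum
  rw [Finset.mul_sum, Fintype.sum_prod_type]
  refine Finset.sum_congr rfl fun j _ => ?_
  rw [Finset.mul_sum]
  refine Finset.sum_congr rfl fun l _ => ?_
  simp only [RHer_g, norm_mul, mul_pow, Complex.norm_real, Real.norm_eq_abs, sq_abs]

private theorem RHer_term (e : Fin M → Fin (B + 1) → R) (ε : ℝ) (hε : 0 < ε)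
    (σ : (Fin (n + 1) → ℂ) → (R →ₐ[ℂ] ℂ)) (p : (Fin (n + 1) → ℂ) × ℂ)
    (hσ : ∀ f, AnalyticAt ℂ (fun y => σ y f) p.1) (i : Fin M) (hi : σ p.1 (e i 0) ≠ 0) :
    ContDiffAt ℝ ∞ (fun q : (Fin (n + 1) → ℂ) × ℂ =>
      Real.log (‖σ q.1 (famAt (e i) q.2)‖ ^ 2 + ε ^ 2 * Ssum e (σ q.1))) p ∧
    ∀ a : Fin (n + 1) ⊕ Unit → ℂ, 0 ≤ leviF (bE n) (fun q =>
      Real.log (‖σ q.1 (famAt (e i) q.2)‖ ^ 2 + ε ^ 2 * Ssum e (σ q.1))) p a := by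
  have h := leviF_log_sum (bE n) (RHer_g e ε σ i) p (by
    intro t
    cases t with
    | none => exact RHer_an_fam σ hσ (e i)
    | some jl => exact analyticAt_const.mul (RHer_an_fst σ hσ _)) (by
    rw [RHer_g_sum]
    have h1 := RHer_Ssum_pos e (σ p.1) i hi
    positivity)
  simp only [RHer_g_sum] at h
  exact h

private theorem RHer_single (f : (Fin (n + 1) → ℂ) × ℂ → ℂ) (p : (Fin (n + 1) → ℂ) × ℂ)
    (hf : AnalyticAt ℂ f p) (h0 : f p ≠ 0) :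
    ContDiffAt ℝ ∞ (fun q : (Fin (n + 1) → ℂ) × ℂ => Real.log (‖f q‖ ^ 2)) p ∧
    ∀ a : Fin (n + 1) ⊕ Unit → ℂ, 0 ≤ leviF (bE n) (fun q => Real.log (‖f q‖ ^ 2)) p a := by
  have h := leviF_log_sum (bE n) (fun _ : Unit => f) p (fun _ => hf) (by
    simp only [Finset.univ_unique, Finset.sum_const, Finset.card_singleton, one_smul]
    positivity)
  simp only [Finset.univ_unique, Finset.sum_const, Finset.card_singleton, one_smul] at h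
  exact h

/-- The weight of a holomorphic section is smooth and its Levi form is at least
`τ ε² / (ε² + |s|²)²` in the direction of `s`. -/
theorem levi_PhiE (G : R) (r : ℕ) (hr : 1 ≤ r) (e : Fin M → Fin (B + 1) → R) (c ε τ : ℝ)
    (hc : 0 ≤ c) (hε : 0 < ε) (hτ : 0 ≤ τ) (σ : (Fin (n + 1) → ℂ) → (R →ₐ[ℂ] ℂ))
    (p : (Fin (n + 1) → ℂ) × ℂ) (hσ : ∀ f, AnalyticAt ℂ (fun y => σ y f) p.1)
    (hs : p.2 ≠ 0) (hG : σ p.1 G ≠ 0) (he : ∀ i, σ p.1 (e i 0) ≠ 0) :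
    ContDiffAt ℝ ∞ (PhiE G r e c ε τ σ) p ∧
    ∀ a : Fin (n + 1) ⊕ Unit → ℂ, τ * ε ^ 2 / (ε ^ 2 + ‖p.2‖ ^ 2) ^ 2 * ‖a (Sum.inr ())‖ ^ 2 ≤
      leviF (bE n) (PhiE G r e c ε τ σ) p a := by
  have hT := fun i => RHer_term e ε hε σ p hσ i (he i)
  have hGG := RHer_single (n := n) (fun q => σ q.1 G) p (RHer_an_fst σ hσ G) hG
  have hS := RHer_single (n := n) (fun q => q.2) p analyticAt_snd hs
  have hL := leviF_s n ε hε p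
  have s1 : ∀ i, ContDiffAt ℝ ∞ (fun q : (Fin (n + 1) → ℂ) × ℂ =>
      c * Real.log (‖σ q.1 (famAt (e i) q.2)‖ ^ 2 + ε ^ 2 * Ssum e (σ q.1))) p :=
    fun i => contDiffAt_const.mul (hT i).1
  have s1' : ContDiffAt ℝ ∞ (fun q : (Fin (n + 1) → ℂ) × ℂ =>
      ∑ i, c * Real.log (‖σ q.1 (famAt (e i) q.2)‖ ^ 2 + ε ^ 2 * Ssum e (σ q.1))) p :=
    ContDiffAt.sum fun i _ => s1 i
  have s2 : ContDiffAt ℝ ∞ (fun q : (Fin (n + 1) → ℂ) × ℂ =>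
      (1 / r : ℝ) * Real.log (‖σ q.1 G‖ ^ 2)) p := contDiffAt_const.mul hGG.1
  have s3 := hS.1
  have s4 : ContDiffAt ℝ ∞ (fun q : (Fin (n + 1) → ℂ) × ℂ =>
      τ * Real.log (1 + ‖q.2‖ ^ 2 / ε ^ 2)) p := contDiffAt_const.mul (hL 0).1
  have s12 := s1'.add s2
  have s123 := s12.add s3
  refine ⟨s123.add s4, fun a => ?_⟩
  have e1 : leviF (bE n) (PhiE G r e c ε τ σ) p a =
      leviF (bE n) (fun q : (Fin (n + 1) → ℂ) × ℂ =>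
        (∑ i, c * Real.log (‖σ q.1 (famAt (e i) q.2)‖ ^ 2 + ε ^ 2 * Ssum e (σ q.1))) +
        (1 / r : ℝ) * Real.log (‖σ q.1 G‖ ^ 2) + Real.log (‖q.2‖ ^ 2)) p a +
      leviF (bE n) (fun q : (Fin (n + 1) → ℂ) × ℂ =>
        τ * Real.log (1 + ‖q.2‖ ^ 2 / ε ^ 2)) p a :=
    leviF_add (bE n) _ _ p s123 s4 a
  have e2 := leviF_add (bE n) _ _ p s12 s3 a
  have e3 := leviF_add (bE n) _ _ p s1' s2 a
  have e4 := leviF_sum (bE n) _ p s1 a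
  have e5 := fun i => leviF_const_mul (bE n) c _ p (hT i).1 a
  have e6 := leviF_const_mul (bE n) (1 / r : ℝ) _ p hGG.1 a
  have e7 := leviF_const_mul (bE n) τ _ p (hL 0).1 a
  have e8 := (hL a).2
  have p1 : 0 ≤ ∑ i, leviF (bE n) (fun q : (Fin (n + 1) → ℂ) × ℂ =>
      c * Real.log (‖σ q.1 (famAt (e i) q.2)‖ ^ 2 + ε ^ 2 * Ssum e (σ q.1))) p a := by
    refine Finset.sum_nonneg fun i _ => ?_
    rw [e5 i]
    exact mul_nonneg hc ((hT i).2 a)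
  have p2 : 0 ≤ (1 / r : ℝ) * leviF (bE n) (fun q : (Fin (n + 1) → ℂ) × ℂ =>
      Real.log (‖σ q.1 G‖ ^ 2)) p a := mul_nonneg (by positivity) (hGG.2 a)
  have p3 := hS.2 a
  rw [e1, e2, e3, e4, e6, e7, e8]
  have e9 : τ * (ε ^ 2 / (ε ^ 2 + ‖p.2‖ ^ 2) ^ 2 * ‖a (Sum.inr ())‖ ^ 2) =
      τ * ε ^ 2 / (ε ^ 2 + ‖p.2‖ ^ 2) ^ 2 * ‖a (Sum.inr ())‖ ^ 2 := by ring
  rw [e9]
  linarith

end Pool.Agent.Lib_KF
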