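import Pool.Agent.Lib_KF.HDefs

/-! RS02: a smooth positive definite Hermitian matrix function has a Chern connection. -/

open MeasureTheory Complex
open scoped ENNReal ContDiff ComplexConjugate

namespace Pool.Agent.Lib_KF

open GPn

/-- the derivative `dz` of a smooth function is smooth -/
private theorem RMet_dz {E : Type} [NormedAddCommGroup E] [NormedSpace ℂ E] {W : Set E}
    (hW : IsOpen W) {F : E → ℂ} (hF : ContDiffOn ℝ ∞ F W) (v : E) :
    ContDiffOn ℝ ∞ (dz v F) W := by
  have h1 : ContDiffOn ℝ ∞ (fderiv ℝ F) W := hF.fderiv_of_isOpen hW (by simp)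
  have h2 : ∀ w : E, ContDiffOn ℝ ∞ (fun x => fderiv ℝ F x w) W := fun w =>
    h1.clm_apply contDiffOn_const
  unfold dz
  exact ((h2 v).sub (contDiffOn_const.mul (h2 (I • v)))).div_const 2

/-- the determinant of a matrix of smooth functions is smooth -/
private theorem RMet_det {E : Type} [NormedAddCommGroup E] [NormedSpace ℂ E] {W : Set E} {D : ℕ}
    {N : E → Matrix (Fin D) (Fin D) ℂ} (hN : ∀ a c, ContDiffOn ℝ ∞ (fun x => N x a c) W) :
    ContDiffOn ℝ ∞ (fun x => (N x).det) W := by
  simp only [Matrix.det_apply]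
  refine ContDiffOn.sum fun σ _ => ?_
  refine ContDiffOn.const_smul _ ?_
  exact contDiffOn_prod fun i _ => hN (σ i) i

private theorem RMet_adj {E : Type} [NormedAddCommGroup E] [NormedSpace ℂ E] {W : Set E} {D : ℕ}
    {N : E → Matrix (Fin D) (Fin D) ℂ} (hN : ∀ a c, ContDiffOn ℝ ∞ (fun x => N x a c) W)
    (i j : Fin D) : ContDiffOn ℝ ∞ (fun x => (N x).adjugate i j) W := by
  simp only [Matrix.adjugate_apply]
  refine RMet_det fun a c => ?_
  by_cases h : a = j
  · subst h
    simp only [Matrix.updateRow_self]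
    exact contDiffOn_const
  · simp only [Matrix.updateRow_ne h]
    exact hN a c

/-- a positive definite matrix is invertible -/
private theorem RMet_ne {D : ℕ} (H : Fin D → Fin D → ℂ)
    (pos : ∀ u : Fin D → ℂ, u ≠ 0 → 0 < (ip H u u).re) : (Matrix.of H).det ≠ 0 := by
  intro h
  obtain ⟨u, hu, h1⟩ := Matrix.exists_mulVec_eq_zero_iff.2 h
  have h2 : ip H u u = 0 := by
    unfold ip
    refine Finset.sum_eq_zero fun a _ => ?_
    have h3 : ∑ c, H a c * u c = 0 := by
      have := congrFun h1 a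
      simpa [Matrix.mulVec, dotProduct] using this
    simp only [mul_assoc]
    rw [← Finset.mul_sum, h3, mul_zero]
  have h4 := pos u hu
  rw [h2] at h4
  simp at h4

theorem exists_hmet {E : Type} [NormedAddCommGroup E] [NormedSpace ℂ E] {W : Set E}
    (hW : IsOpen W) {ι : Type} [Fintype ι] (b : Module.Basis ι ℂ E) {D : ℕ}
    (H : E → Fin D → Fin D → ℂ) (smH : ∀ a c, ContDiffOn ℝ ∞ (fun x => H x a c) W)
    (herm : ∀ x ∈ W, ∀ a c, H x a c = conj (H x c a))
    (pos : ∀ x ∈ W, ∀ u : Fin D → ℂ, u ≠ 0 → 0 < (ip (H x) u u).re) :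
    ∃ M : HMet W b D, M.H = H := by
  have hdet : ContDiffOn ℝ ∞ (fun x => (Matrix.of (H x)).det) W :=
    RMet_det (N := fun x => Matrix.of (H x)) smH
  have hadj : ∀ i j, ContDiffOn ℝ ∞ (fun x => (Matrix.of (H x)).adjugate i j) W := fun i j =>
    RMet_adj (N := fun x => Matrix.of (H x)) smH i j
  refine ⟨⟨H, fun k x a c => ∑ e, (((Matrix.of (H x)).det)⁻¹ * (Matrix.of (H x)).adjugate a e) *
    dz (b k) (fun y => H y e c) x, smH, ?_, herm, pos, ?_⟩, rfl⟩
  · intro k a c
    refine ContDiffOn.sum fun e _ => ?_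
    refine ContDiffOn.mul (ContDiffOn.mul ?_ (hadj a e)) (RMet_dz hW (smH e c) (b k))
    exact hdet.inv fun x hx => RMet_ne (H x) (pos x hx)
  · intro k a c x hx
    have h0 := RMet_ne (H x) (pos x hx)
    have h1 := (Matrix.of (H x)).mul_adjugate
    have h2 : ∀ f, ∑ e, H x a e * (Matrix.of (H x)).adjugate e f =
        (Matrix.of (H x)).det * (if a = f then 1 else 0) := by
      intro f
      have := congrFun (congrFun h1 a) f
      rw [Matrix.mul_apply] at this
      simpa [Matrix.smul_apply, Matrix.one_apply] using this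
    have h3 : ∑ e, H x a e * ∑ f, (((Matrix.of (H x)).det)⁻¹ * (Matrix.of (H x)).adjugate e f) *
        dz (b k) (fun y => H y f c) x =
        ∑ f, ((Matrix.of (H x)).det)⁻¹ * (∑ e, H x a e * (Matrix.of (H x)).adjugate e f) *
          dz (b k) (fun y => H y f c) x := by
      simp only [Finset.mul_sum, Finset.sum_mul]
      rw [Finset.sum_comm]
      refine Finset.sum_congr rfl fun f _ => Finset.sum_congr rfl fun e _ => ?_
      ring
    rw [h3]
    have h4 : ∀ f, ((Matrix.of (H x)).det)⁻¹ * (∑ e, H x a e * (Matrix.of (H x)).adjugate e f) *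
          dz (b k) (fun y => H y f c) x = if a = f then dz (b k) (fun y => H y f c) x else 0 := by
      intro f
      rw [h2 f, ← mul_assoc, inv_mul_cancel₀ h0, one_mul]
      split_ifs <;> simp
    rw [Finset.sum_congr rfl fun f _ => h4 f, Finset.sum_ite_eq]
    simp

end Pool.Agent.Lib_KF
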