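import Pool.Agent.Lib_KF.RHer
import Pool.Agent.Lib_KF.REx
import Pool.Agent.Lib_KF.RMet
import Pool.Agent.Lib_KF.RCurv

/-! RS07: the metric `Hmat` with its curvature bound. -/

open MeasureTheory Complex
open scoped ENNReal NNReal ContDiff ComplexConjugate

namespace Pool.Agent.Lib_KF

open Pool.Agent.Lib_GD GPn

private theorem rhmet_ip {D K : ℕ} (H : Fin D → Fin D → ℂ) (w : Fin K → ℝ)
    (t : Fin K → Fin D → ℂ) (h : ∀ a c, H a c = ∑ i, (w i : ℂ) * conj (t i a) * t i c)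
    (u : Fin D → ℂ) : (ip H u u).re = ∑ i, w i * ‖∑ a, t i a * u a‖ ^ 2 := by
  have h1 : ip H u u = ∑ i, ((w i * ‖∑ a, t i a * u a‖ ^ 2 : ℝ) : ℂ) := by
    have h2 : ∀ i, ((w i * ‖∑ a, t i a * u a‖ ^ 2 : ℝ) : ℂ) =
        ∑ a, ∑ c, conj (u a) * ((w i : ℂ) * conj (t i a) * t i c) * u c := by
      intro i
      rw [ofReal_mul, ← normSq_eq_norm_sq, ← mul_conj, map_sum, Finset.sum_mul_sum, Finset.mul_sum,
        Finset.sum_comm]
      refine Finset.sum_congr rfl fun a _ => ?_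
      rw [Finset.mul_sum]
      refine Finset.sum_congr rfl fun c _ => ?_
      rw [map_mul]
      ring
    simp only [h2]
    unfold ip
    simp only [h, Finset.mul_sum, Finset.sum_mul]
    rw [Finset.sum_comm (s := (Finset.univ : Finset (Fin K)))]
    refine Finset.sum_congr rfl fun a _ => ?_
    rw [Finset.sum_comm (s := (Finset.univ : Finset (Fin K)))]
  rw [h1, re_sum]
  simp only [ofReal_re]

variable {R : Type} [CommRing R] [Algebra ℂ R] {𝒜 : ℕ → Submodule ℂ R} {n k M B : ℕ}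
  {x : Fin (n + 1) → R}

/-- the local form of the metric -/
private theorem rhmet_local (S : Sheets 𝒜 x k) (G : R) (r : ℕ) (hr : 1 ≤ r)
    (e : Fin M → Fin (B + 1) → R) (hg : GoodSheets S G e) (c ε τ : ℝ)
    (hc : 0 ≤ c) (hε : 0 < ε) (hτ : 0 ≤ τ) (p₀ : (Fin (n + 1) → ℂ) × ℂ) (hp₀ : p₀ ∈ WW S) :
    ∃ (t : Fin (k + 1) → Fin (k + 1) → (Fin (n + 1) → ℂ) × ℂ → ℂ)
      (Φ : Fin (k + 1) → (Fin (n + 1) → ℂ) × ℂ → ℝ),
      (∀ i a, AnalyticAt ℂ (t i a) p₀) ∧ (∀ i, ContDiffAt ℝ ∞ (Φ i) p₀) ∧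
      (∀ᶠ p in nhds p₀, ∀ a c', Hmat S G r e c ε τ p a c' =
        ∑ i, (Real.exp (-Φ i p) : ℂ) * conj (t i a p) * t i c' p) ∧
      (∀ u : Fin (k + 1) → ℂ, (∀ i, ∑ a, t i a p₀ * u a = 0) → u = 0) ∧
      (∀ i, ∀ a : Fin (n + 1) ⊕ Unit → ℂ, τ * ε ^ 2 / (ε ^ 2 + ‖p₀.2‖ ^ 2) ^ 2 *
        ‖a (Sum.inr ())‖ ^ 2 ≤ leviF (bE n) (Φ i) p₀ a) ∧
      ∀ u, nE S G r e c ε τ p₀ u =
        ∑ i, ENNReal.ofReal (Real.exp (-Φ i p₀) * ‖∑ a, t i a p₀ * u a‖ ^ 2) := by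
  obtain ⟨hp1, hp2⟩ := hp₀
  obtain ⟨δ, σ, hδ, h1, h2, h3, h4⟩ := S.local_sections p₀.1 hp1.2
  have hmem : p₀.1 ∈ Metric.ball p₀.1 δ := Metric.mem_ball_self hδ
  have hgood : ∀ y ∈ Metric.ball p₀.1 δ, ∀ i, σ i y G ≠ 0 ∧ ∀ j, σ i y (e j 0) ≠ 0 := by
    intro y hy i
    refine hg y (h1 y hy) (σ i y) ?_
    rw [h3 y hy]
    exact ⟨i, rfl⟩
  have hev : ∀ᶠ p : (Fin (n + 1) → ℂ) × ℂ in nhds p₀, p.1 ∈ Metric.ball p₀.1 δ ∧ p.2 ≠ 0 := by
    refine Filter.Eventually.and ?_ ?_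
    · exact continuous_fst.continuousAt.eventually_mem (Metric.ball_mem_nhds _ hδ)
    · exact continuous_snd.continuousAt.eventually_ne hp2
  refine ⟨fun i a p => σ i p.1 (S.β a), fun i => PhiE G r e c ε τ (σ i), ?_, ?_, ?_, ?_, ?_, ?_⟩
  · intro i a
    exact (h4 i (S.β a) p₀.1 hmem).comp_of_eq analyticAt_fst rfl
  · intro i
    exact (levi_PhiE G r hr e c ε τ hc hε hτ (σ i) p₀ (fun f => h4 i f p₀.1 hmem) hp2
      (hgood _ hmem i).1 (hgood _ hmem i).2).1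
  · filter_upwards [hev] with p hp a c'
    unfold Hmat
    rw [finsum_fib p.1 (fun i => σ i p.1) (h2 p.1 hp.1) (h3 p.1 hp.1)
      (fun ν => ((wph G r e c ε ν p.2 * ws ε τ p.2 : ℝ) : ℂ) * conj (ν (S.β a)) * ν (S.β c'))]
    refine Finset.sum_congr rfl fun i _ => ?_
    rw [exp_PhiE G r e c ε τ hε (σ i) p hp.2 (hgood _ hp.1 i).1 (hgood _ hp.1 i).2]
  · intro u hu
    exact S.inv_of_enum p₀.1 hp1.2 (fun i => σ i p₀.1) (h3 _ hmem) u hu
  · intro i a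
    exact (levi_PhiE G r hr e c ε τ hc hε hτ (σ i) p₀ (fun f => h4 i f p₀.1 hmem) hp2
      (hgood _ hmem i).1 (hgood _ hmem i).2).2 a
  · intro u
    unfold nE
    rw [tsum_fib p₀.1 (fun i => σ i p₀.1) (h2 _ hmem) (h3 _ hmem)
      (fun ν => ENNReal.ofReal (wph G r e c ε ν p₀.2 * ws ε τ p₀.2 *
        ‖∑ a, ν (S.β a) * u a‖ ^ 2))]
    refine Finset.sum_congr rfl fun i _ => ?_
    rw [exp_PhiE G r e c ε τ hε (σ i) p₀ hp2 (hgood _ hmem i).1 (hgood _ hmem i).2]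

theorem exists_metric (S : Sheets 𝒜 x k) (G : R) (r : ℕ) (hr : 1 ≤ r)
    (e : Fin M → Fin (B + 1) → R) (hg : GoodSheets S G e) (c ε τ : ℝ)
    (hc : 0 ≤ c) (hε : 0 < ε) (hτ : 0 ≤ τ) :
    ∃ Mt : HMet (WW S) (bE n) (k + 1), Mt.H = Hmat S G r e c ε τ ∧
      (∀ p ∈ WW S, ∀ u, ENNReal.ofReal (Mt.nsq p u) = nE S G r e c ε τ p u) ∧
      ∀ p ∈ WW S, ∀ f : Fin (n + 1) ⊕ Unit → Fin (k + 1) → ℂ,
        τ * ε ^ 2 / (ε ^ 2 + ‖p.2‖ ^ 2) ^ 2 * Mt.nsq p (f (Sum.inr ())) ≤ Mt.curv p f := by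
  have hloc := rhmet_local S G r hr e hg c ε τ hc hε hτ
  have hopen : IsOpen (WW S) := isOpen_WW S
  have hip : ∀ p ∈ WW S, ∃ (t : Fin (k + 1) → Fin (k + 1) → ℂ) (w : Fin (k + 1) → ℝ),
      (∀ i, 0 < w i) ∧ (∀ u : Fin (k + 1) → ℂ, (∀ i, ∑ a, t i a * u a = 0) → u = 0) ∧
      (∀ a c', Hmat S G r e c ε τ p a c' = ∑ i, (w i : ℂ) * conj (t i a) * t i c') ∧
      ∀ u, nE S G r e c ε τ p u = ∑ i, ENNReal.ofReal (w i * ‖∑ a, t i a * u a‖ ^ 2) := by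
    intro p hp
    obtain ⟨t, Φ, -, -, h3, h4, -, h6⟩ := hloc p hp
    exact ⟨fun i a => t i a p, fun i => Real.exp (-Φ i p), fun i => Real.exp_pos _, h4,
      h3.self_of_nhds, h6⟩
  obtain ⟨Mt, hMt⟩ := exists_hmet hopen (bE n) (Hmat S G r e c ε τ)
    (by
      intro a c' p hp
      obtain ⟨t, Φ, h1, h2, h3, -, -, -⟩ := hloc p hp
      have h7 : (fun q => Hmat S G r e c ε τ q a c') =ᶠ[nhds p]
          fun q => ∑ i, (Real.exp (-Φ i q) : ℂ) * conj (t i a q) * t i c' q := by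
        filter_upwards [h3] with q hq
        exact hq a c'
      have h8 : ∀ i a, ContDiffAt ℝ ∞ (t i a) p := fun i a =>
        (h1 i a).contDiffAt.restrict_scalars ℝ
      refine ContDiffAt.contDiffWithinAt ?_
      refine ContDiffAt.congr_of_eventuallyEq ?_ h7
      refine ContDiffAt.sum fun i _ => ?_
      refine ((?_ : ContDiffAt ℝ ∞ (fun q => (Real.exp (-Φ i q) : ℂ)) p).mul
        (conjCLE.contDiff.contDiffAt.comp p (h8 i a))).mul (h8 i c')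
      exact ofRealCLM.contDiff.contDiffAt.comp p (h2 i).neg.exp)
    (by
      intro p hp a c'
      obtain ⟨t, w, -, -, h3, -⟩ := hip p hp
      rw [h3 a c', h3 c' a, map_sum]
      refine Finset.sum_congr rfl fun i _ => ?_
      simp only [map_mul, conj_ofReal, conj_conj]
      ring)
    (by
      intro p hp u hu
      obtain ⟨t, w, hw, h2, h3, -⟩ := hip p hp
      rw [rhmet_ip _ w t h3 u]
      have hex : ∃ i, ∑ a, t i a * u a ≠ 0 := by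
        by_contra hcon
        push Not at hcon
        exact hu (h2 u hcon)
      obtain ⟨i, hi⟩ := hex
      refine Finset.sum_pos' (fun j _ => mul_nonneg (hw j).le (by positivity)) ⟨i, Finset.mem_univ i, ?_⟩
      exact mul_pos (hw i) (by positivity))
  refine ⟨Mt, hMt, ?_, ?_⟩
  · intro p hp u
    obtain ⟨t, w, hw, -, h3, h4⟩ := hip p hp
    unfold HMet.nsq
    rw [hMt, rhmet_ip _ w t h3 u, h4 u,
      ENNReal.ofReal_sum_of_nonneg fun j _ => mul_nonneg (hw j).le (by positivity)]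
  · intro p hp f
    obtain ⟨t, Φ, h1, h2, h3, h4, h5, -⟩ := hloc p hp
    refine Mt.curv_ge hopen p hp t Φ h1 h2 ?_ h4 _ (Sum.inr ()) h5 f
    rw [hMt]
    exact h3

end Pool.Agent.Lib_KF
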