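import Pool.Agent.Lib_KF.RDefs

/-! RS05: local holomorphic enumeration of the fibres. -/

open MeasureTheory Complex
open scoped ENNReal NNReal ContDiff ComplexConjugate

namespace Pool.Agent.Lib_KF

open Pool.Agent.Lib_GD GPn

variable {R : Type} [CommRing R] [Algebra ℂ R] {𝒜 : ℕ → Submodule ℂ R} {n k M B : ℕ}
  {x : Fin (n + 1) → R}

theorem Sheets.local_sections (S : Sheets 𝒜 x k) (y₀ : Fin (n + 1) → ℂ)
    (hy₀ : MvPolynomial.eval y₀ S.h ≠ 0) :
    ∃ (δ : ℝ) (σ : Fin (k + 1) → (Fin (n + 1) → ℂ) → (R →ₐ[ℂ] ℂ)), 0 < δ ∧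
      (∀ y ∈ Metric.ball y₀ δ, MvPolynomial.eval y S.h ≠ 0) ∧
      (∀ y ∈ Metric.ball y₀ δ, Function.Injective fun i => σ i y) ∧
      (∀ y ∈ Metric.ball y₀ δ, fib x y = Set.range fun i => σ i y) ∧
      ∀ i f, AnalyticOnNhd ℂ (fun y => σ i y f) (Metric.ball y₀ δ) := by
  have hfin : Finite (fib x y₀) := S.fin y₀ hy₀
  have hc : Nat.card (fib x y₀) = k + 1 := by
    rw [Nat.card_coe_set_eq]
    exact S.card y₀ hy₀
  let e : Fin (k + 1) ≃ fib x y₀ := (Finite.equivFinOfCardEq hc).symm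
  have hsec := fun i : Fin (k + 1) => S.sec y₀ hy₀ (e i).1 (e i).2
  choose d σ hd hσ0 hσm hσa using hsec
  -- separating functions
  have hsep : ∀ p : Fin (k + 1) × Fin (k + 1), ∃ f : R, p.1 ≠ p.2 → (e p.1).1 f ≠ (e p.2).1 f := by
    rintro ⟨i, j⟩
    by_cases hij : i = j
    · exact ⟨0, fun h => absurd hij h⟩
    · have h1 : (e i).1 ≠ (e j).1 := fun h => hij (e.injective (Subtype.ext h))
      by_contra hcon
      apply h1
      apply AlgHom.ext
      intro f
      by_contra hf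
      exact hcon ⟨f, fun _ => hf⟩
  choose f hf using hsep
  have hcont : ∀ i g, ContinuousAt (fun y => σ i y g) y₀ := fun i g =>
    (hσa i g y₀ (Metric.mem_ball_self (hd i))).continuousAt
  have hev : ∀ᶠ y in nhds y₀, MvPolynomial.eval y S.h ≠ 0 ∧
      (∀ p : Fin (k + 1) × Fin (k + 1), p.1 ≠ p.2 → σ p.1 y (f p) ≠ σ p.2 y (f p)) ∧
      ∀ i, y ∈ Metric.ball y₀ (d i) := by
    refine Filter.Eventually.and ?_ (Filter.Eventually.and ?_ ?_)
    · exact (MvPolynomial.continuous_eval S.h).continuousAt.eventually_ne hy₀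
    · rw [Filter.eventually_all]
      intro p
      by_cases hp : p.1 = p.2
      · exact Filter.Eventually.of_forall fun y h => absurd hp h
      · have h1 : (σ p.1 y₀ (f p)) - (σ p.2 y₀ (f p)) ≠ 0 := by
          rw [hσ0, hσ0, sub_ne_zero]
          exact hf p hp
        have h2 : ContinuousAt (fun y => σ p.1 y (f p) - σ p.2 y (f p)) y₀ :=
          (hcont p.1 (f p)).sub (hcont p.2 (f p))
        filter_upwards [h2.eventually_ne h1] with y hy _
        exact sub_ne_zero.1 hy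
    · rw [Filter.eventually_all]
      intro i
      exact Metric.ball_mem_nhds y₀ (hd i)
  obtain ⟨δ, hδ, hball⟩ := Metric.eventually_nhds_iff_ball.1 hev
  have hinj : ∀ y ∈ Metric.ball y₀ δ, Function.Injective fun i => σ i y := by
    intro y hy i j hij
    by_contra hne
    have h1 := (hball y hy).2.1 (i, j) hne
    apply h1
    have h2 : σ i y = σ j y := hij
    simp only [h2]
  refine ⟨δ, σ, hδ, fun y hy => (hball y hy).1, hinj, ?_, ?_⟩
  · intro y hy
    symm
    apply Set.eq_of_subset_of_ncard_le _ _ (S.fin y (hball y hy).1)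
    · rintro _ ⟨i, rfl⟩
      exact hσm i y ((hball y hy).2.2 i)
    · rw [S.card y (hball y hy).1, ← Set.image_univ, Set.ncard_image_of_injective _ (hinj y hy),
        Set.ncard_univ, Nat.card_eq_fintype_card, Fintype.card_fin]
  · intro i g
    exact (hσa i g).mono fun y hy => (hball y hy).2.2 i

/-- Sums over the fibres in terms of an enumeration. -/
theorem finsum_fib {E' : Type} [AddCommMonoid E'] (y : Fin (n + 1) → ℂ)
    (σ : Fin (k + 1) → (R →ₐ[ℂ] ℂ)) (h1 : Function.Injective σ) (h2 : fib x y = Set.range σ)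
    (g : (R →ₐ[ℂ] ℂ) → E') : ∑ᶠ ν ∈ fib x y, g ν = ∑ i, g (σ i) := by
  rw [h2, finsum_mem_range h1, finsum_eq_sum_of_fintype]

theorem tsum_fib (y : Fin (n + 1) → ℂ) (σ : Fin (k + 1) → (R →ₐ[ℂ] ℂ))
    (h1 : Function.Injective σ) (h2 : fib x y = Set.range σ) (g : (R →ₐ[ℂ] ℂ) → ℝ≥0∞) :
    ∑' ν : fib x y, g ν.1 = ∑ i, g (σ i) := by
  rw [h2]
  exact (tsum_range g h1).trans (tsum_fintype _)

/-- The sections `β` take linearly independent values (in terms of an enumeration). -/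
theorem Sheets.inv_of_enum (S : Sheets 𝒜 x k) (y : Fin (n + 1) → ℂ)
    (hy : MvPolynomial.eval y S.h ≠ 0) (σ : Fin (k + 1) → (R →ₐ[ℂ] ℂ))
    (h2 : fib x y = Set.range σ) (u : Fin (k + 1) → ℂ)
    (hu : ∀ i, ∑ a, σ i (S.β a) * u a = 0) : u = 0 := by
  apply S.indep y hy u
  intro ν hν
  rw [h2] at hν
  obtain ⟨i, rfl⟩ := hν
  rw [← hu i]
  exact Finset.sum_congr rfl fun a _ => mul_comm _ _

end Pool.Agent.Lib_KF
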