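import Pool.Agent.Lib_KF.RAvg

/-! RS12: the extension is a function of `s`. -/

open MeasureTheory Complex
open scoped ENNReal NNReal ContDiff ComplexConjugate

namespace Pool.Agent.Lib_KF

open Pool.Agent.Lib_GD GPn

variable {R : Type} [CommRing R] [Algebra ℂ R] {𝒜 : ℕ → Submodule ℂ R} [GradedAlgebra 𝒜]
  {n r d k M B : ℕ} {x : Fin (n + 1) → R} {G : R}

private theorem RScal_WW (S : Sheets 𝒜 x k) : WW S = W0 S.h ×ˢ ({0}ᶜ : Set ℂ) := by
  ext p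
  simp [WW]

private theorem RScal_wph_nonneg (G : R) (r : ℕ) (e : Fin M → Fin (B + 1) → R) (c ε : ℝ)
    (ν : R →ₐ[ℂ] ℂ) (s : ℂ) : 0 ≤ wph G r e c ε ν s := by
  unfold wph Ssum
  refine mul_nonneg (Finset.prod_nonneg fun i _ => Real.rpow_nonneg ?_ _)
    (Real.rpow_nonneg (norm_nonneg _) _)
  exact add_nonneg (sq_nonneg _) (mul_nonneg (sq_nonneg _)
    (Finset.sum_nonneg fun i _ => Finset.sum_nonneg fun l _ => sq_nonneg _))

private theorem RScal_ws_pos (ε τ : ℝ) (hε : 0 < ε) (s : ℂ) (hs : s ≠ 0) : 0 < ws ε τ s := by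
  unfold ws
  have h1 : 0 < ‖s‖ := norm_pos_iff.2 hs
  exact mul_pos (inv_pos.2 (pow_pos h1 2)) (Real.rpow_pos_of_pos
    (add_pos_of_pos_of_nonneg one_pos (by positivity)) _)

private theorem RScal_cont (h : IsFano 𝒜 n r d x G) (S : Sheets 𝒜 x k)
    (e : Fin M → Fin (B + 1) → R) (hg : GoodSheets S G e) (c ε τ : ℝ) (hc : 0 ≤ c)
    (hε : 0 < ε) (hτ : 0 < τ) (u : Fin (k + 1) → ((Fin (n + 1) → ℂ) × ℂ) → ℂ)
    (hu : ∀ a, ContinuousOn (u a) (WW S)) :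
    ContinuousOn (fun p => nE S G r e c ε τ p (fun a => u a p)) (WW S) := by
  obtain ⟨Mt, -, hn, -⟩ := exists_metric S G r h.r_pos e hg c ε τ hc hε hτ.le
  have h1 : ContinuousOn (fun p => ENNReal.ofReal (Mt.nsq p (fun a => u a p))) (WW S) := by
    refine ENNReal.continuous_ofReal.comp_continuousOn ?_
    unfold HMet.nsq ip
    refine Complex.continuous_re.comp_continuousOn ?_
    refine continuousOn_finsetSum _ fun a _ => continuousOn_finsetSum _ fun a' _ => ?_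
    exact ((Complex.continuous_conj.comp_continuousOn (hu a)).mul
      (Mt.smH a a').continuousOn).mul (hu a')
  exact h1.congr fun p hp => (hn p hp _).symm

private theorem RScal_cut_cont (ε : ℝ) : Continuous fun s : ℂ => (cut (‖s‖ ^ 2 / ε ^ 2) : ℂ) := by
  unfold cut
  refine Complex.continuous_ofReal.comp (Real.smoothTransition.continuous.comp ?_)
  fun_prop

private theorem RScal_chiT_cont (ε : ℝ) (a : Fin (k + 1)) :
    Continuous fun s : ℂ => chiT k ε s a := by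
  unfold chiT
  by_cases ha : a = 0
  · simp only [if_pos ha]
    exact RScal_cut_cont ε
  · simp only [if_neg ha]
    exact continuous_const

private theorem RScal_sum_chiT (S : Sheets 𝒜 x k) (ν : R →ₐ[ℂ] ℂ) (ε : ℝ) (s : ℂ) :
    ∑ a, ν (S.β a) * chiT k ε s a = (cut (‖s‖ ^ 2 / ε ^ 2) : ℂ) := by
  unfold chiT
  rw [Finset.sum_eq_single (0 : Fin (k + 1))]
  · rw [if_pos rfl, S.β_zero, map_one, one_mul]
  · intro a _ ha
    rw [if_neg ha, mul_zero]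
  · intro h0
    exact absurd (Finset.mem_univ _) h0

/-- the value of the norm when the difference is a function -/
private theorem RScal_nE (S : Sheets 𝒜 x k) (e : Fin M → Fin (B + 1) → R) (c ε τ : ℝ)
    (hε : 0 < ε) (y : Fin (n + 1) → ℂ) (s : ℂ) (hs : s ≠ 0) (u : Fin (k + 1) → ℂ)
    (f : ℂ) (h0 : u 0 = f) (h1 : ∀ a, a ≠ 0 → u a = 0) :
    nE S G r e c ε τ (y, s) (fun a => chiT k ε s a - u a) =
      ENNReal.ofReal (‖(cut (‖s‖ ^ 2 / ε ^ 2) : ℂ) - f‖ ^ 2 * ws ε τ s) *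
        ∑' ν : fib x y, ENNReal.ofReal (wph G r e c ε ν.1 s) := by
  unfold nE
  rw [← ENNReal.tsum_mul_left]
  refine tsum_congr fun ν => ?_
  rw [← ENNReal.ofReal_mul (mul_nonneg (sq_nonneg _) (RScal_ws_pos ε τ hε s hs).le)]
  congr 1
  have h2 : ∑ a, ν.1 (S.β a) * (chiT k ε s a - u a) =
      (cut (‖s‖ ^ 2 / ε ^ 2) : ℂ) - f := by
    simp only [mul_sub, Finset.sum_sub_distrib]
    rw [RScal_sum_chiT]
    congr 1
    rw [Finset.sum_eq_single (0 : Fin (k + 1))]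
    · rw [S.β_zero, map_one, one_mul, h0]
    · intro a _ ha
      rw [h1 a ha, mul_zero]
    · intro h0
      exact absurd (Finset.mem_univ _) h0
  change wph G r e c ε ν.1 s * ws ε τ s * ‖∑ a, ν.1 (S.β a) * (chiT k ε s a - u a)‖ ^ 2 = _
  rw [h2]
  ring

/-- square integrability of a slice -/
private theorem RScal_slice (h : IsFano 𝒜 n r d x G) (S : Sheets 𝒜 x k)
    (e : Fin M → Fin (B + 1) → R) (hg : GoodSheets S G e) (c : ℝ) (hc : 0 ≤ c)
    (hI : intI x G r (fun i => e i 0) c ≠ ⊤) (ε τ : ℝ) (hε : 0 < ε) (hε1 : ε ≤ 1) (hτ : 0 < τ)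
    (s : ℂ) (hs : s ≠ 0) (u : Fin (k + 1) → (Fin (n + 1) → ℂ) → ℂ)
    (hm : AEMeasurable (fun y => nE S G r e c ε τ (y, s) (fun a => chiT k ε s a - u a y))
      (volume.restrict (W0 S.h)))
    (hu : ∫⁻ y in W0 S.h, nE S G r e c ε τ (y, s) (fun a => chiT k ε s a - u a y) ≠ ⊤) :
    ∫⁻ y in W0 S.h, ∑' ν : fib x y,
      ENNReal.ofReal (‖∑ a, u a y * ν.1 (S.β a)‖ ^ 2 * ‖ν.1 G‖ ^ (-2 / (r : ℝ))) ≠ ⊤ := by
  obtain ⟨c₀, hc₀, hw⟩ := wph_ge h e c hc ‖s‖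
  have hws := RScal_ws_pos ε τ hε s hs
  have hint := intG_ne_top h S e hg c hc hI
  have hmeas : MeasurableSet (W0 S.h) := (isOpen_W0 S.h).measurableSet
  have key : ∀ y ∈ W0 S.h, ∑' ν : fib x y,
      ENNReal.ofReal (‖∑ a, u a y * ν.1 (S.β a)‖ ^ 2 * ‖ν.1 G‖ ^ (-2 / (r : ℝ))) ≤
      ENNReal.ofReal (2 / (c₀ * ws ε τ s)) *
        nE S G r e c ε τ (y, s) (fun a => chiT k ε s a - u a y) +
      ENNReal.ofReal (2 * cut (‖s‖ ^ 2 / ε ^ 2) ^ 2) *
        ∑' ν : fib x y, ENNReal.ofReal (‖ν.1 G‖ ^ (-2 / (r : ℝ))) := by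
    intro y hy
    unfold nE
    rw [← ENNReal.tsum_mul_left, ← ENNReal.tsum_mul_left, ← ENNReal.tsum_add]
    refine ENNReal.tsum_le_tsum fun ν => ?_
    have hy1 : ‖y‖ ≤ 1 := hy.1.le
    obtain ⟨hG, he⟩ := hg y hy.2 ν.1 ν.2
    obtain ⟨hw1, -⟩ := hw ε s hε hε1 le_rfl y hy1 ν.1 ν.2 hG he
    rw [← ENNReal.ofReal_mul (by positivity), ← ENNReal.ofReal_mul (by positivity),
      ← ENNReal.ofReal_add (mul_nonneg (by positivity) (mul_nonneg
        (mul_nonneg (RScal_wph_nonneg G r e c ε ν.1 s) hws.le) (sq_nonneg _)))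
        (by positivity)]
    refine ENNReal.ofReal_le_ofReal ?_
    set g : ℝ := ‖ν.1 G‖ ^ (-2 / (r : ℝ)) with hgdef
    have hg0 : 0 ≤ g := Real.rpow_nonneg (norm_nonneg _) _
    set A : ℂ := ∑ a, ν.1 (S.β a) * (chiT k ε s a - u a y) with hA
    have hsum : ∑ a, u a y * ν.1 (S.β a) = (cut (‖s‖ ^ 2 / ε ^ 2) : ℂ) - A := by
      rw [hA]
      simp only [mul_sub, Finset.sum_sub_distrib]
      rw [RScal_sum_chiT]
      rw [sub_sub_cancel]
      exact Finset.sum_congr rfl fun a _ => mul_comm _ _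
    rw [hsum]
    have h2 : ‖(cut (‖s‖ ^ 2 / ε ^ 2) : ℂ) - A‖ ^ 2 ≤
        2 * cut (‖s‖ ^ 2 / ε ^ 2) ^ 2 + 2 * ‖A‖ ^ 2 := by
      have h3 : ‖(cut (‖s‖ ^ 2 / ε ^ 2) : ℂ) - A‖ ≤ |cut (‖s‖ ^ 2 / ε ^ 2)| + ‖A‖ := by
        refine (norm_sub_le _ _).trans ?_
        rw [Complex.norm_real, Real.norm_eq_abs]
      have h4 : ‖(cut (‖s‖ ^ 2 / ε ^ 2) : ℂ) - A‖ ^ 2 ≤
          (|cut (‖s‖ ^ 2 / ε ^ 2)| + ‖A‖) ^ 2 := pow_le_pow_left₀ (norm_nonneg _) h3 2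
      have h5 := sq_abs (cut (‖s‖ ^ 2 / ε ^ 2))
      nlinarith [sq_nonneg (|cut (‖s‖ ^ 2 / ε ^ 2)| - ‖A‖)]
    have h6 : ‖A‖ ^ 2 * g ≤ 1 / (c₀ * ws ε τ s) *
        (wph G r e c ε ν.1 s * ws ε τ s * ‖A‖ ^ 2) := by
      have h7 : 1 / (c₀ * ws ε τ s) * (wph G r e c ε ν.1 s * ws ε τ s * ‖A‖ ^ 2) =
          ‖A‖ ^ 2 * (wph G r e c ε ν.1 s / c₀) := by
        field_simp
      rw [h7]
      refine mul_le_mul_of_nonneg_left ?_ (sq_nonneg _)
      rw [le_div_iff₀ hc₀, mul_comm]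
      exact hw1
    calc ‖(cut (‖s‖ ^ 2 / ε ^ 2) : ℂ) - A‖ ^ 2 * g
        ≤ (2 * cut (‖s‖ ^ 2 / ε ^ 2) ^ 2 + 2 * ‖A‖ ^ 2) * g :=
          mul_le_mul_of_nonneg_right h2 hg0
      _ = 2 * (‖A‖ ^ 2 * g) + 2 * cut (‖s‖ ^ 2 / ε ^ 2) ^ 2 * g := by ring
      _ ≤ 2 * (1 / (c₀ * ws ε τ s) * (wph G r e c ε ν.1 s * ws ε τ s * ‖A‖ ^ 2)) +
          2 * cut (‖s‖ ^ 2 / ε ^ 2) ^ 2 * g := by
          have := mul_le_mul_of_nonneg_left h6 (zero_le_two (α := ℝ))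
          linarith
      _ = 2 / (c₀ * ws ε τ s) * (wph G r e c ε ν.1 s * ws ε τ s * ‖A‖ ^ 2) +
          2 * cut (‖s‖ ^ 2 / ε ^ 2) ^ 2 * g := by ring
  refine ne_top_of_le_ne_top ?_ (setLIntegral_mono' hmeas key)
  rw [lintegral_add_left' (hm.const_mul _), lintegral_const_mul' _ _ ENNReal.ofReal_ne_top,
    lintegral_const_mul' _ _ ENNReal.ofReal_ne_top]
  exact ENNReal.add_ne_top.2 ⟨ENNReal.mul_ne_top ENNReal.ofReal_ne_top hu,
    ENNReal.mul_ne_top ENNReal.ofReal_ne_top hint⟩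

/-- an identity which holds for almost all `s` holds for all `s ≠ 0` -/
private theorem RScal_ae (g : ℂ → ℂ) (v : ℂ) (hg : ContinuousOn g {0}ᶜ)
    (h : ∀ᵐ s : ℂ, s ≠ 0 → g s = v) : ∀ s, s ≠ 0 → g s = v := by
  intro s hs
  by_contra hne
  have h1 : IsOpen ({0}ᶜ ∩ g ⁻¹' {v}ᶜ) :=
    hg.isOpen_inter_preimage isOpen_compl_singleton isOpen_compl_singleton
  have h2 : Dense {s : ℂ | s ≠ 0 → g s = v} := Measure.dense_of_ae h
  obtain ⟨t, ht, ht'⟩ := h2.inter_open_nonempty _ h1 ⟨s, hs, hne⟩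
  exact ht.2 (ht' ht.1)

theorem exists_scalar (h : IsFano 𝒜 n r d x G) (S : Sheets 𝒜 x k) {m : ℕ}
    (e : Fin M → Fin (B + 1) → R) (he : ∀ i l, e i l ∈ 𝒜 m) (hg : GoodSheets S G e)
    (c : ℝ) (hc : 0 ≤ c) (hI : intI x G r (fun i => e i 0) c ≠ ⊤) :
    ∃ K : ℝ, ∀ ε τ : ℝ, 0 < ε → ε ≤ 1 → 0 < τ → τ ≤ 1 →
      ∃ f : ℂ → ℂ, DifferentiableOn ℂ f {0}ᶜ ∧
        ∫⁻ s, ENNReal.ofReal (‖(cut (‖s‖ ^ 2 / ε ^ 2) : ℂ) - f s‖ ^ 2 * ws ε τ s) *
          JJ S G r e c ε s ≤ ENNReal.ofReal (K / τ) := by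
  classical
  obtain ⟨K0, hK0, hsol⟩ := exists_sol c hc B M
  refine ⟨K0 * (intI x G r (fun i => e i 0) c).toReal, fun ε τ hε hε1 hτ hτ1 => ?_⟩
  obtain ⟨F0, hF0, hF0i⟩ := hsol h S e hg hI ε τ hε hε1 hτ hτ1
  obtain ⟨F, hF, hFinv, hFi⟩ := exists_avg h S e he hg c ε τ hε F0 hF0
  have hbound : ∫⁻ p in WW S, nE S G r e c ε τ p (fun a => chiT k ε p.2 a - F a p) ≤
      ENNReal.ofReal (K0 * (intI x G r (fun i => e i 0) c).toReal / τ) := by
    refine (hFi.trans hF0i).trans (le_of_eq ?_)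
    rw [show K0 * (intI x G r (fun i => e i 0) c).toReal / τ =
      K0 / τ * (intI x G r (fun i => e i 0) c).toReal by ring,
      ENNReal.ofReal_mul (div_nonneg hK0.le hτ.le), ENNReal.ofReal_toReal hI]
  -- Tonelli
  have hWo : IsOpen (WW S) := isOpen_WW S
  have hucont : ∀ a, ContinuousOn (fun p : (Fin (n + 1) → ℂ) × ℂ => chiT k ε p.2 a - F a p)
      (WW S) := fun a =>
    (((RScal_chiT_cont ε a).comp continuous_snd).continuousOn).sub (hF a).continuousOn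
  have hgcont := RScal_cont h S e hg c ε τ hc hε hτ
    (fun a p => chiT k ε p.2 a - F a p) hucont
  have hgm : AEMeasurable (fun p => nE S G r e c ε τ p (fun a => chiT k ε p.2 a - F a p))
      (volume.restrict (WW S)) := hgcont.aemeasurable hWo.measurableSet
  have hvol : (volume : Measure ((Fin (n + 1) → ℂ) × ℂ)).restrict (WW S) =
      (volume.restrict (W0 S.h)).prod (volume.restrict ({0}ᶜ : Set ℂ)) := by
    rw [Measure.prod_restrict, ← Measure.volume_eq_prod, RScal_WW]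
  rw [hvol] at hgm hbound
  rw [lintegral_prod_symm _ hgm] at hbound
  have hm2 := hgm.lintegral_prod_left'
  have hae := ae_lt_top' hm2 (ne_top_of_le_ne_top ENNReal.ofReal_ne_top hbound)
  rw [restrict_compl_singleton] at hae hbound
  rcases (W0 S.h).eq_empty_or_nonempty with hW | ⟨y0, hy0⟩
  · refine ⟨fun _ => 0, differentiableOn_const _, ?_⟩
    have h1 : ∀ s, JJ S G r e c ε s = 0 := by
      intro s
      unfold JJ
      rw [hW, Measure.restrict_empty, lintegral_zero_measure]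
    simp [h1]
  -- the slices
  have hslice : ∀ s : ℂ, s ≠ 0 →
      ∫⁻ y in W0 S.h, nE S G r e c ε τ (y, s) (fun a => chiT k ε s a - F a (y, s)) ≠ ⊤ →
      ∃ v : ℂ, ∀ y ∈ W0 S.h, F 0 (y, s) = v ∧ ∀ a, a ≠ 0 → F a (y, s) = 0 := by
    intro s hs hfin
    have hmap : Set.MapsTo (fun y : Fin (n + 1) → ℂ => (y, s)) (W0 S.h) (WW S) :=
      fun y hy => ⟨hy, hs⟩
    refine const_of_L2 h S (fun a y => F a (y, s)) (fun a => ?_) (fun a θ y hy => ?_) ?_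
    · refine (hF a).comp ?_ hmap
      exact (differentiable_id.prodMk (differentiable_const s)).differentiableOn
    · exact hFinv a θ (y, s) ⟨hy, hs⟩
    · refine RScal_slice h S e hg c hc hI ε τ hε hε1 hτ s hs (fun a y => F a (y, s)) ?_ hfin
      refine ContinuousOn.aemeasurable ?_ (isOpen_W0 S.h).measurableSet
      exact hgcont.comp (continuous_id.prodMk continuous_const).continuousOn hmap
  have haeg : ∀ᵐ s : ℂ, s ≠ 0 →
      ∃ v : ℂ, ∀ y ∈ W0 S.h, F 0 (y, s) = v ∧ ∀ a, a ≠ 0 → F a (y, s) = 0 := by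
    filter_upwards [hae] with s hs hs0
    exact hslice s hs0 hs.ne
  have hFs : ∀ a, ∀ y ∈ W0 S.h, ContinuousOn (fun s => F a (y, s)) ({0}ᶜ : Set ℂ) := by
    intro a y hy
    refine (hF a).continuousOn.comp (continuous_const.prodMk continuous_id).continuousOn ?_
    intro s hs
    exact ⟨hy, hs⟩
  have hall0 : ∀ y ∈ W0 S.h, ∀ s, s ≠ 0 → F 0 (y, s) - F 0 (y0, s) = 0 := by
    intro y hy
    refine RScal_ae _ 0 ((hFs 0 y hy).sub (hFs 0 y0 hy0)) ?_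
    filter_upwards [haeg] with s hs hs0
    obtain ⟨v, hv⟩ := hs hs0
    rw [(hv y hy).1, (hv y0 hy0).1, sub_self]
  have halla : ∀ a, a ≠ 0 → ∀ y ∈ W0 S.h, ∀ s, s ≠ 0 → F a (y, s) = 0 := by
    intro a ha y hy
    refine RScal_ae _ 0 (hFs a y hy) ?_
    filter_upwards [haeg] with s hs hs0
    obtain ⟨v, hv⟩ := hs hs0
    exact (hv y hy).2 a ha
  refine ⟨fun s => F 0 (y0, s), ?_, ?_⟩
  · refine (hF 0).comp ?_ (fun s hs => ⟨hy0, hs⟩)
    exact ((differentiable_const y0).prodMk differentiable_id).differentiableOn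
  · refine le_trans (le_of_eq ?_) hbound
    rw [← restrict_compl_singleton (μ := (volume : Measure ℂ)) 0]
    refine setLIntegral_congr_fun (measurableSet_singleton _).compl ?_
    intro s hs
    have hs0 : s ≠ 0 := hs
    change ENNReal.ofReal (‖(cut (‖s‖ ^ 2 / ε ^ 2) : ℂ) - F 0 (y0, s)‖ ^ 2 * ws ε τ s) *
      JJ S G r e c ε s = _
    unfold JJ
    rw [← lintegral_const_mul' _ _ ENNReal.ofReal_ne_top]
    refine setLIntegral_congr_fun (isOpen_W0 S.h).measurableSet ?_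
    intro y hy
    have h1 : F 0 (y, s) = F 0 (y0, s) := sub_eq_zero.1 (hall0 y hy s hs0)
    exact (RScal_nE S e c ε τ hε y s hs0 (fun a => F a (y, s)) (F 0 (y0, s)) h1
      (fun a ha => halla a ha y hy s hs0)).symm

end Pool.Agent.Lib_KF
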