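import Pool.Agent.Lib_KF.HDefs

/-! RS09: Weyl's lemma for the Cauchy-Riemann equations on an open set. -/

open MeasureTheory Complex
open scoped ENNReal ContDiff ComplexConjugate

namespace Pool.Agent.Lib_KF

open GPn

section Local

variable {E : Type} [NormedAddCommGroup E] [NormedSpace ℂ E] [FiniteDimensional ℂ E]
  [MeasurableSpace E] [BorelSpace E]

private noncomputable def rot (t : ℝ) : ℂ := Complex.exp (t * I)

private theorem norm_rot (t : ℝ) : ‖rot t‖ = 1 := Complex.norm_exp_ofReal_mul_I t

private theorem rot_ne (t : ℝ) : rot t ≠ 0 := Complex.exp_ne_zero _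

/-- multiplication by a unit complex number preserves Haar measure -/
private theorem circle_mp (mu : Measure E) [mu.IsAddHaarMeasure] (t : ℝ) :
    MeasurePreserving (fun x : E => rot t • x) mu mu := by
  have : ProperSpace E := FiniteDimensional.proper_rclike ℂ E
  let e : E ≃L[ℝ] E :=
    (ContinuousLinearEquiv.smulLeft (Units.mk0 (rot t) (rot_ne t)) : E ≃L[ℂ] E).restrictScalars ℝ
  have he : ∀ x, e x = rot t • x := fun x => rfl
  have hmeas : Measurable (fun x : E => rot t • x) := (continuous_const_smul (rot t)).measurable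
  refine ⟨hmeas, ?_⟩
  have h1 : (mu.map e).IsAddHaarMeasure := e.isAddHaarMeasure_map mu
  have h2 : mu.map (fun x : E => rot t • x) = mu.map e := rfl
  rw [h2]
  have h3 := Measure.isAddLeftInvariant_eq_smul (mu.map e) mu
  have h4 : (mu.map e) (Metric.closedBall 0 1) = mu (Metric.closedBall 0 1) := by
    rw [Measure.map_apply e.continuous.measurable Metric.isClosed_closedBall.measurableSet]
    congr 1
    ext x
    simp only [Set.mem_preimage, Metric.mem_closedBall, dist_zero_right, he, norm_smul, norm_rot,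
      one_mul]
  rw [h3] at h4
  rw [h3]
  set c := (mu.map e).addHaarScalarFactor mu with hc
  have h5 : mu (Metric.closedBall 0 1) ≠ 0 :=
    (Metric.measure_closedBall_pos mu 0 one_pos).ne'
  have h6 : mu (Metric.closedBall 0 1) ≠ ⊤ := (measure_closedBall_lt_top).ne
  have h7 : ((c : NNReal) : ℝ≥0∞) * mu (Metric.closedBall 0 1) = 1 * mu (Metric.closedBall 0 1) := by
    rw [one_mul]; exact h4
  have h8 : ((c : NNReal) : ℝ≥0∞) = 1 := (ENNReal.mul_left_inj h5 h6).1 h7
  have h9 : c = 1 := by exact_mod_cast h8
  rw [h9, one_smul]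

/-- the convolution-type function -/
private noncomputable def HF (mu : Measure E) (h : E → ℂ) (ph : E → ℂ) (x : E) : ℂ :=
  ∫ y, h y * ph (y - x) ∂mu

private theorem RWeyl_eq_conv (mu : Measure E) (h ph : E → ℂ) :
    HF mu h ph = MeasureTheory.convolution h (fun z => ph (-z))
      (ContinuousLinearMap.mul ℝ ℂ) mu := by
  funext x
  simp only [HF, MeasureTheory.convolution, ContinuousLinearMap.mul_apply', neg_sub]

private theorem RWeyl_cont (mu : Measure E) [mu.IsAddHaarMeasure] (h : E → ℂ)
    (hloc : LocallyIntegrable h mu) (ph : E → ℂ) (hs : Continuous ph)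
    (hc : HasCompactSupport ph) : Continuous (HF mu h ph) := by
  rw [RWeyl_eq_conv]
  exact (hc.comp_homeomorph (Homeomorph.neg E)).continuous_convolution_right
    (ContinuousLinearMap.mul ℝ ℂ) hloc (hs.comp continuous_neg)

private theorem RWeyl_deriv (mu : Measure E) [mu.IsAddHaarMeasure] {ι : Type} [Fintype ι]
    (b : Module.Basis ι ℂ E) (h : E → ℂ) (hloc : LocallyIntegrable h mu) {U : Set E}
    (hol : ∀ ps : E → ℂ, SCW U ps → ∀ j, ∫ x, h x * dzb (b j) ps x ∂mu = 0)
    (ph : E → ℂ) (hs : ContDiff ℝ ∞ ph) (hc : HasCompactSupport ph) (x : E)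
    (hx : tsupport (fun t => ph (t - x)) ⊆ U) :
    DifferentiableAt ℝ (HF mu h ph) x ∧
      ∀ j, fderiv ℝ (HF mu h ph) x (I • b j) = I * fderiv ℝ (HF mu h ph) x (b j) := by
  have : ProperSpace E := FiniteDimensional.proper_rclike ℂ E
  set g : E → ℂ := fun z => ph (-z) with hg
  have hgs : ContDiff ℝ ∞ g := hs.comp contDiff_neg
  have hgc : HasCompactSupport g := hc.comp_homeomorph (Homeomorph.neg E)
  have hHF : HF mu h ph = MeasureTheory.convolution h g (ContinuousLinearMap.mul ℝ ℂ) mu :=
    RWeyl_eq_conv mu h ph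
  have hd := hgc.hasFDerivAt_convolution_right (ContinuousLinearMap.mul ℝ ℂ) hloc
    (hgs.of_le (by simp)) x
  rw [← hHF] at hd
  refine ⟨hd.differentiableAt, ?_⟩
  have hfd := hd.fderiv
  have hcd : HasCompactSupport (fderiv ℝ g) := hgc.fderiv ℝ
  have hcont : Continuous (fderiv ℝ g) := hgs.continuous_fderiv (by simp)
  have hex : ConvolutionExistsAt h (fderiv ℝ g) x
      ((ContinuousLinearMap.mul ℝ ℂ).precompR E) mu :=
    hcd.convolutionExists_right _ hloc hcont x
  have happ : ∀ v, fderiv ℝ (HF mu h ph) x v = ∫ t, h t * fderiv ℝ g (x - t) v ∂mu := by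
    intro v
    rw [hfd, MeasureTheory.convolution, ContinuousLinearMap.integral_apply hex.integrable]
    rfl
  have hint : ∀ v, Integrable (fun t => h t * fderiv ℝ g (x - t) v) mu := by
    intro v
    have := hex.integrable.apply_continuousLinearMap v
    exact this
  intro j
  set v := b j with hv
  rw [happ, happ]
  -- use hol with the function t ↦ g (x - t)
  have hgx : (fun t => g (x - t)) = fun t => ph (t - x) := by
    funext t
    simp only [hg, neg_sub]
  have h1 := hol (fun t => g (x - t)) ⟨hgs.comp (contDiff_const.sub contDiff_id),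
    hgc.comp_homeomorph (Homeomorph.subLeft x), by rw [hgx]; exact hx⟩ j
  have h2 : ∀ t w, fderiv ℝ (fun t => g (x - t)) t w = - fderiv ℝ g (x - t) w := by
    intro t w
    have h3 : HasFDerivAt (fun t => g (x - t)) ((fderiv ℝ g (x - t)).comp
        (-(ContinuousLinearMap.id ℝ E))) t := by
      have h4 : HasFDerivAt (fun t : E => x - t) (-(ContinuousLinearMap.id ℝ E)) t :=
        (hasFDerivAt_id t).const_sub x
      exact ((hgs.differentiable (by simp)) (x - t)).hasFDerivAt.comp t h4
    rw [h3.fderiv]
    simp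
  simp only [dzb, h2] at h1
  have h5 : ∫ t, h t * fderiv ℝ g (x - t) v ∂mu
      + I * ∫ t, h t * fderiv ℝ g (x - t) (I • v) ∂mu = 0 := by
    have h6 : (-2 : ℂ) * ∫ t, h t * ((-fderiv ℝ g (x - t) v +
        I * -fderiv ℝ g (x - t) (I • v)) / 2) ∂mu = 0 := by
      rw [h1, mul_zero]
    rw [← integral_const_mul, ← integral_add (hint v) ((hint (I • v)).const_mul I)]
    rw [← integral_const_mul] at h6
    rw [← h6]
    congr 1
    funext t
    ring
  have h6 : ∫ t, h t * fderiv ℝ g (x - t) v ∂mu
      = - (I * ∫ t, h t * fderiv ℝ g (x - t) (I • v) ∂mu) := eq_neg_of_add_eq_zero_left h5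
  rw [h6]
  have : I * -(I * ∫ t, h t * fderiv ℝ g (x - t) (I • v) ∂mu)
      = -(I * I) * ∫ t, h t * fderiv ℝ g (x - t) (I • v) ∂mu := by ring
  rw [this, Complex.I_mul_I]
  simp

/-- circle invariant bumps -/
private theorem exists_bumps (mu : Measure E) [mu.IsAddHaarMeasure] :
    ∃ r : ℕ → E → ℝ, (∀ n, ContDiff ℝ ∞ (r n)) ∧ (∀ n, HasCompactSupport (r n)) ∧
      (∀ n x, 0 ≤ r n x) ∧ (∀ n, ∫ x, r n x ∂mu = 1) ∧
      (∀ n (t : ℝ) x, r n (rot t • x) = r n x) ∧
      Filter.Tendsto (fun n => Function.support (r n)) Filter.atTop (nhds 0).smallSets := by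
  have : ProperSpace E := FiniteDimensional.proper_rclike ℂ E
  let b := Module.finBasis ℂ E
  -- equivalence with euclidean space
  let e : E ≃L[ℂ] EuclideanSpace ℂ (Fin (Module.finrank ℂ E)) :=
    (b.equivFun.toContinuousLinearEquiv).trans
      (PiLp.continuousLinearEquiv 2 ℂ (fun _ : Fin (Module.finrank ℂ E) => ℂ)).symm
  set q : E → ℝ := fun x => ‖e x‖ ^ 2 with hq
  have hqs : ContDiff ℝ ∞ q := by
    have h1 : ContDiff ℝ ∞ (fun x : E => e x) := (e.contDiff (n := ∞)).restrict_scalars ℝ
    exact h1.norm_sq ℝ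
  have hq0 : ∀ x, 0 ≤ q x := fun x => by positivity
  have hqr : ∀ (t : ℝ) x, q (rot t • x) = q x := by
    intro t x
    simp only [hq, map_smul, norm_smul, norm_rot, one_mul]
  -- comparison of norms
  obtain ⟨C, hC0, hC⟩ : ∃ C : ℝ, 0 < C ∧ ∀ x : E, ‖x‖ ≤ C * ‖e x‖ := by
    refine ⟨‖(e.symm : EuclideanSpace ℂ (Fin (Module.finrank ℂ E)) →L[ℂ] E)‖ + 1, by positivity,
      fun x => ?_⟩
    have h1 := (e.symm : EuclideanSpace ℂ (Fin (Module.finrank ℂ E)) →L[ℂ] E).le_opNorm (e x)
    have h2 : (e.symm : EuclideanSpace ℂ (Fin (Module.finrank ℂ E)) →L[ℂ] E) (e x) = x :=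
      e.symm_apply_apply x
    rw [h2] at h1
    nlinarith [norm_nonneg (e x)]
  set s : ℕ → E → ℝ := fun n x => Real.smoothTransition (1 - ((n : ℝ) + 1) * q x) with hsdef
  have hss : ∀ n, ContDiff ℝ ∞ (s n) := fun n =>
    Real.smoothTransition.contDiff.comp (contDiff_const.sub (contDiff_const.mul hqs))
  have hsn : ∀ n x, 0 ≤ s n x := fun n x => Real.smoothTransition.nonneg _
  have hsupp : ∀ n, Function.support (s n) ⊆
      Metric.closedBall 0 (C * Real.sqrt (1 / ((n : ℝ) + 1))) := by
    intro n x hx
    have h1 : ¬ (1 - ((n : ℝ) + 1) * q x ≤ 0) := by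
      intro h2
      exact hx (Real.smoothTransition.zero_of_nonpos h2)
    push Not at h1
    have h3 : q x ≤ 1 / ((n : ℝ) + 1) := by
      rw [le_div_iff₀ (by positivity)]
      nlinarith
    have h4 : ‖e x‖ ≤ Real.sqrt (1 / ((n : ℝ) + 1)) := Real.le_sqrt_of_sq_le h3
    rw [mem_closedBall_zero_iff]
    exact (hC x).trans (mul_le_mul_of_nonneg_left h4 hC0.le)
  have hsc : ∀ n, HasCompactSupport (s n) := fun n =>
    HasCompactSupport.of_support_subset_isCompact (isCompact_closedBall _ _) (hsupp n)
  have hint : ∀ n, Integrable (s n) mu := fun n =>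
    (hss n).continuous.integrable_of_hasCompactSupport (hsc n)
  have hpos : ∀ n, 0 < ∫ x, s n x ∂mu := by
    intro n
    refine (hss n).continuous.integral_pos_of_hasCompactSupport_nonneg_nonzero (hsc n) (hsn n)
      (x := 0) ?_
    simp [hsdef, hq]
  refine ⟨fun n x => (∫ x, s n x ∂mu)⁻¹ * s n x, fun n => contDiff_const.mul (hss n),
    fun n => (hsc n).mul_left, fun n x => mul_nonneg (inv_nonneg.2 (hpos n).le) (hsn n x),
    fun n => ?_, fun n t x => ?_, ?_⟩
  · rw [integral_const_mul, inv_mul_cancel₀ (hpos n).ne']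
  · simp only [hsdef, hqr]
  · rw [Filter.tendsto_smallSets_iff]
    intro U hU
    obtain ⟨d, hd, hdU⟩ := Metric.nhds_basis_closedBall.mem_iff.1 hU
    have h1 : Filter.Tendsto (fun n : ℕ => C * Real.sqrt (1 / ((n : ℝ) + 1))) Filter.atTop
        (nhds (C * Real.sqrt 0)) :=
      (tendsto_one_div_add_atTop_nhds_zero_nat.sqrt).const_mul C
    rw [Real.sqrt_zero, mul_zero] at h1
    filter_upwards [h1.eventually (ge_mem_nhds hd)] with n hn
    intro x hx
    have hx' : x ∈ Function.support (s n) := by
      intro h2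
      apply hx
      simp only [h2, mul_zero]
    exact hdU (Metric.closedBall_subset_closedBall hn (hsupp n hx'))


/-- the convolution with a test function is holomorphic -/
private theorem RWeyl_hol (mu : Measure E) [mu.IsAddHaarMeasure] {ι : Type} [Fintype ι]
    (b : Module.Basis ι ℂ E) (h : E → ℂ) (hloc : LocallyIntegrable h mu) {U : Set E}
    (hol : ∀ ps : E → ℂ, SCW U ps → ∀ j, ∫ x, h x * dzb (b j) ps x ∂mu = 0)
    (ph : E → ℂ) (hs : ContDiff ℝ ∞ ph) (hc : HasCompactSupport ph) (x : E)
    (hx : tsupport (fun t => ph (t - x)) ⊆ U) :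
    DifferentiableAt ℂ (HF mu h ph) x := by
  obtain ⟨h1, h2'⟩ := RWeyl_deriv mu b h hloc hol ph hs hc x hx
  rw [differentiableAt_iff_restrictScalars ℝ h1]
  set L := fderiv ℝ (HF mu h ph) x with hL
  have hsplit : ∀ (c : ℂ) (v : E), c • v = c.re • v + c.im • (I • v) := by
    intro c v
    rw [← Complex.coe_smul c.re, ← Complex.coe_smul c.im, smul_smul, ← add_smul,
      Complex.re_add_im]
  have h2 : ∀ v : E, L (I • v) = I * L v := by
    intro v
    have hv : v ∈ Submodule.span ℂ (Set.range b) := by rw [b.span_eq]; trivial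
    induction hv using Submodule.span_induction with
    | mem y hy =>
      obtain ⟨j, rfl⟩ := hy
      exact h2' j
    | zero => simp
    | add y z _ _ hy hz => rw [smul_add, map_add, map_add, hy, hz]; ring
    | smul c y _ hy =>
      have h3 : I • c • y = c.re • (I • y) - c.im • y := by
        rw [hsplit c y, smul_add, smul_comm I c.re, smul_comm I c.im, smul_smul I I y,
          Complex.I_mul_I, neg_one_smul, smul_neg, sub_eq_add_neg]
      have h4 : L (c • y) = (c.re : ℂ) * L y + (c.im : ℂ) * (I * L y) := by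
        rw [hsplit c y, map_add, map_smul, map_smul, hy, Complex.real_smul, Complex.real_smul]
      rw [h3, h4, map_sub, L.map_smul c.re (I • y), L.map_smul c.im y, hy, Complex.real_smul,
        Complex.real_smul]
      have : I * ((c.re : ℂ) * L y + (c.im : ℂ) * (I * L y))
          = (c.re : ℂ) * (I * L y) + (I * I) * ((c.im : ℂ) * L y) := by ring
      rw [this, Complex.I_mul_I]
      ring
  have hsm : ∀ (c : ℂ) (v : E), L (c • v) = c • L v := by
    intro c v
    rw [hsplit c v, map_add, map_smul, map_smul, h2 v, smul_eq_mul, Complex.real_smul,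
      Complex.real_smul]
    conv_rhs => rw [← Complex.re_add_im c]
    ring
  refine ⟨⟨{ toFun := L, map_add' := fun a b => map_add L a b, map_smul' := hsm }, L.cont⟩, ?_⟩
  ext v
  rfl

/-- mean value property -/
private theorem RWeyl_mean (mu : Measure E) [mu.IsAddHaarMeasure] (u : E → ℂ)
    (huc : Continuous u) {V : Set E} (x : E) {δ : ℝ} (hball : Metric.closedBall x δ ⊆ V)
    (hu : ∀ y ∈ V, DifferentiableAt ℂ u y) (ph : E → ℂ) (hpc : Continuous ph)
    (hc : HasCompactSupport ph) (hδ : Function.support ph ⊆ Metric.closedBall 0 δ)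
    (hr : ∀ (t : ℝ) x, ph (rot t • x) = ph x) :
    HF mu u ph x = u x * ∫ y, ph y ∂mu := by
  have : ProperSpace E := FiniteDimensional.proper_rclike ℂ E
  have h0 : HF mu u ph x = ∫ y, u (x + y) * ph y ∂mu := by
    unfold HF
    rw [← integral_add_left_eq_self (fun y => u y * ph (y - x)) x]
    simp
  have hI : ∀ t : ℝ, ∫ y, u (x + rot t • y) * ph y ∂mu = ∫ y, u (x + y) * ph y ∂mu := by
    intro t
    have h1 := (circle_mp mu t).integral_comp
      (Homeomorph.smulOfNeZero (rot t) (rot_ne t) (α := E)).measurableEmbedding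
      (fun y => u (x + y) * ph y)
    rw [← h1]
    refine integral_congr_ae (Filter.Eventually.of_forall fun y => ?_)
    simp only [hr]
  -- the inner average
  have hA : ∀ y : E, ph y ≠ 0 →
      ∫ t in Set.Ioc 0 (2 * Real.pi), u (x + rot t • y) = 2 * Real.pi * u x := by
    intro y hy
    have hyδ : ‖y‖ ≤ δ := by simpa using hδ hy
    set G : ℂ → ℂ := fun z => u (x + z • y) with hG
    have hGd : ∀ z ∈ Metric.closedBall (0 : ℂ) 1, DifferentiableAt ℂ G z := by
      intro z hz
      have hz' : ‖z‖ ≤ 1 := by simpa using hz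
      refine (hu _ (hball ?_)).comp z ((differentiableAt_const x).add
        (differentiableAt_id.smul_const y))
      rw [Metric.mem_closedBall, dist_eq_norm]
      simp only [add_sub_cancel_left, norm_smul]
      calc ‖z‖ * ‖y‖ ≤ 1 * ‖y‖ := by gcongr
        _ ≤ δ := by rw [one_mul]; exact hyδ
    have hGo : DiffContOnCl ℂ G (Metric.ball 0 |(1 : ℝ)|) := by
      rw [abs_one]
      refine ⟨fun z hz => (hGd z (Metric.ball_subset_closedBall hz)).differentiableWithinAt, ?_⟩
      rw [closure_ball 0 one_ne_zero]
      exact fun z hz => (hGd z hz).continuousAt.continuousWithinAt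
    have h1 : Real.circleAverage G 0 1 = G 0 := DiffContOnCl.circleAverage hGo
    rw [Real.circleAverage, intervalIntegral.integral_of_le (by positivity)] at h1
    have h2 : ∀ t : ℝ, G (circleMap 0 1 t) = u (x + rot t • y) := by
      intro t
      simp [hG, circleMap, rot]
    simp only [h2] at h1
    have h3 : G 0 = u x := by simp [hG]
    rw [h3] at h1
    rw [← h1, Complex.real_smul]
    push_cast
    have hpi : (Real.pi : ℂ) ≠ 0 := by exact_mod_cast Real.pi_ne_zero
    field_simp
  -- Fubini
  obtain ⟨R, hR⟩ : ∃ R, ∀ y ∈ tsupport ph, ‖y‖ ≤ R := hc.isBounded.exists_norm_le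
  obtain ⟨M, hM⟩ : ∃ M, ∀ y ∈ Metric.closedBall x R, ‖u y‖ ≤ M :=
    (isCompact_closedBall x R).exists_bound_of_continuousOn huc.continuousOn
  have hrotc : Continuous fun p : ℝ × E => rot p.1 • p.2 := by
    unfold rot
    fun_prop
  have hint : Integrable (Function.uncurry fun (t : ℝ) (y : E) => u (x + rot t • y) * ph y)
      ((volume.restrict (Set.Ioc 0 (2 * Real.pi))).prod mu) := by
    have hph : Integrable ph mu := hpc.integrable_of_hasCompactSupport hc
    have hone : Integrable (fun _ : ℝ => M) (volume.restrict (Set.Ioc 0 (2 * Real.pi))) :=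
      integrable_const M
    refine (hone.mul_prod hph.norm).mono' ?_ (Filter.Eventually.of_forall ?_)
    · refine Continuous.aestronglyMeasurable ?_
      exact (huc.comp (continuous_const.add hrotc)).mul (hpc.comp continuous_snd)
    · rintro ⟨t, y⟩
      simp only [Function.uncurry_apply_pair, norm_mul]
      by_cases hy : y ∈ tsupport ph
      · refine mul_le_mul_of_nonneg_right (hM _ ?_) (norm_nonneg _)
        rw [Metric.mem_closedBall, dist_eq_norm]
        simp only [add_sub_cancel_left, norm_smul, norm_rot, one_mul]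
        exact hR y hy
      · rw [image_eq_zero_of_notMem_tsupport hy]
        simp
  have hswap := integral_integral_swap hint
  simp only [hI] at hswap
  have h4 : ∀ y : E, ∫ t in Set.Ioc 0 (2 * Real.pi), u (x + rot t • y) * ph y =
      2 * Real.pi * u x * ph y := by
    intro y
    rw [integral_mul_const]
    by_cases hy : ph y = 0
    · rw [hy, mul_zero, mul_zero]
    · rw [hA y hy]
  simp only [h4] at hswap
  rw [integral_const_mul] at hswap
  rw [setIntegral_const, Real.volume_real_Ioc_of_le (by positivity), sub_zero,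
    Complex.real_smul] at hswap
  rw [h0]
  have hpi : ((2 * Real.pi : ℝ) : ℂ) ≠ 0 := by
    exact_mod_cast (by positivity : (2 * Real.pi) ≠ 0)
  have h5 : ((2 * Real.pi : ℝ) : ℂ) * ∫ y, u (x + y) * ph y ∂mu =
      ((2 * Real.pi : ℝ) : ℂ) * (u x * ∫ y, ph y ∂mu) := by
    rw [hswap]
    push_cast
    ring
  exact mul_left_cancel₀ hpi h5

/-- Fubini -/
private theorem HF_fub (mu : Measure E) [mu.IsAddHaarMeasure] (h : E → ℂ)
    (hloc : LocallyIntegrable h mu) (ps r : E → ℂ) (hps : Continuous ps)
    (hpc : HasCompactSupport ps) (hrs : Continuous r) (hrc : HasCompactSupport r) :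
    ∫ x, ps x * HF mu h r x ∂mu = ∫ y, h y * ∫ x, ps x * r (y - x) ∂mu ∂mu := by
  have : ProperSpace E := FiniteDimensional.proper_rclike ℂ E
  set A := tsupport ps with hA
  have hAc : IsCompact A := hpc
  obtain ⟨M, hM⟩ : ∃ M, ∀ x, ‖ps x‖ ≤ M := hps.bounded_above_of_compact_support hpc
  have hM0 : 0 ≤ M := (norm_nonneg _).trans (hM 0)
  set B := tsupport r with hB
  have hBc : IsCompact B := hrc
  obtain ⟨M', hM'⟩ : ∃ M, ∀ x, ‖r x‖ ≤ M := hrs.bounded_above_of_compact_support hrc
  have hM'0 : 0 ≤ M' := (norm_nonneg _).trans (hM' 0)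
  set AB : Set E := (fun p : E × E => p.1 + p.2) '' (A ×ˢ B) with hAB
  have hABc : IsCompact AB := (hAc.prod hBc).image (continuous_fst.add continuous_snd)
  have hhi : Integrable (AB.indicator fun y => ‖h y‖) mu := by
    rw [integrable_indicator_iff hABc.measurableSet]
    exact (hloc.integrableOn_isCompact hABc).norm
  have hAi : Integrable (A.indicator fun _ => M * M') mu := by
    rw [integrable_indicator_iff hAc.measurableSet]
    exact integrableOn_const hAc.measure_lt_top.ne
  have hFi : Integrable (Function.uncurry fun x y : E => ps x * (h y * r (y - x)))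
      (mu.prod mu) := by
    refine (hAi.mul_prod hhi).mono' ?_ (Filter.Eventually.of_forall ?_)
    · refine AEStronglyMeasurable.mul ?_ (AEStronglyMeasurable.mul ?_ ?_)
      · exact (hps.comp continuous_fst).aestronglyMeasurable
      · exact hloc.aestronglyMeasurable.comp_snd
      · exact (hrs.comp (continuous_snd.sub continuous_fst)).aestronglyMeasurable
    · rintro ⟨x, y⟩
      simp only [Function.uncurry_apply_pair, norm_mul]
      by_cases hx : x ∈ A
      · by_cases hy : y - x ∈ B
        · have hyAB : y ∈ AB := ⟨(x, y - x), ⟨hx, hy⟩, by simp⟩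
          rw [Set.indicator_of_mem hx, Set.indicator_of_mem hyAB]
          have h3 := hM x
          have h4 := hM' (y - x)
          calc ‖ps x‖ * (‖h y‖ * ‖r (y - x)‖) ≤ M * (‖h y‖ * M') := by gcongr
            _ = M * M' * ‖h y‖ := by ring
        · have : r (y - x) = 0 := image_eq_zero_of_notMem_tsupport hy
          rw [this]
          simp only [norm_zero, mul_zero]
          refine mul_nonneg (Set.indicator_nonneg (fun _ _ => by positivity) _)
            (Set.indicator_nonneg (fun _ _ => norm_nonneg _) _)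
      · have : ps x = 0 := image_eq_zero_of_notMem_tsupport hx
        rw [this]
        simp only [norm_zero, zero_mul]
        refine mul_nonneg (Set.indicator_nonneg (fun _ _ => by positivity) _)
          (Set.indicator_nonneg (fun _ _ => norm_nonneg _) _)
  have hswap := integral_integral_swap hFi
  have h1 : ∫ x, ps x * HF mu h r x ∂mu = ∫ x, ∫ y, ps x * (h y * r (y - x)) ∂mu ∂mu := by
    refine integral_congr_ae (Filter.Eventually.of_forall fun x => ?_)
    simp only [HF]
    rw [← integral_const_mul]
  rw [h1, hswap]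
  refine integral_congr_ae (Filter.Eventually.of_forall fun y => ?_)
  simp only
  rw [← integral_const_mul]
  refine integral_congr_ae (Filter.Eventually.of_forall fun x => ?_)
  simp only
  ring

/-- the two convolutions commute -/
private theorem HF_comm (mu : Measure E) [mu.IsAddHaarMeasure] (h : E → ℂ)
    (hloc : LocallyIntegrable h mu) (s r : E → ℂ) (hss : Continuous s)
    (hsc : HasCompactSupport s) (hrs : Continuous r) (hrc : HasCompactSupport r) (x : E) :
    HF mu (HF mu h r) s x = HF mu (HF mu h s) r x := by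
  have hcomp : ∀ p : E → ℂ, HasCompactSupport p → HasCompactSupport fun y => p (y - x) :=
    fun p hp => hp.comp_homeomorph (Homeomorph.subRight x)
  have h1 : ∀ p q : E → ℂ, Continuous p → HasCompactSupport p → Continuous q →
      HasCompactSupport q → HF mu (HF mu h q) p x =
        ∫ w, h w * ∫ y, p (y - x) * q (w - y) ∂mu ∂mu := by
    intro p q hp hpc hq hqc
    have h2 := HF_fub mu h hloc (fun y => p (y - x)) q
      (hp.comp (continuous_id.sub continuous_const)) (hcomp p hpc) hq hqc
    rw [← h2]
    unfold HF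
    refine integral_congr_ae (Filter.Eventually.of_forall fun y => ?_)
    simp only
    ring
  rw [h1 s r hss hsc hrs hrc, h1 r s hrs hrc hss hsc]
  refine integral_congr_ae (Filter.Eventually.of_forall fun w => ?_)
  simp only
  congr 1
  rw [← integral_sub_left_eq_self (fun y => s (y - x) * r (w - y)) mu (w + x)]
  refine integral_congr_ae (Filter.Eventually.of_forall fun y => ?_)
  simp only
  have e1 : w + x - y - x = w - y := by abel
  have e2 : w - (w + x - y) = y - x := by abel
  rw [e1, e2]
  ring

/-- the local statement on a ball -/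
private theorem RWeyl_ball (mu : Measure E) [mu.IsAddHaarMeasure] {ι : Type} [Fintype ι]
    (b : Module.Basis ι ℂ E) (h : E → ℂ) (hloc : LocallyIntegrable h mu) (x0 : E) {R : ℝ}
    (hR : 0 < R) (hol : ∀ ps : E → ℂ, SCW (Metric.ball x0 (2 * R)) ps →
      ∀ j, ∫ x, h x * dzb (b j) ps x ∂mu = 0) :
    ∃ H : E → ℂ, DifferentiableOn ℂ H (Metric.ball x0 (R / 2)) ∧
      ∀ᵐ x ∂mu, x ∈ Metric.ball x0 (R / 2) → h x = H x := by
  have : ProperSpace E := FiniteDimensional.proper_rclike ℂ E
  obtain ⟨r', hrs', hrc', hr0', hr1', hrr', hrt'⟩ := exists_bumps mu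
  obtain ⟨N, hN⟩ : ∃ N, ∀ n ≥ N, Function.support (r' n) ⊆ Metric.closedBall 0 (R / 2) :=
    Filter.eventually_atTop.1 ((Filter.tendsto_smallSets_iff.1 hrt') _
      (Metric.closedBall_mem_nhds 0 (by linarith)))
  set r : ℕ → E → ℝ := fun n => r' (n + N) with hrdef
  have hrs : ∀ n, ContDiff ℝ ∞ (r n) := fun n => hrs' _
  have hrc : ∀ n, HasCompactSupport (r n) := fun n => hrc' _
  have hr0 : ∀ n x, 0 ≤ r n x := fun n => hr0' _
  have hr1 : ∀ n, ∫ x, r n x ∂mu = 1 := fun n => hr1' _
  have hrr : ∀ n (t : ℝ) x, r n (rot t • x) = r n x := fun n => hrr' _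
  have hrt : Filter.Tendsto (fun n => Function.support (r n)) Filter.atTop
      (nhds (0 : E)).smallSets := hrt'.comp (Filter.tendsto_add_atTop_nat N)
  have hrsup : ∀ n, Function.support (r n) ⊆ Metric.closedBall 0 (R / 2) := fun n =>
    hN _ (Nat.le_add_left N n)
  set rc : ℕ → E → ℂ := fun n x => (r n x : ℂ) with hrcdef
  have hrcs : ∀ n, ContDiff ℝ ∞ (rc n) := fun n => Complex.ofRealCLM.contDiff.comp (hrs n)
  have hrcc : ∀ n, HasCompactSupport (rc n) := fun n =>
    (hrc n).comp_left (g := fun x : ℝ => (x : ℂ)) (by simp)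
  have hrcr : ∀ n (t : ℝ) x, rc n (rot t • x) = rc n x := fun n t x => by
    simp only [hrcdef, hrr]
  have hrcsup : ∀ n, Function.support (rc n) ⊆ Metric.closedBall 0 (R / 2) := by
    intro n x hx
    refine hrsup n fun h0 => hx ?_
    simp only [hrcdef, h0, Complex.ofReal_zero]
  have hrc1 : ∀ n, ∫ x, rc n x ∂mu = 1 := fun n => by
    simp only [hrcdef]
    rw [integral_complex_ofReal, hr1]
    simp
  have hHol : ∀ n, ∀ x ∈ Metric.ball x0 R, DifferentiableAt ℂ (HF mu h (rc n)) x := by
    intro n x hx
    refine RWeyl_hol mu b h hloc hol (rc n) (hrcs n) (hrcc n) x ?_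
    have h1 : tsupport (fun t => rc n (t - x)) ⊆ Metric.closedBall x (R / 2) := by
      refine closure_minimal ?_ Metric.isClosed_closedBall
      intro t ht
      have := hrcsup n (show t - x ∈ Function.support (rc n) from ht)
      rw [mem_closedBall_zero_iff] at this
      rwa [Metric.mem_closedBall, dist_eq_norm]
    refine h1.trans fun t ht => ?_
    rw [Metric.mem_closedBall] at ht
    rw [Metric.mem_ball] at hx ⊢
    have := dist_triangle t x x0
    linarith
  have hsame : ∀ n, ∀ x ∈ Metric.ball x0 (R / 2), HF mu h (rc n) x = HF mu h (rc 0) x := by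
    intro n x hx
    have hb : Metric.closedBall x (R / 2) ⊆ Metric.ball x0 R := by
      intro t ht
      rw [Metric.mem_closedBall] at ht
      rw [Metric.mem_ball] at hx ⊢
      have := dist_triangle t x x0
      linarith
    have h1 := RWeyl_mean mu (HF mu h (rc n))
      (RWeyl_cont mu h hloc (rc n) (hrcs n).continuous (hrcc n)) x hb (hHol n) (rc 0)
      (hrcs 0).continuous (hrcc 0) (hrcsup 0) (hrcr 0)
    have h2 := RWeyl_mean mu (HF mu h (rc 0))
      (RWeyl_cont mu h hloc (rc 0) (hrcs 0).continuous (hrcc 0)) x hb (hHol 0) (rc n)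
      (hrcs n).continuous (hrcc n) (hrcsup n) (hrcr n)
    rw [hrc1, mul_one] at h1 h2
    rw [← h1, ← h2]
    exact HF_comm mu h hloc (rc 0) (rc n) (hrcs 0).continuous (hrcc 0) (hrcs n).continuous
      (hrcc n) x
  set H := HF mu h (rc 0) with hH
  have hHc : Continuous H := RWeyl_cont mu h hloc (rc 0) (hrcs 0).continuous (hrcc 0)
  refine ⟨H, fun x hx => (hHol 0 x (Metric.ball_subset_ball (by linarith) hx)).differentiableWithinAt,
    ?_⟩
  have hint : ∀ ps : E → ℝ, ContDiff ℝ ∞ ps → HasCompactSupport ps →
      Integrable (fun x => ps x • h x) mu := fun ps h1 h2 =>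
    hloc.integrable_smul_left_of_hasCompactSupport h1.continuous h2
  have key : ∀ ps : E → ℝ, ContDiff ℝ ∞ ps → HasCompactSupport ps →
      tsupport ps ⊆ Metric.ball x0 (R / 2) → ∫ x, ps x • h x ∂mu = ∫ x, ps x • H x ∂mu := by
    intro ps hps hpc hpU
    set A := tsupport ps with hA
    have hAc : IsCompact A := hpc
    set K := Metric.cthickening 1 A with hK
    have hKc : IsCompact K := hAc.cthickening
    obtain ⟨M, hM⟩ : ∃ M, ∀ x, ‖ps x‖ ≤ M := hps.continuous.bounded_above_of_compact_support hpc
    have hM0 : 0 ≤ M := (norm_nonneg _).trans (hM 0)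
    -- pointwise convergence
    have hconv : ∀ y, Filter.Tendsto (fun n => ∫ t, r n t * ps (y - t) ∂mu) Filter.atTop
        (nhds (ps y)) := by
      intro y
      have h1 := convolution_tendsto_right (μ := mu) (φ := r) (g := fun _ => ps) (k := fun _ => y)
        (x₀ := y) (z₀ := ps y) (l := Filter.atTop)
        (Filter.Eventually.of_forall hr0) (Filter.Eventually.of_forall hr1) hrt
        (Filter.Eventually.of_forall fun _ => hps.continuous.aestronglyMeasurable)
        ((hps.continuous.tendsto y).comp Filter.tendsto_snd) tendsto_const_nhds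
      simpa [MeasureTheory.convolution, smul_eq_mul] using h1
    -- value of the approximations
    have hval : ∀ n, ∫ y, (∫ t, r n t * ps (y - t) ∂mu) • h y ∂mu = ∫ x, ps x • H x ∂mu := by
      intro n
      have h1 := HF_fub mu h hloc (fun x => (ps x : ℂ)) (rc n)
        (Complex.continuous_ofReal.comp hps.continuous)
        (hpc.comp_left (g := fun x : ℝ => (x : ℂ)) (by simp)) (hrcs n).continuous (hrcc n)
      have h2 : ∫ x, ps x • H x ∂mu = ∫ x, (ps x : ℂ) * HF mu h (rc n) x ∂mu := by
        refine integral_congr_ae (Filter.Eventually.of_forall fun x => ?_)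
        simp only [Complex.real_smul]
        by_cases hx : x ∈ tsupport ps
        · rw [hsame n x (hpU hx)]
        · rw [image_eq_zero_of_notMem_tsupport hx]
          simp
      rw [h2, h1]
      refine integral_congr_ae (Filter.Eventually.of_forall fun y => ?_)
      change (∫ t, r n t * ps (y - t) ∂mu) • h y = h y * ∫ x, (ps x : ℂ) * rc n (y - x) ∂mu
      have h6 : ∫ t, r n t * ps (y - t) ∂mu = ∫ x, ps x * r n (y - x) ∂mu := by
        have h7 := integral_sub_left_eq_self (fun x => r n x * ps (y - x)) mu y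
        rw [← h7]
        refine integral_congr_ae (Filter.Eventually.of_forall fun x => ?_)
        simp only [sub_sub_cancel]
        ring
      have h8 : ∫ x, (ps x : ℂ) * rc n (y - x) ∂mu =
          ((∫ x, ps x * r n (y - x) ∂mu : ℝ) : ℂ) := by
        rw [← integral_complex_ofReal]
        refine integral_congr_ae (Filter.Eventually.of_forall fun x => ?_)
        simp only [hrcdef]
        push_cast
        ring
      rw [h8, h6, Complex.real_smul, mul_comm]
    -- dominated convergence
    have hlim : Filter.Tendsto (fun n => ∫ y, (∫ t, r n t * ps (y - t) ∂mu) • h y ∂mu)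
        Filter.atTop (nhds (∫ y, ps y • h y ∂mu)) := by
      have hev : ∀ᶠ n in Filter.atTop, Function.support (r n) ⊆ Metric.closedBall 0 1 :=
        (Filter.tendsto_smallSets_iff.1 hrt) _ (Metric.closedBall_mem_nhds 0 one_pos)
      refine tendsto_integral_filter_of_dominated_convergence
        (K.indicator fun y => M * ‖h y‖) ?_ ?_ ?_ ?_
      · refine Filter.Eventually.of_forall fun n => ?_
        have h9 : Continuous fun y => ∫ t, r n t * ps (y - t) ∂mu := by
          have h10 := (hrc n).continuous_convolution_left (ContinuousLinearMap.mul ℝ ℝ)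
            (hrs n).continuous (hps.continuous.locallyIntegrable (μ := mu))
          exact h10
        exact h9.aestronglyMeasurable.smul hloc.aestronglyMeasurable
      · filter_upwards [hev] with n hn
        refine Filter.Eventually.of_forall fun y => ?_
        have hb : ‖∫ t, r n t * ps (y - t) ∂mu‖ ≤ M := by
          have h11 : ‖∫ t, r n t * ps (y - t) ∂mu‖ ≤ ∫ t, r n t * M ∂mu := by
            refine norm_integral_le_of_norm_le ?_ (Filter.Eventually.of_forall fun t => ?_)
            · exact ((hrs n).continuous.integrable_of_hasCompactSupport (hrc n)).mul_const M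
            · rw [norm_mul, Real.norm_of_nonneg (hr0 n t)]
              exact mul_le_mul_of_nonneg_left (hM _) (hr0 n t)
          rw [integral_mul_const, hr1, one_mul] at h11
          exact h11
        by_cases hy : y ∈ K
        · rw [Set.indicator_of_mem hy, norm_smul]
          exact mul_le_mul_of_nonneg_right hb (norm_nonneg _)
        · have h12 : ∀ t, r n t * ps (y - t) = 0 := by
            intro t
            by_cases ht : r n t = 0
            · rw [ht, zero_mul]
            · have ht' : ‖t‖ ≤ 1 := by simpa using hn ht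
              have : y - t ∉ A := by
                intro h13
                apply hy
                refine Metric.mem_cthickening_of_dist_le y (y - t) 1 A h13 ?_
                simpa [dist_eq_norm] using ht'
              rw [image_eq_zero_of_notMem_tsupport this, mul_zero]
          simp only [h12, integral_zero, zero_smul, norm_zero]
          exact Set.indicator_nonneg (fun _ _ => by positivity) _
      · rw [integrable_indicator_iff hKc.measurableSet]
        exact (hloc.integrableOn_isCompact hKc).norm.const_mul M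
      · refine Filter.Eventually.of_forall fun y => ?_
        exact (hconv y).smul_const (h y)
    have hlim0 : Filter.Tendsto (fun n : ℕ => ∫ y, (∫ t, r n t * ps (y - t) ∂mu) • h y ∂mu)
        Filter.atTop (nhds (∫ x, ps x • H x ∂mu)) := by
      simp only [hval]; exact tendsto_const_nhds
    exact tendsto_nhds_unique hlim hlim0
  -- conclusion
  have hHl : LocallyIntegrable H mu := hHc.locallyIntegrable
  have hfin : ∀ᵐ x ∂mu, x ∈ Metric.ball x0 (R / 2) → h x - H x = 0 := by
    refine Metric.isOpen_ball.ae_eq_zero_of_integral_contDiff_smul_eq_zero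
      ((hloc.sub hHl).locallyIntegrableOn _) fun ps hps hpc hpU => ?_
    have h1 := key ps hps hpc hpU
    have hi2 : Integrable (fun x => ps x • H x) mu :=
      hHl.integrable_smul_left_of_hasCompactSupport hps.continuous hpc
    have h3 : ∫ x, ps x • (h x - H x) ∂mu = ∫ x, ps x • h x ∂mu - ∫ x, ps x • H x ∂mu := by
      rw [← integral_sub (hint ps hps hpc) hi2]
      refine integral_congr_ae (Filter.Eventually.of_forall fun x => ?_)
      simp only [smul_sub]
    rw [h1, sub_self] at h3
    exact h3
  filter_upwards [hfin] with x hx hxU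
  exact sub_eq_zero.1 (hx hxU)


end Local

theorem weyl_local {E : Type} [NormedAddCommGroup E] [NormedSpace ℂ E] [FiniteDimensional ℂ E]
    [MeasurableSpace E] [BorelSpace E] (μ : Measure E) [μ.IsAddHaarMeasure] {W : Set E}
    (hW : IsOpen W) {ι : Type} [Fintype ι] (b : Module.Basis ι ℂ E) (u : E → ℂ)
    (hu : LocallyIntegrableOn u W μ)
    (hol : ∀ ψ : E → ℂ, SCW W ψ → ∀ j, ∫ x in W, u x * dzb (b j) ψ x ∂μ = 0) :
    ∃ F : E → ℂ, DifferentiableOn ℂ F W ∧ u =ᵐ[μ.restrict W] F := by
  classical
  have : ProperSpace E := FiniteDimensional.proper_rclike ℂ E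
  -- local solutions
  have hloc : ∀ x : E, ∃ ρ : ℝ, ∃ H : E → ℂ, x ∈ W → 0 < ρ ∧ Metric.ball x ρ ⊆ W ∧
      DifferentiableOn ℂ H (Metric.ball x ρ) ∧
      ∀ᵐ y ∂μ, y ∈ Metric.ball x ρ → u y = H y := by
    intro x0
    by_cases hx0 : x0 ∈ W
    swap
    · exact ⟨0, 0, fun h => absurd h hx0⟩
    obtain ⟨r, hr, hrW⟩ := Metric.nhds_basis_closedBall.mem_iff.1 (hW.mem_nhds hx0)
    set K := Metric.closedBall x0 r with hK
    have hKc : IsCompact K := isCompact_closedBall x0 r
    set h : E → ℂ := K.indicator u with hh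
    have hint : Integrable h μ := by
      rw [hh, integrable_indicator_iff hKc.measurableSet]
      exact hu.integrableOn_compact_subset hrW hKc
    have hdzb0 : ∀ (ps : E → ℂ) (v x : E), x ∉ tsupport ps → dzb v ps x = 0 := by
      intro ps v x hx
      have h1 : fderiv ℝ ps x = 0 := by
        by_contra h2
        exact hx (support_fderiv_subset ℝ h2)
      simp [dzb, h1]
    have hol' : ∀ ps : E → ℂ, SCW (Metric.ball x0 (2 * (r / 2))) ps →
        ∀ j, ∫ x, h x * dzb (b j) ps x ∂μ = 0 := by
      intro ps hps j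
      have hpsK : tsupport ps ⊆ K := by
        refine hps.2.2.trans ?_
        rw [mul_div_cancel₀ _ two_ne_zero]
        exact Metric.ball_subset_closedBall
      rw [← hol ps ⟨hps.1, hps.2.1, hpsK.trans hrW⟩ j, ← integral_indicator hW.measurableSet]
      refine integral_congr_ae (Filter.Eventually.of_forall fun x => ?_)
      by_cases hx : x ∈ tsupport ps
      · have h1 := hpsK hx
        simp only [hh]
        rw [Set.indicator_of_mem h1, Set.indicator_of_mem (hrW h1)]
      · have h1 := hdzb0 ps (b j) x hx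
        simp only [h1, mul_zero]
        by_cases hxW : x ∈ W
        · rw [Set.indicator_of_mem hxW, h1, mul_zero]
        · rw [Set.indicator_of_notMem hxW]
    obtain ⟨H, hH1, hH2⟩ := RWeyl_ball μ b h hint.locallyIntegrable x0 (R := r / 2)
      (by linarith) hol'
    have hsub : Metric.ball x0 (r / 2 / 2) ⊆ K :=
      (Metric.ball_subset_ball (by linarith)).trans Metric.ball_subset_closedBall
    refine ⟨r / 2 / 2, H, fun _ => ⟨by linarith, hsub.trans hrW, hH1, ?_⟩⟩
    filter_upwards [hH2] with y hy hyb
    rw [← hy hyb, hh, Set.indicator_of_mem (hsub hyb)]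
  choose ρ H hρ using hloc
  have hagree : ∀ x ∈ W, ∀ y ∈ Metric.ball x (ρ x), H y y = H x y := by
    intro x hx y hy
    obtain ⟨h1, h2, h3, h4⟩ := hρ x hx
    obtain ⟨h1', h2', h3', h4'⟩ := hρ y (h2 hy)
    set V := Metric.ball x (ρ x) ∩ Metric.ball y (ρ y) with hV
    have hVo : IsOpen V := Metric.isOpen_ball.inter Metric.isOpen_ball
    have h5 : H y =ᵐ[μ.restrict V] H x := by
      rw [Filter.EventuallyEq, ae_restrict_iff' hVo.measurableSet]
      filter_upwards [h4, h4'] with z hz hz' hzV
      rw [← hz hzV.1, ← hz' hzV.2]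
    exact Measure.eqOn_open_of_ae_eq h5 hVo (h3'.continuousOn.mono Set.inter_subset_right)
      (h3.continuousOn.mono Set.inter_subset_left) ⟨hy, Metric.mem_ball_self h1'⟩
  refine ⟨fun y => H y y, ?_, ?_⟩
  · intro x hx
    obtain ⟨h1, h2, h3, h4⟩ := hρ x hx
    have h5 : DifferentiableAt ℂ (H x) x :=
      h3.differentiableAt (Metric.ball_mem_nhds x h1)
    have h6 : (fun y => H y y) =ᶠ[nhds x] H x := by
      filter_upwards [Metric.ball_mem_nhds x h1] with y hy using hagree x hx y hy
    exact (h5.congr_of_eventuallyEq h6).differentiableWithinAt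
  · rw [Filter.EventuallyEq, ae_restrict_iff' hW.measurableSet, ae_iff]
    refine measure_null_of_locally_null _ fun x hx => ?_
    rw [Set.mem_ofPred_eq, Classical.not_imp] at hx
    obtain ⟨h1, h2, h3, h4⟩ := hρ x hx.1
    rw [ae_iff] at h4
    refine ⟨Metric.ball x (ρ x) ∩ {y | ¬(y ∈ W → u y = H y y)}, ?_, ?_⟩
    · exact Filter.inter_mem (mem_nhdsWithin_of_mem_nhds (Metric.ball_mem_nhds x h1))
        self_mem_nhdsWithin
    · refine measure_mono_null ?_ h4
      rintro y ⟨hy1, hy2⟩
      rw [Set.mem_ofPred_eq, Classical.not_imp] at hy2 ⊢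
      refine ⟨hy1, ?_⟩
      rw [← hagree x hx.1 y hy1]
      exact hy2.2

end Pool.Agent.Lib_KF
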