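import Pool.Agent.Lib_KF.RHmet
import Pool.Agent.Lib_KF.RBound
import Pool.Agent.Lib_KF.RWeyl
import Pool.Agent.Lib_KF.HMain

/-! RS10: the holomorphic extension `F` of the section `1`. -/

open MeasureTheory Complex
open scoped ENNReal NNReal ContDiff ComplexConjugate

namespace Pool.Agent.Lib_KF

open Pool.Agent.Lib_GD GPn

variable {R : Type} [CommRing R] [Algebra ℂ R] {𝒜 : ℕ → Submodule ℂ R} [GradedAlgebra 𝒜]
  {n r d k M B : ℕ} {x : Fin (n + 1) → R} {G : R}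

/-- The tuple of the function `cut (|s|²/ε²) · 1`. -/
noncomputable def chiT (k : ℕ) (ε : ℝ) (s : ℂ) (a : Fin (k + 1)) : ℂ :=
  if a = 0 then (cut (‖s‖ ^ 2 / ε ^ 2) : ℂ) else 0

/-! ### the cutoff -/

private theorem rsol_cut_smooth : ContDiff ℝ ∞ cut := by
  unfold cut
  exact Real.smoothTransition.contDiff.comp ((contDiff_const.sub contDiff_id).mul contDiff_const)

private theorem rsol_cut_zero {t : ℝ} (ht : 1 ≤ t) : cut t = 0 := by
  unfold cut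
  exact Real.smoothTransition.zero_of_nonpos (by nlinarith)

private theorem rsol_deriv_zero {t : ℝ} (ht : 1 < t) : deriv cut t = 0 := by
  have h : cut =ᶠ[nhds t] fun _ => 0 := by
    filter_upwards [lt_mem_nhds ht] with y hy
    exact rsol_cut_zero hy.le
  rw [h.deriv_eq]
  simp

private theorem rsol_deriv_bound :
    ∃ C0 : ℝ, 1 ≤ C0 ∧ ∀ t, 0 ≤ t → t ≤ 1 → |deriv cut t| ≤ C0 := by
  have hc : Continuous (deriv cut) := rsol_cut_smooth.continuous_deriv (by simp)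
  obtain ⟨C, hC⟩ := (isCompact_Icc (a := (0 : ℝ)) (b := 1)).exists_bound_of_continuousOn
    hc.continuousOn
  exact ⟨max C 1, le_max_right _ _, fun t h0 h1 => (hC t ⟨h0, h1⟩).trans (le_max_left _ _)⟩

private theorem rsol_chi_smooth (k : ℕ) (ε : ℝ) (a : Fin (k + 1)) :
    ContDiff ℝ ∞ (fun s : ℂ => chiT k ε s a) := by
  unfold chiT
  by_cases ha : a = 0
  · simp only [ha, if_true]
    exact ofRealCLM.contDiff.comp (rsol_cut_smooth.comp ((contDiff_norm_sq ℝ).div_const _))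
  · simp only [ha, if_false]
    exact contDiff_const

/-- `∂/∂s̄` of the cutoff -/
private theorem rsol_dzb_chi (k : ℕ) (ε : ℝ) (s : ℂ) :
    dzb (1 : ℂ) (fun s => chiT k ε s 0) s =
      ((deriv cut (‖s‖ ^ 2 / ε ^ 2) / ε ^ 2 : ℝ) : ℂ) * s := by
  have h1 : HasFDerivAt (fun s : ℂ => ‖s‖ ^ 2) (2 • innerSL ℝ s) s :=
    (hasStrictFDerivAt_norm_sq s).hasFDerivAt
  have h2 : HasDerivAt cut (deriv cut (‖s‖ ^ 2 / ε ^ 2)) (‖s‖ ^ 2 / ε ^ 2) :=
    (rsol_cut_smooth.contDiffAt.differentiableAt (by simp)).hasDerivAt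
  have h3 : HasFDerivAt (fun s : ℂ => ‖s‖ ^ 2 / ε ^ 2) ((ε ^ 2)⁻¹ • (2 • innerSL ℝ s)) s := by
    have := h1.const_smul ((ε ^ 2)⁻¹)
    refine this.congr_of_eventuallyEq (Filter.Eventually.of_forall fun z => ?_)
    simp [div_eq_inv_mul]
  have h4 := h2.comp_hasFDerivAt s h3
  have h5 := (ofRealCLM.hasFDerivAt (x := cut (‖s‖ ^ 2 / ε ^ 2))).comp s h4
  have h6 : HasFDerivAt (fun s => chiT k ε s 0) (ofRealCLM.comp
    (deriv cut (‖s‖ ^ 2 / ε ^ 2) • ((ε ^ 2)⁻¹ • (2 • innerSL ℝ s)))) s := h5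
  have h7 : ∀ v : ℂ, fderiv ℝ (fun s => chiT k ε s 0) s v =
      ((deriv cut (‖s‖ ^ 2 / ε ^ 2) / ε ^ 2 * (2 * (s.re * v.re + s.im * v.im)) : ℝ) : ℂ) := by
    intro v
    rw [h6.fderiv]
    simp only [ContinuousLinearMap.comp_apply, ofRealCLM_apply, smul_apply, smul_eq_mul,
      innerSL_apply_apply, Complex.inner, mul_re, conj_re, conj_im, nsmul_eq_mul]
    congr 1
    push_cast
    ring
  unfold dzb
  rw [h7, h7]
  generalize deriv cut (‖s‖ ^ 2 / ε ^ 2) / ε ^ 2 = q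
  simp only [smul_eq_mul, mul_one, one_re, one_im, I_re, I_im, mul_zero, add_zero, zero_add]
  conv_rhs => rw [← re_add_im s]
  push_cast
  ring

private theorem rsol_dzb_chi_ne (k : ℕ) (ε : ℝ) (a : Fin (k + 1)) (ha : a ≠ 0) (s : ℂ) :
    dzb (1 : ℂ) (fun s => chiT k ε s a) s = 0 := by
  simp [chiT, ha, dzb]

section
variable {F : Type} [NormedAddCommGroup F] [NormedSpace ℂ F]

private theorem rsol_dzb_snd (g : ℂ → ℂ) (p v : F × ℂ) (hg : DifferentiableAt ℝ g p.2) :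
    dzb v (fun p : F × ℂ => g p.2) p = dzb v.2 g p.2 := by
  have h : HasFDerivAt (fun p : F × ℂ => g p.2)
      ((fderiv ℝ g p.2).comp (ContinuousLinearMap.snd ℝ F ℂ)) p :=
    hg.hasFDerivAt.comp p (hasFDerivAt_snd (𝕜 := ℝ) (p := p))
  unfold dzb
  rw [h.fderiv]
  simp

end

private theorem rsol_bE_inr (n : ℕ) : (bE n (Sum.inr ())).2 = 1 := by
  simp [bE]

private theorem rsol_bE_inl (n : ℕ) (j : Fin (n + 1)) : (bE n (Sum.inl j)).2 = 0 := by
  simp [bE]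

private theorem rsol_dzb_zero (g : ℂ → ℂ) (s : ℂ) : dzb (0 : ℂ) g s = 0 := by
  simp [dzb]

/-- the right hand side -/
private noncomputable def rsol_v (k : ℕ) (ε : ℝ) (s : ℂ) (a : Fin (k + 1)) : ℂ :=
  dzb (1 : ℂ) (fun s => chiT k ε s a) s

private theorem rsol_v_smooth (k : ℕ) (ε : ℝ) (a : Fin (k + 1)) :
    ContDiff ℝ ∞ (fun s : ℂ => rsol_v k ε s a) := by
  have h : ContDiff ℝ ∞ (fderiv ℝ (fun s => chiT k ε s a)) :=
    (rsol_chi_smooth k ε a).fderiv_right (m := ∞) (by simp)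
  have h1 : ∀ v : ℂ, ContDiff ℝ ∞ (fun s => fderiv ℝ (fun s => chiT k ε s a) s v) :=
    fun v => h.clm_apply contDiff_const
  unfold rsol_v dzb
  exact ((h1 _).add (contDiff_const.mul (h1 _))).div_const 2

private theorem rsol_v_norm (k : ℕ) {ε : ℝ} (hε : 0 < ε) {C0 : ℝ}
    (hC : ∀ t, 0 ≤ t → t ≤ 1 → |deriv cut t| ≤ C0) (s : ℂ) (hs : ‖s‖ ≤ ε) :
    ‖rsol_v k ε s 0‖ ^ 2 ≤ C0 ^ 2 * ‖s‖ ^ 2 / ε ^ 4 := by
  unfold rsol_v
  rw [rsol_dzb_chi, norm_mul, norm_real, Real.norm_eq_abs, abs_div, abs_of_pos (by positivity : 0 < ε ^ 2)]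
  have h1 : ‖s‖ ^ 2 / ε ^ 2 ≤ 1 := by
    rw [div_le_one (by positivity)]
    exact pow_le_pow_left₀ (norm_nonneg _) hs 2
  have h2 := hC (‖s‖ ^ 2 / ε ^ 2) (by positivity) h1
  have h3 : |deriv cut (‖s‖ ^ 2 / ε ^ 2)| ^ 2 ≤ C0 ^ 2 := pow_le_pow_left₀ (abs_nonneg _) h2 2
  have h4 : (|deriv cut (‖s‖ ^ 2 / ε ^ 2)| / ε ^ 2 * ‖s‖) ^ 2 =
    |deriv cut (‖s‖ ^ 2 / ε ^ 2)| ^ 2 * (‖s‖ ^ 2 / ε ^ 4) := by
    field_simp
  rw [h4, mul_div_assoc]
  exact mul_le_mul_of_nonneg_right h3 (by positivity)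

private theorem rsol_v_zero (k : ℕ) {ε : ℝ} (hε : 0 < ε) (s : ℂ) (hs : ε < ‖s‖)
    (a : Fin (k + 1)) : rsol_v k ε s a = 0 := by
  unfold rsol_v
  by_cases ha : a = 0
  · subst ha
    have h1 : 1 < ‖s‖ ^ 2 / ε ^ 2 := by
      rw [one_lt_div (by positivity)]
      exact pow_lt_pow_left₀ hs hε.le (by norm_num)
    rw [rsol_dzb_chi, rsol_deriv_zero h1]
    simp
  · exact rsol_dzb_chi_ne k ε a ha s

/-! ### local integrability, integration by parts -/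

section loc
variable {E : Type} [NormedAddCommGroup E] [NormedSpace ℂ E] {W : Set E} {ι : Type} [Fintype ι]
  {b : Module.Basis ι ℂ E} {D : ℕ}

private theorem rsol_nsq_cont (Mt : HMet W b D) :
    ContinuousOn (fun q : E × (Fin D → ℂ) => Mt.nsq q.1 q.2) (W ×ˢ Set.univ) := by
  unfold HMet.nsq ip
  refine Complex.continuous_re.comp_continuousOn ?_
  refine continuousOn_finsetSum _ fun a _ => continuousOn_finsetSum _ fun c _ => ?_
  have h1 : ContinuousOn (fun q : E × (Fin D → ℂ) => Mt.H q.1 a c) (W ×ˢ Set.univ) :=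
    (Mt.smH a c).continuousOn.comp continuousOn_fst (fun q hq => hq.1)
  exact (((Complex.continuous_conj.comp
    ((continuous_apply a).comp continuous_snd)).continuousOn).mul h1).mul
    ((continuous_apply c).comp continuous_snd).continuousOn

private theorem rsol_nsq_smul (Mt : HMet W b D) (x : E) (t : ℝ) (u : Fin D → ℂ) :
    Mt.nsq x (fun a => (t : ℂ) * u a) = t ^ 2 * Mt.nsq x u := by
  unfold HMet.nsq
  have h : ip (Mt.H x) (fun a => (t : ℂ) * u a) (fun a => (t : ℂ) * u a) =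
      ((t ^ 2 : ℝ) : ℂ) * ip (Mt.H x) u u := by
    simp only [ip, Finset.mul_sum, map_mul, conj_ofReal]
    refine Finset.sum_congr rfl fun a _ => Finset.sum_congr rfl fun c _ => ?_
    push_cast
    ring
  rw [h, re_ofReal_mul]

private theorem rsol_nsq_zero (Mt : HMet W b D) (x : E) (u : Fin D → ℂ) (hu : ∀ a, u a = 0) :
    Mt.nsq x u = 0 := by
  simp [HMet.nsq, ip, hu]

private theorem rsol_nsq_nonneg (Mt : HMet W b D) (x : E) (hx : x ∈ W) (u : Fin D → ℂ) :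
    0 ≤ Mt.nsq x u := by
  by_cases hu : u = 0
  · rw [rsol_nsq_zero Mt x u (fun a => by rw [hu]; rfl)]
  · exact (Mt.pos x hx u hu).le

private theorem rsol_nsq_lower (Mt : HMet W b D) {K : Set E} (hK : IsCompact K) (hKW : K ⊆ W)
    (hKn : K.Nonempty) (a₀ : Fin D) :
    ∃ m : ℝ, 0 < m ∧ ∀ x ∈ K, ∀ u : Fin D → ℂ, m * ‖u a₀‖ ^ 2 ≤ Mt.nsq x u := by
  have : Nonempty (Fin D) := ⟨a₀⟩
  have hs : (Metric.sphere (0 : Fin D → ℂ) 1).Nonempty :=
    (NormedSpace.sphere_nonempty (x := (0 : Fin D → ℂ)) (r := 1)).2 zero_le_one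
  have hc : IsCompact (K ×ˢ Metric.sphere (0 : Fin D → ℂ) 1) := hK.prod (isCompact_sphere _ _)
  obtain ⟨q, hq, hmin⟩ := hc.exists_isMinOn (hKn.prod hs)
    ((rsol_nsq_cont Mt).mono (Set.prod_mono hKW (Set.subset_univ _)))
  have hq0 : q.2 ≠ 0 := by
    intro h
    have := hq.2
    rw [h] at this
    simp at this
  refine ⟨Mt.nsq q.1 q.2, Mt.pos q.1 (hKW hq.1) q.2 hq0, fun x hx u => ?_⟩
  have hm0 : 0 ≤ Mt.nsq q.1 q.2 := rsol_nsq_nonneg Mt q.1 (hKW hq.1) q.2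
  by_cases hu : u = 0
  · rw [rsol_nsq_zero Mt x u (fun a => by rw [hu]; rfl), hu]
    simp
  · have hn : 0 < ‖u‖ := norm_pos_iff.2 hu
    have h1 : (fun a => ((‖u‖⁻¹ : ℝ) : ℂ) * u a) ∈ Metric.sphere (0 : Fin D → ℂ) 1 := by
      have e : (fun a => ((‖u‖⁻¹ : ℝ) : ℂ) * u a) = ((‖u‖⁻¹ : ℝ) : ℂ) • u := rfl
      rw [mem_sphere_zero_iff_norm, e, norm_smul, norm_real, Real.norm_eq_abs,
        abs_of_pos (inv_pos.2 hn), inv_mul_cancel₀ hn.ne']
    have h2 : Mt.nsq q.1 q.2 ≤ Mt.nsq x (fun a => ((‖u‖⁻¹ : ℝ) : ℂ) * u a) :=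
      hmin (a := (x, fun a => ((‖u‖⁻¹ : ℝ) : ℂ) * u a)) ⟨hx, h1⟩
    rw [rsol_nsq_smul] at h2
    have h3 : Mt.nsq q.1 q.2 * ‖u‖ ^ 2 ≤ Mt.nsq x u := by
      have := mul_le_mul_of_nonneg_right h2 (sq_nonneg ‖u‖)
      calc _ ≤ _ := this
        _ = Mt.nsq x u := by field_simp
    refine le_trans ?_ h3
    exact mul_le_mul_of_nonneg_left (pow_le_pow_left₀ (norm_nonneg _) (norm_le_pi_norm u a₀) 2) hm0

variable [FiniteDimensional ℂ E] [MeasurableSpace E] [BorelSpace E]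

private theorem rsol_loc (Mt : HMet W b D) (hW : IsOpen W) (μ : Measure E) [μ.IsAddHaarMeasure]
    (u : Fin D → E → ℂ) (hu : ∀ a, AEStronglyMeasurable (u a) (μ.restrict W))
    (hI : ∫⁻ x in W, ENNReal.ofReal (Mt.nsq x (fun a => u a x)) ∂μ ≠ ⊤) (a : Fin D) :
    LocallyIntegrableOn (u a) W μ := by
  have : FiniteDimensional ℝ E := FiniteDimensional.complexToReal E
  have : ProperSpace E := FiniteDimensional.proper ℝ E
  intro x₀ hx₀
  obtain ⟨r, hr, hrW⟩ := Metric.nhds_basis_closedBall.mem_iff.1 (hW.mem_nhds hx₀)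
  have hK : IsCompact (Metric.closedBall x₀ r) := isCompact_closedBall _ _
  obtain ⟨m, hm, hlow⟩ := rsol_nsq_lower Mt hK hrW ⟨x₀, Metric.mem_closedBall_self hr.le⟩ a
  refine ⟨Metric.closedBall x₀ r,
    mem_nhdsWithin_of_mem_nhds (Metric.closedBall_mem_nhds x₀ hr), ?_⟩
  refine ⟨(hu a).mono_measure (Measure.restrict_mono hrW le_rfl), ?_⟩
  have hKm : MeasurableSet (Metric.closedBall x₀ r) := Metric.isClosed_closedBall.measurableSet
  have h1 : ∀ x ∈ Metric.closedBall x₀ r, ‖u a x‖ₑ ≤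
      1 + ENNReal.ofReal m⁻¹ * ENNReal.ofReal (Mt.nsq x (fun a => u a x)) := by
    intro x hx
    have h2 := hlow x hx (fun a => u a x)
    have h3 : ‖u a x‖ ≤ 1 + m⁻¹ * Mt.nsq x (fun a => u a x) := by
      have h4 : ‖u a x‖ ^ 2 ≤ m⁻¹ * Mt.nsq x (fun a => u a x) := by
        rw [← div_eq_inv_mul, le_div_iff₀ hm, mul_comm]
        exact h2
      nlinarith [sq_nonneg (‖u a x‖ - 1), norm_nonneg (u a x)]
    rw [← ofReal_norm, ← ENNReal.ofReal_mul (by positivity), ← ENNReal.ofReal_one,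
      ← ENNReal.ofReal_add zero_le_one
        (mul_nonneg (by positivity) (rsol_nsq_nonneg Mt x (hrW hx) _))]
    exact ENNReal.ofReal_le_ofReal h3
  unfold HasFiniteIntegral
  calc ∫⁻ x in Metric.closedBall x₀ r, ‖u a x‖ₑ ∂μ ≤
      ∫⁻ x in Metric.closedBall x₀ r,
        (1 + ENNReal.ofReal m⁻¹ * ENNReal.ofReal (Mt.nsq x (fun a => u a x))) ∂μ :=
      setLIntegral_mono' hKm h1
    _ = μ (Metric.closedBall x₀ r) + ENNReal.ofReal m⁻¹ *
        ∫⁻ x in Metric.closedBall x₀ r, ENNReal.ofReal (Mt.nsq x (fun a => u a x)) ∂μ := by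
      rw [lintegral_add_left measurable_const, lintegral_const_mul' _ _ ENNReal.ofReal_ne_top]
      simp
    _ < ⊤ := by
      refine ENNReal.add_lt_top.2 ⟨hK.measure_lt_top, ?_⟩
      refine ENNReal.mul_lt_top ENNReal.ofReal_lt_top ?_
      exact lt_of_le_of_lt (lintegral_mono_set hrW) (lt_top_iff_ne_top.2 hI)

omit [FiniteDimensional ℂ E] [MeasurableSpace E] [BorelSpace E] in
private theorem rsol_fd {F : E → ℂ} (hF : ContDiff ℝ ∞ F) (v : E) :
    ContDiff ℝ ∞ (fun x => fderiv ℝ F x v) := by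
  have h : ContDiff ℝ ∞ (fderiv ℝ F) := hF.fderiv_right (m := ∞) (by simp)
  exact h.clm_apply contDiff_const

omit [FiniteDimensional ℂ E] [MeasurableSpace E] [BorelSpace E] in
private theorem rsol_dzb_smooth {F : E → ℂ} (hF : ContDiff ℝ ∞ F) (v : E) :
    ContDiff ℝ ∞ (dzb v F) := by
  have : dzb v F = fun x => (fderiv ℝ F x v + I * fderiv ℝ F x (I • v)) / 2 := rfl
  rw [this]
  exact ((rsol_fd hF v).add (contDiff_const.mul (rsol_fd hF (I • v)))).div_const 2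

omit [FiniteDimensional ℂ E] [MeasurableSpace E] [BorelSpace E] in
private theorem rsol_fd0 {F : E → ℂ} {x : E} (hx : x ∉ tsupport F) : fderiv ℝ F x = 0 :=
  fderiv_of_notMem_tsupport ℝ hx

omit [FiniteDimensional ℂ E] [MeasurableSpace E] [BorelSpace E] in
private theorem rsol_dzb0 {F : E → ℂ} {x : E} (hx : x ∉ tsupport F) (v : E) : dzb v F x = 0 := by
  simp [dzb, rsol_fd0 hx]

private theorem rsol_ibp0 (mu : Measure E) [mu.IsAddHaarMeasure] {u w : E → ℂ}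
    (hu : ContDiff ℝ ∞ u) (hw1 : ContDiff ℝ ∞ w) (hw2 : HasCompactSupport w) (a : E) :
    ∫ x, dzb a u x * w x ∂mu = - ∫ x, u x * dzb a w x ∂mu := by
  have : FiniteDimensional ℝ E := FiniteDimensional.complexToReal E
  have : ProperSpace E := FiniteDimensional.proper ℝ E
  have hda : ∀ {F : E → ℂ}, ContDiff ℝ ∞ F → ∀ x, DifferentiableAt ℝ F x :=
    fun hF x => hF.contDiffAt.differentiableAt (by simp)
  have hz0 : ∀ {x : E}, x ∉ tsupport w → w x = 0 := fun hx => image_eq_zero_of_notMem_tsupport hx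
  have hint : ∀ F : E → ℂ, Continuous F → (∀ x, x ∉ tsupport w → F x = 0) → Integrable F mu :=
    fun F hF h => hF.integrable_of_hasCompactSupport (HasCompactSupport.intro hw2 h)
  have key : ∀ v : E, ∫ x, u x * fderiv ℝ w x v ∂mu = - ∫ x, fderiv ℝ u x v * w x ∂mu := by
    intro v
    refine integral_mul_fderiv_eq_neg_fderiv_mul_of_integrable ?_ ?_ ?_ ?_ ?_
    · exact hint _ ((rsol_fd hu v).continuous.mul hw1.continuous) fun x hx => by simp [hz0 hx]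
    · exact hint _ (hu.continuous.mul (rsol_fd hw1 v).continuous) fun x hx => by simp [rsol_fd0 hx]
    · exact hint _ (hu.continuous.mul hw1.continuous) fun x hx => by simp [hz0 hx]
    · exact fun x _ => hda hu x
    · exact fun x _ => hda hw1 x
  have i1 : ∀ v : E, Integrable (fun x => fderiv ℝ u x v * w x) mu := fun v =>
    hint _ ((rsol_fd hu v).continuous.mul hw1.continuous) fun x hx => by simp [hz0 hx]
  have i2 : ∀ v : E, Integrable (fun x => u x * fderiv ℝ w x v) mu := fun v =>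
    hint _ (hu.continuous.mul (rsol_fd hw1 v).continuous) fun x hx => by simp [rsol_fd0 hx]
  have e1 : ∫ x, dzb a u x * w x ∂mu =
      (∫ x, fderiv ℝ u x a * w x ∂mu) * 2⁻¹ + (∫ x, fderiv ℝ u x (I • a) * w x ∂mu) * (I * 2⁻¹) := by
    rw [← integral_mul_const, ← integral_mul_const, ← integral_add ((i1 a).mul_const _)
      ((i1 (I • a)).mul_const _)]
    refine integral_congr_ae (Filter.Eventually.of_forall fun x => ?_)
    simp only [dzb]
    ring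
  have e2 : ∫ x, u x * dzb a w x ∂mu =
      (∫ x, u x * fderiv ℝ w x a ∂mu) * 2⁻¹ + (∫ x, u x * fderiv ℝ w x (I • a) ∂mu) * (I * 2⁻¹) := by
    rw [← integral_mul_const, ← integral_mul_const, ← integral_add ((i2 a).mul_const _)
      ((i2 (I • a)).mul_const _)]
    refine integral_congr_ae (Filter.Eventually.of_forall fun x => ?_)
    simp only [dzb]
    ring
  rw [e1, e2, key a, key (I • a)]
  ring

/-- integration by parts on `W` -/
private theorem rsol_ibp (μ : Measure E) [μ.IsAddHaarMeasure] {g ψ : E → ℂ}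
    (hg : ContDiff ℝ ∞ g) (hψ : SCW W ψ) (v : E) :
    ∫ x in W, g x * dzb v ψ x ∂μ = - ∫ x in W, dzb v g x * ψ x ∂μ := by
  have h1 : ∫ x in W, g x * dzb v ψ x ∂μ = ∫ x, g x * dzb v ψ x ∂μ := by
    refine setIntegral_eq_integral_of_forall_compl_eq_zero fun x hx => ?_
    rw [rsol_dzb0 (fun h => hx (hψ.2.2 h)), mul_zero]
  have h2 : ∫ x in W, dzb v g x * ψ x ∂μ = ∫ x, dzb v g x * ψ x ∂μ := by
    refine setIntegral_eq_integral_of_forall_compl_eq_zero fun x hx => ?_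
    rw [image_eq_zero_of_notMem_tsupport (fun h => hx (hψ.2.2 h)), mul_zero]
  rw [h1, h2, rsol_ibp0 μ hg hψ.1 hψ.2.1 v, neg_neg]

/-- a locally integrable function times a derivative of a test function is integrable -/
private theorem rsol_int_mul (μ : Measure E) [μ.IsAddHaarMeasure] {g ψ : E → ℂ}
    (hg : LocallyIntegrableOn g W μ) (hψ : SCW W ψ) (v : E) :
    Integrable (fun x => g x * dzb v ψ x) (μ.restrict W) := by
  have : FiniteDimensional ℝ E := FiniteDimensional.complexToReal E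
  have : ProperSpace E := FiniteDimensional.proper ℝ E
  have h1 : IntegrableOn g (tsupport ψ) μ :=
    hg.integrableOn_compact_subset hψ.2.2 hψ.2.1
  have h2 : IntegrableOn (fun x => g x * dzb v ψ x) (tsupport ψ) μ :=
    h1.mul_continuousOn (rsol_dzb_smooth hψ.1 v).continuous.continuousOn hψ.2.1
  have h3 : Integrable (fun x => g x * dzb v ψ x) μ := by
    rwa [integrableOn_iff_integrable_of_support_subset] at h2
    intro x hx
    by_contra h
    exact hx (by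
      change g x * dzb v ψ x = 0
      rw [rsol_dzb0 h, mul_zero])
  exact h3.integrableOn

end loc

/-! ### the estimate of the right hand side -/

omit [GradedAlgebra 𝒜] in
private theorem rsol_wph_nonneg (G : R) (r : ℕ) (e : Fin M → Fin (B + 1) → R) (c ε : ℝ)
    (ν : R →ₐ[ℂ] ℂ) (s : ℂ) : 0 ≤ wph G r e c ε ν s := by
  have hS : 0 ≤ Ssum e ν := by
    unfold Ssum
    positivity
  unfold wph
  refine mul_nonneg (Finset.prod_nonneg fun i _ => Real.rpow_nonneg ?_ _)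
    (Real.rpow_nonneg (norm_nonneg _) _)
  have : 0 ≤ ε ^ 2 * Ssum e ν := mul_nonneg (sq_nonneg _) hS
  positivity

private theorem rsol_ws_le {ε τ : ℝ} (hτ : 0 ≤ τ) (s : ℂ) : ws ε τ s ≤ (‖s‖ ^ 2)⁻¹ := by
  unfold ws
  have h1 : (1 + ‖s‖ ^ 2 / ε ^ 2) ^ (-τ) ≤ 1 :=
    Real.rpow_le_one_of_one_le_of_nonpos (by
      have : 0 ≤ ‖s‖ ^ 2 / ε ^ 2 := by positivity
      linarith) (by linarith)
  have h2 : 0 ≤ (‖s‖ ^ 2)⁻¹ := by positivity
  exact mul_le_of_le_one_right h2 h1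

/-- the curvature function -/
private noncomputable def rsol_κ (ε τ : ℝ) (s : ℂ) : ℝ :=
  τ * ε ^ 2 / (ε ^ 2 + ‖s‖ ^ 2) ^ 2

private theorem rsol_κ_pos {ε τ : ℝ} (hε : 0 < ε) (hτ : 0 < τ) (s : ℂ) : 0 < rsol_κ ε τ s := by
  unfold rsol_κ
  positivity

private theorem rsol_κ_cont {ε τ : ℝ} (hε : 0 < ε) : Continuous (rsol_κ ε τ) := by
  unfold rsol_κ
  refine continuous_const.div (by fun_prop) fun s => ?_
  positivity

private theorem rsol_κ_inv {ε τ : ℝ} (hε : 0 < ε) (hτ : 0 < τ) (s : ℂ) (hs : ‖s‖ ≤ ε) :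
    (rsol_κ ε τ s)⁻¹ ≤ 4 * ε ^ 2 / τ := by
  unfold rsol_κ
  rw [inv_div, div_le_div_iff₀ (by positivity) hτ]
  have h1 : ‖s‖ ^ 2 ≤ ε ^ 2 := pow_le_pow_left₀ (norm_nonneg _) hs 2
  have h2 : (ε ^ 2 + ‖s‖ ^ 2) ^ 2 ≤ (2 * ε ^ 2) ^ 2 :=
    pow_le_pow_left₀ (by positivity) (by linarith) 2
  calc (ε ^ 2 + ‖s‖ ^ 2) ^ 2 * τ ≤ (2 * ε ^ 2) ^ 2 * τ := mul_le_mul_of_nonneg_right h2 hτ.le
    _ = 4 * ε ^ 2 * (τ * ε ^ 2) := by ring

private theorem rsol_κ_ge {ε τ : ℝ} (hε : 0 < ε) (hτ : 0 < τ) (s : ℂ) (hs : ‖s‖ ≤ ε) :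
    τ / (4 * ε ^ 2) ≤ rsol_κ ε τ s := by
  have h1 := rsol_κ_inv hε hτ s hs
  have h2 := inv_anti₀ (inv_pos.2 (rsol_κ_pos hε hτ s)) h1
  rwa [inv_inv, inv_div] at h2

private theorem rsol_κ_le {ε τ : ℝ} (hε : 0 < ε) (hτ : 0 < τ) (s : ℂ) :
    rsol_κ ε τ s ≤ (ε ^ 2 / τ)⁻¹ := by
  unfold rsol_κ
  rw [inv_div, div_le_div_iff₀ (by positivity) (by positivity)]
  have h2 : (ε ^ 2) ^ 2 ≤ (ε ^ 2 + ‖s‖ ^ 2) ^ 2 :=
    pow_le_pow_left₀ (by positivity) (by linarith [sq_nonneg ‖s‖]) 2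
  calc τ * ε ^ 2 * ε ^ 2 = τ * (ε ^ 2) ^ 2 := by ring
    _ ≤ τ * (ε ^ 2 + ‖s‖ ^ 2) ^ 2 := mul_le_mul_of_nonneg_left h2 hτ.le

private theorem rsol_scal (k : ℕ) {ε τ : ℝ} (hε : 0 < ε) (hτ : 0 < τ) {C0 : ℝ}
    (hC : ∀ t, 0 ≤ t → t ≤ 1 → |deriv cut t| ≤ C0) (s : ℂ) (hs0 : s ≠ 0) (hs : ‖s‖ ≤ ε) :
    (rsol_κ ε τ s)⁻¹ * (ws ε τ s * ‖rsol_v k ε s 0‖ ^ 2) ≤ 4 * C0 ^ 2 / (τ * ε ^ 2) := by
  have h1 := rsol_κ_inv hε hτ s hs
  have h2 := rsol_ws_le (ε := ε) hτ.le s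
  have h3 := rsol_v_norm k hε hC s hs
  have hn : 0 < ‖s‖ := norm_pos_iff.2 hs0
  have h4 : 0 ≤ ws ε τ s := by
    unfold ws
    have : 0 ≤ (1 + ‖s‖ ^ 2 / ε ^ 2) ^ (-τ) := Real.rpow_nonneg (by positivity) _
    positivity
  calc (rsol_κ ε τ s)⁻¹ * (ws ε τ s * ‖rsol_v k ε s 0‖ ^ 2)
      ≤ (4 * ε ^ 2 / τ) * ((‖s‖ ^ 2)⁻¹ * (C0 ^ 2 * ‖s‖ ^ 2 / ε ^ 4)) := by
        refine mul_le_mul h1 (mul_le_mul h2 h3 (by positivity) (by positivity)) ?_ (by positivity)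
        positivity
    _ = 4 * C0 ^ 2 / (τ * ε ^ 2) := by field_simp

omit [GradedAlgebra 𝒜] in
private theorem rsol_nE_v (S : Sheets 𝒜 x k) (G : R) (r : ℕ) (e : Fin M → Fin (B + 1) → R)
    (c : ℝ) {ε τ : ℝ} (hε : 0 < ε) (hτ : 0 < τ) {C0 : ℝ}
    (hC : ∀ t, 0 ≤ t → t ≤ 1 → |deriv cut t| ≤ C0) (p : (Fin (n + 1) → ℂ) × ℂ)
    (hp0 : p.2 ≠ 0) (hp : ‖p.2‖ ≤ ε) :
    ENNReal.ofReal (rsol_κ ε τ p.2)⁻¹ * nE S G r e c ε τ p (fun a => rsol_v k ε p.2 a) ≤
      ENNReal.ofReal (4 * C0 ^ 2 / (τ * ε ^ 2)) *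
        ∑' ν : fib x p.1, ENNReal.ofReal (wph G r e c ε ν.1 p.2) := by
  unfold nE
  rw [← ENNReal.tsum_mul_left, ← ENNReal.tsum_mul_left]
  refine ENNReal.tsum_le_tsum fun ν => ?_
  have hv : ∑ a, ν.1 (S.β a) * rsol_v k ε p.2 a = rsol_v k ε p.2 0 := by
    rw [Finset.sum_eq_single 0]
    · rw [S.β_zero, map_one, one_mul]
    · intro a _ ha
      have : rsol_v k ε p.2 a = 0 := rsol_dzb_chi_ne k ε a ha p.2
      rw [this, mul_zero]
    · simp
  have hw := rsol_wph_nonneg G r e c ε ν.1 p.2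
  have hκ : 0 ≤ (rsol_κ ε τ p.2)⁻¹ := (inv_pos.2 (rsol_κ_pos hε hτ p.2)).le
  rw [hv, ← ENNReal.ofReal_mul hκ, ← ENNReal.ofReal_mul (by positivity)]
  refine ENNReal.ofReal_le_ofReal ?_
  calc (rsol_κ ε τ p.2)⁻¹ * (wph G r e c ε ν.1 p.2 * ws ε τ p.2 * ‖rsol_v k ε p.2 0‖ ^ 2)
      = ((rsol_κ ε τ p.2)⁻¹ * (ws ε τ p.2 * ‖rsol_v k ε p.2 0‖ ^ 2)) *
          wph G r e c ε ν.1 p.2 := by ring
    _ ≤ _ := mul_le_mul_of_nonneg_right (rsol_scal k hε hτ hC p.2 hp0 hp) hw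

omit [GradedAlgebra 𝒜] in
private theorem rsol_bound (S : Sheets 𝒜 x k) (G : R) (r : ℕ) (e : Fin M → Fin (B + 1) → R)
    (hg : GoodSheets S G e) (c : ℝ) (hc : 0 ≤ c) {ε τ : ℝ} (hε : 0 < ε) (hε1 : ε ≤ 1)
    (hτ : 0 < τ) {C0 : ℝ} (hC : ∀ t, 0 ≤ t → t ≤ 1 → |deriv cut t| ≤ C0)
    (Mt : HMet (WW S) (bE n) (k + 1))
    (hMt : ∀ p ∈ WW S, ∀ u, ENNReal.ofReal (Mt.nsq p u) = nE S G r e c ε τ p u) :
    ∫⁻ p in WW S, ENNReal.ofReal ((rsol_κ ε τ p.2)⁻¹ *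
        Mt.nsq p (fun a => rsol_v k ε p.2 a)) ≤
      ENNReal.ofReal (4 * C0 ^ 2 / (τ * ε ^ 2)) *
        (ENNReal.ofReal ((2 * (1 + B : ℝ)) ^ (c * M)) * intI x G r (fun i => e i 0) c) *
          ENNReal.ofReal (Real.pi * ε ^ 2) := by
  have hWm : MeasurableSet (WW S) := (isOpen_WW S).measurableSet
  have hW0 : MeasurableSet (W0 S.h) := (isOpen_W0 S.h).measurableSet
  set f : (Fin (n + 1) → ℂ) × ℂ → ℝ≥0∞ := fun p => ENNReal.ofReal ((rsol_κ ε τ p.2)⁻¹ *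
        Mt.nsq p (fun a => rsol_v k ε p.2 a)) with hf
  have hcont : ContinuousOn (fun p : (Fin (n + 1) → ℂ) × ℂ => (rsol_κ ε τ p.2)⁻¹ *
        Mt.nsq p (fun a => rsol_v k ε p.2 a)) (WW S) := by
    refine ContinuousOn.mul ?_ ?_
    · exact (((rsol_κ_cont hε).comp continuous_snd).inv₀
        fun p => (rsol_κ_pos hε hτ p.2).ne').continuousOn
    · refine (rsol_nsq_cont Mt).comp (f := fun p : (Fin (n + 1) → ℂ) × ℂ =>
        (p, fun a => rsol_v k ε p.2 a)) ?_ (fun p hp => ⟨hp, Set.mem_univ _⟩)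
      refine Continuous.continuousOn ?_
      refine continuous_id.prodMk (continuous_pi fun a => ?_)
      exact (rsol_v_smooth k ε a).continuous.comp continuous_snd
  have hfm : AEMeasurable ((WW S).indicator f) (volume : Measure ((Fin (n + 1) → ℂ) × ℂ)) := by
    rw [aemeasurable_indicator_iff hWm]
    exact (hcont.aemeasurable hWm).ennreal_ofReal
  rw [← lintegral_indicator hWm, Measure.volume_eq_prod, lintegral_prod_symm _ hfm]
  set K1 : ℝ≥0∞ := ENNReal.ofReal (4 * C0 ^ 2 / (τ * ε ^ 2)) with hK1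
  set K2 : ℝ≥0∞ := ENNReal.ofReal ((2 * (1 + B : ℝ)) ^ (c * M)) * intI x G r (fun i => e i 0) c
    with hK2
  have hin : ∀ s : ℂ, ∫⁻ y : Fin (n + 1) → ℂ, (WW S).indicator f (y, s) ≤
      (Metric.closedBall (0 : ℂ) ε).indicator (fun _ => K1 * K2) s := by
    intro s
    by_cases hs : ‖s‖ ≤ ε
    · rw [Set.indicator_of_mem (mem_closedBall_zero_iff.2 hs)]
      calc ∫⁻ y : Fin (n + 1) → ℂ, (WW S).indicator f (y, s)
          ≤ ∫⁻ y : Fin (n + 1) → ℂ, (W0 S.h).indicator (fun y => K1 *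
              ∑' ν : fib x y, ENNReal.ofReal (wph G r e c ε ν.1 s)) y := by
            refine lintegral_mono fun y => ?_
            by_cases hy : (y, s) ∈ WW S
            · rw [Set.indicator_of_mem hy, Set.indicator_of_mem (show y ∈ W0 S.h from hy.1)]
              have h1 := rsol_nE_v S G r e c hε hτ hC (y, s) hy.2 hs
              rw [← hMt _ hy, ← ENNReal.ofReal_mul (inv_pos.2 (rsol_κ_pos hε hτ s)).le] at h1
              exact h1
            · rw [Set.indicator_of_notMem hy]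
              exact zero_le
        _ = K1 * JJ S G r e c ε s := by
            rw [lintegral_indicator hW0, lintegral_const_mul' _ _ ENNReal.ofReal_ne_top]
            rfl
        _ ≤ K1 * K2 := by
            gcongr
            exact JJ_le S G r e hg c hc ε hε hε1 s hs
    · have h0 : ∀ y : Fin (n + 1) → ℂ, (WW S).indicator f (y, s) = 0 := by
        intro y
        by_cases hy : (y, s) ∈ WW S
        · rw [Set.indicator_of_mem hy]
          simp only [hf]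
          rw [rsol_nsq_zero Mt (y, s) _ (fun a => rsol_v_zero k hε s (not_le.1 hs) a)]
          simp
        · rw [Set.indicator_of_notMem hy]
      simp only [h0, lintegral_zero]
      exact zero_le
  refine (lintegral_mono hin).trans ?_
  rw [lintegral_indicator Metric.isClosed_closedBall.measurableSet, lintegral_const,
    Measure.restrict_apply_univ, Complex.volume_closedBall]
  have h2 : ENNReal.ofReal ε ^ 2 * (NNReal.pi : ℝ≥0∞) = ENNReal.ofReal (Real.pi * ε ^ 2) := by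
    rw [mul_comm Real.pi, ENNReal.ofReal_mul (by positivity), ENNReal.ofReal_pow hε.le]
    congr 1
    rw [← NNReal.coe_real_pi, ENNReal.ofReal_coe_nnreal]
  rw [h2]

theorem exists_sol (c : ℝ) (hc : 0 ≤ c) (B M : ℕ) :
    ∃ K : ℝ, 0 < K ∧ ∀ {R : Type} [CommRing R] [Algebra ℂ R] {𝒜 : ℕ → Submodule ℂ R}
      [GradedAlgebra 𝒜] {n r d k : ℕ} {x : Fin (n + 1) → R} {G : R} (_ : IsFano 𝒜 n r d x G)
      (S : Sheets 𝒜 x k) (e : Fin M → Fin (B + 1) → R) (_ : GoodSheets S G e)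
      (_ : intI x G r (fun i => e i 0) c ≠ ⊤) (ε τ : ℝ), 0 < ε → ε ≤ 1 → 0 < τ → τ ≤ 1 →
      ∃ F : Fin (k + 1) → ((Fin (n + 1) → ℂ) × ℂ) → ℂ,
        (∀ a, DifferentiableOn ℂ (F a) (WW S)) ∧
        ∫⁻ p in WW S, nE S G r e c ε τ p (fun a => chiT k ε p.2 a - F a p) ≤
          ENNReal.ofReal (K / τ) * intI x G r (fun i => e i 0) c := by
  obtain ⟨C0, hC01, hC⟩ := rsol_deriv_bound
  have hQ : 0 < (2 * (1 + B : ℝ)) ^ (c * M) := Real.rpow_pos_of_pos (by positivity) _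
  have hC0 : 0 < C0 := lt_of_lt_of_le one_pos hC01
  refine ⟨64 * Real.pi * C0 ^ 2 * (2 * (1 + B : ℝ)) ^ (c * M), by positivity, ?_⟩
  intro R _ _ 𝒜 _ n r d k x G h S e hg hI ε τ hε hε1 hτ _
  obtain ⟨Mt, -, hMt2, hMt3⟩ := exists_metric S G r h.r_pos e hg c ε τ hc hε hτ.le
  have hμ : (volume : Measure ((Fin (n + 1) → ℂ) × ℂ)).IsAddHaarMeasure :=
    Measure.prod.instIsAddHaarMeasure volume volume
  have hWo := isOpen_WW S
  have hWm : MeasurableSet (WW S) := hWo.measurableSet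
  set Q : ℝ := (2 * (1 + B : ℝ)) ^ (c * M) with hQdef
  set C₁ : ℝ := 4 * Real.pi * C0 ^ 2 / τ * Q * (intI x G r (fun i => e i 0) c).toReal with hC₁def
  have hC₁ : 0 ≤ C₁ := by
    have : 0 ≤ (intI x G r (fun i => e i 0) c).toReal := ENNReal.toReal_nonneg
    positivity
  have hb : ∫⁻ p in WW S, ENNReal.ofReal ((rsol_κ ε τ p.2)⁻¹ *
      Mt.nsq p (fun a => rsol_v k ε p.2 a)) ≤ ENNReal.ofReal C₁ := by
    refine (rsol_bound S G r e hg c hc hε hε1 hτ hC Mt hMt2).trans (le_of_eq ?_)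
    rw [hC₁def, ENNReal.ofReal_mul (p := 4 * Real.pi * C0 ^ 2 / τ * Q) (by positivity),
      ENNReal.ofReal_toReal hI, ← hQdef]
    have e1 : 4 * Real.pi * C0 ^ 2 / τ * Q = 4 * C0 ^ 2 / (τ * ε ^ 2) * Q * (Real.pi * ε ^ 2) := by
      field_simp
    rw [e1, ENNReal.ofReal_mul (p := 4 * C0 ^ 2 / (τ * ε ^ 2) * Q) (by positivity),
      ENNReal.ofReal_mul (p := 4 * C0 ^ 2 / (τ * ε ^ 2)) (by positivity)]
    ring
  have hdz : ∀ (a : Fin (k + 1)) (p : (Fin (n + 1) → ℂ) × ℂ),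
      dzb (bE n (Sum.inr ())) (fun p : (Fin (n + 1) → ℂ) × ℂ => chiT k ε p.2 a) p =
        rsol_v k ε p.2 a := by
    intro a p
    rw [rsol_dzb_snd (fun s => chiT k ε s a) p _
      ((rsol_chi_smooth k ε a).contDiffAt.differentiableAt (by simp)), rsol_bE_inr]
    rfl
  have hdz0 : ∀ (a : Fin (k + 1)) (j : Fin (n + 1)) (p : (Fin (n + 1) → ℂ) × ℂ),
      dzb (bE n (Sum.inl j)) (fun p : (Fin (n + 1) → ℂ) × ℂ => chiT k ε p.2 a) p = 0 := by
    intro a j p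
    rw [rsol_dzb_snd (fun s => chiT k ε s a) p _
      ((rsol_chi_smooth k ε a).contDiffAt.differentiableAt (by simp)), rsol_bE_inl]
    exact rsol_dzb_zero _ _
  have hvcl : ∀ l, l ≠ Sum.inr () → ∀ a, ∀ p ∈ WW S,
      dzb (bE n l) (fun p : (Fin (n + 1) → ℂ) × ℂ => rsol_v k ε p.2 a) p = 0 := by
    intro l hl a p _
    rcases l with j | l
    · rw [rsol_dzb_snd (fun s => rsol_v k ε s a) p _
        ((rsol_v_smooth k ε a).contDiffAt.differentiableAt (by simp)), rsol_bE_inl]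
      exact rsol_dzb_zero _ _
    · exact absurd rfl hl
  obtain ⟨u, hu1, hu2, hu3⟩ := Mt.hormander hWo volume (rhoE S) (exhaust_WW S)
    (fun p => rsol_κ ε τ p.2) ((rsol_κ_cont hε).comp continuous_snd).continuousOn
    (fun p _ => (rsol_κ_pos hε hτ p.2).le) (Sum.inr ()) (fun p hp f => hMt3 p hp f)
    (fun a p => rsol_v k ε p.2 a)
    (fun a => ((rsol_v_smooth k ε a).comp contDiff_snd).contDiffOn) hvcl
    (min (τ / (4 * ε ^ 2)) (ε ^ 2 / τ)) (by positivity) (by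
      rintro p _ ⟨a, ha⟩
      have hp : ‖p.2‖ ≤ ε := by
        by_contra h'
        exact ha (rsol_v_zero k hε p.2 (not_le.1 h') a)
      refine ⟨(min_le_left _ _).trans (rsol_κ_ge hε hτ p.2 hp), (rsol_κ_le hε hτ p.2).trans ?_⟩
      exact inv_anti₀ (by positivity) (min_le_right _ _)) C₁ hC₁ hb
  have huI : ∫⁻ p in WW S, ENNReal.ofReal (Mt.nsq p (fun a => u a p)) ≠ ⊤ :=
    ne_top_of_le_ne_top ENNReal.ofReal_ne_top hu2
  have hchi : ∀ a : Fin (k + 1), ContDiff ℝ ∞ (fun p : (Fin (n + 1) → ℂ) × ℂ => chiT k ε p.2 a) :=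
    fun a => (rsol_chi_smooth k ε a).comp contDiff_snd
  have hul : ∀ a, LocallyIntegrableOn (u a) (WW S) volume := rsol_loc Mt hWo volume u hu1 huI
  have hcl : ∀ a : Fin (k + 1), LocallyIntegrableOn
      (fun p : (Fin (n + 1) → ℂ) × ℂ => chiT k ε p.2 a) (WW S) volume :=
    fun a => (hchi a).continuous.locallyIntegrable.locallyIntegrableOn _
  have hF : ∀ a : Fin (k + 1), ∃ F : ((Fin (n + 1) → ℂ) × ℂ) → ℂ, DifferentiableOn ℂ F (WW S) ∧
      (fun p : (Fin (n + 1) → ℂ) × ℂ => chiT k ε p.2 a - u a p) =ᵐ[volume.restrict (WW S)] F := by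
    intro a
    refine weyl_local volume hWo (bE n) _ ((hcl a).sub (hul a)) fun ψ hψ j => ?_
    have h1 : ∫ p in WW S, (chiT k ε p.2 a - u a p) * dzb (bE n j) ψ p =
        (∫ p in WW S, chiT k ε p.2 a * dzb (bE n j) ψ p) -
          ∫ p in WW S, u a p * dzb (bE n j) ψ p := by
      rw [← integral_sub (rsol_int_mul volume (hcl a) hψ _) (rsol_int_mul volume (hul a) hψ _)]
      refine integral_congr_ae (Filter.Eventually.of_forall fun p => ?_)
      simp only [sub_mul]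
    rw [h1, hu3 ψ hψ j a, rsol_ibp volume (hchi a) hψ (bE n j)]
    rcases j with j | j
    · simp [hdz0]
    · simp only [hdz, if_true]
      ring
  choose F hF1 hF2 using hF
  refine ⟨F, hF1, ?_⟩
  have h1 : ∫⁻ p in WW S, nE S G r e c ε τ p (fun a => chiT k ε p.2 a - F a p) =
      ∫⁻ p in WW S, ENNReal.ofReal (Mt.nsq p (fun a => u a p)) := by
    refine lintegral_congr_ae ?_
    filter_upwards [ae_restrict_mem hWm, ae_all_iff.2 hF2] with p hp hpF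
    rw [hMt2 p hp]
    congr 1
    funext a
    rw [← hpF a]
    ring
  rw [h1]
  refine hu2.trans (le_of_eq ?_)
  have e1 : 16 * C₁ = 64 * Real.pi * C0 ^ 2 * Q / τ * (intI x G r (fun i => e i 0) c).toReal := by
    rw [hC₁def]
    ring
  rw [e1, ENNReal.ofReal_mul (by positivity), ENNReal.ofReal_toReal hI]

end Pool.Agent.Lib_KF
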