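import Pool.Agent.Lib_KF.KCBase

/-!
# SH: `R` as a finite algebra over `ℂ[x_0 .. x_n]`, definitions
-/

open scoped ENNReal NNReal

namespace Pool.Agent.Lib_KF

open Pool.Agent.Lib_GD

/-- `ℂ[x_0, …, x_n]` -/
abbrev PA (n : ℕ) : Type := MvPolynomial (Fin (n + 1)) ℂ

/-- the coordinates as elements of the `ℂ[x]`-algebra `R` -/
noncomputable def xx (R : Type) [CommRing R] (n : ℕ) [Algebra (PA n) R] : Fin (n + 1) → R :=
  fun b => algebraMap (PA n) R (MvPolynomial.X b)

theorem aeval_xx {R : Type} [CommRing R] [Algebra ℂ R] {n : ℕ} [Algebra (PA n) R]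
    [IsScalarTower ℂ (PA n) R] (p : PA n) :
    MvPolynomial.aeval (xx R n) p = algebraMap (PA n) R p := by
  have h : (MvPolynomial.aeval (xx R n) : PA n →ₐ[ℂ] R) = IsScalarTower.toAlgHom ℂ (PA n) R := by
    ext b
    simp [xx]
  rw [h]
  rfl

end Pool.Agent.Lib_KF
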