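import Pool.Agent.Lib_KF.SHBase

/-!
# SH3: the discriminant
-/

open scoped ENNReal NNReal

namespace Pool.Agent.Lib_KF

open Pool.Agent.Lib_GD

attribute [local instance] FractionRing.liftAlgebra FractionRing.isScalarTower_liftAlgebra

variable {R : Type} [CommRing R] [IsDomain R] [IsIntegrallyClosed R] [Algebra ℂ R] {n : ℕ}
  [Algebra (PA n) R] [IsScalarTower ℂ (PA n) R] [Module.Finite (PA n) R]
  [Module.IsTorsionFree (PA n) R]

/-- the discriminant `det (Tr (β a β c))` -/
noncomputable def shDisc {k : ℕ} (β : Fin (k + 1) → R) : PA n :=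
  Matrix.det (Matrix.of fun a c => Algebra.intTrace (PA n) R (β a * β c))

omit [Algebra ℂ R] [IsScalarTower ℂ (PA n) R] in
open nonZeroDivisors in
/-- the trace form in the basis `β` of the field extension, and coordinates -/
private theorem SHDisc_aux {k : ℕ} (β : Fin (k + 1) → R) (hβ : LinearIndependent (PA n) β)
    (hsp : ∀ f : R, ∃ q : PA n, q ≠ 0 ∧ ∃ p : Fin (k + 1) → PA n,
      algebraMap (PA n) R q * f = ∑ a, algebraMap (PA n) R (p a) * β a) :
    ∃ b : Module.Basis (Fin (k + 1)) (FractionRing (PA n)) (FractionRing R),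
      (∀ a, b a = algebraMap R (FractionRing R) (β a)) ∧
      (∀ f : R, algebraMap (PA n) (FractionRing (PA n)) (Algebra.intTrace (PA n) R f) =
        Algebra.trace (FractionRing (PA n)) (FractionRing R) (algebraMap R (FractionRing R) f)) ∧
      Module.Finite (FractionRing (PA n)) (FractionRing R) := by
  have h1 : IsIntegralClosure R (PA n) (FractionRing R) :=
    IsIntegralClosure.of_isIntegrallyClosed _ _ _
  have h2 : Algebra.IsAlgebraic (FractionRing (PA n)) (FractionRing R) :=
    isAlgebraic_of_isFractionRing (PA n) R ..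
  have h3 : IsLocalization (Algebra.algebraMapSubmonoid R (PA n)⁰) (FractionRing R) :=
    IsIntegralClosure.isLocalization _ (FractionRing (PA n)) _ _
  have h4 : FiniteDimensional (FractionRing (PA n)) (FractionRing R) :=
    .of_isLocalization (PA n) R (PA n)⁰
  have hinj : Function.Injective (algebraMap R (FractionRing R)) :=
    IsFractionRing.injective R (FractionRing R)
  have hinjA : Function.Injective (algebraMap (PA n) (FractionRing (PA n))) :=
    IsFractionRing.injective (PA n) (FractionRing (PA n))
  have hli : LinearIndependent (FractionRing (PA n))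
      (fun a => algebraMap R (FractionRing R) (β a)) := by
    rw [← LinearIndependent.iff_fractionRing (PA n) (FractionRing (PA n))]
    exact hβ.map' (IsScalarTower.toAlgHom (PA n) R (FractionRing R)).toLinearMap
      (LinearMap.ker_eq_bot.2 hinj)
  have hspan : ⊤ ≤ Submodule.span (FractionRing (PA n))
      (Set.range (fun a => algebraMap R (FractionRing R) (β a))) := by
    intro y _
    have hf : ∀ f : R, algebraMap R (FractionRing R) f ∈ Submodule.span (FractionRing (PA n))
        (Set.range (fun a => algebraMap R (FractionRing R) (β a))) := by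
      intro f
      obtain ⟨q, hq, p, hp⟩ := hsp f
      have hq' : algebraMap (PA n) (FractionRing (PA n)) q ≠ 0 := by
        rwa [Ne, map_eq_zero_iff _ hinjA]
      have h5 : algebraMap (PA n) (FractionRing (PA n)) q • algebraMap R (FractionRing R) f =
          ∑ a, algebraMap (PA n) (FractionRing (PA n)) (p a) •
            algebraMap R (FractionRing R) (β a) := by
        have h6 := congrArg (algebraMap R (FractionRing R)) hp
        rw [map_mul, map_sum] at h6
        rw [algebraMap_smul, Algebra.smul_def,
          IsScalarTower.algebraMap_apply (PA n) R (FractionRing R), h6]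
        refine Finset.sum_congr rfl fun a _ => ?_
        rw [map_mul, algebraMap_smul, Algebra.smul_def,
          IsScalarTower.algebraMap_apply (PA n) R (FractionRing R)]
      have h7 : algebraMap R (FractionRing R) f =
          (algebraMap (PA n) (FractionRing (PA n)) q)⁻¹ •
          ∑ a, algebraMap (PA n) (FractionRing (PA n)) (p a) •
            algebraMap R (FractionRing R) (β a) := by
        rw [← h5, smul_smul, inv_mul_cancel₀ hq', one_smul]
      rw [h7]
      refine Submodule.smul_mem _ _ (Submodule.sum_mem _ fun a _ => Submodule.smul_mem _ _ ?_)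
      exact Submodule.subset_span ⟨a, rfl⟩
    obtain ⟨⟨f, s⟩, hs⟩ := IsLocalization.surj (Algebra.algebraMapSubmonoid R (PA n)⁰) y
    obtain ⟨s', hs', hs2⟩ := s.2
    have hs0 : s' ≠ 0 := nonZeroDivisors.ne_zero hs'
    have hs1 : algebraMap (PA n) (FractionRing (PA n)) s' ≠ 0 := by
      rwa [Ne, map_eq_zero_iff _ hinjA]
    have h8 : algebraMap (PA n) (FractionRing (PA n)) s' • y =
        algebraMap R (FractionRing R) f := by
      rw [← hs, algebraMap_smul, Algebra.smul_def,
        IsScalarTower.algebraMap_apply (PA n) R (FractionRing R), mul_comm]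
      congr 2
    have h9 : y = (algebraMap (PA n) (FractionRing (PA n)) s')⁻¹ •
        algebraMap R (FractionRing R) f := by
      rw [← h8, smul_smul, inv_mul_cancel₀ hs1, one_smul]
    rw [h9]
    exact Submodule.smul_mem _ _ (hf f)
  refine ⟨Module.Basis.mk hli hspan, fun a => by rw [Module.Basis.mk_apply], fun f => ?_, h4⟩
  exact Algebra.algebraMap_intTrace_fractionRing f

/-- nondegeneracy of the trace form of the separable extension `Frac R / ℂ(x)`, of which `β` is a
basis by `hsp` -/
theorem shDisc_ne {k : ℕ} (β : Fin (k + 1) → R) (hβ : LinearIndependent (PA n) β)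
    (hsp : ∀ f : R, ∃ q : PA n, q ≠ 0 ∧ ∃ p : Fin (k + 1) → PA n,
      algebraMap (PA n) R q * f = ∑ a, algebraMap (PA n) R (p a) * β a) :
    shDisc (n := n) β ≠ 0 := by
  obtain ⟨b, hb, htr, hfin⟩ := SHDisc_aux (n := n) β hβ hsp
  have hsep : Algebra.IsSeparable (FractionRing (PA n)) (FractionRing R) := by
    have : CharZero (FractionRing (PA n)) := inferInstance
    infer_instance
  have h1 := det_traceForm_ne_zero b
  intro h0
  apply h1
  have h2 : ((Algebra.traceForm (FractionRing (PA n)) (FractionRing R)).toMatrix b :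
      Matrix (Fin (k + 1)) (Fin (k + 1)) (FractionRing (PA n))) =
      (algebraMap (PA n) (FractionRing (PA n))).mapMatrix
        (Matrix.of fun a c => Algebra.intTrace (PA n) R (β a * β c)) := by
    ext a c
    rw [LinearMap.BilinForm.toMatrix_apply, Algebra.traceForm_apply, hb, hb, ← map_mul, ← htr]
    rfl
  rw [h2, ← RingHom.map_det]
  have h3 : Matrix.det (Matrix.of fun a c => Algebra.intTrace (PA n) R (β a * β c)) = 0 := h0
  rw [h3, map_zero]

/-- `f = ∑ c_a β_a` in `Frac R`, `Tr (f β_c) = ∑ c_a Tr (β_a β_c)`; Cramer. -/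
theorem shDisc_span {k : ℕ} (β : Fin (k + 1) → R) (hβ : LinearIndependent (PA n) β)
    (hsp : ∀ f : R, ∃ q : PA n, q ≠ 0 ∧ ∃ p : Fin (k + 1) → PA n,
      algebraMap (PA n) R q * f = ∑ a, algebraMap (PA n) R (p a) * β a) (f : R) :
    ∃ p : Fin (k + 1) → PA n,
      algebraMap (PA n) R (shDisc β) * f = ∑ a, algebraMap (PA n) R (p a) * β a := by
  obtain ⟨b, hb, htr, hfin⟩ := SHDisc_aux (n := n) β hβ hsp
  let M : Matrix (Fin (k + 1)) (Fin (k + 1)) (PA n) :=
    Matrix.of fun a c => Algebra.intTrace (PA n) R (β a * β c)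
  let t : Fin (k + 1) → PA n := fun c => Algebra.intTrace (PA n) R (f * β c)
  let φ := algebraMap (PA n) (FractionRing (PA n))
  let F : FractionRing R := algebraMap R (FractionRing R) f
  let c : Fin (k + 1) → FractionRing (PA n) := fun a => b.repr F a
  have hF : F = ∑ a, c a • b a := (b.sum_repr F).symm
  have h1 : (fun a => φ (t a)) = Matrix.vecMul c (φ.mapMatrix M) := by
    funext d
    show φ (Algebra.intTrace (PA n) R (f * β d)) = _
    rw [htr, map_mul]
    show Algebra.trace _ _ (F * _) = _
    rw [hF, Finset.sum_mul, map_sum]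
    refine Finset.sum_congr rfl fun a _ => ?_
    rw [smul_mul_assoc, map_smul, hb, ← map_mul, ← htr]
    rfl
  have h2 : Matrix.vecMul (fun a => φ (t a)) (φ.mapMatrix M.adjugate) = φ M.det • c := by
    rw [h1, Matrix.vecMul_vecMul, ← map_mul, Matrix.mul_adjugate]
    rw [show φ.mapMatrix (M.det • (1 : Matrix (Fin (k + 1)) (Fin (k + 1)) (PA n))) =
      φ M.det • (1 : Matrix (Fin (k + 1)) (Fin (k + 1)) (FractionRing (PA n))) by
        ext i j
        by_cases hij : i = j
        · subst hij; simp
        · simp [hij]]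
    rw [Matrix.vecMul_smul, Matrix.vecMul_one]
  refine ⟨Matrix.vecMul t M.adjugate, ?_⟩
  apply IsFractionRing.injective R (FractionRing R)
  rw [map_mul, map_sum]
  have h3 : ∀ q : PA n, ∀ y : FractionRing R,
      algebraMap R (FractionRing R) (algebraMap (PA n) R q) * y = φ q • y := by
    intro q y
    rw [← IsScalarTower.algebraMap_apply, algebraMap_smul, Algebra.smul_def]
  rw [h3]
  show φ M.det • F = _
  rw [hF, Finset.smul_sum]
  refine Finset.sum_congr rfl fun a _ => ?_
  rw [map_mul, h3, ← hb, smul_smul]
  congr 1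
  have h4 := congrFun h2 a
  rw [Pi.smul_apply, smul_eq_mul] at h4
  rw [← h4]
  show (∑ d, φ (t d) * φ (M.adjugate d a)) = φ (∑ d, t d * M.adjugate d a)
  rw [map_sum]
  exact Finset.sum_congr rfl fun d _ => (map_mul _ _ _).symm

end Pool.Agent.Lib_KF
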