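import Pool.Agent.Lib_KF.SHDisc

/-!
# SH4: the fibres over points where the discriminant does not vanish
-/

open scoped ENNReal NNReal

namespace Pool.Agent.Lib_KF

open Pool.Agent.Lib_GD

section A

variable {B : Type*} [CommRing B] [Algebra ℂ B] [Module.Finite ℂ B]

/-- a maximal ideal is the kernel of a homomorphism to `ℂ` -/
private theorem SHFib_max (P : Ideal B) [P.IsMaximal] : ∃ ν : B →ₐ[ℂ] ℂ, RingHom.ker ν = P := by
  let : Field (B ⧸ P) := Ideal.Quotient.field P
  have : Module.Finite ℂ (B ⧸ P) := Module.Finite.of_surjective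
    (Ideal.Quotient.mkₐ ℂ P).toLinearMap (Ideal.Quotient.mkₐ_surjective ℂ P)
  have : Algebra.IsIntegral ℂ (B ⧸ P) := Algebra.IsIntegral.of_finite _ _
  have hbij := IsAlgClosed.algebraMap_bijective_of_isIntegral (k := ℂ) (K := B ⧸ P)
  set E : ℂ ≃ₐ[ℂ] (B ⧸ P) := AlgEquiv.ofBijective (Algebra.ofId ℂ (B ⧸ P)) hbij with hE
  refine ⟨(E.symm : (B ⧸ P) →ₐ[ℂ] ℂ).comp (Ideal.Quotient.mkₐ ℂ P), ?_⟩
  ext z
  rw [RingHom.mem_ker, AlgHom.comp_apply]
  constructor
  · intro h
    have h2 : Ideal.Quotient.mkₐ ℂ P z = 0 := by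
      have h3 : E.symm (Ideal.Quotient.mkₐ ℂ P z) = E.symm 0 := by rw [map_zero]; exact h
      exact E.symm.injective h3
    exact Ideal.Quotient.eq_zero_iff_mem.1 h2
  · intro h
    have h2 : Ideal.Quotient.mkₐ ℂ P z = 0 := Ideal.Quotient.eq_zero_iff_mem.2 h
    rw [h2, map_zero]

/-- the common kernel -/
private theorem SHFib_ker (hnd : ∀ x : B, (∀ z, Algebra.trace ℂ B (x * z) = 0) → x = 0)
    (x : B) (hx : ∀ ν : B →ₐ[ℂ] ℂ, ν x = 0) : x = 0 := by
  have : IsArtinianRing B := IsArtinianRing.of_finite ℂ B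
  have hnil : IsNilpotent x := by
    rw [nilpotent_iff_mem_prime]
    intro P hP
    have : P.IsMaximal := IsArtinianRing.isMaximal_of_isPrime P
    obtain ⟨ν, hν⟩ := SHFib_max P
    rw [← hν]
    exact hx ν
  refine hnd x fun z => ?_
  have h1 : IsNilpotent (x * z) := (Commute.all x z).isNilpotent_mul_right hnil
  have h2 : IsNilpotent (Algebra.lmul ℂ B (x * z)) := h1.map (Algebra.lmul ℂ B)
  exact (LinearMap.isNilpotent_trace_of_isNilpotent h2).eq_zero

omit [Module.Finite ℂ B] in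
private theorem SHFib_li : LinearIndependent ℂ
    (AlgHom.toLinearMap : (B →ₐ[ℂ] ℂ) → B →ₗ[ℂ] ℂ) :=
  linearIndependent_algHom_toLinearMap ℂ B ℂ

private theorem SHFib_fin : Finite (B →ₐ[ℂ] ℂ) :=
  (SHFib_li (B := B)).finite

/-- the homomorphism to the product -/
private noncomputable def SHFib_phi (B : Type*) [CommRing B] [Algebra ℂ B] :
    B →ₐ[ℂ] ((B →ₐ[ℂ] ℂ) → ℂ) :=
  AlgHom.pi fun ν => ν

private theorem SHFib_bij (hnd : ∀ x : B, (∀ z, Algebra.trace ℂ B (x * z) = 0) → x = 0) :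
    Function.Bijective (SHFib_phi B) := by
  have hfin : Finite (B →ₐ[ℂ] ℂ) := SHFib_fin
  have : Fintype (B →ₐ[ℂ] ℂ) := Fintype.ofFinite _
  have hinj : Function.Injective (SHFib_phi B) := by
    rw [injective_iff_map_eq_zero]
    intro x hx
    exact SHFib_ker hnd x fun ν => congrFun hx ν
  have h1 : Fintype.card (B →ₐ[ℂ] ℂ) ≤ Module.finrank ℂ B := by
    have h2 := (SHFib_li (B := B)).fintype_card_le_finrank
    rwa [Module.finrank_linearMap_self] at h2
  have h3 : Module.finrank ℂ B = Module.finrank ℂ ((B →ₐ[ℂ] ℂ) → ℂ) := by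
    refine le_antisymm (LinearMap.finrank_le_finrank_of_injective
      (f := (SHFib_phi B).toLinearMap) hinj) ?_
    rwa [Module.finrank_fintype_fun_eq_card]
  exact ⟨hinj, (LinearMap.injective_iff_surjective_of_finrank_eq_finrank
    (f := (SHFib_phi B).toLinearMap) h3).1 hinj⟩

private theorem SHFib_card (hnd : ∀ x : B, (∀ z, Algebra.trace ℂ B (x * z) = 0) → x = 0) :
    Nat.card (B →ₐ[ℂ] ℂ) = Module.finrank ℂ B := by
  have hfin : Finite (B →ₐ[ℂ] ℂ) := SHFib_fin
  have : Fintype (B →ₐ[ℂ] ℂ) := Fintype.ofFinite _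
  have h1 := LinearEquiv.finrank_eq
    (LinearEquiv.ofBijective (SHFib_phi B).toLinearMap (SHFib_bij hnd))
  rw [h1, Module.finrank_fintype_fun_eq_card, Nat.card_eq_fintype_card]

private theorem SHFib_mat {ι : Type*} [Fintype ι] [DecidableEq ι] (v : ι → ℂ) :
    Algebra.leftMulMatrix (Pi.basisFun ℂ ι) v = Matrix.diagonal v := by
  ext i j
  rw [Algebra.leftMulMatrix_eq_repr_mul, Pi.basisFun_repr, Pi.basisFun_apply, Pi.mul_apply,
    Matrix.diagonal_apply, Pi.single_apply]
  split_ifs with h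
  · rw [mul_one]
  · rw [mul_zero]

private theorem SHFib_tr (hnd : ∀ x : B, (∀ z, Algebra.trace ℂ B (x * z) = 0) → x = 0)
    (x : B) : Algebra.trace ℂ B x = ∑ᶠ ν : B →ₐ[ℂ] ℂ, ν x := by
  classical
  have hfin : Finite (B →ₐ[ℂ] ℂ) := SHFib_fin
  have : Fintype (B →ₐ[ℂ] ℂ) := Fintype.ofFinite _
  rw [finsum_eq_sum_of_fintype]
  rw [← Algebra.trace_eq_of_algEquiv (AlgEquiv.ofBijective (SHFib_phi B) (SHFib_bij hnd)) x]
  rw [Algebra.trace_eq_matrix_trace (Pi.basisFun ℂ (B →ₐ[ℂ] ℂ)), SHFib_mat, Matrix.trace_diagonal]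
  rfl

private theorem SHFib_nm (hnd : ∀ x : B, (∀ z, Algebra.trace ℂ B (x * z) = 0) → x = 0)
    (x : B) : Algebra.norm ℂ x = ∏ᶠ ν : B →ₐ[ℂ] ℂ, ν x := by
  classical
  have hfin : Finite (B →ₐ[ℂ] ℂ) := SHFib_fin
  have : Fintype (B →ₐ[ℂ] ℂ) := Fintype.ofFinite _
  rw [finprod_eq_prod_of_fintype]
  rw [← Algebra.norm_eq_of_algEquiv (AlgEquiv.ofBijective (SHFib_phi B) (SHFib_bij hnd)) x]
  rw [Algebra.norm_eq_matrix_det (Pi.basisFun ℂ (B →ₐ[ℂ] ℂ)), SHFib_mat, Matrix.det_diagonal]
  rfl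

end A

section Mat

/-- multiplication matrices from `δ f β_j = ∑ P_{ij} β_i` -/
private theorem SHFib_lmm {A R F C : Type*} [CommRing A] [CommRing R] [Algebra A R] [Field F]
    [CommRing C] [Algebra F C] {m : ℕ} (ρ : A →+* F) (ψ : R →+* C)
    (hψ : ∀ p, ψ (algebraMap A R p) = algebraMap F C (ρ p)) (β : Fin m → R)
    (b : Module.Basis (Fin m) F C) (hb : ∀ a, b a = ψ (β a)) (δ : A) (hδ : ρ δ ≠ 0) (f : R)
    (P : Matrix (Fin m) (Fin m) A)
    (hP : ∀ j, algebraMap A R δ * (f * β j) = ∑ i, algebraMap A R (P i j) * β i) :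
    Algebra.leftMulMatrix b (ψ f) = (ρ δ)⁻¹ • P.map ρ := by
  ext i j
  rw [Algebra.leftMulMatrix_eq_repr_mul, Matrix.smul_apply, Matrix.map_apply, smul_eq_mul]
  have h1 : ρ δ • (ψ f * b j) = ∑ i, ρ (P i j) • b i := by
    have h2 := congrArg ψ (hP j)
    rw [map_mul, map_mul, map_sum, hψ, ← Algebra.smul_def] at h2
    rw [hb, h2]
    refine Finset.sum_congr rfl fun i _ => ?_
    rw [map_mul, hψ, ← Algebra.smul_def, hb]
  have h3 : ψ f * b j = ∑ i, ((ρ δ)⁻¹ * ρ (P i j)) • b i := by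
    rw [← inv_smul_smul₀ hδ (ψ f * b j), h1, Finset.smul_sum]
    refine Finset.sum_congr rfl fun i _ => ?_
    rw [mul_smul]
  rw [h3, Module.Basis.repr_sum_self]

private theorem SHFib_trace {A R F C : Type*} [CommRing A] [CommRing R] [Algebra A R] [Field F]
    [CommRing C] [Algebra F C] {m : ℕ} (ρ : A →+* F) (ψ : R →+* C)
    (hψ : ∀ p, ψ (algebraMap A R p) = algebraMap F C (ρ p)) (β : Fin m → R)
    (b : Module.Basis (Fin m) F C) (hb : ∀ a, b a = ψ (β a)) (δ : A) (hδ : ρ δ ≠ 0) (f : R)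
    (P : Matrix (Fin m) (Fin m) A)
    (hP : ∀ j, algebraMap A R δ * (f * β j) = ∑ i, algebraMap A R (P i j) * β i) :
    ρ δ * Algebra.trace F C (ψ f) = ρ P.trace := by
  rw [Algebra.trace_eq_matrix_trace b, SHFib_lmm ρ ψ hψ β b hb δ hδ f P hP, Matrix.trace_smul,
    smul_eq_mul, mul_inv_cancel_left₀ hδ]
  simp [Matrix.trace]

private theorem SHFib_norm {A R F C : Type*} [CommRing A] [CommRing R] [Algebra A R] [Field F]
    [CommRing C] [Algebra F C] {m : ℕ} (ρ : A →+* F) (ψ : R →+* C)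
    (hψ : ∀ p, ψ (algebraMap A R p) = algebraMap F C (ρ p)) (β : Fin m → R)
    (b : Module.Basis (Fin m) F C) (hb : ∀ a, b a = ψ (β a)) (δ : A) (hδ : ρ δ ≠ 0) (f : R)
    (P : Matrix (Fin m) (Fin m) A)
    (hP : ∀ j, algebraMap A R δ * (f * β j) = ∑ i, algebraMap A R (P i j) * β i) :
    ρ δ ^ m * Algebra.norm F (ψ f) = ρ P.det := by
  rw [Algebra.norm_eq_matrix_det b, SHFib_lmm ρ ψ hψ β b hb δ hδ f P hP, Matrix.det_smul,
    Fintype.card_fin, ← mul_assoc, ← mul_pow, mul_inv_cancel₀ hδ, one_pow, one_mul, RingHom.map_det,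
    RingHom.mapMatrix_apply]

end Mat

variable {R : Type} [CommRing R] [IsDomain R] [IsIntegrallyClosed R] [Algebra ℂ R] {n : ℕ}
  [Algebra (PA n) R] [IsScalarTower ℂ (PA n) R] [Module.Finite (PA n) R]
  [Module.IsTorsionFree (PA n) R]

section Frac

attribute [local instance] FractionRing.liftAlgebra FractionRing.isScalarTower_liftAlgebra

omit [IsIntegrallyClosed R] [Algebra ℂ R] [IsScalarTower ℂ (PA n) R] in
/-- `β` is a basis of the fraction field -/
private theorem SHFib_basis {k : ℕ} (β : Fin (k + 1) → R) (hβ : LinearIndependent (PA n) β)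
    (δ : PA n) (hδ : δ ≠ 0)
    (hspan : ∀ f : R, ∃ p : Fin (k + 1) → PA n,
      algebraMap (PA n) R δ * f = ∑ a, algebraMap (PA n) R (p a) * β a) :
    ∃ b : Module.Basis (Fin (k + 1)) (FractionRing (PA n)) (FractionRing R),
      ∀ a, b a = algebraMap R (FractionRing R) (β a) := by
  have hint : Algebra.IsIntegral (PA n) R := Algebra.IsIntegral.of_finite _ _
  have hinj : Function.Injective (algebraMap R (FractionRing R)) :=
    IsFractionRing.injective R (FractionRing R)
  have h1 : LinearIndependent (PA n) (fun a => algebraMap R (FractionRing R) (β a)) :=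
    hβ.map' (IsScalarTower.toAlgHom (PA n) R (FractionRing R)).toLinearMap
      (LinearMap.ker_eq_bot.2 hinj)
  have h2 : LinearIndependent (FractionRing (PA n))
      (fun a => algebraMap R (FractionRing R) (β a)) :=
    (LinearIndependent.iff_fractionRing (PA n) (FractionRing (PA n))).1 h1
  have hA : ∀ p : PA n, algebraMap R (FractionRing R) (algebraMap (PA n) R p) =
      algebraMap (FractionRing (PA n)) (FractionRing R) (algebraMap (PA n) (FractionRing (PA n)) p) := by
    intro p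
    rw [← IsScalarTower.algebraMap_apply (PA n) R (FractionRing R),
      ← IsScalarTower.algebraMap_apply (PA n) (FractionRing (PA n)) (FractionRing R)]
  have hA0 : ∀ p : PA n, p ≠ 0 → algebraMap (PA n) (FractionRing (PA n)) p ≠ 0 := fun p hp => by
    rw [Ne, FaithfulSMul.algebraMap_eq_zero_iff]
    exact hp
  have h3 : ⊤ ≤ Submodule.span (FractionRing (PA n))
      (Set.range (fun a => algebraMap R (FractionRing R) (β a))) := by
    intro z _
    obtain ⟨⟨r, s⟩, hz⟩ := IsLocalization.surj (nonZeroDivisors R) z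
    have hs0 : (s : R) ≠ 0 := nonZeroDivisors.ne_zero s.2
    have halg : IsAlgebraic (PA n) (s : R) := (Algebra.IsIntegral.isIntegral (s : R)).isAlgebraic
    obtain ⟨a, ha0, t, ht⟩ := halg.exists_nonzero_dvd s.2
    obtain ⟨p, hp⟩ := hspan (r * t)
    have h4 : algebraMap (FractionRing (PA n)) (FractionRing R)
        (algebraMap (PA n) (FractionRing (PA n)) (δ * a)) * z =
        ∑ a, algebraMap (FractionRing (PA n)) (FractionRing R)
          (algebraMap (PA n) (FractionRing (PA n)) (p a)) * algebraMap R (FractionRing R) (β a) := by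
      have h5 := congrArg (algebraMap R (FractionRing R)) hp
      rw [map_mul, map_mul, map_sum] at h5
      rw [map_mul, map_mul, ← hA, ← hA, ht, map_mul]
      have h6 : algebraMap R (FractionRing R) (algebraMap (PA n) R δ) *
          (algebraMap R (FractionRing R) (s : R) * algebraMap R (FractionRing R) t) * z =
          algebraMap R (FractionRing R) (algebraMap (PA n) R δ) *
          ((z * algebraMap R (FractionRing R) (s : R)) * algebraMap R (FractionRing R) t) := by
        ring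
      rw [h6, hz, h5]
      refine Finset.sum_congr rfl fun a _ => ?_
      rw [map_mul, hA]
    have h7 : algebraMap (PA n) (FractionRing (PA n)) (δ * a) ≠ 0 := hA0 _ (mul_ne_zero hδ ha0)
    rw [← Algebra.smul_def] at h4
    rw [← inv_smul_smul₀ h7 z, h4]
    refine Submodule.smul_mem _ _ (Submodule.sum_mem _ fun a _ => ?_)
    rw [← Algebra.smul_def]
    exact Submodule.smul_mem _ _ (Submodule.subset_span ⟨a, rfl⟩)
  exact ⟨Module.Basis.mk h2 h3, fun a => by rw [Module.Basis.mk_apply]⟩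

omit [Algebra ℂ R] [IsScalarTower ℂ (PA n) R] in
private theorem SHFib_int {k : ℕ} (β : Fin (k + 1) → R) (hβ : LinearIndependent (PA n) β)
    (δ : PA n) (hδ : δ ≠ 0)
    (hspan : ∀ f : R, ∃ p : Fin (k + 1) → PA n,
      algebraMap (PA n) R δ * f = ∑ a, algebraMap (PA n) R (p a) * β a)
    (f : R) (P : Matrix (Fin (k + 1)) (Fin (k + 1)) (PA n))
    (hP : ∀ j, algebraMap (PA n) R δ * (f * β j) = ∑ i, algebraMap (PA n) R (P i j) * β i) :
    δ * Algebra.intTrace (PA n) R f = P.trace ∧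
      δ ^ (k + 1) * Algebra.intNorm (PA n) R f = P.det := by
  obtain ⟨b, hb⟩ := SHFib_basis β hβ δ hδ hspan
  have hint : Algebra.IsIntegral (PA n) R := Algebra.IsIntegral.of_finite _ _
  have hinj : Function.Injective (algebraMap (PA n) (FractionRing (PA n))) :=
    IsFractionRing.injective (PA n) (FractionRing (PA n))
  have hA : ∀ p : PA n, algebraMap R (FractionRing R) (algebraMap (PA n) R p) =
      algebraMap (FractionRing (PA n)) (FractionRing R) (algebraMap (PA n) (FractionRing (PA n)) p) := by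
    intro p
    rw [← IsScalarTower.algebraMap_apply (PA n) R (FractionRing R),
      ← IsScalarTower.algebraMap_apply (PA n) (FractionRing (PA n)) (FractionRing R)]
  have hδ' : algebraMap (PA n) (FractionRing (PA n)) δ ≠ 0 := by
    rw [Ne, FaithfulSMul.algebraMap_eq_zero_iff]
    exact hδ
  constructor
  · apply hinj
    rw [map_mul, Algebra.algebraMap_intTrace_fractionRing]
    exact SHFib_trace (algebraMap (PA n) (FractionRing (PA n))) (algebraMap R (FractionRing R)) hA β
      b hb δ hδ' f P hP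
  · apply hinj
    rw [map_mul, map_pow, Algebra.algebraMap_intNorm_fractionRing]
    exact SHFib_norm (algebraMap (PA n) (FractionRing (PA n))) (algebraMap R (FractionRing R)) hA β
      b hb δ hδ' f P hP

end Frac

section Quot

variable (R) in
/-- the ideal of the fibre -/
private noncomputable def SHFib_I (y : Fin (n + 1) → ℂ) : Ideal R :=
  Ideal.map (algebraMap (PA n) R) (RingHom.ker (MvPolynomial.eval y))

omit [IsDomain R] [IsIntegrallyClosed R] [Module.Finite (PA n) R]
  [Module.IsTorsionFree (PA n) R] in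
private theorem SHFib_mk (y : Fin (n + 1) → ℂ) (p : PA n) :
    Ideal.Quotient.mk (SHFib_I R y) (algebraMap (PA n) R p) =
      algebraMap ℂ (R ⧸ SHFib_I R y) (MvPolynomial.eval y p) := by
  have h1 : p - MvPolynomial.C (MvPolynomial.eval y p) ∈ RingHom.ker (MvPolynomial.eval y) := by
    rw [RingHom.mem_ker, map_sub, MvPolynomial.eval_C, sub_self]
  have h2 := Ideal.mem_map_of_mem (algebraMap (PA n) R) h1
  rw [map_sub] at h2
  have h3 : algebraMap (PA n) R (MvPolynomial.C (MvPolynomial.eval y p)) =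
      algebraMap ℂ R (MvPolynomial.eval y p) := by
    rw [IsScalarTower.algebraMap_apply ℂ (PA n) R, MvPolynomial.algebraMap_eq]
  rw [h3] at h2
  exact Ideal.Quotient.eq.2 h2

omit [IsScalarTower ℂ (PA n) R] [Algebra ℂ R] in
private theorem SHFib_tau (y : Fin (n + 1) → ℂ) (f : R) (hf : f ∈ SHFib_I R y) (r : R) :
    MvPolynomial.eval y (Algebra.intTrace (PA n) R (r * f)) = 0 := by
  revert r
  have hf' : f ∈ Submodule.span R
      (algebraMap (PA n) R '' (RingHom.ker (MvPolynomial.eval y) : Set (PA n))) := hf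
  clear hf
  induction hf' using Submodule.span_induction with
  | mem x hx =>
    obtain ⟨p, hp, rfl⟩ := hx
    intro r
    have h1 : MvPolynomial.eval y p = 0 := hp
    rw [mul_comm, ← Algebra.smul_def, map_smul, smul_eq_mul, map_mul, h1, zero_mul]
  | zero =>
    intro r
    rw [mul_zero, map_zero, map_zero]
  | add a b _ _ ha hb =>
    intro r
    rw [mul_add, map_add, map_add, ha, hb, add_zero]
  | smul a b _ hb =>
    intro r
    rw [smul_eq_mul, ← mul_assoc]
    exact hb (r * a)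

/-- the values of the trace form determine the coefficients -/
private theorem SHFib_zero {k : ℕ} (β : Fin (k + 1) → R) (y : Fin (n + 1) → ℂ)
    (hy : MvPolynomial.eval y (shDisc (n := n) β) ≠ 0) (c : Fin (k + 1) → ℂ)
    (hc : ∀ a, MvPolynomial.eval y (Algebra.intTrace (PA n) R
      (β a * ∑ b, algebraMap ℂ R (c b) * β b)) = 0) : c = 0 := by
  set T : Matrix (Fin (k + 1)) (Fin (k + 1)) ℂ := (MvPolynomial.eval y).mapMatrix
    (Matrix.of fun a c => Algebra.intTrace (PA n) R (β a * β c)) with hT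
  have hdet : T.det ≠ 0 := by
    rw [hT, ← RingHom.map_det]
    exact hy
  have h1 : T.mulVec c = 0 := by
    ext a
    have h2 := hc a
    rw [Finset.mul_sum, map_sum, map_sum] at h2
    rw [Matrix.mulVec, Pi.zero_apply, dotProduct, ← h2]
    refine Finset.sum_congr rfl fun b _ => ?_
    have h3 : β a * (algebraMap ℂ R (c b) * β b) =
        (MvPolynomial.C (c b) : PA n) • (β a * β b) := by
      rw [Algebra.smul_def, IsScalarTower.algebraMap_apply ℂ (PA n) R, MvPolynomial.algebraMap_eq]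
      ring
    rw [h3, map_smul, smul_eq_mul, map_mul, MvPolynomial.eval_C, mul_comm]
    rfl
  exact Matrix.eq_zero_of_mulVec_eq_zero hdet h1

/-- `β` is a basis of the fibre algebra -/
private theorem SHFib_qbasis {k : ℕ} (β : Fin (k + 1) → R)
    (hspan : ∀ f : R, ∃ p : Fin (k + 1) → PA n,
      algebraMap (PA n) R (shDisc β) * f = ∑ a, algebraMap (PA n) R (p a) * β a)
    (y : Fin (n + 1) → ℂ) (hy : MvPolynomial.eval y (shDisc (n := n) β) ≠ 0) :
    ∃ b : Module.Basis (Fin (k + 1)) ℂ (R ⧸ SHFib_I R y),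
      ∀ a, b a = Ideal.Quotient.mk (SHFib_I R y) (β a) := by
  have h1 : LinearIndependent ℂ (fun a => Ideal.Quotient.mk (SHFib_I R y) (β a)) := by
    rw [Fintype.linearIndependent_iff]
    intro c hc a
    have h2 : Ideal.Quotient.mk (SHFib_I R y) (∑ b, algebraMap ℂ R (c b) * β b) = 0 := by
      rw [← hc, map_sum]
      refine Finset.sum_congr rfl fun b _ => ?_
      rw [map_mul, Algebra.smul_def]
      rfl
    have h3 := Ideal.Quotient.eq_zero_iff_mem.1 h2
    exact congrFun (SHFib_zero β y hy c fun a => SHFib_tau y _ h3 (β a)) a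
  have h2 : ⊤ ≤ Submodule.span ℂ (Set.range fun a => Ideal.Quotient.mk (SHFib_I R y) (β a)) := by
    intro z _
    obtain ⟨f, rfl⟩ := Ideal.Quotient.mk_surjective z
    obtain ⟨p, hp⟩ := hspan f
    have h3 := congrArg (Ideal.Quotient.mk (SHFib_I R y)) hp
    rw [map_mul, map_sum, SHFib_mk, ← Algebra.smul_def] at h3
    rw [← inv_smul_smul₀ hy (Ideal.Quotient.mk (SHFib_I R y) f), h3]
    refine Submodule.smul_mem _ _ (Submodule.sum_mem _ fun a _ => ?_)
    rw [map_mul, SHFib_mk, ← Algebra.smul_def]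
    exact Submodule.smul_mem _ _ (Submodule.subset_span ⟨a, rfl⟩)
  exact ⟨Module.Basis.mk h1 h2, fun a => by rw [Module.Basis.mk_apply]⟩

/-- trace and norm of the fibre algebra -/
private theorem SHFib_qtr {k : ℕ} (β : Fin (k + 1) → R) (hβ : LinearIndependent (PA n) β)
    (hspan : ∀ f : R, ∃ p : Fin (k + 1) → PA n,
      algebraMap (PA n) R (shDisc β) * f = ∑ a, algebraMap (PA n) R (p a) * β a)
    (y : Fin (n + 1) → ℂ) (hy : MvPolynomial.eval y (shDisc (n := n) β) ≠ 0) (f : R) :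
    Algebra.trace ℂ (R ⧸ SHFib_I R y) (Ideal.Quotient.mk (SHFib_I R y) f) =
      MvPolynomial.eval y (Algebra.intTrace (PA n) R f) ∧
    Algebra.norm ℂ (Ideal.Quotient.mk (SHFib_I R y) f) =
      MvPolynomial.eval y (Algebra.intNorm (PA n) R f) := by
  obtain ⟨b, hb⟩ := SHFib_qbasis β hspan y hy
  have hδ : shDisc (n := n) β ≠ 0 := fun h => hy (by rw [h, map_zero])
  choose p hp using fun j => hspan (f * β j)
  have hP : ∀ j, algebraMap (PA n) R (shDisc β) * (f * β j) =
      ∑ i, algebraMap (PA n) R ((Matrix.of fun i j => p j i) i j) * β i := hp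
  obtain ⟨h1, h2⟩ := SHFib_int β hβ (shDisc β) hδ hspan f _ hP
  constructor
  · have h3 := SHFib_trace (MvPolynomial.eval y) (Ideal.Quotient.mk (SHFib_I R y))
      (fun p => SHFib_mk y p) β b hb (shDisc β) hy f _ hP
    rw [← h1, map_mul] at h3
    exact mul_left_cancel₀ hy h3
  · have h3 := SHFib_norm (MvPolynomial.eval y) (Ideal.Quotient.mk (SHFib_I R y))
      (fun p => SHFib_mk y p) β b hb (shDisc β) hy f _ hP
    rw [← h2, map_mul, map_pow] at h3
    exact mul_left_cancel₀ (pow_ne_zero _ hy) h3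

/-- the trace form of the fibre algebra is nondegenerate -/
private theorem SHFib_nd {k : ℕ} (β : Fin (k + 1) → R) (hβ : LinearIndependent (PA n) β)
    (hspan : ∀ f : R, ∃ p : Fin (k + 1) → PA n,
      algebraMap (PA n) R (shDisc β) * f = ∑ a, algebraMap (PA n) R (p a) * β a)
    (y : Fin (n + 1) → ℂ) (hy : MvPolynomial.eval y (shDisc (n := n) β) ≠ 0)
    (x : R ⧸ SHFib_I R y)
    (hx : ∀ z, Algebra.trace ℂ (R ⧸ SHFib_I R y) (x * z) = 0) : x = 0 := by
  obtain ⟨b, hb⟩ := SHFib_qbasis β hspan y hy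
  have h1 : x = Ideal.Quotient.mk (SHFib_I R y) (∑ a, algebraMap ℂ R (b.repr x a) * β a) := by
    rw [map_sum]
    conv_lhs => rw [← b.sum_repr x]
    refine Finset.sum_congr rfl fun a _ => ?_
    rw [map_mul, Algebra.smul_def, hb]
    rfl
  have h2 : (fun a => b.repr x a) = 0 := by
    refine SHFib_zero β y hy _ fun a => ?_
    rw [← (SHFib_qtr β hβ hspan y hy _).1, map_mul, ← h1, mul_comm]
    exact hx _
  rw [h1]
  have h3 : ∀ a, b.repr x a = 0 := fun a => congrFun h2 a
  simp only [h3, map_zero, zero_mul, Finset.sum_const_zero]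

variable (R) in
/-- points of the fibre algebra as points of `Spec R` -/
private noncomputable def SHFib_e (y : Fin (n + 1) → ℂ) (ν : (R ⧸ SHFib_I R y) →ₐ[ℂ] ℂ) :
    R →ₐ[ℂ] ℂ := ν.comp (Ideal.Quotient.mkₐ ℂ (SHFib_I R y))

omit [IsDomain R] [IsIntegrallyClosed R] [Module.Finite (PA n) R]
  [Module.IsTorsionFree (PA n) R] [IsScalarTower ℂ (PA n) R] in
private theorem SHFib_einj (y : Fin (n + 1) → ℂ) : Function.Injective (SHFib_e R y) := by
  intro ν μ h
  refine AlgHom.ext fun z => ?_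
  obtain ⟨f, rfl⟩ := Ideal.Quotient.mk_surjective z
  exact DFunLike.congr_fun h f

omit [IsDomain R] [IsIntegrallyClosed R] [Module.Finite (PA n) R]
  [Module.IsTorsionFree (PA n) R] in
private theorem SHFib_erange (y : Fin (n + 1) → ℂ) : Set.range (SHFib_e R y) = fib (xx R n) y := by
  ext ν
  constructor
  · rintro ⟨μ, rfl⟩ b
    show μ (Ideal.Quotient.mk (SHFib_I R y) (algebraMap (PA n) R (MvPolynomial.X b))) = y b
    rw [SHFib_mk, AlgHom.commutes, MvPolynomial.eval_X]
    rfl
  · intro hν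
    have h1 : ∀ f ∈ SHFib_I R y, ν f = 0 := by
      intro f hf
      have h2 : SHFib_I R y ≤ RingHom.ker ν := by
        refine Ideal.map_le_iff_le_comap.2 fun p hp => ?_
        have h3 : MvPolynomial.eval y p = 0 := hp
        show ν (algebraMap (PA n) R p) = 0
        rw [← aeval_xx, fib_aeval hν, h3]
      exact h2 hf
    refine ⟨Ideal.Quotient.liftₐ (SHFib_I R y) ν h1, ?_⟩
    ext f
    rfl

end Quot

/-- Let `δ = shDisc β`, `δ (y) ≠ 0`. `A_δ → R_δ` is free with basis `β` (`hspan`), so the fibre algebra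
`B = R / 𝔪_y R = ℂ ⊗ R` has the basis `β`, its trace form has the matrix `(Tr (β a β c)) (y)`
(`Algebra.intTrace_eq_of_isLocalization`, `Algebra.intTrace_eq_trace`, base change), which is
invertible. A nilpotent element has trace zero times everything, so `B` is reduced, finite
dimensional over `ℂ`: `B ≅ ℂ ^ (k + 1)` by the homomorphisms `B → ℂ`, which are the points of the fibre. -/
theorem sh_fibre {k : ℕ} (β : Fin (k + 1) → R) (hβ : LinearIndependent (PA n) β)
    (hspan : ∀ f : R, ∃ p : Fin (k + 1) → PA n,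
      algebraMap (PA n) R (shDisc β) * f = ∑ a, algebraMap (PA n) R (p a) * β a)
    (y : Fin (n + 1) → ℂ) (hy : MvPolynomial.eval y (shDisc (n := n) β) ≠ 0) :
    (fib (xx R n) y).Finite ∧ (fib (xx R n) y).ncard = k + 1 ∧
    (∀ c : Fin (k + 1) → ℂ, (∀ ν ∈ fib (xx R n) y, ∑ a, c a * ν (β a) = 0) → c = 0) ∧
    (∀ f : R, ∑ᶠ ν ∈ fib (xx R n) y, ν f =
      MvPolynomial.eval y (Algebra.intTrace (PA n) R f)) ∧
    ∀ f : R, ∏ᶠ ν ∈ fib (xx R n) y, ν f =
      MvPolynomial.eval y (Algebra.intNorm (PA n) R f) := by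
  obtain ⟨b, hb⟩ := SHFib_qbasis β hspan y hy
  have hfinB : Module.Finite ℂ (R ⧸ SHFib_I R y) := Module.Finite.of_basis b
  have hnd := SHFib_nd β hβ hspan y hy
  have hfin : Finite ((R ⧸ SHFib_I R y) →ₐ[ℂ] ℂ) := SHFib_fin
  rw [← SHFib_erange]
  refine ⟨Set.finite_range _, ?_, ?_, ?_, ?_⟩
  · rw [← Nat.card_coe_set_eq, Nat.card_range_of_injective (SHFib_einj y), SHFib_card hnd,
      Module.finrank_eq_card_basis b, Fintype.card_fin]
  · intro c hc
    have h1 : ∑ a, c a • b a = 0 := by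
      refine SHFib_ker hnd _ fun ν => ?_
      have h2 := hc _ ⟨ν, rfl⟩
      rw [map_sum, ← h2]
      refine Finset.sum_congr rfl fun a _ => ?_
      rw [map_smul, smul_eq_mul, hb]
      rfl
    funext a
    exact Fintype.linearIndependent_iff.1 b.linearIndependent c h1 a
  · intro f
    rw [finsum_mem_range (SHFib_einj y), ← (SHFib_qtr β hβ hspan y hy f).1, SHFib_tr hnd]
    rfl
  · intro f
    rw [finprod_mem_range (SHFib_einj y), ← (SHFib_qtr β hβ hspan y hy f).2, SHFib_nm hnd]
    rfl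

end Pool.Agent.Lib_KF
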