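import Pool.Agent.Lib_KF.SHBase

/-!
# SH2: traces and norms of homogeneous elements are homogeneous
-/

open scoped ENNReal NNReal

namespace Pool.Agent.Lib_KF

open Pool.Agent.Lib_GD

/-! ### The scaling automorphisms -/

private theorem SHHom_ext {S : Type} [CommRing S] [Algebra ℂ S] {𝒜 : ℕ → Submodule ℂ S}
    [GradedAlgebra 𝒜] (f g : S →ₐ[ℂ] S) (h : ∀ j, ∀ a ∈ 𝒜 j, f a = g a) : f = g := by
  classical
  ext a
  rw [← DirectSum.sum_support_decompose 𝒜 a, map_sum, map_sum]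
  exact Finset.sum_congr rfl fun j _ => h j _ (SetLike.coe_mem _)

private theorem SHHom_exists_rot {S : Type} [CommRing S] [Algebra ℂ S]
    (𝒜 : ℕ → Submodule ℂ S) [GradedAlgebra 𝒜] (z : ℂ) :
    ∃ μ : S →ₐ[ℂ] S, ∀ j, ∀ a ∈ 𝒜 j, μ a = z ^ j • a := by
  classical
  have hone : (fun j => (z ^ j • (𝒜 j).subtype : 𝒜 j →ₗ[ℂ] S)) 0
      (GradedMonoid.GOne.one (A := fun i => 𝒜 i)) = 1 := by
    change z ^ 0 • (1 : S) = 1
    rw [pow_zero, one_smul]
  have hmul : ∀ {i j : ℕ} (a : 𝒜 i) (b : 𝒜 j),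
      (fun j => (z ^ j • (𝒜 j).subtype : 𝒜 j →ₗ[ℂ] S)) (i + j)
        (GradedMonoid.GMul.mul (A := fun i => 𝒜 i) a b) =
      (fun j => (z ^ j • (𝒜 j).subtype : 𝒜 j →ₗ[ℂ] S)) i a *
      (fun j => (z ^ j • (𝒜 j).subtype : 𝒜 j →ₗ[ℂ] S)) j b := by
    intro i j a b
    change z ^ (i + j) • ((a : S) * (b : S)) = (z ^ i • (a : S)) * (z ^ j • (b : S))
    rw [smul_mul_smul_comm, pow_add]
  refine ⟨(DirectSum.toAlgebra ℂ (fun i => 𝒜 i)
      (fun j => z ^ j • (𝒜 j).subtype) hone @hmul).comp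
        (DirectSum.decomposeAlgEquiv 𝒜).toAlgHom, fun j a ha => ?_⟩
  have h1 : (DirectSum.decomposeAlgEquiv 𝒜) a = DirectSum.of (fun i => 𝒜 i) j ⟨a, ha⟩ :=
    DirectSum.decompose_of_mem 𝒜 ha
  change (DirectSum.toAlgebra ℂ (fun i => 𝒜 i)
      (fun j => z ^ j • (𝒜 j).subtype) hone @hmul)
        ((DirectSum.decomposeAlgEquiv 𝒜) a) = _
  rw [h1]
  exact DirectSum.toSemiring_of
    (fun j => (z ^ j • (𝒜 j).subtype : 𝒜 j →ₗ[ℂ] S).toAddMonoidHom)
    hone @hmul j ⟨a, ha⟩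

private theorem SHHom_exists_equiv {S : Type} [CommRing S] [Algebra ℂ S]
    (𝒜 : ℕ → Submodule ℂ S) [GradedAlgebra 𝒜] (z : ℂ) (hz : z ≠ 0) :
    ∃ σ : S ≃ₐ[ℂ] S, ∀ j, ∀ a ∈ 𝒜 j, σ a = z ^ j • a := by
  obtain ⟨f, hf⟩ := SHHom_exists_rot 𝒜 z
  obtain ⟨g, hg⟩ := SHHom_exists_rot 𝒜 z⁻¹
  refine ⟨AlgEquiv.ofAlgHom f g ?_ ?_, hf⟩
  · refine SHHom_ext (𝒜 := 𝒜) _ _ fun j a ha => ?_
    change f (g a) = a
    rw [hg j a ha, map_smul, hf j a ha, smul_smul, ← mul_pow, inv_mul_cancel₀ hz, one_pow,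
      one_smul]
  · refine SHHom_ext (𝒜 := 𝒜) _ _ fun j a ha => ?_
    change g (f a) = a
    rw [hf j a ha, map_smul, hg j a ha, smul_smul, ← mul_pow, mul_inv_cancel₀ hz, one_pow,
      one_smul]

/-- scaling of the variables -/
private noncomputable def SHHom_tau (n : ℕ) (c : ℂ) (hc : c ≠ 0) : PA n ≃ₐ[ℂ] PA n :=
  AlgEquiv.ofAlgHom
    (MvPolynomial.aeval fun b => MvPolynomial.C c * MvPolynomial.X b)
    (MvPolynomial.aeval fun b => MvPolynomial.C c⁻¹ * MvPolynomial.X b)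
    (by
      ext b : 1
      simp only [AlgHom.coe_comp, Function.comp_apply, MvPolynomial.aeval_X, map_mul,
        MvPolynomial.algHom_C, MvPolynomial.algebraMap_eq, AlgHom.coe_id, id]
      rw [← mul_assoc, ← map_mul, inv_mul_cancel₀ hc, map_one, one_mul])
    (by
      ext b : 1
      simp only [AlgHom.coe_comp, Function.comp_apply, MvPolynomial.aeval_X, map_mul,
        MvPolynomial.algHom_C, MvPolynomial.algebraMap_eq, AlgHom.coe_id, id]
      rw [← mul_assoc, ← map_mul, mul_inv_cancel₀ hc, map_one, one_mul])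

private theorem SHHom_tau_eval (n : ℕ) (c : ℂ) (hc : c ≠ 0) (p : PA n) (y : Fin (n + 1) → ℂ) :
    MvPolynomial.eval y (SHHom_tau n c hc p) = MvPolynomial.eval (c • y) p := by
  have h : ((MvPolynomial.aeval y).comp (SHHom_tau n c hc).toAlgHom : PA n →ₐ[ℂ] ℂ) =
      MvPolynomial.aeval (c • y) := by
    ext b
    change MvPolynomial.aeval y (MvPolynomial.aeval (fun b => MvPolynomial.C c * MvPolynomial.X b)
      (MvPolynomial.X b)) = _
    simp
  exact DFunLike.congr_fun h p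

variable {R : Type} [CommRing R] [IsDomain R] [IsIntegrallyClosed R] [Algebra ℂ R] {n : ℕ}
  [Algebra (PA n) R] [IsScalarTower ℂ (PA n) R] [Module.Finite (PA n) R]
  [Module.IsTorsionFree (PA n) R]

section

set_option linter.unusedSectionVars false

attribute [local instance] FractionRing.liftAlgebra

private theorem SHHom_frac (τ : PA n ≃+* PA n) (σ : R ≃+* R)
    (hc : ∀ a, algebraMap (PA n) R (τ a) = σ (algebraMap (PA n) R a)) :
    RingHom.comp (algebraMap (FractionRing (PA n)) (FractionRing R))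
      ((IsFractionRing.ringEquivOfRingEquiv τ :
        FractionRing (PA n) ≃+* FractionRing (PA n)) : FractionRing (PA n) →+* _) =
      RingHom.comp ((IsFractionRing.ringEquivOfRingEquiv σ :
        FractionRing R ≃+* FractionRing R) : FractionRing R →+* _)
        (algebraMap (FractionRing (PA n)) (FractionRing R)) := by
  refine IsLocalization.ringHom_ext (nonZeroDivisors (PA n)) ?_
  refine RingHom.ext fun a => ?_
  simp only [RingHom.coe_comp, Function.comp_apply, RingHom.coe_coe,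
    IsFractionRing.ringEquivOfRingEquiv_algebraMap, ← IsScalarTower.algebraMap_apply]
  rw [IsScalarTower.algebraMap_apply (PA n) R (FractionRing R), hc,
    IsScalarTower.algebraMap_apply (PA n) R (FractionRing R),
    IsFractionRing.ringEquivOfRingEquiv_algebraMap]

private theorem SHHom_trace (τ : PA n ≃+* PA n) (σ : R ≃+* R)
    (hc : ∀ a, algebraMap (PA n) R (τ a) = σ (algebraMap (PA n) R a)) (f : R) :
    Algebra.intTrace (PA n) R (σ f) = τ (Algebra.intTrace (PA n) R f) := by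
  apply IsFractionRing.injective (PA n) (FractionRing (PA n))
  have h1 := Algebra.trace_eq_of_equiv_equiv _ _ (SHHom_frac τ σ hc)
    (algebraMap R (FractionRing R) f)
  rw [IsFractionRing.ringEquivOfRingEquiv_algebraMap,
    ← Algebra.algebraMap_intTrace_fractionRing, ← Algebra.algebraMap_intTrace_fractionRing,
    RingEquiv.eq_symm_apply, IsFractionRing.ringEquivOfRingEquiv_algebraMap] at h1
  exact h1.symm

private theorem SHHom_norm (τ : PA n ≃+* PA n) (σ : R ≃+* R)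
    (hc : ∀ a, algebraMap (PA n) R (τ a) = σ (algebraMap (PA n) R a)) (f : R) :
    Algebra.intNorm (PA n) R (σ f) = τ (Algebra.intNorm (PA n) R f) := by
  apply IsFractionRing.injective (PA n) (FractionRing (PA n))
  have h1 := Algebra.norm_eq_of_equiv_equiv _ _ (SHHom_frac τ σ hc)
    (algebraMap R (FractionRing R) f)
  rw [IsFractionRing.ringEquivOfRingEquiv_algebraMap,
    ← Algebra.algebraMap_intNorm_fractionRing, ← Algebra.algebraMap_intNorm_fractionRing,
    RingEquiv.eq_symm_apply, IsFractionRing.ringEquivOfRingEquiv_algebraMap] at h1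
  exact h1.symm

private theorem SHHom_norm_map (a : PA n) :
    Algebra.intNorm (PA n) R (algebraMap (PA n) R a) =
      a ^ Module.finrank (FractionRing (PA n)) (FractionRing R) := by
  have : Module.Free (FractionRing (PA n)) (FractionRing R) := Module.Free.of_divisionRing _ _
  apply IsFractionRing.injective (PA n) (FractionRing (PA n))
  rw [Algebra.algebraMap_intNorm_fractionRing, ← IsScalarTower.algebraMap_apply,
    IsScalarTower.algebraMap_apply (PA n) (FractionRing (PA n)) (FractionRing R),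
    Algebra.norm_algebraMap, map_pow]

private theorem SHHom_norm_ne {f : R} (hf : f ≠ 0) : Algebra.intNorm (PA n) R f ≠ 0 := by
  have : FiniteDimensional (FractionRing (PA n)) (FractionRing R) :=
    .of_isLocalization (PA n) R (nonZeroDivisors (PA n))
  exact Algebra.intNorm_ne_zero.2 hf

end

private theorem SHHom_compat {𝒜 : ℕ → Submodule ℂ R} [GradedAlgebra 𝒜] {d : ℕ}
    (hx : ∀ b, xx R n b ∈ 𝒜 d) (t : ℂ) (ht : t ≠ 0) (σ : R ≃ₐ[ℂ] R)
    (hσ : ∀ j, ∀ a ∈ 𝒜 j, σ a = t ^ j • a) (a : PA n) :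
    algebraMap (PA n) R (SHHom_tau n (t ^ d) (pow_ne_zero d ht) a) =
      σ (algebraMap (PA n) R a) := by
  have h : (IsScalarTower.toAlgHom ℂ (PA n) R).comp
      (SHHom_tau n (t ^ d) (pow_ne_zero d ht)).toAlgHom =
      σ.toAlgHom.comp (IsScalarTower.toAlgHom ℂ (PA n) R) := by
    ext b
    change algebraMap (PA n) R (MvPolynomial.aeval
      (fun b => MvPolynomial.C (t ^ d) * MvPolynomial.X b) (MvPolynomial.X b)) =
      σ (algebraMap (PA n) R (MvPolynomial.X b))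
    rw [MvPolynomial.aeval_X]
    have h1 := hσ d _ (hx b)
    unfold xx at h1
    rw [h1, ← MvPolynomial.smul_eq_C_mul]
    exact map_smul (IsScalarTower.toAlgHom ℂ (PA n) R) (t ^ d) (MvPolynomial.X b)
  exact DFunLike.congr_fun h a

/-- The ring automorphisms `σ_t` of `R` (multiplication by `t ^ j` on `𝒜 j`) and `τ_t` of `ℂ[x]`
(`x_b ↦ t ^ d x_b`) are compatible; extend them to the fraction fields and use
`Algebra.trace_eq_of_equiv_equiv`. `σ_t f = t ^ j f` and the trace is `ℂ`-linear. -/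
theorem sh_trace_hom {𝒜 : ℕ → Submodule ℂ R} [GradedAlgebra 𝒜] {d : ℕ}
    (hx : ∀ b, xx R n b ∈ 𝒜 d) {j : ℕ} {f : R} (hf : f ∈ 𝒜 j) (t : ℂ) (ht : t ≠ 0)
    (y : Fin (n + 1) → ℂ) :
    MvPolynomial.eval (t ^ d • y) (Algebra.intTrace (PA n) R f) =
      t ^ j * MvPolynomial.eval y (Algebra.intTrace (PA n) R f) := by
  obtain ⟨σ, hσ⟩ := SHHom_exists_equiv 𝒜 t ht
  have h1 := SHHom_trace (SHHom_tau n (t ^ d) (pow_ne_zero d ht)).toRingEquiv σ.toRingEquiv
    (SHHom_compat hx t ht σ hσ) f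
  change Algebra.intTrace (PA n) R (σ f) =
    SHHom_tau n (t ^ d) (pow_ne_zero d ht) (Algebra.intTrace (PA n) R f) at h1
  rw [← SHHom_tau_eval n (t ^ d) (pow_ne_zero d ht), ← h1, hσ j f hf,
    ← algebraMap_smul (PA n) (t ^ j) f, map_smul, smul_eq_mul, map_mul,
    MvPolynomial.algebraMap_eq, MvPolynomial.eval_C]

/-- The same for the norm (`Algebra.norm_eq_of_equiv_equiv`); `e = j [K : K₀]`. -/
theorem sh_norm_hom {𝒜 : ℕ → Submodule ℂ R} [GradedAlgebra 𝒜] {d : ℕ}
    (hx : ∀ b, xx R n b ∈ 𝒜 d) {j : ℕ} {f : R} (hf : f ∈ 𝒜 j) :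
    ∃ e : ℕ, ∀ t : ℂ, t ≠ 0 → ∀ y : Fin (n + 1) → ℂ,
      MvPolynomial.eval (t ^ d • y) (Algebra.intNorm (PA n) R f) =
        t ^ e * MvPolynomial.eval y (Algebra.intNorm (PA n) R f) := by
  obtain ⟨N, hN⟩ : ∃ N : ℕ, ∀ a : PA n,
      Algebra.intNorm (PA n) R (algebraMap (PA n) R a) = a ^ N := ⟨_, SHHom_norm_map⟩
  refine ⟨j * N, fun t ht y => ?_⟩
  obtain ⟨σ, hσ⟩ := SHHom_exists_equiv 𝒜 t ht
  have h1 := SHHom_norm (SHHom_tau n (t ^ d) (pow_ne_zero d ht)).toRingEquiv σ.toRingEquiv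
    (SHHom_compat hx t ht σ hσ) f
  change Algebra.intNorm (PA n) R (σ f) =
    SHHom_tau n (t ^ d) (pow_ne_zero d ht) (Algebra.intNorm (PA n) R f) at h1
  rw [← SHHom_tau_eval n (t ^ d) (pow_ne_zero d ht), ← h1, hσ j f hf,
    ← algebraMap_smul (PA n) (t ^ j) f, Algebra.smul_def, map_mul, hN, map_mul, map_pow,
    MvPolynomial.algebraMap_eq, MvPolynomial.eval_C, pow_mul]

/-- the norm of a non-zero element is not zero -/
theorem sh_norm_ne {f : R} (hf : f ≠ 0) : Algebra.intNorm (PA n) R f ≠ 0 :=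
  SHHom_norm_ne hf

end Pool.Agent.Lib_KF
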