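import Mathlib

/-!
# SH5a: analytic roots
-/

open scoped ENNReal NNReal

namespace Pool.Agent.Lib_KF

private theorem shroot_cd {N D : ℕ} (c : Fin D → MvPolynomial (Fin N) ℂ) :
    ContDiff ℂ (⊤ : WithTop ℕ∞) (fun u : (Fin N → ℂ) × ℂ =>
      u.2 ^ D + ∑ i : Fin D, MvPolynomial.eval u.1 (c i) * u.2 ^ (i : ℕ)) := by
  have h : ∀ p : MvPolynomial (Fin N) ℂ,
      ContDiff ℂ (⊤ : WithTop ℕ∞) (fun y : Fin N → ℂ => MvPolynomial.eval y p) := by
    intro p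
    induction p using MvPolynomial.induction_on with
    | C a => simpa using contDiff_const
    | add p q hp hq => simpa using hp.add hq
    | mul_X p i hp => simpa using hp.mul (contDiff_apply ℂ ℂ i)
  exact (contDiff_snd.pow D).add (ContDiff.sum fun i _ =>
    ((h (c i)).comp contDiff_fst).mul (contDiff_snd.pow (i : ℕ)))

/-- a simple root of a monic polynomial with analytic coefficients is analytic -/
theorem sh_root {N D : ℕ} (c : Fin D → MvPolynomial (Fin N) ℂ) (y₀ : Fin N → ℂ) (z₀ : ℂ)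
    (h0 : z₀ ^ D + ∑ i : Fin D, MvPolynomial.eval y₀ (c i) * z₀ ^ (i : ℕ) = 0)
    (h1 : D * z₀ ^ (D - 1) + ∑ i : Fin D, MvPolynomial.eval y₀ (c i) *
      ((i : ℕ) * z₀ ^ ((i : ℕ) - 1)) ≠ 0) :
    ∃ (ε : ℝ) (z : (Fin N → ℂ) → ℂ), 0 < ε ∧ z y₀ = z₀ ∧
      AnalyticOnNhd ℂ z (Metric.ball y₀ ε) ∧
      ∀ y ∈ Metric.ball y₀ ε,
        z y ^ D + ∑ i : Fin D, MvPolynomial.eval y (c i) * z y ^ (i : ℕ) = 0 := by
  set f : (Fin N → ℂ) × ℂ → ℂ := fun u =>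
    u.2 ^ D + ∑ i : Fin D, MvPolynomial.eval u.1 (c i) * u.2 ^ (i : ℕ) with hf
  have hcd : ContDiffAt ℂ (⊤ : WithTop ℕ∞) f (y₀, z₀) := (shroot_cd c).contDiffAt
  have hne : (⊤ : WithTop ℕ∞) ≠ 0 := by simp
  set a : ℂ := D * z₀ ^ (D - 1) + ∑ i : Fin D, MvPolynomial.eval y₀ (c i) *
      ((i : ℕ) * z₀ ^ ((i : ℕ) - 1)) with ha
  have hfd : HasFDerivAt f (fderiv ℂ f (y₀, z₀)) (y₀, z₀) :=
    (hcd.differentiableAt hne).hasFDerivAt
  have hcomp : fderiv ℂ f (y₀, z₀) ∘L ContinuousLinearMap.inr ℂ (Fin N → ℂ) ℂ =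
      ContinuousLinearMap.toSpanSingleton ℂ a := by
    have hin : HasFDerivAt (fun z : ℂ => (y₀, z)) (ContinuousLinearMap.inr ℂ (Fin N → ℂ) ℂ) z₀ :=
      hasFDerivAt_prodMk_right y₀ z₀
    have h2 : HasFDerivAt (fun z : ℂ => f (y₀, z))
        (fderiv ℂ f (y₀, z₀) ∘L ContinuousLinearMap.inr ℂ (Fin N → ℂ) ℂ) z₀ :=
      HasFDerivAt.comp z₀ hfd hin
    have h3 : HasDerivAt (fun z : ℂ => f (y₀, z)) a z₀ := by
      have h4 : HasDerivAt (fun z : ℂ => z ^ D) (D * z₀ ^ (D - 1)) z₀ := hasDerivAt_pow D z₀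
      have h5 : ∀ i : Fin D, HasDerivAt
          (fun z : ℂ => MvPolynomial.eval y₀ (c i) * z ^ (i : ℕ))
          (MvPolynomial.eval y₀ (c i) * ((i : ℕ) * z₀ ^ ((i : ℕ) - 1))) z₀ := fun i =>
        (hasDerivAt_pow (i : ℕ) z₀).const_mul _
      exact h4.add (HasDerivAt.fun_sum fun i _ => h5 i)
    exact h2.unique h3.hasFDerivAt
  have hinv : (fderiv ℂ f (y₀, z₀) ∘L ContinuousLinearMap.inr ℂ (Fin N → ℂ) ℂ).IsInvertible := by
    rw [hcomp]
    refine ⟨ContinuousLinearEquiv.unitsEquivAut ℂ (Units.mk0 a h1), ?_⟩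
    ext
    simp
  have hz := hcd.contDiffAt_implicitFunction hne hinv
  set z := hcd.implicitFunction hne hinv with hzdef
  have hz0 : z y₀ = z₀ := hcd.implicitFunction_apply_self hne hinv
  have hev := hcd.eventually_apply_implicitFunction hne hinv
  have hana : AnalyticAt ℂ z y₀ := ContDiffAt.analyticAt hz
  have hev2 := hana.eventually_analyticAt
  obtain ⟨ε, hε, hball⟩ := Metric.eventually_nhds_iff_ball.1 (hev.and hev2)
  refine ⟨ε, z, hε, hz0, fun y hy => (hball y hy).2, fun y hy => ?_⟩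
  have h6 := (hball y hy).1
  rw [← hzdef] at h6
  have h7 : f (y₀, z₀) = 0 := h0
  rw [h7] at h6
  exact h6

end Pool.Agent.Lib_KF
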