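import Pool.Agent.Lib_KF.SHFib
import Pool.Agent.Lib_KF.SHRoot

/-!
# SH5: local holomorphic sections
-/

open scoped ENNReal NNReal

namespace Pool.Agent.Lib_KF

open Pool.Agent.Lib_GD

variable {R : Type} [CommRing R] [IsDomain R] [IsIntegrallyClosed R] [Algebra ℂ R] {n : ℕ}
  [Algebra (PA n) R] [IsScalarTower ℂ (PA n) R] [Module.Finite (PA n) R]
  [Module.IsTorsionFree (PA n) R]

/-- the numerator of the Lagrange formula -/
private noncomputable def SHSecNum {D : ℕ} (c : Fin D → ℂ) (z : ℂ) (T : ℕ → ℂ) : ℂ :=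
  ∑ j ∈ Finset.range D, z ^ j * T (D - 1 - j) +
    ∑ i : Fin D, c i * ∑ j ∈ Finset.range (i : ℕ), z ^ j * T ((i : ℕ) - 1 - j)

private noncomputable def SHSecDer {D : ℕ} (c : Fin D → ℂ) (z : ℂ) : ℂ :=
  D * z ^ (D - 1) + ∑ i : Fin D, c i * ((i : ℕ) * z ^ ((i : ℕ) - 1))

private lemma SHSec_num_self {D : ℕ} (c : Fin D → ℂ) (z : ℂ) :
    SHSecNum c z (fun m => z ^ m) = SHSecDer c z := by
  unfold SHSecNum SHSecDer
  rw [geom_sum₂_self]
  congr 1
  refine Finset.sum_congr rfl fun i _ => ?_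
  rw [geom_sum₂_self]

private lemma SHSec_num_mul {D : ℕ} (c : Fin D → ℂ) (z w : ℂ) :
    SHSecNum c z (fun m => w ^ m) * (z - w) =
      (z ^ D + ∑ i : Fin D, c i * z ^ (i : ℕ)) - (w ^ D + ∑ i : Fin D, c i * w ^ (i : ℕ)) := by
  unfold SHSecNum
  rw [add_mul, geom_sum₂_mul, Finset.sum_mul]
  have h : ∀ i : Fin D, c i * (∑ j ∈ Finset.range (i : ℕ), z ^ j * w ^ ((i : ℕ) - 1 - j)) *
      (z - w) = c i * z ^ (i : ℕ) - c i * w ^ (i : ℕ) := fun i => by
    rw [mul_assoc, geom_sum₂_mul, mul_sub]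
  rw [Finset.sum_congr rfl fun i _ => h i, Finset.sum_sub_distrib]
  ring

private lemma SHSec_num_sum {ι : Type} {D : ℕ} (c : Fin D → ℂ) (z : ℂ) (S : Finset ι)
    (g w : ι → ℂ) :
    SHSecNum c z (fun m => ∑ ν ∈ S, g ν * w ν ^ m) =
      ∑ ν ∈ S, g ν * SHSecNum c z (fun m => w ν ^ m) := by
  unfold SHSecNum
  simp only [mul_add, Finset.sum_add_distrib, Finset.mul_sum]
  congr 1
  · rw [Finset.sum_comm]
    refine Finset.sum_congr rfl fun j _ => Finset.sum_congr rfl fun i _ => ?_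
    ring
  · rw [Finset.sum_congr rfl fun i _ => Finset.sum_comm, Finset.sum_comm]
    refine Finset.sum_congr rfl fun j _ => Finset.sum_congr rfl fun i _ =>
      Finset.sum_congr rfl fun l _ => ?_
    ring

private lemma SHSec_lag {ι : Type} [DecidableEq ι] {D : ℕ} (c : Fin D → ℂ) (z : ℂ) (S : Finset ι) (w : ι → ℂ)
    (hP : ∀ T, ∏ ν ∈ S, (T - w ν) = T ^ D + ∑ i : Fin D, c i * T ^ (i : ℕ))
    (hz : z ^ D + ∑ i : Fin D, c i * z ^ (i : ℕ) = 0) :
    (∃ ν ∈ S, w ν = z) ∧ ∀ ν ∈ S, w ν = z →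
      (SHSecDer c z = ∏ ν' ∈ S.erase ν, (z - w ν')) ∧ (SHSecDer c z ≠ 0 → ∀ g : ι → ℂ,
        SHSecDer c z * g ν = SHSecNum c z (fun m => ∑ ν ∈ S, g ν * w ν ^ m)) := by
  have h1 : ∃ ν ∈ S, w ν = z := by
    rw [← hP z, Finset.prod_eq_zero_iff] at hz
    obtain ⟨ν, hν, h⟩ := hz
    exact ⟨ν, hν, (sub_eq_zero.1 h).symm⟩
  have h2 : ∀ ν ∈ S, w ν ^ D + ∑ i : Fin D, c i * w ν ^ (i : ℕ) = 0 := fun ν hν => by
    rw [← hP]
    exact Finset.prod_eq_zero hν (sub_self _)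
  have h3 : ∀ ν ∈ S, w ν ≠ z → SHSecNum c z (fun m => w ν ^ m) = 0 := by
    intro ν hν hne
    have h := SHSec_num_mul c z (w ν)
    rw [hz, h2 ν hν, sub_zero] at h
    exact (mul_eq_zero.1 h).resolve_right (sub_ne_zero.2 hne.symm)
  refine ⟨h1, fun ν hν hw => ?_⟩
  have h4 : SHSecDer c z = ∏ ν' ∈ S.erase ν, (z - w ν') := by
    have h5 : (∏ ν ∈ S, (Polynomial.X - Polynomial.C (w ν)) : Polynomial ℂ) =
        Polynomial.X ^ D + ∑ i : Fin D, Polynomial.C (c i) * Polynomial.X ^ (i : ℕ) := by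
      refine Polynomial.funext fun T => ?_
      rw [Polynomial.eval_prod]
      simp only [Polynomial.eval_sub, Polynomial.eval_X, Polynomial.eval_C, Polynomial.eval_add,
        Polynomial.eval_pow, Polynomial.eval_finsetSum, Polynomial.eval_mul]
      exact hP T
    have h6 := congrArg (fun q => Polynomial.eval z (Polynomial.derivative q)) h5
    simp only [← Finset.mul_prod_erase S _ hν, Polynomial.derivative_mul, Polynomial.derivative_sub,
      Polynomial.derivative_X, Polynomial.derivative_C, sub_zero, one_mul, Polynomial.eval_add,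
      Polynomial.eval_mul, Polynomial.eval_sub, Polynomial.eval_X, Polynomial.eval_C, hw, sub_self,
      zero_mul, add_zero, Polynomial.eval_prod, Polynomial.derivative_add,
      Polynomial.derivative_X_pow, Polynomial.derivative_sum, Polynomial.eval_finsetSum,
      Polynomial.eval_pow] at h6
    rw [h6]
    unfold SHSecDer
    simp
  refine ⟨h4, fun hne g => ?_⟩
  rw [SHSec_num_sum, Finset.sum_eq_single_of_mem ν hν]
  · rw [hw, SHSec_num_self, mul_comm]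
  · intro ν' hν' hne'
    by_cases h : w ν' = z
    · exfalso
      refine hne ?_
      rw [h4]
      exact Finset.prod_eq_zero (Finset.mem_erase.2 ⟨hne', hν'⟩) (by rw [h, sub_self])
    · rw [h3 ν' hν' h, mul_zero]

omit [IsDomain R] [IsIntegrallyClosed R] [Algebra (PA n) R] [IsScalarTower ℂ (PA n) R]
  [Module.Finite (PA n) R] [Module.IsTorsionFree (PA n) R] in
private lemma SHSec_theta {k : ℕ} (β : Fin (k + 1) → R) (F : Set (R →ₐ[ℂ] ℂ)) (hfin : F.Finite)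
    (hcard : F.ncard = k + 1)
    (hind : ∀ c : Fin (k + 1) → ℂ, (∀ ν ∈ F, ∑ a, c a * ν (β a) = 0) → c = 0) :
    ∃ θ : R, Set.InjOn (fun ν : R →ₐ[ℂ] ℂ => ν θ) F := by
  classical
  have := hfin.fintype
  let L : (Fin (k + 1) → ℂ) →ₗ[ℂ] (F → ℂ) :=
    { toFun := fun c ν => ∑ a, c a * ν.1 (β a)
      map_add' := fun c c' => by
        ext ν
        simp [add_mul, Finset.sum_add_distrib]
      map_smul' := fun r c => by
        ext ν
        simp [mul_assoc, Finset.mul_sum] }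
  have hinj : Function.Injective L := by
    rw [injective_iff_map_eq_zero]
    intro c hc
    exact hind c fun ν hν => congrFun hc ⟨ν, hν⟩
  have hdim : Module.finrank ℂ (Fin (k + 1) → ℂ) = Module.finrank ℂ (F → ℂ) := by
    rw [Module.finrank_fintype_fun_eq_card, Module.finrank_fintype_fun_eq_card, Fintype.card_fin,
      ← hcard, Set.ncard_eq_toFinset_card', Set.toFinset_card]
  have hsurj := (LinearMap.injective_iff_surjective_of_finrank_eq_finrank hdim).1 hinj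
  obtain ⟨t, ht⟩ := hsurj (fun ν => ((Fintype.equivFin F ν : ℕ) : ℂ))
  have h1 : ∀ ν (hν : ν ∈ F), ν (∑ a, t a • β a) = ((Fintype.equivFin F ⟨ν, hν⟩ : ℕ) : ℂ) := by
    intro ν hν
    rw [map_sum]
    simp only [map_smul, smul_eq_mul]
    exact congrFun ht ⟨ν, hν⟩
  refine ⟨∑ a, t a • β a, fun ν hν ν' hν' h => ?_⟩
  have h2 : ν (∑ a, t a • β a) = ν' (∑ a, t a • β a) := h
  rw [h1 ν hν, h1 ν' hν'] at h2
  have h3 := (Fintype.equivFin F).injective (Fin.ext (Nat.cast_injective h2))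
  exact congrArg Subtype.val h3

omit [IsScalarTower ℂ (PA n) R] in
private lemma SHSec_char {k : ℕ} (θ : R) : ∃ c : Fin (k + 1) → PA n,
    ∀ (y : Fin (n + 1) → ℂ) (S : Finset (R →ₐ[ℂ] ℂ)), S.card = k + 1 →
      (∀ f : R, ∏ ν ∈ S, ν f = MvPolynomial.eval y (Algebra.intNorm (PA n) R f)) →
      ∀ T : ℂ, ∏ ν ∈ S, (T - ν θ) =
        T ^ (k + 1) + ∑ i : Fin (k + 1), MvPolynomial.eval y (c i) * T ^ (i : ℕ) := by
  classical
  set b : ℕ → Polynomial ℂ := fun j => Lagrange.basis (Finset.range (k + 2)) (fun j : ℕ => (j : ℂ)) j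
    with hb
  refine ⟨fun i => ∑ j ∈ Finset.range (k + 2), MvPolynomial.C ((b j).coeff i) *
    Algebra.intNorm (PA n) R (algebraMap ℂ R j - θ), fun y S hS hn T => ?_⟩
  set P : Polynomial ℂ := ∏ ν ∈ S, (Polynomial.X - Polynomial.C (ν θ)) with hP
  have hmon : P.Monic := Polynomial.monic_prod_of_monic _ _ fun ν _ => Polynomial.monic_X_sub_C _
  have hdeg : P.natDegree = k + 1 := by
    rw [hP, Polynomial.natDegree_prod_of_monic _ _ fun ν _ => Polynomial.monic_X_sub_C _]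
    simp [hS]
  have hev : ∀ T, P.eval T = ∏ ν ∈ S, (T - ν θ) := fun T => by
    rw [hP, Polynomial.eval_prod]
    simp
  have hint : P = Lagrange.interpolate (Finset.range (k + 2)) (fun j : ℕ => (j : ℂ))
      fun i => P.eval (i : ℂ) := by
    refine Lagrange.eq_interpolate (fun i _ j _ h => Nat.cast_injective h) ?_
    rw [Polynomial.degree_eq_natDegree hmon.ne_zero, hdeg, Finset.card_range]
    exact_mod_cast Nat.lt_succ_self _
  have hcoef : ∀ i, P.coeff i = MvPolynomial.eval y (∑ j ∈ Finset.range (k + 2),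
      MvPolynomial.C ((b j).coeff i) * Algebra.intNorm (PA n) R (algebraMap ℂ R j - θ)) := by
    intro i
    have h1 : P.coeff i = (∑ j ∈ Finset.range (k + 2), Polynomial.C (P.eval (j : ℂ)) * b j).coeff i := by
      conv_lhs => rw [hint]
      rw [Lagrange.interpolate_apply]
    rw [h1, Polynomial.finsetSum_coeff, map_sum]
    refine Finset.sum_congr rfl fun j _ => ?_
    rw [Polynomial.coeff_C_mul, map_mul, MvPolynomial.eval_C, ← hn, hev, mul_comm]
    congr 1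
    refine Finset.prod_congr rfl fun ν _ => ?_
    rw [map_sub, AlgHom.commutes]
    rfl
  rw [← hev, hmon.as_sum, hdeg, Polynomial.eval_add, Polynomial.eval_pow, Polynomial.eval_X,
    Polynomial.eval_finsetSum, Finset.sum_range]
  congr 1
  refine Finset.sum_congr rfl fun i _ => ?_
  rw [Polynomial.eval_mul, Polynomial.eval_C, Polynomial.eval_pow, Polynomial.eval_X, hcoef]

private lemma SHSec_an {N : ℕ} (p : MvPolynomial (Fin N) ℂ) (s : Set (Fin N → ℂ)) :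
    AnalyticOnNhd ℂ (fun y => MvPolynomial.eval y p) s :=
  (AnalyticOnNhd.eval_mvPolynomial p).mono (Set.subset_univ _)

/-- Choose `θ = ∑ t_a β_a`, `t_a ∈ ℂ`, with different values at the `k + 1` points of the fibre over
`y₀` (possible by `indep`). Then `1, θ, …, θ ^ k` is a basis of the fibre algebra (Vandermonde), so the
determinant `Δ ∈ ℂ[x]` of the coefficients of `δ θ ^ i` in terms of `β` does not vanish at `y₀` and `R_(Δ δ) = A_(Δ δ) [θ] =
A_(Δ δ) [T] / (P)`, `P` the characteristic polynomial of `θ` (monic of degree `k + 1`,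
coefficients in `ℂ[x]` as `R` is integral over the integrally closed `ℂ[x]`; or use the minimal polynomial over `ℂ[x]`). `ν₀ θ` is a simple root of
`P_{y₀}`; take the analytic root `z (y)` of `sh_root`; the homomorphism `x ↦ y`, `θ ↦ z (y)` of `R_(Δ δ)` is `σ y`;
`σ y (f)` is a polynomial in `z (y)` with coefficients rational in `y`. -/
theorem sh_sec {k : ℕ} (β : Fin (k + 1) → R) (hβ : LinearIndependent (PA n) β)
    (hspan : ∀ f : R, ∃ p : Fin (k + 1) → PA n,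
      algebraMap (PA n) R (shDisc β) * f = ∑ a, algebraMap (PA n) R (p a) * β a)
    (y₀ : Fin (n + 1) → ℂ) (hy : MvPolynomial.eval y₀ (shDisc (n := n) β) ≠ 0)
    (ν₀ : R →ₐ[ℂ] ℂ) (hν₀ : ν₀ ∈ fib (xx R n) y₀) :
    ∃ (ε : ℝ) (σ : (Fin (n + 1) → ℂ) → (R →ₐ[ℂ] ℂ)), 0 < ε ∧ σ y₀ = ν₀ ∧
      (∀ y ∈ Metric.ball y₀ ε, σ y ∈ fib (xx R n) y) ∧
      ∀ f, AnalyticOnNhd ℂ (fun y => σ y f) (Metric.ball y₀ ε) := by
  classical
  have hgood : ∀ y : Fin (n + 1) → ℂ, MvPolynomial.eval y (shDisc (n := n) β) ≠ 0 →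
      ∃ S : Finset (R →ₐ[ℂ] ℂ), (∀ ν, ν ∈ S ↔ ν ∈ fib (xx R n) y) ∧ S.card = k + 1 ∧
        (∀ f : R, ∑ ν ∈ S, ν f = MvPolynomial.eval y (Algebra.intTrace (PA n) R f)) ∧
        ∀ f : R, ∏ ν ∈ S, ν f = MvPolynomial.eval y (Algebra.intNorm (PA n) R f) := by
    intro y hy
    obtain ⟨hfin, hcard, _, htr, hnm⟩ := sh_fibre β hβ hspan y hy
    refine ⟨hfin.toFinset, fun ν => hfin.mem_toFinset, ?_, fun f => ?_, fun f => ?_⟩
    · rw [← Set.ncard_eq_toFinset_card _ hfin, hcard]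
    · rw [← htr f, finsum_mem_eq_finite_toFinset_sum _ hfin]
    · rw [← hnm f, finprod_mem_eq_finite_toFinset_prod _ hfin]
  obtain ⟨hfin0, hcard0, hind0, _, _⟩ := sh_fibre β hβ hspan y₀ hy
  obtain ⟨θ, hθ⟩ := SHSec_theta β _ hfin0 hcard0 hind0
  obtain ⟨c, hc⟩ := SHSec_char (n := n) (k := k) θ
  obtain ⟨S₀, hS₀, hS₀c, hS₀t, hS₀n⟩ := hgood y₀ hy
  have hP₀ := hc y₀ S₀ hS₀c hS₀n
  have h0 : (ν₀ θ) ^ (k + 1) +
      ∑ i : Fin (k + 1), MvPolynomial.eval y₀ (c i) * (ν₀ θ) ^ (i : ℕ) = 0 := by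
    rw [← hP₀]
    exact Finset.prod_eq_zero ((hS₀ ν₀).2 hν₀) (sub_self _)
  obtain ⟨_, hlag⟩ := SHSec_lag (fun i => MvPolynomial.eval y₀ (c i)) (ν₀ θ) S₀ (fun ν => ν θ)
    hP₀ h0
  obtain ⟨hder, -⟩ := hlag ν₀ ((hS₀ ν₀).2 hν₀) rfl
  have h1 : SHSecDer (fun i => MvPolynomial.eval y₀ (c i)) (ν₀ θ) ≠ 0 := by
    rw [hder, Finset.prod_ne_zero_iff]
    intro ν' hν' h
    exact (Finset.mem_erase.1 hν').1
      (hθ ((hS₀ ν').1 (Finset.mem_erase.1 hν').2) hν₀ (sub_eq_zero.1 h).symm)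
  obtain ⟨ε₁, z, hε₁, hz0, hza, hzr⟩ := sh_root c y₀ (ν₀ θ) h0 h1
  have hΦ : AnalyticOnNhd ℂ (fun y => SHSecDer (fun i => MvPolynomial.eval y (c i)) (z y))
      (Metric.ball y₀ ε₁) := by
    unfold SHSecDer
    refine (analyticOnNhd_const.mul (hza.pow _)).add ?_
    refine Finset.analyticOnNhd_fun_sum _ fun i _ => ?_
    exact (SHSec_an _ _).mul (analyticOnNhd_const.mul (hza.pow _))
  have hy₁ : y₀ ∈ Metric.ball y₀ ε₁ := Metric.mem_ball_self hε₁
  have e1 : ∀ᶠ y in nhds y₀, SHSecDer (fun i => MvPolynomial.eval y (c i)) (z y) ≠ 0 := by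
    refine (hΦ y₀ hy₁).continuousAt.eventually_ne ?_
    simpa only [hz0] using h1
  have e2 : ∀ᶠ y in nhds y₀, MvPolynomial.eval y (shDisc (n := n) β) ≠ 0 :=
    (SHSec_an (shDisc (n := n) β) Set.univ y₀ (Set.mem_univ _)).continuousAt.eventually_ne hy
  obtain ⟨ε₂, hε₂, he⟩ := Metric.eventually_nhds_iff_ball.1 (e1.and e2)
  have hsub1 : Metric.ball y₀ (min ε₁ ε₂) ⊆ Metric.ball y₀ ε₁ :=
    Metric.ball_subset_ball (min_le_left _ _)
  have hsub2 : Metric.ball y₀ (min ε₁ ε₂) ⊆ Metric.ball y₀ ε₂ :=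
    Metric.ball_subset_ball (min_le_right _ _)
  let σ : (Fin (n + 1) → ℂ) → (R →ₐ[ℂ] ℂ) := fun y =>
    if h : ∃ ν ∈ fib (xx R n) y, ν θ = z y then h.choose else ν₀
  have hkey : ∀ y ∈ Metric.ball y₀ (min ε₁ ε₂), (σ y ∈ fib (xx R n) y ∧ σ y θ = z y) ∧
      ∀ f, SHSecDer (fun i => MvPolynomial.eval y (c i)) (z y) * σ y f =
        SHSecNum (fun i => MvPolynomial.eval y (c i)) (z y)
          (fun m => MvPolynomial.eval y (Algebra.intTrace (PA n) R (f * θ ^ m))) := by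
    intro y hyb
    obtain ⟨hd, hδ⟩ := he y (hsub2 hyb)
    obtain ⟨S, hS, hSc, hSt, hSn⟩ := hgood y hδ
    have hP := hc y S hSc hSn
    obtain ⟨⟨ν, hν, hνz⟩, hl⟩ := SHSec_lag (fun i => MvPolynomial.eval y (c i)) (z y) S
      (fun ν => ν θ) hP (hzr y (hsub1 hyb))
    have hex : ∃ ν ∈ fib (xx R n) y, ν θ = z y := ⟨ν, (hS ν).1 hν, hνz⟩
    have hσ : σ y ∈ fib (xx R n) y ∧ σ y θ = z y := by
      have : σ y = hex.choose := dif_pos hex
      rw [this]
      exact hex.choose_spec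
    refine ⟨hσ, fun f => ?_⟩
    have h2 := (hl (σ y) ((hS _).2 hσ.1) hσ.2).2 hd (fun ν => ν f)
    rw [h2]
    congr 1
    funext m
    rw [← hSt]
    refine Finset.sum_congr rfl fun ν _ => ?_
    rw [map_mul, map_pow]
  have hy₀ : y₀ ∈ Metric.ball y₀ (min ε₁ ε₂) := Metric.mem_ball_self (lt_min hε₁ hε₂)
  refine ⟨min ε₁ ε₂, σ, lt_min hε₁ hε₂, ?_, fun y hyb => (hkey y hyb).1.1, fun f => ?_⟩
  · have h3 := (hkey y₀ hy₀).1
    refine hθ h3.1 hν₀ ?_
    change σ y₀ θ = ν₀ θ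
    rw [h3.2, hz0]
  · have hnum : AnalyticOnNhd ℂ (fun y => SHSecNum (fun i => MvPolynomial.eval y (c i)) (z y)
        (fun m => MvPolynomial.eval y (Algebra.intTrace (PA n) R (f * θ ^ m))))
        (Metric.ball y₀ (min ε₁ ε₂)) := by
      unfold SHSecNum
      refine (Finset.analyticOnNhd_fun_sum _ fun j _ => ?_).add
        (Finset.analyticOnNhd_fun_sum _ fun i _ => ?_)
      · exact ((hza.mono hsub1).pow _).mul (SHSec_an _ _)
      · refine (SHSec_an _ _).mul (Finset.analyticOnNhd_fun_sum _ fun j _ => ?_)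
        exact ((hza.mono hsub1).pow _).mul (SHSec_an _ _)
    refine (hnum.div (hΦ.mono hsub1) fun y hyb => (he y (hsub2 hyb)).1).congr Metric.isOpen_ball
      fun y hyb => ?_
    rw [div_eq_iff (he y (hsub2 hyb)).1, ← (hkey y hyb).2 f, mul_comm]

end Pool.Agent.Lib_KF
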