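import Pool.Agent.Lib_KF.SHBasis
import Pool.Agent.Lib_KF.SHHom
import Pool.Agent.Lib_KF.SHSec
import Pool.Agent.Lib_KF.KCRot

/-! Sheets: the part of `Spec R → ℂ ^ (n + 1)` which is finite etale, `{h ≠ 0}`. -/

open MeasureTheory
open scoped ENNReal NNReal

namespace Pool.Agent.Lib_KF

open Pool.Agent.Lib_GD

/-- `R` over `ℂ[x]` away from `h = 0`: a homogeneous basis `β` of `Frac R` contained in `R`,
`β 0 = 1`, fibres of constant cardinality `k + 1`, local holomorphic sections. -/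
structure Sheets {R : Type} [CommRing R] [Algebra ℂ R] (𝒜 : ℕ → Submodule ℂ R) {n : ℕ}
    (x : Fin (n + 1) → R) (k : ℕ) where
  β : Fin (k + 1) → R
  β_zero : β 0 = 1
  deg : Fin (k + 1) → ℕ
  β_mem : ∀ a, β a ∈ 𝒜 (deg a)
  h : MvPolynomial (Fin (n + 1)) ℂ
  h_ne : h ≠ 0
  w : ℕ
  h_hom : h.IsHomogeneous w
  fin : ∀ y, MvPolynomial.eval y h ≠ 0 → (fib x y).Finite
  card : ∀ y, MvPolynomial.eval y h ≠ 0 → (fib x y).ncard = k + 1
  /-- the matrix `(ν (β a))` is invertible -/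
  indep : ∀ y, MvPolynomial.eval y h ≠ 0 → ∀ c : Fin (k + 1) → ℂ,
    (∀ ν ∈ fib x y, ∑ a, c a * ν (β a) = 0) → c = 0
  /-- local holomorphic sections -/
  sec : ∀ y₀, MvPolynomial.eval y₀ h ≠ 0 → ∀ ν₀ ∈ fib x y₀,
    ∃ (δ : ℝ) (σ : (Fin (n + 1) → ℂ) → (R →ₐ[ℂ] ℂ)), 0 < δ ∧ σ y₀ = ν₀ ∧
      (∀ y ∈ Metric.ball y₀ δ, σ y ∈ fib x y) ∧
      ∀ f, AnalyticOnNhd ℂ (fun y => σ y f) (Metric.ball y₀ δ)
  /-- `h R ⊆ ⨁ ℂ[x] β a` -/
  span : ∀ f : R, ∃ p : Fin (k + 1) → MvPolynomial (Fin (n + 1)) ℂ,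
    MvPolynomial.aeval x h * f = ∑ a, MvPolynomial.aeval x (p a) * β a
  /-- traces -/
  tr : Fin (k + 1) → Fin (k + 1) → MvPolynomial (Fin (n + 1)) ℂ
  tr_eq : ∀ y, MvPolynomial.eval y h ≠ 0 → ∀ a c,
    ∑ᶠ ν ∈ fib x y, ν (β a) * ν (β c) = MvPolynomial.eval y (tr a c)

section SheetDefsAux

variable {R : Type} [CommRing R] [IsDomain R] [IsIntegrallyClosed R] [Algebra ℂ R] {n : ℕ}
  [Algebra (PA n) R] [IsScalarTower ℂ (PA n) R] [Module.Finite (PA n) R]
  [Module.IsTorsionFree (PA n) R]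

/-- the discriminant is equivariant -/
private theorem SheetDefs_disc {𝒜 : ℕ → Submodule ℂ R} [GradedAlgebra 𝒜] {d : ℕ}
    (hx : ∀ b, xx R n b ∈ 𝒜 d) {k : ℕ} (β : Fin (k + 1) → R) (deg : Fin (k + 1) → ℕ)
    (hdeg : ∀ a, β a ∈ 𝒜 (deg a)) (t : ℂ) (ht : t ≠ 0) (y : Fin (n + 1) → ℂ) :
    MvPolynomial.eval (t ^ d • y) (shDisc (n := n) β) =
      t ^ (∑ a, deg a + ∑ a, deg a) * MvPolynomial.eval y (shDisc (n := n) β) := by
  unfold shDisc
  rw [RingHom.map_det, RingHom.map_det]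
  have h1 : ∀ z : Fin (n + 1) → ℂ, (MvPolynomial.eval z).mapMatrix
      (Matrix.of fun a c => Algebra.intTrace (PA n) R (β a * β c)) =
      Matrix.of fun a c => MvPolynomial.eval z (Algebra.intTrace (PA n) R (β a * β c)) := by
    intro z
    ext a c
    simp
  rw [h1, h1]
  have h2 : (Matrix.of fun a c =>
      MvPolynomial.eval (t ^ d • y) (Algebra.intTrace (PA n) R (β a * β c))) =
      Matrix.of fun a c => t ^ deg a * (Matrix.of fun a c => t ^ deg c *
        (Matrix.of fun a c =>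
          MvPolynomial.eval y (Algebra.intTrace (PA n) R (β a * β c))) a c) a c := by
    ext a c
    simp only [Matrix.of_apply]
    rw [sh_trace_hom hx (SetLike.mul_mem_graded (hdeg a) (hdeg c)) t ht y, pow_add]
    ring
  rw [h2, Matrix.det_mul_column, Matrix.det_mul_row, Finset.prod_pow_eq_pow_sum, pow_add]
  ring

/-- the sheets over a `ℂ[x]`-algebra `R` -/
private theorem SheetDefs_main {𝒜 : ℕ → Submodule ℂ R} [GradedAlgebra 𝒜] {d : ℕ} (hd : 1 ≤ d)
    (hx : ∀ b, xx R n b ∈ 𝒜 d) (Q : R) (hQ : Q ≠ 0) (j : ℕ) (hQj : Q ∈ 𝒜 j) :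
    ∃ k, ∃ S : Sheets 𝒜 (xx R n) k,
      ∀ y, MvPolynomial.eval y S.h ≠ 0 → ∀ ν ∈ fib (xx R n) y, ν Q ≠ 0 := by
  classical
  obtain ⟨k, β, deg, hβ0, hdeg, hβ, hsp⟩ := sh_basis (R := R) (n := n) 𝒜
  have hne : shDisc (n := n) β ≠ 0 := shDisc_ne β hβ hsp
  have hspan := shDisc_span β hβ hsp
  have hN : Algebra.intNorm (PA n) R Q ≠ 0 := sh_norm_ne hQ
  obtain ⟨w₁, -, hw₁⟩ := (kc_homog_of_equivariant (shDisc (n := n) β) hd
    (SheetDefs_disc hx β deg hdeg)).resolve_left hne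
  obtain ⟨e, he⟩ := sh_norm_hom hx hQj
  obtain ⟨w₂, -, hw₂⟩ := (kc_homog_of_equivariant (Algebra.intNorm (PA n) R Q) hd he).resolve_left
    hN
  have hev : ∀ y, MvPolynomial.eval y (shDisc (n := n) β * Algebra.intNorm (PA n) R Q) ≠ 0 →
      MvPolynomial.eval y (shDisc (n := n) β) ≠ 0 ∧
      MvPolynomial.eval y (Algebra.intNorm (PA n) R Q) ≠ 0 := by
    intro y hy
    rw [map_mul] at hy
    exact ⟨left_ne_zero_of_mul hy, right_ne_zero_of_mul hy⟩
  have hfb := fun y hy => sh_fibre β hβ hspan y hy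
  refine ⟨k, {
    β := β
    β_zero := hβ0
    deg := deg
    β_mem := hdeg
    h := shDisc (n := n) β * Algebra.intNorm (PA n) R Q
    h_ne := mul_ne_zero hne hN
    w := w₁ + w₂
    h_hom := hw₁.mul hw₂
    fin := fun y hy => (hfb y (hev y hy).1).1
    card := fun y hy => (hfb y (hev y hy).1).2.1
    indep := fun y hy => (hfb y (hev y hy).1).2.2.1
    sec := fun y₀ hy₀ ν₀ hν₀ => sh_sec β hβ hspan y₀ (hev y₀ hy₀).1 ν₀ hν₀
    span := ?_
    tr := fun a c => Algebra.intTrace (PA n) R (β a * β c)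
    tr_eq := ?_ }, ?_⟩
  · intro f
    obtain ⟨p, hp⟩ := hspan f
    refine ⟨fun a => Algebra.intNorm (PA n) R Q * p a, ?_⟩
    rw [aeval_xx, map_mul, mul_right_comm, hp, Finset.sum_mul]
    refine Finset.sum_congr rfl fun a _ => ?_
    rw [aeval_xx, map_mul]
    ring
  · intro y hy a c
    rw [← (hfb y (hev y hy).1).2.2.2.1 (β a * β c)]
    exact finsum_mem_congr rfl fun ν _ => (map_mul ν _ _).symm
  · intro y hy ν hν h0
    refine (hev y hy).2 ?_
    rw [← (hfb y (hev y hy).1).2.2.2.2 Q,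
      finprod_mem_eq_finite_toFinset_prod _ (hfb y (hev y hy).1).1]
    exact Finset.prod_eq_zero ((Set.Finite.mem_toFinset _).2 hν) h0

end SheetDefsAux

/-- For every non-zero homogeneous `Q` there are sheets on which `Q` does not vanish.
Proof (SH6): let `ℂ[x]` act on `R` through `aeval x` (`letI := (MvPolynomial.aeval x).toAlgebra`;
finite by `x_finite`, torsion free by `x_indep`), then `xx R n = x`. `sh_basis`, `shDisc_ne`,
`shDisc_span`, `sh_fibre`, `sh_sec` give everything with `tr a c = intTrace (β a * β c)` and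
`h = shDisc β * intNorm Q`: homogeneous by `sh_trace_hom`, `sh_norm_hom` and
`kc_homog_of_equivariant` (for the determinant: `δ (t ^ d y) = t ^ (2 ∑ deg a) δ (y)`, each row and
column scales). `ν Q ≠ 0` by the product formula for the norm. -/
theorem exists_sheets {R : Type} [CommRing R] [Algebra ℂ R] {𝒜 : ℕ → Submodule ℂ R}
    [GradedAlgebra 𝒜] {n r d : ℕ} {x : Fin (n + 1) → R} {G : R} (h : IsFano 𝒜 n r d x G)
    (Q : R) (hQ : Q ≠ 0) (j : ℕ) (hQj : Q ∈ 𝒜 j) :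
    ∃ k, ∃ S : Sheets 𝒜 x k, ∀ y, MvPolynomial.eval y S.h ≠ 0 → ∀ ν ∈ fib x y, ν Q ≠ 0 := by
  have := h.domain
  have := h.normal
  letI : Algebra (PA n) R :=
    (MvPolynomial.aeval x : MvPolynomial (Fin (n + 1)) ℂ →ₐ[ℂ] R).toRingHom.toAlgebra
  have hmap : ∀ p : PA n, algebraMap (PA n) R p = MvPolynomial.aeval x p := fun p => rfl
  haveI : IsScalarTower ℂ (PA n) R := IsScalarTower.of_algebraMap_eq fun c => by
    rw [hmap, MvPolynomial.algebraMap_eq, MvPolynomial.aeval_C]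
  have hfin := h.x_finite
  rw [Algebra.adjoin_range_eq_range_aeval] at hfin
  haveI : Module.Finite (PA n) R := by
    have h1 : (algebraMap (MvPolynomial.aeval x : MvPolynomial (Fin (n + 1)) ℂ →ₐ[ℂ] R).range
        R).Finite := RingHom.finite_algebraMap.2 hfin
    have h2 : (MvPolynomial.aeval x :
        MvPolynomial (Fin (n + 1)) ℂ →ₐ[ℂ] R).rangeRestrict.toRingHom.Finite :=
      RingHom.Finite.of_surjective _
        (AlgHom.rangeRestrict_surjective (MvPolynomial.aeval x))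
    exact RingHom.finite_algebraMap.1 (h1.comp h2)
  haveI : Module.IsTorsionFree (PA n) R :=
    Module.isTorsionFree_iff_algebraMap_injective.2 h.x_indep
  have hxx : xx R n = x := by
    funext b
    rw [xx, hmap, MvPolynomial.aeval_X]
  have hx : ∀ b, xx R n b ∈ 𝒜 d := by
    rw [hxx]
    exact h.x_mem
  have key := SheetDefs_main (𝒜 := 𝒜) h.d_pos hx Q hQ j hQj
  rw [hxx] at key
  exact key

end Pool.Agent.Lib_KF
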